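import Pool.Agent.TH447.FP.Core

/-!
Generated case analysis (complementary pivoting, found and written by a program): an order
preserving map `f` of a poset with a special element such that `x` and `f x` are always
incomparable does not exist if all chains of elements `m` or `m ∨ x` with `m ≤ s` and `x` without a meet with `s`
have at most 5 elements.
-/

set_option autoImplicit false
set_option maxRecDepth 100000
set_option linter.all false

namespace Pool.Agent.TH447.FP

theorem fourCore {P : Type} [PartialOrder P] (e0 : P) (f : P → P) (hf : Monotone f)
    (HL : ∀ a1 a2 a3 a4 a5 a6 : P, Core e0 a1 → Core e0 a2 → Core e0 a3 → Core e0 a4 → Core e0 a5 → Core e0 a6 → a1 < a2 → a2 < a3 → a3 < a4 → a4 < a5 → a5 < a6 → False)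
    (h1 : ∀ x : P, (∃ z : P, IsLUB ({e0, x} : Set P) z) ∨ (∃ z : P, IsGLB ({e0, x} : Set P) z))
    (h2 : ∀ x y : P, x < y → (¬ ∃ z : P, IsGLB ({e0, x} : Set P) z) →
      ∀ m : P, IsGLB ({e0, y} : Set P) m → ∃ z : P, IsLUB ({m, x} : Set P) z)
    (c0 : Core e0 e0) (hF : ∀ x, ¬ x ≤ f x) (hG : ∀ x, ¬ f x ≤ x) : False := by
  obtain ⟨e1, q1⟩ : ∃ y, f e0 = y := ⟨_, rfl⟩
  have k1 : ¬ e0 ≤ e1 := FA hF q1
  have k2 : ¬ e1 ≤ e0 := FB hG q1
  by_cases k3 : ∃ z, IsGLB ({e0, e1} : Set P) z
  · obtain ⟨e2, g2⟩ := k3
    have c2 : Core e0 e2 := CM g2
    have k6 : e2 ≤ e0 := G1 g2
    have k7 : e2 ≤ e1 := G2 g2
    have k9 : ¬ e0 ≤ e2 := N2 k1 k7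
    obtain ⟨e3, q3⟩ : ∃ y, f e2 = y := ⟨_, rfl⟩
    have k12 : ¬ e2 ≤ e3 := FA hF q3
    have k13 : ¬ e3 ≤ e2 := FB hG q3
    have k14 : e3 ≤ e1 := MO hf q3 q1 k6
    have k15 : ¬ e3 ≤ e0 := G5 g2 k14 k13
    by_cases k18 : ∃ z, IsGLB ({e0, e3} : Set P) z
    · obtain ⟨e4, g4⟩ := k18
      have c4 : Core e0 e4 := CM g4
      have k21 : e4 ≤ e0 := G1 g4
      have k22 : e4 ≤ e3 := G2 g4
      have k24 : e4 ≤ e1 := le_trans k22 k14
      have k27 : ¬ e2 ≤ e4 := N2 k12 k22
      have k29 : e4 ≤ e2 := G3 g2 k21 k24
      obtain ⟨e5, q5⟩ : ∃ y, f e4 = y := ⟨_, rfl⟩
      have k31 : ¬ e4 ≤ e5 := FA hF q5
      have k32 : ¬ e5 ≤ e4 := FB hG q5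
      have k33 : e5 ≤ e1 := MO hf q5 q1 k21
      have k34 : e5 ≤ e3 := MO hf q5 q3 k29
      have k35 : ¬ e5 ≤ e0 := G5 g4 k34 k32
      have k40 : ¬ e5 ≤ e2 := N2 k35 k6
      by_cases k41 : ∃ z, IsGLB ({e0, e5} : Set P) z
      · obtain ⟨e6, g6⟩ := k41
        have c6 : Core e0 e6 := CM g6
        have k44 : e6 ≤ e0 := G1 g6
        have k45 : e6 ≤ e5 := G2 g6
        have k47 : e6 ≤ e1 := le_trans k45 k33
        have k48 : e6 ≤ e3 := le_trans k45 k34
        have k53 : ¬ e4 ≤ e6 := N2 k31 k45
        have k55 : e6 ≤ e2 := G3 g2 k44 k47
        have k56 : e6 ≤ e4 := G3 g4 k44 k48
        obtain ⟨e7, q7⟩ : ∃ y, f e6 = y := ⟨_, rfl⟩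
        have k58 : ¬ e6 ≤ e7 := FA hF q7
        have k59 : ¬ e7 ≤ e6 := FB hG q7
        have k60 : e7 ≤ e1 := MO hf q7 q1 k44
        have k61 : e7 ≤ e3 := MO hf q7 q3 k55
        have k62 : e7 ≤ e5 := MO hf q7 q5 k56
        have k63 : ¬ e7 ≤ e0 := G5 g6 k62 k59
        have k70 : ¬ e7 ≤ e2 := N2 k63 k6
        have k71 : ¬ e7 ≤ e4 := N2 k63 k21
        by_cases k72 : ∃ z, IsGLB ({e0, e7} : Set P) z
        · obtain ⟨e8, g8⟩ := k72
          have c8 : Core e0 e8 := CM g8
          have k75 : e8 ≤ e0 := G1 g8
          have k76 : e8 ≤ e7 := G2 g8
          have k80 : e8 ≤ e5 := le_trans k76 k62
          have k87 : ¬ e6 ≤ e8 := N2 k58 k76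
          have k91 : e8 ≤ e6 := G3 g6 k75 k80
          obtain ⟨e9, q9⟩ : ∃ y, f e8 = y := ⟨_, rfl⟩
          have k93 : ¬ e8 ≤ e9 := FA hF q9
          have k94 : ¬ e9 ≤ e8 := FB hG q9
          have k98 : e9 ≤ e7 := MO hf q9 q7 k91
          have k99 : ¬ e9 ≤ e0 := G5 g8 k98 k94
          by_cases k111 : ∃ z, IsGLB ({e0, e9} : Set P) z
          · obtain ⟨e10, g10⟩ := k111
            have c10 : Core e0 e10 := CM g10
            have k114 : e10 ≤ e0 := G1 g10
            have k115 : e10 ≤ e9 := G2 g10
            have k120 : e10 ≤ e7 := le_trans k115 k98
            have k129 : ¬ e8 ≤ e10 := N2 k93 k115
            have k134 : e10 ≤ e8 := G3 g8 k114 k120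
            exact HL _ _ _ _ _ _ c10 c8 c6 c4 c2 c0 (LT k134 k129) (LT k91 k87) (LT k56 k53) (LT k29 k27) (LT k6 k9)
          · obtain ⟨e10, l10⟩ := (h1 e9).resolve_right k111
            have c10 : Core e0 e10 := CJ k111 l10
            have k114 : e0 ≤ e10 := L1 l10
            have k115 : e9 ≤ e10 := L2 l10
            have k130 : ¬ e10 ≤ e0 := N1 k99 k115
            exact HL _ _ _ _ _ _ c8 c6 c4 c2 c0 c10 (LT k91 k87) (LT k56 k53) (LT k29 k27) (LT k6 k9) (LT k114 k130)
        · obtain ⟨e8, l8⟩ := (h1 e7).resolve_right k72
          have c8 : Core e0 e8 := CJ k72 l8
          have k75 : e0 ≤ e8 := L1 l8
          have k76 : e7 ≤ e8 := L2 l8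
          have k80 : e6 ≤ e8 := le_trans k44 k75
          have k88 : ¬ e8 ≤ e0 := N1 k63 k76
          obtain ⟨e9, q9⟩ : ∃ y, f e8 = y := ⟨_, rfl⟩
          have k90 : e1 ≤ e9 := MO hf q1 q9 k75
          have k93 : e7 ≤ e9 := MO hf q7 q9 k80
          have k94 : ¬ e8 ≤ e9 := FA hF q9
          have k95 : ¬ e9 ≤ e8 := FB hG q9
          have k96 : ¬ e0 ≤ e9 := L5 l8 k93 k94
          have k97 : e2 ≤ e9 := le_trans k7 k90
          have k98 : e4 ≤ e9 := le_trans k24 k90
          have k99 : e6 ≤ e9 := le_trans k47 k90
          by_cases k107 : ∃ z, IsGLB ({e0, e9} : Set P) z
          · obtain ⟨e10, g10⟩ := k107
            have c10 : Core e0 e10 := CM g10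
            have k110 : e10 ≤ e0 := G1 g10
            have k111 : e10 ≤ e9 := G2 g10
            have k112 : e2 ≤ e10 := G3 g10 k6 k97
            have k113 : e4 ≤ e10 := G3 g10 k21 k98
            have k114 : e6 ≤ e10 := G3 g10 k44 k99
            have k117 : e10 ≤ e8 := le_trans k110 k75
            have k118 : ¬ e0 ≤ e10 := N2 k96 k111
            have k123 : ¬ e10 ≤ e4 := N1 k27 k112
            have k128 : ¬ e7 ≤ e10 := N2 k63 k110
            have k129 : e10 ≤ e2 := Classical.byContradiction fun hn => HL _ _ _ _ _ _ c6 c4 c2 c10 c0 c8 (LT k56 k53) (LT k29 k27) (LT k112 hn) (LT k110 k118) (LT k75 k88)
            have k130 : e10 ≤ e1 := le_trans k129 k7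
            obtain ⟨e11, l11⟩ := ZE h2 k93 k72 g10
            have c11 : Core e0 e11 := CZ g10 k72 l11
            have k133 : e10 ≤ e11 := L1 l11
            have k134 : e7 ≤ e11 := L2 l11
            have k135 : e11 ≤ e1 := L3 l11 k130 k60
            have k136 : e11 ≤ e8 := L3 l11 k117 k76
            have k138 : e2 ≤ e11 := le_trans k112 k133
            have k140 : e6 ≤ e11 := le_trans k114 k133
            have k141 : ¬ e0 ≤ e11 := N2 k1 k135
            have k142 : ¬ e8 ≤ e11 := N1 k141 k75
            have k149 : ¬ e11 ≤ e2 := N1 k70 k134
            have k150 : ¬ e11 ≤ e10 := N1 k128 k134
            obtain ⟨e12, q12⟩ : ∃ y, f e11 = y := ⟨_, rfl⟩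
            have k154 : e3 ≤ e12 := MO hf q3 q12 k138
            have k156 : e7 ≤ e12 := MO hf q7 q12 k140
            have k157 : ¬ e11 ≤ e12 := FA hF q12
            have k158 : ¬ e12 ≤ e11 := FB hG q12
            have k159 : e12 ≤ e9 := MO hf q12 q9 k136
            have k160 : ¬ e10 ≤ e12 := L5 l11 k156 k157
            have k161 : e4 ≤ e12 := le_trans k22 k154
            have k162 : e6 ≤ e12 := le_trans k48 k154
            have k173 : ¬ e2 ≤ e12 := N1 k160 k129
            by_cases k175 : ∃ z, IsGLB ({e0, e12} : Set P) z
            · obtain ⟨e13, g13⟩ := k175
              have c13 : Core e0 e13 := CM g13
              have k178 : e13 ≤ e0 := G1 g13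
              have k179 : e13 ≤ e12 := G2 g13
              have k180 : e4 ≤ e13 := G3 g13 k21 k161
              have k181 : e6 ≤ e13 := G3 g13 k44 k162
              have k184 : e13 ≤ e8 := le_trans k178 k75
              have k185 : e13 ≤ e9 := le_trans k179 k159
              have k190 : ¬ e2 ≤ e13 := N2 k173 k179
              have k196 : ¬ e13 ≤ e6 := N1 k53 k180
              have k198 : ¬ e7 ≤ e13 := N2 k63 k178
              have k199 : e13 ≤ e10 := G3 g10 k178 k185
              have k201 : e13 ≤ e2 := le_trans k199 k129
              have k202 : e13 ≤ e11 := le_trans k199 k133
              have k203 : e13 ≤ e4 := Classical.byContradiction fun hn => HL _ _ _ _ _ _ c6 c4 c13 c2 c0 c8 (LT k56 k53) (LT k180 hn) (LT k201 k190) (LT k6 k9) (LT k75 k88)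
              have k204 : e13 ≤ e3 := le_trans k203 k22
              obtain ⟨e14, l14⟩ := ZE h2 k156 k72 g13
              have c14 : Core e0 e14 := CZ g13 k72 l14
              have k207 : e13 ≤ e14 := L1 l14
              have k208 : e7 ≤ e14 := L2 l14
              have k210 : e14 ≤ e3 := L3 l14 k204 k61
              have k211 : e14 ≤ e8 := L3 l14 k184 k76
              have k213 : e14 ≤ e11 := L3 l14 k202 k134
              have k215 : e4 ≤ e14 := le_trans k180 k207
              have k216 : e6 ≤ e14 := le_trans k181 k207
              have k221 : ¬ e2 ≤ e14 := N2 k12 k210
              have k223 : ¬ e11 ≤ e14 := N1 k221 k138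
              have k229 : ¬ e14 ≤ e4 := N1 k71 k208
              have k231 : ¬ e14 ≤ e13 := N1 k198 k208
              obtain ⟨e15, q15⟩ : ∃ y, f e14 = y := ⟨_, rfl⟩
              have k235 : e5 ≤ e15 := MO hf q5 q15 k215
              have k236 : e7 ≤ e15 := MO hf q7 q15 k216
              have k237 : ¬ e14 ≤ e15 := FA hF q15
              have k238 : ¬ e15 ≤ e14 := FB hG q15
              have k239 : e15 ≤ e9 := MO hf q15 q9 k211
              have k240 : e15 ≤ e12 := MO hf q15 q12 k213
              have k241 : ¬ e13 ≤ e15 := L5 l14 k236 k237
              have k242 : e6 ≤ e15 := le_trans k45 k235
              have k258 : ¬ e4 ≤ e15 := N1 k241 k203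
              by_cases k260 : ∃ z, IsGLB ({e0, e15} : Set P) z
              · obtain ⟨e16, g16⟩ := k260
                have c16 : Core e0 e16 := CM g16
                have k263 : e16 ≤ e0 := G1 g16
                have k264 : e16 ≤ e15 := G2 g16
                have k265 : e6 ≤ e16 := G3 g16 k44 k242
                have k268 : e16 ≤ e8 := le_trans k263 k75
                have k269 : e16 ≤ e9 := le_trans k264 k239
                have k270 : e16 ≤ e12 := le_trans k264 k240
                have k280 : ¬ e4 ≤ e16 := N2 k258 k264
                have k286 : e16 ≤ e10 := G3 g10 k263 k269
                have k287 : e16 ≤ e13 := G3 g13 k263 k270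
                have k290 : e16 ≤ e11 := le_trans k286 k133
                have k292 : e16 ≤ e4 := le_trans k287 k203
                have k293 : e16 ≤ e14 := le_trans k287 k207
                have k294 : e16 ≤ e6 := Classical.byContradiction fun hn => HL _ _ _ _ _ _ c6 c16 c4 c2 c0 c8 (LT k265 hn) (LT k292 k280) (LT k29 k27) (LT k6 k9) (LT k75 k88)
                obtain ⟨e17, l17⟩ := ZE h2 k236 k72 g16
                have c17 : Core e0 e17 := CZ g16 k72 l17
                have k298 : e16 ≤ e17 := L1 l17
                have k299 : e7 ≤ e17 := L2 l17
                have k303 : e17 ≤ e8 := L3 l17 k268 k76
                have k305 : e17 ≤ e11 := L3 l17 k290 k134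
                have k307 : e17 ≤ e14 := L3 l17 k293 k208
                have k309 : e6 ≤ e17 := le_trans k265 k298
                have k326 : ¬ e17 ≤ e6 := N1 k59 k299
                obtain ⟨e18, q18⟩ : ∃ y, f e17 = y := ⟨_, rfl⟩
                have k333 : e7 ≤ e18 := MO hf q7 q18 k309
                have k334 : ¬ e17 ≤ e18 := FA hF q18
                have k335 : ¬ e18 ≤ e17 := FB hG q18
                have k336 : e18 ≤ e9 := MO hf q18 q9 k303
                have k337 : e18 ≤ e12 := MO hf q18 q12 k305
                have k338 : e18 ≤ e15 := MO hf q18 q15 k307
                have k339 : ¬ e16 ≤ e18 := L5 l17 k333 k334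
                have k360 : ¬ e6 ≤ e18 := N1 k339 k294
                by_cases k363 : ∃ z, IsGLB ({e0, e18} : Set P) z
                · obtain ⟨e19, g19⟩ := k363
                  have c19 : Core e0 e19 := CM g19
                  have k366 : e19 ≤ e0 := G1 g19
                  have k367 : e19 ≤ e18 := G2 g19
                  have k373 : e19 ≤ e15 := le_trans k367 k338
                  have k388 : ¬ e6 ≤ e19 := N2 k360 k367
                  have k389 : ¬ e16 ≤ e19 := N1 k388 k265
                  have k395 : e19 ≤ e16 := G3 g16 k366 k373
                  exact HL _ _ _ _ _ _ c19 c16 c4 c10 c0 c8 (LT k395 k389) (LT k292 k280) (LT k113 k123) (LT k110 k118) (LT k75 k88)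
                · obtain ⟨e19, l19⟩ := (h1 e18).resolve_right k363
                  have c19 : Core e0 e19 := CJ k363 l19
                  have k366 : e0 ≤ e19 := L1 l19
                  have k367 : e18 ≤ e19 := L2 l19
                  have k375 : e7 ≤ e19 := le_trans k333 k367
                  have k394 : e8 ≤ e19 := L3 l8 k366 k375
                  have k398 : e19 ≤ e8 := Classical.byContradiction fun hn => HL _ _ _ _ _ _ c6 c13 c14 c11 c8 c19 (LT k181 k196) (LT k207 k231) (LT k213 k223) (LT k136 k142) (LT k394 hn)
                  have k399 : e18 ≤ e8 := le_trans k367 k398
                  obtain ⟨e20, l20⟩ := ZE h2 k336 k363 g10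
                  have c20 : Core e0 e20 := CZ g10 k363 l20
                  have k403 : e10 ≤ e20 := L1 l20
                  have k404 : e18 ≤ e20 := L2 l20
                  have k405 : e20 ≤ e8 := L3 l20 k117 k399
                  have k406 : e20 ≤ e9 := L3 l20 k111 k336
                  have k413 : e7 ≤ e20 := le_trans k333 k404
                  have k414 : ¬ e0 ≤ e20 := N2 k96 k406
                  have k415 : ¬ e8 ≤ e20 := N1 k414 k75
                  have k434 : e11 ≤ e20 := L3 l11 k403 k413
                  have k437 : e20 ≤ e11 := Classical.byContradiction fun hn => HL _ _ _ _ _ _ c6 c13 c14 c11 c20 c8 (LT k181 k196) (LT k207 k231) (LT k213 k223) (LT k434 hn) (LT k405 k415)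
                  have k440 : e18 ≤ e11 := le_trans k404 k437
                  obtain ⟨e21, l21⟩ := ZE h2 k337 k363 g13
                  have c21 : Core e0 e21 := CZ g13 k363 l21
                  have k444 : e13 ≤ e21 := L1 l21
                  have k445 : e18 ≤ e21 := L2 l21
                  have k449 : e21 ≤ e11 := L3 l21 k202 k440
                  have k450 : e21 ≤ e12 := L3 l21 k179 k337
                  have k456 : e7 ≤ e21 := le_trans k333 k445
                  have k462 : ¬ e2 ≤ e21 := N2 k173 k450
                  have k464 : ¬ e11 ≤ e21 := N1 k462 k138
                  have k480 : e14 ≤ e21 := L3 l14 k444 k456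
                  have k482 : e21 ≤ e14 := Classical.byContradiction fun hn => HL _ _ _ _ _ _ c6 c13 c14 c21 c11 c8 (LT k181 k196) (LT k207 k231) (LT k480 hn) (LT k449 k464) (LT k136 k142)
                  have k485 : e18 ≤ e14 := le_trans k445 k482
                  obtain ⟨e22, l22⟩ := ZE h2 k338 k363 g16
                  have c22 : Core e0 e22 := CZ g16 k363 l22
                  have k489 : e16 ≤ e22 := L1 l22
                  have k490 : e18 ≤ e22 := L2 l22
                  have k497 : e22 ≤ e14 := L3 l22 k293 k485
                  have k498 : e22 ≤ e15 := L3 l22 k264 k338
                  have k503 : e7 ≤ e22 := le_trans k333 k490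
                  have k515 : ¬ e4 ≤ e22 := N2 k258 k498
                  have k517 : ¬ e14 ≤ e22 := N1 k515 k215
                  have k529 : ¬ e22 ≤ e17 := N1 k335 k490
                  have k531 : e17 ≤ e22 := L3 l17 k489 k503
                  exact HL _ _ _ _ _ _ c6 c17 c22 c14 c11 c8 (LT k309 k326) (LT k531 k529) (LT k497 k517) (LT k213 k223) (LT k136 k142)
              · obtain ⟨e16, l16⟩ := (h1 e15).resolve_right k260
                have c16 : Core e0 e16 := CJ k260 l16
                have k263 : e0 ≤ e16 := L1 l16
                have k264 : e15 ≤ e16 := L2 l16
                have k272 : e7 ≤ e16 := le_trans k236 k264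
                have k288 : e8 ≤ e16 := L3 l8 k263 k272
                have k291 : e16 ≤ e8 := Classical.byContradiction fun hn => HL _ _ _ _ _ _ c6 c13 c14 c11 c8 c16 (LT k181 k196) (LT k207 k231) (LT k213 k223) (LT k136 k142) (LT k288 hn)
                have k293 : e15 ≤ e8 := le_trans k264 k291
                obtain ⟨e17, l17⟩ := ZE h2 k239 k260 g10
                have c17 : Core e0 e17 := CZ g10 k260 l17
                have k297 : e10 ≤ e17 := L1 l17
                have k298 : e15 ≤ e17 := L2 l17
                have k299 : e17 ≤ e8 := L3 l17 k117 k293
                have k300 : e17 ≤ e9 := L3 l17 k111 k239
                have k307 : e7 ≤ e17 := le_trans k236 k298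
                have k308 : ¬ e0 ≤ e17 := N2 k96 k300
                have k309 : ¬ e8 ≤ e17 := N1 k308 k75
                have k325 : e11 ≤ e17 := L3 l11 k297 k307
                have k327 : e17 ≤ e11 := Classical.byContradiction fun hn => HL _ _ _ _ _ _ c6 c13 c14 c11 c17 c8 (LT k181 k196) (LT k207 k231) (LT k213 k223) (LT k325 hn) (LT k299 k309)
                have k331 : e15 ≤ e11 := le_trans k298 k327
                obtain ⟨e18, l18⟩ := ZE h2 k240 k260 g13
                have c18 : Core e0 e18 := CZ g13 k260 l18
                have k335 : e13 ≤ e18 := L1 l18
                have k336 : e15 ≤ e18 := L2 l18
                have k340 : e18 ≤ e11 := L3 l18 k202 k331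
                have k341 : e18 ≤ e12 := L3 l18 k179 k240
                have k347 : e7 ≤ e18 := le_trans k236 k336
                have k353 : ¬ e2 ≤ e18 := N2 k173 k341
                have k355 : ¬ e11 ≤ e18 := N1 k353 k138
                have k367 : ¬ e18 ≤ e14 := N1 k238 k336
                have k369 : e14 ≤ e18 := L3 l14 k335 k347
                exact HL _ _ _ _ _ _ c6 c4 c14 c18 c11 c8 (LT k56 k53) (LT k215 k229) (LT k369 k367) (LT k340 k355) (LT k136 k142)
            · obtain ⟨e13, l13⟩ := (h1 e12).resolve_right k175
              have c13 : Core e0 e13 := CJ k175 l13
              have k178 : e0 ≤ e13 := L1 l13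
              have k179 : e12 ≤ e13 := L2 l13
              have k187 : e7 ≤ e13 := le_trans k156 k179
              have k200 : e8 ≤ e13 := L3 l8 k178 k187
              have k202 : e13 ≤ e8 := Classical.byContradiction fun hn => HL _ _ _ _ _ _ c6 c4 c10 c11 c8 c13 (LT k56 k53) (LT k113 k123) (LT k133 k150) (LT k136 k142) (LT k200 hn)
              have k205 : e12 ≤ e8 := le_trans k179 k202
              obtain ⟨e14, l14⟩ := ZE h2 k159 k175 g10
              have c14 : Core e0 e14 := CZ g10 k175 l14
              have k209 : e10 ≤ e14 := L1 l14
              have k210 : e12 ≤ e14 := L2 l14
              have k211 : e14 ≤ e8 := L3 l14 k117 k205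
              have k212 : e14 ≤ e9 := L3 l14 k111 k159
              have k219 : e7 ≤ e14 := le_trans k156 k210
              have k220 : ¬ e0 ≤ e14 := N2 k96 k212
              have k221 : ¬ e8 ≤ e14 := N1 k220 k75
              have k233 : ¬ e14 ≤ e11 := N1 k158 k210
              have k235 : e11 ≤ e14 := L3 l11 k209 k219
              exact HL _ _ _ _ _ _ c6 c4 c2 c11 c14 c8 (LT k56 k53) (LT k29 k27) (LT k138 k149) (LT k235 k233) (LT k211 k221)
          · obtain ⟨e10, l10⟩ := (h1 e9).resolve_right k107
            have c10 : Core e0 e10 := CJ k107 l10
            have k110 : e0 ≤ e10 := L1 l10
            have k111 : e9 ≤ e10 := L2 l10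
            have k119 : e7 ≤ e10 := le_trans k93 k111
            have k129 : ¬ e10 ≤ e8 := N1 k95 k111
            have k130 : e8 ≤ e10 := L3 l8 k110 k119
            exact HL _ _ _ _ _ _ c6 c4 c2 c0 c8 c10 (LT k56 k53) (LT k29 k27) (LT k6 k9) (LT k75 k88) (LT k130 k129)
      · obtain ⟨e6, l6⟩ := (h1 e5).resolve_right k41
        have c6 : Core e0 e6 := CJ k41 l6
        have k44 : e0 ≤ e6 := L1 l6
        have k45 : e5 ≤ e6 := L2 l6
        have k48 : e4 ≤ e6 := le_trans k21 k44
        have k54 : ¬ e6 ≤ e0 := N1 k35 k45
        obtain ⟨e7, q7⟩ : ∃ y, f e6 = y := ⟨_, rfl⟩
        have k56 : e1 ≤ e7 := MO hf q1 q7 k44
        have k58 : e5 ≤ e7 := MO hf q5 q7 k48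
        have k59 : ¬ e6 ≤ e7 := FA hF q7
        have k60 : ¬ e7 ≤ e6 := FB hG q7
        have k61 : ¬ e0 ≤ e7 := L5 l6 k58 k59
        have k62 : e2 ≤ e7 := le_trans k7 k56
        have k63 : e4 ≤ e7 := le_trans k24 k56
        by_cases k69 : ∃ z, IsGLB ({e0, e7} : Set P) z
        · obtain ⟨e8, g8⟩ := k69
          have c8 : Core e0 e8 := CM g8
          have k72 : e8 ≤ e0 := G1 g8
          have k73 : e8 ≤ e7 := G2 g8
          have k74 : e2 ≤ e8 := G3 g8 k6 k62
          have k75 : e4 ≤ e8 := G3 g8 k21 k63
          have k78 : e8 ≤ e6 := le_trans k72 k44
          have k79 : ¬ e0 ≤ e8 := N2 k61 k73
          have k84 : ¬ e8 ≤ e4 := N1 k27 k74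
          have k85 : ¬ e3 ≤ e8 := N2 k15 k72
          have k86 : ¬ e5 ≤ e8 := N2 k35 k72
          by_cases k87 : e8 ≤ e2
          · have k88 : e8 ≤ e1 := le_trans k87 k7
            obtain ⟨e9, l9⟩ := ZE h2 k58 k41 g8
            have c9 : Core e0 e9 := CZ g8 k41 l9
            have k91 : e8 ≤ e9 := L1 l9
            have k92 : e5 ≤ e9 := L2 l9
            have k93 : e9 ≤ e1 := L3 l9 k88 k33
            have k94 : e9 ≤ e6 := L3 l9 k78 k45
            have k96 : e2 ≤ e9 := le_trans k74 k91
            have k97 : e4 ≤ e9 := le_trans k75 k91
            have k98 : ¬ e0 ≤ e9 := N2 k1 k93
            have k99 : ¬ e6 ≤ e9 := N1 k98 k44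
            have k104 : ¬ e9 ≤ e2 := N1 k40 k92
            have k105 : ¬ e9 ≤ e8 := N1 k86 k92
            obtain ⟨e10, q10⟩ : ∃ y, f e9 = y := ⟨_, rfl⟩
            have k109 : e3 ≤ e10 := MO hf q3 q10 k96
            have k110 : e5 ≤ e10 := MO hf q5 q10 k97
            have k111 : ¬ e9 ≤ e10 := FA hF q10
            have k112 : ¬ e10 ≤ e9 := FB hG q10
            have k113 : e10 ≤ e7 := MO hf q10 q7 k94
            have k114 : ¬ e8 ≤ e10 := L5 l9 k110 k111
            have k115 : e4 ≤ e10 := le_trans k22 k109
            have k124 : ¬ e2 ≤ e10 := N1 k114 k87
            by_cases k126 : ∃ z, IsGLB ({e0, e10} : Set P) z
            · obtain ⟨e11, g11⟩ := k126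
              have c11 : Core e0 e11 := CM g11
              have k129 : e11 ≤ e0 := G1 g11
              have k130 : e11 ≤ e10 := G2 g11
              have k131 : e4 ≤ e11 := G3 g11 k21 k115
              have k134 : e11 ≤ e6 := le_trans k129 k44
              have k135 : e11 ≤ e7 := le_trans k130 k113
              have k140 : ¬ e2 ≤ e11 := N2 k124 k130
              have k145 : ¬ e5 ≤ e11 := N2 k35 k129
              have k146 : e11 ≤ e8 := G3 g8 k129 k135
              have k147 : e11 ≤ e1 := le_trans k146 k88
              have k148 : e11 ≤ e2 := le_trans k146 k87
              have k149 : e11 ≤ e9 := le_trans k146 k91
              by_cases k150 : e11 ≤ e4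
              · have k151 : e11 ≤ e3 := le_trans k150 k22
                obtain ⟨e12, l12⟩ := ZE h2 k110 k41 g11
                have c12 : Core e0 e12 := CZ g11 k41 l12
                have k154 : e11 ≤ e12 := L1 l12
                have k155 : e5 ≤ e12 := L2 l12
                have k157 : e12 ≤ e3 := L3 l12 k151 k34
                have k158 : e12 ≤ e6 := L3 l12 k134 k45
                have k160 : e12 ≤ e9 := L3 l12 k149 k92
                have k162 : e4 ≤ e12 := le_trans k131 k154
                have k167 : ¬ e2 ≤ e12 := N2 k12 k157
                have k169 : ¬ e9 ≤ e12 := N1 k167 k96
                have k173 : ¬ e12 ≤ e4 := N1 k32 k155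
                have k175 : ¬ e12 ≤ e11 := N1 k145 k155
                obtain ⟨e13, q13⟩ : ∃ y, f e12 = y := ⟨_, rfl⟩
                have k179 : e5 ≤ e13 := MO hf q5 q13 k162
                have k180 : ¬ e12 ≤ e13 := FA hF q13
                have k181 : ¬ e13 ≤ e12 := FB hG q13
                have k182 : e13 ≤ e7 := MO hf q13 q7 k158
                have k183 : e13 ≤ e10 := MO hf q13 q10 k160
                have k184 : ¬ e11 ≤ e13 := L5 l12 k179 k180
                have k198 : ¬ e4 ≤ e13 := N1 k184 k150
                by_cases k201 : ∃ z, IsGLB ({e0, e13} : Set P) z
                · obtain ⟨e14, g14⟩ := k201
                  have c14 : Core e0 e14 := CM g14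
                  have k204 : e14 ≤ e0 := G1 g14
                  have k205 : e14 ≤ e13 := G2 g14
                  have k206 : ¬ e14 ≤ e5 := BN3 g14 k41 k179
                  have k208 : e14 ≤ e6 := le_trans k204 k44
                  have k209 : e14 ≤ e7 := le_trans k205 k182
                  have k210 : e14 ≤ e10 := le_trans k205 k183
                  have k220 : ¬ e4 ≤ e14 := N2 k198 k205
                  have k225 : e14 ≤ e8 := G3 g8 k204 k209
                  have k226 : e14 ≤ e11 := G3 g11 k204 k210
                  have k229 : e14 ≤ e9 := le_trans k225 k91
                  have k231 : e14 ≤ e4 := le_trans k226 k150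
                  have k232 : e14 ≤ e12 := le_trans k226 k154
                  obtain ⟨e15, q15⟩ : ∃ y, f e14 = y := ⟨_, rfl⟩
                  have k235 : ¬ e15 ≤ e14 := FB hG q15
                  have k238 : e15 ≤ e5 := MO hf q15 q5 k231
                  have k240 : e15 ≤ e10 := MO hf q15 q10 k229
                  have k241 : e15 ≤ e13 := MO hf q15 q13 k232
                  have k242 : ¬ e15 ≤ e0 := G5 g14 k241 k235
                  have k243 : e15 ≤ e6 := le_trans k238 k45
                  have k244 : e15 ≤ e9 := le_trans k238 k92
                  have k245 : e15 ≤ e12 := le_trans k238 k155
                  have k260 : ¬ e15 ≤ e4 := N2 k242 k21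
                  by_cases k263 : ∃ z, IsGLB ({e0, e15} : Set P) z
                  · obtain ⟨e16, g16⟩ := k263
                    have c16 : Core e0 e16 := CM g16
                    have k266 : e16 ≤ e0 := G1 g16
                    have k267 : e16 ≤ e15 := G2 g16
                    have k272 : e16 ≤ e5 := le_trans k267 k238
                    have k277 : e16 ≤ e13 := le_trans k267 k241
                    have k292 : ¬ e14 ≤ e16 := N2 k206 k272
                    have k298 : e16 ≤ e14 := G3 g14 k266 k277
                    exact HL _ _ _ _ _ _ c16 c14 c4 c8 c0 c6 (LT k298 k292) (LT k231 k220) (LT k75 k84) (LT k72 k79) (LT k44 k54)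
                  · obtain ⟨e16, l16⟩ := ZE h2 k240 k263 g11
                    have c16 : Core e0 e16 := CZ g11 k263 l16
                    have k266 : e11 ≤ e16 := L1 l16
                    have k267 : e15 ≤ e16 := L2 l16
                    have k274 : e16 ≤ e12 := L3 l16 k154 k245
                    have k275 : e4 ≤ e16 := le_trans k131 k266
                    have k292 : ¬ e16 ≤ e4 := N1 k260 k267
                    have k296 : e12 ≤ e16 := Classical.byContradiction fun hn => HL _ _ _ _ _ _ c14 c4 c16 c12 c9 c6 (LT k231 k220) (LT k275 k292) (LT k274 hn) (LT k160 k169) (LT k94 k99)
                    have k297 : e5 ≤ e16 := le_trans k155 k296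
                    obtain ⟨e17, l17⟩ := ZE h2 k241 k263 g14
                    have c17 : Core e0 e17 := CZ g14 k263 l17
                    have k300 : e14 ≤ e17 := L1 l17
                    have k301 : e15 ≤ e17 := L2 l17
                    have k304 : e17 ≤ e6 := L3 l17 k208 k243
                    have k306 : e17 ≤ e9 := L3 l17 k229 k244
                    have k308 : e17 ≤ e12 := L3 l17 k232 k245
                    have k309 : e17 ≤ e13 := L3 l17 k205 k241
                    have k320 : ¬ e4 ≤ e17 := N2 k198 k309
                    have k322 : ¬ e12 ≤ e17 := N1 k320 k162
                    have k332 : ¬ e17 ≤ e14 := N1 k235 k301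
                    obtain ⟨e18, q18⟩ : ∃ y, f e17 = y := ⟨_, rfl⟩
                    have k335 : e15 ≤ e18 := MO hf q15 q18 k300
                    have k336 : ¬ e17 ≤ e18 := FA hF q18
                    have k337 : ¬ e18 ≤ e17 := FB hG q18
                    have k338 : e18 ≤ e7 := MO hf q18 q7 k304
                    have k339 : e18 ≤ e10 := MO hf q18 q10 k306
                    have k340 : e18 ≤ e13 := MO hf q18 q13 k308
                    have k341 : ¬ e14 ≤ e18 := L5 l17 k335 k336
                    by_cases k363 : ∃ z, IsGLB ({e0, e18} : Set P) z
                    · obtain ⟨e19, g19⟩ := k363
                      have c19 : Core e0 e19 := CM g19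
                      have k366 : e19 ≤ e0 := G1 g19
                      have k367 : e19 ≤ e18 := G2 g19
                      have k373 : e19 ≤ e13 := le_trans k367 k340
                      have k389 : ¬ e14 ≤ e19 := N2 k341 k367
                      have k395 : e19 ≤ e14 := G3 g14 k366 k373
                      exact HL _ _ _ _ _ _ c19 c14 c4 c8 c0 c6 (LT k395 k389) (LT k231 k220) (LT k75 k84) (LT k72 k79) (LT k44 k54)
                    · obtain ⟨e19, l19⟩ := (h1 e18).resolve_right k363
                      have c19 : Core e0 e19 := CJ k363 l19
                      have k366 : e0 ≤ e19 := L1 l19
                      have k367 : e18 ≤ e19 := L2 l19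
                      have k372 : e11 ≤ e19 := le_trans k129 k366
                      have k374 : e15 ≤ e19 := le_trans k335 k367
                      have k393 : e16 ≤ e19 := L3 l16 k372 k374
                      have k395 : e5 ≤ e19 := le_trans k297 k393
                      have k397 : e6 ≤ e19 := L3 l6 k366 k395
                      have k399 : e19 ≤ e6 := Classical.byContradiction fun hn => HL _ _ _ _ _ _ c14 c4 c8 c9 c6 c19 (LT k231 k220) (LT k75 k84) (LT k91 k105) (LT k94 k99) (LT k397 hn)
                      have k400 : e18 ≤ e6 := le_trans k367 k399
                      obtain ⟨e20, l20⟩ := ZE h2 k338 k363 g8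
                      have c20 : Core e0 e20 := CZ g8 k363 l20
                      have k404 : e8 ≤ e20 := L1 l20
                      have k405 : e18 ≤ e20 := L2 l20
                      have k406 : e20 ≤ e6 := L3 l20 k78 k400
                      have k407 : e20 ≤ e7 := L3 l20 k73 k338
                      have k409 : e2 ≤ e20 := le_trans k74 k404
                      have k411 : e11 ≤ e20 := le_trans k146 k404
                      have k413 : e15 ≤ e20 := le_trans k335 k405
                      have k414 : ¬ e0 ≤ e20 := N2 k61 k407
                      have k415 : ¬ e6 ≤ e20 := N1 k414 k44
                      have k422 : ¬ e20 ≤ e12 := N1 k167 k409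
                      have k434 : e16 ≤ e20 := L3 l16 k411 k413
                      have k436 : e5 ≤ e20 := le_trans k297 k434
                      have k437 : e12 ≤ e20 := le_trans k296 k434
                      have k438 : e9 ≤ e20 := L3 l9 k404 k436
                      have k439 : e20 ≤ e9 := Classical.byContradiction fun hn => HL _ _ _ _ _ _ c14 c4 c8 c9 c20 c6 (LT k231 k220) (LT k75 k84) (LT k91 k105) (LT k438 hn) (LT k406 k415)
                      have k442 : e18 ≤ e9 := le_trans k405 k439
                      obtain ⟨e21, l21⟩ := ZE h2 k339 k363 g11
                      have c21 : Core e0 e21 := CZ g11 k363 l21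
                      have k446 : e11 ≤ e21 := L1 l21
                      have k447 : e18 ≤ e21 := L2 l21
                      have k451 : e21 ≤ e9 := L3 l21 k149 k442
                      have k452 : e21 ≤ e10 := L3 l21 k130 k339
                      have k457 : e15 ≤ e21 := le_trans k335 k447
                      have k463 : ¬ e2 ≤ e21 := N2 k124 k452
                      have k465 : ¬ e9 ≤ e21 := N1 k463 k96
                      have k480 : e16 ≤ e21 := L3 l16 k446 k457
                      have k483 : e12 ≤ e21 := le_trans k296 k480
                      have k484 : e21 ≤ e12 := Classical.byContradiction fun hn => HL _ _ _ _ _ _ c14 c17 c12 c21 c9 c6 (LT k300 k332) (LT k308 k322) (LT k483 hn) (LT k451 k465) (LT k94 k99)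
                      have k488 : e18 ≤ e12 := le_trans k447 k484
                      obtain ⟨e22, l22⟩ := ZE h2 k340 k363 g14
                      have c22 : Core e0 e22 := CZ g14 k363 l22
                      have k493 : e14 ≤ e22 := L1 l22
                      have k494 : e18 ≤ e22 := L2 l22
                      have k501 : e22 ≤ e12 := L3 l22 k232 k488
                      have k502 : e22 ≤ e13 := L3 l22 k205 k340
                      have k507 : e15 ≤ e22 := le_trans k335 k494
                      have k519 : ¬ e4 ≤ e22 := N2 k198 k502
                      have k521 : ¬ e12 ≤ e22 := N1 k519 k162
                      have k534 : ¬ e22 ≤ e17 := N1 k337 k494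
                      have k536 : e17 ≤ e22 := L3 l17 k493 k507
                      exact HL _ _ _ _ _ _ c14 c17 c22 c12 c20 c6 (LT k300 k332) (LT k536 k534) (LT k501 k521) (LT k437 k422) (LT k406 k415)
                · obtain ⟨e14, l14⟩ := (h1 e13).resolve_right k201
                  have c14 : Core e0 e14 := CJ k201 l14
                  have k204 : e0 ≤ e14 := L1 l14
                  have k205 : e13 ≤ e14 := L2 l14
                  have k208 : e4 ≤ e14 := le_trans k21 k204
                  have k210 : e11 ≤ e14 := le_trans k129 k204
                  have k211 : e5 ≤ e14 := le_trans k179 k205
                  have k225 : e6 ≤ e14 := L3 l6 k204 k211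
                  have k227 : e12 ≤ e14 := L3 l12 k210 k211
                  by_cases k228 : e14 ≤ e6
                  · have k229 : e13 ≤ e6 := le_trans k205 k228
                    obtain ⟨e15, l15⟩ := ZE h2 k182 k201 g8
                    have c15 : Core e0 e15 := CZ g8 k201 l15
                    have k233 : e8 ≤ e15 := L1 l15
                    have k234 : e13 ≤ e15 := L2 l15
                    have k235 : e15 ≤ e6 := L3 l15 k78 k229
                    have k236 : e15 ≤ e7 := L3 l15 k73 k182
                    have k238 : e2 ≤ e15 := le_trans k74 k233
                    have k239 : e4 ≤ e15 := le_trans k75 k233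
                    have k240 : e11 ≤ e15 := le_trans k146 k233
                    have k241 : e5 ≤ e15 := le_trans k179 k234
                    have k242 : ¬ e0 ≤ e15 := N2 k61 k236
                    have k243 : ¬ e6 ≤ e15 := N1 k242 k44
                    have k257 : e9 ≤ e15 := L3 l9 k233 k241
                    have k258 : e12 ≤ e15 := L3 l12 k240 k241
                    by_cases k259 : e15 ≤ e9
                    · have k262 : e13 ≤ e9 := le_trans k234 k259
                      obtain ⟨e16, l16⟩ := ZE h2 k183 k201 g11
                      have c16 : Core e0 e16 := CZ g11 k201 l16
                      have k266 : e11 ≤ e16 := L1 l16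
                      have k267 : e13 ≤ e16 := L2 l16
                      have k269 : e16 ≤ e6 := L3 l16 k134 k229
                      have k271 : e16 ≤ e9 := L3 l16 k149 k262
                      have k272 : e16 ≤ e10 := L3 l16 k130 k183
                      have k275 : e4 ≤ e16 := le_trans k131 k266
                      have k276 : e5 ≤ e16 := le_trans k179 k267
                      have k282 : ¬ e2 ≤ e16 := N2 k124 k272
                      have k284 : ¬ e9 ≤ e16 := N1 k282 k96
                      have k294 : ¬ e16 ≤ e12 := N1 k181 k267
                      have k296 : e12 ≤ e16 := L3 l12 k266 k276
                      obtain ⟨e17, q17⟩ : ∃ y, f e16 = y := ⟨_, rfl⟩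
                      have k298 : e5 ≤ e17 := MO hf q5 q17 k275
                      have k299 : e13 ≤ e17 := MO hf q13 q17 k296
                      have k300 : ¬ e16 ≤ e17 := FA hF q17
                      have k301 : ¬ e17 ≤ e16 := FB hG q17
                      have k302 : e17 ≤ e7 := MO hf q17 q7 k269
                      have k303 : e17 ≤ e10 := MO hf q17 q10 k271
                      have k304 : ¬ e11 ≤ e17 := L5 l16 k299 k300
                      have k320 : ¬ e4 ≤ e17 := N1 k304 k150
                      by_cases k326 : ∃ z, IsGLB ({e0, e17} : Set P) z
                      · obtain ⟨e18, g18⟩ := k326
                        have c18 : Core e0 e18 := CM g18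
                        have k329 : e18 ≤ e0 := G1 g18
                        have k330 : e18 ≤ e17 := G2 g18
                        have k337 : e18 ≤ e10 := le_trans k330 k303
                        have k349 : ¬ e4 ≤ e18 := N2 k320 k330
                        have k350 : ¬ e11 ≤ e18 := N1 k349 k131
                        have k357 : e18 ≤ e11 := G3 g11 k329 k337
                        exact HL _ _ _ _ _ _ c18 c11 c12 c16 c9 c6 (LT k357 k350) (LT k154 k175) (LT k296 k294) (LT k271 k284) (LT k94 k99)
                      · obtain ⟨e18, l18⟩ := (h1 e17).resolve_right k326
                        have c18 : Core e0 e18 := CJ k326 l18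
                        have k329 : e0 ≤ e18 := L1 l18
                        have k330 : e17 ≤ e18 := L2 l18
                        have k336 : e5 ≤ e18 := le_trans k298 k330
                        have k354 : e6 ≤ e18 := L3 l6 k329 k336
                        have k360 : e18 ≤ e6 := Classical.byContradiction fun hn => HL _ _ _ _ _ _ c4 c12 c16 c9 c6 c18 (LT k162 k173) (LT k296 k294) (LT k271 k284) (LT k94 k99) (LT k354 hn)
                        have k362 : e17 ≤ e6 := le_trans k330 k360
                        obtain ⟨e19, l19⟩ := ZE h2 k302 k326 g8
                        have c19 : Core e0 e19 := CZ g8 k326 l19
                        have k367 : e8 ≤ e19 := L1 l19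
                        have k368 : e17 ≤ e19 := L2 l19
                        have k369 : e19 ≤ e6 := L3 l19 k78 k362
                        have k370 : e19 ≤ e7 := L3 l19 k73 k302
                        have k376 : e5 ≤ e19 := le_trans k298 k368
                        have k378 : ¬ e0 ≤ e19 := N2 k61 k370
                        have k379 : ¬ e6 ≤ e19 := N1 k378 k44
                        have k396 : e9 ≤ e19 := L3 l9 k367 k376
                        have k400 : e19 ≤ e9 := Classical.byContradiction fun hn => HL _ _ _ _ _ _ c4 c12 c16 c9 c19 c6 (LT k162 k173) (LT k296 k294) (LT k271 k284) (LT k396 hn) (LT k369 k379)
                        have k404 : e17 ≤ e9 := le_trans k368 k400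
                        obtain ⟨e20, l20⟩ := ZE h2 k303 k326 g11
                        have c20 : Core e0 e20 := CZ g11 k326 l20
                        have k409 : e11 ≤ e20 := L1 l20
                        have k410 : e17 ≤ e20 := L2 l20
                        have k414 : e20 ≤ e9 := L3 l20 k149 k404
                        have k415 : e20 ≤ e10 := L3 l20 k130 k303
                        have k422 : e13 ≤ e20 := le_trans k299 k410
                        have k429 : ¬ e2 ≤ e20 := N2 k124 k415
                        have k431 : ¬ e9 ≤ e20 := N1 k429 k96
                        have k444 : ¬ e20 ≤ e16 := N1 k301 k410
                        have k447 : e16 ≤ e20 := L3 l16 k409 k422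
                        exact HL _ _ _ _ _ _ c4 c12 c16 c20 c9 c6 (LT k162 k173) (LT k296 k294) (LT k447 k444) (LT k414 k431) (LT k94 k99)
                    · obtain ⟨e16, q16⟩ : ∃ y, f e15 = y := ⟨_, rfl⟩
                      have k262 : e3 ≤ e16 := MO hf q3 q16 k238
                      have k263 : e5 ≤ e16 := MO hf q5 q16 k239
                      have k265 : e13 ≤ e16 := MO hf q13 q16 k258
                      have k266 : ¬ e15 ≤ e16 := FA hF q16
                      have k267 : ¬ e16 ≤ e15 := FB hG q16
                      have k268 : e16 ≤ e7 := MO hf q16 q7 k235
                      have k269 : ¬ e8 ≤ e16 := L5 l15 k265 k266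
                      have k270 : e4 ≤ e16 := le_trans k22 k262
                      have k271 : e11 ≤ e16 := le_trans k151 k262
                      have k284 : ¬ e2 ≤ e16 := N1 k269 k87
                      by_cases k289 : ∃ z, IsGLB ({e0, e16} : Set P) z
                      · obtain ⟨e17, g17⟩ := k289
                        have c17 : Core e0 e17 := CM g17
                        obtain ⟨e18, l18⟩ := ZE h2 k263 k41 g17
                        have c18 : Core e0 e18 := CZ g17 k41 l18
                        have k294 : e17 ≤ e0 := G1 g17
                        have k295 : e17 ≤ e16 := G2 g17
                        have k296 : e4 ≤ e17 := G3 g17 k21 k270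
                        have k297 : e11 ≤ e17 := G3 g17 k129 k271
                        have k304 : e17 ≤ e6 := le_trans k294 k44
                        have k306 : e17 ≤ e7 := le_trans k295 k268
                        have k320 : ¬ e2 ≤ e17 := N2 k284 k295
                        have k342 : e17 ≤ e8 := G3 g8 k294 k306
                        have k348 : e17 ≤ e2 := le_trans k342 k87
                        have k350 : e17 ≤ e15 := le_trans k342 k233
                        have k357 : e17 ≤ e4 := Classical.byContradiction fun hn => HL _ _ _ _ _ _ c4 c17 c2 c9 c15 c6 (LT k296 hn) (LT k348 k320) (LT k96 k104) (LT k257 k259) (LT k235 k243)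
                        obtain ⟨e19, l19⟩ := ZE h2 k265 k201 g17
                        have c19 : Core e0 e19 := CZ g17 k201 l19
                        have k367 : e17 ≤ e19 := L1 l19
                        have k368 : e13 ≤ e19 := L2 l19
                        have k369 : e19 ≤ e6 := L3 l19 k304 k229
                        have k373 : e19 ≤ e15 := L3 l19 k350 k234
                        have k375 : e5 ≤ e19 := le_trans k179 k368
                        have k376 : e4 ≤ e19 := le_trans k296 k367
                        have k377 : e11 ≤ e19 := le_trans k297 k367
                        have k396 : ¬ e19 ≤ e12 := N1 k181 k368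
                        have k400 : e12 ≤ e19 := L3 l12 k377 k375
                        obtain ⟨e20, q20⟩ : ∃ y, f e19 = y := ⟨_, rfl⟩
                        have k403 : e5 ≤ e20 := MO hf q5 q20 k376
                        have k404 : e13 ≤ e20 := MO hf q13 q20 k400
                        have k405 : ¬ e19 ≤ e20 := FA hF q20
                        have k406 : ¬ e20 ≤ e19 := FB hG q20
                        have k407 : e20 ≤ e7 := MO hf q20 q7 k369
                        have k408 : e20 ≤ e16 := MO hf q20 q16 k373
                        have k409 : ¬ e17 ≤ e20 := L5 l19 k404 k405
                        have k430 : ¬ e4 ≤ e20 := N1 k409 k357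
                        by_cases k437 : ∃ z, IsGLB ({e0, e20} : Set P) z
                        · obtain ⟨e21, g21⟩ := k437
                          have c21 : Core e0 e21 := CM g21
                          have k440 : e21 ≤ e0 := G1 g21
                          have k441 : e21 ≤ e20 := G2 g21
                          have k448 : e21 ≤ e16 := le_trans k441 k408
                          have k461 : ¬ e4 ≤ e21 := N2 k430 k441
                          have k464 : ¬ e17 ≤ e21 := N1 k461 k296
                          have k471 : e21 ≤ e17 := G3 g17 k440 k448
                          exact HL _ _ _ _ _ _ c21 c17 c2 c9 c15 c6 (LT k471 k464) (LT k348 k320) (LT k96 k104) (LT k257 k259) (LT k235 k243)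
                        · obtain ⟨e21, l21⟩ := (h1 e20).resolve_right k437
                          have c21 : Core e0 e21 := CJ k437 l21
                          have k440 : e0 ≤ e21 := L1 l21
                          have k441 : e20 ≤ e21 := L2 l21
                          have k448 : e5 ≤ e21 := le_trans k403 k441
                          have k469 : e6 ≤ e21 := L3 l6 k440 k448
                          have k476 : e21 ≤ e6 := Classical.byContradiction fun hn => HL _ _ _ _ _ _ c4 c8 c9 c15 c6 c21 (LT k75 k84) (LT k91 k105) (LT k257 k259) (LT k235 k243) (LT k469 hn)
                          have k478 : e20 ≤ e6 := le_trans k441 k476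
                          obtain ⟨e22, l22⟩ := ZE h2 k407 k437 g8
                          have c22 : Core e0 e22 := CZ g8 k437 l22
                          have k483 : e8 ≤ e22 := L1 l22
                          have k484 : e20 ≤ e22 := L2 l22
                          have k485 : e22 ≤ e6 := L3 l22 k78 k478
                          have k486 : e22 ≤ e7 := L3 l22 k73 k407
                          have k494 : e13 ≤ e22 := le_trans k404 k484
                          have k495 : ¬ e0 ≤ e22 := N2 k61 k486
                          have k496 : ¬ e6 ≤ e22 := N1 k495 k44
                          have k519 : e15 ≤ e22 := L3 l15 k483 k494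
                          have k522 : e22 ≤ e15 := Classical.byContradiction fun hn => HL _ _ _ _ _ _ c4 c8 c9 c15 c22 c6 (LT k75 k84) (LT k91 k105) (LT k257 k259) (LT k519 hn) (LT k485 k496)
                          have k523 : e20 ≤ e15 := le_trans k484 k522
                          obtain ⟨e23, l23⟩ := ZE h2 k408 k437 g17
                          have c23 : Core e0 e23 := CZ g17 k437 l23
                          have k527 : e17 ≤ e23 := L1 l23
                          have k528 : e20 ≤ e23 := L2 l23
                          have k532 : e23 ≤ e15 := L3 l23 k350 k523
                          have k533 : e23 ≤ e16 := L3 l23 k295 k408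
                          have k539 : e13 ≤ e23 := le_trans k404 k528
                          have k546 : ¬ e2 ≤ e23 := N2 k284 k533
                          have k549 : ¬ e15 ≤ e23 := N1 k546 k238
                          have k564 : ¬ e23 ≤ e19 := N1 k406 k528
                          have k568 : e19 ≤ e23 := L3 l19 k527 k539
                          exact HL _ _ _ _ _ _ c4 c12 c19 c23 c15 c6 (LT k162 k173) (LT k400 k396) (LT k568 k564) (LT k532 k549) (LT k235 k243)
                      · obtain ⟨e17, l17⟩ := (h1 e16).resolve_right k289
                        have c17 : Core e0 e17 := CJ k289 l17
                        have k292 : e0 ≤ e17 := L1 l17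
                        have k293 : e16 ≤ e17 := L2 l17
                        have k300 : e5 ≤ e17 := le_trans k263 k293
                        have k319 : e6 ≤ e17 := L3 l6 k292 k300
                        have k323 : e17 ≤ e6 := Classical.byContradiction fun hn => HL _ _ _ _ _ _ c4 c8 c9 c15 c6 c17 (LT k75 k84) (LT k91 k105) (LT k257 k259) (LT k235 k243) (LT k319 hn)
                        have k329 : e16 ≤ e6 := le_trans k293 k323
                        obtain ⟨e18, l18⟩ := ZE h2 k268 k289 g8
                        have c18 : Core e0 e18 := CZ g8 k289 l18
                        have k334 : e8 ≤ e18 := L1 l18
                        have k335 : e16 ≤ e18 := L2 l18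
                        have k336 : e18 ≤ e6 := L3 l18 k78 k329
                        have k337 : e18 ≤ e7 := L3 l18 k73 k268
                        have k347 : e13 ≤ e18 := le_trans k265 k335
                        have k348 : ¬ e0 ≤ e18 := N2 k61 k337
                        have k349 : ¬ e6 ≤ e18 := N1 k348 k44
                        have k365 : ¬ e18 ≤ e15 := N1 k267 k335
                        have k368 : e15 ≤ e18 := L3 l15 k334 k347
                        exact HL _ _ _ _ _ _ c4 c2 c9 c15 c18 c6 (LT k29 k27) (LT k96 k104) (LT k257 k259) (LT k368 k365) (LT k336 k349)
                  · have k229 : ¬ e13 ≤ e6 := L4 l14 k44 k228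
                    have k231 : ¬ e13 ≤ e9 := N2 k229 k94
                    obtain ⟨e15, q15⟩ : ∃ y, f e14 = y := ⟨_, rfl⟩
                    have k233 : e1 ≤ e15 := MO hf q1 q15 k204
                    have k235 : e5 ≤ e15 := MO hf q5 q15 k208
                    have k238 : e13 ≤ e15 := MO hf q13 q15 k227
                    have k239 : ¬ e14 ≤ e15 := FA hF q15
                    have k240 : ¬ e15 ≤ e14 := FB hG q15
                    have k241 : ¬ e0 ≤ e15 := L5 l14 k238 k239
                    have k242 : e2 ≤ e15 := le_trans k7 k233
                    have k243 : e4 ≤ e15 := le_trans k24 k233
                    have k244 : e8 ≤ e15 := le_trans k88 k233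
                    have k246 : e11 ≤ e15 := le_trans k147 k233
                    by_cases k261 : ∃ z, IsGLB ({e0, e15} : Set P) z
                    · obtain ⟨e16, g16⟩ := k261
                      have c16 : Core e0 e16 := CM g16
                      obtain ⟨e17, l17⟩ := ZE h2 k235 k41 g16
                      have c17 : Core e0 e17 := CZ g16 k41 l17
                      have k266 : e16 ≤ e0 := G1 g16
                      have k267 : e16 ≤ e15 := G2 g16
                      have k268 : e2 ≤ e16 := G3 g16 k6 k242
                      have k269 : e4 ≤ e16 := G3 g16 k21 k243
                      have k270 : e8 ≤ e16 := G3 g16 k72 k244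
                      have k271 : e11 ≤ e16 := G3 g16 k129 k246
                      have k279 : e16 ≤ e14 := le_trans k266 k204
                      have k284 : ¬ e0 ≤ e16 := N2 k241 k267
                      have k308 : ¬ e5 ≤ e16 := N2 k35 k266
                      have k311 : ¬ e9 ≤ e16 := N1 k308 k92
                      have k324 : e16 ≤ e2 := Classical.byContradiction fun hn => HL _ _ _ _ _ _ c4 c2 c16 c0 c6 c14 (LT k29 k27) (LT k268 hn) (LT k266 k284) (LT k44 k54) (LT k225 k228)
                      have k326 : e16 ≤ e7 := le_trans k324 k62
                      have k328 : e16 ≤ e9 := le_trans k324 k96
                      obtain ⟨e18, l18⟩ := ZE h2 k238 k201 g16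
                      have c18 : Core e0 e18 := CZ g16 k201 l18
                      have k334 : e16 ≤ e18 := L1 l18
                      have k335 : e13 ≤ e18 := L2 l18
                      have k336 : e18 ≤ e7 := L3 l18 k326 k182
                      have k337 : e18 ≤ e14 := L3 l18 k279 k205
                      have k339 : e5 ≤ e18 := le_trans k179 k335
                      have k340 : e2 ≤ e18 := le_trans k268 k334
                      have k341 : e4 ≤ e18 := le_trans k269 k334
                      have k342 : e8 ≤ e18 := le_trans k270 k334
                      have k343 : e11 ≤ e18 := le_trans k271 k334
                      have k344 : ¬ e0 ≤ e18 := N2 k61 k336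
                      have k346 : ¬ e14 ≤ e18 := N1 k344 k204
                      have k359 : ¬ e18 ≤ e9 := N1 k231 k335
                      have k363 : e9 ≤ e18 := L3 l9 k342 k339
                      have k364 : e12 ≤ e18 := L3 l12 k343 k339
                      obtain ⟨e19, q19⟩ : ∃ y, f e18 = y := ⟨_, rfl⟩
                      have k367 : e3 ≤ e19 := MO hf q3 q19 k340
                      have k368 : e5 ≤ e19 := MO hf q5 q19 k341
                      have k370 : e13 ≤ e19 := MO hf q13 q19 k364
                      have k371 : ¬ e18 ≤ e19 := FA hF q19
                      have k372 : ¬ e19 ≤ e18 := FB hG q19
                      have k373 : e19 ≤ e15 := MO hf q19 q15 k337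
                      have k374 : ¬ e16 ≤ e19 := L5 l18 k370 k371
                      have k375 : e4 ≤ e19 := le_trans k22 k367
                      have k376 : e11 ≤ e19 := le_trans k151 k367
                      have k394 : ¬ e2 ≤ e19 := N1 k374 k324
                      by_cases k400 : ∃ z, IsGLB ({e0, e19} : Set P) z
                      · obtain ⟨e20, g20⟩ := k400
                        have c20 : Core e0 e20 := CM g20
                        obtain ⟨e21, l21⟩ := ZE h2 k368 k41 g20
                        have c21 : Core e0 e21 := CZ g20 k41 l21
                        have k405 : e20 ≤ e0 := G1 g20
                        have k406 : e20 ≤ e19 := G2 g20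
                        have k407 : e4 ≤ e20 := G3 g20 k21 k375
                        have k408 : e11 ≤ e20 := G3 g20 k129 k376
                        have k416 : e20 ≤ e14 := le_trans k405 k204
                        have k417 : e20 ≤ e15 := le_trans k406 k373
                        have k433 : ¬ e2 ≤ e20 := N2 k394 k406
                        have k437 : ¬ e16 ≤ e20 := N1 k433 k268
                        have k460 : e20 ≤ e16 := G3 g16 k405 k417
                        have k466 : e20 ≤ e2 := le_trans k460 k324
                        have k471 : e20 ≤ e18 := le_trans k460 k334
                        have k480 : e20 ≤ e4 := Classical.byContradiction fun hn => HL _ _ _ _ _ _ c4 c20 c16 c9 c6 c14 (LT k407 hn) (LT k460 k437) (LT k328 k311) (LT k94 k99) (LT k225 k228)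
                        obtain ⟨e22, l22⟩ := ZE h2 k370 k201 g20
                        have c22 : Core e0 e22 := CZ g20 k201 l22
                        have k490 : e20 ≤ e22 := L1 l22
                        have k491 : e13 ≤ e22 := L2 l22
                        have k494 : e22 ≤ e14 := L3 l22 k416 k205
                        have k496 : e22 ≤ e18 := L3 l22 k471 k335
                        have k498 : e5 ≤ e22 := le_trans k179 k491
                        have k500 : e11 ≤ e22 := le_trans k408 k490
                        have k524 : ¬ e22 ≤ e12 := N1 k181 k491
                        have k529 : e12 ≤ e22 := L3 l12 k500 k498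
                        obtain ⟨e23, q23⟩ : ∃ y, f e22 = y := ⟨_, rfl⟩
                        have k533 : e13 ≤ e23 := MO hf q13 q23 k529
                        have k534 : ¬ e22 ≤ e23 := FA hF q23
                        have k535 : ¬ e23 ≤ e22 := FB hG q23
                        have k536 : e23 ≤ e15 := MO hf q23 q15 k494
                        have k537 : e23 ≤ e19 := MO hf q23 q19 k496
                        have k538 : ¬ e20 ≤ e23 := L5 l22 k533 k534
                        have k565 : ¬ e4 ≤ e23 := N1 k538 k480
                        by_cases k572 : ∃ z, IsGLB ({e0, e23} : Set P) z
                        · obtain ⟨e24, g24⟩ := k572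
                          have c24 : Core e0 e24 := CM g24
                          have k575 : e24 ≤ e0 := G1 g24
                          have k576 : e24 ≤ e23 := G2 g24
                          have k583 : e24 ≤ e19 := le_trans k576 k537
                          have k599 : ¬ e4 ≤ e24 := N2 k565 k576
                          have k602 : ¬ e20 ≤ e24 := N1 k599 k407
                          have k609 : e24 ≤ e20 := G3 g20 k575 k583
                          exact HL _ _ _ _ _ _ c24 c20 c2 c0 c6 c14 (LT k609 k602) (LT k466 k433) (LT k6 k9) (LT k44 k54) (LT k225 k228)
                        · obtain ⟨e24, l24⟩ := (h1 e23).resolve_right k572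
                          have c24 : Core e0 e24 := CJ k572 l24
                          have k575 : e0 ≤ e24 := L1 l24
                          have k576 : e23 ≤ e24 := L2 l24
                          have k585 : e13 ≤ e24 := le_trans k533 k576
                          have k612 : e14 ≤ e24 := L3 l14 k575 k585
                          have k617 : e24 ≤ e14 := Classical.byContradiction fun hn => HL _ _ _ _ _ _ c4 c8 c9 c18 c14 c24 (LT k75 k84) (LT k91 k105) (LT k363 k359) (LT k337 k346) (LT k612 hn)
                          have k618 : e23 ≤ e14 := le_trans k576 k617
                          obtain ⟨e25, l25⟩ := ZE h2 k536 k572 g16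
                          have c25 : Core e0 e25 := CZ g16 k572 l25
                          have k622 : e16 ≤ e25 := L1 l25
                          have k623 : e23 ≤ e25 := L2 l25
                          have k624 : e25 ≤ e14 := L3 l25 k279 k618
                          have k625 : e25 ≤ e15 := L3 l25 k267 k536
                          have k633 : e13 ≤ e25 := le_trans k533 k623
                          have k634 : ¬ e0 ≤ e25 := N2 k241 k625
                          have k636 : ¬ e14 ≤ e25 := N1 k634 k204
                          have k662 : e18 ≤ e25 := L3 l18 k622 k633
                          have k665 : e25 ≤ e18 := Classical.byContradiction fun hn => HL _ _ _ _ _ _ c4 c8 c9 c18 c25 c14 (LT k75 k84) (LT k91 k105) (LT k363 k359) (LT k662 hn) (LT k624 k636)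
                          have k668 : e23 ≤ e18 := le_trans k623 k665
                          obtain ⟨e26, l26⟩ := ZE h2 k537 k572 g20
                          have c26 : Core e0 e26 := CZ g20 k572 l26
                          have k672 : e20 ≤ e26 := L1 l26
                          have k673 : e23 ≤ e26 := L2 l26
                          have k677 : e26 ≤ e18 := L3 l26 k471 k668
                          have k678 : e26 ≤ e19 := L3 l26 k406 k537
                          have k684 : e13 ≤ e26 := le_trans k533 k673
                          have k692 : ¬ e2 ≤ e26 := N2 k394 k678
                          have k697 : ¬ e18 ≤ e26 := N1 k692 k340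
                          have k715 : ¬ e26 ≤ e22 := N1 k535 k673
                          have k719 : e22 ≤ e26 := L3 l22 k672 k684
                          exact HL _ _ _ _ _ _ c4 c12 c22 c26 c18 c14 (LT k162 k173) (LT k529 k524) (LT k719 k715) (LT k677 k697) (LT k337 k346)
                      · obtain ⟨e20, l20⟩ := (h1 e19).resolve_right k400
                        have c20 : Core e0 e20 := CJ k400 l20
                        have k403 : e0 ≤ e20 := L1 l20
                        have k404 : e19 ≤ e20 := L2 l20
                        have k415 : e13 ≤ e20 := le_trans k370 k404
                        have k437 : e14 ≤ e20 := L3 l14 k403 k415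
                        have k440 : e20 ≤ e14 := Classical.byContradiction fun hn => HL _ _ _ _ _ _ c4 c8 c9 c18 c14 c20 (LT k75 k84) (LT k91 k105) (LT k363 k359) (LT k337 k346) (LT k437 hn)
                        have k443 : e19 ≤ e14 := le_trans k404 k440
                        obtain ⟨e21, l21⟩ := ZE h2 k373 k400 g16
                        have c21 : Core e0 e21 := CZ g16 k400 l21
                        have k447 : e16 ≤ e21 := L1 l21
                        have k448 : e19 ≤ e21 := L2 l21
                        have k449 : e21 ≤ e14 := L3 l21 k279 k443
                        have k450 : e21 ≤ e15 := L3 l21 k267 k373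
                        have k460 : e13 ≤ e21 := le_trans k370 k448
                        have k461 : ¬ e0 ≤ e21 := N2 k241 k450
                        have k463 : ¬ e14 ≤ e21 := N1 k461 k204
                        have k481 : ¬ e21 ≤ e18 := N1 k372 k448
                        have k485 : e18 ≤ e21 := L3 l18 k447 k460
                        exact HL _ _ _ _ _ _ c4 c2 c9 c18 c21 c14 (LT k29 k27) (LT k96 k104) (LT k363 k359) (LT k485 k481) (LT k449 k463)
                    · obtain ⟨e16, l16⟩ := (h1 e15).resolve_right k261
                      have c16 : Core e0 e16 := CJ k261 l16
                      have k264 : e0 ≤ e16 := L1 l16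
                      have k265 : e15 ≤ e16 := L2 l16
                      have k278 : e13 ≤ e16 := le_trans k238 k265
                      have k294 : ¬ e16 ≤ e14 := N1 k240 k265
                      have k296 : e14 ≤ e16 := L3 l14 k264 k278
                      exact HL _ _ _ _ _ _ c4 c8 c0 c6 c14 c16 (LT k75 k84) (LT k72 k79) (LT k44 k54) (LT k225 k228) (LT k296 k294)
              · obtain ⟨e12, q12⟩ : ∃ y, f e11 = y := ⟨_, rfl⟩
                have k154 : e5 ≤ e12 := MO hf q5 q12 k131
                have k157 : e12 ≤ e1 := MO hf q12 q1 k129
                have k158 : e12 ≤ e3 := MO hf q12 q3 k148
                have k159 : e12 ≤ e7 := MO hf q12 q7 k134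
                have k160 : e12 ≤ e10 := MO hf q12 q10 k149
                by_cases k173 : ∃ z, IsGLB ({e0, e12} : Set P) z
                · obtain ⟨e13, g13⟩ := k173
                  have c13 : Core e0 e13 := CM g13
                  have k176 : e13 ≤ e0 := G1 g13
                  have k177 : e13 ≤ e12 := G2 g13
                  have k182 : e13 ≤ e3 := le_trans k177 k158
                  have k199 : e13 ≤ e4 := G3 g4 k176 k182
                  have k203 : e4 ≤ e13 := Classical.byContradiction fun hn => HL _ _ _ _ _ _ c13 c4 c11 c2 c0 c6 (LT k199 hn) (LT k131 k150) (LT k148 k140) (LT k6 k9) (LT k44 k54)
                  have k204 : e4 ≤ e12 := le_trans k203 k177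
                  obtain ⟨e14, l14⟩ := ZE h2 k110 k41 g11
                  have c14 : Core e0 e14 := CZ g11 k41 l14
                  have k207 : e11 ≤ e14 := L1 l14
                  have k208 : e5 ≤ e14 := L2 l14
                  have k210 : e14 ≤ e6 := L3 l14 k134 k45
                  have k212 : e14 ≤ e9 := L3 l14 k149 k92
                  have k213 : e14 ≤ e10 := L3 l14 k130 k110
                  have k214 : e4 ≤ e14 := le_trans k131 k207
                  have k220 : ¬ e2 ≤ e14 := N2 k124 k213
                  have k222 : ¬ e9 ≤ e14 := N1 k220 k96
                  have k228 : ¬ e14 ≤ e11 := N1 k145 k208
                  obtain ⟨e15, q15⟩ : ∃ y, f e14 = y := ⟨_, rfl⟩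
                  have k235 : e5 ≤ e15 := MO hf q5 q15 k214
                  have k236 : e12 ≤ e15 := MO hf q12 q15 k207
                  have k237 : ¬ e14 ≤ e15 := FA hF q15
                  have k238 : ¬ e15 ≤ e14 := FB hG q15
                  have k239 : e15 ≤ e7 := MO hf q15 q7 k210
                  have k240 : e15 ≤ e10 := MO hf q15 q10 k212
                  have k241 : ¬ e11 ≤ e15 := L5 l14 k235 k237
                  have k242 : e4 ≤ e15 := le_trans k204 k236
                  by_cases k259 : ∃ z, IsGLB ({e0, e15} : Set P) z
                  · obtain ⟨e16, g16⟩ := k259
                    have c16 : Core e0 e16 := CM g16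
                    have k262 : e16 ≤ e0 := G1 g16
                    have k263 : e16 ≤ e15 := G2 g16
                    have k264 : e4 ≤ e16 := G3 g16 k21 k242
                    have k268 : e16 ≤ e6 := le_trans k262 k44
                    have k269 : e16 ≤ e7 := le_trans k263 k239
                    have k270 : e16 ≤ e10 := le_trans k263 k240
                    have k284 : ¬ e11 ≤ e16 := N2 k241 k263
                    have k285 : e16 ≤ e8 := G3 g8 k262 k269
                    have k286 : e16 ≤ e11 := G3 g11 k262 k270
                    have k289 : e16 ≤ e9 := le_trans k285 k91
                    have k290 : e16 ≤ e14 := le_trans k286 k207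
                    have k291 : e16 ≤ e4 := Classical.byContradiction fun hn => HL _ _ _ _ _ _ c4 c16 c11 c2 c0 c6 (LT k264 hn) (LT k286 k284) (LT k148 k140) (LT k6 k9) (LT k44 k54)
                    obtain ⟨e17, l17⟩ := ZE h2 k235 k41 g16
                    have c17 : Core e0 e17 := CZ g16 k41 l17
                    have k297 : e16 ≤ e17 := L1 l17
                    have k298 : e5 ≤ e17 := L2 l17
                    have k301 : e17 ≤ e6 := L3 l17 k268 k45
                    have k303 : e17 ≤ e9 := L3 l17 k289 k92
                    have k306 : e17 ≤ e14 := L3 l17 k290 k208
                    have k308 : e4 ≤ e17 := le_trans k264 k297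
                    have k320 : ¬ e17 ≤ e4 := N1 k32 k298
                    obtain ⟨e18, q18⟩ : ∃ y, f e17 = y := ⟨_, rfl⟩
                    have k331 : e5 ≤ e18 := MO hf q5 q18 k308
                    have k332 : ¬ e17 ≤ e18 := FA hF q18
                    have k333 : ¬ e18 ≤ e17 := FB hG q18
                    have k334 : e18 ≤ e7 := MO hf q18 q7 k301
                    have k335 : e18 ≤ e10 := MO hf q18 q10 k303
                    have k336 : e18 ≤ e15 := MO hf q18 q15 k306
                    have k337 : ¬ e16 ≤ e18 := L5 l17 k331 k332
                    have k356 : ¬ e4 ≤ e18 := N1 k337 k291
                    by_cases k361 : ∃ z, IsGLB ({e0, e18} : Set P) z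
                    · obtain ⟨e19, g19⟩ := k361
                      have c19 : Core e0 e19 := CM g19
                      have k364 : e19 ≤ e0 := G1 g19
                      have k365 : e19 ≤ e18 := G2 g19
                      have k371 : e19 ≤ e15 := le_trans k365 k336
                      have k381 : ¬ e4 ≤ e19 := N2 k356 k365
                      have k387 : ¬ e16 ≤ e19 := N1 k381 k264
                      have k393 : e19 ≤ e16 := G3 g16 k364 k371
                      exact HL _ _ _ _ _ _ c19 c16 c11 c2 c0 c6 (LT k393 k387) (LT k286 k284) (LT k148 k140) (LT k6 k9) (LT k44 k54)
                    · obtain ⟨e19, l19⟩ := (h1 e18).resolve_right k361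
                      have c19 : Core e0 e19 := CJ k361 l19
                      have k364 : e0 ≤ e19 := L1 l19
                      have k365 : e18 ≤ e19 := L2 l19
                      have k373 : e5 ≤ e19 := le_trans k331 k365
                      have k392 : e6 ≤ e19 := L3 l6 k364 k373
                      have k396 : e19 ≤ e6 := Classical.byContradiction fun hn => HL _ _ _ _ _ _ c4 c11 c14 c9 c6 c19 (LT k131 k150) (LT k207 k228) (LT k212 k222) (LT k94 k99) (LT k392 hn)
                      have k397 : e18 ≤ e6 := le_trans k365 k396
                      obtain ⟨e20, l20⟩ := ZE h2 k334 k361 g8
                      have c20 : Core e0 e20 := CZ g8 k361 l20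
                      have k401 : e8 ≤ e20 := L1 l20
                      have k402 : e18 ≤ e20 := L2 l20
                      have k403 : e20 ≤ e6 := L3 l20 k78 k397
                      have k404 : e20 ≤ e7 := L3 l20 k73 k334
                      have k411 : e5 ≤ e20 := le_trans k331 k402
                      have k412 : ¬ e0 ≤ e20 := N2 k61 k404
                      have k413 : ¬ e6 ≤ e20 := N1 k412 k44
                      have k432 : e9 ≤ e20 := L3 l9 k401 k411
                      have k435 : e20 ≤ e9 := Classical.byContradiction fun hn => HL _ _ _ _ _ _ c4 c11 c14 c9 c20 c6 (LT k131 k150) (LT k207 k228) (LT k212 k222) (LT k432 hn) (LT k403 k413)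
                      have k438 : e18 ≤ e9 := le_trans k402 k435
                      obtain ⟨e21, l21⟩ := ZE h2 k335 k361 g11
                      have c21 : Core e0 e21 := CZ g11 k361 l21
                      have k442 : e11 ≤ e21 := L1 l21
                      have k443 : e18 ≤ e21 := L2 l21
                      have k447 : e21 ≤ e9 := L3 l21 k149 k438
                      have k448 : e21 ≤ e10 := L3 l21 k130 k335
                      have k454 : e5 ≤ e21 := le_trans k331 k443
                      have k460 : ¬ e2 ≤ e21 := N2 k124 k448
                      have k462 : ¬ e9 ≤ e21 := N1 k460 k96
                      have k479 : e14 ≤ e21 := L3 l14 k442 k454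
                      have k481 : e21 ≤ e14 := Classical.byContradiction fun hn => HL _ _ _ _ _ _ c4 c11 c14 c21 c9 c6 (LT k131 k150) (LT k207 k228) (LT k479 hn) (LT k447 k462) (LT k94 k99)
                      have k482 : e18 ≤ e14 := le_trans k443 k481
                      obtain ⟨e22, l22⟩ := ZE h2 k336 k361 g16
                      have c22 : Core e0 e22 := CZ g16 k361 l22
                      have k486 : e16 ≤ e22 := L1 l22
                      have k487 : e18 ≤ e22 := L2 l22
                      have k493 : e22 ≤ e14 := L3 l22 k290 k482
                      have k494 : e22 ≤ e15 := L3 l22 k263 k336
                      have k500 : e5 ≤ e22 := le_trans k331 k487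
                      have k520 : ¬ e11 ≤ e22 := N2 k241 k494
                      have k521 : ¬ e14 ≤ e22 := N1 k520 k207
                      have k524 : ¬ e22 ≤ e17 := N1 k333 k487
                      have k526 : e17 ≤ e22 := L3 l17 k486 k500
                      exact HL _ _ _ _ _ _ c4 c17 c22 c14 c9 c6 (LT k308 k320) (LT k526 k524) (LT k493 k521) (LT k212 k222) (LT k94 k99)
                  · obtain ⟨e16, l16⟩ := (h1 e15).resolve_right k259
                    have c16 : Core e0 e16 := CJ k259 l16
                    have k262 : e0 ≤ e16 := L1 l16
                    have k263 : e15 ≤ e16 := L2 l16
                    have k270 : e5 ≤ e16 := le_trans k235 k263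
                    have k287 : e6 ≤ e16 := L3 l6 k262 k270
                    have k290 : e16 ≤ e6 := Classical.byContradiction fun hn => HL _ _ _ _ _ _ c4 c11 c14 c9 c6 c16 (LT k131 k150) (LT k207 k228) (LT k212 k222) (LT k94 k99) (LT k287 hn)
                    have k292 : e15 ≤ e6 := le_trans k263 k290
                    obtain ⟨e17, l17⟩ := ZE h2 k239 k259 g8
                    have c17 : Core e0 e17 := CZ g8 k259 l17
                    have k296 : e8 ≤ e17 := L1 l17
                    have k297 : e15 ≤ e17 := L2 l17
                    have k298 : e17 ≤ e6 := L3 l17 k78 k292
                    have k299 : e17 ≤ e7 := L3 l17 k73 k239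
                    have k305 : e5 ≤ e17 := le_trans k235 k297
                    have k307 : ¬ e0 ≤ e17 := N2 k61 k299
                    have k308 : ¬ e6 ≤ e17 := N1 k307 k44
                    have k324 : e9 ≤ e17 := L3 l9 k296 k305
                    have k326 : e17 ≤ e9 := Classical.byContradiction fun hn => HL _ _ _ _ _ _ c4 c11 c14 c9 c17 c6 (LT k131 k150) (LT k207 k228) (LT k212 k222) (LT k324 hn) (LT k298 k308)
                    have k330 : e15 ≤ e9 := le_trans k297 k326
                    obtain ⟨e18, l18⟩ := ZE h2 k240 k259 g11
                    have c18 : Core e0 e18 := CZ g11 k259 l18
                    have k334 : e11 ≤ e18 := L1 l18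
                    have k335 : e15 ≤ e18 := L2 l18
                    have k339 : e18 ≤ e9 := L3 l18 k149 k330
                    have k340 : e18 ≤ e10 := L3 l18 k130 k240
                    have k345 : e5 ≤ e18 := le_trans k235 k335
                    have k352 : ¬ e2 ≤ e18 := N2 k124 k340
                    have k354 : ¬ e9 ≤ e18 := N1 k352 k96
                    have k367 : ¬ e18 ≤ e14 := N1 k238 k335
                    have k369 : e14 ≤ e18 := L3 l14 k334 k345
                    exact HL _ _ _ _ _ _ c4 c11 c14 c18 c9 c6 (LT k131 k150) (LT k207 k228) (LT k369 k367) (LT k339 k354) (LT k94 k99)
                · have k174 : ¬ e4 ≤ e12 := BN3 g4 k173 k158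
                  obtain ⟨e13, l13⟩ := (h1 e12).resolve_right k173
                  have c13 : Core e0 e13 := CJ k173 l13
                  have k178 : e0 ≤ e13 := L1 l13
                  have k179 : e12 ≤ e13 := L2 l13
                  have k185 : e5 ≤ e13 := le_trans k154 k179
                  have k198 : e6 ≤ e13 := L3 l6 k178 k185
                  have k200 : e13 ≤ e6 := Classical.byContradiction fun hn => HL _ _ _ _ _ _ c4 c11 c2 c9 c6 c13 (LT k131 k150) (LT k148 k140) (LT k96 k104) (LT k94 k99) (LT k198 hn)
                  have k201 : e12 ≤ e6 := le_trans k179 k200
                  obtain ⟨e14, l14⟩ := ZE h2 k159 k173 g8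
                  have c14 : Core e0 e14 := CZ g8 k173 l14
                  have k205 : e8 ≤ e14 := L1 l14
                  have k206 : e12 ≤ e14 := L2 l14
                  have k207 : e14 ≤ e1 := L3 l14 k88 k157
                  have k208 : e14 ≤ e6 := L3 l14 k78 k201
                  have k214 : e5 ≤ e14 := le_trans k154 k206
                  have k215 : ¬ e0 ≤ e14 := N2 k1 k207
                  have k216 : ¬ e6 ≤ e14 := N1 k215 k44
                  have k229 : e9 ≤ e14 := L3 l9 k205 k214
                  have k230 : e14 ≤ e9 := Classical.byContradiction fun hn => HL _ _ _ _ _ _ c4 c11 c2 c9 c14 c6 (LT k131 k150) (LT k148 k140) (LT k96 k104) (LT k229 hn) (LT k208 k216)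
                  have k231 : e12 ≤ e9 := le_trans k206 k230
                  obtain ⟨e15, l15⟩ := ZE h2 k160 k173 g11
                  have c15 : Core e0 e15 := CZ g11 k173 l15
                  have k235 : e11 ≤ e15 := L1 l15
                  have k236 : e12 ≤ e15 := L2 l15
                  have k238 : e15 ≤ e6 := L3 l15 k134 k201
                  have k240 : e15 ≤ e9 := L3 l15 k149 k231
                  have k241 : e15 ≤ e10 := L3 l15 k130 k160
                  have k244 : e4 ≤ e15 := le_trans k131 k235
                  have k245 : e5 ≤ e15 := le_trans k154 k236
                  have k251 : ¬ e2 ≤ e15 := N2 k124 k241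
                  have k253 : ¬ e9 ≤ e15 := N1 k251 k96
                  have k261 : ¬ e15 ≤ e11 := N1 k145 k245
                  obtain ⟨e16, q16⟩ : ∃ y, f e15 = y := ⟨_, rfl⟩
                  have k266 : e5 ≤ e16 := MO hf q5 q16 k244
                  have k267 : e12 ≤ e16 := MO hf q12 q16 k235
                  have k268 : ¬ e15 ≤ e16 := FA hF q16
                  have k269 : ¬ e16 ≤ e15 := FB hG q16
                  have k270 : e16 ≤ e7 := MO hf q16 q7 k238
                  have k271 : e16 ≤ e10 := MO hf q16 q10 k240
                  have k272 : ¬ e11 ≤ e16 := L5 l15 k267 k268
                  by_cases k290 : ∃ z, IsGLB ({e0, e16} : Set P) z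
                  · obtain ⟨e17, g17⟩ := k290
                    have c17 : Core e0 e17 := CM g17
                    have k293 : e17 ≤ e0 := G1 g17
                    have k294 : e17 ≤ e16 := G2 g17
                    have k298 : e17 ≤ e6 := le_trans k293 k44
                    have k300 : e17 ≤ e7 := le_trans k294 k270
                    have k301 : e17 ≤ e10 := le_trans k294 k271
                    have k317 : ¬ e11 ≤ e17 := N2 k272 k294
                    have k318 : e17 ≤ e8 := G3 g8 k293 k300
                    have k319 : e17 ≤ e11 := G3 g11 k293 k301
                    have k321 : e17 ≤ e2 := le_trans k318 k87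
                    have k322 : e17 ≤ e9 := le_trans k318 k91
                    have k324 : e17 ≤ e15 := le_trans k319 k235
                    obtain ⟨e18, q18⟩ : ∃ y, f e17 = y := ⟨_, rfl⟩
                    have k327 : ¬ e18 ≤ e17 := FB hG q18
                    have k329 : e18 ≤ e3 := MO hf q18 q3 k321
                    have k331 : e18 ≤ e10 := MO hf q18 q10 k322
                    have k332 : e18 ≤ e12 := MO hf q18 q12 k319
                    have k333 : e18 ≤ e16 := MO hf q18 q16 k324
                    have k334 : ¬ e18 ≤ e0 := G5 g17 k333 k327
                    have k335 : e18 ≤ e6 := le_trans k332 k201
                    have k336 : e18 ≤ e9 := le_trans k332 k231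
                    have k339 : e18 ≤ e15 := le_trans k332 k236
                    have k358 : ¬ e18 ≤ e11 := N2 k334 k129
                    by_cases k359 : ∃ z, IsGLB ({e0, e18} : Set P) z
                    · obtain ⟨e19, g19⟩ := k359
                      have c19 : Core e0 e19 := CM g19
                      have k362 : e19 ≤ e0 := G1 g19
                      have k363 : e19 ≤ e18 := G2 g19
                      have k368 : e19 ≤ e3 := le_trans k363 k329
                      have k372 : e19 ≤ e12 := le_trans k363 k332
                      have k387 : ¬ e4 ≤ e19 := N2 k174 k372
                      have k396 : e19 ≤ e4 := G3 g4 k362 k368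
                      exact HL _ _ _ _ _ _ c19 c4 c11 c2 c0 c6 (LT k396 k387) (LT k131 k150) (LT k148 k140) (LT k6 k9) (LT k44 k54)
                    · obtain ⟨e19, l19⟩ := ZE h2 k331 k359 g11
                      have c19 : Core e0 e19 := CZ g11 k359 l19
                      have k362 : e11 ≤ e19 := L1 l19
                      have k363 : e18 ≤ e19 := L2 l19
                      have k371 : e19 ≤ e15 := L3 l19 k235 k339
                      have k395 : ¬ e19 ≤ e11 := N1 k358 k363
                      have k397 : e15 ≤ e19 := Classical.byContradiction fun hn => HL _ _ _ _ _ _ c4 c11 c19 c15 c9 c6 (LT k131 k150) (LT k362 k395) (LT k371 hn) (LT k240 k253) (LT k94 k99)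
                      have k398 : e5 ≤ e19 := le_trans k245 k397
                      obtain ⟨e20, l20⟩ := ZE h2 k333 k359 g17
                      have c20 : Core e0 e20 := CZ g17 k359 l20
                      have k402 : e17 ≤ e20 := L1 l20
                      have k403 : e18 ≤ e20 := L2 l20
                      have k405 : e20 ≤ e6 := L3 l20 k298 k335
                      have k407 : e20 ≤ e9 := L3 l20 k322 k336
                      have k411 : e20 ≤ e15 := L3 l20 k324 k339
                      have k436 : ¬ e20 ≤ e17 := N1 k327 k403
                      obtain ⟨e21, q21⟩ : ∃ y, f e20 = y := ⟨_, rfl⟩
                      have k439 : e18 ≤ e21 := MO hf q18 q21 k402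
                      have k440 : ¬ e20 ≤ e21 := FA hF q21
                      have k441 : ¬ e21 ≤ e20 := FB hG q21
                      have k442 : e21 ≤ e7 := MO hf q21 q7 k405
                      have k443 : e21 ≤ e10 := MO hf q21 q10 k407
                      have k444 : e21 ≤ e16 := MO hf q21 q16 k411
                      have k445 : ¬ e17 ≤ e21 := L5 l20 k439 k440
                      by_cases k467 : ∃ z, IsGLB ({e0, e21} : Set P) z
                      · obtain ⟨e22, g22⟩ := k467
                        have c22 : Core e0 e22 := CM g22
                        have k470 : e22 ≤ e0 := G1 g22
                        have k471 : e22 ≤ e21 := G2 g22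
                        have k478 : e22 ≤ e16 := le_trans k471 k444
                        have k496 : ¬ e17 ≤ e22 := N2 k445 k471
                        have k502 : e22 ≤ e17 := G3 g17 k470 k478
                        exact HL _ _ _ _ _ _ c22 c17 c11 c2 c0 c6 (LT k502 k496) (LT k319 k317) (LT k148 k140) (LT k6 k9) (LT k44 k54)
                      · obtain ⟨e22, l22⟩ := (h1 e21).resolve_right k467
                        have c22 : Core e0 e22 := CJ k467 l22
                        have k470 : e0 ≤ e22 := L1 l22
                        have k471 : e21 ≤ e22 := L2 l22
                        have k476 : e11 ≤ e22 := le_trans k129 k470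
                        have k478 : e18 ≤ e22 := le_trans k439 k471
                        have k499 : e19 ≤ e22 := L3 l19 k476 k478
                        have k501 : e5 ≤ e22 := le_trans k398 k499
                        have k504 : e6 ≤ e22 := L3 l6 k470 k501
                        have k508 : e22 ≤ e6 := Classical.byContradiction fun hn => HL _ _ _ _ _ _ c4 c11 c15 c9 c6 c22 (LT k131 k150) (LT k235 k261) (LT k240 k253) (LT k94 k99) (LT k504 hn)
                        have k510 : e21 ≤ e6 := le_trans k471 k508
                        obtain ⟨e23, l23⟩ := ZE h2 k442 k467 g8
                        have c23 : Core e0 e23 := CZ g8 k467 l23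
                        have k515 : e8 ≤ e23 := L1 l23
                        have k516 : e21 ≤ e23 := L2 l23
                        have k517 : e23 ≤ e6 := L3 l23 k78 k510
                        have k518 : e23 ≤ e7 := L3 l23 k73 k442
                        have k521 : e2 ≤ e23 := le_trans k74 k515
                        have k523 : e11 ≤ e23 := le_trans k146 k515
                        have k525 : e18 ≤ e23 := le_trans k439 k516
                        have k526 : ¬ e0 ≤ e23 := N2 k61 k518
                        have k527 : ¬ e6 ≤ e23 := N1 k526 k44
                        have k536 : ¬ e23 ≤ e15 := N1 k251 k521
                        have k548 : e19 ≤ e23 := L3 l19 k523 k525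
                        have k550 : e5 ≤ e23 := le_trans k398 k548
                        have k552 : e15 ≤ e23 := le_trans k397 k548
                        have k553 : e9 ≤ e23 := L3 l9 k515 k550
                        have k555 : e23 ≤ e9 := Classical.byContradiction fun hn => HL _ _ _ _ _ _ c4 c11 c15 c9 c23 c6 (LT k131 k150) (LT k235 k261) (LT k240 k253) (LT k553 hn) (LT k517 k527)
                        have k559 : e21 ≤ e9 := le_trans k516 k555
                        obtain ⟨e24, l24⟩ := ZE h2 k443 k467 g11
                        have c24 : Core e0 e24 := CZ g11 k467 l24
                        have k564 : e11 ≤ e24 := L1 l24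
                        have k565 : e21 ≤ e24 := L2 l24
                        have k569 : e24 ≤ e9 := L3 l24 k149 k559
                        have k570 : e24 ≤ e10 := L3 l24 k130 k443
                        have k577 : e18 ≤ e24 := le_trans k439 k565
                        have k584 : ¬ e2 ≤ e24 := N2 k124 k570
                        have k586 : ¬ e9 ≤ e24 := N1 k584 k96
                        have k604 : e19 ≤ e24 := L3 l19 k564 k577
                        have k608 : e15 ≤ e24 := le_trans k397 k604
                        have k609 : e24 ≤ e15 := Classical.byContradiction fun hn => HL _ _ _ _ _ _ c4 c11 c15 c24 c9 c6 (LT k131 k150) (LT k235 k261) (LT k608 hn) (LT k569 k586) (LT k94 k99)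
                        have k611 : e21 ≤ e15 := le_trans k565 k609
                        obtain ⟨e25, l25⟩ := ZE h2 k444 k467 g17
                        have c25 : Core e0 e25 := CZ g17 k467 l25
                        have k616 : e17 ≤ e25 := L1 l25
                        have k617 : e21 ≤ e25 := L2 l25
                        have k625 : e25 ≤ e15 := L3 l25 k324 k611
                        have k626 : e25 ≤ e16 := L3 l25 k294 k444
                        have k631 : e18 ≤ e25 := le_trans k439 k617
                        have k644 : ¬ e11 ≤ e25 := N2 k272 k626
                        have k645 : ¬ e15 ≤ e25 := N1 k644 k235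
                        have k659 : ¬ e25 ≤ e20 := N1 k441 k617
                        have k661 : e20 ≤ e25 := L3 l20 k616 k631
                        exact HL _ _ _ _ _ _ c17 c20 c25 c15 c23 c6 (LT k402 k436) (LT k661 k659) (LT k625 k645) (LT k552 k536) (LT k517 k527)
                  · obtain ⟨e17, l17⟩ := (h1 e16).resolve_right k290
                    have c17 : Core e0 e17 := CJ k290 l17
                    have k293 : e0 ≤ e17 := L1 l17
                    have k294 : e16 ≤ e17 := L2 l17
                    have k300 : e5 ≤ e17 := le_trans k266 k294
                    have k317 : e6 ≤ e17 := L3 l6 k293 k300
                    have k322 : e17 ≤ e6 := Classical.byContradiction fun hn => HL _ _ _ _ _ _ c4 c11 c15 c9 c6 c17 (LT k131 k150) (LT k235 k261) (LT k240 k253) (LT k94 k99) (LT k317 hn)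
                    have k324 : e16 ≤ e6 := le_trans k294 k322
                    obtain ⟨e18, l18⟩ := ZE h2 k270 k290 g8
                    have c18 : Core e0 e18 := CZ g8 k290 l18
                    have k329 : e8 ≤ e18 := L1 l18
                    have k330 : e16 ≤ e18 := L2 l18
                    have k331 : e18 ≤ e6 := L3 l18 k78 k324
                    have k332 : e18 ≤ e7 := L3 l18 k73 k270
                    have k338 : e5 ≤ e18 := le_trans k266 k330
                    have k340 : ¬ e0 ≤ e18 := N2 k61 k332
                    have k341 : ¬ e6 ≤ e18 := N1 k340 k44
                    have k357 : e9 ≤ e18 := L3 l9 k329 k338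
                    have k360 : e18 ≤ e9 := Classical.byContradiction fun hn => HL _ _ _ _ _ _ c4 c11 c15 c9 c18 c6 (LT k131 k150) (LT k235 k261) (LT k240 k253) (LT k357 hn) (LT k331 k341)
                    have k364 : e16 ≤ e9 := le_trans k330 k360
                    obtain ⟨e19, l19⟩ := ZE h2 k271 k290 g11
                    have c19 : Core e0 e19 := CZ g11 k290 l19
                    have k369 : e11 ≤ e19 := L1 l19
                    have k370 : e16 ≤ e19 := L2 l19
                    have k374 : e19 ≤ e9 := L3 l19 k149 k364
                    have k375 : e19 ≤ e10 := L3 l19 k130 k271
                    have k382 : e12 ≤ e19 := le_trans k267 k370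
                    have k389 : ¬ e2 ≤ e19 := N2 k124 k375
                    have k391 : ¬ e9 ≤ e19 := N1 k389 k96
                    have k404 : ¬ e19 ≤ e15 := N1 k269 k370
                    have k406 : e15 ≤ e19 := L3 l15 k369 k382
                    exact HL _ _ _ _ _ _ c4 c11 c15 c19 c9 c6 (LT k131 k150) (LT k235 k261) (LT k406 k404) (LT k374 k391) (LT k94 k99)
            · obtain ⟨e11, l11⟩ := (h1 e10).resolve_right k126
              have c11 : Core e0 e11 := CJ k126 l11
              have k129 : e0 ≤ e11 := L1 l11
              have k130 : e10 ≤ e11 := L2 l11
              have k133 : e4 ≤ e11 := le_trans k21 k129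
              have k134 : e8 ≤ e11 := le_trans k72 k129
              have k136 : e5 ≤ e11 := le_trans k110 k130
              have k147 : e6 ≤ e11 := L3 l6 k129 k136
              have k148 : e9 ≤ e11 := L3 l9 k134 k136
              by_cases k149 : e11 ≤ e6
              · have k151 : e10 ≤ e6 := le_trans k130 k149
                obtain ⟨e12, l12⟩ := ZE h2 k113 k126 g8
                have c12 : Core e0 e12 := CZ g8 k126 l12
                have k155 : e8 ≤ e12 := L1 l12
                have k156 : e10 ≤ e12 := L2 l12
                have k157 : e12 ≤ e6 := L3 l12 k78 k151
                have k158 : e12 ≤ e7 := L3 l12 k73 k113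
                have k160 : e2 ≤ e12 := le_trans k74 k155
                have k161 : e4 ≤ e12 := le_trans k75 k155
                have k163 : e5 ≤ e12 := le_trans k110 k156
                have k164 : ¬ e0 ≤ e12 := N2 k61 k158
                have k165 : ¬ e6 ≤ e12 := N1 k164 k44
                have k175 : ¬ e12 ≤ e9 := N1 k112 k156
                have k177 : e9 ≤ e12 := L3 l9 k155 k163
                obtain ⟨e13, q13⟩ : ∃ y, f e12 = y := ⟨_, rfl⟩
                have k179 : e3 ≤ e13 := MO hf q3 q13 k160
                have k180 : e5 ≤ e13 := MO hf q5 q13 k161
                have k181 : e10 ≤ e13 := MO hf q10 q13 k177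
                have k182 : ¬ e12 ≤ e13 := FA hF q13
                have k183 : ¬ e13 ≤ e12 := FB hG q13
                have k184 : e13 ≤ e7 := MO hf q13 q7 k157
                have k185 : ¬ e8 ≤ e13 := L5 l12 k181 k182
                have k186 : e4 ≤ e13 := le_trans k22 k179
                have k196 : ¬ e2 ≤ e13 := N1 k185 k87
                by_cases k202 : ∃ z, IsGLB ({e0, e13} : Set P) z
                · obtain ⟨e14, g14⟩ := k202
                  have c14 : Core e0 e14 := CM g14
                  have k205 : e14 ≤ e0 := G1 g14
                  have k206 : e14 ≤ e13 := G2 g14
                  have k207 : e4 ≤ e14 := G3 g14 k21 k186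
                  have k209 : ¬ e14 ≤ e10 := BN3 g14 k126 k181
                  have k213 : e14 ≤ e7 := le_trans k206 k184
                  have k219 : ¬ e2 ≤ e14 := N2 k196 k206
                  have k220 : ¬ e8 ≤ e14 := N1 k219 k74
                  have k228 : ¬ e14 ≤ e4 := N2 k209 k115
                  have k229 : e14 ≤ e8 := G3 g8 k205 k213
                  exact HL _ _ _ _ _ _ c4 c14 c8 c9 c12 c6 (LT k207 k228) (LT k229 k220) (LT k91 k105) (LT k177 k175) (LT k157 k165)
                · obtain ⟨e14, l14⟩ := (h1 e13).resolve_right k202
                  have c14 : Core e0 e14 := CJ k202 l14
                  have k205 : e0 ≤ e14 := L1 l14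
                  have k206 : e13 ≤ e14 := L2 l14
                  have k212 : e5 ≤ e14 := le_trans k180 k206
                  have k226 : e6 ≤ e14 := L3 l6 k205 k212
                  have k230 : e14 ≤ e6 := Classical.byContradiction fun hn => HL _ _ _ _ _ _ c4 c8 c9 c12 c6 c14 (LT k75 k84) (LT k91 k105) (LT k177 k175) (LT k157 k165) (LT k226 hn)
                  have k232 : e13 ≤ e6 := le_trans k206 k230
                  obtain ⟨e15, l15⟩ := ZE h2 k184 k202 g8
                  have c15 : Core e0 e15 := CZ g8 k202 l15
                  have k237 : e8 ≤ e15 := L1 l15
                  have k238 : e13 ≤ e15 := L2 l15
                  have k239 : e15 ≤ e6 := L3 l15 k78 k232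
                  have k240 : e15 ≤ e7 := L3 l15 k73 k184
                  have k247 : e10 ≤ e15 := le_trans k181 k238
                  have k248 : ¬ e0 ≤ e15 := N2 k61 k240
                  have k249 : ¬ e6 ≤ e15 := N1 k248 k44
                  have k262 : ¬ e15 ≤ e12 := N1 k183 k238
                  have k265 : e12 ≤ e15 := L3 l12 k237 k247
                  exact HL _ _ _ _ _ _ c4 c2 c9 c12 c15 c6 (LT k29 k27) (LT k96 k104) (LT k177 k175) (LT k265 k262) (LT k239 k249)
              · obtain ⟨e12, q12⟩ : ∃ y, f e11 = y := ⟨_, rfl⟩
                have k152 : e1 ≤ e12 := MO hf q1 q12 k129
                have k154 : e5 ≤ e12 := MO hf q5 q12 k133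
                have k156 : e10 ≤ e12 := MO hf q10 q12 k148
                have k157 : ¬ e11 ≤ e12 := FA hF q12
                have k158 : ¬ e12 ≤ e11 := FB hG q12
                have k159 : ¬ e0 ≤ e12 := L5 l11 k156 k157
                have k160 : e2 ≤ e12 := le_trans k7 k152
                have k162 : e8 ≤ e12 := le_trans k88 k152
                by_cases k174 : ∃ z, IsGLB ({e0, e12} : Set P) z
                · obtain ⟨e13, g13⟩ := k174
                  have c13 : Core e0 e13 := CM g13
                  obtain ⟨e14, l14⟩ := ZE h2 k154 k41 g13
                  have c14 : Core e0 e14 := CZ g13 k41 l14
                  have k179 : e13 ≤ e0 := G1 g13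
                  have k180 : e13 ≤ e12 := G2 g13
                  have k181 : e2 ≤ e13 := G3 g13 k6 k160
                  have k183 : e8 ≤ e13 := G3 g13 k72 k162
                  have k191 : e13 ≤ e11 := le_trans k179 k129
                  have k195 : ¬ e0 ≤ e13 := N2 k159 k180
                  have k225 : e13 ≤ e2 := Classical.byContradiction fun hn => HL _ _ _ _ _ _ c4 c2 c13 c0 c6 c11 (LT k29 k27) (LT k181 hn) (LT k179 k195) (LT k44 k54) (LT k147 k149)
                  have k227 : e13 ≤ e7 := le_trans k225 k62
                  obtain ⟨e15, l15⟩ := ZE h2 k156 k126 g13
                  have c15 : Core e0 e15 := CZ g13 k126 l15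
                  have k235 : e13 ≤ e15 := L1 l15
                  have k236 : e10 ≤ e15 := L2 l15
                  have k237 : e15 ≤ e7 := L3 l15 k227 k113
                  have k238 : e15 ≤ e11 := L3 l15 k191 k130
                  have k242 : e5 ≤ e15 := le_trans k110 k236
                  have k243 : e2 ≤ e15 := le_trans k181 k235
                  have k244 : e8 ≤ e15 := le_trans k183 k235
                  have k245 : ¬ e0 ≤ e15 := N2 k61 k237
                  have k247 : ¬ e11 ≤ e15 := N1 k245 k129
                  have k257 : ¬ e15 ≤ e9 := N1 k112 k236
                  have k261 : e9 ≤ e15 := L3 l9 k244 k242
                  obtain ⟨e16, q16⟩ : ∃ y, f e15 = y := ⟨_, rfl⟩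
                  have k264 : e3 ≤ e16 := MO hf q3 q16 k243
                  have k266 : e10 ≤ e16 := MO hf q10 q16 k261
                  have k267 : ¬ e15 ≤ e16 := FA hF q16
                  have k268 : ¬ e16 ≤ e15 := FB hG q16
                  have k269 : e16 ≤ e12 := MO hf q16 q12 k238
                  have k270 : ¬ e13 ≤ e16 := L5 l15 k266 k267
                  have k271 : e4 ≤ e16 := le_trans k22 k264
                  have k285 : ¬ e2 ≤ e16 := N1 k270 k225
                  by_cases k293 : ∃ z, IsGLB ({e0, e16} : Set P) z
                  · obtain ⟨e17, g17⟩ := k293
                    have c17 : Core e0 e17 := CM g17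
                    have k296 : e17 ≤ e0 := G1 g17
                    have k297 : e17 ≤ e16 := G2 g17
                    have k298 : e4 ≤ e17 := G3 g17 k21 k271
                    have k300 : ¬ e17 ≤ e10 := BN3 g17 k126 k266
                    have k304 : e17 ≤ e12 := le_trans k297 k269
                    have k311 : ¬ e2 ≤ e17 := N2 k285 k297
                    have k314 : ¬ e13 ≤ e17 := N1 k311 k181
                    have k322 : ¬ e17 ≤ e4 := N2 k300 k115
                    have k323 : e17 ≤ e13 := G3 g13 k296 k304
                    exact HL _ _ _ _ _ _ c4 c17 c13 c0 c6 c11 (LT k298 k322) (LT k323 k314) (LT k179 k195) (LT k44 k54) (LT k147 k149)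
                  · obtain ⟨e17, l17⟩ := (h1 e16).resolve_right k293
                    have c17 : Core e0 e17 := CJ k293 l17
                    have k296 : e0 ≤ e17 := L1 l17
                    have k297 : e16 ≤ e17 := L2 l17
                    have k305 : e10 ≤ e17 := le_trans k266 k297
                    have k324 : e11 ≤ e17 := L3 l11 k296 k305
                    have k327 : e17 ≤ e11 := Classical.byContradiction fun hn => HL _ _ _ _ _ _ c4 c8 c9 c15 c11 c17 (LT k75 k84) (LT k91 k105) (LT k261 k257) (LT k238 k247) (LT k324 hn)
                    have k328 : e16 ≤ e11 := le_trans k297 k327
                    obtain ⟨e18, l18⟩ := ZE h2 k269 k293 g13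
                    have c18 : Core e0 e18 := CZ g13 k293 l18
                    have k332 : e13 ≤ e18 := L1 l18
                    have k333 : e16 ≤ e18 := L2 l18
                    have k334 : e18 ≤ e11 := L3 l18 k191 k328
                    have k335 : e18 ≤ e12 := L3 l18 k180 k269
                    have k342 : e10 ≤ e18 := le_trans k266 k333
                    have k343 : ¬ e0 ≤ e18 := N2 k159 k335
                    have k345 : ¬ e11 ≤ e18 := N1 k343 k129
                    have k360 : ¬ e18 ≤ e15 := N1 k268 k333
                    have k364 : e15 ≤ e18 := L3 l15 k332 k342
                    exact HL _ _ _ _ _ _ c4 c2 c9 c15 c18 c11 (LT k29 k27) (LT k96 k104) (LT k261 k257) (LT k364 k360) (LT k334 k345)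
                · obtain ⟨e13, l13⟩ := (h1 e12).resolve_right k174
                  have c13 : Core e0 e13 := CJ k174 l13
                  have k177 : e0 ≤ e13 := L1 l13
                  have k178 : e12 ≤ e13 := L2 l13
                  have k188 : e10 ≤ e13 := le_trans k156 k178
                  have k201 : ¬ e13 ≤ e11 := N1 k158 k178
                  have k203 : e11 ≤ e13 := L3 l11 k177 k188
                  exact HL _ _ _ _ _ _ c4 c8 c0 c6 c11 c13 (LT k75 k84) (LT k72 k79) (LT k44 k54) (LT k147 k149) (LT k203 k201)
          · have k88 : ¬ e8 ≤ e1 := G4 g2 k72 k87
            obtain ⟨e9, q9⟩ : ∃ y, f e8 = y := ⟨_, rfl⟩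
            have k91 : e3 ≤ e9 := MO hf q3 q9 k74
            have k92 : e5 ≤ e9 := MO hf q5 q9 k75
            have k95 : e9 ≤ e1 := MO hf q9 q1 k72
            have k96 : e9 ≤ e7 := MO hf q9 q7 k78
            have k98 : e4 ≤ e9 := le_trans k22 k91
            by_cases k105 : ∃ z, IsGLB ({e0, e9} : Set P) z
            · obtain ⟨e10, g10⟩ := k105
              have c10 : Core e0 e10 := CM g10
              have k108 : e10 ≤ e0 := G1 g10
              have k109 : e10 ≤ e9 := G2 g10
              have k110 : e4 ≤ e10 := G3 g10 k21 k98
              have k114 : e10 ≤ e1 := le_trans k109 k95
              have k115 : e10 ≤ e7 := le_trans k109 k96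
              have k122 : ¬ e5 ≤ e10 := N2 k35 k108
              have k123 : ¬ e8 ≤ e10 := N2 k88 k114
              have k124 : e10 ≤ e2 := G3 g2 k108 k114
              have k125 : e10 ≤ e8 := G3 g8 k108 k115
              by_cases k126 : e10 ≤ e4
              · have k127 : e10 ≤ e3 := le_trans k126 k22
                obtain ⟨e11, l11⟩ := ZE h2 k58 k41 g8
                have c11 : Core e0 e11 := CZ g8 k41 l11
                have k133 : e8 ≤ e11 := L1 l11
                have k134 : e5 ≤ e11 := L2 l11
                have k135 : e11 ≤ e6 := L3 l11 k78 k45
                have k136 : e11 ≤ e7 := L3 l11 k73 k58
                have k137 : e2 ≤ e11 := le_trans k74 k133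
                have k138 : e4 ≤ e11 := le_trans k75 k133
                have k140 : ¬ e0 ≤ e11 := N2 k61 k136
                have k141 : ¬ e6 ≤ e11 := N1 k140 k44
                have k149 : ¬ e11 ≤ e8 := N1 k86 k134
                obtain ⟨e12, q12⟩ : ∃ y, f e11 = y := ⟨_, rfl⟩
                have k154 : e3 ≤ e12 := MO hf q3 q12 k137
                have k155 : e5 ≤ e12 := MO hf q5 q12 k138
                have k157 : ¬ e11 ≤ e12 := FA hF q12
                have k158 : ¬ e12 ≤ e11 := FB hG q12
                have k159 : e12 ≤ e7 := MO hf q12 q7 k135
                have k160 : ¬ e8 ≤ e12 := L5 l11 k155 k157
                have k161 : e4 ≤ e12 := le_trans k22 k154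
                have k162 : e10 ≤ e12 := le_trans k127 k154
                by_cases k172 : ∃ z, IsGLB ({e0, e12} : Set P) z
                · obtain ⟨e13, g13⟩ := k172
                  have c13 : Core e0 e13 := CM g13
                  have k175 : e13 ≤ e0 := G1 g13
                  have k176 : e13 ≤ e12 := G2 g13
                  have k177 : e4 ≤ e13 := G3 g13 k21 k161
                  have k178 : e10 ≤ e13 := G3 g13 k108 k162
                  have k181 : e13 ≤ e6 := le_trans k175 k44
                  have k182 : e13 ≤ e7 := le_trans k176 k159
                  have k190 : ¬ e5 ≤ e13 := N2 k35 k175
                  have k192 : ¬ e8 ≤ e13 := N2 k160 k176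
                  have k193 : e13 ≤ e8 := G3 g8 k175 k182
                  have k194 : e13 ≤ e11 := le_trans k193 k133
                  by_cases k195 : e13 ≤ e4
                  · have k197 : e13 ≤ e2 := le_trans k195 k29
                    have k198 : e13 ≤ e3 := le_trans k195 k22
                    have k201 : ¬ e2 ≤ e13 := N2 k12 k198
                    have k202 : ¬ e2 ≤ e12 := G4 g13 k6 k201
                    obtain ⟨e14, l14⟩ := ZE h2 k155 k41 g13
                    have c14 : Core e0 e14 := CZ g13 k41 l14
                    have k206 : e13 ≤ e14 := L1 l14
                    have k207 : e5 ≤ e14 := L2 l14
                    have k210 : e14 ≤ e6 := L3 l14 k181 k45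
                    have k213 : e14 ≤ e11 := L3 l14 k194 k134
                    have k215 : e4 ≤ e14 := le_trans k177 k206
                    have k227 : ¬ e14 ≤ e4 := N1 k32 k207
                    obtain ⟨e15, q15⟩ : ∃ y, f e14 = y := ⟨_, rfl⟩
                    have k234 : e5 ≤ e15 := MO hf q5 q15 k215
                    have k235 : ¬ e14 ≤ e15 := FA hF q15
                    have k236 : ¬ e15 ≤ e14 := FB hG q15
                    have k237 : e15 ≤ e7 := MO hf q15 q7 k210
                    have k238 : e15 ≤ e12 := MO hf q15 q12 k213
                    have k239 : ¬ e13 ≤ e15 := L5 l14 k234 k235
                    have k254 : ¬ e4 ≤ e15 := N1 k239 k195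
                    by_cases k259 : ∃ z, IsGLB ({e0, e15} : Set P) z
                    · obtain ⟨e16, g16⟩ := k259
                      have c16 : Core e0 e16 := CM g16
                      have k262 : e16 ≤ e0 := G1 g16
                      have k263 : e16 ≤ e15 := G2 g16
                      have k268 : e16 ≤ e12 := le_trans k263 k238
                      have k279 : ¬ e4 ≤ e16 := N2 k254 k263
                      have k281 : ¬ e13 ≤ e16 := N1 k279 k177
                      have k286 : e16 ≤ e13 := G3 g13 k262 k268
                      exact HL _ _ _ _ _ _ c16 c13 c2 c8 c0 c6 (LT k286 k281) (LT k197 k201) (LT k74 k87) (LT k72 k79) (LT k44 k54)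
                    · obtain ⟨e16, l16⟩ := (h1 e15).resolve_right k259
                      have c16 : Core e0 e16 := CJ k259 l16
                      have k262 : e0 ≤ e16 := L1 l16
                      have k263 : e15 ≤ e16 := L2 l16
                      have k270 : e5 ≤ e16 := le_trans k234 k263
                      have k286 : e6 ≤ e16 := L3 l6 k262 k270
                      have k289 : e16 ≤ e6 := Classical.byContradiction fun hn => HL _ _ _ _ _ _ c4 c2 c8 c11 c6 c16 (LT k29 k27) (LT k74 k87) (LT k133 k149) (LT k135 k141) (LT k286 hn)
                      have k290 : e15 ≤ e6 := le_trans k263 k289
                      obtain ⟨e17, l17⟩ := ZE h2 k237 k259 g8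
                      have c17 : Core e0 e17 := CZ g8 k259 l17
                      have k294 : e8 ≤ e17 := L1 l17
                      have k295 : e15 ≤ e17 := L2 l17
                      have k296 : e17 ≤ e6 := L3 l17 k78 k290
                      have k297 : e17 ≤ e7 := L3 l17 k73 k237
                      have k303 : e5 ≤ e17 := le_trans k234 k295
                      have k304 : ¬ e0 ≤ e17 := N2 k61 k297
                      have k305 : ¬ e6 ≤ e17 := N1 k304 k44
                      have k322 : e11 ≤ e17 := L3 l11 k294 k303
                      have k324 : e17 ≤ e11 := Classical.byContradiction fun hn => HL _ _ _ _ _ _ c4 c2 c8 c11 c17 c6 (LT k29 k27) (LT k74 k87) (LT k133 k149) (LT k322 hn) (LT k296 k305)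
                      have k325 : e15 ≤ e11 := le_trans k295 k324
                      obtain ⟨e18, l18⟩ := ZE h2 k238 k259 g13
                      have c18 : Core e0 e18 := CZ g13 k259 l18
                      have k329 : e13 ≤ e18 := L1 l18
                      have k330 : e15 ≤ e18 := L2 l18
                      have k331 : e18 ≤ e6 := L3 l18 k181 k290
                      have k333 : e18 ≤ e11 := L3 l18 k194 k325
                      have k334 : e18 ≤ e12 := L3 l18 k176 k238
                      have k337 : e4 ≤ e18 := le_trans k177 k329
                      have k339 : e5 ≤ e18 := le_trans k234 k330
                      have k345 : ¬ e2 ≤ e18 := N2 k202 k334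
                      have k347 : ¬ e11 ≤ e18 := N1 k345 k137
                      have k358 : ¬ e18 ≤ e14 := N1 k236 k330
                      have k360 : e14 ≤ e18 := L3 l14 k329 k339
                      obtain ⟨e19, q19⟩ : ∃ y, f e18 = y := ⟨_, rfl⟩
                      have k362 : e5 ≤ e19 := MO hf q5 q19 k337
                      have k363 : e15 ≤ e19 := MO hf q15 q19 k360
                      have k364 : ¬ e18 ≤ e19 := FA hF q19
                      have k365 : ¬ e19 ≤ e18 := FB hG q19
                      have k366 : e19 ≤ e7 := MO hf q19 q7 k331
                      have k367 : e19 ≤ e12 := MO hf q19 q12 k333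
                      have k368 : ¬ e13 ≤ e19 := L5 l18 k363 k364
                      have k385 : ¬ e4 ≤ e19 := N1 k368 k195
                      by_cases k393 : ∃ z, IsGLB ({e0, e19} : Set P) z
                      · obtain ⟨e20, g20⟩ := k393
                        have c20 : Core e0 e20 := CM g20
                        have k396 : e20 ≤ e0 := G1 g20
                        have k397 : e20 ≤ e19 := G2 g20
                        have k404 : e20 ≤ e12 := le_trans k397 k367
                        have k417 : ¬ e4 ≤ e20 := N2 k385 k397
                        have k419 : ¬ e13 ≤ e20 := N1 k417 k177
                        have k426 : e20 ≤ e13 := G3 g13 k396 k404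
                        exact HL _ _ _ _ _ _ c20 c13 c2 c8 c0 c6 (LT k426 k419) (LT k197 k201) (LT k74 k87) (LT k72 k79) (LT k44 k54)
                      · obtain ⟨e20, l20⟩ := (h1 e19).resolve_right k393
                        have c20 : Core e0 e20 := CJ k393 l20
                        have k396 : e0 ≤ e20 := L1 l20
                        have k397 : e19 ≤ e20 := L2 l20
                        have k404 : e5 ≤ e20 := le_trans k362 k397
                        have k424 : e6 ≤ e20 := L3 l6 k396 k404
                        have k430 : e20 ≤ e6 := Classical.byContradiction fun hn => HL _ _ _ _ _ _ c4 c14 c18 c11 c6 c20 (LT k215 k227) (LT k360 k358) (LT k333 k347) (LT k135 k141) (LT k424 hn)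
                        have k432 : e19 ≤ e6 := le_trans k397 k430
                        obtain ⟨e21, l21⟩ := ZE h2 k366 k393 g8
                        have c21 : Core e0 e21 := CZ g8 k393 l21
                        have k437 : e8 ≤ e21 := L1 l21
                        have k438 : e19 ≤ e21 := L2 l21
                        have k439 : e21 ≤ e6 := L3 l21 k78 k432
                        have k440 : e21 ≤ e7 := L3 l21 k73 k366
                        have k447 : e5 ≤ e21 := le_trans k362 k438
                        have k449 : ¬ e0 ≤ e21 := N2 k61 k440
                        have k450 : ¬ e6 ≤ e21 := N1 k449 k44
                        have k470 : e11 ≤ e21 := L3 l11 k437 k447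
                        have k474 : e21 ≤ e11 := Classical.byContradiction fun hn => HL _ _ _ _ _ _ c4 c14 c18 c11 c21 c6 (LT k215 k227) (LT k360 k358) (LT k333 k347) (LT k470 hn) (LT k439 k450)
                        have k476 : e19 ≤ e11 := le_trans k438 k474
                        obtain ⟨e22, l22⟩ := ZE h2 k367 k393 g13
                        have c22 : Core e0 e22 := CZ g13 k393 l22
                        have k481 : e13 ≤ e22 := L1 l22
                        have k482 : e19 ≤ e22 := L2 l22
                        have k485 : e22 ≤ e11 := L3 l22 k194 k476
                        have k486 : e22 ≤ e12 := L3 l22 k176 k367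
                        have k494 : e15 ≤ e22 := le_trans k363 k482
                        have k501 : ¬ e2 ≤ e22 := N2 k202 k486
                        have k503 : ¬ e11 ≤ e22 := N1 k501 k137
                        have k517 : ¬ e22 ≤ e18 := N1 k365 k482
                        have k520 : e18 ≤ e22 := L3 l18 k481 k494
                        exact HL _ _ _ _ _ _ c4 c14 c18 c22 c11 c6 (LT k215 k227) (LT k360 k358) (LT k520 k517) (LT k485 k503) (LT k135 k141)
                  · have k196 : ¬ e13 ≤ e10 := N2 k195 k126
                    obtain ⟨e14, q14⟩ : ∃ y, f e13 = y := ⟨_, rfl⟩
                    have k202 : e5 ≤ e14 := MO hf q5 q14 k177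
                    have k206 : e14 ≤ e7 := MO hf q14 q7 k181
                    have k207 : e14 ≤ e9 := MO hf q14 q9 k193
                    have k208 : e14 ≤ e12 := MO hf q14 q12 k194
                    by_cases k222 : ∃ z, IsGLB ({e0, e14} : Set P) z
                    · obtain ⟨e15, g15⟩ := k222
                      have c15 : Core e0 e15 := CM g15
                      have k225 : e15 ≤ e0 := G1 g15
                      have k226 : e15 ≤ e14 := G2 g15
                      have k232 : e15 ≤ e9 := le_trans k226 k207
                      have k250 : e15 ≤ e10 := G3 g10 k225 k232
                      have k254 : e15 ≤ e4 := le_trans k250 k126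
                      have k255 : e4 ≤ e15 := Classical.byContradiction fun hn => HL _ _ _ _ _ _ c15 c4 c2 c8 c0 c6 (LT k254 hn) (LT k29 k27) (LT k74 k87) (LT k72 k79) (LT k44 k54)
                      have k257 : e4 ≤ e14 := le_trans k255 k226
                      obtain ⟨e16, l16⟩ := ZE h2 k155 k41 g13
                      have c16 : Core e0 e16 := CZ g13 k41 l16
                      have k261 : e13 ≤ e16 := L1 l16
                      have k262 : e5 ≤ e16 := L2 l16
                      have k263 : e16 ≤ e6 := L3 l16 k181 k45
                      have k265 : e16 ≤ e11 := L3 l16 k194 k134
                      have k266 : e16 ≤ e12 := L3 l16 k176 k155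
                      have k267 : e4 ≤ e16 := le_trans k177 k261
                      have k278 : ¬ e16 ≤ e13 := N1 k190 k262
                      have k281 : ¬ e8 ≤ e16 := N2 k160 k266
                      have k282 : ¬ e11 ≤ e16 := N1 k281 k133
                      obtain ⟨e17, q17⟩ : ∃ y, f e16 = y := ⟨_, rfl⟩
                      have k289 : e5 ≤ e17 := MO hf q5 q17 k267
                      have k290 : e14 ≤ e17 := MO hf q14 q17 k261
                      have k291 : ¬ e16 ≤ e17 := FA hF q17
                      have k292 : ¬ e17 ≤ e16 := FB hG q17
                      have k293 : e17 ≤ e7 := MO hf q17 q7 k263
                      have k294 : e17 ≤ e12 := MO hf q17 q12 k265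
                      have k295 : ¬ e13 ≤ e17 := L5 l16 k289 k291
                      have k296 : e4 ≤ e17 := le_trans k257 k290
                      by_cases k313 : ∃ z, IsGLB ({e0, e17} : Set P) z
                      · obtain ⟨e18, g18⟩ := k313
                        have c18 : Core e0 e18 := CM g18
                        have k316 : e18 ≤ e0 := G1 g18
                        have k317 : e18 ≤ e17 := G2 g18
                        have k318 : e4 ≤ e18 := G3 g18 k21 k296
                        have k323 : e18 ≤ e6 := le_trans k316 k44
                        have k324 : e18 ≤ e7 := le_trans k317 k293
                        have k325 : e18 ≤ e12 := le_trans k317 k294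
                        have k339 : ¬ e13 ≤ e18 := N2 k295 k317
                        have k340 : e18 ≤ e8 := G3 g8 k316 k324
                        have k341 : e18 ≤ e13 := G3 g13 k316 k325
                        have k342 : e18 ≤ e11 := le_trans k340 k133
                        have k343 : e18 ≤ e16 := le_trans k341 k261
                        have k344 : e18 ≤ e4 := Classical.byContradiction fun hn => HL _ _ _ _ _ _ c4 c18 c13 c8 c0 c6 (LT k318 hn) (LT k341 k339) (LT k193 k192) (LT k72 k79) (LT k44 k54)
                        have k346 : e18 ≤ e2 := le_trans k344 k29
                        have k347 : e18 ≤ e3 := le_trans k344 k22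
                        have k352 : ¬ e2 ≤ e18 := N2 k12 k347
                        obtain ⟨e19, l19⟩ := ZE h2 k289 k41 g18
                        have c19 : Core e0 e19 := CZ g18 k41 l19
                        have k357 : e18 ≤ e19 := L1 l19
                        have k358 : e5 ≤ e19 := L2 l19
                        have k361 : e19 ≤ e6 := L3 l19 k323 k45
                        have k364 : e19 ≤ e11 := L3 l19 k342 k134
                        have k367 : e19 ≤ e16 := L3 l19 k343 k262
                        have k369 : e4 ≤ e19 := le_trans k318 k357
                        have k382 : ¬ e19 ≤ e4 := N1 k32 k358
                        obtain ⟨e20, q20⟩ : ∃ y, f e19 = y := ⟨_, rfl⟩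
                        have k394 : e5 ≤ e20 := MO hf q5 q20 k369
                        have k395 : ¬ e19 ≤ e20 := FA hF q20
                        have k396 : ¬ e20 ≤ e19 := FB hG q20
                        have k397 : e20 ≤ e7 := MO hf q20 q7 k361
                        have k398 : e20 ≤ e12 := MO hf q20 q12 k364
                        have k399 : e20 ≤ e17 := MO hf q20 q17 k367
                        have k400 : ¬ e18 ≤ e20 := L5 l19 k394 k395
                        have k420 : ¬ e4 ≤ e20 := N1 k400 k344
                        by_cases k427 : ∃ z, IsGLB ({e0, e20} : Set P) z
                        · obtain ⟨e21, g21⟩ := k427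
                          have c21 : Core e0 e21 := CM g21
                          have k430 : e21 ≤ e0 := G1 g21
                          have k431 : e21 ≤ e20 := G2 g21
                          have k437 : e21 ≤ e17 := le_trans k431 k399
                          have k448 : ¬ e4 ≤ e21 := N2 k420 k431
                          have k455 : ¬ e18 ≤ e21 := N1 k448 k318
                          have k461 : e21 ≤ e18 := G3 g18 k430 k437
                          exact HL _ _ _ _ _ _ c21 c18 c2 c8 c0 c6 (LT k461 k455) (LT k346 k352) (LT k74 k87) (LT k72 k79) (LT k44 k54)
                        · obtain ⟨e21, l21⟩ := (h1 e20).resolve_right k427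
                          have c21 : Core e0 e21 := CJ k427 l21
                          have k430 : e0 ≤ e21 := L1 l21
                          have k431 : e20 ≤ e21 := L2 l21
                          have k440 : e5 ≤ e21 := le_trans k394 k431
                          have k461 : e6 ≤ e21 := L3 l6 k430 k440
                          have k465 : e21 ≤ e6 := Classical.byContradiction fun hn => HL _ _ _ _ _ _ c4 c13 c16 c11 c6 c21 (LT k177 k195) (LT k261 k278) (LT k265 k282) (LT k135 k141) (LT k461 hn)
                          have k466 : e20 ≤ e6 := le_trans k431 k465
                          obtain ⟨e22, l22⟩ := ZE h2 k397 k427 g8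
                          have c22 : Core e0 e22 := CZ g8 k427 l22
                          have k470 : e8 ≤ e22 := L1 l22
                          have k471 : e20 ≤ e22 := L2 l22
                          have k472 : e22 ≤ e6 := L3 l22 k78 k466
                          have k473 : e22 ≤ e7 := L3 l22 k73 k397
                          have k481 : e5 ≤ e22 := le_trans k394 k471
                          have k482 : ¬ e0 ≤ e22 := N2 k61 k473
                          have k483 : ¬ e6 ≤ e22 := N1 k482 k44
                          have k505 : e11 ≤ e22 := L3 l11 k470 k481
                          have k508 : e22 ≤ e11 := Classical.byContradiction fun hn => HL _ _ _ _ _ _ c4 c13 c16 c11 c22 c6 (LT k177 k195) (LT k261 k278) (LT k265 k282) (LT k505 hn) (LT k472 k483)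
                          have k509 : e20 ≤ e11 := le_trans k471 k508
                          obtain ⟨e23, l23⟩ := ZE h2 k398 k427 g13
                          have c23 : Core e0 e23 := CZ g13 k427 l23
                          have k513 : e13 ≤ e23 := L1 l23
                          have k514 : e20 ≤ e23 := L2 l23
                          have k517 : e23 ≤ e11 := L3 l23 k194 k509
                          have k518 : e23 ≤ e12 := L3 l23 k176 k398
                          have k525 : e5 ≤ e23 := le_trans k394 k514
                          have k540 : ¬ e8 ≤ e23 := N2 k160 k518
                          have k541 : ¬ e11 ≤ e23 := N1 k540 k133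
                          have k550 : e16 ≤ e23 := L3 l16 k513 k525
                          have k552 : e23 ≤ e16 := Classical.byContradiction fun hn => HL _ _ _ _ _ _ c4 c13 c16 c23 c11 c6 (LT k177 k195) (LT k261 k278) (LT k550 hn) (LT k517 k541) (LT k135 k141)
                          have k553 : e20 ≤ e16 := le_trans k514 k552
                          obtain ⟨e24, l24⟩ := ZE h2 k399 k427 g18
                          have c24 : Core e0 e24 := CZ g18 k427 l24
                          have k557 : e18 ≤ e24 := L1 l24
                          have k558 : e20 ≤ e24 := L2 l24
                          have k563 : e24 ≤ e16 := L3 l24 k343 k553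
                          have k564 : e24 ≤ e17 := L3 l24 k317 k399
                          have k571 : e5 ≤ e24 := le_trans k394 k558
                          have k592 : ¬ e13 ≤ e24 := N2 k295 k564
                          have k593 : ¬ e16 ≤ e24 := N1 k592 k261
                          have k596 : ¬ e24 ≤ e19 := N1 k396 k558
                          have k598 : e19 ≤ e24 := L3 l19 k557 k571
                          exact HL _ _ _ _ _ _ c4 c19 c24 c16 c11 c6 (LT k369 k382) (LT k598 k596) (LT k563 k593) (LT k265 k282) (LT k135 k141)
                      · obtain ⟨e18, l18⟩ := (h1 e17).resolve_right k313
                        have c18 : Core e0 e18 := CJ k313 l18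
                        have k316 : e0 ≤ e18 := L1 l18
                        have k317 : e17 ≤ e18 := L2 l18
                        have k325 : e5 ≤ e18 := le_trans k289 k317
                        have k344 : e6 ≤ e18 := L3 l6 k316 k325
                        have k347 : e18 ≤ e6 := Classical.byContradiction fun hn => HL _ _ _ _ _ _ c4 c13 c16 c11 c6 c18 (LT k177 k195) (LT k261 k278) (LT k265 k282) (LT k135 k141) (LT k344 hn)
                        have k349 : e17 ≤ e6 := le_trans k317 k347
                        obtain ⟨e19, l19⟩ := ZE h2 k293 k313 g8
                        have c19 : Core e0 e19 := CZ g8 k313 l19
                        have k353 : e8 ≤ e19 := L1 l19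
                        have k354 : e17 ≤ e19 := L2 l19
                        have k355 : e19 ≤ e6 := L3 l19 k78 k349
                        have k356 : e19 ≤ e7 := L3 l19 k73 k293
                        have k363 : e5 ≤ e19 := le_trans k289 k354
                        have k365 : ¬ e0 ≤ e19 := N2 k61 k356
                        have k366 : ¬ e6 ≤ e19 := N1 k365 k44
                        have k385 : e11 ≤ e19 := L3 l11 k353 k363
                        have k387 : e19 ≤ e11 := Classical.byContradiction fun hn => HL _ _ _ _ _ _ c4 c13 c16 c11 c19 c6 (LT k177 k195) (LT k261 k278) (LT k265 k282) (LT k385 hn) (LT k355 k366)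
                        have k389 : e17 ≤ e11 := le_trans k354 k387
                        obtain ⟨e20, l20⟩ := ZE h2 k294 k313 g13
                        have c20 : Core e0 e20 := CZ g13 k313 l20
                        have k393 : e13 ≤ e20 := L1 l20
                        have k394 : e17 ≤ e20 := L2 l20
                        have k397 : e20 ≤ e11 := L3 l20 k194 k389
                        have k398 : e20 ≤ e12 := L3 l20 k176 k294
                        have k404 : e5 ≤ e20 := le_trans k289 k394
                        have k418 : ¬ e8 ≤ e20 := N2 k160 k398
                        have k419 : ¬ e11 ≤ e20 := N1 k418 k133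
                        have k426 : ¬ e20 ≤ e16 := N1 k292 k394
                        have k428 : e16 ≤ e20 := L3 l16 k393 k404
                        exact HL _ _ _ _ _ _ c4 c13 c16 c20 c11 c6 (LT k177 k195) (LT k261 k278) (LT k428 k426) (LT k397 k419) (LT k135 k141)
                    · have k223 : ¬ e10 ≤ e14 := BN3 g10 k222 k207
                      have k224 : ¬ e3 ≤ e14 := N1 k223 k127
                      have k225 : ¬ e4 ≤ e14 := N1 k223 k126
                      have k227 : ¬ e2 ≤ e13 := NM hf q3 q14 k224
                      have k228 : ¬ e2 ≤ e12 := G4 g13 k6 k227
                      obtain ⟨e15, l15⟩ := (h1 e14).resolve_right k222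
                      have c15 : Core e0 e15 := CJ k222 l15
                      have k232 : e0 ≤ e15 := L1 l15
                      have k233 : e14 ≤ e15 := L2 l15
                      have k240 : e5 ≤ e15 := le_trans k202 k233
                      have k255 : e6 ≤ e15 := L3 l6 k232 k240
                      have k257 : e15 ≤ e6 := Classical.byContradiction fun hn => HL _ _ _ _ _ _ c4 c13 c8 c11 c6 c15 (LT k177 k195) (LT k193 k192) (LT k133 k149) (LT k135 k141) (LT k255 hn)
                      have k258 : e14 ≤ e6 := le_trans k233 k257
                      obtain ⟨e16, l16⟩ := ZE h2 k206 k222 g8
                      have c16 : Core e0 e16 := CZ g8 k222 l16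
                      have k262 : e8 ≤ e16 := L1 l16
                      have k263 : e14 ≤ e16 := L2 l16
                      have k264 : e16 ≤ e6 := L3 l16 k78 k258
                      have k265 : e16 ≤ e7 := L3 l16 k73 k206
                      have k271 : e5 ≤ e16 := le_trans k202 k263
                      have k272 : ¬ e0 ≤ e16 := N2 k61 k265
                      have k273 : ¬ e6 ≤ e16 := N1 k272 k44
                      have k289 : e11 ≤ e16 := L3 l11 k262 k271
                      have k290 : e16 ≤ e11 := Classical.byContradiction fun hn => HL _ _ _ _ _ _ c4 c13 c8 c11 c16 c6 (LT k177 k195) (LT k193 k192) (LT k133 k149) (LT k289 hn) (LT k264 k273)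
                      have k291 : e14 ≤ e11 := le_trans k263 k290
                      obtain ⟨e17, l17⟩ := ZE h2 k208 k222 g13
                      have c17 : Core e0 e17 := CZ g13 k222 l17
                      have k295 : e13 ≤ e17 := L1 l17
                      have k296 : e14 ≤ e17 := L2 l17
                      have k297 : e17 ≤ e6 := L3 l17 k181 k258
                      have k299 : e17 ≤ e11 := L3 l17 k194 k291
                      have k300 : e17 ≤ e12 := L3 l17 k176 k208
                      have k303 : e4 ≤ e17 := le_trans k177 k295
                      have k305 : e5 ≤ e17 := le_trans k202 k296
                      have k311 : ¬ e2 ≤ e17 := N2 k228 k300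
                      have k313 : ¬ e11 ≤ e17 := N1 k311 k137
                      have k322 : ¬ e17 ≤ e13 := N1 k190 k305
                      obtain ⟨e18, q18⟩ : ∃ y, f e17 = y := ⟨_, rfl⟩
                      have k328 : e5 ≤ e18 := MO hf q5 q18 k303
                      have k329 : e14 ≤ e18 := MO hf q14 q18 k295
                      have k330 : ¬ e17 ≤ e18 := FA hF q18
                      have k331 : ¬ e18 ≤ e17 := FB hG q18
                      have k332 : e18 ≤ e7 := MO hf q18 q7 k297
                      have k333 : e18 ≤ e12 := MO hf q18 q12 k299
                      have k334 : ¬ e13 ≤ e18 := L5 l17 k329 k330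
                      by_cases k353 : ∃ z, IsGLB ({e0, e18} : Set P) z
                      · obtain ⟨e19, g19⟩ := k353
                        have c19 : Core e0 e19 := CM g19
                        have k356 : e19 ≤ e0 := G1 g19
                        have k357 : e19 ≤ e18 := G2 g19
                        have k361 : e19 ≤ e6 := le_trans k356 k44
                        have k363 : e19 ≤ e7 := le_trans k357 k332
                        have k364 : e19 ≤ e12 := le_trans k357 k333
                        have k381 : ¬ e13 ≤ e19 := N2 k334 k357
                        have k382 : e19 ≤ e8 := G3 g8 k356 k363
                        have k383 : e19 ≤ e13 := G3 g13 k356 k364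
                        have k384 : e19 ≤ e11 := le_trans k382 k133
                        have k386 : e19 ≤ e17 := le_trans k383 k295
                        obtain ⟨e20, q20⟩ : ∃ y, f e19 = y := ⟨_, rfl⟩
                        have k389 : ¬ e20 ≤ e19 := FB hG q20
                        have k392 : e20 ≤ e9 := MO hf q20 q9 k382
                        have k393 : e20 ≤ e12 := MO hf q20 q12 k384
                        have k394 : e20 ≤ e14 := MO hf q20 q14 k383
                        have k395 : e20 ≤ e18 := MO hf q20 q18 k386
                        have k396 : ¬ e20 ≤ e0 := G5 g19 k395 k389
                        have k397 : e20 ≤ e6 := le_trans k394 k258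
                        have k398 : e20 ≤ e11 := le_trans k394 k291
                        have k401 : e20 ≤ e17 := le_trans k394 k296
                        have k423 : ¬ e20 ≤ e13 := N2 k396 k175
                        by_cases k424 : ∃ z, IsGLB ({e0, e20} : Set P) z
                        · obtain ⟨e21, g21⟩ := k424
                          have c21 : Core e0 e21 := CM g21
                          have k427 : e21 ≤ e0 := G1 g21
                          have k428 : e21 ≤ e20 := G2 g21
                          have k434 : e21 ≤ e9 := le_trans k428 k392
                          have k437 : e21 ≤ e14 := le_trans k428 k394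
                          have k453 : ¬ e4 ≤ e21 := N2 k225 k437
                          have k454 : ¬ e10 ≤ e21 := N1 k453 k110
                          have k464 : e21 ≤ e10 := G3 g10 k427 k434
                          exact HL _ _ _ _ _ _ c21 c10 c13 c8 c0 c6 (LT k464 k454) (LT k178 k196) (LT k193 k192) (LT k72 k79) (LT k44 k54)
                        · obtain ⟨e21, l21⟩ := ZE h2 k393 k424 g13
                          have c21 : Core e0 e21 := CZ g13 k424 l21
                          have k427 : e13 ≤ e21 := L1 l21
                          have k428 : e20 ≤ e21 := L2 l21
                          have k435 : e21 ≤ e17 := L3 l21 k295 k401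
                          have k462 : ¬ e21 ≤ e13 := N1 k423 k428
                          have k464 : e17 ≤ e21 := Classical.byContradiction fun hn => HL _ _ _ _ _ _ c4 c13 c21 c17 c11 c6 (LT k177 k195) (LT k427 k462) (LT k435 hn) (LT k299 k313) (LT k135 k141)
                          have k465 : e5 ≤ e21 := le_trans k305 k464
                          obtain ⟨e22, l22⟩ := ZE h2 k395 k424 g19
                          have c22 : Core e0 e22 := CZ g19 k424 l22
                          have k469 : e19 ≤ e22 := L1 l22
                          have k470 : e20 ≤ e22 := L2 l22
                          have k471 : e22 ≤ e6 := L3 l22 k361 k397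
                          have k473 : e22 ≤ e11 := L3 l22 k384 k398
                          have k477 : e22 ≤ e17 := L3 l22 k386 k401
                          have k503 : ¬ e22 ≤ e19 := N1 k389 k470
                          obtain ⟨e23, q23⟩ : ∃ y, f e22 = y := ⟨_, rfl⟩
                          have k506 : e20 ≤ e23 := MO hf q20 q23 k469
                          have k507 : ¬ e22 ≤ e23 := FA hF q23
                          have k508 : ¬ e23 ≤ e22 := FB hG q23
                          have k509 : e23 ≤ e7 := MO hf q23 q7 k471
                          have k510 : e23 ≤ e12 := MO hf q23 q12 k473
                          have k511 : e23 ≤ e18 := MO hf q23 q18 k477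
                          have k512 : ¬ e19 ≤ e23 := L5 l22 k506 k507
                          by_cases k535 : ∃ z, IsGLB ({e0, e23} : Set P) z
                          · obtain ⟨e24, g24⟩ := k535
                            have c24 : Core e0 e24 := CM g24
                            have k538 : e24 ≤ e0 := G1 g24
                            have k539 : e24 ≤ e23 := G2 g24
                            have k546 : e24 ≤ e18 := le_trans k539 k511
                            have k565 : ¬ e19 ≤ e24 := N2 k512 k539
                            have k571 : e24 ≤ e19 := G3 g19 k538 k546
                            exact HL _ _ _ _ _ _ c24 c19 c13 c8 c0 c6 (LT k571 k565) (LT k383 k381) (LT k193 k192) (LT k72 k79) (LT k44 k54)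
                          · obtain ⟨e24, l24⟩ := (h1 e23).resolve_right k535
                            have c24 : Core e0 e24 := CJ k535 l24
                            have k538 : e0 ≤ e24 := L1 l24
                            have k539 : e23 ≤ e24 := L2 l24
                            have k545 : e13 ≤ e24 := le_trans k175 k538
                            have k547 : e20 ≤ e24 := le_trans k506 k539
                            have k570 : e21 ≤ e24 := L3 l21 k545 k547
                            have k572 : e5 ≤ e24 := le_trans k465 k570
                            have k575 : e6 ≤ e24 := L3 l6 k538 k572
                            have k579 : e24 ≤ e6 := Classical.byContradiction fun hn => HL _ _ _ _ _ _ c4 c13 c17 c11 c6 c24 (LT k177 k195) (LT k295 k322) (LT k299 k313) (LT k135 k141) (LT k575 hn)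
                            have k581 : e23 ≤ e6 := le_trans k539 k579
                            obtain ⟨e25, l25⟩ := ZE h2 k509 k535 g8
                            have c25 : Core e0 e25 := CZ g8 k535 l25
                            have k586 : e8 ≤ e25 := L1 l25
                            have k587 : e23 ≤ e25 := L2 l25
                            have k588 : e25 ≤ e6 := L3 l25 k78 k581
                            have k589 : e25 ≤ e7 := L3 l25 k73 k509
                            have k592 : e2 ≤ e25 := le_trans k74 k586
                            have k595 : e13 ≤ e25 := le_trans k193 k586
                            have k597 : e20 ≤ e25 := le_trans k506 k587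
                            have k598 : ¬ e0 ≤ e25 := N2 k61 k589
                            have k599 : ¬ e6 ≤ e25 := N1 k598 k44
                            have k610 : ¬ e25 ≤ e17 := N1 k311 k592
                            have k623 : e21 ≤ e25 := L3 l21 k595 k597
                            have k625 : e5 ≤ e25 := le_trans k465 k623
                            have k627 : e17 ≤ e25 := le_trans k464 k623
                            have k628 : e11 ≤ e25 := L3 l11 k586 k625
                            have k630 : e25 ≤ e11 := Classical.byContradiction fun hn => HL _ _ _ _ _ _ c4 c13 c17 c11 c25 c6 (LT k177 k195) (LT k295 k322) (LT k299 k313) (LT k628 hn) (LT k588 k599)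
                            have k632 : e23 ≤ e11 := le_trans k587 k630
                            obtain ⟨e26, l26⟩ := ZE h2 k510 k535 g13
                            have c26 : Core e0 e26 := CZ g13 k535 l26
                            have k637 : e13 ≤ e26 := L1 l26
                            have k638 : e23 ≤ e26 := L2 l26
                            have k641 : e26 ≤ e11 := L3 l26 k194 k632
                            have k642 : e26 ≤ e12 := L3 l26 k176 k510
                            have k650 : e20 ≤ e26 := le_trans k506 k638
                            have k657 : ¬ e2 ≤ e26 := N2 k228 k642
                            have k659 : ¬ e11 ≤ e26 := N1 k657 k137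
                            have k679 : e21 ≤ e26 := L3 l21 k637 k650
                            have k683 : e17 ≤ e26 := le_trans k464 k679
                            have k684 : e26 ≤ e17 := Classical.byContradiction fun hn => HL _ _ _ _ _ _ c4 c13 c17 c26 c11 c6 (LT k177 k195) (LT k295 k322) (LT k683 hn) (LT k641 k659) (LT k135 k141)
                            have k686 : e23 ≤ e17 := le_trans k638 k684
                            obtain ⟨e27, l27⟩ := ZE h2 k511 k535 g19
                            have c27 : Core e0 e27 := CZ g19 k535 l27
                            have k691 : e19 ≤ e27 := L1 l27
                            have k692 : e23 ≤ e27 := L2 l27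
                            have k699 : e27 ≤ e17 := L3 l27 k386 k686
                            have k700 : e27 ≤ e18 := L3 l27 k357 k511
                            have k705 : e20 ≤ e27 := le_trans k506 k692
                            have k718 : ¬ e13 ≤ e27 := N2 k334 k700
                            have k719 : ¬ e17 ≤ e27 := N1 k718 k295
                            have k734 : ¬ e27 ≤ e22 := N1 k508 k692
                            have k736 : e22 ≤ e27 := L3 l22 k691 k705
                            exact HL _ _ _ _ _ _ c19 c22 c27 c17 c25 c6 (LT k469 k503) (LT k736 k734) (LT k699 k719) (LT k627 k610) (LT k588 k599)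
                      · obtain ⟨e19, l19⟩ := (h1 e18).resolve_right k353
                        have c19 : Core e0 e19 := CJ k353 l19
                        have k356 : e0 ≤ e19 := L1 l19
                        have k357 : e18 ≤ e19 := L2 l19
                        have k364 : e5 ≤ e19 := le_trans k328 k357
                        have k383 : e6 ≤ e19 := L3 l6 k356 k364
                        have k388 : e19 ≤ e6 := Classical.byContradiction fun hn => HL _ _ _ _ _ _ c4 c13 c17 c11 c6 c19 (LT k177 k195) (LT k295 k322) (LT k299 k313) (LT k135 k141) (LT k383 hn)
                        have k390 : e18 ≤ e6 := le_trans k357 k388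
                        obtain ⟨e20, l20⟩ := ZE h2 k332 k353 g8
                        have c20 : Core e0 e20 := CZ g8 k353 l20
                        have k395 : e8 ≤ e20 := L1 l20
                        have k396 : e18 ≤ e20 := L2 l20
                        have k397 : e20 ≤ e6 := L3 l20 k78 k390
                        have k398 : e20 ≤ e7 := L3 l20 k73 k332
                        have k405 : e5 ≤ e20 := le_trans k328 k396
                        have k407 : ¬ e0 ≤ e20 := N2 k61 k398
                        have k408 : ¬ e6 ≤ e20 := N1 k407 k44
                        have k427 : e11 ≤ e20 := L3 l11 k395 k405
                        have k430 : e20 ≤ e11 := Classical.byContradiction fun hn => HL _ _ _ _ _ _ c4 c13 c17 c11 c20 c6 (LT k177 k195) (LT k295 k322) (LT k299 k313) (LT k427 hn) (LT k397 k408)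
                        have k432 : e18 ≤ e11 := le_trans k396 k430
                        obtain ⟨e21, l21⟩ := ZE h2 k333 k353 g13
                        have c21 : Core e0 e21 := CZ g13 k353 l21
                        have k437 : e13 ≤ e21 := L1 l21
                        have k438 : e18 ≤ e21 := L2 l21
                        have k441 : e21 ≤ e11 := L3 l21 k194 k432
                        have k442 : e21 ≤ e12 := L3 l21 k176 k333
                        have k450 : e14 ≤ e21 := le_trans k329 k438
                        have k457 : ¬ e2 ≤ e21 := N2 k228 k442
                        have k459 : ¬ e11 ≤ e21 := N1 k457 k137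
                        have k474 : ¬ e21 ≤ e17 := N1 k331 k438
                        have k476 : e17 ≤ e21 := L3 l17 k437 k450
                        exact HL _ _ _ _ _ _ c4 c13 c17 c21 c11 c6 (LT k177 k195) (LT k295 k322) (LT k476 k474) (LT k441 k459) (LT k135 k141)
                · obtain ⟨e13, l13⟩ := (h1 e12).resolve_right k172
                  have c13 : Core e0 e13 := CJ k172 l13
                  have k175 : e0 ≤ e13 := L1 l13
                  have k176 : e12 ≤ e13 := L2 l13
                  have k183 : e5 ≤ e13 := le_trans k155 k176
                  have k197 : e6 ≤ e13 := L3 l6 k175 k183
                  have k199 : e13 ≤ e6 := Classical.byContradiction fun hn => HL _ _ _ _ _ _ c4 c2 c8 c11 c6 c13 (LT k29 k27) (LT k74 k87) (LT k133 k149) (LT k135 k141) (LT k197 hn)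
                  have k202 : e12 ≤ e6 := le_trans k176 k199
                  obtain ⟨e14, l14⟩ := ZE h2 k159 k172 g8
                  have c14 : Core e0 e14 := CZ g8 k172 l14
                  have k206 : e8 ≤ e14 := L1 l14
                  have k207 : e12 ≤ e14 := L2 l14
                  have k208 : e14 ≤ e6 := L3 l14 k78 k202
                  have k209 : e14 ≤ e7 := L3 l14 k73 k159
                  have k215 : e5 ≤ e14 := le_trans k155 k207
                  have k217 : ¬ e0 ≤ e14 := N2 k61 k209
                  have k218 : ¬ e6 ≤ e14 := N1 k217 k44
                  have k231 : ¬ e14 ≤ e11 := N1 k158 k207
                  have k233 : e11 ≤ e14 := L3 l11 k206 k215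
                  exact HL _ _ _ _ _ _ c4 c2 c8 c11 c14 c6 (LT k29 k27) (LT k74 k87) (LT k133 k149) (LT k233 k231) (LT k208 k218)
              · have k129 : e2 ≤ e10 := Classical.byContradiction fun hn => HL _ _ _ _ _ _ c4 c10 c2 c8 c0 c6 (LT k110 k126) (LT k124 hn) (LT k74 k87) (LT k72 k79) (LT k44 k54)
                have k130 : e2 ≤ e9 := le_trans k129 k109
                obtain ⟨e11, l11⟩ := ZE h2 k58 k41 g8
                have c11 : Core e0 e11 := CZ g8 k41 l11
                have k133 : e8 ≤ e11 := L1 l11
                have k134 : e5 ≤ e11 := L2 l11
                have k135 : e11 ≤ e6 := L3 l11 k78 k45
                have k136 : e11 ≤ e7 := L3 l11 k73 k58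
                have k137 : e2 ≤ e11 := le_trans k74 k133
                have k138 : e4 ≤ e11 := le_trans k75 k133
                have k140 : ¬ e0 ≤ e11 := N2 k61 k136
                have k141 : ¬ e6 ≤ e11 := N1 k140 k44
                have k147 : ¬ e11 ≤ e8 := N1 k86 k134
                obtain ⟨e12, q12⟩ : ∃ y, f e11 = y := ⟨_, rfl⟩
                have k154 : e3 ≤ e12 := MO hf q3 q12 k137
                have k155 : e5 ≤ e12 := MO hf q5 q12 k138
                have k156 : e9 ≤ e12 := MO hf q9 q12 k133
                have k157 : ¬ e11 ≤ e12 := FA hF q12
                have k158 : ¬ e12 ≤ e11 := FB hG q12
                have k159 : e12 ≤ e7 := MO hf q12 q7 k135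
                have k160 : ¬ e8 ≤ e12 := L5 l11 k155 k157
                have k161 : e4 ≤ e12 := le_trans k22 k154
                have k162 : e2 ≤ e12 := le_trans k130 k156
                have k163 : e10 ≤ e12 := le_trans k109 k156
                by_cases k174 : ∃ z, IsGLB ({e0, e12} : Set P) z
                · obtain ⟨e13, g13⟩ := k174
                  have c13 : Core e0 e13 := CM g13
                  have k177 : e13 ≤ e0 := G1 g13
                  have k178 : e13 ≤ e12 := G2 g13
                  have k179 : e2 ≤ e13 := G3 g13 k6 k162
                  have k180 : e4 ≤ e13 := G3 g13 k21 k161
                  have k181 : e10 ≤ e13 := G3 g13 k108 k163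
                  have k184 : e13 ≤ e6 := le_trans k177 k44
                  have k185 : e13 ≤ e7 := le_trans k178 k159
                  have k197 : ¬ e8 ≤ e13 := N2 k160 k178
                  have k198 : e13 ≤ e8 := G3 g8 k177 k185
                  have k199 : e13 ≤ e11 := le_trans k198 k133
                  have k200 : e13 ≤ e2 := Classical.byContradiction fun hn => HL _ _ _ _ _ _ c4 c2 c13 c8 c0 c6 (LT k29 k27) (LT k179 hn) (LT k198 k197) (LT k72 k79) (LT k44 k54)
                  have k201 : e13 ≤ e1 := le_trans k200 k7
                  have k203 : e13 ≤ e10 := le_trans k200 k129
                  obtain ⟨e14, l14⟩ := ZE h2 k155 k41 g13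
                  have c14 : Core e0 e14 := CZ g13 k41 l14
                  have k206 : e13 ≤ e14 := L1 l14
                  have k207 : e5 ≤ e14 := L2 l14
                  have k208 : e14 ≤ e1 := L3 l14 k201 k33
                  have k209 : e14 ≤ e6 := L3 l14 k184 k45
                  have k212 : e14 ≤ e11 := L3 l14 k199 k134
                  have k214 : e2 ≤ e14 := le_trans k179 k206
                  have k215 : e4 ≤ e14 := le_trans k180 k206
                  have k216 : e10 ≤ e14 := le_trans k181 k206
                  have k223 : ¬ e14 ≤ e2 := N1 k40 k207
                  have k225 : ¬ e14 ≤ e10 := N1 k122 k207
                  have k228 : ¬ e8 ≤ e14 := N2 k88 k208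
                  have k229 : ¬ e11 ≤ e14 := N1 k228 k133
                  obtain ⟨e15, q15⟩ : ∃ y, f e14 = y := ⟨_, rfl⟩
                  have k233 : e3 ≤ e15 := MO hf q3 q15 k214
                  have k234 : e5 ≤ e15 := MO hf q5 q15 k215
                  have k235 : ¬ e14 ≤ e15 := FA hF q15
                  have k236 : ¬ e15 ≤ e14 := FB hG q15
                  have k237 : e15 ≤ e7 := MO hf q15 q7 k209
                  have k238 : e15 ≤ e12 := MO hf q15 q12 k212
                  have k239 : ¬ e13 ≤ e15 := L5 l14 k234 k235
                  have k240 : e4 ≤ e15 := le_trans k22 k233
                  have k254 : ¬ e2 ≤ e15 := N1 k239 k200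
                  by_cases k258 : ∃ z, IsGLB ({e0, e15} : Set P) z
                  · obtain ⟨e16, g16⟩ := k258
                    have c16 : Core e0 e16 := CM g16
                    have k261 : e16 ≤ e0 := G1 g16
                    have k262 : e16 ≤ e15 := G2 g16
                    have k263 : e4 ≤ e16 := G3 g16 k21 k240
                    have k266 : e16 ≤ e6 := le_trans k261 k44
                    have k267 : e16 ≤ e7 := le_trans k262 k237
                    have k268 : e16 ≤ e12 := le_trans k262 k238
                    have k273 : ¬ e2 ≤ e16 := N2 k254 k262
                    have k276 : ¬ e10 ≤ e16 := N1 k273 k129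
                    have k284 : e16 ≤ e8 := G3 g8 k261 k267
                    have k285 : e16 ≤ e13 := G3 g13 k261 k268
                    have k286 : e16 ≤ e11 := le_trans k284 k133
                    have k288 : e16 ≤ e2 := le_trans k285 k200
                    have k290 : e16 ≤ e10 := le_trans k285 k203
                    have k291 : e16 ≤ e14 := le_trans k285 k206
                    have k292 : e16 ≤ e4 := Classical.byContradiction fun hn => HL _ _ _ _ _ _ c4 c16 c10 c8 c0 c6 (LT k263 hn) (LT k290 k276) (LT k125 k123) (LT k72 k79) (LT k44 k54)
                    obtain ⟨e17, l17⟩ := ZE h2 k234 k41 g16
                    have c17 : Core e0 e17 := CZ g16 k41 l17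
                    have k296 : e16 ≤ e17 := L1 l17
                    have k297 : e5 ≤ e17 := L2 l17
                    have k300 : e17 ≤ e6 := L3 l17 k266 k45
                    have k303 : e17 ≤ e11 := L3 l17 k286 k134
                    have k305 : e17 ≤ e14 := L3 l17 k291 k207
                    have k307 : e4 ≤ e17 := le_trans k263 k296
                    have k323 : ¬ e17 ≤ e4 := N1 k32 k297
                    obtain ⟨e18, q18⟩ : ∃ y, f e17 = y := ⟨_, rfl⟩
                    have k331 : e5 ≤ e18 := MO hf q5 q18 k307
                    have k332 : ¬ e17 ≤ e18 := FA hF q18
                    have k333 : ¬ e18 ≤ e17 := FB hG q18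
                    have k334 : e18 ≤ e7 := MO hf q18 q7 k300
                    have k335 : e18 ≤ e12 := MO hf q18 q12 k303
                    have k336 : e18 ≤ e15 := MO hf q18 q15 k305
                    have k337 : ¬ e16 ≤ e18 := L5 l17 k331 k332
                    have k358 : ¬ e4 ≤ e18 := N1 k337 k292
                    by_cases k361 : ∃ z, IsGLB ({e0, e18} : Set P) z
                    · obtain ⟨e19, g19⟩ := k361
                      have c19 : Core e0 e19 := CM g19
                      have k364 : e19 ≤ e0 := G1 g19
                      have k365 : e19 ≤ e18 := G2 g19
                      have k371 : e19 ≤ e15 := le_trans k365 k336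
                      have k386 : ¬ e4 ≤ e19 := N2 k358 k365
                      have k387 : ¬ e16 ≤ e19 := N1 k386 k263
                      have k393 : e19 ≤ e16 := G3 g16 k364 k371
                      exact HL _ _ _ _ _ _ c19 c16 c2 c8 c0 c6 (LT k393 k387) (LT k288 k273) (LT k74 k87) (LT k72 k79) (LT k44 k54)
                    · obtain ⟨e19, l19⟩ := (h1 e18).resolve_right k361
                      have c19 : Core e0 e19 := CJ k361 l19
                      have k364 : e0 ≤ e19 := L1 l19
                      have k365 : e18 ≤ e19 := L2 l19
                      have k373 : e5 ≤ e19 := le_trans k331 k365
                      have k392 : e6 ≤ e19 := L3 l6 k364 k373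
                      have k396 : e19 ≤ e6 := Classical.byContradiction fun hn => HL _ _ _ _ _ _ c4 c10 c14 c11 c6 c19 (LT k110 k126) (LT k216 k225) (LT k212 k229) (LT k135 k141) (LT k392 hn)
                      have k397 : e18 ≤ e6 := le_trans k365 k396
                      obtain ⟨e20, l20⟩ := ZE h2 k334 k361 g8
                      have c20 : Core e0 e20 := CZ g8 k361 l20
                      have k401 : e8 ≤ e20 := L1 l20
                      have k402 : e18 ≤ e20 := L2 l20
                      have k403 : e20 ≤ e6 := L3 l20 k78 k397
                      have k404 : e20 ≤ e7 := L3 l20 k73 k334
                      have k411 : e5 ≤ e20 := le_trans k331 k402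
                      have k412 : ¬ e0 ≤ e20 := N2 k61 k404
                      have k413 : ¬ e6 ≤ e20 := N1 k412 k44
                      have k433 : e11 ≤ e20 := L3 l11 k401 k411
                      have k436 : e20 ≤ e11 := Classical.byContradiction fun hn => HL _ _ _ _ _ _ c4 c10 c14 c11 c20 c6 (LT k110 k126) (LT k216 k225) (LT k212 k229) (LT k433 hn) (LT k403 k413)
                      have k437 : e18 ≤ e11 := le_trans k402 k436
                      obtain ⟨e21, l21⟩ := ZE h2 k335 k361 g13
                      have c21 : Core e0 e21 := CZ g13 k361 l21
                      have k441 : e13 ≤ e21 := L1 l21
                      have k442 : e18 ≤ e21 := L2 l21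
                      have k445 : e21 ≤ e11 := L3 l21 k199 k437
                      have k446 : e21 ≤ e12 := L3 l21 k178 k335
                      have k453 : e5 ≤ e21 := le_trans k331 k442
                      have k470 : ¬ e8 ≤ e21 := N2 k160 k446
                      have k471 : ¬ e11 ≤ e21 := N1 k470 k133
                      have k475 : e14 ≤ e21 := L3 l14 k441 k453
                      have k477 : e21 ≤ e14 := Classical.byContradiction fun hn => HL _ _ _ _ _ _ c4 c10 c14 c21 c11 c6 (LT k110 k126) (LT k216 k225) (LT k475 hn) (LT k445 k471) (LT k135 k141)
                      have k482 : e18 ≤ e14 := le_trans k442 k477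
                      obtain ⟨e22, l22⟩ := ZE h2 k336 k361 g16
                      have c22 : Core e0 e22 := CZ g16 k361 l22
                      have k486 : e16 ≤ e22 := L1 l22
                      have k487 : e18 ≤ e22 := L2 l22
                      have k494 : e22 ≤ e14 := L3 l22 k291 k482
                      have k495 : e22 ≤ e15 := L3 l22 k262 k336
                      have k500 : e5 ≤ e22 := le_trans k331 k487
                      have k506 : ¬ e2 ≤ e22 := N2 k254 k495
                      have k513 : ¬ e14 ≤ e22 := N1 k506 k214
                      have k526 : ¬ e22 ≤ e17 := N1 k333 k487
                      have k528 : e17 ≤ e22 := L3 l17 k486 k500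
                      exact HL _ _ _ _ _ _ c4 c17 c22 c14 c11 c6 (LT k307 k323) (LT k528 k526) (LT k494 k513) (LT k212 k229) (LT k135 k141)
                  · obtain ⟨e16, l16⟩ := (h1 e15).resolve_right k258
                    have c16 : Core e0 e16 := CJ k258 l16
                    have k261 : e0 ≤ e16 := L1 l16
                    have k262 : e15 ≤ e16 := L2 l16
                    have k270 : e5 ≤ e16 := le_trans k234 k262
                    have k286 : e6 ≤ e16 := L3 l6 k261 k270
                    have k289 : e16 ≤ e6 := Classical.byContradiction fun hn => HL _ _ _ _ _ _ c4 c10 c14 c11 c6 c16 (LT k110 k126) (LT k216 k225) (LT k212 k229) (LT k135 k141) (LT k286 hn)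
                    have k291 : e15 ≤ e6 := le_trans k262 k289
                    obtain ⟨e17, l17⟩ := ZE h2 k237 k258 g8
                    have c17 : Core e0 e17 := CZ g8 k258 l17
                    have k295 : e8 ≤ e17 := L1 l17
                    have k296 : e15 ≤ e17 := L2 l17
                    have k297 : e17 ≤ e6 := L3 l17 k78 k291
                    have k298 : e17 ≤ e7 := L3 l17 k73 k237
                    have k305 : e5 ≤ e17 := le_trans k234 k296
                    have k306 : ¬ e0 ≤ e17 := N2 k61 k298
                    have k307 : ¬ e6 ≤ e17 := N1 k306 k44
                    have k324 : e11 ≤ e17 := L3 l11 k295 k305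
                    have k326 : e17 ≤ e11 := Classical.byContradiction fun hn => HL _ _ _ _ _ _ c4 c10 c14 c11 c17 c6 (LT k110 k126) (LT k216 k225) (LT k212 k229) (LT k324 hn) (LT k297 k307)
                    have k328 : e15 ≤ e11 := le_trans k296 k326
                    obtain ⟨e18, l18⟩ := ZE h2 k238 k258 g13
                    have c18 : Core e0 e18 := CZ g13 k258 l18
                    have k332 : e13 ≤ e18 := L1 l18
                    have k333 : e15 ≤ e18 := L2 l18
                    have k336 : e18 ≤ e11 := L3 l18 k199 k328
                    have k337 : e18 ≤ e12 := L3 l18 k178 k238
                    have k344 : e5 ≤ e18 := le_trans k234 k333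
                    have k358 : ¬ e8 ≤ e18 := N2 k160 k337
                    have k359 : ¬ e11 ≤ e18 := N1 k358 k133
                    have k362 : ¬ e18 ≤ e14 := N1 k236 k333
                    have k364 : e14 ≤ e18 := L3 l14 k332 k344
                    exact HL _ _ _ _ _ _ c4 c2 c14 c18 c11 c6 (LT k29 k27) (LT k214 k223) (LT k364 k362) (LT k336 k359) (LT k135 k141)
                · obtain ⟨e13, l13⟩ := (h1 e12).resolve_right k174
                  have c13 : Core e0 e13 := CJ k174 l13
                  have k177 : e0 ≤ e13 := L1 l13
                  have k178 : e12 ≤ e13 := L2 l13
                  have k185 : e5 ≤ e13 := le_trans k155 k178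
                  have k199 : e6 ≤ e13 := L3 l6 k177 k185
                  have k201 : e13 ≤ e6 := Classical.byContradiction fun hn => HL _ _ _ _ _ _ c4 c10 c8 c11 c6 c13 (LT k110 k126) (LT k125 k123) (LT k133 k147) (LT k135 k141) (LT k199 hn)
                  have k204 : e12 ≤ e6 := le_trans k178 k201
                  obtain ⟨e14, l14⟩ := ZE h2 k159 k174 g8
                  have c14 : Core e0 e14 := CZ g8 k174 l14
                  have k208 : e8 ≤ e14 := L1 l14
                  have k209 : e12 ≤ e14 := L2 l14
                  have k210 : e14 ≤ e6 := L3 l14 k78 k204
                  have k211 : e14 ≤ e7 := L3 l14 k73 k159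
                  have k217 : e5 ≤ e14 := le_trans k155 k209
                  have k219 : ¬ e0 ≤ e14 := N2 k61 k211
                  have k220 : ¬ e6 ≤ e14 := N1 k219 k44
                  have k233 : ¬ e14 ≤ e11 := N1 k158 k209
                  have k235 : e11 ≤ e14 := L3 l11 k208 k217
                  exact HL _ _ _ _ _ _ c4 c2 c8 c11 c14 c6 (LT k29 k27) (LT k74 k87) (LT k133 k147) (LT k235 k233) (LT k210 k220)
            · have k106 : ¬ e2 ≤ e9 := BN3 g2 k105 k95
              obtain ⟨e10, l10⟩ := (h1 e9).resolve_right k105
              have c10 : Core e0 e10 := CJ k105 l10
              have k110 : e0 ≤ e10 := L1 l10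
              have k111 : e9 ≤ e10 := L2 l10
              have k116 : e3 ≤ e10 := le_trans k91 k111
              have k117 : e5 ≤ e10 := le_trans k92 k111
              have k127 : e6 ≤ e10 := L3 l6 k110 k117
              have k128 : e10 ≤ e6 := Classical.byContradiction fun hn => HL _ _ _ _ _ _ c4 c2 c8 c0 c6 c10 (LT k29 k27) (LT k74 k87) (LT k72 k79) (LT k44 k54) (LT k127 hn)
              have k129 : e3 ≤ e6 := le_trans k116 k128
              have k130 : e9 ≤ e6 := le_trans k111 k128
              obtain ⟨e11, l11⟩ := ZE h2 k96 k105 g8
              have c11 : Core e0 e11 := CZ g8 k105 l11
              have k134 : e8 ≤ e11 := L1 l11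
              have k135 : e9 ≤ e11 := L2 l11
              have k136 : e11 ≤ e6 := L3 l11 k78 k130
              have k137 : e11 ≤ e7 := L3 l11 k73 k96
              have k139 : e2 ≤ e11 := le_trans k74 k134
              have k140 : e4 ≤ e11 := le_trans k75 k134
              have k141 : e3 ≤ e11 := le_trans k91 k135
              have k142 : e5 ≤ e11 := le_trans k92 k135
              have k143 : ¬ e0 ≤ e11 := N2 k61 k137
              have k144 : ¬ e6 ≤ e11 := N1 k143 k44
              have k152 : ¬ e11 ≤ e8 := N1 k85 k141
              obtain ⟨e12, q12⟩ : ∃ y, f e11 = y := ⟨_, rfl⟩
              have k157 : e3 ≤ e12 := MO hf q3 q12 k139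
              have k158 : e5 ≤ e12 := MO hf q5 q12 k140
              have k159 : e9 ≤ e12 := MO hf q9 q12 k134
              have k160 : ¬ e11 ≤ e12 := FA hF q12
              have k161 : ¬ e12 ≤ e11 := FB hG q12
              have k162 : e12 ≤ e7 := MO hf q12 q7 k136
              have k163 : ¬ e8 ≤ e12 := L5 l11 k159 k160
              have k164 : e4 ≤ e12 := le_trans k22 k157
              by_cases k176 : ∃ z, IsGLB ({e0, e12} : Set P) z
              · obtain ⟨e13, g13⟩ := k176
                have c13 : Core e0 e13 := CM g13
                have k179 : e13 ≤ e0 := G1 g13
                have k180 : e13 ≤ e12 := G2 g13
                have k181 : e4 ≤ e13 := G3 g13 k21 k164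
                have k183 : ¬ e13 ≤ e9 := BN3 g13 k105 k159
                have k185 : e13 ≤ e6 := le_trans k179 k44
                have k187 : e13 ≤ e7 := le_trans k180 k162
                have k197 : ¬ e5 ≤ e13 := N2 k35 k179
                have k198 : ¬ e8 ≤ e13 := N2 k163 k180
                have k200 : ¬ e13 ≤ e4 := N2 k183 k98
                have k201 : e13 ≤ e8 := G3 g8 k179 k187
                have k202 : e13 ≤ e11 := le_trans k201 k134
                obtain ⟨e14, q14⟩ : ∃ y, f e13 = y := ⟨_, rfl⟩
                have k204 : e5 ≤ e14 := MO hf q5 q14 k181
                have k207 : e14 ≤ e1 := MO hf q14 q1 k179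
                have k208 : e14 ≤ e7 := MO hf q14 q7 k185
                have k209 : e14 ≤ e9 := MO hf q14 q9 k201
                have k210 : e14 ≤ e12 := MO hf q14 q12 k202
                have k212 : e14 ≤ e6 := le_trans k209 k130
                have k214 : e14 ≤ e11 := le_trans k209 k135
                by_cases k227 : ∃ z, IsGLB ({e0, e14} : Set P) z
                · obtain ⟨e15, g15⟩ := k227
                  have c15 : Core e0 e15 := CM g15
                  have k230 : e15 ≤ e0 := G1 g15
                  have k231 : e15 ≤ e14 := G2 g15
                  have k234 : e15 ≤ e6 := le_trans k230 k44
                  have k236 : e15 ≤ e1 := le_trans k231 k207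
                  have k238 : e15 ≤ e9 := le_trans k231 k209
                  have k239 : e15 ≤ e11 := le_trans k231 k214
                  have k240 : e15 ≤ e12 := le_trans k231 k210
                  have k246 : ¬ e2 ≤ e15 := N2 k106 k238
                  have k256 : e15 ≤ e2 := G3 g2 k230 k236
                  have k258 : e15 ≤ e13 := G3 g13 k230 k240
                  obtain ⟨e16, q16⟩ : ∃ y, f e15 = y := ⟨_, rfl⟩
                  have k260 : ¬ e15 ≤ e16 := FA hF q16
                  have k261 : ¬ e16 ≤ e15 := FB hG q16
                  have k263 : e16 ≤ e3 := MO hf q16 q3 k256
                  have k264 : e16 ≤ e7 := MO hf q16 q7 k234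
                  have k266 : e16 ≤ e12 := MO hf q16 q12 k239
                  have k267 : e16 ≤ e14 := MO hf q16 q14 k258
                  have k268 : ¬ e16 ≤ e0 := G5 g15 k267 k261
                  have k269 : e16 ≤ e6 := le_trans k263 k129
                  have k271 : e16 ≤ e11 := le_trans k263 k141
                  have k286 : ¬ e16 ≤ e8 := N2 k268 k72
                  have k287 : ¬ e16 ≤ e13 := N2 k268 k179
                  by_cases k288 : ∃ z, IsGLB ({e0, e16} : Set P) z
                  · obtain ⟨e17, g17⟩ := k288
                    have c17 : Core e0 e17 := CM g17
                    have k291 : e17 ≤ e0 := G1 g17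
                    have k292 : e17 ≤ e16 := G2 g17
                    have k302 : e17 ≤ e14 := le_trans k292 k267
                    have k317 : ¬ e15 ≤ e17 := N2 k260 k292
                    have k323 : e17 ≤ e15 := G3 g15 k291 k302
                    exact HL _ _ _ _ _ _ c17 c15 c2 c8 c0 c6 (LT k323 k317) (LT k256 k246) (LT k74 k87) (LT k72 k79) (LT k44 k54)
                  · obtain ⟨e17, l17⟩ := ZE h2 k264 k288 g8
                    have c17 : Core e0 e17 := CZ g8 k288 l17
                    have k293 : e8 ≤ e17 := L1 l17
                    have k294 : e16 ≤ e17 := L2 l17
                    have k298 : e17 ≤ e11 := L3 l17 k134 k271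
                    have k320 : ¬ e17 ≤ e8 := N1 k286 k294
                    have k322 : e11 ≤ e17 := Classical.byContradiction fun hn => HL _ _ _ _ _ _ c4 c13 c8 c17 c11 c6 (LT k181 k200) (LT k201 k198) (LT k293 k320) (LT k298 hn) (LT k136 k144)
                    have k324 : e5 ≤ e17 := le_trans k142 k322
                    obtain ⟨e18, l18⟩ := ZE h2 k266 k288 g13
                    have c18 : Core e0 e18 := CZ g13 k288 l18
                    have k329 : e13 ≤ e18 := L1 l18
                    have k330 : e16 ≤ e18 := L2 l18
                    have k331 : e18 ≤ e6 := L3 l18 k185 k269
                    have k334 : e18 ≤ e11 := L3 l18 k202 k271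
                    have k335 : e18 ≤ e12 := L3 l18 k180 k266
                    have k337 : e4 ≤ e18 := le_trans k181 k329
                    have k338 : e15 ≤ e18 := le_trans k258 k329
                    have k345 : ¬ e8 ≤ e18 := N2 k163 k335
                    have k346 : ¬ e11 ≤ e18 := N1 k345 k134
                    have k357 : ¬ e18 ≤ e13 := N1 k287 k330
                    obtain ⟨e19, q19⟩ : ∃ y, f e18 = y := ⟨_, rfl⟩
                    have k360 : e5 ≤ e19 := MO hf q5 q19 k337
                    have k361 : e14 ≤ e19 := MO hf q14 q19 k329
                    have k362 : e16 ≤ e19 := MO hf q16 q19 k338
                    have k363 : ¬ e18 ≤ e19 := FA hF q19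
                    have k364 : ¬ e19 ≤ e18 := FB hG q19
                    have k365 : e19 ≤ e7 := MO hf q19 q7 k331
                    have k366 : e19 ≤ e12 := MO hf q19 q12 k334
                    have k367 : ¬ e13 ≤ e19 := L5 l18 k362 k363
                    have k368 : e15 ≤ e19 := le_trans k231 k361
                    by_cases k385 : ∃ z, IsGLB ({e0, e19} : Set P) z
                    · obtain ⟨e20, g20⟩ := k385
                      have c20 : Core e0 e20 := CM g20
                      have k388 : e20 ≤ e0 := G1 g20
                      have k389 : e20 ≤ e19 := G2 g20
                      have k390 : e15 ≤ e20 := G3 g20 k230 k368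
                      have k394 : e20 ≤ e6 := le_trans k388 k44
                      have k396 : e20 ≤ e7 := le_trans k389 k365
                      have k397 : e20 ≤ e12 := le_trans k389 k366
                      have k412 : ¬ e13 ≤ e20 := N2 k367 k389
                      have k415 : e20 ≤ e8 := G3 g8 k388 k396
                      have k416 : e20 ≤ e13 := G3 g13 k388 k397
                      have k417 : e20 ≤ e11 := le_trans k415 k134
                      have k419 : e20 ≤ e18 := le_trans k416 k329
                      have k420 : e20 ≤ e15 := Classical.byContradiction fun hn => HL _ _ _ _ _ _ c15 c20 c13 c8 c0 c6 (LT k390 hn) (LT k416 k412) (LT k201 k198) (LT k72 k79) (LT k44 k54)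
                      have k422 : e20 ≤ e2 := le_trans k420 k256
                      have k423 : e20 ≤ e9 := le_trans k420 k238
                      have k425 : ¬ e2 ≤ e20 := N2 k106 k423
                      obtain ⟨e21, l21⟩ := ZE h2 k362 k288 g20
                      have c21 : Core e0 e21 := CZ g20 k288 l21
                      have k430 : e20 ≤ e21 := L1 l21
                      have k431 : e16 ≤ e21 := L2 l21
                      have k433 : e21 ≤ e6 := L3 l21 k394 k269
                      have k437 : e21 ≤ e11 := L3 l21 k417 k271
                      have k441 : e21 ≤ e18 := L3 l21 k419 k330
                      have k443 : e15 ≤ e21 := le_trans k390 k430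
                      have k463 : ¬ e21 ≤ e15 := N1 k261 k431
                      obtain ⟨e22, q22⟩ : ∃ y, f e21 = y := ⟨_, rfl⟩
                      have k468 : e16 ≤ e22 := MO hf q16 q22 k443
                      have k469 : ¬ e21 ≤ e22 := FA hF q22
                      have k470 : ¬ e22 ≤ e21 := FB hG q22
                      have k471 : e22 ≤ e7 := MO hf q22 q7 k433
                      have k472 : e22 ≤ e12 := MO hf q22 q12 k437
                      have k473 : e22 ≤ e19 := MO hf q22 q19 k441
                      have k474 : ¬ e20 ≤ e22 := L5 l21 k468 k469
                      have k496 : ¬ e15 ≤ e22 := N1 k474 k420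
                      by_cases k499 : ∃ z, IsGLB ({e0, e22} : Set P) z
                      · obtain ⟨e23, g23⟩ := k499
                        have c23 : Core e0 e23 := CM g23
                        have k502 : e23 ≤ e0 := G1 g23
                        have k503 : e23 ≤ e22 := G2 g23
                        have k510 : e23 ≤ e19 := le_trans k503 k473
                        have k528 : ¬ e15 ≤ e23 := N2 k496 k503
                        have k529 : ¬ e20 ≤ e23 := N1 k528 k390
                        have k535 : e23 ≤ e20 := G3 g20 k502 k510
                        exact HL _ _ _ _ _ _ c23 c20 c2 c8 c0 c6 (LT k535 k529) (LT k422 k425) (LT k74 k87) (LT k72 k79) (LT k44 k54)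
                      · obtain ⟨e23, l23⟩ := (h1 e22).resolve_right k499
                        have c23 : Core e0 e23 := CJ k499 l23
                        have k502 : e0 ≤ e23 := L1 l23
                        have k503 : e22 ≤ e23 := L2 l23
                        have k507 : e8 ≤ e23 := le_trans k72 k502
                        have k511 : e16 ≤ e23 := le_trans k468 k503
                        have k533 : e17 ≤ e23 := L3 l17 k507 k511
                        have k537 : e5 ≤ e23 := le_trans k324 k533
                        have k541 : e6 ≤ e23 := L3 l6 k502 k537
                        have k543 : e23 ≤ e6 := Classical.byContradiction fun hn => HL _ _ _ _ _ _ c4 c13 c18 c11 c6 c23 (LT k181 k200) (LT k329 k357) (LT k334 k346) (LT k136 k144) (LT k541 hn)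
                        have k545 : e22 ≤ e6 := le_trans k503 k543
                        obtain ⟨e24, l24⟩ := ZE h2 k471 k499 g8
                        have c24 : Core e0 e24 := CZ g8 k499 l24
                        have k550 : e8 ≤ e24 := L1 l24
                        have k551 : e22 ≤ e24 := L2 l24
                        have k552 : e24 ≤ e6 := L3 l24 k78 k545
                        have k553 : e24 ≤ e7 := L3 l24 k73 k471
                        have k558 : e13 ≤ e24 := le_trans k201 k550
                        have k561 : e16 ≤ e24 := le_trans k468 k551
                        have k562 : ¬ e0 ≤ e24 := N2 k61 k553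
                        have k563 : ¬ e6 ≤ e24 := N1 k562 k44
                        have k582 : ¬ e24 ≤ e18 := N1 k345 k550
                        have k586 : e17 ≤ e24 := L3 l17 k550 k561
                        have k587 : e18 ≤ e24 := L3 l18 k558 k561
                        have k592 : e11 ≤ e24 := le_trans k322 k586
                        have k594 : e24 ≤ e11 := Classical.byContradiction fun hn => HL _ _ _ _ _ _ c4 c13 c18 c11 c24 c6 (LT k181 k200) (LT k329 k357) (LT k334 k346) (LT k592 hn) (LT k552 k563)
                        have k596 : e22 ≤ e11 := le_trans k551 k594
                        obtain ⟨e25, l25⟩ := ZE h2 k472 k499 g13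
                        have c25 : Core e0 e25 := CZ g13 k499 l25
                        have k601 : e13 ≤ e25 := L1 l25
                        have k602 : e22 ≤ e25 := L2 l25
                        have k606 : e25 ≤ e11 := L3 l25 k202 k596
                        have k607 : e25 ≤ e12 := L3 l25 k180 k472
                        have k614 : e16 ≤ e25 := le_trans k468 k602
                        have k622 : ¬ e8 ≤ e25 := N2 k163 k607
                        have k623 : ¬ e11 ≤ e25 := N1 k622 k134
                        have k641 : e18 ≤ e25 := L3 l18 k601 k614
                        have k643 : e25 ≤ e18 := Classical.byContradiction fun hn => HL _ _ _ _ _ _ c4 c13 c18 c25 c11 c6 (LT k181 k200) (LT k329 k357) (LT k641 hn) (LT k606 k623) (LT k136 k144)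
                        have k644 : e22 ≤ e18 := le_trans k602 k643
                        obtain ⟨e26, l26⟩ := ZE h2 k473 k499 g20
                        have c26 : Core e0 e26 := CZ g20 k499 l26
                        have k648 : e20 ≤ e26 := L1 l26
                        have k649 : e22 ≤ e26 := L2 l26
                        have k656 : e26 ≤ e18 := L3 l26 k419 k644
                        have k657 : e26 ≤ e19 := L3 l26 k389 k473
                        have k662 : e16 ≤ e26 := le_trans k468 k649
                        have k675 : ¬ e13 ≤ e26 := N2 k367 k657
                        have k676 : ¬ e18 ≤ e26 := N1 k675 k329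
                        have k689 : ¬ e26 ≤ e21 := N1 k470 k649
                        have k691 : e21 ≤ e26 := L3 l21 k648 k662
                        exact HL _ _ _ _ _ _ c15 c21 c26 c18 c24 c6 (LT k443 k463) (LT k691 k689) (LT k656 k676) (LT k587 k582) (LT k552 k563)
                    · obtain ⟨e20, l20⟩ := (h1 e19).resolve_right k385
                      have c20 : Core e0 e20 := CJ k385 l20
                      have k388 : e0 ≤ e20 := L1 l20
                      have k389 : e19 ≤ e20 := L2 l20
                      have k396 : e5 ≤ e20 := le_trans k360 k389
                      have k417 : e6 ≤ e20 := L3 l6 k388 k396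
                      have k424 : e20 ≤ e6 := Classical.byContradiction fun hn => HL _ _ _ _ _ _ c4 c13 c18 c11 c6 c20 (LT k181 k200) (LT k329 k357) (LT k334 k346) (LT k136 k144) (LT k417 hn)
                      have k426 : e19 ≤ e6 := le_trans k389 k424
                      obtain ⟨e21, l21⟩ := ZE h2 k365 k385 g8
                      have c21 : Core e0 e21 := CZ g8 k385 l21
                      have k431 : e8 ≤ e21 := L1 l21
                      have k432 : e19 ≤ e21 := L2 l21
                      have k433 : e21 ≤ e6 := L3 l21 k78 k426
                      have k434 : e21 ≤ e7 := L3 l21 k73 k365
                      have k443 : e16 ≤ e21 := le_trans k362 k432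
                      have k444 : ¬ e0 ≤ e21 := N2 k61 k434
                      have k445 : ¬ e6 ≤ e21 := N1 k444 k44
                      have k465 : e17 ≤ e21 := L3 l17 k431 k443
                      have k469 : e11 ≤ e21 := le_trans k322 k465
                      have k470 : e21 ≤ e11 := Classical.byContradiction fun hn => HL _ _ _ _ _ _ c4 c13 c18 c11 c21 c6 (LT k181 k200) (LT k329 k357) (LT k334 k346) (LT k469 hn) (LT k433 k445)
                      have k472 : e19 ≤ e11 := le_trans k432 k470
                      obtain ⟨e22, l22⟩ := ZE h2 k366 k385 g13
                      have c22 : Core e0 e22 := CZ g13 k385 l22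
                      have k477 : e13 ≤ e22 := L1 l22
                      have k478 : e19 ≤ e22 := L2 l22
                      have k482 : e22 ≤ e11 := L3 l22 k202 k472
                      have k483 : e22 ≤ e12 := L3 l22 k180 k366
                      have k491 : e16 ≤ e22 := le_trans k362 k478
                      have k505 : ¬ e8 ≤ e22 := N2 k163 k483
                      have k506 : ¬ e11 ≤ e22 := N1 k505 k134
                      have k514 : ¬ e22 ≤ e18 := N1 k364 k478
                      have k516 : e18 ≤ e22 := L3 l18 k477 k491
                      exact HL _ _ _ _ _ _ c4 c13 c18 c22 c11 c6 (LT k181 k200) (LT k329 k357) (LT k516 k514) (LT k482 k506) (LT k136 k144)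
                · obtain ⟨e15, l15⟩ := ZE h2 k208 k227 g8
                  have c15 : Core e0 e15 := CZ g8 k227 l15
                  have k230 : e8 ≤ e15 := L1 l15
                  have k231 : e14 ≤ e15 := L2 l15
                  have k235 : e15 ≤ e11 := L3 l15 k134 k214
                  have k239 : e5 ≤ e15 := le_trans k204 k231
                  have k250 : ¬ e15 ≤ e8 := N1 k86 k239
                  have k257 : e11 ≤ e15 := Classical.byContradiction fun hn => HL _ _ _ _ _ _ c4 c13 c8 c15 c11 c6 (LT k181 k200) (LT k201 k198) (LT k230 k250) (LT k235 hn) (LT k136 k144)
                  obtain ⟨e16, l16⟩ := ZE h2 k210 k227 g13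
                  have c16 : Core e0 e16 := CZ g13 k227 l16
                  have k262 : e13 ≤ e16 := L1 l16
                  have k263 : e14 ≤ e16 := L2 l16
                  have k264 : e16 ≤ e6 := L3 l16 k185 k212
                  have k267 : e16 ≤ e11 := L3 l16 k202 k214
                  have k268 : e16 ≤ e12 := L3 l16 k180 k210
                  have k270 : e4 ≤ e16 := le_trans k181 k262
                  have k271 : e5 ≤ e16 := le_trans k204 k263
                  have k280 : ¬ e16 ≤ e13 := N1 k197 k271
                  have k282 : ¬ e8 ≤ e16 := N2 k163 k268
                  have k283 : ¬ e11 ≤ e16 := N1 k282 k134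
                  obtain ⟨e17, q17⟩ : ∃ y, f e16 = y := ⟨_, rfl⟩
                  have k291 : e5 ≤ e17 := MO hf q5 q17 k270
                  have k292 : e14 ≤ e17 := MO hf q14 q17 k262
                  have k293 : ¬ e16 ≤ e17 := FA hF q17
                  have k294 : ¬ e17 ≤ e16 := FB hG q17
                  have k295 : e17 ≤ e7 := MO hf q17 q7 k264
                  have k296 : e17 ≤ e12 := MO hf q17 q12 k267
                  have k297 : ¬ e13 ≤ e17 := L5 l16 k292 k293
                  by_cases k313 : ∃ z, IsGLB ({e0, e17} : Set P) z
                  · obtain ⟨e18, g18⟩ := k313
                    have c18 : Core e0 e18 := CM g18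
                    have k316 : e18 ≤ e0 := G1 g18
                    have k317 : e18 ≤ e17 := G2 g18
                    have k319 : ¬ e18 ≤ e14 := BN3 g18 k227 k292
                    have k321 : e18 ≤ e6 := le_trans k316 k44
                    have k323 : e18 ≤ e7 := le_trans k317 k295
                    have k324 : e18 ≤ e12 := le_trans k317 k296
                    have k340 : ¬ e13 ≤ e18 := N2 k297 k317
                    have k341 : e18 ≤ e8 := G3 g8 k316 k323
                    have k342 : e18 ≤ e13 := G3 g13 k316 k324
                    have k343 : e18 ≤ e11 := le_trans k341 k134
                    have k345 : e18 ≤ e16 := le_trans k342 k262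
                    obtain ⟨e19, q19⟩ : ∃ y, f e18 = y := ⟨_, rfl⟩
                    have k348 : ¬ e19 ≤ e18 := FB hG q19
                    have k351 : e19 ≤ e9 := MO hf q19 q9 k341
                    have k352 : e19 ≤ e12 := MO hf q19 q12 k343
                    have k353 : e19 ≤ e14 := MO hf q19 q14 k342
                    have k354 : e19 ≤ e17 := MO hf q19 q17 k345
                    have k355 : ¬ e19 ≤ e0 := G5 g18 k354 k348
                    have k356 : e19 ≤ e6 := le_trans k351 k130
                    have k358 : e19 ≤ e11 := le_trans k351 k135
                    have k360 : e19 ≤ e16 := le_trans k353 k263
                    have k377 : ¬ e19 ≤ e13 := N2 k355 k179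
                    by_cases k378 : ∃ z, IsGLB ({e0, e19} : Set P) z
                    · obtain ⟨e20, g20⟩ := k378
                      have c20 : Core e0 e20 := CM g20
                      have k381 : e20 ≤ e0 := G1 g20
                      have k382 : e20 ≤ e19 := G2 g20
                      have k391 : e20 ≤ e14 := le_trans k382 k353
                      have k394 : e20 ≤ e17 := le_trans k382 k354
                      have k412 : ¬ e18 ≤ e20 := N2 k319 k391
                      have k417 : e20 ≤ e18 := G3 g18 k381 k394
                      exact HL _ _ _ _ _ _ c20 c18 c13 c8 c0 c6 (LT k417 k412) (LT k342 k340) (LT k201 k198) (LT k72 k79) (LT k44 k54)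
                    · obtain ⟨e20, l20⟩ := ZE h2 k352 k378 g13
                      have c20 : Core e0 e20 := CZ g13 k378 l20
                      have k381 : e13 ≤ e20 := L1 l20
                      have k382 : e19 ≤ e20 := L2 l20
                      have k389 : e20 ≤ e16 := L3 l20 k262 k360
                      have k412 : ¬ e20 ≤ e13 := N1 k377 k382
                      have k414 : e16 ≤ e20 := Classical.byContradiction fun hn => HL _ _ _ _ _ _ c4 c13 c20 c16 c11 c6 (LT k181 k200) (LT k381 k412) (LT k389 hn) (LT k267 k283) (LT k136 k144)
                      have k415 : e5 ≤ e20 := le_trans k271 k414
                      have k416 : e14 ≤ e20 := le_trans k263 k414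
                      obtain ⟨e21, l21⟩ := ZE h2 k354 k378 g18
                      have c21 : Core e0 e21 := CZ g18 k378 l21
                      have k419 : e18 ≤ e21 := L1 l21
                      have k420 : e19 ≤ e21 := L2 l21
                      have k421 : e21 ≤ e6 := L3 l21 k321 k356
                      have k424 : e21 ≤ e11 := L3 l21 k343 k358
                      have k427 : e21 ≤ e16 := L3 l21 k345 k360
                      have k450 : ¬ e21 ≤ e18 := N1 k348 k420
                      obtain ⟨e22, q22⟩ : ∃ y, f e21 = y := ⟨_, rfl⟩
                      have k453 : e19 ≤ e22 := MO hf q19 q22 k419
                      have k454 : ¬ e21 ≤ e22 := FA hF q22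
                      have k455 : ¬ e22 ≤ e21 := FB hG q22
                      have k456 : e22 ≤ e7 := MO hf q22 q7 k421
                      have k457 : e22 ≤ e12 := MO hf q22 q12 k424
                      have k458 : e22 ≤ e17 := MO hf q22 q17 k427
                      have k459 : ¬ e18 ≤ e22 := L5 l21 k453 k454
                      by_cases k479 : ∃ z, IsGLB ({e0, e22} : Set P) z
                      · obtain ⟨e23, g23⟩ := k479
                        have c23 : Core e0 e23 := CM g23
                        have k482 : e23 ≤ e0 := G1 g23
                        have k483 : e23 ≤ e22 := G2 g23
                        have k490 : e23 ≤ e17 := le_trans k483 k458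
                        have k508 : ¬ e18 ≤ e23 := N2 k459 k483
                        have k514 : e23 ≤ e18 := G3 g18 k482 k490
                        exact HL _ _ _ _ _ _ c23 c18 c13 c8 c0 c6 (LT k514 k508) (LT k342 k340) (LT k201 k198) (LT k72 k79) (LT k44 k54)
                      · obtain ⟨e23, l23⟩ := (h1 e22).resolve_right k479
                        have c23 : Core e0 e23 := CJ k479 l23
                        have k482 : e0 ≤ e23 := L1 l23
                        have k483 : e22 ≤ e23 := L2 l23
                        have k488 : e13 ≤ e23 := le_trans k179 k482
                        have k490 : e19 ≤ e23 := le_trans k453 k483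
                        have k512 : e20 ≤ e23 := L3 l20 k488 k490
                        have k514 : e5 ≤ e23 := le_trans k415 k512
                        have k517 : e6 ≤ e23 := L3 l6 k482 k514
                        have k523 : e23 ≤ e6 := Classical.byContradiction fun hn => HL _ _ _ _ _ _ c4 c13 c16 c11 c6 c23 (LT k181 k200) (LT k262 k280) (LT k267 k283) (LT k136 k144) (LT k517 hn)
                        have k525 : e22 ≤ e6 := le_trans k483 k523
                        obtain ⟨e24, l24⟩ := ZE h2 k456 k479 g8
                        have c24 : Core e0 e24 := CZ g8 k479 l24
                        have k530 : e8 ≤ e24 := L1 l24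
                        have k531 : e22 ≤ e24 := L2 l24
                        have k532 : e24 ≤ e6 := L3 l24 k78 k525
                        have k533 : e24 ≤ e7 := L3 l24 k73 k456
                        have k538 : e13 ≤ e24 := le_trans k201 k530
                        have k540 : e19 ≤ e24 := le_trans k453 k531
                        have k541 : ¬ e0 ≤ e24 := N2 k61 k533
                        have k542 : ¬ e6 ≤ e24 := N1 k541 k44
                        have k556 : ¬ e24 ≤ e16 := N1 k282 k530
                        have k565 : e20 ≤ e24 := L3 l20 k538 k540
                        have k568 : e14 ≤ e24 := le_trans k416 k565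
                        have k569 : e16 ≤ e24 := le_trans k414 k565
                        have k570 : e15 ≤ e24 := L3 l15 k530 k568
                        have k573 : e11 ≤ e24 := le_trans k257 k570
                        have k574 : e24 ≤ e11 := Classical.byContradiction fun hn => HL _ _ _ _ _ _ c4 c13 c16 c11 c24 c6 (LT k181 k200) (LT k262 k280) (LT k267 k283) (LT k573 hn) (LT k532 k542)
                        have k576 : e22 ≤ e11 := le_trans k531 k574
                        obtain ⟨e25, l25⟩ := ZE h2 k457 k479 g13
                        have c25 : Core e0 e25 := CZ g13 k479 l25
                        have k581 : e13 ≤ e25 := L1 l25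
                        have k582 : e22 ≤ e25 := L2 l25
                        have k586 : e25 ≤ e11 := L3 l25 k202 k576
                        have k587 : e25 ≤ e12 := L3 l25 k180 k457
                        have k593 : e19 ≤ e25 := le_trans k453 k582
                        have k600 : ¬ e8 ≤ e25 := N2 k163 k587
                        have k601 : ¬ e11 ≤ e25 := N1 k600 k134
                        have k619 : e20 ≤ e25 := L3 l20 k581 k593
                        have k623 : e16 ≤ e25 := le_trans k414 k619
                        have k624 : e25 ≤ e16 := Classical.byContradiction fun hn => HL _ _ _ _ _ _ c4 c13 c16 c25 c11 c6 (LT k181 k200) (LT k262 k280) (LT k623 hn) (LT k586 k601) (LT k136 k144)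
                        have k626 : e22 ≤ e16 := le_trans k582 k624
                        obtain ⟨e26, l26⟩ := ZE h2 k458 k479 g18
                        have c26 : Core e0 e26 := CZ g18 k479 l26
                        have k631 : e18 ≤ e26 := L1 l26
                        have k632 : e22 ≤ e26 := L2 l26
                        have k639 : e26 ≤ e16 := L3 l26 k345 k626
                        have k640 : e26 ≤ e17 := L3 l26 k317 k458
                        have k645 : e19 ≤ e26 := le_trans k453 k632
                        have k656 : ¬ e13 ≤ e26 := N2 k297 k640
                        have k657 : ¬ e16 ≤ e26 := N1 k656 k262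
                        have k671 : ¬ e26 ≤ e21 := N1 k455 k632
                        have k673 : e21 ≤ e26 := L3 l21 k631 k645
                        exact HL _ _ _ _ _ _ c18 c21 c26 c16 c24 c6 (LT k419 k450) (LT k673 k671) (LT k639 k657) (LT k569 k556) (LT k532 k542)
                  · obtain ⟨e18, l18⟩ := (h1 e17).resolve_right k313
                    have c18 : Core e0 e18 := CJ k313 l18
                    have k316 : e0 ≤ e18 := L1 l18
                    have k317 : e17 ≤ e18 := L2 l18
                    have k323 : e5 ≤ e18 := le_trans k291 k317
                    have k341 : e6 ≤ e18 := L3 l6 k316 k323
                    have k348 : e18 ≤ e6 := Classical.byContradiction fun hn => HL _ _ _ _ _ _ c4 c13 c16 c11 c6 c18 (LT k181 k200) (LT k262 k280) (LT k267 k283) (LT k136 k144) (LT k341 hn)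
                    have k350 : e17 ≤ e6 := le_trans k317 k348
                    obtain ⟨e19, l19⟩ := ZE h2 k295 k313 g8
                    have c19 : Core e0 e19 := CZ g8 k313 l19
                    have k355 : e8 ≤ e19 := L1 l19
                    have k356 : e17 ≤ e19 := L2 l19
                    have k357 : e19 ≤ e6 := L3 l19 k78 k350
                    have k358 : e19 ≤ e7 := L3 l19 k73 k295
                    have k365 : e14 ≤ e19 := le_trans k292 k356
                    have k366 : ¬ e0 ≤ e19 := N2 k61 k358
                    have k367 : ¬ e6 ≤ e19 := N1 k366 k44
                    have k385 : e15 ≤ e19 := L3 l15 k355 k365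
                    have k389 : e11 ≤ e19 := le_trans k257 k385
                    have k390 : e19 ≤ e11 := Classical.byContradiction fun hn => HL _ _ _ _ _ _ c4 c13 c16 c11 c19 c6 (LT k181 k200) (LT k262 k280) (LT k267 k283) (LT k389 hn) (LT k357 k367)
                    have k392 : e17 ≤ e11 := le_trans k356 k390
                    obtain ⟨e20, l20⟩ := ZE h2 k296 k313 g13
                    have c20 : Core e0 e20 := CZ g13 k313 l20
                    have k397 : e13 ≤ e20 := L1 l20
                    have k398 : e17 ≤ e20 := L2 l20
                    have k402 : e20 ≤ e11 := L3 l20 k202 k392
                    have k403 : e20 ≤ e12 := L3 l20 k180 k296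
                    have k409 : e14 ≤ e20 := le_trans k292 k398
                    have k421 : ¬ e8 ≤ e20 := N2 k163 k403
                    have k422 : ¬ e11 ≤ e20 := N1 k421 k134
                    have k430 : ¬ e20 ≤ e16 := N1 k294 k398
                    have k432 : e16 ≤ e20 := L3 l16 k397 k409
                    exact HL _ _ _ _ _ _ c4 c13 c16 c20 c11 c6 (LT k181 k200) (LT k262 k280) (LT k432 k430) (LT k402 k422) (LT k136 k144)
              · obtain ⟨e13, l13⟩ := (h1 e12).resolve_right k176
                have c13 : Core e0 e13 := CJ k176 l13
                have k179 : e0 ≤ e13 := L1 l13
                have k180 : e12 ≤ e13 := L2 l13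
                have k186 : e5 ≤ e13 := le_trans k158 k180
                have k199 : e6 ≤ e13 := L3 l6 k179 k186
                have k202 : e13 ≤ e6 := Classical.byContradiction fun hn => HL _ _ _ _ _ _ c4 c2 c8 c11 c6 c13 (LT k29 k27) (LT k74 k87) (LT k134 k152) (LT k136 k144) (LT k199 hn)
                have k204 : e12 ≤ e6 := le_trans k180 k202
                obtain ⟨e14, l14⟩ := ZE h2 k162 k176 g8
                have c14 : Core e0 e14 := CZ g8 k176 l14
                have k209 : e8 ≤ e14 := L1 l14
                have k210 : e12 ≤ e14 := L2 l14
                have k211 : e14 ≤ e6 := L3 l14 k78 k204
                have k212 : e14 ≤ e7 := L3 l14 k73 k162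
                have k219 : e9 ≤ e14 := le_trans k159 k210
                have k220 : ¬ e0 ≤ e14 := N2 k61 k212
                have k221 : ¬ e6 ≤ e14 := N1 k220 k44
                have k234 : ¬ e14 ≤ e11 := N1 k161 k210
                have k236 : e11 ≤ e14 := L3 l11 k209 k219
                exact HL _ _ _ _ _ _ c4 c2 c8 c11 c14 c6 (LT k29 k27) (LT k74 k87) (LT k134 k152) (LT k236 k234) (LT k211 k221)
        · obtain ⟨e8, l8⟩ := (h1 e7).resolve_right k69
          have c8 : Core e0 e8 := CJ k69 l8
          have k72 : e0 ≤ e8 := L1 l8
          have k73 : e7 ≤ e8 := L2 l8
          have k79 : e5 ≤ e8 := le_trans k58 k73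
          have k87 : ¬ e8 ≤ e6 := N1 k60 k73
          have k88 : e6 ≤ e8 := L3 l6 k72 k79
          obtain ⟨e9, q9⟩ : ∃ y, f e8 = y := ⟨_, rfl⟩
          have k90 : e1 ≤ e9 := MO hf q1 q9 k72
          have k93 : e7 ≤ e9 := MO hf q7 q9 k88
          have k94 : ¬ e8 ≤ e9 := FA hF q9
          have k95 : ¬ e9 ≤ e8 := FB hG q9
          have k96 : ¬ e0 ≤ e9 := L5 l8 k93 k94
          have k97 : e2 ≤ e9 := le_trans k7 k90
          by_cases k108 : ∃ z, IsGLB ({e0, e9} : Set P) z
          · obtain ⟨e10, g10⟩ := k108
            have c10 : Core e0 e10 := CM g10
            have k111 : e10 ≤ e0 := G1 g10
            have k112 : e10 ≤ e9 := G2 g10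
            have k113 : e2 ≤ e10 := G3 g10 k6 k97
            have k116 : ¬ e10 ≤ e7 := BN3 g10 k69 k93
            have k120 : ¬ e0 ≤ e10 := N2 k96 k112
            have k131 : ¬ e10 ≤ e2 := N2 k116 k62
            exact HL _ _ _ _ _ _ c4 c2 c10 c0 c6 c8 (LT k29 k27) (LT k113 k131) (LT k111 k120) (LT k44 k54) (LT k88 k87)
          · obtain ⟨e10, l10⟩ := (h1 e9).resolve_right k108
            have c10 : Core e0 e10 := CJ k108 l10
            have k111 : e0 ≤ e10 := L1 l10
            have k112 : e9 ≤ e10 := L2 l10
            have k119 : e7 ≤ e10 := le_trans k93 k112
            have k129 : ¬ e10 ≤ e8 := N1 k95 k112
            have k131 : e8 ≤ e10 := L3 l8 k111 k119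
            exact HL _ _ _ _ _ _ c4 c2 c0 c6 c8 c10 (LT k29 k27) (LT k6 k9) (LT k44 k54) (LT k88 k87) (LT k131 k129)
    · obtain ⟨e4, l4⟩ := (h1 e3).resolve_right k18
      have c4 : Core e0 e4 := CJ k18 l4
      have k21 : e0 ≤ e4 := L1 l4
      have k22 : e3 ≤ e4 := L2 l4
      have k24 : e2 ≤ e4 := le_trans k6 k21
      have k28 : ¬ e4 ≤ e0 := N1 k15 k22
      obtain ⟨e5, q5⟩ : ∃ y, f e4 = y := ⟨_, rfl⟩
      have k30 : e1 ≤ e5 := MO hf q1 q5 k21
      have k31 : e3 ≤ e5 := MO hf q3 q5 k24
      have k32 : ¬ e4 ≤ e5 := FA hF q5
      have k33 : ¬ e5 ≤ e4 := FB hG q5
      have k34 : ¬ e0 ≤ e5 := L5 l4 k31 k32
      have k35 : e2 ≤ e5 := le_trans k7 k30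
      by_cases k39 : ∃ z, IsGLB ({e0, e5} : Set P) z
      · obtain ⟨e6, g6⟩ := k39
        have c6 : Core e0 e6 := CM g6
        have k42 : e6 ≤ e0 := G1 g6
        have k43 : e6 ≤ e5 := G2 g6
        have k44 : e2 ≤ e6 := G3 g6 k6 k35
        have k47 : e6 ≤ e4 := le_trans k42 k21
        have k48 : ¬ e0 ≤ e6 := N2 k34 k43
        have k52 : ¬ e3 ≤ e6 := N2 k15 k42
        by_cases k53 : e6 ≤ e2
        · have k54 : e6 ≤ e1 := le_trans k53 k7
          obtain ⟨e7, l7⟩ := ZE h2 k31 k18 g6
          have c7 : Core e0 e7 := CZ g6 k18 l7
          have k57 : e6 ≤ e7 := L1 l7
          have k58 : e3 ≤ e7 := L2 l7
          have k59 : e7 ≤ e1 := L3 l7 k54 k14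
          have k60 : e7 ≤ e4 := L3 l7 k47 k22
          have k61 : e7 ≤ e5 := L3 l7 k43 k31
          have k62 : e2 ≤ e7 := le_trans k44 k57
          have k63 : ¬ e0 ≤ e7 := N2 k1 k59
          have k64 : ¬ e4 ≤ e7 := N1 k63 k21
          have k67 : ¬ e7 ≤ e2 := N1 k13 k58
          have k68 : ¬ e7 ≤ e6 := N1 k52 k58
          obtain ⟨e8, q8⟩ : ∃ y, f e7 = y := ⟨_, rfl⟩
          have k72 : e3 ≤ e8 := MO hf q3 q8 k62
          have k73 : ¬ e7 ≤ e8 := FA hF q8
          have k74 : ¬ e8 ≤ e7 := FB hG q8
          have k75 : e8 ≤ e5 := MO hf q8 q5 k60
          have k76 : ¬ e6 ≤ e8 := L5 l7 k72 k73
          have k83 : ¬ e2 ≤ e8 := N1 k76 k53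
          by_cases k86 : ∃ z, IsGLB ({e0, e8} : Set P) z
          · obtain ⟨e9, g9⟩ := k86
            have c9 : Core e0 e9 := CM g9
            have k89 : e9 ≤ e0 := G1 g9
            have k90 : e9 ≤ e8 := G2 g9
            have k91 : ¬ e9 ≤ e3 := BN3 g9 k18 k72
            have k93 : e9 ≤ e4 := le_trans k89 k21
            have k94 : e9 ≤ e5 := le_trans k90 k75
            have k99 : ¬ e2 ≤ e9 := N2 k83 k90
            have k104 : e9 ≤ e6 := G3 g6 k89 k94
            have k105 : e9 ≤ e1 := le_trans k104 k54
            have k106 : e9 ≤ e2 := le_trans k104 k53
            have k107 : e9 ≤ e7 := le_trans k104 k57
            obtain ⟨e10, q10⟩ : ∃ y, f e9 = y := ⟨_, rfl⟩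
            have k110 : ¬ e10 ≤ e9 := FB hG q10
            have k111 : e10 ≤ e1 := MO hf q10 q1 k89
            have k112 : e10 ≤ e3 := MO hf q10 q3 k106
            have k113 : e10 ≤ e5 := MO hf q10 q5 k93
            have k114 : e10 ≤ e8 := MO hf q10 q8 k107
            have k115 : ¬ e10 ≤ e0 := G5 g9 k114 k110
            have k116 : e10 ≤ e4 := le_trans k112 k22
            have k117 : e10 ≤ e7 := le_trans k112 k58
            have k126 : ¬ e10 ≤ e2 := N2 k115 k6
            by_cases k128 : ∃ z, IsGLB ({e0, e10} : Set P) z
            · obtain ⟨e11, g11⟩ := k128
              have c11 : Core e0 e11 := CM g11
              have k131 : e11 ≤ e0 := G1 g11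
              have k132 : e11 ≤ e10 := G2 g11
              have k134 : e11 ≤ e4 := le_trans k131 k21
              have k135 : e11 ≤ e1 := le_trans k132 k111
              have k136 : e11 ≤ e3 := le_trans k132 k112
              have k138 : e11 ≤ e7 := le_trans k132 k117
              have k139 : e11 ≤ e8 := le_trans k132 k114
              have k149 : ¬ e9 ≤ e11 := N2 k91 k136
              have k151 : e11 ≤ e2 := G3 g2 k131 k135
              have k153 : e11 ≤ e9 := G3 g9 k131 k139
              obtain ⟨e12, q12⟩ : ∃ y, f e11 = y := ⟨_, rfl⟩
              have k155 : ¬ e11 ≤ e12 := FA hF q12
              have k156 : ¬ e12 ≤ e11 := FB hG q12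
              have k158 : e12 ≤ e3 := MO hf q12 q3 k151
              have k159 : e12 ≤ e5 := MO hf q12 q5 k134
              have k160 : e12 ≤ e8 := MO hf q12 q8 k138
              have k161 : e12 ≤ e10 := MO hf q12 q10 k153
              have k162 : ¬ e12 ≤ e0 := G5 g11 k161 k156
              have k163 : e12 ≤ e4 := le_trans k158 k22
              have k164 : e12 ≤ e7 := le_trans k158 k58
              have k176 : ¬ e12 ≤ e2 := N2 k162 k6
              have k178 : ¬ e12 ≤ e9 := N2 k162 k89
              by_cases k179 : ∃ z, IsGLB ({e0, e12} : Set P) z
              · obtain ⟨e13, g13⟩ := k179
                have c13 : Core e0 e13 := CM g13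
                have k182 : e13 ≤ e0 := G1 g13
                have k183 : e13 ≤ e12 := G2 g13
                have k191 : e13 ≤ e10 := le_trans k183 k161
                have k203 : ¬ e11 ≤ e13 := N2 k155 k183
                have k208 : e13 ≤ e11 := G3 g11 k182 k191
                exact HL _ _ _ _ _ _ c13 c11 c9 c2 c0 c4 (LT k208 k203) (LT k153 k149) (LT k106 k99) (LT k6 k9) (LT k21 k28)
              · obtain ⟨e13, l13⟩ := ZE h2 k159 k179 g6
                have c13 : Core e0 e13 := CZ g6 k179 l13
                have k182 : e6 ≤ e13 := L1 l13
                have k183 : e12 ≤ e13 := L2 l13
                have k187 : e13 ≤ e7 := L3 l13 k57 k164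
                have k188 : e2 ≤ e13 := le_trans k44 k182
                have k202 : ¬ e13 ≤ e2 := N1 k176 k183
                have k205 : e7 ≤ e13 := Classical.byContradiction fun hn => HL _ _ _ _ _ _ c11 c9 c2 c13 c7 c4 (LT k153 k149) (LT k106 k99) (LT k188 k202) (LT k187 hn) (LT k60 k64)
                have k206 : e3 ≤ e13 := le_trans k58 k205
                obtain ⟨e14, l14⟩ := ZE h2 k160 k179 g9
                have c14 : Core e0 e14 := CZ g9 k179 l14
                have k210 : e9 ≤ e14 := L1 l14
                have k211 : e12 ≤ e14 := L2 l14
                have k213 : e14 ≤ e4 := L3 l14 k93 k163
                have k215 : e14 ≤ e7 := L3 l14 k107 k164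
                have k216 : e14 ≤ e8 := L3 l14 k90 k160
                have k218 : e11 ≤ e14 := le_trans k153 k210
                have k223 : ¬ e2 ≤ e14 := N2 k83 k216
                have k225 : ¬ e7 ≤ e14 := N1 k223 k62
                have k235 : ¬ e14 ≤ e9 := N1 k178 k211
                obtain ⟨e15, q15⟩ : ∃ y, f e14 = y := ⟨_, rfl⟩
                have k238 : e10 ≤ e15 := MO hf q10 q15 k210
                have k239 : e12 ≤ e15 := MO hf q12 q15 k218
                have k240 : ¬ e14 ≤ e15 := FA hF q15
                have k241 : ¬ e15 ≤ e14 := FB hG q15
                have k242 : e15 ≤ e5 := MO hf q15 q5 k213
                have k243 : e15 ≤ e8 := MO hf q15 q8 k215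
                have k244 : ¬ e9 ≤ e15 := L5 l14 k239 k240
                have k245 : e11 ≤ e15 := le_trans k132 k238
                by_cases k261 : ∃ z, IsGLB ({e0, e15} : Set P) z
                · obtain ⟨e16, g16⟩ := k261
                  have c16 : Core e0 e16 := CM g16
                  have k264 : e16 ≤ e0 := G1 g16
                  have k265 : e16 ≤ e15 := G2 g16
                  have k266 : e11 ≤ e16 := G3 g16 k131 k245
                  have k269 : e16 ≤ e4 := le_trans k264 k21
                  have k270 : e16 ≤ e5 := le_trans k265 k242
                  have k271 : e16 ≤ e8 := le_trans k265 k243
                  have k282 : ¬ e9 ≤ e16 := N2 k244 k265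
                  have k287 : e16 ≤ e6 := G3 g6 k264 k270
                  have k288 : e16 ≤ e9 := G3 g9 k264 k271
                  have k291 : e16 ≤ e7 := le_trans k287 k57
                  have k293 : e16 ≤ e14 := le_trans k288 k210
                  have k294 : e16 ≤ e11 := Classical.byContradiction fun hn => HL _ _ _ _ _ _ c11 c16 c9 c2 c0 c4 (LT k266 hn) (LT k288 k282) (LT k106 k99) (LT k6 k9) (LT k21 k28)
                  have k295 : e16 ≤ e3 := le_trans k294 k136
                  obtain ⟨e17, l17⟩ := ZE h2 k239 k179 g16
                  have c17 : Core e0 e17 := CZ g16 k179 l17
                  have k299 : e16 ≤ e17 := L1 l17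
                  have k300 : e12 ≤ e17 := L2 l17
                  have k302 : e17 ≤ e3 := L3 l17 k295 k158
                  have k303 : e17 ≤ e4 := L3 l17 k269 k163
                  have k305 : e17 ≤ e7 := L3 l17 k291 k164
                  have k309 : e17 ≤ e14 := L3 l17 k293 k211
                  have k311 : e11 ≤ e17 := le_trans k266 k299
                  have k321 : ¬ e9 ≤ e17 := N2 k91 k302
                  have k322 : ¬ e14 ≤ e17 := N1 k321 k210
                  have k328 : ¬ e17 ≤ e11 := N1 k156 k300
                  obtain ⟨e18, q18⟩ : ∃ y, f e17 = y := ⟨_, rfl⟩
                  have k333 : e12 ≤ e18 := MO hf q12 q18 k311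
                  have k334 : ¬ e17 ≤ e18 := FA hF q18
                  have k335 : ¬ e18 ≤ e17 := FB hG q18
                  have k336 : e18 ≤ e5 := MO hf q18 q5 k303
                  have k337 : e18 ≤ e8 := MO hf q18 q8 k305
                  have k338 : e18 ≤ e15 := MO hf q18 q15 k309
                  have k339 : ¬ e16 ≤ e18 := L5 l17 k333 k334
                  have k359 : ¬ e11 ≤ e18 := N1 k339 k294
                  by_cases k362 : ∃ z, IsGLB ({e0, e18} : Set P) z
                  · obtain ⟨e19, g19⟩ := k362
                    have c19 : Core e0 e19 := CM g19
                    have k365 : e19 ≤ e0 := G1 g19
                    have k366 : e19 ≤ e18 := G2 g19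
                    have k372 : e19 ≤ e15 := le_trans k366 k338
                    have k387 : ¬ e11 ≤ e19 := N2 k359 k366
                    have k388 : ¬ e16 ≤ e19 := N1 k387 k266
                    have k394 : e19 ≤ e16 := G3 g16 k365 k372
                    exact HL _ _ _ _ _ _ c19 c16 c9 c2 c0 c4 (LT k394 k388) (LT k288 k282) (LT k106 k99) (LT k6 k9) (LT k21 k28)
                  · obtain ⟨e19, l19⟩ := (h1 e18).resolve_right k362
                    have c19 : Core e0 e19 := CJ k362 l19
                    have k365 : e0 ≤ e19 := L1 l19
                    have k366 : e18 ≤ e19 := L2 l19
                    have k369 : e6 ≤ e19 := le_trans k42 k365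
                    have k373 : e12 ≤ e19 := le_trans k333 k366
                    have k392 : e13 ≤ e19 := L3 l13 k369 k373
                    have k395 : e3 ≤ e19 := le_trans k206 k392
                    have k398 : e4 ≤ e19 := L3 l4 k365 k395
                    have k399 : e19 ≤ e4 := Classical.byContradiction fun hn => HL _ _ _ _ _ _ c11 c17 c14 c7 c4 c19 (LT k311 k328) (LT k309 k322) (LT k215 k225) (LT k60 k64) (LT k398 hn)
                    have k400 : e18 ≤ e4 := le_trans k366 k399
                    obtain ⟨e20, l20⟩ := ZE h2 k336 k362 g6
                    have c20 : Core e0 e20 := CZ g6 k362 l20
                    have k404 : e6 ≤ e20 := L1 l20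
                    have k405 : e18 ≤ e20 := L2 l20
                    have k406 : e20 ≤ e4 := L3 l20 k47 k400
                    have k407 : e20 ≤ e5 := L3 l20 k43 k336
                    have k409 : e2 ≤ e20 := le_trans k44 k404
                    have k410 : e9 ≤ e20 := le_trans k104 k404
                    have k413 : e12 ≤ e20 := le_trans k333 k405
                    have k414 : ¬ e0 ≤ e20 := N2 k34 k407
                    have k415 : ¬ e4 ≤ e20 := N1 k414 k21
                    have k423 : ¬ e20 ≤ e14 := N1 k223 k409
                    have k433 : e13 ≤ e20 := L3 l13 k404 k413
                    have k434 : e14 ≤ e20 := L3 l14 k410 k413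
                    have k437 : e7 ≤ e20 := le_trans k205 k433
                    have k439 : e20 ≤ e7 := Classical.byContradiction fun hn => HL _ _ _ _ _ _ c11 c17 c14 c7 c20 c4 (LT k311 k328) (LT k309 k322) (LT k215 k225) (LT k437 hn) (LT k406 k415)
                    have k443 : e18 ≤ e7 := le_trans k405 k439
                    obtain ⟨e21, l21⟩ := ZE h2 k337 k362 g9
                    have c21 : Core e0 e21 := CZ g9 k362 l21
                    have k448 : e9 ≤ e21 := L1 l21
                    have k449 : e18 ≤ e21 := L2 l21
                    have k453 : e21 ≤ e7 := L3 l21 k107 k443
                    have k454 : e21 ≤ e8 := L3 l21 k90 k337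
                    have k460 : e12 ≤ e21 := le_trans k333 k449
                    have k466 : ¬ e2 ≤ e21 := N2 k83 k454
                    have k468 : ¬ e7 ≤ e21 := N1 k466 k62
                    have k485 : e14 ≤ e21 := L3 l14 k448 k460
                    have k487 : e21 ≤ e14 := Classical.byContradiction fun hn => HL _ _ _ _ _ _ c11 c17 c14 c21 c7 c4 (LT k311 k328) (LT k309 k322) (LT k485 hn) (LT k453 k468) (LT k60 k64)
                    have k488 : e18 ≤ e14 := le_trans k449 k487
                    obtain ⟨e22, l22⟩ := ZE h2 k338 k362 g16
                    have c22 : Core e0 e22 := CZ g16 k362 l22
                    have k492 : e16 ≤ e22 := L1 l22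
                    have k493 : e18 ≤ e22 := L2 l22
                    have k500 : e22 ≤ e14 := L3 l22 k293 k488
                    have k501 : e22 ≤ e15 := L3 l22 k265 k338
                    have k506 : e12 ≤ e22 := le_trans k333 k493
                    have k518 : ¬ e9 ≤ e22 := N2 k244 k501
                    have k519 : ¬ e14 ≤ e22 := N1 k518 k210
                    have k530 : ¬ e22 ≤ e17 := N1 k335 k493
                    have k532 : e17 ≤ e22 := L3 l17 k492 k506
                    exact HL _ _ _ _ _ _ c11 c17 c22 c14 c20 c4 (LT k311 k328) (LT k532 k530) (LT k500 k519) (LT k434 k423) (LT k406 k415)
                · obtain ⟨e16, l16⟩ := (h1 e15).resolve_right k261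
                  have c16 : Core e0 e16 := CJ k261 l16
                  have k264 : e0 ≤ e16 := L1 l16
                  have k265 : e15 ≤ e16 := L2 l16
                  have k268 : e6 ≤ e16 := le_trans k42 k264
                  have k272 : e12 ≤ e16 := le_trans k239 k265
                  have k288 : e13 ≤ e16 := L3 l13 k268 k272
                  have k290 : e3 ≤ e16 := le_trans k206 k288
                  have k292 : e4 ≤ e16 := L3 l4 k264 k290
                  have k293 : e16 ≤ e4 := Classical.byContradiction fun hn => HL _ _ _ _ _ _ c11 c9 c14 c7 c4 c16 (LT k153 k149) (LT k210 k235) (LT k215 k225) (LT k60 k64) (LT k292 hn)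
                  have k294 : e15 ≤ e4 := le_trans k265 k293
                  obtain ⟨e17, l17⟩ := ZE h2 k242 k261 g6
                  have c17 : Core e0 e17 := CZ g6 k261 l17
                  have k298 : e6 ≤ e17 := L1 l17
                  have k299 : e15 ≤ e17 := L2 l17
                  have k300 : e17 ≤ e4 := L3 l17 k47 k294
                  have k301 : e17 ≤ e5 := L3 l17 k43 k242
                  have k307 : e12 ≤ e17 := le_trans k239 k299
                  have k308 : ¬ e0 ≤ e17 := N2 k34 k301
                  have k309 : ¬ e4 ≤ e17 := N1 k308 k21
                  have k324 : e13 ≤ e17 := L3 l13 k298 k307
                  have k327 : e7 ≤ e17 := le_trans k205 k324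
                  have k328 : e17 ≤ e7 := Classical.byContradiction fun hn => HL _ _ _ _ _ _ c11 c9 c14 c7 c17 c4 (LT k153 k149) (LT k210 k235) (LT k215 k225) (LT k327 hn) (LT k300 k309)
                  have k332 : e15 ≤ e7 := le_trans k299 k328
                  obtain ⟨e18, l18⟩ := ZE h2 k243 k261 g9
                  have c18 : Core e0 e18 := CZ g9 k261 l18
                  have k337 : e9 ≤ e18 := L1 l18
                  have k338 : e15 ≤ e18 := L2 l18
                  have k342 : e18 ≤ e7 := L3 l18 k107 k332
                  have k343 : e18 ≤ e8 := L3 l18 k90 k243
                  have k349 : e12 ≤ e18 := le_trans k239 k338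
                  have k355 : ¬ e2 ≤ e18 := N2 k83 k343
                  have k357 : ¬ e7 ≤ e18 := N1 k355 k62
                  have k370 : ¬ e18 ≤ e14 := N1 k241 k338
                  have k372 : e14 ≤ e18 := L3 l14 k337 k349
                  exact HL _ _ _ _ _ _ c11 c9 c14 c18 c7 c4 (LT k153 k149) (LT k210 k235) (LT k372 k370) (LT k342 k357) (LT k60 k64)
            · obtain ⟨e11, l11⟩ := ZE h2 k113 k128 g6
              have c11 : Core e0 e11 := CZ g6 k128 l11
              have k131 : e6 ≤ e11 := L1 l11
              have k132 : e10 ≤ e11 := L2 l11
              have k133 : e11 ≤ e1 := L3 l11 k54 k111
              have k134 : e11 ≤ e4 := L3 l11 k47 k116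
              have k136 : e11 ≤ e7 := L3 l11 k57 k117
              have k137 : e2 ≤ e11 := le_trans k44 k131
              have k138 : e9 ≤ e11 := le_trans k104 k131
              have k139 : ¬ e0 ≤ e11 := N2 k1 k133
              have k148 : ¬ e11 ≤ e2 := N1 k126 k132
              by_cases k151 : e7 ≤ e11
              · have k152 : e3 ≤ e11 := le_trans k58 k151
                obtain ⟨e12, l12⟩ := ZE h2 k114 k128 g9
                have c12 : Core e0 e12 := CZ g9 k128 l12
                have k155 : e9 ≤ e12 := L1 l12
                have k156 : e10 ≤ e12 := L2 l12
                have k158 : e12 ≤ e4 := L3 l12 k93 k116
                have k160 : e12 ≤ e7 := L3 l12 k107 k117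
                have k161 : e12 ≤ e8 := L3 l12 k90 k114
                have k167 : ¬ e2 ≤ e12 := N2 k83 k161
                have k169 : ¬ e7 ≤ e12 := N1 k167 k62
                have k177 : ¬ e12 ≤ e9 := N1 k110 k156
                obtain ⟨e13, q13⟩ : ∃ y, f e12 = y := ⟨_, rfl⟩
                have k180 : e10 ≤ e13 := MO hf q10 q13 k155
                have k181 : ¬ e12 ≤ e13 := FA hF q13
                have k182 : ¬ e13 ≤ e12 := FB hG q13
                have k183 : e13 ≤ e5 := MO hf q13 q5 k158
                have k184 : e13 ≤ e8 := MO hf q13 q8 k160
                have k185 : ¬ e9 ≤ e13 := L5 l12 k180 k181
                by_cases k200 : ∃ z, IsGLB ({e0, e13} : Set P) z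
                · obtain ⟨e14, g14⟩ := k200
                  have c14 : Core e0 e14 := CM g14
                  have k203 : e14 ≤ e0 := G1 g14
                  have k204 : e14 ≤ e13 := G2 g14
                  have k205 : ¬ e14 ≤ e10 := BN3 g14 k128 k180
                  have k207 : e14 ≤ e4 := le_trans k203 k21
                  have k208 : e14 ≤ e5 := le_trans k204 k183
                  have k209 : e14 ≤ e8 := le_trans k204 k184
                  have k220 : ¬ e9 ≤ e14 := N2 k185 k204
                  have k224 : e14 ≤ e6 := G3 g6 k203 k208
                  have k225 : e14 ≤ e9 := G3 g9 k203 k209
                  have k227 : e14 ≤ e2 := le_trans k224 k53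
                  have k228 : e14 ≤ e7 := le_trans k224 k57
                  have k230 : e14 ≤ e12 := le_trans k225 k155
                  obtain ⟨e15, q15⟩ : ∃ y, f e14 = y := ⟨_, rfl⟩
                  have k233 : ¬ e15 ≤ e14 := FB hG q15
                  have k235 : e15 ≤ e3 := MO hf q15 q3 k227
                  have k237 : e15 ≤ e8 := MO hf q15 q8 k228
                  have k238 : e15 ≤ e10 := MO hf q15 q10 k225
                  have k239 : e15 ≤ e13 := MO hf q15 q13 k230
                  have k240 : ¬ e15 ≤ e0 := G5 g14 k239 k233
                  have k241 : e15 ≤ e4 := le_trans k235 k22
                  have k242 : e15 ≤ e7 := le_trans k235 k58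
                  have k244 : e15 ≤ e12 := le_trans k238 k156
                  have k259 : ¬ e15 ≤ e9 := N2 k240 k89
                  by_cases k260 : ∃ z, IsGLB ({e0, e15} : Set P) z
                  · obtain ⟨e16, g16⟩ := k260
                    have c16 : Core e0 e16 := CM g16
                    have k263 : e16 ≤ e0 := G1 g16
                    have k264 : e16 ≤ e15 := G2 g16
                    have k272 : e16 ≤ e10 := le_trans k264 k238
                    have k275 : e16 ≤ e13 := le_trans k264 k239
                    have k290 : ¬ e14 ≤ e16 := N2 k205 k272
                    have k295 : e16 ≤ e14 := G3 g14 k263 k275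
                    exact HL _ _ _ _ _ _ c16 c14 c9 c2 c0 c4 (LT k295 k290) (LT k225 k220) (LT k106 k99) (LT k6 k9) (LT k21 k28)
                  · obtain ⟨e16, l16⟩ := ZE h2 k237 k260 g9
                    have c16 : Core e0 e16 := CZ g9 k260 l16
                    have k263 : e9 ≤ e16 := L1 l16
                    have k264 : e15 ≤ e16 := L2 l16
                    have k271 : e16 ≤ e12 := L3 l16 k155 k244
                    have k291 : ¬ e16 ≤ e9 := N1 k259 k264
                    have k293 : e12 ≤ e16 := Classical.byContradiction fun hn => HL _ _ _ _ _ _ c14 c9 c16 c12 c7 c4 (LT k225 k220) (LT k263 k291) (LT k271 hn) (LT k160 k169) (LT k60 k64)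
                    have k294 : e10 ≤ e16 := le_trans k156 k293
                    obtain ⟨e17, l17⟩ := ZE h2 k239 k260 g14
                    have c17 : Core e0 e17 := CZ g14 k260 l17
                    have k297 : e14 ≤ e17 := L1 l17
                    have k298 : e15 ≤ e17 := L2 l17
                    have k300 : e17 ≤ e4 := L3 l17 k207 k241
                    have k302 : e17 ≤ e7 := L3 l17 k228 k242
                    have k305 : e17 ≤ e12 := L3 l17 k230 k244
                    have k306 : e17 ≤ e13 := L3 l17 k204 k239
                    have k317 : ¬ e9 ≤ e17 := N2 k185 k306
                    have k318 : ¬ e12 ≤ e17 := N1 k317 k155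
                    have k327 : ¬ e17 ≤ e14 := N1 k233 k298
                    obtain ⟨e18, q18⟩ : ∃ y, f e17 = y := ⟨_, rfl⟩
                    have k330 : e15 ≤ e18 := MO hf q15 q18 k297
                    have k331 : ¬ e17 ≤ e18 := FA hF q18
                    have k332 : ¬ e18 ≤ e17 := FB hG q18
                    have k333 : e18 ≤ e5 := MO hf q18 q5 k300
                    have k334 : e18 ≤ e8 := MO hf q18 q8 k302
                    have k335 : e18 ≤ e13 := MO hf q18 q13 k305
                    have k336 : ¬ e14 ≤ e18 := L5 l17 k330 k331
                    by_cases k356 : ∃ z, IsGLB ({e0, e18} : Set P) z
                    · obtain ⟨e19, g19⟩ := k356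
                      have c19 : Core e0 e19 := CM g19
                      have k359 : e19 ≤ e0 := G1 g19
                      have k360 : e19 ≤ e18 := G2 g19
                      have k366 : e19 ≤ e13 := le_trans k360 k335
                      have k382 : ¬ e14 ≤ e19 := N2 k336 k360
                      have k388 : e19 ≤ e14 := G3 g14 k359 k366
                      exact HL _ _ _ _ _ _ c19 c14 c9 c2 c0 c4 (LT k388 k382) (LT k225 k220) (LT k106 k99) (LT k6 k9) (LT k21 k28)
                    · obtain ⟨e19, l19⟩ := (h1 e18).resolve_right k356
                      have c19 : Core e0 e19 := CJ k356 l19
                      have k359 : e0 ≤ e19 := L1 l19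
                      have k360 : e18 ≤ e19 := L2 l19
                      have k363 : e6 ≤ e19 := le_trans k42 k359
                      have k364 : e9 ≤ e19 := le_trans k89 k359
                      have k366 : e15 ≤ e19 := le_trans k330 k360
                      have k385 : e16 ≤ e19 := L3 l16 k364 k366
                      have k387 : e10 ≤ e19 := le_trans k294 k385
                      have k389 : e11 ≤ e19 := L3 l11 k363 k387
                      have k390 : e3 ≤ e19 := le_trans k152 k389
                      have k392 : e4 ≤ e19 := L3 l4 k359 k390
                      have k393 : e19 ≤ e4 := Classical.byContradiction fun hn => HL _ _ _ _ _ _ c14 c17 c12 c7 c4 c19 (LT k297 k327) (LT k305 k318) (LT k160 k169) (LT k60 k64) (LT k392 hn)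
                      have k394 : e18 ≤ e4 := le_trans k360 k393
                      obtain ⟨e20, l20⟩ := ZE h2 k333 k356 g6
                      have c20 : Core e0 e20 := CZ g6 k356 l20
                      have k398 : e6 ≤ e20 := L1 l20
                      have k399 : e18 ≤ e20 := L2 l20
                      have k400 : e20 ≤ e4 := L3 l20 k47 k394
                      have k401 : e20 ≤ e5 := L3 l20 k43 k333
                      have k403 : e2 ≤ e20 := le_trans k44 k398
                      have k404 : e9 ≤ e20 := le_trans k104 k398
                      have k406 : e15 ≤ e20 := le_trans k330 k399
                      have k407 : ¬ e0 ≤ e20 := N2 k34 k401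
                      have k408 : ¬ e4 ≤ e20 := N1 k407 k21
                      have k414 : ¬ e20 ≤ e12 := N1 k167 k403
                      have k426 : e16 ≤ e20 := L3 l16 k404 k406
                      have k428 : e10 ≤ e20 := le_trans k294 k426
                      have k429 : e12 ≤ e20 := le_trans k293 k426
                      have k430 : e11 ≤ e20 := L3 l11 k398 k428
                      have k432 : e7 ≤ e20 := le_trans k151 k430
                      have k433 : e20 ≤ e7 := Classical.byContradiction fun hn => HL _ _ _ _ _ _ c14 c17 c12 c7 c20 c4 (LT k297 k327) (LT k305 k318) (LT k160 k169) (LT k432 hn) (LT k400 k408)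
                      have k437 : e18 ≤ e7 := le_trans k399 k433
                      obtain ⟨e21, l21⟩ := ZE h2 k334 k356 g9
                      have c21 : Core e0 e21 := CZ g9 k356 l21
                      have k442 : e9 ≤ e21 := L1 l21
                      have k443 : e18 ≤ e21 := L2 l21
                      have k447 : e21 ≤ e7 := L3 l21 k107 k437
                      have k448 : e21 ≤ e8 := L3 l21 k90 k334
                      have k453 : e15 ≤ e21 := le_trans k330 k443
                      have k459 : ¬ e2 ≤ e21 := N2 k83 k448
                      have k461 : ¬ e7 ≤ e21 := N1 k459 k62
                      have k477 : e16 ≤ e21 := L3 l16 k442 k453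
                      have k480 : e12 ≤ e21 := le_trans k293 k477
                      have k481 : e21 ≤ e12 := Classical.byContradiction fun hn => HL _ _ _ _ _ _ c14 c17 c12 c21 c7 c4 (LT k297 k327) (LT k305 k318) (LT k480 hn) (LT k447 k461) (LT k60 k64)
                      have k483 : e18 ≤ e12 := le_trans k443 k481
                      obtain ⟨e22, l22⟩ := ZE h2 k335 k356 g14
                      have c22 : Core e0 e22 := CZ g14 k356 l22
                      have k488 : e14 ≤ e22 := L1 l22
                      have k489 : e18 ≤ e22 := L2 l22
                      have k496 : e22 ≤ e12 := L3 l22 k230 k483
                      have k497 : e22 ≤ e13 := L3 l22 k204 k335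
                      have k502 : e15 ≤ e22 := le_trans k330 k489
                      have k514 : ¬ e9 ≤ e22 := N2 k185 k497
                      have k515 : ¬ e12 ≤ e22 := N1 k514 k155
                      have k527 : ¬ e22 ≤ e17 := N1 k332 k489
                      have k529 : e17 ≤ e22 := L3 l17 k488 k502
                      exact HL _ _ _ _ _ _ c14 c17 c22 c12 c20 c4 (LT k297 k327) (LT k529 k527) (LT k496 k515) (LT k429 k414) (LT k400 k408)
                · obtain ⟨e14, l14⟩ := (h1 e13).resolve_right k200
                  have c14 : Core e0 e14 := CJ k200 l14
                  have k203 : e0 ≤ e14 := L1 l14
                  have k204 : e13 ≤ e14 := L2 l14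
                  have k207 : e6 ≤ e14 := le_trans k42 k203
                  have k208 : e9 ≤ e14 := le_trans k89 k203
                  have k209 : e10 ≤ e14 := le_trans k180 k204
                  have k223 : e11 ≤ e14 := L3 l11 k207 k209
                  have k224 : e12 ≤ e14 := L3 l12 k208 k209
                  have k225 : e3 ≤ e14 := le_trans k152 k223
                  have k227 : e4 ≤ e14 := L3 l4 k203 k225
                  by_cases k228 : e14 ≤ e4
                  · have k229 : e13 ≤ e4 := le_trans k204 k228
                    obtain ⟨e15, l15⟩ := ZE h2 k183 k200 g6
                    have c15 : Core e0 e15 := CZ g6 k200 l15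
                    have k233 : e6 ≤ e15 := L1 l15
                    have k234 : e13 ≤ e15 := L2 l15
                    have k235 : e15 ≤ e4 := L3 l15 k47 k229
                    have k236 : e15 ≤ e5 := L3 l15 k43 k183
                    have k238 : e2 ≤ e15 := le_trans k44 k233
                    have k239 : e9 ≤ e15 := le_trans k104 k233
                    have k240 : e10 ≤ e15 := le_trans k180 k234
                    have k241 : ¬ e0 ≤ e15 := N2 k34 k236
                    have k242 : ¬ e4 ≤ e15 := N1 k241 k21
                    have k255 : e11 ≤ e15 := L3 l11 k233 k240
                    have k256 : e12 ≤ e15 := L3 l12 k239 k240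
                    have k258 : e7 ≤ e15 := le_trans k151 k255
                    by_cases k259 : e15 ≤ e7
                    · have k263 : e13 ≤ e7 := le_trans k234 k259
                      obtain ⟨e16, l16⟩ := ZE h2 k184 k200 g9
                      have c16 : Core e0 e16 := CZ g9 k200 l16
                      have k268 : e9 ≤ e16 := L1 l16
                      have k269 : e13 ≤ e16 := L2 l16
                      have k271 : e16 ≤ e4 := L3 l16 k93 k229
                      have k273 : e16 ≤ e7 := L3 l16 k107 k263
                      have k274 : e16 ≤ e8 := L3 l16 k90 k184
                      have k278 : e10 ≤ e16 := le_trans k180 k269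
                      have k284 : ¬ e2 ≤ e16 := N2 k83 k274
                      have k286 : ¬ e7 ≤ e16 := N1 k284 k62
                      have k297 : ¬ e16 ≤ e12 := N1 k182 k269
                      have k299 : e12 ≤ e16 := L3 l12 k268 k278
                      obtain ⟨e17, q17⟩ : ∃ y, f e16 = y := ⟨_, rfl⟩
                      have k301 : e10 ≤ e17 := MO hf q10 q17 k268
                      have k302 : e13 ≤ e17 := MO hf q13 q17 k299
                      have k303 : ¬ e16 ≤ e17 := FA hF q17
                      have k304 : ¬ e17 ≤ e16 := FB hG q17
                      have k305 : e17 ≤ e5 := MO hf q17 q5 k271
                      have k306 : e17 ≤ e8 := MO hf q17 q8 k273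
                      have k307 : ¬ e9 ≤ e17 := L5 l16 k302 k303
                      by_cases k327 : ∃ z, IsGLB ({e0, e17} : Set P) z
                      · obtain ⟨e18, g18⟩ := k327
                        have c18 : Core e0 e18 := CM g18
                        have k330 : e18 ≤ e0 := G1 g18
                        have k331 : e18 ≤ e17 := G2 g18
                        have k338 : e18 ≤ e8 := le_trans k331 k306
                        have k351 : ¬ e9 ≤ e18 := N2 k307 k331
                        have k358 : e18 ≤ e9 := G3 g9 k330 k338
                        exact HL _ _ _ _ _ _ c18 c9 c12 c16 c7 c4 (LT k358 k351) (LT k155 k177) (LT k299 k297) (LT k273 k286) (LT k60 k64)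
                      · obtain ⟨e18, l18⟩ := (h1 e17).resolve_right k327
                        have c18 : Core e0 e18 := CJ k327 l18
                        have k330 : e0 ≤ e18 := L1 l18
                        have k331 : e17 ≤ e18 := L2 l18
                        have k337 : e13 ≤ e18 := le_trans k302 k331
                        have k356 : e14 ≤ e18 := L3 l14 k330 k337
                        have k361 : e4 ≤ e18 := le_trans k227 k356
                        have k362 : e18 ≤ e4 := Classical.byContradiction fun hn => HL _ _ _ _ _ _ c9 c12 c16 c7 c4 c18 (LT k155 k177) (LT k299 k297) (LT k273 k286) (LT k60 k64) (LT k361 hn)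
                        have k364 : e17 ≤ e4 := le_trans k331 k362
                        obtain ⟨e19, l19⟩ := ZE h2 k305 k327 g6
                        have c19 : Core e0 e19 := CZ g6 k327 l19
                        have k369 : e6 ≤ e19 := L1 l19
                        have k370 : e17 ≤ e19 := L2 l19
                        have k371 : e19 ≤ e4 := L3 l19 k47 k364
                        have k372 : e19 ≤ e5 := L3 l19 k43 k305
                        have k377 : e10 ≤ e19 := le_trans k301 k370
                        have k379 : ¬ e0 ≤ e19 := N2 k34 k372
                        have k380 : ¬ e4 ≤ e19 := N1 k379 k21
                        have k396 : e11 ≤ e19 := L3 l11 k369 k377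
                        have k401 : e7 ≤ e19 := le_trans k151 k396
                        have k402 : e19 ≤ e7 := Classical.byContradiction fun hn => HL _ _ _ _ _ _ c9 c12 c16 c7 c19 c4 (LT k155 k177) (LT k299 k297) (LT k273 k286) (LT k401 hn) (LT k371 k380)
                        have k407 : e17 ≤ e7 := le_trans k370 k402
                        obtain ⟨e20, l20⟩ := ZE h2 k306 k327 g9
                        have c20 : Core e0 e20 := CZ g9 k327 l20
                        have k413 : e9 ≤ e20 := L1 l20
                        have k414 : e17 ≤ e20 := L2 l20
                        have k418 : e20 ≤ e7 := L3 l20 k107 k407
                        have k419 : e20 ≤ e8 := L3 l20 k90 k306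
                        have k426 : e13 ≤ e20 := le_trans k302 k414
                        have k433 : ¬ e2 ≤ e20 := N2 k83 k419
                        have k435 : ¬ e7 ≤ e20 := N1 k433 k62
                        have k449 : ¬ e20 ≤ e16 := N1 k304 k414
                        have k452 : e16 ≤ e20 := L3 l16 k413 k426
                        exact HL _ _ _ _ _ _ c9 c12 c16 c20 c7 c4 (LT k155 k177) (LT k299 k297) (LT k452 k449) (LT k418 k435) (LT k60 k64)
                    · obtain ⟨e16, q16⟩ : ∃ y, f e15 = y := ⟨_, rfl⟩
                      have k265 : e3 ≤ e16 := MO hf q3 q16 k238
                      have k266 : e8 ≤ e16 := MO hf q8 q16 k258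
                      have k267 : e10 ≤ e16 := MO hf q10 q16 k239
                      have k268 : e13 ≤ e16 := MO hf q13 q16 k256
                      have k269 : ¬ e15 ≤ e16 := FA hF q16
                      have k270 : ¬ e16 ≤ e15 := FB hG q16
                      have k271 : e16 ≤ e5 := MO hf q16 q5 k235
                      have k272 : ¬ e6 ≤ e16 := L5 l15 k268 k269
                      have k273 : e9 ≤ e16 := le_trans k90 k266
                      have k283 : ¬ e2 ≤ e16 := N1 k272 k53
                      by_cases k293 : ∃ z, IsGLB ({e0, e16} : Set P) z
                      · obtain ⟨e17, g17⟩ := k293
                        have c17 : Core e0 e17 := CM g17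
                        obtain ⟨e18, l18⟩ := ZE h2 k267 k128 g17
                        have c18 : Core e0 e18 := CZ g17 k128 l18
                        have k298 : e17 ≤ e0 := G1 g17
                        have k299 : e17 ≤ e16 := G2 g17
                        have k300 : e9 ≤ e17 := G3 g17 k89 k273
                        have k308 : e17 ≤ e4 := le_trans k298 k21
                        have k310 : e17 ≤ e5 := le_trans k299 k271
                        have k323 : ¬ e2 ≤ e17 := N2 k283 k299
                        have k347 : e17 ≤ e6 := G3 g6 k298 k310
                        have k353 : e17 ≤ e2 := le_trans k347 k53
                        have k356 : e17 ≤ e15 := le_trans k347 k233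
                        have k364 : e17 ≤ e9 := Classical.byContradiction fun hn => HL _ _ _ _ _ _ c9 c17 c2 c7 c15 c4 (LT k300 hn) (LT k353 k323) (LT k62 k67) (LT k258 k259) (LT k235 k242)
                        have k365 : e17 ≤ e8 := le_trans k364 k90
                        obtain ⟨e19, l19⟩ := ZE h2 k268 k200 g17
                        have c19 : Core e0 e19 := CZ g17 k200 l19
                        have k371 : e17 ≤ e19 := L1 l19
                        have k372 : e13 ≤ e19 := L2 l19
                        have k373 : e19 ≤ e4 := L3 l19 k308 k229
                        have k375 : e19 ≤ e8 := L3 l19 k365 k184
                        have k377 : e19 ≤ e15 := L3 l19 k356 k234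
                        have k379 : e10 ≤ e19 := le_trans k180 k372
                        have k380 : e9 ≤ e19 := le_trans k300 k371
                        have k386 : ¬ e2 ≤ e19 := N2 k83 k375
                        have k390 : ¬ e15 ≤ e19 := N1 k386 k238
                        have k401 : ¬ e19 ≤ e12 := N1 k182 k372
                        have k405 : e12 ≤ e19 := L3 l12 k380 k379
                        obtain ⟨e20, q20⟩ : ∃ y, f e19 = y := ⟨_, rfl⟩
                        have k409 : e13 ≤ e20 := MO hf q13 q20 k405
                        have k410 : ¬ e19 ≤ e20 := FA hF q20
                        have k411 : ¬ e20 ≤ e19 := FB hG q20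
                        have k412 : e20 ≤ e5 := MO hf q20 q5 k373
                        have k413 : e20 ≤ e16 := MO hf q20 q16 k377
                        have k414 : ¬ e17 ≤ e20 := L5 l19 k409 k410
                        have k437 : ¬ e9 ≤ e20 := N1 k414 k364
                        by_cases k442 : ∃ z, IsGLB ({e0, e20} : Set P) z
                        · obtain ⟨e21, g21⟩ := k442
                          have c21 : Core e0 e21 := CM g21
                          have k445 : e21 ≤ e0 := G1 g21
                          have k446 : e21 ≤ e20 := G2 g21
                          have k453 : e21 ≤ e16 := le_trans k446 k413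
                          have k467 : ¬ e9 ≤ e21 := N2 k437 k446
                          have k469 : ¬ e17 ≤ e21 := N1 k467 k300
                          have k476 : e21 ≤ e17 := G3 g17 k445 k453
                          exact HL _ _ _ _ _ _ c21 c17 c2 c7 c15 c4 (LT k476 k469) (LT k353 k323) (LT k62 k67) (LT k258 k259) (LT k235 k242)
                        · obtain ⟨e21, l21⟩ := (h1 e20).resolve_right k442
                          have c21 : Core e0 e21 := CJ k442 l21
                          have k445 : e0 ≤ e21 := L1 l21
                          have k446 : e20 ≤ e21 := L2 l21
                          have k453 : e13 ≤ e21 := le_trans k409 k446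
                          have k475 : e14 ≤ e21 := L3 l14 k445 k453
                          have k481 : e4 ≤ e21 := le_trans k227 k475
                          have k482 : e21 ≤ e4 := Classical.byContradiction fun hn => HL _ _ _ _ _ _ c9 c12 c19 c15 c4 c21 (LT k155 k177) (LT k405 k401) (LT k377 k390) (LT k235 k242) (LT k481 hn)
                          have k484 : e20 ≤ e4 := le_trans k446 k482
                          obtain ⟨e22, l22⟩ := ZE h2 k412 k442 g6
                          have c22 : Core e0 e22 := CZ g6 k442 l22
                          have k489 : e6 ≤ e22 := L1 l22
                          have k490 : e20 ≤ e22 := L2 l22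
                          have k491 : e22 ≤ e4 := L3 l22 k47 k484
                          have k492 : e22 ≤ e5 := L3 l22 k43 k412
                          have k499 : e13 ≤ e22 := le_trans k409 k490
                          have k500 : ¬ e0 ≤ e22 := N2 k34 k492
                          have k501 : ¬ e4 ≤ e22 := N1 k500 k21
                          have k524 : e15 ≤ e22 := L3 l15 k489 k499
                          have k529 : e22 ≤ e15 := Classical.byContradiction fun hn => HL _ _ _ _ _ _ c9 c12 c19 c15 c22 c4 (LT k155 k177) (LT k405 k401) (LT k377 k390) (LT k524 hn) (LT k491 k501)
                          have k530 : e20 ≤ e15 := le_trans k490 k529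
                          obtain ⟨e23, l23⟩ := ZE h2 k413 k442 g17
                          have c23 : Core e0 e23 := CZ g17 k442 l23
                          have k534 : e17 ≤ e23 := L1 l23
                          have k535 : e20 ≤ e23 := L2 l23
                          have k539 : e23 ≤ e15 := L3 l23 k356 k530
                          have k540 : e23 ≤ e16 := L3 l23 k299 k413
                          have k545 : e13 ≤ e23 := le_trans k409 k535
                          have k552 : ¬ e2 ≤ e23 := N2 k283 k540
                          have k556 : ¬ e15 ≤ e23 := N1 k552 k238
                          have k572 : ¬ e23 ≤ e19 := N1 k411 k535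
                          have k576 : e19 ≤ e23 := L3 l19 k534 k545
                          exact HL _ _ _ _ _ _ c9 c12 c19 c23 c15 c4 (LT k155 k177) (LT k405 k401) (LT k576 k572) (LT k539 k556) (LT k235 k242)
                      · obtain ⟨e17, l17⟩ := (h1 e16).resolve_right k293
                        have c17 : Core e0 e17 := CJ k293 l17
                        have k296 : e0 ≤ e17 := L1 l17
                        have k297 : e16 ≤ e17 := L2 l17
                        have k302 : e3 ≤ e17 := le_trans k265 k297
                        have k322 : e4 ≤ e17 := L3 l4 k296 k302
                        have k327 : e17 ≤ e4 := Classical.byContradiction fun hn => HL _ _ _ _ _ _ c9 c12 c7 c15 c4 c17 (LT k155 k177) (LT k160 k169) (LT k258 k259) (LT k235 k242) (LT k322 hn)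
                        have k331 : e16 ≤ e4 := le_trans k297 k327
                        obtain ⟨e18, l18⟩ := ZE h2 k271 k293 g6
                        have c18 : Core e0 e18 := CZ g6 k293 l18
                        have k336 : e6 ≤ e18 := L1 l18
                        have k337 : e16 ≤ e18 := L2 l18
                        have k338 : e18 ≤ e4 := L3 l18 k47 k331
                        have k339 : e18 ≤ e5 := L3 l18 k43 k271
                        have k348 : e13 ≤ e18 := le_trans k268 k337
                        have k349 : ¬ e0 ≤ e18 := N2 k34 k339
                        have k350 : ¬ e4 ≤ e18 := N1 k349 k21
                        have k366 : ¬ e18 ≤ e15 := N1 k270 k337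
                        have k370 : e15 ≤ e18 := L3 l15 k336 k348
                        exact HL _ _ _ _ _ _ c9 c2 c7 c15 c18 c4 (LT k106 k99) (LT k62 k67) (LT k258 k259) (LT k370 k366) (LT k338 k350)
                  · have k229 : ¬ e13 ≤ e4 := L4 l14 k21 k228
                    have k232 : ¬ e13 ≤ e7 := N2 k229 k60
                    obtain ⟨e15, q15⟩ : ∃ y, f e14 = y := ⟨_, rfl⟩
                    have k235 : e1 ≤ e15 := MO hf q1 q15 k203
                    have k239 : e10 ≤ e15 := MO hf q10 q15 k208
                    have k240 : e13 ≤ e15 := MO hf q13 q15 k224
                    have k241 : ¬ e14 ≤ e15 := FA hF q15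
                    have k242 : ¬ e15 ≤ e14 := FB hG q15
                    have k243 : ¬ e0 ≤ e15 := L5 l14 k240 k241
                    have k244 : e2 ≤ e15 := le_trans k7 k235
                    have k245 : e6 ≤ e15 := le_trans k54 k235
                    have k247 : e9 ≤ e15 := le_trans k105 k235
                    by_cases k263 : ∃ z, IsGLB ({e0, e15} : Set P) z
                    · obtain ⟨e16, g16⟩ := k263
                      have c16 : Core e0 e16 := CM g16
                      obtain ⟨e17, l17⟩ := ZE h2 k239 k128 g16
                      have c17 : Core e0 e17 := CZ g16 k128 l17
                      have k268 : e16 ≤ e0 := G1 g16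
                      have k269 : e16 ≤ e15 := G2 g16
                      have k270 : e2 ≤ e16 := G3 g16 k6 k244
                      have k271 : e6 ≤ e16 := G3 g16 k42 k245
                      have k272 : e9 ≤ e16 := G3 g16 k89 k247
                      have k277 : e16 ≤ e17 := L1 l17
                      have k278 : e10 ≤ e17 := L2 l17
                      have k280 : e16 ≤ e4 := le_trans k268 k21
                      have k281 : e16 ≤ e14 := le_trans k268 k203
                      have k282 : e2 ≤ e17 := le_trans k270 k277
                      have k284 : e9 ≤ e17 := le_trans k272 k277
                      have k285 : ¬ e0 ≤ e16 := N2 k243 k269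
                      have k301 : ¬ e17 ≤ e12 := N1 k167 k282
                      have k303 : ¬ e3 ≤ e16 := N2 k15 k268
                      have k304 : ¬ e7 ≤ e16 := N1 k303 k58
                      have k316 : e12 ≤ e17 := L3 l12 k284 k278
                      have k317 : e17 ≤ e4 := L3 l17 k280 k116
                      have k324 : ¬ e13 ≤ e17 := N2 k229 k317
                      have k325 : e16 ≤ e2 := Classical.byContradiction fun hn => HL _ _ _ _ _ _ c9 c2 c16 c0 c4 c14 (LT k106 k99) (LT k270 hn) (LT k268 k285) (LT k21 k28) (LT k227 k228)
                      have k327 : e16 ≤ e5 := le_trans k325 k35
                      have k329 : e16 ≤ e7 := le_trans k325 k62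
                      obtain ⟨e18, l18⟩ := ZE h2 k240 k200 g16
                      have c18 : Core e0 e18 := CZ g16 k200 l18
                      have k337 : e16 ≤ e18 := L1 l18
                      have k338 : e13 ≤ e18 := L2 l18
                      have k339 : e18 ≤ e5 := L3 l18 k327 k183
                      have k340 : e18 ≤ e14 := L3 l18 k281 k204
                      have k342 : e10 ≤ e18 := le_trans k180 k338
                      have k343 : e2 ≤ e18 := le_trans k270 k337
                      have k344 : e6 ≤ e18 := le_trans k271 k337
                      have k345 : e9 ≤ e18 := le_trans k272 k337
                      have k346 : ¬ e0 ≤ e18 := N2 k34 k339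
                      have k348 : ¬ e14 ≤ e18 := N1 k346 k203
                      have k360 : ¬ e18 ≤ e7 := N1 k232 k338
                      have k362 : ¬ e18 ≤ e17 := N1 k324 k338
                      have k365 : e11 ≤ e18 := L3 l11 k344 k342
                      have k366 : e12 ≤ e18 := L3 l12 k345 k342
                      have k367 : e17 ≤ e18 := L3 l17 k337 k342
                      have k369 : e7 ≤ e18 := le_trans k151 k365
                      obtain ⟨e19, q19⟩ : ∃ y, f e18 = y := ⟨_, rfl⟩
                      have k372 : e8 ≤ e19 := MO hf q8 q19 k369
                      have k373 : e10 ≤ e19 := MO hf q10 q19 k345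
                      have k374 : e13 ≤ e19 := MO hf q13 q19 k366
                      have k375 : ¬ e18 ≤ e19 := FA hF q19
                      have k376 : ¬ e19 ≤ e18 := FB hG q19
                      have k377 : e19 ≤ e15 := MO hf q19 q15 k340
                      have k378 : ¬ e16 ≤ e19 := L5 l18 k374 k375
                      have k379 : e9 ≤ e19 := le_trans k90 k372
                      have k398 : ¬ e2 ≤ e19 := N1 k378 k325
                      by_cases k405 : ∃ z, IsGLB ({e0, e19} : Set P) z
                      · obtain ⟨e20, g20⟩ := k405
                        have c20 : Core e0 e20 := CM g20
                        obtain ⟨e21, l21⟩ := ZE h2 k373 k128 g20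
                        have c21 : Core e0 e21 := CZ g20 k128 l21
                        have k410 : e20 ≤ e0 := G1 g20
                        have k411 : e20 ≤ e19 := G2 g20
                        have k412 : e9 ≤ e20 := G3 g20 k89 k379
                        have k421 : e20 ≤ e14 := le_trans k410 k203
                        have k422 : e20 ≤ e15 := le_trans k411 k377
                        have k437 : ¬ e2 ≤ e20 := N2 k398 k411
                        have k442 : ¬ e16 ≤ e20 := N1 k437 k270
                        have k466 : e20 ≤ e16 := G3 g16 k410 k422
                        have k472 : e20 ≤ e2 := le_trans k466 k325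
                        have k478 : e20 ≤ e18 := le_trans k466 k337
                        have k488 : e20 ≤ e9 := Classical.byContradiction fun hn => HL _ _ _ _ _ _ c9 c20 c16 c7 c4 c14 (LT k412 hn) (LT k466 k442) (LT k329 k304) (LT k60 k64) (LT k227 k228)
                        obtain ⟨e22, l22⟩ := ZE h2 k374 k200 g20
                        have c22 : Core e0 e22 := CZ g20 k200 l22
                        have k495 : e20 ≤ e22 := L1 l22
                        have k496 : e13 ≤ e22 := L2 l22
                        have k499 : e22 ≤ e14 := L3 l22 k421 k204
                        have k501 : e22 ≤ e18 := L3 l22 k478 k338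
                        have k503 : e10 ≤ e22 := le_trans k180 k496
                        have k504 : e9 ≤ e22 := le_trans k412 k495
                        have k530 : ¬ e22 ≤ e12 := N1 k182 k496
                        have k535 : e12 ≤ e22 := L3 l12 k504 k503
                        obtain ⟨e23, q23⟩ : ∃ y, f e22 = y := ⟨_, rfl⟩
                        have k539 : e13 ≤ e23 := MO hf q13 q23 k535
                        have k540 : ¬ e22 ≤ e23 := FA hF q23
                        have k541 : ¬ e23 ≤ e22 := FB hG q23
                        have k542 : e23 ≤ e15 := MO hf q23 q15 k499
                        have k543 : e23 ≤ e19 := MO hf q23 q19 k501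
                        have k544 : ¬ e20 ≤ e23 := L5 l22 k539 k540
                        have k573 : ¬ e9 ≤ e23 := N1 k544 k488
                        by_cases k578 : ∃ z, IsGLB ({e0, e23} : Set P) z
                        · obtain ⟨e24, g24⟩ := k578
                          have c24 : Core e0 e24 := CM g24
                          have k581 : e24 ≤ e0 := G1 g24
                          have k582 : e24 ≤ e23 := G2 g24
                          have k589 : e24 ≤ e19 := le_trans k582 k543
                          have k606 : ¬ e9 ≤ e24 := N2 k573 k582
                          have k608 : ¬ e20 ≤ e24 := N1 k606 k412
                          have k615 : e24 ≤ e20 := G3 g20 k581 k589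
                          exact HL _ _ _ _ _ _ c24 c20 c2 c0 c4 c14 (LT k615 k608) (LT k472 k437) (LT k6 k9) (LT k21 k28) (LT k227 k228)
                        · obtain ⟨e24, l24⟩ := (h1 e23).resolve_right k578
                          have c24 : Core e0 e24 := CJ k578 l24
                          have k581 : e0 ≤ e24 := L1 l24
                          have k582 : e23 ≤ e24 := L2 l24
                          have k590 : e13 ≤ e24 := le_trans k539 k582
                          have k616 : e14 ≤ e24 := L3 l14 k581 k590
                          have k624 : e24 ≤ e14 := Classical.byContradiction fun hn => HL _ _ _ _ _ _ c9 c12 c17 c18 c14 c24 (LT k155 k177) (LT k316 k301) (LT k367 k362) (LT k340 k348) (LT k616 hn)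
                          have k625 : e23 ≤ e14 := le_trans k582 k624
                          obtain ⟨e25, l25⟩ := ZE h2 k542 k578 g16
                          have c25 : Core e0 e25 := CZ g16 k578 l25
                          have k629 : e16 ≤ e25 := L1 l25
                          have k630 : e23 ≤ e25 := L2 l25
                          have k631 : e25 ≤ e14 := L3 l25 k281 k625
                          have k632 : e25 ≤ e15 := L3 l25 k269 k542
                          have k639 : e13 ≤ e25 := le_trans k539 k630
                          have k640 : ¬ e0 ≤ e25 := N2 k243 k632
                          have k642 : ¬ e14 ≤ e25 := N1 k640 k203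
                          have k668 : e18 ≤ e25 := L3 l18 k629 k639
                          have k673 : e25 ≤ e18 := Classical.byContradiction fun hn => HL _ _ _ _ _ _ c9 c12 c17 c18 c25 c14 (LT k155 k177) (LT k316 k301) (LT k367 k362) (LT k668 hn) (LT k631 k642)
                          have k676 : e23 ≤ e18 := le_trans k630 k673
                          obtain ⟨e26, l26⟩ := ZE h2 k543 k578 g20
                          have c26 : Core e0 e26 := CZ g20 k578 l26
                          have k680 : e20 ≤ e26 := L1 l26
                          have k681 : e23 ≤ e26 := L2 l26
                          have k685 : e26 ≤ e18 := L3 l26 k478 k676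
                          have k686 : e26 ≤ e19 := L3 l26 k411 k543
                          have k691 : e13 ≤ e26 := le_trans k539 k681
                          have k699 : ¬ e2 ≤ e26 := N2 k398 k686
                          have k705 : ¬ e18 ≤ e26 := N1 k699 k343
                          have k724 : ¬ e26 ≤ e22 := N1 k541 k681
                          have k728 : e22 ≤ e26 := L3 l22 k680 k691
                          exact HL _ _ _ _ _ _ c9 c12 c22 c26 c18 c14 (LT k155 k177) (LT k535 k530) (LT k728 k724) (LT k685 k705) (LT k340 k348)
                      · obtain ⟨e20, l20⟩ := (h1 e19).resolve_right k405
                        have c20 : Core e0 e20 := CJ k405 l20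
                        have k408 : e0 ≤ e20 := L1 l20
                        have k409 : e19 ≤ e20 := L2 l20
                        have k419 : e13 ≤ e20 := le_trans k374 k409
                        have k442 : e14 ≤ e20 := L3 l14 k408 k419
                        have k445 : e20 ≤ e14 := Classical.byContradiction fun hn => HL _ _ _ _ _ _ c9 c12 c17 c18 c14 c20 (LT k155 k177) (LT k316 k301) (LT k367 k362) (LT k340 k348) (LT k442 hn)
                        have k447 : e19 ≤ e14 := le_trans k409 k445
                        obtain ⟨e21, l21⟩ := ZE h2 k377 k405 g16
                        have c21 : Core e0 e21 := CZ g16 k405 l21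
                        have k451 : e16 ≤ e21 := L1 l21
                        have k452 : e19 ≤ e21 := L2 l21
                        have k453 : e21 ≤ e14 := L3 l21 k281 k447
                        have k454 : e21 ≤ e15 := L3 l21 k269 k377
                        have k463 : e13 ≤ e21 := le_trans k374 k452
                        have k464 : ¬ e0 ≤ e21 := N2 k243 k454
                        have k466 : ¬ e14 ≤ e21 := N1 k464 k203
                        have k484 : ¬ e21 ≤ e18 := N1 k376 k452
                        have k489 : e18 ≤ e21 := L3 l18 k451 k463
                        exact HL _ _ _ _ _ _ c9 c2 c7 c18 c21 c14 (LT k106 k99) (LT k62 k67) (LT k369 k360) (LT k489 k484) (LT k453 k466)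
                    · obtain ⟨e16, l16⟩ := (h1 e15).resolve_right k263
                      have c16 : Core e0 e16 := CJ k263 l16
                      have k266 : e0 ≤ e16 := L1 l16
                      have k267 : e15 ≤ e16 := L2 l16
                      have k280 : e13 ≤ e16 := le_trans k240 k267
                      have k296 : ¬ e16 ≤ e14 := N1 k242 k267
                      have k298 : e14 ≤ e16 := L3 l14 k266 k280
                      exact HL _ _ _ _ _ _ c9 c2 c0 c4 c14 c16 (LT k106 k99) (LT k6 k9) (LT k21 k28) (LT k227 k228) (LT k298 k296)
              · have k153 : ¬ e3 ≤ e11 := L4 l7 k131 k151
                obtain ⟨e12, q12⟩ : ∃ y, f e11 = y := ⟨_, rfl⟩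
                have k156 : e3 ≤ e12 := MO hf q3 q12 k137
                have k157 : e10 ≤ e12 := MO hf q10 q12 k138
                have k160 : e12 ≤ e5 := MO hf q12 q5 k134
                have k161 : e12 ≤ e8 := MO hf q12 q8 k136
                by_cases k174 : ∃ z, IsGLB ({e0, e12} : Set P) z
                · obtain ⟨e13, g13⟩ := k174
                  have c13 : Core e0 e13 := CM g13
                  have k177 : e13 ≤ e0 := G1 g13
                  have k178 : e13 ≤ e12 := G2 g13
                  have k182 : e13 ≤ e4 := le_trans k177 k21
                  have k183 : e13 ≤ e5 := le_trans k178 k160
                  have k184 : e13 ≤ e8 := le_trans k178 k161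
                  have k198 : e13 ≤ e6 := G3 g6 k177 k183
                  have k199 : e13 ≤ e9 := G3 g9 k177 k184
                  have k200 : e13 ≤ e1 := le_trans k198 k54
                  have k202 : e13 ≤ e7 := le_trans k198 k57
                  have k203 : e13 ≤ e11 := le_trans k198 k131
                  have k204 : e9 ≤ e13 := Classical.byContradiction fun hn => HL _ _ _ _ _ _ c13 c9 c2 c11 c7 c4 (LT k199 hn) (LT k106 k99) (LT k137 k148) (LT k136 k151) (LT k60 k64)
                  have k205 : e9 ≤ e12 := le_trans k204 k178
                  obtain ⟨e14, l14⟩ := (h1 e10).resolve_right k128
                  have c14 : Core e0 e14 := CJ k128 l14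
                  have k208 : e0 ≤ e14 := L1 l14
                  have k209 : e10 ≤ e14 := L2 l14
                  have k210 : e14 ≤ e4 := L3 l14 k21 k116
                  have k213 : e6 ≤ e14 := le_trans k42 k208
                  have k215 : e13 ≤ e14 := le_trans k177 k208
                  have k225 : ¬ e14 ≤ e11 := N1 k139 k208
                  have k229 : ¬ e14 ≤ e0 := N1 k115 k209
                  have k230 : e11 ≤ e14 := L3 l11 k213 k209
                  by_cases k231 : e4 ≤ e14
                  · obtain ⟨e15, l15⟩ := ZE h2 k157 k128 g13
                    have c15 : Core e0 e15 := CZ g13 k128 l15
                    have k236 : e13 ≤ e15 := L1 l15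
                    have k237 : e10 ≤ e15 := L2 l15
                    have k239 : e15 ≤ e4 := L3 l15 k182 k116
                    have k241 : e15 ≤ e7 := L3 l15 k202 k117
                    have k242 : e15 ≤ e8 := L3 l15 k184 k114
                    have k243 : e15 ≤ e11 := L3 l15 k203 k132
                    have k246 : e9 ≤ e15 := le_trans k204 k236
                    have k252 : ¬ e2 ≤ e15 := N2 k83 k242
                    have k255 : ¬ e11 ≤ e15 := N1 k252 k137
                    have k264 : ¬ e15 ≤ e9 := N1 k110 k237
                    obtain ⟨e16, q16⟩ : ∃ y, f e15 = y := ⟨_, rfl⟩
                    have k268 : e10 ≤ e16 := MO hf q10 q16 k246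
                    have k269 : ¬ e15 ≤ e16 := FA hF q16
                    have k270 : ¬ e16 ≤ e15 := FB hG q16
                    have k271 : e16 ≤ e5 := MO hf q16 q5 k239
                    have k272 : e16 ≤ e8 := MO hf q16 q8 k241
                    have k273 : e16 ≤ e12 := MO hf q16 q12 k243
                    have k274 : ¬ e13 ≤ e16 := L5 l15 k268 k269
                    have k290 : ¬ e9 ≤ e16 := N1 k274 k199
                    by_cases k293 : ∃ z, IsGLB ({e0, e16} : Set P) z
                    · obtain ⟨e17, g17⟩ := k293
                      have c17 : Core e0 e17 := CM g17
                      have k296 : e17 ≤ e0 := G1 g17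
                      have k297 : e17 ≤ e16 := G2 g17
                      have k303 : e17 ≤ e8 := le_trans k297 k272
                      have k317 : ¬ e9 ≤ e17 := N2 k290 k297
                      have k323 : e17 ≤ e9 := G3 g9 k296 k303
                      exact HL _ _ _ _ _ _ c17 c9 c2 c11 c7 c4 (LT k323 k317) (LT k106 k99) (LT k137 k148) (LT k136 k151) (LT k60 k64)
                    · obtain ⟨e17, l17⟩ := (h1 e16).resolve_right k293
                      have c17 : Core e0 e17 := CJ k293 l17
                      have k296 : e0 ≤ e17 := L1 l17
                      have k297 : e16 ≤ e17 := L2 l17
                      have k303 : e10 ≤ e17 := le_trans k268 k297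
                      have k320 : e14 ≤ e17 := L3 l14 k296 k303
                      have k323 : e4 ≤ e17 := le_trans k231 k320
                      have k325 : e17 ≤ e4 := Classical.byContradiction fun hn => HL _ _ _ _ _ _ c9 c15 c11 c7 c4 c17 (LT k246 k264) (LT k243 k255) (LT k136 k151) (LT k60 k64) (LT k323 hn)
                      have k327 : e16 ≤ e4 := le_trans k297 k325
                      obtain ⟨e18, l18⟩ := ZE h2 k271 k293 g6
                      have c18 : Core e0 e18 := CZ g6 k293 l18
                      have k332 : e6 ≤ e18 := L1 l18
                      have k333 : e16 ≤ e18 := L2 l18
                      have k334 : e18 ≤ e4 := L3 l18 k47 k327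
                      have k335 : e18 ≤ e5 := L3 l18 k43 k271
                      have k338 : e2 ≤ e18 := le_trans k44 k332
                      have k339 : e9 ≤ e18 := le_trans k104 k332
                      have k340 : e13 ≤ e18 := le_trans k198 k332
                      have k341 : e10 ≤ e18 := le_trans k268 k333
                      have k342 : ¬ e0 ≤ e18 := N2 k34 k335
                      have k343 : ¬ e4 ≤ e18 := N1 k342 k21
                      have k359 : e11 ≤ e18 := L3 l11 k332 k341
                      have k360 : e15 ≤ e18 := L3 l15 k340 k341
                      by_cases k361 : e18 ≤ e11
                      · have k366 : e16 ≤ e11 := le_trans k333 k361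
                        obtain ⟨e19, l19⟩ := ZE h2 k273 k293 g13
                        have c19 : Core e0 e19 := CZ g13 k293 l19
                        have k375 : e13 ≤ e19 := L1 l19
                        have k376 : e16 ≤ e19 := L2 l19
                        have k381 : e19 ≤ e8 := L3 l19 k184 k272
                        have k382 : e19 ≤ e11 := L3 l19 k203 k366
                        have k388 : e10 ≤ e19 := le_trans k268 k376
                        have k395 : ¬ e2 ≤ e19 := N2 k83 k381
                        have k398 : ¬ e11 ≤ e19 := N1 k395 k137
                        have k411 : ¬ e19 ≤ e15 := N1 k270 k376
                        have k413 : e15 ≤ e19 := L3 l15 k375 k388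
                        exact HL _ _ _ _ _ _ c9 c15 c19 c11 c7 c4 (LT k246 k264) (LT k413 k411) (LT k382 k398) (LT k136 k151) (LT k60 k64)
                      · obtain ⟨e19, q19⟩ : ∃ y, f e18 = y := ⟨_, rfl⟩
                        have k364 : e3 ≤ e19 := MO hf q3 q19 k338
                        have k365 : e10 ≤ e19 := MO hf q10 q19 k339
                        have k366 : e12 ≤ e19 := MO hf q12 q19 k359
                        have k367 : e16 ≤ e19 := MO hf q16 q19 k360
                        have k368 : ¬ e18 ≤ e19 := FA hF q19
                        have k369 : ¬ e19 ≤ e18 := FB hG q19
                        have k370 : e19 ≤ e5 := MO hf q19 q5 k334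
                        have k371 : ¬ e6 ≤ e19 := L5 l18 k367 k368
                        have k372 : e9 ≤ e19 := le_trans k205 k366
                        have k373 : e13 ≤ e19 := le_trans k178 k366
                        have k388 : ¬ e2 ≤ e19 := N1 k371 k53
                        by_cases k394 : ∃ z, IsGLB ({e0, e19} : Set P) z
                        · obtain ⟨e20, g20⟩ := k394
                          have c20 : Core e0 e20 := CM g20
                          obtain ⟨e21, l21⟩ := ZE h2 k365 k128 g20
                          have c21 : Core e0 e21 := CZ g20 k128 l21
                          have k399 : e20 ≤ e0 := G1 g20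
                          have k400 : e20 ≤ e19 := G2 g20
                          have k401 : e9 ≤ e20 := G3 g20 k89 k372
                          have k402 : e13 ≤ e20 := G3 g20 k177 k373
                          have k410 : e20 ≤ e4 := le_trans k399 k21
                          have k413 : e20 ≤ e5 := le_trans k400 k370
                          have k429 : ¬ e2 ≤ e20 := N2 k388 k400
                          have k455 : e20 ≤ e6 := G3 g6 k399 k413
                          have k462 : e20 ≤ e2 := le_trans k455 k53
                          have k465 : e20 ≤ e18 := le_trans k455 k332
                          have k475 : e20 ≤ e9 := Classical.byContradiction fun hn => HL _ _ _ _ _ _ c9 c20 c2 c11 c7 c4 (LT k401 hn) (LT k462 k429) (LT k137 k148) (LT k136 k151) (LT k60 k64)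
                          have k476 : e20 ≤ e8 := le_trans k475 k90
                          obtain ⟨e22, l22⟩ := ZE h2 k367 k293 g20
                          have c22 : Core e0 e22 := CZ g20 k293 l22
                          have k485 : e20 ≤ e22 := L1 l22
                          have k486 : e16 ≤ e22 := L2 l22
                          have k487 : e22 ≤ e4 := L3 l22 k410 k327
                          have k489 : e22 ≤ e8 := L3 l22 k476 k272
                          have k493 : e22 ≤ e18 := L3 l22 k465 k333
                          have k495 : e10 ≤ e22 := le_trans k268 k486
                          have k496 : e9 ≤ e22 := le_trans k401 k485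
                          have k497 : e13 ≤ e22 := le_trans k402 k485
                          have k504 : ¬ e2 ≤ e22 := N2 k83 k489
                          have k508 : ¬ e18 ≤ e22 := N1 k504 k338
                          have k519 : ¬ e22 ≤ e15 := N1 k270 k486
                          have k523 : e15 ≤ e22 := L3 l15 k497 k495
                          obtain ⟨e23, q23⟩ : ∃ y, f e22 = y := ⟨_, rfl⟩
                          have k526 : e10 ≤ e23 := MO hf q10 q23 k496
                          have k527 : e16 ≤ e23 := MO hf q16 q23 k523
                          have k528 : ¬ e22 ≤ e23 := FA hF q23
                          have k529 : ¬ e23 ≤ e22 := FB hG q23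
                          have k530 : e23 ≤ e5 := MO hf q23 q5 k487
                          have k531 : e23 ≤ e19 := MO hf q23 q19 k493
                          have k532 : ¬ e20 ≤ e23 := L5 l22 k527 k528
                          have k555 : ¬ e9 ≤ e23 := N1 k532 k475
                          by_cases k562 : ∃ z, IsGLB ({e0, e23} : Set P) z
                          · obtain ⟨e24, g24⟩ := k562
                            have c24 : Core e0 e24 := CM g24
                            have k565 : e24 ≤ e0 := G1 g24
                            have k566 : e24 ≤ e23 := G2 g24
                            have k574 : e24 ≤ e19 := le_trans k566 k531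
                            have k590 : ¬ e9 ≤ e24 := N2 k555 k566
                            have k593 : ¬ e20 ≤ e24 := N1 k590 k401
                            have k600 : e24 ≤ e20 := G3 g20 k565 k574
                            exact HL _ _ _ _ _ _ c24 c20 c2 c11 c7 c4 (LT k600 k593) (LT k462 k429) (LT k137 k148) (LT k136 k151) (LT k60 k64)
                          · obtain ⟨e24, l24⟩ := (h1 e23).resolve_right k562
                            have c24 : Core e0 e24 := CJ k562 l24
                            have k565 : e0 ≤ e24 := L1 l24
                            have k566 : e23 ≤ e24 := L2 l24
                            have k573 : e10 ≤ e24 := le_trans k526 k566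
                            have k597 : e14 ≤ e24 := L3 l14 k565 k573
                            have k604 : e4 ≤ e24 := le_trans k231 k597
                            have k606 : e24 ≤ e4 := Classical.byContradiction fun hn => HL _ _ _ _ _ _ c9 c15 c22 c18 c4 c24 (LT k246 k264) (LT k523 k519) (LT k493 k508) (LT k334 k343) (LT k604 hn)
                            have k609 : e23 ≤ e4 := le_trans k566 k606
                            obtain ⟨e25, l25⟩ := ZE h2 k530 k562 g6
                            have c25 : Core e0 e25 := CZ g6 k562 l25
                            have k615 : e6 ≤ e25 := L1 l25
                            have k616 : e23 ≤ e25 := L2 l25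
                            have k617 : e25 ≤ e4 := L3 l25 k47 k609
                            have k618 : e25 ≤ e5 := L3 l25 k43 k530
                            have k627 : e16 ≤ e25 := le_trans k527 k616
                            have k628 : ¬ e0 ≤ e25 := N2 k34 k618
                            have k629 : ¬ e4 ≤ e25 := N1 k628 k21
                            have k654 : e18 ≤ e25 := L3 l18 k615 k627
                            have k657 : e25 ≤ e18 := Classical.byContradiction fun hn => HL _ _ _ _ _ _ c9 c15 c22 c18 c25 c4 (LT k246 k264) (LT k523 k519) (LT k493 k508) (LT k654 hn) (LT k617 k629)
                            have k658 : e23 ≤ e18 := le_trans k616 k657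
                            obtain ⟨e26, l26⟩ := ZE h2 k531 k562 g20
                            have c26 : Core e0 e26 := CZ g20 k562 l26
                            have k662 : e20 ≤ e26 := L1 l26
                            have k663 : e23 ≤ e26 := L2 l26
                            have k668 : e26 ≤ e18 := L3 l26 k465 k658
                            have k669 : e26 ≤ e19 := L3 l26 k400 k531
                            have k675 : e16 ≤ e26 := le_trans k527 k663
                            have k683 : ¬ e2 ≤ e26 := N2 k388 k669
                            have k687 : ¬ e18 ≤ e26 := N1 k683 k338
                            have k703 : ¬ e26 ≤ e22 := N1 k529 k663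
                            have k707 : e22 ≤ e26 := L3 l22 k662 k675
                            exact HL _ _ _ _ _ _ c9 c15 c22 c26 c18 c4 (LT k246 k264) (LT k523 k519) (LT k707 k703) (LT k668 k687) (LT k334 k343)
                        · obtain ⟨e20, l20⟩ := (h1 e19).resolve_right k394
                          have c20 : Core e0 e20 := CJ k394 l20
                          have k397 : e0 ≤ e20 := L1 l20
                          have k398 : e19 ≤ e20 := L2 l20
                          have k404 : e3 ≤ e20 := le_trans k364 k398
                          have k426 : e4 ≤ e20 := L3 l4 k397 k404
                          have k432 : e20 ≤ e4 := Classical.byContradiction fun hn => HL _ _ _ _ _ _ c9 c15 c11 c18 c4 c20 (LT k246 k264) (LT k243 k255) (LT k359 k361) (LT k334 k343) (LT k426 hn)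
                          have k438 : e19 ≤ e4 := le_trans k398 k432
                          obtain ⟨e21, l21⟩ := ZE h2 k370 k394 g6
                          have c21 : Core e0 e21 := CZ g6 k394 l21
                          have k444 : e6 ≤ e21 := L1 l21
                          have k445 : e19 ≤ e21 := L2 l21
                          have k446 : e21 ≤ e4 := L3 l21 k47 k438
                          have k447 : e21 ≤ e5 := L3 l21 k43 k370
                          have k458 : e16 ≤ e21 := le_trans k367 k445
                          have k459 : ¬ e0 ≤ e21 := N2 k34 k447
                          have k460 : ¬ e4 ≤ e21 := N1 k459 k21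
                          have k478 : ¬ e21 ≤ e18 := N1 k369 k445
                          have k482 : e18 ≤ e21 := L3 l18 k444 k458
                          exact HL _ _ _ _ _ _ c9 c2 c11 c18 c21 c4 (LT k106 k99) (LT k137 k148) (LT k359 k361) (LT k482 k478) (LT k446 k460)
                  · have k232 : ¬ e3 ≤ e14 := L4 l4 k208 k231
                    obtain ⟨e15, q15⟩ : ∃ y, f e14 = y := ⟨_, rfl⟩
                    have k238 : e1 ≤ e15 := MO hf q1 q15 k208
                    have k244 : e15 ≤ e5 := MO hf q15 q5 k210
                    have k246 : e2 ≤ e15 := le_trans k7 k238
                    have k247 : e6 ≤ e15 := le_trans k54 k238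
                    have k249 : e9 ≤ e15 := le_trans k105 k238
                    have k263 : ∃ z, IsGLB ({e0, e15} : Set P) z := DBt g6 k247 k244
                    obtain ⟨e16, g16⟩ := k263
                    have c16 : Core e0 e16 := CM g16
                    have k266 : e16 ≤ e0 := G1 g16
                    have k267 : e16 ≤ e15 := G2 g16
                    have k268 : e2 ≤ e16 := G3 g16 k6 k246
                    have k269 : e6 ≤ e16 := G3 g16 k42 k247
                    have k270 : e9 ≤ e16 := G3 g16 k89 k249
                    have k276 : e16 ≤ e14 := le_trans k266 k208
                    have k277 : e16 ≤ e5 := le_trans k267 k244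
                    have k278 : ¬ e0 ≤ e16 := N2 k34 k277
                    have k285 : ¬ e16 ≤ e9 := N1 k99 k268
                    have k292 : ¬ e10 ≤ e16 := N2 k115 k266
                    have k293 : ¬ e11 ≤ e16 := N1 k292 k132
                    have k294 : e16 ≤ e6 := G3 g6 k266 k277
                    have k295 : e16 ≤ e1 := le_trans k294 k54
                    have k298 : e16 ≤ e11 := le_trans k294 k131
                    obtain ⟨e17, l17⟩ := ZE h2 k157 k128 g13
                    have c17 : Core e0 e17 := CZ g13 k128 l17
                    have k301 : e13 ≤ e17 := L1 l17
                    have k302 : e10 ≤ e17 := L2 l17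
                    have k304 : e17 ≤ e4 := L3 l17 k182 k116
                    have k306 : e17 ≤ e7 := L3 l17 k202 k117
                    have k308 : e17 ≤ e11 := L3 l17 k203 k132
                    have k310 : e17 ≤ e14 := L3 l17 k215 k209
                    have k312 : e9 ≤ e17 := le_trans k204 k301
                    have k332 : ¬ e17 ≤ e9 := N1 k110 k302
                    obtain ⟨e18, q18⟩ : ∃ y, f e17 = y := ⟨_, rfl⟩
                    have k337 : e10 ≤ e18 := MO hf q10 q18 k312
                    have k338 : ¬ e17 ≤ e18 := FA hF q18
                    have k339 : ¬ e18 ≤ e17 := FB hG q18
                    have k340 : e18 ≤ e5 := MO hf q18 q5 k304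
                    have k341 : e18 ≤ e8 := MO hf q18 q8 k306
                    have k342 : e18 ≤ e12 := MO hf q18 q12 k308
                    have k343 : e18 ≤ e15 := MO hf q18 q15 k310
                    have k344 : ¬ e13 ≤ e18 := L5 l17 k337 k338
                    have k363 : ¬ e9 ≤ e18 := N1 k344 k199
                    by_cases k366 : ∃ z, IsGLB ({e0, e18} : Set P) z
                    · obtain ⟨e19, g19⟩ := k366
                      have c19 : Core e0 e19 := CM g19
                      have k369 : e19 ≤ e0 := G1 g19
                      have k370 : e19 ≤ e18 := G2 g19
                      have k376 : e19 ≤ e8 := le_trans k370 k341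
                      have k393 : ¬ e9 ≤ e19 := N2 k363 k370
                      have k399 : e19 ≤ e9 := G3 g9 k369 k376
                      exact HL _ _ _ _ _ _ c19 c9 c16 c0 c14 c4 (LT k399 k393) (LT k270 k285) (LT k266 k278) (LT k208 k229) (LT k210 k231)
                    · obtain ⟨e19, l19⟩ := (h1 e18).resolve_right k366
                      have c19 : Core e0 e19 := CJ k366 l19
                      have k369 : e0 ≤ e19 := L1 l19
                      have k370 : e18 ≤ e19 := L2 l19
                      have k374 : e9 ≤ e19 := le_trans k89 k369
                      have k375 : e13 ≤ e19 := le_trans k177 k369
                      have k377 : e10 ≤ e19 := le_trans k337 k370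
                      have k396 : e14 ≤ e19 := L3 l14 k369 k377
                      have k397 : e17 ≤ e19 := L3 l17 k375 k377
                      by_cases k398 : e19 ≤ e14
                      · have k401 : e18 ≤ e14 := le_trans k370 k398
                        obtain ⟨e20, l20⟩ := ZE h2 k343 k366 g16
                        have c20 : Core e0 e20 := CZ g16 k366 l20
                        have k413 : e16 ≤ e20 := L1 l20
                        have k414 : e18 ≤ e20 := L2 l20
                        have k416 : e20 ≤ e5 := L3 l20 k277 k340
                        have k417 : e20 ≤ e14 := L3 l20 k276 k401
                        have k421 : e6 ≤ e20 := le_trans k269 k413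
                        have k424 : e10 ≤ e20 := le_trans k337 k414
                        have k425 : ¬ e0 ≤ e20 := N2 k34 k416
                        have k427 : ¬ e14 ≤ e20 := N1 k425 k208
                        have k449 : e11 ≤ e20 := L3 l11 k421 k424
                        have k451 : e20 ≤ e11 := Classical.byContradiction fun hn => HL _ _ _ _ _ _ c9 c16 c11 c20 c14 c4 (LT k270 k285) (LT k298 k293) (LT k449 hn) (LT k417 k427) (LT k210 k231)
                        have k456 : e18 ≤ e11 := le_trans k414 k451
                        obtain ⟨e21, l21⟩ := ZE h2 k342 k366 g13
                        have c21 : Core e0 e21 := CZ g13 k366 l21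
                        have k459 : e13 ≤ e21 := L1 l21
                        have k460 : e18 ≤ e21 := L2 l21
                        have k465 : e21 ≤ e8 := L3 l21 k184 k341
                        have k466 : e21 ≤ e11 := L3 l21 k203 k456
                        have k473 : e10 ≤ e21 := le_trans k337 k460
                        have k481 : ¬ e2 ≤ e21 := N2 k83 k465
                        have k484 : ¬ e11 ≤ e21 := N1 k481 k137
                        have k499 : ¬ e21 ≤ e17 := N1 k339 k460
                        have k501 : e17 ≤ e21 := L3 l17 k459 k473
                        exact HL _ _ _ _ _ _ c9 c17 c21 c11 c14 c4 (LT k312 k332) (LT k501 k499) (LT k466 k484) (LT k230 k225) (LT k210 k231)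
                      · have k399 : ¬ e18 ≤ e14 := L4 l19 k208 k398
                        have k400 : ¬ e18 ≤ e11 := N2 k399 k230
                        obtain ⟨e20, q20⟩ : ∃ y, f e19 = y := ⟨_, rfl⟩
                        have k402 : e1 ≤ e20 := MO hf q1 q20 k369
                        have k404 : e10 ≤ e20 := MO hf q10 q20 k374
                        have k407 : e18 ≤ e20 := MO hf q18 q20 k397
                        have k408 : ¬ e19 ≤ e20 := FA hF q20
                        have k409 : ¬ e20 ≤ e19 := FB hG q20
                        have k410 : ¬ e0 ≤ e20 := L5 l19 k407 k408
                        have k411 : e2 ≤ e20 := le_trans k7 k402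
                        have k412 : e6 ≤ e20 := le_trans k54 k402
                        have k414 : e9 ≤ e20 := le_trans k105 k402
                        have k416 : e13 ≤ e20 := le_trans k200 k402
                        have k417 : e16 ≤ e20 := le_trans k295 k402
                        by_cases k435 : ∃ z, IsGLB ({e0, e20} : Set P) z
                        · obtain ⟨e21, g21⟩ := k435
                          have c21 : Core e0 e21 := CM g21
                          obtain ⟨e22, l22⟩ := ZE h2 k404 k128 g21
                          have c22 : Core e0 e22 := CZ g21 k128 l22
                          have k440 : e21 ≤ e0 := G1 g21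
                          have k441 : e21 ≤ e20 := G2 g21
                          have k442 : e2 ≤ e21 := G3 g21 k6 k411
                          have k443 : e6 ≤ e21 := G3 g21 k42 k412
                          have k444 : e9 ≤ e21 := G3 g21 k89 k414
                          have k445 : e13 ≤ e21 := G3 g21 k177 k416
                          have k446 : e16 ≤ e21 := G3 g21 k266 k417
                          have k451 : e21 ≤ e22 := L1 l22
                          have k452 : e10 ≤ e22 := L2 l22
                          have k454 : e21 ≤ e4 := le_trans k440 k21
                          have k455 : e21 ≤ e14 := le_trans k440 k208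
                          have k456 : e21 ≤ e19 := le_trans k440 k369
                          have k461 : e16 ≤ e22 := le_trans k446 k451
                          have k462 : ¬ e0 ≤ e21 := N2 k410 k441
                          have k495 : ¬ e22 ≤ e16 := N1 k292 k452
                          have k504 : e22 ≤ e14 := L3 l22 k455 k209
                          have k510 : ¬ e3 ≤ e22 := N2 k232 k504
                          have k511 : ¬ e7 ≤ e22 := N1 k510 k58
                          have k514 : ¬ e18 ≤ e22 := N2 k399 k504
                          have k515 : e21 ≤ e2 := Classical.byContradiction fun hn => HL _ _ _ _ _ _ c9 c2 c21 c0 c14 c4 (LT k106 k99) (LT k442 hn) (LT k440 k462) (LT k208 k229) (LT k210 k231)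
                          have k517 : e21 ≤ e5 := le_trans k515 k35
                          have k519 : e21 ≤ e7 := le_trans k515 k62
                          have k522 : e21 ≤ e16 := le_trans k515 k268
                          have k525 : e22 ≤ e7 := L3 l22 k519 k117
                          obtain ⟨e23, l23⟩ := ZE h2 k407 k366 g21
                          have c23 : Core e0 e23 := CZ g21 k366 l23
                          have k530 : e21 ≤ e23 := L1 l23
                          have k531 : e18 ≤ e23 := L2 l23
                          have k532 : e23 ≤ e5 := L3 l23 k517 k340
                          have k534 : e23 ≤ e19 := L3 l23 k456 k370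
                          have k536 : e10 ≤ e23 := le_trans k337 k531
                          have k537 : e2 ≤ e23 := le_trans k442 k530
                          have k538 : e6 ≤ e23 := le_trans k443 k530
                          have k539 : e9 ≤ e23 := le_trans k444 k530
                          have k540 : e13 ≤ e23 := le_trans k445 k530
                          have k542 : ¬ e0 ≤ e23 := N2 k34 k532
                          have k545 : ¬ e19 ≤ e23 := N1 k542 k369
                          have k559 : ¬ e23 ≤ e11 := N1 k400 k531
                          have k561 : ¬ e23 ≤ e22 := N1 k514 k531
                          have k564 : e11 ≤ e23 := L3 l11 k538 k536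
                          have k565 : e17 ≤ e23 := L3 l17 k540 k536
                          have k566 : e22 ≤ e23 := L3 l22 k530 k536
                          obtain ⟨e24, q24⟩ : ∃ y, f e23 = y := ⟨_, rfl⟩
                          have k568 : e3 ≤ e24 := MO hf q3 q24 k537
                          have k569 : e10 ≤ e24 := MO hf q10 q24 k539
                          have k570 : e12 ≤ e24 := MO hf q12 q24 k564
                          have k571 : e18 ≤ e24 := MO hf q18 q24 k565
                          have k572 : ¬ e23 ≤ e24 := FA hF q24
                          have k573 : ¬ e24 ≤ e23 := FB hG q24
                          have k574 : e24 ≤ e20 := MO hf q24 q20 k534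
                          have k575 : ¬ e21 ≤ e24 := L5 l23 k571 k572
                          have k576 : e9 ≤ e24 := le_trans k205 k570
                          have k577 : e13 ≤ e24 := le_trans k178 k570
                          have k598 : ¬ e2 ≤ e24 := N1 k575 k515
                          by_cases k607 : ∃ z, IsGLB ({e0, e24} : Set P) z
                          · obtain ⟨e25, g25⟩ := k607
                            have c25 : Core e0 e25 := CM g25
                            obtain ⟨e26, l26⟩ := ZE h2 k569 k128 g25
                            have c26 : Core e0 e26 := CZ g25 k128 l26
                            have k612 : e25 ≤ e0 := G1 g25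
                            have k613 : e25 ≤ e24 := G2 g25
                            have k614 : e9 ≤ e25 := G3 g25 k89 k576
                            have k615 : e13 ≤ e25 := G3 g25 k177 k577
                            have k625 : e25 ≤ e19 := le_trans k612 k369
                            have k626 : e25 ≤ e20 := le_trans k613 k574
                            have k646 : ¬ e2 ≤ e25 := N2 k598 k613
                            have k651 : ¬ e16 ≤ e25 := N1 k646 k268
                            have k680 : e25 ≤ e21 := G3 g21 k612 k626
                            have k687 : e25 ≤ e2 := le_trans k680 k515
                            have k693 : e25 ≤ e16 := le_trans k680 k522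
                            have k695 : e25 ≤ e23 := le_trans k680 k530
                            have k708 : e25 ≤ e9 := Classical.byContradiction fun hn => HL _ _ _ _ _ _ c9 c25 c16 c11 c7 c4 (LT k614 hn) (LT k693 k651) (LT k298 k293) (LT k136 k151) (LT k60 k64)
                            obtain ⟨e27, l27⟩ := ZE h2 k571 k366 g25
                            have c27 : Core e0 e27 := CZ g25 k366 l27
                            have k718 : e25 ≤ e27 := L1 l27
                            have k719 : e18 ≤ e27 := L2 l27
                            have k724 : e27 ≤ e19 := L3 l27 k625 k370
                            have k726 : e27 ≤ e23 := L3 l27 k695 k531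
                            have k728 : e10 ≤ e27 := le_trans k337 k719
                            have k730 : e13 ≤ e27 := le_trans k615 k718
                            have k760 : ¬ e27 ≤ e17 := N1 k339 k719
                            have k765 : e17 ≤ e27 := L3 l17 k730 k728
                            obtain ⟨e28, q28⟩ : ∃ y, f e27 = y := ⟨_, rfl⟩
                            have k769 : e18 ≤ e28 := MO hf q18 q28 k765
                            have k770 : ¬ e27 ≤ e28 := FA hF q28
                            have k771 : ¬ e28 ≤ e27 := FB hG q28
                            have k772 : e28 ≤ e20 := MO hf q28 q20 k724
                            have k773 : e28 ≤ e24 := MO hf q28 q24 k726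
                            have k774 : ¬ e25 ≤ e28 := L5 l27 k769 k770
                            have k806 : ¬ e9 ≤ e28 := N1 k774 k708
                            by_cases k813 : ∃ z, IsGLB ({e0, e28} : Set P) z
                            · obtain ⟨e29, g29⟩ := k813
                              have c29 : Core e0 e29 := CM g29
                              have k816 : e29 ≤ e0 := G1 g29
                              have k817 : e29 ≤ e28 := G2 g29
                              have k825 : e29 ≤ e24 := le_trans k817 k773
                              have k846 : ¬ e9 ≤ e29 := N2 k806 k817
                              have k849 : ¬ e25 ≤ e29 := N1 k846 k614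
                              have k856 : e29 ≤ e25 := G3 g25 k816 k825
                              exact HL _ _ _ _ _ _ c29 c25 c2 c0 c14 c4 (LT k856 k849) (LT k687 k646) (LT k6 k9) (LT k208 k229) (LT k210 k231)
                            · obtain ⟨e29, l29⟩ := (h1 e28).resolve_right k813
                              have c29 : Core e0 e29 := CJ k813 l29
                              have k816 : e0 ≤ e29 := L1 l29
                              have k817 : e28 ≤ e29 := L2 l29
                              have k827 : e18 ≤ e29 := le_trans k769 k817
                              have k858 : e19 ≤ e29 := L3 l19 k816 k827
                              have k863 : e29 ≤ e19 := Classical.byContradiction fun hn => HL _ _ _ _ _ _ c9 c16 c22 c23 c19 c29 (LT k270 k285) (LT k461 k495) (LT k566 k561) (LT k534 k545) (LT k858 hn)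
                              have k864 : e28 ≤ e19 := le_trans k817 k863
                              obtain ⟨e30, l30⟩ := ZE h2 k772 k813 g21
                              have c30 : Core e0 e30 := CZ g21 k813 l30
                              have k868 : e21 ≤ e30 := L1 l30
                              have k869 : e28 ≤ e30 := L2 l30
                              have k870 : e30 ≤ e19 := L3 l30 k456 k864
                              have k871 : e30 ≤ e20 := L3 l30 k441 k772
                              have k880 : e18 ≤ e30 := le_trans k769 k869
                              have k881 : ¬ e0 ≤ e30 := N2 k410 k871
                              have k884 : ¬ e19 ≤ e30 := N1 k881 k369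
                              have k912 : e23 ≤ e30 := L3 l23 k868 k880
                              have k915 : e30 ≤ e23 := Classical.byContradiction fun hn => HL _ _ _ _ _ _ c9 c16 c22 c23 c30 c19 (LT k270 k285) (LT k461 k495) (LT k566 k561) (LT k912 hn) (LT k870 k884)
                              have k920 : e28 ≤ e23 := le_trans k869 k915
                              obtain ⟨e31, l31⟩ := ZE h2 k773 k813 g25
                              have c31 : Core e0 e31 := CZ g25 k813 l31
                              have k924 : e25 ≤ e31 := L1 l31
                              have k925 : e28 ≤ e31 := L2 l31
                              have k930 : e31 ≤ e23 := L3 l31 k695 k920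
                              have k931 : e31 ≤ e24 := L3 l31 k613 k773
                              have k937 : e18 ≤ e31 := le_trans k769 k925
                              have k947 : ¬ e2 ≤ e31 := N2 k598 k931
                              have k954 : ¬ e23 ≤ e31 := N1 k947 k537
                              have k974 : ¬ e31 ≤ e27 := N1 k771 k925
                              have k978 : e27 ≤ e31 := L3 l27 k924 k937
                              exact HL _ _ _ _ _ _ c9 c17 c27 c31 c23 c19 (LT k312 k332) (LT k765 k760) (LT k978 k974) (LT k930 k954) (LT k534 k545)
                          · obtain ⟨e25, l25⟩ := (h1 e24).resolve_right k607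
                            have c25 : Core e0 e25 := CJ k607 l25
                            have k610 : e0 ≤ e25 := L1 l25
                            have k611 : e24 ≤ e25 := L2 l25
                            have k618 : e21 ≤ e25 := le_trans k440 k610
                            have k619 : e3 ≤ e25 := le_trans k568 k611
                            have k623 : e18 ≤ e25 := le_trans k571 k611
                            have k647 : e4 ≤ e25 := L3 l4 k610 k619
                            have k653 : e23 ≤ e25 := L3 l23 k618 k623
                            have k654 : e25 ≤ e4 := Classical.byContradiction fun hn => HL _ _ _ _ _ _ c9 c16 c22 c7 c4 c25 (LT k270 k285) (LT k461 k495) (LT k525 k511) (LT k60 k64) (LT k647 hn)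
                            have k658 : e23 ≤ e4 := le_trans k653 k654
                            have k659 : e24 ≤ e4 := le_trans k611 k654
                            have k664 : e24 ≤ e5 := MO hf q24 q5 k658
                            obtain ⟨e26, l26⟩ := ZE h2 k574 k607 g21
                            have c26 : Core e0 e26 := CZ g21 k607 l26
                            have k678 : e21 ≤ e26 := L1 l26
                            have k679 : e24 ≤ e26 := L2 l26
                            have k680 : e26 ≤ e4 := L3 l26 k454 k659
                            have k681 : e26 ≤ e5 := L3 l26 k517 k664
                            have k694 : e18 ≤ e26 := le_trans k571 k679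
                            have k695 : ¬ e0 ≤ e26 := N2 k34 k681
                            have k696 : ¬ e4 ≤ e26 := N1 k695 k21
                            have k719 : ¬ e26 ≤ e23 := N1 k573 k679
                            have k724 : e23 ≤ e26 := L3 l23 k678 k694
                            exact HL _ _ _ _ _ _ c9 c2 c11 c23 c26 c4 (LT k106 k99) (LT k137 k148) (LT k564 k559) (LT k724 k719) (LT k680 k696)
                        · obtain ⟨e21, l21⟩ := (h1 e20).resolve_right k435
                          have c21 : Core e0 e21 := CJ k435 l21
                          have k438 : e0 ≤ e21 := L1 l21
                          have k439 : e20 ≤ e21 := L2 l21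
                          have k454 : e18 ≤ e21 := le_trans k407 k439
                          have k474 : ¬ e21 ≤ e19 := N1 k409 k439
                          have k477 : e19 ≤ e21 := L3 l19 k438 k454
                          exact HL _ _ _ _ _ _ c9 c16 c0 c14 c19 c21 (LT k270 k285) (LT k266 k278) (LT k208 k229) (LT k396 k398) (LT k477 k474)
                · have k175 : ¬ e9 ≤ e12 := BN3 g9 k174 k161
                  obtain ⟨e13, l13⟩ := (h1 e12).resolve_right k174
                  have c13 : Core e0 e13 := CJ k174 l13
                  have k179 : e0 ≤ e13 := L1 l13
                  have k180 : e12 ≤ e13 := L2 l13
                  have k185 : e3 ≤ e13 := le_trans k156 k180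
                  have k199 : e4 ≤ e13 := L3 l4 k179 k185
                  have k202 : e13 ≤ e4 := Classical.byContradiction fun hn => HL _ _ _ _ _ _ c9 c2 c11 c7 c4 c13 (LT k106 k99) (LT k137 k148) (LT k136 k151) (LT k60 k64) (LT k199 hn)
                  have k203 : e12 ≤ e4 := le_trans k180 k202
                  obtain ⟨e14, l14⟩ := ZE h2 k160 k174 g6
                  have c14 : Core e0 e14 := CZ g6 k174 l14
                  have k207 : e6 ≤ e14 := L1 l14
                  have k208 : e12 ≤ e14 := L2 l14
                  have k209 : e14 ≤ e4 := L3 l14 k47 k203
                  have k210 : e14 ≤ e5 := L3 l14 k43 k160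
                  have k214 : e3 ≤ e14 := le_trans k156 k208
                  have k215 : e10 ≤ e14 := le_trans k157 k208
                  have k216 : ¬ e0 ≤ e14 := N2 k34 k210
                  have k217 : ¬ e4 ≤ e14 := N1 k216 k21
                  have k227 : ¬ e14 ≤ e11 := N1 k153 k214
                  have k230 : e7 ≤ e14 := L3 l7 k207 k214
                  have k231 : e11 ≤ e14 := L3 l11 k207 k215
                  have k232 : e14 ≤ e7 := Classical.byContradiction fun hn => HL _ _ _ _ _ _ c9 c2 c11 c7 c14 c4 (LT k106 k99) (LT k137 k148) (LT k136 k151) (LT k230 hn) (LT k209 k217)
                  have k235 : e12 ≤ e7 := le_trans k208 k232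
                  obtain ⟨e15, l15⟩ := ZE h2 k114 k128 g9
                  have c15 : Core e0 e15 := CZ g9 k128 l15
                  have k239 : e9 ≤ e15 := L1 l15
                  have k240 : e10 ≤ e15 := L2 l15
                  have k242 : e15 ≤ e4 := L3 l15 k93 k116
                  have k244 : e15 ≤ e7 := L3 l15 k107 k117
                  have k245 : e15 ≤ e8 := L3 l15 k90 k114
                  have k246 : e15 ≤ e11 := L3 l15 k138 k132
                  have k254 : ¬ e2 ≤ e15 := N2 k83 k245
                  have k257 : ¬ e11 ≤ e15 := N1 k254 k137
                  have k268 : ¬ e15 ≤ e9 := N1 k110 k240
                  obtain ⟨e16, q16⟩ : ∃ y, f e15 = y := ⟨_, rfl⟩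
                  have k271 : e10 ≤ e16 := MO hf q10 q16 k239
                  have k273 : ¬ e16 ≤ e15 := FB hG q16
                  have k274 : e16 ≤ e5 := MO hf q16 q5 k242
                  have k275 : e16 ≤ e8 := MO hf q16 q8 k244
                  have k276 : e16 ≤ e12 := MO hf q16 q12 k246
                  have k279 : e16 ≤ e4 := le_trans k276 k203
                  have k280 : e16 ≤ e7 := le_trans k276 k235
                  by_cases k299 : ∃ z, IsGLB ({e0, e16} : Set P) z
                  · obtain ⟨e17, g17⟩ := k299
                    have c17 : Core e0 e17 := CM g17
                    have k302 : e17 ≤ e0 := G1 g17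
                    have k303 : e17 ≤ e16 := G2 g17
                    have k311 : e17 ≤ e8 := le_trans k303 k275
                    have k312 : e17 ≤ e12 := le_trans k303 k276
                    have k327 : ¬ e9 ≤ e17 := N2 k175 k312
                    have k333 : e17 ≤ e9 := G3 g9 k302 k311
                    exact HL _ _ _ _ _ _ c17 c9 c2 c11 c7 c4 (LT k333 k327) (LT k106 k99) (LT k137 k148) (LT k136 k151) (LT k60 k64)
                  · obtain ⟨e17, l17⟩ := ZE h2 k274 k299 g6
                    have c17 : Core e0 e17 := CZ g6 k299 l17
                    have k302 : e6 ≤ e17 := L1 l17
                    have k303 : e16 ≤ e17 := L2 l17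
                    have k307 : e17 ≤ e7 := L3 l17 k57 k280
                    have k312 : e10 ≤ e17 := le_trans k271 k303
                    have k329 : e11 ≤ e17 := L3 l11 k302 k312
                    by_cases k331 : e17 ≤ e11
                    · have k332 : e16 ≤ e11 := le_trans k303 k331
                      obtain ⟨e18, l18⟩ := ZE h2 k275 k299 g9
                      have c18 : Core e0 e18 := CZ g9 k299 l18
                      have k342 : e9 ≤ e18 := L1 l18
                      have k343 : e16 ≤ e18 := L2 l18
                      have k348 : e18 ≤ e8 := L3 l18 k90 k275
                      have k349 : e18 ≤ e11 := L3 l18 k138 k332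
                      have k353 : e10 ≤ e18 := le_trans k271 k343
                      have k359 : ¬ e2 ≤ e18 := N2 k83 k348
                      have k362 : ¬ e11 ≤ e18 := N1 k359 k137
                      have k376 : ¬ e18 ≤ e15 := N1 k273 k343
                      have k378 : e15 ≤ e18 := L3 l15 k342 k353
                      exact HL _ _ _ _ _ _ c9 c15 c18 c11 c14 c4 (LT k239 k268) (LT k378 k376) (LT k349 k362) (LT k231 k227) (LT k209 k217)
                    · have k333 : e7 ≤ e17 := Classical.byContradiction fun hn => HL _ _ _ _ _ _ c9 c15 c11 c17 c7 c4 (LT k239 k268) (LT k246 k257) (LT k329 k331) (LT k307 hn) (LT k60 k64)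
                      have k334 : e3 ≤ e17 := le_trans k58 k333
                      obtain ⟨e18, l18⟩ := ZE h2 k275 k299 g9
                      have c18 : Core e0 e18 := CZ g9 k299 l18
                      have k339 : e9 ≤ e18 := L1 l18
                      have k340 : e16 ≤ e18 := L2 l18
                      have k342 : e18 ≤ e4 := L3 l18 k93 k279
                      have k344 : e18 ≤ e7 := L3 l18 k107 k280
                      have k345 : e18 ≤ e8 := L3 l18 k90 k275
                      have k349 : e10 ≤ e18 := le_trans k271 k340
                      have k355 : ¬ e2 ≤ e18 := N2 k83 k345
                      have k357 : ¬ e7 ≤ e18 := N1 k355 k62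
                      have k371 : ¬ e18 ≤ e15 := N1 k273 k340
                      have k373 : e15 ≤ e18 := L3 l15 k339 k349
                      obtain ⟨e19, q19⟩ : ∃ y, f e18 = y := ⟨_, rfl⟩
                      have k376 : e16 ≤ e19 := MO hf q16 q19 k373
                      have k377 : ¬ e18 ≤ e19 := FA hF q19
                      have k378 : ¬ e19 ≤ e18 := FB hG q19
                      have k379 : e19 ≤ e5 := MO hf q19 q5 k342
                      have k380 : e19 ≤ e8 := MO hf q19 q8 k344
                      have k381 : ¬ e9 ≤ e19 := L5 l18 k376 k377
                      by_cases k403 : ∃ z, IsGLB ({e0, e19} : Set P) z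
                      · obtain ⟨e20, g20⟩ := k403
                        have c20 : Core e0 e20 := CM g20
                        have k406 : e20 ≤ e0 := G1 g20
                        have k407 : e20 ≤ e19 := G2 g20
                        have k414 : e20 ≤ e8 := le_trans k407 k380
                        have k429 : ¬ e9 ≤ e20 := N2 k381 k407
                        have k436 : e20 ≤ e9 := G3 g9 k406 k414
                        exact HL _ _ _ _ _ _ c20 c9 c2 c11 c7 c4 (LT k436 k429) (LT k106 k99) (LT k137 k148) (LT k136 k151) (LT k60 k64)
                      · obtain ⟨e20, l20⟩ := (h1 e19).resolve_right k403
                        have c20 : Core e0 e20 := CJ k403 l20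
                        have k406 : e0 ≤ e20 := L1 l20
                        have k407 : e19 ≤ e20 := L2 l20
                        have k410 : e6 ≤ e20 := le_trans k42 k406
                        have k413 : e16 ≤ e20 := le_trans k376 k407
                        have k434 : e17 ≤ e20 := L3 l17 k410 k413
                        have k436 : e3 ≤ e20 := le_trans k334 k434
                        have k440 : e4 ≤ e20 := L3 l4 k406 k436
                        have k442 : e20 ≤ e4 := Classical.byContradiction fun hn => HL _ _ _ _ _ _ c9 c15 c18 c7 c4 c20 (LT k239 k268) (LT k373 k371) (LT k344 k357) (LT k60 k64) (LT k440 hn)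
                        have k444 : e19 ≤ e4 := le_trans k407 k442
                        obtain ⟨e21, l21⟩ := ZE h2 k379 k403 g6
                        have c21 : Core e0 e21 := CZ g6 k403 l21
                        have k449 : e6 ≤ e21 := L1 l21
                        have k450 : e19 ≤ e21 := L2 l21
                        have k451 : e21 ≤ e4 := L3 l21 k47 k444
                        have k452 : e21 ≤ e5 := L3 l21 k43 k379
                        have k458 : e16 ≤ e21 := le_trans k376 k450
                        have k459 : ¬ e0 ≤ e21 := N2 k34 k452
                        have k460 : ¬ e4 ≤ e21 := N1 k459 k21
                        have k480 : e17 ≤ e21 := L3 l17 k449 k458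
                        have k483 : e7 ≤ e21 := le_trans k333 k480
                        have k486 : e21 ≤ e7 := Classical.byContradiction fun hn => HL _ _ _ _ _ _ c9 c15 c18 c7 c21 c4 (LT k239 k268) (LT k373 k371) (LT k344 k357) (LT k483 hn) (LT k451 k460)
                        have k491 : e19 ≤ e7 := le_trans k450 k486
                        obtain ⟨e22, l22⟩ := ZE h2 k380 k403 g9
                        have c22 : Core e0 e22 := CZ g9 k403 l22
                        have k497 : e9 ≤ e22 := L1 l22
                        have k498 : e19 ≤ e22 := L2 l22
                        have k502 : e22 ≤ e7 := L3 l22 k107 k491
                        have k503 : e22 ≤ e8 := L3 l22 k90 k380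
                        have k510 : e16 ≤ e22 := le_trans k376 k498
                        have k517 : ¬ e2 ≤ e22 := N2 k83 k503
                        have k519 : ¬ e7 ≤ e22 := N1 k517 k62
                        have k536 : ¬ e22 ≤ e18 := N1 k378 k498
                        have k539 : e18 ≤ e22 := L3 l18 k497 k510
                        exact HL _ _ _ _ _ _ c9 c15 c18 c22 c7 c4 (LT k239 k268) (LT k373 k371) (LT k539 k536) (LT k502 k519) (LT k60 k64)
          · obtain ⟨e9, l9⟩ := (h1 e8).resolve_right k86
            have c9 : Core e0 e9 := CJ k86 l9
            have k89 : e0 ≤ e9 := L1 l9
            have k90 : e8 ≤ e9 := L2 l9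
            have k92 : e2 ≤ e9 := le_trans k6 k89
            have k93 : e6 ≤ e9 := le_trans k42 k89
            have k94 : e3 ≤ e9 := le_trans k72 k90
            have k103 : e4 ≤ e9 := L3 l4 k89 k94
            have k104 : e7 ≤ e9 := L3 l7 k93 k94
            by_cases k105 : e9 ≤ e4
            · have k106 : e8 ≤ e4 := le_trans k90 k105
              obtain ⟨e10, l10⟩ := ZE h2 k75 k86 g6
              have c10 : Core e0 e10 := CZ g6 k86 l10
              have k110 : e6 ≤ e10 := L1 l10
              have k111 : e8 ≤ e10 := L2 l10
              have k112 : e10 ≤ e4 := L3 l10 k47 k106
              have k113 : e10 ≤ e5 := L3 l10 k43 k75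
              have k115 : e2 ≤ e10 := le_trans k44 k110
              have k116 : e3 ≤ e10 := le_trans k72 k111
              have k117 : ¬ e0 ≤ e10 := N2 k34 k113
              have k118 : ¬ e4 ≤ e10 := N1 k117 k21
              have k126 : ¬ e10 ≤ e7 := N1 k74 k111
              have k128 : e7 ≤ e10 := L3 l7 k110 k116
              obtain ⟨e11, q11⟩ : ∃ y, f e10 = y := ⟨_, rfl⟩
              have k130 : e3 ≤ e11 := MO hf q3 q11 k115
              have k131 : e8 ≤ e11 := MO hf q8 q11 k128
              have k132 : ¬ e10 ≤ e11 := FA hF q11
              have k133 : ¬ e11 ≤ e10 := FB hG q11
              have k134 : e11 ≤ e5 := MO hf q11 q5 k112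
              have k135 : ¬ e6 ≤ e11 := L5 l10 k131 k132
              have k143 : ¬ e2 ≤ e11 := N1 k135 k53
              by_cases k149 : ∃ z, IsGLB ({e0, e11} : Set P) z
              · obtain ⟨e12, g12⟩ := k149
                have c12 : Core e0 e12 := CM g12
                have k152 : e12 ≤ e0 := G1 g12
                have k153 : e12 ≤ e11 := G2 g12
                have k154 : ¬ e12 ≤ e3 := BN3 g12 k18 k130
                have k155 : ¬ e12 ≤ e8 := BN3 g12 k86 k131
                have k157 : e12 ≤ e4 := le_trans k152 k21
                have k159 : e12 ≤ e5 := le_trans k153 k134
                have k165 : ¬ e2 ≤ e12 := N2 k143 k153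
                have k172 : e12 ≤ e6 := G3 g6 k152 k159
                have k174 : e12 ≤ e2 := le_trans k172 k53
                have k175 : e12 ≤ e7 := le_trans k172 k57
                have k176 : e12 ≤ e10 := le_trans k172 k110
                obtain ⟨e13, q13⟩ : ∃ y, f e12 = y := ⟨_, rfl⟩
                have k179 : ¬ e13 ≤ e12 := FB hG q13
                have k181 : e13 ≤ e3 := MO hf q13 q3 k174
                have k182 : e13 ≤ e5 := MO hf q13 q5 k157
                have k184 : e13 ≤ e11 := MO hf q13 q11 k176
                have k185 : ¬ e13 ≤ e0 := G5 g12 k184 k179
                have k186 : e13 ≤ e4 := le_trans k181 k22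
                have k187 : e13 ≤ e7 := le_trans k181 k58
                have k189 : e13 ≤ e10 := le_trans k181 k116
                have k201 : ¬ e13 ≤ e2 := N2 k185 k6
                by_cases k203 : ∃ z, IsGLB ({e0, e13} : Set P) z
                · obtain ⟨e14, g14⟩ := k203
                  have c14 : Core e0 e14 := CM g14
                  have k206 : e14 ≤ e0 := G1 g14
                  have k207 : e14 ≤ e13 := G2 g14
                  have k212 : e14 ≤ e3 := le_trans k207 k181
                  have k217 : e14 ≤ e11 := le_trans k207 k184
                  have k230 : ¬ e12 ≤ e14 := N2 k154 k212
                  have k234 : e14 ≤ e12 := G3 g12 k206 k217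
                  exact HL _ _ _ _ _ _ c14 c12 c2 c7 c10 c4 (LT k234 k230) (LT k174 k165) (LT k62 k67) (LT k128 k126) (LT k112 k118)
                · obtain ⟨e14, l14⟩ := ZE h2 k182 k203 g6
                  have c14 : Core e0 e14 := CZ g6 k203 l14
                  have k206 : e6 ≤ e14 := L1 l14
                  have k207 : e13 ≤ e14 := L2 l14
                  have k211 : e14 ≤ e7 := L3 l14 k57 k187
                  have k213 : e14 ≤ e10 := L3 l14 k110 k189
                  have k214 : e2 ≤ e14 := le_trans k44 k206
                  have k225 : ¬ e8 ≤ e14 := N2 k74 k211
                  have k226 : ¬ e10 ≤ e14 := N1 k225 k111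
                  have k229 : ¬ e14 ≤ e2 := N1 k201 k207
                  have k232 : e7 ≤ e14 := Classical.byContradiction fun hn => HL _ _ _ _ _ _ c12 c2 c14 c7 c10 c4 (LT k174 k165) (LT k214 k229) (LT k211 hn) (LT k128 k126) (LT k112 k118)
                  have k233 : e3 ≤ e14 := le_trans k58 k232
                  obtain ⟨e15, l15⟩ := ZE h2 k184 k203 g12
                  have c15 : Core e0 e15 := CZ g12 k203 l15
                  have k236 : e12 ≤ e15 := L1 l15
                  have k237 : e13 ≤ e15 := L2 l15
                  have k239 : e15 ≤ e4 := L3 l15 k157 k186
                  have k241 : e15 ≤ e7 := L3 l15 k175 k187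
                  have k243 : e15 ≤ e10 := L3 l15 k176 k189
                  have k244 : e15 ≤ e11 := L3 l15 k153 k184
                  have k251 : ¬ e2 ≤ e15 := N2 k143 k244
                  have k253 : ¬ e7 ≤ e15 := N1 k251 k62
                  have k264 : ¬ e15 ≤ e12 := N1 k179 k237
                  obtain ⟨e16, q16⟩ : ∃ y, f e15 = y := ⟨_, rfl⟩
                  have k267 : e13 ≤ e16 := MO hf q13 q16 k236
                  have k269 : ¬ e16 ≤ e15 := FB hG q16
                  have k270 : e16 ≤ e5 := MO hf q16 q5 k239
                  have k271 : e16 ≤ e8 := MO hf q16 q8 k241
                  have k272 : e16 ≤ e11 := MO hf q16 q11 k243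
                  have k274 : e16 ≤ e4 := le_trans k271 k106
                  have k276 : e16 ≤ e10 := le_trans k271 k111
                  by_cases k293 : ∃ z, IsGLB ({e0, e16} : Set P) z
                  · obtain ⟨e17, g17⟩ := k293
                    have c17 : Core e0 e17 := CM g17
                    have k296 : e17 ≤ e0 := G1 g17
                    have k297 : e17 ≤ e16 := G2 g17
                    have k303 : e17 ≤ e8 := le_trans k297 k271
                    have k305 : e17 ≤ e11 := le_trans k297 k272
                    have k319 : ¬ e12 ≤ e17 := N2 k155 k303
                    have k324 : e17 ≤ e12 := G3 g12 k296 k305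
                    exact HL _ _ _ _ _ _ c17 c12 c2 c14 c10 c4 (LT k324 k319) (LT k174 k165) (LT k214 k229) (LT k213 k226) (LT k112 k118)
                  · obtain ⟨e17, l17⟩ := ZE h2 k270 k293 g6
                    have c17 : Core e0 e17 := CZ g6 k293 l17
                    have k296 : e6 ≤ e17 := L1 l17
                    have k297 : e16 ≤ e17 := L2 l17
                    have k301 : e17 ≤ e10 := L3 l17 k110 k276
                    have k304 : e13 ≤ e17 := le_trans k267 k297
                    have k321 : e14 ≤ e17 := L3 l14 k296 k304
                    have k324 : e7 ≤ e17 := le_trans k232 k321
                    by_cases k325 : e17 ≤ e7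
                    · have k329 : e16 ≤ e7 := le_trans k297 k325
                      obtain ⟨e18, l18⟩ := ZE h2 k272 k293 g12
                      have c18 : Core e0 e18 := CZ g12 k293 l18
                      have k336 : e12 ≤ e18 := L1 l18
                      have k337 : e16 ≤ e18 := L2 l18
                      have k341 : e18 ≤ e7 := L3 l18 k175 k329
                      have k344 : e18 ≤ e11 := L3 l18 k153 k272
                      have k347 : e13 ≤ e18 := le_trans k267 k337
                      have k353 : ¬ e2 ≤ e18 := N2 k143 k344
                      have k355 : ¬ e7 ≤ e18 := N1 k353 k62
                      have k369 : ¬ e18 ≤ e15 := N1 k269 k337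
                      have k371 : e15 ≤ e18 := L3 l15 k336 k347
                      exact HL _ _ _ _ _ _ c12 c15 c18 c7 c10 c4 (LT k236 k264) (LT k371 k369) (LT k341 k355) (LT k128 k126) (LT k112 k118)
                    · have k330 : e10 ≤ e17 := Classical.byContradiction fun hn => HL _ _ _ _ _ _ c12 c15 c7 c17 c10 c4 (LT k236 k264) (LT k241 k253) (LT k324 k325) (LT k301 hn) (LT k112 k118)
                      obtain ⟨e18, l18⟩ := ZE h2 k272 k293 g12
                      have c18 : Core e0 e18 := CZ g12 k293 l18
                      have k334 : e12 ≤ e18 := L1 l18
                      have k335 : e16 ≤ e18 := L2 l18
                      have k336 : e18 ≤ e4 := L3 l18 k157 k274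
                      have k339 : e18 ≤ e10 := L3 l18 k176 k276
                      have k340 : e18 ≤ e11 := L3 l18 k153 k272
                      have k342 : e13 ≤ e18 := le_trans k267 k335
                      have k348 : ¬ e2 ≤ e18 := N2 k143 k340
                      have k351 : ¬ e10 ≤ e18 := N1 k348 k115
                      have k365 : ¬ e18 ≤ e15 := N1 k269 k335
                      have k367 : e15 ≤ e18 := L3 l15 k334 k342
                      obtain ⟨e19, q19⟩ : ∃ y, f e18 = y := ⟨_, rfl⟩
                      have k369 : e13 ≤ e19 := MO hf q13 q19 k334
                      have k370 : e16 ≤ e19 := MO hf q16 q19 k367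
                      have k371 : ¬ e18 ≤ e19 := FA hF q19
                      have k372 : ¬ e19 ≤ e18 := FB hG q19
                      have k373 : e19 ≤ e5 := MO hf q19 q5 k336
                      have k374 : e19 ≤ e11 := MO hf q19 q11 k339
                      have k375 : ¬ e12 ≤ e19 := L5 l18 k370 k371
                      by_cases k399 : ∃ z, IsGLB ({e0, e19} : Set P) z
                      · obtain ⟨e20, g20⟩ := k399
                        have c20 : Core e0 e20 := CM g20
                        have k402 : e20 ≤ e0 := G1 g20
                        have k403 : e20 ≤ e19 := G2 g20
                        have k410 : e20 ≤ e11 := le_trans k403 k374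
                        have k425 : ¬ e12 ≤ e20 := N2 k375 k403
                        have k432 : e20 ≤ e12 := G3 g12 k402 k410
                        exact HL _ _ _ _ _ _ c20 c12 c2 c14 c10 c4 (LT k432 k425) (LT k174 k165) (LT k214 k229) (LT k213 k226) (LT k112 k118)
                      · obtain ⟨e20, l20⟩ := (h1 e19).resolve_right k399
                        have c20 : Core e0 e20 := CJ k399 l20
                        have k402 : e0 ≤ e20 := L1 l20
                        have k403 : e19 ≤ e20 := L2 l20
                        have k406 : e6 ≤ e20 := le_trans k42 k402
                        have k408 : e13 ≤ e20 := le_trans k369 k403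
                        have k428 : e14 ≤ e20 := L3 l14 k406 k408
                        have k432 : e3 ≤ e20 := le_trans k233 k428
                        have k436 : e4 ≤ e20 := L3 l4 k402 k432
                        have k438 : e20 ≤ e4 := Classical.byContradiction fun hn => HL _ _ _ _ _ _ c12 c15 c18 c10 c4 c20 (LT k236 k264) (LT k367 k365) (LT k339 k351) (LT k112 k118) (LT k436 hn)
                        have k440 : e19 ≤ e4 := le_trans k403 k438
                        obtain ⟨e21, l21⟩ := ZE h2 k373 k399 g6
                        have c21 : Core e0 e21 := CZ g6 k399 l21
                        have k445 : e6 ≤ e21 := L1 l21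
                        have k446 : e19 ≤ e21 := L2 l21
                        have k447 : e21 ≤ e4 := L3 l21 k47 k440
                        have k448 : e21 ≤ e5 := L3 l21 k43 k373
                        have k454 : e16 ≤ e21 := le_trans k370 k446
                        have k455 : ¬ e0 ≤ e21 := N2 k34 k448
                        have k456 : ¬ e4 ≤ e21 := N1 k455 k21
                        have k477 : e17 ≤ e21 := L3 l17 k445 k454
                        have k482 : e10 ≤ e21 := le_trans k330 k477
                        have k483 : e21 ≤ e10 := Classical.byContradiction fun hn => HL _ _ _ _ _ _ c12 c15 c18 c10 c21 c4 (LT k236 k264) (LT k367 k365) (LT k339 k351) (LT k482 hn) (LT k447 k456)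
                        have k485 : e19 ≤ e10 := le_trans k446 k483
                        obtain ⟨e22, l22⟩ := ZE h2 k374 k399 g12
                        have c22 : Core e0 e22 := CZ g12 k399 l22
                        have k490 : e12 ≤ e22 := L1 l22
                        have k491 : e19 ≤ e22 := L2 l22
                        have k495 : e22 ≤ e10 := L3 l22 k176 k485
                        have k496 : e22 ≤ e11 := L3 l22 k153 k374
                        have k501 : e16 ≤ e22 := le_trans k370 k491
                        have k508 : ¬ e2 ≤ e22 := N2 k143 k496
                        have k511 : ¬ e10 ≤ e22 := N1 k508 k115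
                        have k528 : ¬ e22 ≤ e18 := N1 k372 k491
                        have k531 : e18 ≤ e22 := L3 l18 k490 k501
                        exact HL _ _ _ _ _ _ c12 c15 c18 c22 c10 c4 (LT k236 k264) (LT k367 k365) (LT k531 k528) (LT k495 k511) (LT k112 k118)
              · obtain ⟨e12, l12⟩ := (h1 e11).resolve_right k149
                have c12 : Core e0 e12 := CJ k149 l12
                have k152 : e0 ≤ e12 := L1 l12
                have k153 : e11 ≤ e12 := L2 l12
                have k155 : e2 ≤ e12 := le_trans k6 k152
                have k156 : e6 ≤ e12 := le_trans k42 k152
                have k157 : e3 ≤ e12 := le_trans k130 k153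
                have k158 : e8 ≤ e12 := le_trans k131 k153
                have k169 : e4 ≤ e12 := L3 l4 k152 k157
                have k170 : e7 ≤ e12 := L3 l7 k156 k157
                have k172 : e10 ≤ e12 := L3 l10 k156 k158
                by_cases k173 : e12 ≤ e4
                · have k175 : e11 ≤ e4 := le_trans k153 k173
                  obtain ⟨e13, l13⟩ := ZE h2 k134 k149 g6
                  have c13 : Core e0 e13 := CZ g6 k149 l13
                  have k180 : e6 ≤ e13 := L1 l13
                  have k181 : e11 ≤ e13 := L2 l13
                  have k182 : e13 ≤ e4 := L3 l13 k47 k175
                  have k183 : e13 ≤ e5 := L3 l13 k43 k134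
                  have k186 : e2 ≤ e13 := le_trans k44 k180
                  have k188 : e8 ≤ e13 := le_trans k131 k181
                  have k189 : ¬ e0 ≤ e13 := N2 k34 k183
                  have k190 : ¬ e4 ≤ e13 := N1 k189 k21
                  have k201 : ¬ e13 ≤ e10 := N1 k133 k181
                  have k204 : e10 ≤ e13 := L3 l10 k180 k188
                  obtain ⟨e14, q14⟩ : ∃ y, f e13 = y := ⟨_, rfl⟩
                  have k206 : e3 ≤ e14 := MO hf q3 q14 k186
                  have k208 : e11 ≤ e14 := MO hf q11 q14 k204
                  have k209 : ¬ e13 ≤ e14 := FA hF q14
                  have k210 : ¬ e14 ≤ e13 := FB hG q14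
                  have k211 : e14 ≤ e5 := MO hf q14 q5 k182
                  have k212 : ¬ e6 ≤ e14 := L5 l13 k208 k209
                  have k221 : ¬ e2 ≤ e14 := N1 k212 k53
                  by_cases k230 : ∃ z, IsGLB ({e0, e14} : Set P) z
                  · obtain ⟨e15, g15⟩ := k230
                    have c15 : Core e0 e15 := CM g15
                    have k233 : e15 ≤ e0 := G1 g15
                    have k234 : e15 ≤ e14 := G2 g15
                    have k242 : e15 ≤ e5 := le_trans k234 k211
                    have k249 : ¬ e2 ≤ e15 := N2 k221 k234
                    have k250 : ¬ e6 ≤ e15 := N1 k249 k44
                    have k258 : e15 ≤ e6 := G3 g6 k233 k242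
                    exact HL _ _ _ _ _ _ c15 c6 c7 c10 c13 c4 (LT k258 k250) (LT k57 k68) (LT k128 k126) (LT k204 k201) (LT k182 k190)
                  · obtain ⟨e15, l15⟩ := (h1 e14).resolve_right k230
                    have c15 : Core e0 e15 := CJ k230 l15
                    have k233 : e0 ≤ e15 := L1 l15
                    have k234 : e14 ≤ e15 := L2 l15
                    have k238 : e3 ≤ e15 := le_trans k206 k234
                    have k253 : e4 ≤ e15 := L3 l4 k233 k238
                    have k259 : e15 ≤ e4 := Classical.byContradiction fun hn => HL _ _ _ _ _ _ c2 c7 c10 c13 c4 c15 (LT k62 k67) (LT k128 k126) (LT k204 k201) (LT k182 k190) (LT k253 hn)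
                    have k262 : e14 ≤ e4 := le_trans k234 k259
                    obtain ⟨e16, l16⟩ := ZE h2 k211 k230 g6
                    have c16 : Core e0 e16 := CZ g6 k230 l16
                    have k268 : e6 ≤ e16 := L1 l16
                    have k269 : e14 ≤ e16 := L2 l16
                    have k270 : e16 ≤ e4 := L3 l16 k47 k262
                    have k271 : e16 ≤ e5 := L3 l16 k43 k211
                    have k278 : e11 ≤ e16 := le_trans k208 k269
                    have k279 : ¬ e0 ≤ e16 := N2 k34 k271
                    have k280 : ¬ e4 ≤ e16 := N1 k279 k21
                    have k294 : ¬ e16 ≤ e13 := N1 k210 k269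
                    have k298 : e13 ≤ e16 := L3 l13 k268 k278
                    exact HL _ _ _ _ _ _ c2 c7 c10 c13 c16 c4 (LT k62 k67) (LT k128 k126) (LT k204 k201) (LT k298 k294) (LT k270 k280)
                · obtain ⟨e13, q13⟩ : ∃ y, f e12 = y := ⟨_, rfl⟩
                  have k178 : e1 ≤ e13 := MO hf q1 q13 k152
                  have k179 : e3 ≤ e13 := MO hf q3 q13 k155
                  have k181 : e8 ≤ e13 := MO hf q8 q13 k170
                  have k182 : e11 ≤ e13 := MO hf q11 q13 k172
                  have k183 : ¬ e12 ≤ e13 := FA hF q13
                  have k184 : ¬ e13 ≤ e12 := FB hG q13
                  have k185 : ¬ e0 ≤ e13 := L5 l12 k182 k183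
                  have k186 : e2 ≤ e13 := le_trans k7 k178
                  have k187 : e6 ≤ e13 := le_trans k54 k178
                  by_cases k202 : ∃ z, IsGLB ({e0, e13} : Set P) z
                  · obtain ⟨e14, g14⟩ := k202
                    have c14 : Core e0 e14 := CM g14
                    obtain ⟨e15, l15⟩ := ZE h2 k181 k86 g14
                    have c15 : Core e0 e15 := CZ g14 k86 l15
                    have k207 : e14 ≤ e0 := G1 g14
                    have k208 : e14 ≤ e13 := G2 g14
                    have k209 : e2 ≤ e14 := G3 g14 k6 k186
                    have k210 : e6 ≤ e14 := G3 g14 k42 k187
                    have k215 : e14 ≤ e15 := L1 l15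
                    have k216 : e8 ≤ e15 := L2 l15
                    have k217 : e15 ≤ e13 := L3 l15 k208 k181
                    have k218 : e14 ≤ e4 := le_trans k207 k21
                    have k220 : e14 ≤ e12 := le_trans k207 k152
                    have k223 : e6 ≤ e15 := le_trans k210 k215
                    have k225 : ¬ e0 ≤ e15 := N2 k185 k217
                    have k229 : ¬ e4 ≤ e15 := N1 k225 k21
                    have k239 : ¬ e3 ≤ e14 := N2 k15 k207
                    have k250 : e10 ≤ e15 := L3 l10 k223 k216
                    have k251 : e15 ≤ e4 := L3 l15 k218 k106
                    have k257 : e15 ≤ e10 := Classical.byContradiction fun hn => HL _ _ _ _ _ _ c2 c7 c10 c15 c4 c12 (LT k62 k67) (LT k128 k126) (LT k250 hn) (LT k251 k229) (LT k169 k173)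
                    have k258 : e15 ≤ e5 := le_trans k257 k113
                    have k259 : e14 ≤ e5 := le_trans k215 k258
                    have k260 : e14 ≤ e10 := le_trans k215 k257
                    have k261 : e14 ≤ e6 := G3 g6 k207 k259
                    have k263 : e14 ≤ e2 := le_trans k261 k53
                    have k264 : e14 ≤ e7 := le_trans k261 k57
                    obtain ⟨e16, l16⟩ := ZE h2 k179 k18 g14
                    have c16 : Core e0 e16 := CZ g14 k18 l16
                    have k267 : e14 ≤ e16 := L1 l16
                    have k268 : e3 ≤ e16 := L2 l16
                    have k272 : e16 ≤ e7 := L3 l16 k264 k58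
                    have k274 : e16 ≤ e10 := L3 l16 k260 k116
                    have k278 : e2 ≤ e16 := le_trans k209 k267
                    have k288 : ¬ e16 ≤ e2 := N1 k13 k268
                    have k290 : ¬ e16 ≤ e14 := N1 k239 k268
                    have k293 : ¬ e8 ≤ e16 := N2 k74 k272
                    have k294 : ¬ e10 ≤ e16 := N1 k293 k111
                    obtain ⟨e17, l17⟩ := ZE h2 k182 k149 g14
                    have c17 : Core e0 e17 := CZ g14 k149 l17
                    have k301 : e14 ≤ e17 := L1 l17
                    have k302 : e11 ≤ e17 := L2 l17
                    have k303 : e17 ≤ e5 := L3 l17 k259 k134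
                    have k304 : e17 ≤ e12 := L3 l17 k220 k153
                    have k307 : e8 ≤ e17 := le_trans k131 k302
                    have k309 : e6 ≤ e17 := le_trans k210 k301
                    have k310 : ¬ e0 ≤ e17 := N2 k34 k303
                    have k313 : ¬ e12 ≤ e17 := N1 k310 k152
                    have k325 : ¬ e17 ≤ e10 := N1 k133 k302
                    have k330 : e10 ≤ e17 := L3 l10 k309 k307
                    obtain ⟨e18, q18⟩ : ∃ y, f e17 = y := ⟨_, rfl⟩
                    have k336 : e11 ≤ e18 := MO hf q11 q18 k330
                    have k337 : ¬ e17 ≤ e18 := FA hF q18
                    have k338 : ¬ e18 ≤ e17 := FB hG q18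
                    have k339 : e18 ≤ e13 := MO hf q18 q13 k304
                    have k340 : ¬ e14 ≤ e18 := L5 l17 k336 k337
                    have k358 : ¬ e2 ≤ e18 := N1 k340 k263
                    by_cases k367 : ∃ z, IsGLB ({e0, e18} : Set P) z
                    · obtain ⟨e19, g19⟩ := k367
                      have c19 : Core e0 e19 := CM g19
                      have k370 : e19 ≤ e0 := G1 g19
                      have k371 : e19 ≤ e18 := G2 g19
                      have k379 : e19 ≤ e13 := le_trans k371 k339
                      have k387 : ¬ e2 ≤ e19 := N2 k358 k371
                      have k391 : ¬ e14 ≤ e19 := N1 k387 k209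
                      have k399 : e19 ≤ e14 := G3 g14 k370 k379
                      exact HL _ _ _ _ _ _ c19 c14 c16 c10 c4 c12 (LT k399 k391) (LT k267 k290) (LT k274 k294) (LT k112 k118) (LT k169 k173)
                    · obtain ⟨e19, l19⟩ := (h1 e18).resolve_right k367
                      have c19 : Core e0 e19 := CJ k367 l19
                      have k370 : e0 ≤ e19 := L1 l19
                      have k371 : e18 ≤ e19 := L2 l19
                      have k378 : e11 ≤ e19 := le_trans k336 k371
                      have k401 : e12 ≤ e19 := L3 l12 k370 k378
                      have k405 : e19 ≤ e12 := Classical.byContradiction fun hn => HL _ _ _ _ _ _ c2 c7 c10 c17 c12 c19 (LT k62 k67) (LT k128 k126) (LT k330 k325) (LT k304 k313) (LT k401 hn)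
                      have k406 : e18 ≤ e12 := le_trans k371 k405
                      obtain ⟨e20, l20⟩ := ZE h2 k339 k367 g14
                      have c20 : Core e0 e20 := CZ g14 k367 l20
                      have k410 : e14 ≤ e20 := L1 l20
                      have k411 : e18 ≤ e20 := L2 l20
                      have k412 : e20 ≤ e12 := L3 l20 k220 k406
                      have k413 : e20 ≤ e13 := L3 l20 k208 k339
                      have k419 : e11 ≤ e20 := le_trans k336 k411
                      have k420 : ¬ e0 ≤ e20 := N2 k185 k413
                      have k423 : ¬ e12 ≤ e20 := N1 k420 k152
                      have k440 : ¬ e20 ≤ e17 := N1 k338 k411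
                      have k446 : e17 ≤ e20 := L3 l17 k410 k419
                      exact HL _ _ _ _ _ _ c2 c16 c10 c17 c20 c12 (LT k278 k288) (LT k274 k294) (LT k330 k325) (LT k446 k440) (LT k412 k423)
                  · obtain ⟨e14, l14⟩ := (h1 e13).resolve_right k202
                    have c14 : Core e0 e14 := CJ k202 l14
                    have k205 : e0 ≤ e14 := L1 l14
                    have k206 : e13 ≤ e14 := L2 l14
                    have k216 : e11 ≤ e14 := le_trans k182 k206
                    have k230 : ¬ e14 ≤ e12 := N1 k184 k206
                    have k233 : e12 ≤ e14 := L3 l12 k205 k216
                    exact HL _ _ _ _ _ _ c2 c7 c10 c4 c12 c14 (LT k62 k67) (LT k128 k126) (LT k112 k118) (LT k169 k173) (LT k233 k230)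
            · have k106 : ¬ e8 ≤ e4 := L4 l9 k21 k105
              obtain ⟨e10, q10⟩ : ∃ y, f e9 = y := ⟨_, rfl⟩
              have k108 : e1 ≤ e10 := MO hf q1 q10 k89
              have k109 : e3 ≤ e10 := MO hf q3 q10 k92
              have k111 : e8 ≤ e10 := MO hf q8 q10 k104
              have k112 : ¬ e9 ≤ e10 := FA hF q10
              have k113 : ¬ e10 ≤ e9 := FB hG q10
              have k114 : ¬ e0 ≤ e10 := L5 l9 k111 k112
              have k115 : e2 ≤ e10 := le_trans k7 k108
              have k116 : e6 ≤ e10 := le_trans k54 k108
              by_cases k126 : ∃ z, IsGLB ({e0, e10} : Set P) z
              · obtain ⟨e11, g11⟩ := k126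
                have c11 : Core e0 e11 := CM g11
                obtain ⟨e12, l12⟩ := ZE h2 k109 k18 g11
                have c12 : Core e0 e12 := CZ g11 k18 l12
                have k131 : e11 ≤ e0 := G1 g11
                have k132 : e11 ≤ e10 := G2 g11
                have k133 : e2 ≤ e11 := G3 g11 k6 k115
                have k134 : e6 ≤ e11 := G3 g11 k42 k116
                have k138 : e11 ≤ e12 := L1 l12
                have k139 : e3 ≤ e12 := L2 l12
                have k140 : e12 ≤ e10 := L3 l12 k132 k109
                have k141 : e11 ≤ e4 := le_trans k131 k21
                have k142 : e11 ≤ e9 := le_trans k131 k89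
                have k143 : e2 ≤ e12 := le_trans k133 k138
                have k144 : e6 ≤ e12 := le_trans k134 k138
                have k145 : ¬ e0 ≤ e11 := N2 k114 k132
                have k146 : ¬ e0 ≤ e12 := N2 k114 k140
                have k149 : ¬ e4 ≤ e12 := N1 k146 k21
                have k157 : ¬ e3 ≤ e11 := N2 k15 k131
                have k160 : ¬ e7 ≤ e11 := N1 k157 k58
                have k164 : e7 ≤ e12 := L3 l7 k144 k139
                have k165 : e12 ≤ e4 := L3 l12 k141 k22
                have k166 : e12 ≤ e9 := L3 l12 k142 k94
                have k169 : ¬ e8 ≤ e12 := N2 k106 k165
                by_cases k170 : e12 ≤ e7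
                · have k171 : e12 ≤ e1 := le_trans k170 k59
                  have k172 : e12 ≤ e5 := le_trans k170 k61
                  have k173 : e11 ≤ e1 := le_trans k138 k171
                  have k174 : e11 ≤ e5 := le_trans k138 k172
                  have k175 : e11 ≤ e7 := le_trans k138 k170
                  have k176 : e11 ≤ e2 := G3 g2 k131 k173
                  obtain ⟨e13, l13⟩ := ZE h2 k111 k86 g11
                  have c13 : Core e0 e13 := CZ g11 k86 l13
                  have k180 : e11 ≤ e13 := L1 l13
                  have k181 : e8 ≤ e13 := L2 l13
                  have k182 : e13 ≤ e5 := L3 l13 k174 k75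
                  have k183 : e13 ≤ e9 := L3 l13 k142 k90
                  have k185 : e3 ≤ e13 := le_trans k72 k181
                  have k186 : e2 ≤ e13 := le_trans k133 k180
                  have k187 : e6 ≤ e13 := le_trans k134 k180
                  have k188 : ¬ e0 ≤ e13 := N2 k34 k182
                  have k190 : ¬ e9 ≤ e13 := N1 k188 k89
                  have k198 : ¬ e13 ≤ e7 := N1 k74 k181
                  have k202 : e7 ≤ e13 := L3 l7 k187 k185
                  obtain ⟨e14, q14⟩ : ∃ y, f e13 = y := ⟨_, rfl⟩
                  have k205 : e3 ≤ e14 := MO hf q3 q14 k186
                  have k206 : e8 ≤ e14 := MO hf q8 q14 k202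
                  have k207 : ¬ e13 ≤ e14 := FA hF q14
                  have k208 : ¬ e14 ≤ e13 := FB hG q14
                  have k209 : e14 ≤ e10 := MO hf q14 q10 k183
                  have k210 : ¬ e11 ≤ e14 := L5 l13 k206 k207
                  have k223 : ¬ e2 ≤ e14 := N1 k210 k176
                  by_cases k230 : ∃ z, IsGLB ({e0, e14} : Set P) z
                  · obtain ⟨e15, g15⟩ := k230
                    have c15 : Core e0 e15 := CM g15
                    have k233 : e15 ≤ e0 := G1 g15
                    have k234 : e15 ≤ e14 := G2 g15
                    have k235 : ¬ e15 ≤ e3 := BN3 g15 k18 k205
                    have k236 : ¬ e15 ≤ e8 := BN3 g15 k86 k206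
                    have k239 : e15 ≤ e9 := le_trans k233 k89
                    have k240 : e15 ≤ e10 := le_trans k234 k209
                    have k247 : ¬ e2 ≤ e15 := N2 k223 k234
                    have k256 : e15 ≤ e11 := G3 g11 k233 k240
                    have k258 : e15 ≤ e2 := le_trans k256 k176
                    have k261 : e15 ≤ e7 := le_trans k256 k175
                    have k263 : e15 ≤ e13 := le_trans k256 k180
                    obtain ⟨e16, q16⟩ : ∃ y, f e15 = y := ⟨_, rfl⟩
                    have k266 : ¬ e16 ≤ e15 := FB hG q16
                    have k268 : e16 ≤ e3 := MO hf q16 q3 k258
                    have k271 : e16 ≤ e10 := MO hf q16 q10 k239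
                    have k272 : e16 ≤ e14 := MO hf q16 q14 k263
                    have k273 : ¬ e16 ≤ e0 := G5 g15 k272 k266
                    have k275 : e16 ≤ e7 := le_trans k268 k58
                    have k276 : e16 ≤ e9 := le_trans k268 k94
                    have k278 : e16 ≤ e13 := le_trans k268 k185
                    have k293 : ¬ e16 ≤ e2 := N2 k273 k6
                    by_cases k296 : ∃ z, IsGLB ({e0, e16} : Set P) z
                    · obtain ⟨e17, g17⟩ := k296
                      have c17 : Core e0 e17 := CM g17
                      have k299 : e17 ≤ e0 := G1 g17
                      have k300 : e17 ≤ e16 := G2 g17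
                      have k305 : e17 ≤ e3 := le_trans k300 k268
                      have k312 : e17 ≤ e14 := le_trans k300 k272
                      have k328 : ¬ e15 ≤ e17 := N2 k235 k305
                      have k333 : e17 ≤ e15 := G3 g15 k299 k312
                      exact HL _ _ _ _ _ _ c17 c15 c2 c0 c4 c9 (LT k333 k328) (LT k258 k247) (LT k6 k9) (LT k21 k28) (LT k103 k105)
                    · obtain ⟨e17, l17⟩ := ZE h2 k271 k296 g11
                      have c17 : Core e0 e17 := CZ g11 k296 l17
                      have k299 : e11 ≤ e17 := L1 l17
                      have k300 : e16 ≤ e17 := L2 l17
                      have k304 : e17 ≤ e7 := L3 l17 k175 k275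
                      have k309 : e2 ≤ e17 := le_trans k133 k299
                      have k326 : ¬ e17 ≤ e2 := N1 k293 k300
                      have k330 : e7 ≤ e17 := Classical.byContradiction fun hn => HL _ _ _ _ _ _ c15 c2 c17 c7 c4 c9 (LT k258 k247) (LT k309 k326) (LT k304 hn) (LT k60 k64) (LT k103 k105)
                      obtain ⟨e18, l18⟩ := ZE h2 k272 k296 g15
                      have c18 : Core e0 e18 := CZ g15 k296 l18
                      have k335 : e15 ≤ e18 := L1 l18
                      have k336 : e16 ≤ e18 := L2 l18
                      have k340 : e18 ≤ e7 := L3 l18 k261 k275
                      have k341 : e18 ≤ e9 := L3 l18 k239 k276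
                      have k344 : e18 ≤ e13 := L3 l18 k263 k278
                      have k345 : e18 ≤ e14 := L3 l18 k234 k272
                      have k353 : ¬ e2 ≤ e18 := N2 k223 k345
                      have k355 : ¬ e7 ≤ e18 := N1 k353 k62
                      have k369 : ¬ e18 ≤ e15 := N1 k266 k336
                      obtain ⟨e19, q19⟩ : ∃ y, f e18 = y := ⟨_, rfl⟩
                      have k372 : e16 ≤ e19 := MO hf q16 q19 k335
                      have k374 : ¬ e19 ≤ e18 := FB hG q19
                      have k376 : e19 ≤ e8 := MO hf q19 q8 k340
                      have k377 : e19 ≤ e10 := MO hf q19 q10 k341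
                      have k378 : e19 ≤ e14 := MO hf q19 q14 k344
                      have k380 : e19 ≤ e9 := le_trans k376 k90
                      have k381 : e19 ≤ e13 := le_trans k376 k181
                      by_cases k402 : ∃ z, IsGLB ({e0, e19} : Set P) z
                      · obtain ⟨e20, g20⟩ := k402
                        have c20 : Core e0 e20 := CM g20
                        have k405 : e20 ≤ e0 := G1 g20
                        have k406 : e20 ≤ e19 := G2 g20
                        have k412 : e20 ≤ e8 := le_trans k406 k376
                        have k415 : e20 ≤ e14 := le_trans k406 k378
                        have k432 : ¬ e15 ≤ e20 := N2 k236 k412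
                        have k438 : e20 ≤ e15 := G3 g15 k405 k415
                        exact HL _ _ _ _ _ _ c20 c15 c2 c0 c4 c9 (LT k438 k432) (LT k258 k247) (LT k6 k9) (LT k21 k28) (LT k103 k105)
                      · obtain ⟨e20, l20⟩ := ZE h2 k377 k402 g11
                        have c20 : Core e0 e20 := CZ g11 k402 l20
                        have k405 : e11 ≤ e20 := L1 l20
                        have k406 : e19 ≤ e20 := L2 l20
                        have k410 : e20 ≤ e13 := L3 l20 k180 k381
                        have k414 : e16 ≤ e20 := le_trans k372 k406
                        have k432 : e17 ≤ e20 := L3 l17 k405 k414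
                        have k435 : e7 ≤ e20 := le_trans k330 k432
                        by_cases k437 : e20 ≤ e7
                        · have k444 : e19 ≤ e7 := le_trans k406 k437
                          obtain ⟨e21, l21⟩ := ZE h2 k378 k402 g15
                          have c21 : Core e0 e21 := CZ g15 k402 l21
                          have k453 : e15 ≤ e21 := L1 l21
                          have k454 : e19 ≤ e21 := L2 l21
                          have k458 : e21 ≤ e7 := L3 l21 k261 k444
                          have k463 : e21 ≤ e14 := L3 l21 k234 k378
                          have k466 : e16 ≤ e21 := le_trans k372 k454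
                          have k473 : ¬ e2 ≤ e21 := N2 k223 k463
                          have k475 : ¬ e7 ≤ e21 := N1 k473 k62
                          have k492 : ¬ e21 ≤ e18 := N1 k374 k454
                          have k494 : e18 ≤ e21 := L3 l18 k453 k466
                          exact HL _ _ _ _ _ _ c15 c18 c21 c7 c4 c9 (LT k335 k369) (LT k494 k492) (LT k458 k475) (LT k60 k64) (LT k103 k105)
                        · have k444 : e13 ≤ e20 := Classical.byContradiction fun hn => HL _ _ _ _ _ _ c15 c18 c7 c20 c13 c9 (LT k335 k369) (LT k340 k355) (LT k435 k437) (LT k410 hn) (LT k183 k190)
                          have k445 : e8 ≤ e20 := le_trans k181 k444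
                          obtain ⟨e21, l21⟩ := ZE h2 k378 k402 g15
                          have c21 : Core e0 e21 := CZ g15 k402 l21
                          have k450 : e15 ≤ e21 := L1 l21
                          have k451 : e19 ≤ e21 := L2 l21
                          have k453 : e21 ≤ e9 := L3 l21 k239 k380
                          have k455 : e21 ≤ e13 := L3 l21 k263 k381
                          have k456 : e21 ≤ e14 := L3 l21 k234 k378
                          have k458 : e16 ≤ e21 := le_trans k372 k451
                          have k465 : ¬ e2 ≤ e21 := N2 k223 k456
                          have k470 : ¬ e13 ≤ e21 := N1 k465 k186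
                          have k487 : ¬ e21 ≤ e18 := N1 k374 k451
                          have k489 : e18 ≤ e21 := L3 l18 k450 k458
                          obtain ⟨e22, q22⟩ : ∃ y, f e21 = y := ⟨_, rfl⟩
                          have k492 : e19 ≤ e22 := MO hf q19 q22 k489
                          have k493 : ¬ e21 ≤ e22 := FA hF q22
                          have k494 : ¬ e22 ≤ e21 := FB hG q22
                          have k495 : e22 ≤ e10 := MO hf q22 q10 k453
                          have k496 : e22 ≤ e14 := MO hf q22 q14 k455
                          have k497 : ¬ e15 ≤ e22 := L5 l21 k492 k493
                          by_cases k527 : ∃ z, IsGLB ({e0, e22} : Set P) z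
                          · obtain ⟨e23, g23⟩ := k527
                            have c23 : Core e0 e23 := CM g23
                            have k530 : e23 ≤ e0 := G1 g23
                            have k531 : e23 ≤ e22 := G2 g23
                            have k538 : e23 ≤ e14 := le_trans k531 k496
                            have k556 : ¬ e15 ≤ e23 := N2 k497 k531
                            have k563 : e23 ≤ e15 := G3 g15 k530 k538
                            exact HL _ _ _ _ _ _ c23 c15 c2 c0 c4 c9 (LT k563 k556) (LT k258 k247) (LT k6 k9) (LT k21 k28) (LT k103 k105)
                          · obtain ⟨e23, l23⟩ := (h1 e22).resolve_right k527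
                            have c23 : Core e0 e23 := CJ k527 l23
                            have k530 : e0 ≤ e23 := L1 l23
                            have k531 : e22 ≤ e23 := L2 l23
                            have k535 : e11 ≤ e23 := le_trans k131 k530
                            have k538 : e19 ≤ e23 := le_trans k492 k531
                            have k563 : e20 ≤ e23 := L3 l20 k535 k538
                            have k568 : e8 ≤ e23 := le_trans k445 k563
                            have k571 : e9 ≤ e23 := L3 l9 k530 k568
                            have k572 : e23 ≤ e9 := Classical.byContradiction fun hn => HL _ _ _ _ _ _ c15 c18 c21 c13 c9 c23 (LT k335 k369) (LT k489 k487) (LT k455 k470) (LT k183 k190) (LT k571 hn)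
                            have k573 : e22 ≤ e9 := le_trans k531 k572
                            obtain ⟨e24, l24⟩ := ZE h2 k495 k527 g11
                            have c24 : Core e0 e24 := CZ g11 k527 l24
                            have k577 : e11 ≤ e24 := L1 l24
                            have k578 : e22 ≤ e24 := L2 l24
                            have k579 : e24 ≤ e9 := L3 l24 k142 k573
                            have k580 : e24 ≤ e10 := L3 l24 k132 k495
                            have k586 : e19 ≤ e24 := le_trans k492 k578
                            have k587 : ¬ e0 ≤ e24 := N2 k114 k580
                            have k589 : ¬ e9 ≤ e24 := N1 k587 k89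
                            have k612 : e20 ≤ e24 := L3 l20 k577 k586
                            have k618 : e13 ≤ e24 := le_trans k444 k612
                            have k619 : e24 ≤ e13 := Classical.byContradiction fun hn => HL _ _ _ _ _ _ c15 c18 c21 c13 c24 c9 (LT k335 k369) (LT k489 k487) (LT k455 k470) (LT k618 hn) (LT k579 k589)
                            have k623 : e22 ≤ e13 := le_trans k578 k619
                            obtain ⟨e25, l25⟩ := ZE h2 k496 k527 g15
                            have c25 : Core e0 e25 := CZ g15 k527 l25
                            have k628 : e15 ≤ e25 := L1 l25
                            have k629 : e22 ≤ e25 := L2 l25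
                            have k633 : e25 ≤ e13 := L3 l25 k263 k623
                            have k634 : e25 ≤ e14 := L3 l25 k234 k496
                            have k639 : e19 ≤ e25 := le_trans k492 k629
                            have k647 : ¬ e2 ≤ e25 := N2 k223 k634
                            have k652 : ¬ e13 ≤ e25 := N1 k647 k186
                            have k672 : ¬ e25 ≤ e21 := N1 k494 k629
                            have k675 : e21 ≤ e25 := L3 l21 k628 k639
                            exact HL _ _ _ _ _ _ c15 c18 c21 c25 c13 c9 (LT k335 k369) (LT k489 k487) (LT k675 k672) (LT k633 k652) (LT k183 k190)
                  · obtain ⟨e15, l15⟩ := (h1 e14).resolve_right k230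
                    have c15 : Core e0 e15 := CJ k230 l15
                    have k233 : e0 ≤ e15 := L1 l15
                    have k234 : e14 ≤ e15 := L2 l15
                    have k236 : e2 ≤ e15 := le_trans k6 k233
                    have k237 : e6 ≤ e15 := le_trans k42 k233
                    have k238 : e11 ≤ e15 := le_trans k131 k233
                    have k239 : e3 ≤ e15 := le_trans k205 k234
                    have k240 : e8 ≤ e15 := le_trans k206 k234
                    have k256 : e7 ≤ e15 := L3 l7 k237 k239
                    have k257 : e9 ≤ e15 := L3 l9 k233 k240
                    have k259 : e13 ≤ e15 := L3 l13 k238 k240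
                    by_cases k260 : e15 ≤ e9
                    · have k261 : e14 ≤ e9 := le_trans k234 k260
                      obtain ⟨e16, l16⟩ := ZE h2 k209 k230 g11
                      have c16 : Core e0 e16 := CZ g11 k230 l16
                      have k265 : e11 ≤ e16 := L1 l16
                      have k266 : e14 ≤ e16 := L2 l16
                      have k267 : e16 ≤ e9 := L3 l16 k142 k261
                      have k268 : e16 ≤ e10 := L3 l16 k132 k209
                      have k271 : e6 ≤ e16 := le_trans k134 k265
                      have k272 : e3 ≤ e16 := le_trans k205 k266
                      have k273 : e8 ≤ e16 := le_trans k206 k266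
                      have k274 : ¬ e0 ≤ e16 := N2 k114 k268
                      have k276 : ¬ e9 ≤ e16 := N1 k274 k89
                      have k289 : ¬ e16 ≤ e13 := N1 k208 k266
                      have k291 : e7 ≤ e16 := L3 l7 k271 k272
                      have k293 : e13 ≤ e16 := L3 l13 k265 k273
                      obtain ⟨e17, q17⟩ : ∃ y, f e16 = y := ⟨_, rfl⟩
                      have k296 : e8 ≤ e17 := MO hf q8 q17 k291
                      have k297 : e14 ≤ e17 := MO hf q14 q17 k293
                      have k298 : ¬ e16 ≤ e17 := FA hF q17
                      have k299 : ¬ e17 ≤ e16 := FB hG q17
                      have k300 : e17 ≤ e10 := MO hf q17 q10 k267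
                      have k301 : ¬ e11 ≤ e17 := L5 l16 k297 k298
                      have k315 : ¬ e2 ≤ e17 := N1 k301 k176
                      by_cases k325 : ∃ z, IsGLB ({e0, e17} : Set P) z
                      · obtain ⟨e18, g18⟩ := k325
                        have c18 : Core e0 e18 := CM g18
                        have k328 : e18 ≤ e0 := G1 g18
                        have k329 : e18 ≤ e17 := G2 g18
                        have k337 : e18 ≤ e10 := le_trans k329 k300
                        have k345 : ¬ e2 ≤ e18 := N2 k315 k329
                        have k348 : ¬ e11 ≤ e18 := N1 k345 k133
                        have k356 : e18 ≤ e11 := G3 g11 k328 k337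
                        exact HL _ _ _ _ _ _ c18 c11 c7 c13 c16 c9 (LT k356 k348) (LT k175 k160) (LT k202 k198) (LT k293 k289) (LT k267 k276)
                      · obtain ⟨e18, l18⟩ := (h1 e17).resolve_right k325
                        have c18 : Core e0 e18 := CJ k325 l18
                        have k328 : e0 ≤ e18 := L1 l18
                        have k329 : e17 ≤ e18 := L2 l18
                        have k335 : e8 ≤ e18 := le_trans k296 k329
                        have k355 : e9 ≤ e18 := L3 l9 k328 k335
                        have k360 : e18 ≤ e9 := Classical.byContradiction fun hn => HL _ _ _ _ _ _ c2 c7 c13 c16 c9 c18 (LT k62 k67) (LT k202 k198) (LT k293 k289) (LT k267 k276) (LT k355 hn)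
                        have k362 : e17 ≤ e9 := le_trans k329 k360
                        obtain ⟨e19, l19⟩ := ZE h2 k300 k325 g11
                        have c19 : Core e0 e19 := CZ g11 k325 l19
                        have k367 : e11 ≤ e19 := L1 l19
                        have k368 : e17 ≤ e19 := L2 l19
                        have k369 : e19 ≤ e9 := L3 l19 k142 k362
                        have k370 : e19 ≤ e10 := L3 l19 k132 k300
                        have k377 : e14 ≤ e19 := le_trans k297 k368
                        have k378 : ¬ e0 ≤ e19 := N2 k114 k370
                        have k380 : ¬ e9 ≤ e19 := N1 k378 k89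
                        have k396 : ¬ e19 ≤ e16 := N1 k299 k368
                        have k401 : e16 ≤ e19 := L3 l16 k367 k377
                        exact HL _ _ _ _ _ _ c2 c7 c13 c16 c19 c9 (LT k62 k67) (LT k202 k198) (LT k293 k289) (LT k401 k396) (LT k369 k380)
                    · obtain ⟨e16, q16⟩ : ∃ y, f e15 = y := ⟨_, rfl⟩
                      have k263 : e1 ≤ e16 := MO hf q1 q16 k233
                      have k264 : e3 ≤ e16 := MO hf q3 q16 k236
                      have k266 : e8 ≤ e16 := MO hf q8 q16 k256
                      have k268 : e14 ≤ e16 := MO hf q14 q16 k259
                      have k269 : ¬ e15 ≤ e16 := FA hF q16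
                      have k270 : ¬ e16 ≤ e15 := FB hG q16
                      have k271 : ¬ e0 ≤ e16 := L5 l15 k268 k269
                      have k272 : e2 ≤ e16 := le_trans k7 k263
                      have k275 : e11 ≤ e16 := le_trans k173 k263
                      by_cases k292 : ∃ z, IsGLB ({e0, e16} : Set P) z
                      · obtain ⟨e17, g17⟩ := k292
                        have c17 : Core e0 e17 := CM g17
                        obtain ⟨e18, l18⟩ := ZE h2 k266 k86 g17
                        have c18 : Core e0 e18 := CZ g17 k86 l18
                        have k297 : e17 ≤ e0 := G1 g17
                        have k298 : e17 ≤ e16 := G2 g17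
                        have k299 : e2 ≤ e17 := G3 g17 k6 k272
                        have k301 : e11 ≤ e17 := G3 g17 k131 k275
                        have k309 : e17 ≤ e4 := le_trans k297 k21
                        have k311 : e17 ≤ e15 := le_trans k297 k233
                        have k316 : ¬ e0 ≤ e17 := N2 k271 k298
                        have k354 : e17 ≤ e2 := Classical.byContradiction fun hn => HL _ _ _ _ _ _ c2 c17 c0 c4 c9 c15 (LT k299 hn) (LT k297 k316) (LT k21 k28) (LT k103 k105) (LT k257 k260)
                        have k359 : e17 ≤ e10 := le_trans k354 k115
                        have k362 : e17 ≤ e13 := le_trans k354 k186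
                        obtain ⟨e19, l19⟩ := ZE h2 k264 k18 g17
                        have c19 : Core e0 e19 := CZ g17 k18 l19
                        have k368 : e17 ≤ e19 := L1 l19
                        have k369 : e3 ≤ e19 := L2 l19
                        have k371 : e19 ≤ e4 := L3 l19 k309 k22
                        have k377 : e19 ≤ e13 := L3 l19 k362 k185
                        have k381 : e2 ≤ e19 := le_trans k299 k368
                        have k392 : ¬ e19 ≤ e2 := N1 k13 k369
                        have k399 : ¬ e8 ≤ e19 := N2 k106 k371
                        have k400 : ¬ e13 ≤ e19 := N1 k399 k181
                        obtain ⟨e20, l20⟩ := ZE h2 k268 k230 g17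
                        have c20 : Core e0 e20 := CZ g17 k230 l20
                        have k408 : e17 ≤ e20 := L1 l20
                        have k409 : e14 ≤ e20 := L2 l20
                        have k410 : e20 ≤ e10 := L3 l20 k359 k209
                        have k411 : e20 ≤ e15 := L3 l20 k311 k234
                        have k414 : e8 ≤ e20 := le_trans k206 k409
                        have k417 : e11 ≤ e20 := le_trans k301 k408
                        have k418 : ¬ e0 ≤ e20 := N2 k114 k410
                        have k421 : ¬ e15 ≤ e20 := N1 k418 k233
                        have k435 : ¬ e20 ≤ e13 := N1 k208 k409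
                        have k441 : e13 ≤ e20 := L3 l13 k417 k414
                        obtain ⟨e21, q21⟩ : ∃ y, f e20 = y := ⟨_, rfl⟩
                        have k447 : e14 ≤ e21 := MO hf q14 q21 k441
                        have k448 : ¬ e20 ≤ e21 := FA hF q21
                        have k449 : ¬ e21 ≤ e20 := FB hG q21
                        have k450 : e21 ≤ e16 := MO hf q21 q16 k411
                        have k451 : ¬ e17 ≤ e21 := L5 l20 k447 k448
                        have k471 : ¬ e2 ≤ e21 := N1 k451 k354
                        by_cases k483 : ∃ z, IsGLB ({e0, e21} : Set P) z
                        · obtain ⟨e22, g22⟩ := k483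
                          have c22 : Core e0 e22 := CM g22
                          have k486 : e22 ≤ e0 := G1 g22
                          have k487 : e22 ≤ e21 := G2 g22
                          have k495 : e22 ≤ e16 := le_trans k487 k450
                          have k504 : ¬ e2 ≤ e22 := N2 k471 k487
                          have k510 : ¬ e17 ≤ e22 := N1 k504 k299
                          have k518 : e22 ≤ e17 := G3 g17 k486 k495
                          exact HL _ _ _ _ _ _ c22 c17 c0 c4 c9 c15 (LT k518 k510) (LT k297 k316) (LT k21 k28) (LT k103 k105) (LT k257 k260)
                        · obtain ⟨e22, l22⟩ := (h1 e21).resolve_right k483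
                          have c22 : Core e0 e22 := CJ k483 l22
                          have k486 : e0 ≤ e22 := L1 l22
                          have k487 : e21 ≤ e22 := L2 l22
                          have k495 : e14 ≤ e22 := le_trans k447 k487
                          have k522 : e15 ≤ e22 := L3 l15 k486 k495
                          have k526 : e22 ≤ e15 := Classical.byContradiction fun hn => HL _ _ _ _ _ _ c2 c7 c13 c20 c15 c22 (LT k62 k67) (LT k202 k198) (LT k441 k435) (LT k411 k421) (LT k522 hn)
                          have k527 : e21 ≤ e15 := le_trans k487 k526
                          obtain ⟨e23, l23⟩ := ZE h2 k450 k483 g17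
                          have c23 : Core e0 e23 := CZ g17 k483 l23
                          have k531 : e17 ≤ e23 := L1 l23
                          have k532 : e21 ≤ e23 := L2 l23
                          have k533 : e23 ≤ e15 := L3 l23 k311 k527
                          have k534 : e23 ≤ e16 := L3 l23 k298 k450
                          have k541 : e14 ≤ e23 := le_trans k447 k532
                          have k542 : ¬ e0 ≤ e23 := N2 k271 k534
                          have k545 : ¬ e15 ≤ e23 := N1 k542 k233
                          have k564 : ¬ e23 ≤ e20 := N1 k449 k532
                          have k571 : e20 ≤ e23 := L3 l20 k531 k541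
                          exact HL _ _ _ _ _ _ c2 c19 c13 c20 c23 c15 (LT k381 k392) (LT k377 k400) (LT k441 k435) (LT k571 k564) (LT k533 k545)
                      · obtain ⟨e17, l17⟩ := (h1 e16).resolve_right k292
                        have c17 : Core e0 e17 := CJ k292 l17
                        have k295 : e0 ≤ e17 := L1 l17
                        have k296 : e16 ≤ e17 := L2 l17
                        have k309 : e14 ≤ e17 := le_trans k268 k296
                        have k326 : ¬ e17 ≤ e15 := N1 k270 k296
                        have k329 : e15 ≤ e17 := L3 l15 k295 k309
                        exact HL _ _ _ _ _ _ c2 c0 c4 c9 c15 c17 (LT k6 k9) (LT k21 k28) (LT k103 k105) (LT k257 k260) (LT k329 k326)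
                · have k171 : ¬ e11 ≤ e7 := L5 l12 k58 k170
                  have k172 : ¬ e11 ≤ e2 := N2 k171 k62
                  have k173 : ¬ e11 ≤ e6 := N2 k171 k57
                  obtain ⟨e13, q13⟩ : ∃ y, f e12 = y := ⟨_, rfl⟩
                  have k181 : e3 ≤ e13 := MO hf q3 q13 k143
                  have k182 : e8 ≤ e13 := MO hf q8 q13 k164
                  have k185 : e13 ≤ e5 := MO hf q13 q5 k165
                  have k186 : e13 ≤ e10 := MO hf q13 q10 k166
                  by_cases k199 : ∃ z, IsGLB ({e0, e13} : Set P) z
                  · obtain ⟨e14, g14⟩ := k199
                    have c14 : Core e0 e14 := CM g14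
                    have k202 : e14 ≤ e0 := G1 g14
                    have k203 : e14 ≤ e13 := G2 g14
                    have k209 : e14 ≤ e5 := le_trans k203 k185
                    have k224 : e14 ≤ e6 := G3 g6 k202 k209
                    have k227 : e14 ≤ e2 := le_trans k224 k53
                    have k230 : e2 ≤ e14 := Classical.byContradiction fun hn => HL _ _ _ _ _ _ c14 c2 c7 c12 c4 c9 (LT k227 hn) (LT k62 k67) (LT k164 k170) (LT k165 k149) (LT k103 k105)
                    have k231 : e6 ≤ e14 := le_trans k53 k230
                    have k232 : e2 ≤ e13 := le_trans k230 k203
                    have k233 : e6 ≤ e13 := le_trans k231 k203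
                    obtain ⟨e15, l15⟩ := ZE h2 k111 k86 g11
                    have c15 : Core e0 e15 := CZ g11 k86 l15
                    have k237 : e11 ≤ e15 := L1 l15
                    have k238 : e8 ≤ e15 := L2 l15
                    have k239 : e15 ≤ e9 := L3 l15 k142 k90
                    have k240 : e15 ≤ e10 := L3 l15 k132 k111
                    have k241 : e3 ≤ e15 := le_trans k72 k238
                    have k242 : e2 ≤ e15 := le_trans k133 k237
                    have k243 : e6 ≤ e15 := le_trans k134 k237
                    have k245 : ¬ e0 ≤ e15 := N2 k114 k240
                    have k247 : ¬ e9 ≤ e15 := N1 k245 k89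
                    have k257 : ¬ e15 ≤ e12 := N1 k169 k238
                    have k263 : e7 ≤ e15 := L3 l7 k243 k241
                    have k264 : e12 ≤ e15 := L3 l12 k237 k241
                    obtain ⟨e16, q16⟩ : ∃ y, f e15 = y := ⟨_, rfl⟩
                    have k266 : e3 ≤ e16 := MO hf q3 q16 k242
                    have k267 : e8 ≤ e16 := MO hf q8 q16 k263
                    have k268 : e13 ≤ e16 := MO hf q13 q16 k264
                    have k269 : ¬ e15 ≤ e16 := FA hF q16
                    have k270 : ¬ e16 ≤ e15 := FB hG q16
                    have k271 : e16 ≤ e10 := MO hf q16 q10 k239
                    have k272 : ¬ e11 ≤ e16 := L5 l15 k267 k269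
                    have k273 : e2 ≤ e16 := le_trans k232 k268
                    have k274 : e6 ≤ e16 := le_trans k233 k268
                    by_cases k292 : ∃ z, IsGLB ({e0, e16} : Set P) z
                    · obtain ⟨e17, g17⟩ := k292
                      have c17 : Core e0 e17 := CM g17
                      obtain ⟨e18, l18⟩ := ZE h2 k266 k18 g17
                      have c18 : Core e0 e18 := CZ g17 k18 l18
                      have k297 : e17 ≤ e0 := G1 g17
                      have k298 : e17 ≤ e16 := G2 g17
                      have k299 : e2 ≤ e17 := G3 g17 k6 k273
                      have k300 : e6 ≤ e17 := G3 g17 k42 k274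
                      have k309 : e17 ≤ e9 := le_trans k297 k89
                      have k310 : e17 ≤ e10 := le_trans k298 k271
                      have k340 : ¬ e11 ≤ e17 := N2 k272 k298
                      have k344 : e17 ≤ e11 := G3 g11 k297 k310
                      have k350 : e17 ≤ e15 := le_trans k344 k237
                      have k357 : e17 ≤ e2 := Classical.byContradiction fun hn => HL _ _ _ _ _ _ c2 c17 c11 c0 c4 c9 (LT k299 hn) (LT k344 k340) (LT k131 k145) (LT k21 k28) (LT k103 k105)
                      obtain ⟨e19, l19⟩ := ZE h2 k267 k86 g17
                      have c19 : Core e0 e19 := CZ g17 k86 l19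
                      have k370 : e17 ≤ e19 := L1 l19
                      have k371 : e8 ≤ e19 := L2 l19
                      have k373 : e19 ≤ e9 := L3 l19 k309 k90
                      have k376 : e19 ≤ e15 := L3 l19 k350 k238
                      have k378 : e3 ≤ e19 := le_trans k72 k371
                      have k380 : e6 ≤ e19 := le_trans k300 k370
                      have k394 : ¬ e19 ≤ e7 := N1 k74 k371
                      have k403 : e7 ≤ e19 := L3 l7 k380 k378
                      obtain ⟨e20, q20⟩ : ∃ y, f e19 = y := ⟨_, rfl⟩
                      have k407 : e8 ≤ e20 := MO hf q8 q20 k403
                      have k408 : ¬ e19 ≤ e20 := FA hF q20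
                      have k409 : ¬ e20 ≤ e19 := FB hG q20
                      have k410 : e20 ≤ e10 := MO hf q20 q10 k373
                      have k411 : e20 ≤ e16 := MO hf q20 q16 k376
                      have k412 : ¬ e17 ≤ e20 := L5 l19 k407 k408
                      have k432 : ¬ e2 ≤ e20 := N1 k412 k357
                      by_cases k441 : ∃ z, IsGLB ({e0, e20} : Set P) z
                      · obtain ⟨e21, g21⟩ := k441
                        have c21 : Core e0 e21 := CM g21
                        have k444 : e21 ≤ e0 := G1 g21
                        have k445 : e21 ≤ e20 := G2 g21
                        have k452 : e21 ≤ e16 := le_trans k445 k411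
                        have k459 : ¬ e2 ≤ e21 := N2 k432 k445
                        have k468 : ¬ e17 ≤ e21 := N1 k459 k299
                        have k475 : e21 ≤ e17 := G3 g17 k444 k452
                        exact HL _ _ _ _ _ _ c21 c17 c11 c0 c4 c9 (LT k475 k468) (LT k344 k340) (LT k131 k145) (LT k21 k28) (LT k103 k105)
                      · obtain ⟨e21, l21⟩ := (h1 e20).resolve_right k441
                        have c21 : Core e0 e21 := CJ k441 l21
                        have k444 : e0 ≤ e21 := L1 l21
                        have k445 : e20 ≤ e21 := L2 l21
                        have k453 : e8 ≤ e21 := le_trans k407 k445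
                        have k476 : e9 ≤ e21 := L3 l9 k444 k453
                        have k481 : e21 ≤ e9 := Classical.byContradiction fun hn => HL _ _ _ _ _ _ c2 c7 c12 c15 c9 c21 (LT k62 k67) (LT k164 k170) (LT k264 k257) (LT k239 k247) (LT k476 hn)
                        have k482 : e20 ≤ e9 := le_trans k445 k481
                        obtain ⟨e22, l22⟩ := ZE h2 k410 k441 g11
                        have c22 : Core e0 e22 := CZ g11 k441 l22
                        have k486 : e11 ≤ e22 := L1 l22
                        have k487 : e20 ≤ e22 := L2 l22
                        have k488 : e22 ≤ e9 := L3 l22 k142 k482
                        have k489 : e22 ≤ e10 := L3 l22 k132 k410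
                        have k496 : e8 ≤ e22 := le_trans k407 k487
                        have k497 : ¬ e0 ≤ e22 := N2 k114 k489
                        have k499 : ¬ e9 ≤ e22 := N1 k497 k89
                        have k523 : e15 ≤ e22 := L3 l15 k486 k496
                        have k526 : e22 ≤ e15 := Classical.byContradiction fun hn => HL _ _ _ _ _ _ c2 c7 c12 c15 c22 c9 (LT k62 k67) (LT k164 k170) (LT k264 k257) (LT k523 hn) (LT k488 k499)
                        have k527 : e20 ≤ e15 := le_trans k487 k526
                        obtain ⟨e23, l23⟩ := ZE h2 k411 k441 g17
                        have c23 : Core e0 e23 := CZ g17 k441 l23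
                        have k531 : e17 ≤ e23 := L1 l23
                        have k532 : e20 ≤ e23 := L2 l23
                        have k535 : e23 ≤ e15 := L3 l23 k350 k527
                        have k536 : e23 ≤ e16 := L3 l23 k298 k411
                        have k543 : e8 ≤ e23 := le_trans k407 k532
                        have k562 : ¬ e11 ≤ e23 := N2 k272 k536
                        have k564 : ¬ e15 ≤ e23 := N1 k562 k237
                        have k567 : ¬ e23 ≤ e19 := N1 k409 k532
                        have k571 : e19 ≤ e23 := L3 l19 k531 k543
                        exact HL _ _ _ _ _ _ c2 c7 c19 c23 c15 c9 (LT k62 k67) (LT k403 k394) (LT k571 k567) (LT k535 k564) (LT k239 k247)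
                    · obtain ⟨e17, l17⟩ := (h1 e16).resolve_right k292
                      have c17 : Core e0 e17 := CJ k292 l17
                      have k295 : e0 ≤ e17 := L1 l17
                      have k296 : e16 ≤ e17 := L2 l17
                      have k304 : e8 ≤ e17 := le_trans k267 k296
                      have k323 : e9 ≤ e17 := L3 l9 k295 k304
                      have k326 : e17 ≤ e9 := Classical.byContradiction fun hn => HL _ _ _ _ _ _ c2 c7 c12 c15 c9 c17 (LT k62 k67) (LT k164 k170) (LT k264 k257) (LT k239 k247) (LT k323 hn)
                      have k328 : e16 ≤ e9 := le_trans k296 k326
                      obtain ⟨e18, l18⟩ := ZE h2 k271 k292 g11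
                      have c18 : Core e0 e18 := CZ g11 k292 l18
                      have k332 : e11 ≤ e18 := L1 l18
                      have k333 : e16 ≤ e18 := L2 l18
                      have k334 : e18 ≤ e9 := L3 l18 k142 k328
                      have k335 : e18 ≤ e10 := L3 l18 k132 k271
                      have k342 : e8 ≤ e18 := le_trans k267 k333
                      have k344 : ¬ e0 ≤ e18 := N2 k114 k335
                      have k346 : ¬ e9 ≤ e18 := N1 k344 k89
                      have k363 : ¬ e18 ≤ e15 := N1 k270 k333
                      have k366 : e15 ≤ e18 := L3 l15 k332 k342
                      exact HL _ _ _ _ _ _ c2 c7 c12 c15 c18 c9 (LT k62 k67) (LT k164 k170) (LT k264 k257) (LT k366 k363) (LT k334 k346)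
                  · have k200 : ¬ e6 ≤ e13 := BN3 g6 k199 k185
                    have k202 : ¬ e2 ≤ e13 := N1 k200 k53
                    obtain ⟨e14, l14⟩ := (h1 e13).resolve_right k199
                    have c14 : Core e0 e14 := CJ k199 l14
                    have k207 : e0 ≤ e14 := L1 l14
                    have k208 : e13 ≤ e14 := L2 l14
                    have k214 : e8 ≤ e14 := le_trans k182 k208
                    have k230 : e9 ≤ e14 := L3 l9 k207 k214
                    have k232 : e14 ≤ e9 := Classical.byContradiction fun hn => HL _ _ _ _ _ _ c2 c7 c12 c4 c9 c14 (LT k62 k67) (LT k164 k170) (LT k165 k149) (LT k103 k105) (LT k230 hn)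
                    have k233 : e13 ≤ e9 := le_trans k208 k232
                    obtain ⟨e15, q15⟩ : ∃ y, f e11 = y := ⟨_, rfl⟩
                    have k236 : e3 ≤ e15 := MO hf q3 q15 k133
                    have k239 : e15 ≤ e1 := MO hf q15 q1 k131
                    have k241 : e15 ≤ e10 := MO hf q15 q10 k142
                    have k242 : e15 ≤ e13 := MO hf q15 q13 k138
                    have k244 : e15 ≤ e9 := le_trans k242 k233
                    by_cases k259 : ∃ z, IsGLB ({e0, e15} : Set P) z
                    · obtain ⟨e16, g16⟩ := k259
                      have c16 : Core e0 e16 := CM g16
                      have k262 : e16 ≤ e0 := G1 g16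
                      have k263 : e16 ≤ e15 := G2 g16
                      have k269 : e16 ≤ e1 := le_trans k263 k239
                      have k272 : e16 ≤ e13 := le_trans k263 k242
                      have k280 : ¬ e2 ≤ e16 := N2 k202 k272
                      have k290 : e16 ≤ e2 := G3 g2 k262 k269
                      exact HL _ _ _ _ _ _ c16 c2 c11 c0 c4 c9 (LT k290 k280) (LT k133 k172) (LT k131 k145) (LT k21 k28) (LT k103 k105)
                    · obtain ⟨e16, l16⟩ := (h1 e15).resolve_right k259
                      have c16 : Core e0 e16 := CJ k259 l16
                      have k262 : e0 ≤ e16 := L1 l16
                      have k263 : e15 ≤ e16 := L2 l16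
                      have k264 : e16 ≤ e9 := L3 l16 k89 k244
                      have k269 : e11 ≤ e16 := le_trans k131 k262
                      have k270 : e3 ≤ e16 := le_trans k236 k263
                      have k280 : ¬ e16 ≤ e12 := N1 k146 k262
                      have k285 : e4 ≤ e16 := L3 l4 k262 k270
                      have k287 : e12 ≤ e16 := L3 l12 k269 k270
                      by_cases k288 : e16 ≤ e4
                      · have k289 : e15 ≤ e4 := le_trans k263 k288
                        have k292 : ¬ e8 ≤ e16 := N2 k106 k288
                        have k294 : ¬ e9 ≤ e16 := N1 k292 k90
                        obtain ⟨e17, l17⟩ := ZE h2 k241 k259 g11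
                        have c17 : Core e0 e17 := CZ g11 k259 l17
                        have k299 : e11 ≤ e17 := L1 l17
                        have k300 : e15 ≤ e17 := L2 l17
                        have k301 : e17 ≤ e4 := L3 l17 k141 k289
                        have k303 : e17 ≤ e10 := L3 l17 k132 k241
                        have k308 : e3 ≤ e17 := le_trans k236 k300
                        have k309 : ¬ e0 ≤ e17 := N2 k114 k303
                        have k310 : ¬ e4 ≤ e17 := N1 k309 k21
                        have k331 : e12 ≤ e17 := L3 l12 k299 k308
                        have k332 : e17 ≤ e12 := Classical.byContradiction fun hn => HL _ _ _ _ _ _ c2 c7 c12 c17 c4 c9 (LT k62 k67) (LT k164 k170) (LT k331 hn) (LT k301 k310) (LT k103 k105)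
                        have k333 : e15 ≤ e12 := le_trans k300 k332
                        obtain ⟨e18, l18⟩ := ZE h2 k186 k199 g11
                        have c18 : Core e0 e18 := CZ g11 k199 l18
                        have k336 : e11 ≤ e18 := L1 l18
                        have k337 : e13 ≤ e18 := L2 l18
                        have k338 : e18 ≤ e9 := L3 l18 k142 k233
                        have k339 : e18 ≤ e10 := L3 l18 k132 k186
                        have k342 : e6 ≤ e18 := le_trans k134 k336
                        have k343 : e3 ≤ e18 := le_trans k181 k337
                        have k344 : e8 ≤ e18 := le_trans k182 k337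
                        have k346 : ¬ e0 ≤ e18 := N2 k114 k339
                        have k348 : ¬ e9 ≤ e18 := N1 k346 k89
                        have k361 : ¬ e18 ≤ e12 := N1 k169 k344
                        have k368 : e7 ≤ e18 := L3 l7 k342 k343
                        have k369 : e12 ≤ e18 := L3 l12 k336 k343
                        obtain ⟨e19, q19⟩ : ∃ y, f e18 = y := ⟨_, rfl⟩
                        have k373 : e8 ≤ e19 := MO hf q8 q19 k368
                        have k374 : e13 ≤ e19 := MO hf q13 q19 k369
                        have k376 : ¬ e18 ≤ e19 := FA hF q19
                        have k377 : ¬ e19 ≤ e18 := FB hG q19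
                        have k378 : e19 ≤ e10 := MO hf q19 q10 k338
                        have k379 : ¬ e11 ≤ e19 := L5 l18 k374 k376
                        by_cases k401 : ∃ z, IsGLB ({e0, e19} : Set P) z
                        · obtain ⟨e20, g20⟩ := k401
                          have c20 : Core e0 e20 := CM g20
                          have k404 : e20 ≤ e0 := G1 g20
                          have k405 : e20 ≤ e19 := G2 g20
                          have k411 : e20 ≤ e4 := le_trans k404 k21
                          have k412 : e20 ≤ e9 := le_trans k404 k89
                          have k415 : e20 ≤ e10 := le_trans k405 k378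
                          have k433 : ¬ e11 ≤ e20 := N2 k379 k405
                          have k434 : e20 ≤ e11 := G3 g11 k404 k415
                          have k435 : e20 ≤ e12 := le_trans k434 k138
                          have k437 : e20 ≤ e18 := le_trans k434 k336
                          obtain ⟨e21, q21⟩ : ∃ y, f e20 = y := ⟨_, rfl⟩
                          have k440 : ¬ e21 ≤ e20 := FB hG q21
                          have k441 : e21 ≤ e1 := MO hf q21 q1 k404
                          have k443 : e21 ≤ e10 := MO hf q21 q10 k412
                          have k444 : e21 ≤ e13 := MO hf q21 q13 k435
                          have k445 : e21 ≤ e15 := MO hf q21 q15 k434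
                          have k446 : e21 ≤ e19 := MO hf q21 q19 k437
                          have k447 : ¬ e21 ≤ e0 := G5 g20 k446 k440
                          have k448 : e21 ≤ e9 := le_trans k444 k233
                          have k450 : e21 ≤ e18 := le_trans k444 k337
                          have k451 : e21 ≤ e4 := le_trans k445 k289
                          have k452 : e21 ≤ e12 := le_trans k445 k333
                          have k475 : ¬ e21 ≤ e11 := N2 k447 k131
                          by_cases k476 : ∃ z, IsGLB ({e0, e21} : Set P) z
                          · obtain ⟨e22, g22⟩ := k476
                            have c22 : Core e0 e22 := CM g22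
                            have k479 : e22 ≤ e0 := G1 g22
                            have k480 : e22 ≤ e21 := G2 g22
                            have k486 : e22 ≤ e1 := le_trans k480 k441
                            have k490 : e22 ≤ e13 := le_trans k480 k444
                            have k503 : ¬ e2 ≤ e22 := N2 k202 k490
                            have k517 : e22 ≤ e2 := G3 g2 k479 k486
                            exact HL _ _ _ _ _ _ c22 c2 c11 c0 c4 c9 (LT k517 k503) (LT k133 k172) (LT k131 k145) (LT k21 k28) (LT k103 k105)
                          · obtain ⟨e22, l22⟩ := ZE h2 k443 k476 g11
                            have c22 : Core e0 e22 := CZ g11 k476 l22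
                            have k479 : e11 ≤ e22 := L1 l22
                            have k480 : e21 ≤ e22 := L2 l22
                            have k484 : e22 ≤ e12 := L3 l22 k138 k452
                            have k516 : ¬ e22 ≤ e11 := N1 k475 k480
                            have k518 : e12 ≤ e22 := Classical.byContradiction fun hn => HL _ _ _ _ _ _ c2 c11 c22 c12 c4 c9 (LT k133 k172) (LT k479 k516) (LT k484 hn) (LT k165 k149) (LT k103 k105)
                            obtain ⟨e23, l23⟩ := ZE h2 k446 k476 g20
                            have c23 : Core e0 e23 := CZ g20 k476 l23
                            have k525 : e20 ≤ e23 := L1 l23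
                            have k526 : e21 ≤ e23 := L2 l23
                            have k527 : e23 ≤ e4 := L3 l23 k411 k451
                            have k528 : e23 ≤ e9 := L3 l23 k412 k448
                            have k530 : e23 ≤ e12 := L3 l23 k435 k452
                            have k534 : e23 ≤ e18 := L3 l23 k437 k450
                            have k561 : ¬ e23 ≤ e20 := N1 k440 k526
                            obtain ⟨e24, q24⟩ : ∃ y, f e23 = y := ⟨_, rfl⟩
                            have k564 : e21 ≤ e24 := MO hf q21 q24 k525
                            have k566 : ¬ e24 ≤ e23 := FB hG q24
                            have k567 : e24 ≤ e5 := MO hf q24 q5 k527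
                            have k568 : e24 ≤ e10 := MO hf q24 q10 k528
                            have k569 : e24 ≤ e13 := MO hf q24 q13 k530
                            have k570 : e24 ≤ e19 := MO hf q24 q19 k534
                            have k572 : e24 ≤ e9 := le_trans k569 k233
                            have k574 : e24 ≤ e18 := le_trans k569 k337
                            by_cases k598 : ∃ z, IsGLB ({e0, e24} : Set P) z
                            · obtain ⟨e25, g25⟩ := k598
                              have c25 : Core e0 e25 := CM g25
                              have k601 : e25 ≤ e0 := G1 g25
                              have k602 : e25 ≤ e24 := G2 g25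
                              have k609 : e25 ≤ e5 := le_trans k602 k567
                              have k611 : e25 ≤ e13 := le_trans k602 k569
                              have k622 : ¬ e2 ≤ e25 := N2 k202 k611
                              have k623 : ¬ e6 ≤ e25 := N1 k622 k44
                              have k639 : e25 ≤ e6 := G3 g6 k601 k609
                              exact HL _ _ _ _ _ _ c25 c6 c11 c0 c4 c9 (LT k639 k623) (LT k134 k173) (LT k131 k145) (LT k21 k28) (LT k103 k105)
                            · obtain ⟨e25, l25⟩ := ZE h2 k568 k598 g11
                              have c25 : Core e0 e25 := CZ g11 k598 l25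
                              have k601 : e11 ≤ e25 := L1 l25
                              have k602 : e24 ≤ e25 := L2 l25
                              have k606 : e25 ≤ e18 := L3 l25 k336 k574
                              have k610 : e21 ≤ e25 := le_trans k564 k602
                              have k635 : e22 ≤ e25 := L3 l22 k601 k610
                              have k639 : e12 ≤ e25 := le_trans k518 k635
                              by_cases k642 : e25 ≤ e12
                              · have k648 : e24 ≤ e12 := le_trans k602 k642
                                obtain ⟨e26, l26⟩ := ZE h2 k570 k598 g20
                                have c26 : Core e0 e26 := CZ g20 k598 l26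
                                have k662 : e20 ≤ e26 := L1 l26
                                have k663 : e24 ≤ e26 := L2 l26
                                have k667 : e26 ≤ e12 := L3 l26 k435 k648
                                have k672 : e26 ≤ e19 := L3 l26 k405 k570
                                have k675 : e21 ≤ e26 := le_trans k564 k663
                                have k687 : ¬ e11 ≤ e26 := N2 k379 k672
                                have k688 : ¬ e12 ≤ e26 := N1 k687 k138
                                have k703 : ¬ e26 ≤ e23 := N1 k566 k663
                                have k705 : e23 ≤ e26 := L3 l23 k662 k675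
                                exact HL _ _ _ _ _ _ c20 c23 c26 c12 c4 c9 (LT k525 k561) (LT k705 k703) (LT k667 k688) (LT k165 k149) (LT k103 k105)
                              · have k651 : e18 ≤ e25 := Classical.byContradiction fun hn => HL _ _ _ _ _ _ c2 c7 c12 c25 c18 c9 (LT k62 k67) (LT k164 k170) (LT k639 k642) (LT k606 hn) (LT k338 k348)
                                have k652 : e8 ≤ e25 := le_trans k344 k651
                                obtain ⟨e26, l26⟩ := ZE h2 k570 k598 g20
                                have c26 : Core e0 e26 := CZ g20 k598 l26
                                have k660 : e20 ≤ e26 := L1 l26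
                                have k661 : e24 ≤ e26 := L2 l26
                                have k662 : e26 ≤ e9 := L3 l26 k412 k572
                                have k665 : e26 ≤ e18 := L3 l26 k437 k574
                                have k668 : e21 ≤ e26 := le_trans k564 k661
                                have k699 : ¬ e26 ≤ e23 := N1 k566 k661
                                have k701 : e23 ≤ e26 := L3 l23 k660 k668
                                obtain ⟨e27, q27⟩ : ∃ y, f e26 = y := ⟨_, rfl⟩
                                have k704 : e24 ≤ e27 := MO hf q24 q27 k701
                                have k705 : ¬ e26 ≤ e27 := FA hF q27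
                                have k706 : ¬ e27 ≤ e26 := FB hG q27
                                have k707 : e27 ≤ e10 := MO hf q27 q10 k662
                                have k708 : e27 ≤ e19 := MO hf q27 q19 k665
                                have k709 : ¬ e20 ≤ e27 := L5 l26 k704 k705
                                by_cases k740 : ∃ z, IsGLB ({e0, e27} : Set P) z
                                · obtain ⟨e28, g28⟩ := k740
                                  have c28 : Core e0 e28 := CM g28
                                  have k743 : e28 ≤ e0 := G1 g28
                                  have k744 : e28 ≤ e27 := G2 g28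
                                  have k753 : e28 ≤ e19 := le_trans k744 k708
                                  have k774 : ¬ e20 ≤ e28 := N2 k709 k744
                                  have k781 : e28 ≤ e20 := G3 g20 k743 k753
                                  exact HL _ _ _ _ _ _ c28 c20 c11 c0 c4 c9 (LT k781 k774) (LT k434 k433) (LT k131 k145) (LT k21 k28) (LT k103 k105)
                                · obtain ⟨e28, l28⟩ := (h1 e27).resolve_right k740
                                  have c28 : Core e0 e28 := CJ k740 l28
                                  have k743 : e0 ≤ e28 := L1 l28
                                  have k744 : e27 ≤ e28 := L2 l28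
                                  have k748 : e11 ≤ e28 := le_trans k131 k743
                                  have k751 : e24 ≤ e28 := le_trans k704 k744
                                  have k780 : e25 ≤ e28 := L3 l25 k748 k751
                                  have k787 : e8 ≤ e28 := le_trans k652 k780
                                  have k791 : e9 ≤ e28 := L3 l9 k743 k787
                                  have k794 : e28 ≤ e9 := Classical.byContradiction fun hn => HL _ _ _ _ _ _ c2 c7 c12 c16 c9 c28 (LT k62 k67) (LT k164 k170) (LT k287 k280) (LT k264 k294) (LT k791 hn)
                                  have k796 : e27 ≤ e9 := le_trans k744 k794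
                                  obtain ⟨e29, l29⟩ := ZE h2 k707 k740 g11
                                  have c29 : Core e0 e29 := CZ g11 k740 l29
                                  have k801 : e11 ≤ e29 := L1 l29
                                  have k802 : e27 ≤ e29 := L2 l29
                                  have k803 : e29 ≤ e9 := L3 l29 k142 k796
                                  have k804 : e29 ≤ e10 := L3 l29 k132 k707
                                  have k811 : e24 ≤ e29 := le_trans k704 k802
                                  have k812 : ¬ e0 ≤ e29 := N2 k114 k804
                                  have k814 : ¬ e9 ≤ e29 := N1 k812 k89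
                                  have k845 : e25 ≤ e29 := L3 l25 k801 k811
                                  have k854 : e18 ≤ e29 := le_trans k651 k845
                                  have k855 : e29 ≤ e18 := Classical.byContradiction fun hn => HL _ _ _ _ _ _ c2 c7 c12 c18 c29 c9 (LT k62 k67) (LT k164 k170) (LT k369 k361) (LT k854 hn) (LT k803 k814)
                                  have k857 : e27 ≤ e18 := le_trans k802 k855
                                  obtain ⟨e30, l30⟩ := ZE h2 k708 k740 g20
                                  have c30 : Core e0 e30 := CZ g20 k740 l30
                                  have k862 : e20 ≤ e30 := L1 l30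
                                  have k863 : e27 ≤ e30 := L2 l30
                                  have k867 : e30 ≤ e18 := L3 l30 k437 k857
                                  have k868 : e30 ≤ e19 := L3 l30 k405 k708
                                  have k873 : e24 ≤ e30 := le_trans k704 k863
                                  have k881 : ¬ e11 ≤ e30 := N2 k379 k868
                                  have k884 : ¬ e18 ≤ e30 := N1 k881 k336
                                  have k908 : ¬ e30 ≤ e26 := N1 k706 k863
                                  have k911 : e26 ≤ e30 := L3 l26 k862 k873
                                  exact HL _ _ _ _ _ _ c20 c23 c26 c30 c18 c9 (LT k525 k561) (LT k701 k699) (LT k911 k908) (LT k867 k884) (LT k338 k348)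
                        · obtain ⟨e20, l20⟩ := (h1 e19).resolve_right k401
                          have c20 : Core e0 e20 := CJ k401 l20
                          have k404 : e0 ≤ e20 := L1 l20
                          have k405 : e19 ≤ e20 := L2 l20
                          have k411 : e8 ≤ e20 := le_trans k373 k405
                          have k434 : e9 ≤ e20 := L3 l9 k404 k411
                          have k440 : e20 ≤ e9 := Classical.byContradiction fun hn => HL _ _ _ _ _ _ c2 c7 c12 c16 c9 c20 (LT k62 k67) (LT k164 k170) (LT k287 k280) (LT k264 k294) (LT k434 hn)
                          have k442 : e19 ≤ e9 := le_trans k405 k440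
                          obtain ⟨e21, l21⟩ := ZE h2 k378 k401 g11
                          have c21 : Core e0 e21 := CZ g11 k401 l21
                          have k447 : e11 ≤ e21 := L1 l21
                          have k448 : e19 ≤ e21 := L2 l21
                          have k449 : e21 ≤ e9 := L3 l21 k142 k442
                          have k450 : e21 ≤ e10 := L3 l21 k132 k378
                          have k457 : e13 ≤ e21 := le_trans k374 k448
                          have k459 : ¬ e0 ≤ e21 := N2 k114 k450
                          have k461 : ¬ e9 ≤ e21 := N1 k459 k89
                          have k482 : ¬ e21 ≤ e18 := N1 k377 k448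
                          have k487 : e18 ≤ e21 := L3 l18 k447 k457
                          exact HL _ _ _ _ _ _ c2 c7 c12 c18 c21 c9 (LT k62 k67) (LT k164 k170) (LT k369 k361) (LT k487 k482) (LT k449 k461)
                      · have k289 : ¬ e15 ≤ e4 := L4 l16 k21 k288
                        have k293 : ¬ e15 ≤ e12 := N2 k289 k165
                        have k296 : e9 ≤ e16 := Classical.byContradiction fun hn => HL _ _ _ _ _ _ c2 c7 c12 c4 c16 c9 (LT k62 k67) (LT k164 k170) (LT k165 k149) (LT k285 k288) (LT k264 hn)
                        obtain ⟨e17, l17⟩ := ZE h2 k241 k259 g11
                        have c17 : Core e0 e17 := CZ g11 k259 l17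
                        have k302 : e11 ≤ e17 := L1 l17
                        have k303 : e15 ≤ e17 := L2 l17
                        have k304 : e17 ≤ e9 := L3 l17 k142 k244
                        have k305 : e17 ≤ e10 := L3 l17 k132 k241
                        have k309 : e6 ≤ e17 := le_trans k134 k302
                        have k310 : e3 ≤ e17 := le_trans k236 k303
                        have k311 : ¬ e0 ≤ e17 := N2 k114 k305
                        have k313 : ¬ e9 ≤ e17 := N1 k311 k89
                        have k329 : ¬ e17 ≤ e12 := N1 k293 k303
                        have k331 : e7 ≤ e17 := L3 l7 k309 k310
                        have k332 : e12 ≤ e17 := L3 l12 k302 k310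
                        obtain ⟨e18, q18⟩ : ∃ y, f e17 = y := ⟨_, rfl⟩
                        have k335 : e8 ≤ e18 := MO hf q8 q18 k331
                        have k336 : e13 ≤ e18 := MO hf q13 q18 k332
                        have k337 : e15 ≤ e18 := MO hf q15 q18 k302
                        have k338 : ¬ e17 ≤ e18 := FA hF q18
                        have k339 : ¬ e18 ≤ e17 := FB hG q18
                        have k340 : e18 ≤ e10 := MO hf q18 q10 k304
                        have k341 : ¬ e11 ≤ e18 := L5 l17 k337 k338
                        by_cases k358 : ∃ z, IsGLB ({e0, e18} : Set P) z
                        · obtain ⟨e19, g19⟩ := k358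
                          have c19 : Core e0 e19 := CM g19
                          have k361 : e19 ≤ e0 := G1 g19
                          have k362 : e19 ≤ e18 := G2 g19
                          have k365 : ¬ e19 ≤ e13 := BN3 g19 k199 k336
                          have k369 : e19 ≤ e9 := le_trans k361 k89
                          have k372 : e19 ≤ e10 := le_trans k362 k340
                          have k389 : ¬ e11 ≤ e19 := N2 k341 k362
                          have k392 : e19 ≤ e11 := G3 g11 k361 k372
                          have k393 : e19 ≤ e12 := le_trans k392 k138
                          have k394 : e19 ≤ e17 := le_trans k392 k302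
                          obtain ⟨e20, q20⟩ : ∃ y, f e19 = y := ⟨_, rfl⟩
                          have k397 : ¬ e20 ≤ e19 := FB hG q20
                          have k398 : e20 ≤ e1 := MO hf q20 q1 k361
                          have k400 : e20 ≤ e10 := MO hf q20 q10 k369
                          have k401 : e20 ≤ e13 := MO hf q20 q13 k393
                          have k402 : e20 ≤ e15 := MO hf q20 q15 k392
                          have k403 : e20 ≤ e18 := MO hf q20 q18 k394
                          have k404 : ¬ e20 ≤ e0 := G5 g19 k403 k397
                          have k405 : e20 ≤ e9 := le_trans k401 k233
                          have k408 : e20 ≤ e17 := le_trans k402 k303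
                          have k426 : ¬ e20 ≤ e11 := N2 k404 k131
                          by_cases k427 : ∃ z, IsGLB ({e0, e20} : Set P) z
                          · obtain ⟨e21, g21⟩ := k427
                            have c21 : Core e0 e21 := CM g21
                            have k430 : e21 ≤ e0 := G1 g21
                            have k431 : e21 ≤ e20 := G2 g21
                            have k437 : e21 ≤ e1 := le_trans k431 k398
                            have k440 : e21 ≤ e13 := le_trans k431 k401
                            have k452 : ¬ e2 ≤ e21 := N2 k202 k440
                            have k465 : e21 ≤ e2 := G3 g2 k430 k437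
                            exact HL _ _ _ _ _ _ c21 c2 c11 c0 c4 c9 (LT k465 k452) (LT k133 k172) (LT k131 k145) (LT k21 k28) (LT k103 k105)
                          · obtain ⟨e21, l21⟩ := ZE h2 k400 k427 g11
                            have c21 : Core e0 e21 := CZ g11 k427 l21
                            have k430 : e11 ≤ e21 := L1 l21
                            have k431 : e20 ≤ e21 := L2 l21
                            have k432 : e21 ≤ e9 := L3 l21 k142 k405
                            have k433 : e21 ≤ e10 := L3 l21 k132 k400
                            have k436 : e21 ≤ e17 := L3 l21 k302 k408
                            have k439 : e19 ≤ e21 := le_trans k392 k430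
                            have k440 : ¬ e0 ≤ e21 := N2 k114 k433
                            have k460 : ¬ e21 ≤ e11 := N1 k426 k431
                            by_cases k462 : e17 ≤ e21
                            · have k466 : e15 ≤ e21 := le_trans k303 k462
                              obtain ⟨e22, l22⟩ := ZE h2 k403 k427 g19
                              have c22 : Core e0 e22 := CZ g19 k427 l22
                              have k482 : e19 ≤ e22 := L1 l22
                              have k483 : e20 ≤ e22 := L2 l22
                              have k484 : e22 ≤ e9 := L3 l22 k369 k405
                              have k488 : e22 ≤ e17 := L3 l22 k394 k408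
                              have k516 : ¬ e22 ≤ e19 := N1 k397 k483
                              obtain ⟨e23, q23⟩ : ∃ y, f e22 = y := ⟨_, rfl⟩
                              have k519 : e20 ≤ e23 := MO hf q20 q23 k482
                              have k520 : ¬ e22 ≤ e23 := FA hF q23
                              have k521 : ¬ e23 ≤ e22 := FB hG q23
                              have k522 : e23 ≤ e10 := MO hf q23 q10 k484
                              have k523 : e23 ≤ e18 := MO hf q23 q18 k488
                              have k524 : ¬ e19 ≤ e23 := L5 l22 k519 k520
                              by_cases k546 : ∃ z, IsGLB ({e0, e23} : Set P) z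
                              · obtain ⟨e24, g24⟩ := k546
                                have c24 : Core e0 e24 := CM g24
                                have k549 : e24 ≤ e0 := G1 g24
                                have k550 : e24 ≤ e23 := G2 g24
                                have k558 : e24 ≤ e18 := le_trans k550 k523
                                have k577 : ¬ e19 ≤ e24 := N2 k524 k550
                                have k582 : e24 ≤ e19 := G3 g19 k549 k558
                                exact HL _ _ _ _ _ _ c24 c19 c11 c0 c4 c9 (LT k582 k577) (LT k392 k389) (LT k131 k145) (LT k21 k28) (LT k103 k105)
                              · obtain ⟨e24, l24⟩ := (h1 e23).resolve_right k546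
                                have c24 : Core e0 e24 := CJ k546 l24
                                have k549 : e0 ≤ e24 := L1 l24
                                have k550 : e23 ≤ e24 := L2 l24
                                have k554 : e11 ≤ e24 := le_trans k131 k549
                                have k556 : e20 ≤ e24 := le_trans k519 k550
                                have k578 : e21 ≤ e24 := L3 l21 k554 k556
                                have k583 : e15 ≤ e24 := le_trans k466 k578
                                have k586 : e16 ≤ e24 := L3 l16 k549 k583
                                have k588 : e9 ≤ e24 := le_trans k296 k586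
                                have k591 : e24 ≤ e9 := Classical.byContradiction fun hn => HL _ _ _ _ _ _ c2 c7 c12 c17 c9 c24 (LT k62 k67) (LT k164 k170) (LT k332 k329) (LT k304 k313) (LT k588 hn)
                                have k594 : e23 ≤ e9 := le_trans k550 k591
                                obtain ⟨e25, l25⟩ := ZE h2 k522 k546 g11
                                have c25 : Core e0 e25 := CZ g11 k546 l25
                                have k600 : e11 ≤ e25 := L1 l25
                                have k601 : e23 ≤ e25 := L2 l25
                                have k602 : e25 ≤ e9 := L3 l25 k142 k594
                                have k603 : e25 ≤ e10 := L3 l25 k132 k522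
                                have k610 : e20 ≤ e25 := le_trans k519 k601
                                have k611 : ¬ e0 ≤ e25 := N2 k114 k603
                                have k613 : ¬ e9 ≤ e25 := N1 k611 k89
                                have k637 : e21 ≤ e25 := L3 l21 k600 k610
                                have k643 : e17 ≤ e25 := le_trans k462 k637
                                have k644 : e25 ≤ e17 := Classical.byContradiction fun hn => HL _ _ _ _ _ _ c2 c7 c12 c17 c25 c9 (LT k62 k67) (LT k164 k170) (LT k332 k329) (LT k643 hn) (LT k602 k613)
                                have k646 : e23 ≤ e17 := le_trans k601 k644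
                                obtain ⟨e26, l26⟩ := ZE h2 k523 k546 g19
                                have c26 : Core e0 e26 := CZ g19 k546 l26
                                have k651 : e19 ≤ e26 := L1 l26
                                have k652 : e23 ≤ e26 := L2 l26
                                have k653 : e26 ≤ e9 := L3 l26 k369 k594
                                have k657 : e26 ≤ e17 := L3 l26 k394 k646
                                have k662 : e20 ≤ e26 := le_trans k519 k652
                                have k692 : ¬ e26 ≤ e22 := N1 k521 k652
                                have k694 : e22 ≤ e26 := L3 l22 k651 k662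
                                obtain ⟨e27, q27⟩ : ∃ y, f e26 = y := ⟨_, rfl⟩
                                have k696 : e20 ≤ e27 := MO hf q20 q27 k651
                                have k697 : e23 ≤ e27 := MO hf q23 q27 k694
                                have k698 : ¬ e26 ≤ e27 := FA hF q27
                                have k699 : ¬ e27 ≤ e26 := FB hG q27
                                have k700 : e27 ≤ e10 := MO hf q27 q10 k653
                                have k701 : e27 ≤ e18 := MO hf q27 q18 k657
                                have k702 : ¬ e19 ≤ e27 := L5 l26 k697 k698
                                by_cases k729 : ∃ z, IsGLB ({e0, e27} : Set P) z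
                                · obtain ⟨e28, g28⟩ := k729
                                  have c28 : Core e0 e28 := CM g28
                                  have k732 : e28 ≤ e0 := G1 g28
                                  have k733 : e28 ≤ e27 := G2 g28
                                  have k743 : e28 ≤ e18 := le_trans k733 k701
                                  have k764 : ¬ e19 ≤ e28 := N2 k702 k733
                                  have k771 : e28 ≤ e19 := G3 g19 k732 k743
                                  exact HL _ _ _ _ _ _ c28 c19 c11 c0 c4 c9 (LT k771 k764) (LT k392 k389) (LT k131 k145) (LT k21 k28) (LT k103 k105)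
                                · obtain ⟨e28, l28⟩ := (h1 e27).resolve_right k729
                                  have c28 : Core e0 e28 := CJ k729 l28
                                  have k732 : e0 ≤ e28 := L1 l28
                                  have k733 : e27 ≤ e28 := L2 l28
                                  have k740 : e23 ≤ e28 := le_trans k697 k733
                                  have k767 : e24 ≤ e28 := L3 l24 k732 k740
                                  have k777 : e9 ≤ e28 := le_trans k588 k767
                                  have k781 : e28 ≤ e9 := Classical.byContradiction fun hn => HL _ _ _ _ _ _ c2 c7 c12 c17 c9 c28 (LT k62 k67) (LT k164 k170) (LT k332 k329) (LT k304 k313) (LT k777 hn)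
                                  have k785 : e27 ≤ e9 := le_trans k733 k781
                                  obtain ⟨e29, l29⟩ := ZE h2 k700 k729 g11
                                  have c29 : Core e0 e29 := CZ g11 k729 l29
                                  have k792 : e11 ≤ e29 := L1 l29
                                  have k793 : e27 ≤ e29 := L2 l29
                                  have k794 : e29 ≤ e9 := L3 l29 k142 k785
                                  have k795 : e29 ≤ e10 := L3 l29 k132 k700
                                  have k803 : e20 ≤ e29 := le_trans k696 k793
                                  have k805 : ¬ e0 ≤ e29 := N2 k114 k795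
                                  have k807 : ¬ e9 ≤ e29 := N1 k805 k89
                                  have k834 : e21 ≤ e29 := L3 l21 k792 k803
                                  have k842 : e17 ≤ e29 := le_trans k462 k834
                                  have k843 : e29 ≤ e17 := Classical.byContradiction fun hn => HL _ _ _ _ _ _ c2 c7 c12 c17 c29 c9 (LT k62 k67) (LT k164 k170) (LT k332 k329) (LT k842 hn) (LT k794 k807)
                                  have k846 : e27 ≤ e17 := le_trans k793 k843
                                  obtain ⟨e30, l30⟩ := ZE h2 k701 k729 g19
                                  have c30 : Core e0 e30 := CZ g19 k729 l30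
                                  have k852 : e19 ≤ e30 := L1 l30
                                  have k853 : e27 ≤ e30 := L2 l30
                                  have k858 : e30 ≤ e17 := L3 l30 k394 k846
                                  have k859 : e30 ≤ e18 := L3 l30 k362 k701
                                  have k866 : e23 ≤ e30 := le_trans k697 k853
                                  have k875 : ¬ e11 ≤ e30 := N2 k341 k859
                                  have k877 : ¬ e17 ≤ e30 := N1 k875 k302
                                  have k900 : ¬ e30 ≤ e26 := N1 k699 k853
                                  have k903 : e26 ≤ e30 := L3 l26 k852 k866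
                                  exact HL _ _ _ _ _ _ c19 c22 c26 c30 c17 c9 (LT k482 k516) (LT k694 k692) (LT k903 k900) (LT k858 k877) (LT k304 k313)
                            · have k463 : ¬ e15 ≤ e21 := L4 l17 k430 k462
                              obtain ⟨e22, q22⟩ : ∃ y, f e21 = y := ⟨_, rfl⟩
                              have k471 : e15 ≤ e22 := MO hf q15 q22 k430
                              have k472 : e20 ≤ e22 := MO hf q20 q22 k439
                              have k475 : e22 ≤ e10 := MO hf q22 q10 k432
                              have k476 : e22 ≤ e18 := MO hf q22 q18 k436
                              by_cases k496 : ∃ z, IsGLB ({e0, e22} : Set P) z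
                              · obtain ⟨e23, g23⟩ := k496
                                have c23 : Core e0 e23 := CM g23
                                have k499 : e23 ≤ e0 := G1 g23
                                have k500 : e23 ≤ e22 := G2 g23
                                have k506 : e23 ≤ e9 := le_trans k499 k89
                                have k509 : e23 ≤ e10 := le_trans k500 k475
                                have k510 : e23 ≤ e18 := le_trans k500 k476
                                have k532 : e23 ≤ e11 := G3 g11 k499 k509
                                have k533 : e23 ≤ e19 := G3 g19 k499 k510
                                have k535 : e23 ≤ e17 := le_trans k532 k302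
                                have k536 : e23 ≤ e21 := le_trans k532 k430
                                have k537 : e19 ≤ e23 := Classical.byContradiction fun hn => HL _ _ _ _ _ _ c23 c19 c11 c0 c4 c9 (LT k533 hn) (LT k392 k389) (LT k131 k145) (LT k21 k28) (LT k103 k105)
                                have k538 : e19 ≤ e22 := le_trans k537 k500
                                have k541 : ¬ e22 ≤ e13 := N1 k365 k538
                                have k543 : ¬ e21 ≤ e12 := NM hf q22 q13 k541
                                have k544 : ¬ e20 ≤ e12 := L4 l21 k138 k543
                                have k545 : ¬ e20 ≤ e3 := N2 k544 k139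
                                have k547 : ¬ e19 ≤ e2 := NM hf q20 q3 k545
                                obtain ⟨e24, l24⟩ := (h1 e20).resolve_right k427
                                have c24 : Core e0 e24 := CJ k427 l24
                                have k565 : e0 ≤ e24 := L1 l24
                                have k566 : e20 ≤ e24 := L2 l24
                                have k567 : e24 ≤ e9 := L3 l24 k89 k405
                                have k573 : e11 ≤ e24 := le_trans k131 k565
                                have k575 : e23 ≤ e24 := le_trans k499 k565
                                have k592 : ¬ e24 ≤ e21 := N1 k440 k565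
                                have k596 : ¬ e24 ≤ e0 := N1 k404 k566
                                have k598 : e21 ≤ e24 := L3 l21 k573 k566
                                by_cases k599 : e9 ≤ e24
                                · obtain ⟨e25, l25⟩ := ZE h2 k472 k427 g23
                                  have c25 : Core e0 e25 := CZ g23 k427 l25
                                  have k612 : e23 ≤ e25 := L1 l25
                                  have k613 : e20 ≤ e25 := L2 l25
                                  have k614 : e25 ≤ e9 := L3 l25 k506 k405
                                  have k618 : e25 ≤ e17 := L3 l25 k535 k408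
                                  have k620 : e25 ≤ e21 := L3 l25 k536 k431
                                  have k623 : e19 ≤ e25 := le_trans k537 k612
                                  have k655 : ¬ e25 ≤ e19 := N1 k397 k613
                                  obtain ⟨e26, q26⟩ : ∃ y, f e25 = y := ⟨_, rfl⟩
                                  have k659 : e20 ≤ e26 := MO hf q20 q26 k623
                                  have k660 : ¬ e25 ≤ e26 := FA hF q26
                                  have k661 : ¬ e26 ≤ e25 := FB hG q26
                                  have k662 : e26 ≤ e10 := MO hf q26 q10 k614
                                  have k663 : e26 ≤ e18 := MO hf q26 q18 k618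
                                  have k664 : e26 ≤ e22 := MO hf q26 q22 k620
                                  have k665 : ¬ e23 ≤ e26 := L5 l25 k659 k660
                                  have k688 : ¬ e19 ≤ e26 := N1 k665 k533
                                  by_cases k691 : ∃ z, IsGLB ({e0, e26} : Set P) z
                                  · obtain ⟨e27, g27⟩ := k691
                                    have c27 : Core e0 e27 := CM g27
                                    have k694 : e27 ≤ e0 := G1 g27
                                    have k695 : e27 ≤ e26 := G2 g27
                                    have k704 : e27 ≤ e18 := le_trans k695 k663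
                                    have k726 : ¬ e19 ≤ e27 := N2 k688 k695
                                    have k732 : e27 ≤ e19 := G3 g19 k694 k704
                                    exact HL _ _ _ _ _ _ c27 c19 c11 c0 c4 c9 (LT k732 k726) (LT k392 k389) (LT k131 k145) (LT k21 k28) (LT k103 k105)
                                  · obtain ⟨e27, l27⟩ := (h1 e26).resolve_right k691
                                    have c27 : Core e0 e27 := CJ k691 l27
                                    have k694 : e0 ≤ e27 := L1 l27
                                    have k695 : e26 ≤ e27 := L2 l27
                                    have k702 : e20 ≤ e27 := le_trans k659 k695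
                                    have k727 : e24 ≤ e27 := L3 l24 k694 k702
                                    have k733 : e9 ≤ e27 := le_trans k599 k727
                                    have k740 : e27 ≤ e9 := Classical.byContradiction fun hn => HL _ _ _ _ _ _ c2 c7 c12 c17 c9 c27 (LT k62 k67) (LT k164 k170) (LT k332 k329) (LT k304 k313) (LT k733 hn)
                                    have k744 : e26 ≤ e9 := le_trans k695 k740
                                    obtain ⟨e28, l28⟩ := ZE h2 k662 k691 g11
                                    have c28 : Core e0 e28 := CZ g11 k691 l28
                                    have k751 : e11 ≤ e28 := L1 l28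
                                    have k752 : e26 ≤ e28 := L2 l28
                                    have k753 : e28 ≤ e9 := L3 l28 k142 k744
                                    have k754 : e28 ≤ e10 := L3 l28 k132 k662
                                    have k761 : e19 ≤ e28 := le_trans k392 k751
                                    have k762 : e23 ≤ e28 := le_trans k532 k751
                                    have k763 : e20 ≤ e28 := le_trans k659 k752
                                    have k764 : ¬ e0 ≤ e28 := N2 k114 k754
                                    have k766 : ¬ e9 ≤ e28 := N1 k764 k89
                                    have k793 : e21 ≤ e28 := L3 l21 k751 k763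
                                    have k794 : e25 ≤ e28 := L3 l25 k762 k763
                                    by_cases k795 : e28 ≤ e21
                                    · have k798 : e26 ≤ e21 := le_trans k752 k795
                                      obtain ⟨e29, l29⟩ := ZE h2 k664 k691 g23
                                      have c29 : Core e0 e29 := CZ g23 k691 l29
                                      have k812 : e23 ≤ e29 := L1 l29
                                      have k813 : e26 ≤ e29 := L2 l29
                                      have k819 : e29 ≤ e18 := L3 l29 k510 k663
                                      have k820 : e29 ≤ e21 := L3 l29 k536 k798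
                                      have k826 : e20 ≤ e29 := le_trans k659 k813
                                      have k837 : ¬ e11 ≤ e29 := N2 k341 k819
                                      have k840 : ¬ e21 ≤ e29 := N1 k837 k430
                                      have k863 : ¬ e29 ≤ e25 := N1 k661 k813
                                      have k865 : e25 ≤ e29 := L3 l25 k812 k826
                                      exact HL _ _ _ _ _ _ c19 c25 c29 c21 c17 c9 (LT k623 k655) (LT k865 k863) (LT k820 k840) (LT k436 k462) (LT k304 k313)
                                    · obtain ⟨e29, q29⟩ : ∃ y, f e28 = y := ⟨_, rfl⟩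
                                      have k799 : e15 ≤ e29 := MO hf q15 q29 k751
                                      have k800 : e20 ≤ e29 := MO hf q20 q29 k761
                                      have k801 : e22 ≤ e29 := MO hf q22 q29 k793
                                      have k802 : e26 ≤ e29 := MO hf q26 q29 k794
                                      have k803 : ¬ e28 ≤ e29 := FA hF q29
                                      have k804 : ¬ e29 ≤ e28 := FB hG q29
                                      have k805 : e29 ≤ e10 := MO hf q29 q10 k753
                                      have k806 : ¬ e11 ≤ e29 := L5 l28 k802 k803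
                                      have k807 : e19 ≤ e29 := le_trans k538 k801
                                      have k808 : e23 ≤ e29 := le_trans k500 k801
                                      by_cases k840 : ∃ z, IsGLB ({e0, e29} : Set P) z
                                      · obtain ⟨e30, g30⟩ := k840
                                        have c30 : Core e0 e30 := CM g30
                                        obtain ⟨e31, l31⟩ := ZE h2 k800 k427 g30
                                        have c31 : Core e0 e31 := CZ g30 k427 l31
                                        have k845 : e30 ≤ e0 := G1 g30
                                        have k846 : e30 ≤ e29 := G2 g30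
                                        have k847 : e19 ≤ e30 := G3 g30 k361 k807
                                        have k848 : e23 ≤ e30 := G3 g30 k499 k808
                                        have k858 : e30 ≤ e9 := le_trans k845 k89
                                        have k863 : e30 ≤ e10 := le_trans k846 k805
                                        have k895 : ¬ e11 ≤ e30 := N2 k806 k846
                                        have k931 : e30 ≤ e11 := G3 g11 k845 k863
                                        have k942 : e30 ≤ e28 := le_trans k931 k751
                                        have k954 : e30 ≤ e19 := Classical.byContradiction fun hn => HL _ _ _ _ _ _ c19 c30 c11 c0 c4 c9 (LT k847 hn) (LT k931 k895) (LT k131 k145) (LT k21 k28) (LT k103 k105)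
                                        obtain ⟨e32, l32⟩ := ZE h2 k802 k691 g30
                                        have c32 : Core e0 e32 := CZ g30 k691 l32
                                        have k964 : e30 ≤ e32 := L1 l32
                                        have k965 : e26 ≤ e32 := L2 l32
                                        have k966 : e32 ≤ e9 := L3 l32 k858 k744
                                        have k974 : e32 ≤ e28 := L3 l32 k942 k752
                                        have k976 : e20 ≤ e32 := le_trans k659 k965
                                        have k977 : e19 ≤ e32 := le_trans k847 k964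
                                        have k978 : e23 ≤ e32 := le_trans k848 k964
                                        have k1011 : ¬ e32 ≤ e25 := N1 k661 k965
                                        have k1015 : e25 ≤ e32 := L3 l25 k978 k976
                                        obtain ⟨e33, q33⟩ : ∃ y, f e32 = y := ⟨_, rfl⟩
                                        have k1018 : e20 ≤ e33 := MO hf q20 q33 k977
                                        have k1019 : e26 ≤ e33 := MO hf q26 q33 k1015
                                        have k1020 : ¬ e32 ≤ e33 := FA hF q33
                                        have k1021 : ¬ e33 ≤ e32 := FB hG q33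
                                        have k1022 : e33 ≤ e10 := MO hf q33 q10 k966
                                        have k1023 : e33 ≤ e29 := MO hf q33 q29 k974
                                        have k1024 : ¬ e30 ≤ e33 := L5 l32 k1019 k1020
                                        have k1054 : ¬ e19 ≤ e33 := N1 k1024 k954
                                        by_cases k1061 : ∃ z, IsGLB ({e0, e33} : Set P) z
                                        · obtain ⟨e34, g34⟩ := k1061
                                          have c34 : Core e0 e34 := CM g34
                                          have k1064 : e34 ≤ e0 := G1 g34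
                                          have k1065 : e34 ≤ e33 := G2 g34
                                          have k1076 : e34 ≤ e29 := le_trans k1065 k1023
                                          have k1100 : ¬ e19 ≤ e34 := N2 k1054 k1065
                                          have k1103 : ¬ e30 ≤ e34 := N1 k1100 k847
                                          have k1110 : e34 ≤ e30 := G3 g30 k1064 k1076
                                          exact HL _ _ _ _ _ _ c34 c30 c11 c0 c4 c9 (LT k1110 k1103) (LT k931 k895) (LT k131 k145) (LT k21 k28) (LT k103 k105)
                                        · obtain ⟨e34, l34⟩ := (h1 e33).resolve_right k1061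
                                          have c34 : Core e0 e34 := CJ k1061 l34
                                          have k1064 : e0 ≤ e34 := L1 l34
                                          have k1065 : e33 ≤ e34 := L2 l34
                                          have k1073 : e20 ≤ e34 := le_trans k1018 k1065
                                          have k1105 : e24 ≤ e34 := L3 l24 k1064 k1073
                                          have k1115 : e9 ≤ e34 := le_trans k599 k1105
                                          have k1122 : e34 ≤ e9 := Classical.byContradiction fun hn => HL _ _ _ _ _ _ c2 c7 c12 c17 c9 c34 (LT k62 k67) (LT k164 k170) (LT k332 k329) (LT k304 k313) (LT k1115 hn)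
                                          have k1127 : e33 ≤ e9 := le_trans k1065 k1122
                                          obtain ⟨e35, l35⟩ := ZE h2 k1022 k1061 g11
                                          have c35 : Core e0 e35 := CZ g11 k1061 l35
                                          have k1135 : e11 ≤ e35 := L1 l35
                                          have k1136 : e33 ≤ e35 := L2 l35
                                          have k1137 : e35 ≤ e9 := L3 l35 k142 k1127
                                          have k1138 : e35 ≤ e10 := L3 l35 k132 k1022
                                          have k1150 : e26 ≤ e35 := le_trans k1019 k1136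
                                          have k1151 : ¬ e0 ≤ e35 := N2 k114 k1138
                                          have k1153 : ¬ e9 ≤ e35 := N1 k1151 k89
                                          have k1189 : e28 ≤ e35 := L3 l28 k1135 k1150
                                          have k1192 : e35 ≤ e28 := Classical.byContradiction fun hn => HL _ _ _ _ _ _ c2 c11 c21 c28 c35 c9 (LT k133 k172) (LT k430 k460) (LT k793 k795) (LT k1189 hn) (LT k1137 k1153)
                                          have k1193 : e33 ≤ e28 := le_trans k1136 k1192
                                          obtain ⟨e36, l36⟩ := ZE h2 k1023 k1061 g30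
                                          have c36 : Core e0 e36 := CZ g30 k1061 l36
                                          have k1197 : e30 ≤ e36 := L1 l36
                                          have k1198 : e33 ≤ e36 := L2 l36
                                          have k1205 : e36 ≤ e28 := L3 l36 k942 k1193
                                          have k1206 : e36 ≤ e29 := L3 l36 k846 k1023
                                          have k1212 : e26 ≤ e36 := le_trans k1019 k1198
                                          have k1222 : ¬ e11 ≤ e36 := N2 k806 k1206
                                          have k1226 : ¬ e28 ≤ e36 := N1 k1222 k751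
                                          have k1251 : ¬ e36 ≤ e32 := N1 k1021 k1198
                                          have k1255 : e32 ≤ e36 := L3 l32 k1197 k1212
                                          exact HL _ _ _ _ _ _ c19 c25 c32 c36 c28 c9 (LT k623 k655) (LT k1015 k1011) (LT k1255 k1251) (LT k1205 k1226) (LT k753 k766)
                                      · obtain ⟨e30, l30⟩ := (h1 e29).resolve_right k840
                                        have c30 : Core e0 e30 := CJ k840 l30
                                        have k843 : e0 ≤ e30 := L1 l30
                                        have k844 : e29 ≤ e30 := L2 l30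
                                        have k852 : e15 ≤ e30 := le_trans k799 k844
                                        have k885 : e16 ≤ e30 := L3 l16 k843 k852
                                        have k892 : e9 ≤ e30 := le_trans k296 k885
                                        have k895 : e30 ≤ e9 := Classical.byContradiction fun hn => HL _ _ _ _ _ _ c2 c7 c12 c17 c9 c30 (LT k62 k67) (LT k164 k170) (LT k332 k329) (LT k304 k313) (LT k892 hn)
                                        have k905 : e29 ≤ e9 := le_trans k844 k895
                                        obtain ⟨e31, l31⟩ := ZE h2 k805 k840 g11
                                        have c31 : Core e0 e31 := CZ g11 k840 l31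
                                        have k913 : e11 ≤ e31 := L1 l31
                                        have k914 : e29 ≤ e31 := L2 l31
                                        have k915 : e31 ≤ e9 := L3 l31 k142 k905
                                        have k916 : e31 ≤ e10 := L3 l31 k132 k805
                                        have k931 : e26 ≤ e31 := le_trans k802 k914
                                        have k932 : ¬ e0 ≤ e31 := N2 k114 k916
                                        have k934 : ¬ e9 ≤ e31 := N1 k932 k89
                                        have k963 : ¬ e31 ≤ e28 := N1 k804 k914
                                        have k969 : e28 ≤ e31 := L3 l28 k913 k931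
                                        exact HL _ _ _ _ _ _ c2 c11 c21 c28 c31 c9 (LT k133 k172) (LT k430 k460) (LT k793 k795) (LT k969 k963) (LT k915 k934)
                                · obtain ⟨e25, q25⟩ : ∃ y, f e24 = y := ⟨_, rfl⟩
                                  have k613 : e1 ≤ e25 := MO hf q1 q25 k565
                                  have k615 : e15 ≤ e25 := MO hf q15 q25 k573
                                  have k617 : e22 ≤ e25 := MO hf q22 q25 k598
                                  have k620 : e25 ≤ e10 := MO hf q25 q10 k567
                                  have k622 : e2 ≤ e25 := le_trans k7 k613
                                  have k625 : e19 ≤ e25 := le_trans k538 k617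
                                  by_cases k648 : ∃ z, IsGLB ({e0, e25} : Set P) z
                                  · obtain ⟨e26, g26⟩ := k648
                                    have c26 : Core e0 e26 := CM g26
                                    have k651 : e26 ≤ e0 := G1 g26
                                    have k652 : e26 ≤ e25 := G2 g26
                                    have k653 : e2 ≤ e26 := G3 g26 k6 k622
                                    have k655 : e19 ≤ e26 := G3 g26 k361 k625
                                    have k665 : e26 ≤ e24 := le_trans k651 k565
                                    have k666 : e26 ≤ e10 := le_trans k652 k620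
                                    have k667 : ¬ e0 ≤ e26 := N2 k114 k666
                                    have k679 : ¬ e3 ≤ e26 := N2 k15 k651
                                    have k682 : ¬ e12 ≤ e26 := N1 k679 k139
                                    have k689 : ¬ e26 ≤ e2 := N1 k547 k655
                                    have k693 : ¬ e20 ≤ e26 := N2 k404 k651
                                    have k694 : ¬ e21 ≤ e26 := N1 k693 k431
                                    have k695 : e26 ≤ e11 := G3 g11 k651 k666
                                    have k696 : e26 ≤ e12 := le_trans k695 k138
                                    have k698 : e26 ≤ e21 := le_trans k695 k430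
                                    have k699 : e11 ≤ e26 := Classical.byContradiction fun hn => HL _ _ _ _ _ _ c2 c26 c11 c0 c4 c9 (LT k653 k689) (LT k695 hn) (LT k131 k145) (LT k21 k28) (LT k103 k105)
                                    have k700 : e11 ≤ e25 := le_trans k699 k652
                                    have k703 : ¬ e26 ≤ e19 := N1 k389 k699
                                    obtain ⟨e27, l27⟩ := ZE h2 k472 k427 g23
                                    have c27 : Core e0 e27 := CZ g23 k427 l27
                                    have k712 : e23 ≤ e27 := L1 l27
                                    have k713 : e20 ≤ e27 := L2 l27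
                                    have k714 : e27 ≤ e9 := L3 l27 k506 k405
                                    have k718 : e27 ≤ e17 := L3 l27 k535 k408
                                    have k720 : e27 ≤ e21 := L3 l27 k536 k431
                                    have k722 : e27 ≤ e24 := L3 l27 k575 k566
                                    have k724 : e19 ≤ e27 := le_trans k537 k712
                                    have k759 : ¬ e27 ≤ e19 := N1 k397 k713
                                    obtain ⟨e28, q28⟩ : ∃ y, f e27 = y := ⟨_, rfl⟩
                                    have k764 : e20 ≤ e28 := MO hf q20 q28 k724
                                    have k765 : ¬ e27 ≤ e28 := FA hF q28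
                                    have k766 : ¬ e28 ≤ e27 := FB hG q28
                                    have k767 : e28 ≤ e10 := MO hf q28 q10 k714
                                    have k768 : e28 ≤ e18 := MO hf q28 q18 k718
                                    have k769 : e28 ≤ e22 := MO hf q28 q22 k720
                                    have k770 : e28 ≤ e25 := MO hf q28 q25 k722
                                    have k771 : ¬ e23 ≤ e28 := L5 l27 k764 k765
                                    have k797 : ¬ e19 ≤ e28 := N1 k771 k533
                                    by_cases k800 : ∃ z, IsGLB ({e0, e28} : Set P) z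
                                    · obtain ⟨e29, g29⟩ := k800
                                      have c29 : Core e0 e29 := CM g29
                                      have k803 : e29 ≤ e0 := G1 g29
                                      have k804 : e29 ≤ e28 := G2 g29
                                      have k813 : e29 ≤ e18 := le_trans k804 k768
                                      have k838 : ¬ e19 ≤ e29 := N2 k797 k804
                                      have k844 : e29 ≤ e19 := G3 g19 k803 k813
                                      exact HL _ _ _ _ _ _ c29 c19 c26 c0 c4 c9 (LT k844 k838) (LT k655 k703) (LT k651 k667) (LT k21 k28) (LT k103 k105)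
                                    · obtain ⟨e29, l29⟩ := (h1 e28).resolve_right k800
                                      have c29 : Core e0 e29 := CJ k800 l29
                                      have k803 : e0 ≤ e29 := L1 l29
                                      have k804 : e28 ≤ e29 := L2 l29
                                      have k808 : e11 ≤ e29 := le_trans k131 k803
                                      have k809 : e19 ≤ e29 := le_trans k361 k803
                                      have k810 : e23 ≤ e29 := le_trans k499 k803
                                      have k812 : e20 ≤ e29 := le_trans k764 k804
                                      have k838 : e21 ≤ e29 := L3 l21 k808 k812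
                                      have k839 : e24 ≤ e29 := L3 l24 k803 k812
                                      have k840 : e27 ≤ e29 := L3 l27 k810 k812
                                      by_cases k841 : e29 ≤ e24
                                      · have k848 : e28 ≤ e24 := le_trans k804 k841
                                        obtain ⟨e30, l30⟩ := ZE h2 k770 k800 g26
                                        have c30 : Core e0 e30 := CZ g26 k800 l30
                                        have k870 : e26 ≤ e30 := L1 l30
                                        have k871 : e28 ≤ e30 := L2 l30
                                        have k873 : e30 ≤ e10 := L3 l30 k666 k767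
                                        have k876 : e30 ≤ e24 := L3 l30 k665 k848
                                        have k881 : e11 ≤ e30 := le_trans k699 k870
                                        have k884 : e20 ≤ e30 := le_trans k764 k871
                                        have k885 : ¬ e0 ≤ e30 := N2 k114 k873
                                        have k890 : ¬ e24 ≤ e30 := N1 k885 k565
                                        have k924 : e21 ≤ e30 := L3 l21 k881 k884
                                        have k926 : e30 ≤ e21 := Classical.byContradiction fun hn => HL _ _ _ _ _ _ c2 c11 c21 c30 c24 c9 (LT k133 k172) (LT k430 k460) (LT k924 hn) (LT k876 k890) (LT k567 k599)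
                                        have k929 : e28 ≤ e21 := le_trans k871 k926
                                        obtain ⟨e31, l31⟩ := ZE h2 k769 k800 g23
                                        have c31 : Core e0 e31 := CZ g23 k800 l31
                                        have k932 : e23 ≤ e31 := L1 l31
                                        have k933 : e28 ≤ e31 := L2 l31
                                        have k939 : e31 ≤ e18 := L3 l31 k510 k768
                                        have k940 : e31 ≤ e21 := L3 l31 k536 k929
                                        have k947 : e20 ≤ e31 := le_trans k764 k933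
                                        have k962 : ¬ e11 ≤ e31 := N2 k341 k939
                                        have k965 : ¬ e21 ≤ e31 := N1 k962 k430
                                        have k988 : ¬ e31 ≤ e27 := N1 k766 k933
                                        have k990 : e27 ≤ e31 := L3 l27 k932 k947
                                        exact HL _ _ _ _ _ _ c19 c27 c31 c21 c24 c9 (LT k724 k759) (LT k990 k988) (LT k940 k965) (LT k598 k592) (LT k567 k599)
                                      · have k842 : ¬ e28 ≤ e24 := L4 l29 k565 k841
                                        have k843 : ¬ e28 ≤ e21 := N2 k842 k598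
                                        obtain ⟨e30, q30⟩ : ∃ y, f e29 = y := ⟨_, rfl⟩
                                        have k848 : e20 ≤ e30 := MO hf q20 q30 k809
                                        have k849 : e22 ≤ e30 := MO hf q22 q30 k838
                                        have k850 : e25 ≤ e30 := MO hf q25 q30 k839
                                        have k851 : e28 ≤ e30 := MO hf q28 q30 k840
                                        have k852 : ¬ e29 ≤ e30 := FA hF q30
                                        have k853 : ¬ e30 ≤ e29 := FB hG q30
                                        have k854 : ¬ e0 ≤ e30 := L5 l29 k851 k852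
                                        have k858 : e19 ≤ e30 := le_trans k538 k849
                                        have k859 : e23 ≤ e30 := le_trans k500 k849
                                        have k861 : e11 ≤ e30 := le_trans k700 k850
                                        by_cases k894 : ∃ z, IsGLB ({e0, e30} : Set P) z
                                        · obtain ⟨e31, g31⟩ := k894
                                          have c31 : Core e0 e31 := CM g31
                                          obtain ⟨e32, l32⟩ := ZE h2 k848 k427 g31
                                          have c32 : Core e0 e32 := CZ g31 k427 l32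
                                          have k899 : e31 ≤ e0 := G1 g31
                                          have k900 : e31 ≤ e30 := G2 g31
                                          have k903 : e11 ≤ e31 := G3 g31 k131 k861
                                          have k904 : e19 ≤ e31 := G3 g31 k361 k858
                                          have k905 : e23 ≤ e31 := G3 g31 k499 k859
                                          have k916 : e31 ≤ e9 := le_trans k899 k89
                                          have k920 : e31 ≤ e29 := le_trans k899 k803
                                          have k927 : ¬ e0 ≤ e31 := N2 k854 k900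
                                          have k1013 : e31 ≤ e11 := Classical.byContradiction fun hn => HL _ _ _ _ _ _ c2 c11 c31 c0 c4 c9 (LT k133 k172) (LT k903 hn) (LT k899 k927) (LT k21 k28) (LT k103 k105)
                                          have k1014 : e31 ≤ e10 := le_trans k1013 k132
                                          have k1019 : e31 ≤ e26 := le_trans k1013 k699
                                          obtain ⟨e33, l33⟩ := ZE h2 k851 k800 g31
                                          have c33 : Core e0 e33 := CZ g31 k800 l33
                                          have k1026 : e31 ≤ e33 := L1 l33
                                          have k1027 : e28 ≤ e33 := L2 l33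
                                          have k1028 : e33 ≤ e10 := L3 l33 k1014 k767
                                          have k1030 : e33 ≤ e29 := L3 l33 k920 k804
                                          have k1032 : e20 ≤ e33 := le_trans k764 k1027
                                          have k1035 : e11 ≤ e33 := le_trans k903 k1026
                                          have k1036 : e19 ≤ e33 := le_trans k904 k1026
                                          have k1037 : e23 ≤ e33 := le_trans k905 k1026
                                          have k1039 : ¬ e0 ≤ e33 := N2 k114 k1028
                                          have k1045 : ¬ e29 ≤ e33 := N1 k1039 k803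
                                          have k1068 : ¬ e33 ≤ e21 := N1 k843 k1027
                                          have k1073 : e21 ≤ e33 := L3 l21 k1035 k1032
                                          have k1074 : e27 ≤ e33 := L3 l27 k1037 k1032
                                          obtain ⟨e34, q34⟩ : ∃ y, f e33 = y := ⟨_, rfl⟩
                                          have k1078 : e15 ≤ e34 := MO hf q15 q34 k1035
                                          have k1079 : e20 ≤ e34 := MO hf q20 q34 k1036
                                          have k1080 : e22 ≤ e34 := MO hf q22 q34 k1073
                                          have k1081 : e28 ≤ e34 := MO hf q28 q34 k1074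
                                          have k1082 : ¬ e33 ≤ e34 := FA hF q34
                                          have k1083 : ¬ e34 ≤ e33 := FB hG q34
                                          have k1084 : e34 ≤ e30 := MO hf q34 q30 k1030
                                          have k1085 : ¬ e31 ≤ e34 := L5 l33 k1081 k1082
                                          have k1086 : e19 ≤ e34 := le_trans k538 k1080
                                          have k1087 : e23 ≤ e34 := le_trans k500 k1080
                                          have k1120 : ¬ e11 ≤ e34 := N1 k1085 k1013
                                          by_cases k1128 : ∃ z, IsGLB ({e0, e34} : Set P) z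
                                          · obtain ⟨e35, g35⟩ := k1128
                                            have c35 : Core e0 e35 := CM g35
                                            obtain ⟨e36, l36⟩ := ZE h2 k1079 k427 g35
                                            have c36 : Core e0 e36 := CZ g35 k427 l36
                                            have k1133 : e35 ≤ e0 := G1 g35
                                            have k1134 : e35 ≤ e34 := G2 g35
                                            have k1135 : e19 ≤ e35 := G3 g35 k361 k1086
                                            have k1136 : e23 ≤ e35 := G3 g35 k499 k1087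
                                            have k1150 : e35 ≤ e29 := le_trans k1133 k803
                                            have k1151 : e35 ≤ e30 := le_trans k1134 k1084
                                            have k1185 : ¬ e11 ≤ e35 := N2 k1120 k1134
                                            have k1188 : ¬ e26 ≤ e35 := N1 k1185 k699
                                            have k1231 : e35 ≤ e31 := G3 g31 k1133 k1151
                                            have k1240 : e35 ≤ e11 := le_trans k1231 k1013
                                            have k1245 : e35 ≤ e26 := le_trans k1231 k1019
                                            have k1247 : e35 ≤ e33 := le_trans k1231 k1026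
                                            have k1263 : e35 ≤ e19 := Classical.byContradiction fun hn => HL _ _ _ _ _ _ c19 c35 c26 c12 c4 c9 (LT k1135 hn) (LT k1245 k1188) (LT k696 k682) (LT k165 k149) (LT k103 k105)
                                            obtain ⟨e37, l37⟩ := ZE h2 k1081 k800 g35
                                            have c37 : Core e0 e37 := CZ g35 k800 l37
                                            have k1273 : e35 ≤ e37 := L1 l37
                                            have k1274 : e28 ≤ e37 := L2 l37
                                            have k1279 : e37 ≤ e29 := L3 l37 k1150 k804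
                                            have k1281 : e37 ≤ e33 := L3 l37 k1247 k1027
                                            have k1283 : e20 ≤ e37 := le_trans k764 k1274
                                            have k1285 : e23 ≤ e37 := le_trans k1136 k1273
                                            have k1326 : ¬ e37 ≤ e27 := N1 k766 k1274
                                            have k1331 : e27 ≤ e37 := L3 l27 k1285 k1283
                                            obtain ⟨e38, q38⟩ : ∃ y, f e37 = y := ⟨_, rfl⟩
                                            have k1335 : e28 ≤ e38 := MO hf q28 q38 k1331
                                            have k1336 : ¬ e37 ≤ e38 := FA hF q38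
                                            have k1337 : ¬ e38 ≤ e37 := FB hG q38
                                            have k1338 : e38 ≤ e30 := MO hf q38 q30 k1279
                                            have k1339 : e38 ≤ e34 := MO hf q38 q34 k1281
                                            have k1340 : ¬ e35 ≤ e38 := L5 l37 k1335 k1336
                                            have k1379 : ¬ e19 ≤ e38 := N1 k1340 k1263
                                            by_cases k1386 : ∃ z, IsGLB ({e0, e38} : Set P) z
                                            · obtain ⟨e39, g39⟩ := k1386
                                              have c39 : Core e0 e39 := CM g39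
                                              have k1389 : e39 ≤ e0 := G1 g39
                                              have k1390 : e39 ≤ e38 := G2 g39
                                              have k1401 : e39 ≤ e34 := le_trans k1390 k1339
                                              have k1430 : ¬ e19 ≤ e39 := N2 k1379 k1390
                                              have k1433 : ¬ e35 ≤ e39 := N1 k1430 k1135
                                              have k1440 : e39 ≤ e35 := G3 g35 k1389 k1401
                                              exact HL _ _ _ _ _ _ c39 c35 c11 c0 c4 c9 (LT k1440 k1433) (LT k1240 k1185) (LT k131 k145) (LT k21 k28) (LT k103 k105)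
                                            · obtain ⟨e39, l39⟩ := (h1 e38).resolve_right k1386
                                              have c39 : Core e0 e39 := CJ k1386 l39
                                              have k1389 : e0 ≤ e39 := L1 l39
                                              have k1390 : e38 ≤ e39 := L2 l39
                                              have k1401 : e28 ≤ e39 := le_trans k1335 k1390
                                              have k1440 : e29 ≤ e39 := L3 l29 k1389 k1401
                                              have k1445 : e39 ≤ e29 := Classical.byContradiction fun hn => HL _ _ _ _ _ _ c2 c11 c21 c24 c29 c39 (LT k133 k172) (LT k430 k460) (LT k598 k592) (LT k839 k841) (LT k1440 hn)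
                                              have k1446 : e38 ≤ e29 := le_trans k1390 k1445
                                              obtain ⟨e40, l40⟩ := ZE h2 k1338 k1386 g31
                                              have c40 : Core e0 e40 := CZ g31 k1386 l40
                                              have k1450 : e31 ≤ e40 := L1 l40
                                              have k1451 : e38 ≤ e40 := L2 l40
                                              have k1452 : e40 ≤ e29 := L3 l40 k920 k1446
                                              have k1453 : e40 ≤ e30 := L3 l40 k900 k1338
                                              have k1463 : e28 ≤ e40 := le_trans k1335 k1451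
                                              have k1464 : ¬ e0 ≤ e40 := N2 k854 k1453
                                              have k1470 : ¬ e29 ≤ e40 := N1 k1464 k803
                                              have k1507 : e33 ≤ e40 := L3 l33 k1450 k1463
                                              have k1510 : e40 ≤ e33 := Classical.byContradiction fun hn => HL _ _ _ _ _ _ c2 c11 c21 c33 c40 c29 (LT k133 k172) (LT k430 k460) (LT k1073 k1068) (LT k1507 hn) (LT k1452 k1470)
                                              have k1515 : e38 ≤ e33 := le_trans k1451 k1510
                                              obtain ⟨e41, l41⟩ := ZE h2 k1339 k1386 g35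
                                              have c41 : Core e0 e41 := CZ g35 k1386 l41
                                              have k1519 : e35 ≤ e41 := L1 l41
                                              have k1520 : e38 ≤ e41 := L2 l41
                                              have k1525 : e41 ≤ e33 := L3 l41 k1247 k1515
                                              have k1526 : e41 ≤ e34 := L3 l41 k1134 k1339
                                              have k1532 : e28 ≤ e41 := le_trans k1335 k1520
                                              have k1542 : ¬ e11 ≤ e41 := N2 k1120 k1526
                                              have k1551 : ¬ e33 ≤ e41 := N1 k1542 k1035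
                                              have k1580 : ¬ e41 ≤ e37 := N1 k1337 k1520
                                              have k1584 : e37 ≤ e41 := L3 l37 k1519 k1532
                                              exact HL _ _ _ _ _ _ c19 c27 c37 c41 c33 c29 (LT k724 k759) (LT k1331 k1326) (LT k1584 k1580) (LT k1525 k1551) (LT k1030 k1045)
                                          · obtain ⟨e35, l35⟩ := (h1 e34).resolve_right k1128
                                            have c35 : Core e0 e35 := CJ k1128 l35
                                            have k1131 : e0 ≤ e35 := L1 l35
                                            have k1132 : e34 ≤ e35 := L2 l35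
                                            have k1140 : e31 ≤ e35 := le_trans k899 k1131
                                            have k1142 : e15 ≤ e35 := le_trans k1078 k1132
                                            have k1146 : e28 ≤ e35 := le_trans k1081 k1132
                                            have k1181 : e16 ≤ e35 := L3 l16 k1131 k1142
                                            have k1187 : e33 ≤ e35 := L3 l33 k1140 k1146
                                            have k1189 : e9 ≤ e35 := le_trans k296 k1181
                                            have k1192 : e35 ≤ e9 := Classical.byContradiction fun hn => HL _ _ _ _ _ _ c2 c7 c12 c17 c9 c35 (LT k62 k67) (LT k164 k170) (LT k332 k329) (LT k304 k313) (LT k1189 hn)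
                                            have k1204 : e33 ≤ e9 := le_trans k1187 k1192
                                            have k1207 : e34 ≤ e9 := le_trans k1132 k1192
                                            have k1214 : e34 ≤ e10 := MO hf q34 q10 k1204
                                            obtain ⟨e36, l36⟩ := ZE h2 k1084 k1128 g31
                                            have c36 : Core e0 e36 := CZ g31 k1128 l36
                                            have k1241 : e31 ≤ e36 := L1 l36
                                            have k1242 : e34 ≤ e36 := L2 l36
                                            have k1243 : e36 ≤ e9 := L3 l36 k916 k1207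
                                            have k1244 : e36 ≤ e10 := L3 l36 k1014 k1214
                                            have k1261 : e28 ≤ e36 := le_trans k1081 k1242
                                            have k1262 : ¬ e0 ≤ e36 := N2 k114 k1244
                                            have k1264 : ¬ e9 ≤ e36 := N1 k1262 k89
                                            have k1298 : ¬ e36 ≤ e33 := N1 k1083 k1242
                                            have k1305 : e33 ≤ e36 := L3 l33 k1241 k1261
                                            exact HL _ _ _ _ _ _ c2 c26 c21 c33 c36 c9 (LT k653 k689) (LT k698 k694) (LT k1073 k1068) (LT k1305 k1298) (LT k1243 k1264)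
                                        · obtain ⟨e31, l31⟩ := (h1 e30).resolve_right k894
                                          have c31 : Core e0 e31 := CJ k894 l31
                                          have k897 : e0 ≤ e31 := L1 l31
                                          have k898 : e30 ≤ e31 := L2 l31
                                          have k917 : e28 ≤ e31 := le_trans k851 k898
                                          have k945 : ¬ e31 ≤ e29 := N1 k853 k898
                                          have k949 : e29 ≤ e31 := L3 l29 k897 k917
                                          exact HL _ _ _ _ _ _ c2 c11 c0 c24 c29 c31 (LT k133 k172) (LT k131 k145) (LT k565 k596) (LT k839 k841) (LT k949 k945)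
                                  · obtain ⟨e26, l26⟩ := (h1 e25).resolve_right k648
                                    have c26 : Core e0 e26 := CJ k648 l26
                                    have k656 : e0 ≤ e26 := L1 l26
                                    have k657 : e25 ≤ e26 := L2 l26
                                    have k667 : e15 ≤ e26 := le_trans k615 k657
                                    have k669 : e22 ≤ e26 := le_trans k617 k657
                                    have k695 : e16 ≤ e26 := L3 l16 k656 k667
                                    have k700 : e9 ≤ e26 := le_trans k296 k695
                                    have k703 : e26 ≤ e9 := Classical.byContradiction fun hn => HL _ _ _ _ _ _ c2 c7 c12 c17 c9 c26 (LT k62 k67) (LT k164 k170) (LT k332 k329) (LT k304 k313) (LT k700 hn)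
                                    have k709 : e22 ≤ e9 := le_trans k669 k703
                                    obtain ⟨e27, l27⟩ := ZE h2 k472 k427 g23
                                    have c27 : Core e0 e27 := CZ g23 k427 l27
                                    have k718 : e23 ≤ e27 := L1 l27
                                    have k719 : e20 ≤ e27 := L2 l27
                                    have k720 : e27 ≤ e9 := L3 l27 k506 k405
                                    have k724 : e27 ≤ e17 := L3 l27 k535 k408
                                    have k726 : e27 ≤ e21 := L3 l27 k536 k431
                                    have k731 : e19 ≤ e27 := le_trans k537 k718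
                                    have k766 : ¬ e27 ≤ e19 := N1 k397 k719
                                    obtain ⟨e28, q28⟩ : ∃ y, f e27 = y := ⟨_, rfl⟩
                                    have k770 : e20 ≤ e28 := MO hf q20 q28 k731
                                    have k771 : ¬ e27 ≤ e28 := FA hF q28
                                    have k772 : ¬ e28 ≤ e27 := FB hG q28
                                    have k773 : e28 ≤ e10 := MO hf q28 q10 k720
                                    have k774 : e28 ≤ e18 := MO hf q28 q18 k724
                                    have k775 : e28 ≤ e22 := MO hf q28 q22 k726
                                    have k777 : ¬ e23 ≤ e28 := L5 l27 k770 k771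
                                    have k778 : e28 ≤ e9 := le_trans k775 k709
                                    have k805 : ¬ e19 ≤ e28 := N1 k777 k533
                                    by_cases k809 : ∃ z, IsGLB ({e0, e28} : Set P) z
                                    · obtain ⟨e29, g29⟩ := k809
                                      have c29 : Core e0 e29 := CM g29
                                      have k812 : e29 ≤ e0 := G1 g29
                                      have k813 : e29 ≤ e28 := G2 g29
                                      have k823 : e29 ≤ e18 := le_trans k813 k774
                                      have k848 : ¬ e19 ≤ e29 := N2 k805 k813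
                                      have k854 : e29 ≤ e19 := G3 g19 k812 k823
                                      exact HL _ _ _ _ _ _ c29 c19 c11 c0 c4 c9 (LT k854 k848) (LT k392 k389) (LT k131 k145) (LT k21 k28) (LT k103 k105)
                                    · obtain ⟨e29, l29⟩ := (h1 e28).resolve_right k809
                                      have c29 : Core e0 e29 := CJ k809 l29
                                      have k812 : e0 ≤ e29 := L1 l29
                                      have k813 : e28 ≤ e29 := L2 l29
                                      have k814 : e29 ≤ e9 := L3 l29 k89 k778
                                      have k824 : e20 ≤ e29 := le_trans k770 k813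
                                      have k851 : e24 ≤ e29 := L3 l24 k812 k824
                                      by_cases k853 : e29 ≤ e24
                                      · have k854 : e28 ≤ e24 := le_trans k813 k853
                                        obtain ⟨e30, l30⟩ := ZE h2 k773 k809 g11
                                        have c30 : Core e0 e30 := CZ g11 k809 l30
                                        have k876 : e11 ≤ e30 := L1 l30
                                        have k877 : e28 ≤ e30 := L2 l30
                                        have k879 : e30 ≤ e10 := L3 l30 k132 k773
                                        have k882 : e30 ≤ e24 := L3 l30 k573 k854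
                                        have k889 : e20 ≤ e30 := le_trans k770 k877
                                        have k890 : ¬ e0 ≤ e30 := N2 k114 k879
                                        have k895 : ¬ e24 ≤ e30 := N1 k890 k565
                                        have k930 : e21 ≤ e30 := L3 l21 k876 k889
                                        have k932 : e30 ≤ e21 := Classical.byContradiction fun hn => HL _ _ _ _ _ _ c2 c11 c21 c30 c24 c9 (LT k133 k172) (LT k430 k460) (LT k930 hn) (LT k882 k895) (LT k567 k599)
                                        have k935 : e28 ≤ e21 := le_trans k877 k932
                                        obtain ⟨e31, l31⟩ := ZE h2 k775 k809 g23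
                                        have c31 : Core e0 e31 := CZ g23 k809 l31
                                        have k938 : e23 ≤ e31 := L1 l31
                                        have k939 : e28 ≤ e31 := L2 l31
                                        have k945 : e31 ≤ e18 := L3 l31 k510 k774
                                        have k946 : e31 ≤ e21 := L3 l31 k536 k935
                                        have k954 : e20 ≤ e31 := le_trans k770 k939
                                        have k970 : ¬ e11 ≤ e31 := N2 k341 k945
                                        have k973 : ¬ e21 ≤ e31 := N1 k970 k430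
                                        have k994 : ¬ e31 ≤ e27 := N1 k772 k939
                                        have k996 : e27 ≤ e31 := L3 l27 k938 k954
                                        exact HL _ _ _ _ _ _ c19 c27 c31 c21 c24 c9 (LT k731 k766) (LT k996 k994) (LT k946 k973) (LT k598 k592) (LT k567 k599)
                                      · have k854 : ¬ e28 ≤ e24 := L4 l29 k565 k853
                                        have k855 : ¬ e28 ≤ e21 := N2 k854 k598
                                        have k856 : e9 ≤ e29 := Classical.byContradiction fun hn => HL _ _ _ _ _ _ c2 c11 c21 c24 c29 c9 (LT k133 k172) (LT k430 k460) (LT k598 k592) (LT k851 k853) (LT k814 hn)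
                                        obtain ⟨e30, l30⟩ := ZE h2 k773 k809 g11
                                        have c30 : Core e0 e30 := CZ g11 k809 l30
                                        have k873 : e11 ≤ e30 := L1 l30
                                        have k874 : e28 ≤ e30 := L2 l30
                                        have k875 : e30 ≤ e9 := L3 l30 k142 k778
                                        have k876 : e30 ≤ e10 := L3 l30 k132 k773
                                        have k883 : e19 ≤ e30 := le_trans k392 k873
                                        have k884 : e23 ≤ e30 := le_trans k532 k873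
                                        have k885 : e20 ≤ e30 := le_trans k770 k874
                                        have k886 : ¬ e0 ≤ e30 := N2 k114 k876
                                        have k888 : ¬ e9 ≤ e30 := N1 k886 k89
                                        have k916 : ¬ e30 ≤ e21 := N1 k855 k874
                                        have k919 : e21 ≤ e30 := L3 l21 k873 k885
                                        have k920 : e27 ≤ e30 := L3 l27 k884 k885
                                        obtain ⟨e31, q31⟩ : ∃ y, f e30 = y := ⟨_, rfl⟩
                                        have k923 : e15 ≤ e31 := MO hf q15 q31 k873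
                                        have k924 : e20 ≤ e31 := MO hf q20 q31 k883
                                        have k925 : e22 ≤ e31 := MO hf q22 q31 k919
                                        have k926 : e28 ≤ e31 := MO hf q28 q31 k920
                                        have k927 : ¬ e30 ≤ e31 := FA hF q31
                                        have k928 : ¬ e31 ≤ e30 := FB hG q31
                                        have k929 : e31 ≤ e10 := MO hf q31 q10 k875
                                        have k930 : ¬ e11 ≤ e31 := L5 l30 k926 k927
                                        have k931 : e19 ≤ e31 := le_trans k538 k925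
                                        have k932 : e23 ≤ e31 := le_trans k500 k925
                                        by_cases k966 : ∃ z, IsGLB ({e0, e31} : Set P) z
                                        · obtain ⟨e32, g32⟩ := k966
                                          have c32 : Core e0 e32 := CM g32
                                          obtain ⟨e33, l33⟩ := ZE h2 k924 k427 g32
                                          have c33 : Core e0 e33 := CZ g32 k427 l33
                                          have k971 : e32 ≤ e0 := G1 g32
                                          have k972 : e32 ≤ e31 := G2 g32
                                          have k973 : e19 ≤ e32 := G3 g32 k361 k931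
                                          have k974 : e23 ≤ e32 := G3 g32 k499 k932
                                          have k984 : e32 ≤ e9 := le_trans k971 k89
                                          have k990 : e32 ≤ e10 := le_trans k972 k929
                                          have k1025 : ¬ e11 ≤ e32 := N2 k930 k972
                                          have k1061 : e32 ≤ e11 := G3 g11 k971 k990
                                          have k1073 : e32 ≤ e30 := le_trans k1061 k873
                                          have k1087 : e32 ≤ e19 := Classical.byContradiction fun hn => HL _ _ _ _ _ _ c19 c32 c11 c0 c4 c9 (LT k973 hn) (LT k1061 k1025) (LT k131 k145) (LT k21 k28) (LT k103 k105)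
                                          obtain ⟨e34, l34⟩ := ZE h2 k926 k809 g32
                                          have c34 : Core e0 e34 := CZ g32 k809 l34
                                          have k1099 : e32 ≤ e34 := L1 l34
                                          have k1100 : e28 ≤ e34 := L2 l34
                                          have k1101 : e34 ≤ e9 := L3 l34 k984 k778
                                          have k1110 : e34 ≤ e30 := L3 l34 k1073 k874
                                          have k1112 : e20 ≤ e34 := le_trans k770 k1100
                                          have k1114 : e23 ≤ e34 := le_trans k974 k1099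
                                          have k1149 : ¬ e34 ≤ e27 := N1 k772 k1100
                                          have k1153 : e27 ≤ e34 := L3 l27 k1114 k1112
                                          obtain ⟨e35, q35⟩ : ∃ y, f e34 = y := ⟨_, rfl⟩
                                          have k1157 : e28 ≤ e35 := MO hf q28 q35 k1153
                                          have k1158 : ¬ e34 ≤ e35 := FA hF q35
                                          have k1159 : ¬ e35 ≤ e34 := FB hG q35
                                          have k1160 : e35 ≤ e10 := MO hf q35 q10 k1101
                                          have k1161 : e35 ≤ e31 := MO hf q35 q31 k1110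
                                          have k1162 : ¬ e32 ≤ e35 := L5 l34 k1157 k1158
                                          have k1194 : ¬ e19 ≤ e35 := N1 k1162 k1087
                                          by_cases k1202 : ∃ z, IsGLB ({e0, e35} : Set P) z
                                          · obtain ⟨e36, g36⟩ := k1202
                                            have c36 : Core e0 e36 := CM g36
                                            have k1205 : e36 ≤ e0 := G1 g36
                                            have k1206 : e36 ≤ e35 := G2 g36
                                            have k1218 : e36 ≤ e31 := le_trans k1206 k1161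
                                            have k1244 : ¬ e19 ≤ e36 := N2 k1194 k1206
                                            have k1247 : ¬ e32 ≤ e36 := N1 k1244 k973
                                            have k1254 : e36 ≤ e32 := G3 g32 k1205 k1218
                                            exact HL _ _ _ _ _ _ c36 c32 c11 c0 c4 c9 (LT k1254 k1247) (LT k1061 k1025) (LT k131 k145) (LT k21 k28) (LT k103 k105)
                                          · obtain ⟨e36, l36⟩ := (h1 e35).resolve_right k1202
                                            have c36 : Core e0 e36 := CJ k1202 l36
                                            have k1205 : e0 ≤ e36 := L1 l36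
                                            have k1206 : e35 ≤ e36 := L2 l36
                                            have k1215 : e28 ≤ e36 := le_trans k1157 k1206
                                            have k1250 : e29 ≤ e36 := L3 l29 k1205 k1215
                                            have k1259 : e9 ≤ e36 := le_trans k856 k1250
                                            have k1269 : e36 ≤ e9 := Classical.byContradiction fun hn => HL _ _ _ _ _ _ c2 c7 c12 c17 c9 c36 (LT k62 k67) (LT k164 k170) (LT k332 k329) (LT k304 k313) (LT k1259 hn)
                                            have k1274 : e35 ≤ e9 := le_trans k1206 k1269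
                                            obtain ⟨e37, l37⟩ := ZE h2 k1160 k1202 g11
                                            have c37 : Core e0 e37 := CZ g11 k1202 l37
                                            have k1282 : e11 ≤ e37 := L1 l37
                                            have k1283 : e35 ≤ e37 := L2 l37
                                            have k1284 : e37 ≤ e9 := L3 l37 k142 k1274
                                            have k1285 : e37 ≤ e10 := L3 l37 k132 k1160
                                            have k1297 : e28 ≤ e37 := le_trans k1157 k1283
                                            have k1298 : ¬ e0 ≤ e37 := N2 k114 k1285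
                                            have k1300 : ¬ e9 ≤ e37 := N1 k1298 k89
                                            have k1339 : e30 ≤ e37 := L3 l30 k1282 k1297
                                            have k1342 : e37 ≤ e30 := Classical.byContradiction fun hn => HL _ _ _ _ _ _ c2 c11 c21 c30 c37 c9 (LT k133 k172) (LT k430 k460) (LT k919 k916) (LT k1339 hn) (LT k1284 k1300)
                                            have k1343 : e35 ≤ e30 := le_trans k1283 k1342
                                            obtain ⟨e38, l38⟩ := ZE h2 k1161 k1202 g32
                                            have c38 : Core e0 e38 := CZ g32 k1202 l38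
                                            have k1347 : e32 ≤ e38 := L1 l38
                                            have k1348 : e35 ≤ e38 := L2 l38
                                            have k1355 : e38 ≤ e30 := L3 l38 k1073 k1343
                                            have k1356 : e38 ≤ e31 := L3 l38 k972 k1161
                                            have k1362 : e28 ≤ e38 := le_trans k1157 k1348
                                            have k1373 : ¬ e11 ≤ e38 := N2 k930 k1356
                                            have k1377 : ¬ e30 ≤ e38 := N1 k1373 k873
                                            have k1403 : ¬ e38 ≤ e34 := N1 k1159 k1348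
                                            have k1407 : e34 ≤ e38 := L3 l34 k1347 k1362
                                            exact HL _ _ _ _ _ _ c19 c27 c34 c38 c30 c9 (LT k731 k766) (LT k1153 k1149) (LT k1407 k1403) (LT k1355 k1377) (LT k875 k888)
                                        · obtain ⟨e32, l32⟩ := (h1 e31).resolve_right k966
                                          have c32 : Core e0 e32 := CJ k966 l32
                                          have k969 : e0 ≤ e32 := L1 l32
                                          have k970 : e31 ≤ e32 := L2 l32
                                          have k978 : e15 ≤ e32 := le_trans k923 k970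
                                          have k1013 : e16 ≤ e32 := L3 l16 k969 k978
                                          have k1021 : e9 ≤ e32 := le_trans k296 k1013
                                          have k1026 : e32 ≤ e9 := Classical.byContradiction fun hn => HL _ _ _ _ _ _ c2 c7 c12 c17 c9 c32 (LT k62 k67) (LT k164 k170) (LT k332 k329) (LT k304 k313) (LT k1021 hn)
                                          have k1031 : e31 ≤ e9 := le_trans k970 k1026
                                          obtain ⟨e33, l33⟩ := ZE h2 k929 k966 g11
                                          have c33 : Core e0 e33 := CZ g11 k966 l33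
                                          have k1039 : e11 ≤ e33 := L1 l33
                                          have k1040 : e31 ≤ e33 := L2 l33
                                          have k1041 : e33 ≤ e9 := L3 l33 k142 k1031
                                          have k1042 : e33 ≤ e10 := L3 l33 k132 k929
                                          have k1057 : e28 ≤ e33 := le_trans k926 k1040
                                          have k1058 : ¬ e0 ≤ e33 := N2 k114 k1042
                                          have k1060 : ¬ e9 ≤ e33 := N1 k1058 k89
                                          have k1092 : ¬ e33 ≤ e30 := N1 k928 k1040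
                                          have k1098 : e30 ≤ e33 := L3 l30 k1039 k1057
                                          exact HL _ _ _ _ _ _ c2 c11 c21 c30 c33 c9 (LT k133 k172) (LT k430 k460) (LT k919 k916) (LT k1098 k1092) (LT k1041 k1060)
                              · have k497 : ¬ e19 ≤ e22 := BN3 g19 k496 k476
                                obtain ⟨e23, l23⟩ := (h1 e22).resolve_right k496
                                have c23 : Core e0 e23 := CJ k496 l23
                                have k501 : e0 ≤ e23 := L1 l23
                                have k502 : e22 ≤ e23 := L2 l23
                                have k509 : e15 ≤ e23 := le_trans k471 k502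
                                have k534 : e16 ≤ e23 := L3 l16 k501 k509
                                have k538 : e9 ≤ e23 := le_trans k296 k534
                                have k541 : e23 ≤ e9 := Classical.byContradiction fun hn => HL _ _ _ _ _ _ c2 c7 c12 c17 c9 c23 (LT k62 k67) (LT k164 k170) (LT k332 k329) (LT k304 k313) (LT k538 hn)
                                have k544 : e22 ≤ e9 := le_trans k502 k541
                                obtain ⟨e24, l24⟩ := ZE h2 k475 k496 g11
                                have c24 : Core e0 e24 := CZ g11 k496 l24
                                have k550 : e11 ≤ e24 := L1 l24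
                                have k551 : e22 ≤ e24 := L2 l24
                                have k552 : e24 ≤ e9 := L3 l24 k142 k544
                                have k553 : e24 ≤ e10 := L3 l24 k132 k475
                                have k561 : e15 ≤ e24 := le_trans k471 k551
                                have k562 : e20 ≤ e24 := le_trans k472 k551
                                have k563 : ¬ e0 ≤ e24 := N2 k114 k553
                                have k565 : ¬ e9 ≤ e24 := N1 k563 k89
                                have k587 : ¬ e24 ≤ e21 := N1 k463 k561
                                have k591 : e17 ≤ e24 := L3 l17 k550 k561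
                                have k592 : e21 ≤ e24 := L3 l21 k550 k562
                                have k593 : e24 ≤ e17 := Classical.byContradiction fun hn => HL _ _ _ _ _ _ c2 c7 c12 c17 c24 c9 (LT k62 k67) (LT k164 k170) (LT k332 k329) (LT k591 hn) (LT k552 k565)
                                have k594 : e22 ≤ e17 := le_trans k551 k593
                                obtain ⟨e25, l25⟩ := ZE h2 k403 k427 g19
                                have c25 : Core e0 e25 := CZ g19 k427 l25
                                have k598 : e19 ≤ e25 := L1 l25
                                have k599 : e20 ≤ e25 := L2 l25
                                have k600 : e25 ≤ e9 := L3 l25 k369 k405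
                                have k604 : e25 ≤ e17 := L3 l25 k394 k408
                                have k606 : e25 ≤ e21 := L3 l25 k439 k431
                                have k637 : ¬ e25 ≤ e19 := N1 k397 k599
                                obtain ⟨e26, q26⟩ : ∃ y, f e25 = y := ⟨_, rfl⟩
                                have k640 : e20 ≤ e26 := MO hf q20 q26 k598
                                have k642 : ¬ e26 ≤ e25 := FB hG q26
                                have k643 : e26 ≤ e10 := MO hf q26 q10 k600
                                have k644 : e26 ≤ e18 := MO hf q26 q18 k604
                                have k645 : e26 ≤ e22 := MO hf q26 q22 k606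
                                have k647 : e26 ≤ e9 := le_trans k645 k544
                                have k650 : e26 ≤ e17 := le_trans k645 k594
                                by_cases k672 : ∃ z, IsGLB ({e0, e26} : Set P) z
                                · obtain ⟨e27, g27⟩ := k672
                                  have c27 : Core e0 e27 := CM g27
                                  have k675 : e27 ≤ e0 := G1 g27
                                  have k676 : e27 ≤ e26 := G2 g27
                                  have k686 : e27 ≤ e18 := le_trans k676 k644
                                  have k687 : e27 ≤ e22 := le_trans k676 k645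
                                  have k710 : ¬ e19 ≤ e27 := N2 k497 k687
                                  have k715 : e27 ≤ e19 := G3 g19 k675 k686
                                  exact HL _ _ _ _ _ _ c27 c19 c11 c0 c4 c9 (LT k715 k710) (LT k392 k389) (LT k131 k145) (LT k21 k28) (LT k103 k105)
                                · obtain ⟨e27, l27⟩ := ZE h2 k643 k672 g11
                                  have c27 : Core e0 e27 := CZ g11 k672 l27
                                  have k675 : e11 ≤ e27 := L1 l27
                                  have k676 : e26 ≤ e27 := L2 l27
                                  have k681 : e27 ≤ e17 := L3 l27 k302 k650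
                                  have k687 : e20 ≤ e27 := le_trans k640 k676
                                  have k714 : e21 ≤ e27 := L3 l21 k675 k687
                                  by_cases k716 : e27 ≤ e21
                                  · have k717 : e26 ≤ e21 := le_trans k676 k716
                                    obtain ⟨e28, l28⟩ := ZE h2 k644 k672 g19
                                    have c28 : Core e0 e28 := CZ g19 k672 l28
                                    have k732 : e19 ≤ e28 := L1 l28
                                    have k733 : e26 ≤ e28 := L2 l28
                                    have k739 : e28 ≤ e18 := L3 l28 k362 k644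
                                    have k740 : e28 ≤ e21 := L3 l28 k439 k717
                                    have k744 : e20 ≤ e28 := le_trans k640 k733
                                    have k754 : ¬ e11 ≤ e28 := N2 k341 k739
                                    have k757 : ¬ e21 ≤ e28 := N1 k754 k430
                                    have k776 : ¬ e28 ≤ e25 := N1 k642 k733
                                    have k778 : e25 ≤ e28 := L3 l25 k732 k744
                                    exact HL _ _ _ _ _ _ c19 c25 c28 c21 c24 c9 (LT k598 k637) (LT k778 k776) (LT k740 k757) (LT k592 k587) (LT k552 k565)
                                  · have k718 : e17 ≤ e27 := Classical.byContradiction fun hn => HL _ _ _ _ _ _ c2 c11 c21 c27 c17 c9 (LT k133 k172) (LT k430 k460) (LT k714 k716) (LT k681 hn) (LT k304 k313)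
                                    have k722 : e15 ≤ e27 := le_trans k303 k718
                                    obtain ⟨e28, l28⟩ := ZE h2 k644 k672 g19
                                    have c28 : Core e0 e28 := CZ g19 k672 l28
                                    have k733 : e19 ≤ e28 := L1 l28
                                    have k734 : e26 ≤ e28 := L2 l28
                                    have k735 : e28 ≤ e9 := L3 l28 k369 k647
                                    have k739 : e28 ≤ e17 := L3 l28 k394 k650
                                    have k744 : e20 ≤ e28 := le_trans k640 k734
                                    have k775 : ¬ e28 ≤ e25 := N1 k642 k734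
                                    have k777 : e25 ≤ e28 := L3 l25 k733 k744
                                    obtain ⟨e29, q29⟩ : ∃ y, f e28 = y := ⟨_, rfl⟩
                                    have k780 : e26 ≤ e29 := MO hf q26 q29 k777
                                    have k781 : ¬ e28 ≤ e29 := FA hF q29
                                    have k782 : ¬ e29 ≤ e28 := FB hG q29
                                    have k783 : e29 ≤ e10 := MO hf q29 q10 k735
                                    have k784 : e29 ≤ e18 := MO hf q29 q18 k739
                                    have k785 : ¬ e19 ≤ e29 := L5 l28 k780 k781
                                    by_cases k814 : ∃ z, IsGLB ({e0, e29} : Set P) z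
                                    · obtain ⟨e30, g30⟩ := k814
                                      have c30 : Core e0 e30 := CM g30
                                      have k817 : e30 ≤ e0 := G1 g30
                                      have k818 : e30 ≤ e29 := G2 g30
                                      have k828 : e30 ≤ e18 := le_trans k818 k784
                                      have k851 : ¬ e19 ≤ e30 := N2 k785 k818
                                      have k858 : e30 ≤ e19 := G3 g19 k817 k828
                                      exact HL _ _ _ _ _ _ c30 c19 c11 c0 c4 c9 (LT k858 k851) (LT k392 k389) (LT k131 k145) (LT k21 k28) (LT k103 k105)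
                                    · obtain ⟨e30, l30⟩ := (h1 e29).resolve_right k814
                                      have c30 : Core e0 e30 := CJ k814 l30
                                      have k817 : e0 ≤ e30 := L1 l30
                                      have k818 : e29 ≤ e30 := L2 l30
                                      have k822 : e11 ≤ e30 := le_trans k131 k817
                                      have k825 : e26 ≤ e30 := le_trans k780 k818
                                      have k854 : e27 ≤ e30 := L3 l27 k822 k825
                                      have k859 : e15 ≤ e30 := le_trans k722 k854
                                      have k864 : e16 ≤ e30 := L3 l16 k817 k859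
                                      have k867 : e9 ≤ e30 := le_trans k296 k864
                                      have k870 : e30 ≤ e9 := Classical.byContradiction fun hn => HL _ _ _ _ _ _ c2 c7 c12 c17 c9 c30 (LT k62 k67) (LT k164 k170) (LT k332 k329) (LT k304 k313) (LT k867 hn)
                                      have k874 : e29 ≤ e9 := le_trans k818 k870
                                      obtain ⟨e31, l31⟩ := ZE h2 k783 k814 g11
                                      have c31 : Core e0 e31 := CZ g11 k814 l31
                                      have k881 : e11 ≤ e31 := L1 l31
                                      have k882 : e29 ≤ e31 := L2 l31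
                                      have k883 : e31 ≤ e9 := L3 l31 k142 k874
                                      have k884 : e31 ≤ e10 := L3 l31 k132 k783
                                      have k893 : e26 ≤ e31 := le_trans k780 k882
                                      have k894 : ¬ e0 ≤ e31 := N2 k114 k884
                                      have k896 : ¬ e9 ≤ e31 := N1 k894 k89
                                      have k927 : e27 ≤ e31 := L3 l27 k881 k893
                                      have k933 : e17 ≤ e31 := le_trans k718 k927
                                      have k936 : e31 ≤ e17 := Classical.byContradiction fun hn => HL _ _ _ _ _ _ c2 c7 c12 c17 c31 c9 (LT k62 k67) (LT k164 k170) (LT k332 k329) (LT k933 hn) (LT k883 k896)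
                                      have k939 : e29 ≤ e17 := le_trans k882 k936
                                      obtain ⟨e32, l32⟩ := ZE h2 k784 k814 g19
                                      have c32 : Core e0 e32 := CZ g19 k814 l32
                                      have k945 : e19 ≤ e32 := L1 l32
                                      have k946 : e29 ≤ e32 := L2 l32
                                      have k951 : e32 ≤ e17 := L3 l32 k394 k939
                                      have k952 : e32 ≤ e18 := L3 l32 k362 k784
                                      have k959 : e26 ≤ e32 := le_trans k780 k946
                                      have k968 : ¬ e11 ≤ e32 := N2 k341 k952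
                                      have k970 : ¬ e17 ≤ e32 := N1 k968 k302
                                      have k994 : ¬ e32 ≤ e28 := N1 k782 k946
                                      have k997 : e28 ≤ e32 := L3 l28 k945 k959
                                      exact HL _ _ _ _ _ _ c19 c25 c28 c32 c17 c9 (LT k598 k637) (LT k777 k775) (LT k997 k994) (LT k951 k970) (LT k304 k313)
                        · obtain ⟨e19, l19⟩ := (h1 e18).resolve_right k358
                          have c19 : Core e0 e19 := CJ k358 l19
                          have k361 : e0 ≤ e19 := L1 l19
                          have k362 : e18 ≤ e19 := L2 l19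
                          have k368 : e8 ≤ e19 := le_trans k335 k362
                          have k389 : e9 ≤ e19 := L3 l9 k361 k368
                          have k394 : e19 ≤ e9 := Classical.byContradiction fun hn => HL _ _ _ _ _ _ c2 c7 c12 c17 c9 c19 (LT k62 k67) (LT k164 k170) (LT k332 k329) (LT k304 k313) (LT k389 hn)
                          have k397 : e18 ≤ e9 := le_trans k362 k394
                          obtain ⟨e20, l20⟩ := ZE h2 k340 k358 g11
                          have c20 : Core e0 e20 := CZ g11 k358 l20
                          have k403 : e11 ≤ e20 := L1 l20
                          have k404 : e18 ≤ e20 := L2 l20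
                          have k405 : e20 ≤ e9 := L3 l20 k142 k397
                          have k406 : e20 ≤ e10 := L3 l20 k132 k340
                          have k415 : e15 ≤ e20 := le_trans k337 k404
                          have k416 : ¬ e0 ≤ e20 := N2 k114 k406
                          have k418 : ¬ e9 ≤ e20 := N1 k416 k89
                          have k437 : ¬ e20 ≤ e17 := N1 k339 k404
                          have k441 : e17 ≤ e20 := L3 l17 k403 k415
                          exact HL _ _ _ _ _ _ c2 c7 c12 c17 c20 c9 (LT k62 k67) (LT k164 k170) (LT k332 k329) (LT k441 k437) (LT k405 k418)
              · obtain ⟨e11, l11⟩ := (h1 e10).resolve_right k126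
                have c11 : Core e0 e11 := CJ k126 l11
                have k129 : e0 ≤ e11 := L1 l11
                have k130 : e10 ≤ e11 := L2 l11
                have k132 : e2 ≤ e11 := le_trans k6 k129
                have k138 : e8 ≤ e11 := le_trans k111 k130
                have k149 : ¬ e11 ≤ e9 := N1 k113 k130
                have k151 : e9 ≤ e11 := L3 l9 k129 k138
                obtain ⟨e12, q12⟩ : ∃ y, f e11 = y := ⟨_, rfl⟩
                have k153 : e1 ≤ e12 := MO hf q1 q12 k129
                have k154 : e3 ≤ e12 := MO hf q3 q12 k132
                have k157 : e10 ≤ e12 := MO hf q10 q12 k151
                have k158 : ¬ e11 ≤ e12 := FA hF q12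
                have k159 : ¬ e12 ≤ e11 := FB hG q12
                have k160 : ¬ e0 ≤ e12 := L5 l11 k157 k158
                have k161 : e2 ≤ e12 := le_trans k7 k153
                by_cases k177 : ∃ z, IsGLB ({e0, e12} : Set P) z
                · obtain ⟨e13, g13⟩ := k177
                  have c13 : Core e0 e13 := CM g13
                  obtain ⟨e14, l14⟩ := ZE h2 k154 k18 g13
                  have c14 : Core e0 e14 := CZ g13 k18 l14
                  have k182 : e13 ≤ e0 := G1 g13
                  have k183 : e13 ≤ e12 := G2 g13
                  have k184 : e2 ≤ e13 := G3 g13 k6 k161
                  have k188 : ¬ e13 ≤ e10 := BN3 g13 k126 k157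
                  have k198 : ¬ e0 ≤ e13 := N2 k160 k183
                  have k221 : ¬ e13 ≤ e2 := N2 k188 k115
                  exact HL _ _ _ _ _ _ c2 c13 c0 c4 c9 c11 (LT k184 k221) (LT k182 k198) (LT k21 k28) (LT k103 k105) (LT k151 k149)
                · obtain ⟨e13, l13⟩ := (h1 e12).resolve_right k177
                  have c13 : Core e0 e13 := CJ k177 l13
                  have k180 : e0 ≤ e13 := L1 l13
                  have k181 : e12 ≤ e13 := L2 l13
                  have k190 : e10 ≤ e13 := le_trans k157 k181
                  have k203 : ¬ e13 ≤ e11 := N1 k159 k181
                  have k206 : e11 ≤ e13 := L3 l11 k180 k190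
                  exact HL _ _ _ _ _ _ c2 c0 c4 c9 c11 c13 (LT k6 k9) (LT k21 k28) (LT k103 k105) (LT k151 k149) (LT k206 k203)
        · have k54 : ¬ e6 ≤ e1 := G4 g2 k42 k53
          obtain ⟨e7, q7⟩ : ∃ y, f e6 = y := ⟨_, rfl⟩
          have k57 : e3 ≤ e7 := MO hf q3 q7 k44
          have k60 : e7 ≤ e1 := MO hf q7 q1 k42
          have k61 : e7 ≤ e5 := MO hf q7 q5 k47
          by_cases k67 : ∃ z, IsGLB ({e0, e7} : Set P) z
          · obtain ⟨e8, g8⟩ := k67
            have c8 : Core e0 e8 := CM g8
            have k70 : e8 ≤ e0 := G1 g8
            have k71 : e8 ≤ e7 := G2 g8
            have k72 : ¬ e8 ≤ e3 := BN3 g8 k18 k57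
            have k74 : e8 ≤ e4 := le_trans k70 k21
            have k75 : e8 ≤ e1 := le_trans k71 k60
            have k76 : e8 ≤ e5 := le_trans k71 k61
            have k85 : e8 ≤ e2 := G3 g2 k70 k75
            have k86 : e8 ≤ e6 := G3 g6 k70 k76
            by_cases k87 : e2 ≤ e8
            · have k88 : e2 ≤ e7 := le_trans k87 k71
              obtain ⟨e9, l9⟩ := ZE h2 k31 k18 g6
              have c9 : Core e0 e9 := CZ g6 k18 l9
              have k91 : e6 ≤ e9 := L1 l9
              have k92 : e3 ≤ e9 := L2 l9
              have k93 : e9 ≤ e4 := L3 l9 k47 k22
              have k94 : e9 ≤ e5 := L3 l9 k43 k31
              have k95 : e2 ≤ e9 := le_trans k44 k91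
              have k97 : ¬ e0 ≤ e9 := N2 k34 k94
              have k98 : ¬ e4 ≤ e9 := N1 k97 k21
              have k102 : ¬ e9 ≤ e6 := N1 k52 k92
              obtain ⟨e10, q10⟩ : ∃ y, f e9 = y := ⟨_, rfl⟩
              have k109 : e3 ≤ e10 := MO hf q3 q10 k95
              have k110 : e7 ≤ e10 := MO hf q7 q10 k91
              have k111 : ¬ e9 ≤ e10 := FA hF q10
              have k112 : ¬ e10 ≤ e9 := FB hG q10
              have k113 : e10 ≤ e5 := MO hf q10 q5 k93
              have k114 : ¬ e6 ≤ e10 := L5 l9 k109 k111
              have k115 : e2 ≤ e10 := le_trans k88 k110
              by_cases k125 : ∃ z, IsGLB ({e0, e10} : Set P) z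
              · obtain ⟨e11, g11⟩ := k125
                have c11 : Core e0 e11 := CM g11
                have k128 : e11 ≤ e0 := G1 g11
                have k129 : e11 ≤ e10 := G2 g11
                have k130 : e2 ≤ e11 := G3 g11 k6 k115
                have k134 : e11 ≤ e4 := le_trans k128 k21
                have k135 : e11 ≤ e5 := le_trans k129 k113
                have k140 : ¬ e3 ≤ e11 := N2 k15 k128
                have k144 : ¬ e6 ≤ e11 := N2 k114 k129
                have k145 : e11 ≤ e6 := G3 g6 k128 k135
                have k146 : e11 ≤ e9 := le_trans k145 k91
                by_cases k147 : e11 ≤ e2
                · have k148 : e11 ≤ e1 := le_trans k147 k7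
                  have k149 : e11 ≤ e7 := le_trans k147 k88
                  obtain ⟨e12, l12⟩ := ZE h2 k109 k18 g11
                  have c12 : Core e0 e12 := CZ g11 k18 l12
                  have k153 : e11 ≤ e12 := L1 l12
                  have k154 : e3 ≤ e12 := L2 l12
                  have k155 : e12 ≤ e1 := L3 l12 k148 k14
                  have k156 : e12 ≤ e4 := L3 l12 k134 k22
                  have k159 : e12 ≤ e9 := L3 l12 k146 k92
                  have k161 : e2 ≤ e12 := le_trans k130 k153
                  have k167 : ¬ e12 ≤ e2 := N1 k13 k154
                  have k170 : ¬ e12 ≤ e11 := N1 k140 k154
                  have k172 : ¬ e6 ≤ e12 := N2 k54 k155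
                  have k173 : ¬ e9 ≤ e12 := N1 k172 k91
                  obtain ⟨e13, q13⟩ : ∃ y, f e12 = y := ⟨_, rfl⟩
                  have k177 : e3 ≤ e13 := MO hf q3 q13 k161
                  have k178 : ¬ e12 ≤ e13 := FA hF q13
                  have k179 : ¬ e13 ≤ e12 := FB hG q13
                  have k180 : e13 ≤ e5 := MO hf q13 q5 k156
                  have k181 : e13 ≤ e10 := MO hf q13 q10 k159
                  have k182 : ¬ e11 ≤ e13 := L5 l12 k177 k178
                  have k194 : ¬ e2 ≤ e13 := N1 k182 k147
                  by_cases k199 : ∃ z, IsGLB ({e0, e13} : Set P) z
                  · obtain ⟨e14, g14⟩ := k199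
                    have c14 : Core e0 e14 := CM g14
                    have k202 : e14 ≤ e0 := G1 g14
                    have k203 : e14 ≤ e13 := G2 g14
                    have k204 : ¬ e14 ≤ e3 := BN3 g14 k18 k177
                    have k206 : e14 ≤ e4 := le_trans k202 k21
                    have k207 : e14 ≤ e5 := le_trans k203 k180
                    have k208 : e14 ≤ e10 := le_trans k203 k181
                    have k213 : ¬ e2 ≤ e14 := N2 k194 k203
                    have k223 : e14 ≤ e6 := G3 g6 k202 k207
                    have k224 : e14 ≤ e11 := G3 g11 k202 k208
                    have k225 : e14 ≤ e9 := le_trans k223 k91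
                    have k227 : e14 ≤ e2 := le_trans k224 k147
                    have k230 : e14 ≤ e12 := le_trans k224 k153
                    obtain ⟨e15, q15⟩ : ∃ y, f e14 = y := ⟨_, rfl⟩
                    have k233 : ¬ e15 ≤ e14 := FB hG q15
                    have k235 : e15 ≤ e3 := MO hf q15 q3 k227
                    have k238 : e15 ≤ e10 := MO hf q15 q10 k225
                    have k239 : e15 ≤ e13 := MO hf q15 q13 k230
                    have k240 : ¬ e15 ≤ e0 := G5 g14 k239 k233
                    have k241 : e15 ≤ e4 := le_trans k235 k22
                    have k242 : e15 ≤ e9 := le_trans k235 k92
                    have k243 : e15 ≤ e12 := le_trans k235 k154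
                    have k257 : ¬ e15 ≤ e2 := N2 k240 k6
                    by_cases k261 : ∃ z, IsGLB ({e0, e15} : Set P) z
                    · obtain ⟨e16, g16⟩ := k261
                      have c16 : Core e0 e16 := CM g16
                      have k264 : e16 ≤ e0 := G1 g16
                      have k265 : e16 ≤ e15 := G2 g16
                      have k269 : e16 ≤ e3 := le_trans k265 k235
                      have k275 : e16 ≤ e13 := le_trans k265 k239
                      have k290 : ¬ e14 ≤ e16 := N2 k204 k269
                      have k296 : e16 ≤ e14 := G3 g14 k264 k275
                      exact HL _ _ _ _ _ _ c16 c14 c2 c6 c0 c4 (LT k296 k290) (LT k227 k213) (LT k44 k53) (LT k42 k48) (LT k21 k28)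
                    · obtain ⟨e16, l16⟩ := ZE h2 k238 k261 g11
                      have c16 : Core e0 e16 := CZ g11 k261 l16
                      have k264 : e11 ≤ e16 := L1 l16
                      have k265 : e15 ≤ e16 := L2 l16
                      have k272 : e16 ≤ e12 := L3 l16 k153 k243
                      have k273 : e2 ≤ e16 := le_trans k130 k264
                      have k288 : ¬ e16 ≤ e2 := N1 k257 k265
                      have k293 : e12 ≤ e16 := Classical.byContradiction fun hn => HL _ _ _ _ _ _ c14 c2 c16 c12 c9 c4 (LT k227 k213) (LT k273 k288) (LT k272 hn) (LT k159 k173) (LT k93 k98)
                      have k294 : e3 ≤ e16 := le_trans k154 k293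
                      obtain ⟨e17, l17⟩ := ZE h2 k239 k261 g14
                      have c17 : Core e0 e17 := CZ g14 k261 l17
                      have k297 : e14 ≤ e17 := L1 l17
                      have k298 : e15 ≤ e17 := L2 l17
                      have k300 : e17 ≤ e4 := L3 l17 k206 k241
                      have k303 : e17 ≤ e9 := L3 l17 k225 k242
                      have k305 : e17 ≤ e12 := L3 l17 k230 k243
                      have k306 : e17 ≤ e13 := L3 l17 k203 k239
                      have k312 : ¬ e2 ≤ e17 := N2 k194 k306
                      have k319 : ¬ e12 ≤ e17 := N1 k312 k161
                      have k329 : ¬ e17 ≤ e14 := N1 k233 k298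
                      obtain ⟨e18, q18⟩ : ∃ y, f e17 = y := ⟨_, rfl⟩
                      have k332 : e15 ≤ e18 := MO hf q15 q18 k297
                      have k333 : ¬ e17 ≤ e18 := FA hF q18
                      have k334 : ¬ e18 ≤ e17 := FB hG q18
                      have k335 : e18 ≤ e5 := MO hf q18 q5 k300
                      have k336 : e18 ≤ e10 := MO hf q18 q10 k303
                      have k337 : e18 ≤ e13 := MO hf q18 q13 k305
                      have k338 : ¬ e14 ≤ e18 := L5 l17 k332 k333
                      by_cases k360 : ∃ z, IsGLB ({e0, e18} : Set P) z
                      · obtain ⟨e19, g19⟩ := k360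
                        have c19 : Core e0 e19 := CM g19
                        have k363 : e19 ≤ e0 := G1 g19
                        have k364 : e19 ≤ e18 := G2 g19
                        have k370 : e19 ≤ e13 := le_trans k364 k337
                        have k386 : ¬ e14 ≤ e19 := N2 k338 k364
                        have k392 : e19 ≤ e14 := G3 g14 k363 k370
                        exact HL _ _ _ _ _ _ c19 c14 c2 c6 c0 c4 (LT k392 k386) (LT k227 k213) (LT k44 k53) (LT k42 k48) (LT k21 k28)
                      · obtain ⟨e19, l19⟩ := (h1 e18).resolve_right k360
                        have c19 : Core e0 e19 := CJ k360 l19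
                        have k363 : e0 ≤ e19 := L1 l19
                        have k364 : e18 ≤ e19 := L2 l19
                        have k369 : e11 ≤ e19 := le_trans k128 k363
                        have k371 : e15 ≤ e19 := le_trans k332 k364
                        have k390 : e16 ≤ e19 := L3 l16 k369 k371
                        have k392 : e3 ≤ e19 := le_trans k294 k390
                        have k394 : e4 ≤ e19 := L3 l4 k363 k392
                        have k396 : e19 ≤ e4 := Classical.byContradiction fun hn => HL _ _ _ _ _ _ c14 c2 c6 c9 c4 c19 (LT k227 k213) (LT k44 k53) (LT k91 k102) (LT k93 k98) (LT k394 hn)
                        have k397 : e18 ≤ e4 := le_trans k364 k396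
                        obtain ⟨e20, l20⟩ := ZE h2 k335 k360 g6
                        have c20 : Core e0 e20 := CZ g6 k360 l20
                        have k401 : e6 ≤ e20 := L1 l20
                        have k402 : e18 ≤ e20 := L2 l20
                        have k403 : e20 ≤ e4 := L3 l20 k47 k397
                        have k404 : e20 ≤ e5 := L3 l20 k43 k335
                        have k408 : e11 ≤ e20 := le_trans k145 k401
                        have k410 : e15 ≤ e20 := le_trans k332 k402
                        have k411 : ¬ e0 ≤ e20 := N2 k34 k404
                        have k412 : ¬ e4 ≤ e20 := N1 k411 k21
                        have k427 : ¬ e20 ≤ e12 := N1 k172 k401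
                        have k432 : e16 ≤ e20 := L3 l16 k408 k410
                        have k434 : e3 ≤ e20 := le_trans k294 k432
                        have k435 : e12 ≤ e20 := le_trans k293 k432
                        have k436 : e9 ≤ e20 := L3 l9 k401 k434
                        have k437 : e20 ≤ e9 := Classical.byContradiction fun hn => HL _ _ _ _ _ _ c14 c2 c6 c9 c20 c4 (LT k227 k213) (LT k44 k53) (LT k91 k102) (LT k436 hn) (LT k403 k412)
                        have k438 : e18 ≤ e9 := le_trans k402 k437
                        obtain ⟨e21, l21⟩ := ZE h2 k336 k360 g11
                        have c21 : Core e0 e21 := CZ g11 k360 l21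
                        have k442 : e11 ≤ e21 := L1 l21
                        have k443 : e18 ≤ e21 := L2 l21
                        have k446 : e21 ≤ e9 := L3 l21 k146 k438
                        have k447 : e21 ≤ e10 := L3 l21 k129 k336
                        have k453 : e15 ≤ e21 := le_trans k332 k443
                        have k464 : ¬ e6 ≤ e21 := N2 k114 k447
                        have k465 : ¬ e9 ≤ e21 := N1 k464 k91
                        have k474 : e16 ≤ e21 := L3 l16 k442 k453
                        have k477 : e12 ≤ e21 := le_trans k293 k474
                        have k478 : e21 ≤ e12 := Classical.byContradiction fun hn => HL _ _ _ _ _ _ c14 c17 c12 c21 c9 c4 (LT k297 k329) (LT k305 k319) (LT k477 hn) (LT k446 k465) (LT k93 k98)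
                        have k484 : e18 ≤ e12 := le_trans k443 k478
                        obtain ⟨e22, l22⟩ := ZE h2 k337 k360 g14
                        have c22 : Core e0 e22 := CZ g14 k360 l22
                        have k489 : e14 ≤ e22 := L1 l22
                        have k490 : e18 ≤ e22 := L2 l22
                        have k497 : e22 ≤ e12 := L3 l22 k230 k484
                        have k498 : e22 ≤ e13 := L3 l22 k203 k337
                        have k503 : e15 ≤ e22 := le_trans k332 k490
                        have k509 : ¬ e2 ≤ e22 := N2 k194 k498
                        have k516 : ¬ e12 ≤ e22 := N1 k509 k161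
                        have k530 : ¬ e22 ≤ e17 := N1 k334 k490
                        have k532 : e17 ≤ e22 := L3 l17 k489 k503
                        exact HL _ _ _ _ _ _ c14 c17 c22 c12 c20 c4 (LT k297 k329) (LT k532 k530) (LT k497 k516) (LT k435 k427) (LT k403 k412)
                  · obtain ⟨e14, l14⟩ := (h1 e13).resolve_right k199
                    have c14 : Core e0 e14 := CJ k199 l14
                    have k202 : e0 ≤ e14 := L1 l14
                    have k203 : e13 ≤ e14 := L2 l14
                    have k205 : e2 ≤ e14 := le_trans k6 k202
                    have k208 : e11 ≤ e14 := le_trans k128 k202
                    have k209 : e3 ≤ e14 := le_trans k177 k203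
                    have k223 : e4 ≤ e14 := L3 l4 k202 k209
                    have k225 : e12 ≤ e14 := L3 l12 k208 k209
                    by_cases k226 : e14 ≤ e4
                    · have k227 : e13 ≤ e4 := le_trans k203 k226
                      obtain ⟨e15, l15⟩ := ZE h2 k180 k199 g6
                      have c15 : Core e0 e15 := CZ g6 k199 l15
                      have k231 : e6 ≤ e15 := L1 l15
                      have k232 : e13 ≤ e15 := L2 l15
                      have k233 : e15 ≤ e4 := L3 l15 k47 k227
                      have k234 : e15 ≤ e5 := L3 l15 k43 k180
                      have k236 : e2 ≤ e15 := le_trans k44 k231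
                      have k238 : e11 ≤ e15 := le_trans k145 k231
                      have k239 : e3 ≤ e15 := le_trans k177 k232
                      have k240 : ¬ e0 ≤ e15 := N2 k34 k234
                      have k241 : ¬ e4 ≤ e15 := N1 k240 k21
                      have k256 : e9 ≤ e15 := L3 l9 k231 k239
                      have k257 : e12 ≤ e15 := L3 l12 k238 k239
                      by_cases k258 : e15 ≤ e9
                      · have k259 : e13 ≤ e9 := le_trans k232 k258
                        obtain ⟨e16, l16⟩ := ZE h2 k181 k199 g11
                        have c16 : Core e0 e16 := CZ g11 k199 l16
                        have k263 : e11 ≤ e16 := L1 l16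
                        have k264 : e13 ≤ e16 := L2 l16
                        have k265 : e16 ≤ e4 := L3 l16 k134 k227
                        have k267 : e16 ≤ e9 := L3 l16 k146 k259
                        have k268 : e16 ≤ e10 := L3 l16 k129 k181
                        have k271 : e2 ≤ e16 := le_trans k130 k263
                        have k273 : e3 ≤ e16 := le_trans k177 k264
                        have k285 : ¬ e6 ≤ e16 := N2 k114 k268
                        have k286 : ¬ e9 ≤ e16 := N1 k285 k91
                        have k289 : ¬ e16 ≤ e12 := N1 k179 k264
                        have k291 : e12 ≤ e16 := L3 l12 k263 k273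
                        obtain ⟨e17, q17⟩ : ∃ y, f e16 = y := ⟨_, rfl⟩
                        have k293 : e3 ≤ e17 := MO hf q3 q17 k271
                        have k294 : e13 ≤ e17 := MO hf q13 q17 k291
                        have k295 : ¬ e16 ≤ e17 := FA hF q17
                        have k296 : ¬ e17 ≤ e16 := FB hG q17
                        have k297 : e17 ≤ e5 := MO hf q17 q5 k265
                        have k298 : e17 ≤ e10 := MO hf q17 q10 k267
                        have k299 : ¬ e11 ≤ e17 := L5 l16 k294 k295
                        have k313 : ¬ e2 ≤ e17 := N1 k299 k147
                        by_cases k321 : ∃ z, IsGLB ({e0, e17} : Set P) z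
                        · obtain ⟨e18, g18⟩ := k321
                          have c18 : Core e0 e18 := CM g18
                          have k324 : e18 ≤ e0 := G1 g18
                          have k325 : e18 ≤ e17 := G2 g18
                          have k332 : e18 ≤ e10 := le_trans k325 k298
                          have k338 : ¬ e2 ≤ e18 := N2 k313 k325
                          have k344 : ¬ e11 ≤ e18 := N1 k338 k130
                          have k352 : e18 ≤ e11 := G3 g11 k324 k332
                          exact HL _ _ _ _ _ _ c18 c11 c12 c16 c9 c4 (LT k352 k344) (LT k153 k170) (LT k291 k289) (LT k267 k286) (LT k93 k98)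
                        · obtain ⟨e18, l18⟩ := (h1 e17).resolve_right k321
                          have c18 : Core e0 e18 := CJ k321 l18
                          have k324 : e0 ≤ e18 := L1 l18
                          have k325 : e17 ≤ e18 := L2 l18
                          have k331 : e3 ≤ e18 := le_trans k293 k325
                          have k349 : e4 ≤ e18 := L3 l4 k324 k331
                          have k355 : e18 ≤ e4 := Classical.byContradiction fun hn => HL _ _ _ _ _ _ c2 c12 c16 c9 c4 c18 (LT k161 k167) (LT k291 k289) (LT k267 k286) (LT k93 k98) (LT k349 hn)
                          have k357 : e17 ≤ e4 := le_trans k325 k355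
                          obtain ⟨e19, l19⟩ := ZE h2 k297 k321 g6
                          have c19 : Core e0 e19 := CZ g6 k321 l19
                          have k362 : e6 ≤ e19 := L1 l19
                          have k363 : e17 ≤ e19 := L2 l19
                          have k364 : e19 ≤ e4 := L3 l19 k47 k357
                          have k365 : e19 ≤ e5 := L3 l19 k43 k297
                          have k371 : e3 ≤ e19 := le_trans k293 k363
                          have k373 : ¬ e0 ≤ e19 := N2 k34 k365
                          have k374 : ¬ e4 ≤ e19 := N1 k373 k21
                          have k392 : e9 ≤ e19 := L3 l9 k362 k371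
                          have k396 : e19 ≤ e9 := Classical.byContradiction fun hn => HL _ _ _ _ _ _ c2 c12 c16 c9 c19 c4 (LT k161 k167) (LT k291 k289) (LT k267 k286) (LT k392 hn) (LT k364 k374)
                          have k398 : e17 ≤ e9 := le_trans k363 k396
                          obtain ⟨e20, l20⟩ := ZE h2 k298 k321 g11
                          have c20 : Core e0 e20 := CZ g11 k321 l20
                          have k403 : e11 ≤ e20 := L1 l20
                          have k404 : e17 ≤ e20 := L2 l20
                          have k407 : e20 ≤ e9 := L3 l20 k146 k398
                          have k408 : e20 ≤ e10 := L3 l20 k129 k298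
                          have k416 : e13 ≤ e20 := le_trans k294 k404
                          have k430 : ¬ e6 ≤ e20 := N2 k114 k408
                          have k431 : ¬ e9 ≤ e20 := N1 k430 k91
                          have k436 : ¬ e20 ≤ e16 := N1 k296 k404
                          have k439 : e16 ≤ e20 := L3 l16 k403 k416
                          exact HL _ _ _ _ _ _ c2 c12 c16 c20 c9 c4 (LT k161 k167) (LT k291 k289) (LT k439 k436) (LT k407 k431) (LT k93 k98)
                      · have k259 : ¬ e13 ≤ e9 := L4 l15 k91 k258
                        obtain ⟨e16, q16⟩ : ∃ y, f e15 = y := ⟨_, rfl⟩
                        have k261 : e3 ≤ e16 := MO hf q3 q16 k236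
                        have k262 : e7 ≤ e16 := MO hf q7 q16 k231
                        have k264 : e13 ≤ e16 := MO hf q13 q16 k257
                        have k265 : ¬ e15 ≤ e16 := FA hF q16
                        have k266 : ¬ e16 ≤ e15 := FB hG q16
                        have k267 : e16 ≤ e5 := MO hf q16 q5 k233
                        have k268 : ¬ e6 ≤ e16 := L5 l15 k264 k265
                        have k269 : e2 ≤ e16 := le_trans k88 k262
                        have k271 : e11 ≤ e16 := le_trans k149 k262
                        by_cases k287 : ∃ z, IsGLB ({e0, e16} : Set P) z
                        · obtain ⟨e17, g17⟩ := k287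
                          have c17 : Core e0 e17 := CM g17
                          obtain ⟨e18, l18⟩ := ZE h2 k261 k18 g17
                          have c18 : Core e0 e18 := CZ g17 k18 l18
                          have k292 : e17 ≤ e0 := G1 g17
                          have k293 : e17 ≤ e16 := G2 g17
                          have k294 : e2 ≤ e17 := G3 g17 k6 k269
                          have k296 : e11 ≤ e17 := G3 g17 k128 k271
                          have k300 : e17 ≤ e18 := L1 l18
                          have k301 : e3 ≤ e18 := L2 l18
                          have k303 : e17 ≤ e4 := le_trans k292 k21
                          have k305 : e17 ≤ e5 := le_trans k293 k267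
                          have k321 : ¬ e3 ≤ e17 := N2 k15 k292
                          have k333 : ¬ e18 ≤ e17 := N1 k321 k301
                          have k335 : ¬ e6 ≤ e17 := N2 k268 k293
                          have k339 : e17 ≤ e6 := G3 g6 k292 k305
                          have k344 : e17 ≤ e9 := le_trans k339 k91
                          have k345 : e17 ≤ e15 := le_trans k339 k231
                          have k346 : e18 ≤ e9 := L3 l18 k344 k92
                          have k350 : ¬ e13 ≤ e18 := N2 k259 k346
                          have k351 : e17 ≤ e2 := Classical.byContradiction fun hn => HL _ _ _ _ _ _ c2 c17 c6 c9 c15 c4 (LT k294 hn) (LT k339 k335) (LT k91 k102) (LT k256 k258) (LT k233 k241)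
                          have k355 : e17 ≤ e10 := le_trans k351 k115
                          obtain ⟨e19, l19⟩ := ZE h2 k264 k199 g17
                          have c19 : Core e0 e19 := CZ g17 k199 l19
                          have k364 : e17 ≤ e19 := L1 l19
                          have k365 : e13 ≤ e19 := L2 l19
                          have k366 : e19 ≤ e4 := L3 l19 k303 k227
                          have k368 : e19 ≤ e10 := L3 l19 k355 k181
                          have k370 : e19 ≤ e15 := L3 l19 k345 k232
                          have k372 : e3 ≤ e19 := le_trans k177 k365
                          have k373 : e2 ≤ e19 := le_trans k294 k364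
                          have k375 : e11 ≤ e19 := le_trans k296 k364
                          have k388 : ¬ e6 ≤ e19 := N2 k114 k368
                          have k390 : ¬ e15 ≤ e19 := N1 k388 k231
                          have k392 : ¬ e19 ≤ e12 := N1 k179 k365
                          have k393 : ¬ e19 ≤ e18 := N1 k350 k365
                          have k396 : e12 ≤ e19 := L3 l12 k375 k372
                          have k397 : e18 ≤ e19 := L3 l18 k364 k372
                          obtain ⟨e20, q20⟩ : ∃ y, f e19 = y := ⟨_, rfl⟩
                          have k399 : e3 ≤ e20 := MO hf q3 q20 k373
                          have k400 : e13 ≤ e20 := MO hf q13 q20 k396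
                          have k401 : ¬ e19 ≤ e20 := FA hF q20
                          have k402 : ¬ e20 ≤ e19 := FB hG q20
                          have k403 : e20 ≤ e5 := MO hf q20 q5 k366
                          have k404 : e20 ≤ e16 := MO hf q20 q16 k370
                          have k405 : ¬ e17 ≤ e20 := L5 l19 k400 k401
                          have k424 : ¬ e2 ≤ e20 := N1 k405 k351
                          by_cases k433 : ∃ z, IsGLB ({e0, e20} : Set P) z
                          · obtain ⟨e21, g21⟩ := k433
                            have c21 : Core e0 e21 := CM g21
                            have k436 : e21 ≤ e0 := G1 g21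
                            have k437 : e21 ≤ e20 := G2 g21
                            have k444 : e21 ≤ e16 := le_trans k437 k404
                            have k450 : ¬ e2 ≤ e21 := N2 k424 k437
                            have k460 : ¬ e17 ≤ e21 := N1 k450 k294
                            have k467 : e21 ≤ e17 := G3 g17 k436 k444
                            exact HL _ _ _ _ _ _ c21 c17 c18 c19 c15 c4 (LT k467 k460) (LT k300 k333) (LT k397 k393) (LT k370 k390) (LT k233 k241)
                          · obtain ⟨e21, l21⟩ := (h1 e20).resolve_right k433
                            have c21 : Core e0 e21 := CJ k433 l21
                            have k436 : e0 ≤ e21 := L1 l21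
                            have k437 : e20 ≤ e21 := L2 l21
                            have k444 : e3 ≤ e21 := le_trans k399 k437
                            have k465 : e4 ≤ e21 := L3 l4 k436 k444
                            have k472 : e21 ≤ e4 := Classical.byContradiction fun hn => HL _ _ _ _ _ _ c2 c6 c9 c15 c4 c21 (LT k44 k53) (LT k91 k102) (LT k256 k258) (LT k233 k241) (LT k465 hn)
                            have k474 : e20 ≤ e4 := le_trans k437 k472
                            obtain ⟨e22, l22⟩ := ZE h2 k403 k433 g6
                            have c22 : Core e0 e22 := CZ g6 k433 l22
                            have k479 : e6 ≤ e22 := L1 l22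
                            have k480 : e20 ≤ e22 := L2 l22
                            have k481 : e22 ≤ e4 := L3 l22 k47 k474
                            have k482 : e22 ≤ e5 := L3 l22 k43 k403
                            have k490 : e13 ≤ e22 := le_trans k400 k480
                            have k491 : ¬ e0 ≤ e22 := N2 k34 k482
                            have k492 : ¬ e4 ≤ e22 := N1 k491 k21
                            have k516 : e15 ≤ e22 := L3 l15 k479 k490
                            have k519 : e22 ≤ e15 := Classical.byContradiction fun hn => HL _ _ _ _ _ _ c2 c6 c9 c15 c22 c4 (LT k44 k53) (LT k91 k102) (LT k256 k258) (LT k516 hn) (LT k481 k492)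
                            have k520 : e20 ≤ e15 := le_trans k480 k519
                            obtain ⟨e23, l23⟩ := ZE h2 k404 k433 g17
                            have c23 : Core e0 e23 := CZ g17 k433 l23
                            have k524 : e17 ≤ e23 := L1 l23
                            have k525 : e20 ≤ e23 := L2 l23
                            have k529 : e23 ≤ e15 := L3 l23 k345 k520
                            have k530 : e23 ≤ e16 := L3 l23 k293 k404
                            have k537 : e13 ≤ e23 := le_trans k400 k525
                            have k552 : ¬ e6 ≤ e23 := N2 k268 k530
                            have k554 : ¬ e15 ≤ e23 := N1 k552 k231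
                            have k560 : ¬ e23 ≤ e19 := N1 k402 k525
                            have k564 : e19 ≤ e23 := L3 l19 k524 k537
                            exact HL _ _ _ _ _ _ c2 c12 c19 c23 c15 c4 (LT k161 k167) (LT k396 k392) (LT k564 k560) (LT k529 k554) (LT k233 k241)
                        · obtain ⟨e17, l17⟩ := (h1 e16).resolve_right k287
                          have c17 : Core e0 e17 := CJ k287 l17
                          have k290 : e0 ≤ e17 := L1 l17
                          have k291 : e16 ≤ e17 := L2 l17
                          have k297 : e3 ≤ e17 := le_trans k261 k291
                          have k317 : e4 ≤ e17 := L3 l4 k290 k297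
                          have k321 : e17 ≤ e4 := Classical.byContradiction fun hn => HL _ _ _ _ _ _ c2 c6 c9 c15 c4 c17 (LT k44 k53) (LT k91 k102) (LT k256 k258) (LT k233 k241) (LT k317 hn)
                          have k327 : e16 ≤ e4 := le_trans k291 k321
                          obtain ⟨e18, l18⟩ := ZE h2 k267 k287 g6
                          have c18 : Core e0 e18 := CZ g6 k287 l18
                          have k332 : e6 ≤ e18 := L1 l18
                          have k333 : e16 ≤ e18 := L2 l18
                          have k334 : e18 ≤ e4 := L3 l18 k47 k327
                          have k335 : e18 ≤ e5 := L3 l18 k43 k267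
                          have k345 : e13 ≤ e18 := le_trans k264 k333
                          have k346 : ¬ e0 ≤ e18 := N2 k34 k335
                          have k347 : ¬ e4 ≤ e18 := N1 k346 k21
                          have k364 : ¬ e18 ≤ e15 := N1 k266 k333
                          have k367 : e15 ≤ e18 := L3 l15 k332 k345
                          exact HL _ _ _ _ _ _ c2 c12 c9 c15 c18 c4 (LT k161 k167) (LT k159 k173) (LT k256 k258) (LT k367 k364) (LT k334 k347)
                    · have k227 : ¬ e13 ≤ e4 := L4 l14 k21 k226
                      have k229 : ¬ e13 ≤ e9 := N2 k227 k93
                      obtain ⟨e15, q15⟩ : ∃ y, f e14 = y := ⟨_, rfl⟩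
                      have k231 : e1 ≤ e15 := MO hf q1 q15 k202
                      have k232 : e3 ≤ e15 := MO hf q3 q15 k205
                      have k233 : e5 ≤ e15 := MO hf q5 q15 k223
                      have k236 : e13 ≤ e15 := MO hf q13 q15 k225
                      have k237 : ¬ e14 ≤ e15 := FA hF q15
                      have k238 : ¬ e15 ≤ e14 := FB hG q15
                      have k239 : ¬ e0 ≤ e15 := L5 l14 k236 k237
                      have k240 : e2 ≤ e15 := le_trans k7 k231
                      have k242 : e11 ≤ e15 := le_trans k148 k231
                      have k244 : e6 ≤ e15 := le_trans k43 k233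
                      by_cases k260 : ∃ z, IsGLB ({e0, e15} : Set P) z
                      · obtain ⟨e16, g16⟩ := k260
                        have c16 : Core e0 e16 := CM g16
                        obtain ⟨e17, l17⟩ := ZE h2 k232 k18 g16
                        have c17 : Core e0 e17 := CZ g16 k18 l17
                        have k265 : e16 ≤ e0 := G1 g16
                        have k266 : e16 ≤ e15 := G2 g16
                        have k267 : e2 ≤ e16 := G3 g16 k6 k240
                        have k268 : e6 ≤ e16 := G3 g16 k42 k244
                        have k270 : e11 ≤ e16 := G3 g16 k128 k242
                        have k278 : e16 ≤ e14 := le_trans k265 k202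
                        have k283 : ¬ e0 ≤ e16 := N2 k239 k266
                        have k295 : ¬ e3 ≤ e16 := N2 k15 k265
                        have k301 : ¬ e9 ≤ e16 := N1 k295 k92
                        have k326 : e16 ≤ e6 := Classical.byContradiction fun hn => HL _ _ _ _ _ _ c2 c6 c16 c0 c4 c14 (LT k44 k53) (LT k268 hn) (LT k265 k283) (LT k21 k28) (LT k223 k226)
                        have k327 : e16 ≤ e5 := le_trans k326 k43
                        have k328 : e16 ≤ e9 := le_trans k326 k91
                        obtain ⟨e18, l18⟩ := ZE h2 k236 k199 g16
                        have c18 : Core e0 e18 := CZ g16 k199 l18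
                        have k333 : e16 ≤ e18 := L1 l18
                        have k334 : e13 ≤ e18 := L2 l18
                        have k335 : e18 ≤ e5 := L3 l18 k327 k180
                        have k336 : e18 ≤ e14 := L3 l18 k278 k203
                        have k338 : e3 ≤ e18 := le_trans k177 k334
                        have k339 : e2 ≤ e18 := le_trans k267 k333
                        have k340 : e6 ≤ e18 := le_trans k268 k333
                        have k342 : e11 ≤ e18 := le_trans k270 k333
                        have k343 : ¬ e0 ≤ e18 := N2 k34 k335
                        have k345 : ¬ e14 ≤ e18 := N1 k343 k202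
                        have k359 : ¬ e18 ≤ e9 := N1 k229 k334
                        have k363 : e9 ≤ e18 := L3 l9 k340 k338
                        have k364 : e12 ≤ e18 := L3 l12 k342 k338
                        obtain ⟨e19, q19⟩ : ∃ y, f e18 = y := ⟨_, rfl⟩
                        have k367 : e3 ≤ e19 := MO hf q3 q19 k339
                        have k368 : e7 ≤ e19 := MO hf q7 q19 k340
                        have k370 : e13 ≤ e19 := MO hf q13 q19 k364
                        have k371 : ¬ e18 ≤ e19 := FA hF q19
                        have k372 : ¬ e19 ≤ e18 := FB hG q19
                        have k373 : e19 ≤ e15 := MO hf q19 q15 k336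
                        have k374 : ¬ e16 ≤ e19 := L5 l18 k370 k371
                        have k375 : e2 ≤ e19 := le_trans k88 k368
                        have k377 : e11 ≤ e19 := le_trans k149 k368
                        have k395 : ¬ e6 ≤ e19 := N1 k374 k326
                        by_cases k399 : ∃ z, IsGLB ({e0, e19} : Set P) z
                        · obtain ⟨e20, g20⟩ := k399
                          have c20 : Core e0 e20 := CM g20
                          obtain ⟨e21, l21⟩ := ZE h2 k367 k18 g20
                          have c21 : Core e0 e21 := CZ g20 k18 l21
                          have k404 : e20 ≤ e0 := G1 g20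
                          have k405 : e20 ≤ e19 := G2 g20
                          have k406 : e2 ≤ e20 := G3 g20 k6 k375
                          have k408 : e11 ≤ e20 := G3 g20 k128 k377
                          have k416 : e20 ≤ e14 := le_trans k404 k202
                          have k417 : e20 ≤ e15 := le_trans k405 k373
                          have k451 : ¬ e6 ≤ e20 := N2 k395 k405
                          have k453 : ¬ e16 ≤ e20 := N1 k451 k268
                          have k458 : e20 ≤ e16 := G3 g16 k404 k417
                          have k464 : e20 ≤ e6 := le_trans k458 k326
                          have k467 : e20 ≤ e18 := le_trans k458 k333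
                          have k475 : e20 ≤ e2 := Classical.byContradiction fun hn => HL _ _ _ _ _ _ c2 c20 c16 c9 c4 c14 (LT k406 hn) (LT k458 k453) (LT k328 k301) (LT k93 k98) (LT k223 k226)
                          obtain ⟨e22, l22⟩ := ZE h2 k370 k199 g20
                          have c22 : Core e0 e22 := CZ g20 k199 l22
                          have k488 : e20 ≤ e22 := L1 l22
                          have k489 : e13 ≤ e22 := L2 l22
                          have k492 : e22 ≤ e14 := L3 l22 k416 k203
                          have k494 : e22 ≤ e18 := L3 l22 k467 k334
                          have k496 : e3 ≤ e22 := le_trans k177 k489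
                          have k499 : e11 ≤ e22 := le_trans k408 k488
                          have k521 : ¬ e22 ≤ e12 := N1 k179 k489
                          have k526 : e12 ≤ e22 := L3 l12 k499 k496
                          obtain ⟨e23, q23⟩ : ∃ y, f e22 = y := ⟨_, rfl⟩
                          have k530 : e13 ≤ e23 := MO hf q13 q23 k526
                          have k531 : ¬ e22 ≤ e23 := FA hF q23
                          have k532 : ¬ e23 ≤ e22 := FB hG q23
                          have k533 : e23 ≤ e15 := MO hf q23 q15 k492
                          have k534 : e23 ≤ e19 := MO hf q23 q19 k494
                          have k535 : ¬ e20 ≤ e23 := L5 l22 k530 k531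
                          have k560 : ¬ e2 ≤ e23 := N1 k535 k475
                          by_cases k569 : ∃ z, IsGLB ({e0, e23} : Set P) z
                          · obtain ⟨e24, g24⟩ := k569
                            have c24 : Core e0 e24 := CM g24
                            have k572 : e24 ≤ e0 := G1 g24
                            have k573 : e24 ≤ e23 := G2 g24
                            have k580 : e24 ≤ e19 := le_trans k573 k534
                            have k587 : ¬ e2 ≤ e24 := N2 k560 k573
                            have k599 : ¬ e20 ≤ e24 := N1 k587 k406
                            have k606 : e24 ≤ e20 := G3 g20 k572 k580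
                            exact HL _ _ _ _ _ _ c24 c20 c6 c0 c4 c14 (LT k606 k599) (LT k464 k451) (LT k42 k48) (LT k21 k28) (LT k223 k226)
                          · obtain ⟨e24, l24⟩ := (h1 e23).resolve_right k569
                            have c24 : Core e0 e24 := CJ k569 l24
                            have k572 : e0 ≤ e24 := L1 l24
                            have k573 : e23 ≤ e24 := L2 l24
                            have k582 : e13 ≤ e24 := le_trans k530 k573
                            have k609 : e14 ≤ e24 := L3 l14 k572 k582
                            have k614 : e24 ≤ e14 := Classical.byContradiction fun hn => HL _ _ _ _ _ _ c2 c6 c9 c18 c14 c24 (LT k44 k53) (LT k91 k102) (LT k363 k359) (LT k336 k345) (LT k609 hn)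
                            have k615 : e23 ≤ e14 := le_trans k573 k614
                            obtain ⟨e25, l25⟩ := ZE h2 k533 k569 g16
                            have c25 : Core e0 e25 := CZ g16 k569 l25
                            have k619 : e16 ≤ e25 := L1 l25
                            have k620 : e23 ≤ e25 := L2 l25
                            have k621 : e25 ≤ e14 := L3 l25 k278 k615
                            have k622 : e25 ≤ e15 := L3 l25 k266 k533
                            have k630 : e13 ≤ e25 := le_trans k530 k620
                            have k631 : ¬ e0 ≤ e25 := N2 k239 k622
                            have k633 : ¬ e14 ≤ e25 := N1 k631 k202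
                            have k660 : e18 ≤ e25 := L3 l18 k619 k630
                            have k663 : e25 ≤ e18 := Classical.byContradiction fun hn => HL _ _ _ _ _ _ c2 c6 c9 c18 c25 c14 (LT k44 k53) (LT k91 k102) (LT k363 k359) (LT k660 hn) (LT k621 k633)
                            have k666 : e23 ≤ e18 := le_trans k620 k663
                            obtain ⟨e26, l26⟩ := ZE h2 k534 k569 g20
                            have c26 : Core e0 e26 := CZ g20 k569 l26
                            have k670 : e20 ≤ e26 := L1 l26
                            have k671 : e23 ≤ e26 := L2 l26
                            have k675 : e26 ≤ e18 := L3 l26 k467 k666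
                            have k676 : e26 ≤ e19 := L3 l26 k405 k534
                            have k683 : e13 ≤ e26 := le_trans k530 k671
                            have k700 : ¬ e6 ≤ e26 := N2 k395 k676
                            have k704 : ¬ e18 ≤ e26 := N1 k700 k340
                            have k712 : ¬ e26 ≤ e22 := N1 k532 k671
                            have k716 : e22 ≤ e26 := L3 l22 k670 k683
                            exact HL _ _ _ _ _ _ c2 c12 c22 c26 c18 c14 (LT k161 k167) (LT k526 k521) (LT k716 k712) (LT k675 k704) (LT k336 k345)
                        · obtain ⟨e20, l20⟩ := (h1 e19).resolve_right k399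
                          have c20 : Core e0 e20 := CJ k399 l20
                          have k402 : e0 ≤ e20 := L1 l20
                          have k403 : e19 ≤ e20 := L2 l20
                          have k414 : e13 ≤ e20 := le_trans k370 k403
                          have k436 : e14 ≤ e20 := L3 l14 k402 k414
                          have k439 : e20 ≤ e14 := Classical.byContradiction fun hn => HL _ _ _ _ _ _ c2 c6 c9 c18 c14 c20 (LT k44 k53) (LT k91 k102) (LT k363 k359) (LT k336 k345) (LT k436 hn)
                          have k442 : e19 ≤ e14 := le_trans k403 k439
                          obtain ⟨e21, l21⟩ := ZE h2 k373 k399 g16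
                          have c21 : Core e0 e21 := CZ g16 k399 l21
                          have k446 : e16 ≤ e21 := L1 l21
                          have k447 : e19 ≤ e21 := L2 l21
                          have k448 : e21 ≤ e14 := L3 l21 k278 k442
                          have k449 : e21 ≤ e15 := L3 l21 k266 k373
                          have k459 : e13 ≤ e21 := le_trans k370 k447
                          have k460 : ¬ e0 ≤ e21 := N2 k239 k449
                          have k462 : ¬ e14 ≤ e21 := N1 k460 k202
                          have k481 : ¬ e21 ≤ e18 := N1 k372 k447
                          have k485 : e18 ≤ e21 := L3 l18 k446 k459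
                          exact HL _ _ _ _ _ _ c2 c12 c9 c18 c21 c14 (LT k161 k167) (LT k159 k173) (LT k363 k359) (LT k485 k481) (LT k448 k462)
                      · obtain ⟨e16, l16⟩ := (h1 e15).resolve_right k260
                        have c16 : Core e0 e16 := CJ k260 l16
                        have k263 : e0 ≤ e16 := L1 l16
                        have k264 : e15 ≤ e16 := L2 l16
                        have k277 : e13 ≤ e16 := le_trans k236 k264
                        have k293 : ¬ e16 ≤ e14 := N1 k238 k264
                        have k295 : e14 ≤ e16 := L3 l14 k263 k277
                        exact HL _ _ _ _ _ _ c2 c6 c0 c4 c14 c16 (LT k44 k53) (LT k42 k48) (LT k21 k28) (LT k223 k226) (LT k295 k293)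
                · obtain ⟨e12, q12⟩ : ∃ y, f e11 = y := ⟨_, rfl⟩
                  have k154 : e3 ≤ e12 := MO hf q3 q12 k130
                  have k157 : e12 ≤ e1 := MO hf q12 q1 k128
                  have k158 : e12 ≤ e5 := MO hf q12 q5 k134
                  have k160 : e12 ≤ e10 := MO hf q12 q10 k146
                  by_cases k171 : ∃ z, IsGLB ({e0, e12} : Set P) z
                  · obtain ⟨e13, g13⟩ := k171
                    have c13 : Core e0 e13 := CM g13
                    have k174 : e13 ≤ e0 := G1 g13
                    have k175 : e13 ≤ e12 := G2 g13
                    have k179 : e13 ≤ e1 := le_trans k175 k157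
                    have k195 : e13 ≤ e2 := G3 g2 k174 k179
                    have k200 : e2 ≤ e13 := Classical.byContradiction fun hn => HL _ _ _ _ _ _ c13 c2 c11 c6 c0 c4 (LT k195 hn) (LT k130 k147) (LT k145 k144) (LT k42 k48) (LT k21 k28)
                    have k202 : e2 ≤ e12 := le_trans k200 k175
                    obtain ⟨e14, l14⟩ := ZE h2 k109 k18 g11
                    have c14 : Core e0 e14 := CZ g11 k18 l14
                    have k206 : e11 ≤ e14 := L1 l14
                    have k207 : e3 ≤ e14 := L2 l14
                    have k208 : e14 ≤ e4 := L3 l14 k134 k22
                    have k210 : e14 ≤ e9 := L3 l14 k146 k92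
                    have k211 : e14 ≤ e10 := L3 l14 k129 k109
                    have k212 : e2 ≤ e14 := le_trans k130 k206
                    have k222 : ¬ e14 ≤ e11 := N1 k140 k207
                    have k225 : ¬ e6 ≤ e14 := N2 k114 k211
                    have k226 : ¬ e9 ≤ e14 := N1 k225 k91
                    obtain ⟨e15, q15⟩ : ∃ y, f e14 = y := ⟨_, rfl⟩
                    have k233 : e3 ≤ e15 := MO hf q3 q15 k212
                    have k234 : e12 ≤ e15 := MO hf q12 q15 k206
                    have k235 : ¬ e14 ≤ e15 := FA hF q15
                    have k236 : ¬ e15 ≤ e14 := FB hG q15
                    have k237 : e15 ≤ e5 := MO hf q15 q5 k208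
                    have k238 : e15 ≤ e10 := MO hf q15 q10 k210
                    have k239 : ¬ e11 ≤ e15 := L5 l14 k233 k235
                    have k240 : e2 ≤ e15 := le_trans k202 k234
                    by_cases k256 : ∃ z, IsGLB ({e0, e15} : Set P) z
                    · obtain ⟨e16, g16⟩ := k256
                      have c16 : Core e0 e16 := CM g16
                      have k259 : e16 ≤ e0 := G1 g16
                      have k260 : e16 ≤ e15 := G2 g16
                      have k261 : e2 ≤ e16 := G3 g16 k6 k240
                      have k266 : e16 ≤ e4 := le_trans k259 k21
                      have k267 : e16 ≤ e5 := le_trans k260 k237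
                      have k268 : e16 ≤ e10 := le_trans k260 k238
                      have k281 : ¬ e11 ≤ e16 := N2 k239 k260
                      have k282 : e16 ≤ e6 := G3 g6 k259 k267
                      have k283 : e16 ≤ e11 := G3 g11 k259 k268
                      have k284 : e16 ≤ e9 := le_trans k282 k91
                      have k285 : e16 ≤ e14 := le_trans k283 k206
                      have k286 : e16 ≤ e2 := Classical.byContradiction fun hn => HL _ _ _ _ _ _ c2 c16 c11 c6 c0 c4 (LT k261 hn) (LT k283 k281) (LT k145 k144) (LT k42 k48) (LT k21 k28)
                      obtain ⟨e17, l17⟩ := ZE h2 k233 k18 g16
                      have c17 : Core e0 e17 := CZ g16 k18 l17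
                      have k294 : e16 ≤ e17 := L1 l17
                      have k295 : e3 ≤ e17 := L2 l17
                      have k297 : e17 ≤ e4 := L3 l17 k266 k22
                      have k300 : e17 ≤ e9 := L3 l17 k284 k92
                      have k303 : e17 ≤ e14 := L3 l17 k285 k207
                      have k305 : e2 ≤ e17 := le_trans k261 k294
                      have k312 : ¬ e17 ≤ e2 := N1 k13 k295
                      obtain ⟨e18, q18⟩ : ∃ y, f e17 = y := ⟨_, rfl⟩
                      have k327 : e3 ≤ e18 := MO hf q3 q18 k305
                      have k328 : ¬ e17 ≤ e18 := FA hF q18
                      have k329 : ¬ e18 ≤ e17 := FB hG q18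
                      have k330 : e18 ≤ e5 := MO hf q18 q5 k297
                      have k331 : e18 ≤ e10 := MO hf q18 q10 k300
                      have k332 : e18 ≤ e15 := MO hf q18 q15 k303
                      have k333 : ¬ e16 ≤ e18 := L5 l17 k327 k328
                      have k350 : ¬ e2 ≤ e18 := N1 k333 k286
                      by_cases k357 : ∃ z, IsGLB ({e0, e18} : Set P) z
                      · obtain ⟨e19, g19⟩ := k357
                        have c19 : Core e0 e19 := CM g19
                        have k360 : e19 ≤ e0 := G1 g19
                        have k361 : e19 ≤ e18 := G2 g19
                        have k367 : e19 ≤ e15 := le_trans k361 k332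
                        have k372 : ¬ e2 ≤ e19 := N2 k350 k361
                        have k383 : ¬ e16 ≤ e19 := N1 k372 k261
                        have k389 : e19 ≤ e16 := G3 g16 k360 k367
                        exact HL _ _ _ _ _ _ c19 c16 c11 c6 c0 c4 (LT k389 k383) (LT k283 k281) (LT k145 k144) (LT k42 k48) (LT k21 k28)
                      · obtain ⟨e19, l19⟩ := (h1 e18).resolve_right k357
                        have c19 : Core e0 e19 := CJ k357 l19
                        have k360 : e0 ≤ e19 := L1 l19
                        have k361 : e18 ≤ e19 := L2 l19
                        have k369 : e3 ≤ e19 := le_trans k327 k361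
                        have k388 : e4 ≤ e19 := L3 l4 k360 k369
                        have k392 : e19 ≤ e4 := Classical.byContradiction fun hn => HL _ _ _ _ _ _ c2 c11 c14 c9 c4 c19 (LT k130 k147) (LT k206 k222) (LT k210 k226) (LT k93 k98) (LT k388 hn)
                        have k393 : e18 ≤ e4 := le_trans k361 k392
                        obtain ⟨e20, l20⟩ := ZE h2 k330 k357 g6
                        have c20 : Core e0 e20 := CZ g6 k357 l20
                        have k397 : e6 ≤ e20 := L1 l20
                        have k398 : e18 ≤ e20 := L2 l20
                        have k399 : e20 ≤ e4 := L3 l20 k47 k393
                        have k400 : e20 ≤ e5 := L3 l20 k43 k330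
                        have k407 : e3 ≤ e20 := le_trans k327 k398
                        have k408 : ¬ e0 ≤ e20 := N2 k34 k400
                        have k409 : ¬ e4 ≤ e20 := N1 k408 k21
                        have k429 : e9 ≤ e20 := L3 l9 k397 k407
                        have k432 : e20 ≤ e9 := Classical.byContradiction fun hn => HL _ _ _ _ _ _ c2 c11 c14 c9 c20 c4 (LT k130 k147) (LT k206 k222) (LT k210 k226) (LT k429 hn) (LT k399 k409)
                        have k433 : e18 ≤ e9 := le_trans k398 k432
                        obtain ⟨e21, l21⟩ := ZE h2 k331 k357 g11
                        have c21 : Core e0 e21 := CZ g11 k357 l21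
                        have k437 : e11 ≤ e21 := L1 l21
                        have k438 : e18 ≤ e21 := L2 l21
                        have k441 : e21 ≤ e9 := L3 l21 k146 k433
                        have k442 : e21 ≤ e10 := L3 l21 k129 k331
                        have k449 : e3 ≤ e21 := le_trans k327 k438
                        have k463 : ¬ e6 ≤ e21 := N2 k114 k442
                        have k464 : ¬ e9 ≤ e21 := N1 k463 k91
                        have k473 : e14 ≤ e21 := L3 l14 k437 k449
                        have k475 : e21 ≤ e14 := Classical.byContradiction fun hn => HL _ _ _ _ _ _ c2 c11 c14 c21 c9 c4 (LT k130 k147) (LT k206 k222) (LT k473 hn) (LT k441 k464) (LT k93 k98)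
                        have k476 : e18 ≤ e14 := le_trans k438 k475
                        obtain ⟨e22, l22⟩ := ZE h2 k332 k357 g16
                        have c22 : Core e0 e22 := CZ g16 k357 l22
                        have k480 : e16 ≤ e22 := L1 l22
                        have k481 : e18 ≤ e22 := L2 l22
                        have k486 : e22 ≤ e14 := L3 l22 k285 k476
                        have k487 : e22 ≤ e15 := L3 l22 k260 k332
                        have k494 : e3 ≤ e22 := le_trans k327 k481
                        have k512 : ¬ e11 ≤ e22 := N2 k239 k487
                        have k513 : ¬ e14 ≤ e22 := N1 k512 k206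
                        have k516 : ¬ e22 ≤ e17 := N1 k329 k481
                        have k518 : e17 ≤ e22 := L3 l17 k480 k494
                        exact HL _ _ _ _ _ _ c2 c17 c22 c14 c9 c4 (LT k305 k312) (LT k518 k516) (LT k486 k513) (LT k210 k226) (LT k93 k98)
                    · obtain ⟨e16, l16⟩ := (h1 e15).resolve_right k256
                      have c16 : Core e0 e16 := CJ k256 l16
                      have k259 : e0 ≤ e16 := L1 l16
                      have k260 : e15 ≤ e16 := L2 l16
                      have k267 : e3 ≤ e16 := le_trans k233 k260
                      have k284 : e4 ≤ e16 := L3 l4 k259 k267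
                      have k287 : e16 ≤ e4 := Classical.byContradiction fun hn => HL _ _ _ _ _ _ c2 c11 c14 c9 c4 c16 (LT k130 k147) (LT k206 k222) (LT k210 k226) (LT k93 k98) (LT k284 hn)
                      have k289 : e15 ≤ e4 := le_trans k260 k287
                      obtain ⟨e17, l17⟩ := ZE h2 k237 k256 g6
                      have c17 : Core e0 e17 := CZ g6 k256 l17
                      have k293 : e6 ≤ e17 := L1 l17
                      have k294 : e15 ≤ e17 := L2 l17
                      have k295 : e17 ≤ e4 := L3 l17 k47 k289
                      have k296 : e17 ≤ e5 := L3 l17 k43 k237
                      have k302 : e3 ≤ e17 := le_trans k233 k294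
                      have k304 : ¬ e0 ≤ e17 := N2 k34 k296
                      have k305 : ¬ e4 ≤ e17 := N1 k304 k21
                      have k322 : e9 ≤ e17 := L3 l9 k293 k302
                      have k324 : e17 ≤ e9 := Classical.byContradiction fun hn => HL _ _ _ _ _ _ c2 c11 c14 c9 c17 c4 (LT k130 k147) (LT k206 k222) (LT k210 k226) (LT k322 hn) (LT k295 k305)
                      have k326 : e15 ≤ e9 := le_trans k294 k324
                      obtain ⟨e18, l18⟩ := ZE h2 k238 k256 g11
                      have c18 : Core e0 e18 := CZ g11 k256 l18
                      have k330 : e11 ≤ e18 := L1 l18
                      have k331 : e15 ≤ e18 := L2 l18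
                      have k334 : e18 ≤ e9 := L3 l18 k146 k326
                      have k335 : e18 ≤ e10 := L3 l18 k129 k238
                      have k341 : e3 ≤ e18 := le_trans k233 k331
                      have k354 : ¬ e6 ≤ e18 := N2 k114 k335
                      have k355 : ¬ e9 ≤ e18 := N1 k354 k91
                      have k362 : ¬ e18 ≤ e14 := N1 k236 k331
                      have k364 : e14 ≤ e18 := L3 l14 k330 k341
                      exact HL _ _ _ _ _ _ c2 c11 c14 c18 c9 c4 (LT k130 k147) (LT k206 k222) (LT k364 k362) (LT k334 k355) (LT k93 k98)
                  · have k172 : ¬ e2 ≤ e12 := BN3 g2 k171 k157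
                    obtain ⟨e13, l13⟩ := (h1 e12).resolve_right k171
                    have c13 : Core e0 e13 := CJ k171 l13
                    have k178 : e0 ≤ e13 := L1 l13
                    have k179 : e12 ≤ e13 := L2 l13
                    have k185 : e3 ≤ e13 := le_trans k154 k179
                    have k198 : e4 ≤ e13 := L3 l4 k178 k185
                    have k200 : e13 ≤ e4 := Classical.byContradiction fun hn => HL _ _ _ _ _ _ c2 c11 c6 c9 c4 c13 (LT k130 k147) (LT k145 k144) (LT k91 k102) (LT k93 k98) (LT k198 hn)
                    have k201 : e12 ≤ e4 := le_trans k179 k200
                    obtain ⟨e14, l14⟩ := ZE h2 k158 k171 g6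
                    have c14 : Core e0 e14 := CZ g6 k171 l14
                    have k205 : e6 ≤ e14 := L1 l14
                    have k206 : e12 ≤ e14 := L2 l14
                    have k207 : e14 ≤ e4 := L3 l14 k47 k201
                    have k208 : e14 ≤ e5 := L3 l14 k43 k158
                    have k213 : e3 ≤ e14 := le_trans k154 k206
                    have k214 : ¬ e0 ≤ e14 := N2 k34 k208
                    have k215 : ¬ e4 ≤ e14 := N1 k214 k21
                    have k229 : e9 ≤ e14 := L3 l9 k205 k213
                    have k230 : e14 ≤ e9 := Classical.byContradiction fun hn => HL _ _ _ _ _ _ c2 c11 c6 c9 c14 c4 (LT k130 k147) (LT k145 k144) (LT k91 k102) (LT k229 hn) (LT k207 k215)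
                    have k231 : e12 ≤ e9 := le_trans k206 k230
                    obtain ⟨e15, l15⟩ := ZE h2 k160 k171 g11
                    have c15 : Core e0 e15 := CZ g11 k171 l15
                    have k235 : e11 ≤ e15 := L1 l15
                    have k236 : e12 ≤ e15 := L2 l15
                    have k237 : e15 ≤ e4 := L3 l15 k134 k201
                    have k239 : e15 ≤ e9 := L3 l15 k146 k231
                    have k240 : e15 ≤ e10 := L3 l15 k129 k160
                    have k243 : e2 ≤ e15 := le_trans k130 k235
                    have k245 : e3 ≤ e15 := le_trans k154 k236
                    have k255 : ¬ e15 ≤ e11 := N1 k140 k245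
                    have k257 : ¬ e6 ≤ e15 := N2 k114 k240
                    have k258 : ¬ e9 ≤ e15 := N1 k257 k91
                    obtain ⟨e16, q16⟩ : ∃ y, f e15 = y := ⟨_, rfl⟩
                    have k265 : e3 ≤ e16 := MO hf q3 q16 k243
                    have k266 : e12 ≤ e16 := MO hf q12 q16 k235
                    have k267 : ¬ e15 ≤ e16 := FA hF q16
                    have k268 : ¬ e16 ≤ e15 := FB hG q16
                    have k269 : e16 ≤ e5 := MO hf q16 q5 k237
                    have k270 : e16 ≤ e10 := MO hf q16 q10 k239
                    have k271 : ¬ e11 ≤ e16 := L5 l15 k266 k267
                    by_cases k287 : ∃ z, IsGLB ({e0, e16} : Set P) z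
                    · obtain ⟨e17, g17⟩ := k287
                      have c17 : Core e0 e17 := CM g17
                      have k290 : e17 ≤ e0 := G1 g17
                      have k291 : e17 ≤ e16 := G2 g17
                      have k295 : e17 ≤ e4 := le_trans k290 k21
                      have k297 : e17 ≤ e5 := le_trans k291 k269
                      have k298 : e17 ≤ e10 := le_trans k291 k270
                      have k313 : ¬ e11 ≤ e17 := N2 k271 k291
                      have k314 : e17 ≤ e6 := G3 g6 k290 k297
                      have k315 : e17 ≤ e11 := G3 g11 k290 k298
                      have k316 : e17 ≤ e9 := le_trans k314 k91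
                      have k318 : e17 ≤ e15 := le_trans k315 k235
                      obtain ⟨e18, q18⟩ : ∃ y, f e17 = y := ⟨_, rfl⟩
                      have k321 : ¬ e18 ≤ e17 := FB hG q18
                      have k322 : e18 ≤ e1 := MO hf q18 q1 k290
                      have k325 : e18 ≤ e10 := MO hf q18 q10 k316
                      have k326 : e18 ≤ e12 := MO hf q18 q12 k315
                      have k327 : e18 ≤ e16 := MO hf q18 q16 k318
                      have k328 : ¬ e18 ≤ e0 := G5 g17 k327 k321
                      have k329 : e18 ≤ e4 := le_trans k326 k201
                      have k330 : e18 ≤ e9 := le_trans k326 k231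
                      have k333 : e18 ≤ e15 := le_trans k326 k236
                      have k352 : ¬ e18 ≤ e11 := N2 k328 k128
                      by_cases k353 : ∃ z, IsGLB ({e0, e18} : Set P) z
                      · obtain ⟨e19, g19⟩ := k353
                        have c19 : Core e0 e19 := CM g19
                        have k356 : e19 ≤ e0 := G1 g19
                        have k357 : e19 ≤ e18 := G2 g19
                        have k361 : e19 ≤ e1 := le_trans k357 k322
                        have k366 : e19 ≤ e12 := le_trans k357 k326
                        have k375 : ¬ e2 ≤ e19 := N2 k172 k366
                        have k389 : e19 ≤ e2 := G3 g2 k356 k361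
                        exact HL _ _ _ _ _ _ c19 c2 c11 c6 c0 c4 (LT k389 k375) (LT k130 k147) (LT k145 k144) (LT k42 k48) (LT k21 k28)
                      · obtain ⟨e19, l19⟩ := ZE h2 k325 k353 g11
                        have c19 : Core e0 e19 := CZ g11 k353 l19
                        have k356 : e11 ≤ e19 := L1 l19
                        have k357 : e18 ≤ e19 := L2 l19
                        have k364 : e19 ≤ e15 := L3 l19 k235 k333
                        have k388 : ¬ e19 ≤ e11 := N1 k352 k357
                        have k390 : e15 ≤ e19 := Classical.byContradiction fun hn => HL _ _ _ _ _ _ c2 c11 c19 c15 c9 c4 (LT k130 k147) (LT k356 k388) (LT k364 hn) (LT k239 k258) (LT k93 k98)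
                        have k391 : e3 ≤ e19 := le_trans k245 k390
                        obtain ⟨e20, l20⟩ := ZE h2 k327 k353 g17
                        have c20 : Core e0 e20 := CZ g17 k353 l20
                        have k395 : e17 ≤ e20 := L1 l20
                        have k396 : e18 ≤ e20 := L2 l20
                        have k397 : e20 ≤ e4 := L3 l20 k295 k329
                        have k399 : e20 ≤ e9 := L3 l20 k316 k330
                        have k403 : e20 ≤ e15 := L3 l20 k318 k333
                        have k426 : ¬ e20 ≤ e17 := N1 k321 k396
                        obtain ⟨e21, q21⟩ : ∃ y, f e20 = y := ⟨_, rfl⟩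
                        have k429 : e18 ≤ e21 := MO hf q18 q21 k395
                        have k430 : ¬ e20 ≤ e21 := FA hF q21
                        have k431 : ¬ e21 ≤ e20 := FB hG q21
                        have k432 : e21 ≤ e5 := MO hf q21 q5 k397
                        have k433 : e21 ≤ e10 := MO hf q21 q10 k399
                        have k434 : e21 ≤ e16 := MO hf q21 q16 k403
                        have k435 : ¬ e17 ≤ e21 := L5 l20 k429 k430
                        by_cases k455 : ∃ z, IsGLB ({e0, e21} : Set P) z
                        · obtain ⟨e22, g22⟩ := k455
                          have c22 : Core e0 e22 := CM g22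
                          have k458 : e22 ≤ e0 := G1 g22
                          have k459 : e22 ≤ e21 := G2 g22
                          have k466 : e22 ≤ e16 := le_trans k459 k434
                          have k483 : ¬ e17 ≤ e22 := N2 k435 k459
                          have k489 : e22 ≤ e17 := G3 g17 k458 k466
                          exact HL _ _ _ _ _ _ c22 c17 c11 c6 c0 c4 (LT k489 k483) (LT k315 k313) (LT k145 k144) (LT k42 k48) (LT k21 k28)
                        · obtain ⟨e22, l22⟩ := (h1 e21).resolve_right k455
                          have c22 : Core e0 e22 := CJ k455 l22
                          have k458 : e0 ≤ e22 := L1 l22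
                          have k459 : e21 ≤ e22 := L2 l22
                          have k464 : e11 ≤ e22 := le_trans k128 k458
                          have k466 : e18 ≤ e22 := le_trans k429 k459
                          have k487 : e19 ≤ e22 := L3 l19 k464 k466
                          have k489 : e3 ≤ e22 := le_trans k391 k487
                          have k492 : e4 ≤ e22 := L3 l4 k458 k489
                          have k496 : e22 ≤ e4 := Classical.byContradiction fun hn => HL _ _ _ _ _ _ c2 c11 c15 c9 c4 c22 (LT k130 k147) (LT k235 k255) (LT k239 k258) (LT k93 k98) (LT k492 hn)
                          have k498 : e21 ≤ e4 := le_trans k459 k496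
                          obtain ⟨e23, l23⟩ := ZE h2 k432 k455 g6
                          have c23 : Core e0 e23 := CZ g6 k455 l23
                          have k503 : e6 ≤ e23 := L1 l23
                          have k504 : e21 ≤ e23 := L2 l23
                          have k505 : e23 ≤ e4 := L3 l23 k47 k498
                          have k506 : e23 ≤ e5 := L3 l23 k43 k432
                          have k511 : e11 ≤ e23 := le_trans k145 k503
                          have k513 : e18 ≤ e23 := le_trans k429 k504
                          have k514 : ¬ e0 ≤ e23 := N2 k34 k506
                          have k515 : ¬ e4 ≤ e23 := N1 k514 k21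
                          have k528 : ¬ e23 ≤ e15 := N1 k257 k503
                          have k537 : e19 ≤ e23 := L3 l19 k511 k513
                          have k539 : e3 ≤ e23 := le_trans k391 k537
                          have k541 : e15 ≤ e23 := le_trans k390 k537
                          have k542 : e9 ≤ e23 := L3 l9 k503 k539
                          have k544 : e23 ≤ e9 := Classical.byContradiction fun hn => HL _ _ _ _ _ _ c2 c11 c15 c9 c23 c4 (LT k130 k147) (LT k235 k255) (LT k239 k258) (LT k542 hn) (LT k505 k515)
                          have k546 : e21 ≤ e9 := le_trans k504 k544
                          obtain ⟨e24, l24⟩ := ZE h2 k433 k455 g11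
                          have c24 : Core e0 e24 := CZ g11 k455 l24
                          have k551 : e11 ≤ e24 := L1 l24
                          have k552 : e21 ≤ e24 := L2 l24
                          have k555 : e24 ≤ e9 := L3 l24 k146 k546
                          have k556 : e24 ≤ e10 := L3 l24 k129 k433
                          have k564 : e18 ≤ e24 := le_trans k429 k552
                          have k573 : ¬ e6 ≤ e24 := N2 k114 k556
                          have k574 : ¬ e9 ≤ e24 := N1 k573 k91
                          have k590 : e19 ≤ e24 := L3 l19 k551 k564
                          have k594 : e15 ≤ e24 := le_trans k390 k590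
                          have k595 : e24 ≤ e15 := Classical.byContradiction fun hn => HL _ _ _ _ _ _ c2 c11 c15 c24 c9 c4 (LT k130 k147) (LT k235 k255) (LT k594 hn) (LT k555 k574) (LT k93 k98)
                          have k597 : e21 ≤ e15 := le_trans k552 k595
                          obtain ⟨e25, l25⟩ := ZE h2 k434 k455 g17
                          have c25 : Core e0 e25 := CZ g17 k455 l25
                          have k602 : e17 ≤ e25 := L1 l25
                          have k603 : e21 ≤ e25 := L2 l25
                          have k610 : e25 ≤ e15 := L3 l25 k318 k597
                          have k611 : e25 ≤ e16 := L3 l25 k291 k434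
                          have k616 : e18 ≤ e25 := le_trans k429 k603
                          have k627 : ¬ e11 ≤ e25 := N2 k271 k611
                          have k628 : ¬ e15 ≤ e25 := N1 k627 k235
                          have k642 : ¬ e25 ≤ e20 := N1 k431 k603
                          have k644 : e20 ≤ e25 := L3 l20 k602 k616
                          exact HL _ _ _ _ _ _ c17 c20 c25 c15 c23 c4 (LT k395 k426) (LT k644 k642) (LT k610 k628) (LT k541 k528) (LT k505 k515)
                    · obtain ⟨e17, l17⟩ := (h1 e16).resolve_right k287
                      have c17 : Core e0 e17 := CJ k287 l17
                      have k290 : e0 ≤ e17 := L1 l17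
                      have k291 : e16 ≤ e17 := L2 l17
                      have k297 : e3 ≤ e17 := le_trans k265 k291
                      have k314 : e4 ≤ e17 := L3 l4 k290 k297
                      have k319 : e17 ≤ e4 := Classical.byContradiction fun hn => HL _ _ _ _ _ _ c2 c11 c15 c9 c4 c17 (LT k130 k147) (LT k235 k255) (LT k239 k258) (LT k93 k98) (LT k314 hn)
                      have k321 : e16 ≤ e4 := le_trans k291 k319
                      obtain ⟨e18, l18⟩ := ZE h2 k269 k287 g6
                      have c18 : Core e0 e18 := CZ g6 k287 l18
                      have k326 : e6 ≤ e18 := L1 l18
                      have k327 : e16 ≤ e18 := L2 l18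
                      have k328 : e18 ≤ e4 := L3 l18 k47 k321
                      have k329 : e18 ≤ e5 := L3 l18 k43 k269
                      have k335 : e3 ≤ e18 := le_trans k265 k327
                      have k337 : ¬ e0 ≤ e18 := N2 k34 k329
                      have k338 : ¬ e4 ≤ e18 := N1 k337 k21
                      have k355 : e9 ≤ e18 := L3 l9 k326 k335
                      have k358 : e18 ≤ e9 := Classical.byContradiction fun hn => HL _ _ _ _ _ _ c2 c11 c15 c9 c18 c4 (LT k130 k147) (LT k235 k255) (LT k239 k258) (LT k355 hn) (LT k328 k338)
                      have k360 : e16 ≤ e9 := le_trans k327 k358
                      obtain ⟨e19, l19⟩ := ZE h2 k270 k287 g11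
                      have c19 : Core e0 e19 := CZ g11 k287 l19
                      have k365 : e11 ≤ e19 := L1 l19
                      have k366 : e16 ≤ e19 := L2 l19
                      have k369 : e19 ≤ e9 := L3 l19 k146 k360
                      have k370 : e19 ≤ e10 := L3 l19 k129 k270
                      have k378 : e12 ≤ e19 := le_trans k266 k366
                      have k391 : ¬ e6 ≤ e19 := N2 k114 k370
                      have k392 : ¬ e9 ≤ e19 := N1 k391 k91
                      have k399 : ¬ e19 ≤ e15 := N1 k268 k366
                      have k401 : e15 ≤ e19 := L3 l15 k365 k378
                      exact HL _ _ _ _ _ _ c2 c11 c15 c19 c9 c4 (LT k130 k147) (LT k235 k255) (LT k401 k399) (LT k369 k392) (LT k93 k98)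
              · obtain ⟨e11, l11⟩ := (h1 e10).resolve_right k125
                have c11 : Core e0 e11 := CJ k125 l11
                have k128 : e0 ≤ e11 := L1 l11
                have k129 : e10 ≤ e11 := L2 l11
                have k131 : e2 ≤ e11 := le_trans k6 k128
                have k132 : e6 ≤ e11 := le_trans k42 k128
                have k134 : e3 ≤ e11 := le_trans k109 k129
                have k146 : e4 ≤ e11 := L3 l4 k128 k134
                have k147 : e9 ≤ e11 := L3 l9 k132 k134
                by_cases k148 : e11 ≤ e4
                · have k150 : e10 ≤ e4 := le_trans k129 k148
                  obtain ⟨e12, l12⟩ := ZE h2 k113 k125 g6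
                  have c12 : Core e0 e12 := CZ g6 k125 l12
                  have k154 : e6 ≤ e12 := L1 l12
                  have k155 : e10 ≤ e12 := L2 l12
                  have k156 : e12 ≤ e4 := L3 l12 k47 k150
                  have k157 : e12 ≤ e5 := L3 l12 k43 k113
                  have k159 : e2 ≤ e12 := le_trans k44 k154
                  have k161 : e3 ≤ e12 := le_trans k109 k155
                  have k163 : ¬ e0 ≤ e12 := N2 k34 k157
                  have k164 : ¬ e4 ≤ e12 := N1 k163 k21
                  have k175 : ¬ e12 ≤ e9 := N1 k112 k155
                  have k177 : e9 ≤ e12 := L3 l9 k154 k161
                  obtain ⟨e13, q13⟩ : ∃ y, f e12 = y := ⟨_, rfl⟩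
                  have k179 : e3 ≤ e13 := MO hf q3 q13 k159
                  have k180 : e7 ≤ e13 := MO hf q7 q13 k154
                  have k181 : e10 ≤ e13 := MO hf q10 q13 k177
                  have k182 : ¬ e12 ≤ e13 := FA hF q13
                  have k183 : ¬ e13 ≤ e12 := FB hG q13
                  have k184 : e13 ≤ e5 := MO hf q13 q5 k156
                  have k185 : ¬ e6 ≤ e13 := L5 l12 k181 k182
                  have k186 : e2 ≤ e13 := le_trans k88 k180
                  by_cases k201 : ∃ z, IsGLB ({e0, e13} : Set P) z
                  · obtain ⟨e14, g14⟩ := k201
                    have c14 : Core e0 e14 := CM g14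
                    have k204 : e14 ≤ e0 := G1 g14
                    have k205 : e14 ≤ e13 := G2 g14
                    have k206 : e2 ≤ e14 := G3 g14 k6 k186
                    have k209 : ¬ e14 ≤ e10 := BN3 g14 k125 k181
                    have k213 : e14 ≤ e5 := le_trans k205 k184
                    have k225 : ¬ e6 ≤ e14 := N2 k185 k205
                    have k226 : ¬ e14 ≤ e2 := N2 k209 k115
                    have k230 : e14 ≤ e6 := G3 g6 k204 k213
                    exact HL _ _ _ _ _ _ c2 c14 c6 c9 c12 c4 (LT k206 k226) (LT k230 k225) (LT k91 k102) (LT k177 k175) (LT k156 k164)
                  · obtain ⟨e14, l14⟩ := (h1 e13).resolve_right k201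
                    have c14 : Core e0 e14 := CJ k201 l14
                    have k204 : e0 ≤ e14 := L1 l14
                    have k205 : e13 ≤ e14 := L2 l14
                    have k210 : e3 ≤ e14 := le_trans k179 k205
                    have k225 : e4 ≤ e14 := L3 l4 k204 k210
                    have k229 : e14 ≤ e4 := Classical.byContradiction fun hn => HL _ _ _ _ _ _ c2 c6 c9 c12 c4 c14 (LT k44 k53) (LT k91 k102) (LT k177 k175) (LT k156 k164) (LT k225 hn)
                    have k231 : e13 ≤ e4 := le_trans k205 k229
                    obtain ⟨e15, l15⟩ := ZE h2 k184 k201 g6
                    have c15 : Core e0 e15 := CZ g6 k201 l15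
                    have k236 : e6 ≤ e15 := L1 l15
                    have k237 : e13 ≤ e15 := L2 l15
                    have k238 : e15 ≤ e4 := L3 l15 k47 k231
                    have k239 : e15 ≤ e5 := L3 l15 k43 k184
                    have k246 : e10 ≤ e15 := le_trans k181 k237
                    have k247 : ¬ e0 ≤ e15 := N2 k34 k239
                    have k248 : ¬ e4 ≤ e15 := N1 k247 k21
                    have k262 : ¬ e15 ≤ e12 := N1 k183 k237
                    have k265 : e12 ≤ e15 := L3 l12 k236 k246
                    exact HL _ _ _ _ _ _ c2 c6 c9 c12 c15 c4 (LT k44 k53) (LT k91 k102) (LT k177 k175) (LT k265 k262) (LT k238 k248)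
                · obtain ⟨e12, q12⟩ : ∃ y, f e11 = y := ⟨_, rfl⟩
                  have k151 : e1 ≤ e12 := MO hf q1 q12 k128
                  have k152 : e3 ≤ e12 := MO hf q3 q12 k131
                  have k153 : e5 ≤ e12 := MO hf q5 q12 k146
                  have k155 : e10 ≤ e12 := MO hf q10 q12 k147
                  have k156 : ¬ e11 ≤ e12 := FA hF q12
                  have k157 : ¬ e12 ≤ e11 := FB hG q12
                  have k158 : ¬ e0 ≤ e12 := L5 l11 k155 k156
                  have k159 : e2 ≤ e12 := le_trans k7 k151
                  have k161 : e6 ≤ e12 := le_trans k43 k153
                  by_cases k174 : ∃ z, IsGLB ({e0, e12} : Set P) z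
                  · obtain ⟨e13, g13⟩ := k174
                    have c13 : Core e0 e13 := CM g13
                    obtain ⟨e14, l14⟩ := ZE h2 k152 k18 g13
                    have c14 : Core e0 e14 := CZ g13 k18 l14
                    have k179 : e13 ≤ e0 := G1 g13
                    have k180 : e13 ≤ e12 := G2 g13
                    have k181 : e2 ≤ e13 := G3 g13 k6 k159
                    have k182 : e6 ≤ e13 := G3 g13 k42 k161
                    have k191 : e13 ≤ e11 := le_trans k179 k128
                    have k195 : ¬ e0 ≤ e13 := N2 k158 k180
                    have k206 : ¬ e3 ≤ e13 := N2 k15 k179
                    have k211 : ¬ e9 ≤ e13 := N1 k206 k92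
                    have k216 : ¬ e13 ≤ e2 := N1 k53 k182
                    have k228 : e13 ≤ e6 := Classical.byContradiction fun hn => HL _ _ _ _ _ _ c2 c6 c13 c0 c4 c11 (LT k44 k53) (LT k182 hn) (LT k179 k195) (LT k21 k28) (LT k146 k148)
                    have k229 : e13 ≤ e5 := le_trans k228 k43
                    have k230 : e13 ≤ e9 := le_trans k228 k91
                    obtain ⟨e15, l15⟩ := ZE h2 k155 k125 g13
                    have c15 : Core e0 e15 := CZ g13 k125 l15
                    have k235 : e13 ≤ e15 := L1 l15
                    have k236 : e10 ≤ e15 := L2 l15
                    have k237 : e15 ≤ e5 := L3 l15 k229 k113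
                    have k238 : e15 ≤ e11 := L3 l15 k191 k129
                    have k241 : e3 ≤ e15 := le_trans k109 k236
                    have k244 : e6 ≤ e15 := le_trans k182 k235
                    have k245 : ¬ e0 ≤ e15 := N2 k34 k237
                    have k247 : ¬ e11 ≤ e15 := N1 k245 k128
                    have k258 : ¬ e15 ≤ e9 := N1 k112 k236
                    have k262 : e9 ≤ e15 := L3 l9 k244 k241
                    obtain ⟨e16, q16⟩ : ∃ y, f e15 = y := ⟨_, rfl⟩
                    have k266 : e7 ≤ e16 := MO hf q7 q16 k244
                    have k267 : e10 ≤ e16 := MO hf q10 q16 k262
                    have k268 : ¬ e15 ≤ e16 := FA hF q16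
                    have k269 : ¬ e16 ≤ e15 := FB hG q16
                    have k270 : e16 ≤ e12 := MO hf q16 q12 k238
                    have k271 : ¬ e13 ≤ e16 := L5 l15 k267 k268
                    have k272 : e2 ≤ e16 := le_trans k88 k266
                    have k287 : ¬ e6 ≤ e16 := N1 k271 k228
                    by_cases k293 : ∃ z, IsGLB ({e0, e16} : Set P) z
                    · obtain ⟨e17, g17⟩ := k293
                      have c17 : Core e0 e17 := CM g17
                      have k296 : e17 ≤ e0 := G1 g17
                      have k297 : e17 ≤ e16 := G2 g17
                      have k298 : e2 ≤ e17 := G3 g17 k6 k272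
                      have k301 : ¬ e17 ≤ e10 := BN3 g17 k125 k267
                      have k305 : e17 ≤ e12 := le_trans k297 k270
                      have k319 : ¬ e6 ≤ e17 := N2 k287 k297
                      have k320 : ¬ e13 ≤ e17 := N1 k319 k182
                      have k321 : ¬ e17 ≤ e2 := N2 k301 k115
                      have k325 : e17 ≤ e13 := G3 g13 k296 k305
                      exact HL _ _ _ _ _ _ c2 c17 c13 c0 c4 c11 (LT k298 k321) (LT k325 k320) (LT k179 k195) (LT k21 k28) (LT k146 k148)
                    · obtain ⟨e17, l17⟩ := (h1 e16).resolve_right k293
                      have c17 : Core e0 e17 := CJ k293 l17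
                      have k296 : e0 ≤ e17 := L1 l17
                      have k297 : e16 ≤ e17 := L2 l17
                      have k305 : e10 ≤ e17 := le_trans k267 k297
                      have k324 : e11 ≤ e17 := L3 l11 k296 k305
                      have k327 : e17 ≤ e11 := Classical.byContradiction fun hn => HL _ _ _ _ _ _ c2 c6 c9 c15 c11 c17 (LT k44 k53) (LT k91 k102) (LT k262 k258) (LT k238 k247) (LT k324 hn)
                      have k328 : e16 ≤ e11 := le_trans k297 k327
                      obtain ⟨e18, l18⟩ := ZE h2 k270 k293 g13
                      have c18 : Core e0 e18 := CZ g13 k293 l18
                      have k332 : e13 ≤ e18 := L1 l18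
                      have k333 : e16 ≤ e18 := L2 l18
                      have k334 : e18 ≤ e11 := L3 l18 k191 k328
                      have k335 : e18 ≤ e12 := L3 l18 k180 k270
                      have k342 : e10 ≤ e18 := le_trans k267 k333
                      have k343 : ¬ e0 ≤ e18 := N2 k158 k335
                      have k345 : ¬ e11 ≤ e18 := N1 k343 k128
                      have k361 : ¬ e18 ≤ e15 := N1 k269 k333
                      have k365 : e15 ≤ e18 := L3 l15 k332 k342
                      exact HL _ _ _ _ _ _ c2 c13 c9 c15 c18 c11 (LT k181 k216) (LT k230 k211) (LT k262 k258) (LT k365 k361) (LT k334 k345)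
                  · obtain ⟨e13, l13⟩ := (h1 e12).resolve_right k174
                    have c13 : Core e0 e13 := CJ k174 l13
                    have k177 : e0 ≤ e13 := L1 l13
                    have k178 : e12 ≤ e13 := L2 l13
                    have k188 : e10 ≤ e13 := le_trans k155 k178
                    have k201 : ¬ e13 ≤ e11 := N1 k157 k178
                    have k203 : e11 ≤ e13 := L3 l11 k177 k188
                    exact HL _ _ _ _ _ _ c2 c6 c0 c4 c11 c13 (LT k44 k53) (LT k42 k48) (LT k21 k28) (LT k146 k148) (LT k203 k201)
            · have k88 : ¬ e2 ≤ e7 := G4 g8 k6 k87
              obtain ⟨e9, q9⟩ : ∃ y, f e8 = y := ⟨_, rfl⟩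
              have k92 : ¬ e9 ≤ e8 := FB hG q9
              have k94 : e9 ≤ e3 := MO hf q9 q3 k85
              have k95 : e9 ≤ e5 := MO hf q9 q5 k74
              have k96 : e9 ≤ e7 := MO hf q9 q7 k86
              have k97 : ¬ e9 ≤ e0 := G5 g8 k96 k92
              have k98 : e9 ≤ e4 := le_trans k94 k22
              have k107 : ¬ e9 ≤ e6 := N2 k97 k42
              by_cases k108 : ∃ z, IsGLB ({e0, e9} : Set P) z
              · obtain ⟨e10, g10⟩ := k108
                have c10 : Core e0 e10 := CM g10
                have k111 : e10 ≤ e0 := G1 g10
                have k112 : e10 ≤ e9 := G2 g10
                have k116 : e10 ≤ e3 := le_trans k112 k94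
                have k118 : e10 ≤ e7 := le_trans k112 k96
                have k127 : ¬ e8 ≤ e10 := N2 k72 k116
                have k131 : e10 ≤ e8 := G3 g8 k111 k118
                exact HL _ _ _ _ _ _ c10 c8 c2 c6 c0 c4 (LT k131 k127) (LT k85 k87) (LT k44 k53) (LT k42 k48) (LT k21 k28)
              · obtain ⟨e10, l10⟩ := (h1 e9).resolve_right k108
                have c10 : Core e0 e10 := CJ k108 l10
                have k111 : e0 ≤ e10 := L1 l10
                have k112 : e9 ≤ e10 := L2 l10
                have k113 : e10 ≤ e4 := L3 l10 k21 k98
                have k127 : ¬ e10 ≤ e0 := N1 k97 k112
                have k128 : e4 ≤ e10 := Classical.byContradiction fun hn => HL _ _ _ _ _ _ c8 c2 c6 c0 c10 c4 (LT k85 k87) (LT k44 k53) (LT k42 k48) (LT k111 k127) (LT k113 hn)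
                obtain ⟨e11, l11⟩ := ZE h2 k95 k108 g6
                have c11 : Core e0 e11 := CZ g6 k108 l11
                have k132 : e6 ≤ e11 := L1 l11
                have k133 : e9 ≤ e11 := L2 l11
                have k134 : e11 ≤ e4 := L3 l11 k47 k98
                have k135 : e11 ≤ e5 := L3 l11 k43 k95
                have k137 : e2 ≤ e11 := le_trans k44 k132
                have k138 : e8 ≤ e11 := le_trans k86 k132
                have k139 : ¬ e0 ≤ e11 := N2 k34 k135
                have k140 : ¬ e4 ≤ e11 := N1 k139 k21
                have k150 : ¬ e11 ≤ e6 := N1 k107 k133
                obtain ⟨e12, q12⟩ : ∃ y, f e11 = y := ⟨_, rfl⟩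
                have k153 : e3 ≤ e12 := MO hf q3 q12 k137
                have k154 : e7 ≤ e12 := MO hf q7 q12 k132
                have k155 : e9 ≤ e12 := MO hf q9 q12 k138
                have k156 : ¬ e11 ≤ e12 := FA hF q12
                have k157 : ¬ e12 ≤ e11 := FB hG q12
                have k158 : e12 ≤ e5 := MO hf q12 q5 k134
                have k159 : ¬ e6 ≤ e12 := L5 l11 k155 k156
                have k160 : e8 ≤ e12 := le_trans k71 k154
                by_cases k171 : ∃ z, IsGLB ({e0, e12} : Set P) z
                · obtain ⟨e13, g13⟩ := k171
                  have c13 : Core e0 e13 := CM g13
                  have k174 : e13 ≤ e0 := G1 g13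
                  have k175 : e13 ≤ e12 := G2 g13
                  have k176 : e8 ≤ e13 := G3 g13 k70 k160
                  have k180 : e13 ≤ e4 := le_trans k174 k21
                  have k182 : e13 ≤ e5 := le_trans k175 k158
                  have k191 : ¬ e6 ≤ e13 := N2 k159 k175
                  have k193 : ¬ e9 ≤ e13 := N2 k97 k174
                  have k194 : e13 ≤ e6 := G3 g6 k174 k182
                  have k195 : e13 ≤ e11 := le_trans k194 k132
                  by_cases k196 : e13 ≤ e8
                  · have k198 : e13 ≤ e2 := le_trans k196 k85
                    have k199 : e13 ≤ e7 := le_trans k196 k71
                    have k200 : ¬ e2 ≤ e13 := N2 k88 k199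
                    have k201 : ¬ e2 ≤ e12 := G4 g13 k6 k200
                    obtain ⟨e14, l14⟩ := ZE h2 k155 k108 g13
                    have c14 : Core e0 e14 := CZ g13 k108 l14
                    have k205 : e13 ≤ e14 := L1 l14
                    have k206 : e9 ≤ e14 := L2 l14
                    have k208 : e14 ≤ e4 := L3 l14 k180 k98
                    have k212 : e14 ≤ e11 := L3 l14 k195 k133
                    have k214 : e8 ≤ e14 := le_trans k176 k205
                    have k228 : ¬ e14 ≤ e8 := N1 k92 k206
                    obtain ⟨e15, q15⟩ : ∃ y, f e14 = y := ⟨_, rfl⟩
                    have k233 : e9 ≤ e15 := MO hf q9 q15 k214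
                    have k234 : ¬ e14 ≤ e15 := FA hF q15
                    have k235 : ¬ e15 ≤ e14 := FB hG q15
                    have k236 : e15 ≤ e5 := MO hf q15 q5 k208
                    have k237 : e15 ≤ e12 := MO hf q15 q12 k212
                    have k238 : ¬ e13 ≤ e15 := L5 l14 k233 k234
                    have k253 : ¬ e8 ≤ e15 := N1 k238 k196
                    by_cases k256 : ∃ z, IsGLB ({e0, e15} : Set P) z
                    · obtain ⟨e16, g16⟩ := k256
                      have c16 : Core e0 e16 := CM g16
                      have k259 : e16 ≤ e0 := G1 g16
                      have k260 : e16 ≤ e15 := G2 g16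
                      have k266 : e16 ≤ e12 := le_trans k260 k237
                      have k278 : ¬ e8 ≤ e16 := N2 k253 k260
                      have k279 : ¬ e13 ≤ e16 := N1 k278 k176
                      have k284 : e16 ≤ e13 := G3 g13 k259 k266
                      exact HL _ _ _ _ _ _ c16 c13 c2 c6 c0 c4 (LT k284 k279) (LT k198 k200) (LT k44 k53) (LT k42 k48) (LT k21 k28)
                    · obtain ⟨e16, l16⟩ := (h1 e15).resolve_right k256
                      have c16 : Core e0 e16 := CJ k256 l16
                      have k259 : e0 ≤ e16 := L1 l16
                      have k260 : e15 ≤ e16 := L2 l16
                      have k266 : e9 ≤ e16 := le_trans k233 k260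
                      have k281 : e10 ≤ e16 := L3 l10 k259 k266
                      have k285 : e4 ≤ e16 := le_trans k128 k281
                      have k286 : e16 ≤ e4 := Classical.byContradiction fun hn => HL _ _ _ _ _ _ c8 c2 c6 c11 c4 c16 (LT k85 k87) (LT k44 k53) (LT k132 k150) (LT k134 k140) (LT k285 hn)
                      have k288 : e15 ≤ e4 := le_trans k260 k286
                      obtain ⟨e17, l17⟩ := ZE h2 k236 k256 g6
                      have c17 : Core e0 e17 := CZ g6 k256 l17
                      have k293 : e6 ≤ e17 := L1 l17
                      have k294 : e15 ≤ e17 := L2 l17
                      have k295 : e17 ≤ e4 := L3 l17 k47 k288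
                      have k296 : e17 ≤ e5 := L3 l17 k43 k236
                      have k302 : e9 ≤ e17 := le_trans k233 k294
                      have k303 : ¬ e0 ≤ e17 := N2 k34 k296
                      have k304 : ¬ e4 ≤ e17 := N1 k303 k21
                      have k321 : e11 ≤ e17 := L3 l11 k293 k302
                      have k323 : e17 ≤ e11 := Classical.byContradiction fun hn => HL _ _ _ _ _ _ c8 c2 c6 c11 c17 c4 (LT k85 k87) (LT k44 k53) (LT k132 k150) (LT k321 hn) (LT k295 k304)
                      have k324 : e15 ≤ e11 := le_trans k294 k323
                      obtain ⟨e18, l18⟩ := ZE h2 k237 k256 g13
                      have c18 : Core e0 e18 := CZ g13 k256 l18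
                      have k328 : e13 ≤ e18 := L1 l18
                      have k329 : e15 ≤ e18 := L2 l18
                      have k330 : e18 ≤ e4 := L3 l18 k180 k288
                      have k333 : e18 ≤ e11 := L3 l18 k195 k324
                      have k334 : e18 ≤ e12 := L3 l18 k175 k237
                      have k337 : e8 ≤ e18 := le_trans k176 k328
                      have k338 : e9 ≤ e18 := le_trans k233 k329
                      have k345 : ¬ e2 ≤ e18 := N2 k201 k334
                      have k347 : ¬ e11 ≤ e18 := N1 k345 k137
                      have k358 : ¬ e18 ≤ e14 := N1 k235 k329
                      have k360 : e14 ≤ e18 := L3 l14 k328 k338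
                      obtain ⟨e19, q19⟩ : ∃ y, f e18 = y := ⟨_, rfl⟩
                      have k362 : e9 ≤ e19 := MO hf q9 q19 k337
                      have k363 : e15 ≤ e19 := MO hf q15 q19 k360
                      have k364 : ¬ e18 ≤ e19 := FA hF q19
                      have k365 : ¬ e19 ≤ e18 := FB hG q19
                      have k366 : e19 ≤ e5 := MO hf q19 q5 k330
                      have k367 : e19 ≤ e12 := MO hf q19 q12 k333
                      have k368 : ¬ e13 ≤ e19 := L5 l18 k363 k364
                      have k385 : ¬ e8 ≤ e19 := N1 k368 k196
                      by_cases k391 : ∃ z, IsGLB ({e0, e19} : Set P) z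
                      · obtain ⟨e20, g20⟩ := k391
                        have c20 : Core e0 e20 := CM g20
                        have k394 : e20 ≤ e0 := G1 g20
                        have k395 : e20 ≤ e19 := G2 g20
                        have k403 : e20 ≤ e12 := le_trans k395 k367
                        have k417 : ¬ e8 ≤ e20 := N2 k385 k395
                        have k418 : ¬ e13 ≤ e20 := N1 k417 k176
                        have k425 : e20 ≤ e13 := G3 g13 k394 k403
                        exact HL _ _ _ _ _ _ c20 c13 c2 c6 c0 c4 (LT k425 k418) (LT k198 k200) (LT k44 k53) (LT k42 k48) (LT k21 k28)
                      · obtain ⟨e20, l20⟩ := (h1 e19).resolve_right k391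
                        have c20 : Core e0 e20 := CJ k391 l20
                        have k394 : e0 ≤ e20 := L1 l20
                        have k395 : e19 ≤ e20 := L2 l20
                        have k401 : e9 ≤ e20 := le_trans k362 k395
                        have k420 : e10 ≤ e20 := L3 l10 k394 k401
                        have k427 : e4 ≤ e20 := le_trans k128 k420
                        have k428 : e20 ≤ e4 := Classical.byContradiction fun hn => HL _ _ _ _ _ _ c8 c14 c18 c11 c4 c20 (LT k214 k228) (LT k360 k358) (LT k333 k347) (LT k134 k140) (LT k427 hn)
                        have k431 : e19 ≤ e4 := le_trans k395 k428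
                        obtain ⟨e21, l21⟩ := ZE h2 k366 k391 g6
                        have c21 : Core e0 e21 := CZ g6 k391 l21
                        have k437 : e6 ≤ e21 := L1 l21
                        have k438 : e19 ≤ e21 := L2 l21
                        have k439 : e21 ≤ e4 := L3 l21 k47 k431
                        have k440 : e21 ≤ e5 := L3 l21 k43 k366
                        have k447 : e9 ≤ e21 := le_trans k362 k438
                        have k449 : ¬ e0 ≤ e21 := N2 k34 k440
                        have k450 : ¬ e4 ≤ e21 := N1 k449 k21
                        have k470 : e11 ≤ e21 := L3 l11 k437 k447
                        have k474 : e21 ≤ e11 := Classical.byContradiction fun hn => HL _ _ _ _ _ _ c8 c14 c18 c11 c21 c4 (LT k214 k228) (LT k360 k358) (LT k333 k347) (LT k470 hn) (LT k439 k450)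
                        have k476 : e19 ≤ e11 := le_trans k438 k474
                        obtain ⟨e22, l22⟩ := ZE h2 k367 k391 g13
                        have c22 : Core e0 e22 := CZ g13 k391 l22
                        have k481 : e13 ≤ e22 := L1 l22
                        have k482 : e19 ≤ e22 := L2 l22
                        have k486 : e22 ≤ e11 := L3 l22 k195 k476
                        have k487 : e22 ≤ e12 := L3 l22 k175 k367
                        have k494 : e15 ≤ e22 := le_trans k363 k482
                        have k502 : ¬ e2 ≤ e22 := N2 k201 k487
                        have k504 : ¬ e11 ≤ e22 := N1 k502 k137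
                        have k518 : ¬ e22 ≤ e18 := N1 k365 k482
                        have k521 : e18 ≤ e22 := L3 l18 k481 k494
                        exact HL _ _ _ _ _ _ c8 c14 c18 c22 c11 c4 (LT k214 k228) (LT k360 k358) (LT k521 k518) (LT k486 k504) (LT k134 k140)
                  · obtain ⟨e14, q14⟩ : ∃ y, f e13 = y := ⟨_, rfl⟩
                    have k200 : e9 ≤ e14 := MO hf q9 q14 k176
                    have k204 : e14 ≤ e5 := MO hf q14 q5 k180
                    have k205 : e14 ≤ e7 := MO hf q14 q7 k194
                    have k206 : e14 ≤ e12 := MO hf q14 q12 k195
                    by_cases k220 : ∃ z, IsGLB ({e0, e14} : Set P) z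
                    · obtain ⟨e15, g15⟩ := k220
                      have c15 : Core e0 e15 := CM g15
                      have k223 : e15 ≤ e0 := G1 g15
                      have k224 : e15 ≤ e14 := G2 g15
                      have k231 : e15 ≤ e7 := le_trans k224 k205
                      have k250 : e15 ≤ e8 := G3 g8 k223 k231
                      have k253 : e8 ≤ e15 := Classical.byContradiction fun hn => HL _ _ _ _ _ _ c15 c8 c2 c6 c0 c4 (LT k250 hn) (LT k85 k87) (LT k44 k53) (LT k42 k48) (LT k21 k28)
                      have k254 : e8 ≤ e14 := le_trans k253 k224
                      obtain ⟨e16, l16⟩ := ZE h2 k155 k108 g13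
                      have c16 : Core e0 e16 := CZ g13 k108 l16
                      have k262 : e13 ≤ e16 := L1 l16
                      have k263 : e9 ≤ e16 := L2 l16
                      have k264 : e16 ≤ e4 := L3 l16 k180 k98
                      have k267 : e16 ≤ e11 := L3 l16 k195 k133
                      have k268 : e16 ≤ e12 := L3 l16 k175 k155
                      have k269 : e8 ≤ e16 := le_trans k176 k262
                      have k275 : ¬ e6 ≤ e16 := N2 k159 k268
                      have k276 : ¬ e11 ≤ e16 := N1 k275 k132
                      have k283 : ¬ e16 ≤ e13 := N1 k193 k263
                      obtain ⟨e17, q17⟩ : ∃ y, f e16 = y := ⟨_, rfl⟩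
                      have k291 : e9 ≤ e17 := MO hf q9 q17 k269
                      have k292 : e14 ≤ e17 := MO hf q14 q17 k262
                      have k293 : ¬ e16 ≤ e17 := FA hF q17
                      have k294 : ¬ e17 ≤ e16 := FB hG q17
                      have k295 : e17 ≤ e5 := MO hf q17 q5 k264
                      have k296 : e17 ≤ e12 := MO hf q17 q12 k267
                      have k297 : ¬ e13 ≤ e17 := L5 l16 k291 k293
                      have k298 : e8 ≤ e17 := le_trans k254 k292
                      by_cases k315 : ∃ z, IsGLB ({e0, e17} : Set P) z
                      · obtain ⟨e18, g18⟩ := k315
                        have c18 : Core e0 e18 := CM g18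
                        have k318 : e18 ≤ e0 := G1 g18
                        have k319 : e18 ≤ e17 := G2 g18
                        have k320 : e8 ≤ e18 := G3 g18 k70 k298
                        have k324 : e18 ≤ e4 := le_trans k318 k21
                        have k326 : e18 ≤ e5 := le_trans k319 k295
                        have k327 : e18 ≤ e12 := le_trans k319 k296
                        have k343 : ¬ e13 ≤ e18 := N2 k297 k319
                        have k344 : e18 ≤ e6 := G3 g6 k318 k326
                        have k345 : e18 ≤ e13 := G3 g13 k318 k327
                        have k346 : e18 ≤ e11 := le_trans k344 k132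
                        have k347 : e18 ≤ e16 := le_trans k345 k262
                        have k348 : e18 ≤ e8 := Classical.byContradiction fun hn => HL _ _ _ _ _ _ c8 c18 c13 c6 c0 c4 (LT k320 hn) (LT k345 k343) (LT k194 k191) (LT k42 k48) (LT k21 k28)
                        have k350 : e18 ≤ e2 := le_trans k348 k85
                        have k351 : e18 ≤ e7 := le_trans k348 k71
                        have k354 : ¬ e2 ≤ e18 := N2 k88 k351
                        obtain ⟨e19, l19⟩ := ZE h2 k291 k108 g18
                        have c19 : Core e0 e19 := CZ g18 k108 l19
                        have k359 : e18 ≤ e19 := L1 l19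
                        have k360 : e9 ≤ e19 := L2 l19
                        have k362 : e19 ≤ e4 := L3 l19 k324 k98
                        have k366 : e19 ≤ e11 := L3 l19 k346 k133
                        have k369 : e19 ≤ e16 := L3 l19 k347 k263
                        have k371 : e8 ≤ e19 := le_trans k320 k359
                        have k386 : ¬ e19 ≤ e8 := N1 k92 k360
                        obtain ⟨e20, q20⟩ : ∃ y, f e19 = y := ⟨_, rfl⟩
                        have k396 : e9 ≤ e20 := MO hf q9 q20 k371
                        have k397 : ¬ e19 ≤ e20 := FA hF q20
                        have k398 : ¬ e20 ≤ e19 := FB hG q20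
                        have k399 : e20 ≤ e5 := MO hf q20 q5 k362
                        have k400 : e20 ≤ e12 := MO hf q20 q12 k366
                        have k401 : e20 ≤ e17 := MO hf q20 q17 k369
                        have k402 : ¬ e18 ≤ e20 := L5 l19 k396 k397
                        have k422 : ¬ e8 ≤ e20 := N1 k402 k348
                        by_cases k427 : ∃ z, IsGLB ({e0, e20} : Set P) z
                        · obtain ⟨e21, g21⟩ := k427
                          have c21 : Core e0 e21 := CM g21
                          have k430 : e21 ≤ e0 := G1 g21
                          have k431 : e21 ≤ e20 := G2 g21
                          have k438 : e21 ≤ e17 := le_trans k431 k401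
                          have k450 : ¬ e8 ≤ e21 := N2 k422 k431
                          have k456 : ¬ e18 ≤ e21 := N1 k450 k320
                          have k462 : e21 ≤ e18 := G3 g18 k430 k438
                          exact HL _ _ _ _ _ _ c21 c18 c2 c6 c0 c4 (LT k462 k456) (LT k350 k354) (LT k44 k53) (LT k42 k48) (LT k21 k28)
                        · obtain ⟨e21, l21⟩ := (h1 e20).resolve_right k427
                          have c21 : Core e0 e21 := CJ k427 l21
                          have k430 : e0 ≤ e21 := L1 l21
                          have k431 : e20 ≤ e21 := L2 l21
                          have k439 : e9 ≤ e21 := le_trans k396 k431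
                          have k459 : e10 ≤ e21 := L3 l10 k430 k439
                          have k464 : e4 ≤ e21 := le_trans k128 k459
                          have k465 : e21 ≤ e4 := Classical.byContradiction fun hn => HL _ _ _ _ _ _ c8 c13 c16 c11 c4 c21 (LT k176 k196) (LT k262 k283) (LT k267 k276) (LT k134 k140) (LT k464 hn)
                          have k467 : e20 ≤ e4 := le_trans k431 k465
                          obtain ⟨e22, l22⟩ := ZE h2 k399 k427 g6
                          have c22 : Core e0 e22 := CZ g6 k427 l22
                          have k472 : e6 ≤ e22 := L1 l22
                          have k473 : e20 ≤ e22 := L2 l22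
                          have k474 : e22 ≤ e4 := L3 l22 k47 k467
                          have k475 : e22 ≤ e5 := L3 l22 k43 k399
                          have k480 : e13 ≤ e22 := le_trans k194 k472
                          have k483 : e9 ≤ e22 := le_trans k396 k473
                          have k484 : ¬ e0 ≤ e22 := N2 k34 k475
                          have k485 : ¬ e4 ≤ e22 := N1 k484 k21
                          have k503 : ¬ e22 ≤ e16 := N1 k275 k472
                          have k507 : e11 ≤ e22 := L3 l11 k472 k483
                          have k508 : e16 ≤ e22 := L3 l16 k480 k483
                          have k510 : e22 ≤ e11 := Classical.byContradiction fun hn => HL _ _ _ _ _ _ c8 c13 c16 c11 c22 c4 (LT k176 k196) (LT k262 k283) (LT k267 k276) (LT k507 hn) (LT k474 k485)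
                          have k511 : e20 ≤ e11 := le_trans k473 k510
                          obtain ⟨e23, l23⟩ := ZE h2 k400 k427 g13
                          have c23 : Core e0 e23 := CZ g13 k427 l23
                          have k515 : e13 ≤ e23 := L1 l23
                          have k516 : e20 ≤ e23 := L2 l23
                          have k520 : e23 ≤ e11 := L3 l23 k195 k511
                          have k521 : e23 ≤ e12 := L3 l23 k175 k400
                          have k527 : e9 ≤ e23 := le_trans k396 k516
                          have k533 : ¬ e6 ≤ e23 := N2 k159 k521
                          have k534 : ¬ e11 ≤ e23 := N1 k533 k132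
                          have k553 : e16 ≤ e23 := L3 l16 k515 k527
                          have k555 : e23 ≤ e16 := Classical.byContradiction fun hn => HL _ _ _ _ _ _ c8 c13 c16 c23 c11 c4 (LT k176 k196) (LT k262 k283) (LT k553 hn) (LT k520 k534) (LT k134 k140)
                          have k556 : e20 ≤ e16 := le_trans k516 k555
                          obtain ⟨e24, l24⟩ := ZE h2 k401 k427 g18
                          have c24 : Core e0 e24 := CZ g18 k427 l24
                          have k560 : e18 ≤ e24 := L1 l24
                          have k561 : e20 ≤ e24 := L2 l24
                          have k567 : e24 ≤ e16 := L3 l24 k347 k556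
                          have k568 : e24 ≤ e17 := L3 l24 k319 k401
                          have k574 : e9 ≤ e24 := le_trans k396 k561
                          have k596 : ¬ e13 ≤ e24 := N2 k297 k568
                          have k597 : ¬ e16 ≤ e24 := N1 k596 k262
                          have k600 : ¬ e24 ≤ e19 := N1 k398 k561
                          have k602 : e19 ≤ e24 := L3 l19 k560 k574
                          exact HL _ _ _ _ _ _ c8 c19 c24 c16 c22 c4 (LT k371 k386) (LT k602 k600) (LT k567 k597) (LT k508 k503) (LT k474 k485)
                      · obtain ⟨e18, l18⟩ := (h1 e17).resolve_right k315
                        have c18 : Core e0 e18 := CJ k315 l18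
                        have k318 : e0 ≤ e18 := L1 l18
                        have k319 : e17 ≤ e18 := L2 l18
                        have k326 : e9 ≤ e18 := le_trans k291 k319
                        have k344 : e10 ≤ e18 := L3 l10 k318 k326
                        have k348 : e4 ≤ e18 := le_trans k128 k344
                        have k349 : e18 ≤ e4 := Classical.byContradiction fun hn => HL _ _ _ _ _ _ c8 c13 c16 c11 c4 c18 (LT k176 k196) (LT k262 k283) (LT k267 k276) (LT k134 k140) (LT k348 hn)
                        have k353 : e17 ≤ e4 := le_trans k319 k349
                        obtain ⟨e19, l19⟩ := ZE h2 k295 k315 g6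
                        have c19 : Core e0 e19 := CZ g6 k315 l19
                        have k358 : e6 ≤ e19 := L1 l19
                        have k359 : e17 ≤ e19 := L2 l19
                        have k360 : e19 ≤ e4 := L3 l19 k47 k353
                        have k361 : e19 ≤ e5 := L3 l19 k43 k295
                        have k368 : e9 ≤ e19 := le_trans k291 k359
                        have k370 : ¬ e0 ≤ e19 := N2 k34 k361
                        have k371 : ¬ e4 ≤ e19 := N1 k370 k21
                        have k390 : e11 ≤ e19 := L3 l11 k358 k368
                        have k392 : e19 ≤ e11 := Classical.byContradiction fun hn => HL _ _ _ _ _ _ c8 c13 c16 c11 c19 c4 (LT k176 k196) (LT k262 k283) (LT k267 k276) (LT k390 hn) (LT k360 k371)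
                        have k394 : e17 ≤ e11 := le_trans k359 k392
                        obtain ⟨e20, l20⟩ := ZE h2 k296 k315 g13
                        have c20 : Core e0 e20 := CZ g13 k315 l20
                        have k398 : e13 ≤ e20 := L1 l20
                        have k399 : e17 ≤ e20 := L2 l20
                        have k403 : e20 ≤ e11 := L3 l20 k195 k394
                        have k404 : e20 ≤ e12 := L3 l20 k175 k296
                        have k409 : e9 ≤ e20 := le_trans k291 k399
                        have k416 : ¬ e6 ≤ e20 := N2 k159 k404
                        have k417 : ¬ e11 ≤ e20 := N1 k416 k132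
                        have k432 : ¬ e20 ≤ e16 := N1 k294 k399
                        have k434 : e16 ≤ e20 := L3 l16 k398 k409
                        exact HL _ _ _ _ _ _ c8 c13 c16 c20 c11 c4 (LT k176 k196) (LT k262 k283) (LT k434 k432) (LT k403 k417) (LT k134 k140)
                    · have k221 : ¬ e8 ≤ e14 := BN3 g8 k220 k205
                      obtain ⟨e15, l15⟩ := (h1 e14).resolve_right k220
                      have c15 : Core e0 e15 := CJ k220 l15
                      have k225 : e0 ≤ e15 := L1 l15
                      have k226 : e14 ≤ e15 := L2 l15
                      have k232 : e9 ≤ e15 := le_trans k200 k226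
                      have k246 : e10 ≤ e15 := L3 l10 k225 k232
                      have k249 : e4 ≤ e15 := le_trans k128 k246
                      have k250 : e15 ≤ e4 := Classical.byContradiction fun hn => HL _ _ _ _ _ _ c8 c13 c6 c11 c4 c15 (LT k176 k196) (LT k194 k191) (LT k132 k150) (LT k134 k140) (LT k249 hn)
                      have k252 : e14 ≤ e4 := le_trans k226 k250
                      obtain ⟨e16, l16⟩ := ZE h2 k204 k220 g6
                      have c16 : Core e0 e16 := CZ g6 k220 l16
                      have k257 : e6 ≤ e16 := L1 l16
                      have k258 : e14 ≤ e16 := L2 l16
                      have k259 : e16 ≤ e4 := L3 l16 k47 k252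
                      have k260 : e16 ≤ e5 := L3 l16 k43 k204
                      have k266 : e9 ≤ e16 := le_trans k200 k258
                      have k267 : ¬ e0 ≤ e16 := N2 k34 k260
                      have k268 : ¬ e4 ≤ e16 := N1 k267 k21
                      have k284 : e11 ≤ e16 := L3 l11 k257 k266
                      have k285 : e16 ≤ e11 := Classical.byContradiction fun hn => HL _ _ _ _ _ _ c8 c13 c6 c11 c16 c4 (LT k176 k196) (LT k194 k191) (LT k132 k150) (LT k284 hn) (LT k259 k268)
                      have k286 : e14 ≤ e11 := le_trans k258 k285
                      obtain ⟨e17, l17⟩ := ZE h2 k206 k220 g13
                      have c17 : Core e0 e17 := CZ g13 k220 l17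
                      have k290 : e13 ≤ e17 := L1 l17
                      have k291 : e14 ≤ e17 := L2 l17
                      have k292 : e17 ≤ e4 := L3 l17 k180 k252
                      have k295 : e17 ≤ e11 := L3 l17 k195 k286
                      have k296 : e17 ≤ e12 := L3 l17 k175 k206
                      have k299 : e8 ≤ e17 := le_trans k176 k290
                      have k300 : e9 ≤ e17 := le_trans k200 k291
                      have k306 : ¬ e6 ≤ e17 := N2 k159 k296
                      have k307 : ¬ e11 ≤ e17 := N1 k306 k132
                      have k316 : ¬ e17 ≤ e13 := N1 k193 k300
                      obtain ⟨e18, q18⟩ : ∃ y, f e17 = y := ⟨_, rfl⟩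
                      have k321 : e9 ≤ e18 := MO hf q9 q18 k299
                      have k322 : e14 ≤ e18 := MO hf q14 q18 k290
                      have k323 : ¬ e17 ≤ e18 := FA hF q18
                      have k324 : ¬ e18 ≤ e17 := FB hG q18
                      have k325 : e18 ≤ e5 := MO hf q18 q5 k292
                      have k326 : e18 ≤ e12 := MO hf q18 q12 k295
                      have k327 : ¬ e13 ≤ e18 := L5 l17 k322 k323
                      by_cases k344 : ∃ z, IsGLB ({e0, e18} : Set P) z
                      · obtain ⟨e19, g19⟩ := k344
                        have c19 : Core e0 e19 := CM g19
                        have k347 : e19 ≤ e0 := G1 g19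
                        have k348 : e19 ≤ e18 := G2 g19
                        have k352 : e19 ≤ e4 := le_trans k347 k21
                        have k355 : e19 ≤ e5 := le_trans k348 k325
                        have k356 : e19 ≤ e12 := le_trans k348 k326
                        have k373 : ¬ e13 ≤ e19 := N2 k327 k348
                        have k374 : e19 ≤ e6 := G3 g6 k347 k355
                        have k375 : e19 ≤ e13 := G3 g13 k347 k356
                        have k376 : e19 ≤ e11 := le_trans k374 k132
                        have k378 : e19 ≤ e17 := le_trans k375 k290
                        obtain ⟨e20, q20⟩ : ∃ y, f e19 = y := ⟨_, rfl⟩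
                        have k381 : ¬ e20 ≤ e19 := FB hG q20
                        have k384 : e20 ≤ e7 := MO hf q20 q7 k374
                        have k385 : e20 ≤ e12 := MO hf q20 q12 k376
                        have k386 : e20 ≤ e14 := MO hf q20 q14 k375
                        have k387 : e20 ≤ e18 := MO hf q20 q18 k378
                        have k388 : ¬ e20 ≤ e0 := G5 g19 k387 k381
                        have k389 : e20 ≤ e4 := le_trans k386 k252
                        have k391 : e20 ≤ e11 := le_trans k386 k286
                        have k394 : e20 ≤ e17 := le_trans k386 k291
                        have k414 : ¬ e20 ≤ e13 := N2 k388 k174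
                        by_cases k415 : ∃ z, IsGLB ({e0, e20} : Set P) z
                        · obtain ⟨e21, g21⟩ := k415
                          have c21 : Core e0 e21 := CM g21
                          have k418 : e21 ≤ e0 := G1 g21
                          have k419 : e21 ≤ e20 := G2 g21
                          have k426 : e21 ≤ e7 := le_trans k419 k384
                          have k429 : e21 ≤ e14 := le_trans k419 k386
                          have k446 : ¬ e8 ≤ e21 := N2 k221 k429
                          have k456 : e21 ≤ e8 := G3 g8 k418 k426
                          exact HL _ _ _ _ _ _ c21 c8 c13 c6 c0 c4 (LT k456 k446) (LT k176 k196) (LT k194 k191) (LT k42 k48) (LT k21 k28)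
                        · obtain ⟨e21, l21⟩ := ZE h2 k385 k415 g13
                          have c21 : Core e0 e21 := CZ g13 k415 l21
                          have k418 : e13 ≤ e21 := L1 l21
                          have k419 : e20 ≤ e21 := L2 l21
                          have k427 : e21 ≤ e17 := L3 l21 k290 k394
                          have k451 : ¬ e21 ≤ e13 := N1 k414 k419
                          have k453 : e17 ≤ e21 := Classical.byContradiction fun hn => HL _ _ _ _ _ _ c8 c13 c21 c17 c11 c4 (LT k176 k196) (LT k418 k451) (LT k427 hn) (LT k295 k307) (LT k134 k140)
                          have k454 : e9 ≤ e21 := le_trans k300 k453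
                          obtain ⟨e22, l22⟩ := ZE h2 k387 k415 g19
                          have c22 : Core e0 e22 := CZ g19 k415 l22
                          have k458 : e19 ≤ e22 := L1 l22
                          have k459 : e20 ≤ e22 := L2 l22
                          have k460 : e22 ≤ e4 := L3 l22 k352 k389
                          have k463 : e22 ≤ e11 := L3 l22 k376 k391
                          have k467 : e22 ≤ e17 := L3 l22 k378 k394
                          have k491 : ¬ e22 ≤ e19 := N1 k381 k459
                          obtain ⟨e23, q23⟩ : ∃ y, f e22 = y := ⟨_, rfl⟩
                          have k494 : e20 ≤ e23 := MO hf q20 q23 k458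
                          have k495 : ¬ e22 ≤ e23 := FA hF q23
                          have k496 : ¬ e23 ≤ e22 := FB hG q23
                          have k497 : e23 ≤ e5 := MO hf q23 q5 k460
                          have k498 : e23 ≤ e12 := MO hf q23 q12 k463
                          have k499 : e23 ≤ e18 := MO hf q23 q18 k467
                          have k500 : ¬ e19 ≤ e23 := L5 l22 k494 k495
                          by_cases k521 : ∃ z, IsGLB ({e0, e23} : Set P) z
                          · obtain ⟨e24, g24⟩ := k521
                            have c24 : Core e0 e24 := CM g24
                            have k524 : e24 ≤ e0 := G1 g24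
                            have k525 : e24 ≤ e23 := G2 g24
                            have k533 : e24 ≤ e18 := le_trans k525 k499
                            have k552 : ¬ e19 ≤ e24 := N2 k500 k525
                            have k558 : e24 ≤ e19 := G3 g19 k524 k533
                            exact HL _ _ _ _ _ _ c24 c19 c13 c6 c0 c4 (LT k558 k552) (LT k375 k373) (LT k194 k191) (LT k42 k48) (LT k21 k28)
                          · obtain ⟨e24, l24⟩ := (h1 e23).resolve_right k521
                            have c24 : Core e0 e24 := CJ k521 l24
                            have k524 : e0 ≤ e24 := L1 l24
                            have k525 : e23 ≤ e24 := L2 l24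
                            have k530 : e13 ≤ e24 := le_trans k174 k524
                            have k532 : e20 ≤ e24 := le_trans k494 k525
                            have k554 : e21 ≤ e24 := L3 l21 k530 k532
                            have k556 : e9 ≤ e24 := le_trans k454 k554
                            have k559 : e10 ≤ e24 := L3 l10 k524 k556
                            have k564 : e4 ≤ e24 := le_trans k128 k559
                            have k565 : e24 ≤ e4 := Classical.byContradiction fun hn => HL _ _ _ _ _ _ c8 c13 c17 c11 c4 c24 (LT k176 k196) (LT k290 k316) (LT k295 k307) (LT k134 k140) (LT k564 hn)
                            have k568 : e23 ≤ e4 := le_trans k525 k565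
                            obtain ⟨e25, l25⟩ := ZE h2 k497 k521 g6
                            have c25 : Core e0 e25 := CZ g6 k521 l25
                            have k574 : e6 ≤ e25 := L1 l25
                            have k575 : e23 ≤ e25 := L2 l25
                            have k576 : e25 ≤ e4 := L3 l25 k47 k568
                            have k577 : e25 ≤ e5 := L3 l25 k43 k497
                            have k583 : e13 ≤ e25 := le_trans k194 k574
                            have k585 : e20 ≤ e25 := le_trans k494 k575
                            have k586 : ¬ e0 ≤ e25 := N2 k34 k577
                            have k587 : ¬ e4 ≤ e25 := N1 k586 k21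
                            have k602 : ¬ e25 ≤ e17 := N1 k306 k574
                            have k611 : e21 ≤ e25 := L3 l21 k583 k585
                            have k613 : e9 ≤ e25 := le_trans k454 k611
                            have k615 : e17 ≤ e25 := le_trans k453 k611
                            have k616 : e11 ≤ e25 := L3 l11 k574 k613
                            have k618 : e25 ≤ e11 := Classical.byContradiction fun hn => HL _ _ _ _ _ _ c8 c13 c17 c11 c25 c4 (LT k176 k196) (LT k290 k316) (LT k295 k307) (LT k616 hn) (LT k576 k587)
                            have k620 : e23 ≤ e11 := le_trans k575 k618
                            obtain ⟨e26, l26⟩ := ZE h2 k498 k521 g13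
                            have c26 : Core e0 e26 := CZ g13 k521 l26
                            have k625 : e13 ≤ e26 := L1 l26
                            have k626 : e23 ≤ e26 := L2 l26
                            have k630 : e26 ≤ e11 := L3 l26 k195 k620
                            have k631 : e26 ≤ e12 := L3 l26 k175 k498
                            have k638 : e20 ≤ e26 := le_trans k494 k626
                            have k645 : ¬ e6 ≤ e26 := N2 k159 k631
                            have k646 : ¬ e11 ≤ e26 := N1 k645 k132
                            have k665 : e21 ≤ e26 := L3 l21 k625 k638
                            have k669 : e17 ≤ e26 := le_trans k453 k665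
                            have k670 : e26 ≤ e17 := Classical.byContradiction fun hn => HL _ _ _ _ _ _ c8 c13 c17 c26 c11 c4 (LT k176 k196) (LT k290 k316) (LT k669 hn) (LT k630 k646) (LT k134 k140)
                            have k672 : e23 ≤ e17 := le_trans k626 k670
                            obtain ⟨e27, l27⟩ := ZE h2 k499 k521 g19
                            have c27 : Core e0 e27 := CZ g19 k521 l27
                            have k677 : e19 ≤ e27 := L1 l27
                            have k678 : e23 ≤ e27 := L2 l27
                            have k686 : e27 ≤ e17 := L3 l27 k378 k672
                            have k687 : e27 ≤ e18 := L3 l27 k348 k499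
                            have k692 : e20 ≤ e27 := le_trans k494 k678
                            have k704 : ¬ e13 ≤ e27 := N2 k327 k687
                            have k705 : ¬ e17 ≤ e27 := N1 k704 k290
                            have k719 : ¬ e27 ≤ e22 := N1 k496 k678
                            have k721 : e22 ≤ e27 := L3 l22 k677 k692
                            exact HL _ _ _ _ _ _ c19 c22 c27 c17 c25 c4 (LT k458 k491) (LT k721 k719) (LT k686 k705) (LT k615 k602) (LT k576 k587)
                      · obtain ⟨e19, l19⟩ := (h1 e18).resolve_right k344
                        have c19 : Core e0 e19 := CJ k344 l19
                        have k347 : e0 ≤ e19 := L1 l19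
                        have k348 : e18 ≤ e19 := L2 l19
                        have k354 : e9 ≤ e19 := le_trans k321 k348
                        have k372 : e10 ≤ e19 := L3 l10 k347 k354
                        have k378 : e4 ≤ e19 := le_trans k128 k372
                        have k379 : e19 ≤ e4 := Classical.byContradiction fun hn => HL _ _ _ _ _ _ c8 c13 c17 c11 c4 c19 (LT k176 k196) (LT k290 k316) (LT k295 k307) (LT k134 k140) (LT k378 hn)
                        have k382 : e18 ≤ e4 := le_trans k348 k379
                        obtain ⟨e20, l20⟩ := ZE h2 k325 k344 g6
                        have c20 : Core e0 e20 := CZ g6 k344 l20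
                        have k388 : e6 ≤ e20 := L1 l20
                        have k389 : e18 ≤ e20 := L2 l20
                        have k390 : e20 ≤ e4 := L3 l20 k47 k382
                        have k391 : e20 ≤ e5 := L3 l20 k43 k325
                        have k398 : e9 ≤ e20 := le_trans k321 k389
                        have k400 : ¬ e0 ≤ e20 := N2 k34 k391
                        have k401 : ¬ e4 ≤ e20 := N1 k400 k21
                        have k420 : e11 ≤ e20 := L3 l11 k388 k398
                        have k423 : e20 ≤ e11 := Classical.byContradiction fun hn => HL _ _ _ _ _ _ c8 c13 c17 c11 c20 c4 (LT k176 k196) (LT k290 k316) (LT k295 k307) (LT k420 hn) (LT k390 k401)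
                        have k425 : e18 ≤ e11 := le_trans k389 k423
                        obtain ⟨e21, l21⟩ := ZE h2 k326 k344 g13
                        have c21 : Core e0 e21 := CZ g13 k344 l21
                        have k430 : e13 ≤ e21 := L1 l21
                        have k431 : e18 ≤ e21 := L2 l21
                        have k435 : e21 ≤ e11 := L3 l21 k195 k425
                        have k436 : e21 ≤ e12 := L3 l21 k175 k326
                        have k443 : e14 ≤ e21 := le_trans k322 k431
                        have k450 : ¬ e6 ≤ e21 := N2 k159 k436
                        have k451 : ¬ e11 ≤ e21 := N1 k450 k132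
                        have k465 : ¬ e21 ≤ e17 := N1 k324 k431
                        have k467 : e17 ≤ e21 := L3 l17 k430 k443
                        exact HL _ _ _ _ _ _ c8 c13 c17 c21 c11 c4 (LT k176 k196) (LT k290 k316) (LT k467 k465) (LT k435 k451) (LT k134 k140)
                · obtain ⟨e13, l13⟩ := (h1 e12).resolve_right k171
                  have c13 : Core e0 e13 := CJ k171 l13
                  have k174 : e0 ≤ e13 := L1 l13
                  have k175 : e12 ≤ e13 := L2 l13
                  have k180 : e3 ≤ e13 := le_trans k153 k175
                  have k194 : e4 ≤ e13 := L3 l4 k174 k180
                  have k197 : e13 ≤ e4 := Classical.byContradiction fun hn => HL _ _ _ _ _ _ c8 c2 c6 c11 c4 c13 (LT k85 k87) (LT k44 k53) (LT k132 k150) (LT k134 k140) (LT k194 hn)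
                  have k201 : e12 ≤ e4 := le_trans k175 k197
                  obtain ⟨e14, l14⟩ := ZE h2 k158 k171 g6
                  have c14 : Core e0 e14 := CZ g6 k171 l14
                  have k206 : e6 ≤ e14 := L1 l14
                  have k207 : e12 ≤ e14 := L2 l14
                  have k208 : e14 ≤ e4 := L3 l14 k47 k201
                  have k209 : e14 ≤ e5 := L3 l14 k43 k158
                  have k216 : e9 ≤ e14 := le_trans k155 k207
                  have k217 : ¬ e0 ≤ e14 := N2 k34 k209
                  have k218 : ¬ e4 ≤ e14 := N1 k217 k21
                  have k231 : ¬ e14 ≤ e11 := N1 k157 k207
                  have k233 : e11 ≤ e14 := L3 l11 k206 k216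
                  exact HL _ _ _ _ _ _ c8 c2 c6 c11 c14 c4 (LT k85 k87) (LT k44 k53) (LT k132 k150) (LT k233 k231) (LT k208 k218)
          · have k68 : ¬ e2 ≤ e7 := BN3 g2 k67 k60
            obtain ⟨e8, l8⟩ := (h1 e7).resolve_right k67
            have c8 : Core e0 e8 := CJ k67 l8
            have k72 : e0 ≤ e8 := L1 l8
            have k73 : e7 ≤ e8 := L2 l8
            have k76 : e6 ≤ e8 := le_trans k42 k72
            have k77 : e3 ≤ e8 := le_trans k57 k73
            have k85 : e4 ≤ e8 := L3 l4 k72 k77
            by_cases k86 : e8 ≤ e4
            · have k87 : e7 ≤ e4 := le_trans k73 k86
              obtain ⟨e9, l9⟩ := ZE h2 k61 k67 g6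
              have c9 : Core e0 e9 := CZ g6 k67 l9
              have k91 : e6 ≤ e9 := L1 l9
              have k92 : e7 ≤ e9 := L2 l9
              have k93 : e9 ≤ e4 := L3 l9 k47 k87
              have k94 : e9 ≤ e5 := L3 l9 k43 k61
              have k96 : e2 ≤ e9 := le_trans k44 k91
              have k97 : e3 ≤ e9 := le_trans k57 k92
              have k98 : ¬ e0 ≤ e9 := N2 k34 k94
              have k99 : ¬ e4 ≤ e9 := N1 k98 k21
              have k105 : ¬ e9 ≤ e6 := N1 k52 k97
              obtain ⟨e10, q10⟩ : ∃ y, f e9 = y := ⟨_, rfl⟩
              have k110 : e3 ≤ e10 := MO hf q3 q10 k96
              have k111 : e7 ≤ e10 := MO hf q7 q10 k91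
              have k112 : ¬ e9 ≤ e10 := FA hF q10
              have k113 : ¬ e10 ≤ e9 := FB hG q10
              have k114 : e10 ≤ e5 := MO hf q10 q5 k93
              have k115 : ¬ e6 ≤ e10 := L5 l9 k111 k112
              by_cases k125 : ∃ z, IsGLB ({e0, e10} : Set P) z
              · obtain ⟨e11, g11⟩ := k125
                have c11 : Core e0 e11 := CM g11
                have k128 : e11 ≤ e0 := G1 g11
                have k129 : e11 ≤ e10 := G2 g11
                have k131 : ¬ e11 ≤ e7 := BN3 g11 k67 k111
                have k133 : e11 ≤ e4 := le_trans k128 k21
                have k135 : e11 ≤ e5 := le_trans k129 k114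
                have k145 : ¬ e6 ≤ e11 := N2 k115 k129
                have k146 : e11 ≤ e6 := G3 g6 k128 k135
                have k147 : e11 ≤ e9 := le_trans k146 k91
                obtain ⟨e12, q12⟩ : ∃ y, f e11 = y := ⟨_, rfl⟩
                have k150 : ¬ e12 ≤ e11 := FB hG q12
                have k151 : e12 ≤ e1 := MO hf q12 q1 k128
                have k152 : e12 ≤ e5 := MO hf q12 q5 k133
                have k153 : e12 ≤ e7 := MO hf q12 q7 k146
                have k154 : e12 ≤ e10 := MO hf q12 q10 k147
                have k155 : ¬ e12 ≤ e0 := G5 g11 k154 k150
                have k156 : e12 ≤ e4 := le_trans k153 k87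
                have k158 : e12 ≤ e9 := le_trans k153 k92
                have k169 : ¬ e12 ≤ e6 := N2 k155 k42
                by_cases k170 : ∃ z, IsGLB ({e0, e12} : Set P) z
                · obtain ⟨e13, g13⟩ := k170
                  have c13 : Core e0 e13 := CM g13
                  have k173 : e13 ≤ e0 := G1 g13
                  have k174 : e13 ≤ e12 := G2 g13
                  have k176 : e13 ≤ e4 := le_trans k173 k21
                  have k178 : e13 ≤ e1 := le_trans k174 k151
                  have k179 : e13 ≤ e5 := le_trans k174 k152
                  have k180 : e13 ≤ e7 := le_trans k174 k153
                  have k181 : e13 ≤ e9 := le_trans k174 k158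
                  have k182 : e13 ≤ e10 := le_trans k174 k154
                  have k188 : ¬ e2 ≤ e13 := N2 k68 k180
                  have k194 : ¬ e11 ≤ e13 := N2 k131 k180
                  have k196 : e13 ≤ e2 := G3 g2 k173 k178
                  have k197 : e13 ≤ e6 := G3 g6 k173 k179
                  have k198 : e13 ≤ e11 := G3 g11 k173 k182
                  obtain ⟨e14, q14⟩ : ∃ y, f e13 = y := ⟨_, rfl⟩
                  have k200 : ¬ e13 ≤ e14 := FA hF q14
                  have k201 : ¬ e14 ≤ e13 := FB hG q14
                  have k203 : e14 ≤ e3 := MO hf q14 q3 k196
                  have k204 : e14 ≤ e5 := MO hf q14 q5 k176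
                  have k205 : e14 ≤ e7 := MO hf q14 q7 k197
                  have k206 : e14 ≤ e10 := MO hf q14 q10 k181
                  have k207 : e14 ≤ e12 := MO hf q14 q12 k198
                  have k208 : ¬ e14 ≤ e0 := G5 g13 k207 k201
                  have k209 : e14 ≤ e4 := le_trans k203 k22
                  have k211 : e14 ≤ e9 := le_trans k203 k97
                  have k225 : ¬ e14 ≤ e6 := N2 k208 k42
                  have k226 : ¬ e14 ≤ e11 := N2 k208 k128
                  by_cases k227 : ∃ z, IsGLB ({e0, e14} : Set P) z
                  · obtain ⟨e15, g15⟩ := k227
                    have c15 : Core e0 e15 := CM g15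
                    have k230 : e15 ≤ e0 := G1 g15
                    have k231 : e15 ≤ e14 := G2 g15
                    have k241 : e15 ≤ e12 := le_trans k231 k207
                    have k255 : ¬ e13 ≤ e15 := N2 k200 k231
                    have k260 : e15 ≤ e13 := G3 g13 k230 k241
                    exact HL _ _ _ _ _ _ c15 c13 c2 c6 c0 c4 (LT k260 k255) (LT k196 k188) (LT k44 k53) (LT k42 k48) (LT k21 k28)
                  · obtain ⟨e15, l15⟩ := ZE h2 k204 k227 g6
                    have c15 : Core e0 e15 := CZ g6 k227 l15
                    have k230 : e6 ≤ e15 := L1 l15
                    have k231 : e14 ≤ e15 := L2 l15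
                    have k235 : e15 ≤ e9 := L3 l15 k91 k211
                    have k254 : ¬ e15 ≤ e6 := N1 k225 k231
                    have k256 : e9 ≤ e15 := Classical.byContradiction fun hn => HL _ _ _ _ _ _ c13 c2 c6 c15 c9 c4 (LT k196 k188) (LT k44 k53) (LT k230 k254) (LT k235 hn) (LT k93 k99)
                    have k257 : e3 ≤ e15 := le_trans k97 k256
                    obtain ⟨e16, l16⟩ := ZE h2 k206 k227 g11
                    have c16 : Core e0 e16 := CZ g11 k227 l16
                    have k262 : e11 ≤ e16 := L1 l16
                    have k263 : e14 ≤ e16 := L2 l16
                    have k264 : e16 ≤ e4 := L3 l16 k133 k209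
                    have k267 : e16 ≤ e9 := L3 l16 k147 k211
                    have k268 : e16 ≤ e10 := L3 l16 k129 k206
                    have k270 : e13 ≤ e16 := le_trans k198 k262
                    have k275 : ¬ e6 ≤ e16 := N2 k115 k268
                    have k287 : ¬ e16 ≤ e11 := N1 k226 k263
                    obtain ⟨e17, q17⟩ : ∃ y, f e16 = y := ⟨_, rfl⟩
                    have k290 : e12 ≤ e17 := MO hf q12 q17 k262
                    have k291 : e14 ≤ e17 := MO hf q14 q17 k270
                    have k292 : ¬ e16 ≤ e17 := FA hF q17
                    have k293 : ¬ e17 ≤ e16 := FB hG q17
                    have k294 : e17 ≤ e5 := MO hf q17 q5 k264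
                    have k295 : e17 ≤ e10 := MO hf q17 q10 k267
                    have k296 : ¬ e11 ≤ e17 := L5 l16 k291 k292
                    have k297 : e13 ≤ e17 := le_trans k174 k290
                    by_cases k312 : ∃ z, IsGLB ({e0, e17} : Set P) z
                    · obtain ⟨e18, g18⟩ := k312
                      have c18 : Core e0 e18 := CM g18
                      have k315 : e18 ≤ e0 := G1 g18
                      have k316 : e18 ≤ e17 := G2 g18
                      have k317 : e13 ≤ e18 := G3 g18 k173 k297
                      have k320 : e18 ≤ e4 := le_trans k315 k21
                      have k322 : e18 ≤ e5 := le_trans k316 k294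
                      have k323 : e18 ≤ e10 := le_trans k316 k295
                      have k335 : ¬ e11 ≤ e18 := N2 k296 k316
                      have k340 : e18 ≤ e6 := G3 g6 k315 k322
                      have k341 : e18 ≤ e11 := G3 g11 k315 k323
                      have k342 : e18 ≤ e9 := le_trans k340 k91
                      have k344 : e18 ≤ e16 := le_trans k341 k262
                      have k345 : e18 ≤ e13 := Classical.byContradiction fun hn => HL _ _ _ _ _ _ c13 c18 c11 c6 c0 c4 (LT k317 hn) (LT k341 k335) (LT k146 k145) (LT k42 k48) (LT k21 k28)
                      have k347 : e18 ≤ e2 := le_trans k345 k196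
                      have k348 : e18 ≤ e7 := le_trans k345 k180
                      have k350 : ¬ e2 ≤ e18 := N2 k68 k348
                      obtain ⟨e19, l19⟩ := ZE h2 k291 k227 g18
                      have c19 : Core e0 e19 := CZ g18 k227 l19
                      have k355 : e18 ≤ e19 := L1 l19
                      have k356 : e14 ≤ e19 := L2 l19
                      have k358 : e19 ≤ e4 := L3 l19 k320 k209
                      have k360 : e19 ≤ e7 := L3 l19 k348 k205
                      have k362 : e19 ≤ e9 := L3 l19 k342 k211
                      have k366 : e19 ≤ e16 := L3 l19 k344 k263
                      have k368 : e13 ≤ e19 := le_trans k317 k355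
                      have k379 : ¬ e11 ≤ e19 := N2 k131 k360
                      have k380 : ¬ e16 ≤ e19 := N1 k379 k262
                      have k386 : ¬ e19 ≤ e13 := N1 k201 k356
                      obtain ⟨e20, q20⟩ : ∃ y, f e19 = y := ⟨_, rfl⟩
                      have k391 : e14 ≤ e20 := MO hf q14 q20 k368
                      have k392 : ¬ e19 ≤ e20 := FA hF q20
                      have k393 : ¬ e20 ≤ e19 := FB hG q20
                      have k394 : e20 ≤ e5 := MO hf q20 q5 k358
                      have k395 : e20 ≤ e10 := MO hf q20 q10 k362
                      have k396 : e20 ≤ e17 := MO hf q20 q17 k366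
                      have k397 : ¬ e18 ≤ e20 := L5 l19 k391 k392
                      have k418 : ¬ e13 ≤ e20 := N1 k397 k345
                      by_cases k421 : ∃ z, IsGLB ({e0, e20} : Set P) z
                      · obtain ⟨e21, g21⟩ := k421
                        have c21 : Core e0 e21 := CM g21
                        have k424 : e21 ≤ e0 := G1 g21
                        have k425 : e21 ≤ e20 := G2 g21
                        have k432 : e21 ≤ e17 := le_trans k425 k396
                        have k449 : ¬ e13 ≤ e21 := N2 k418 k425
                        have k450 : ¬ e18 ≤ e21 := N1 k449 k317
                        have k456 : e21 ≤ e18 := G3 g18 k424 k432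
                        exact HL _ _ _ _ _ _ c21 c18 c2 c6 c0 c4 (LT k456 k450) (LT k347 k350) (LT k44 k53) (LT k42 k48) (LT k21 k28)
                      · obtain ⟨e21, l21⟩ := (h1 e20).resolve_right k421
                        have c21 : Core e0 e21 := CJ k421 l21
                        have k424 : e0 ≤ e21 := L1 l21
                        have k425 : e20 ≤ e21 := L2 l21
                        have k428 : e6 ≤ e21 := le_trans k42 k424
                        have k432 : e14 ≤ e21 := le_trans k391 k425
                        have k452 : e15 ≤ e21 := L3 l15 k428 k432
                        have k455 : e3 ≤ e21 := le_trans k257 k452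
                        have k459 : e4 ≤ e21 := L3 l4 k424 k455
                        have k461 : e21 ≤ e4 := Classical.byContradiction fun hn => HL _ _ _ _ _ _ c13 c2 c6 c9 c4 c21 (LT k196 k188) (LT k44 k53) (LT k91 k105) (LT k93 k99) (LT k459 hn)
                        have k463 : e20 ≤ e4 := le_trans k425 k461
                        obtain ⟨e22, l22⟩ := ZE h2 k394 k421 g6
                        have c22 : Core e0 e22 := CZ g6 k421 l22
                        have k468 : e6 ≤ e22 := L1 l22
                        have k469 : e20 ≤ e22 := L2 l22
                        have k470 : e22 ≤ e4 := L3 l22 k47 k463
                        have k471 : e22 ≤ e5 := L3 l22 k43 k394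
                        have k475 : e11 ≤ e22 := le_trans k146 k468
                        have k478 : e14 ≤ e22 := le_trans k391 k469
                        have k479 : ¬ e0 ≤ e22 := N2 k34 k471
                        have k480 : ¬ e4 ≤ e22 := N1 k479 k21
                        have k497 : ¬ e22 ≤ e16 := N1 k275 k468
                        have k501 : e15 ≤ e22 := L3 l15 k468 k478
                        have k502 : e16 ≤ e22 := L3 l16 k475 k478
                        have k506 : e9 ≤ e22 := le_trans k256 k501
                        have k508 : e22 ≤ e9 := Classical.byContradiction fun hn => HL _ _ _ _ _ _ c13 c2 c6 c9 c22 c4 (LT k196 k188) (LT k44 k53) (LT k91 k105) (LT k506 hn) (LT k470 k480)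
                        have k510 : e20 ≤ e9 := le_trans k469 k508
                        obtain ⟨e23, l23⟩ := ZE h2 k395 k421 g11
                        have c23 : Core e0 e23 := CZ g11 k421 l23
                        have k515 : e11 ≤ e23 := L1 l23
                        have k516 : e20 ≤ e23 := L2 l23
                        have k520 : e23 ≤ e9 := L3 l23 k147 k510
                        have k521 : e23 ≤ e10 := L3 l23 k129 k395
                        have k527 : e14 ≤ e23 := le_trans k391 k516
                        have k533 : ¬ e6 ≤ e23 := N2 k115 k521
                        have k534 : ¬ e9 ≤ e23 := N1 k533 k91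
                        have k552 : e16 ≤ e23 := L3 l16 k515 k527
                        have k554 : e23 ≤ e16 := Classical.byContradiction fun hn => HL _ _ _ _ _ _ c13 c19 c16 c23 c9 c4 (LT k368 k386) (LT k366 k380) (LT k552 hn) (LT k520 k534) (LT k93 k99)
                        have k555 : e20 ≤ e16 := le_trans k516 k554
                        obtain ⟨e24, l24⟩ := ZE h2 k396 k421 g18
                        have c24 : Core e0 e24 := CZ g18 k421 l24
                        have k559 : e18 ≤ e24 := L1 l24
                        have k560 : e20 ≤ e24 := L2 l24
                        have k567 : e24 ≤ e16 := L3 l24 k344 k555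
                        have k568 : e24 ≤ e17 := L3 l24 k316 k396
                        have k573 : e14 ≤ e24 := le_trans k391 k560
                        have k586 : ¬ e11 ≤ e24 := N2 k296 k568
                        have k587 : ¬ e16 ≤ e24 := N1 k586 k262
                        have k598 : ¬ e24 ≤ e19 := N1 k393 k560
                        have k600 : e19 ≤ e24 := L3 l19 k559 k573
                        exact HL _ _ _ _ _ _ c13 c19 c24 c16 c22 c4 (LT k368 k386) (LT k600 k598) (LT k567 k587) (LT k502 k497) (LT k470 k480)
                    · obtain ⟨e18, l18⟩ := (h1 e17).resolve_right k312
                      have c18 : Core e0 e18 := CJ k312 l18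
                      have k315 : e0 ≤ e18 := L1 l18
                      have k316 : e17 ≤ e18 := L2 l18
                      have k319 : e6 ≤ e18 := le_trans k42 k315
                      have k323 : e14 ≤ e18 := le_trans k291 k316
                      have k340 : e15 ≤ e18 := L3 l15 k319 k323
                      have k342 : e3 ≤ e18 := le_trans k257 k340
                      have k345 : e4 ≤ e18 := L3 l4 k315 k342
                      have k347 : e18 ≤ e4 := Classical.byContradiction fun hn => HL _ _ _ _ _ _ c13 c2 c6 c9 c4 c18 (LT k196 k188) (LT k44 k53) (LT k91 k105) (LT k93 k99) (LT k345 hn)
                      have k349 : e17 ≤ e4 := le_trans k316 k347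
                      obtain ⟨e19, l19⟩ := ZE h2 k294 k312 g6
                      have c19 : Core e0 e19 := CZ g6 k312 l19
                      have k354 : e6 ≤ e19 := L1 l19
                      have k355 : e17 ≤ e19 := L2 l19
                      have k356 : e19 ≤ e4 := L3 l19 k47 k349
                      have k357 : e19 ≤ e5 := L3 l19 k43 k294
                      have k364 : e14 ≤ e19 := le_trans k291 k355
                      have k365 : ¬ e0 ≤ e19 := N2 k34 k357
                      have k366 : ¬ e4 ≤ e19 := N1 k365 k21
                      have k384 : e15 ≤ e19 := L3 l15 k354 k364
                      have k388 : e9 ≤ e19 := le_trans k256 k384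
                      have k389 : e19 ≤ e9 := Classical.byContradiction fun hn => HL _ _ _ _ _ _ c13 c2 c6 c9 c19 c4 (LT k196 k188) (LT k44 k53) (LT k91 k105) (LT k388 hn) (LT k356 k366)
                      have k391 : e17 ≤ e9 := le_trans k355 k389
                      obtain ⟨e20, l20⟩ := ZE h2 k295 k312 g11
                      have c20 : Core e0 e20 := CZ g11 k312 l20
                      have k396 : e11 ≤ e20 := L1 l20
                      have k397 : e17 ≤ e20 := L2 l20
                      have k401 : e20 ≤ e9 := L3 l20 k147 k391
                      have k402 : e20 ≤ e10 := L3 l20 k129 k295
                      have k408 : e14 ≤ e20 := le_trans k291 k397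
                      have k414 : ¬ e6 ≤ e20 := N2 k115 k402
                      have k415 : ¬ e9 ≤ e20 := N1 k414 k91
                      have k429 : ¬ e20 ≤ e16 := N1 k293 k397
                      have k431 : e16 ≤ e20 := L3 l16 k396 k408
                      exact HL _ _ _ _ _ _ c13 c11 c16 c20 c9 c4 (LT k198 k194) (LT k262 k287) (LT k431 k429) (LT k401 k415) (LT k93 k99)
                · obtain ⟨e13, l13⟩ := ZE h2 k152 k170 g6
                  have c13 : Core e0 e13 := CZ g6 k170 l13
                  have k173 : e6 ≤ e13 := L1 l13
                  have k174 : e12 ≤ e13 := L2 l13
                  have k175 : e13 ≤ e4 := L3 l13 k47 k156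
                  have k176 : e13 ≤ e5 := L3 l13 k43 k152
                  have k178 : e13 ≤ e9 := L3 l13 k91 k158
                  have k179 : e2 ≤ e13 := le_trans k44 k173
                  have k180 : e11 ≤ e13 := le_trans k146 k173
                  have k181 : ¬ e0 ≤ e13 := N2 k34 k176
                  have k194 : ¬ e13 ≤ e6 := N1 k169 k174
                  by_cases k196 : e9 ≤ e13
                  · have k197 : e3 ≤ e13 := le_trans k97 k196
                    obtain ⟨e14, l14⟩ := ZE h2 k154 k170 g11
                    have c14 : Core e0 e14 := CZ g11 k170 l14
                    have k201 : e11 ≤ e14 := L1 l14
                    have k202 : e12 ≤ e14 := L2 l14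
                    have k203 : e14 ≤ e4 := L3 l14 k133 k156
                    have k206 : e14 ≤ e9 := L3 l14 k147 k158
                    have k207 : e14 ≤ e10 := L3 l14 k129 k154
                    have k213 : ¬ e6 ≤ e14 := N2 k115 k207
                    have k214 : ¬ e9 ≤ e14 := N1 k213 k91
                    have k223 : ¬ e14 ≤ e11 := N1 k150 k202
                    obtain ⟨e15, q15⟩ : ∃ y, f e14 = y := ⟨_, rfl⟩
                    have k226 : e12 ≤ e15 := MO hf q12 q15 k201
                    have k227 : ¬ e14 ≤ e15 := FA hF q15
                    have k228 : ¬ e15 ≤ e14 := FB hG q15
                    have k229 : e15 ≤ e5 := MO hf q15 q5 k203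
                    have k230 : e15 ≤ e10 := MO hf q15 q10 k206
                    have k231 : ¬ e11 ≤ e15 := L5 l14 k226 k227
                    by_cases k245 : ∃ z, IsGLB ({e0, e15} : Set P) z
                    · obtain ⟨e16, g16⟩ := k245
                      have c16 : Core e0 e16 := CM g16
                      have k248 : e16 ≤ e0 := G1 g16
                      have k249 : e16 ≤ e15 := G2 g16
                      have k250 : ¬ e16 ≤ e12 := BN3 g16 k170 k226
                      have k252 : e16 ≤ e4 := le_trans k248 k21
                      have k254 : e16 ≤ e5 := le_trans k249 k229
                      have k255 : e16 ≤ e10 := le_trans k249 k230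
                      have k267 : ¬ e11 ≤ e16 := N2 k231 k249
                      have k271 : e16 ≤ e6 := G3 g6 k248 k254
                      have k272 : e16 ≤ e11 := G3 g11 k248 k255
                      have k273 : e16 ≤ e9 := le_trans k271 k91
                      have k275 : e16 ≤ e14 := le_trans k272 k201
                      obtain ⟨e17, q17⟩ : ∃ y, f e16 = y := ⟨_, rfl⟩
                      have k278 : ¬ e17 ≤ e16 := FB hG q17
                      have k281 : e17 ≤ e7 := MO hf q17 q7 k271
                      have k282 : e17 ≤ e10 := MO hf q17 q10 k273
                      have k283 : e17 ≤ e12 := MO hf q17 q12 k272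
                      have k284 : e17 ≤ e15 := MO hf q17 q15 k275
                      have k285 : ¬ e17 ≤ e0 := G5 g16 k284 k278
                      have k286 : e17 ≤ e4 := le_trans k281 k87
                      have k288 : e17 ≤ e9 := le_trans k281 k92
                      have k290 : e17 ≤ e14 := le_trans k283 k202
                      have k306 : ¬ e17 ≤ e11 := N2 k285 k128
                      by_cases k307 : ∃ z, IsGLB ({e0, e17} : Set P) z
                      · obtain ⟨e18, g18⟩ := k307
                        have c18 : Core e0 e18 := CM g18
                        have k310 : e18 ≤ e0 := G1 g18
                        have k311 : e18 ≤ e17 := G2 g18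
                        have k320 : e18 ≤ e12 := le_trans k311 k283
                        have k323 : e18 ≤ e15 := le_trans k311 k284
                        have k340 : ¬ e16 ≤ e18 := N2 k250 k320
                        have k345 : e18 ≤ e16 := G3 g16 k310 k323
                        exact HL _ _ _ _ _ _ c18 c16 c11 c6 c0 c4 (LT k345 k340) (LT k272 k267) (LT k146 k145) (LT k42 k48) (LT k21 k28)
                      · obtain ⟨e18, l18⟩ := ZE h2 k282 k307 g11
                        have c18 : Core e0 e18 := CZ g11 k307 l18
                        have k310 : e11 ≤ e18 := L1 l18
                        have k311 : e17 ≤ e18 := L2 l18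
                        have k318 : e18 ≤ e14 := L3 l18 k201 k290
                        have k338 : ¬ e18 ≤ e11 := N1 k306 k311
                        have k340 : e14 ≤ e18 := Classical.byContradiction fun hn => HL _ _ _ _ _ _ c16 c11 c18 c14 c9 c4 (LT k272 k267) (LT k310 k338) (LT k318 hn) (LT k206 k214) (LT k93 k99)
                        have k341 : e12 ≤ e18 := le_trans k202 k340
                        obtain ⟨e19, l19⟩ := ZE h2 k284 k307 g16
                        have c19 : Core e0 e19 := CZ g16 k307 l19
                        have k344 : e16 ≤ e19 := L1 l19
                        have k345 : e17 ≤ e19 := L2 l19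
                        have k346 : e19 ≤ e4 := L3 l19 k252 k286
                        have k349 : e19 ≤ e9 := L3 l19 k273 k288
                        have k352 : e19 ≤ e14 := L3 l19 k275 k290
                        have k353 : e19 ≤ e15 := L3 l19 k249 k284
                        have k363 : ¬ e11 ≤ e19 := N2 k231 k353
                        have k364 : ¬ e14 ≤ e19 := N1 k363 k201
                        have k373 : ¬ e19 ≤ e16 := N1 k278 k345
                        obtain ⟨e20, q20⟩ : ∃ y, f e19 = y := ⟨_, rfl⟩
                        have k376 : e17 ≤ e20 := MO hf q17 q20 k344
                        have k377 : ¬ e19 ≤ e20 := FA hF q20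
                        have k378 : ¬ e20 ≤ e19 := FB hG q20
                        have k379 : e20 ≤ e5 := MO hf q20 q5 k346
                        have k380 : e20 ≤ e10 := MO hf q20 q10 k349
                        have k381 : e20 ≤ e15 := MO hf q20 q15 k352
                        have k382 : ¬ e16 ≤ e20 := L5 l19 k376 k377
                        by_cases k401 : ∃ z, IsGLB ({e0, e20} : Set P) z
                        · obtain ⟨e21, g21⟩ := k401
                          have c21 : Core e0 e21 := CM g21
                          have k404 : e21 ≤ e0 := G1 g21
                          have k405 : e21 ≤ e20 := G2 g21
                          have k412 : e21 ≤ e15 := le_trans k405 k381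
                          have k429 : ¬ e16 ≤ e21 := N2 k382 k405
                          have k435 : e21 ≤ e16 := G3 g16 k404 k412
                          exact HL _ _ _ _ _ _ c21 c16 c11 c6 c0 c4 (LT k435 k429) (LT k272 k267) (LT k146 k145) (LT k42 k48) (LT k21 k28)
                        · obtain ⟨e21, l21⟩ := (h1 e20).resolve_right k401
                          have c21 : Core e0 e21 := CJ k401 l21
                          have k404 : e0 ≤ e21 := L1 l21
                          have k405 : e20 ≤ e21 := L2 l21
                          have k408 : e6 ≤ e21 := le_trans k42 k404
                          have k409 : e11 ≤ e21 := le_trans k128 k404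
                          have k411 : e17 ≤ e21 := le_trans k376 k405
                          have k431 : e18 ≤ e21 := L3 l18 k409 k411
                          have k433 : e12 ≤ e21 := le_trans k341 k431
                          have k435 : e13 ≤ e21 := L3 l13 k408 k433
                          have k436 : e3 ≤ e21 := le_trans k197 k435
                          have k439 : e4 ≤ e21 := L3 l4 k404 k436
                          have k441 : e21 ≤ e4 := Classical.byContradiction fun hn => HL _ _ _ _ _ _ c16 c19 c14 c9 c4 c21 (LT k344 k373) (LT k352 k364) (LT k206 k214) (LT k93 k99) (LT k439 hn)
                          have k443 : e20 ≤ e4 := le_trans k405 k441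
                          obtain ⟨e22, l22⟩ := ZE h2 k379 k401 g6
                          have c22 : Core e0 e22 := CZ g6 k401 l22
                          have k448 : e6 ≤ e22 := L1 l22
                          have k449 : e20 ≤ e22 := L2 l22
                          have k450 : e22 ≤ e4 := L3 l22 k47 k443
                          have k451 : e22 ≤ e5 := L3 l22 k43 k379
                          have k455 : e11 ≤ e22 := le_trans k146 k448
                          have k457 : e17 ≤ e22 := le_trans k376 k449
                          have k458 : ¬ e0 ≤ e22 := N2 k34 k451
                          have k459 : ¬ e4 ≤ e22 := N1 k458 k21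
                          have k471 : ¬ e22 ≤ e14 := N1 k213 k448
                          have k480 : e18 ≤ e22 := L3 l18 k455 k457
                          have k482 : e12 ≤ e22 := le_trans k341 k480
                          have k483 : e14 ≤ e22 := le_trans k340 k480
                          have k484 : e13 ≤ e22 := L3 l13 k448 k482
                          have k487 : e9 ≤ e22 := le_trans k196 k484
                          have k488 : e22 ≤ e9 := Classical.byContradiction fun hn => HL _ _ _ _ _ _ c16 c19 c14 c9 c22 c4 (LT k344 k373) (LT k352 k364) (LT k206 k214) (LT k487 hn) (LT k450 k459)
                          have k490 : e20 ≤ e9 := le_trans k449 k488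
                          obtain ⟨e23, l23⟩ := ZE h2 k380 k401 g11
                          have c23 : Core e0 e23 := CZ g11 k401 l23
                          have k495 : e11 ≤ e23 := L1 l23
                          have k496 : e20 ≤ e23 := L2 l23
                          have k500 : e23 ≤ e9 := L3 l23 k147 k490
                          have k501 : e23 ≤ e10 := L3 l23 k129 k380
                          have k506 : e17 ≤ e23 := le_trans k376 k496
                          have k512 : ¬ e6 ≤ e23 := N2 k115 k501
                          have k513 : ¬ e9 ≤ e23 := N1 k512 k91
                          have k530 : e18 ≤ e23 := L3 l18 k495 k506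
                          have k533 : e14 ≤ e23 := le_trans k340 k530
                          have k534 : e23 ≤ e14 := Classical.byContradiction fun hn => HL _ _ _ _ _ _ c16 c19 c14 c23 c9 c4 (LT k344 k373) (LT k352 k364) (LT k533 hn) (LT k500 k513) (LT k93 k99)
                          have k536 : e20 ≤ e14 := le_trans k496 k534
                          obtain ⟨e24, l24⟩ := ZE h2 k381 k401 g16
                          have c24 : Core e0 e24 := CZ g16 k401 l24
                          have k541 : e16 ≤ e24 := L1 l24
                          have k542 : e20 ≤ e24 := L2 l24
                          have k549 : e24 ≤ e14 := L3 l24 k275 k536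
                          have k550 : e24 ≤ e15 := L3 l24 k249 k381
                          have k555 : e17 ≤ e24 := le_trans k376 k542
                          have k566 : ¬ e11 ≤ e24 := N2 k231 k550
                          have k567 : ¬ e14 ≤ e24 := N1 k566 k201
                          have k579 : ¬ e24 ≤ e19 := N1 k378 k542
                          have k581 : e19 ≤ e24 := L3 l19 k541 k555
                          exact HL _ _ _ _ _ _ c16 c19 c24 c14 c22 c4 (LT k344 k373) (LT k581 k579) (LT k549 k567) (LT k483 k471) (LT k450 k459)
                    · obtain ⟨e16, l16⟩ := (h1 e15).resolve_right k245
                      have c16 : Core e0 e16 := CJ k245 l16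
                      have k248 : e0 ≤ e16 := L1 l16
                      have k249 : e15 ≤ e16 := L2 l16
                      have k252 : e6 ≤ e16 := le_trans k42 k248
                      have k253 : e11 ≤ e16 := le_trans k128 k248
                      have k254 : e12 ≤ e16 := le_trans k226 k249
                      have k269 : e13 ≤ e16 := L3 l13 k252 k254
                      have k270 : e14 ≤ e16 := L3 l14 k253 k254
                      have k271 : e3 ≤ e16 := le_trans k197 k269
                      have k274 : e4 ≤ e16 := L3 l4 k248 k271
                      by_cases k276 : e16 ≤ e4
                      · have k278 : e15 ≤ e4 := le_trans k249 k276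
                        obtain ⟨e17, l17⟩ := ZE h2 k229 k245 g6
                        have c17 : Core e0 e17 := CZ g6 k245 l17
                        have k283 : e6 ≤ e17 := L1 l17
                        have k284 : e15 ≤ e17 := L2 l17
                        have k285 : e17 ≤ e4 := L3 l17 k47 k278
                        have k286 : e17 ≤ e5 := L3 l17 k43 k229
                        have k289 : e2 ≤ e17 := le_trans k44 k283
                        have k290 : e11 ≤ e17 := le_trans k146 k283
                        have k291 : e12 ≤ e17 := le_trans k226 k284
                        have k292 : ¬ e0 ≤ e17 := N2 k34 k286
                        have k293 : ¬ e4 ≤ e17 := N1 k292 k21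
                        have k309 : e13 ≤ e17 := L3 l13 k283 k291
                        have k310 : e14 ≤ e17 := L3 l14 k290 k291
                        have k313 : e9 ≤ e17 := le_trans k196 k309
                        by_cases k314 : e17 ≤ e9
                        · have k316 : e15 ≤ e9 := le_trans k284 k314
                          obtain ⟨e18, l18⟩ := ZE h2 k230 k245 g11
                          have c18 : Core e0 e18 := CZ g11 k245 l18
                          have k321 : e11 ≤ e18 := L1 l18
                          have k322 : e15 ≤ e18 := L2 l18
                          have k323 : e18 ≤ e4 := L3 l18 k133 k278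
                          have k326 : e18 ≤ e9 := L3 l18 k147 k316
                          have k327 : e18 ≤ e10 := L3 l18 k129 k230
                          have k331 : e12 ≤ e18 := le_trans k226 k322
                          have k337 : ¬ e6 ≤ e18 := N2 k115 k327
                          have k338 : ¬ e9 ≤ e18 := N1 k337 k91
                          have k350 : ¬ e18 ≤ e14 := N1 k228 k322
                          have k352 : e14 ≤ e18 := L3 l14 k321 k331
                          obtain ⟨e19, q19⟩ : ∃ y, f e18 = y := ⟨_, rfl⟩
                          have k354 : e12 ≤ e19 := MO hf q12 q19 k321
                          have k355 : e15 ≤ e19 := MO hf q15 q19 k352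
                          have k356 : ¬ e18 ≤ e19 := FA hF q19
                          have k357 : ¬ e19 ≤ e18 := FB hG q19
                          have k358 : e19 ≤ e5 := MO hf q19 q5 k323
                          have k359 : e19 ≤ e10 := MO hf q19 q10 k326
                          have k360 : ¬ e11 ≤ e19 := L5 l18 k355 k356
                          by_cases k379 : ∃ z, IsGLB ({e0, e19} : Set P) z
                          · obtain ⟨e20, g20⟩ := k379
                            have c20 : Core e0 e20 := CM g20
                            have k382 : e20 ≤ e0 := G1 g20
                            have k383 : e20 ≤ e19 := G2 g20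
                            have k391 : e20 ≤ e10 := le_trans k383 k359
                            have k405 : ¬ e11 ≤ e20 := N2 k360 k383
                            have k412 : e20 ≤ e11 := G3 g11 k382 k391
                            exact HL _ _ _ _ _ _ c20 c11 c14 c18 c9 c4 (LT k412 k405) (LT k201 k223) (LT k352 k350) (LT k326 k338) (LT k93 k99)
                          · obtain ⟨e20, l20⟩ := (h1 e19).resolve_right k379
                            have c20 : Core e0 e20 := CJ k379 l20
                            have k382 : e0 ≤ e20 := L1 l20
                            have k383 : e19 ≤ e20 := L2 l20
                            have k389 : e15 ≤ e20 := le_trans k355 k383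
                            have k409 : e16 ≤ e20 := L3 l16 k382 k389
                            have k415 : e4 ≤ e20 := le_trans k274 k409
                            have k417 : e20 ≤ e4 := Classical.byContradiction fun hn => HL _ _ _ _ _ _ c11 c14 c18 c9 c4 c20 (LT k201 k223) (LT k352 k350) (LT k326 k338) (LT k93 k99) (LT k415 hn)
                            have k420 : e19 ≤ e4 := le_trans k383 k417
                            obtain ⟨e21, l21⟩ := ZE h2 k358 k379 g6
                            have c21 : Core e0 e21 := CZ g6 k379 l21
                            have k426 : e6 ≤ e21 := L1 l21
                            have k427 : e19 ≤ e21 := L2 l21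
                            have k428 : e21 ≤ e4 := L3 l21 k47 k420
                            have k429 : e21 ≤ e5 := L3 l21 k43 k358
                            have k435 : e12 ≤ e21 := le_trans k354 k427
                            have k437 : ¬ e0 ≤ e21 := N2 k34 k429
                            have k438 : ¬ e4 ≤ e21 := N1 k437 k21
                            have k457 : e13 ≤ e21 := L3 l13 k426 k435
                            have k463 : e9 ≤ e21 := le_trans k196 k457
                            have k464 : e21 ≤ e9 := Classical.byContradiction fun hn => HL _ _ _ _ _ _ c11 c14 c18 c9 c21 c4 (LT k201 k223) (LT k352 k350) (LT k326 k338) (LT k463 hn) (LT k428 k438)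
                            have k467 : e19 ≤ e9 := le_trans k427 k464
                            obtain ⟨e22, l22⟩ := ZE h2 k359 k379 g11
                            have c22 : Core e0 e22 := CZ g11 k379 l22
                            have k473 : e11 ≤ e22 := L1 l22
                            have k474 : e19 ≤ e22 := L2 l22
                            have k478 : e22 ≤ e9 := L3 l22 k147 k467
                            have k479 : e22 ≤ e10 := L3 l22 k129 k359
                            have k486 : e15 ≤ e22 := le_trans k355 k474
                            have k493 : ¬ e6 ≤ e22 := N2 k115 k479
                            have k494 : ¬ e9 ≤ e22 := N1 k493 k91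
                            have k509 : ¬ e22 ≤ e18 := N1 k357 k474
                            have k512 : e18 ≤ e22 := L3 l18 k473 k486
                            exact HL _ _ _ _ _ _ c11 c14 c18 c22 c9 c4 (LT k201 k223) (LT k352 k350) (LT k512 k509) (LT k478 k494) (LT k93 k99)
                        · have k316 : ¬ e15 ≤ e9 := L4 l17 k91 k314
                          obtain ⟨e18, q18⟩ : ∃ y, f e17 = y := ⟨_, rfl⟩
                          have k321 : e3 ≤ e18 := MO hf q3 q18 k289
                          have k323 : e10 ≤ e18 := MO hf q10 q18 k313
                          have k324 : e12 ≤ e18 := MO hf q12 q18 k290
                          have k325 : e15 ≤ e18 := MO hf q15 q18 k310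
                          have k326 : ¬ e17 ≤ e18 := FA hF q18
                          have k327 : ¬ e18 ≤ e17 := FB hG q18
                          have k328 : e18 ≤ e5 := MO hf q18 q5 k285
                          have k329 : ¬ e6 ≤ e18 := L5 l17 k325 k326
                          have k330 : e11 ≤ e18 := le_trans k129 k323
                          by_cases k350 : ∃ z, IsGLB ({e0, e18} : Set P) z
                          · obtain ⟨e19, g19⟩ := k350
                            have c19 : Core e0 e19 := CM g19
                            obtain ⟨e20, l20⟩ := ZE h2 k324 k170 g19
                            have c20 : Core e0 e20 := CZ g19 k170 l20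
                            have k355 : e19 ≤ e0 := G1 g19
                            have k356 : e19 ≤ e18 := G2 g19
                            have k357 : e11 ≤ e19 := G3 g19 k128 k330
                            have k363 : e19 ≤ e20 := L1 l20
                            have k364 : e12 ≤ e20 := L2 l20
                            have k366 : e19 ≤ e4 := le_trans k355 k21
                            have k369 : e19 ≤ e5 := le_trans k356 k328
                            have k390 : ¬ e6 ≤ e19 := N2 k329 k356
                            have k400 : ¬ e12 ≤ e19 := N2 k155 k355
                            have k406 : ¬ e20 ≤ e19 := N1 k400 k364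
                            have k407 : e19 ≤ e6 := G3 g6 k355 k369
                            have k413 : e19 ≤ e9 := le_trans k407 k91
                            have k415 : e19 ≤ e17 := le_trans k407 k283
                            have k416 : e20 ≤ e9 := L3 l20 k413 k158
                            have k421 : ¬ e15 ≤ e20 := N2 k316 k416
                            have k422 : e19 ≤ e11 := Classical.byContradiction fun hn => HL _ _ _ _ _ _ c11 c19 c6 c9 c17 c4 (LT k357 hn) (LT k407 k390) (LT k91 k105) (LT k313 k314) (LT k285 k293)
                            have k423 : e19 ≤ e10 := le_trans k422 k129
                            obtain ⟨e21, l21⟩ := ZE h2 k325 k245 g19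
                            have c21 : Core e0 e21 := CZ g19 k245 l21
                            have k429 : e19 ≤ e21 := L1 l21
                            have k430 : e15 ≤ e21 := L2 l21
                            have k431 : e21 ≤ e4 := L3 l21 k366 k278
                            have k434 : e21 ≤ e10 := L3 l21 k423 k230
                            have k436 : e21 ≤ e17 := L3 l21 k415 k284
                            have k438 : e12 ≤ e21 := le_trans k226 k430
                            have k439 : e11 ≤ e21 := le_trans k357 k429
                            have k445 : ¬ e6 ≤ e21 := N2 k115 k434
                            have k448 : ¬ e17 ≤ e21 := N1 k445 k283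
                            have k460 : ¬ e21 ≤ e14 := N1 k228 k430
                            have k461 : ¬ e21 ≤ e20 := N1 k421 k430
                            have k464 : e14 ≤ e21 := L3 l14 k439 k438
                            have k465 : e20 ≤ e21 := L3 l20 k429 k438
                            obtain ⟨e22, q22⟩ : ∃ y, f e21 = y := ⟨_, rfl⟩
                            have k468 : e15 ≤ e22 := MO hf q15 q22 k464
                            have k469 : ¬ e21 ≤ e22 := FA hF q22
                            have k470 : ¬ e22 ≤ e21 := FB hG q22
                            have k471 : e22 ≤ e5 := MO hf q22 q5 k431
                            have k472 : e22 ≤ e18 := MO hf q22 q18 k436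
                            have k473 : ¬ e19 ≤ e22 := L5 l21 k468 k469
                            have k496 : ¬ e11 ≤ e22 := N1 k473 k422
                            by_cases k501 : ∃ z, IsGLB ({e0, e22} : Set P) z
                            · obtain ⟨e23, g23⟩ := k501
                              have c23 : Core e0 e23 := CM g23
                              have k504 : e23 ≤ e0 := G1 g23
                              have k505 : e23 ≤ e22 := G2 g23
                              have k513 : e23 ≤ e18 := le_trans k505 k472
                              have k528 : ¬ e11 ≤ e23 := N2 k496 k505
                              have k530 : ¬ e19 ≤ e23 := N1 k528 k357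
                              have k537 : e23 ≤ e19 := G3 g19 k504 k513
                              exact HL _ _ _ _ _ _ c23 c19 c20 c21 c17 c4 (LT k537 k530) (LT k363 k406) (LT k465 k461) (LT k436 k448) (LT k285 k293)
                            · obtain ⟨e23, l23⟩ := (h1 e22).resolve_right k501
                              have c23 : Core e0 e23 := CJ k501 l23
                              have k504 : e0 ≤ e23 := L1 l23
                              have k505 : e22 ≤ e23 := L2 l23
                              have k512 : e15 ≤ e23 := le_trans k468 k505
                              have k535 : e16 ≤ e23 := L3 l16 k504 k512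
                              have k542 : e4 ≤ e23 := le_trans k274 k535
                              have k544 : e23 ≤ e4 := Classical.byContradiction fun hn => HL _ _ _ _ _ _ c2 c6 c9 c17 c4 c23 (LT k44 k53) (LT k91 k105) (LT k313 k314) (LT k285 k293) (LT k542 hn)
                              have k547 : e22 ≤ e4 := le_trans k505 k544
                              obtain ⟨e24, l24⟩ := ZE h2 k471 k501 g6
                              have c24 : Core e0 e24 := CZ g6 k501 l24
                              have k553 : e6 ≤ e24 := L1 l24
                              have k554 : e22 ≤ e24 := L2 l24
                              have k555 : e24 ≤ e4 := L3 l24 k47 k547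
                              have k556 : e24 ≤ e5 := L3 l24 k43 k471
                              have k564 : e15 ≤ e24 := le_trans k468 k554
                              have k565 : ¬ e0 ≤ e24 := N2 k34 k556
                              have k566 : ¬ e4 ≤ e24 := N1 k565 k21
                              have k592 : e17 ≤ e24 := L3 l17 k553 k564
                              have k598 : e24 ≤ e17 := Classical.byContradiction fun hn => HL _ _ _ _ _ _ c2 c6 c9 c17 c24 c4 (LT k44 k53) (LT k91 k105) (LT k313 k314) (LT k592 hn) (LT k555 k566)
                              have k599 : e22 ≤ e17 := le_trans k554 k598
                              obtain ⟨e25, l25⟩ := ZE h2 k472 k501 g19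
                              have c25 : Core e0 e25 := CZ g19 k501 l25
                              have k603 : e19 ≤ e25 := L1 l25
                              have k604 : e22 ≤ e25 := L2 l25
                              have k609 : e25 ≤ e17 := L3 l25 k415 k599
                              have k610 : e25 ≤ e18 := L3 l25 k356 k472
                              have k615 : e15 ≤ e25 := le_trans k468 k604
                              have k622 : ¬ e6 ≤ e25 := N2 k329 k610
                              have k625 : ¬ e17 ≤ e25 := N1 k622 k283
                              have k642 : ¬ e25 ≤ e21 := N1 k470 k604
                              have k646 : e21 ≤ e25 := L3 l21 k603 k615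
                              exact HL _ _ _ _ _ _ c11 c14 c21 c25 c17 c4 (LT k201 k223) (LT k464 k460) (LT k646 k642) (LT k609 k625) (LT k285 k293)
                          · obtain ⟨e19, l19⟩ := (h1 e18).resolve_right k350
                            have c19 : Core e0 e19 := CJ k350 l19
                            have k353 : e0 ≤ e19 := L1 l19
                            have k354 : e18 ≤ e19 := L2 l19
                            have k359 : e3 ≤ e19 := le_trans k321 k354
                            have k381 : e4 ≤ e19 := L3 l4 k353 k359
                            have k387 : e19 ≤ e4 := Classical.byContradiction fun hn => HL _ _ _ _ _ _ c2 c6 c9 c17 c4 c19 (LT k44 k53) (LT k91 k105) (LT k313 k314) (LT k285 k293) (LT k381 hn)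
                            have k393 : e18 ≤ e4 := le_trans k354 k387
                            obtain ⟨e20, l20⟩ := ZE h2 k328 k350 g6
                            have c20 : Core e0 e20 := CZ g6 k350 l20
                            have k399 : e6 ≤ e20 := L1 l20
                            have k400 : e18 ≤ e20 := L2 l20
                            have k401 : e20 ≤ e4 := L3 l20 k47 k393
                            have k402 : e20 ≤ e5 := L3 l20 k43 k328
                            have k413 : e15 ≤ e20 := le_trans k325 k400
                            have k414 : ¬ e0 ≤ e20 := N2 k34 k402
                            have k415 : ¬ e4 ≤ e20 := N1 k414 k21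
                            have k434 : ¬ e20 ≤ e17 := N1 k327 k400
                            have k438 : e17 ≤ e20 := L3 l17 k399 k413
                            exact HL _ _ _ _ _ _ c2 c6 c9 c17 c20 c4 (LT k44 k53) (LT k91 k105) (LT k313 k314) (LT k438 k434) (LT k401 k415)
                      · have k278 : ¬ e15 ≤ e4 := L4 l16 k21 k276
                        have k283 : ¬ e15 ≤ e9 := N2 k278 k93
                        obtain ⟨e17, q17⟩ : ∃ y, f e16 = y := ⟨_, rfl⟩
                        have k287 : e1 ≤ e17 := MO hf q1 q17 k248
                        have k289 : e5 ≤ e17 := MO hf q5 q17 k274
                        have k292 : e12 ≤ e17 := MO hf q12 q17 k253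
                        have k293 : e15 ≤ e17 := MO hf q15 q17 k270
                        have k294 : ¬ e16 ≤ e17 := FA hF q17
                        have k295 : ¬ e17 ≤ e16 := FB hG q17
                        have k296 : ¬ e0 ≤ e17 := L5 l16 k293 k294
                        have k297 : e2 ≤ e17 := le_trans k7 k287
                        have k298 : e6 ≤ e17 := le_trans k43 k289
                        have k300 : e11 ≤ e17 := le_trans k135 k289
                        by_cases k320 : ∃ z, IsGLB ({e0, e17} : Set P) z
                        · obtain ⟨e18, g18⟩ := k320
                          have c18 : Core e0 e18 := CM g18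
                          obtain ⟨e19, l19⟩ := ZE h2 k292 k170 g18
                          have c19 : Core e0 e19 := CZ g18 k170 l19
                          have k325 : e18 ≤ e0 := G1 g18
                          have k326 : e18 ≤ e17 := G2 g18
                          have k327 : e2 ≤ e18 := G3 g18 k6 k297
                          have k328 : e6 ≤ e18 := G3 g18 k42 k298
                          have k329 : e11 ≤ e18 := G3 g18 k128 k300
                          have k340 : e18 ≤ e16 := le_trans k325 k248
                          have k344 : ¬ e0 ≤ e18 := N2 k296 k326
                          have k358 : ¬ e3 ≤ e18 := N2 k15 k325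
                          have k360 : ¬ e9 ≤ e18 := N1 k358 k97
                          have k365 : ¬ e18 ≤ e2 := N1 k53 k328
                          have k393 : e18 ≤ e6 := Classical.byContradiction fun hn => HL _ _ _ _ _ _ c2 c6 c18 c0 c4 c16 (LT k44 k53) (LT k328 hn) (LT k325 k344) (LT k21 k28) (LT k274 k276)
                          have k394 : e18 ≤ e5 := le_trans k393 k43
                          have k395 : e18 ≤ e9 := le_trans k393 k91
                          obtain ⟨e20, l20⟩ := ZE h2 k293 k245 g18
                          have c20 : Core e0 e20 := CZ g18 k245 l20
                          have k402 : e18 ≤ e20 := L1 l20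
                          have k403 : e15 ≤ e20 := L2 l20
                          have k404 : e20 ≤ e5 := L3 l20 k394 k229
                          have k405 : e20 ≤ e16 := L3 l20 k340 k249
                          have k407 : e12 ≤ e20 := le_trans k226 k403
                          have k409 : e6 ≤ e20 := le_trans k328 k402
                          have k410 : e11 ≤ e20 := le_trans k329 k402
                          have k411 : ¬ e0 ≤ e20 := N2 k34 k404
                          have k414 : ¬ e16 ≤ e20 := N1 k411 k248
                          have k429 : ¬ e20 ≤ e9 := N1 k283 k403
                          have k434 : e13 ≤ e20 := L3 l13 k409 k407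
                          have k435 : e14 ≤ e20 := L3 l14 k410 k407
                          have k439 : e9 ≤ e20 := le_trans k196 k434
                          obtain ⟨e21, q21⟩ : ∃ y, f e20 = y := ⟨_, rfl⟩
                          have k443 : e10 ≤ e21 := MO hf q10 q21 k439
                          have k444 : e12 ≤ e21 := MO hf q12 q21 k410
                          have k445 : e15 ≤ e21 := MO hf q15 q21 k435
                          have k446 : ¬ e20 ≤ e21 := FA hF q21
                          have k447 : ¬ e21 ≤ e20 := FB hG q21
                          have k448 : e21 ≤ e17 := MO hf q21 q17 k405
                          have k449 : ¬ e18 ≤ e21 := L5 l20 k445 k446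
                          have k450 : e11 ≤ e21 := le_trans k129 k443
                          have k472 : ¬ e6 ≤ e21 := N1 k449 k393
                          by_cases k477 : ∃ z, IsGLB ({e0, e21} : Set P) z
                          · obtain ⟨e22, g22⟩ := k477
                            have c22 : Core e0 e22 := CM g22
                            obtain ⟨e23, l23⟩ := ZE h2 k444 k170 g22
                            have c23 : Core e0 e23 := CZ g22 k170 l23
                            have k482 : e22 ≤ e0 := G1 g22
                            have k483 : e22 ≤ e21 := G2 g22
                            have k484 : e11 ≤ e22 := G3 g22 k128 k450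
                            have k495 : e22 ≤ e16 := le_trans k482 k248
                            have k496 : e22 ≤ e17 := le_trans k483 k448
                            have k520 : ¬ e6 ≤ e22 := N2 k472 k483
                            have k522 : ¬ e18 ≤ e22 := N1 k520 k328
                            have k541 : e22 ≤ e18 := G3 g18 k482 k496
                            have k548 : e22 ≤ e6 := le_trans k541 k393
                            have k552 : e22 ≤ e20 := le_trans k541 k402
                            have k561 : e22 ≤ e11 := Classical.byContradiction fun hn => HL _ _ _ _ _ _ c11 c22 c18 c9 c4 c16 (LT k484 hn) (LT k541 k522) (LT k395 k360) (LT k93 k99) (LT k274 k276)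
                            obtain ⟨e24, l24⟩ := ZE h2 k445 k245 g22
                            have c24 : Core e0 e24 := CZ g22 k245 l24
                            have k568 : e22 ≤ e24 := L1 l24
                            have k569 : e15 ≤ e24 := L2 l24
                            have k572 : e24 ≤ e16 := L3 l24 k495 k249
                            have k574 : e24 ≤ e20 := L3 l24 k552 k403
                            have k576 : e12 ≤ e24 := le_trans k226 k569
                            have k577 : e11 ≤ e24 := le_trans k484 k568
                            have k604 : ¬ e24 ≤ e14 := N1 k228 k569
                            have k609 : e14 ≤ e24 := L3 l14 k577 k576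
                            obtain ⟨e25, q25⟩ : ∃ y, f e24 = y := ⟨_, rfl⟩
                            have k613 : e15 ≤ e25 := MO hf q15 q25 k609
                            have k614 : ¬ e24 ≤ e25 := FA hF q25
                            have k615 : ¬ e25 ≤ e24 := FB hG q25
                            have k616 : e25 ≤ e17 := MO hf q25 q17 k572
                            have k617 : e25 ≤ e21 := MO hf q25 q21 k574
                            have k618 : ¬ e22 ≤ e25 := L5 l24 k613 k614
                            have k648 : ¬ e11 ≤ e25 := N1 k618 k561
                            by_cases k653 : ∃ z, IsGLB ({e0, e25} : Set P) z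
                            · obtain ⟨e26, g26⟩ := k653
                              have c26 : Core e0 e26 := CM g26
                              have k656 : e26 ≤ e0 := G1 g26
                              have k657 : e26 ≤ e25 := G2 g26
                              have k665 : e26 ≤ e21 := le_trans k657 k617
                              have k683 : ¬ e11 ≤ e26 := N2 k648 k657
                              have k685 : ¬ e22 ≤ e26 := N1 k683 k484
                              have k692 : e26 ≤ e22 := G3 g22 k656 k665
                              exact HL _ _ _ _ _ _ c26 c22 c6 c0 c4 c16 (LT k692 k685) (LT k548 k520) (LT k42 k48) (LT k21 k28) (LT k274 k276)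
                            · obtain ⟨e26, l26⟩ := (h1 e25).resolve_right k653
                              have c26 : Core e0 e26 := CJ k653 l26
                              have k656 : e0 ≤ e26 := L1 l26
                              have k657 : e25 ≤ e26 := L2 l26
                              have k665 : e15 ≤ e26 := le_trans k613 k657
                              have k693 : e16 ≤ e26 := L3 l16 k656 k665
                              have k703 : e26 ≤ e16 := Classical.byContradiction fun hn => HL _ _ _ _ _ _ c2 c6 c9 c20 c16 c26 (LT k44 k53) (LT k91 k105) (LT k439 k429) (LT k405 k414) (LT k693 hn)
                              have k704 : e25 ≤ e16 := le_trans k657 k703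
                              obtain ⟨e27, l27⟩ := ZE h2 k616 k653 g18
                              have c27 : Core e0 e27 := CZ g18 k653 l27
                              have k708 : e18 ≤ e27 := L1 l27
                              have k709 : e25 ≤ e27 := L2 l27
                              have k710 : e27 ≤ e16 := L3 l27 k340 k704
                              have k711 : e27 ≤ e17 := L3 l27 k326 k616
                              have k718 : e15 ≤ e27 := le_trans k613 k709
                              have k719 : ¬ e0 ≤ e27 := N2 k296 k711
                              have k722 : ¬ e16 ≤ e27 := N1 k719 k248
                              have k751 : e20 ≤ e27 := L3 l20 k708 k718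
                              have k757 : e27 ≤ e20 := Classical.byContradiction fun hn => HL _ _ _ _ _ _ c2 c6 c9 c20 c27 c16 (LT k44 k53) (LT k91 k105) (LT k439 k429) (LT k751 hn) (LT k710 k722)
                              have k760 : e25 ≤ e20 := le_trans k709 k757
                              obtain ⟨e28, l28⟩ := ZE h2 k617 k653 g22
                              have c28 : Core e0 e28 := CZ g22 k653 l28
                              have k764 : e22 ≤ e28 := L1 l28
                              have k765 : e25 ≤ e28 := L2 l28
                              have k769 : e28 ≤ e20 := L3 l28 k552 k760
                              have k770 : e28 ≤ e21 := L3 l28 k483 k617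
                              have k775 : e15 ≤ e28 := le_trans k613 k765
                              have k783 : ¬ e6 ≤ e28 := N2 k472 k770
                              have k788 : ¬ e20 ≤ e28 := N1 k783 k409
                              have k809 : ¬ e28 ≤ e24 := N1 k615 k765
                              have k813 : e24 ≤ e28 := L3 l24 k764 k775
                              exact HL _ _ _ _ _ _ c11 c14 c24 c28 c20 c16 (LT k201 k223) (LT k609 k604) (LT k813 k809) (LT k769 k788) (LT k405 k414)
                          · obtain ⟨e22, l22⟩ := (h1 e21).resolve_right k477
                            have c22 : Core e0 e22 := CJ k477 l22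
                            have k480 : e0 ≤ e22 := L1 l22
                            have k481 : e21 ≤ e22 := L2 l22
                            have k492 : e15 ≤ e22 := le_trans k445 k481
                            have k518 : e16 ≤ e22 := L3 l16 k480 k492
                            have k521 : e22 ≤ e16 := Classical.byContradiction fun hn => HL _ _ _ _ _ _ c2 c6 c9 c20 c16 c22 (LT k44 k53) (LT k91 k105) (LT k439 k429) (LT k405 k414) (LT k518 hn)
                            have k523 : e21 ≤ e16 := le_trans k481 k521
                            obtain ⟨e23, l23⟩ := ZE h2 k448 k477 g18
                            have c23 : Core e0 e23 := CZ g18 k477 l23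
                            have k527 : e18 ≤ e23 := L1 l23
                            have k528 : e21 ≤ e23 := L2 l23
                            have k529 : e23 ≤ e16 := L3 l23 k340 k523
                            have k530 : e23 ≤ e17 := L3 l23 k326 k448
                            have k540 : e15 ≤ e23 := le_trans k445 k528
                            have k541 : ¬ e0 ≤ e23 := N2 k296 k530
                            have k544 : ¬ e16 ≤ e23 := N1 k541 k248
                            have k565 : ¬ e23 ≤ e20 := N1 k447 k528
                            have k570 : e20 ≤ e23 := L3 l20 k527 k540
                            exact HL _ _ _ _ _ _ c2 c18 c9 c20 c23 c16 (LT k327 k365) (LT k395 k360) (LT k439 k429) (LT k570 k565) (LT k529 k544)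
                        · obtain ⟨e18, l18⟩ := (h1 e17).resolve_right k320
                          have c18 : Core e0 e18 := CJ k320 l18
                          have k323 : e0 ≤ e18 := L1 l18
                          have k324 : e17 ≤ e18 := L2 l18
                          have k338 : e15 ≤ e18 := le_trans k293 k324
                          have k356 : ¬ e18 ≤ e16 := N1 k295 k324
                          have k359 : e16 ≤ e18 := L3 l16 k323 k338
                          exact HL _ _ _ _ _ _ c2 c6 c0 c4 c16 c18 (LT k44 k53) (LT k42 k48) (LT k21 k28) (LT k274 k276) (LT k359 k356)
                  · have k197 : ¬ e7 ≤ e13 := L4 l9 k173 k196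
                    obtain ⟨e14, q14⟩ : ∃ y, f e13 = y := ⟨_, rfl⟩
                    have k201 : e3 ≤ e14 := MO hf q3 q14 k179
                    have k202 : e7 ≤ e14 := MO hf q7 q14 k173
                    have k203 : e12 ≤ e14 := MO hf q12 q14 k180
                    have k206 : e14 ≤ e5 := MO hf q14 q5 k175
                    have k207 : e14 ≤ e10 := MO hf q14 q10 k178
                    by_cases k219 : ∃ z, IsGLB ({e0, e14} : Set P) z
                    · obtain ⟨e15, g15⟩ := k219
                      have c15 : Core e0 e15 := CM g15
                      have k222 : e15 ≤ e0 := G1 g15
                      have k223 : e15 ≤ e14 := G2 g15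
                      have k228 : e15 ≤ e4 := le_trans k222 k21
                      have k230 : e15 ≤ e5 := le_trans k223 k206
                      have k231 : e15 ≤ e10 := le_trans k223 k207
                      have k247 : e15 ≤ e6 := G3 g6 k222 k230
                      have k248 : e15 ≤ e11 := G3 g11 k222 k231
                      have k249 : e15 ≤ e9 := le_trans k247 k91
                      have k250 : e15 ≤ e13 := le_trans k247 k173
                      have k251 : e11 ≤ e15 := Classical.byContradiction fun hn => HL _ _ _ _ _ _ c15 c11 c6 c13 c9 c4 (LT k248 hn) (LT k146 k145) (LT k173 k194) (LT k178 k196) (LT k93 k99)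
                      have k252 : e11 ≤ e14 := le_trans k251 k223
                      obtain ⟨e16, l16⟩ := (h1 e12).resolve_right k170
                      have c16 : Core e0 e16 := CJ k170 l16
                      have k255 : e0 ≤ e16 := L1 l16
                      have k256 : e12 ≤ e16 := L2 l16
                      have k257 : e16 ≤ e4 := L3 l16 k21 k156
                      have k260 : e2 ≤ e16 := le_trans k6 k255
                      have k261 : e6 ≤ e16 := le_trans k42 k255
                      have k263 : e15 ≤ e16 := le_trans k222 k255
                      have k274 : ¬ e16 ≤ e13 := N1 k181 k255
                      have k278 : ¬ e16 ≤ e0 := N1 k155 k256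
                      have k279 : e13 ≤ e16 := L3 l13 k261 k256
                      by_cases k280 : e4 ≤ e16
                      · obtain ⟨e17, l17⟩ := ZE h2 k203 k170 g15
                        have c17 : Core e0 e17 := CZ g15 k170 l17
                        have k287 : e15 ≤ e17 := L1 l17
                        have k288 : e12 ≤ e17 := L2 l17
                        have k289 : e17 ≤ e4 := L3 l17 k228 k156
                        have k292 : e17 ≤ e9 := L3 l17 k249 k158
                        have k293 : e17 ≤ e10 := L3 l17 k231 k154
                        have k294 : e17 ≤ e13 := L3 l17 k250 k174
                        have k297 : e11 ≤ e17 := le_trans k251 k287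
                        have k304 : ¬ e6 ≤ e17 := N2 k115 k293
                        have k306 : ¬ e13 ≤ e17 := N1 k304 k173
                        have k316 : ¬ e17 ≤ e11 := N1 k150 k288
                        obtain ⟨e18, q18⟩ : ∃ y, f e17 = y := ⟨_, rfl⟩
                        have k320 : e12 ≤ e18 := MO hf q12 q18 k297
                        have k321 : ¬ e17 ≤ e18 := FA hF q18
                        have k322 : ¬ e18 ≤ e17 := FB hG q18
                        have k323 : e18 ≤ e5 := MO hf q18 q5 k289
                        have k324 : e18 ≤ e10 := MO hf q18 q10 k292
                        have k325 : e18 ≤ e14 := MO hf q18 q14 k294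
                        have k326 : ¬ e15 ≤ e18 := L5 l17 k320 k321
                        have k341 : ¬ e11 ≤ e18 := N1 k326 k248
                        by_cases k344 : ∃ z, IsGLB ({e0, e18} : Set P) z
                        · obtain ⟨e19, g19⟩ := k344
                          have c19 : Core e0 e19 := CM g19
                          have k347 : e19 ≤ e0 := G1 g19
                          have k348 : e19 ≤ e18 := G2 g19
                          have k355 : e19 ≤ e10 := le_trans k348 k324
                          have k370 : ¬ e11 ≤ e19 := N2 k341 k348
                          have k376 : e19 ≤ e11 := G3 g11 k347 k355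
                          exact HL _ _ _ _ _ _ c19 c11 c17 c13 c9 c4 (LT k376 k370) (LT k297 k316) (LT k294 k306) (LT k178 k196) (LT k93 k99)
                        · obtain ⟨e19, l19⟩ := (h1 e18).resolve_right k344
                          have c19 : Core e0 e19 := CJ k344 l19
                          have k347 : e0 ≤ e19 := L1 l19
                          have k348 : e18 ≤ e19 := L2 l19
                          have k354 : e12 ≤ e19 := le_trans k320 k348
                          have k372 : e16 ≤ e19 := L3 l16 k347 k354
                          have k375 : e4 ≤ e19 := le_trans k280 k372
                          have k379 : e19 ≤ e4 := Classical.byContradiction fun hn => HL _ _ _ _ _ _ c2 c6 c13 c9 c4 c19 (LT k44 k53) (LT k173 k194) (LT k178 k196) (LT k93 k99) (LT k375 hn)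
                          have k382 : e18 ≤ e4 := le_trans k348 k379
                          obtain ⟨e20, l20⟩ := ZE h2 k323 k344 g6
                          have c20 : Core e0 e20 := CZ g6 k344 l20
                          have k388 : e6 ≤ e20 := L1 l20
                          have k389 : e18 ≤ e20 := L2 l20
                          have k390 : e20 ≤ e4 := L3 l20 k47 k382
                          have k391 : e20 ≤ e5 := L3 l20 k43 k323
                          have k395 : e2 ≤ e20 := le_trans k44 k388
                          have k396 : e11 ≤ e20 := le_trans k146 k388
                          have k397 : e15 ≤ e20 := le_trans k247 k388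
                          have k398 : e12 ≤ e20 := le_trans k320 k389
                          have k399 : ¬ e0 ≤ e20 := N2 k34 k391
                          have k400 : ¬ e4 ≤ e20 := N1 k399 k21
                          have k419 : e13 ≤ e20 := L3 l13 k388 k398
                          have k420 : e17 ≤ e20 := L3 l17 k397 k398
                          by_cases k421 : e20 ≤ e13
                          · have k424 : e18 ≤ e13 := le_trans k389 k421
                            obtain ⟨e21, l21⟩ := ZE h2 k325 k344 g15
                            have c21 : Core e0 e21 := CZ g15 k344 l21
                            have k434 : e15 ≤ e21 := L1 l21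
                            have k435 : e18 ≤ e21 := L2 l21
                            have k440 : e21 ≤ e10 := L3 l21 k231 k324
                            have k441 : e21 ≤ e13 := L3 l21 k250 k424
                            have k447 : e12 ≤ e21 := le_trans k320 k435
                            have k455 : ¬ e6 ≤ e21 := N2 k115 k440
                            have k457 : ¬ e13 ≤ e21 := N1 k455 k173
                            have k471 : ¬ e21 ≤ e17 := N1 k322 k435
                            have k473 : e17 ≤ e21 := L3 l17 k434 k447
                            exact HL _ _ _ _ _ _ c11 c17 c21 c13 c9 c4 (LT k297 k316) (LT k473 k471) (LT k441 k457) (LT k178 k196) (LT k93 k99)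
                          · have k422 : ¬ e18 ≤ e13 := L4 l20 k173 k421
                            obtain ⟨e21, q21⟩ : ∃ y, f e20 = y := ⟨_, rfl⟩
                            have k424 : e3 ≤ e21 := MO hf q3 q21 k395
                            have k426 : e12 ≤ e21 := MO hf q12 q21 k396
                            have k427 : e14 ≤ e21 := MO hf q14 q21 k419
                            have k428 : e18 ≤ e21 := MO hf q18 q21 k420
                            have k429 : ¬ e20 ≤ e21 := FA hF q21
                            have k430 : ¬ e21 ≤ e20 := FB hG q21
                            have k431 : e21 ≤ e5 := MO hf q21 q5 k390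
                            have k432 : ¬ e6 ≤ e21 := L5 l20 k428 k429
                            have k433 : e11 ≤ e21 := le_trans k252 k427
                            have k434 : e15 ≤ e21 := le_trans k223 k427
                            by_cases k455 : ∃ z, IsGLB ({e0, e21} : Set P) z
                            · obtain ⟨e22, g22⟩ := k455
                              have c22 : Core e0 e22 := CM g22
                              obtain ⟨e23, l23⟩ := ZE h2 k426 k170 g22
                              have c23 : Core e0 e23 := CZ g22 k170 l23
                              have k460 : e22 ≤ e0 := G1 g22
                              have k461 : e22 ≤ e21 := G2 g22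
                              have k462 : e11 ≤ e22 := G3 g22 k128 k433
                              have k463 : e15 ≤ e22 := G3 g22 k222 k434
                              have k469 : e22 ≤ e23 := L1 l23
                              have k470 : e12 ≤ e23 := L2 l23
                              have k472 : e22 ≤ e4 := le_trans k460 k21
                              have k476 : e22 ≤ e5 := le_trans k461 k431
                              have k499 : ¬ e6 ≤ e22 := N2 k432 k461
                              have k511 : ¬ e12 ≤ e22 := N2 k155 k460
                              have k518 : ¬ e23 ≤ e22 := N1 k511 k470
                              have k519 : e22 ≤ e6 := G3 g6 k460 k476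
                              have k527 : e22 ≤ e13 := le_trans k519 k173
                              have k528 : e22 ≤ e20 := le_trans k519 k388
                              have k530 : e23 ≤ e13 := L3 l23 k527 k174
                              have k537 : ¬ e18 ≤ e23 := N2 k422 k530
                              have k538 : e22 ≤ e11 := Classical.byContradiction fun hn => HL _ _ _ _ _ _ c11 c22 c6 c13 c9 c4 (LT k462 hn) (LT k519 k499) (LT k173 k194) (LT k178 k196) (LT k93 k99)
                              have k539 : e22 ≤ e10 := le_trans k538 k129
                              obtain ⟨e24, l24⟩ := ZE h2 k428 k344 g22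
                              have c24 : Core e0 e24 := CZ g22 k344 l24
                              have k548 : e22 ≤ e24 := L1 l24
                              have k549 : e18 ≤ e24 := L2 l24
                              have k550 : e24 ≤ e4 := L3 l24 k472 k382
                              have k553 : e24 ≤ e10 := L3 l24 k539 k324
                              have k557 : e24 ≤ e20 := L3 l24 k528 k389
                              have k559 : e12 ≤ e24 := le_trans k320 k549
                              have k560 : e11 ≤ e24 := le_trans k462 k548
                              have k561 : e15 ≤ e24 := le_trans k463 k548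
                              have k568 : ¬ e6 ≤ e24 := N2 k115 k553
                              have k571 : ¬ e20 ≤ e24 := N1 k568 k388
                              have k583 : ¬ e24 ≤ e17 := N1 k322 k549
                              have k584 : ¬ e24 ≤ e23 := N1 k537 k549
                              have k587 : e17 ≤ e24 := L3 l17 k561 k559
                              have k588 : e23 ≤ e24 := L3 l23 k548 k559
                              obtain ⟨e25, q25⟩ : ∃ y, f e24 = y := ⟨_, rfl⟩
                              have k590 : e12 ≤ e25 := MO hf q12 q25 k560
                              have k591 : e18 ≤ e25 := MO hf q18 q25 k587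
                              have k592 : ¬ e24 ≤ e25 := FA hF q25
                              have k593 : ¬ e25 ≤ e24 := FB hG q25
                              have k594 : e25 ≤ e5 := MO hf q25 q5 k550
                              have k595 : e25 ≤ e21 := MO hf q25 q21 k557
                              have k596 : ¬ e22 ≤ e25 := L5 l24 k591 k592
                              have k618 : ¬ e11 ≤ e25 := N1 k596 k538
                              by_cases k625 : ∃ z, IsGLB ({e0, e25} : Set P) z
                              · obtain ⟨e26, g26⟩ := k625
                                have c26 : Core e0 e26 := CM g26
                                have k628 : e26 ≤ e0 := G1 g26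
                                have k629 : e26 ≤ e25 := G2 g26
                                have k638 : e26 ≤ e21 := le_trans k629 k595
                                have k655 : ¬ e11 ≤ e26 := N2 k618 k629
                                have k658 : ¬ e22 ≤ e26 := N1 k655 k462
                                have k665 : e26 ≤ e22 := G3 g22 k628 k638
                                exact HL _ _ _ _ _ _ c26 c22 c23 c24 c20 c4 (LT k665 k658) (LT k469 k518) (LT k588 k584) (LT k557 k571) (LT k390 k400)
                              · obtain ⟨e26, l26⟩ := (h1 e25).resolve_right k625
                                have c26 : Core e0 e26 := CJ k625 l26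
                                have k628 : e0 ≤ e26 := L1 l26
                                have k629 : e25 ≤ e26 := L2 l26
                                have k636 : e12 ≤ e26 := le_trans k590 k629
                                have k661 : e16 ≤ e26 := L3 l16 k628 k636
                                have k668 : e4 ≤ e26 := le_trans k280 k661
                                have k672 : e26 ≤ e4 := Classical.byContradiction fun hn => HL _ _ _ _ _ _ c2 c6 c13 c20 c4 c26 (LT k44 k53) (LT k173 k194) (LT k419 k421) (LT k390 k400) (LT k668 hn)
                                have k676 : e25 ≤ e4 := le_trans k629 k672
                                obtain ⟨e27, l27⟩ := ZE h2 k594 k625 g6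
                                have c27 : Core e0 e27 := CZ g6 k625 l27
                                have k683 : e6 ≤ e27 := L1 l27
                                have k684 : e25 ≤ e27 := L2 l27
                                have k685 : e27 ≤ e4 := L3 l27 k47 k676
                                have k686 : e27 ≤ e5 := L3 l27 k43 k594
                                have k696 : e18 ≤ e27 := le_trans k591 k684
                                have k697 : ¬ e0 ≤ e27 := N2 k34 k686
                                have k698 : ¬ e4 ≤ e27 := N1 k697 k21
                                have k726 : e20 ≤ e27 := L3 l20 k683 k696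
                                have k729 : e27 ≤ e20 := Classical.byContradiction fun hn => HL _ _ _ _ _ _ c2 c6 c13 c20 c27 c4 (LT k44 k53) (LT k173 k194) (LT k419 k421) (LT k726 hn) (LT k685 k698)
                                have k730 : e25 ≤ e20 := le_trans k684 k729
                                obtain ⟨e28, l28⟩ := ZE h2 k595 k625 g22
                                have c28 : Core e0 e28 := CZ g22 k625 l28
                                have k734 : e22 ≤ e28 := L1 l28
                                have k735 : e25 ≤ e28 := L2 l28
                                have k741 : e28 ≤ e20 := L3 l28 k528 k730
                                have k742 : e28 ≤ e21 := L3 l28 k461 k595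
                                have k748 : e18 ≤ e28 := le_trans k591 k735
                                have k756 : ¬ e6 ≤ e28 := N2 k432 k742
                                have k759 : ¬ e20 ≤ e28 := N1 k756 k388
                                have k776 : ¬ e28 ≤ e24 := N1 k593 k735
                                have k780 : e24 ≤ e28 := L3 l24 k734 k748
                                exact HL _ _ _ _ _ _ c11 c17 c24 c28 c20 c4 (LT k297 k316) (LT k587 k583) (LT k780 k776) (LT k741 k759) (LT k390 k400)
                            · obtain ⟨e22, l22⟩ := (h1 e21).resolve_right k455
                              have c22 : Core e0 e22 := CJ k455 l22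
                              have k458 : e0 ≤ e22 := L1 l22
                              have k459 : e21 ≤ e22 := L2 l22
                              have k465 : e3 ≤ e22 := le_trans k424 k459
                              have k489 : e4 ≤ e22 := L3 l4 k458 k465
                              have k496 : e22 ≤ e4 := Classical.byContradiction fun hn => HL _ _ _ _ _ _ c2 c6 c13 c20 c4 c22 (LT k44 k53) (LT k173 k194) (LT k419 k421) (LT k390 k400) (LT k489 hn)
                              have k504 : e21 ≤ e4 := le_trans k459 k496
                              obtain ⟨e23, l23⟩ := ZE h2 k431 k455 g6
                              have c23 : Core e0 e23 := CZ g6 k455 l23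
                              have k511 : e6 ≤ e23 := L1 l23
                              have k512 : e21 ≤ e23 := L2 l23
                              have k513 : e23 ≤ e4 := L3 l23 k47 k504
                              have k514 : e23 ≤ e5 := L3 l23 k43 k431
                              have k527 : e18 ≤ e23 := le_trans k428 k512
                              have k528 : ¬ e0 ≤ e23 := N2 k34 k514
                              have k529 : ¬ e4 ≤ e23 := N1 k528 k21
                              have k550 : ¬ e23 ≤ e20 := N1 k430 k512
                              have k554 : e20 ≤ e23 := L3 l20 k511 k527
                              exact HL _ _ _ _ _ _ c2 c6 c13 c20 c23 c4 (LT k44 k53) (LT k173 k194) (LT k419 k421) (LT k554 k550) (LT k513 k529)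
                      · have k282 : ¬ e3 ≤ e16 := L4 l4 k255 k280
                        have k288 : ¬ e3 ≤ e12 := N2 k282 k256
                        have k290 : ¬ e2 ≤ e11 := NM hf q3 q12 k288
                        have k291 : ¬ e2 ≤ e10 := G4 g11 k6 k290
                        obtain ⟨e17, q17⟩ : ∃ y, f e16 = y := ⟨_, rfl⟩
                        have k297 : e1 ≤ e17 := MO hf q1 q17 k255
                        have k298 : e3 ≤ e17 := MO hf q3 q17 k260
                        have k301 : e14 ≤ e17 := MO hf q14 q17 k279
                        have k304 : e17 ≤ e5 := MO hf q17 q5 k257
                        have k306 : e2 ≤ e17 := le_trans k7 k297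
                        have k307 : e11 ≤ e17 := le_trans k252 k301
                        by_cases k322 : ∃ z, IsGLB ({e0, e17} : Set P) z
                        · obtain ⟨e18, g18⟩ := k322
                          have c18 : Core e0 e18 := CM g18
                          have k325 : e18 ≤ e0 := G1 g18
                          have k326 : e18 ≤ e17 := G2 g18
                          have k327 : e2 ≤ e18 := G3 g18 k6 k306
                          have k328 : e11 ≤ e18 := G3 g18 k128 k307
                          have k336 : e18 ≤ e16 := le_trans k325 k255
                          have k337 : e18 ≤ e5 := le_trans k326 k304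
                          have k338 : ¬ e0 ≤ e18 := N2 k34 k337
                          have k346 : ¬ e18 ≤ e11 := N1 k290 k327
                          have k354 : ¬ e12 ≤ e18 := N2 k155 k325
                          have k355 : ¬ e13 ≤ e18 := N1 k354 k174
                          have k356 : e18 ≤ e6 := G3 g6 k325 k337
                          have k358 : e18 ≤ e13 := le_trans k356 k173
                          have k359 : e6 ≤ e18 := Classical.byContradiction fun hn => HL _ _ _ _ _ _ c11 c18 c6 c0 c16 c4 (LT k328 k346) (LT k356 hn) (LT k42 k48) (LT k255 k278) (LT k257 k280)
                          have k360 : e6 ≤ e17 := le_trans k359 k326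
                          have k363 : ¬ e18 ≤ e2 := N1 k53 k359
                          obtain ⟨e19, l19⟩ := ZE h2 k203 k170 g15
                          have c19 : Core e0 e19 := CZ g15 k170 l19
                          have k368 : e15 ≤ e19 := L1 l19
                          have k369 : e12 ≤ e19 := L2 l19
                          have k370 : e19 ≤ e4 := L3 l19 k228 k156
                          have k373 : e19 ≤ e9 := L3 l19 k249 k158
                          have k375 : e19 ≤ e13 := L3 l19 k250 k174
                          have k377 : e19 ≤ e16 := L3 l19 k263 k256
                          have k379 : e11 ≤ e19 := le_trans k251 k368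
                          have k402 : ¬ e19 ≤ e11 := N1 k150 k369
                          obtain ⟨e20, q20⟩ : ∃ y, f e19 = y := ⟨_, rfl⟩
                          have k407 : e12 ≤ e20 := MO hf q12 q20 k379
                          have k408 : ¬ e19 ≤ e20 := FA hF q20
                          have k409 : ¬ e20 ≤ e19 := FB hG q20
                          have k410 : e20 ≤ e5 := MO hf q20 q5 k370
                          have k411 : e20 ≤ e10 := MO hf q20 q10 k373
                          have k412 : e20 ≤ e14 := MO hf q20 q14 k375
                          have k413 : e20 ≤ e17 := MO hf q20 q17 k377
                          have k414 : ¬ e15 ≤ e20 := L5 l19 k407 k408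
                          have k434 : ¬ e11 ≤ e20 := N1 k414 k248
                          by_cases k437 : ∃ z, IsGLB ({e0, e20} : Set P) z
                          · obtain ⟨e21, g21⟩ := k437
                            have c21 : Core e0 e21 := CM g21
                            have k440 : e21 ≤ e0 := G1 g21
                            have k441 : e21 ≤ e20 := G2 g21
                            have k448 : e21 ≤ e10 := le_trans k441 k411
                            have k467 : ¬ e11 ≤ e21 := N2 k434 k441
                            have k473 : e21 ≤ e11 := G3 g11 k440 k448
                            exact HL _ _ _ _ _ _ c21 c11 c18 c0 c16 c4 (LT k473 k467) (LT k328 k346) (LT k325 k338) (LT k255 k278) (LT k257 k280)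
                          · obtain ⟨e21, l21⟩ := (h1 e20).resolve_right k437
                            have c21 : Core e0 e21 := CJ k437 l21
                            have k440 : e0 ≤ e21 := L1 l21
                            have k441 : e20 ≤ e21 := L2 l21
                            have k444 : e6 ≤ e21 := le_trans k42 k440
                            have k445 : e11 ≤ e21 := le_trans k128 k440
                            have k446 : e15 ≤ e21 := le_trans k222 k440
                            have k448 : e12 ≤ e21 := le_trans k407 k441
                            have k467 : e13 ≤ e21 := L3 l13 k444 k448
                            have k468 : e16 ≤ e21 := L3 l16 k440 k448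
                            have k469 : e19 ≤ e21 := L3 l19 k446 k448
                            by_cases k470 : e21 ≤ e16
                            · have k475 : e20 ≤ e16 := le_trans k441 k470
                              obtain ⟨e22, l22⟩ := ZE h2 k413 k437 g18
                              have c22 : Core e0 e22 := CZ g18 k437 l22
                              have k490 : e18 ≤ e22 := L1 l22
                              have k491 : e20 ≤ e22 := L2 l22
                              have k493 : e22 ≤ e5 := L3 l22 k337 k410
                              have k495 : e22 ≤ e16 := L3 l22 k336 k475
                              have k499 : e6 ≤ e22 := le_trans k359 k490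
                              have k502 : e12 ≤ e22 := le_trans k407 k491
                              have k503 : ¬ e0 ≤ e22 := N2 k34 k493
                              have k506 : ¬ e16 ≤ e22 := N1 k503 k255
                              have k531 : e13 ≤ e22 := L3 l13 k499 k502
                              have k533 : e22 ≤ e13 := Classical.byContradiction fun hn => HL _ _ _ _ _ _ c2 c6 c13 c22 c16 c4 (LT k44 k53) (LT k173 k194) (LT k531 hn) (LT k495 k506) (LT k257 k280)
                              have k536 : e20 ≤ e13 := le_trans k491 k533
                              obtain ⟨e23, l23⟩ := ZE h2 k412 k437 g15
                              have c23 : Core e0 e23 := CZ g15 k437 l23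
                              have k539 : e15 ≤ e23 := L1 l23
                              have k540 : e20 ≤ e23 := L2 l23
                              have k545 : e23 ≤ e10 := L3 l23 k231 k411
                              have k546 : e23 ≤ e13 := L3 l23 k250 k536
                              have k553 : e12 ≤ e23 := le_trans k407 k540
                              have k562 : ¬ e2 ≤ e23 := N2 k291 k545
                              have k565 : ¬ e13 ≤ e23 := N1 k562 k179
                              have k582 : ¬ e23 ≤ e19 := N1 k409 k540
                              have k584 : e19 ≤ e23 := L3 l19 k539 k553
                              exact HL _ _ _ _ _ _ c11 c19 c23 c13 c16 c4 (LT k379 k402) (LT k584 k582) (LT k546 k565) (LT k279 k274) (LT k257 k280)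
                            · have k471 : ¬ e20 ≤ e16 := L4 l21 k255 k470
                              have k472 : ¬ e20 ≤ e13 := N2 k471 k279
                              obtain ⟨e22, q22⟩ : ∃ y, f e21 = y := ⟨_, rfl⟩
                              have k474 : e1 ≤ e22 := MO hf q1 q22 k440
                              have k477 : e12 ≤ e22 := MO hf q12 q22 k445
                              have k478 : e14 ≤ e22 := MO hf q14 q22 k467
                              have k479 : e17 ≤ e22 := MO hf q17 q22 k468
                              have k480 : e20 ≤ e22 := MO hf q20 q22 k469
                              have k481 : ¬ e21 ≤ e22 := FA hF q22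
                              have k482 : ¬ e22 ≤ e21 := FB hG q22
                              have k483 : ¬ e0 ≤ e22 := L5 l21 k480 k481
                              have k484 : e2 ≤ e22 := le_trans k7 k474
                              have k485 : e11 ≤ e22 := le_trans k252 k478
                              have k486 : e15 ≤ e22 := le_trans k223 k478
                              have k488 : e6 ≤ e22 := le_trans k360 k479
                              by_cases k511 : ∃ z, IsGLB ({e0, e22} : Set P) z
                              · obtain ⟨e23, g23⟩ := k511
                                have c23 : Core e0 e23 := CM g23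
                                obtain ⟨e24, l24⟩ := ZE h2 k477 k170 g23
                                have c24 : Core e0 e24 := CZ g23 k170 l24
                                have k516 : e23 ≤ e0 := G1 g23
                                have k517 : e23 ≤ e22 := G2 g23
                                have k518 : e2 ≤ e23 := G3 g23 k6 k484
                                have k519 : e6 ≤ e23 := G3 g23 k42 k488
                                have k520 : e11 ≤ e23 := G3 g23 k128 k485
                                have k521 : e15 ≤ e23 := G3 g23 k222 k486
                                have k531 : e23 ≤ e4 := le_trans k516 k21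
                                have k534 : e23 ≤ e21 := le_trans k516 k440
                                have k540 : ¬ e0 ≤ e23 := N2 k483 k517
                                have k602 : e23 ≤ e6 := Classical.byContradiction fun hn => HL _ _ _ _ _ _ c2 c6 c23 c0 c16 c4 (LT k44 k53) (LT k519 hn) (LT k516 k540) (LT k255 k278) (LT k257 k280)
                                have k603 : e23 ≤ e5 := le_trans k602 k43
                                have k607 : e23 ≤ e18 := le_trans k602 k359
                                obtain ⟨e25, l25⟩ := ZE h2 k480 k437 g23
                                have c25 : Core e0 e25 := CZ g23 k437 l25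
                                have k614 : e23 ≤ e25 := L1 l25
                                have k615 : e20 ≤ e25 := L2 l25
                                have k616 : e25 ≤ e5 := L3 l25 k603 k410
                                have k618 : e25 ≤ e21 := L3 l25 k534 k441
                                have k620 : e12 ≤ e25 := le_trans k407 k615
                                have k621 : e2 ≤ e25 := le_trans k518 k614
                                have k622 : e6 ≤ e25 := le_trans k519 k614
                                have k623 : e11 ≤ e25 := le_trans k520 k614
                                have k624 : e15 ≤ e25 := le_trans k521 k614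
                                have k626 : ¬ e0 ≤ e25 := N2 k34 k616
                                have k630 : ¬ e21 ≤ e25 := N1 k626 k440
                                have k646 : ¬ e25 ≤ e13 := N1 k472 k615
                                have k651 : e13 ≤ e25 := L3 l13 k622 k620
                                have k652 : e19 ≤ e25 := L3 l19 k624 k620
                                obtain ⟨e26, q26⟩ : ∃ y, f e25 = y := ⟨_, rfl⟩
                                have k655 : e3 ≤ e26 := MO hf q3 q26 k621
                                have k657 : e12 ≤ e26 := MO hf q12 q26 k623
                                have k658 : e14 ≤ e26 := MO hf q14 q26 k651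
                                have k659 : e20 ≤ e26 := MO hf q20 q26 k652
                                have k660 : ¬ e25 ≤ e26 := FA hF q26
                                have k661 : ¬ e26 ≤ e25 := FB hG q26
                                have k662 : e26 ≤ e22 := MO hf q26 q22 k618
                                have k663 : ¬ e23 ≤ e26 := L5 l25 k659 k660
                                have k664 : e11 ≤ e26 := le_trans k252 k658
                                have k665 : e15 ≤ e26 := le_trans k223 k658
                                have k688 : ¬ e6 ≤ e26 := N1 k663 k602
                                by_cases k695 : ∃ z, IsGLB ({e0, e26} : Set P) z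
                                · obtain ⟨e27, g27⟩ := k695
                                  have c27 : Core e0 e27 := CM g27
                                  obtain ⟨e28, l28⟩ := ZE h2 k657 k170 g27
                                  have c28 : Core e0 e28 := CZ g27 k170 l28
                                  have k700 : e27 ≤ e0 := G1 g27
                                  have k701 : e27 ≤ e26 := G2 g27
                                  have k702 : e11 ≤ e27 := G3 g27 k128 k664
                                  have k703 : e15 ≤ e27 := G3 g27 k222 k665
                                  have k715 : e27 ≤ e21 := le_trans k700 k440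
                                  have k716 : e27 ≤ e22 := le_trans k701 k662
                                  have k741 : ¬ e6 ≤ e27 := N2 k688 k701
                                  have k744 : ¬ e18 ≤ e27 := N1 k741 k359
                                  have k771 : e27 ≤ e23 := G3 g23 k700 k716
                                  have k779 : e27 ≤ e6 := le_trans k771 k602
                                  have k783 : e27 ≤ e18 := le_trans k771 k607
                                  have k785 : e27 ≤ e25 := le_trans k771 k614
                                  have k799 : e27 ≤ e11 := Classical.byContradiction fun hn => HL _ _ _ _ _ _ c11 c27 c18 c13 c9 c4 (LT k702 hn) (LT k783 k744) (LT k358 k355) (LT k178 k196) (LT k93 k99)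
                                  have k800 : e27 ≤ e10 := le_trans k799 k129
                                  have k804 : ¬ e2 ≤ e27 := N2 k291 k800
                                  have k805 : ¬ e2 ≤ e26 := G4 g27 k6 k804
                                  obtain ⟨e29, l29⟩ := ZE h2 k659 k437 g27
                                  have c29 : Core e0 e29 := CZ g27 k437 l29
                                  have k813 : e27 ≤ e29 := L1 l29
                                  have k814 : e20 ≤ e29 := L2 l29
                                  have k819 : e29 ≤ e21 := L3 l29 k715 k441
                                  have k821 : e29 ≤ e25 := L3 l29 k785 k615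
                                  have k823 : e12 ≤ e29 := le_trans k407 k814
                                  have k825 : e15 ≤ e29 := le_trans k703 k813
                                  have k857 : ¬ e29 ≤ e19 := N1 k409 k814
                                  have k862 : e19 ≤ e29 := L3 l19 k825 k823
                                  obtain ⟨e30, q30⟩ : ∃ y, f e29 = y := ⟨_, rfl⟩
                                  have k866 : e20 ≤ e30 := MO hf q20 q30 k862
                                  have k867 : ¬ e29 ≤ e30 := FA hF q30
                                  have k868 : ¬ e30 ≤ e29 := FB hG q30
                                  have k869 : e30 ≤ e22 := MO hf q30 q22 k819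
                                  have k870 : e30 ≤ e26 := MO hf q30 q26 k821
                                  have k871 : ¬ e27 ≤ e30 := L5 l29 k866 k867
                                  have k904 : ¬ e11 ≤ e30 := N1 k871 k799
                                  by_cases k911 : ∃ z, IsGLB ({e0, e30} : Set P) z
                                  · obtain ⟨e31, g31⟩ := k911
                                    have c31 : Core e0 e31 := CM g31
                                    have k914 : e31 ≤ e0 := G1 g31
                                    have k915 : e31 ≤ e30 := G2 g31
                                    have k924 : e31 ≤ e26 := le_trans k915 k870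
                                    have k947 : ¬ e11 ≤ e31 := N2 k904 k915
                                    have k950 : ¬ e27 ≤ e31 := N1 k947 k702
                                    have k957 : e31 ≤ e27 := G3 g27 k914 k924
                                    exact HL _ _ _ _ _ _ c31 c27 c6 c0 c16 c4 (LT k957 k950) (LT k779 k741) (LT k42 k48) (LT k255 k278) (LT k257 k280)
                                  · obtain ⟨e31, l31⟩ := (h1 e30).resolve_right k911
                                    have c31 : Core e0 e31 := CJ k911 l31
                                    have k914 : e0 ≤ e31 := L1 l31
                                    have k915 : e30 ≤ e31 := L2 l31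
                                    have k925 : e20 ≤ e31 := le_trans k866 k915
                                    have k957 : e21 ≤ e31 := L3 l21 k914 k925
                                    have k962 : e31 ≤ e21 := Classical.byContradiction fun hn => HL _ _ _ _ _ _ c2 c6 c13 c16 c21 c31 (LT k44 k53) (LT k173 k194) (LT k279 k274) (LT k468 k470) (LT k957 hn)
                                    have k963 : e30 ≤ e21 := le_trans k915 k962
                                    obtain ⟨e32, l32⟩ := ZE h2 k869 k911 g23
                                    have c32 : Core e0 e32 := CZ g23 k911 l32
                                    have k967 : e23 ≤ e32 := L1 l32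
                                    have k968 : e30 ≤ e32 := L2 l32
                                    have k969 : e32 ≤ e21 := L3 l32 k534 k963
                                    have k970 : e32 ≤ e22 := L3 l32 k517 k869
                                    have k979 : e20 ≤ e32 := le_trans k866 k968
                                    have k980 : ¬ e0 ≤ e32 := N2 k483 k970
                                    have k984 : ¬ e21 ≤ e32 := N1 k980 k440
                                    have k1014 : e25 ≤ e32 := L3 l25 k967 k979
                                    have k1017 : e32 ≤ e25 := Classical.byContradiction fun hn => HL _ _ _ _ _ _ c2 c6 c13 c25 c32 c21 (LT k44 k53) (LT k173 k194) (LT k651 k646) (LT k1014 hn) (LT k969 k984)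
                                    have k1022 : e30 ≤ e25 := le_trans k968 k1017
                                    obtain ⟨e33, l33⟩ := ZE h2 k870 k911 g27
                                    have c33 : Core e0 e33 := CZ g27 k911 l33
                                    have k1026 : e27 ≤ e33 := L1 l33
                                    have k1027 : e30 ≤ e33 := L2 l33
                                    have k1032 : e33 ≤ e25 := L3 l33 k785 k1022
                                    have k1033 : e33 ≤ e26 := L3 l33 k701 k870
                                    have k1039 : e20 ≤ e33 := le_trans k866 k1027
                                    have k1050 : ¬ e2 ≤ e33 := N2 k805 k1033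
                                    have k1057 : ¬ e25 ≤ e33 := N1 k1050 k621
                                    have k1078 : ¬ e33 ≤ e29 := N1 k868 k1027
                                    have k1082 : e29 ≤ e33 := L3 l29 k1026 k1039
                                    exact HL _ _ _ _ _ _ c11 c19 c29 c33 c25 c21 (LT k379 k402) (LT k862 k857) (LT k1082 k1078) (LT k1032 k1057) (LT k618 k630)
                                · obtain ⟨e27, l27⟩ := (h1 e26).resolve_right k695
                                  have c27 : Core e0 e27 := CJ k695 l27
                                  have k698 : e0 ≤ e27 := L1 l27
                                  have k699 : e26 ≤ e27 := L2 l27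
                                  have k706 : e23 ≤ e27 := le_trans k516 k698
                                  have k707 : e3 ≤ e27 := le_trans k655 k699
                                  have k712 : e20 ≤ e27 := le_trans k659 k699
                                  have k737 : e4 ≤ e27 := L3 l4 k698 k707
                                  have k744 : e25 ≤ e27 := L3 l25 k706 k712
                                  have k745 : e27 ≤ e4 := Classical.byContradiction fun hn => HL _ _ _ _ _ _ c2 c6 c13 c16 c4 c27 (LT k44 k53) (LT k173 k194) (LT k279 k274) (LT k257 k280) (LT k737 hn)
                                  have k753 : e25 ≤ e4 := le_trans k744 k745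
                                  have k755 : e26 ≤ e4 := le_trans k699 k745
                                  have k761 : e26 ≤ e5 := MO hf q26 q5 k753
                                  obtain ⟨e28, l28⟩ := ZE h2 k662 k695 g23
                                  have c28 : Core e0 e28 := CZ g23 k695 l28
                                  have k778 : e23 ≤ e28 := L1 l28
                                  have k779 : e26 ≤ e28 := L2 l28
                                  have k780 : e28 ≤ e4 := L3 l28 k531 k755
                                  have k781 : e28 ≤ e5 := L3 l28 k603 k761
                                  have k796 : e20 ≤ e28 := le_trans k659 k779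
                                  have k797 : ¬ e0 ≤ e28 := N2 k34 k781
                                  have k798 : ¬ e4 ≤ e28 := N1 k797 k21
                                  have k824 : ¬ e28 ≤ e25 := N1 k661 k779
                                  have k829 : e25 ≤ e28 := L3 l25 k778 k796
                                  exact HL _ _ _ _ _ _ c2 c18 c13 c25 c28 c4 (LT k327 k363) (LT k358 k355) (LT k651 k646) (LT k829 k824) (LT k780 k798)
                              · obtain ⟨e23, l23⟩ := (h1 e22).resolve_right k511
                                have c23 : Core e0 e23 := CJ k511 l23
                                have k514 : e0 ≤ e23 := L1 l23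
                                have k515 : e22 ≤ e23 := L2 l23
                                have k531 : e20 ≤ e23 := le_trans k480 k515
                                have k552 : ¬ e23 ≤ e21 := N1 k482 k515
                                have k556 : e21 ≤ e23 := L3 l21 k514 k531
                                exact HL _ _ _ _ _ _ c2 c6 c0 c16 c21 c23 (LT k44 k53) (LT k42 k48) (LT k255 k278) (LT k468 k470) (LT k556 k552)
                        · obtain ⟨e18, l18⟩ := (h1 e17).resolve_right k322
                          have c18 : Core e0 e18 := CJ k322 l18
                          have k329 : e0 ≤ e18 := L1 l18
                          have k330 : e17 ≤ e18 := L2 l18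
                          have k337 : e3 ≤ e18 := le_trans k298 k330
                          have k340 : e14 ≤ e18 := le_trans k301 k330
                          have k357 : e4 ≤ e18 := L3 l4 k329 k337
                          have k362 : e18 ≤ e4 := Classical.byContradiction fun hn => HL _ _ _ _ _ _ c2 c6 c13 c16 c4 c18 (LT k44 k53) (LT k173 k194) (LT k279 k274) (LT k257 k280) (LT k357 hn)
                          have k366 : e14 ≤ e4 := le_trans k340 k362
                          obtain ⟨e19, l19⟩ := ZE h2 k203 k170 g15
                          have c19 : Core e0 e19 := CZ g15 k170 l19
                          have k373 : e15 ≤ e19 := L1 l19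
                          have k374 : e12 ≤ e19 := L2 l19
                          have k375 : e19 ≤ e4 := L3 l19 k228 k156
                          have k378 : e19 ≤ e9 := L3 l19 k249 k158
                          have k380 : e19 ≤ e13 := L3 l19 k250 k174
                          have k385 : e11 ≤ e19 := le_trans k251 k373
                          have k408 : ¬ e19 ≤ e11 := N1 k150 k374
                          obtain ⟨e20, q20⟩ : ∃ y, f e19 = y := ⟨_, rfl⟩
                          have k412 : e12 ≤ e20 := MO hf q12 q20 k385
                          have k413 : ¬ e19 ≤ e20 := FA hF q20
                          have k414 : ¬ e20 ≤ e19 := FB hG q20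
                          have k415 : e20 ≤ e5 := MO hf q20 q5 k375
                          have k416 : e20 ≤ e10 := MO hf q20 q10 k378
                          have k417 : e20 ≤ e14 := MO hf q20 q14 k380
                          have k419 : ¬ e15 ≤ e20 := L5 l19 k412 k413
                          have k420 : e20 ≤ e4 := le_trans k417 k366
                          have k441 : ¬ e11 ≤ e20 := N1 k419 k248
                          by_cases k444 : ∃ z, IsGLB ({e0, e20} : Set P) z
                          · obtain ⟨e21, g21⟩ := k444
                            have c21 : Core e0 e21 := CM g21
                            have k447 : e21 ≤ e0 := G1 g21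
                            have k448 : e21 ≤ e20 := G2 g21
                            have k456 : e21 ≤ e10 := le_trans k448 k416
                            have k475 : ¬ e11 ≤ e21 := N2 k441 k448
                            have k481 : e21 ≤ e11 := G3 g11 k447 k456
                            exact HL _ _ _ _ _ _ c21 c11 c6 c0 c16 c4 (LT k481 k475) (LT k146 k145) (LT k42 k48) (LT k255 k278) (LT k257 k280)
                          · obtain ⟨e21, l21⟩ := (h1 e20).resolve_right k444
                            have c21 : Core e0 e21 := CJ k444 l21
                            have k447 : e0 ≤ e21 := L1 l21
                            have k448 : e20 ≤ e21 := L2 l21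
                            have k449 : e21 ≤ e4 := L3 l21 k21 k420
                            have k457 : e12 ≤ e21 := le_trans k412 k448
                            have k477 : e16 ≤ e21 := L3 l16 k447 k457
                            by_cases k479 : e21 ≤ e16
                            · have k480 : e20 ≤ e16 := le_trans k448 k479
                              obtain ⟨e22, l22⟩ := ZE h2 k415 k444 g6
                              have c22 : Core e0 e22 := CZ g6 k444 l22
                              have k495 : e6 ≤ e22 := L1 l22
                              have k496 : e20 ≤ e22 := L2 l22
                              have k498 : e22 ≤ e5 := L3 l22 k43 k415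
                              have k500 : e22 ≤ e16 := L3 l22 k261 k480
                              have k506 : e12 ≤ e22 := le_trans k412 k496
                              have k507 : ¬ e0 ≤ e22 := N2 k34 k498
                              have k510 : ¬ e16 ≤ e22 := N1 k507 k255
                              have k536 : e13 ≤ e22 := L3 l13 k495 k506
                              have k538 : e22 ≤ e13 := Classical.byContradiction fun hn => HL _ _ _ _ _ _ c2 c6 c13 c22 c16 c4 (LT k44 k53) (LT k173 k194) (LT k536 hn) (LT k500 k510) (LT k257 k280)
                              have k541 : e20 ≤ e13 := le_trans k496 k538
                              obtain ⟨e23, l23⟩ := ZE h2 k417 k444 g15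
                              have c23 : Core e0 e23 := CZ g15 k444 l23
                              have k544 : e15 ≤ e23 := L1 l23
                              have k545 : e20 ≤ e23 := L2 l23
                              have k550 : e23 ≤ e10 := L3 l23 k231 k416
                              have k551 : e23 ≤ e13 := L3 l23 k250 k541
                              have k559 : e12 ≤ e23 := le_trans k412 k545
                              have k569 : ¬ e2 ≤ e23 := N2 k291 k550
                              have k572 : ¬ e13 ≤ e23 := N1 k569 k179
                              have k587 : ¬ e23 ≤ e19 := N1 k414 k545
                              have k589 : e19 ≤ e23 := L3 l19 k544 k559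
                              exact HL _ _ _ _ _ _ c11 c19 c23 c13 c16 c4 (LT k385 k408) (LT k589 k587) (LT k551 k572) (LT k279 k274) (LT k257 k280)
                            · have k480 : ¬ e20 ≤ e16 := L4 l21 k255 k479
                              have k481 : ¬ e20 ≤ e13 := N2 k480 k279
                              have k482 : e4 ≤ e21 := Classical.byContradiction fun hn => HL _ _ _ _ _ _ c2 c6 c13 c16 c21 c4 (LT k44 k53) (LT k173 k194) (LT k279 k274) (LT k477 k479) (LT k449 hn)
                              obtain ⟨e22, l22⟩ := ZE h2 k415 k444 g6
                              have c22 : Core e0 e22 := CZ g6 k444 l22
                              have k493 : e6 ≤ e22 := L1 l22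
                              have k494 : e20 ≤ e22 := L2 l22
                              have k495 : e22 ≤ e4 := L3 l22 k47 k420
                              have k496 : e22 ≤ e5 := L3 l22 k43 k415
                              have k500 : e2 ≤ e22 := le_trans k44 k493
                              have k501 : e11 ≤ e22 := le_trans k146 k493
                              have k502 : e15 ≤ e22 := le_trans k247 k493
                              have k503 : e12 ≤ e22 := le_trans k412 k494
                              have k504 : ¬ e0 ≤ e22 := N2 k34 k496
                              have k505 : ¬ e4 ≤ e22 := N1 k504 k21
                              have k525 : ¬ e22 ≤ e13 := N1 k481 k494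
                              have k528 : e13 ≤ e22 := L3 l13 k493 k503
                              have k529 : e19 ≤ e22 := L3 l19 k502 k503
                              obtain ⟨e23, q23⟩ : ∃ y, f e22 = y := ⟨_, rfl⟩
                              have k531 : e3 ≤ e23 := MO hf q3 q23 k500
                              have k533 : e12 ≤ e23 := MO hf q12 q23 k501
                              have k534 : e14 ≤ e23 := MO hf q14 q23 k528
                              have k535 : e20 ≤ e23 := MO hf q20 q23 k529
                              have k536 : ¬ e22 ≤ e23 := FA hF q23
                              have k537 : ¬ e23 ≤ e22 := FB hG q23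
                              have k538 : e23 ≤ e5 := MO hf q23 q5 k495
                              have k539 : ¬ e6 ≤ e23 := L5 l22 k535 k536
                              have k540 : e11 ≤ e23 := le_trans k252 k534
                              have k541 : e15 ≤ e23 := le_trans k223 k534
                              by_cases k564 : ∃ z, IsGLB ({e0, e23} : Set P) z
                              · obtain ⟨e24, g24⟩ := k564
                                have c24 : Core e0 e24 := CM g24
                                obtain ⟨e25, l25⟩ := ZE h2 k533 k170 g24
                                have c25 : Core e0 e25 := CZ g24 k170 l25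
                                have k569 : e24 ≤ e0 := G1 g24
                                have k570 : e24 ≤ e23 := G2 g24
                                have k571 : e11 ≤ e24 := G3 g24 k128 k540
                                have k572 : e15 ≤ e24 := G3 g24 k222 k541
                                have k581 : e24 ≤ e4 := le_trans k569 k21
                                have k586 : e24 ≤ e5 := le_trans k570 k538
                                have k612 : ¬ e6 ≤ e24 := N2 k539 k570
                                have k632 : e24 ≤ e6 := G3 g6 k569 k586
                                have k642 : e24 ≤ e22 := le_trans k632 k493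
                                have k654 : e24 ≤ e11 := Classical.byContradiction fun hn => HL _ _ _ _ _ _ c11 c24 c6 c0 c16 c4 (LT k571 hn) (LT k632 k612) (LT k42 k48) (LT k255 k278) (LT k257 k280)
                                have k655 : e24 ≤ e10 := le_trans k654 k129
                                have k660 : ¬ e2 ≤ e24 := N2 k291 k655
                                have k661 : ¬ e2 ≤ e23 := G4 g24 k6 k660
                                obtain ⟨e26, l26⟩ := ZE h2 k535 k444 g24
                                have c26 : Core e0 e26 := CZ g24 k444 l26
                                have k671 : e24 ≤ e26 := L1 l26
                                have k672 : e20 ≤ e26 := L2 l26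
                                have k673 : e26 ≤ e4 := L3 l26 k581 k420
                                have k681 : e26 ≤ e22 := L3 l26 k642 k494
                                have k683 : e12 ≤ e26 := le_trans k412 k672
                                have k685 : e15 ≤ e26 := le_trans k572 k671
                                have k712 : ¬ e26 ≤ e19 := N1 k414 k672
                                have k716 : e19 ≤ e26 := L3 l19 k685 k683
                                obtain ⟨e27, q27⟩ : ∃ y, f e26 = y := ⟨_, rfl⟩
                                have k720 : e20 ≤ e27 := MO hf q20 q27 k716
                                have k721 : ¬ e26 ≤ e27 := FA hF q27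
                                have k722 : ¬ e27 ≤ e26 := FB hG q27
                                have k723 : e27 ≤ e5 := MO hf q27 q5 k673
                                have k724 : e27 ≤ e23 := MO hf q27 q23 k681
                                have k725 : ¬ e24 ≤ e27 := L5 l26 k720 k721
                                have k752 : ¬ e11 ≤ e27 := N1 k725 k654
                                by_cases k759 : ∃ z, IsGLB ({e0, e27} : Set P) z
                                · obtain ⟨e28, g28⟩ := k759
                                  have c28 : Core e0 e28 := CM g28
                                  have k762 : e28 ≤ e0 := G1 g28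
                                  have k763 : e28 ≤ e27 := G2 g28
                                  have k773 : e28 ≤ e23 := le_trans k763 k724
                                  have k793 : ¬ e11 ≤ e28 := N2 k752 k763
                                  have k796 : ¬ e24 ≤ e28 := N1 k793 k571
                                  have k803 : e28 ≤ e24 := G3 g24 k762 k773
                                  exact HL _ _ _ _ _ _ c28 c24 c6 c0 c16 c4 (LT k803 k796) (LT k632 k612) (LT k42 k48) (LT k255 k278) (LT k257 k280)
                                · obtain ⟨e28, l28⟩ := (h1 e27).resolve_right k759
                                  have c28 : Core e0 e28 := CJ k759 l28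
                                  have k762 : e0 ≤ e28 := L1 l28
                                  have k763 : e27 ≤ e28 := L2 l28
                                  have k771 : e20 ≤ e28 := le_trans k720 k763
                                  have k799 : e21 ≤ e28 := L3 l21 k762 k771
                                  have k805 : e4 ≤ e28 := le_trans k482 k799
                                  have k812 : e28 ≤ e4 := Classical.byContradiction fun hn => HL _ _ _ _ _ _ c2 c6 c13 c16 c4 c28 (LT k44 k53) (LT k173 k194) (LT k279 k274) (LT k257 k280) (LT k805 hn)
                                  have k816 : e27 ≤ e4 := le_trans k763 k812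
                                  obtain ⟨e29, l29⟩ := ZE h2 k723 k759 g6
                                  have c29 : Core e0 e29 := CZ g6 k759 l29
                                  have k823 : e6 ≤ e29 := L1 l29
                                  have k824 : e27 ≤ e29 := L2 l29
                                  have k825 : e29 ≤ e4 := L3 l29 k47 k816
                                  have k826 : e29 ≤ e5 := L3 l29 k43 k723
                                  have k836 : e20 ≤ e29 := le_trans k720 k824
                                  have k837 : ¬ e0 ≤ e29 := N2 k34 k826
                                  have k838 : ¬ e4 ≤ e29 := N1 k837 k21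
                                  have k869 : e22 ≤ e29 := L3 l22 k823 k836
                                  have k872 : e29 ≤ e22 := Classical.byContradiction fun hn => HL _ _ _ _ _ _ c2 c6 c13 c22 c29 c4 (LT k44 k53) (LT k173 k194) (LT k528 k525) (LT k869 hn) (LT k825 k838)
                                  have k873 : e27 ≤ e22 := le_trans k824 k872
                                  obtain ⟨e30, l30⟩ := ZE h2 k724 k759 g24
                                  have c30 : Core e0 e30 := CZ g24 k759 l30
                                  have k877 : e24 ≤ e30 := L1 l30
                                  have k878 : e27 ≤ e30 := L2 l30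
                                  have k884 : e30 ≤ e22 := L3 l30 k642 k873
                                  have k885 : e30 ≤ e23 := L3 l30 k570 k724
                                  have k891 : e20 ≤ e30 := le_trans k720 k878
                                  have k902 : ¬ e2 ≤ e30 := N2 k661 k885
                                  have k906 : ¬ e22 ≤ e30 := N1 k902 k500
                                  have k924 : ¬ e30 ≤ e26 := N1 k722 k878
                                  have k928 : e26 ≤ e30 := L3 l26 k877 k891
                                  exact HL _ _ _ _ _ _ c11 c19 c26 c30 c22 c4 (LT k385 k408) (LT k716 k712) (LT k928 k924) (LT k884 k906) (LT k495 k505)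
                              · obtain ⟨e24, l24⟩ := (h1 e23).resolve_right k564
                                have c24 : Core e0 e24 := CJ k564 l24
                                have k567 : e0 ≤ e24 := L1 l24
                                have k568 : e23 ≤ e24 := L2 l24
                                have k574 : e3 ≤ e24 := le_trans k531 k568
                                have k600 : e4 ≤ e24 := L3 l4 k567 k574
                                have k610 : e24 ≤ e4 := Classical.byContradiction fun hn => HL _ _ _ _ _ _ c2 c6 c13 c16 c4 c24 (LT k44 k53) (LT k173 k194) (LT k279 k274) (LT k257 k280) (LT k600 hn)
                                have k614 : e23 ≤ e4 := le_trans k568 k610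
                                obtain ⟨e25, l25⟩ := ZE h2 k538 k564 g6
                                have c25 : Core e0 e25 := CZ g6 k564 l25
                                have k621 : e6 ≤ e25 := L1 l25
                                have k622 : e23 ≤ e25 := L2 l25
                                have k623 : e25 ≤ e4 := L3 l25 k47 k614
                                have k624 : e25 ≤ e5 := L3 l25 k43 k538
                                have k637 : e20 ≤ e25 := le_trans k535 k622
                                have k638 : ¬ e0 ≤ e25 := N2 k34 k624
                                have k639 : ¬ e4 ≤ e25 := N1 k638 k21
                                have k663 : ¬ e25 ≤ e22 := N1 k537 k622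
                                have k667 : e22 ≤ e25 := L3 l22 k621 k637
                                exact HL _ _ _ _ _ _ c2 c6 c13 c22 c25 c4 (LT k44 k53) (LT k173 k194) (LT k528 k525) (LT k667 k663) (LT k623 k639)
                    · have k220 : ¬ e11 ≤ e14 := BN3 g11 k219 k207
                      obtain ⟨e15, l15⟩ := (h1 e14).resolve_right k219
                      have c15 : Core e0 e15 := CJ k219 l15
                      have k224 : e0 ≤ e15 := L1 l15
                      have k225 : e14 ≤ e15 := L2 l15
                      have k230 : e3 ≤ e15 := le_trans k201 k225
                      have k246 : e4 ≤ e15 := L3 l4 k224 k230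
                      have k250 : e15 ≤ e4 := Classical.byContradiction fun hn => HL _ _ _ _ _ _ c2 c6 c13 c9 c4 c15 (LT k44 k53) (LT k173 k194) (LT k178 k196) (LT k93 k99) (LT k246 hn)
                      have k252 : e14 ≤ e4 := le_trans k225 k250
                      obtain ⟨e16, l16⟩ := ZE h2 k206 k219 g6
                      have c16 : Core e0 e16 := CZ g6 k219 l16
                      have k257 : e6 ≤ e16 := L1 l16
                      have k258 : e14 ≤ e16 := L2 l16
                      have k259 : e16 ≤ e4 := L3 l16 k47 k252
                      have k260 : e16 ≤ e5 := L3 l16 k43 k206
                      have k266 : e7 ≤ e16 := le_trans k202 k258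
                      have k267 : e12 ≤ e16 := le_trans k203 k258
                      have k268 : ¬ e0 ≤ e16 := N2 k34 k260
                      have k269 : ¬ e4 ≤ e16 := N1 k268 k21
                      have k283 : ¬ e16 ≤ e13 := N1 k197 k266
                      have k285 : e9 ≤ e16 := L3 l9 k257 k266
                      have k286 : e13 ≤ e16 := L3 l13 k257 k267
                      have k287 : e16 ≤ e9 := Classical.byContradiction fun hn => HL _ _ _ _ _ _ c2 c6 c13 c9 c16 c4 (LT k44 k53) (LT k173 k194) (LT k178 k196) (LT k285 hn) (LT k259 k269)
                      have k288 : e14 ≤ e9 := le_trans k258 k287
                      obtain ⟨e17, l17⟩ := ZE h2 k154 k170 g11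
                      have c17 : Core e0 e17 := CZ g11 k170 l17
                      have k292 : e11 ≤ e17 := L1 l17
                      have k293 : e12 ≤ e17 := L2 l17
                      have k294 : e17 ≤ e4 := L3 l17 k133 k156
                      have k297 : e17 ≤ e9 := L3 l17 k147 k158
                      have k298 : e17 ≤ e10 := L3 l17 k129 k154
                      have k299 : e17 ≤ e13 := L3 l17 k180 k174
                      have k308 : ¬ e6 ≤ e17 := N2 k115 k298
                      have k310 : ¬ e13 ≤ e17 := N1 k308 k173
                      have k322 : ¬ e17 ≤ e11 := N1 k150 k293
                      obtain ⟨e18, q18⟩ : ∃ y, f e17 = y := ⟨_, rfl⟩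
                      have k325 : e12 ≤ e18 := MO hf q12 q18 k292
                      have k327 : ¬ e18 ≤ e17 := FB hG q18
                      have k328 : e18 ≤ e5 := MO hf q18 q5 k294
                      have k329 : e18 ≤ e10 := MO hf q18 q10 k297
                      have k330 : e18 ≤ e14 := MO hf q18 q14 k299
                      have k332 : e18 ≤ e4 := le_trans k330 k252
                      have k334 : e18 ≤ e9 := le_trans k330 k288
                      by_cases k352 : ∃ z, IsGLB ({e0, e18} : Set P) z
                      · obtain ⟨e19, g19⟩ := k352
                        have c19 : Core e0 e19 := CM g19
                        have k355 : e19 ≤ e0 := G1 g19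
                        have k356 : e19 ≤ e18 := G2 g19
                        have k364 : e19 ≤ e10 := le_trans k356 k329
                        have k365 : e19 ≤ e14 := le_trans k356 k330
                        have k381 : ¬ e11 ≤ e19 := N2 k220 k365
                        have k386 : e19 ≤ e11 := G3 g11 k355 k364
                        exact HL _ _ _ _ _ _ c19 c11 c17 c13 c16 c4 (LT k386 k381) (LT k292 k322) (LT k299 k310) (LT k286 k283) (LT k259 k269)
                      · obtain ⟨e19, l19⟩ := ZE h2 k328 k352 g6
                        have c19 : Core e0 e19 := CZ g6 k352 l19
                        have k355 : e6 ≤ e19 := L1 l19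
                        have k356 : e18 ≤ e19 := L2 l19
                        have k360 : e19 ≤ e9 := L3 l19 k91 k334
                        have k365 : e12 ≤ e19 := le_trans k325 k356
                        have k385 : e13 ≤ e19 := L3 l13 k355 k365
                        by_cases k387 : e19 ≤ e13
                        · have k388 : e18 ≤ e13 := le_trans k356 k387
                          obtain ⟨e20, l20⟩ := ZE h2 k329 k352 g11
                          have c20 : Core e0 e20 := CZ g11 k352 l20
                          have k399 : e11 ≤ e20 := L1 l20
                          have k400 : e18 ≤ e20 := L2 l20
                          have k405 : e20 ≤ e10 := L3 l20 k129 k329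
                          have k406 : e20 ≤ e13 := L3 l20 k180 k388
                          have k410 : e12 ≤ e20 := le_trans k325 k400
                          have k417 : ¬ e6 ≤ e20 := N2 k115 k405
                          have k419 : ¬ e13 ≤ e20 := N1 k417 k173
                          have k434 : ¬ e20 ≤ e17 := N1 k327 k400
                          have k436 : e17 ≤ e20 := L3 l17 k399 k410
                          exact HL _ _ _ _ _ _ c11 c17 c20 c13 c16 c4 (LT k292 k322) (LT k436 k434) (LT k406 k419) (LT k286 k283) (LT k259 k269)
                        · have k389 : e9 ≤ e19 := Classical.byContradiction fun hn => HL _ _ _ _ _ _ c2 c6 c13 c19 c9 c4 (LT k44 k53) (LT k173 k194) (LT k385 k387) (LT k360 hn) (LT k93 k99)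
                          have k390 : e3 ≤ e19 := le_trans k97 k389
                          obtain ⟨e20, l20⟩ := ZE h2 k329 k352 g11
                          have c20 : Core e0 e20 := CZ g11 k352 l20
                          have k396 : e11 ≤ e20 := L1 l20
                          have k397 : e18 ≤ e20 := L2 l20
                          have k398 : e20 ≤ e4 := L3 l20 k133 k332
                          have k401 : e20 ≤ e9 := L3 l20 k147 k334
                          have k402 : e20 ≤ e10 := L3 l20 k129 k329
                          have k406 : e12 ≤ e20 := le_trans k325 k397
                          have k412 : ¬ e6 ≤ e20 := N2 k115 k402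
                          have k413 : ¬ e9 ≤ e20 := N1 k412 k91
                          have k428 : ¬ e20 ≤ e17 := N1 k327 k397
                          have k430 : e17 ≤ e20 := L3 l17 k396 k406
                          obtain ⟨e21, q21⟩ : ∃ y, f e20 = y := ⟨_, rfl⟩
                          have k433 : e18 ≤ e21 := MO hf q18 q21 k430
                          have k434 : ¬ e20 ≤ e21 := FA hF q21
                          have k435 : ¬ e21 ≤ e20 := FB hG q21
                          have k436 : e21 ≤ e5 := MO hf q21 q5 k398
                          have k437 : e21 ≤ e10 := MO hf q21 q10 k401
                          have k438 : ¬ e11 ≤ e21 := L5 l20 k433 k434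
                          by_cases k459 : ∃ z, IsGLB ({e0, e21} : Set P) z
                          · obtain ⟨e22, g22⟩ := k459
                            have c22 : Core e0 e22 := CM g22
                            have k462 : e22 ≤ e0 := G1 g22
                            have k463 : e22 ≤ e21 := G2 g22
                            have k471 : e22 ≤ e10 := le_trans k463 k437
                            have k487 : ¬ e11 ≤ e22 := N2 k438 k463
                            have k494 : e22 ≤ e11 := G3 g11 k462 k471
                            exact HL _ _ _ _ _ _ c22 c11 c17 c20 c9 c4 (LT k494 k487) (LT k292 k322) (LT k430 k428) (LT k401 k413) (LT k93 k99)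
                          · obtain ⟨e22, l22⟩ := (h1 e21).resolve_right k459
                            have c22 : Core e0 e22 := CJ k459 l22
                            have k462 : e0 ≤ e22 := L1 l22
                            have k463 : e21 ≤ e22 := L2 l22
                            have k466 : e6 ≤ e22 := le_trans k42 k462
                            have k469 : e18 ≤ e22 := le_trans k433 k463
                            have k491 : e19 ≤ e22 := L3 l19 k466 k469
                            have k493 : e3 ≤ e22 := le_trans k390 k491
                            have k498 : e4 ≤ e22 := L3 l4 k462 k493
                            have k501 : e22 ≤ e4 := Classical.byContradiction fun hn => HL _ _ _ _ _ _ c2 c6 c13 c16 c4 c22 (LT k44 k53) (LT k173 k194) (LT k286 k283) (LT k259 k269) (LT k498 hn)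
                            have k504 : e21 ≤ e4 := le_trans k463 k501
                            obtain ⟨e23, l23⟩ := ZE h2 k436 k459 g6
                            have c23 : Core e0 e23 := CZ g6 k459 l23
                            have k510 : e6 ≤ e23 := L1 l23
                            have k511 : e21 ≤ e23 := L2 l23
                            have k512 : e23 ≤ e4 := L3 l23 k47 k504
                            have k513 : e23 ≤ e5 := L3 l23 k43 k436
                            have k520 : e18 ≤ e23 := le_trans k433 k511
                            have k521 : ¬ e0 ≤ e23 := N2 k34 k513
                            have k522 : ¬ e4 ≤ e23 := N1 k521 k21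
                            have k545 : e19 ≤ e23 := L3 l19 k510 k520
                            have k549 : e9 ≤ e23 := le_trans k389 k545
                            have k552 : e23 ≤ e9 := Classical.byContradiction fun hn => HL _ _ _ _ _ _ c2 c6 c13 c9 c23 c4 (LT k44 k53) (LT k173 k194) (LT k178 k196) (LT k549 hn) (LT k512 k522)
                            have k555 : e21 ≤ e9 := le_trans k511 k552
                            obtain ⟨e24, l24⟩ := ZE h2 k437 k459 g11
                            have c24 : Core e0 e24 := CZ g11 k459 l24
                            have k561 : e11 ≤ e24 := L1 l24
                            have k562 : e21 ≤ e24 := L2 l24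
                            have k566 : e24 ≤ e9 := L3 l24 k147 k555
                            have k567 : e24 ≤ e10 := L3 l24 k129 k437
                            have k574 : e18 ≤ e24 := le_trans k433 k562
                            have k581 : ¬ e6 ≤ e24 := N2 k115 k567
                            have k582 : ¬ e9 ≤ e24 := N1 k581 k91
                            have k600 : ¬ e24 ≤ e20 := N1 k435 k562
                            have k603 : e20 ≤ e24 := L3 l20 k561 k574
                            exact HL _ _ _ _ _ _ c11 c17 c20 c24 c9 c4 (LT k292 k322) (LT k430 k428) (LT k603 k600) (LT k566 k582) (LT k93 k99)
              · obtain ⟨e11, l11⟩ := (h1 e10).resolve_right k125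
                have c11 : Core e0 e11 := CJ k125 l11
                have k128 : e0 ≤ e11 := L1 l11
                have k129 : e10 ≤ e11 := L2 l11
                have k132 : e6 ≤ e11 := le_trans k42 k128
                have k133 : e3 ≤ e11 := le_trans k110 k129
                have k134 : e7 ≤ e11 := le_trans k111 k129
                have k144 : e4 ≤ e11 := L3 l4 k128 k133
                have k146 : e9 ≤ e11 := L3 l9 k132 k134
                by_cases k147 : e11 ≤ e4
                · have k149 : e10 ≤ e4 := le_trans k129 k147
                  obtain ⟨e12, l12⟩ := ZE h2 k114 k125 g6
                  have c12 : Core e0 e12 := CZ g6 k125 l12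
                  have k154 : e6 ≤ e12 := L1 l12
                  have k155 : e10 ≤ e12 := L2 l12
                  have k156 : e12 ≤ e4 := L3 l12 k47 k149
                  have k157 : e12 ≤ e5 := L3 l12 k43 k114
                  have k160 : e2 ≤ e12 := le_trans k44 k154
                  have k162 : e7 ≤ e12 := le_trans k111 k155
                  have k163 : ¬ e0 ≤ e12 := N2 k34 k157
                  have k164 : ¬ e4 ≤ e12 := N1 k163 k21
                  have k175 : ¬ e12 ≤ e9 := N1 k113 k155
                  have k177 : e9 ≤ e12 := L3 l9 k154 k162
                  obtain ⟨e13, q13⟩ : ∃ y, f e12 = y := ⟨_, rfl⟩
                  have k179 : e3 ≤ e13 := MO hf q3 q13 k160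
                  have k181 : e10 ≤ e13 := MO hf q10 q13 k177
                  have k182 : ¬ e12 ≤ e13 := FA hF q13
                  have k183 : ¬ e13 ≤ e12 := FB hG q13
                  have k184 : e13 ≤ e5 := MO hf q13 q5 k156
                  have k185 : ¬ e6 ≤ e13 := L5 l12 k181 k182
                  by_cases k199 : ∃ z, IsGLB ({e0, e13} : Set P) z
                  · obtain ⟨e14, g14⟩ := k199
                    have c14 : Core e0 e14 := CM g14
                    have k202 : e14 ≤ e0 := G1 g14
                    have k203 : e14 ≤ e13 := G2 g14
                    have k206 : ¬ e14 ≤ e10 := BN3 g14 k125 k181
                    have k208 : e14 ≤ e4 := le_trans k202 k21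
                    have k211 : e14 ≤ e5 := le_trans k203 k184
                    have k225 : e14 ≤ e6 := G3 g6 k202 k211
                    have k226 : e14 ≤ e9 := le_trans k225 k91
                    have k227 : e14 ≤ e12 := le_trans k225 k154
                    obtain ⟨e15, q15⟩ : ∃ y, f e14 = y := ⟨_, rfl⟩
                    have k230 : ¬ e15 ≤ e14 := FB hG q15
                    have k231 : e15 ≤ e1 := MO hf q15 q1 k202
                    have k232 : e15 ≤ e5 := MO hf q15 q5 k208
                    have k233 : e15 ≤ e7 := MO hf q15 q7 k225
                    have k235 : e15 ≤ e13 := MO hf q15 q13 k227
                    have k236 : ¬ e15 ≤ e0 := G5 g14 k235 k230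
                    have k237 : e15 ≤ e4 := le_trans k233 k87
                    have k239 : e15 ≤ e9 := le_trans k233 k92
                    have k241 : e15 ≤ e12 := le_trans k233 k162
                    have k255 : ¬ e15 ≤ e6 := N2 k236 k42
                    by_cases k256 : ∃ z, IsGLB ({e0, e15} : Set P) z
                    · obtain ⟨e16, g16⟩ := k256
                      have c16 : Core e0 e16 := CM g16
                      have k259 : e16 ≤ e0 := G1 g16
                      have k260 : e16 ≤ e15 := G2 g16
                      have k265 : e16 ≤ e1 := le_trans k260 k231
                      have k267 : e16 ≤ e7 := le_trans k260 k233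
                      have k278 : ¬ e2 ≤ e16 := N2 k68 k267
                      have k288 : e16 ≤ e2 := G3 g2 k259 k265
                      exact HL _ _ _ _ _ _ c16 c2 c6 c9 c12 c4 (LT k288 k278) (LT k44 k53) (LT k91 k105) (LT k177 k175) (LT k156 k164)
                    · obtain ⟨e16, l16⟩ := ZE h2 k232 k256 g6
                      have c16 : Core e0 e16 := CZ g6 k256 l16
                      have k259 : e6 ≤ e16 := L1 l16
                      have k260 : e15 ≤ e16 := L2 l16
                      have k264 : e16 ≤ e9 := L3 l16 k91 k239
                      have k286 : ¬ e16 ≤ e6 := N1 k255 k260
                      have k288 : e9 ≤ e16 := Classical.byContradiction fun hn => HL _ _ _ _ _ _ c2 c6 c16 c9 c12 c4 (LT k44 k53) (LT k259 k286) (LT k264 hn) (LT k177 k175) (LT k156 k164)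
                      have k289 : e3 ≤ e16 := le_trans k97 k288
                      obtain ⟨e17, l17⟩ := ZE h2 k235 k256 g14
                      have c17 : Core e0 e17 := CZ g14 k256 l17
                      have k293 : e14 ≤ e17 := L1 l17
                      have k294 : e15 ≤ e17 := L2 l17
                      have k295 : e17 ≤ e4 := L3 l17 k208 k237
                      have k298 : e17 ≤ e9 := L3 l17 k226 k239
                      have k300 : e17 ≤ e12 := L3 l17 k227 k241
                      have k301 : e17 ≤ e13 := L3 l17 k203 k235
                      have k308 : ¬ e6 ≤ e17 := N2 k185 k301
                      have k309 : ¬ e9 ≤ e17 := N1 k308 k91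
                      have k321 : ¬ e17 ≤ e14 := N1 k230 k294
                      obtain ⟨e18, q18⟩ : ∃ y, f e17 = y := ⟨_, rfl⟩
                      have k324 : e15 ≤ e18 := MO hf q15 q18 k293
                      have k326 : ¬ e18 ≤ e17 := FB hG q18
                      have k327 : e18 ≤ e5 := MO hf q18 q5 k295
                      have k328 : e18 ≤ e10 := MO hf q18 q10 k298
                      have k329 : e18 ≤ e13 := MO hf q18 q13 k300
                      have k331 : e18 ≤ e4 := le_trans k328 k149
                      have k334 : e18 ≤ e12 := le_trans k328 k155
                      by_cases k350 : ∃ z, IsGLB ({e0, e18} : Set P) z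
                      · obtain ⟨e19, g19⟩ := k350
                        have c19 : Core e0 e19 := CM g19
                        have k353 : e19 ≤ e0 := G1 g19
                        have k354 : e19 ≤ e18 := G2 g19
                        have k361 : e19 ≤ e10 := le_trans k354 k328
                        have k363 : e19 ≤ e13 := le_trans k354 k329
                        have k378 : ¬ e14 ≤ e19 := N2 k206 k361
                        have k383 : e19 ≤ e14 := G3 g14 k353 k363
                        exact HL _ _ _ _ _ _ c19 c14 c17 c9 c12 c4 (LT k383 k378) (LT k293 k321) (LT k298 k309) (LT k177 k175) (LT k156 k164)
                      · obtain ⟨e19, l19⟩ := ZE h2 k327 k350 g6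
                        have c19 : Core e0 e19 := CZ g6 k350 l19
                        have k353 : e6 ≤ e19 := L1 l19
                        have k354 : e18 ≤ e19 := L2 l19
                        have k359 : e19 ≤ e12 := L3 l19 k154 k334
                        have k362 : e15 ≤ e19 := le_trans k324 k354
                        have k382 : e16 ≤ e19 := L3 l16 k353 k362
                        have k386 : e9 ≤ e19 := le_trans k288 k382
                        by_cases k387 : e19 ≤ e9
                        · have k389 : e18 ≤ e9 := le_trans k354 k387
                          obtain ⟨e20, l20⟩ := ZE h2 k329 k350 g14
                          have c20 : Core e0 e20 := CZ g14 k350 l20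
                          have k396 : e14 ≤ e20 := L1 l20
                          have k397 : e18 ≤ e20 := L2 l20
                          have k401 : e20 ≤ e9 := L3 l20 k226 k389
                          have k404 : e20 ≤ e13 := L3 l20 k203 k329
                          have k407 : e15 ≤ e20 := le_trans k324 k397
                          have k413 : ¬ e6 ≤ e20 := N2 k185 k404
                          have k414 : ¬ e9 ≤ e20 := N1 k413 k91
                          have k429 : ¬ e20 ≤ e17 := N1 k326 k397
                          have k431 : e17 ≤ e20 := L3 l17 k396 k407
                          exact HL _ _ _ _ _ _ c14 c17 c20 c9 c12 c4 (LT k293 k321) (LT k431 k429) (LT k401 k414) (LT k177 k175) (LT k156 k164)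
                        · have k393 : e12 ≤ e19 := Classical.byContradiction fun hn => HL _ _ _ _ _ _ c2 c6 c9 c19 c12 c4 (LT k44 k53) (LT k91 k105) (LT k386 k387) (LT k359 hn) (LT k156 k164)
                          obtain ⟨e20, l20⟩ := ZE h2 k329 k350 g14
                          have c20 : Core e0 e20 := CZ g14 k350 l20
                          have k397 : e14 ≤ e20 := L1 l20
                          have k398 : e18 ≤ e20 := L2 l20
                          have k399 : e20 ≤ e4 := L3 l20 k208 k331
                          have k403 : e20 ≤ e12 := L3 l20 k227 k334
                          have k404 : e20 ≤ e13 := L3 l20 k203 k329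
                          have k406 : e15 ≤ e20 := le_trans k324 k398
                          have k412 : ¬ e6 ≤ e20 := N2 k185 k404
                          have k414 : ¬ e12 ≤ e20 := N1 k412 k154
                          have k429 : ¬ e20 ≤ e17 := N1 k326 k398
                          have k431 : e17 ≤ e20 := L3 l17 k397 k406
                          obtain ⟨e21, q21⟩ : ∃ y, f e20 = y := ⟨_, rfl⟩
                          have k433 : e15 ≤ e21 := MO hf q15 q21 k397
                          have k434 : e18 ≤ e21 := MO hf q18 q21 k431
                          have k435 : ¬ e20 ≤ e21 := FA hF q21
                          have k436 : ¬ e21 ≤ e20 := FB hG q21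
                          have k437 : e21 ≤ e5 := MO hf q21 q5 k399
                          have k438 : e21 ≤ e13 := MO hf q21 q13 k403
                          have k439 : ¬ e14 ≤ e21 := L5 l20 k434 k435
                          by_cases k463 : ∃ z, IsGLB ({e0, e21} : Set P) z
                          · obtain ⟨e22, g22⟩ := k463
                            have c22 : Core e0 e22 := CM g22
                            have k466 : e22 ≤ e0 := G1 g22
                            have k467 : e22 ≤ e21 := G2 g22
                            have k475 : e22 ≤ e13 := le_trans k467 k438
                            have k491 : ¬ e14 ≤ e22 := N2 k439 k467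
                            have k498 : e22 ≤ e14 := G3 g14 k466 k475
                            exact HL _ _ _ _ _ _ c22 c14 c17 c20 c12 c4 (LT k498 k491) (LT k293 k321) (LT k431 k429) (LT k403 k414) (LT k156 k164)
                          · obtain ⟨e22, l22⟩ := (h1 e21).resolve_right k463
                            have c22 : Core e0 e22 := CJ k463 l22
                            have k466 : e0 ≤ e22 := L1 l22
                            have k467 : e21 ≤ e22 := L2 l22
                            have k470 : e6 ≤ e22 := le_trans k42 k466
                            have k472 : e15 ≤ e22 := le_trans k433 k467
                            have k493 : e16 ≤ e22 := L3 l16 k470 k472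
                            have k497 : e3 ≤ e22 := le_trans k289 k493
                            have k502 : e4 ≤ e22 := L3 l4 k466 k497
                            have k505 : e22 ≤ e4 := Classical.byContradiction fun hn => HL _ _ _ _ _ _ c2 c6 c9 c12 c4 c22 (LT k44 k53) (LT k91 k105) (LT k177 k175) (LT k156 k164) (LT k502 hn)
                            have k508 : e21 ≤ e4 := le_trans k467 k505
                            obtain ⟨e23, l23⟩ := ZE h2 k437 k463 g6
                            have c23 : Core e0 e23 := CZ g6 k463 l23
                            have k514 : e6 ≤ e23 := L1 l23
                            have k515 : e21 ≤ e23 := L2 l23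
                            have k516 : e23 ≤ e4 := L3 l23 k47 k508
                            have k517 : e23 ≤ e5 := L3 l23 k43 k437
                            have k524 : e18 ≤ e23 := le_trans k434 k515
                            have k525 : ¬ e0 ≤ e23 := N2 k34 k517
                            have k526 : ¬ e4 ≤ e23 := N1 k525 k21
                            have k550 : e19 ≤ e23 := L3 l19 k514 k524
                            have k556 : e12 ≤ e23 := le_trans k393 k550
                            have k557 : e23 ≤ e12 := Classical.byContradiction fun hn => HL _ _ _ _ _ _ c2 c6 c9 c12 c23 c4 (LT k44 k53) (LT k91 k105) (LT k177 k175) (LT k556 hn) (LT k516 k526)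
                            have k559 : e21 ≤ e12 := le_trans k515 k557
                            obtain ⟨e24, l24⟩ := ZE h2 k438 k463 g14
                            have c24 : Core e0 e24 := CZ g14 k463 l24
                            have k564 : e14 ≤ e24 := L1 l24
                            have k565 : e21 ≤ e24 := L2 l24
                            have k570 : e24 ≤ e12 := L3 l24 k227 k559
                            have k571 : e24 ≤ e13 := L3 l24 k203 k438
                            have k576 : e18 ≤ e24 := le_trans k434 k565
                            have k583 : ¬ e6 ≤ e24 := N2 k185 k571
                            have k585 : ¬ e12 ≤ e24 := N1 k583 k154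
                            have k603 : ¬ e24 ≤ e20 := N1 k436 k565
                            have k606 : e20 ≤ e24 := L3 l20 k564 k576
                            exact HL _ _ _ _ _ _ c14 c17 c20 c24 c12 c4 (LT k293 k321) (LT k431 k429) (LT k606 k603) (LT k570 k585) (LT k156 k164)
                  · obtain ⟨e14, l14⟩ := (h1 e13).resolve_right k199
                    have c14 : Core e0 e14 := CJ k199 l14
                    have k202 : e0 ≤ e14 := L1 l14
                    have k203 : e13 ≤ e14 := L2 l14
                    have k207 : e3 ≤ e14 := le_trans k179 k203
                    have k221 : e4 ≤ e14 := L3 l4 k202 k207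
                    have k226 : e14 ≤ e4 := Classical.byContradiction fun hn => HL _ _ _ _ _ _ c2 c6 c9 c12 c4 c14 (LT k44 k53) (LT k91 k105) (LT k177 k175) (LT k156 k164) (LT k221 hn)
                    have k229 : e13 ≤ e4 := le_trans k203 k226
                    obtain ⟨e15, l15⟩ := ZE h2 k184 k199 g6
                    have c15 : Core e0 e15 := CZ g6 k199 l15
                    have k235 : e6 ≤ e15 := L1 l15
                    have k236 : e13 ≤ e15 := L2 l15
                    have k237 : e15 ≤ e4 := L3 l15 k47 k229
                    have k238 : e15 ≤ e5 := L3 l15 k43 k184
                    have k245 : e10 ≤ e15 := le_trans k181 k236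
                    have k246 : ¬ e0 ≤ e15 := N2 k34 k238
                    have k247 : ¬ e4 ≤ e15 := N1 k246 k21
                    have k261 : ¬ e15 ≤ e12 := N1 k183 k236
                    have k264 : e12 ≤ e15 := L3 l12 k235 k245
                    exact HL _ _ _ _ _ _ c2 c6 c9 c12 c15 c4 (LT k44 k53) (LT k91 k105) (LT k177 k175) (LT k264 k261) (LT k237 k247)
                · obtain ⟨e12, q12⟩ : ∃ y, f e11 = y := ⟨_, rfl⟩
                  have k152 : e1 ≤ e12 := MO hf q1 q12 k128
                  have k154 : e5 ≤ e12 := MO hf q5 q12 k144
                  have k155 : e7 ≤ e12 := MO hf q7 q12 k132
                  have k156 : e10 ≤ e12 := MO hf q10 q12 k146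
                  have k157 : ¬ e11 ≤ e12 := FA hF q12
                  have k158 : ¬ e12 ≤ e11 := FB hG q12
                  have k159 : ¬ e0 ≤ e12 := L5 l11 k156 k157
                  have k160 : e2 ≤ e12 := le_trans k7 k152
                  have k161 : e6 ≤ e12 := le_trans k43 k154
                  by_cases k175 : ∃ z, IsGLB ({e0, e12} : Set P) z
                  · obtain ⟨e13, g13⟩ := k175
                    have c13 : Core e0 e13 := CM g13
                    obtain ⟨e14, l14⟩ := ZE h2 k155 k67 g13
                    have c14 : Core e0 e14 := CZ g13 k67 l14
                    have k180 : e13 ≤ e0 := G1 g13
                    have k181 : e13 ≤ e12 := G2 g13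
                    have k182 : e2 ≤ e13 := G3 g13 k6 k160
                    have k183 : e6 ≤ e13 := G3 g13 k42 k161
                    have k193 : e13 ≤ e11 := le_trans k180 k128
                    have k197 : ¬ e0 ≤ e13 := N2 k159 k181
                    have k211 : ¬ e3 ≤ e13 := N2 k15 k180
                    have k215 : ¬ e9 ≤ e13 := N1 k211 k97
                    have k220 : ¬ e13 ≤ e2 := N1 k53 k183
                    have k230 : e13 ≤ e6 := Classical.byContradiction fun hn => HL _ _ _ _ _ _ c2 c6 c13 c0 c4 c11 (LT k44 k53) (LT k183 hn) (LT k180 k197) (LT k21 k28) (LT k144 k147)
                    have k231 : e13 ≤ e5 := le_trans k230 k43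
                    have k232 : e13 ≤ e9 := le_trans k230 k91
                    obtain ⟨e15, l15⟩ := ZE h2 k156 k125 g13
                    have c15 : Core e0 e15 := CZ g13 k125 l15
                    have k237 : e13 ≤ e15 := L1 l15
                    have k238 : e10 ≤ e15 := L2 l15
                    have k239 : e15 ≤ e5 := L3 l15 k231 k114
                    have k240 : e15 ≤ e11 := L3 l15 k193 k129
                    have k243 : e7 ≤ e15 := le_trans k111 k238
                    have k245 : e6 ≤ e15 := le_trans k183 k237
                    have k246 : ¬ e0 ≤ e15 := N2 k34 k239
                    have k249 : ¬ e11 ≤ e15 := N1 k246 k128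
                    have k260 : ¬ e15 ≤ e9 := N1 k113 k238
                    have k264 : e9 ≤ e15 := L3 l9 k245 k243
                    obtain ⟨e16, q16⟩ : ∃ y, f e15 = y := ⟨_, rfl⟩
                    have k269 : e10 ≤ e16 := MO hf q10 q16 k264
                    have k270 : ¬ e15 ≤ e16 := FA hF q16
                    have k271 : ¬ e16 ≤ e15 := FB hG q16
                    have k272 : e16 ≤ e12 := MO hf q16 q12 k240
                    have k273 : ¬ e13 ≤ e16 := L5 l15 k269 k270
                    have k289 : ¬ e6 ≤ e16 := N1 k273 k230
                    by_cases k294 : ∃ z, IsGLB ({e0, e16} : Set P) z
                    · obtain ⟨e17, g17⟩ := k294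
                      have c17 : Core e0 e17 := CM g17
                      have k297 : e17 ≤ e0 := G1 g17
                      have k298 : e17 ≤ e16 := G2 g17
                      have k301 : ¬ e17 ≤ e10 := BN3 g17 k125 k269
                      have k305 : e17 ≤ e11 := le_trans k297 k128
                      have k306 : e17 ≤ e12 := le_trans k298 k272
                      have k321 : ¬ e6 ≤ e17 := N2 k289 k298
                      have k323 : e17 ≤ e13 := G3 g13 k297 k306
                      have k325 : e17 ≤ e6 := le_trans k323 k230
                      have k326 : e17 ≤ e9 := le_trans k323 k232
                      have k328 : e17 ≤ e15 := le_trans k323 k237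
                      obtain ⟨e18, q18⟩ : ∃ y, f e17 = y := ⟨_, rfl⟩
                      have k331 : ¬ e18 ≤ e17 := FB hG q18
                      have k332 : e18 ≤ e1 := MO hf q18 q1 k297
                      have k334 : e18 ≤ e7 := MO hf q18 q7 k325
                      have k336 : e18 ≤ e12 := MO hf q18 q12 k305
                      have k337 : e18 ≤ e16 := MO hf q18 q16 k328
                      have k338 : ¬ e18 ≤ e0 := G5 g17 k337 k331
                      have k341 : e18 ≤ e9 := le_trans k334 k92
                      have k342 : e18 ≤ e11 := le_trans k334 k134
                      have k344 : e18 ≤ e15 := le_trans k334 k243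
                      have k361 : ¬ e18 ≤ e6 := N2 k338 k42
                      by_cases k363 : ∃ z, IsGLB ({e0, e18} : Set P) z
                      · obtain ⟨e19, g19⟩ := k363
                        have c19 : Core e0 e19 := CM g19
                        have k366 : e19 ≤ e0 := G1 g19
                        have k367 : e19 ≤ e18 := G2 g19
                        have k372 : e19 ≤ e1 := le_trans k367 k332
                        have k374 : e19 ≤ e7 := le_trans k367 k334
                        have k388 : ¬ e2 ≤ e19 := N2 k68 k374
                        have k400 : e19 ≤ e2 := G3 g2 k366 k372
                        exact HL _ _ _ _ _ _ c19 c2 c6 c0 c4 c11 (LT k400 k388) (LT k44 k53) (LT k42 k48) (LT k21 k28) (LT k144 k147)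
                      · obtain ⟨e19, l19⟩ := ZE h2 k336 k363 g13
                        have c19 : Core e0 e19 := CZ g13 k363 l19
                        have k366 : e13 ≤ e19 := L1 l19
                        have k367 : e18 ≤ e19 := L2 l19
                        have k371 : e19 ≤ e9 := L3 l19 k232 k341
                        have k377 : e6 ≤ e19 := le_trans k183 k366
                        have k397 : ¬ e19 ≤ e6 := N1 k361 k367
                        have k400 : e9 ≤ e19 := Classical.byContradiction fun hn => HL _ _ _ _ _ _ c2 c6 c19 c9 c4 c11 (LT k44 k53) (LT k377 k397) (LT k371 hn) (LT k93 k99) (LT k144 k147)
                        obtain ⟨e20, l20⟩ := ZE h2 k337 k363 g17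
                        have c20 : Core e0 e20 := CZ g17 k363 l20
                        have k406 : e17 ≤ e20 := L1 l20
                        have k407 : e18 ≤ e20 := L2 l20
                        have k411 : e20 ≤ e9 := L3 l20 k326 k341
                        have k412 : e20 ≤ e11 := L3 l20 k305 k342
                        have k415 : e20 ≤ e15 := L3 l20 k328 k344
                        have k440 : ¬ e20 ≤ e17 := N1 k331 k407
                        obtain ⟨e21, q21⟩ : ∃ y, f e20 = y := ⟨_, rfl⟩
                        have k443 : e18 ≤ e21 := MO hf q18 q21 k406
                        have k445 : ¬ e21 ≤ e20 := FB hG q21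
                        have k447 : e21 ≤ e10 := MO hf q21 q10 k411
                        have k448 : e21 ≤ e12 := MO hf q21 q12 k412
                        have k449 : e21 ≤ e16 := MO hf q21 q16 k415
                        have k451 : e21 ≤ e11 := le_trans k447 k129
                        have k452 : e21 ≤ e15 := le_trans k447 k238
                        by_cases k472 : ∃ z, IsGLB ({e0, e21} : Set P) z
                        · obtain ⟨e22, g22⟩ := k472
                          have c22 : Core e0 e22 := CM g22
                          have k475 : e22 ≤ e0 := G1 g22
                          have k476 : e22 ≤ e21 := G2 g22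
                          have k483 : e22 ≤ e10 := le_trans k476 k447
                          have k486 : e22 ≤ e16 := le_trans k476 k449
                          have k504 : ¬ e17 ≤ e22 := N2 k301 k483
                          have k510 : e22 ≤ e17 := G3 g17 k475 k486
                          exact HL _ _ _ _ _ _ c22 c17 c6 c0 c4 c11 (LT k510 k504) (LT k325 k321) (LT k42 k48) (LT k21 k28) (LT k144 k147)
                        · obtain ⟨e22, l22⟩ := ZE h2 k448 k472 g13
                          have c22 : Core e0 e22 := CZ g13 k472 l22
                          have k475 : e13 ≤ e22 := L1 l22
                          have k476 : e21 ≤ e22 := L2 l22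
                          have k480 : e22 ≤ e15 := L3 l22 k237 k452
                          have k484 : e18 ≤ e22 := le_trans k443 k476
                          have k505 : e19 ≤ e22 := L3 l19 k475 k484
                          have k509 : e9 ≤ e22 := le_trans k400 k505
                          by_cases k511 : e22 ≤ e9
                          · have k518 : e21 ≤ e9 := le_trans k476 k511
                            obtain ⟨e23, l23⟩ := ZE h2 k449 k472 g17
                            have c23 : Core e0 e23 := CZ g17 k472 l23
                            have k527 : e17 ≤ e23 := L1 l23
                            have k528 : e21 ≤ e23 := L2 l23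
                            have k532 : e23 ≤ e9 := L3 l23 k326 k518
                            have k537 : e23 ≤ e16 := L3 l23 k298 k449
                            have k540 : e18 ≤ e23 := le_trans k443 k528
                            have k547 : ¬ e6 ≤ e23 := N2 k289 k537
                            have k548 : ¬ e9 ≤ e23 := N1 k547 k91
                            have k566 : ¬ e23 ≤ e20 := N1 k445 k528
                            have k568 : e20 ≤ e23 := L3 l20 k527 k540
                            exact HL _ _ _ _ _ _ c17 c20 c23 c9 c4 c11 (LT k406 k440) (LT k568 k566) (LT k532 k548) (LT k93 k99) (LT k144 k147)
                          · have k519 : e15 ≤ e22 := Classical.byContradiction fun hn => HL _ _ _ _ _ _ c2 c6 c9 c22 c15 c11 (LT k44 k53) (LT k91 k105) (LT k509 k511) (LT k480 hn) (LT k240 k249)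
                            have k520 : e10 ≤ e22 := le_trans k238 k519
                            obtain ⟨e23, l23⟩ := ZE h2 k449 k472 g17
                            have c23 : Core e0 e23 := CZ g17 k472 l23
                            have k527 : e17 ≤ e23 := L1 l23
                            have k528 : e21 ≤ e23 := L2 l23
                            have k530 : e23 ≤ e11 := L3 l23 k305 k451
                            have k532 : e23 ≤ e15 := L3 l23 k328 k452
                            have k535 : e18 ≤ e23 := le_trans k443 k528
                            have k565 : ¬ e23 ≤ e20 := N1 k445 k528
                            have k567 : e20 ≤ e23 := L3 l20 k527 k535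
                            obtain ⟨e24, q24⟩ : ∃ y, f e23 = y := ⟨_, rfl⟩
                            have k570 : e21 ≤ e24 := MO hf q21 q24 k567
                            have k571 : ¬ e23 ≤ e24 := FA hF q24
                            have k572 : ¬ e24 ≤ e23 := FB hG q24
                            have k573 : e24 ≤ e12 := MO hf q24 q12 k530
                            have k574 : e24 ≤ e16 := MO hf q24 q16 k532
                            have k575 : ¬ e17 ≤ e24 := L5 l23 k570 k571
                            by_cases k606 : ∃ z, IsGLB ({e0, e24} : Set P) z
                            · obtain ⟨e25, g25⟩ := k606
                              have c25 : Core e0 e25 := CM g25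
                              have k609 : e25 ≤ e0 := G1 g25
                              have k610 : e25 ≤ e24 := G2 g25
                              have k618 : e25 ≤ e16 := le_trans k610 k574
                              have k637 : ¬ e17 ≤ e25 := N2 k575 k610
                              have k644 : e25 ≤ e17 := G3 g17 k609 k618
                              exact HL _ _ _ _ _ _ c25 c17 c6 c0 c4 c11 (LT k644 k637) (LT k325 k321) (LT k42 k48) (LT k21 k28) (LT k144 k147)
                            · obtain ⟨e25, l25⟩ := (h1 e24).resolve_right k606
                              have c25 : Core e0 e25 := CJ k606 l25
                              have k609 : e0 ≤ e25 := L1 l25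
                              have k610 : e24 ≤ e25 := L2 l25
                              have k614 : e13 ≤ e25 := le_trans k180 k609
                              have k617 : e21 ≤ e25 := le_trans k570 k610
                              have k644 : e22 ≤ e25 := L3 l22 k614 k617
                              have k650 : e10 ≤ e25 := le_trans k520 k644
                              have k654 : e11 ≤ e25 := L3 l11 k609 k650
                              have k655 : e25 ≤ e11 := Classical.byContradiction fun hn => HL _ _ _ _ _ _ c2 c6 c9 c15 c11 c25 (LT k44 k53) (LT k91 k105) (LT k264 k260) (LT k240 k249) (LT k654 hn)
                              have k656 : e24 ≤ e11 := le_trans k610 k655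
                              obtain ⟨e26, l26⟩ := ZE h2 k573 k606 g13
                              have c26 : Core e0 e26 := CZ g13 k606 l26
                              have k660 : e13 ≤ e26 := L1 l26
                              have k661 : e24 ≤ e26 := L2 l26
                              have k662 : e26 ≤ e11 := L3 l26 k193 k656
                              have k663 : e26 ≤ e12 := L3 l26 k181 k573
                              have k669 : e21 ≤ e26 := le_trans k570 k661
                              have k670 : ¬ e0 ≤ e26 := N2 k159 k663
                              have k673 : ¬ e11 ≤ e26 := N1 k670 k128
                              have k699 : e22 ≤ e26 := L3 l22 k660 k669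
                              have k706 : e15 ≤ e26 := le_trans k519 k699
                              have k707 : e26 ≤ e15 := Classical.byContradiction fun hn => HL _ _ _ _ _ _ c2 c6 c9 c15 c26 c11 (LT k44 k53) (LT k91 k105) (LT k264 k260) (LT k706 hn) (LT k662 k673)
                              have k711 : e24 ≤ e15 := le_trans k661 k707
                              obtain ⟨e27, l27⟩ := ZE h2 k574 k606 g17
                              have c27 : Core e0 e27 := CZ g17 k606 l27
                              have k716 : e17 ≤ e27 := L1 l27
                              have k717 : e24 ≤ e27 := L2 l27
                              have k721 : e27 ≤ e15 := L3 l27 k328 k711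
                              have k722 : e27 ≤ e16 := L3 l27 k298 k574
                              have k727 : e21 ≤ e27 := le_trans k570 k717
                              have k735 : ¬ e6 ≤ e27 := N2 k289 k722
                              have k739 : ¬ e15 ≤ e27 := N1 k735 k245
                              have k761 : ¬ e27 ≤ e23 := N1 k572 k717
                              have k764 : e23 ≤ e27 := L3 l23 k716 k727
                              exact HL _ _ _ _ _ _ c17 c20 c23 c27 c15 c11 (LT k406 k440) (LT k567 k565) (LT k764 k761) (LT k721 k739) (LT k240 k249)
                    · obtain ⟨e17, l17⟩ := (h1 e16).resolve_right k294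
                      have c17 : Core e0 e17 := CJ k294 l17
                      have k297 : e0 ≤ e17 := L1 l17
                      have k298 : e16 ≤ e17 := L2 l17
                      have k305 : e10 ≤ e17 := le_trans k269 k298
                      have k325 : e11 ≤ e17 := L3 l11 k297 k305
                      have k328 : e17 ≤ e11 := Classical.byContradiction fun hn => HL _ _ _ _ _ _ c2 c6 c9 c15 c11 c17 (LT k44 k53) (LT k91 k105) (LT k264 k260) (LT k240 k249) (LT k325 hn)
                      have k329 : e16 ≤ e11 := le_trans k298 k328
                      obtain ⟨e18, l18⟩ := ZE h2 k272 k294 g13
                      have c18 : Core e0 e18 := CZ g13 k294 l18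
                      have k333 : e13 ≤ e18 := L1 l18
                      have k334 : e16 ≤ e18 := L2 l18
                      have k335 : e18 ≤ e11 := L3 l18 k193 k329
                      have k336 : e18 ≤ e12 := L3 l18 k181 k272
                      have k342 : e10 ≤ e18 := le_trans k269 k334
                      have k343 : ¬ e0 ≤ e18 := N2 k159 k336
                      have k346 : ¬ e11 ≤ e18 := N1 k343 k128
                      have k362 : ¬ e18 ≤ e15 := N1 k271 k334
                      have k366 : e15 ≤ e18 := L3 l15 k333 k342
                      exact HL _ _ _ _ _ _ c2 c13 c9 c15 c18 c11 (LT k182 k220) (LT k232 k215) (LT k264 k260) (LT k366 k362) (LT k335 k346)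
                  · obtain ⟨e13, l13⟩ := (h1 e12).resolve_right k175
                    have c13 : Core e0 e13 := CJ k175 l13
                    have k178 : e0 ≤ e13 := L1 l13
                    have k179 : e12 ≤ e13 := L2 l13
                    have k188 : e10 ≤ e13 := le_trans k156 k179
                    have k201 : ¬ e13 ≤ e11 := N1 k158 k179
                    have k204 : e11 ≤ e13 := L3 l11 k178 k188
                    exact HL _ _ _ _ _ _ c2 c6 c0 c4 c11 c13 (LT k44 k53) (LT k42 k48) (LT k21 k28) (LT k144 k147) (LT k204 k201)
            · obtain ⟨e9, q9⟩ : ∃ y, f e8 = y := ⟨_, rfl⟩
              have k91 : e1 ≤ e9 := MO hf q1 q9 k72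
              have k93 : e5 ≤ e9 := MO hf q5 q9 k85
              have k94 : e7 ≤ e9 := MO hf q7 q9 k76
              have k95 : ¬ e8 ≤ e9 := FA hF q9
              have k96 : ¬ e9 ≤ e8 := FB hG q9
              have k97 : ¬ e0 ≤ e9 := L5 l8 k94 k95
              have k98 : e2 ≤ e9 := le_trans k7 k91
              have k99 : e6 ≤ e9 := le_trans k43 k93
              by_cases k108 : ∃ z, IsGLB ({e0, e9} : Set P) z
              · obtain ⟨e10, g10⟩ := k108
                have c10 : Core e0 e10 := CM g10
                have k111 : e10 ≤ e0 := G1 g10
                have k112 : e10 ≤ e9 := G2 g10
                have k113 : e2 ≤ e10 := G3 g10 k6 k98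
                have k114 : e6 ≤ e10 := G3 g10 k42 k99
                have k119 : e10 ≤ e8 := le_trans k111 k72
                have k120 : ¬ e0 ≤ e10 := N2 k97 k112
                have k130 : e10 ≤ e6 := Classical.byContradiction fun hn => HL _ _ _ _ _ _ c2 c6 c10 c0 c4 c8 (LT k44 k53) (LT k114 hn) (LT k111 k120) (LT k21 k28) (LT k85 k86)
                have k131 : e10 ≤ e5 := le_trans k130 k43
                obtain ⟨e11, l11⟩ := ZE h2 k94 k67 g10
                have c11 : Core e0 e11 := CZ g10 k67 l11
                have k134 : e10 ≤ e11 := L1 l11
                have k135 : e7 ≤ e11 := L2 l11
                have k136 : e11 ≤ e5 := L3 l11 k131 k61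
                have k137 : e11 ≤ e8 := L3 l11 k119 k73
                have k139 : e3 ≤ e11 := le_trans k57 k135
                have k141 : e6 ≤ e11 := le_trans k114 k134
                have k142 : ¬ e0 ≤ e11 := N2 k34 k136
                have k144 : ¬ e8 ≤ e11 := N1 k142 k72
                have k149 : ¬ e11 ≤ e6 := N1 k52 k139
                obtain ⟨e12, q12⟩ : ∃ y, f e11 = y := ⟨_, rfl⟩
                have k157 : e7 ≤ e12 := MO hf q7 q12 k141
                have k158 : ¬ e11 ≤ e12 := FA hF q12
                have k159 : ¬ e12 ≤ e11 := FB hG q12
                have k160 : e12 ≤ e9 := MO hf q12 q9 k137
                have k161 : ¬ e10 ≤ e12 := L5 l11 k157 k158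
                have k172 : ¬ e6 ≤ e12 := N1 k161 k130
                by_cases k175 : ∃ z, IsGLB ({e0, e12} : Set P) z
                · obtain ⟨e13, g13⟩ := k175
                  have c13 : Core e0 e13 := CM g13
                  have k178 : e13 ≤ e0 := G1 g13
                  have k179 : e13 ≤ e12 := G2 g13
                  have k183 : e13 ≤ e4 := le_trans k178 k21
                  have k184 : e13 ≤ e8 := le_trans k178 k72
                  have k185 : e13 ≤ e9 := le_trans k179 k160
                  have k196 : ¬ e6 ≤ e13 := N2 k172 k179
                  have k198 : e13 ≤ e10 := G3 g10 k178 k185
                  have k200 : e13 ≤ e6 := le_trans k198 k130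
                  have k201 : e13 ≤ e11 := le_trans k198 k134
                  obtain ⟨e14, q14⟩ : ∃ y, f e13 = y := ⟨_, rfl⟩
                  have k204 : ¬ e14 ≤ e13 := FB hG q14
                  have k205 : e14 ≤ e1 := MO hf q14 q1 k178
                  have k206 : e14 ≤ e5 := MO hf q14 q5 k183
                  have k207 : e14 ≤ e7 := MO hf q14 q7 k200
                  have k208 : e14 ≤ e9 := MO hf q14 q9 k184
                  have k209 : e14 ≤ e12 := MO hf q14 q12 k201
                  have k210 : ¬ e14 ≤ e0 := G5 g13 k209 k204
                  have k211 : e14 ≤ e8 := le_trans k207 k73
                  have k212 : e14 ≤ e11 := le_trans k207 k135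
                  have k225 : ¬ e14 ≤ e6 := N2 k210 k42
                  by_cases k227 : ∃ z, IsGLB ({e0, e14} : Set P) z
                  · obtain ⟨e15, g15⟩ := k227
                    have c15 : Core e0 e15 := CM g15
                    have k230 : e15 ≤ e0 := G1 g15
                    have k231 : e15 ≤ e14 := G2 g15
                    have k235 : e15 ≤ e1 := le_trans k231 k205
                    have k237 : e15 ≤ e7 := le_trans k231 k207
                    have k247 : ¬ e2 ≤ e15 := N2 k68 k237
                    have k256 : e15 ≤ e2 := G3 g2 k230 k235
                    exact HL _ _ _ _ _ _ c15 c2 c6 c0 c4 c8 (LT k256 k247) (LT k44 k53) (LT k42 k48) (LT k21 k28) (LT k85 k86)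
                  · obtain ⟨e15, l15⟩ := ZE h2 k208 k227 g10
                    have c15 : Core e0 e15 := CZ g10 k227 l15
                    have k230 : e10 ≤ e15 := L1 l15
                    have k231 : e14 ≤ e15 := L2 l15
                    have k232 : e15 ≤ e5 := L3 l15 k131 k206
                    have k233 : e15 ≤ e8 := L3 l15 k119 k211
                    have k235 : e15 ≤ e11 := L3 l15 k134 k212
                    have k236 : e2 ≤ e15 := le_trans k113 k230
                    have k237 : e6 ≤ e15 := le_trans k114 k230
                    have k238 : e13 ≤ e15 := le_trans k198 k230
                    have k239 : ¬ e0 ≤ e15 := N2 k34 k232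
                    have k252 : ¬ e15 ≤ e6 := N1 k225 k231
                    by_cases k255 : e11 ≤ e15
                    · have k257 : e7 ≤ e15 := le_trans k135 k255
                      obtain ⟨e16, l16⟩ := ZE h2 k209 k227 g13
                      have c16 : Core e0 e16 := CZ g13 k227 l16
                      have k266 : e13 ≤ e16 := L1 l16
                      have k267 : e14 ≤ e16 := L2 l16
                      have k269 : e16 ≤ e8 := L3 l16 k184 k211
                      have k271 : e16 ≤ e11 := L3 l16 k201 k212
                      have k293 : ¬ e16 ≤ e13 := N1 k204 k267
                      obtain ⟨e17, q17⟩ : ∃ y, f e16 = y := ⟨_, rfl⟩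
                      have k296 : e14 ≤ e17 := MO hf q14 q17 k266
                      have k297 : ¬ e16 ≤ e17 := FA hF q17
                      have k298 : ¬ e17 ≤ e16 := FB hG q17
                      have k299 : e17 ≤ e9 := MO hf q17 q9 k269
                      have k300 : e17 ≤ e12 := MO hf q17 q12 k271
                      have k301 : ¬ e13 ≤ e17 := L5 l16 k296 k297
                      by_cases k320 : ∃ z, IsGLB ({e0, e17} : Set P) z
                      · obtain ⟨e18, g18⟩ := k320
                        have c18 : Core e0 e18 := CM g18
                        have k323 : e18 ≤ e0 := G1 g18
                        have k324 : e18 ≤ e17 := G2 g18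
                        have k330 : e18 ≤ e12 := le_trans k324 k300
                        have k344 : ¬ e13 ≤ e18 := N2 k301 k324
                        have k349 : e18 ≤ e13 := G3 g13 k323 k330
                        exact HL _ _ _ _ _ _ c18 c13 c6 c0 c4 c8 (LT k349 k344) (LT k200 k196) (LT k42 k48) (LT k21 k28) (LT k85 k86)
                      · obtain ⟨e18, l18⟩ := (h1 e17).resolve_right k320
                        have c18 : Core e0 e18 := CJ k320 l18
                        have k323 : e0 ≤ e18 := L1 l18
                        have k324 : e17 ≤ e18 := L2 l18
                        have k328 : e10 ≤ e18 := le_trans k111 k323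
                        have k330 : e14 ≤ e18 := le_trans k296 k324
                        have k348 : e15 ≤ e18 := L3 l15 k328 k330
                        have k351 : e7 ≤ e18 := le_trans k257 k348
                        have k354 : e8 ≤ e18 := L3 l8 k323 k351
                        have k355 : e18 ≤ e8 := Classical.byContradiction fun hn => HL _ _ _ _ _ _ c2 c6 c0 c4 c8 c18 (LT k44 k53) (LT k42 k48) (LT k21 k28) (LT k85 k86) (LT k354 hn)
                        have k356 : e17 ≤ e8 := le_trans k324 k355
                        obtain ⟨e19, l19⟩ := ZE h2 k299 k320 g10
                        have c19 : Core e0 e19 := CZ g10 k320 l19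
                        have k360 : e10 ≤ e19 := L1 l19
                        have k361 : e17 ≤ e19 := L2 l19
                        have k362 : e19 ≤ e8 := L3 l19 k119 k356
                        have k363 : e19 ≤ e9 := L3 l19 k112 k299
                        have k366 : e6 ≤ e19 := le_trans k114 k360
                        have k367 : e13 ≤ e19 := le_trans k198 k360
                        have k368 : e14 ≤ e19 := le_trans k296 k361
                        have k369 : ¬ e0 ≤ e19 := N2 k97 k363
                        have k371 : ¬ e8 ≤ e19 := N1 k369 k72
                        have k388 : e15 ≤ e19 := L3 l15 k360 k368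
                        have k389 : e16 ≤ e19 := L3 l16 k367 k368
                        have k392 : e11 ≤ e19 := le_trans k255 k388
                        by_cases k393 : e19 ≤ e11
                        · have k397 : e17 ≤ e11 := le_trans k361 k393
                          obtain ⟨e20, l20⟩ := ZE h2 k300 k320 g13
                          have c20 : Core e0 e20 := CZ g13 k320 l20
                          have k402 : e13 ≤ e20 := L1 l20
                          have k403 : e17 ≤ e20 := L2 l20
                          have k405 : e20 ≤ e8 := L3 l20 k184 k356
                          have k407 : e20 ≤ e11 := L3 l20 k201 k397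
                          have k408 : e20 ≤ e12 := L3 l20 k179 k300
                          have k412 : e14 ≤ e20 := le_trans k296 k403
                          have k419 : ¬ e6 ≤ e20 := N2 k172 k408
                          have k421 : ¬ e11 ≤ e20 := N1 k419 k141
                          have k436 : ¬ e20 ≤ e16 := N1 k298 k403
                          have k438 : e16 ≤ e20 := L3 l16 k402 k412
                          obtain ⟨e21, q21⟩ : ∃ y, f e20 = y := ⟨_, rfl⟩
                          have k440 : e14 ≤ e21 := MO hf q14 q21 k402
                          have k441 : e17 ≤ e21 := MO hf q17 q21 k438
                          have k442 : ¬ e20 ≤ e21 := FA hF q21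
                          have k443 : ¬ e21 ≤ e20 := FB hG q21
                          have k444 : e21 ≤ e9 := MO hf q21 q9 k405
                          have k445 : e21 ≤ e12 := MO hf q21 q12 k407
                          have k446 : ¬ e13 ≤ e21 := L5 l20 k441 k442
                          by_cases k470 : ∃ z, IsGLB ({e0, e21} : Set P) z
                          · obtain ⟨e22, g22⟩ := k470
                            have c22 : Core e0 e22 := CM g22
                            have k473 : e22 ≤ e0 := G1 g22
                            have k474 : e22 ≤ e21 := G2 g22
                            have k482 : e22 ≤ e12 := le_trans k474 k445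
                            have k498 : ¬ e13 ≤ e22 := N2 k446 k474
                            have k505 : e22 ≤ e13 := G3 g13 k473 k482
                            exact HL _ _ _ _ _ _ c22 c13 c6 c0 c4 c8 (LT k505 k498) (LT k200 k196) (LT k42 k48) (LT k21 k28) (LT k85 k86)
                          · obtain ⟨e22, l22⟩ := (h1 e21).resolve_right k470
                            have c22 : Core e0 e22 := CJ k470 l22
                            have k473 : e0 ≤ e22 := L1 l22
                            have k474 : e21 ≤ e22 := L2 l22
                            have k481 : e17 ≤ e22 := le_trans k441 k474
                            have k504 : e18 ≤ e22 := L3 l18 k473 k481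
                            have k511 : e8 ≤ e22 := le_trans k354 k504
                            have k512 : e22 ≤ e8 := Classical.byContradiction fun hn => HL _ _ _ _ _ _ c2 c6 c0 c4 c8 c22 (LT k44 k53) (LT k42 k48) (LT k21 k28) (LT k85 k86) (LT k511 hn)
                            have k514 : e21 ≤ e8 := le_trans k474 k512
                            obtain ⟨e23, l23⟩ := ZE h2 k444 k470 g10
                            have c23 : Core e0 e23 := CZ g10 k470 l23
                            have k519 : e10 ≤ e23 := L1 l23
                            have k520 : e21 ≤ e23 := L2 l23
                            have k521 : e23 ≤ e8 := L3 l23 k119 k514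
                            have k522 : e23 ≤ e9 := L3 l23 k112 k444
                            have k528 : e14 ≤ e23 := le_trans k440 k520
                            have k530 : ¬ e0 ≤ e23 := N2 k97 k522
                            have k532 : ¬ e8 ≤ e23 := N1 k530 k72
                            have k552 : e15 ≤ e23 := L3 l15 k519 k528
                            have k558 : e11 ≤ e23 := le_trans k255 k552
                            have k559 : e23 ≤ e11 := Classical.byContradiction fun hn => HL _ _ _ _ _ _ c13 c16 c20 c11 c23 c8 (LT k266 k293) (LT k438 k436) (LT k407 k421) (LT k558 hn) (LT k521 k532)
                            have k564 : e21 ≤ e11 := le_trans k520 k559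
                            obtain ⟨e24, l24⟩ := ZE h2 k445 k470 g13
                            have c24 : Core e0 e24 := CZ g13 k470 l24
                            have k570 : e13 ≤ e24 := L1 l24
                            have k571 : e21 ≤ e24 := L2 l24
                            have k575 : e24 ≤ e11 := L3 l24 k201 k564
                            have k576 : e24 ≤ e12 := L3 l24 k179 k445
                            have k583 : e17 ≤ e24 := le_trans k441 k571
                            have k591 : ¬ e6 ≤ e24 := N2 k172 k576
                            have k593 : ¬ e11 ≤ e24 := N1 k591 k141
                            have k611 : ¬ e24 ≤ e20 := N1 k443 k571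
                            have k614 : e20 ≤ e24 := L3 l20 k570 k583
                            exact HL _ _ _ _ _ _ c13 c16 c20 c24 c11 c8 (LT k266 k293) (LT k438 k436) (LT k614 k611) (LT k575 k593) (LT k137 k144)
                        · obtain ⟨e20, q20⟩ : ∃ y, f e19 = y := ⟨_, rfl⟩
                          have k400 : e7 ≤ e20 := MO hf q7 q20 k366
                          have k401 : e12 ≤ e20 := MO hf q12 q20 k392
                          have k402 : e14 ≤ e20 := MO hf q14 q20 k367
                          have k403 : e17 ≤ e20 := MO hf q17 q20 k389
                          have k404 : ¬ e19 ≤ e20 := FA hF q20
                          have k405 : ¬ e20 ≤ e19 := FB hG q20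
                          have k406 : e20 ≤ e9 := MO hf q20 q9 k362
                          have k407 : ¬ e10 ≤ e20 := L5 l19 k403 k404
                          have k408 : e13 ≤ e20 := le_trans k179 k401
                          have k422 : ¬ e6 ≤ e20 := N1 k407 k130
                          by_cases k433 : ∃ z, IsGLB ({e0, e20} : Set P) z
                          · obtain ⟨e21, g21⟩ := k433
                            have c21 : Core e0 e21 := CM g21
                            obtain ⟨e22, l22⟩ := ZE h2 k402 k227 g21
                            have c22 : Core e0 e22 := CZ g21 k227 l22
                            have k438 : e21 ≤ e0 := G1 g21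
                            have k439 : e21 ≤ e20 := G2 g21
                            have k440 : e13 ≤ e21 := G3 g21 k178 k408
                            have k450 : e21 ≤ e8 := le_trans k438 k72
                            have k452 : e21 ≤ e9 := le_trans k439 k406
                            have k475 : ¬ e6 ≤ e21 := N2 k422 k439
                            have k499 : e21 ≤ e10 := G3 g10 k438 k452
                            have k505 : e21 ≤ e6 := le_trans k499 k130
                            have k508 : e21 ≤ e19 := le_trans k499 k360
                            have k516 : e21 ≤ e13 := Classical.byContradiction fun hn => HL _ _ _ _ _ _ c13 c21 c6 c0 c4 c8 (LT k440 hn) (LT k505 k475) (LT k42 k48) (LT k21 k28) (LT k85 k86)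
                            obtain ⟨e23, l23⟩ := ZE h2 k403 k320 g21
                            have c23 : Core e0 e23 := CZ g21 k320 l23
                            have k523 : e21 ≤ e23 := L1 l23
                            have k524 : e17 ≤ e23 := L2 l23
                            have k525 : e23 ≤ e8 := L3 l23 k450 k356
                            have k529 : e23 ≤ e19 := L3 l23 k508 k361
                            have k531 : e14 ≤ e23 := le_trans k296 k524
                            have k532 : e13 ≤ e23 := le_trans k440 k523
                            have k558 : ¬ e23 ≤ e16 := N1 k298 k524
                            have k562 : e16 ≤ e23 := L3 l16 k532 k531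
                            obtain ⟨e24, q24⟩ : ∃ y, f e23 = y := ⟨_, rfl⟩
                            have k566 : e17 ≤ e24 := MO hf q17 q24 k562
                            have k567 : ¬ e23 ≤ e24 := FA hF q24
                            have k568 : ¬ e24 ≤ e23 := FB hG q24
                            have k569 : e24 ≤ e9 := MO hf q24 q9 k525
                            have k570 : e24 ≤ e20 := MO hf q24 q20 k529
                            have k571 : ¬ e21 ≤ e24 := L5 l23 k566 k567
                            have k598 : ¬ e13 ≤ e24 := N1 k571 k516
                            by_cases k603 : ∃ z, IsGLB ({e0, e24} : Set P) z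
                            · obtain ⟨e25, g25⟩ := k603
                              have c25 : Core e0 e25 := CM g25
                              have k606 : e25 ≤ e0 := G1 g25
                              have k607 : e25 ≤ e24 := G2 g25
                              have k615 : e25 ≤ e20 := le_trans k607 k570
                              have k632 : ¬ e13 ≤ e25 := N2 k598 k607
                              have k634 : ¬ e21 ≤ e25 := N1 k632 k440
                              have k641 : e25 ≤ e21 := G3 g21 k606 k615
                              exact HL _ _ _ _ _ _ c25 c21 c6 c0 c4 c8 (LT k641 k634) (LT k505 k475) (LT k42 k48) (LT k21 k28) (LT k85 k86)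
                            · obtain ⟨e25, l25⟩ := (h1 e24).resolve_right k603
                              have c25 : Core e0 e25 := CJ k603 l25
                              have k606 : e0 ≤ e25 := L1 l25
                              have k607 : e24 ≤ e25 := L2 l25
                              have k615 : e17 ≤ e25 := le_trans k566 k607
                              have k641 : e18 ≤ e25 := L3 l18 k606 k615
                              have k649 : e8 ≤ e25 := le_trans k354 k641
                              have k650 : e25 ≤ e8 := Classical.byContradiction fun hn => HL _ _ _ _ _ _ c2 c6 c11 c19 c8 c25 (LT k44 k53) (LT k141 k149) (LT k392 k393) (LT k362 k371) (LT k649 hn)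
                              have k652 : e24 ≤ e8 := le_trans k607 k650
                              obtain ⟨e26, l26⟩ := ZE h2 k569 k603 g10
                              have c26 : Core e0 e26 := CZ g10 k603 l26
                              have k657 : e10 ≤ e26 := L1 l26
                              have k658 : e24 ≤ e26 := L2 l26
                              have k659 : e26 ≤ e8 := L3 l26 k119 k652
                              have k660 : e26 ≤ e9 := L3 l26 k112 k569
                              have k668 : e17 ≤ e26 := le_trans k566 k658
                              have k669 : ¬ e0 ≤ e26 := N2 k97 k660
                              have k671 : ¬ e8 ≤ e26 := N1 k669 k72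
                              have k698 : e19 ≤ e26 := L3 l19 k657 k668
                              have k704 : e26 ≤ e19 := Classical.byContradiction fun hn => HL _ _ _ _ _ _ c2 c6 c11 c19 c26 c8 (LT k44 k53) (LT k141 k149) (LT k392 k393) (LT k698 hn) (LT k659 k671)
                              have k705 : e24 ≤ e19 := le_trans k658 k704
                              obtain ⟨e27, l27⟩ := ZE h2 k570 k603 g21
                              have c27 : Core e0 e27 := CZ g21 k603 l27
                              have k709 : e21 ≤ e27 := L1 l27
                              have k710 : e24 ≤ e27 := L2 l27
                              have k714 : e27 ≤ e19 := L3 l27 k508 k705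
                              have k715 : e27 ≤ e20 := L3 l27 k439 k570
                              have k720 : e17 ≤ e27 := le_trans k566 k710
                              have k728 : ¬ e6 ≤ e27 := N2 k422 k715
                              have k732 : ¬ e19 ≤ e27 := N1 k728 k366
                              have k752 : ¬ e27 ≤ e23 := N1 k568 k710
                              have k756 : e23 ≤ e27 := L3 l23 k709 k720
                              exact HL _ _ _ _ _ _ c13 c16 c23 c27 c19 c8 (LT k266 k293) (LT k562 k558) (LT k756 k752) (LT k714 k732) (LT k362 k371)
                          · obtain ⟨e21, l21⟩ := (h1 e20).resolve_right k433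
                            have c21 : Core e0 e21 := CJ k433 l21
                            have k436 : e0 ≤ e21 := L1 l21
                            have k437 : e20 ≤ e21 := L2 l21
                            have k444 : e7 ≤ e21 := le_trans k400 k437
                            have k469 : e8 ≤ e21 := L3 l8 k436 k444
                            have k474 : e21 ≤ e8 := Classical.byContradiction fun hn => HL _ _ _ _ _ _ c2 c6 c11 c19 c8 c21 (LT k44 k53) (LT k141 k149) (LT k392 k393) (LT k362 k371) (LT k469 hn)
                            have k478 : e20 ≤ e8 := le_trans k437 k474
                            obtain ⟨e22, l22⟩ := ZE h2 k406 k433 g10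
                            have c22 : Core e0 e22 := CZ g10 k433 l22
                            have k483 : e10 ≤ e22 := L1 l22
                            have k484 : e20 ≤ e22 := L2 l22
                            have k485 : e22 ≤ e8 := L3 l22 k119 k478
                            have k486 : e22 ≤ e9 := L3 l22 k112 k406
                            have k497 : e17 ≤ e22 := le_trans k403 k484
                            have k498 : ¬ e0 ≤ e22 := N2 k97 k486
                            have k500 : ¬ e8 ≤ e22 := N1 k498 k72
                            have k520 : ¬ e22 ≤ e19 := N1 k405 k484
                            have k524 : e19 ≤ e22 := L3 l19 k483 k497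
                            exact HL _ _ _ _ _ _ c2 c6 c11 c19 c22 c8 (LT k44 k53) (LT k141 k149) (LT k392 k393) (LT k524 k520) (LT k485 k500)
                    · have k257 : ¬ e7 ≤ e15 := L4 l11 k230 k255
                      obtain ⟨e16, q16⟩ : ∃ y, f e15 = y := ⟨_, rfl⟩
                      have k262 : e7 ≤ e16 := MO hf q7 q16 k237
                      have k263 : e14 ≤ e16 := MO hf q14 q16 k238
                      have k266 : e16 ≤ e9 := MO hf q16 q9 k233
                      have k267 : e16 ≤ e12 := MO hf q16 q12 k235
                      by_cases k284 : ∃ z, IsGLB ({e0, e16} : Set P) z
                      · obtain ⟨e17, g17⟩ := k284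
                        have c17 : Core e0 e17 := CM g17
                        have k287 : e17 ≤ e0 := G1 g17
                        have k288 : e17 ≤ e16 := G2 g17
                        have k294 : e17 ≤ e8 := le_trans k287 k72
                        have k295 : e17 ≤ e9 := le_trans k288 k266
                        have k296 : e17 ≤ e12 := le_trans k288 k267
                        have k313 : e17 ≤ e10 := G3 g10 k287 k295
                        have k314 : e17 ≤ e13 := G3 g13 k287 k296
                        have k317 : e17 ≤ e11 := le_trans k313 k134
                        have k318 : e17 ≤ e15 := le_trans k313 k230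
                        have k319 : e13 ≤ e17 := Classical.byContradiction fun hn => HL _ _ _ _ _ _ c17 c13 c6 c0 c4 c8 (LT k314 hn) (LT k200 k196) (LT k42 k48) (LT k21 k28) (LT k85 k86)
                        have k320 : e13 ≤ e16 := le_trans k319 k288
                        obtain ⟨e18, l18⟩ := (h1 e14).resolve_right k227
                        have c18 : Core e0 e18 := CJ k227 l18
                        have k323 : e0 ≤ e18 := L1 l18
                        have k324 : e14 ≤ e18 := L2 l18
                        have k325 : e18 ≤ e8 := L3 l18 k72 k211
                        have k328 : e6 ≤ e18 := le_trans k42 k323
                        have k329 : e10 ≤ e18 := le_trans k111 k323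
                        have k331 : e17 ≤ e18 := le_trans k287 k323
                        have k344 : ¬ e18 ≤ e15 := N1 k239 k323
                        have k348 : ¬ e18 ≤ e0 := N1 k210 k324
                        have k349 : e15 ≤ e18 := L3 l15 k329 k324
                        by_cases k350 : e8 ≤ e18
                        · obtain ⟨e19, l19⟩ := ZE h2 k263 k227 g17
                          have c19 : Core e0 e19 := CZ g17 k227 l19
                          have k367 : e17 ≤ e19 := L1 l19
                          have k368 : e14 ≤ e19 := L2 l19
                          have k370 : e19 ≤ e8 := L3 l19 k294 k211
                          have k372 : e19 ≤ e11 := L3 l19 k317 k212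
                          have k374 : e19 ≤ e15 := L3 l19 k318 k231
                          have k377 : e13 ≤ e19 := le_trans k319 k367
                          have k401 : ¬ e19 ≤ e13 := N1 k204 k368
                          obtain ⟨e20, q20⟩ : ∃ y, f e19 = y := ⟨_, rfl⟩
                          have k405 : e14 ≤ e20 := MO hf q14 q20 k377
                          have k406 : ¬ e19 ≤ e20 := FA hF q20
                          have k407 : ¬ e20 ≤ e19 := FB hG q20
                          have k408 : e20 ≤ e9 := MO hf q20 q9 k370
                          have k409 : e20 ≤ e12 := MO hf q20 q12 k372
                          have k410 : e20 ≤ e16 := MO hf q20 q16 k374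
                          have k411 : ¬ e17 ≤ e20 := L5 l19 k405 k406
                          have k431 : ¬ e13 ≤ e20 := N1 k411 k314
                          by_cases k434 : ∃ z, IsGLB ({e0, e20} : Set P) z
                          · obtain ⟨e21, g21⟩ := k434
                            have c21 : Core e0 e21 := CM g21
                            have k437 : e21 ≤ e0 := G1 g21
                            have k438 : e21 ≤ e20 := G2 g21
                            have k445 : e21 ≤ e12 := le_trans k438 k409
                            have k462 : ¬ e13 ≤ e21 := N2 k431 k438
                            have k468 : e21 ≤ e13 := G3 g13 k437 k445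
                            exact HL _ _ _ _ _ _ c21 c13 c6 c0 c4 c8 (LT k468 k462) (LT k200 k196) (LT k42 k48) (LT k21 k28) (LT k85 k86)
                          · obtain ⟨e21, l21⟩ := (h1 e20).resolve_right k434
                            have c21 : Core e0 e21 := CJ k434 l21
                            have k437 : e0 ≤ e21 := L1 l21
                            have k438 : e20 ≤ e21 := L2 l21
                            have k445 : e14 ≤ e21 := le_trans k405 k438
                            have k466 : e18 ≤ e21 := L3 l18 k437 k445
                            have k471 : e8 ≤ e21 := le_trans k350 k466
                            have k473 : e21 ≤ e8 := Classical.byContradiction fun hn => HL _ _ _ _ _ _ c2 c6 c0 c4 c8 c21 (LT k44 k53) (LT k42 k48) (LT k21 k28) (LT k85 k86) (LT k471 hn)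
                            have k475 : e20 ≤ e8 := le_trans k438 k473
                            obtain ⟨e22, l22⟩ := ZE h2 k408 k434 g10
                            have c22 : Core e0 e22 := CZ g10 k434 l22
                            have k480 : e10 ≤ e22 := L1 l22
                            have k481 : e20 ≤ e22 := L2 l22
                            have k482 : e22 ≤ e8 := L3 l22 k119 k475
                            have k483 : e22 ≤ e9 := L3 l22 k112 k408
                            have k487 : e6 ≤ e22 := le_trans k114 k480
                            have k488 : e13 ≤ e22 := le_trans k198 k480
                            have k489 : e17 ≤ e22 := le_trans k313 k480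
                            have k490 : e14 ≤ e22 := le_trans k405 k481
                            have k491 : ¬ e0 ≤ e22 := N2 k97 k483
                            have k493 : ¬ e8 ≤ e22 := N1 k491 k72
                            have k513 : e15 ≤ e22 := L3 l15 k480 k490
                            have k514 : e19 ≤ e22 := L3 l19 k489 k490
                            by_cases k515 : e22 ≤ e15
                            · have k520 : e20 ≤ e15 := le_trans k481 k515
                              obtain ⟨e23, l23⟩ := ZE h2 k410 k434 g17
                              have c23 : Core e0 e23 := CZ g17 k434 l23
                              have k531 : e17 ≤ e23 := L1 l23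
                              have k532 : e20 ≤ e23 := L2 l23
                              have k537 : e23 ≤ e12 := L3 l23 k296 k409
                              have k538 : e23 ≤ e15 := L3 l23 k318 k520
                              have k544 : e14 ≤ e23 := le_trans k405 k532
                              have k553 : ¬ e6 ≤ e23 := N2 k172 k537
                              have k556 : ¬ e15 ≤ e23 := N1 k553 k237
                              have k573 : ¬ e23 ≤ e19 := N1 k407 k532
                              have k575 : e19 ≤ e23 := L3 l19 k531 k544
                              exact HL _ _ _ _ _ _ c13 c19 c23 c15 c11 c8 (LT k377 k401) (LT k575 k573) (LT k538 k556) (LT k235 k255) (LT k137 k144)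
                            · obtain ⟨e23, q23⟩ : ∃ y, f e22 = y := ⟨_, rfl⟩
                              have k519 : e7 ≤ e23 := MO hf q7 q23 k487
                              have k520 : e14 ≤ e23 := MO hf q14 q23 k488
                              have k521 : e16 ≤ e23 := MO hf q16 q23 k513
                              have k522 : e20 ≤ e23 := MO hf q20 q23 k514
                              have k523 : ¬ e22 ≤ e23 := FA hF q23
                              have k524 : ¬ e23 ≤ e22 := FB hG q23
                              have k525 : e23 ≤ e9 := MO hf q23 q9 k482
                              have k526 : ¬ e10 ≤ e23 := L5 l22 k522 k523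
                              have k527 : e13 ≤ e23 := le_trans k320 k521
                              have k528 : e17 ≤ e23 := le_trans k288 k521
                              have k547 : ¬ e6 ≤ e23 := N1 k526 k130
                              by_cases k554 : ∃ z, IsGLB ({e0, e23} : Set P) z
                              · obtain ⟨e24, g24⟩ := k554
                                have c24 : Core e0 e24 := CM g24
                                obtain ⟨e25, l25⟩ := ZE h2 k520 k227 g24
                                have c25 : Core e0 e25 := CZ g24 k227 l25
                                have k559 : e24 ≤ e0 := G1 g24
                                have k560 : e24 ≤ e23 := G2 g24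
                                have k561 : e13 ≤ e24 := G3 g24 k178 k527
                                have k562 : e17 ≤ e24 := G3 g24 k287 k528
                                have k572 : e24 ≤ e8 := le_trans k559 k72
                                have k575 : e24 ≤ e9 := le_trans k560 k525
                                have k600 : ¬ e6 ≤ e24 := N2 k547 k560
                                have k627 : e24 ≤ e10 := G3 g10 k559 k575
                                have k634 : e24 ≤ e6 := le_trans k627 k130
                                have k637 : e24 ≤ e22 := le_trans k627 k480
                                have k648 : e24 ≤ e13 := Classical.byContradiction fun hn => HL _ _ _ _ _ _ c13 c24 c6 c0 c4 c8 (LT k561 hn) (LT k634 k600) (LT k42 k48) (LT k21 k28) (LT k85 k86)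
                                obtain ⟨e26, l26⟩ := ZE h2 k522 k434 g24
                                have c26 : Core e0 e26 := CZ g24 k434 l26
                                have k658 : e24 ≤ e26 := L1 l26
                                have k659 : e20 ≤ e26 := L2 l26
                                have k660 : e26 ≤ e8 := L3 l26 k572 k475
                                have k666 : e26 ≤ e22 := L3 l26 k637 k481
                                have k668 : e14 ≤ e26 := le_trans k405 k659
                                have k669 : e13 ≤ e26 := le_trans k561 k658
                                have k670 : e17 ≤ e26 := le_trans k562 k658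
                                have k697 : ¬ e26 ≤ e19 := N1 k407 k659
                                have k701 : e19 ≤ e26 := L3 l19 k670 k668
                                obtain ⟨e27, q27⟩ : ∃ y, f e26 = y := ⟨_, rfl⟩
                                have k704 : e14 ≤ e27 := MO hf q14 q27 k669
                                have k705 : e20 ≤ e27 := MO hf q20 q27 k701
                                have k706 : ¬ e26 ≤ e27 := FA hF q27
                                have k707 : ¬ e27 ≤ e26 := FB hG q27
                                have k708 : e27 ≤ e9 := MO hf q27 q9 k660
                                have k709 : e27 ≤ e23 := MO hf q27 q23 k666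
                                have k710 : ¬ e24 ≤ e27 := L5 l26 k705 k706
                                have k737 : ¬ e13 ≤ e27 := N1 k710 k648
                                by_cases k744 : ∃ z, IsGLB ({e0, e27} : Set P) z
                                · obtain ⟨e28, g28⟩ := k744
                                  have c28 : Core e0 e28 := CM g28
                                  have k747 : e28 ≤ e0 := G1 g28
                                  have k748 : e28 ≤ e27 := G2 g28
                                  have k757 : e28 ≤ e23 := le_trans k748 k709
                                  have k776 : ¬ e13 ≤ e28 := N2 k737 k748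
                                  have k779 : ¬ e24 ≤ e28 := N1 k776 k561
                                  have k786 : e28 ≤ e24 := G3 g24 k747 k757
                                  exact HL _ _ _ _ _ _ c28 c24 c6 c0 c4 c8 (LT k786 k779) (LT k634 k600) (LT k42 k48) (LT k21 k28) (LT k85 k86)
                                · obtain ⟨e28, l28⟩ := (h1 e27).resolve_right k744
                                  have c28 : Core e0 e28 := CJ k744 l28
                                  have k747 : e0 ≤ e28 := L1 l28
                                  have k748 : e27 ≤ e28 := L2 l28
                                  have k756 : e14 ≤ e28 := le_trans k704 k748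
                                  have k784 : e18 ≤ e28 := L3 l18 k747 k756
                                  have k793 : e8 ≤ e28 := le_trans k350 k784
                                  have k795 : e28 ≤ e8 := Classical.byContradiction fun hn => HL _ _ _ _ _ _ c2 c6 c15 c22 c8 c28 (LT k44 k53) (LT k237 k252) (LT k513 k515) (LT k482 k493) (LT k793 hn)
                                  have k798 : e27 ≤ e8 := le_trans k748 k795
                                  obtain ⟨e29, l29⟩ := ZE h2 k708 k744 g10
                                  have c29 : Core e0 e29 := CZ g10 k744 l29
                                  have k804 : e10 ≤ e29 := L1 l29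
                                  have k805 : e27 ≤ e29 := L2 l29
                                  have k806 : e29 ≤ e8 := L3 l29 k119 k798
                                  have k807 : e29 ≤ e9 := L3 l29 k112 k708
                                  have k817 : e20 ≤ e29 := le_trans k705 k805
                                  have k818 : ¬ e0 ≤ e29 := N2 k97 k807
                                  have k820 : ¬ e8 ≤ e29 := N1 k818 k72
                                  have k849 : e22 ≤ e29 := L3 l22 k804 k817
                                  have k852 : e29 ≤ e22 := Classical.byContradiction fun hn => HL _ _ _ _ _ _ c2 c6 c15 c22 c29 c8 (LT k44 k53) (LT k237 k252) (LT k513 k515) (LT k849 hn) (LT k806 k820)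
                                  have k853 : e27 ≤ e22 := le_trans k805 k852
                                  obtain ⟨e30, l30⟩ := ZE h2 k709 k744 g24
                                  have c30 : Core e0 e30 := CZ g24 k744 l30
                                  have k857 : e24 ≤ e30 := L1 l30
                                  have k858 : e27 ≤ e30 := L2 l30
                                  have k863 : e30 ≤ e22 := L3 l30 k637 k853
                                  have k864 : e30 ≤ e23 := L3 l30 k560 k709
                                  have k870 : e20 ≤ e30 := le_trans k705 k858
                                  have k879 : ¬ e6 ≤ e30 := N2 k547 k864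
                                  have k883 : ¬ e22 ≤ e30 := N1 k879 k487
                                  have k903 : ¬ e30 ≤ e26 := N1 k707 k858
                                  have k907 : e26 ≤ e30 := L3 l26 k857 k870
                                  exact HL _ _ _ _ _ _ c13 c19 c26 c30 c22 c8 (LT k377 k401) (LT k701 k697) (LT k907 k903) (LT k863 k883) (LT k482 k493)
                              · obtain ⟨e24, l24⟩ := (h1 e23).resolve_right k554
                                have c24 : Core e0 e24 := CJ k554 l24
                                have k557 : e0 ≤ e24 := L1 l24
                                have k558 : e23 ≤ e24 := L2 l24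
                                have k566 : e7 ≤ e24 := le_trans k519 k558
                                have k593 : e8 ≤ e24 := L3 l8 k557 k566
                                have k599 : e24 ≤ e8 := Classical.byContradiction fun hn => HL _ _ _ _ _ _ c2 c6 c15 c22 c8 c24 (LT k44 k53) (LT k237 k252) (LT k513 k515) (LT k482 k493) (LT k593 hn)
                                have k605 : e23 ≤ e8 := le_trans k558 k599
                                obtain ⟨e25, l25⟩ := ZE h2 k525 k554 g10
                                have c25 : Core e0 e25 := CZ g10 k554 l25
                                have k611 : e10 ≤ e25 := L1 l25
                                have k612 : e23 ≤ e25 := L2 l25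
                                have k613 : e25 ≤ e8 := L3 l25 k119 k605
                                have k614 : e25 ≤ e9 := L3 l25 k112 k525
                                have k627 : e20 ≤ e25 := le_trans k522 k612
                                have k628 : ¬ e0 ≤ e25 := N2 k97 k614
                                have k630 : ¬ e8 ≤ e25 := N1 k628 k72
                                have k652 : ¬ e25 ≤ e22 := N1 k524 k612
                                have k656 : e22 ≤ e25 := L3 l22 k611 k627
                                exact HL _ _ _ _ _ _ c2 c6 c15 c22 c25 c8 (LT k44 k53) (LT k237 k252) (LT k513 k515) (LT k656 k652) (LT k613 k630)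
                        · obtain ⟨e19, q19⟩ : ∃ y, f e18 = y := ⟨_, rfl⟩
                          have k358 : e1 ≤ e19 := MO hf q1 q19 k323
                          have k360 : e7 ≤ e19 := MO hf q7 q19 k328
                          have k362 : e16 ≤ e19 := MO hf q16 q19 k349
                          have k365 : e19 ≤ e9 := MO hf q19 q9 k325
                          have k367 : e2 ≤ e19 := le_trans k7 k358
                          have k368 : e13 ≤ e19 := le_trans k320 k362
                          by_cases k383 : ∃ z, IsGLB ({e0, e19} : Set P) z
                          · obtain ⟨e20, g20⟩ := k383
                            have c20 : Core e0 e20 := CM g20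
                            have k386 : e20 ≤ e0 := G1 g20
                            have k387 : e20 ≤ e19 := G2 g20
                            have k388 : e2 ≤ e20 := G3 g20 k6 k367
                            have k389 : e13 ≤ e20 := G3 g20 k178 k368
                            have k397 : e20 ≤ e18 := le_trans k386 k323
                            have k398 : e20 ≤ e9 := le_trans k387 k365
                            have k399 : ¬ e0 ≤ e20 := N2 k97 k398
                            have k412 : ¬ e14 ≤ e20 := N2 k210 k386
                            have k413 : ¬ e15 ≤ e20 := N1 k412 k231
                            have k414 : e20 ≤ e10 := G3 g10 k386 k398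
                            have k416 : e20 ≤ e6 := le_trans k414 k130
                            have k418 : e20 ≤ e15 := le_trans k414 k230
                            by_cases k419 : e20 ≤ e13
                            · have k420 : e20 ≤ e12 := le_trans k419 k179
                              have k424 : e2 ≤ e13 := le_trans k388 k419
                              have k427 : ¬ e6 ≤ e20 := N2 k172 k420
                              have k429 : e3 ≤ e14 := MO hf q3 q14 k424
                              have k430 : ¬ e6 ≤ e19 := G4 g20 k42 k427
                              have k433 : e3 ≤ e18 := le_trans k429 k324
                              have k434 : ¬ e5 ≤ e19 := N1 k430 k43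
                              have k438 : ¬ e4 ≤ e18 := NM hf q5 q19 k434
                              have k439 : e4 ≤ e18 := L3 l4 k323 k433
                              exact k438 k439
                            · have k425 : e6 ≤ e20 := Classical.byContradiction fun hn => HL _ _ _ _ _ _ c13 c20 c6 c0 c4 c8 (LT k389 k419) (LT k416 hn) (LT k42 k48) (LT k21 k28) (LT k85 k86)
                              have k426 : e10 ≤ e20 := le_trans k130 k425
                              have k427 : e6 ≤ e19 := le_trans k425 k387
                              have k428 : e10 ≤ e19 := le_trans k426 k387
                              have k431 : ¬ e20 ≤ e2 := N1 k53 k425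
                              obtain ⟨e21, l21⟩ := ZE h2 k263 k227 g17
                              have c21 : Core e0 e21 := CZ g17 k227 l21
                              have k436 : e17 ≤ e21 := L1 l21
                              have k437 : e14 ≤ e21 := L2 l21
                              have k439 : e21 ≤ e8 := L3 l21 k294 k211
                              have k441 : e21 ≤ e11 := L3 l21 k317 k212
                              have k443 : e21 ≤ e15 := L3 l21 k318 k231
                              have k445 : e21 ≤ e18 := L3 l21 k331 k324
                              have k447 : e13 ≤ e21 := le_trans k319 k436
                              have k471 : ¬ e21 ≤ e13 := N1 k204 k437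
                              obtain ⟨e22, q22⟩ : ∃ y, f e21 = y := ⟨_, rfl⟩
                              have k476 : e14 ≤ e22 := MO hf q14 q22 k447
                              have k477 : ¬ e21 ≤ e22 := FA hF q22
                              have k478 : ¬ e22 ≤ e21 := FB hG q22
                              have k479 : e22 ≤ e9 := MO hf q22 q9 k439
                              have k480 : e22 ≤ e12 := MO hf q22 q12 k441
                              have k481 : e22 ≤ e16 := MO hf q22 q16 k443
                              have k482 : e22 ≤ e19 := MO hf q22 q19 k445
                              have k483 : ¬ e17 ≤ e22 := L5 l21 k476 k477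
                              have k504 : ¬ e13 ≤ e22 := N1 k483 k314
                              by_cases k507 : ∃ z, IsGLB ({e0, e22} : Set P) z
                              · obtain ⟨e23, g23⟩ := k507
                                have c23 : Core e0 e23 := CM g23
                                have k510 : e23 ≤ e0 := G1 g23
                                have k511 : e23 ≤ e22 := G2 g23
                                have k518 : e23 ≤ e12 := le_trans k511 k480
                                have k538 : ¬ e13 ≤ e23 := N2 k504 k511
                                have k544 : e23 ≤ e13 := G3 g13 k510 k518
                                exact HL _ _ _ _ _ _ c23 c13 c20 c0 c4 c8 (LT k544 k538) (LT k389 k419) (LT k386 k399) (LT k21 k28) (LT k85 k86)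
                              · obtain ⟨e23, l23⟩ := (h1 e22).resolve_right k507
                                have c23 : Core e0 e23 := CJ k507 l23
                                have k510 : e0 ≤ e23 := L1 l23
                                have k511 : e22 ≤ e23 := L2 l23
                                have k515 : e10 ≤ e23 := le_trans k111 k510
                                have k516 : e13 ≤ e23 := le_trans k178 k510
                                have k517 : e17 ≤ e23 := le_trans k287 k510
                                have k519 : e14 ≤ e23 := le_trans k476 k511
                                have k540 : e15 ≤ e23 := L3 l15 k515 k519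
                                have k541 : e18 ≤ e23 := L3 l18 k510 k519
                                have k542 : e21 ≤ e23 := L3 l21 k517 k519
                                by_cases k543 : e23 ≤ e18
                                · have k546 : e22 ≤ e18 := le_trans k511 k543
                                  obtain ⟨e24, l24⟩ := ZE h2 k482 k507 g20
                                  have c24 : Core e0 e24 := CZ g20 k507 l24
                                  have k560 : e20 ≤ e24 := L1 l24
                                  have k561 : e22 ≤ e24 := L2 l24
                                  have k563 : e24 ≤ e9 := L3 l24 k398 k479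
                                  have k564 : e24 ≤ e18 := L3 l24 k397 k546
                                  have k569 : e10 ≤ e24 := le_trans k426 k560
                                  have k572 : e14 ≤ e24 := le_trans k476 k561
                                  have k573 : ¬ e0 ≤ e24 := N2 k97 k563
                                  have k576 : ¬ e18 ≤ e24 := N1 k573 k323
                                  have k602 : e15 ≤ e24 := L3 l15 k569 k572
                                  have k604 : e24 ≤ e15 := Classical.byContradiction fun hn => HL _ _ _ _ _ _ c2 c6 c15 c24 c18 c8 (LT k44 k53) (LT k237 k252) (LT k602 hn) (LT k564 k576) (LT k325 k350)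
                                  have k609 : e22 ≤ e15 := le_trans k561 k604
                                  obtain ⟨e25, l25⟩ := ZE h2 k481 k507 g17
                                  have c25 : Core e0 e25 := CZ g17 k507 l25
                                  have k612 : e17 ≤ e25 := L1 l25
                                  have k613 : e22 ≤ e25 := L2 l25
                                  have k618 : e25 ≤ e12 := L3 l25 k296 k480
                                  have k619 : e25 ≤ e15 := L3 l25 k318 k609
                                  have k626 : e14 ≤ e25 := le_trans k476 k613
                                  have k636 : ¬ e6 ≤ e25 := N2 k172 k618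
                                  have k639 : ¬ e15 ≤ e25 := N1 k636 k237
                                  have k656 : ¬ e25 ≤ e21 := N1 k478 k613
                                  have k658 : e21 ≤ e25 := L3 l21 k612 k626
                                  exact HL _ _ _ _ _ _ c13 c21 c25 c15 c18 c8 (LT k447 k471) (LT k658 k656) (LT k619 k639) (LT k349 k344) (LT k325 k350)
                                · have k544 : ¬ e22 ≤ e18 := L4 l23 k323 k543
                                  have k545 : ¬ e22 ≤ e15 := N2 k544 k349
                                  obtain ⟨e24, q24⟩ : ∃ y, f e23 = y := ⟨_, rfl⟩
                                  have k550 : e14 ≤ e24 := MO hf q14 q24 k516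
                                  have k551 : e16 ≤ e24 := MO hf q16 q24 k540
                                  have k552 : e19 ≤ e24 := MO hf q19 q24 k541
                                  have k553 : e22 ≤ e24 := MO hf q22 q24 k542
                                  have k554 : ¬ e23 ≤ e24 := FA hF q24
                                  have k555 : ¬ e24 ≤ e23 := FB hG q24
                                  have k556 : ¬ e0 ≤ e24 := L5 l23 k553 k554
                                  have k558 : e13 ≤ e24 := le_trans k320 k551
                                  have k559 : e17 ≤ e24 := le_trans k288 k551
                                  have k561 : e6 ≤ e24 := le_trans k427 k552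
                                  have k562 : e10 ≤ e24 := le_trans k428 k552
                                  by_cases k587 : ∃ z, IsGLB ({e0, e24} : Set P) z
                                  · obtain ⟨e25, g25⟩ := k587
                                    have c25 : Core e0 e25 := CM g25
                                    obtain ⟨e26, l26⟩ := ZE h2 k550 k227 g25
                                    have c26 : Core e0 e26 := CZ g25 k227 l26
                                    have k592 : e25 ≤ e0 := G1 g25
                                    have k593 : e25 ≤ e24 := G2 g25
                                    have k595 : e6 ≤ e25 := G3 g25 k42 k561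
                                    have k596 : e10 ≤ e25 := G3 g25 k111 k562
                                    have k597 : e13 ≤ e25 := G3 g25 k178 k558
                                    have k598 : e17 ≤ e25 := G3 g25 k287 k559
                                    have k609 : e25 ≤ e8 := le_trans k592 k72
                                    have k611 : e25 ≤ e23 := le_trans k592 k510
                                    have k618 : ¬ e0 ≤ e25 := N2 k556 k593
                                    have k681 : e25 ≤ e6 := Classical.byContradiction fun hn => HL _ _ _ _ _ _ c2 c6 c25 c0 c4 c8 (LT k44 k53) (LT k595 hn) (LT k592 k618) (LT k21 k28) (LT k85 k86)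
                                    have k683 : e25 ≤ e9 := le_trans k681 k99
                                    have k688 : e25 ≤ e20 := le_trans k681 k425
                                    obtain ⟨e27, l27⟩ := ZE h2 k553 k507 g25
                                    have c27 : Core e0 e27 := CZ g25 k507 l27
                                    have k696 : e25 ≤ e27 := L1 l27
                                    have k697 : e22 ≤ e27 := L2 l27
                                    have k698 : e27 ≤ e9 := L3 l27 k683 k479
                                    have k700 : e27 ≤ e23 := L3 l27 k611 k511
                                    have k702 : e14 ≤ e27 := le_trans k476 k697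
                                    have k704 : e6 ≤ e27 := le_trans k595 k696
                                    have k705 : e10 ≤ e27 := le_trans k596 k696
                                    have k706 : e13 ≤ e27 := le_trans k597 k696
                                    have k707 : e17 ≤ e27 := le_trans k598 k696
                                    have k709 : ¬ e0 ≤ e27 := N2 k97 k698
                                    have k713 : ¬ e23 ≤ e27 := N1 k709 k510
                                    have k730 : ¬ e27 ≤ e15 := N1 k545 k697
                                    have k735 : e15 ≤ e27 := L3 l15 k705 k702
                                    have k736 : e21 ≤ e27 := L3 l21 k707 k702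
                                    obtain ⟨e28, q28⟩ : ∃ y, f e27 = y := ⟨_, rfl⟩
                                    have k740 : e7 ≤ e28 := MO hf q7 q28 k704
                                    have k741 : e14 ≤ e28 := MO hf q14 q28 k706
                                    have k742 : e16 ≤ e28 := MO hf q16 q28 k735
                                    have k743 : e22 ≤ e28 := MO hf q22 q28 k736
                                    have k744 : ¬ e27 ≤ e28 := FA hF q28
                                    have k745 : ¬ e28 ≤ e27 := FB hG q28
                                    have k746 : e28 ≤ e24 := MO hf q28 q24 k700
                                    have k747 : ¬ e25 ≤ e28 := L5 l27 k743 k744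
                                    have k748 : e13 ≤ e28 := le_trans k320 k742
                                    have k749 : e17 ≤ e28 := le_trans k288 k742
                                    have k774 : ¬ e6 ≤ e28 := N1 k747 k681
                                    by_cases k783 : ∃ z, IsGLB ({e0, e28} : Set P) z
                                    · obtain ⟨e29, g29⟩ := k783
                                      have c29 : Core e0 e29 := CM g29
                                      obtain ⟨e30, l30⟩ := ZE h2 k741 k227 g29
                                      have c30 : Core e0 e30 := CZ g29 k227 l30
                                      have k788 : e29 ≤ e0 := G1 g29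
                                      have k789 : e29 ≤ e28 := G2 g29
                                      have k790 : e13 ≤ e29 := G3 g29 k178 k748
                                      have k791 : e17 ≤ e29 := G3 g29 k287 k749
                                      have k803 : e29 ≤ e23 := le_trans k788 k510
                                      have k804 : e29 ≤ e24 := le_trans k789 k746
                                      have k831 : ¬ e6 ≤ e29 := N2 k774 k789
                                      have k835 : ¬ e20 ≤ e29 := N1 k831 k425
                                      have k864 : e29 ≤ e25 := G3 g25 k788 k804
                                      have k871 : e29 ≤ e6 := le_trans k864 k681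
                                      have k877 : e29 ≤ e20 := le_trans k864 k688
                                      have k879 : e29 ≤ e27 := le_trans k864 k696
                                      have k893 : e29 ≤ e13 := Classical.byContradiction fun hn => HL _ _ _ _ _ _ c13 c29 c20 c15 c11 c8 (LT k790 hn) (LT k877 k835) (LT k418 k413) (LT k235 k255) (LT k137 k144)
                                      obtain ⟨e31, l31⟩ := ZE h2 k743 k507 g29
                                      have c31 : Core e0 e31 := CZ g29 k507 l31
                                      have k903 : e29 ≤ e31 := L1 l31
                                      have k904 : e22 ≤ e31 := L2 l31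
                                      have k909 : e31 ≤ e23 := L3 l31 k803 k511
                                      have k911 : e31 ≤ e27 := L3 l31 k879 k697
                                      have k913 : e14 ≤ e31 := le_trans k476 k904
                                      have k915 : e17 ≤ e31 := le_trans k791 k903
                                      have k948 : ¬ e31 ≤ e21 := N1 k478 k904
                                      have k953 : e21 ≤ e31 := L3 l21 k915 k913
                                      obtain ⟨e32, q32⟩ : ∃ y, f e31 = y := ⟨_, rfl⟩
                                      have k957 : e22 ≤ e32 := MO hf q22 q32 k953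
                                      have k958 : ¬ e31 ≤ e32 := FA hF q32
                                      have k959 : ¬ e32 ≤ e31 := FB hG q32
                                      have k960 : e32 ≤ e24 := MO hf q32 q24 k909
                                      have k961 : e32 ≤ e28 := MO hf q32 q28 k911
                                      have k962 : ¬ e29 ≤ e32 := L5 l31 k957 k958
                                      have k996 : ¬ e13 ≤ e32 := N1 k962 k893
                                      by_cases k1003 : ∃ z, IsGLB ({e0, e32} : Set P) z
                                      · obtain ⟨e33, g33⟩ := k1003
                                        have c33 : Core e0 e33 := CM g33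
                                        have k1006 : e33 ≤ e0 := G1 g33
                                        have k1007 : e33 ≤ e32 := G2 g33
                                        have k1016 : e33 ≤ e28 := le_trans k1007 k961
                                        have k1040 : ¬ e13 ≤ e33 := N2 k996 k1007
                                        have k1043 : ¬ e29 ≤ e33 := N1 k1040 k790
                                        have k1050 : e33 ≤ e29 := G3 g29 k1006 k1016
                                        exact HL _ _ _ _ _ _ c33 c29 c6 c0 c4 c8 (LT k1050 k1043) (LT k871 k831) (LT k42 k48) (LT k21 k28) (LT k85 k86)
                                      · obtain ⟨e33, l33⟩ := (h1 e32).resolve_right k1003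
                                        have c33 : Core e0 e33 := CJ k1003 l33
                                        have k1006 : e0 ≤ e33 := L1 l33
                                        have k1007 : e32 ≤ e33 := L2 l33
                                        have k1018 : e22 ≤ e33 := le_trans k957 k1007
                                        have k1052 : e23 ≤ e33 := L3 l23 k1006 k1018
                                        have k1057 : e33 ≤ e23 := Classical.byContradiction fun hn => HL _ _ _ _ _ _ c2 c6 c15 c18 c23 c33 (LT k44 k53) (LT k237 k252) (LT k349 k344) (LT k541 k543) (LT k1052 hn)
                                        have k1058 : e32 ≤ e23 := le_trans k1007 k1057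
                                        obtain ⟨e34, l34⟩ := ZE h2 k960 k1003 g25
                                        have c34 : Core e0 e34 := CZ g25 k1003 l34
                                        have k1062 : e25 ≤ e34 := L1 l34
                                        have k1063 : e32 ≤ e34 := L2 l34
                                        have k1064 : e34 ≤ e23 := L3 l34 k611 k1058
                                        have k1065 : e34 ≤ e24 := L3 l34 k593 k960
                                        have k1075 : e22 ≤ e34 := le_trans k957 k1063
                                        have k1076 : ¬ e0 ≤ e34 := N2 k556 k1065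
                                        have k1080 : ¬ e23 ≤ e34 := N1 k1076 k510
                                        have k1111 : e27 ≤ e34 := L3 l27 k1062 k1075
                                        have k1114 : e34 ≤ e27 := Classical.byContradiction fun hn => HL _ _ _ _ _ _ c2 c6 c15 c27 c34 c23 (LT k44 k53) (LT k237 k252) (LT k735 k730) (LT k1111 hn) (LT k1064 k1080)
                                        have k1119 : e32 ≤ e27 := le_trans k1063 k1114
                                        obtain ⟨e35, l35⟩ := ZE h2 k961 k1003 g29
                                        have c35 : Core e0 e35 := CZ g29 k1003 l35
                                        have k1123 : e29 ≤ e35 := L1 l35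
                                        have k1124 : e32 ≤ e35 := L2 l35
                                        have k1129 : e35 ≤ e27 := L3 l35 k879 k1119
                                        have k1130 : e35 ≤ e28 := L3 l35 k789 k961
                                        have k1136 : e22 ≤ e35 := le_trans k957 k1124
                                        have k1145 : ¬ e6 ≤ e35 := N2 k774 k1130
                                        have k1154 : ¬ e27 ≤ e35 := N1 k1145 k704
                                        have k1176 : ¬ e35 ≤ e31 := N1 k959 k1124
                                        have k1180 : e31 ≤ e35 := L3 l31 k1123 k1136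
                                        exact HL _ _ _ _ _ _ c13 c21 c31 c35 c27 c23 (LT k447 k471) (LT k953 k948) (LT k1180 k1176) (LT k1129 k1154) (LT k700 k713)
                                    · obtain ⟨e29, l29⟩ := (h1 e28).resolve_right k783
                                      have c29 : Core e0 e29 := CJ k783 l29
                                      have k786 : e0 ≤ e29 := L1 l29
                                      have k787 : e28 ≤ e29 := L2 l29
                                      have k795 : e25 ≤ e29 := le_trans k592 k786
                                      have k797 : e7 ≤ e29 := le_trans k740 k787
                                      have k801 : e22 ≤ e29 := le_trans k743 k787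
                                      have k830 : e8 ≤ e29 := L3 l8 k786 k797
                                      have k836 : e27 ≤ e29 := L3 l27 k795 k801
                                      have k837 : e29 ≤ e8 := Classical.byContradiction fun hn => HL _ _ _ _ _ _ c2 c6 c15 c18 c8 c29 (LT k44 k53) (LT k237 k252) (LT k349 k344) (LT k325 k350) (LT k830 hn)
                                      have k841 : e27 ≤ e8 := le_trans k836 k837
                                      have k842 : e28 ≤ e8 := le_trans k787 k837
                                      have k847 : e28 ≤ e9 := MO hf q28 q9 k841
                                      obtain ⟨e30, l30⟩ := ZE h2 k746 k783 g25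
                                      have c30 : Core e0 e30 := CZ g25 k783 l30
                                      have k868 : e25 ≤ e30 := L1 l30
                                      have k869 : e28 ≤ e30 := L2 l30
                                      have k870 : e30 ≤ e8 := L3 l30 k609 k842
                                      have k871 : e30 ≤ e9 := L3 l30 k683 k847
                                      have k886 : e22 ≤ e30 := le_trans k743 k869
                                      have k887 : ¬ e0 ≤ e30 := N2 k97 k871
                                      have k889 : ¬ e8 ≤ e30 := N1 k887 k72
                                      have k916 : ¬ e30 ≤ e27 := N1 k745 k869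
                                      have k921 : e27 ≤ e30 := L3 l27 k868 k886
                                      exact HL _ _ _ _ _ _ c2 c20 c15 c27 c30 c8 (LT k388 k431) (LT k418 k413) (LT k735 k730) (LT k921 k916) (LT k870 k889)
                                  · obtain ⟨e25, l25⟩ := (h1 e24).resolve_right k587
                                    have c25 : Core e0 e25 := CJ k587 l25
                                    have k590 : e0 ≤ e25 := L1 l25
                                    have k591 : e24 ≤ e25 := L2 l25
                                    have k608 : e22 ≤ e25 := le_trans k553 k591
                                    have k632 : ¬ e25 ≤ e23 := N1 k555 k591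
                                    have k636 : e23 ≤ e25 := L3 l23 k590 k608
                                    exact HL _ _ _ _ _ _ c2 c6 c0 c18 c23 c25 (LT k44 k53) (LT k42 k48) (LT k323 k348) (LT k541 k543) (LT k636 k632)
                          · have k384 : ¬ e10 ≤ e19 := BN3 g10 k383 k365
                            have k385 : ¬ e5 ≤ e19 := N1 k384 k131
                            have k390 : ¬ e4 ≤ e18 := NM hf q5 q19 k385
                            have k391 : ¬ e3 ≤ e18 := L4 l4 k323 k390
                            have k392 : ¬ e3 ≤ e14 := N2 k391 k324
                            have k394 : ¬ e2 ≤ e13 := NM hf q3 q14 k392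
                            have k395 : ¬ e2 ≤ e12 := G4 g13 k6 k394
                            obtain ⟨e20, l20⟩ := (h1 e19).resolve_right k383
                            have c20 : Core e0 e20 := CJ k383 l20
                            have k404 : e0 ≤ e20 := L1 l20
                            have k405 : e19 ≤ e20 := L2 l20
                            have k414 : e7 ≤ e20 := le_trans k360 k405
                            have k416 : e16 ≤ e20 := le_trans k362 k405
                            have k437 : e8 ≤ e20 := L3 l8 k404 k414
                            have k441 : e20 ≤ e8 := Classical.byContradiction fun hn => HL _ _ _ _ _ _ c2 c6 c15 c18 c8 c20 (LT k44 k53) (LT k237 k252) (LT k349 k344) (LT k325 k350) (LT k437 hn)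
                            have k443 : e16 ≤ e8 := le_trans k416 k441
                            obtain ⟨e21, l21⟩ := ZE h2 k263 k227 g17
                            have c21 : Core e0 e21 := CZ g17 k227 l21
                            have k448 : e17 ≤ e21 := L1 l21
                            have k449 : e14 ≤ e21 := L2 l21
                            have k451 : e21 ≤ e8 := L3 l21 k294 k211
                            have k453 : e21 ≤ e11 := L3 l21 k317 k212
                            have k455 : e21 ≤ e15 := L3 l21 k318 k231
                            have k460 : e13 ≤ e21 := le_trans k319 k448
                            have k486 : ¬ e21 ≤ e13 := N1 k204 k449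
                            obtain ⟨e22, q22⟩ : ∃ y, f e21 = y := ⟨_, rfl⟩
                            have k490 : e14 ≤ e22 := MO hf q14 q22 k460
                            have k491 : ¬ e21 ≤ e22 := FA hF q22
                            have k492 : ¬ e22 ≤ e21 := FB hG q22
                            have k493 : e22 ≤ e9 := MO hf q22 q9 k451
                            have k494 : e22 ≤ e12 := MO hf q22 q12 k453
                            have k495 : e22 ≤ e16 := MO hf q22 q16 k455
                            have k497 : ¬ e17 ≤ e22 := L5 l21 k490 k491
                            have k498 : e22 ≤ e8 := le_trans k495 k443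
                            have k521 : ¬ e13 ≤ e22 := N1 k497 k314
                            by_cases k524 : ∃ z, IsGLB ({e0, e22} : Set P) z
                            · obtain ⟨e23, g23⟩ := k524
                              have c23 : Core e0 e23 := CM g23
                              have k527 : e23 ≤ e0 := G1 g23
                              have k528 : e23 ≤ e22 := G2 g23
                              have k536 : e23 ≤ e12 := le_trans k528 k494
                              have k557 : ¬ e13 ≤ e23 := N2 k521 k528
                              have k563 : e23 ≤ e13 := G3 g13 k527 k536
                              exact HL _ _ _ _ _ _ c23 c13 c6 c0 c4 c8 (LT k563 k557) (LT k200 k196) (LT k42 k48) (LT k21 k28) (LT k85 k86)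
                            · obtain ⟨e23, l23⟩ := (h1 e22).resolve_right k524
                              have c23 : Core e0 e23 := CJ k524 l23
                              have k527 : e0 ≤ e23 := L1 l23
                              have k528 : e22 ≤ e23 := L2 l23
                              have k529 : e23 ≤ e8 := L3 l23 k72 k498
                              have k537 : e14 ≤ e23 := le_trans k490 k528
                              have k559 : e18 ≤ e23 := L3 l18 k527 k537
                              by_cases k561 : e23 ≤ e18
                              · have k562 : e22 ≤ e18 := le_trans k528 k561
                                obtain ⟨e24, l24⟩ := ZE h2 k493 k524 g10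
                                have c24 : Core e0 e24 := CZ g10 k524 l24
                                have k578 : e10 ≤ e24 := L1 l24
                                have k579 : e22 ≤ e24 := L2 l24
                                have k581 : e24 ≤ e9 := L3 l24 k112 k493
                                have k582 : e24 ≤ e18 := L3 l24 k329 k562
                                have k589 : e14 ≤ e24 := le_trans k490 k579
                                have k590 : ¬ e0 ≤ e24 := N2 k97 k581
                                have k593 : ¬ e18 ≤ e24 := N1 k590 k323
                                have k621 : e15 ≤ e24 := L3 l15 k578 k589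
                                have k623 : e24 ≤ e15 := Classical.byContradiction fun hn => HL _ _ _ _ _ _ c2 c6 c15 c24 c18 c8 (LT k44 k53) (LT k237 k252) (LT k621 hn) (LT k582 k593) (LT k325 k350)
                                have k628 : e22 ≤ e15 := le_trans k579 k623
                                obtain ⟨e25, l25⟩ := ZE h2 k495 k524 g17
                                have c25 : Core e0 e25 := CZ g17 k524 l25
                                have k631 : e17 ≤ e25 := L1 l25
                                have k632 : e22 ≤ e25 := L2 l25
                                have k637 : e25 ≤ e12 := L3 l25 k296 k494
                                have k638 : e25 ≤ e15 := L3 l25 k318 k628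
                                have k646 : e14 ≤ e25 := le_trans k490 k632
                                have k657 : ¬ e2 ≤ e25 := N2 k395 k637
                                have k661 : ¬ e15 ≤ e25 := N1 k657 k236
                                have k677 : ¬ e25 ≤ e21 := N1 k492 k632
                                have k679 : e21 ≤ e25 := L3 l21 k631 k646
                                exact HL _ _ _ _ _ _ c13 c21 c25 c15 c18 c8 (LT k460 k486) (LT k679 k677) (LT k638 k661) (LT k349 k344) (LT k325 k350)
                              · have k562 : ¬ e22 ≤ e18 := L4 l23 k323 k561
                                have k563 : ¬ e22 ≤ e15 := N2 k562 k349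
                                have k564 : e8 ≤ e23 := Classical.byContradiction fun hn => HL _ _ _ _ _ _ c2 c6 c15 c18 c23 c8 (LT k44 k53) (LT k237 k252) (LT k349 k344) (LT k559 k561) (LT k529 hn)
                                obtain ⟨e24, l24⟩ := ZE h2 k493 k524 g10
                                have c24 : Core e0 e24 := CZ g10 k524 l24
                                have k578 : e10 ≤ e24 := L1 l24
                                have k579 : e22 ≤ e24 := L2 l24
                                have k580 : e24 ≤ e8 := L3 l24 k119 k498
                                have k581 : e24 ≤ e9 := L3 l24 k112 k493
                                have k584 : e2 ≤ e24 := le_trans k113 k578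
                                have k585 : e6 ≤ e24 := le_trans k114 k578
                                have k586 : e13 ≤ e24 := le_trans k198 k578
                                have k587 : e17 ≤ e24 := le_trans k313 k578
                                have k588 : e14 ≤ e24 := le_trans k490 k579
                                have k589 : ¬ e0 ≤ e24 := N2 k97 k581
                                have k591 : ¬ e8 ≤ e24 := N1 k589 k72
                                have k612 : ¬ e24 ≤ e15 := N1 k563 k579
                                have k615 : e15 ≤ e24 := L3 l15 k578 k588
                                have k616 : e21 ≤ e24 := L3 l21 k587 k588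
                                obtain ⟨e25, q25⟩ : ∃ y, f e24 = y := ⟨_, rfl⟩
                                have k619 : e7 ≤ e25 := MO hf q7 q25 k585
                                have k620 : e14 ≤ e25 := MO hf q14 q25 k586
                                have k621 : e16 ≤ e25 := MO hf q16 q25 k615
                                have k622 : e22 ≤ e25 := MO hf q22 q25 k616
                                have k623 : ¬ e24 ≤ e25 := FA hF q25
                                have k624 : ¬ e25 ≤ e24 := FB hG q25
                                have k625 : e25 ≤ e9 := MO hf q25 q9 k580
                                have k626 : ¬ e10 ≤ e25 := L5 l24 k622 k623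
                                have k627 : e13 ≤ e25 := le_trans k320 k621
                                have k628 : e17 ≤ e25 := le_trans k288 k621
                                have k649 : ¬ e6 ≤ e25 := N1 k626 k130
                                by_cases k655 : ∃ z, IsGLB ({e0, e25} : Set P) z
                                · obtain ⟨e26, g26⟩ := k655
                                  have c26 : Core e0 e26 := CM g26
                                  obtain ⟨e27, l27⟩ := ZE h2 k620 k227 g26
                                  have c27 : Core e0 e27 := CZ g26 k227 l27
                                  have k660 : e26 ≤ e0 := G1 g26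
                                  have k661 : e26 ≤ e25 := G2 g26
                                  have k662 : e13 ≤ e26 := G3 g26 k178 k627
                                  have k663 : e17 ≤ e26 := G3 g26 k287 k628
                                  have k673 : e26 ≤ e8 := le_trans k660 k72
                                  have k677 : e26 ≤ e9 := le_trans k661 k625
                                  have k705 : ¬ e6 ≤ e26 := N2 k649 k661
                                  have k728 : e26 ≤ e10 := G3 g10 k660 k677
                                  have k736 : e26 ≤ e6 := le_trans k728 k130
                                  have k739 : e26 ≤ e24 := le_trans k728 k578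
                                  have k752 : e26 ≤ e13 := Classical.byContradiction fun hn => HL _ _ _ _ _ _ c13 c26 c6 c0 c4 c8 (LT k662 hn) (LT k736 k705) (LT k42 k48) (LT k21 k28) (LT k85 k86)
                                  have k753 : e26 ≤ e12 := le_trans k752 k179
                                  have k758 : ¬ e2 ≤ e26 := N2 k395 k753
                                  have k759 : ¬ e2 ≤ e25 := G4 g26 k6 k758
                                  obtain ⟨e28, l28⟩ := ZE h2 k622 k524 g26
                                  have c28 : Core e0 e28 := CZ g26 k524 l28
                                  have k769 : e26 ≤ e28 := L1 l28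
                                  have k770 : e22 ≤ e28 := L2 l28
                                  have k771 : e28 ≤ e8 := L3 l28 k673 k498
                                  have k778 : e28 ≤ e24 := L3 l28 k739 k579
                                  have k780 : e14 ≤ e28 := le_trans k490 k770
                                  have k782 : e17 ≤ e28 := le_trans k663 k769
                                  have k813 : ¬ e28 ≤ e21 := N1 k492 k770
                                  have k817 : e21 ≤ e28 := L3 l21 k782 k780
                                  obtain ⟨e29, q29⟩ : ∃ y, f e28 = y := ⟨_, rfl⟩
                                  have k821 : e22 ≤ e29 := MO hf q22 q29 k817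
                                  have k822 : ¬ e28 ≤ e29 := FA hF q29
                                  have k823 : ¬ e29 ≤ e28 := FB hG q29
                                  have k824 : e29 ≤ e9 := MO hf q29 q9 k771
                                  have k825 : e29 ≤ e25 := MO hf q29 q25 k778
                                  have k826 : ¬ e26 ≤ e29 := L5 l28 k821 k822
                                  have k858 : ¬ e13 ≤ e29 := N1 k826 k752
                                  by_cases k865 : ∃ z, IsGLB ({e0, e29} : Set P) z
                                  · obtain ⟨e30, g30⟩ := k865
                                    have c30 : Core e0 e30 := CM g30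
                                    have k868 : e30 ≤ e0 := G1 g30
                                    have k869 : e30 ≤ e29 := G2 g30
                                    have k879 : e30 ≤ e25 := le_trans k869 k825
                                    have k901 : ¬ e13 ≤ e30 := N2 k858 k869
                                    have k904 : ¬ e26 ≤ e30 := N1 k901 k662
                                    have k911 : e30 ≤ e26 := G3 g26 k868 k879
                                    exact HL _ _ _ _ _ _ c30 c26 c6 c0 c4 c8 (LT k911 k904) (LT k736 k705) (LT k42 k48) (LT k21 k28) (LT k85 k86)
                                  · obtain ⟨e30, l30⟩ := (h1 e29).resolve_right k865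
                                    have c30 : Core e0 e30 := CJ k865 l30
                                    have k868 : e0 ≤ e30 := L1 l30
                                    have k869 : e29 ≤ e30 := L2 l30
                                    have k878 : e22 ≤ e30 := le_trans k821 k869
                                    have k909 : e23 ≤ e30 := L3 l23 k868 k878
                                    have k917 : e8 ≤ e30 := le_trans k564 k909
                                    have k922 : e30 ≤ e8 := Classical.byContradiction fun hn => HL _ _ _ _ _ _ c2 c6 c15 c18 c8 c30 (LT k44 k53) (LT k237 k252) (LT k349 k344) (LT k325 k350) (LT k917 hn)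
                                    have k925 : e29 ≤ e8 := le_trans k869 k922
                                    obtain ⟨e31, l31⟩ := ZE h2 k824 k865 g10
                                    have c31 : Core e0 e31 := CZ g10 k865 l31
                                    have k931 : e10 ≤ e31 := L1 l31
                                    have k932 : e29 ≤ e31 := L2 l31
                                    have k933 : e31 ≤ e8 := L3 l31 k119 k925
                                    have k934 : e31 ≤ e9 := L3 l31 k112 k824
                                    have k944 : e22 ≤ e31 := le_trans k821 k932
                                    have k945 : ¬ e0 ≤ e31 := N2 k97 k934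
                                    have k947 : ¬ e8 ≤ e31 := N1 k945 k72
                                    have k979 : e24 ≤ e31 := L3 l24 k931 k944
                                    have k982 : e31 ≤ e24 := Classical.byContradiction fun hn => HL _ _ _ _ _ _ c2 c6 c15 c24 c31 c8 (LT k44 k53) (LT k237 k252) (LT k615 k612) (LT k979 hn) (LT k933 k947)
                                    have k983 : e29 ≤ e24 := le_trans k932 k982
                                    obtain ⟨e32, l32⟩ := ZE h2 k825 k865 g26
                                    have c32 : Core e0 e32 := CZ g26 k865 l32
                                    have k987 : e26 ≤ e32 := L1 l32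
                                    have k988 : e29 ≤ e32 := L2 l32
                                    have k993 : e32 ≤ e24 := L3 l32 k739 k983
                                    have k994 : e32 ≤ e25 := L3 l32 k661 k825
                                    have k1000 : e22 ≤ e32 := le_trans k821 k988
                                    have k1012 : ¬ e2 ≤ e32 := N2 k759 k994
                                    have k1017 : ¬ e24 ≤ e32 := N1 k1012 k584
                                    have k1037 : ¬ e32 ≤ e28 := N1 k823 k988
                                    have k1041 : e28 ≤ e32 := L3 l28 k987 k1000
                                    exact HL _ _ _ _ _ _ c13 c21 c28 c32 c24 c8 (LT k460 k486) (LT k817 k813) (LT k1041 k1037) (LT k993 k1017) (LT k580 k591)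
                                · obtain ⟨e26, l26⟩ := (h1 e25).resolve_right k655
                                  have c26 : Core e0 e26 := CJ k655 l26
                                  have k658 : e0 ≤ e26 := L1 l26
                                  have k659 : e25 ≤ e26 := L2 l26
                                  have k667 : e7 ≤ e26 := le_trans k619 k659
                                  have k696 : e8 ≤ e26 := L3 l8 k658 k667
                                  have k705 : e26 ≤ e8 := Classical.byContradiction fun hn => HL _ _ _ _ _ _ c2 c6 c15 c18 c8 c26 (LT k44 k53) (LT k237 k252) (LT k349 k344) (LT k325 k350) (LT k696 hn)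
                                  have k708 : e25 ≤ e8 := le_trans k659 k705
                                  obtain ⟨e27, l27⟩ := ZE h2 k625 k655 g10
                                  have c27 : Core e0 e27 := CZ g10 k655 l27
                                  have k714 : e10 ≤ e27 := L1 l27
                                  have k715 : e25 ≤ e27 := L2 l27
                                  have k716 : e27 ≤ e8 := L3 l27 k119 k708
                                  have k717 : e27 ≤ e9 := L3 l27 k112 k625
                                  have k730 : e22 ≤ e27 := le_trans k622 k715
                                  have k731 : ¬ e0 ≤ e27 := N2 k97 k717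
                                  have k733 : ¬ e8 ≤ e27 := N1 k731 k72
                                  have k758 : ¬ e27 ≤ e24 := N1 k624 k715
                                  have k762 : e24 ≤ e27 := L3 l24 k714 k730
                                  exact HL _ _ _ _ _ _ c2 c6 c15 c24 c27 c8 (LT k44 k53) (LT k237 k252) (LT k615 k612) (LT k762 k758) (LT k716 k733)
                      · have k285 : ¬ e13 ≤ e16 := BN3 g13 k284 k267
                        obtain ⟨e17, l17⟩ := (h1 e16).resolve_right k284
                        have c17 : Core e0 e17 := CJ k284 l17
                        have k289 : e0 ≤ e17 := L1 l17
                        have k290 : e16 ≤ e17 := L2 l17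
                        have k297 : e7 ≤ e17 := le_trans k262 k290
                        have k316 : e8 ≤ e17 := L3 l8 k289 k297
                        have k319 : e17 ≤ e8 := Classical.byContradiction fun hn => HL _ _ _ _ _ _ c2 c6 c0 c4 c8 c17 (LT k44 k53) (LT k42 k48) (LT k21 k28) (LT k85 k86) (LT k316 hn)
                        have k320 : e16 ≤ e8 := le_trans k290 k319
                        obtain ⟨e18, l18⟩ := ZE h2 k266 k284 g10
                        have c18 : Core e0 e18 := CZ g10 k284 l18
                        have k324 : e10 ≤ e18 := L1 l18
                        have k325 : e16 ≤ e18 := L2 l18
                        have k326 : e18 ≤ e8 := L3 l18 k119 k320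
                        have k327 : e18 ≤ e9 := L3 l18 k112 k266
                        have k333 : e7 ≤ e18 := le_trans k262 k325
                        have k334 : e14 ≤ e18 := le_trans k263 k325
                        have k335 : ¬ e0 ≤ e18 := N2 k97 k327
                        have k337 : ¬ e8 ≤ e18 := N1 k335 k72
                        have k351 : ¬ e18 ≤ e15 := N1 k257 k333
                        have k354 : e11 ≤ e18 := L3 l11 k324 k333
                        have k355 : e15 ≤ e18 := L3 l15 k324 k334
                        have k356 : e18 ≤ e11 := Classical.byContradiction fun hn => HL _ _ _ _ _ _ c2 c6 c15 c11 c18 c8 (LT k44 k53) (LT k237 k252) (LT k235 k255) (LT k354 hn) (LT k326 k337)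
                        have k359 : e16 ≤ e11 := le_trans k325 k356
                        obtain ⟨e19, l19⟩ := ZE h2 k209 k227 g13
                        have c19 : Core e0 e19 := CZ g13 k227 l19
                        have k363 : e13 ≤ e19 := L1 l19
                        have k364 : e14 ≤ e19 := L2 l19
                        have k366 : e19 ≤ e8 := L3 l19 k184 k211
                        have k368 : e19 ≤ e11 := L3 l19 k201 k212
                        have k370 : e19 ≤ e15 := L3 l19 k238 k231
                        have k396 : ¬ e19 ≤ e13 := N1 k204 k364
                        obtain ⟨e20, q20⟩ : ∃ y, f e19 = y := ⟨_, rfl⟩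
                        have k399 : e14 ≤ e20 := MO hf q14 q20 k363
                        have k401 : ¬ e20 ≤ e19 := FB hG q20
                        have k402 : e20 ≤ e9 := MO hf q20 q9 k366
                        have k403 : e20 ≤ e12 := MO hf q20 q12 k368
                        have k404 : e20 ≤ e16 := MO hf q20 q16 k370
                        have k407 : e20 ≤ e8 := le_trans k404 k320
                        have k408 : e20 ≤ e11 := le_trans k404 k359
                        by_cases k429 : ∃ z, IsGLB ({e0, e20} : Set P) z
                        · obtain ⟨e21, g21⟩ := k429
                          have c21 : Core e0 e21 := CM g21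
                          have k432 : e21 ≤ e0 := G1 g21
                          have k433 : e21 ≤ e20 := G2 g21
                          have k442 : e21 ≤ e12 := le_trans k433 k403
                          have k443 : e21 ≤ e16 := le_trans k433 k404
                          have k461 : ¬ e13 ≤ e21 := N2 k285 k443
                          have k467 : e21 ≤ e13 := G3 g13 k432 k442
                          exact HL _ _ _ _ _ _ c21 c13 c6 c0 c4 c8 (LT k467 k461) (LT k200 k196) (LT k42 k48) (LT k21 k28) (LT k85 k86)
                        · obtain ⟨e21, l21⟩ := ZE h2 k402 k429 g10
                          have c21 : Core e0 e21 := CZ g10 k429 l21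
                          have k432 : e10 ≤ e21 := L1 l21
                          have k433 : e20 ≤ e21 := L2 l21
                          have k437 : e21 ≤ e11 := L3 l21 k134 k408
                          have k443 : e14 ≤ e21 := le_trans k399 k433
                          have k464 : e15 ≤ e21 := L3 l15 k432 k443
                          by_cases k466 : e21 ≤ e15
                          · have k467 : e20 ≤ e15 := le_trans k433 k466
                            obtain ⟨e22, l22⟩ := ZE h2 k403 k429 g13
                            have c22 : Core e0 e22 := CZ g13 k429 l22
                            have k479 : e13 ≤ e22 := L1 l22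
                            have k480 : e20 ≤ e22 := L2 l22
                            have k485 : e22 ≤ e12 := L3 l22 k179 k403
                            have k486 : e22 ≤ e15 := L3 l22 k238 k467
                            have k490 : e14 ≤ e22 := le_trans k399 k480
                            have k498 : ¬ e6 ≤ e22 := N2 k172 k485
                            have k501 : ¬ e15 ≤ e22 := N1 k498 k237
                            have k517 : ¬ e22 ≤ e19 := N1 k401 k480
                            have k519 : e19 ≤ e22 := L3 l19 k479 k490
                            exact HL _ _ _ _ _ _ c13 c19 c22 c15 c18 c8 (LT k363 k396) (LT k519 k517) (LT k486 k501) (LT k355 k351) (LT k326 k337)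
                          · have k468 : e11 ≤ e21 := Classical.byContradiction fun hn => HL _ _ _ _ _ _ c2 c6 c15 c21 c11 c8 (LT k44 k53) (LT k237 k252) (LT k464 k466) (LT k437 hn) (LT k137 k144)
                            have k470 : e7 ≤ e21 := le_trans k135 k468
                            obtain ⟨e22, l22⟩ := ZE h2 k403 k429 g13
                            have c22 : Core e0 e22 := CZ g13 k429 l22
                            have k478 : e13 ≤ e22 := L1 l22
                            have k479 : e20 ≤ e22 := L2 l22
                            have k481 : e22 ≤ e8 := L3 l22 k184 k407
                            have k483 : e22 ≤ e11 := L3 l22 k201 k408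
                            have k488 : e14 ≤ e22 := le_trans k399 k479
                            have k514 : ¬ e22 ≤ e19 := N1 k401 k479
                            have k516 : e19 ≤ e22 := L3 l19 k478 k488
                            obtain ⟨e23, q23⟩ : ∃ y, f e22 = y := ⟨_, rfl⟩
                            have k519 : e20 ≤ e23 := MO hf q20 q23 k516
                            have k520 : ¬ e22 ≤ e23 := FA hF q23
                            have k521 : ¬ e23 ≤ e22 := FB hG q23
                            have k522 : e23 ≤ e9 := MO hf q23 q9 k481
                            have k523 : e23 ≤ e12 := MO hf q23 q12 k483
                            have k524 : ¬ e13 ≤ e23 := L5 l22 k519 k520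
                            by_cases k550 : ∃ z, IsGLB ({e0, e23} : Set P) z
                            · obtain ⟨e24, g24⟩ := k550
                              have c24 : Core e0 e24 := CM g24
                              have k553 : e24 ≤ e0 := G1 g24
                              have k554 : e24 ≤ e23 := G2 g24
                              have k562 : e24 ≤ e12 := le_trans k554 k523
                              have k580 : ¬ e13 ≤ e24 := N2 k524 k554
                              have k587 : e24 ≤ e13 := G3 g13 k553 k562
                              exact HL _ _ _ _ _ _ c24 c13 c6 c0 c4 c8 (LT k587 k580) (LT k200 k196) (LT k42 k48) (LT k21 k28) (LT k85 k86)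
                            · obtain ⟨e24, l24⟩ := (h1 e23).resolve_right k550
                              have c24 : Core e0 e24 := CJ k550 l24
                              have k553 : e0 ≤ e24 := L1 l24
                              have k554 : e23 ≤ e24 := L2 l24
                              have k558 : e10 ≤ e24 := le_trans k111 k553
                              have k561 : e20 ≤ e24 := le_trans k519 k554
                              have k586 : e21 ≤ e24 := L3 l21 k558 k561
                              have k589 : e7 ≤ e24 := le_trans k470 k586
                              have k594 : e8 ≤ e24 := L3 l8 k553 k589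
                              have k596 : e24 ≤ e8 := Classical.byContradiction fun hn => HL _ _ _ _ _ _ c2 c6 c15 c18 c8 c24 (LT k44 k53) (LT k237 k252) (LT k355 k351) (LT k326 k337) (LT k594 hn)
                              have k598 : e23 ≤ e8 := le_trans k554 k596
                              obtain ⟨e25, l25⟩ := ZE h2 k522 k550 g10
                              have c25 : Core e0 e25 := CZ g10 k550 l25
                              have k603 : e10 ≤ e25 := L1 l25
                              have k604 : e23 ≤ e25 := L2 l25
                              have k605 : e25 ≤ e8 := L3 l25 k119 k598
                              have k606 : e25 ≤ e9 := L3 l25 k112 k522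
                              have k613 : e20 ≤ e25 := le_trans k519 k604
                              have k614 : ¬ e0 ≤ e25 := N2 k97 k606
                              have k616 : ¬ e8 ≤ e25 := N1 k614 k72
                              have k640 : e21 ≤ e25 := L3 l21 k603 k613
                              have k644 : e11 ≤ e25 := le_trans k468 k640
                              have k647 : e25 ≤ e11 := Classical.byContradiction fun hn => HL _ _ _ _ _ _ c2 c6 c15 c11 c25 c8 (LT k44 k53) (LT k237 k252) (LT k235 k255) (LT k644 hn) (LT k605 k616)
                              have k652 : e23 ≤ e11 := le_trans k604 k647
                              obtain ⟨e26, l26⟩ := ZE h2 k523 k550 g13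
                              have c26 : Core e0 e26 := CZ g13 k550 l26
                              have k658 : e13 ≤ e26 := L1 l26
                              have k659 : e23 ≤ e26 := L2 l26
                              have k663 : e26 ≤ e11 := L3 l26 k201 k652
                              have k664 : e26 ≤ e12 := L3 l26 k179 k523
                              have k671 : e20 ≤ e26 := le_trans k519 k659
                              have k679 : ¬ e6 ≤ e26 := N2 k172 k664
                              have k681 : ¬ e11 ≤ e26 := N1 k679 k141
                              have k701 : ¬ e26 ≤ e22 := N1 k521 k659
                              have k704 : e22 ≤ e26 := L3 l22 k658 k671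
                              exact HL _ _ _ _ _ _ c13 c19 c22 c26 c11 c8 (LT k363 k396) (LT k516 k514) (LT k704 k701) (LT k663 k681) (LT k137 k144)
                · obtain ⟨e13, l13⟩ := (h1 e12).resolve_right k175
                  have c13 : Core e0 e13 := CJ k175 l13
                  have k178 : e0 ≤ e13 := L1 l13
                  have k179 : e12 ≤ e13 := L2 l13
                  have k185 : e7 ≤ e13 := le_trans k157 k179
                  have k199 : e8 ≤ e13 := L3 l8 k178 k185
                  have k201 : e13 ≤ e8 := Classical.byContradiction fun hn => HL _ _ _ _ _ _ c2 c6 c0 c4 c8 c13 (LT k44 k53) (LT k42 k48) (LT k21 k28) (LT k85 k86) (LT k199 hn)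
                  have k202 : e12 ≤ e8 := le_trans k179 k201
                  obtain ⟨e14, l14⟩ := ZE h2 k160 k175 g10
                  have c14 : Core e0 e14 := CZ g10 k175 l14
                  have k206 : e10 ≤ e14 := L1 l14
                  have k207 : e12 ≤ e14 := L2 l14
                  have k208 : e14 ≤ e8 := L3 l14 k119 k202
                  have k209 : e14 ≤ e9 := L3 l14 k112 k160
                  have k212 : e6 ≤ e14 := le_trans k114 k206
                  have k214 : e7 ≤ e14 := le_trans k157 k207
                  have k215 : ¬ e0 ≤ e14 := N2 k97 k209
                  have k217 : ¬ e8 ≤ e14 := N1 k215 k72
                  have k229 : ¬ e14 ≤ e11 := N1 k159 k207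
                  have k231 : e11 ≤ e14 := L3 l11 k206 k214
                  obtain ⟨e15, q15⟩ : ∃ y, f e14 = y := ⟨_, rfl⟩
                  have k234 : e7 ≤ e15 := MO hf q7 q15 k212
                  have k235 : e12 ≤ e15 := MO hf q12 q15 k231
                  have k236 : ¬ e14 ≤ e15 := FA hF q15
                  have k237 : ¬ e15 ≤ e14 := FB hG q15
                  have k238 : e15 ≤ e9 := MO hf q15 q9 k208
                  have k239 : ¬ e10 ≤ e15 := L5 l14 k235 k236
                  have k251 : ¬ e6 ≤ e15 := N1 k239 k130
                  by_cases k257 : ∃ z, IsGLB ({e0, e15} : Set P) z
                  · obtain ⟨e16, g16⟩ := k257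
                    have c16 : Core e0 e16 := CM g16
                    have k260 : e16 ≤ e0 := G1 g16
                    have k261 : e16 ≤ e15 := G2 g16
                    have k264 : ¬ e16 ≤ e12 := BN3 g16 k175 k235
                    have k267 : e16 ≤ e8 := le_trans k260 k72
                    have k269 : e16 ≤ e9 := le_trans k261 k238
                    have k283 : ¬ e6 ≤ e16 := N2 k251 k261
                    have k285 : e16 ≤ e10 := G3 g10 k260 k269
                    have k287 : e16 ≤ e6 := le_trans k285 k130
                    have k288 : e16 ≤ e11 := le_trans k285 k134
                    have k289 : e16 ≤ e14 := le_trans k285 k206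
                    obtain ⟨e17, q17⟩ : ∃ y, f e16 = y := ⟨_, rfl⟩
                    have k292 : ¬ e17 ≤ e16 := FB hG q17
                    have k293 : e17 ≤ e1 := MO hf q17 q1 k260
                    have k295 : e17 ≤ e7 := MO hf q17 q7 k287
                    have k296 : e17 ≤ e9 := MO hf q17 q9 k267
                    have k298 : e17 ≤ e15 := MO hf q17 q15 k289
                    have k299 : ¬ e17 ≤ e0 := G5 g16 k298 k292
                    have k300 : e17 ≤ e8 := le_trans k295 k73
                    have k301 : e17 ≤ e11 := le_trans k295 k135
                    have k303 : e17 ≤ e14 := le_trans k295 k214
                    have k319 : ¬ e17 ≤ e6 := N2 k299 k42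
                    by_cases k321 : ∃ z, IsGLB ({e0, e17} : Set P) z
                    · obtain ⟨e18, g18⟩ := k321
                      have c18 : Core e0 e18 := CM g18
                      have k324 : e18 ≤ e0 := G1 g18
                      have k325 : e18 ≤ e17 := G2 g18
                      have k330 : e18 ≤ e1 := le_trans k325 k293
                      have k332 : e18 ≤ e7 := le_trans k325 k295
                      have k345 : ¬ e2 ≤ e18 := N2 k68 k332
                      have k356 : e18 ≤ e2 := G3 g2 k324 k330
                      exact HL _ _ _ _ _ _ c18 c2 c6 c0 c4 c8 (LT k356 k345) (LT k44 k53) (LT k42 k48) (LT k21 k28) (LT k85 k86)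
                    · obtain ⟨e18, l18⟩ := ZE h2 k296 k321 g10
                      have c18 : Core e0 e18 := CZ g10 k321 l18
                      have k324 : e10 ≤ e18 := L1 l18
                      have k325 : e17 ≤ e18 := L2 l18
                      have k329 : e18 ≤ e11 := L3 l18 k134 k301
                      have k333 : e6 ≤ e18 := le_trans k114 k324
                      have k352 : ¬ e18 ≤ e6 := N1 k319 k325
                      have k355 : e11 ≤ e18 := Classical.byContradiction fun hn => HL _ _ _ _ _ _ c2 c6 c18 c11 c14 c8 (LT k44 k53) (LT k333 k352) (LT k329 hn) (LT k231 k229) (LT k208 k217)
                      have k357 : e7 ≤ e18 := le_trans k135 k355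
                      obtain ⟨e19, l19⟩ := ZE h2 k298 k321 g16
                      have c19 : Core e0 e19 := CZ g16 k321 l19
                      have k366 : e16 ≤ e19 := L1 l19
                      have k367 : e17 ≤ e19 := L2 l19
                      have k369 : e19 ≤ e8 := L3 l19 k267 k300
                      have k371 : e19 ≤ e11 := L3 l19 k288 k301
                      have k373 : e19 ≤ e14 := L3 l19 k289 k303
                      have k399 : ¬ e19 ≤ e16 := N1 k292 k367
                      obtain ⟨e20, q20⟩ : ∃ y, f e19 = y := ⟨_, rfl⟩
                      have k402 : e17 ≤ e20 := MO hf q17 q20 k366
                      have k404 : ¬ e20 ≤ e19 := FB hG q20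
                      have k405 : e20 ≤ e9 := MO hf q20 q9 k369
                      have k406 : e20 ≤ e12 := MO hf q20 q12 k371
                      have k407 : e20 ≤ e15 := MO hf q20 q15 k373
                      have k409 : e20 ≤ e8 := le_trans k406 k202
                      have k411 : e20 ≤ e14 := le_trans k406 k207
                      by_cases k432 : ∃ z, IsGLB ({e0, e20} : Set P) z
                      · obtain ⟨e21, g21⟩ := k432
                        have c21 : Core e0 e21 := CM g21
                        have k435 : e21 ≤ e0 := G1 g21
                        have k436 : e21 ≤ e20 := G2 g21
                        have k443 : e21 ≤ e12 := le_trans k436 k406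
                        have k445 : e21 ≤ e15 := le_trans k436 k407
                        have k462 : ¬ e16 ≤ e21 := N2 k264 k443
                        have k467 : e21 ≤ e16 := G3 g16 k435 k445
                        exact HL _ _ _ _ _ _ c21 c16 c6 c0 c4 c8 (LT k467 k462) (LT k287 k283) (LT k42 k48) (LT k21 k28) (LT k85 k86)
                      · obtain ⟨e21, l21⟩ := ZE h2 k405 k432 g10
                        have c21 : Core e0 e21 := CZ g10 k432 l21
                        have k435 : e10 ≤ e21 := L1 l21
                        have k436 : e20 ≤ e21 := L2 l21
                        have k440 : e21 ≤ e14 := L3 l21 k206 k411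
                        have k444 : e17 ≤ e21 := le_trans k402 k436
                        have k466 : e18 ≤ e21 := L3 l18 k435 k444
                        have k470 : e11 ≤ e21 := le_trans k355 k466
                        by_cases k471 : e21 ≤ e11
                        · have k475 : e20 ≤ e11 := le_trans k436 k471
                          obtain ⟨e22, l22⟩ := ZE h2 k407 k432 g16
                          have c22 : Core e0 e22 := CZ g16 k432 l22
                          have k482 : e16 ≤ e22 := L1 l22
                          have k483 : e20 ≤ e22 := L2 l22
                          have k487 : e22 ≤ e11 := L3 l22 k288 k475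
                          have k490 : e22 ≤ e15 := L3 l22 k261 k407
                          have k493 : e17 ≤ e22 := le_trans k402 k483
                          have k500 : ¬ e6 ≤ e22 := N2 k251 k490
                          have k502 : ¬ e11 ≤ e22 := N1 k500 k141
                          have k520 : ¬ e22 ≤ e19 := N1 k404 k483
                          have k522 : e19 ≤ e22 := L3 l19 k482 k493
                          exact HL _ _ _ _ _ _ c16 c19 c22 c11 c14 c8 (LT k366 k399) (LT k522 k520) (LT k487 k502) (LT k231 k229) (LT k208 k217)
                        · have k476 : e14 ≤ e21 := Classical.byContradiction fun hn => HL _ _ _ _ _ _ c2 c6 c11 c21 c14 c8 (LT k44 k53) (LT k141 k149) (LT k470 k471) (LT k440 hn) (LT k208 k217)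
                          obtain ⟨e22, l22⟩ := ZE h2 k407 k432 g16
                          have c22 : Core e0 e22 := CZ g16 k432 l22
                          have k480 : e16 ≤ e22 := L1 l22
                          have k481 : e20 ≤ e22 := L2 l22
                          have k482 : e22 ≤ e8 := L3 l22 k267 k409
                          have k485 : e22 ≤ e14 := L3 l22 k289 k411
                          have k488 : e17 ≤ e22 := le_trans k402 k481
                          have k516 : ¬ e22 ≤ e19 := N1 k404 k481
                          have k518 : e19 ≤ e22 := L3 l19 k480 k488
                          obtain ⟨e23, q23⟩ : ∃ y, f e22 = y := ⟨_, rfl⟩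
                          have k520 : e17 ≤ e23 := MO hf q17 q23 k480
                          have k521 : e20 ≤ e23 := MO hf q20 q23 k518
                          have k522 : ¬ e22 ≤ e23 := FA hF q23
                          have k523 : ¬ e23 ≤ e22 := FB hG q23
                          have k524 : e23 ≤ e9 := MO hf q23 q9 k482
                          have k525 : e23 ≤ e15 := MO hf q23 q15 k485
                          have k526 : ¬ e16 ≤ e23 := L5 l22 k521 k522
                          by_cases k554 : ∃ z, IsGLB ({e0, e23} : Set P) z
                          · obtain ⟨e24, g24⟩ := k554
                            have c24 : Core e0 e24 := CM g24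
                            have k557 : e24 ≤ e0 := G1 g24
                            have k558 : e24 ≤ e23 := G2 g24
                            have k566 : e24 ≤ e15 := le_trans k558 k525
                            have k584 : ¬ e16 ≤ e24 := N2 k526 k558
                            have k591 : e24 ≤ e16 := G3 g16 k557 k566
                            exact HL _ _ _ _ _ _ c24 c16 c6 c0 c4 c8 (LT k591 k584) (LT k287 k283) (LT k42 k48) (LT k21 k28) (LT k85 k86)
                          · obtain ⟨e24, l24⟩ := (h1 e23).resolve_right k554
                            have c24 : Core e0 e24 := CJ k554 l24
                            have k557 : e0 ≤ e24 := L1 l24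
                            have k558 : e23 ≤ e24 := L2 l24
                            have k562 : e10 ≤ e24 := le_trans k111 k557
                            have k564 : e17 ≤ e24 := le_trans k520 k558
                            have k588 : e18 ≤ e24 := L3 l18 k562 k564
                            have k593 : e7 ≤ e24 := le_trans k357 k588
                            have k598 : e8 ≤ e24 := L3 l8 k557 k593
                            have k600 : e24 ≤ e8 := Classical.byContradiction fun hn => HL _ _ _ _ _ _ c2 c6 c11 c14 c8 c24 (LT k44 k53) (LT k141 k149) (LT k231 k229) (LT k208 k217) (LT k598 hn)
                            have k602 : e23 ≤ e8 := le_trans k558 k600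
                            obtain ⟨e25, l25⟩ := ZE h2 k524 k554 g10
                            have c25 : Core e0 e25 := CZ g10 k554 l25
                            have k607 : e10 ≤ e25 := L1 l25
                            have k608 : e23 ≤ e25 := L2 l25
                            have k609 : e25 ≤ e8 := L3 l25 k119 k602
                            have k610 : e25 ≤ e9 := L3 l25 k112 k524
                            have k617 : e20 ≤ e25 := le_trans k521 k608
                            have k618 : ¬ e0 ≤ e25 := N2 k97 k610
                            have k620 : ¬ e8 ≤ e25 := N1 k618 k72
                            have k645 : e21 ≤ e25 := L3 l21 k607 k617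
                            have k651 : e14 ≤ e25 := le_trans k476 k645
                            have k652 : e25 ≤ e14 := Classical.byContradiction fun hn => HL _ _ _ _ _ _ c2 c6 c11 c14 c25 c8 (LT k44 k53) (LT k141 k149) (LT k231 k229) (LT k651 hn) (LT k609 k620)
                            have k654 : e23 ≤ e14 := le_trans k608 k652
                            obtain ⟨e26, l26⟩ := ZE h2 k525 k554 g16
                            have c26 : Core e0 e26 := CZ g16 k554 l26
                            have k659 : e16 ≤ e26 := L1 l26
                            have k660 : e23 ≤ e26 := L2 l26
                            have k664 : e26 ≤ e14 := L3 l26 k289 k654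
                            have k665 : e26 ≤ e15 := L3 l26 k261 k525
                            have k670 : e20 ≤ e26 := le_trans k521 k660
                            have k678 : ¬ e6 ≤ e26 := N2 k251 k665
                            have k681 : ¬ e14 ≤ e26 := N1 k678 k212
                            have k702 : ¬ e26 ≤ e22 := N1 k523 k660
                            have k705 : e22 ≤ e26 := L3 l22 k659 k670
                            exact HL _ _ _ _ _ _ c16 c19 c22 c26 c14 c8 (LT k366 k399) (LT k518 k516) (LT k705 k702) (LT k664 k681) (LT k208 k217)
                  · obtain ⟨e16, l16⟩ := (h1 e15).resolve_right k257
                    have c16 : Core e0 e16 := CJ k257 l16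
                    have k260 : e0 ≤ e16 := L1 l16
                    have k261 : e15 ≤ e16 := L2 l16
                    have k267 : e7 ≤ e16 := le_trans k234 k261
                    have k284 : e8 ≤ e16 := L3 l8 k260 k267
                    have k288 : e16 ≤ e8 := Classical.byContradiction fun hn => HL _ _ _ _ _ _ c2 c6 c11 c14 c8 c16 (LT k44 k53) (LT k141 k149) (LT k231 k229) (LT k208 k217) (LT k284 hn)
                    have k290 : e15 ≤ e8 := le_trans k261 k288
                    obtain ⟨e17, l17⟩ := ZE h2 k238 k257 g10
                    have c17 : Core e0 e17 := CZ g10 k257 l17
                    have k295 : e10 ≤ e17 := L1 l17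
                    have k296 : e15 ≤ e17 := L2 l17
                    have k297 : e17 ≤ e8 := L3 l17 k119 k290
                    have k298 : e17 ≤ e9 := L3 l17 k112 k238
                    have k305 : e12 ≤ e17 := le_trans k235 k296
                    have k306 : ¬ e0 ≤ e17 := N2 k97 k298
                    have k308 : ¬ e8 ≤ e17 := N1 k306 k72
                    have k323 : ¬ e17 ≤ e14 := N1 k237 k296
                    have k326 : e14 ≤ e17 := L3 l14 k295 k305
                    exact HL _ _ _ _ _ _ c2 c6 c11 c14 c17 c8 (LT k44 k53) (LT k141 k149) (LT k231 k229) (LT k326 k323) (LT k297 k308)
              · obtain ⟨e10, l10⟩ := (h1 e9).resolve_right k108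
                have c10 : Core e0 e10 := CJ k108 l10
                have k111 : e0 ≤ e10 := L1 l10
                have k112 : e9 ≤ e10 := L2 l10
                have k119 : e7 ≤ e10 := le_trans k94 k112
                have k129 : ¬ e10 ≤ e8 := N1 k96 k112
                have k131 : e8 ≤ e10 := L3 l8 k111 k119
                exact HL _ _ _ _ _ _ c2 c6 c0 c4 c8 c10 (LT k44 k53) (LT k42 k48) (LT k21 k28) (LT k85 k86) (LT k131 k129)
      · obtain ⟨e6, l6⟩ := (h1 e5).resolve_right k39
        have c6 : Core e0 e6 := CJ k39 l6
        have k42 : e0 ≤ e6 := L1 l6
        have k43 : e5 ≤ e6 := L2 l6
        have k45 : e2 ≤ e6 := le_trans k6 k42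
        have k46 : e1 ≤ e6 := le_trans k30 k43
        have k47 : e3 ≤ e6 := le_trans k31 k43
        have k53 : ¬ e6 ≤ e4 := N1 k33 k43
        have k54 : e4 ≤ e6 := L3 l4 k42 k47
        obtain ⟨e7, q7⟩ : ∃ y, f e6 = y := ⟨_, rfl⟩
        have k56 : e1 ≤ e7 := MO hf q1 q7 k42
        have k57 : e3 ≤ e7 := MO hf q3 q7 k45
        have k58 : e5 ≤ e7 := MO hf q5 q7 k54
        have k59 : ¬ e6 ≤ e7 := FA hF q7
        have k60 : ¬ e7 ≤ e6 := FB hG q7
        have k61 : ¬ e0 ≤ e7 := L5 l6 k58 k59
        have k62 : e2 ≤ e7 := le_trans k7 k56
        by_cases k70 : ∃ z, IsGLB ({e0, e7} : Set P) z
        · obtain ⟨e8, g8⟩ := k70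
          have c8 : Core e0 e8 := CM g8
          have k73 : e8 ≤ e0 := G1 g8
          have k74 : e8 ≤ e7 := G2 g8
          have k75 : e2 ≤ e8 := G3 g8 k6 k62
          have k77 : ¬ e8 ≤ e5 := BN3 g8 k39 k58
          have k79 : e8 ≤ e4 := le_trans k73 k21
          have k80 : e8 ≤ e6 := le_trans k73 k42
          have k81 : ¬ e0 ≤ e8 := N2 k61 k74
          have k87 : ¬ e3 ≤ e8 := N2 k15 k73
          have k88 : ¬ e8 ≤ e1 := N2 k77 k30
          have k89 : ¬ e8 ≤ e2 := N2 k77 k35
          obtain ⟨e9, q9⟩ : ∃ y, f e8 = y := ⟨_, rfl⟩
          have k91 : e3 ≤ e9 := MO hf q3 q9 k75
          have k94 : e9 ≤ e1 := MO hf q9 q1 k73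
          have k96 : e9 ≤ e7 := MO hf q9 q7 k80
          have k98 : e9 ≤ e6 := le_trans k94 k46
          by_cases k104 : ∃ z, IsGLB ({e0, e9} : Set P) z
          · obtain ⟨e10, g10⟩ := k104
            have c10 : Core e0 e10 := CM g10
            have k107 : e10 ≤ e0 := G1 g10
            have k108 : e10 ≤ e9 := G2 g10
            have k113 : e10 ≤ e1 := le_trans k108 k94
            have k126 : e10 ≤ e2 := G3 g2 k107 k113
            have k128 : e2 ≤ e10 := Classical.byContradiction fun hn => HL _ _ _ _ _ _ c10 c2 c8 c0 c4 c6 (LT k126 hn) (LT k75 k89) (LT k73 k81) (LT k21 k28) (LT k54 k53)
            have k129 : e2 ≤ e9 := le_trans k128 k108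
            obtain ⟨e11, l11⟩ := ZE h2 k57 k18 g8
            have c11 : Core e0 e11 := CZ g8 k18 l11
            have k132 : e8 ≤ e11 := L1 l11
            have k133 : e3 ≤ e11 := L2 l11
            have k134 : e11 ≤ e4 := L3 l11 k79 k22
            have k135 : e11 ≤ e6 := L3 l11 k80 k47
            have k136 : e11 ≤ e7 := L3 l11 k74 k57
            have k137 : e2 ≤ e11 := le_trans k75 k132
            have k139 : ¬ e0 ≤ e11 := N2 k61 k136
            have k140 : ¬ e4 ≤ e11 := N1 k139 k21
            have k145 : ¬ e11 ≤ e8 := N1 k87 k133
            obtain ⟨e12, q12⟩ : ∃ y, f e11 = y := ⟨_, rfl⟩
            have k154 : e3 ≤ e12 := MO hf q3 q12 k137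
            have k155 : e9 ≤ e12 := MO hf q9 q12 k132
            have k157 : ¬ e12 ≤ e11 := FB hG q12
            have k158 : e12 ≤ e5 := MO hf q12 q5 k134
            have k159 : e12 ≤ e7 := MO hf q12 q7 k135
            have k161 : e12 ≤ e6 := le_trans k158 k43
            have k162 : e2 ≤ e12 := le_trans k129 k155
            by_cases k173 : ∃ z, IsGLB ({e0, e12} : Set P) z
            · obtain ⟨e13, g13⟩ := k173
              have c13 : Core e0 e13 := CM g13
              have k176 : e13 ≤ e0 := G1 g13
              have k177 : e13 ≤ e12 := G2 g13
              have k178 : e2 ≤ e13 := G3 g13 k6 k162
              have k182 : e13 ≤ e4 := le_trans k176 k21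
              have k183 : e13 ≤ e6 := le_trans k176 k42
              have k184 : e13 ≤ e5 := le_trans k177 k158
              have k185 : e13 ≤ e7 := le_trans k177 k159
              have k196 : ¬ e8 ≤ e13 := N2 k77 k184
              have k197 : e13 ≤ e8 := G3 g8 k176 k185
              have k198 : e13 ≤ e11 := le_trans k197 k132
              have k199 : e13 ≤ e2 := Classical.byContradiction fun hn => HL _ _ _ _ _ _ c2 c13 c8 c0 c4 c6 (LT k178 hn) (LT k197 k196) (LT k73 k81) (LT k21 k28) (LT k54 k53)
              have k200 : e13 ≤ e1 := le_trans k199 k7
              have k201 : e13 ≤ e9 := le_trans k199 k129
              obtain ⟨e14, l14⟩ := ZE h2 k154 k18 g13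
              have c14 : Core e0 e14 := CZ g13 k18 l14
              have k205 : e13 ≤ e14 := L1 l14
              have k206 : e3 ≤ e14 := L2 l14
              have k207 : e14 ≤ e1 := L3 l14 k200 k14
              have k208 : e14 ≤ e4 := L3 l14 k182 k22
              have k210 : e14 ≤ e6 := L3 l14 k183 k47
              have k213 : e14 ≤ e11 := L3 l14 k198 k133
              have k215 : e2 ≤ e14 := le_trans k178 k205
              have k222 : ¬ e14 ≤ e2 := N1 k13 k206
              have k228 : ¬ e8 ≤ e14 := N2 k88 k207
              have k229 : ¬ e11 ≤ e14 := N1 k228 k132
              obtain ⟨e15, q15⟩ : ∃ y, f e14 = y := ⟨_, rfl⟩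
              have k233 : e3 ≤ e15 := MO hf q3 q15 k215
              have k234 : ¬ e14 ≤ e15 := FA hF q15
              have k235 : ¬ e15 ≤ e14 := FB hG q15
              have k236 : e15 ≤ e5 := MO hf q15 q5 k208
              have k237 : e15 ≤ e7 := MO hf q15 q7 k210
              have k238 : e15 ≤ e12 := MO hf q15 q12 k213
              have k239 : ¬ e13 ≤ e15 := L5 l14 k233 k234
              have k240 : e15 ≤ e6 := le_trans k236 k43
              have k253 : ¬ e2 ≤ e15 := N1 k239 k199
              by_cases k259 : ∃ z, IsGLB ({e0, e15} : Set P) z
              · obtain ⟨e16, g16⟩ := k259
                have c16 : Core e0 e16 := CM g16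
                have k262 : e16 ≤ e0 := G1 g16
                have k263 : e16 ≤ e15 := G2 g16
                have k270 : e16 ≤ e12 := le_trans k263 k238
                have k277 : ¬ e2 ≤ e16 := N2 k253 k263
                have k283 : ¬ e13 ≤ e16 := N1 k277 k178
                have k288 : e16 ≤ e13 := G3 g13 k262 k270
                exact HL _ _ _ _ _ _ c16 c13 c8 c0 c4 c6 (LT k288 k283) (LT k197 k196) (LT k73 k81) (LT k21 k28) (LT k54 k53)
              · obtain ⟨e16, l16⟩ := (h1 e15).resolve_right k259
                have c16 : Core e0 e16 := CJ k259 l16
                have k262 : e0 ≤ e16 := L1 l16
                have k263 : e15 ≤ e16 := L2 l16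
                have k264 : e16 ≤ e6 := L3 l16 k42 k240
                have k270 : e3 ≤ e16 := le_trans k233 k263
                have k286 : e4 ≤ e16 := L3 l4 k262 k270
                by_cases k289 : e16 ≤ e4
                · have k290 : e15 ≤ e4 := le_trans k263 k289
                  obtain ⟨e17, l17⟩ := ZE h2 k237 k259 g8
                  have c17 : Core e0 e17 := CZ g8 k259 l17
                  have k295 : e8 ≤ e17 := L1 l17
                  have k296 : e15 ≤ e17 := L2 l17
                  have k297 : e17 ≤ e4 := L3 l17 k79 k290
                  have k299 : e17 ≤ e7 := L3 l17 k74 k237
                  have k304 : e3 ≤ e17 := le_trans k233 k296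
                  have k305 : ¬ e0 ≤ e17 := N2 k61 k299
                  have k306 : ¬ e4 ≤ e17 := N1 k305 k21
                  have k324 : e11 ≤ e17 := L3 l11 k295 k304
                  have k326 : e17 ≤ e11 := Classical.byContradiction fun hn => HL _ _ _ _ _ _ c2 c8 c11 c17 c4 c6 (LT k75 k89) (LT k132 k145) (LT k324 hn) (LT k297 k306) (LT k54 k53)
                  have k327 : e15 ≤ e11 := le_trans k296 k326
                  obtain ⟨e18, l18⟩ := ZE h2 k238 k259 g13
                  have c18 : Core e0 e18 := CZ g13 k259 l18
                  have k331 : e13 ≤ e18 := L1 l18
                  have k332 : e15 ≤ e18 := L2 l18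
                  have k334 : e18 ≤ e5 := L3 l18 k184 k236
                  have k337 : e18 ≤ e11 := L3 l18 k198 k327
                  have k343 : e3 ≤ e18 := le_trans k233 k332
                  have k357 : ¬ e8 ≤ e18 := N2 k77 k334
                  have k358 : ¬ e11 ≤ e18 := N1 k357 k132
                  have k361 : ¬ e18 ≤ e14 := N1 k235 k332
                  have k363 : e14 ≤ e18 := L3 l14 k331 k343
                  exact HL _ _ _ _ _ _ c2 c14 c18 c11 c4 c6 (LT k215 k222) (LT k363 k361) (LT k337 k358) (LT k134 k140) (LT k54 k53)
                · have k290 : ¬ e15 ≤ e4 := L4 l16 k21 k289
                  have k292 : ¬ e15 ≤ e11 := N2 k290 k134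
                  have k293 : e6 ≤ e16 := Classical.byContradiction fun hn => HL _ _ _ _ _ _ c2 c8 c11 c4 c16 c6 (LT k75 k89) (LT k132 k145) (LT k134 k140) (LT k286 k289) (LT k264 hn)
                  obtain ⟨e17, l17⟩ := ZE h2 k237 k259 g8
                  have c17 : Core e0 e17 := CZ g8 k259 l17
                  have k300 : e8 ≤ e17 := L1 l17
                  have k301 : e15 ≤ e17 := L2 l17
                  have k302 : e17 ≤ e6 := L3 l17 k80 k240
                  have k303 : e17 ≤ e7 := L3 l17 k74 k237
                  have k305 : e2 ≤ e17 := le_trans k75 k300
                  have k307 : e13 ≤ e17 := le_trans k197 k300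
                  have k308 : e3 ≤ e17 := le_trans k233 k301
                  have k309 : ¬ e0 ≤ e17 := N2 k61 k303
                  have k311 : ¬ e6 ≤ e17 := N1 k309 k42
                  have k327 : ¬ e17 ≤ e11 := N1 k292 k301
                  have k329 : e11 ≤ e17 := L3 l11 k300 k308
                  have k330 : e14 ≤ e17 := L3 l14 k307 k308
                  obtain ⟨e18, q18⟩ : ∃ y, f e17 = y := ⟨_, rfl⟩
                  have k332 : e3 ≤ e18 := MO hf q3 q18 k305
                  have k333 : e9 ≤ e18 := MO hf q9 q18 k300
                  have k335 : e15 ≤ e18 := MO hf q15 q18 k330
                  have k336 : ¬ e17 ≤ e18 := FA hF q18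
                  have k337 : ¬ e18 ≤ e17 := FB hG q18
                  have k338 : e18 ≤ e7 := MO hf q18 q7 k302
                  have k339 : ¬ e8 ≤ e18 := L5 l17 k335 k336
                  have k340 : e2 ≤ e18 := le_trans k129 k333
                  have k342 : e13 ≤ e18 := le_trans k201 k333
                  by_cases k360 : ∃ z, IsGLB ({e0, e18} : Set P) z
                  · obtain ⟨e19, g19⟩ := k360
                    have c19 : Core e0 e19 := CM g19
                    obtain ⟨e20, l20⟩ := ZE h2 k332 k18 g19
                    have c20 : Core e0 e20 := CZ g19 k18 l20
                    have k365 : e19 ≤ e0 := G1 g19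
                    have k366 : e19 ≤ e18 := G2 g19
                    have k367 : e2 ≤ e19 := G3 g19 k6 k340
                    have k369 : e13 ≤ e19 := G3 g19 k176 k342
                    have k377 : e19 ≤ e6 := le_trans k365 k42
                    have k379 : e19 ≤ e7 := le_trans k366 k338
                    have k412 : ¬ e8 ≤ e19 := N2 k339 k366
                    have k416 : e19 ≤ e8 := G3 g8 k365 k379
                    have k423 : e19 ≤ e17 := le_trans k416 k300
                    have k430 : e19 ≤ e2 := Classical.byContradiction fun hn => HL _ _ _ _ _ _ c2 c19 c8 c0 c4 c6 (LT k367 hn) (LT k416 k412) (LT k73 k81) (LT k21 k28) (LT k54 k53)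
                    obtain ⟨e21, l21⟩ := ZE h2 k335 k259 g19
                    have c21 : Core e0 e21 := CZ g19 k259 l21
                    have k445 : e19 ≤ e21 := L1 l21
                    have k446 : e15 ≤ e21 := L2 l21
                    have k448 : e21 ≤ e6 := L3 l21 k377 k240
                    have k452 : e21 ≤ e17 := L3 l21 k423 k301
                    have k454 : e3 ≤ e21 := le_trans k233 k446
                    have k457 : e13 ≤ e21 := le_trans k369 k445
                    have k476 : ¬ e21 ≤ e14 := N1 k235 k446
                    have k480 : e14 ≤ e21 := L3 l14 k457 k454
                    obtain ⟨e22, q22⟩ : ∃ y, f e21 = y := ⟨_, rfl⟩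
                    have k484 : e15 ≤ e22 := MO hf q15 q22 k480
                    have k485 : ¬ e21 ≤ e22 := FA hF q22
                    have k486 : ¬ e22 ≤ e21 := FB hG q22
                    have k487 : e22 ≤ e7 := MO hf q22 q7 k448
                    have k488 : e22 ≤ e18 := MO hf q22 q18 k452
                    have k489 : ¬ e19 ≤ e22 := L5 l21 k484 k485
                    have k510 : ¬ e2 ≤ e22 := N1 k489 k430
                    by_cases k520 : ∃ z, IsGLB ({e0, e22} : Set P) z
                    · obtain ⟨e23, g23⟩ := k520
                      have c23 : Core e0 e23 := CM g23
                      have k523 : e23 ≤ e0 := G1 g23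
                      have k524 : e23 ≤ e22 := G2 g23
                      have k532 : e23 ≤ e18 := le_trans k524 k488
                      have k540 : ¬ e2 ≤ e23 := N2 k510 k524
                      have k550 : ¬ e19 ≤ e23 := N1 k540 k367
                      have k557 : e23 ≤ e19 := G3 g19 k523 k532
                      exact HL _ _ _ _ _ _ c23 c19 c8 c0 c4 c6 (LT k557 k550) (LT k416 k412) (LT k73 k81) (LT k21 k28) (LT k54 k53)
                    · obtain ⟨e23, l23⟩ := (h1 e22).resolve_right k520
                      have c23 : Core e0 e23 := CJ k520 l23
                      have k523 : e0 ≤ e23 := L1 l23
                      have k524 : e22 ≤ e23 := L2 l23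
                      have k532 : e15 ≤ e23 := le_trans k484 k524
                      have k557 : e16 ≤ e23 := L3 l16 k523 k532
                      have k563 : e6 ≤ e23 := le_trans k293 k557
                      have k566 : e23 ≤ e6 := Classical.byContradiction fun hn => HL _ _ _ _ _ _ c2 c8 c11 c17 c6 c23 (LT k75 k89) (LT k132 k145) (LT k329 k327) (LT k302 k311) (LT k563 hn)
                      have k568 : e22 ≤ e6 := le_trans k524 k566
                      obtain ⟨e24, l24⟩ := ZE h2 k487 k520 g8
                      have c24 : Core e0 e24 := CZ g8 k520 l24
                      have k573 : e8 ≤ e24 := L1 l24
                      have k574 : e22 ≤ e24 := L2 l24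
                      have k575 : e24 ≤ e6 := L3 l24 k80 k568
                      have k576 : e24 ≤ e7 := L3 l24 k74 k487
                      have k584 : e15 ≤ e24 := le_trans k484 k574
                      have k585 : ¬ e0 ≤ e24 := N2 k61 k576
                      have k587 : ¬ e6 ≤ e24 := N1 k585 k42
                      have k613 : e17 ≤ e24 := L3 l17 k573 k584
                      have k616 : e24 ≤ e17 := Classical.byContradiction fun hn => HL _ _ _ _ _ _ c2 c8 c11 c17 c24 c6 (LT k75 k89) (LT k132 k145) (LT k329 k327) (LT k613 hn) (LT k575 k587)
                      have k617 : e22 ≤ e17 := le_trans k574 k616
                      obtain ⟨e25, l25⟩ := ZE h2 k488 k520 g19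
                      have c25 : Core e0 e25 := CZ g19 k520 l25
                      have k621 : e19 ≤ e25 := L1 l25
                      have k622 : e22 ≤ e25 := L2 l25
                      have k626 : e25 ≤ e17 := L3 l25 k423 k617
                      have k627 : e25 ≤ e18 := L3 l25 k366 k488
                      have k634 : e15 ≤ e25 := le_trans k484 k622
                      have k650 : ¬ e8 ≤ e25 := N2 k339 k627
                      have k652 : ¬ e17 ≤ e25 := N1 k650 k300
                      have k659 : ¬ e25 ≤ e21 := N1 k486 k622
                      have k663 : e21 ≤ e25 := L3 l21 k621 k634
                      exact HL _ _ _ _ _ _ c2 c14 c21 c25 c17 c6 (LT k215 k222) (LT k480 k476) (LT k663 k659) (LT k626 k652) (LT k302 k311)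
                  · obtain ⟨e19, l19⟩ := (h1 e18).resolve_right k360
                    have c19 : Core e0 e19 := CJ k360 l19
                    have k363 : e0 ≤ e19 := L1 l19
                    have k364 : e18 ≤ e19 := L2 l19
                    have k374 : e15 ≤ e19 := le_trans k335 k364
                    have k394 : e16 ≤ e19 := L3 l16 k363 k374
                    have k398 : e6 ≤ e19 := le_trans k293 k394
                    have k399 : e19 ≤ e6 := Classical.byContradiction fun hn => HL _ _ _ _ _ _ c2 c8 c11 c17 c6 c19 (LT k75 k89) (LT k132 k145) (LT k329 k327) (LT k302 k311) (LT k398 hn)
                    have k401 : e18 ≤ e6 := le_trans k364 k399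
                    obtain ⟨e20, l20⟩ := ZE h2 k338 k360 g8
                    have c20 : Core e0 e20 := CZ g8 k360 l20
                    have k406 : e8 ≤ e20 := L1 l20
                    have k407 : e18 ≤ e20 := L2 l20
                    have k408 : e20 ≤ e6 := L3 l20 k80 k401
                    have k409 : e20 ≤ e7 := L3 l20 k74 k338
                    have k419 : e15 ≤ e20 := le_trans k335 k407
                    have k420 : ¬ e0 ≤ e20 := N2 k61 k409
                    have k422 : ¬ e6 ≤ e20 := N1 k420 k42
                    have k441 : ¬ e20 ≤ e17 := N1 k337 k407
                    have k444 : e17 ≤ e20 := L3 l17 k406 k419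
                    exact HL _ _ _ _ _ _ c2 c14 c11 c17 c20 c6 (LT k215 k222) (LT k213 k229) (LT k329 k327) (LT k444 k441) (LT k408 k422)
            · obtain ⟨e13, l13⟩ := (h1 e12).resolve_right k173
              have c13 : Core e0 e13 := CJ k173 l13
              have k176 : e0 ≤ e13 := L1 l13
              have k177 : e12 ≤ e13 := L2 l13
              have k178 : e13 ≤ e6 := L3 l13 k42 k161
              have k183 : e3 ≤ e13 := le_trans k154 k177
              have k197 : e4 ≤ e13 := L3 l4 k176 k183
              by_cases k199 : e13 ≤ e4
              · have k201 : e12 ≤ e4 := le_trans k177 k199
                obtain ⟨e14, l14⟩ := ZE h2 k159 k173 g8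
                have c14 : Core e0 e14 := CZ g8 k173 l14
                have k208 : e8 ≤ e14 := L1 l14
                have k209 : e12 ≤ e14 := L2 l14
                have k210 : e14 ≤ e4 := L3 l14 k79 k201
                have k212 : e14 ≤ e7 := L3 l14 k74 k159
                have k216 : e3 ≤ e14 := le_trans k154 k209
                have k218 : ¬ e0 ≤ e14 := N2 k61 k212
                have k219 : ¬ e4 ≤ e14 := N1 k218 k21
                have k233 : ¬ e14 ≤ e11 := N1 k157 k209
                have k235 : e11 ≤ e14 := L3 l11 k208 k216
                exact HL _ _ _ _ _ _ c2 c8 c11 c14 c4 c6 (LT k75 k89) (LT k132 k145) (LT k235 k233) (LT k210 k219) (LT k54 k53)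
              · have k201 : e6 ≤ e13 := Classical.byContradiction fun hn => HL _ _ _ _ _ _ c2 c8 c11 c4 c13 c6 (LT k75 k89) (LT k132 k145) (LT k134 k140) (LT k197 k199) (LT k178 hn)
                obtain ⟨e14, l14⟩ := ZE h2 k159 k173 g8
                have c14 : Core e0 e14 := CZ g8 k173 l14
                have k206 : e8 ≤ e14 := L1 l14
                have k207 : e12 ≤ e14 := L2 l14
                have k208 : e14 ≤ e6 := L3 l14 k80 k161
                have k209 : e14 ≤ e7 := L3 l14 k74 k159
                have k213 : e3 ≤ e14 := le_trans k154 k207
                have k215 : ¬ e0 ≤ e14 := N2 k61 k209
                have k217 : ¬ e6 ≤ e14 := N1 k215 k42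
                have k230 : ¬ e14 ≤ e11 := N1 k157 k207
                have k232 : e11 ≤ e14 := L3 l11 k206 k213
                obtain ⟨e15, q15⟩ : ∃ y, f e14 = y := ⟨_, rfl⟩
                have k235 : e9 ≤ e15 := MO hf q9 q15 k206
                have k236 : e12 ≤ e15 := MO hf q12 q15 k232
                have k237 : ¬ e14 ≤ e15 := FA hF q15
                have k238 : ¬ e15 ≤ e14 := FB hG q15
                have k239 : e15 ≤ e7 := MO hf q15 q7 k208
                have k240 : ¬ e8 ≤ e15 := L5 l14 k236 k237
                have k241 : e2 ≤ e15 := le_trans k129 k235
                by_cases k258 : ∃ z, IsGLB ({e0, e15} : Set P) z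
                · obtain ⟨e16, g16⟩ := k258
                  have c16 : Core e0 e16 := CM g16
                  have k261 : e16 ≤ e0 := G1 g16
                  have k262 : e16 ≤ e15 := G2 g16
                  have k263 : e2 ≤ e16 := G3 g16 k6 k241
                  have k266 : ¬ e16 ≤ e12 := BN3 g16 k173 k236
                  have k271 : e16 ≤ e7 := le_trans k262 k239
                  have k285 : ¬ e8 ≤ e16 := N2 k240 k262
                  have k286 : ¬ e16 ≤ e2 := N2 k266 k162
                  have k290 : e16 ≤ e8 := G3 g8 k261 k271
                  exact HL _ _ _ _ _ _ c2 c16 c8 c0 c4 c6 (LT k263 k286) (LT k290 k285) (LT k73 k81) (LT k21 k28) (LT k54 k53)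
                · obtain ⟨e16, l16⟩ := (h1 e15).resolve_right k258
                  have c16 : Core e0 e16 := CJ k258 l16
                  have k261 : e0 ≤ e16 := L1 l16
                  have k262 : e15 ≤ e16 := L2 l16
                  have k269 : e12 ≤ e16 := le_trans k236 k262
                  have k286 : e13 ≤ e16 := L3 l13 k261 k269
                  have k290 : e6 ≤ e16 := le_trans k201 k286
                  have k291 : e16 ≤ e6 := Classical.byContradiction fun hn => HL _ _ _ _ _ _ c2 c8 c11 c14 c6 c16 (LT k75 k89) (LT k132 k145) (LT k232 k230) (LT k208 k217) (LT k290 hn)
                  have k293 : e15 ≤ e6 := le_trans k262 k291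
                  obtain ⟨e17, l17⟩ := ZE h2 k239 k258 g8
                  have c17 : Core e0 e17 := CZ g8 k258 l17
                  have k298 : e8 ≤ e17 := L1 l17
                  have k299 : e15 ≤ e17 := L2 l17
                  have k300 : e17 ≤ e6 := L3 l17 k80 k293
                  have k301 : e17 ≤ e7 := L3 l17 k74 k239
                  have k308 : e12 ≤ e17 := le_trans k236 k299
                  have k309 : ¬ e0 ≤ e17 := N2 k61 k301
                  have k311 : ¬ e6 ≤ e17 := N1 k309 k42
                  have k327 : ¬ e17 ≤ e14 := N1 k238 k299
                  have k330 : e14 ≤ e17 := L3 l14 k298 k308
                  exact HL _ _ _ _ _ _ c2 c8 c11 c14 c17 c6 (LT k75 k89) (LT k132 k145) (LT k232 k230) (LT k330 k327) (LT k300 k311)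
          · have k105 : ¬ e2 ≤ e9 := BN3 g2 k104 k94
            obtain ⟨e10, l10⟩ := (h1 e9).resolve_right k104
            have c10 : Core e0 e10 := CJ k104 l10
            have k110 : e0 ≤ e10 := L1 l10
            have k111 : e9 ≤ e10 := L2 l10
            have k112 : e10 ≤ e6 := L3 l10 k42 k98
            have k116 : e3 ≤ e10 := le_trans k91 k111
            have k126 : e4 ≤ e10 := L3 l4 k110 k116
            by_cases k127 : e10 ≤ e4
            · have k128 : e9 ≤ e4 := le_trans k111 k127
              obtain ⟨e11, l11⟩ := ZE h2 k96 k104 g8
              have c11 : Core e0 e11 := CZ g8 k104 l11
              have k133 : e8 ≤ e11 := L1 l11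
              have k134 : e9 ≤ e11 := L2 l11
              have k135 : e11 ≤ e4 := L3 l11 k79 k128
              have k136 : e11 ≤ e6 := L3 l11 k80 k98
              have k137 : e11 ≤ e7 := L3 l11 k74 k96
              have k139 : e2 ≤ e11 := le_trans k75 k133
              have k140 : e3 ≤ e11 := le_trans k91 k134
              have k141 : ¬ e0 ≤ e11 := N2 k61 k137
              have k142 : ¬ e4 ≤ e11 := N1 k141 k21
              have k149 : ¬ e11 ≤ e8 := N1 k87 k140
              obtain ⟨e12, q12⟩ : ∃ y, f e11 = y := ⟨_, rfl⟩
              have k156 : e3 ≤ e12 := MO hf q3 q12 k139
              have k157 : e9 ≤ e12 := MO hf q9 q12 k133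
              have k159 : ¬ e12 ≤ e11 := FB hG q12
              have k160 : e12 ≤ e5 := MO hf q12 q5 k135
              have k161 : e12 ≤ e7 := MO hf q12 q7 k136
              have k163 : e12 ≤ e6 := le_trans k160 k43
              by_cases k174 : ∃ z, IsGLB ({e0, e12} : Set P) z
              · obtain ⟨e13, g13⟩ := k174
                have c13 : Core e0 e13 := CM g13
                have k177 : e13 ≤ e0 := G1 g13
                have k178 : e13 ≤ e12 := G2 g13
                have k182 : e13 ≤ e4 := le_trans k177 k21
                have k183 : e13 ≤ e6 := le_trans k177 k42
                have k185 : e13 ≤ e5 := le_trans k178 k160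
                have k186 : e13 ≤ e7 := le_trans k178 k161
                have k198 : ¬ e8 ≤ e13 := N2 k77 k185
                have k199 : e13 ≤ e8 := G3 g8 k177 k186
                have k200 : e13 ≤ e11 := le_trans k199 k133
                obtain ⟨e14, q14⟩ : ∃ y, f e13 = y := ⟨_, rfl⟩
                have k203 : ¬ e14 ≤ e13 := FB hG q14
                have k204 : e14 ≤ e1 := MO hf q14 q1 k177
                have k206 : e14 ≤ e7 := MO hf q14 q7 k183
                have k207 : e14 ≤ e9 := MO hf q14 q9 k199
                have k208 : e14 ≤ e12 := MO hf q14 q12 k200
                have k209 : ¬ e14 ≤ e0 := G5 g13 k208 k203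
                have k210 : e14 ≤ e6 := le_trans k204 k46
                have k211 : e14 ≤ e4 := le_trans k207 k128
                have k213 : e14 ≤ e11 := le_trans k207 k134
                have k226 : ¬ e14 ≤ e8 := N2 k209 k73
                by_cases k227 : ∃ z, IsGLB ({e0, e14} : Set P) z
                · obtain ⟨e15, g15⟩ := k227
                  have c15 : Core e0 e15 := CM g15
                  have k230 : e15 ≤ e0 := G1 g15
                  have k231 : e15 ≤ e14 := G2 g15
                  have k236 : e15 ≤ e1 := le_trans k231 k204
                  have k239 : e15 ≤ e9 := le_trans k231 k207
                  have k249 : ¬ e2 ≤ e15 := N2 k105 k239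
                  have k257 : e15 ≤ e2 := G3 g2 k230 k236
                  exact HL _ _ _ _ _ _ c15 c2 c8 c0 c4 c6 (LT k257 k249) (LT k75 k89) (LT k73 k81) (LT k21 k28) (LT k54 k53)
                · obtain ⟨e15, l15⟩ := ZE h2 k206 k227 g8
                  have c15 : Core e0 e15 := CZ g8 k227 l15
                  have k230 : e8 ≤ e15 := L1 l15
                  have k231 : e14 ≤ e15 := L2 l15
                  have k236 : e15 ≤ e11 := L3 l15 k133 k213
                  have k255 : ¬ e15 ≤ e8 := N1 k226 k231
                  have k257 : e11 ≤ e15 := Classical.byContradiction fun hn => HL _ _ _ _ _ _ c2 c8 c15 c11 c4 c6 (LT k75 k89) (LT k230 k255) (LT k236 hn) (LT k135 k142) (LT k54 k53)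
                  have k258 : e3 ≤ e15 := le_trans k140 k257
                  obtain ⟨e16, l16⟩ := ZE h2 k208 k227 g13
                  have c16 : Core e0 e16 := CZ g13 k227 l16
                  have k262 : e13 ≤ e16 := L1 l16
                  have k263 : e14 ≤ e16 := L2 l16
                  have k264 : e16 ≤ e4 := L3 l16 k182 k211
                  have k266 : e16 ≤ e6 := L3 l16 k183 k210
                  have k269 : e16 ≤ e11 := L3 l16 k200 k213
                  have k288 : ¬ e16 ≤ e13 := N1 k203 k263
                  obtain ⟨e17, q17⟩ : ∃ y, f e16 = y := ⟨_, rfl⟩
                  have k291 : e14 ≤ e17 := MO hf q14 q17 k262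
                  have k292 : ¬ e16 ≤ e17 := FA hF q17
                  have k293 : ¬ e17 ≤ e16 := FB hG q17
                  have k294 : e17 ≤ e5 := MO hf q17 q5 k264
                  have k295 : e17 ≤ e7 := MO hf q17 q7 k266
                  have k296 : e17 ≤ e12 := MO hf q17 q12 k269
                  have k297 : ¬ e13 ≤ e17 := L5 l16 k291 k292
                  have k298 : e17 ≤ e6 := le_trans k294 k43
                  by_cases k314 : ∃ z, IsGLB ({e0, e17} : Set P) z
                  · obtain ⟨e18, g18⟩ := k314
                    have c18 : Core e0 e18 := CM g18
                    have k317 : e18 ≤ e0 := G1 g18
                    have k318 : e18 ≤ e17 := G2 g18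
                    have k326 : e18 ≤ e12 := le_trans k318 k296
                    have k340 : ¬ e13 ≤ e18 := N2 k297 k318
                    have k345 : e18 ≤ e13 := G3 g13 k317 k326
                    exact HL _ _ _ _ _ _ c18 c13 c8 c0 c4 c6 (LT k345 k340) (LT k199 k198) (LT k73 k81) (LT k21 k28) (LT k54 k53)
                  · obtain ⟨e18, l18⟩ := (h1 e17).resolve_right k314
                    have c18 : Core e0 e18 := CJ k314 l18
                    have k317 : e0 ≤ e18 := L1 l18
                    have k318 : e17 ≤ e18 := L2 l18
                    have k319 : e18 ≤ e6 := L3 l18 k42 k298
                    have k322 : e8 ≤ e18 := le_trans k73 k317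
                    have k324 : e14 ≤ e18 := le_trans k291 k318
                    have k341 : e15 ≤ e18 := L3 l15 k322 k324
                    have k343 : e3 ≤ e18 := le_trans k258 k341
                    have k346 : e4 ≤ e18 := L3 l4 k317 k343
                    by_cases k348 : e18 ≤ e4
                    · have k350 : e17 ≤ e4 := le_trans k318 k348
                      obtain ⟨e19, l19⟩ := ZE h2 k295 k314 g8
                      have c19 : Core e0 e19 := CZ g8 k314 l19
                      have k356 : e8 ≤ e19 := L1 l19
                      have k357 : e17 ≤ e19 := L2 l19
                      have k358 : e19 ≤ e4 := L3 l19 k79 k350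
                      have k360 : e19 ≤ e7 := L3 l19 k74 k295
                      have k365 : e14 ≤ e19 := le_trans k291 k357
                      have k366 : ¬ e0 ≤ e19 := N2 k61 k360
                      have k367 : ¬ e4 ≤ e19 := N1 k366 k21
                      have k386 : e15 ≤ e19 := L3 l15 k356 k365
                      have k390 : e11 ≤ e19 := le_trans k257 k386
                      have k391 : e19 ≤ e11 := Classical.byContradiction fun hn => HL _ _ _ _ _ _ c2 c8 c11 c19 c4 c6 (LT k75 k89) (LT k133 k149) (LT k390 hn) (LT k358 k367) (LT k54 k53)
                      have k393 : e17 ≤ e11 := le_trans k357 k391
                      obtain ⟨e20, l20⟩ := ZE h2 k296 k314 g13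
                      have c20 : Core e0 e20 := CZ g13 k314 l20
                      have k398 : e13 ≤ e20 := L1 l20
                      have k399 : e17 ≤ e20 := L2 l20
                      have k401 : e20 ≤ e5 := L3 l20 k185 k294
                      have k405 : e20 ≤ e11 := L3 l20 k200 k393
                      have k410 : e14 ≤ e20 := le_trans k291 k399
                      have k418 : ¬ e8 ≤ e20 := N2 k77 k401
                      have k419 : ¬ e11 ≤ e20 := N1 k418 k133
                      have k431 : ¬ e20 ≤ e16 := N1 k293 k399
                      have k433 : e16 ≤ e20 := L3 l16 k398 k410
                      exact HL _ _ _ _ _ _ c13 c16 c20 c11 c4 c6 (LT k262 k288) (LT k433 k431) (LT k405 k419) (LT k135 k142) (LT k54 k53)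
                    · have k350 : ¬ e17 ≤ e4 := L4 l18 k21 k348
                      have k355 : ¬ e17 ≤ e11 := N2 k350 k135
                      have k358 : e6 ≤ e18 := Classical.byContradiction fun hn => HL _ _ _ _ _ _ c2 c8 c11 c4 c18 c6 (LT k75 k89) (LT k133 k149) (LT k135 k142) (LT k346 k348) (LT k319 hn)
                      obtain ⟨e19, l19⟩ := ZE h2 k295 k314 g8
                      have c19 : Core e0 e19 := CZ g8 k314 l19
                      have k364 : e8 ≤ e19 := L1 l19
                      have k365 : e17 ≤ e19 := L2 l19
                      have k366 : e19 ≤ e6 := L3 l19 k80 k298
                      have k367 : e19 ≤ e7 := L3 l19 k74 k295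
                      have k370 : e13 ≤ e19 := le_trans k199 k364
                      have k371 : e14 ≤ e19 := le_trans k291 k365
                      have k372 : ¬ e0 ≤ e19 := N2 k61 k367
                      have k374 : ¬ e6 ≤ e19 := N1 k372 k42
                      have k392 : ¬ e19 ≤ e11 := N1 k355 k365
                      have k395 : e15 ≤ e19 := L3 l15 k364 k371
                      have k396 : e16 ≤ e19 := L3 l16 k370 k371
                      have k399 : e11 ≤ e19 := le_trans k257 k395
                      obtain ⟨e20, q20⟩ : ∃ y, f e19 = y := ⟨_, rfl⟩
                      have k403 : e12 ≤ e20 := MO hf q12 q20 k399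
                      have k404 : e14 ≤ e20 := MO hf q14 q20 k370
                      have k405 : e17 ≤ e20 := MO hf q17 q20 k396
                      have k406 : ¬ e19 ≤ e20 := FA hF q20
                      have k407 : ¬ e20 ≤ e19 := FB hG q20
                      have k408 : e20 ≤ e7 := MO hf q20 q7 k366
                      have k409 : ¬ e8 ≤ e20 := L5 l19 k405 k406
                      have k410 : e13 ≤ e20 := le_trans k178 k403
                      by_cases k433 : ∃ z, IsGLB ({e0, e20} : Set P) z
                      · obtain ⟨e21, g21⟩ := k433
                        have c21 : Core e0 e21 := CM g21
                        obtain ⟨e22, l22⟩ := ZE h2 k404 k227 g21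
                        have c22 : Core e0 e22 := CZ g21 k227 l22
                        have k438 : e21 ≤ e0 := G1 g21
                        have k439 : e21 ≤ e20 := G2 g21
                        have k440 : e13 ≤ e21 := G3 g21 k177 k410
                        have k450 : e21 ≤ e6 := le_trans k438 k42
                        have k453 : e21 ≤ e7 := le_trans k439 k408
                        have k477 : ¬ e8 ≤ e21 := N2 k409 k439
                        have k494 : e21 ≤ e8 := G3 g8 k438 k453
                        have k503 : e21 ≤ e19 := le_trans k494 k364
                        have k511 : e21 ≤ e13 := Classical.byContradiction fun hn => HL _ _ _ _ _ _ c13 c21 c8 c0 c4 c6 (LT k440 hn) (LT k494 k477) (LT k73 k81) (LT k21 k28) (LT k54 k53)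
                        obtain ⟨e23, l23⟩ := ZE h2 k405 k314 g21
                        have c23 : Core e0 e23 := CZ g21 k314 l23
                        have k520 : e21 ≤ e23 := L1 l23
                        have k521 : e17 ≤ e23 := L2 l23
                        have k523 : e23 ≤ e6 := L3 l23 k450 k298
                        have k527 : e23 ≤ e19 := L3 l23 k503 k365
                        have k529 : e14 ≤ e23 := le_trans k291 k521
                        have k530 : e13 ≤ e23 := le_trans k440 k520
                        have k554 : ¬ e23 ≤ e16 := N1 k293 k521
                        have k558 : e16 ≤ e23 := L3 l16 k530 k529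
                        obtain ⟨e24, q24⟩ : ∃ y, f e23 = y := ⟨_, rfl⟩
                        have k562 : e17 ≤ e24 := MO hf q17 q24 k558
                        have k563 : ¬ e23 ≤ e24 := FA hF q24
                        have k564 : ¬ e24 ≤ e23 := FB hG q24
                        have k565 : e24 ≤ e7 := MO hf q24 q7 k523
                        have k566 : e24 ≤ e20 := MO hf q24 q20 k527
                        have k567 : ¬ e21 ≤ e24 := L5 l23 k562 k563
                        have k594 : ¬ e13 ≤ e24 := N1 k567 k511
                        by_cases k599 : ∃ z, IsGLB ({e0, e24} : Set P) z
                        · obtain ⟨e25, g25⟩ := k599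
                          have c25 : Core e0 e25 := CM g25
                          have k602 : e25 ≤ e0 := G1 g25
                          have k603 : e25 ≤ e24 := G2 g25
                          have k612 : e25 ≤ e20 := le_trans k603 k566
                          have k629 : ¬ e13 ≤ e25 := N2 k594 k603
                          have k631 : ¬ e21 ≤ e25 := N1 k629 k440
                          have k638 : e25 ≤ e21 := G3 g21 k602 k612
                          exact HL _ _ _ _ _ _ c25 c21 c8 c0 c4 c6 (LT k638 k631) (LT k494 k477) (LT k73 k81) (LT k21 k28) (LT k54 k53)
                        · obtain ⟨e25, l25⟩ := (h1 e24).resolve_right k599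
                          have c25 : Core e0 e25 := CJ k599 l25
                          have k602 : e0 ≤ e25 := L1 l25
                          have k603 : e24 ≤ e25 := L2 l25
                          have k610 : e17 ≤ e25 := le_trans k562 k603
                          have k636 : e18 ≤ e25 := L3 l18 k602 k610
                          have k646 : e6 ≤ e25 := le_trans k358 k636
                          have k649 : e25 ≤ e6 := Classical.byContradiction fun hn => HL _ _ _ _ _ _ c2 c8 c11 c19 c6 c25 (LT k75 k89) (LT k133 k149) (LT k399 k392) (LT k366 k374) (LT k646 hn)
                          have k651 : e24 ≤ e6 := le_trans k603 k649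
                          obtain ⟨e26, l26⟩ := ZE h2 k565 k599 g8
                          have c26 : Core e0 e26 := CZ g8 k599 l26
                          have k656 : e8 ≤ e26 := L1 l26
                          have k657 : e24 ≤ e26 := L2 l26
                          have k658 : e26 ≤ e6 := L3 l26 k80 k651
                          have k659 : e26 ≤ e7 := L3 l26 k74 k565
                          have k666 : e17 ≤ e26 := le_trans k562 k657
                          have k667 : ¬ e0 ≤ e26 := N2 k61 k659
                          have k669 : ¬ e6 ≤ e26 := N1 k667 k42
                          have k698 : e19 ≤ e26 := L3 l19 k656 k666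
                          have k704 : e26 ≤ e19 := Classical.byContradiction fun hn => HL _ _ _ _ _ _ c2 c8 c11 c19 c26 c6 (LT k75 k89) (LT k133 k149) (LT k399 k392) (LT k698 hn) (LT k658 k669)
                          have k705 : e24 ≤ e19 := le_trans k657 k704
                          obtain ⟨e27, l27⟩ := ZE h2 k566 k599 g21
                          have c27 : Core e0 e27 := CZ g21 k599 l27
                          have k709 : e21 ≤ e27 := L1 l27
                          have k710 : e24 ≤ e27 := L2 l27
                          have k714 : e27 ≤ e19 := L3 l27 k503 k705
                          have k715 : e27 ≤ e20 := L3 l27 k439 k566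
                          have k720 : e17 ≤ e27 := le_trans k562 k710
                          have k728 : ¬ e8 ≤ e27 := N2 k409 k715
                          have k731 : ¬ e19 ≤ e27 := N1 k728 k364
                          have k750 : ¬ e27 ≤ e23 := N1 k564 k710
                          have k754 : e23 ≤ e27 := L3 l23 k709 k720
                          exact HL _ _ _ _ _ _ c13 c16 c23 c27 c19 c6 (LT k262 k288) (LT k558 k554) (LT k754 k750) (LT k714 k731) (LT k366 k374)
                      · obtain ⟨e21, l21⟩ := (h1 e20).resolve_right k433
                        have c21 : Core e0 e21 := CJ k433 l21
                        have k436 : e0 ≤ e21 := L1 l21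
                        have k437 : e20 ≤ e21 := L2 l21
                        have k447 : e17 ≤ e21 := le_trans k405 k437
                        have k471 : e18 ≤ e21 := L3 l18 k436 k447
                        have k475 : e6 ≤ e21 := le_trans k358 k471
                        have k476 : e21 ≤ e6 := Classical.byContradiction fun hn => HL _ _ _ _ _ _ c2 c8 c11 c19 c6 c21 (LT k75 k89) (LT k133 k149) (LT k399 k392) (LT k366 k374) (LT k475 hn)
                        have k478 : e20 ≤ e6 := le_trans k437 k476
                        obtain ⟨e22, l22⟩ := ZE h2 k408 k433 g8
                        have c22 : Core e0 e22 := CZ g8 k433 l22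
                        have k483 : e8 ≤ e22 := L1 l22
                        have k484 : e20 ≤ e22 := L2 l22
                        have k485 : e22 ≤ e6 := L3 l22 k80 k478
                        have k486 : e22 ≤ e7 := L3 l22 k74 k408
                        have k496 : e17 ≤ e22 := le_trans k405 k484
                        have k497 : ¬ e0 ≤ e22 := N2 k61 k486
                        have k499 : ¬ e6 ≤ e22 := N1 k497 k42
                        have k521 : ¬ e22 ≤ e19 := N1 k407 k484
                        have k525 : e19 ≤ e22 := L3 l19 k483 k496
                        exact HL _ _ _ _ _ _ c2 c8 c11 c19 c22 c6 (LT k75 k89) (LT k133 k149) (LT k399 k392) (LT k525 k521) (LT k485 k499)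
              · obtain ⟨e13, l13⟩ := (h1 e12).resolve_right k174
                have c13 : Core e0 e13 := CJ k174 l13
                have k177 : e0 ≤ e13 := L1 l13
                have k178 : e12 ≤ e13 := L2 l13
                have k179 : e13 ≤ e6 := L3 l13 k42 k163
                have k183 : e3 ≤ e13 := le_trans k156 k178
                have k196 : e4 ≤ e13 := L3 l4 k177 k183
                by_cases k199 : e13 ≤ e4
                · have k201 : e12 ≤ e4 := le_trans k178 k199
                  obtain ⟨e14, l14⟩ := ZE h2 k161 k174 g8
                  have c14 : Core e0 e14 := CZ g8 k174 l14
                  have k208 : e8 ≤ e14 := L1 l14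
                  have k209 : e12 ≤ e14 := L2 l14
                  have k210 : e14 ≤ e4 := L3 l14 k79 k201
                  have k212 : e14 ≤ e7 := L3 l14 k74 k161
                  have k217 : e9 ≤ e14 := le_trans k157 k209
                  have k218 : ¬ e0 ≤ e14 := N2 k61 k212
                  have k219 : ¬ e4 ≤ e14 := N1 k218 k21
                  have k233 : ¬ e14 ≤ e11 := N1 k159 k209
                  have k235 : e11 ≤ e14 := L3 l11 k208 k217
                  exact HL _ _ _ _ _ _ c2 c8 c11 c14 c4 c6 (LT k75 k89) (LT k133 k149) (LT k235 k233) (LT k210 k219) (LT k54 k53)
                · have k203 : e6 ≤ e13 := Classical.byContradiction fun hn => HL _ _ _ _ _ _ c2 c8 c11 c4 c13 c6 (LT k75 k89) (LT k133 k149) (LT k135 k142) (LT k196 k199) (LT k179 hn)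
                  obtain ⟨e14, l14⟩ := ZE h2 k161 k174 g8
                  have c14 : Core e0 e14 := CZ g8 k174 l14
                  have k208 : e8 ≤ e14 := L1 l14
                  have k209 : e12 ≤ e14 := L2 l14
                  have k210 : e14 ≤ e6 := L3 l14 k80 k163
                  have k211 : e14 ≤ e7 := L3 l14 k74 k161
                  have k215 : e9 ≤ e14 := le_trans k157 k209
                  have k216 : ¬ e0 ≤ e14 := N2 k61 k211
                  have k218 : ¬ e6 ≤ e14 := N1 k216 k42
                  have k232 : ¬ e14 ≤ e11 := N1 k159 k209
                  have k234 : e11 ≤ e14 := L3 l11 k208 k215
                  obtain ⟨e15, q15⟩ : ∃ y, f e14 = y := ⟨_, rfl⟩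
                  have k238 : e12 ≤ e15 := MO hf q12 q15 k234
                  have k239 : ¬ e14 ≤ e15 := FA hF q15
                  have k240 : ¬ e15 ≤ e14 := FB hG q15
                  have k241 : e15 ≤ e7 := MO hf q15 q7 k210
                  have k242 : ¬ e8 ≤ e15 := L5 l14 k238 k239
                  by_cases k259 : ∃ z, IsGLB ({e0, e15} : Set P) z
                  · obtain ⟨e16, g16⟩ := k259
                    have c16 : Core e0 e16 := CM g16
                    have k262 : e16 ≤ e0 := G1 g16
                    have k263 : e16 ≤ e15 := G2 g16
                    have k266 : ¬ e16 ≤ e12 := BN3 g16 k174 k238
                    have k268 : e16 ≤ e4 := le_trans k262 k21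
                    have k269 : e16 ≤ e6 := le_trans k262 k42
                    have k272 : e16 ≤ e7 := le_trans k263 k241
                    have k287 : ¬ e8 ≤ e16 := N2 k242 k263
                    have k288 : e16 ≤ e8 := G3 g8 k262 k272
                    have k289 : e16 ≤ e11 := le_trans k288 k133
                    have k290 : e16 ≤ e14 := le_trans k288 k208
                    obtain ⟨e17, q17⟩ : ∃ y, f e16 = y := ⟨_, rfl⟩
                    have k293 : ¬ e17 ≤ e16 := FB hG q17
                    have k294 : e17 ≤ e1 := MO hf q17 q1 k262
                    have k296 : e17 ≤ e7 := MO hf q17 q7 k269
                    have k297 : e17 ≤ e9 := MO hf q17 q9 k288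
                    have k299 : e17 ≤ e15 := MO hf q17 q15 k290
                    have k300 : ¬ e17 ≤ e0 := G5 g16 k299 k293
                    have k301 : e17 ≤ e6 := le_trans k294 k46
                    have k303 : e17 ≤ e4 := le_trans k297 k128
                    have k305 : e17 ≤ e11 := le_trans k297 k134
                    have k306 : e17 ≤ e14 := le_trans k297 k215
                    have k322 : ¬ e17 ≤ e8 := N2 k300 k73
                    by_cases k323 : ∃ z, IsGLB ({e0, e17} : Set P) z
                    · obtain ⟨e18, g18⟩ := k323
                      have c18 : Core e0 e18 := CM g18
                      have k326 : e18 ≤ e0 := G1 g18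
                      have k327 : e18 ≤ e17 := G2 g18
                      have k333 : e18 ≤ e1 := le_trans k327 k294
                      have k336 : e18 ≤ e9 := le_trans k327 k297
                      have k349 : ¬ e2 ≤ e18 := N2 k105 k336
                      have k359 : e18 ≤ e2 := G3 g2 k326 k333
                      exact HL _ _ _ _ _ _ c18 c2 c8 c0 c4 c6 (LT k359 k349) (LT k75 k89) (LT k73 k81) (LT k21 k28) (LT k54 k53)
                    · obtain ⟨e18, l18⟩ := ZE h2 k296 k323 g8
                      have c18 : Core e0 e18 := CZ g8 k323 l18
                      have k326 : e8 ≤ e18 := L1 l18
                      have k327 : e17 ≤ e18 := L2 l18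
                      have k332 : e18 ≤ e11 := L3 l18 k133 k305
                      have k357 : ¬ e18 ≤ e8 := N1 k322 k327
                      have k359 : e11 ≤ e18 := Classical.byContradiction fun hn => HL _ _ _ _ _ _ c2 c8 c18 c11 c4 c6 (LT k75 k89) (LT k326 k357) (LT k332 hn) (LT k135 k142) (LT k54 k53)
                      obtain ⟨e19, l19⟩ := ZE h2 k299 k323 g16
                      have c19 : Core e0 e19 := CZ g16 k323 l19
                      have k364 : e16 ≤ e19 := L1 l19
                      have k365 : e17 ≤ e19 := L2 l19
                      have k366 : e19 ≤ e4 := L3 l19 k268 k303
                      have k367 : e19 ≤ e6 := L3 l19 k269 k301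
                      have k370 : e19 ≤ e11 := L3 l19 k289 k305
                      have k372 : e19 ≤ e14 := L3 l19 k290 k306
                      have k395 : ¬ e19 ≤ e16 := N1 k293 k365
                      obtain ⟨e20, q20⟩ : ∃ y, f e19 = y := ⟨_, rfl⟩
                      have k398 : e17 ≤ e20 := MO hf q17 q20 k364
                      have k400 : ¬ e20 ≤ e19 := FB hG q20
                      have k401 : e20 ≤ e5 := MO hf q20 q5 k366
                      have k402 : e20 ≤ e7 := MO hf q20 q7 k367
                      have k403 : e20 ≤ e12 := MO hf q20 q12 k370
                      have k404 : e20 ≤ e15 := MO hf q20 q15 k372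
                      have k406 : e20 ≤ e6 := le_trans k401 k43
                      have k408 : e20 ≤ e14 := le_trans k403 k209
                      by_cases k425 : ∃ z, IsGLB ({e0, e20} : Set P) z
                      · obtain ⟨e21, g21⟩ := k425
                        have c21 : Core e0 e21 := CM g21
                        have k428 : e21 ≤ e0 := G1 g21
                        have k429 : e21 ≤ e20 := G2 g21
                        have k438 : e21 ≤ e12 := le_trans k429 k403
                        have k440 : e21 ≤ e15 := le_trans k429 k404
                        have k457 : ¬ e16 ≤ e21 := N2 k266 k438
                        have k462 : e21 ≤ e16 := G3 g16 k428 k440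
                        exact HL _ _ _ _ _ _ c21 c16 c8 c0 c4 c6 (LT k462 k457) (LT k288 k287) (LT k73 k81) (LT k21 k28) (LT k54 k53)
                      · obtain ⟨e21, l21⟩ := ZE h2 k402 k425 g8
                        have c21 : Core e0 e21 := CZ g8 k425 l21
                        have k428 : e8 ≤ e21 := L1 l21
                        have k429 : e20 ≤ e21 := L2 l21
                        have k433 : e21 ≤ e14 := L3 l21 k208 k408
                        have k436 : e17 ≤ e21 := le_trans k398 k429
                        have k458 : e18 ≤ e21 := L3 l18 k428 k436
                        have k462 : e11 ≤ e21 := le_trans k359 k458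
                        by_cases k463 : e21 ≤ e11
                        · have k469 : e20 ≤ e11 := le_trans k429 k463
                          obtain ⟨e22, l22⟩ := ZE h2 k404 k425 g16
                          have c22 : Core e0 e22 := CZ g16 k425 l22
                          have k478 : e16 ≤ e22 := L1 l22
                          have k479 : e20 ≤ e22 := L2 l22
                          have k484 : e22 ≤ e11 := L3 l22 k289 k469
                          have k487 : e22 ≤ e15 := L3 l22 k263 k404
                          have k490 : e17 ≤ e22 := le_trans k398 k479
                          have k498 : ¬ e8 ≤ e22 := N2 k242 k487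
                          have k499 : ¬ e11 ≤ e22 := N1 k498 k133
                          have k514 : ¬ e22 ≤ e19 := N1 k400 k479
                          have k516 : e19 ≤ e22 := L3 l19 k478 k490
                          exact HL _ _ _ _ _ _ c16 c19 c22 c11 c4 c6 (LT k364 k395) (LT k516 k514) (LT k484 k499) (LT k135 k142) (LT k54 k53)
                        · have k469 : e14 ≤ e21 := Classical.byContradiction fun hn => HL _ _ _ _ _ _ c2 c8 c11 c21 c14 c6 (LT k75 k89) (LT k133 k149) (LT k462 k463) (LT k433 hn) (LT k210 k218)
                          have k470 : e12 ≤ e21 := le_trans k209 k469
                          obtain ⟨e22, l22⟩ := ZE h2 k404 k425 g16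
                          have c22 : Core e0 e22 := CZ g16 k425 l22
                          have k477 : e16 ≤ e22 := L1 l22
                          have k478 : e20 ≤ e22 := L2 l22
                          have k479 : e22 ≤ e6 := L3 l22 k269 k406
                          have k482 : e22 ≤ e14 := L3 l22 k290 k408
                          have k485 : e17 ≤ e22 := le_trans k398 k478
                          have k511 : ¬ e22 ≤ e19 := N1 k400 k478
                          have k513 : e19 ≤ e22 := L3 l19 k477 k485
                          obtain ⟨e23, q23⟩ : ∃ y, f e22 = y := ⟨_, rfl⟩
                          have k516 : e20 ≤ e23 := MO hf q20 q23 k513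
                          have k517 : ¬ e22 ≤ e23 := FA hF q23
                          have k518 : ¬ e23 ≤ e22 := FB hG q23
                          have k519 : e23 ≤ e7 := MO hf q23 q7 k479
                          have k520 : e23 ≤ e15 := MO hf q23 q15 k482
                          have k521 : ¬ e16 ≤ e23 := L5 l22 k516 k517
                          by_cases k548 : ∃ z, IsGLB ({e0, e23} : Set P) z
                          · obtain ⟨e24, g24⟩ := k548
                            have c24 : Core e0 e24 := CM g24
                            have k551 : e24 ≤ e0 := G1 g24
                            have k552 : e24 ≤ e23 := G2 g24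
                            have k561 : e24 ≤ e15 := le_trans k552 k520
                            have k579 : ¬ e16 ≤ e24 := N2 k521 k552
                            have k586 : e24 ≤ e16 := G3 g16 k551 k561
                            exact HL _ _ _ _ _ _ c24 c16 c8 c0 c4 c6 (LT k586 k579) (LT k288 k287) (LT k73 k81) (LT k21 k28) (LT k54 k53)
                          · obtain ⟨e24, l24⟩ := (h1 e23).resolve_right k548
                            have c24 : Core e0 e24 := CJ k548 l24
                            have k551 : e0 ≤ e24 := L1 l24
                            have k552 : e23 ≤ e24 := L2 l24
                            have k555 : e8 ≤ e24 := le_trans k73 k551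
                            have k558 : e20 ≤ e24 := le_trans k516 k552
                            have k583 : e21 ≤ e24 := L3 l21 k555 k558
                            have k588 : e12 ≤ e24 := le_trans k470 k583
                            have k592 : e13 ≤ e24 := L3 l13 k551 k588
                            have k595 : e6 ≤ e24 := le_trans k203 k592
                            have k596 : e24 ≤ e6 := Classical.byContradiction fun hn => HL _ _ _ _ _ _ c2 c8 c11 c14 c6 c24 (LT k75 k89) (LT k133 k149) (LT k234 k232) (LT k210 k218) (LT k595 hn)
                            have k598 : e23 ≤ e6 := le_trans k552 k596
                            obtain ⟨e25, l25⟩ := ZE h2 k519 k548 g8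
                            have c25 : Core e0 e25 := CZ g8 k548 l25
                            have k603 : e8 ≤ e25 := L1 l25
                            have k604 : e23 ≤ e25 := L2 l25
                            have k605 : e25 ≤ e6 := L3 l25 k80 k598
                            have k606 : e25 ≤ e7 := L3 l25 k74 k519
                            have k612 : e20 ≤ e25 := le_trans k516 k604
                            have k613 : ¬ e0 ≤ e25 := N2 k61 k606
                            have k615 : ¬ e6 ≤ e25 := N1 k613 k42
                            have k642 : e21 ≤ e25 := L3 l21 k603 k612
                            have k648 : e14 ≤ e25 := le_trans k469 k642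
                            have k649 : e25 ≤ e14 := Classical.byContradiction fun hn => HL _ _ _ _ _ _ c2 c8 c11 c14 c25 c6 (LT k75 k89) (LT k133 k149) (LT k234 k232) (LT k648 hn) (LT k605 k615)
                            have k651 : e23 ≤ e14 := le_trans k604 k649
                            obtain ⟨e26, l26⟩ := ZE h2 k520 k548 g16
                            have c26 : Core e0 e26 := CZ g16 k548 l26
                            have k656 : e16 ≤ e26 := L1 l26
                            have k657 : e23 ≤ e26 := L2 l26
                            have k661 : e26 ≤ e14 := L3 l26 k290 k651
                            have k662 : e26 ≤ e15 := L3 l26 k263 k520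
                            have k667 : e20 ≤ e26 := le_trans k516 k657
                            have k675 : ¬ e8 ≤ e26 := N2 k242 k662
                            have k677 : ¬ e14 ≤ e26 := N1 k675 k208
                            have k697 : ¬ e26 ≤ e22 := N1 k518 k657
                            have k700 : e22 ≤ e26 := L3 l22 k656 k667
                            exact HL _ _ _ _ _ _ c16 c19 c22 c26 c14 c6 (LT k364 k395) (LT k513 k511) (LT k700 k697) (LT k661 k677) (LT k210 k218)
                  · obtain ⟨e16, l16⟩ := (h1 e15).resolve_right k259
                    have c16 : Core e0 e16 := CJ k259 l16
                    have k262 : e0 ≤ e16 := L1 l16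
                    have k263 : e15 ≤ e16 := L2 l16
                    have k269 : e12 ≤ e16 := le_trans k238 k263
                    have k287 : e13 ≤ e16 := L3 l13 k262 k269
                    have k291 : e6 ≤ e16 := le_trans k203 k287
                    have k292 : e16 ≤ e6 := Classical.byContradiction fun hn => HL _ _ _ _ _ _ c2 c8 c11 c14 c6 c16 (LT k75 k89) (LT k133 k149) (LT k234 k232) (LT k210 k218) (LT k291 hn)
                    have k294 : e15 ≤ e6 := le_trans k263 k292
                    obtain ⟨e17, l17⟩ := ZE h2 k241 k259 g8
                    have c17 : Core e0 e17 := CZ g8 k259 l17
                    have k299 : e8 ≤ e17 := L1 l17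
                    have k300 : e15 ≤ e17 := L2 l17
                    have k301 : e17 ≤ e6 := L3 l17 k80 k294
                    have k302 : e17 ≤ e7 := L3 l17 k74 k241
                    have k308 : e12 ≤ e17 := le_trans k238 k300
                    have k309 : ¬ e0 ≤ e17 := N2 k61 k302
                    have k311 : ¬ e6 ≤ e17 := N1 k309 k42
                    have k328 : ¬ e17 ≤ e14 := N1 k240 k300
                    have k331 : e14 ≤ e17 := L3 l14 k299 k308
                    exact HL _ _ _ _ _ _ c2 c8 c11 c14 c17 c6 (LT k75 k89) (LT k133 k149) (LT k234 k232) (LT k331 k328) (LT k301 k311)
            · have k131 : e6 ≤ e10 := Classical.byContradiction fun hn => HL _ _ _ _ _ _ c2 c8 c0 c4 c10 c6 (LT k75 k89) (LT k73 k81) (LT k21 k28) (LT k126 k127) (LT k112 hn)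
              obtain ⟨e11, l11⟩ := ZE h2 k96 k104 g8
              have c11 : Core e0 e11 := CZ g8 k104 l11
              have k136 : e8 ≤ e11 := L1 l11
              have k137 : e9 ≤ e11 := L2 l11
              have k138 : e11 ≤ e6 := L3 l11 k80 k98
              have k139 : e11 ≤ e7 := L3 l11 k74 k96
              have k142 : e3 ≤ e11 := le_trans k91 k137
              have k143 : ¬ e0 ≤ e11 := N2 k61 k139
              have k145 : ¬ e6 ≤ e11 := N1 k143 k42
              have k151 : ¬ e11 ≤ e8 := N1 k87 k142
              obtain ⟨e12, q12⟩ : ∃ y, f e11 = y := ⟨_, rfl⟩
              have k159 : e9 ≤ e12 := MO hf q9 q12 k136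
              have k160 : ¬ e11 ≤ e12 := FA hF q12
              have k161 : ¬ e12 ≤ e11 := FB hG q12
              have k162 : e12 ≤ e7 := MO hf q12 q7 k138
              have k163 : ¬ e8 ≤ e12 := L5 l11 k159 k160
              by_cases k175 : ∃ z, IsGLB ({e0, e12} : Set P) z
              · obtain ⟨e13, g13⟩ := k175
                have c13 : Core e0 e13 := CM g13
                have k178 : e13 ≤ e0 := G1 g13
                have k179 : e13 ≤ e12 := G2 g13
                have k184 : e13 ≤ e6 := le_trans k178 k42
                have k186 : e13 ≤ e7 := le_trans k179 k162
                have k198 : ¬ e8 ≤ e13 := N2 k163 k179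
                have k199 : e13 ≤ e8 := G3 g8 k178 k186
                have k200 : e13 ≤ e11 := le_trans k199 k136
                obtain ⟨e14, q14⟩ : ∃ y, f e13 = y := ⟨_, rfl⟩
                have k203 : ¬ e14 ≤ e13 := FB hG q14
                have k204 : e14 ≤ e1 := MO hf q14 q1 k178
                have k206 : e14 ≤ e7 := MO hf q14 q7 k184
                have k207 : e14 ≤ e9 := MO hf q14 q9 k199
                have k208 : e14 ≤ e12 := MO hf q14 q12 k200
                have k209 : ¬ e14 ≤ e0 := G5 g13 k208 k203
                have k210 : e14 ≤ e6 := le_trans k204 k46
                have k212 : e14 ≤ e11 := le_trans k207 k137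
                have k225 : ¬ e14 ≤ e8 := N2 k209 k73
                by_cases k226 : ∃ z, IsGLB ({e0, e14} : Set P) z
                · obtain ⟨e15, g15⟩ := k226
                  have c15 : Core e0 e15 := CM g15
                  have k229 : e15 ≤ e0 := G1 g15
                  have k230 : e15 ≤ e14 := G2 g15
                  have k235 : e15 ≤ e1 := le_trans k230 k204
                  have k238 : e15 ≤ e9 := le_trans k230 k207
                  have k248 : ¬ e2 ≤ e15 := N2 k105 k238
                  have k256 : e15 ≤ e2 := G3 g2 k229 k235
                  exact HL _ _ _ _ _ _ c15 c2 c8 c0 c4 c6 (LT k256 k248) (LT k75 k89) (LT k73 k81) (LT k21 k28) (LT k54 k53)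
                · obtain ⟨e15, l15⟩ := ZE h2 k206 k226 g8
                  have c15 : Core e0 e15 := CZ g8 k226 l15
                  have k229 : e8 ≤ e15 := L1 l15
                  have k230 : e14 ≤ e15 := L2 l15
                  have k231 : e15 ≤ e6 := L3 l15 k80 k210
                  have k232 : e15 ≤ e7 := L3 l15 k74 k206
                  have k234 : e15 ≤ e11 := L3 l15 k136 k212
                  have k236 : e13 ≤ e15 := le_trans k199 k229
                  have k237 : ¬ e0 ≤ e15 := N2 k61 k232
                  have k252 : ¬ e15 ≤ e8 := N1 k225 k230
                  by_cases k254 : e11 ≤ e15
                  · have k256 : e9 ≤ e15 := le_trans k137 k254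
                    obtain ⟨e16, l16⟩ := ZE h2 k208 k226 g13
                    have c16 : Core e0 e16 := CZ g13 k226 l16
                    have k265 : e13 ≤ e16 := L1 l16
                    have k266 : e14 ≤ e16 := L2 l16
                    have k267 : e16 ≤ e6 := L3 l16 k184 k210
                    have k270 : e16 ≤ e11 := L3 l16 k200 k212
                    have k290 : ¬ e16 ≤ e13 := N1 k203 k266
                    obtain ⟨e17, q17⟩ : ∃ y, f e16 = y := ⟨_, rfl⟩
                    have k293 : e14 ≤ e17 := MO hf q14 q17 k265
                    have k294 : ¬ e16 ≤ e17 := FA hF q17
                    have k295 : ¬ e17 ≤ e16 := FB hG q17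
                    have k296 : e17 ≤ e7 := MO hf q17 q7 k267
                    have k297 : e17 ≤ e12 := MO hf q17 q12 k270
                    have k298 : ¬ e13 ≤ e17 := L5 l16 k293 k294
                    by_cases k315 : ∃ z, IsGLB ({e0, e17} : Set P) z
                    · obtain ⟨e18, g18⟩ := k315
                      have c18 : Core e0 e18 := CM g18
                      have k318 : e18 ≤ e0 := G1 g18
                      have k319 : e18 ≤ e17 := G2 g18
                      have k326 : e18 ≤ e12 := le_trans k319 k297
                      have k340 : ¬ e13 ≤ e18 := N2 k298 k319
                      have k345 : e18 ≤ e13 := G3 g13 k318 k326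
                      exact HL _ _ _ _ _ _ c18 c13 c8 c0 c4 c6 (LT k345 k340) (LT k199 k198) (LT k73 k81) (LT k21 k28) (LT k54 k53)
                    · obtain ⟨e18, l18⟩ := (h1 e17).resolve_right k315
                      have c18 : Core e0 e18 := CJ k315 l18
                      have k318 : e0 ≤ e18 := L1 l18
                      have k319 : e17 ≤ e18 := L2 l18
                      have k322 : e8 ≤ e18 := le_trans k73 k318
                      have k324 : e14 ≤ e18 := le_trans k293 k319
                      have k341 : e15 ≤ e18 := L3 l15 k322 k324
                      have k344 : e9 ≤ e18 := le_trans k256 k341
                      have k347 : e10 ≤ e18 := L3 l10 k318 k344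
                      have k350 : e6 ≤ e18 := le_trans k131 k347
                      have k351 : e18 ≤ e6 := Classical.byContradiction fun hn => HL _ _ _ _ _ _ c2 c8 c0 c4 c6 c18 (LT k75 k89) (LT k73 k81) (LT k21 k28) (LT k54 k53) (LT k350 hn)
                      have k353 : e17 ≤ e6 := le_trans k319 k351
                      obtain ⟨e19, l19⟩ := ZE h2 k296 k315 g8
                      have c19 : Core e0 e19 := CZ g8 k315 l19
                      have k358 : e8 ≤ e19 := L1 l19
                      have k359 : e17 ≤ e19 := L2 l19
                      have k360 : e19 ≤ e6 := L3 l19 k80 k353
                      have k361 : e19 ≤ e7 := L3 l19 k74 k296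
                      have k365 : e13 ≤ e19 := le_trans k199 k358
                      have k366 : e14 ≤ e19 := le_trans k293 k359
                      have k367 : ¬ e0 ≤ e19 := N2 k61 k361
                      have k369 : ¬ e6 ≤ e19 := N1 k367 k42
                      have k387 : e15 ≤ e19 := L3 l15 k358 k366
                      have k388 : e16 ≤ e19 := L3 l16 k365 k366
                      have k391 : e11 ≤ e19 := le_trans k254 k387
                      by_cases k392 : e19 ≤ e11
                      · have k394 : e17 ≤ e11 := le_trans k359 k392
                        obtain ⟨e20, l20⟩ := ZE h2 k297 k315 g13
                        have c20 : Core e0 e20 := CZ g13 k315 l20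
                        have k399 : e13 ≤ e20 := L1 l20
                        have k400 : e17 ≤ e20 := L2 l20
                        have k401 : e20 ≤ e6 := L3 l20 k184 k353
                        have k404 : e20 ≤ e11 := L3 l20 k200 k394
                        have k405 : e20 ≤ e12 := L3 l20 k179 k297
                        have k409 : e14 ≤ e20 := le_trans k293 k400
                        have k416 : ¬ e8 ≤ e20 := N2 k163 k405
                        have k417 : ¬ e11 ≤ e20 := N1 k416 k136
                        have k431 : ¬ e20 ≤ e16 := N1 k295 k400
                        have k433 : e16 ≤ e20 := L3 l16 k399 k409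
                        obtain ⟨e21, q21⟩ : ∃ y, f e20 = y := ⟨_, rfl⟩
                        have k435 : e14 ≤ e21 := MO hf q14 q21 k399
                        have k436 : e17 ≤ e21 := MO hf q17 q21 k433
                        have k437 : ¬ e20 ≤ e21 := FA hF q21
                        have k438 : ¬ e21 ≤ e20 := FB hG q21
                        have k439 : e21 ≤ e7 := MO hf q21 q7 k401
                        have k440 : e21 ≤ e12 := MO hf q21 q12 k404
                        have k441 : ¬ e13 ≤ e21 := L5 l20 k436 k437
                        by_cases k463 : ∃ z, IsGLB ({e0, e21} : Set P) z
                        · obtain ⟨e22, g22⟩ := k463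
                          have c22 : Core e0 e22 := CM g22
                          have k466 : e22 ≤ e0 := G1 g22
                          have k467 : e22 ≤ e21 := G2 g22
                          have k476 : e22 ≤ e12 := le_trans k467 k440
                          have k492 : ¬ e13 ≤ e22 := N2 k441 k467
                          have k499 : e22 ≤ e13 := G3 g13 k466 k476
                          exact HL _ _ _ _ _ _ c22 c13 c8 c0 c4 c6 (LT k499 k492) (LT k199 k198) (LT k73 k81) (LT k21 k28) (LT k54 k53)
                        · obtain ⟨e22, l22⟩ := (h1 e21).resolve_right k463
                          have c22 : Core e0 e22 := CJ k463 l22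
                          have k466 : e0 ≤ e22 := L1 l22
                          have k467 : e21 ≤ e22 := L2 l22
                          have k473 : e17 ≤ e22 := le_trans k436 k467
                          have k495 : e18 ≤ e22 := L3 l18 k466 k473
                          have k504 : e6 ≤ e22 := le_trans k350 k495
                          have k506 : e22 ≤ e6 := Classical.byContradiction fun hn => HL _ _ _ _ _ _ c2 c8 c0 c4 c6 c22 (LT k75 k89) (LT k73 k81) (LT k21 k28) (LT k54 k53) (LT k504 hn)
                          have k509 : e21 ≤ e6 := le_trans k467 k506
                          obtain ⟨e23, l23⟩ := ZE h2 k439 k463 g8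
                          have c23 : Core e0 e23 := CZ g8 k463 l23
                          have k515 : e8 ≤ e23 := L1 l23
                          have k516 : e21 ≤ e23 := L2 l23
                          have k517 : e23 ≤ e6 := L3 l23 k80 k509
                          have k518 : e23 ≤ e7 := L3 l23 k74 k439
                          have k524 : e14 ≤ e23 := le_trans k435 k516
                          have k526 : ¬ e0 ≤ e23 := N2 k61 k518
                          have k528 : ¬ e6 ≤ e23 := N1 k526 k42
                          have k549 : e15 ≤ e23 := L3 l15 k515 k524
                          have k555 : e11 ≤ e23 := le_trans k254 k549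
                          have k556 : e23 ≤ e11 := Classical.byContradiction fun hn => HL _ _ _ _ _ _ c13 c16 c20 c11 c23 c6 (LT k265 k290) (LT k433 k431) (LT k404 k417) (LT k555 hn) (LT k517 k528)
                          have k559 : e21 ≤ e11 := le_trans k516 k556
                          obtain ⟨e24, l24⟩ := ZE h2 k440 k463 g13
                          have c24 : Core e0 e24 := CZ g13 k463 l24
                          have k565 : e13 ≤ e24 := L1 l24
                          have k566 : e21 ≤ e24 := L2 l24
                          have k570 : e24 ≤ e11 := L3 l24 k200 k559
                          have k571 : e24 ≤ e12 := L3 l24 k179 k440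
                          have k578 : e17 ≤ e24 := le_trans k436 k566
                          have k586 : ¬ e8 ≤ e24 := N2 k163 k571
                          have k587 : ¬ e11 ≤ e24 := N1 k586 k136
                          have k604 : ¬ e24 ≤ e20 := N1 k438 k566
                          have k607 : e20 ≤ e24 := L3 l20 k565 k578
                          exact HL _ _ _ _ _ _ c13 c16 c20 c24 c11 c6 (LT k265 k290) (LT k433 k431) (LT k607 k604) (LT k570 k587) (LT k138 k145)
                      · obtain ⟨e20, q20⟩ : ∃ y, f e19 = y := ⟨_, rfl⟩
                        have k399 : e9 ≤ e20 := MO hf q9 q20 k358
                        have k400 : e12 ≤ e20 := MO hf q12 q20 k391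
                        have k401 : e14 ≤ e20 := MO hf q14 q20 k365
                        have k402 : e17 ≤ e20 := MO hf q17 q20 k388
                        have k403 : ¬ e19 ≤ e20 := FA hF q20
                        have k404 : ¬ e20 ≤ e19 := FB hG q20
                        have k405 : e20 ≤ e7 := MO hf q20 q7 k360
                        have k406 : ¬ e8 ≤ e20 := L5 l19 k402 k403
                        have k407 : e13 ≤ e20 := le_trans k179 k400
                        by_cases k430 : ∃ z, IsGLB ({e0, e20} : Set P) z
                        · obtain ⟨e21, g21⟩ := k430
                          have c21 : Core e0 e21 := CM g21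
                          obtain ⟨e22, l22⟩ := ZE h2 k401 k226 g21
                          have c22 : Core e0 e22 := CZ g21 k226 l22
                          have k435 : e21 ≤ e0 := G1 g21
                          have k436 : e21 ≤ e20 := G2 g21
                          have k437 : e13 ≤ e21 := G3 g21 k178 k407
                          have k447 : e21 ≤ e6 := le_trans k435 k42
                          have k450 : e21 ≤ e7 := le_trans k436 k405
                          have k474 : ¬ e8 ≤ e21 := N2 k406 k436
                          have k495 : e21 ≤ e8 := G3 g8 k435 k450
                          have k503 : e21 ≤ e19 := le_trans k495 k358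
                          have k510 : e21 ≤ e13 := Classical.byContradiction fun hn => HL _ _ _ _ _ _ c13 c21 c8 c0 c4 c6 (LT k437 hn) (LT k495 k474) (LT k73 k81) (LT k21 k28) (LT k54 k53)
                          obtain ⟨e23, l23⟩ := ZE h2 k402 k315 g21
                          have c23 : Core e0 e23 := CZ g21 k315 l23
                          have k517 : e21 ≤ e23 := L1 l23
                          have k518 : e17 ≤ e23 := L2 l23
                          have k519 : e23 ≤ e6 := L3 l23 k447 k353
                          have k524 : e23 ≤ e19 := L3 l23 k503 k359
                          have k526 : e14 ≤ e23 := le_trans k293 k518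
                          have k527 : e13 ≤ e23 := le_trans k437 k517
                          have k551 : ¬ e23 ≤ e16 := N1 k295 k518
                          have k555 : e16 ≤ e23 := L3 l16 k527 k526
                          obtain ⟨e24, q24⟩ : ∃ y, f e23 = y := ⟨_, rfl⟩
                          have k559 : e17 ≤ e24 := MO hf q17 q24 k555
                          have k560 : ¬ e23 ≤ e24 := FA hF q24
                          have k561 : ¬ e24 ≤ e23 := FB hG q24
                          have k562 : e24 ≤ e7 := MO hf q24 q7 k519
                          have k563 : e24 ≤ e20 := MO hf q24 q20 k524
                          have k564 : ¬ e21 ≤ e24 := L5 l23 k559 k560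
                          have k589 : ¬ e13 ≤ e24 := N1 k564 k510
                          by_cases k594 : ∃ z, IsGLB ({e0, e24} : Set P) z
                          · obtain ⟨e25, g25⟩ := k594
                            have c25 : Core e0 e25 := CM g25
                            have k597 : e25 ≤ e0 := G1 g25
                            have k598 : e25 ≤ e24 := G2 g25
                            have k607 : e25 ≤ e20 := le_trans k598 k563
                            have k624 : ¬ e13 ≤ e25 := N2 k589 k598
                            have k626 : ¬ e21 ≤ e25 := N1 k624 k437
                            have k633 : e25 ≤ e21 := G3 g21 k597 k607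
                            exact HL _ _ _ _ _ _ c25 c21 c8 c0 c4 c6 (LT k633 k626) (LT k495 k474) (LT k73 k81) (LT k21 k28) (LT k54 k53)
                          · obtain ⟨e25, l25⟩ := (h1 e24).resolve_right k594
                            have c25 : Core e0 e25 := CJ k594 l25
                            have k597 : e0 ≤ e25 := L1 l25
                            have k598 : e24 ≤ e25 := L2 l25
                            have k605 : e17 ≤ e25 := le_trans k559 k598
                            have k630 : e18 ≤ e25 := L3 l18 k597 k605
                            have k640 : e6 ≤ e25 := le_trans k350 k630
                            have k642 : e25 ≤ e6 := Classical.byContradiction fun hn => HL _ _ _ _ _ _ c2 c8 c11 c19 c6 c25 (LT k75 k89) (LT k136 k151) (LT k391 k392) (LT k360 k369) (LT k640 hn)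
                            have k645 : e24 ≤ e6 := le_trans k598 k642
                            obtain ⟨e26, l26⟩ := ZE h2 k562 k594 g8
                            have c26 : Core e0 e26 := CZ g8 k594 l26
                            have k651 : e8 ≤ e26 := L1 l26
                            have k652 : e24 ≤ e26 := L2 l26
                            have k653 : e26 ≤ e6 := L3 l26 k80 k645
                            have k654 : e26 ≤ e7 := L3 l26 k74 k562
                            have k662 : e17 ≤ e26 := le_trans k559 k652
                            have k663 : ¬ e0 ≤ e26 := N2 k61 k654
                            have k665 : ¬ e6 ≤ e26 := N1 k663 k42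
                            have k693 : e19 ≤ e26 := L3 l19 k651 k662
                            have k699 : e26 ≤ e19 := Classical.byContradiction fun hn => HL _ _ _ _ _ _ c2 c8 c11 c19 c26 c6 (LT k75 k89) (LT k136 k151) (LT k391 k392) (LT k693 hn) (LT k653 k665)
                            have k700 : e24 ≤ e19 := le_trans k652 k699
                            obtain ⟨e27, l27⟩ := ZE h2 k563 k594 g21
                            have c27 : Core e0 e27 := CZ g21 k594 l27
                            have k704 : e21 ≤ e27 := L1 l27
                            have k705 : e24 ≤ e27 := L2 l27
                            have k710 : e27 ≤ e19 := L3 l27 k503 k700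
                            have k711 : e27 ≤ e20 := L3 l27 k436 k563
                            have k716 : e17 ≤ e27 := le_trans k559 k705
                            have k724 : ¬ e8 ≤ e27 := N2 k406 k711
                            have k727 : ¬ e19 ≤ e27 := N1 k724 k358
                            have k746 : ¬ e27 ≤ e23 := N1 k561 k705
                            have k750 : e23 ≤ e27 := L3 l23 k704 k716
                            exact HL _ _ _ _ _ _ c13 c16 c23 c27 c19 c6 (LT k265 k290) (LT k555 k551) (LT k750 k746) (LT k710 k727) (LT k360 k369)
                        · obtain ⟨e21, l21⟩ := (h1 e20).resolve_right k430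
                          have c21 : Core e0 e21 := CJ k430 l21
                          have k433 : e0 ≤ e21 := L1 l21
                          have k434 : e20 ≤ e21 := L2 l21
                          have k440 : e9 ≤ e21 := le_trans k399 k434
                          have k464 : e10 ≤ e21 := L3 l10 k433 k440
                          have k471 : e6 ≤ e21 := le_trans k131 k464
                          have k472 : e21 ≤ e6 := Classical.byContradiction fun hn => HL _ _ _ _ _ _ c2 c8 c11 c19 c6 c21 (LT k75 k89) (LT k136 k151) (LT k391 k392) (LT k360 k369) (LT k471 hn)
                          have k478 : e20 ≤ e6 := le_trans k434 k472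
                          obtain ⟨e22, l22⟩ := ZE h2 k405 k430 g8
                          have c22 : Core e0 e22 := CZ g8 k430 l22
                          have k484 : e8 ≤ e22 := L1 l22
                          have k485 : e20 ≤ e22 := L2 l22
                          have k486 : e22 ≤ e6 := L3 l22 k80 k478
                          have k487 : e22 ≤ e7 := L3 l22 k74 k405
                          have k498 : e17 ≤ e22 := le_trans k402 k485
                          have k499 : ¬ e0 ≤ e22 := N2 k61 k487
                          have k501 : ¬ e6 ≤ e22 := N1 k499 k42
                          have k522 : ¬ e22 ≤ e19 := N1 k404 k485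
                          have k526 : e19 ≤ e22 := L3 l19 k484 k498
                          exact HL _ _ _ _ _ _ c2 c8 c11 c19 c22 c6 (LT k75 k89) (LT k136 k151) (LT k391 k392) (LT k526 k522) (LT k486 k501)
                  · have k255 : ¬ e9 ≤ e15 := L4 l11 k229 k254
                    obtain ⟨e16, q16⟩ : ∃ y, f e15 = y := ⟨_, rfl⟩
                    have k261 : e9 ≤ e16 := MO hf q9 q16 k229
                    have k262 : e14 ≤ e16 := MO hf q14 q16 k236
                    have k265 : e16 ≤ e7 := MO hf q16 q7 k231
                    have k266 : e16 ≤ e12 := MO hf q16 q12 k234
                    by_cases k281 : ∃ z, IsGLB ({e0, e16} : Set P) z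
                    · obtain ⟨e17, g17⟩ := k281
                      have c17 : Core e0 e17 := CM g17
                      have k284 : e17 ≤ e0 := G1 g17
                      have k285 : e17 ≤ e16 := G2 g17
                      have k291 : e17 ≤ e6 := le_trans k284 k42
                      have k293 : e17 ≤ e7 := le_trans k285 k265
                      have k294 : e17 ≤ e12 := le_trans k285 k266
                      have k311 : e17 ≤ e8 := G3 g8 k284 k293
                      have k312 : e17 ≤ e13 := G3 g13 k284 k294
                      have k313 : e17 ≤ e11 := le_trans k311 k136
                      have k314 : e17 ≤ e15 := le_trans k311 k229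
                      have k315 : e13 ≤ e17 := Classical.byContradiction fun hn => HL _ _ _ _ _ _ c17 c13 c8 c0 c4 c6 (LT k312 hn) (LT k199 k198) (LT k73 k81) (LT k21 k28) (LT k54 k53)
                      have k316 : e13 ≤ e16 := le_trans k315 k285
                      obtain ⟨e18, l18⟩ := (h1 e14).resolve_right k226
                      have c18 : Core e0 e18 := CJ k226 l18
                      have k319 : e0 ≤ e18 := L1 l18
                      have k320 : e14 ≤ e18 := L2 l18
                      have k321 : e18 ≤ e6 := L3 l18 k42 k210
                      have k325 : e8 ≤ e18 := le_trans k73 k319
                      have k327 : e17 ≤ e18 := le_trans k284 k319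
                      have k339 : ¬ e18 ≤ e15 := N1 k237 k319
                      have k343 : ¬ e18 ≤ e0 := N1 k209 k320
                      have k344 : e15 ≤ e18 := L3 l15 k325 k320
                      by_cases k345 : e6 ≤ e18
                      · obtain ⟨e19, l19⟩ := ZE h2 k262 k226 g17
                        have c19 : Core e0 e19 := CZ g17 k226 l19
                        have k365 : e17 ≤ e19 := L1 l19
                        have k366 : e14 ≤ e19 := L2 l19
                        have k367 : e19 ≤ e6 := L3 l19 k291 k210
                        have k370 : e19 ≤ e11 := L3 l19 k313 k212
                        have k372 : e19 ≤ e15 := L3 l19 k314 k230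
                        have k375 : e13 ≤ e19 := le_trans k315 k365
                        have k398 : ¬ e19 ≤ e13 := N1 k203 k366
                        obtain ⟨e20, q20⟩ : ∃ y, f e19 = y := ⟨_, rfl⟩
                        have k402 : e14 ≤ e20 := MO hf q14 q20 k375
                        have k403 : ¬ e19 ≤ e20 := FA hF q20
                        have k404 : ¬ e20 ≤ e19 := FB hG q20
                        have k405 : e20 ≤ e7 := MO hf q20 q7 k367
                        have k406 : e20 ≤ e12 := MO hf q20 q12 k370
                        have k407 : e20 ≤ e16 := MO hf q20 q16 k372
                        have k408 : ¬ e17 ≤ e20 := L5 l19 k402 k403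
                        have k426 : ¬ e13 ≤ e20 := N1 k408 k312
                        by_cases k429 : ∃ z, IsGLB ({e0, e20} : Set P) z
                        · obtain ⟨e21, g21⟩ := k429
                          have c21 : Core e0 e21 := CM g21
                          have k432 : e21 ≤ e0 := G1 g21
                          have k433 : e21 ≤ e20 := G2 g21
                          have k441 : e21 ≤ e12 := le_trans k433 k406
                          have k458 : ¬ e13 ≤ e21 := N2 k426 k433
                          have k464 : e21 ≤ e13 := G3 g13 k432 k441
                          exact HL _ _ _ _ _ _ c21 c13 c8 c0 c4 c6 (LT k464 k458) (LT k199 k198) (LT k73 k81) (LT k21 k28) (LT k54 k53)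
                        · obtain ⟨e21, l21⟩ := (h1 e20).resolve_right k429
                          have c21 : Core e0 e21 := CJ k429 l21
                          have k432 : e0 ≤ e21 := L1 l21
                          have k433 : e20 ≤ e21 := L2 l21
                          have k439 : e14 ≤ e21 := le_trans k402 k433
                          have k459 : e18 ≤ e21 := L3 l18 k432 k439
                          have k465 : e6 ≤ e21 := le_trans k345 k459
                          have k469 : e21 ≤ e6 := Classical.byContradiction fun hn => HL _ _ _ _ _ _ c2 c8 c0 c4 c6 c21 (LT k75 k89) (LT k73 k81) (LT k21 k28) (LT k54 k53) (LT k465 hn)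
                          have k472 : e20 ≤ e6 := le_trans k433 k469
                          obtain ⟨e22, l22⟩ := ZE h2 k405 k429 g8
                          have c22 : Core e0 e22 := CZ g8 k429 l22
                          have k478 : e8 ≤ e22 := L1 l22
                          have k479 : e20 ≤ e22 := L2 l22
                          have k480 : e22 ≤ e6 := L3 l22 k80 k472
                          have k481 : e22 ≤ e7 := L3 l22 k74 k405
                          have k486 : e13 ≤ e22 := le_trans k199 k478
                          have k487 : e17 ≤ e22 := le_trans k311 k478
                          have k488 : e14 ≤ e22 := le_trans k402 k479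
                          have k489 : ¬ e0 ≤ e22 := N2 k61 k481
                          have k491 : ¬ e6 ≤ e22 := N1 k489 k42
                          have k512 : e15 ≤ e22 := L3 l15 k478 k488
                          have k513 : e19 ≤ e22 := L3 l19 k487 k488
                          by_cases k514 : e22 ≤ e15
                          · have k517 : e20 ≤ e15 := le_trans k479 k514
                            obtain ⟨e23, l23⟩ := ZE h2 k407 k429 g17
                            have c23 : Core e0 e23 := CZ g17 k429 l23
                            have k529 : e17 ≤ e23 := L1 l23
                            have k530 : e20 ≤ e23 := L2 l23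
                            have k535 : e23 ≤ e12 := L3 l23 k294 k406
                            have k536 : e23 ≤ e15 := L3 l23 k314 k517
                            have k542 : e14 ≤ e23 := le_trans k402 k530
                            have k552 : ¬ e8 ≤ e23 := N2 k163 k535
                            have k554 : ¬ e15 ≤ e23 := N1 k552 k229
                            have k570 : ¬ e23 ≤ e19 := N1 k404 k530
                            have k572 : e19 ≤ e23 := L3 l19 k529 k542
                            exact HL _ _ _ _ _ _ c13 c19 c23 c15 c11 c6 (LT k375 k398) (LT k572 k570) (LT k536 k554) (LT k234 k254) (LT k138 k145)
                          · obtain ⟨e23, q23⟩ : ∃ y, f e22 = y := ⟨_, rfl⟩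
                            have k518 : e9 ≤ e23 := MO hf q9 q23 k478
                            have k519 : e14 ≤ e23 := MO hf q14 q23 k486
                            have k520 : e16 ≤ e23 := MO hf q16 q23 k512
                            have k521 : e20 ≤ e23 := MO hf q20 q23 k513
                            have k522 : ¬ e22 ≤ e23 := FA hF q23
                            have k523 : ¬ e23 ≤ e22 := FB hG q23
                            have k524 : e23 ≤ e7 := MO hf q23 q7 k480
                            have k525 : ¬ e8 ≤ e23 := L5 l22 k521 k522
                            have k526 : e13 ≤ e23 := le_trans k316 k520
                            have k527 : e17 ≤ e23 := le_trans k285 k520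
                            by_cases k551 : ∃ z, IsGLB ({e0, e23} : Set P) z
                            · obtain ⟨e24, g24⟩ := k551
                              have c24 : Core e0 e24 := CM g24
                              obtain ⟨e25, l25⟩ := ZE h2 k519 k226 g24
                              have c25 : Core e0 e25 := CZ g24 k226 l25
                              have k556 : e24 ≤ e0 := G1 g24
                              have k557 : e24 ≤ e23 := G2 g24
                              have k558 : e13 ≤ e24 := G3 g24 k178 k526
                              have k559 : e17 ≤ e24 := G3 g24 k284 k527
                              have k569 : e24 ≤ e6 := le_trans k556 k42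
                              have k573 : e24 ≤ e7 := le_trans k557 k524
                              have k599 : ¬ e8 ≤ e24 := N2 k525 k557
                              have k623 : e24 ≤ e8 := G3 g8 k556 k573
                              have k632 : e24 ≤ e22 := le_trans k623 k478
                              have k643 : e24 ≤ e13 := Classical.byContradiction fun hn => HL _ _ _ _ _ _ c13 c24 c8 c0 c4 c6 (LT k558 hn) (LT k623 k599) (LT k73 k81) (LT k21 k28) (LT k54 k53)
                              obtain ⟨e26, l26⟩ := ZE h2 k521 k429 g24
                              have c26 : Core e0 e26 := CZ g24 k429 l26
                              have k653 : e24 ≤ e26 := L1 l26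
                              have k654 : e20 ≤ e26 := L2 l26
                              have k655 : e26 ≤ e6 := L3 l26 k569 k472
                              have k662 : e26 ≤ e22 := L3 l26 k632 k479
                              have k664 : e14 ≤ e26 := le_trans k402 k654
                              have k665 : e13 ≤ e26 := le_trans k558 k653
                              have k666 : e17 ≤ e26 := le_trans k559 k653
                              have k691 : ¬ e26 ≤ e19 := N1 k404 k654
                              have k695 : e19 ≤ e26 := L3 l19 k666 k664
                              obtain ⟨e27, q27⟩ : ∃ y, f e26 = y := ⟨_, rfl⟩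
                              have k698 : e14 ≤ e27 := MO hf q14 q27 k665
                              have k699 : e20 ≤ e27 := MO hf q20 q27 k695
                              have k700 : ¬ e26 ≤ e27 := FA hF q27
                              have k701 : ¬ e27 ≤ e26 := FB hG q27
                              have k702 : e27 ≤ e7 := MO hf q27 q7 k655
                              have k703 : e27 ≤ e23 := MO hf q27 q23 k662
                              have k704 : ¬ e24 ≤ e27 := L5 l26 k699 k700
                              have k729 : ¬ e13 ≤ e27 := N1 k704 k643
                              by_cases k736 : ∃ z, IsGLB ({e0, e27} : Set P) z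
                              · obtain ⟨e28, g28⟩ := k736
                                have c28 : Core e0 e28 := CM g28
                                have k739 : e28 ≤ e0 := G1 g28
                                have k740 : e28 ≤ e27 := G2 g28
                                have k750 : e28 ≤ e23 := le_trans k740 k703
                                have k769 : ¬ e13 ≤ e28 := N2 k729 k740
                                have k772 : ¬ e24 ≤ e28 := N1 k769 k558
                                have k779 : e28 ≤ e24 := G3 g24 k739 k750
                                exact HL _ _ _ _ _ _ c28 c24 c8 c0 c4 c6 (LT k779 k772) (LT k623 k599) (LT k73 k81) (LT k21 k28) (LT k54 k53)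
                              · obtain ⟨e28, l28⟩ := (h1 e27).resolve_right k736
                                have c28 : Core e0 e28 := CJ k736 l28
                                have k739 : e0 ≤ e28 := L1 l28
                                have k740 : e27 ≤ e28 := L2 l28
                                have k747 : e14 ≤ e28 := le_trans k698 k740
                                have k774 : e18 ≤ e28 := L3 l18 k739 k747
                                have k784 : e6 ≤ e28 := le_trans k345 k774
                                have k788 : e28 ≤ e6 := Classical.byContradiction fun hn => HL _ _ _ _ _ _ c2 c8 c15 c22 c6 c28 (LT k75 k89) (LT k229 k252) (LT k512 k514) (LT k480 k491) (LT k784 hn)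
                                have k792 : e27 ≤ e6 := le_trans k740 k788
                                obtain ⟨e29, l29⟩ := ZE h2 k702 k736 g8
                                have c29 : Core e0 e29 := CZ g8 k736 l29
                                have k799 : e8 ≤ e29 := L1 l29
                                have k800 : e27 ≤ e29 := L2 l29
                                have k801 : e29 ≤ e6 := L3 l29 k80 k792
                                have k802 : e29 ≤ e7 := L3 l29 k74 k702
                                have k812 : e20 ≤ e29 := le_trans k699 k800
                                have k813 : ¬ e0 ≤ e29 := N2 k61 k802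
                                have k815 : ¬ e6 ≤ e29 := N1 k813 k42
                                have k845 : e22 ≤ e29 := L3 l22 k799 k812
                                have k848 : e29 ≤ e22 := Classical.byContradiction fun hn => HL _ _ _ _ _ _ c2 c8 c15 c22 c29 c6 (LT k75 k89) (LT k229 k252) (LT k512 k514) (LT k845 hn) (LT k801 k815)
                                have k849 : e27 ≤ e22 := le_trans k800 k848
                                obtain ⟨e30, l30⟩ := ZE h2 k703 k736 g24
                                have c30 : Core e0 e30 := CZ g24 k736 l30
                                have k853 : e24 ≤ e30 := L1 l30
                                have k854 : e27 ≤ e30 := L2 l30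
                                have k860 : e30 ≤ e22 := L3 l30 k632 k849
                                have k861 : e30 ≤ e23 := L3 l30 k557 k703
                                have k867 : e20 ≤ e30 := le_trans k699 k854
                                have k876 : ¬ e8 ≤ e30 := N2 k525 k861
                                have k879 : ¬ e22 ≤ e30 := N1 k876 k478
                                have k898 : ¬ e30 ≤ e26 := N1 k701 k854
                                have k902 : e26 ≤ e30 := L3 l26 k853 k867
                                exact HL _ _ _ _ _ _ c13 c19 c26 c30 c22 c6 (LT k375 k398) (LT k695 k691) (LT k902 k898) (LT k860 k879) (LT k480 k491)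
                            · obtain ⟨e24, l24⟩ := (h1 e23).resolve_right k551
                              have c24 : Core e0 e24 := CJ k551 l24
                              have k554 : e0 ≤ e24 := L1 l24
                              have k555 : e23 ≤ e24 := L2 l24
                              have k562 : e9 ≤ e24 := le_trans k518 k555
                              have k588 : e10 ≤ e24 := L3 l10 k554 k562
                              have k596 : e6 ≤ e24 := le_trans k131 k588
                              have k597 : e24 ≤ e6 := Classical.byContradiction fun hn => HL _ _ _ _ _ _ c2 c8 c15 c22 c6 c24 (LT k75 k89) (LT k229 k252) (LT k512 k514) (LT k480 k491) (LT k596 hn)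
                              have k605 : e23 ≤ e6 := le_trans k555 k597
                              obtain ⟨e25, l25⟩ := ZE h2 k524 k551 g8
                              have c25 : Core e0 e25 := CZ g8 k551 l25
                              have k612 : e8 ≤ e25 := L1 l25
                              have k613 : e23 ≤ e25 := L2 l25
                              have k614 : e25 ≤ e6 := L3 l25 k80 k605
                              have k615 : e25 ≤ e7 := L3 l25 k74 k524
                              have k628 : e20 ≤ e25 := le_trans k521 k613
                              have k629 : ¬ e0 ≤ e25 := N2 k61 k615
                              have k631 : ¬ e6 ≤ e25 := N1 k629 k42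
                              have k654 : ¬ e25 ≤ e22 := N1 k523 k613
                              have k658 : e22 ≤ e25 := L3 l22 k612 k628
                              exact HL _ _ _ _ _ _ c2 c8 c15 c22 c25 c6 (LT k75 k89) (LT k229 k252) (LT k512 k514) (LT k658 k654) (LT k614 k631)
                      · obtain ⟨e19, q19⟩ : ∃ y, f e18 = y := ⟨_, rfl⟩
                        have k354 : e1 ≤ e19 := MO hf q1 q19 k319
                        have k356 : e9 ≤ e19 := MO hf q9 q19 k325
                        have k358 : e16 ≤ e19 := MO hf q16 q19 k344
                        have k361 : e19 ≤ e7 := MO hf q19 q7 k321
                        have k363 : e2 ≤ e19 := le_trans k7 k354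
                        have k364 : e13 ≤ e19 := le_trans k316 k358
                        by_cases k379 : ∃ z, IsGLB ({e0, e19} : Set P) z
                        · obtain ⟨e20, g20⟩ := k379
                          have c20 : Core e0 e20 := CM g20
                          have k382 : e20 ≤ e0 := G1 g20
                          have k383 : e20 ≤ e19 := G2 g20
                          have k384 : e2 ≤ e20 := G3 g20 k6 k363
                          have k385 : e13 ≤ e20 := G3 g20 k178 k364
                          have k394 : e20 ≤ e18 := le_trans k382 k319
                          have k395 : e20 ≤ e7 := le_trans k383 k361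
                          have k396 : ¬ e0 ≤ e20 := N2 k61 k395
                          have k410 : ¬ e14 ≤ e20 := N2 k209 k382
                          have k411 : ¬ e15 ≤ e20 := N1 k410 k230
                          have k412 : e20 ≤ e8 := G3 g8 k382 k395
                          have k414 : e20 ≤ e15 := le_trans k412 k229
                          by_cases k415 : e20 ≤ e13
                          · have k416 : e20 ≤ e12 := le_trans k415 k179
                            have k420 : e2 ≤ e13 := le_trans k384 k415
                            have k423 : ¬ e8 ≤ e20 := N2 k163 k416
                            have k424 : e3 ≤ e14 := MO hf q3 q14 k420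
                            have k427 : e3 ≤ e18 := le_trans k424 k320
                            have k431 : e4 ≤ e18 := L3 l4 k319 k427
                            have k432 : e5 ≤ e19 := MO hf q5 q19 k431
                            have k433 : ¬ e20 ≤ e5 := BN3 g20 k39 k432
                            have k438 : ¬ e19 ≤ e5 := N1 k433 k383
                            have k440 : ¬ e20 ≤ e2 := N2 k433 k35
                            have k442 : ¬ e18 ≤ e4 := NM hf q19 q5 k438
                            exact HL _ _ _ _ _ _ c2 c20 c8 c0 c4 c18 (LT k384 k440) (LT k412 k423) (LT k73 k81) (LT k21 k28) (LT k431 k442)
                          · have k421 : e8 ≤ e20 := Classical.byContradiction fun hn => HL _ _ _ _ _ _ c13 c20 c8 c0 c4 c6 (LT k385 k415) (LT k412 hn) (LT k73 k81) (LT k21 k28) (LT k54 k53)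
                            have k422 : e8 ≤ e19 := le_trans k421 k383
                            have k425 : ¬ e20 ≤ e2 := N1 k89 k421
                            obtain ⟨e21, l21⟩ := ZE h2 k262 k226 g17
                            have c21 : Core e0 e21 := CZ g17 k226 l21
                            have k442 : e17 ≤ e21 := L1 l21
                            have k443 : e14 ≤ e21 := L2 l21
                            have k444 : e21 ≤ e6 := L3 l21 k291 k210
                            have k447 : e21 ≤ e11 := L3 l21 k313 k212
                            have k449 : e21 ≤ e15 := L3 l21 k314 k230
                            have k451 : e21 ≤ e18 := L3 l21 k327 k320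
                            have k453 : e13 ≤ e21 := le_trans k315 k442
                            have k478 : ¬ e21 ≤ e13 := N1 k203 k443
                            obtain ⟨e22, q22⟩ : ∃ y, f e21 = y := ⟨_, rfl⟩
                            have k483 : e14 ≤ e22 := MO hf q14 q22 k453
                            have k484 : ¬ e21 ≤ e22 := FA hF q22
                            have k485 : ¬ e22 ≤ e21 := FB hG q22
                            have k486 : e22 ≤ e7 := MO hf q22 q7 k444
                            have k487 : e22 ≤ e12 := MO hf q22 q12 k447
                            have k488 : e22 ≤ e16 := MO hf q22 q16 k449
                            have k489 : e22 ≤ e19 := MO hf q22 q19 k451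
                            have k490 : ¬ e17 ≤ e22 := L5 l21 k483 k484
                            have k511 : ¬ e13 ≤ e22 := N1 k490 k312
                            by_cases k514 : ∃ z, IsGLB ({e0, e22} : Set P) z
                            · obtain ⟨e23, g23⟩ := k514
                              have c23 : Core e0 e23 := CM g23
                              have k517 : e23 ≤ e0 := G1 g23
                              have k518 : e23 ≤ e22 := G2 g23
                              have k526 : e23 ≤ e12 := le_trans k518 k487
                              have k546 : ¬ e13 ≤ e23 := N2 k511 k518
                              have k552 : e23 ≤ e13 := G3 g13 k517 k526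
                              exact HL _ _ _ _ _ _ c23 c13 c20 c0 c4 c6 (LT k552 k546) (LT k385 k415) (LT k382 k396) (LT k21 k28) (LT k54 k53)
                            · obtain ⟨e23, l23⟩ := (h1 e22).resolve_right k514
                              have c23 : Core e0 e23 := CJ k514 l23
                              have k517 : e0 ≤ e23 := L1 l23
                              have k518 : e22 ≤ e23 := L2 l23
                              have k521 : e8 ≤ e23 := le_trans k73 k517
                              have k522 : e13 ≤ e23 := le_trans k178 k517
                              have k523 : e17 ≤ e23 := le_trans k284 k517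
                              have k525 : e14 ≤ e23 := le_trans k483 k518
                              have k546 : e15 ≤ e23 := L3 l15 k521 k525
                              have k547 : e18 ≤ e23 := L3 l18 k517 k525
                              have k548 : e21 ≤ e23 := L3 l21 k523 k525
                              by_cases k549 : e23 ≤ e18
                              · have k554 : e22 ≤ e18 := le_trans k518 k549
                                obtain ⟨e24, l24⟩ := ZE h2 k489 k514 g20
                                have c24 : Core e0 e24 := CZ g20 k514 l24
                                have k570 : e20 ≤ e24 := L1 l24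
                                have k571 : e22 ≤ e24 := L2 l24
                                have k573 : e24 ≤ e7 := L3 l24 k395 k486
                                have k575 : e24 ≤ e18 := L3 l24 k394 k554
                                have k579 : e8 ≤ e24 := le_trans k421 k570
                                have k582 : e14 ≤ e24 := le_trans k483 k571
                                have k583 : ¬ e0 ≤ e24 := N2 k61 k573
                                have k587 : ¬ e18 ≤ e24 := N1 k583 k319
                                have k614 : e15 ≤ e24 := L3 l15 k579 k582
                                have k616 : e24 ≤ e15 := Classical.byContradiction fun hn => HL _ _ _ _ _ _ c2 c8 c15 c24 c18 c6 (LT k75 k89) (LT k229 k252) (LT k614 hn) (LT k575 k587) (LT k321 k345)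
                                have k619 : e22 ≤ e15 := le_trans k571 k616
                                obtain ⟨e25, l25⟩ := ZE h2 k488 k514 g17
                                have c25 : Core e0 e25 := CZ g17 k514 l25
                                have k622 : e17 ≤ e25 := L1 l25
                                have k623 : e22 ≤ e25 := L2 l25
                                have k628 : e25 ≤ e12 := L3 l25 k294 k487
                                have k629 : e25 ≤ e15 := L3 l25 k314 k619
                                have k636 : e14 ≤ e25 := le_trans k483 k623
                                have k647 : ¬ e8 ≤ e25 := N2 k163 k628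
                                have k649 : ¬ e15 ≤ e25 := N1 k647 k229
                                have k667 : ¬ e25 ≤ e21 := N1 k485 k623
                                have k669 : e21 ≤ e25 := L3 l21 k622 k636
                                exact HL _ _ _ _ _ _ c13 c21 c25 c15 c18 c6 (LT k453 k478) (LT k669 k667) (LT k629 k649) (LT k344 k339) (LT k321 k345)
                              · have k550 : ¬ e22 ≤ e18 := L4 l23 k319 k549
                                have k551 : ¬ e22 ≤ e15 := N2 k550 k344
                                obtain ⟨e24, q24⟩ : ∃ y, f e23 = y := ⟨_, rfl⟩
                                have k556 : e14 ≤ e24 := MO hf q14 q24 k522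
                                have k557 : e16 ≤ e24 := MO hf q16 q24 k546
                                have k558 : e19 ≤ e24 := MO hf q19 q24 k547
                                have k559 : e22 ≤ e24 := MO hf q22 q24 k548
                                have k560 : ¬ e23 ≤ e24 := FA hF q24
                                have k561 : ¬ e24 ≤ e23 := FB hG q24
                                have k562 : ¬ e0 ≤ e24 := L5 l23 k559 k560
                                have k564 : e13 ≤ e24 := le_trans k316 k557
                                have k565 : e17 ≤ e24 := le_trans k285 k557
                                have k567 : e8 ≤ e24 := le_trans k422 k558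
                                by_cases k593 : ∃ z, IsGLB ({e0, e24} : Set P) z
                                · obtain ⟨e25, g25⟩ := k593
                                  have c25 : Core e0 e25 := CM g25
                                  obtain ⟨e26, l26⟩ := ZE h2 k556 k226 g25
                                  have c26 : Core e0 e26 := CZ g25 k226 l26
                                  have k598 : e25 ≤ e0 := G1 g25
                                  have k599 : e25 ≤ e24 := G2 g25
                                  have k601 : e8 ≤ e25 := G3 g25 k73 k567
                                  have k602 : e13 ≤ e25 := G3 g25 k178 k564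
                                  have k603 : e17 ≤ e25 := G3 g25 k284 k565
                                  have k614 : e25 ≤ e6 := le_trans k598 k42
                                  have k617 : e25 ≤ e23 := le_trans k598 k517
                                  have k623 : ¬ e0 ≤ e25 := N2 k562 k599
                                  have k691 : e25 ≤ e8 := Classical.byContradiction fun hn => HL _ _ _ _ _ _ c2 c8 c25 c0 c4 c6 (LT k75 k89) (LT k601 hn) (LT k598 k623) (LT k21 k28) (LT k54 k53)
                                  have k692 : e25 ≤ e7 := le_trans k691 k74
                                  have k696 : e25 ≤ e20 := le_trans k691 k421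
                                  obtain ⟨e27, l27⟩ := ZE h2 k559 k514 g25
                                  have c27 : Core e0 e27 := CZ g25 k514 l27
                                  have k703 : e25 ≤ e27 := L1 l27
                                  have k704 : e22 ≤ e27 := L2 l27
                                  have k705 : e27 ≤ e7 := L3 l27 k692 k486
                                  have k707 : e27 ≤ e23 := L3 l27 k617 k518
                                  have k709 : e14 ≤ e27 := le_trans k483 k704
                                  have k711 : e8 ≤ e27 := le_trans k601 k703
                                  have k712 : e13 ≤ e27 := le_trans k602 k703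
                                  have k713 : e17 ≤ e27 := le_trans k603 k703
                                  have k715 : ¬ e0 ≤ e27 := N2 k61 k705
                                  have k720 : ¬ e23 ≤ e27 := N1 k715 k517
                                  have k738 : ¬ e27 ≤ e15 := N1 k551 k704
                                  have k743 : e15 ≤ e27 := L3 l15 k711 k709
                                  have k744 : e21 ≤ e27 := L3 l21 k713 k709
                                  obtain ⟨e28, q28⟩ : ∃ y, f e27 = y := ⟨_, rfl⟩
                                  have k748 : e9 ≤ e28 := MO hf q9 q28 k711
                                  have k749 : e14 ≤ e28 := MO hf q14 q28 k712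
                                  have k750 : e16 ≤ e28 := MO hf q16 q28 k743
                                  have k751 : e22 ≤ e28 := MO hf q22 q28 k744
                                  have k752 : ¬ e27 ≤ e28 := FA hF q28
                                  have k753 : ¬ e28 ≤ e27 := FB hG q28
                                  have k754 : e28 ≤ e24 := MO hf q28 q24 k707
                                  have k755 : ¬ e25 ≤ e28 := L5 l27 k751 k752
                                  have k756 : e13 ≤ e28 := le_trans k316 k750
                                  have k757 : e17 ≤ e28 := le_trans k285 k750
                                  have k783 : ¬ e8 ≤ e28 := N1 k755 k691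
                                  by_cases k790 : ∃ z, IsGLB ({e0, e28} : Set P) z
                                  · obtain ⟨e29, g29⟩ := k790
                                    have c29 : Core e0 e29 := CM g29
                                    obtain ⟨e30, l30⟩ := ZE h2 k749 k226 g29
                                    have c30 : Core e0 e30 := CZ g29 k226 l30
                                    have k795 : e29 ≤ e0 := G1 g29
                                    have k796 : e29 ≤ e28 := G2 g29
                                    have k797 : e13 ≤ e29 := G3 g29 k178 k756
                                    have k798 : e17 ≤ e29 := G3 g29 k284 k757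
                                    have k811 : e29 ≤ e23 := le_trans k795 k517
                                    have k812 : e29 ≤ e24 := le_trans k796 k754
                                    have k840 : ¬ e8 ≤ e29 := N2 k783 k796
                                    have k843 : ¬ e20 ≤ e29 := N1 k840 k421
                                    have k874 : e29 ≤ e25 := G3 g25 k795 k812
                                    have k882 : e29 ≤ e8 := le_trans k874 k691
                                    have k886 : e29 ≤ e20 := le_trans k874 k696
                                    have k888 : e29 ≤ e27 := le_trans k874 k703
                                    have k902 : e29 ≤ e13 := Classical.byContradiction fun hn => HL _ _ _ _ _ _ c13 c29 c20 c15 c11 c6 (LT k797 hn) (LT k886 k843) (LT k414 k411) (LT k234 k254) (LT k138 k145)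
                                    obtain ⟨e31, l31⟩ := ZE h2 k751 k514 g29
                                    have c31 : Core e0 e31 := CZ g29 k514 l31
                                    have k912 : e29 ≤ e31 := L1 l31
                                    have k913 : e22 ≤ e31 := L2 l31
                                    have k918 : e31 ≤ e23 := L3 l31 k811 k518
                                    have k920 : e31 ≤ e27 := L3 l31 k888 k704
                                    have k922 : e14 ≤ e31 := le_trans k483 k913
                                    have k924 : e17 ≤ e31 := le_trans k798 k912
                                    have k957 : ¬ e31 ≤ e21 := N1 k485 k913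
                                    have k962 : e21 ≤ e31 := L3 l21 k924 k922
                                    obtain ⟨e32, q32⟩ : ∃ y, f e31 = y := ⟨_, rfl⟩
                                    have k966 : e22 ≤ e32 := MO hf q22 q32 k962
                                    have k967 : ¬ e31 ≤ e32 := FA hF q32
                                    have k968 : ¬ e32 ≤ e31 := FB hG q32
                                    have k969 : e32 ≤ e24 := MO hf q32 q24 k918
                                    have k970 : e32 ≤ e28 := MO hf q32 q28 k920
                                    have k971 : ¬ e29 ≤ e32 := L5 l31 k966 k967
                                    have k1005 : ¬ e13 ≤ e32 := N1 k971 k902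
                                    by_cases k1012 : ∃ z, IsGLB ({e0, e32} : Set P) z
                                    · obtain ⟨e33, g33⟩ := k1012
                                      have c33 : Core e0 e33 := CM g33
                                      have k1015 : e33 ≤ e0 := G1 g33
                                      have k1016 : e33 ≤ e32 := G2 g33
                                      have k1026 : e33 ≤ e28 := le_trans k1016 k970
                                      have k1050 : ¬ e13 ≤ e33 := N2 k1005 k1016
                                      have k1053 : ¬ e29 ≤ e33 := N1 k1050 k797
                                      have k1060 : e33 ≤ e29 := G3 g29 k1015 k1026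
                                      exact HL _ _ _ _ _ _ c33 c29 c8 c0 c4 c6 (LT k1060 k1053) (LT k882 k840) (LT k73 k81) (LT k21 k28) (LT k54 k53)
                                    · obtain ⟨e33, l33⟩ := (h1 e32).resolve_right k1012
                                      have c33 : Core e0 e33 := CJ k1012 l33
                                      have k1015 : e0 ≤ e33 := L1 l33
                                      have k1016 : e32 ≤ e33 := L2 l33
                                      have k1026 : e22 ≤ e33 := le_trans k966 k1016
                                      have k1060 : e23 ≤ e33 := L3 l23 k1015 k1026
                                      have k1065 : e33 ≤ e23 := Classical.byContradiction fun hn => HL _ _ _ _ _ _ c2 c8 c15 c18 c23 c33 (LT k75 k89) (LT k229 k252) (LT k344 k339) (LT k547 k549) (LT k1060 hn)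
                                      have k1066 : e32 ≤ e23 := le_trans k1016 k1065
                                      obtain ⟨e34, l34⟩ := ZE h2 k969 k1012 g25
                                      have c34 : Core e0 e34 := CZ g25 k1012 l34
                                      have k1070 : e25 ≤ e34 := L1 l34
                                      have k1071 : e32 ≤ e34 := L2 l34
                                      have k1072 : e34 ≤ e23 := L3 l34 k617 k1066
                                      have k1073 : e34 ≤ e24 := L3 l34 k599 k969
                                      have k1082 : e22 ≤ e34 := le_trans k966 k1071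
                                      have k1083 : ¬ e0 ≤ e34 := N2 k562 k1073
                                      have k1088 : ¬ e23 ≤ e34 := N1 k1083 k517
                                      have k1120 : e27 ≤ e34 := L3 l27 k1070 k1082
                                      have k1123 : e34 ≤ e27 := Classical.byContradiction fun hn => HL _ _ _ _ _ _ c2 c8 c15 c27 c34 c23 (LT k75 k89) (LT k229 k252) (LT k743 k738) (LT k1120 hn) (LT k1072 k1088)
                                      have k1128 : e32 ≤ e27 := le_trans k1071 k1123
                                      obtain ⟨e35, l35⟩ := ZE h2 k970 k1012 g29
                                      have c35 : Core e0 e35 := CZ g29 k1012 l35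
                                      have k1132 : e29 ≤ e35 := L1 l35
                                      have k1133 : e32 ≤ e35 := L2 l35
                                      have k1138 : e35 ≤ e27 := L3 l35 k888 k1128
                                      have k1139 : e35 ≤ e28 := L3 l35 k796 k970
                                      have k1145 : e22 ≤ e35 := le_trans k966 k1133
                                      have k1154 : ¬ e8 ≤ e35 := N2 k783 k1139
                                      have k1162 : ¬ e27 ≤ e35 := N1 k1154 k711
                                      have k1185 : ¬ e35 ≤ e31 := N1 k968 k1133
                                      have k1189 : e31 ≤ e35 := L3 l31 k1132 k1145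
                                      exact HL _ _ _ _ _ _ c13 c21 c31 c35 c27 c23 (LT k453 k478) (LT k962 k957) (LT k1189 k1185) (LT k1138 k1162) (LT k707 k720)
                                  · obtain ⟨e29, l29⟩ := (h1 e28).resolve_right k790
                                    have c29 : Core e0 e29 := CJ k790 l29
                                    have k793 : e0 ≤ e29 := L1 l29
                                    have k794 : e28 ≤ e29 := L2 l29
                                    have k801 : e25 ≤ e29 := le_trans k598 k793
                                    have k803 : e9 ≤ e29 := le_trans k748 k794
                                    have k807 : e22 ≤ e29 := le_trans k751 k794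
                                    have k835 : e10 ≤ e29 := L3 l10 k793 k803
                                    have k841 : e27 ≤ e29 := L3 l27 k801 k807
                                    have k844 : e6 ≤ e29 := le_trans k131 k835
                                    have k845 : e29 ≤ e6 := Classical.byContradiction fun hn => HL _ _ _ _ _ _ c2 c8 c15 c18 c6 c29 (LT k75 k89) (LT k229 k252) (LT k344 k339) (LT k321 k345) (LT k844 hn)
                                    have k853 : e27 ≤ e6 := le_trans k841 k845
                                    have k855 : e28 ≤ e6 := le_trans k794 k845
                                    have k861 : e28 ≤ e7 := MO hf q28 q7 k853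
                                    obtain ⟨e30, l30⟩ := ZE h2 k754 k790 g25
                                    have c30 : Core e0 e30 := CZ g25 k790 l30
                                    have k882 : e25 ≤ e30 := L1 l30
                                    have k883 : e28 ≤ e30 := L2 l30
                                    have k884 : e30 ≤ e6 := L3 l30 k614 k855
                                    have k885 : e30 ≤ e7 := L3 l30 k692 k861
                                    have k900 : e22 ≤ e30 := le_trans k751 k883
                                    have k901 : ¬ e0 ≤ e30 := N2 k61 k885
                                    have k903 : ¬ e6 ≤ e30 := N1 k901 k42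
                                    have k931 : ¬ e30 ≤ e27 := N1 k753 k883
                                    have k936 : e27 ≤ e30 := L3 l27 k882 k900
                                    exact HL _ _ _ _ _ _ c2 c20 c15 c27 c30 c6 (LT k384 k425) (LT k414 k411) (LT k743 k738) (LT k936 k931) (LT k884 k903)
                                · obtain ⟨e25, l25⟩ := (h1 e24).resolve_right k593
                                  have c25 : Core e0 e25 := CJ k593 l25
                                  have k596 : e0 ≤ e25 := L1 l25
                                  have k597 : e24 ≤ e25 := L2 l25
                                  have k613 : e22 ≤ e25 := le_trans k559 k597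
                                  have k636 : ¬ e25 ≤ e23 := N1 k561 k597
                                  have k640 : e23 ≤ e25 := L3 l23 k596 k613
                                  exact HL _ _ _ _ _ _ c2 c8 c0 c18 c23 c25 (LT k75 k89) (LT k73 k81) (LT k319 k343) (LT k547 k549) (LT k640 k636)
                        · obtain ⟨e20, l20⟩ := (h1 e19).resolve_right k379
                          have c20 : Core e0 e20 := CJ k379 l20
                          have k386 : e0 ≤ e20 := L1 l20
                          have k387 : e19 ≤ e20 := L2 l20
                          have k395 : e9 ≤ e20 := le_trans k356 k387
                          have k397 : e16 ≤ e20 := le_trans k358 k387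
                          have k417 : e10 ≤ e20 := L3 l10 k386 k395
                          have k422 : e6 ≤ e20 := le_trans k131 k417
                          have k423 : e20 ≤ e6 := Classical.byContradiction fun hn => HL _ _ _ _ _ _ c2 c8 c15 c18 c6 c20 (LT k75 k89) (LT k229 k252) (LT k344 k339) (LT k321 k345) (LT k422 hn)
                          have k425 : e16 ≤ e6 := le_trans k397 k423
                          obtain ⟨e21, l21⟩ := ZE h2 k262 k226 g17
                          have c21 : Core e0 e21 := CZ g17 k226 l21
                          have k432 : e17 ≤ e21 := L1 l21
                          have k433 : e14 ≤ e21 := L2 l21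
                          have k434 : e21 ≤ e6 := L3 l21 k291 k210
                          have k437 : e21 ≤ e11 := L3 l21 k313 k212
                          have k439 : e21 ≤ e15 := L3 l21 k314 k230
                          have k444 : e13 ≤ e21 := le_trans k315 k432
                          have k467 : ¬ e21 ≤ e13 := N1 k203 k433
                          obtain ⟨e22, q22⟩ : ∃ y, f e21 = y := ⟨_, rfl⟩
                          have k471 : e14 ≤ e22 := MO hf q14 q22 k444
                          have k472 : ¬ e21 ≤ e22 := FA hF q22
                          have k473 : ¬ e22 ≤ e21 := FB hG q22
                          have k474 : e22 ≤ e7 := MO hf q22 q7 k434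
                          have k475 : e22 ≤ e12 := MO hf q22 q12 k437
                          have k476 : e22 ≤ e16 := MO hf q22 q16 k439
                          have k478 : ¬ e17 ≤ e22 := L5 l21 k471 k472
                          have k479 : e22 ≤ e6 := le_trans k476 k425
                          have k498 : ¬ e13 ≤ e22 := N1 k478 k312
                          by_cases k502 : ∃ z, IsGLB ({e0, e22} : Set P) z
                          · obtain ⟨e23, g23⟩ := k502
                            have c23 : Core e0 e23 := CM g23
                            have k505 : e23 ≤ e0 := G1 g23
                            have k506 : e23 ≤ e22 := G2 g23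
                            have k515 : e23 ≤ e12 := le_trans k506 k475
                            have k535 : ¬ e13 ≤ e23 := N2 k498 k506
                            have k541 : e23 ≤ e13 := G3 g13 k505 k515
                            exact HL _ _ _ _ _ _ c23 c13 c8 c0 c4 c6 (LT k541 k535) (LT k199 k198) (LT k73 k81) (LT k21 k28) (LT k54 k53)
                          · obtain ⟨e23, l23⟩ := (h1 e22).resolve_right k502
                            have c23 : Core e0 e23 := CJ k502 l23
                            have k505 : e0 ≤ e23 := L1 l23
                            have k506 : e22 ≤ e23 := L2 l23
                            have k507 : e23 ≤ e6 := L3 l23 k42 k479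
                            have k515 : e14 ≤ e23 := le_trans k471 k506
                            have k536 : e18 ≤ e23 := L3 l18 k505 k515
                            by_cases k538 : e23 ≤ e18
                            · have k539 : e22 ≤ e18 := le_trans k506 k538
                              obtain ⟨e24, l24⟩ := ZE h2 k474 k502 g8
                              have c24 : Core e0 e24 := CZ g8 k502 l24
                              have k555 : e8 ≤ e24 := L1 l24
                              have k556 : e22 ≤ e24 := L2 l24
                              have k558 : e24 ≤ e7 := L3 l24 k74 k474
                              have k560 : e24 ≤ e18 := L3 l24 k325 k539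
                              have k566 : e14 ≤ e24 := le_trans k471 k556
                              have k567 : ¬ e0 ≤ e24 := N2 k61 k558
                              have k571 : ¬ e18 ≤ e24 := N1 k567 k319
                              have k598 : e15 ≤ e24 := L3 l15 k555 k566
                              have k600 : e24 ≤ e15 := Classical.byContradiction fun hn => HL _ _ _ _ _ _ c2 c8 c15 c24 c18 c6 (LT k75 k89) (LT k229 k252) (LT k598 hn) (LT k560 k571) (LT k321 k345)
                              have k603 : e22 ≤ e15 := le_trans k556 k600
                              obtain ⟨e25, l25⟩ := ZE h2 k476 k502 g17
                              have c25 : Core e0 e25 := CZ g17 k502 l25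
                              have k606 : e17 ≤ e25 := L1 l25
                              have k607 : e22 ≤ e25 := L2 l25
                              have k612 : e25 ≤ e12 := L3 l25 k294 k475
                              have k613 : e25 ≤ e15 := L3 l25 k314 k603
                              have k621 : e14 ≤ e25 := le_trans k471 k607
                              have k633 : ¬ e8 ≤ e25 := N2 k163 k612
                              have k635 : ¬ e15 ≤ e25 := N1 k633 k229
                              have k649 : ¬ e25 ≤ e21 := N1 k473 k607
                              have k651 : e21 ≤ e25 := L3 l21 k606 k621
                              exact HL _ _ _ _ _ _ c13 c21 c25 c15 c18 c6 (LT k444 k467) (LT k651 k649) (LT k613 k635) (LT k344 k339) (LT k321 k345)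
                            · have k539 : ¬ e22 ≤ e18 := L4 l23 k319 k538
                              have k540 : ¬ e22 ≤ e15 := N2 k539 k344
                              have k541 : e6 ≤ e23 := Classical.byContradiction fun hn => HL _ _ _ _ _ _ c2 c8 c15 c18 c23 c6 (LT k75 k89) (LT k229 k252) (LT k344 k339) (LT k536 k538) (LT k507 hn)
                              obtain ⟨e24, l24⟩ := ZE h2 k474 k502 g8
                              have c24 : Core e0 e24 := CZ g8 k502 l24
                              have k557 : e8 ≤ e24 := L1 l24
                              have k558 : e22 ≤ e24 := L2 l24
                              have k559 : e24 ≤ e6 := L3 l24 k80 k479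
                              have k560 : e24 ≤ e7 := L3 l24 k74 k474
                              have k565 : e13 ≤ e24 := le_trans k199 k557
                              have k566 : e17 ≤ e24 := le_trans k311 k557
                              have k567 : e14 ≤ e24 := le_trans k471 k558
                              have k568 : ¬ e0 ≤ e24 := N2 k61 k560
                              have k570 : ¬ e6 ≤ e24 := N1 k568 k42
                              have k592 : ¬ e24 ≤ e15 := N1 k540 k558
                              have k595 : e15 ≤ e24 := L3 l15 k557 k567
                              have k596 : e21 ≤ e24 := L3 l21 k566 k567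
                              obtain ⟨e25, q25⟩ : ∃ y, f e24 = y := ⟨_, rfl⟩
                              have k599 : e9 ≤ e25 := MO hf q9 q25 k557
                              have k600 : e14 ≤ e25 := MO hf q14 q25 k565
                              have k601 : e16 ≤ e25 := MO hf q16 q25 k595
                              have k602 : e22 ≤ e25 := MO hf q22 q25 k596
                              have k603 : ¬ e24 ≤ e25 := FA hF q25
                              have k604 : ¬ e25 ≤ e24 := FB hG q25
                              have k605 : e25 ≤ e7 := MO hf q25 q7 k559
                              have k606 : ¬ e8 ≤ e25 := L5 l24 k602 k603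
                              have k607 : e13 ≤ e25 := le_trans k316 k601
                              have k608 : e17 ≤ e25 := le_trans k285 k601
                              by_cases k633 : ∃ z, IsGLB ({e0, e25} : Set P) z
                              · obtain ⟨e26, g26⟩ := k633
                                have c26 : Core e0 e26 := CM g26
                                obtain ⟨e27, l27⟩ := ZE h2 k600 k226 g26
                                have c27 : Core e0 e27 := CZ g26 k226 l27
                                have k638 : e26 ≤ e0 := G1 g26
                                have k639 : e26 ≤ e25 := G2 g26
                                have k640 : e13 ≤ e26 := G3 g26 k178 k607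
                                have k641 : e17 ≤ e26 := G3 g26 k284 k608
                                have k651 : e26 ≤ e6 := le_trans k638 k42
                                have k656 : e26 ≤ e7 := le_trans k639 k605
                                have k685 : ¬ e8 ≤ e26 := N2 k606 k639
                                have k705 : e26 ≤ e8 := G3 g8 k638 k656
                                have k715 : e26 ≤ e24 := le_trans k705 k557
                                have k727 : e26 ≤ e13 := Classical.byContradiction fun hn => HL _ _ _ _ _ _ c13 c26 c8 c0 c4 c6 (LT k640 hn) (LT k705 k685) (LT k73 k81) (LT k21 k28) (LT k54 k53)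
                                obtain ⟨e28, l28⟩ := ZE h2 k602 k502 g26
                                have c28 : Core e0 e28 := CZ g26 k502 l28
                                have k739 : e26 ≤ e28 := L1 l28
                                have k740 : e22 ≤ e28 := L2 l28
                                have k741 : e28 ≤ e6 := L3 l28 k651 k479
                                have k749 : e28 ≤ e24 := L3 l28 k715 k558
                                have k751 : e14 ≤ e28 := le_trans k471 k740
                                have k753 : e17 ≤ e28 := le_trans k641 k739
                                have k779 : ¬ e28 ≤ e21 := N1 k473 k740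
                                have k783 : e21 ≤ e28 := L3 l21 k753 k751
                                obtain ⟨e29, q29⟩ : ∃ y, f e28 = y := ⟨_, rfl⟩
                                have k787 : e22 ≤ e29 := MO hf q22 q29 k783
                                have k788 : ¬ e28 ≤ e29 := FA hF q29
                                have k789 : ¬ e29 ≤ e28 := FB hG q29
                                have k790 : e29 ≤ e7 := MO hf q29 q7 k741
                                have k791 : e29 ≤ e25 := MO hf q29 q25 k749
                                have k792 : ¬ e26 ≤ e29 := L5 l28 k787 k788
                                have k819 : ¬ e13 ≤ e29 := N1 k792 k727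
                                by_cases k827 : ∃ z, IsGLB ({e0, e29} : Set P) z
                                · obtain ⟨e30, g30⟩ := k827
                                  have c30 : Core e0 e30 := CM g30
                                  have k830 : e30 ≤ e0 := G1 g30
                                  have k831 : e30 ≤ e29 := G2 g30
                                  have k842 : e30 ≤ e25 := le_trans k831 k791
                                  have k863 : ¬ e13 ≤ e30 := N2 k819 k831
                                  have k866 : ¬ e26 ≤ e30 := N1 k863 k640
                                  have k873 : e30 ≤ e26 := G3 g26 k830 k842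
                                  exact HL _ _ _ _ _ _ c30 c26 c8 c0 c4 c6 (LT k873 k866) (LT k705 k685) (LT k73 k81) (LT k21 k28) (LT k54 k53)
                                · obtain ⟨e30, l30⟩ := (h1 e29).resolve_right k827
                                  have c30 : Core e0 e30 := CJ k827 l30
                                  have k830 : e0 ≤ e30 := L1 l30
                                  have k831 : e29 ≤ e30 := L2 l30
                                  have k839 : e22 ≤ e30 := le_trans k787 k831
                                  have k869 : e23 ≤ e30 := L3 l23 k830 k839
                                  have k877 : e6 ≤ e30 := le_trans k541 k869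
                                  have k884 : e30 ≤ e6 := Classical.byContradiction fun hn => HL _ _ _ _ _ _ c2 c8 c15 c18 c6 c30 (LT k75 k89) (LT k229 k252) (LT k344 k339) (LT k321 k345) (LT k877 hn)
                                  have k888 : e29 ≤ e6 := le_trans k831 k884
                                  obtain ⟨e31, l31⟩ := ZE h2 k790 k827 g8
                                  have c31 : Core e0 e31 := CZ g8 k827 l31
                                  have k895 : e8 ≤ e31 := L1 l31
                                  have k896 : e29 ≤ e31 := L2 l31
                                  have k897 : e31 ≤ e6 := L3 l31 k80 k888
                                  have k898 : e31 ≤ e7 := L3 l31 k74 k790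
                                  have k908 : e22 ≤ e31 := le_trans k787 k896
                                  have k909 : ¬ e0 ≤ e31 := N2 k61 k898
                                  have k911 : ¬ e6 ≤ e31 := N1 k909 k42
                                  have k944 : e24 ≤ e31 := L3 l24 k895 k908
                                  have k947 : e31 ≤ e24 := Classical.byContradiction fun hn => HL _ _ _ _ _ _ c2 c8 c15 c24 c31 c6 (LT k75 k89) (LT k229 k252) (LT k595 k592) (LT k944 hn) (LT k897 k911)
                                  have k948 : e29 ≤ e24 := le_trans k896 k947
                                  obtain ⟨e32, l32⟩ := ZE h2 k791 k827 g26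
                                  have c32 : Core e0 e32 := CZ g26 k827 l32
                                  have k952 : e26 ≤ e32 := L1 l32
                                  have k953 : e29 ≤ e32 := L2 l32
                                  have k959 : e32 ≤ e24 := L3 l32 k715 k948
                                  have k960 : e32 ≤ e25 := L3 l32 k639 k791
                                  have k966 : e22 ≤ e32 := le_trans k787 k953
                                  have k976 : ¬ e8 ≤ e32 := N2 k606 k960
                                  have k979 : ¬ e24 ≤ e32 := N1 k976 k557
                                  have k998 : ¬ e32 ≤ e28 := N1 k789 k953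
                                  have k1002 : e28 ≤ e32 := L3 l28 k952 k966
                                  exact HL _ _ _ _ _ _ c13 c21 c28 c32 c24 c6 (LT k444 k467) (LT k783 k779) (LT k1002 k998) (LT k959 k979) (LT k559 k570)
                              · obtain ⟨e26, l26⟩ := (h1 e25).resolve_right k633
                                have c26 : Core e0 e26 := CJ k633 l26
                                have k636 : e0 ≤ e26 := L1 l26
                                have k637 : e25 ≤ e26 := L2 l26
                                have k644 : e9 ≤ e26 := le_trans k599 k637
                                have k672 : e10 ≤ e26 := L3 l10 k636 k644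
                                have k680 : e6 ≤ e26 := le_trans k131 k672
                                have k683 : e26 ≤ e6 := Classical.byContradiction fun hn => HL _ _ _ _ _ _ c2 c8 c15 c18 c6 c26 (LT k75 k89) (LT k229 k252) (LT k344 k339) (LT k321 k345) (LT k680 hn)
                                have k687 : e25 ≤ e6 := le_trans k637 k683
                                obtain ⟨e27, l27⟩ := ZE h2 k605 k633 g8
                                have c27 : Core e0 e27 := CZ g8 k633 l27
                                have k694 : e8 ≤ e27 := L1 l27
                                have k695 : e25 ≤ e27 := L2 l27
                                have k696 : e27 ≤ e6 := L3 l27 k80 k687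
                                have k697 : e27 ≤ e7 := L3 l27 k74 k605
                                have k710 : e22 ≤ e27 := le_trans k602 k695
                                have k711 : ¬ e0 ≤ e27 := N2 k61 k697
                                have k713 : ¬ e6 ≤ e27 := N1 k711 k42
                                have k739 : ¬ e27 ≤ e24 := N1 k604 k695
                                have k743 : e24 ≤ e27 := L3 l24 k694 k710
                                exact HL _ _ _ _ _ _ c2 c8 c15 c24 c27 c6 (LT k75 k89) (LT k229 k252) (LT k595 k592) (LT k743 k739) (LT k696 k713)
                    · have k282 : ¬ e13 ≤ e16 := BN3 g13 k281 k266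
                      obtain ⟨e17, l17⟩ := (h1 e16).resolve_right k281
                      have c17 : Core e0 e17 := CJ k281 l17
                      have k286 : e0 ≤ e17 := L1 l17
                      have k287 : e16 ≤ e17 := L2 l17
                      have k293 : e9 ≤ e17 := le_trans k261 k287
                      have k311 : e10 ≤ e17 := L3 l10 k286 k293
                      have k316 : e6 ≤ e17 := le_trans k131 k311
                      have k317 : e17 ≤ e6 := Classical.byContradiction fun hn => HL _ _ _ _ _ _ c2 c8 c0 c4 c6 c17 (LT k75 k89) (LT k73 k81) (LT k21 k28) (LT k54 k53) (LT k316 hn)
                      have k319 : e16 ≤ e6 := le_trans k287 k317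
                      obtain ⟨e18, l18⟩ := ZE h2 k265 k281 g8
                      have c18 : Core e0 e18 := CZ g8 k281 l18
                      have k324 : e8 ≤ e18 := L1 l18
                      have k325 : e16 ≤ e18 := L2 l18
                      have k326 : e18 ≤ e6 := L3 l18 k80 k319
                      have k327 : e18 ≤ e7 := L3 l18 k74 k265
                      have k333 : e9 ≤ e18 := le_trans k261 k325
                      have k334 : e14 ≤ e18 := le_trans k262 k325
                      have k335 : ¬ e0 ≤ e18 := N2 k61 k327
                      have k337 : ¬ e6 ≤ e18 := N1 k335 k42
                      have k353 : ¬ e18 ≤ e15 := N1 k255 k333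
                      have k355 : e11 ≤ e18 := L3 l11 k324 k333
                      have k356 : e15 ≤ e18 := L3 l15 k324 k334
                      have k357 : e18 ≤ e11 := Classical.byContradiction fun hn => HL _ _ _ _ _ _ c2 c8 c15 c11 c18 c6 (LT k75 k89) (LT k229 k252) (LT k234 k254) (LT k355 hn) (LT k326 k337)
                      have k358 : e16 ≤ e11 := le_trans k325 k357
                      obtain ⟨e19, l19⟩ := ZE h2 k208 k226 g13
                      have c19 : Core e0 e19 := CZ g13 k226 l19
                      have k362 : e13 ≤ e19 := L1 l19
                      have k363 : e14 ≤ e19 := L2 l19
                      have k364 : e19 ≤ e6 := L3 l19 k184 k210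
                      have k367 : e19 ≤ e11 := L3 l19 k200 k212
                      have k369 : e19 ≤ e15 := L3 l19 k236 k230
                      have k394 : ¬ e19 ≤ e13 := N1 k203 k363
                      obtain ⟨e20, q20⟩ : ∃ y, f e19 = y := ⟨_, rfl⟩
                      have k397 : e14 ≤ e20 := MO hf q14 q20 k362
                      have k399 : ¬ e20 ≤ e19 := FB hG q20
                      have k400 : e20 ≤ e7 := MO hf q20 q7 k364
                      have k401 : e20 ≤ e12 := MO hf q20 q12 k367
                      have k402 : e20 ≤ e16 := MO hf q20 q16 k369
                      have k404 : e20 ≤ e6 := le_trans k402 k319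
                      have k406 : e20 ≤ e11 := le_trans k402 k358
                      by_cases k425 : ∃ z, IsGLB ({e0, e20} : Set P) z
                      · obtain ⟨e21, g21⟩ := k425
                        have c21 : Core e0 e21 := CM g21
                        have k428 : e21 ≤ e0 := G1 g21
                        have k429 : e21 ≤ e20 := G2 g21
                        have k438 : e21 ≤ e12 := le_trans k429 k401
                        have k439 : e21 ≤ e16 := le_trans k429 k402
                        have k457 : ¬ e13 ≤ e21 := N2 k282 k439
                        have k462 : e21 ≤ e13 := G3 g13 k428 k438
                        exact HL _ _ _ _ _ _ c21 c13 c8 c0 c4 c6 (LT k462 k457) (LT k199 k198) (LT k73 k81) (LT k21 k28) (LT k54 k53)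
                      · obtain ⟨e21, l21⟩ := ZE h2 k400 k425 g8
                        have c21 : Core e0 e21 := CZ g8 k425 l21
                        have k428 : e8 ≤ e21 := L1 l21
                        have k429 : e20 ≤ e21 := L2 l21
                        have k433 : e21 ≤ e11 := L3 l21 k136 k406
                        have k438 : e14 ≤ e21 := le_trans k397 k429
                        have k460 : e15 ≤ e21 := L3 l15 k428 k438
                        by_cases k462 : e21 ≤ e15
                        · have k463 : e20 ≤ e15 := le_trans k429 k462
                          obtain ⟨e22, l22⟩ := ZE h2 k401 k425 g13
                          have c22 : Core e0 e22 := CZ g13 k425 l22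
                          have k476 : e13 ≤ e22 := L1 l22
                          have k477 : e20 ≤ e22 := L2 l22
                          have k482 : e22 ≤ e12 := L3 l22 k179 k401
                          have k483 : e22 ≤ e15 := L3 l22 k236 k463
                          have k487 : e14 ≤ e22 := le_trans k397 k477
                          have k496 : ¬ e8 ≤ e22 := N2 k163 k482
                          have k498 : ¬ e15 ≤ e22 := N1 k496 k229
                          have k513 : ¬ e22 ≤ e19 := N1 k399 k477
                          have k515 : e19 ≤ e22 := L3 l19 k476 k487
                          exact HL _ _ _ _ _ _ c13 c19 c22 c15 c18 c6 (LT k362 k394) (LT k515 k513) (LT k483 k498) (LT k356 k353) (LT k326 k337)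
                        · have k464 : e11 ≤ e21 := Classical.byContradiction fun hn => HL _ _ _ _ _ _ c2 c8 c15 c21 c11 c6 (LT k75 k89) (LT k229 k252) (LT k460 k462) (LT k433 hn) (LT k138 k145)
                          have k466 : e9 ≤ e21 := le_trans k137 k464
                          obtain ⟨e22, l22⟩ := ZE h2 k401 k425 g13
                          have c22 : Core e0 e22 := CZ g13 k425 l22
                          have k474 : e13 ≤ e22 := L1 l22
                          have k475 : e20 ≤ e22 := L2 l22
                          have k476 : e22 ≤ e6 := L3 l22 k184 k404
                          have k479 : e22 ≤ e11 := L3 l22 k200 k406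
                          have k484 : e14 ≤ e22 := le_trans k397 k475
                          have k508 : ¬ e22 ≤ e19 := N1 k399 k475
                          have k510 : e19 ≤ e22 := L3 l19 k474 k484
                          obtain ⟨e23, q23⟩ : ∃ y, f e22 = y := ⟨_, rfl⟩
                          have k513 : e20 ≤ e23 := MO hf q20 q23 k510
                          have k514 : ¬ e22 ≤ e23 := FA hF q23
                          have k515 : ¬ e23 ≤ e22 := FB hG q23
                          have k516 : e23 ≤ e7 := MO hf q23 q7 k476
                          have k517 : e23 ≤ e12 := MO hf q23 q12 k479
                          have k518 : ¬ e13 ≤ e23 := L5 l22 k513 k514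
                          by_cases k542 : ∃ z, IsGLB ({e0, e23} : Set P) z
                          · obtain ⟨e24, g24⟩ := k542
                            have c24 : Core e0 e24 := CM g24
                            have k545 : e24 ≤ e0 := G1 g24
                            have k546 : e24 ≤ e23 := G2 g24
                            have k555 : e24 ≤ e12 := le_trans k546 k517
                            have k573 : ¬ e13 ≤ e24 := N2 k518 k546
                            have k580 : e24 ≤ e13 := G3 g13 k545 k555
                            exact HL _ _ _ _ _ _ c24 c13 c8 c0 c4 c6 (LT k580 k573) (LT k199 k198) (LT k73 k81) (LT k21 k28) (LT k54 k53)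
                          · obtain ⟨e24, l24⟩ := (h1 e23).resolve_right k542
                            have c24 : Core e0 e24 := CJ k542 l24
                            have k545 : e0 ≤ e24 := L1 l24
                            have k546 : e23 ≤ e24 := L2 l24
                            have k549 : e8 ≤ e24 := le_trans k73 k545
                            have k552 : e20 ≤ e24 := le_trans k513 k546
                            have k576 : e21 ≤ e24 := L3 l21 k549 k552
                            have k579 : e9 ≤ e24 := le_trans k466 k576
                            have k584 : e10 ≤ e24 := L3 l10 k545 k579
                            have k588 : e6 ≤ e24 := le_trans k131 k584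
                            have k589 : e24 ≤ e6 := Classical.byContradiction fun hn => HL _ _ _ _ _ _ c2 c8 c15 c18 c6 c24 (LT k75 k89) (LT k229 k252) (LT k356 k353) (LT k326 k337) (LT k588 hn)
                            have k592 : e23 ≤ e6 := le_trans k546 k589
                            obtain ⟨e25, l25⟩ := ZE h2 k516 k542 g8
                            have c25 : Core e0 e25 := CZ g8 k542 l25
                            have k598 : e8 ≤ e25 := L1 l25
                            have k599 : e23 ≤ e25 := L2 l25
                            have k600 : e25 ≤ e6 := L3 l25 k80 k592
                            have k601 : e25 ≤ e7 := L3 l25 k74 k516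
                            have k608 : e20 ≤ e25 := le_trans k513 k599
                            have k609 : ¬ e0 ≤ e25 := N2 k61 k601
                            have k611 : ¬ e6 ≤ e25 := N1 k609 k42
                            have k636 : e21 ≤ e25 := L3 l21 k598 k608
                            have k640 : e11 ≤ e25 := le_trans k464 k636
                            have k643 : e25 ≤ e11 := Classical.byContradiction fun hn => HL _ _ _ _ _ _ c2 c8 c15 c11 c25 c6 (LT k75 k89) (LT k229 k252) (LT k234 k254) (LT k640 hn) (LT k600 k611)
                            have k646 : e23 ≤ e11 := le_trans k599 k643
                            obtain ⟨e26, l26⟩ := ZE h2 k517 k542 g13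
                            have c26 : Core e0 e26 := CZ g13 k542 l26
                            have k652 : e13 ≤ e26 := L1 l26
                            have k653 : e23 ≤ e26 := L2 l26
                            have k657 : e26 ≤ e11 := L3 l26 k200 k646
                            have k658 : e26 ≤ e12 := L3 l26 k179 k517
                            have k665 : e20 ≤ e26 := le_trans k513 k653
                            have k673 : ¬ e8 ≤ e26 := N2 k163 k658
                            have k674 : ¬ e11 ≤ e26 := N1 k673 k136
                            have k693 : ¬ e26 ≤ e22 := N1 k515 k653
                            have k696 : e22 ≤ e26 := L3 l22 k652 k665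
                            exact HL _ _ _ _ _ _ c13 c19 c22 c26 c11 c6 (LT k362 k394) (LT k510 k508) (LT k696 k693) (LT k657 k674) (LT k138 k145)
              · obtain ⟨e13, l13⟩ := (h1 e12).resolve_right k175
                have c13 : Core e0 e13 := CJ k175 l13
                have k178 : e0 ≤ e13 := L1 l13
                have k179 : e12 ≤ e13 := L2 l13
                have k184 : e9 ≤ e13 := le_trans k159 k179
                have k197 : e10 ≤ e13 := L3 l10 k178 k184
                have k201 : e6 ≤ e13 := le_trans k131 k197
                have k202 : e13 ≤ e6 := Classical.byContradiction fun hn => HL _ _ _ _ _ _ c2 c8 c0 c4 c6 c13 (LT k75 k89) (LT k73 k81) (LT k21 k28) (LT k54 k53) (LT k201 hn)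
                have k204 : e12 ≤ e6 := le_trans k179 k202
                obtain ⟨e14, l14⟩ := ZE h2 k162 k175 g8
                have c14 : Core e0 e14 := CZ g8 k175 l14
                have k209 : e8 ≤ e14 := L1 l14
                have k210 : e12 ≤ e14 := L2 l14
                have k211 : e14 ≤ e6 := L3 l14 k80 k204
                have k212 : e14 ≤ e7 := L3 l14 k74 k162
                have k217 : e9 ≤ e14 := le_trans k159 k210
                have k218 : ¬ e0 ≤ e14 := N2 k61 k212
                have k220 : ¬ e6 ≤ e14 := N1 k218 k42
                have k233 : ¬ e14 ≤ e11 := N1 k161 k210
                have k235 : e11 ≤ e14 := L3 l11 k209 k217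
                obtain ⟨e15, q15⟩ : ∃ y, f e14 = y := ⟨_, rfl⟩
                have k238 : e9 ≤ e15 := MO hf q9 q15 k209
                have k239 : e12 ≤ e15 := MO hf q12 q15 k235
                have k240 : ¬ e14 ≤ e15 := FA hF q15
                have k241 : ¬ e15 ≤ e14 := FB hG q15
                have k242 : e15 ≤ e7 := MO hf q15 q7 k211
                have k243 : ¬ e8 ≤ e15 := L5 l14 k239 k240
                by_cases k259 : ∃ z, IsGLB ({e0, e15} : Set P) z
                · obtain ⟨e16, g16⟩ := k259
                  have c16 : Core e0 e16 := CM g16
                  have k262 : e16 ≤ e0 := G1 g16
                  have k263 : e16 ≤ e15 := G2 g16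
                  have k266 : ¬ e16 ≤ e12 := BN3 g16 k175 k239
                  have k269 : e16 ≤ e6 := le_trans k262 k42
                  have k272 : e16 ≤ e7 := le_trans k263 k242
                  have k287 : ¬ e8 ≤ e16 := N2 k243 k263
                  have k288 : e16 ≤ e8 := G3 g8 k262 k272
                  have k289 : e16 ≤ e11 := le_trans k288 k136
                  have k290 : e16 ≤ e14 := le_trans k288 k209
                  obtain ⟨e17, q17⟩ : ∃ y, f e16 = y := ⟨_, rfl⟩
                  have k293 : ¬ e17 ≤ e16 := FB hG q17
                  have k294 : e17 ≤ e1 := MO hf q17 q1 k262
                  have k296 : e17 ≤ e7 := MO hf q17 q7 k269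
                  have k297 : e17 ≤ e9 := MO hf q17 q9 k288
                  have k299 : e17 ≤ e15 := MO hf q17 q15 k290
                  have k300 : ¬ e17 ≤ e0 := G5 g16 k299 k293
                  have k301 : e17 ≤ e6 := le_trans k294 k46
                  have k304 : e17 ≤ e11 := le_trans k297 k137
                  have k305 : e17 ≤ e14 := le_trans k297 k217
                  have k321 : ¬ e17 ≤ e8 := N2 k300 k73
                  by_cases k322 : ∃ z, IsGLB ({e0, e17} : Set P) z
                  · obtain ⟨e18, g18⟩ := k322
                    have c18 : Core e0 e18 := CM g18
                    have k325 : e18 ≤ e0 := G1 g18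
                    have k326 : e18 ≤ e17 := G2 g18
                    have k332 : e18 ≤ e1 := le_trans k326 k294
                    have k335 : e18 ≤ e9 := le_trans k326 k297
                    have k348 : ¬ e2 ≤ e18 := N2 k105 k335
                    have k358 : e18 ≤ e2 := G3 g2 k325 k332
                    exact HL _ _ _ _ _ _ c18 c2 c8 c0 c4 c6 (LT k358 k348) (LT k75 k89) (LT k73 k81) (LT k21 k28) (LT k54 k53)
                  · obtain ⟨e18, l18⟩ := ZE h2 k296 k322 g8
                    have c18 : Core e0 e18 := CZ g8 k322 l18
                    have k325 : e8 ≤ e18 := L1 l18
                    have k326 : e17 ≤ e18 := L2 l18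
                    have k330 : e18 ≤ e11 := L3 l18 k136 k304
                    have k354 : ¬ e18 ≤ e8 := N1 k321 k326
                    have k356 : e11 ≤ e18 := Classical.byContradiction fun hn => HL _ _ _ _ _ _ c2 c8 c18 c11 c14 c6 (LT k75 k89) (LT k325 k354) (LT k330 hn) (LT k235 k233) (LT k211 k220)
                    have k358 : e9 ≤ e18 := le_trans k137 k356
                    obtain ⟨e19, l19⟩ := ZE h2 k299 k322 g16
                    have c19 : Core e0 e19 := CZ g16 k322 l19
                    have k367 : e16 ≤ e19 := L1 l19
                    have k368 : e17 ≤ e19 := L2 l19
                    have k369 : e19 ≤ e6 := L3 l19 k269 k301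
                    have k372 : e19 ≤ e11 := L3 l19 k289 k304
                    have k374 : e19 ≤ e14 := L3 l19 k290 k305
                    have k398 : ¬ e19 ≤ e16 := N1 k293 k368
                    obtain ⟨e20, q20⟩ : ∃ y, f e19 = y := ⟨_, rfl⟩
                    have k401 : e17 ≤ e20 := MO hf q17 q20 k367
                    have k403 : ¬ e20 ≤ e19 := FB hG q20
                    have k404 : e20 ≤ e7 := MO hf q20 q7 k369
                    have k405 : e20 ≤ e12 := MO hf q20 q12 k372
                    have k406 : e20 ≤ e15 := MO hf q20 q15 k374
                    have k408 : e20 ≤ e6 := le_trans k405 k204
                    have k411 : e20 ≤ e14 := le_trans k405 k210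
                    by_cases k430 : ∃ z, IsGLB ({e0, e20} : Set P) z
                    · obtain ⟨e21, g21⟩ := k430
                      have c21 : Core e0 e21 := CM g21
                      have k433 : e21 ≤ e0 := G1 g21
                      have k434 : e21 ≤ e20 := G2 g21
                      have k442 : e21 ≤ e12 := le_trans k434 k405
                      have k444 : e21 ≤ e15 := le_trans k434 k406
                      have k461 : ¬ e16 ≤ e21 := N2 k266 k442
                      have k466 : e21 ≤ e16 := G3 g16 k433 k444
                      exact HL _ _ _ _ _ _ c21 c16 c8 c0 c4 c6 (LT k466 k461) (LT k288 k287) (LT k73 k81) (LT k21 k28) (LT k54 k53)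
                    · obtain ⟨e21, l21⟩ := ZE h2 k404 k430 g8
                      have c21 : Core e0 e21 := CZ g8 k430 l21
                      have k433 : e8 ≤ e21 := L1 l21
                      have k434 : e20 ≤ e21 := L2 l21
                      have k439 : e21 ≤ e14 := L3 l21 k209 k411
                      have k442 : e17 ≤ e21 := le_trans k401 k434
                      have k465 : e18 ≤ e21 := L3 l18 k433 k442
                      have k469 : e11 ≤ e21 := le_trans k356 k465
                      by_cases k470 : e21 ≤ e11
                      · have k472 : e20 ≤ e11 := le_trans k434 k470
                        obtain ⟨e22, l22⟩ := ZE h2 k406 k430 g16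
                        have c22 : Core e0 e22 := CZ g16 k430 l22
                        have k479 : e16 ≤ e22 := L1 l22
                        have k480 : e20 ≤ e22 := L2 l22
                        have k484 : e22 ≤ e11 := L3 l22 k289 k472
                        have k487 : e22 ≤ e15 := L3 l22 k263 k406
                        have k490 : e17 ≤ e22 := le_trans k401 k480
                        have k497 : ¬ e8 ≤ e22 := N2 k243 k487
                        have k498 : ¬ e11 ≤ e22 := N1 k497 k136
                        have k515 : ¬ e22 ≤ e19 := N1 k403 k480
                        have k517 : e19 ≤ e22 := L3 l19 k479 k490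
                        exact HL _ _ _ _ _ _ c16 c19 c22 c11 c14 c6 (LT k367 k398) (LT k517 k515) (LT k484 k498) (LT k235 k233) (LT k211 k220)
                      · have k475 : e14 ≤ e21 := Classical.byContradiction fun hn => HL _ _ _ _ _ _ c2 c8 c11 c21 c14 c6 (LT k75 k89) (LT k136 k151) (LT k469 k470) (LT k439 hn) (LT k211 k220)
                        obtain ⟨e22, l22⟩ := ZE h2 k406 k430 g16
                        have c22 : Core e0 e22 := CZ g16 k430 l22
                        have k479 : e16 ≤ e22 := L1 l22
                        have k480 : e20 ≤ e22 := L2 l22
                        have k481 : e22 ≤ e6 := L3 l22 k269 k408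
                        have k485 : e22 ≤ e14 := L3 l22 k290 k411
                        have k488 : e17 ≤ e22 := le_trans k401 k480
                        have k514 : ¬ e22 ≤ e19 := N1 k403 k480
                        have k516 : e19 ≤ e22 := L3 l19 k479 k488
                        obtain ⟨e23, q23⟩ : ∃ y, f e22 = y := ⟨_, rfl⟩
                        have k518 : e17 ≤ e23 := MO hf q17 q23 k479
                        have k519 : e20 ≤ e23 := MO hf q20 q23 k516
                        have k520 : ¬ e22 ≤ e23 := FA hF q23
                        have k521 : ¬ e23 ≤ e22 := FB hG q23
                        have k522 : e23 ≤ e7 := MO hf q23 q7 k481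
                        have k523 : e23 ≤ e15 := MO hf q23 q15 k485
                        have k524 : ¬ e16 ≤ e23 := L5 l22 k519 k520
                        by_cases k550 : ∃ z, IsGLB ({e0, e23} : Set P) z
                        · obtain ⟨e24, g24⟩ := k550
                          have c24 : Core e0 e24 := CM g24
                          have k553 : e24 ≤ e0 := G1 g24
                          have k554 : e24 ≤ e23 := G2 g24
                          have k563 : e24 ≤ e15 := le_trans k554 k523
                          have k581 : ¬ e16 ≤ e24 := N2 k524 k554
                          have k588 : e24 ≤ e16 := G3 g16 k553 k563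
                          exact HL _ _ _ _ _ _ c24 c16 c8 c0 c4 c6 (LT k588 k581) (LT k288 k287) (LT k73 k81) (LT k21 k28) (LT k54 k53)
                        · obtain ⟨e24, l24⟩ := (h1 e23).resolve_right k550
                          have c24 : Core e0 e24 := CJ k550 l24
                          have k553 : e0 ≤ e24 := L1 l24
                          have k554 : e23 ≤ e24 := L2 l24
                          have k557 : e8 ≤ e24 := le_trans k73 k553
                          have k559 : e17 ≤ e24 := le_trans k518 k554
                          have k582 : e18 ≤ e24 := L3 l18 k557 k559
                          have k587 : e9 ≤ e24 := le_trans k358 k582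
                          have k592 : e10 ≤ e24 := L3 l10 k553 k587
                          have k596 : e6 ≤ e24 := le_trans k131 k592
                          have k597 : e24 ≤ e6 := Classical.byContradiction fun hn => HL _ _ _ _ _ _ c2 c8 c11 c14 c6 c24 (LT k75 k89) (LT k136 k151) (LT k235 k233) (LT k211 k220) (LT k596 hn)
                          have k600 : e23 ≤ e6 := le_trans k554 k597
                          obtain ⟨e25, l25⟩ := ZE h2 k522 k550 g8
                          have c25 : Core e0 e25 := CZ g8 k550 l25
                          have k606 : e8 ≤ e25 := L1 l25
                          have k607 : e23 ≤ e25 := L2 l25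
                          have k608 : e25 ≤ e6 := L3 l25 k80 k600
                          have k609 : e25 ≤ e7 := L3 l25 k74 k522
                          have k616 : e20 ≤ e25 := le_trans k519 k607
                          have k617 : ¬ e0 ≤ e25 := N2 k61 k609
                          have k619 : ¬ e6 ≤ e25 := N1 k617 k42
                          have k645 : e21 ≤ e25 := L3 l21 k606 k616
                          have k651 : e14 ≤ e25 := le_trans k475 k645
                          have k652 : e25 ≤ e14 := Classical.byContradiction fun hn => HL _ _ _ _ _ _ c2 c8 c11 c14 c25 c6 (LT k75 k89) (LT k136 k151) (LT k235 k233) (LT k651 hn) (LT k608 k619)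
                          have k654 : e23 ≤ e14 := le_trans k607 k652
                          obtain ⟨e26, l26⟩ := ZE h2 k523 k550 g16
                          have c26 : Core e0 e26 := CZ g16 k550 l26
                          have k659 : e16 ≤ e26 := L1 l26
                          have k660 : e23 ≤ e26 := L2 l26
                          have k665 : e26 ≤ e14 := L3 l26 k290 k654
                          have k666 : e26 ≤ e15 := L3 l26 k263 k523
                          have k671 : e20 ≤ e26 := le_trans k519 k660
                          have k679 : ¬ e8 ≤ e26 := N2 k243 k666
                          have k681 : ¬ e14 ≤ e26 := N1 k679 k209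
                          have k701 : ¬ e26 ≤ e22 := N1 k521 k660
                          have k704 : e22 ≤ e26 := L3 l22 k659 k671
                          exact HL _ _ _ _ _ _ c16 c19 c22 c26 c14 c6 (LT k367 k398) (LT k516 k514) (LT k704 k701) (LT k665 k681) (LT k211 k220)
                · obtain ⟨e16, l16⟩ := (h1 e15).resolve_right k259
                  have c16 : Core e0 e16 := CJ k259 l16
                  have k262 : e0 ≤ e16 := L1 l16
                  have k263 : e15 ≤ e16 := L2 l16
                  have k268 : e9 ≤ e16 := le_trans k238 k263
                  have k284 : e10 ≤ e16 := L3 l10 k262 k268
                  have k290 : e6 ≤ e16 := le_trans k131 k284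
                  have k291 : e16 ≤ e6 := Classical.byContradiction fun hn => HL _ _ _ _ _ _ c2 c8 c11 c14 c6 c16 (LT k75 k89) (LT k136 k151) (LT k235 k233) (LT k211 k220) (LT k290 hn)
                  have k294 : e15 ≤ e6 := le_trans k263 k291
                  obtain ⟨e17, l17⟩ := ZE h2 k242 k259 g8
                  have c17 : Core e0 e17 := CZ g8 k259 l17
                  have k300 : e8 ≤ e17 := L1 l17
                  have k301 : e15 ≤ e17 := L2 l17
                  have k302 : e17 ≤ e6 := L3 l17 k80 k294
                  have k303 : e17 ≤ e7 := L3 l17 k74 k242
                  have k310 : e12 ≤ e17 := le_trans k239 k301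
                  have k311 : ¬ e0 ≤ e17 := N2 k61 k303
                  have k313 : ¬ e6 ≤ e17 := N1 k311 k42
                  have k329 : ¬ e17 ≤ e14 := N1 k241 k301
                  have k332 : e14 ≤ e17 := L3 l14 k300 k310
                  exact HL _ _ _ _ _ _ c2 c8 c11 c14 c17 c6 (LT k75 k89) (LT k136 k151) (LT k235 k233) (LT k332 k329) (LT k302 k313)
        · obtain ⟨e8, l8⟩ := (h1 e7).resolve_right k70
          have c8 : Core e0 e8 := CJ k70 l8
          have k73 : e0 ≤ e8 := L1 l8
          have k74 : e7 ≤ e8 := L2 l8
          have k78 : e3 ≤ e8 := le_trans k57 k74
          have k79 : e5 ≤ e8 := le_trans k58 k74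
          have k87 : ¬ e8 ≤ e6 := N1 k60 k74
          have k88 : e4 ≤ e8 := L3 l4 k73 k78
          have k89 : e6 ≤ e8 := L3 l6 k73 k79
          obtain ⟨e9, q9⟩ : ∃ y, f e8 = y := ⟨_, rfl⟩
          have k91 : e1 ≤ e9 := MO hf q1 q9 k73
          have k93 : e5 ≤ e9 := MO hf q5 q9 k88
          have k94 : e7 ≤ e9 := MO hf q7 q9 k89
          have k95 : ¬ e8 ≤ e9 := FA hF q9
          have k96 : ¬ e9 ≤ e8 := FB hG q9
          have k97 : ¬ e0 ≤ e9 := L5 l8 k94 k95
          have k98 : e2 ≤ e9 := le_trans k7 k91
          by_cases k109 : ∃ z, IsGLB ({e0, e9} : Set P) z
          · obtain ⟨e10, g10⟩ := k109
            have c10 : Core e0 e10 := CM g10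
            have k112 : e10 ≤ e0 := G1 g10
            have k113 : e10 ≤ e9 := G2 g10
            have k114 : e2 ≤ e10 := G3 g10 k6 k98
            have k116 : ¬ e10 ≤ e5 := BN3 g10 k39 k93
            have k122 : ¬ e0 ≤ e10 := N2 k97 k113
            have k132 : ¬ e10 ≤ e2 := N2 k116 k35
            exact HL _ _ _ _ _ _ c2 c10 c0 c4 c6 c8 (LT k114 k132) (LT k112 k122) (LT k21 k28) (LT k54 k53) (LT k89 k87)
          · obtain ⟨e10, l10⟩ := (h1 e9).resolve_right k109
            have c10 : Core e0 e10 := CJ k109 l10
            have k112 : e0 ≤ e10 := L1 l10
            have k113 : e9 ≤ e10 := L2 l10
            have k119 : e7 ≤ e10 := le_trans k94 k113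
            have k129 : ¬ e10 ≤ e8 := N1 k96 k113
            have k132 : e8 ≤ e10 := L3 l8 k112 k119
            exact HL _ _ _ _ _ _ c2 c0 c4 c6 c8 c10 (LT k6 k9) (LT k21 k28) (LT k54 k53) (LT k89 k87) (LT k132 k129)
  · obtain ⟨e2, l2⟩ := (h1 e1).resolve_right k3
    have c2 : Core e0 e2 := CJ k3 l2
    have k6 : e0 ≤ e2 := L1 l2
    have k7 : e1 ≤ e2 := L2 l2
    have k10 : ¬ e2 ≤ e0 := N1 k2 k7
    obtain ⟨e3, q3⟩ : ∃ y, f e2 = y := ⟨_, rfl⟩
    have k12 : e1 ≤ e3 := MO hf q1 q3 k6
    have k13 : ¬ e2 ≤ e3 := FA hF q3
    have k14 : ¬ e3 ≤ e2 := FB hG q3
    have k15 : ¬ e0 ≤ e3 := L5 l2 k12 k13
    by_cases k18 : ∃ z, IsGLB ({e0, e3} : Set P) z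
    · obtain ⟨e4, g4⟩ := k18
      have c4 : Core e0 e4 := CM g4
      have k21 : e4 ≤ e0 := G1 g4
      have k22 : e4 ≤ e3 := G2 g4
      have k23 : ¬ e4 ≤ e1 := BN3 g4 k3 k12
      have k25 : e4 ≤ e2 := le_trans k21 k6
      have k26 : ¬ e0 ≤ e4 := N2 k15 k22
      obtain ⟨e5, q5⟩ : ∃ y, f e4 = y := ⟨_, rfl⟩
      have k32 : ¬ e5 ≤ e4 := FB hG q5
      have k33 : e5 ≤ e1 := MO hf q5 q1 k21
      have k34 : e5 ≤ e3 := MO hf q5 q3 k25
      have k35 : ¬ e5 ≤ e0 := G5 g4 k34 k32
      have k36 : e5 ≤ e2 := le_trans k33 k7
      by_cases k40 : ∃ z, IsGLB ({e0, e5} : Set P) z
      · obtain ⟨e6, g6⟩ := k40
        have c6 : Core e0 e6 := CM g6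
        have k43 : e6 ≤ e0 := G1 g6
        have k44 : e6 ≤ e5 := G2 g6
        have k46 : e6 ≤ e2 := le_trans k43 k6
        have k47 : e6 ≤ e1 := le_trans k44 k33
        have k48 : e6 ≤ e3 := le_trans k44 k34
        have k53 : ¬ e4 ≤ e6 := N2 k23 k47
        have k55 : e6 ≤ e4 := G3 g4 k43 k48
        obtain ⟨e7, q7⟩ : ∃ y, f e6 = y := ⟨_, rfl⟩
        have k57 : ¬ e6 ≤ e7 := FA hF q7
        have k58 : ¬ e7 ≤ e6 := FB hG q7
        have k59 : e7 ≤ e1 := MO hf q7 q1 k43
        have k60 : e7 ≤ e3 := MO hf q7 q3 k46
        have k61 : e7 ≤ e5 := MO hf q7 q5 k55
        have k62 : ¬ e7 ≤ e0 := G5 g6 k61 k58
        have k63 : e7 ≤ e2 := le_trans k59 k7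
        have k70 : ¬ e7 ≤ e4 := N2 k62 k21
        by_cases k71 : ∃ z, IsGLB ({e0, e7} : Set P) z
        · obtain ⟨e8, g8⟩ := k71
          have c8 : Core e0 e8 := CM g8
          have k74 : e8 ≤ e0 := G1 g8
          have k75 : e8 ≤ e7 := G2 g8
          have k77 : e8 ≤ e2 := le_trans k74 k6
          have k79 : e8 ≤ e3 := le_trans k75 k60
          have k80 : e8 ≤ e5 := le_trans k75 k61
          have k87 : ¬ e6 ≤ e8 := N2 k57 k75
          have k89 : e8 ≤ e4 := G3 g4 k74 k79
          have k90 : e8 ≤ e6 := G3 g6 k74 k80
          obtain ⟨e9, q9⟩ : ∃ y, f e8 = y := ⟨_, rfl⟩
          have k92 : ¬ e8 ≤ e9 := FA hF q9
          have k93 : ¬ e9 ≤ e8 := FB hG q9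
          have k94 : e9 ≤ e1 := MO hf q9 q1 k74
          have k95 : e9 ≤ e3 := MO hf q9 q3 k77
          have k97 : e9 ≤ e7 := MO hf q9 q7 k90
          have k98 : ¬ e9 ≤ e0 := G5 g8 k97 k93
          have k99 : e9 ≤ e2 := le_trans k94 k7
          have k108 : ¬ e9 ≤ e4 := N2 k98 k21
          by_cases k110 : ∃ z, IsGLB ({e0, e9} : Set P) z
          · obtain ⟨e10, g10⟩ := k110
            have c10 : Core e0 e10 := CM g10
            have k113 : e10 ≤ e0 := G1 g10
            have k114 : e10 ≤ e9 := G2 g10
            have k120 : e10 ≤ e7 := le_trans k114 k97
            have k129 : ¬ e8 ≤ e10 := N2 k92 k114
            have k133 : e10 ≤ e8 := G3 g8 k113 k120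
            exact HL _ _ _ _ _ _ c10 c8 c6 c4 c0 c2 (LT k133 k129) (LT k90 k87) (LT k55 k53) (LT k21 k26) (LT k6 k10)
          · obtain ⟨e10, l10⟩ := (h1 e9).resolve_right k110
            have c10 : Core e0 e10 := CJ k110 l10
            have k113 : e0 ≤ e10 := L1 l10
            have k114 : e9 ≤ e10 := L2 l10
            have k115 : e10 ≤ e2 := L3 l10 k6 k99
            have k129 : ¬ e10 ≤ e0 := N1 k98 k114
            have k130 : e2 ≤ e10 := Classical.byContradiction fun hn => HL _ _ _ _ _ _ c8 c6 c4 c0 c10 c2 (LT k90 k87) (LT k55 k53) (LT k21 k26) (LT k113 k129) (LT k115 hn)
            obtain ⟨e11, l11⟩ := ZE h2 k95 k110 g4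
            have c11 : Core e0 e11 := CZ g4 k110 l11
            have k136 : e4 ≤ e11 := L1 l11
            have k137 : e9 ≤ e11 := L2 l11
            have k138 : e11 ≤ e2 := L3 l11 k25 k99
            have k139 : e11 ≤ e3 := L3 l11 k22 k95
            have k142 : e8 ≤ e11 := le_trans k89 k136
            have k143 : ¬ e0 ≤ e11 := N2 k15 k139
            have k144 : ¬ e2 ≤ e11 := N1 k143 k6
            have k154 : ¬ e11 ≤ e4 := N1 k108 k137
            obtain ⟨e12, q12⟩ : ∃ y, f e11 = y := ⟨_, rfl⟩
            have k157 : e5 ≤ e12 := MO hf q5 q12 k136
            have k159 : e9 ≤ e12 := MO hf q9 q12 k142
            have k160 : ¬ e11 ≤ e12 := FA hF q12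
            have k161 : ¬ e12 ≤ e11 := FB hG q12
            have k162 : e12 ≤ e3 := MO hf q12 q3 k138
            have k163 : ¬ e4 ≤ e12 := L5 l11 k159 k160
            have k164 : e6 ≤ e12 := le_trans k44 k157
            have k165 : e8 ≤ e12 := le_trans k80 k157
            by_cases k176 : ∃ z, IsGLB ({e0, e12} : Set P) z
            · obtain ⟨e13, g13⟩ := k176
              have c13 : Core e0 e13 := CM g13
              have k179 : e13 ≤ e0 := G1 g13
              have k180 : e13 ≤ e12 := G2 g13
              have k181 : e6 ≤ e13 := G3 g13 k43 k164
              have k182 : e8 ≤ e13 := G3 g13 k74 k165
              have k185 : e13 ≤ e2 := le_trans k179 k6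
              have k187 : e13 ≤ e3 := le_trans k180 k162
              have k193 : ¬ e4 ≤ e13 := N2 k163 k180
              have k198 : ¬ e13 ≤ e8 := N1 k87 k181
              have k200 : ¬ e9 ≤ e13 := N2 k98 k179
              have k201 : e13 ≤ e4 := G3 g4 k179 k187
              have k202 : e13 ≤ e11 := le_trans k201 k136
              have k203 : e13 ≤ e6 := Classical.byContradiction fun hn => HL _ _ _ _ _ _ c8 c6 c13 c4 c0 c2 (LT k90 k87) (LT k181 hn) (LT k201 k193) (LT k21 k26) (LT k6 k10)
              have k204 : e13 ≤ e1 := le_trans k203 k47
              obtain ⟨e14, l14⟩ := ZE h2 k159 k110 g13
              have c14 : Core e0 e14 := CZ g13 k110 l14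
              have k208 : e13 ≤ e14 := L1 l14
              have k209 : e9 ≤ e14 := L2 l14
              have k210 : e14 ≤ e1 := L3 l14 k204 k94
              have k211 : e14 ≤ e2 := L3 l14 k185 k99
              have k215 : e14 ≤ e11 := L3 l14 k202 k137
              have k217 : e6 ≤ e14 := le_trans k181 k208
              have k218 : e8 ≤ e14 := le_trans k182 k208
              have k223 : ¬ e4 ≤ e14 := N2 k23 k210
              have k224 : ¬ e11 ≤ e14 := N1 k223 k136
              have k231 : ¬ e14 ≤ e13 := N1 k200 k209
              obtain ⟨e15, q15⟩ : ∃ y, f e14 = y := ⟨_, rfl⟩
              have k235 : e7 ≤ e15 := MO hf q7 q15 k217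
              have k236 : e9 ≤ e15 := MO hf q9 q15 k218
              have k237 : ¬ e14 ≤ e15 := FA hF q15
              have k238 : ¬ e15 ≤ e14 := FB hG q15
              have k239 : e15 ≤ e3 := MO hf q15 q3 k211
              have k240 : e15 ≤ e12 := MO hf q15 q12 k215
              have k241 : ¬ e13 ≤ e15 := L5 l14 k236 k237
              have k242 : e8 ≤ e15 := le_trans k75 k235
              have k257 : ¬ e6 ≤ e15 := N1 k241 k203
              by_cases k259 : ∃ z, IsGLB ({e0, e15} : Set P) z
              · obtain ⟨e16, g16⟩ := k259
                have c16 : Core e0 e16 := CM g16
                have k262 : e16 ≤ e0 := G1 g16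
                have k263 : e16 ≤ e15 := G2 g16
                have k264 : e8 ≤ e16 := G3 g16 k74 k242
                have k267 : e16 ≤ e2 := le_trans k262 k6
                have k269 : e16 ≤ e3 := le_trans k263 k239
                have k270 : e16 ≤ e12 := le_trans k263 k240
                have k280 : ¬ e6 ≤ e16 := N2 k257 k263
                have k286 : e16 ≤ e4 := G3 g4 k262 k269
                have k287 : e16 ≤ e13 := G3 g13 k262 k270
                have k288 : e16 ≤ e11 := le_trans k286 k136
                have k291 : e16 ≤ e6 := le_trans k287 k203
                have k292 : e16 ≤ e14 := le_trans k287 k208
                have k293 : e16 ≤ e8 := Classical.byContradiction fun hn => HL _ _ _ _ _ _ c8 c16 c6 c4 c0 c2 (LT k264 hn) (LT k291 k280) (LT k55 k53) (LT k21 k26) (LT k6 k10)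
                obtain ⟨e17, l17⟩ := ZE h2 k236 k110 g16
                have c17 : Core e0 e17 := CZ g16 k110 l17
                have k297 : e16 ≤ e17 := L1 l17
                have k298 : e9 ≤ e17 := L2 l17
                have k300 : e17 ≤ e2 := L3 l17 k267 k99
                have k305 : e17 ≤ e11 := L3 l17 k288 k137
                have k307 : e17 ≤ e14 := L3 l17 k292 k209
                have k309 : e8 ≤ e17 := le_trans k264 k297
                have k326 : ¬ e17 ≤ e8 := N1 k93 k298
                obtain ⟨e18, q18⟩ : ∃ y, f e17 = y := ⟨_, rfl⟩
                have k332 : e9 ≤ e18 := MO hf q9 q18 k309
                have k333 : ¬ e17 ≤ e18 := FA hF q18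
                have k334 : ¬ e18 ≤ e17 := FB hG q18
                have k335 : e18 ≤ e3 := MO hf q18 q3 k300
                have k336 : e18 ≤ e12 := MO hf q18 q12 k305
                have k337 : e18 ≤ e15 := MO hf q18 q15 k307
                have k338 : ¬ e16 ≤ e18 := L5 l17 k332 k333
                have k358 : ¬ e8 ≤ e18 := N1 k338 k293
                by_cases k361 : ∃ z, IsGLB ({e0, e18} : Set P) z
                · obtain ⟨e19, g19⟩ := k361
                  have c19 : Core e0 e19 := CM g19
                  have k364 : e19 ≤ e0 := G1 g19
                  have k365 : e19 ≤ e18 := G2 g19
                  have k372 : e19 ≤ e15 := le_trans k365 k337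
                  have k387 : ¬ e8 ≤ e19 := N2 k358 k365
                  have k388 : ¬ e16 ≤ e19 := N1 k387 k264
                  have k394 : e19 ≤ e16 := G3 g16 k364 k372
                  exact HL _ _ _ _ _ _ c19 c16 c6 c4 c0 c2 (LT k394 k388) (LT k291 k280) (LT k55 k53) (LT k21 k26) (LT k6 k10)
                · obtain ⟨e19, l19⟩ := (h1 e18).resolve_right k361
                  have c19 : Core e0 e19 := CJ k361 l19
                  have k364 : e0 ≤ e19 := L1 l19
                  have k365 : e18 ≤ e19 := L2 l19
                  have k372 : e9 ≤ e19 := le_trans k332 k365
                  have k390 : e10 ≤ e19 := L3 l10 k364 k372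
                  have k395 : e2 ≤ e19 := le_trans k130 k390
                  have k398 : e19 ≤ e2 := Classical.byContradiction fun hn => HL _ _ _ _ _ _ c8 c13 c14 c11 c2 c19 (LT k182 k198) (LT k208 k231) (LT k215 k224) (LT k138 k144) (LT k395 hn)
                  have k400 : e18 ≤ e2 := le_trans k365 k398
                  obtain ⟨e20, l20⟩ := ZE h2 k335 k361 g4
                  have c20 : Core e0 e20 := CZ g4 k361 l20
                  have k405 : e4 ≤ e20 := L1 l20
                  have k406 : e18 ≤ e20 := L2 l20
                  have k407 : e20 ≤ e2 := L3 l20 k25 k400
                  have k408 : e20 ≤ e3 := L3 l20 k22 k335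
                  have k413 : e13 ≤ e20 := le_trans k201 k405
                  have k415 : e9 ≤ e20 := le_trans k332 k406
                  have k416 : ¬ e0 ≤ e20 := N2 k15 k408
                  have k417 : ¬ e2 ≤ e20 := N1 k416 k6
                  have k429 : ¬ e20 ≤ e14 := N1 k223 k405
                  have k437 : e11 ≤ e20 := L3 l11 k405 k415
                  have k438 : e14 ≤ e20 := L3 l14 k413 k415
                  have k440 : e20 ≤ e11 := Classical.byContradiction fun hn => HL _ _ _ _ _ _ c8 c13 c14 c11 c20 c2 (LT k182 k198) (LT k208 k231) (LT k215 k224) (LT k437 hn) (LT k407 k417)
                  have k441 : e18 ≤ e11 := le_trans k406 k440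
                  obtain ⟨e21, l21⟩ := ZE h2 k336 k361 g13
                  have c21 : Core e0 e21 := CZ g13 k361 l21
                  have k445 : e13 ≤ e21 := L1 l21
                  have k446 : e18 ≤ e21 := L2 l21
                  have k450 : e21 ≤ e11 := L3 l21 k202 k441
                  have k451 : e21 ≤ e12 := L3 l21 k180 k336
                  have k457 : e9 ≤ e21 := le_trans k332 k446
                  have k463 : ¬ e4 ≤ e21 := N2 k163 k451
                  have k464 : ¬ e11 ≤ e21 := N1 k463 k136
                  have k479 : e14 ≤ e21 := L3 l14 k445 k457
                  have k481 : e21 ≤ e14 := Classical.byContradiction fun hn => HL _ _ _ _ _ _ c8 c13 c14 c21 c11 c2 (LT k182 k198) (LT k208 k231) (LT k479 hn) (LT k450 k464) (LT k138 k144)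
                  have k486 : e18 ≤ e14 := le_trans k446 k481
                  obtain ⟨e22, l22⟩ := ZE h2 k337 k361 g16
                  have c22 : Core e0 e22 := CZ g16 k361 l22
                  have k490 : e16 ≤ e22 := L1 l22
                  have k491 : e18 ≤ e22 := L2 l22
                  have k499 : e22 ≤ e14 := L3 l22 k292 k486
                  have k500 : e22 ≤ e15 := L3 l22 k263 k337
                  have k505 : e9 ≤ e22 := le_trans k332 k491
                  have k517 : ¬ e6 ≤ e22 := N2 k257 k500
                  have k519 : ¬ e14 ≤ e22 := N1 k517 k217
                  have k530 : ¬ e22 ≤ e17 := N1 k334 k491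
                  have k532 : e17 ≤ e22 := L3 l17 k490 k505
                  exact HL _ _ _ _ _ _ c8 c17 c22 c14 c20 c2 (LT k309 k326) (LT k532 k530) (LT k499 k519) (LT k438 k429) (LT k407 k417)
              · obtain ⟨e16, l16⟩ := (h1 e15).resolve_right k259
                have c16 : Core e0 e16 := CJ k259 l16
                have k262 : e0 ≤ e16 := L1 l16
                have k263 : e15 ≤ e16 := L2 l16
                have k270 : e9 ≤ e16 := le_trans k236 k263
                have k285 : e10 ≤ e16 := L3 l10 k262 k270
                have k289 : e2 ≤ e16 := le_trans k130 k285
                have k291 : e16 ≤ e2 := Classical.byContradiction fun hn => HL _ _ _ _ _ _ c8 c13 c14 c11 c2 c16 (LT k182 k198) (LT k208 k231) (LT k215 k224) (LT k138 k144) (LT k289 hn)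
                have k293 : e15 ≤ e2 := le_trans k263 k291
                obtain ⟨e17, l17⟩ := ZE h2 k239 k259 g4
                have c17 : Core e0 e17 := CZ g4 k259 l17
                have k298 : e4 ≤ e17 := L1 l17
                have k299 : e15 ≤ e17 := L2 l17
                have k300 : e17 ≤ e2 := L3 l17 k25 k293
                have k301 : e17 ≤ e3 := L3 l17 k22 k239
                have k308 : e9 ≤ e17 := le_trans k236 k299
                have k309 : ¬ e0 ≤ e17 := N2 k15 k301
                have k310 : ¬ e2 ≤ e17 := N1 k309 k6
                have k327 : e11 ≤ e17 := L3 l11 k298 k308
                have k329 : e17 ≤ e11 := Classical.byContradiction fun hn => HL _ _ _ _ _ _ c8 c13 c14 c11 c17 c2 (LT k182 k198) (LT k208 k231) (LT k215 k224) (LT k327 hn) (LT k300 k310)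
                have k331 : e15 ≤ e11 := le_trans k299 k329
                obtain ⟨e18, l18⟩ := ZE h2 k240 k259 g13
                have c18 : Core e0 e18 := CZ g13 k259 l18
                have k335 : e13 ≤ e18 := L1 l18
                have k336 : e15 ≤ e18 := L2 l18
                have k340 : e18 ≤ e11 := L3 l18 k202 k331
                have k341 : e18 ≤ e12 := L3 l18 k180 k240
                have k347 : e9 ≤ e18 := le_trans k236 k336
                have k353 : ¬ e4 ≤ e18 := N2 k163 k341
                have k354 : ¬ e11 ≤ e18 := N1 k353 k136
                have k365 : ¬ e18 ≤ e14 := N1 k238 k336
                have k367 : e14 ≤ e18 := L3 l14 k335 k347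
                exact HL _ _ _ _ _ _ c8 c13 c14 c18 c11 c2 (LT k182 k198) (LT k208 k231) (LT k367 k365) (LT k340 k354) (LT k138 k144)
            · obtain ⟨e13, l13⟩ := (h1 e12).resolve_right k176
              have c13 : Core e0 e13 := CJ k176 l13
              have k179 : e0 ≤ e13 := L1 l13
              have k180 : e12 ≤ e13 := L2 l13
              have k187 : e9 ≤ e13 := le_trans k159 k180
              have k199 : e10 ≤ e13 := L3 l10 k179 k187
              have k202 : e2 ≤ e13 := le_trans k130 k199
              have k203 : e13 ≤ e2 := Classical.byContradiction fun hn => HL _ _ _ _ _ _ c8 c6 c4 c11 c2 c13 (LT k90 k87) (LT k55 k53) (LT k136 k154) (LT k138 k144) (LT k202 hn)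
              have k205 : e12 ≤ e2 := le_trans k180 k203
              obtain ⟨e14, l14⟩ := ZE h2 k162 k176 g4
              have c14 : Core e0 e14 := CZ g4 k176 l14
              have k210 : e4 ≤ e14 := L1 l14
              have k211 : e12 ≤ e14 := L2 l14
              have k212 : e14 ≤ e2 := L3 l14 k25 k205
              have k213 : e14 ≤ e3 := L3 l14 k22 k162
              have k220 : e9 ≤ e14 := le_trans k159 k211
              have k221 : ¬ e0 ≤ e14 := N2 k15 k213
              have k222 : ¬ e2 ≤ e14 := N1 k221 k6
              have k235 : ¬ e14 ≤ e11 := N1 k161 k211
              have k237 : e11 ≤ e14 := L3 l11 k210 k220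
              exact HL _ _ _ _ _ _ c8 c6 c4 c11 c14 c2 (LT k90 k87) (LT k55 k53) (LT k136 k154) (LT k237 k235) (LT k212 k222)
        · obtain ⟨e8, l8⟩ := (h1 e7).resolve_right k71
          have c8 : Core e0 e8 := CJ k71 l8
          have k74 : e0 ≤ e8 := L1 l8
          have k75 : e7 ≤ e8 := L2 l8
          have k76 : e8 ≤ e2 := L3 l8 k6 k63
          have k78 : e4 ≤ e8 := le_trans k21 k74
          have k79 : e6 ≤ e8 := le_trans k43 k74
          have k87 : ¬ e8 ≤ e0 := N1 k62 k75
          by_cases k88 : e2 ≤ e8
          · obtain ⟨e9, l9⟩ := ZE h2 k60 k71 g4
            have c9 : Core e0 e9 := CZ g4 k71 l9
            have k93 : e4 ≤ e9 := L1 l9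
            have k94 : e7 ≤ e9 := L2 l9
            have k95 : e9 ≤ e2 := L3 l9 k25 k63
            have k96 : e9 ≤ e3 := L3 l9 k22 k60
            have k98 : e6 ≤ e9 := le_trans k55 k93
            have k99 : ¬ e0 ≤ e9 := N2 k15 k96
            have k100 : ¬ e2 ≤ e9 := N1 k99 k6
            have k108 : ¬ e9 ≤ e4 := N1 k70 k94
            obtain ⟨e10, q10⟩ : ∃ y, f e9 = y := ⟨_, rfl⟩
            have k111 : e5 ≤ e10 := MO hf q5 q10 k93
            have k112 : e7 ≤ e10 := MO hf q7 q10 k98
            have k113 : ¬ e9 ≤ e10 := FA hF q10
            have k114 : ¬ e10 ≤ e9 := FB hG q10
            have k115 : e10 ≤ e3 := MO hf q10 q3 k95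
            have k116 : ¬ e4 ≤ e10 := L5 l9 k112 k113
            have k117 : e6 ≤ e10 := le_trans k44 k111
            by_cases k126 : ∃ z, IsGLB ({e0, e10} : Set P) z
            · obtain ⟨e11, g11⟩ := k126
              have c11 : Core e0 e11 := CM g11
              have k129 : e11 ≤ e0 := G1 g11
              have k130 : e11 ≤ e10 := G2 g11
              have k131 : e6 ≤ e11 := G3 g11 k43 k117
              have k134 : e11 ≤ e2 := le_trans k129 k6
              have k136 : e11 ≤ e3 := le_trans k130 k115
              have k142 : ¬ e4 ≤ e11 := N2 k116 k130
              have k146 : ¬ e7 ≤ e11 := N2 k62 k129
              have k147 : e11 ≤ e4 := G3 g4 k129 k136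
              have k148 : e11 ≤ e9 := le_trans k147 k93
              by_cases k149 : e11 ≤ e6
              · have k150 : e11 ≤ e1 := le_trans k149 k47
                have k151 : e11 ≤ e5 := le_trans k149 k44
                obtain ⟨e12, l12⟩ := ZE h2 k112 k71 g11
                have c12 : Core e0 e12 := CZ g11 k71 l12
                have k154 : e11 ≤ e12 := L1 l12
                have k155 : e7 ≤ e12 := L2 l12
                have k156 : e12 ≤ e1 := L3 l12 k150 k59
                have k157 : e12 ≤ e2 := L3 l12 k134 k63
                have k161 : e12 ≤ e9 := L3 l12 k148 k94
                have k163 : e6 ≤ e12 := le_trans k131 k154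
                have k168 : ¬ e4 ≤ e12 := N2 k23 k156
                have k169 : ¬ e9 ≤ e12 := N1 k168 k93
                have k173 : ¬ e12 ≤ e6 := N1 k58 k155
                have k174 : ¬ e12 ≤ e11 := N1 k146 k155
                obtain ⟨e13, q13⟩ : ∃ y, f e12 = y := ⟨_, rfl⟩
                have k178 : e7 ≤ e13 := MO hf q7 q13 k163
                have k179 : ¬ e12 ≤ e13 := FA hF q13
                have k180 : ¬ e13 ≤ e12 := FB hG q13
                have k181 : e13 ≤ e3 := MO hf q13 q3 k157
                have k182 : e13 ≤ e10 := MO hf q13 q10 k161
                have k183 : ¬ e11 ≤ e13 := L5 l12 k178 k179
                have k196 : ¬ e6 ≤ e13 := N1 k183 k149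
                by_cases k199 : ∃ z, IsGLB ({e0, e13} : Set P) z
                · obtain ⟨e14, g14⟩ := k199
                  have c14 : Core e0 e14 := CM g14
                  have k202 : e14 ≤ e0 := G1 g14
                  have k203 : e14 ≤ e13 := G2 g14
                  have k204 : ¬ e14 ≤ e7 := BN3 g14 k71 k178
                  have k206 : e14 ≤ e2 := le_trans k202 k6
                  have k208 : e14 ≤ e3 := le_trans k203 k181
                  have k209 : e14 ≤ e10 := le_trans k203 k182
                  have k219 : ¬ e6 ≤ e14 := N2 k196 k203
                  have k224 : e14 ≤ e4 := G3 g4 k202 k208
                  have k225 : e14 ≤ e11 := G3 g11 k202 k209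
                  have k226 : e14 ≤ e9 := le_trans k224 k93
                  have k229 : e14 ≤ e6 := le_trans k225 k149
                  have k230 : e14 ≤ e12 := le_trans k225 k154
                  obtain ⟨e15, q15⟩ : ∃ y, f e14 = y := ⟨_, rfl⟩
                  have k233 : ¬ e15 ≤ e14 := FB hG q15
                  have k234 : e15 ≤ e1 := MO hf q15 q1 k202
                  have k237 : e15 ≤ e7 := MO hf q15 q7 k229
                  have k238 : e15 ≤ e10 := MO hf q15 q10 k226
                  have k239 : e15 ≤ e13 := MO hf q15 q13 k230
                  have k240 : ¬ e15 ≤ e0 := G5 g14 k239 k233
                  have k241 : e15 ≤ e2 := le_trans k234 k7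
                  have k243 : e15 ≤ e9 := le_trans k237 k94
                  have k244 : e15 ≤ e12 := le_trans k237 k155
                  have k259 : ¬ e15 ≤ e6 := N2 k240 k43
                  by_cases k261 : ∃ z, IsGLB ({e0, e15} : Set P) z
                  · obtain ⟨e16, g16⟩ := k261
                    have c16 : Core e0 e16 := CM g16
                    have k264 : e16 ≤ e0 := G1 g16
                    have k265 : e16 ≤ e15 := G2 g16
                    have k272 : e16 ≤ e7 := le_trans k265 k237
                    have k276 : e16 ≤ e13 := le_trans k265 k239
                    have k291 : ¬ e14 ≤ e16 := N2 k204 k272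
                    have k296 : e16 ≤ e14 := G3 g14 k264 k276
                    exact HL _ _ _ _ _ _ c16 c14 c6 c4 c0 c2 (LT k296 k291) (LT k229 k219) (LT k55 k53) (LT k21 k26) (LT k6 k10)
                  · obtain ⟨e16, l16⟩ := ZE h2 k238 k261 g11
                    have c16 : Core e0 e16 := CZ g11 k261 l16
                    have k264 : e11 ≤ e16 := L1 l16
                    have k265 : e15 ≤ e16 := L2 l16
                    have k273 : e16 ≤ e12 := L3 l16 k154 k244
                    have k274 : e6 ≤ e16 := le_trans k131 k264
                    have k290 : ¬ e16 ≤ e6 := N1 k259 k265
                    have k293 : e12 ≤ e16 := Classical.byContradiction fun hn => HL _ _ _ _ _ _ c14 c6 c16 c12 c9 c2 (LT k229 k219) (LT k274 k290) (LT k273 hn) (LT k161 k169) (LT k95 k100)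
                    have k294 : e7 ≤ e16 := le_trans k155 k293
                    obtain ⟨e17, l17⟩ := ZE h2 k239 k261 g14
                    have c17 : Core e0 e17 := CZ g14 k261 l17
                    have k297 : e14 ≤ e17 := L1 l17
                    have k298 : e15 ≤ e17 := L2 l17
                    have k300 : e17 ≤ e2 := L3 l17 k206 k241
                    have k304 : e17 ≤ e9 := L3 l17 k226 k243
                    have k306 : e17 ≤ e12 := L3 l17 k230 k244
                    have k307 : e17 ≤ e13 := L3 l17 k203 k239
                    have k318 : ¬ e6 ≤ e17 := N2 k196 k307
                    have k320 : ¬ e12 ≤ e17 := N1 k318 k163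
                    have k329 : ¬ e17 ≤ e14 := N1 k233 k298
                    obtain ⟨e18, q18⟩ : ∃ y, f e17 = y := ⟨_, rfl⟩
                    have k332 : e15 ≤ e18 := MO hf q15 q18 k297
                    have k333 : ¬ e17 ≤ e18 := FA hF q18
                    have k334 : ¬ e18 ≤ e17 := FB hG q18
                    have k335 : e18 ≤ e3 := MO hf q18 q3 k300
                    have k336 : e18 ≤ e10 := MO hf q18 q10 k304
                    have k337 : e18 ≤ e13 := MO hf q18 q13 k306
                    have k338 : ¬ e14 ≤ e18 := L5 l17 k332 k333
                    by_cases k359 : ∃ z, IsGLB ({e0, e18} : Set P) z
                    · obtain ⟨e19, g19⟩ := k359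
                      have c19 : Core e0 e19 := CM g19
                      have k362 : e19 ≤ e0 := G1 g19
                      have k363 : e19 ≤ e18 := G2 g19
                      have k370 : e19 ≤ e13 := le_trans k363 k337
                      have k386 : ¬ e14 ≤ e19 := N2 k338 k363
                      have k392 : e19 ≤ e14 := G3 g14 k362 k370
                      exact HL _ _ _ _ _ _ c19 c14 c6 c4 c0 c2 (LT k392 k386) (LT k229 k219) (LT k55 k53) (LT k21 k26) (LT k6 k10)
                    · obtain ⟨e19, l19⟩ := (h1 e18).resolve_right k359
                      have c19 : Core e0 e19 := CJ k359 l19
                      have k362 : e0 ≤ e19 := L1 l19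
                      have k363 : e18 ≤ e19 := L2 l19
                      have k367 : e11 ≤ e19 := le_trans k129 k362
                      have k369 : e15 ≤ e19 := le_trans k332 k363
                      have k387 : e16 ≤ e19 := L3 l16 k367 k369
                      have k389 : e7 ≤ e19 := le_trans k294 k387
                      have k391 : e8 ≤ e19 := L3 l8 k362 k389
                      have k394 : e2 ≤ e19 := le_trans k88 k391
                      have k396 : e19 ≤ e2 := Classical.byContradiction fun hn => HL _ _ _ _ _ _ c14 c17 c12 c9 c2 c19 (LT k297 k329) (LT k306 k320) (LT k161 k169) (LT k95 k100) (LT k394 hn)
                      have k398 : e18 ≤ e2 := le_trans k363 k396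
                      obtain ⟨e20, l20⟩ := ZE h2 k335 k359 g4
                      have c20 : Core e0 e20 := CZ g4 k359 l20
                      have k403 : e4 ≤ e20 := L1 l20
                      have k404 : e18 ≤ e20 := L2 l20
                      have k405 : e20 ≤ e2 := L3 l20 k25 k398
                      have k406 : e20 ≤ e3 := L3 l20 k22 k335
                      have k410 : e11 ≤ e20 := le_trans k147 k403
                      have k412 : e15 ≤ e20 := le_trans k332 k404
                      have k413 : ¬ e0 ≤ e20 := N2 k15 k406
                      have k414 : ¬ e2 ≤ e20 := N1 k413 k6
                      have k424 : ¬ e20 ≤ e12 := N1 k168 k403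
                      have k434 : e16 ≤ e20 := L3 l16 k410 k412
                      have k436 : e7 ≤ e20 := le_trans k294 k434
                      have k437 : e12 ≤ e20 := le_trans k293 k434
                      have k438 : e9 ≤ e20 := L3 l9 k403 k436
                      have k439 : e20 ≤ e9 := Classical.byContradiction fun hn => HL _ _ _ _ _ _ c14 c17 c12 c9 c20 c2 (LT k297 k329) (LT k306 k320) (LT k161 k169) (LT k438 hn) (LT k405 k414)
                      have k440 : e18 ≤ e9 := le_trans k404 k439
                      obtain ⟨e21, l21⟩ := ZE h2 k336 k359 g11
                      have c21 : Core e0 e21 := CZ g11 k359 l21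
                      have k444 : e11 ≤ e21 := L1 l21
                      have k445 : e18 ≤ e21 := L2 l21
                      have k449 : e21 ≤ e9 := L3 l21 k148 k440
                      have k450 : e21 ≤ e10 := L3 l21 k130 k336
                      have k455 : e15 ≤ e21 := le_trans k332 k445
                      have k461 : ¬ e4 ≤ e21 := N2 k116 k450
                      have k462 : ¬ e9 ≤ e21 := N1 k461 k93
                      have k476 : e16 ≤ e21 := L3 l16 k444 k455
                      have k479 : e12 ≤ e21 := le_trans k293 k476
                      have k480 : e21 ≤ e12 := Classical.byContradiction fun hn => HL _ _ _ _ _ _ c14 c17 c12 c21 c9 c2 (LT k297 k329) (LT k306 k320) (LT k479 hn) (LT k449 k462) (LT k95 k100)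
                      have k486 : e18 ≤ e12 := le_trans k445 k480
                      obtain ⟨e22, l22⟩ := ZE h2 k337 k359 g14
                      have c22 : Core e0 e22 := CZ g14 k359 l22
                      have k491 : e14 ≤ e22 := L1 l22
                      have k492 : e18 ≤ e22 := L2 l22
                      have k500 : e22 ≤ e12 := L3 l22 k230 k486
                      have k501 : e22 ≤ e13 := L3 l22 k203 k337
                      have k506 : e15 ≤ e22 := le_trans k332 k492
                      have k518 : ¬ e6 ≤ e22 := N2 k196 k501
                      have k520 : ¬ e12 ≤ e22 := N1 k518 k163
                      have k532 : ¬ e22 ≤ e17 := N1 k334 k492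
                      have k534 : e17 ≤ e22 := L3 l17 k491 k506
                      exact HL _ _ _ _ _ _ c14 c17 c22 c12 c20 c2 (LT k297 k329) (LT k534 k532) (LT k500 k520) (LT k437 k424) (LT k405 k414)
                · obtain ⟨e14, l14⟩ := (h1 e13).resolve_right k199
                  have c14 : Core e0 e14 := CJ k199 l14
                  have k202 : e0 ≤ e14 := L1 l14
                  have k203 : e13 ≤ e14 := L2 l14
                  have k206 : e6 ≤ e14 := le_trans k43 k202
                  have k207 : e11 ≤ e14 := le_trans k129 k202
                  have k208 : e7 ≤ e14 := le_trans k178 k203
                  have k221 : e8 ≤ e14 := L3 l8 k202 k208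
                  have k223 : e12 ≤ e14 := L3 l12 k207 k208
                  have k225 : e2 ≤ e14 := le_trans k88 k221
                  by_cases k227 : e14 ≤ e2
                  · have k229 : e13 ≤ e2 := le_trans k203 k227
                    obtain ⟨e15, l15⟩ := ZE h2 k181 k199 g4
                    have c15 : Core e0 e15 := CZ g4 k199 l15
                    have k234 : e4 ≤ e15 := L1 l15
                    have k235 : e13 ≤ e15 := L2 l15
                    have k236 : e15 ≤ e2 := L3 l15 k25 k229
                    have k237 : e15 ≤ e3 := L3 l15 k22 k181
                    have k240 : e6 ≤ e15 := le_trans k55 k234
                    have k241 : e11 ≤ e15 := le_trans k147 k234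
                    have k242 : e7 ≤ e15 := le_trans k178 k235
                    have k243 : ¬ e0 ≤ e15 := N2 k15 k237
                    have k244 : ¬ e2 ≤ e15 := N1 k243 k6
                    have k259 : e9 ≤ e15 := L3 l9 k234 k242
                    have k260 : e12 ≤ e15 := L3 l12 k241 k242
                    by_cases k261 : e15 ≤ e9
                    · have k262 : e13 ≤ e9 := le_trans k235 k261
                      obtain ⟨e16, l16⟩ := ZE h2 k182 k199 g11
                      have c16 : Core e0 e16 := CZ g11 k199 l16
                      have k266 : e11 ≤ e16 := L1 l16
                      have k267 : e13 ≤ e16 := L2 l16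
                      have k268 : e16 ≤ e2 := L3 l16 k134 k229
                      have k271 : e16 ≤ e9 := L3 l16 k148 k262
                      have k272 : e16 ≤ e10 := L3 l16 k130 k182
                      have k275 : e6 ≤ e16 := le_trans k131 k266
                      have k276 : e7 ≤ e16 := le_trans k178 k267
                      have k282 : ¬ e4 ≤ e16 := N2 k116 k272
                      have k283 : ¬ e9 ≤ e16 := N1 k282 k93
                      have k292 : ¬ e16 ≤ e12 := N1 k180 k267
                      have k294 : e12 ≤ e16 := L3 l12 k266 k276
                      obtain ⟨e17, q17⟩ : ∃ y, f e16 = y := ⟨_, rfl⟩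
                      have k296 : e7 ≤ e17 := MO hf q7 q17 k275
                      have k297 : e13 ≤ e17 := MO hf q13 q17 k294
                      have k298 : ¬ e16 ≤ e17 := FA hF q17
                      have k299 : ¬ e17 ≤ e16 := FB hG q17
                      have k300 : e17 ≤ e3 := MO hf q17 q3 k268
                      have k301 : e17 ≤ e10 := MO hf q17 q10 k271
                      have k302 : ¬ e11 ≤ e17 := L5 l16 k297 k298
                      have k317 : ¬ e6 ≤ e17 := N1 k302 k149
                      by_cases k323 : ∃ z, IsGLB ({e0, e17} : Set P) z
                      · obtain ⟨e18, g18⟩ := k323
                        have c18 : Core e0 e18 := CM g18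
                        have k326 : e18 ≤ e0 := G1 g18
                        have k327 : e18 ≤ e17 := G2 g18
                        have k335 : e18 ≤ e10 := le_trans k327 k301
                        have k347 : ¬ e6 ≤ e18 := N2 k317 k327
                        have k348 : ¬ e11 ≤ e18 := N1 k347 k131
                        have k355 : e18 ≤ e11 := G3 g11 k326 k335
                        exact HL _ _ _ _ _ _ c18 c11 c12 c16 c9 c2 (LT k355 k348) (LT k154 k174) (LT k294 k292) (LT k271 k283) (LT k95 k100)
                      · obtain ⟨e18, l18⟩ := (h1 e17).resolve_right k323
                        have c18 : Core e0 e18 := CJ k323 l18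
                        have k326 : e0 ≤ e18 := L1 l18
                        have k327 : e17 ≤ e18 := L2 l18
                        have k332 : e7 ≤ e18 := le_trans k296 k327
                        have k349 : e8 ≤ e18 := L3 l8 k326 k332
                        have k356 : e2 ≤ e18 := le_trans k88 k349
                        have k358 : e18 ≤ e2 := Classical.byContradiction fun hn => HL _ _ _ _ _ _ c6 c12 c16 c9 c2 c18 (LT k163 k173) (LT k294 k292) (LT k271 k283) (LT k95 k100) (LT k356 hn)
                        have k361 : e17 ≤ e2 := le_trans k327 k358
                        obtain ⟨e19, l19⟩ := ZE h2 k300 k323 g4
                        have c19 : Core e0 e19 := CZ g4 k323 l19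
                        have k367 : e4 ≤ e19 := L1 l19
                        have k368 : e17 ≤ e19 := L2 l19
                        have k369 : e19 ≤ e2 := L3 l19 k25 k361
                        have k370 : e19 ≤ e3 := L3 l19 k22 k300
                        have k376 : e7 ≤ e19 := le_trans k296 k368
                        have k378 : ¬ e0 ≤ e19 := N2 k15 k370
                        have k379 : ¬ e2 ≤ e19 := N1 k378 k6
                        have k397 : e9 ≤ e19 := L3 l9 k367 k376
                        have k401 : e19 ≤ e9 := Classical.byContradiction fun hn => HL _ _ _ _ _ _ c6 c12 c16 c9 c19 c2 (LT k163 k173) (LT k294 k292) (LT k271 k283) (LT k397 hn) (LT k369 k379)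
                        have k403 : e17 ≤ e9 := le_trans k368 k401
                        obtain ⟨e20, l20⟩ := ZE h2 k301 k323 g11
                        have c20 : Core e0 e20 := CZ g11 k323 l20
                        have k408 : e11 ≤ e20 := L1 l20
                        have k409 : e17 ≤ e20 := L2 l20
                        have k413 : e20 ≤ e9 := L3 l20 k148 k403
                        have k414 : e20 ≤ e10 := L3 l20 k130 k301
                        have k421 : e13 ≤ e20 := le_trans k297 k409
                        have k428 : ¬ e4 ≤ e20 := N2 k116 k414
                        have k429 : ¬ e9 ≤ e20 := N1 k428 k93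
                        have k441 : ¬ e20 ≤ e16 := N1 k299 k409
                        have k444 : e16 ≤ e20 := L3 l16 k408 k421
                        exact HL _ _ _ _ _ _ c6 c12 c16 c20 c9 c2 (LT k163 k173) (LT k294 k292) (LT k444 k441) (LT k413 k429) (LT k95 k100)
                    · have k262 : ¬ e13 ≤ e9 := L4 l15 k93 k261
                      obtain ⟨e16, q16⟩ : ∃ y, f e15 = y := ⟨_, rfl⟩
                      have k264 : e5 ≤ e16 := MO hf q5 q16 k234
                      have k265 : e7 ≤ e16 := MO hf q7 q16 k240
                      have k267 : e13 ≤ e16 := MO hf q13 q16 k260
                      have k268 : ¬ e15 ≤ e16 := FA hF q16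
                      have k269 : ¬ e16 ≤ e15 := FB hG q16
                      have k270 : e16 ≤ e3 := MO hf q16 q3 k236
                      have k271 : ¬ e4 ≤ e16 := L5 l15 k267 k268
                      have k272 : e6 ≤ e16 := le_trans k44 k264
                      have k273 : e11 ≤ e16 := le_trans k151 k264
                      by_cases k289 : ∃ z, IsGLB ({e0, e16} : Set P) z
                      · obtain ⟨e17, g17⟩ := k289
                        have c17 : Core e0 e17 := CM g17
                        obtain ⟨e18, l18⟩ := ZE h2 k265 k71 g17
                        have c18 : Core e0 e18 := CZ g17 k71 l18
                        have k294 : e17 ≤ e0 := G1 g17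
                        have k295 : e17 ≤ e16 := G2 g17
                        have k296 : e6 ≤ e17 := G3 g17 k43 k272
                        have k297 : e11 ≤ e17 := G3 g17 k129 k273
                        have k301 : e17 ≤ e18 := L1 l18
                        have k302 : e7 ≤ e18 := L2 l18
                        have k304 : e17 ≤ e2 := le_trans k294 k6
                        have k307 : e17 ≤ e3 := le_trans k295 k270
                        have k322 : ¬ e4 ≤ e17 := N2 k271 k295
                        have k334 : ¬ e7 ≤ e17 := N2 k62 k294
                        have k340 : ¬ e18 ≤ e17 := N1 k334 k302
                        have k341 : e17 ≤ e4 := G3 g4 k294 k307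
                        have k347 : e17 ≤ e9 := le_trans k341 k93
                        have k348 : e17 ≤ e15 := le_trans k341 k234
                        have k349 : e18 ≤ e9 := L3 l18 k347 k94
                        have k353 : ¬ e13 ≤ e18 := N2 k262 k349
                        have k354 : e17 ≤ e6 := Classical.byContradiction fun hn => HL _ _ _ _ _ _ c6 c17 c4 c9 c15 c2 (LT k296 hn) (LT k341 k322) (LT k93 k108) (LT k259 k261) (LT k236 k244)
                        have k357 : e17 ≤ e10 := le_trans k354 k117
                        obtain ⟨e19, l19⟩ := ZE h2 k267 k199 g17
                        have c19 : Core e0 e19 := CZ g17 k199 l19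
                        have k366 : e17 ≤ e19 := L1 l19
                        have k367 : e13 ≤ e19 := L2 l19
                        have k368 : e19 ≤ e2 := L3 l19 k304 k229
                        have k371 : e19 ≤ e10 := L3 l19 k357 k182
                        have k373 : e19 ≤ e15 := L3 l19 k348 k235
                        have k375 : e7 ≤ e19 := le_trans k178 k367
                        have k376 : e6 ≤ e19 := le_trans k296 k366
                        have k377 : e11 ≤ e19 := le_trans k297 k366
                        have k383 : ¬ e4 ≤ e19 := N2 k116 k371
                        have k385 : ¬ e15 ≤ e19 := N1 k383 k234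
                        have k394 : ¬ e19 ≤ e12 := N1 k180 k367
                        have k395 : ¬ e19 ≤ e18 := N1 k353 k367
                        have k398 : e12 ≤ e19 := L3 l12 k377 k375
                        have k399 : e18 ≤ e19 := L3 l18 k366 k375
                        obtain ⟨e20, q20⟩ : ∃ y, f e19 = y := ⟨_, rfl⟩
                        have k401 : e7 ≤ e20 := MO hf q7 q20 k376
                        have k402 : e13 ≤ e20 := MO hf q13 q20 k398
                        have k403 : ¬ e19 ≤ e20 := FA hF q20
                        have k404 : ¬ e20 ≤ e19 := FB hG q20
                        have k405 : e20 ≤ e3 := MO hf q20 q3 k368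
                        have k406 : e20 ≤ e16 := MO hf q20 q16 k373
                        have k407 : ¬ e17 ≤ e20 := L5 l19 k402 k403
                        have k427 : ¬ e6 ≤ e20 := N1 k407 k354
                        by_cases k434 : ∃ z, IsGLB ({e0, e20} : Set P) z
                        · obtain ⟨e21, g21⟩ := k434
                          have c21 : Core e0 e21 := CM g21
                          have k437 : e21 ≤ e0 := G1 g21
                          have k438 : e21 ≤ e20 := G2 g21
                          have k446 : e21 ≤ e16 := le_trans k438 k406
                          have k459 : ¬ e6 ≤ e21 := N2 k427 k438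
                          have k462 : ¬ e17 ≤ e21 := N1 k459 k296
                          have k469 : e21 ≤ e17 := G3 g17 k437 k446
                          exact HL _ _ _ _ _ _ c21 c17 c18 c19 c15 c2 (LT k469 k462) (LT k301 k340) (LT k399 k395) (LT k373 k385) (LT k236 k244)
                        · obtain ⟨e21, l21⟩ := (h1 e20).resolve_right k434
                          have c21 : Core e0 e21 := CJ k434 l21
                          have k437 : e0 ≤ e21 := L1 l21
                          have k438 : e20 ≤ e21 := L2 l21
                          have k444 : e7 ≤ e21 := le_trans k401 k438
                          have k464 : e8 ≤ e21 := L3 l8 k437 k444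
                          have k472 : e2 ≤ e21 := le_trans k88 k464
                          have k474 : e21 ≤ e2 := Classical.byContradiction fun hn => HL _ _ _ _ _ _ c6 c12 c19 c15 c2 c21 (LT k163 k173) (LT k398 k394) (LT k373 k385) (LT k236 k244) (LT k472 hn)
                          have k477 : e20 ≤ e2 := le_trans k438 k474
                          obtain ⟨e22, l22⟩ := ZE h2 k405 k434 g4
                          have c22 : Core e0 e22 := CZ g4 k434 l22
                          have k483 : e4 ≤ e22 := L1 l22
                          have k484 : e20 ≤ e22 := L2 l22
                          have k485 : e22 ≤ e2 := L3 l22 k25 k477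
                          have k486 : e22 ≤ e3 := L3 l22 k22 k405
                          have k494 : e13 ≤ e22 := le_trans k402 k484
                          have k495 : ¬ e0 ≤ e22 := N2 k15 k486
                          have k496 : ¬ e2 ≤ e22 := N1 k495 k6
                          have k520 : e15 ≤ e22 := L3 l15 k483 k494
                          have k523 : e22 ≤ e15 := Classical.byContradiction fun hn => HL _ _ _ _ _ _ c6 c12 c19 c15 c22 c2 (LT k163 k173) (LT k398 k394) (LT k373 k385) (LT k520 hn) (LT k485 k496)
                          have k524 : e20 ≤ e15 := le_trans k484 k523
                          obtain ⟨e23, l23⟩ := ZE h2 k406 k434 g17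
                          have c23 : Core e0 e23 := CZ g17 k434 l23
                          have k528 : e17 ≤ e23 := L1 l23
                          have k529 : e20 ≤ e23 := L2 l23
                          have k534 : e23 ≤ e15 := L3 l23 k348 k524
                          have k535 : e23 ≤ e16 := L3 l23 k295 k406
                          have k541 : e13 ≤ e23 := le_trans k402 k529
                          have k548 : ¬ e4 ≤ e23 := N2 k271 k535
                          have k550 : ¬ e15 ≤ e23 := N1 k548 k234
                          have k564 : ¬ e23 ≤ e19 := N1 k404 k529
                          have k568 : e19 ≤ e23 := L3 l19 k528 k541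
                          exact HL _ _ _ _ _ _ c6 c12 c19 c23 c15 c2 (LT k163 k173) (LT k398 k394) (LT k568 k564) (LT k534 k550) (LT k236 k244)
                      · obtain ⟨e17, l17⟩ := (h1 e16).resolve_right k289
                        have c17 : Core e0 e17 := CJ k289 l17
                        have k292 : e0 ≤ e17 := L1 l17
                        have k293 : e16 ≤ e17 := L2 l17
                        have k299 : e7 ≤ e17 := le_trans k265 k293
                        have k317 : e8 ≤ e17 := L3 l8 k292 k299
                        have k322 : e2 ≤ e17 := le_trans k88 k317
                        have k323 : e17 ≤ e2 := Classical.byContradiction fun hn => HL _ _ _ _ _ _ c6 c12 c9 c15 c2 c17 (LT k163 k173) (LT k161 k169) (LT k259 k261) (LT k236 k244) (LT k322 hn)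
                        have k329 : e16 ≤ e2 := le_trans k293 k323
                        obtain ⟨e18, l18⟩ := ZE h2 k270 k289 g4
                        have c18 : Core e0 e18 := CZ g4 k289 l18
                        have k335 : e4 ≤ e18 := L1 l18
                        have k336 : e16 ≤ e18 := L2 l18
                        have k337 : e18 ≤ e2 := L3 l18 k25 k329
                        have k338 : e18 ≤ e3 := L3 l18 k22 k270
                        have k348 : e13 ≤ e18 := le_trans k267 k336
                        have k349 : ¬ e0 ≤ e18 := N2 k15 k338
                        have k350 : ¬ e2 ≤ e18 := N1 k349 k6
                        have k367 : ¬ e18 ≤ e15 := N1 k269 k336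
                        have k370 : e15 ≤ e18 := L3 l15 k335 k348
                        exact HL _ _ _ _ _ _ c6 c12 c9 c15 c18 c2 (LT k163 k173) (LT k161 k169) (LT k259 k261) (LT k370 k367) (LT k337 k350)
                  · have k229 : ¬ e13 ≤ e2 := L4 l14 k6 k227
                    have k234 : ¬ e13 ≤ e9 := N2 k229 k95
                    obtain ⟨e15, q15⟩ : ∃ y, f e14 = y := ⟨_, rfl⟩
                    have k239 : e1 ≤ e15 := MO hf q1 q15 k202
                    have k240 : e3 ≤ e15 := MO hf q3 q15 k225
                    have k242 : e7 ≤ e15 := MO hf q7 q15 k206
                    have k244 : e13 ≤ e15 := MO hf q13 q15 k223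
                    have k245 : ¬ e14 ≤ e15 := FA hF q15
                    have k246 : ¬ e15 ≤ e14 := FB hG q15
                    have k247 : ¬ e0 ≤ e15 := L5 l14 k244 k245
                    have k248 : e6 ≤ e15 := le_trans k47 k239
                    have k249 : e11 ≤ e15 := le_trans k150 k239
                    have k251 : e4 ≤ e15 := le_trans k22 k240
                    by_cases k268 : ∃ z, IsGLB ({e0, e15} : Set P) z
                    · obtain ⟨e16, g16⟩ := k268
                      have c16 : Core e0 e16 := CM g16
                      obtain ⟨e17, l17⟩ := ZE h2 k242 k71 g16
                      have c17 : Core e0 e17 := CZ g16 k71 l17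
                      have k273 : e16 ≤ e0 := G1 g16
                      have k274 : e16 ≤ e15 := G2 g16
                      have k275 : e4 ≤ e16 := G3 g16 k21 k251
                      have k276 : e6 ≤ e16 := G3 g16 k43 k248
                      have k277 : e11 ≤ e16 := G3 g16 k129 k249
                      have k282 : e16 ≤ e17 := L1 l17
                      have k283 : e7 ≤ e17 := L2 l17
                      have k285 : e16 ≤ e2 := le_trans k273 k6
                      have k287 : e16 ≤ e14 := le_trans k273 k202
                      have k288 : e4 ≤ e17 := le_trans k275 k282
                      have k290 : e11 ≤ e17 := le_trans k277 k282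
                      have k291 : ¬ e0 ≤ e16 := N2 k247 k274
                      have k313 : ¬ e17 ≤ e12 := N1 k168 k288
                      have k318 : ¬ e7 ≤ e16 := N2 k62 k273
                      have k320 : ¬ e9 ≤ e16 := N1 k318 k94
                      have k326 : e12 ≤ e17 := L3 l12 k290 k283
                      have k327 : e17 ≤ e2 := L3 l17 k285 k63
                      have k333 : ¬ e13 ≤ e17 := N2 k229 k327
                      have k334 : e16 ≤ e4 := Classical.byContradiction fun hn => HL _ _ _ _ _ _ c6 c4 c16 c0 c2 c14 (LT k55 k53) (LT k275 hn) (LT k273 k291) (LT k6 k10) (LT k225 k227)
                      have k335 : e16 ≤ e3 := le_trans k334 k22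
                      have k336 : e16 ≤ e9 := le_trans k334 k93
                      obtain ⟨e18, l18⟩ := ZE h2 k244 k199 g16
                      have c18 : Core e0 e18 := CZ g16 k199 l18
                      have k341 : e16 ≤ e18 := L1 l18
                      have k342 : e13 ≤ e18 := L2 l18
                      have k343 : e18 ≤ e3 := L3 l18 k335 k181
                      have k344 : e18 ≤ e14 := L3 l18 k287 k203
                      have k346 : e7 ≤ e18 := le_trans k178 k342
                      have k347 : e4 ≤ e18 := le_trans k275 k341
                      have k348 : e6 ≤ e18 := le_trans k276 k341
                      have k349 : e11 ≤ e18 := le_trans k277 k341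
                      have k350 : ¬ e0 ≤ e18 := N2 k15 k343
                      have k353 : ¬ e14 ≤ e18 := N1 k350 k202
                      have k367 : ¬ e18 ≤ e9 := N1 k234 k342
                      have k368 : ¬ e18 ≤ e17 := N1 k333 k342
                      have k371 : e9 ≤ e18 := L3 l9 k347 k346
                      have k372 : e12 ≤ e18 := L3 l12 k349 k346
                      have k373 : e17 ≤ e18 := L3 l17 k341 k346
                      obtain ⟨e19, q19⟩ : ∃ y, f e18 = y := ⟨_, rfl⟩
                      have k375 : e5 ≤ e19 := MO hf q5 q19 k347
                      have k376 : e7 ≤ e19 := MO hf q7 q19 k348
                      have k378 : e13 ≤ e19 := MO hf q13 q19 k372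
                      have k379 : ¬ e18 ≤ e19 := FA hF q19
                      have k380 : ¬ e19 ≤ e18 := FB hG q19
                      have k381 : e19 ≤ e15 := MO hf q19 q15 k344
                      have k382 : ¬ e16 ≤ e19 := L5 l18 k378 k379
                      have k383 : e6 ≤ e19 := le_trans k44 k375
                      have k384 : e11 ≤ e19 := le_trans k151 k375
                      have k405 : ¬ e4 ≤ e19 := N1 k382 k334
                      by_cases k409 : ∃ z, IsGLB ({e0, e19} : Set P) z
                      · obtain ⟨e20, g20⟩ := k409
                        have c20 : Core e0 e20 := CM g20
                        obtain ⟨e21, l21⟩ := ZE h2 k376 k71 g20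
                        have c21 : Core e0 e21 := CZ g20 k71 l21
                        have k414 : e20 ≤ e0 := G1 g20
                        have k415 : e20 ≤ e19 := G2 g20
                        have k416 : e6 ≤ e20 := G3 g20 k43 k383
                        have k417 : e11 ≤ e20 := G3 g20 k129 k384
                        have k426 : e20 ≤ e14 := le_trans k414 k202
                        have k427 : e20 ≤ e15 := le_trans k415 k381
                        have k444 : ¬ e4 ≤ e20 := N2 k405 k415
                        have k447 : ¬ e16 ≤ e20 := N1 k444 k275
                        have k468 : e20 ≤ e16 := G3 g16 k414 k427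
                        have k475 : e20 ≤ e4 := le_trans k468 k334
                        have k478 : e20 ≤ e18 := le_trans k468 k341
                        have k486 : e20 ≤ e6 := Classical.byContradiction fun hn => HL _ _ _ _ _ _ c6 c20 c16 c9 c2 c14 (LT k416 hn) (LT k468 k447) (LT k336 k320) (LT k95 k100) (LT k225 k227)
                        obtain ⟨e22, l22⟩ := ZE h2 k378 k199 g20
                        have c22 : Core e0 e22 := CZ g20 k199 l22
                        have k498 : e20 ≤ e22 := L1 l22
                        have k499 : e13 ≤ e22 := L2 l22
                        have k502 : e22 ≤ e14 := L3 l22 k426 k203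
                        have k504 : e22 ≤ e18 := L3 l22 k478 k342
                        have k506 : e7 ≤ e22 := le_trans k178 k499
                        have k508 : e11 ≤ e22 := le_trans k417 k498
                        have k533 : ¬ e22 ≤ e12 := N1 k180 k499
                        have k538 : e12 ≤ e22 := L3 l12 k508 k506
                        obtain ⟨e23, q23⟩ : ∃ y, f e22 = y := ⟨_, rfl⟩
                        have k542 : e13 ≤ e23 := MO hf q13 q23 k538
                        have k543 : ¬ e22 ≤ e23 := FA hF q23
                        have k544 : ¬ e23 ≤ e22 := FB hG q23
                        have k545 : e23 ≤ e15 := MO hf q23 q15 k502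
                        have k546 : e23 ≤ e19 := MO hf q23 q19 k504
                        have k547 : ¬ e20 ≤ e23 := L5 l22 k542 k543
                        have k576 : ¬ e6 ≤ e23 := N1 k547 k486
                        by_cases k583 : ∃ z, IsGLB ({e0, e23} : Set P) z
                        · obtain ⟨e24, g24⟩ := k583
                          have c24 : Core e0 e24 := CM g24
                          have k586 : e24 ≤ e0 := G1 g24
                          have k587 : e24 ≤ e23 := G2 g24
                          have k595 : e24 ≤ e19 := le_trans k587 k546
                          have k611 : ¬ e6 ≤ e24 := N2 k576 k587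
                          have k614 : ¬ e20 ≤ e24 := N1 k611 k416
                          have k621 : e24 ≤ e20 := G3 g20 k586 k595
                          exact HL _ _ _ _ _ _ c24 c20 c4 c0 c2 c14 (LT k621 k614) (LT k475 k444) (LT k21 k26) (LT k6 k10) (LT k225 k227)
                        · obtain ⟨e24, l24⟩ := (h1 e23).resolve_right k583
                          have c24 : Core e0 e24 := CJ k583 l24
                          have k586 : e0 ≤ e24 := L1 l24
                          have k587 : e23 ≤ e24 := L2 l24
                          have k595 : e13 ≤ e24 := le_trans k542 k587
                          have k622 : e14 ≤ e24 := L3 l14 k586 k595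
                          have k630 : e24 ≤ e14 := Classical.byContradiction fun hn => HL _ _ _ _ _ _ c6 c12 c17 c18 c14 c24 (LT k163 k173) (LT k326 k313) (LT k373 k368) (LT k344 k353) (LT k622 hn)
                          have k631 : e23 ≤ e14 := le_trans k587 k630
                          obtain ⟨e25, l25⟩ := ZE h2 k545 k583 g16
                          have c25 : Core e0 e25 := CZ g16 k583 l25
                          have k635 : e16 ≤ e25 := L1 l25
                          have k636 : e23 ≤ e25 := L2 l25
                          have k637 : e25 ≤ e14 := L3 l25 k287 k631
                          have k638 : e25 ≤ e15 := L3 l25 k274 k545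
                          have k645 : e13 ≤ e25 := le_trans k542 k636
                          have k646 : ¬ e0 ≤ e25 := N2 k247 k638
                          have k649 : ¬ e14 ≤ e25 := N1 k646 k202
                          have k676 : e18 ≤ e25 := L3 l18 k635 k645
                          have k679 : e25 ≤ e18 := Classical.byContradiction fun hn => HL _ _ _ _ _ _ c6 c12 c17 c18 c25 c14 (LT k163 k173) (LT k326 k313) (LT k373 k368) (LT k676 hn) (LT k637 k649)
                          have k682 : e23 ≤ e18 := le_trans k636 k679
                          obtain ⟨e26, l26⟩ := ZE h2 k546 k583 g20
                          have c26 : Core e0 e26 := CZ g20 k583 l26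
                          have k686 : e20 ≤ e26 := L1 l26
                          have k687 : e23 ≤ e26 := L2 l26
                          have k691 : e26 ≤ e18 := L3 l26 k478 k682
                          have k692 : e26 ≤ e19 := L3 l26 k415 k546
                          have k698 : e13 ≤ e26 := le_trans k542 k687
                          have k706 : ¬ e4 ≤ e26 := N2 k405 k692
                          have k710 : ¬ e18 ≤ e26 := N1 k706 k347
                          have k730 : ¬ e26 ≤ e22 := N1 k544 k687
                          have k734 : e22 ≤ e26 := L3 l22 k686 k698
                          exact HL _ _ _ _ _ _ c6 c12 c22 c26 c18 c14 (LT k163 k173) (LT k538 k533) (LT k734 k730) (LT k691 k710) (LT k344 k353)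
                      · obtain ⟨e20, l20⟩ := (h1 e19).resolve_right k409
                        have c20 : Core e0 e20 := CJ k409 l20
                        have k412 : e0 ≤ e20 := L1 l20
                        have k413 : e19 ≤ e20 := L2 l20
                        have k423 : e13 ≤ e20 := le_trans k378 k413
                        have k445 : e14 ≤ e20 := L3 l14 k412 k423
                        have k450 : e20 ≤ e14 := Classical.byContradiction fun hn => HL _ _ _ _ _ _ c6 c12 c17 c18 c14 c20 (LT k163 k173) (LT k326 k313) (LT k373 k368) (LT k344 k353) (LT k445 hn)
                        have k452 : e19 ≤ e14 := le_trans k413 k450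
                        obtain ⟨e21, l21⟩ := ZE h2 k381 k409 g16
                        have c21 : Core e0 e21 := CZ g16 k409 l21
                        have k456 : e16 ≤ e21 := L1 l21
                        have k457 : e19 ≤ e21 := L2 l21
                        have k458 : e21 ≤ e14 := L3 l21 k287 k452
                        have k459 : e21 ≤ e15 := L3 l21 k274 k381
                        have k468 : e13 ≤ e21 := le_trans k378 k457
                        have k469 : ¬ e0 ≤ e21 := N2 k247 k459
                        have k472 : ¬ e14 ≤ e21 := N1 k469 k202
                        have k491 : ¬ e21 ≤ e18 := N1 k380 k457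
                        have k495 : e18 ≤ e21 := L3 l18 k456 k468
                        exact HL _ _ _ _ _ _ c6 c4 c9 c18 c21 c14 (LT k55 k53) (LT k93 k108) (LT k371 k367) (LT k495 k491) (LT k458 k472)
                    · obtain ⟨e16, l16⟩ := (h1 e15).resolve_right k268
                      have c16 : Core e0 e16 := CJ k268 l16
                      have k271 : e0 ≤ e16 := L1 l16
                      have k272 : e15 ≤ e16 := L2 l16
                      have k284 : e13 ≤ e16 := le_trans k244 k272
                      have k300 : ¬ e16 ≤ e14 := N1 k246 k272
                      have k303 : e14 ≤ e16 := L3 l14 k271 k284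
                      exact HL _ _ _ _ _ _ c6 c4 c0 c2 c14 c16 (LT k55 k53) (LT k21 k26) (LT k6 k10) (LT k225 k227) (LT k303 k300)
              · obtain ⟨e12, q12⟩ : ∃ y, f e11 = y := ⟨_, rfl⟩
                have k153 : e7 ≤ e12 := MO hf q7 q12 k131
                have k156 : e12 ≤ e1 := MO hf q12 q1 k129
                have k157 : e12 ≤ e3 := MO hf q12 q3 k134
                have k158 : e12 ≤ e5 := MO hf q12 q5 k147
                have k159 : e12 ≤ e10 := MO hf q12 q10 k148
                have k161 : e12 ≤ e2 := le_trans k156 k7
                by_cases k172 : ∃ z, IsGLB ({e0, e12} : Set P) z
                · obtain ⟨e13, g13⟩ := k172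
                  have c13 : Core e0 e13 := CM g13
                  have k175 : e13 ≤ e0 := G1 g13
                  have k176 : e13 ≤ e12 := G2 g13
                  have k183 : e13 ≤ e5 := le_trans k176 k158
                  have k199 : e13 ≤ e6 := G3 g6 k175 k183
                  have k202 : e6 ≤ e13 := Classical.byContradiction fun hn => HL _ _ _ _ _ _ c13 c6 c11 c4 c0 c2 (LT k199 hn) (LT k131 k149) (LT k147 k142) (LT k21 k26) (LT k6 k10)
                  have k203 : e6 ≤ e12 := le_trans k202 k176
                  obtain ⟨e14, l14⟩ := ZE h2 k112 k71 g11
                  have c14 : Core e0 e14 := CZ g11 k71 l14
                  have k206 : e11 ≤ e14 := L1 l14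
                  have k207 : e7 ≤ e14 := L2 l14
                  have k208 : e14 ≤ e2 := L3 l14 k134 k63
                  have k211 : e14 ≤ e9 := L3 l14 k148 k94
                  have k212 : e14 ≤ e10 := L3 l14 k130 k112
                  have k213 : e6 ≤ e14 := le_trans k131 k206
                  have k219 : ¬ e4 ≤ e14 := N2 k116 k212
                  have k220 : ¬ e9 ≤ e14 := N1 k219 k93
                  have k225 : ¬ e14 ≤ e11 := N1 k146 k207
                  obtain ⟨e15, q15⟩ : ∃ y, f e14 = y := ⟨_, rfl⟩
                  have k232 : e7 ≤ e15 := MO hf q7 q15 k213
                  have k233 : e12 ≤ e15 := MO hf q12 q15 k206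
                  have k234 : ¬ e14 ≤ e15 := FA hF q15
                  have k235 : ¬ e15 ≤ e14 := FB hG q15
                  have k236 : e15 ≤ e3 := MO hf q15 q3 k208
                  have k237 : e15 ≤ e10 := MO hf q15 q10 k211
                  have k238 : ¬ e11 ≤ e15 := L5 l14 k232 k234
                  have k239 : e6 ≤ e15 := le_trans k203 k233
                  by_cases k254 : ∃ z, IsGLB ({e0, e15} : Set P) z
                  · obtain ⟨e16, g16⟩ := k254
                    have c16 : Core e0 e16 := CM g16
                    have k257 : e16 ≤ e0 := G1 g16
                    have k258 : e16 ≤ e15 := G2 g16
                    have k259 : e6 ≤ e16 := G3 g16 k43 k239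
                    have k263 : e16 ≤ e2 := le_trans k257 k6
                    have k265 : e16 ≤ e3 := le_trans k258 k236
                    have k266 : e16 ≤ e10 := le_trans k258 k237
                    have k280 : ¬ e11 ≤ e16 := N2 k238 k258
                    have k281 : e16 ≤ e4 := G3 g4 k257 k265
                    have k282 : e16 ≤ e11 := G3 g11 k257 k266
                    have k283 : e16 ≤ e9 := le_trans k281 k93
                    have k284 : e16 ≤ e14 := le_trans k282 k206
                    have k285 : e16 ≤ e6 := Classical.byContradiction fun hn => HL _ _ _ _ _ _ c6 c16 c11 c4 c0 c2 (LT k259 hn) (LT k282 k280) (LT k147 k142) (LT k21 k26) (LT k6 k10)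
                    obtain ⟨e17, l17⟩ := ZE h2 k232 k71 g16
                    have c17 : Core e0 e17 := CZ g16 k71 l17
                    have k292 : e16 ≤ e17 := L1 l17
                    have k293 : e7 ≤ e17 := L2 l17
                    have k295 : e17 ≤ e2 := L3 l17 k263 k63
                    have k299 : e17 ≤ e9 := L3 l17 k283 k94
                    have k302 : e17 ≤ e14 := L3 l17 k284 k207
                    have k304 : e6 ≤ e17 := le_trans k259 k292
                    have k315 : ¬ e17 ≤ e6 := N1 k58 k293
                    obtain ⟨e18, q18⟩ : ∃ y, f e17 = y := ⟨_, rfl⟩
                    have k325 : e7 ≤ e18 := MO hf q7 q18 k304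
                    have k326 : ¬ e17 ≤ e18 := FA hF q18
                    have k327 : ¬ e18 ≤ e17 := FB hG q18
                    have k328 : e18 ≤ e3 := MO hf q18 q3 k295
                    have k329 : e18 ≤ e10 := MO hf q18 q10 k299
                    have k330 : e18 ≤ e15 := MO hf q18 q15 k302
                    have k331 : ¬ e16 ≤ e18 := L5 l17 k325 k326
                    have k349 : ¬ e6 ≤ e18 := N1 k331 k285
                    by_cases k354 : ∃ z, IsGLB ({e0, e18} : Set P) z
                    · obtain ⟨e19, g19⟩ := k354
                      have c19 : Core e0 e19 := CM g19
                      have k357 : e19 ≤ e0 := G1 g19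
                      have k358 : e19 ≤ e18 := G2 g19
                      have k365 : e19 ≤ e15 := le_trans k358 k330
                      have k375 : ¬ e6 ≤ e19 := N2 k349 k358
                      have k381 : ¬ e16 ≤ e19 := N1 k375 k259
                      have k387 : e19 ≤ e16 := G3 g16 k357 k365
                      exact HL _ _ _ _ _ _ c19 c16 c11 c4 c0 c2 (LT k387 k381) (LT k282 k280) (LT k147 k142) (LT k21 k26) (LT k6 k10)
                    · obtain ⟨e19, l19⟩ := (h1 e18).resolve_right k354
                      have c19 : Core e0 e19 := CJ k354 l19
                      have k357 : e0 ≤ e19 := L1 l19
                      have k358 : e18 ≤ e19 := L2 l19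
                      have k365 : e7 ≤ e19 := le_trans k325 k358
                      have k383 : e8 ≤ e19 := L3 l8 k357 k365
                      have k388 : e2 ≤ e19 := le_trans k88 k383
                      have k391 : e19 ≤ e2 := Classical.byContradiction fun hn => HL _ _ _ _ _ _ c6 c11 c14 c9 c2 c19 (LT k131 k149) (LT k206 k225) (LT k211 k220) (LT k95 k100) (LT k388 hn)
                      have k393 : e18 ≤ e2 := le_trans k358 k391
                      obtain ⟨e20, l20⟩ := ZE h2 k328 k354 g4
                      have c20 : Core e0 e20 := CZ g4 k354 l20
                      have k398 : e4 ≤ e20 := L1 l20
                      have k399 : e18 ≤ e20 := L2 l20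
                      have k400 : e20 ≤ e2 := L3 l20 k25 k393
                      have k401 : e20 ≤ e3 := L3 l20 k22 k328
                      have k405 : e11 ≤ e20 := le_trans k147 k398
                      have k408 : e7 ≤ e20 := le_trans k325 k399
                      have k409 : ¬ e0 ≤ e20 := N2 k15 k401
                      have k410 : ¬ e2 ≤ e20 := N1 k409 k6
                      have k422 : ¬ e20 ≤ e14 := N1 k219 k398
                      have k430 : e9 ≤ e20 := L3 l9 k398 k408
                      have k431 : e14 ≤ e20 := L3 l14 k405 k408
                      have k433 : e20 ≤ e9 := Classical.byContradiction fun hn => HL _ _ _ _ _ _ c6 c11 c14 c9 c20 c2 (LT k131 k149) (LT k206 k225) (LT k211 k220) (LT k430 hn) (LT k400 k410)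
                      have k434 : e18 ≤ e9 := le_trans k399 k433
                      obtain ⟨e21, l21⟩ := ZE h2 k329 k354 g11
                      have c21 : Core e0 e21 := CZ g11 k354 l21
                      have k438 : e11 ≤ e21 := L1 l21
                      have k439 : e18 ≤ e21 := L2 l21
                      have k443 : e21 ≤ e9 := L3 l21 k148 k434
                      have k444 : e21 ≤ e10 := L3 l21 k130 k329
                      have k450 : e7 ≤ e21 := le_trans k325 k439
                      have k456 : ¬ e4 ≤ e21 := N2 k116 k444
                      have k457 : ¬ e9 ≤ e21 := N1 k456 k93
                      have k473 : e14 ≤ e21 := L3 l14 k438 k450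
                      have k475 : e21 ≤ e14 := Classical.byContradiction fun hn => HL _ _ _ _ _ _ c6 c11 c14 c21 c9 c2 (LT k131 k149) (LT k206 k225) (LT k473 hn) (LT k443 k457) (LT k95 k100)
                      have k476 : e18 ≤ e14 := le_trans k439 k475
                      obtain ⟨e22, l22⟩ := ZE h2 k330 k354 g16
                      have c22 : Core e0 e22 := CZ g16 k354 l22
                      have k480 : e16 ≤ e22 := L1 l22
                      have k481 : e18 ≤ e22 := L2 l22
                      have k487 : e22 ≤ e14 := L3 l22 k284 k476
                      have k488 : e22 ≤ e15 := L3 l22 k258 k330
                      have k494 : e7 ≤ e22 := le_trans k325 k481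
                      have k512 : ¬ e11 ≤ e22 := N2 k238 k488
                      have k513 : ¬ e14 ≤ e22 := N1 k512 k206
                      have k516 : ¬ e22 ≤ e17 := N1 k327 k481
                      have k518 : e17 ≤ e22 := L3 l17 k480 k494
                      exact HL _ _ _ _ _ _ c6 c17 c22 c14 c20 c2 (LT k304 k315) (LT k518 k516) (LT k487 k513) (LT k431 k422) (LT k400 k410)
                  · obtain ⟨e16, l16⟩ := (h1 e15).resolve_right k254
                    have c16 : Core e0 e16 := CJ k254 l16
                    have k257 : e0 ≤ e16 := L1 l16
                    have k258 : e15 ≤ e16 := L2 l16
                    have k264 : e7 ≤ e16 := le_trans k232 k258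
                    have k280 : e8 ≤ e16 := L3 l8 k257 k264
                    have k284 : e2 ≤ e16 := le_trans k88 k280
                    have k286 : e16 ≤ e2 := Classical.byContradiction fun hn => HL _ _ _ _ _ _ c6 c11 c14 c9 c2 c16 (LT k131 k149) (LT k206 k225) (LT k211 k220) (LT k95 k100) (LT k284 hn)
                    have k288 : e15 ≤ e2 := le_trans k258 k286
                    obtain ⟨e17, l17⟩ := ZE h2 k236 k254 g4
                    have c17 : Core e0 e17 := CZ g4 k254 l17
                    have k293 : e4 ≤ e17 := L1 l17
                    have k294 : e15 ≤ e17 := L2 l17
                    have k295 : e17 ≤ e2 := L3 l17 k25 k288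
                    have k296 : e17 ≤ e3 := L3 l17 k22 k236
                    have k302 : e7 ≤ e17 := le_trans k232 k294
                    have k304 : ¬ e0 ≤ e17 := N2 k15 k296
                    have k305 : ¬ e2 ≤ e17 := N1 k304 k6
                    have k322 : e9 ≤ e17 := L3 l9 k293 k302
                    have k324 : e17 ≤ e9 := Classical.byContradiction fun hn => HL _ _ _ _ _ _ c6 c11 c14 c9 c17 c2 (LT k131 k149) (LT k206 k225) (LT k211 k220) (LT k322 hn) (LT k295 k305)
                    have k326 : e15 ≤ e9 := le_trans k294 k324
                    obtain ⟨e18, l18⟩ := ZE h2 k237 k254 g11
                    have c18 : Core e0 e18 := CZ g11 k254 l18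
                    have k330 : e11 ≤ e18 := L1 l18
                    have k331 : e15 ≤ e18 := L2 l18
                    have k335 : e18 ≤ e9 := L3 l18 k148 k326
                    have k336 : e18 ≤ e10 := L3 l18 k130 k237
                    have k341 : e7 ≤ e18 := le_trans k232 k331
                    have k348 : ¬ e4 ≤ e18 := N2 k116 k336
                    have k349 : ¬ e9 ≤ e18 := N1 k348 k93
                    have k361 : ¬ e18 ≤ e14 := N1 k235 k331
                    have k363 : e14 ≤ e18 := L3 l14 k330 k341
                    exact HL _ _ _ _ _ _ c6 c11 c14 c18 c9 c2 (LT k131 k149) (LT k206 k225) (LT k363 k361) (LT k335 k349) (LT k95 k100)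
                · have k173 : ¬ e6 ≤ e12 := BN3 g6 k172 k158
                  obtain ⟨e13, l13⟩ := (h1 e12).resolve_right k172
                  have c13 : Core e0 e13 := CJ k172 l13
                  obtain ⟨e14, l14⟩ := ZE h2 k157 k172 g4
                  have c14 : Core e0 e14 := CZ g4 k172 l14
                  have k206 : e4 ≤ e14 := L1 l14
                  have k207 : e12 ≤ e14 := L2 l14
                  have k208 : e14 ≤ e2 := L3 l14 k25 k161
                  have k209 : e14 ≤ e3 := L3 l14 k22 k157
                  have k214 : e7 ≤ e14 := le_trans k153 k207
                  have k215 : ¬ e0 ≤ e14 := N2 k15 k209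
                  have k216 : ¬ e2 ≤ e14 := N1 k215 k6
                  have k230 : e9 ≤ e14 := L3 l9 k206 k214
                  have k231 : e14 ≤ e9 := Classical.byContradiction fun hn => HL _ _ _ _ _ _ c6 c11 c4 c9 c14 c2 (LT k131 k149) (LT k147 k142) (LT k93 k108) (LT k230 hn) (LT k208 k216)
                  have k232 : e12 ≤ e9 := le_trans k207 k231
                  obtain ⟨e15, l15⟩ := ZE h2 k159 k172 g11
                  have c15 : Core e0 e15 := CZ g11 k172 l15
                  have k236 : e11 ≤ e15 := L1 l15
                  have k237 : e12 ≤ e15 := L2 l15
                  have k238 : e15 ≤ e2 := L3 l15 k134 k161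
                  have k241 : e15 ≤ e9 := L3 l15 k148 k232
                  have k242 : e15 ≤ e10 := L3 l15 k130 k159
                  have k245 : e6 ≤ e15 := le_trans k131 k236
                  have k246 : e7 ≤ e15 := le_trans k153 k237
                  have k252 : ¬ e4 ≤ e15 := N2 k116 k242
                  have k253 : ¬ e9 ≤ e15 := N1 k252 k93
                  have k260 : ¬ e15 ≤ e11 := N1 k146 k246
                  obtain ⟨e16, q16⟩ : ∃ y, f e15 = y := ⟨_, rfl⟩
                  have k265 : e7 ≤ e16 := MO hf q7 q16 k245
                  have k266 : e12 ≤ e16 := MO hf q12 q16 k236
                  have k267 : ¬ e15 ≤ e16 := FA hF q16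
                  have k268 : ¬ e16 ≤ e15 := FB hG q16
                  have k269 : e16 ≤ e3 := MO hf q16 q3 k238
                  have k270 : e16 ≤ e10 := MO hf q16 q10 k241
                  have k271 : ¬ e11 ≤ e16 := L5 l15 k266 k267
                  by_cases k287 : ∃ z, IsGLB ({e0, e16} : Set P) z
                  · obtain ⟨e17, g17⟩ := k287
                    have c17 : Core e0 e17 := CM g17
                    have k290 : e17 ≤ e0 := G1 g17
                    have k291 : e17 ≤ e16 := G2 g17
                    have k295 : e17 ≤ e2 := le_trans k290 k6
                    have k298 : e17 ≤ e3 := le_trans k291 k269
                    have k299 : e17 ≤ e10 := le_trans k291 k270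
                    have k315 : ¬ e11 ≤ e17 := N2 k271 k291
                    have k316 : e17 ≤ e4 := G3 g4 k290 k298
                    have k317 : e17 ≤ e11 := G3 g11 k290 k299
                    have k318 : e17 ≤ e9 := le_trans k316 k93
                    have k320 : e17 ≤ e15 := le_trans k317 k236
                    obtain ⟨e18, q18⟩ : ∃ y, f e17 = y := ⟨_, rfl⟩
                    have k323 : ¬ e18 ≤ e17 := FB hG q18
                    have k324 : e18 ≤ e1 := MO hf q18 q1 k290
                    have k326 : e18 ≤ e5 := MO hf q18 q5 k316
                    have k327 : e18 ≤ e10 := MO hf q18 q10 k318
                    have k328 : e18 ≤ e12 := MO hf q18 q12 k317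
                    have k329 : e18 ≤ e16 := MO hf q18 q16 k320
                    have k330 : ¬ e18 ≤ e0 := G5 g17 k329 k323
                    have k331 : e18 ≤ e2 := le_trans k324 k7
                    have k334 : e18 ≤ e9 := le_trans k328 k232
                    have k336 : e18 ≤ e15 := le_trans k328 k237
                    have k354 : ¬ e18 ≤ e11 := N2 k330 k129
                    by_cases k355 : ∃ z, IsGLB ({e0, e18} : Set P) z
                    · obtain ⟨e19, g19⟩ := k355
                      have c19 : Core e0 e19 := CM g19
                      have k358 : e19 ≤ e0 := G1 g19
                      have k359 : e19 ≤ e18 := G2 g19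
                      have k366 : e19 ≤ e5 := le_trans k359 k326
                      have k369 : e19 ≤ e12 := le_trans k359 k328
                      have k384 : ¬ e6 ≤ e19 := N2 k173 k369
                      have k393 : e19 ≤ e6 := G3 g6 k358 k366
                      exact HL _ _ _ _ _ _ c19 c6 c11 c4 c0 c2 (LT k393 k384) (LT k131 k149) (LT k147 k142) (LT k21 k26) (LT k6 k10)
                    · obtain ⟨e19, l19⟩ := ZE h2 k327 k355 g11
                      have c19 : Core e0 e19 := CZ g11 k355 l19
                      have k358 : e11 ≤ e19 := L1 l19
                      have k359 : e18 ≤ e19 := L2 l19
                      have k367 : e19 ≤ e15 := L3 l19 k236 k336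
                      have k389 : ¬ e19 ≤ e11 := N1 k354 k359
                      have k391 : e15 ≤ e19 := Classical.byContradiction fun hn => HL _ _ _ _ _ _ c6 c11 c19 c15 c9 c2 (LT k131 k149) (LT k358 k389) (LT k367 hn) (LT k241 k253) (LT k95 k100)
                      have k392 : e7 ≤ e19 := le_trans k246 k391
                      obtain ⟨e20, l20⟩ := ZE h2 k329 k355 g17
                      have c20 : Core e0 e20 := CZ g17 k355 l20
                      have k396 : e17 ≤ e20 := L1 l20
                      have k397 : e18 ≤ e20 := L2 l20
                      have k398 : e20 ≤ e2 := L3 l20 k295 k331
                      have k401 : e20 ≤ e9 := L3 l20 k318 k334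
                      have k405 : e20 ≤ e15 := L3 l20 k320 k336
                      have k428 : ¬ e20 ≤ e17 := N1 k323 k397
                      obtain ⟨e21, q21⟩ : ∃ y, f e20 = y := ⟨_, rfl⟩
                      have k431 : e18 ≤ e21 := MO hf q18 q21 k396
                      have k432 : ¬ e20 ≤ e21 := FA hF q21
                      have k433 : ¬ e21 ≤ e20 := FB hG q21
                      have k434 : e21 ≤ e3 := MO hf q21 q3 k398
                      have k435 : e21 ≤ e10 := MO hf q21 q10 k401
                      have k436 : e21 ≤ e16 := MO hf q21 q16 k405
                      have k437 : ¬ e17 ≤ e21 := L5 l20 k431 k432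
                      by_cases k457 : ∃ z, IsGLB ({e0, e21} : Set P) z
                      · obtain ⟨e22, g22⟩ := k457
                        have c22 : Core e0 e22 := CM g22
                        have k460 : e22 ≤ e0 := G1 g22
                        have k461 : e22 ≤ e21 := G2 g22
                        have k469 : e22 ≤ e16 := le_trans k461 k436
                        have k487 : ¬ e17 ≤ e22 := N2 k437 k461
                        have k493 : e22 ≤ e17 := G3 g17 k460 k469
                        exact HL _ _ _ _ _ _ c22 c17 c11 c4 c0 c2 (LT k493 k487) (LT k317 k315) (LT k147 k142) (LT k21 k26) (LT k6 k10)
                      · obtain ⟨e22, l22⟩ := (h1 e21).resolve_right k457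
                        have c22 : Core e0 e22 := CJ k457 l22
                        have k460 : e0 ≤ e22 := L1 l22
                        have k461 : e21 ≤ e22 := L2 l22
                        have k465 : e11 ≤ e22 := le_trans k129 k460
                        have k467 : e18 ≤ e22 := le_trans k431 k461
                        have k487 : e19 ≤ e22 := L3 l19 k465 k467
                        have k489 : e7 ≤ e22 := le_trans k392 k487
                        have k492 : e8 ≤ e22 := L3 l8 k460 k489
                        have k497 : e2 ≤ e22 := le_trans k88 k492
                        have k499 : e22 ≤ e2 := Classical.byContradiction fun hn => HL _ _ _ _ _ _ c6 c11 c15 c9 c2 c22 (LT k131 k149) (LT k236 k260) (LT k241 k253) (LT k95 k100) (LT k497 hn)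
                        have k502 : e21 ≤ e2 := le_trans k461 k499
                        obtain ⟨e23, l23⟩ := ZE h2 k434 k457 g4
                        have c23 : Core e0 e23 := CZ g4 k457 l23
                        have k508 : e4 ≤ e23 := L1 l23
                        have k509 : e21 ≤ e23 := L2 l23
                        have k510 : e23 ≤ e2 := L3 l23 k25 k502
                        have k511 : e23 ≤ e3 := L3 l23 k22 k434
                        have k516 : e11 ≤ e23 := le_trans k147 k508
                        have k518 : e18 ≤ e23 := le_trans k431 k509
                        have k519 : ¬ e0 ≤ e23 := N2 k15 k511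
                        have k520 : ¬ e2 ≤ e23 := N1 k519 k6
                        have k532 : ¬ e23 ≤ e15 := N1 k252 k508
                        have k542 : e19 ≤ e23 := L3 l19 k516 k518
                        have k544 : e7 ≤ e23 := le_trans k392 k542
                        have k546 : e15 ≤ e23 := le_trans k391 k542
                        have k547 : e9 ≤ e23 := L3 l9 k508 k544
                        have k549 : e23 ≤ e9 := Classical.byContradiction fun hn => HL _ _ _ _ _ _ c6 c11 c15 c9 c23 c2 (LT k131 k149) (LT k236 k260) (LT k241 k253) (LT k547 hn) (LT k510 k520)
                        have k551 : e21 ≤ e9 := le_trans k509 k549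
                        obtain ⟨e24, l24⟩ := ZE h2 k435 k457 g11
                        have c24 : Core e0 e24 := CZ g11 k457 l24
                        have k556 : e11 ≤ e24 := L1 l24
                        have k557 : e21 ≤ e24 := L2 l24
                        have k561 : e24 ≤ e9 := L3 l24 k148 k551
                        have k562 : e24 ≤ e10 := L3 l24 k130 k435
                        have k569 : e18 ≤ e24 := le_trans k431 k557
                        have k576 : ¬ e4 ≤ e24 := N2 k116 k562
                        have k577 : ¬ e9 ≤ e24 := N1 k576 k93
                        have k594 : e19 ≤ e24 := L3 l19 k556 k569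
                        have k598 : e15 ≤ e24 := le_trans k391 k594
                        have k599 : e24 ≤ e15 := Classical.byContradiction fun hn => HL _ _ _ _ _ _ c6 c11 c15 c24 c9 c2 (LT k131 k149) (LT k236 k260) (LT k598 hn) (LT k561 k577) (LT k95 k100)
                        have k601 : e21 ≤ e15 := le_trans k557 k599
                        obtain ⟨e25, l25⟩ := ZE h2 k436 k457 g17
                        have c25 : Core e0 e25 := CZ g17 k457 l25
                        have k606 : e17 ≤ e25 := L1 l25
                        have k607 : e21 ≤ e25 := L2 l25
                        have k615 : e25 ≤ e15 := L3 l25 k320 k601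
                        have k616 : e25 ≤ e16 := L3 l25 k291 k436
                        have k621 : e18 ≤ e25 := le_trans k431 k607
                        have k633 : ¬ e11 ≤ e25 := N2 k271 k616
                        have k634 : ¬ e15 ≤ e25 := N1 k633 k236
                        have k647 : ¬ e25 ≤ e20 := N1 k433 k607
                        have k649 : e20 ≤ e25 := L3 l20 k606 k621
                        exact HL _ _ _ _ _ _ c17 c20 c25 c15 c23 c2 (LT k396 k428) (LT k649 k647) (LT k615 k634) (LT k546 k532) (LT k510 k520)
                  · obtain ⟨e17, l17⟩ := (h1 e16).resolve_right k287
                    have c17 : Core e0 e17 := CJ k287 l17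
                    have k290 : e0 ≤ e17 := L1 l17
                    have k291 : e16 ≤ e17 := L2 l17
                    have k296 : e7 ≤ e17 := le_trans k265 k291
                    have k312 : e8 ≤ e17 := L3 l8 k290 k296
                    have k318 : e2 ≤ e17 := le_trans k88 k312
                    have k320 : e17 ≤ e2 := Classical.byContradiction fun hn => HL _ _ _ _ _ _ c6 c11 c15 c9 c2 c17 (LT k131 k149) (LT k236 k260) (LT k241 k253) (LT k95 k100) (LT k318 hn)
                    have k323 : e16 ≤ e2 := le_trans k291 k320
                    obtain ⟨e18, l18⟩ := ZE h2 k269 k287 g4
                    have c18 : Core e0 e18 := CZ g4 k287 l18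
                    have k329 : e4 ≤ e18 := L1 l18
                    have k330 : e16 ≤ e18 := L2 l18
                    have k331 : e18 ≤ e2 := L3 l18 k25 k323
                    have k332 : e18 ≤ e3 := L3 l18 k22 k269
                    have k338 : e7 ≤ e18 := le_trans k265 k330
                    have k340 : ¬ e0 ≤ e18 := N2 k15 k332
                    have k341 : ¬ e2 ≤ e18 := N1 k340 k6
                    have k358 : e9 ≤ e18 := L3 l9 k329 k338
                    have k361 : e18 ≤ e9 := Classical.byContradiction fun hn => HL _ _ _ _ _ _ c6 c11 c15 c9 c18 c2 (LT k131 k149) (LT k236 k260) (LT k241 k253) (LT k358 hn) (LT k331 k341)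
                    have k363 : e16 ≤ e9 := le_trans k330 k361
                    obtain ⟨e19, l19⟩ := ZE h2 k270 k287 g11
                    have c19 : Core e0 e19 := CZ g11 k287 l19
                    have k368 : e11 ≤ e19 := L1 l19
                    have k369 : e16 ≤ e19 := L2 l19
                    have k373 : e19 ≤ e9 := L3 l19 k148 k363
                    have k374 : e19 ≤ e10 := L3 l19 k130 k270
                    have k381 : e12 ≤ e19 := le_trans k266 k369
                    have k388 : ¬ e4 ≤ e19 := N2 k116 k374
                    have k389 : ¬ e9 ≤ e19 := N1 k388 k93
                    have k401 : ¬ e19 ≤ e15 := N1 k268 k369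
                    have k403 : e15 ≤ e19 := L3 l15 k368 k381
                    exact HL _ _ _ _ _ _ c6 c11 c15 c19 c9 c2 (LT k131 k149) (LT k236 k260) (LT k403 k401) (LT k373 k389) (LT k95 k100)
            · obtain ⟨e11, l11⟩ := (h1 e10).resolve_right k126
              have c11 : Core e0 e11 := CJ k126 l11
              have k129 : e0 ≤ e11 := L1 l11
              have k130 : e10 ≤ e11 := L2 l11
              have k132 : e4 ≤ e11 := le_trans k21 k129
              have k133 : e6 ≤ e11 := le_trans k43 k129
              have k135 : e7 ≤ e11 := le_trans k112 k130
              have k145 : e8 ≤ e11 := L3 l8 k129 k135
              have k146 : e9 ≤ e11 := L3 l9 k132 k135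
              have k148 : e2 ≤ e11 := le_trans k88 k145
              by_cases k149 : e11 ≤ e2
              · have k151 : e10 ≤ e2 := le_trans k130 k149
                obtain ⟨e12, l12⟩ := ZE h2 k115 k126 g4
                have c12 : Core e0 e12 := CZ g4 k126 l12
                have k156 : e4 ≤ e12 := L1 l12
                have k157 : e10 ≤ e12 := L2 l12
                have k158 : e12 ≤ e2 := L3 l12 k25 k151
                have k159 : e12 ≤ e3 := L3 l12 k22 k115
                have k162 : e6 ≤ e12 := le_trans k55 k156
                have k164 : e7 ≤ e12 := le_trans k112 k157
                have k165 : ¬ e0 ≤ e12 := N2 k15 k159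
                have k166 : ¬ e2 ≤ e12 := N1 k165 k6
                have k177 : ¬ e12 ≤ e9 := N1 k114 k157
                have k179 : e9 ≤ e12 := L3 l9 k156 k164
                obtain ⟨e13, q13⟩ : ∃ y, f e12 = y := ⟨_, rfl⟩
                have k181 : e5 ≤ e13 := MO hf q5 q13 k156
                have k182 : e7 ≤ e13 := MO hf q7 q13 k162
                have k183 : e10 ≤ e13 := MO hf q10 q13 k179
                have k184 : ¬ e12 ≤ e13 := FA hF q13
                have k185 : ¬ e13 ≤ e12 := FB hG q13
                have k186 : e13 ≤ e3 := MO hf q13 q3 k158
                have k187 : ¬ e4 ≤ e13 := L5 l12 k183 k184
                have k188 : e6 ≤ e13 := le_trans k44 k181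
                by_cases k202 : ∃ z, IsGLB ({e0, e13} : Set P) z
                · obtain ⟨e14, g14⟩ := k202
                  have c14 : Core e0 e14 := CM g14
                  have k205 : e14 ≤ e0 := G1 g14
                  have k206 : e14 ≤ e13 := G2 g14
                  have k207 : e6 ≤ e14 := G3 g14 k43 k188
                  have k209 : ¬ e14 ≤ e10 := BN3 g14 k126 k183
                  have k214 : e14 ≤ e3 := le_trans k206 k186
                  have k221 : ¬ e4 ≤ e14 := N2 k187 k206
                  have k229 : ¬ e14 ≤ e6 := N2 k209 k117
                  have k230 : e14 ≤ e4 := G3 g4 k205 k214
                  exact HL _ _ _ _ _ _ c6 c14 c4 c9 c12 c2 (LT k207 k229) (LT k230 k221) (LT k93 k108) (LT k179 k177) (LT k158 k166)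
                · obtain ⟨e14, l14⟩ := (h1 e13).resolve_right k202
                  have c14 : Core e0 e14 := CJ k202 l14
                  have k205 : e0 ≤ e14 := L1 l14
                  have k206 : e13 ≤ e14 := L2 l14
                  have k211 : e7 ≤ e14 := le_trans k182 k206
                  have k224 : e8 ≤ e14 := L3 l8 k205 k211
                  have k229 : e2 ≤ e14 := le_trans k88 k224
                  have k230 : e14 ≤ e2 := Classical.byContradiction fun hn => HL _ _ _ _ _ _ c6 c4 c9 c12 c2 c14 (LT k55 k53) (LT k93 k108) (LT k179 k177) (LT k158 k166) (LT k229 hn)
                  have k233 : e13 ≤ e2 := le_trans k206 k230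
                  obtain ⟨e15, l15⟩ := ZE h2 k186 k202 g4
                  have c15 : Core e0 e15 := CZ g4 k202 l15
                  have k239 : e4 ≤ e15 := L1 l15
                  have k240 : e13 ≤ e15 := L2 l15
                  have k241 : e15 ≤ e2 := L3 l15 k25 k233
                  have k242 : e15 ≤ e3 := L3 l15 k22 k186
                  have k249 : e10 ≤ e15 := le_trans k183 k240
                  have k250 : ¬ e0 ≤ e15 := N2 k15 k242
                  have k251 : ¬ e2 ≤ e15 := N1 k250 k6
                  have k265 : ¬ e15 ≤ e12 := N1 k185 k240
                  have k268 : e12 ≤ e15 := L3 l12 k239 k249
                  exact HL _ _ _ _ _ _ c6 c4 c9 c12 c15 c2 (LT k55 k53) (LT k93 k108) (LT k179 k177) (LT k268 k265) (LT k241 k251)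
              · have k151 : ¬ e10 ≤ e2 := L4 l11 k6 k149
                obtain ⟨e12, q12⟩ : ∃ y, f e11 = y := ⟨_, rfl⟩
                have k156 : e1 ≤ e12 := MO hf q1 q12 k129
                have k157 : e3 ≤ e12 := MO hf q3 q12 k148
                have k159 : e7 ≤ e12 := MO hf q7 q12 k133
                have k160 : e10 ≤ e12 := MO hf q10 q12 k146
                have k161 : ¬ e11 ≤ e12 := FA hF q12
                have k162 : ¬ e12 ≤ e11 := FB hG q12
                have k163 : ¬ e0 ≤ e12 := L5 l11 k160 k161
                have k164 : e6 ≤ e12 := le_trans k47 k156
                have k165 : e4 ≤ e12 := le_trans k22 k157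
                by_cases k179 : ∃ z, IsGLB ({e0, e12} : Set P) z
                · obtain ⟨e13, g13⟩ := k179
                  have c13 : Core e0 e13 := CM g13
                  obtain ⟨e14, l14⟩ := ZE h2 k159 k71 g13
                  have c14 : Core e0 e14 := CZ g13 k71 l14
                  have k184 : e13 ≤ e0 := G1 g13
                  have k185 : e13 ≤ e12 := G2 g13
                  have k186 : e4 ≤ e13 := G3 g13 k21 k165
                  have k187 : e6 ≤ e13 := G3 g13 k43 k164
                  have k192 : e13 ≤ e14 := L1 l14
                  have k193 : e7 ≤ e14 := L2 l14
                  have k195 : e13 ≤ e2 := le_trans k184 k6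
                  have k197 : e13 ≤ e11 := le_trans k184 k129
                  have k200 : ¬ e0 ≤ e13 := N2 k163 k185
                  have k214 : ¬ e13 ≤ e6 := N1 k53 k186
                  have k221 : ¬ e7 ≤ e13 := N2 k62 k184
                  have k224 : ¬ e14 ≤ e13 := N1 k221 k193
                  have k227 : e14 ≤ e2 := L3 l14 k195 k63
                  have k232 : ¬ e10 ≤ e14 := N2 k151 k227
                  have k233 : e13 ≤ e4 := Classical.byContradiction fun hn => HL _ _ _ _ _ _ c6 c4 c13 c0 c2 c11 (LT k55 k53) (LT k186 hn) (LT k184 k200) (LT k6 k10) (LT k148 k149)
                  have k234 : e13 ≤ e3 := le_trans k233 k22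
                  obtain ⟨e15, l15⟩ := ZE h2 k160 k126 g13
                  have c15 : Core e0 e15 := CZ g13 k126 l15
                  have k240 : e13 ≤ e15 := L1 l15
                  have k241 : e10 ≤ e15 := L2 l15
                  have k242 : e15 ≤ e3 := L3 l15 k234 k115
                  have k243 : e15 ≤ e11 := L3 l15 k197 k130
                  have k247 : e7 ≤ e15 := le_trans k112 k241
                  have k248 : e4 ≤ e15 := le_trans k186 k240
                  have k249 : ¬ e0 ≤ e15 := N2 k15 k242
                  have k252 : ¬ e11 ≤ e15 := N1 k249 k129
                  have k263 : ¬ e15 ≤ e9 := N1 k114 k241
                  have k264 : ¬ e15 ≤ e14 := N1 k232 k241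
                  have k267 : e9 ≤ e15 := L3 l9 k248 k247
                  have k268 : e14 ≤ e15 := L3 l14 k240 k247
                  obtain ⟨e16, q16⟩ : ∃ y, f e15 = y := ⟨_, rfl⟩
                  have k270 : e5 ≤ e16 := MO hf q5 q16 k248
                  have k272 : e10 ≤ e16 := MO hf q10 q16 k267
                  have k273 : ¬ e15 ≤ e16 := FA hF q16
                  have k274 : ¬ e16 ≤ e15 := FB hG q16
                  have k275 : e16 ≤ e12 := MO hf q16 q12 k243
                  have k276 : ¬ e13 ≤ e16 := L5 l15 k272 k273
                  have k277 : e6 ≤ e16 := le_trans k44 k270
                  have k294 : ¬ e4 ≤ e16 := N1 k276 k233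
                  by_cases k299 : ∃ z, IsGLB ({e0, e16} : Set P) z
                  · obtain ⟨e17, g17⟩ := k299
                    have c17 : Core e0 e17 := CM g17
                    have k302 : e17 ≤ e0 := G1 g17
                    have k303 : e17 ≤ e16 := G2 g17
                    have k304 : e6 ≤ e17 := G3 g17 k43 k277
                    have k306 : ¬ e17 ≤ e10 := BN3 g17 k126 k272
                    have k311 : e17 ≤ e12 := le_trans k303 k275
                    have k319 : ¬ e4 ≤ e17 := N2 k294 k303
                    have k321 : ¬ e13 ≤ e17 := N1 k319 k186
                    have k329 : ¬ e17 ≤ e6 := N2 k306 k117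
                    have k330 : e17 ≤ e13 := G3 g13 k302 k311
                    exact HL _ _ _ _ _ _ c6 c17 c13 c0 c2 c11 (LT k304 k329) (LT k330 k321) (LT k184 k200) (LT k6 k10) (LT k148 k149)
                  · obtain ⟨e17, l17⟩ := (h1 e16).resolve_right k299
                    have c17 : Core e0 e17 := CJ k299 l17
                    have k302 : e0 ≤ e17 := L1 l17
                    have k303 : e16 ≤ e17 := L2 l17
                    have k310 : e10 ≤ e17 := le_trans k272 k303
                    have k329 : e11 ≤ e17 := L3 l11 k302 k310
                    have k334 : e17 ≤ e11 := Classical.byContradiction fun hn => HL _ _ _ _ _ _ c6 c13 c14 c15 c11 c17 (LT k187 k214) (LT k192 k224) (LT k268 k264) (LT k243 k252) (LT k329 hn)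
                    have k335 : e16 ≤ e11 := le_trans k303 k334
                    obtain ⟨e18, l18⟩ := ZE h2 k275 k299 g13
                    have c18 : Core e0 e18 := CZ g13 k299 l18
                    have k339 : e13 ≤ e18 := L1 l18
                    have k340 : e16 ≤ e18 := L2 l18
                    have k341 : e18 ≤ e11 := L3 l18 k197 k335
                    have k342 : e18 ≤ e12 := L3 l18 k185 k275
                    have k348 : e10 ≤ e18 := le_trans k272 k340
                    have k349 : ¬ e0 ≤ e18 := N2 k163 k342
                    have k352 : ¬ e11 ≤ e18 := N1 k349 k129
                    have k368 : ¬ e18 ≤ e15 := N1 k274 k340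
                    have k372 : e15 ≤ e18 := L3 l15 k339 k348
                    exact HL _ _ _ _ _ _ c6 c4 c9 c15 c18 c11 (LT k55 k53) (LT k93 k108) (LT k267 k263) (LT k372 k368) (LT k341 k352)
                · obtain ⟨e13, l13⟩ := (h1 e12).resolve_right k179
                  have c13 : Core e0 e13 := CJ k179 l13
                  have k182 : e0 ≤ e13 := L1 l13
                  have k183 : e12 ≤ e13 := L2 l13
                  have k192 : e10 ≤ e13 := le_trans k160 k183
                  have k205 : ¬ e13 ≤ e11 := N1 k162 k183
                  have k208 : e11 ≤ e13 := L3 l11 k182 k192
                  exact HL _ _ _ _ _ _ c6 c4 c0 c2 c11 c13 (LT k55 k53) (LT k21 k26) (LT k6 k10) (LT k148 k149) (LT k208 k205)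
          · have k89 : ¬ e1 ≤ e8 := L4 l2 k74 k88
            obtain ⟨e9, q9⟩ : ∃ y, f e8 = y := ⟨_, rfl⟩
            have k91 : e1 ≤ e9 := MO hf q1 q9 k74
            have k93 : e7 ≤ e9 := MO hf q7 q9 k79
            have k96 : e9 ≤ e3 := MO hf q9 q3 k76
            have k98 : e6 ≤ e9 := le_trans k47 k91
            by_cases k104 : ∃ z, IsGLB ({e0, e9} : Set P) z
            · obtain ⟨e10, g10⟩ := k104
              have c10 : Core e0 e10 := CM g10
              have k107 : e10 ≤ e0 := G1 g10
              have k108 : e10 ≤ e9 := G2 g10
              have k109 : e6 ≤ e10 := G3 g10 k43 k98
              have k110 : ¬ e10 ≤ e1 := BN3 g10 k3 k91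
              have k113 : e10 ≤ e2 := le_trans k107 k6
              have k114 : e10 ≤ e8 := le_trans k107 k74
              have k115 : e10 ≤ e3 := le_trans k108 k96
              have k116 : ¬ e0 ≤ e10 := N2 k15 k115
              have k123 : ¬ e7 ≤ e10 := N2 k62 k107
              have k126 : ¬ e10 ≤ e6 := N2 k110 k47
              have k128 : e10 ≤ e4 := G3 g4 k107 k115
              have k129 : e4 ≤ e10 := Classical.byContradiction fun hn => HL _ _ _ _ _ _ c6 c10 c4 c0 c8 c2 (LT k109 k126) (LT k128 hn) (LT k21 k26) (LT k74 k87) (LT k76 k88)
              have k130 : e4 ≤ e9 := le_trans k129 k108
              obtain ⟨e11, l11⟩ := ZE h2 k93 k71 g10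
              have c11 : Core e0 e11 := CZ g10 k71 l11
              have k133 : e10 ≤ e11 := L1 l11
              have k134 : e7 ≤ e11 := L2 l11
              have k135 : e11 ≤ e2 := L3 l11 k113 k63
              have k136 : e11 ≤ e3 := L3 l11 k115 k60
              have k137 : e11 ≤ e8 := L3 l11 k114 k75
              have k139 : e4 ≤ e11 := le_trans k129 k133
              have k140 : e6 ≤ e11 := le_trans k109 k133
              have k141 : ¬ e0 ≤ e11 := N2 k15 k136
              have k143 : ¬ e8 ≤ e11 := N1 k141 k74
              have k152 : ¬ e11 ≤ e4 := N1 k70 k134
              have k153 : ¬ e11 ≤ e10 := N1 k123 k134
              obtain ⟨e12, q12⟩ : ∃ y, f e11 = y := ⟨_, rfl⟩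
              have k156 : e5 ≤ e12 := MO hf q5 q12 k139
              have k157 : e7 ≤ e12 := MO hf q7 q12 k140
              have k158 : ¬ e11 ≤ e12 := FA hF q12
              have k159 : ¬ e12 ≤ e11 := FB hG q12
              have k160 : e12 ≤ e3 := MO hf q12 q3 k135
              have k161 : e12 ≤ e9 := MO hf q12 q9 k137
              have k162 : ¬ e10 ≤ e12 := L5 l11 k157 k158
              have k163 : e6 ≤ e12 := le_trans k44 k156
              have k173 : ¬ e4 ≤ e12 := N1 k162 k128
              by_cases k175 : ∃ z, IsGLB ({e0, e12} : Set P) z
              · obtain ⟨e13, g13⟩ := k175
                have c13 : Core e0 e13 := CM g13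
                have k178 : e13 ≤ e0 := G1 g13
                have k179 : e13 ≤ e12 := G2 g13
                have k180 : e6 ≤ e13 := G3 g13 k43 k163
                have k183 : e13 ≤ e2 := le_trans k178 k6
                have k184 : e13 ≤ e8 := le_trans k178 k74
                have k185 : e13 ≤ e3 := le_trans k179 k160
                have k193 : ¬ e4 ≤ e13 := N2 k173 k179
                have k199 : e13 ≤ e4 := G3 g4 k178 k185
                have k201 : e13 ≤ e11 := le_trans k199 k139
                have k202 : e13 ≤ e6 := Classical.byContradiction fun hn => HL _ _ _ _ _ _ c6 c13 c4 c0 c8 c2 (LT k180 hn) (LT k199 k193) (LT k21 k26) (LT k74 k87) (LT k76 k88)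
                have k203 : e13 ≤ e1 := le_trans k202 k47
                have k204 : e13 ≤ e5 := le_trans k202 k44
                obtain ⟨e14, l14⟩ := ZE h2 k157 k71 g13
                have c14 : Core e0 e14 := CZ g13 k71 l14
                have k207 : e13 ≤ e14 := L1 l14
                have k208 : e7 ≤ e14 := L2 l14
                have k210 : e14 ≤ e2 := L3 l14 k183 k63
                have k213 : e14 ≤ e8 := L3 l14 k184 k75
                have k215 : e14 ≤ e11 := L3 l14 k201 k134
                have k217 : e6 ≤ e14 := le_trans k180 k207
                have k230 : ¬ e14 ≤ e6 := N1 k58 k208
                obtain ⟨e15, q15⟩ : ∃ y, f e14 = y := ⟨_, rfl⟩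
                have k236 : e7 ≤ e15 := MO hf q7 q15 k217
                have k237 : ¬ e14 ≤ e15 := FA hF q15
                have k238 : ¬ e15 ≤ e14 := FB hG q15
                have k239 : e15 ≤ e3 := MO hf q15 q3 k210
                have k240 : e15 ≤ e9 := MO hf q15 q9 k213
                have k241 : e15 ≤ e12 := MO hf q15 q12 k215
                have k242 : ¬ e13 ≤ e15 := L5 l14 k236 k237
                have k258 : ¬ e6 ≤ e15 := N1 k242 k202
                by_cases k261 : ∃ z, IsGLB ({e0, e15} : Set P) z
                · obtain ⟨e16, g16⟩ := k261
                  have c16 : Core e0 e16 := CM g16
                  have k264 : e16 ≤ e0 := G1 g16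
                  have k265 : e16 ≤ e15 := G2 g16
                  have k272 : e16 ≤ e12 := le_trans k265 k241
                  have k284 : ¬ e6 ≤ e16 := N2 k258 k265
                  have k285 : ¬ e13 ≤ e16 := N1 k284 k180
                  have k291 : e16 ≤ e13 := G3 g13 k264 k272
                  exact HL _ _ _ _ _ _ c16 c13 c4 c0 c8 c2 (LT k291 k285) (LT k199 k193) (LT k21 k26) (LT k74 k87) (LT k76 k88)
                · obtain ⟨e16, l16⟩ := (h1 e15).resolve_right k261
                  have c16 : Core e0 e16 := CJ k261 l16
                  have k264 : e0 ≤ e16 := L1 l16
                  have k265 : e15 ≤ e16 := L2 l16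
                  have k268 : e6 ≤ e16 := le_trans k43 k264
                  have k269 : e10 ≤ e16 := le_trans k107 k264
                  have k270 : e13 ≤ e16 := le_trans k178 k264
                  have k271 : e7 ≤ e16 := le_trans k236 k265
                  have k280 : ¬ e16 ≤ e11 := N1 k141 k264
                  have k286 : e8 ≤ e16 := L3 l8 k264 k271
                  have k287 : e11 ≤ e16 := L3 l11 k269 k271
                  have k288 : e14 ≤ e16 := L3 l14 k270 k271
                  by_cases k289 : e16 ≤ e8
                  · have k290 : e16 ≤ e2 := le_trans k289 k76
                    have k292 : e15 ≤ e8 := le_trans k265 k289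
                    have k293 : ¬ e1 ≤ e16 := N2 k89 k289
                    have k294 : ¬ e2 ≤ e16 := N1 k293 k7
                    obtain ⟨e17, l17⟩ := ZE h2 k240 k261 g10
                    have c17 : Core e0 e17 := CZ g10 k261 l17
                    have k299 : e10 ≤ e17 := L1 l17
                    have k300 : e15 ≤ e17 := L2 l17
                    have k302 : e17 ≤ e3 := L3 l17 k115 k239
                    have k303 : e17 ≤ e8 := L3 l17 k114 k292
                    have k309 : e7 ≤ e17 := le_trans k236 k300
                    have k310 : ¬ e0 ≤ e17 := N2 k15 k302
                    have k312 : ¬ e8 ≤ e17 := N1 k310 k74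
                    have k329 : e11 ≤ e17 := L3 l11 k299 k309
                    have k331 : e17 ≤ e11 := Classical.byContradiction fun hn => HL _ _ _ _ _ _ c6 c10 c11 c17 c8 c2 (LT k109 k126) (LT k133 k153) (LT k329 hn) (LT k303 k312) (LT k76 k88)
                    have k332 : e15 ≤ e11 := le_trans k300 k331
                    obtain ⟨e18, l18⟩ := ZE h2 k241 k261 g13
                    have c18 : Core e0 e18 := CZ g13 k261 l18
                    have k336 : e13 ≤ e18 := L1 l18
                    have k337 : e15 ≤ e18 := L2 l18
                    have k342 : e18 ≤ e11 := L3 l18 k201 k332
                    have k343 : e18 ≤ e12 := L3 l18 k179 k241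
                    have k347 : e7 ≤ e18 := le_trans k236 k337
                    have k355 : ¬ e4 ≤ e18 := N2 k173 k343
                    have k357 : ¬ e11 ≤ e18 := N1 k355 k139
                    have k367 : ¬ e18 ≤ e14 := N1 k238 k337
                    have k369 : e14 ≤ e18 := L3 l14 k336 k347
                    exact HL _ _ _ _ _ _ c6 c14 c18 c11 c16 c2 (LT k217 k230) (LT k369 k367) (LT k342 k357) (LT k287 k280) (LT k290 k294)
                  · have k290 : ¬ e15 ≤ e8 := L4 l16 k74 k289
                    have k292 : ¬ e15 ≤ e11 := N2 k290 k137
                    obtain ⟨e17, q17⟩ : ∃ y, f e16 = y := ⟨_, rfl⟩
                    have k294 : e1 ≤ e17 := MO hf q1 q17 k264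
                    have k296 : e7 ≤ e17 := MO hf q7 q17 k268
                    have k297 : e9 ≤ e17 := MO hf q9 q17 k286
                    have k299 : e15 ≤ e17 := MO hf q15 q17 k288
                    have k300 : ¬ e16 ≤ e17 := FA hF q17
                    have k301 : ¬ e17 ≤ e16 := FB hG q17
                    have k302 : ¬ e0 ≤ e17 := L5 l16 k299 k300
                    have k303 : e6 ≤ e17 := le_trans k47 k294
                    have k304 : e13 ≤ e17 := le_trans k203 k294
                    have k306 : e4 ≤ e17 := le_trans k130 k297
                    have k307 : e10 ≤ e17 := le_trans k108 k297
                    by_cases k324 : ∃ z, IsGLB ({e0, e17} : Set P) z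
                    · obtain ⟨e18, g18⟩ := k324
                      have c18 : Core e0 e18 := CM g18
                      obtain ⟨e19, l19⟩ := ZE h2 k296 k71 g18
                      have c19 : Core e0 e19 := CZ g18 k71 l19
                      have k329 : e18 ≤ e0 := G1 g18
                      have k330 : e18 ≤ e17 := G2 g18
                      have k331 : e4 ≤ e18 := G3 g18 k21 k306
                      have k332 : e6 ≤ e18 := G3 g18 k43 k303
                      have k333 : e10 ≤ e18 := G3 g18 k107 k307
                      have k334 : e13 ≤ e18 := G3 g18 k178 k304
                      have k344 : e18 ≤ e16 := le_trans k329 k264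
                      have k349 : ¬ e0 ≤ e18 := N2 k302 k330
                      have k377 : ¬ e7 ≤ e18 := N2 k62 k329
                      have k380 : ¬ e11 ≤ e18 := N1 k377 k134
                      have k396 : e18 ≤ e4 := Classical.byContradiction fun hn => HL _ _ _ _ _ _ c6 c4 c18 c0 c8 c2 (LT k55 k53) (LT k331 hn) (LT k329 k349) (LT k74 k87) (LT k76 k88)
                      have k397 : e18 ≤ e3 := le_trans k396 k22
                      have k400 : e18 ≤ e11 := le_trans k396 k139
                      obtain ⟨e20, l20⟩ := ZE h2 k299 k261 g18
                      have c20 : Core e0 e20 := CZ g18 k261 l20
                      have k406 : e18 ≤ e20 := L1 l20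
                      have k407 : e15 ≤ e20 := L2 l20
                      have k408 : e20 ≤ e3 := L3 l20 k397 k239
                      have k410 : e20 ≤ e16 := L3 l20 k344 k265
                      have k412 : e7 ≤ e20 := le_trans k236 k407
                      have k413 : e4 ≤ e20 := le_trans k331 k406
                      have k414 : e6 ≤ e20 := le_trans k332 k406
                      have k415 : e10 ≤ e20 := le_trans k333 k406
                      have k416 : e13 ≤ e20 := le_trans k334 k406
                      have k417 : ¬ e0 ≤ e20 := N2 k15 k408
                      have k420 : ¬ e16 ≤ e20 := N1 k417 k264
                      have k434 : ¬ e20 ≤ e11 := N1 k292 k407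
                      have k438 : e11 ≤ e20 := L3 l11 k415 k412
                      have k439 : e14 ≤ e20 := L3 l14 k416 k412
                      obtain ⟨e21, q21⟩ : ∃ y, f e20 = y := ⟨_, rfl⟩
                      have k442 : e5 ≤ e21 := MO hf q5 q21 k413
                      have k443 : e7 ≤ e21 := MO hf q7 q21 k414
                      have k445 : e15 ≤ e21 := MO hf q15 q21 k439
                      have k446 : ¬ e20 ≤ e21 := FA hF q21
                      have k447 : ¬ e21 ≤ e20 := FB hG q21
                      have k448 : e21 ≤ e17 := MO hf q21 q17 k410
                      have k449 : ¬ e18 ≤ e21 := L5 l20 k445 k446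
                      have k450 : e6 ≤ e21 := le_trans k44 k442
                      have k451 : e13 ≤ e21 := le_trans k204 k442
                      have k470 : ¬ e4 ≤ e21 := N1 k449 k396
                      by_cases k476 : ∃ z, IsGLB ({e0, e21} : Set P) z
                      · obtain ⟨e22, g22⟩ := k476
                        have c22 : Core e0 e22 := CM g22
                        obtain ⟨e23, l23⟩ := ZE h2 k443 k71 g22
                        have c23 : Core e0 e23 := CZ g22 k71 l23
                        have k481 : e22 ≤ e0 := G1 g22
                        have k482 : e22 ≤ e21 := G2 g22
                        have k483 : e6 ≤ e22 := G3 g22 k43 k450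
                        have k484 : e13 ≤ e22 := G3 g22 k178 k451
                        have k493 : e22 ≤ e16 := le_trans k481 k264
                        have k494 : e22 ≤ e17 := le_trans k482 k448
                        have k511 : ¬ e4 ≤ e22 := N2 k470 k482
                        have k515 : ¬ e18 ≤ e22 := N1 k511 k331
                        have k540 : e22 ≤ e18 := G3 g18 k481 k494
                        have k547 : e22 ≤ e4 := le_trans k540 k396
                        have k552 : e22 ≤ e20 := le_trans k540 k406
                        have k562 : e22 ≤ e6 := Classical.byContradiction fun hn => HL _ _ _ _ _ _ c6 c22 c18 c11 c8 c2 (LT k483 hn) (LT k540 k515) (LT k400 k380) (LT k137 k143) (LT k76 k88)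
                        obtain ⟨e24, l24⟩ := ZE h2 k445 k261 g22
                        have c24 : Core e0 e24 := CZ g22 k261 l24
                        have k574 : e22 ≤ e24 := L1 l24
                        have k575 : e15 ≤ e24 := L2 l24
                        have k579 : e24 ≤ e16 := L3 l24 k493 k265
                        have k581 : e24 ≤ e20 := L3 l24 k552 k407
                        have k583 : e7 ≤ e24 := le_trans k236 k575
                        have k585 : e13 ≤ e24 := le_trans k484 k574
                        have k610 : ¬ e24 ≤ e14 := N1 k238 k575
                        have k615 : e14 ≤ e24 := L3 l14 k585 k583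
                        obtain ⟨e25, q25⟩ : ∃ y, f e24 = y := ⟨_, rfl⟩
                        have k619 : e15 ≤ e25 := MO hf q15 q25 k615
                        have k620 : ¬ e24 ≤ e25 := FA hF q25
                        have k621 : ¬ e25 ≤ e24 := FB hG q25
                        have k622 : e25 ≤ e17 := MO hf q25 q17 k579
                        have k623 : e25 ≤ e21 := MO hf q25 q21 k581
                        have k624 : ¬ e22 ≤ e25 := L5 l24 k619 k620
                        have k653 : ¬ e6 ≤ e25 := N1 k624 k562
                        by_cases k660 : ∃ z, IsGLB ({e0, e25} : Set P) z
                        · obtain ⟨e26, g26⟩ := k660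
                          have c26 : Core e0 e26 := CM g26
                          have k663 : e26 ≤ e0 := G1 g26
                          have k664 : e26 ≤ e25 := G2 g26
                          have k672 : e26 ≤ e21 := le_trans k664 k623
                          have k690 : ¬ e6 ≤ e26 := N2 k653 k664
                          have k693 : ¬ e22 ≤ e26 := N1 k690 k483
                          have k700 : e26 ≤ e22 := G3 g22 k663 k672
                          exact HL _ _ _ _ _ _ c26 c22 c4 c0 c8 c2 (LT k700 k693) (LT k547 k511) (LT k21 k26) (LT k74 k87) (LT k76 k88)
                        · obtain ⟨e26, l26⟩ := (h1 e25).resolve_right k660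
                          have c26 : Core e0 e26 := CJ k660 l26
                          have k663 : e0 ≤ e26 := L1 l26
                          have k664 : e25 ≤ e26 := L2 l26
                          have k673 : e15 ≤ e26 := le_trans k619 k664
                          have k701 : e16 ≤ e26 := L3 l16 k663 k673
                          have k706 : e26 ≤ e16 := Classical.byContradiction fun hn => HL _ _ _ _ _ _ c6 c10 c11 c20 c16 c26 (LT k109 k126) (LT k133 k153) (LT k438 k434) (LT k410 k420) (LT k701 hn)
                          have k707 : e25 ≤ e16 := le_trans k664 k706
                          obtain ⟨e27, l27⟩ := ZE h2 k622 k660 g18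
                          have c27 : Core e0 e27 := CZ g18 k660 l27
                          have k711 : e18 ≤ e27 := L1 l27
                          have k712 : e25 ≤ e27 := L2 l27
                          have k713 : e27 ≤ e16 := L3 l27 k344 k707
                          have k714 : e27 ≤ e17 := L3 l27 k330 k622
                          have k722 : e15 ≤ e27 := le_trans k619 k712
                          have k723 : ¬ e0 ≤ e27 := N2 k302 k714
                          have k726 : ¬ e16 ≤ e27 := N1 k723 k264
                          have k753 : e20 ≤ e27 := L3 l20 k711 k722
                          have k756 : e27 ≤ e20 := Classical.byContradiction fun hn => HL _ _ _ _ _ _ c6 c10 c11 c20 c27 c16 (LT k109 k126) (LT k133 k153) (LT k438 k434) (LT k753 hn) (LT k713 k726)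
                          have k761 : e25 ≤ e20 := le_trans k712 k756
                          obtain ⟨e28, l28⟩ := ZE h2 k623 k660 g22
                          have c28 : Core e0 e28 := CZ g22 k660 l28
                          have k765 : e22 ≤ e28 := L1 l28
                          have k766 : e25 ≤ e28 := L2 l28
                          have k771 : e28 ≤ e20 := L3 l28 k552 k761
                          have k772 : e28 ≤ e21 := L3 l28 k482 k623
                          have k778 : e15 ≤ e28 := le_trans k619 k766
                          have k785 : ¬ e4 ≤ e28 := N2 k470 k772
                          have k792 : ¬ e20 ≤ e28 := N1 k785 k413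
                          have k810 : ¬ e28 ≤ e24 := N1 k621 k766
                          have k814 : e24 ≤ e28 := L3 l24 k765 k778
                          exact HL _ _ _ _ _ _ c6 c14 c24 c28 c20 c16 (LT k217 k230) (LT k615 k610) (LT k814 k810) (LT k771 k792) (LT k410 k420)
                      · obtain ⟨e22, l22⟩ := (h1 e21).resolve_right k476
                        have c22 : Core e0 e22 := CJ k476 l22
                        have k479 : e0 ≤ e22 := L1 l22
                        have k480 : e21 ≤ e22 := L2 l22
                        have k491 : e15 ≤ e22 := le_trans k445 k480
                        have k514 : e16 ≤ e22 := L3 l16 k479 k491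
                        have k517 : e22 ≤ e16 := Classical.byContradiction fun hn => HL _ _ _ _ _ _ c6 c10 c11 c20 c16 c22 (LT k109 k126) (LT k133 k153) (LT k438 k434) (LT k410 k420) (LT k514 hn)
                        have k520 : e21 ≤ e16 := le_trans k480 k517
                        obtain ⟨e23, l23⟩ := ZE h2 k448 k476 g18
                        have c23 : Core e0 e23 := CZ g18 k476 l23
                        have k524 : e18 ≤ e23 := L1 l23
                        have k525 : e21 ≤ e23 := L2 l23
                        have k526 : e23 ≤ e16 := L3 l23 k344 k520
                        have k527 : e23 ≤ e17 := L3 l23 k330 k448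
                        have k537 : e15 ≤ e23 := le_trans k445 k525
                        have k538 : ¬ e0 ≤ e23 := N2 k302 k527
                        have k541 : ¬ e16 ≤ e23 := N1 k538 k264
                        have k560 : ¬ e23 ≤ e20 := N1 k447 k525
                        have k564 : e20 ≤ e23 := L3 l20 k524 k537
                        exact HL _ _ _ _ _ _ c6 c4 c11 c20 c23 c16 (LT k55 k53) (LT k139 k152) (LT k438 k434) (LT k564 k560) (LT k526 k541)
                    · obtain ⟨e18, l18⟩ := (h1 e17).resolve_right k324
                      have c18 : Core e0 e18 := CJ k324 l18
                      have k327 : e0 ≤ e18 := L1 l18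
                      have k328 : e17 ≤ e18 := L2 l18
                      have k341 : e15 ≤ e18 := le_trans k299 k328
                      have k358 : ¬ e18 ≤ e16 := N1 k301 k328
                      have k361 : e16 ≤ e18 := L3 l16 k327 k341
                      exact HL _ _ _ _ _ _ c6 c10 c0 c8 c16 c18 (LT k109 k126) (LT k107 k116) (LT k74 k87) (LT k286 k289) (LT k361 k358)
              · obtain ⟨e13, l13⟩ := (h1 e12).resolve_right k175
                have c13 : Core e0 e13 := CJ k175 l13
                have k178 : e0 ≤ e13 := L1 l13
                have k179 : e12 ≤ e13 := L2 l13
                have k182 : e6 ≤ e13 := le_trans k43 k178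
                have k183 : e10 ≤ e13 := le_trans k107 k178
                have k185 : e7 ≤ e13 := le_trans k157 k179
                have k197 : e8 ≤ e13 := L3 l8 k178 k185
                have k198 : e11 ≤ e13 := L3 l11 k183 k185
                by_cases k199 : e13 ≤ e8
                · have k203 : e12 ≤ e8 := le_trans k179 k199
                  obtain ⟨e14, l14⟩ := ZE h2 k161 k175 g10
                  have c14 : Core e0 e14 := CZ g10 k175 l14
                  have k212 : e10 ≤ e14 := L1 l14
                  have k213 : e12 ≤ e14 := L2 l14
                  have k215 : e14 ≤ e3 := L3 l14 k115 k160
                  have k216 : e14 ≤ e8 := L3 l14 k114 k203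
                  have k222 : e7 ≤ e14 := le_trans k157 k213
                  have k223 : ¬ e0 ≤ e14 := N2 k15 k215
                  have k225 : ¬ e8 ≤ e14 := N1 k223 k74
                  have k238 : ¬ e14 ≤ e11 := N1 k159 k213
                  have k240 : e11 ≤ e14 := L3 l11 k212 k222
                  exact HL _ _ _ _ _ _ c6 c10 c11 c14 c8 c2 (LT k109 k126) (LT k133 k153) (LT k240 k238) (LT k216 k225) (LT k76 k88)
                · obtain ⟨e14, q14⟩ : ∃ y, f e13 = y := ⟨_, rfl⟩
                  have k204 : e7 ≤ e14 := MO hf q7 q14 k182
                  have k205 : e9 ≤ e14 := MO hf q9 q14 k197
                  have k206 : e12 ≤ e14 := MO hf q12 q14 k198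
                  have k207 : ¬ e13 ≤ e14 := FA hF q14
                  have k208 : ¬ e14 ≤ e13 := FB hG q14
                  have k209 : ¬ e0 ≤ e14 := L5 l13 k206 k207
                  have k211 : e4 ≤ e14 := le_trans k130 k205
                  have k212 : e10 ≤ e14 := le_trans k108 k205
                  by_cases k226 : ∃ z, IsGLB ({e0, e14} : Set P) z
                  · obtain ⟨e15, g15⟩ := k226
                    have c15 : Core e0 e15 := CM g15
                    obtain ⟨e16, l16⟩ := ZE h2 k204 k71 g15
                    have c16 : Core e0 e16 := CZ g15 k71 l16
                    have k231 : e15 ≤ e0 := G1 g15
                    have k232 : e15 ≤ e14 := G2 g15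
                    have k233 : e4 ≤ e15 := G3 g15 k21 k211
                    have k235 : e10 ≤ e15 := G3 g15 k107 k212
                    have k245 : e15 ≤ e13 := le_trans k231 k178
                    have k249 : ¬ e0 ≤ e15 := N2 k209 k232
                    have k286 : e15 ≤ e4 := Classical.byContradiction fun hn => HL _ _ _ _ _ _ c6 c4 c15 c0 c8 c2 (LT k55 k53) (LT k233 hn) (LT k231 k249) (LT k74 k87) (LT k76 k88)
                    have k287 : e15 ≤ e3 := le_trans k286 k22
                    obtain ⟨e17, l17⟩ := ZE h2 k206 k175 g15
                    have c17 : Core e0 e17 := CZ g15 k175 l17
                    have k296 : e15 ≤ e17 := L1 l17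
                    have k297 : e12 ≤ e17 := L2 l17
                    have k298 : e17 ≤ e3 := L3 l17 k287 k160
                    have k300 : e17 ≤ e13 := L3 l17 k245 k179
                    have k304 : e7 ≤ e17 := le_trans k157 k297
                    have k305 : e4 ≤ e17 := le_trans k233 k296
                    have k306 : e10 ≤ e17 := le_trans k235 k296
                    have k307 : ¬ e0 ≤ e17 := N2 k15 k298
                    have k310 : ¬ e13 ≤ e17 := N1 k307 k178
                    have k321 : ¬ e17 ≤ e11 := N1 k159 k297
                    have k325 : e11 ≤ e17 := L3 l11 k306 k304
                    obtain ⟨e18, q18⟩ : ∃ y, f e17 = y := ⟨_, rfl⟩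
                    have k328 : e5 ≤ e18 := MO hf q5 q18 k305
                    have k330 : e12 ≤ e18 := MO hf q12 q18 k325
                    have k331 : ¬ e17 ≤ e18 := FA hF q18
                    have k332 : ¬ e18 ≤ e17 := FB hG q18
                    have k333 : e18 ≤ e14 := MO hf q18 q14 k300
                    have k334 : ¬ e15 ≤ e18 := L5 l17 k330 k331
                    have k335 : e6 ≤ e18 := le_trans k44 k328
                    have k350 : ¬ e4 ≤ e18 := N1 k334 k286
                    by_cases k358 : ∃ z, IsGLB ({e0, e18} : Set P) z
                    · obtain ⟨e19, g19⟩ := k358
                      have c19 : Core e0 e19 := CM g19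
                      have k361 : e19 ≤ e0 := G1 g19
                      have k362 : e19 ≤ e18 := G2 g19
                      have k363 : e6 ≤ e19 := G3 g19 k43 k335
                      have k365 : ¬ e19 ≤ e12 := BN3 g19 k175 k330
                      have k370 : e19 ≤ e14 := le_trans k362 k333
                      have k379 : ¬ e4 ≤ e19 := N2 k350 k362
                      have k382 : ¬ e15 ≤ e19 := N1 k379 k233
                      have k390 : ¬ e19 ≤ e6 := N2 k365 k163
                      have k391 : e19 ≤ e15 := G3 g15 k361 k370
                      exact HL _ _ _ _ _ _ c6 c19 c15 c0 c8 c2 (LT k363 k390) (LT k391 k382) (LT k231 k249) (LT k74 k87) (LT k76 k88)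
                    · obtain ⟨e19, l19⟩ := (h1 e18).resolve_right k358
                      have c19 : Core e0 e19 := CJ k358 l19
                      have k361 : e0 ≤ e19 := L1 l19
                      have k362 : e18 ≤ e19 := L2 l19
                      have k370 : e12 ≤ e19 := le_trans k330 k362
                      have k390 : e13 ≤ e19 := L3 l13 k361 k370
                      have k393 : e19 ≤ e13 := Classical.byContradiction fun hn => HL _ _ _ _ _ _ c6 c10 c11 c17 c13 c19 (LT k109 k126) (LT k133 k153) (LT k325 k321) (LT k300 k310) (LT k390 hn)
                      have k394 : e18 ≤ e13 := le_trans k362 k393
                      obtain ⟨e20, l20⟩ := ZE h2 k333 k358 g15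
                      have c20 : Core e0 e20 := CZ g15 k358 l20
                      have k398 : e15 ≤ e20 := L1 l20
                      have k399 : e18 ≤ e20 := L2 l20
                      have k400 : e20 ≤ e13 := L3 l20 k245 k394
                      have k401 : e20 ≤ e14 := L3 l20 k232 k333
                      have k408 : e12 ≤ e20 := le_trans k330 k399
                      have k409 : ¬ e0 ≤ e20 := N2 k209 k401
                      have k412 : ¬ e13 ≤ e20 := N1 k409 k178
                      have k428 : ¬ e20 ≤ e17 := N1 k332 k399
                      have k432 : e17 ≤ e20 := L3 l17 k398 k408
                      exact HL _ _ _ _ _ _ c6 c4 c11 c17 c20 c13 (LT k55 k53) (LT k139 k152) (LT k325 k321) (LT k432 k428) (LT k400 k412)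
                  · obtain ⟨e15, l15⟩ := (h1 e14).resolve_right k226
                    have c15 : Core e0 e15 := CJ k226 l15
                    have k229 : e0 ≤ e15 := L1 l15
                    have k230 : e14 ≤ e15 := L2 l15
                    have k240 : e12 ≤ e15 := le_trans k206 k230
                    have k254 : ¬ e15 ≤ e13 := N1 k208 k230
                    have k257 : e13 ≤ e15 := L3 l13 k229 k240
                    exact HL _ _ _ _ _ _ c6 c10 c0 c8 c13 c15 (LT k109 k126) (LT k107 k116) (LT k74 k87) (LT k197 k199) (LT k257 k254)
            · have k105 : ¬ e4 ≤ e9 := BN3 g4 k104 k96
              obtain ⟨e10, l10⟩ := (h1 e9).resolve_right k104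
              have c10 : Core e0 e10 := CJ k104 l10
              have k109 : e0 ≤ e10 := L1 l10
              have k110 : e9 ≤ e10 := L2 l10
              have k114 : e1 ≤ e10 := le_trans k91 k110
              have k126 : e2 ≤ e10 := L3 l2 k109 k114
              have k128 : e10 ≤ e2 := Classical.byContradiction fun hn => HL _ _ _ _ _ _ c6 c4 c0 c8 c2 c10 (LT k55 k53) (LT k21 k26) (LT k74 k87) (LT k76 k88) (LT k126 hn)
              have k129 : e9 ≤ e2 := le_trans k110 k128
              obtain ⟨e11, l11⟩ := ZE h2 k60 k71 g4
              have c11 : Core e0 e11 := CZ g4 k71 l11
              have k133 : e4 ≤ e11 := L1 l11
              have k134 : e7 ≤ e11 := L2 l11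
              have k135 : e11 ≤ e2 := L3 l11 k25 k63
              have k136 : e11 ≤ e3 := L3 l11 k22 k60
              have k137 : e11 ≤ e8 := L3 l11 k78 k75
              have k139 : e6 ≤ e11 := le_trans k55 k133
              have k140 : ¬ e0 ≤ e11 := N2 k15 k136
              have k142 : ¬ e8 ≤ e11 := N1 k140 k74
              have k153 : ¬ e11 ≤ e4 := N1 k70 k134
              obtain ⟨e12, q12⟩ : ∃ y, f e11 = y := ⟨_, rfl⟩
              have k156 : e5 ≤ e12 := MO hf q5 q12 k133
              have k157 : e7 ≤ e12 := MO hf q7 q12 k139
              have k159 : ¬ e12 ≤ e11 := FB hG q12
              have k160 : e12 ≤ e3 := MO hf q12 q3 k135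
              have k161 : e12 ≤ e9 := MO hf q12 q9 k137
              have k163 : e6 ≤ e12 := le_trans k44 k156
              have k164 : e12 ≤ e2 := le_trans k161 k129
              by_cases k175 : ∃ z, IsGLB ({e0, e12} : Set P) z
              · obtain ⟨e13, g13⟩ := k175
                have c13 : Core e0 e13 := CM g13
                have k178 : e13 ≤ e0 := G1 g13
                have k179 : e13 ≤ e12 := G2 g13
                have k180 : e6 ≤ e13 := G3 g13 k43 k163
                have k183 : e13 ≤ e2 := le_trans k178 k6
                have k184 : e13 ≤ e8 := le_trans k178 k74
                have k186 : e13 ≤ e3 := le_trans k179 k160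
                have k187 : e13 ≤ e9 := le_trans k179 k161
                have k195 : ¬ e4 ≤ e13 := N2 k105 k187
                have k200 : e13 ≤ e4 := G3 g4 k178 k186
                have k201 : e13 ≤ e11 := le_trans k200 k133
                have k202 : e13 ≤ e6 := Classical.byContradiction fun hn => HL _ _ _ _ _ _ c6 c13 c4 c0 c8 c2 (LT k180 hn) (LT k200 k195) (LT k21 k26) (LT k74 k87) (LT k76 k88)
                have k203 : e13 ≤ e1 := le_trans k202 k47
                have k204 : e13 ≤ e5 := le_trans k202 k44
                obtain ⟨e14, l14⟩ := ZE h2 k157 k71 g13
                have c14 : Core e0 e14 := CZ g13 k71 l14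
                have k207 : e13 ≤ e14 := L1 l14
                have k208 : e7 ≤ e14 := L2 l14
                have k209 : e14 ≤ e1 := L3 l14 k203 k59
                have k210 : e14 ≤ e2 := L3 l14 k183 k63
                have k213 : e14 ≤ e8 := L3 l14 k184 k75
                have k216 : e14 ≤ e11 := L3 l14 k201 k134
                have k218 : e6 ≤ e14 := le_trans k180 k207
                have k226 : ¬ e4 ≤ e14 := N2 k23 k209
                have k227 : ¬ e11 ≤ e14 := N1 k226 k133
                have k231 : ¬ e14 ≤ e6 := N1 k58 k208
                obtain ⟨e15, q15⟩ : ∃ y, f e14 = y := ⟨_, rfl⟩
                have k236 : e7 ≤ e15 := MO hf q7 q15 k218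
                have k237 : ¬ e14 ≤ e15 := FA hF q15
                have k238 : ¬ e15 ≤ e14 := FB hG q15
                have k239 : e15 ≤ e3 := MO hf q15 q3 k210
                have k240 : e15 ≤ e9 := MO hf q15 q9 k213
                have k241 : e15 ≤ e12 := MO hf q15 q12 k216
                have k242 : ¬ e13 ≤ e15 := L5 l14 k236 k237
                have k243 : e15 ≤ e2 := le_trans k240 k129
                have k258 : ¬ e6 ≤ e15 := N1 k242 k202
                by_cases k262 : ∃ z, IsGLB ({e0, e15} : Set P) z
                · obtain ⟨e16, g16⟩ := k262
                  have c16 : Core e0 e16 := CM g16
                  have k265 : e16 ≤ e0 := G1 g16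
                  have k266 : e16 ≤ e15 := G2 g16
                  have k274 : e16 ≤ e12 := le_trans k266 k241
                  have k286 : ¬ e6 ≤ e16 := N2 k258 k266
                  have k287 : ¬ e13 ≤ e16 := N1 k286 k180
                  have k292 : e16 ≤ e13 := G3 g13 k265 k274
                  exact HL _ _ _ _ _ _ c16 c13 c4 c0 c8 c2 (LT k292 k287) (LT k200 k195) (LT k21 k26) (LT k74 k87) (LT k76 k88)
                · obtain ⟨e16, l16⟩ := (h1 e15).resolve_right k262
                  have c16 : Core e0 e16 := CJ k262 l16
                  have k265 : e0 ≤ e16 := L1 l16
                  have k266 : e15 ≤ e16 := L2 l16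
                  have k267 : e16 ≤ e2 := L3 l16 k6 k243
                  have k270 : e4 ≤ e16 := le_trans k21 k265
                  have k273 : e7 ≤ e16 := le_trans k236 k266
                  have k281 : ¬ e16 ≤ e11 := N1 k140 k265
                  have k288 : e8 ≤ e16 := L3 l8 k265 k273
                  have k289 : e11 ≤ e16 := L3 l11 k270 k273
                  by_cases k291 : e16 ≤ e8
                  · have k292 : e15 ≤ e8 := le_trans k266 k291
                    have k293 : ¬ e1 ≤ e16 := N2 k89 k291
                    have k294 : ¬ e2 ≤ e16 := N1 k293 k7
                    obtain ⟨e17, l17⟩ := ZE h2 k239 k262 g4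
                    have c17 : Core e0 e17 := CZ g4 k262 l17
                    have k299 : e4 ≤ e17 := L1 l17
                    have k300 : e15 ≤ e17 := L2 l17
                    have k302 : e17 ≤ e3 := L3 l17 k22 k239
                    have k303 : e17 ≤ e8 := L3 l17 k78 k292
                    have k308 : e7 ≤ e17 := le_trans k236 k300
                    have k309 : ¬ e0 ≤ e17 := N2 k15 k302
                    have k311 : ¬ e8 ≤ e17 := N1 k309 k74
                    have k329 : e11 ≤ e17 := L3 l11 k299 k308
                    have k331 : e17 ≤ e11 := Classical.byContradiction fun hn => HL _ _ _ _ _ _ c6 c14 c11 c17 c8 c2 (LT k218 k231) (LT k216 k227) (LT k329 hn) (LT k303 k311) (LT k76 k88)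
                    have k332 : e15 ≤ e11 := le_trans k300 k331
                    obtain ⟨e18, l18⟩ := ZE h2 k241 k262 g13
                    have c18 : Core e0 e18 := CZ g13 k262 l18
                    have k336 : e13 ≤ e18 := L1 l18
                    have k337 : e15 ≤ e18 := L2 l18
                    have k341 : e18 ≤ e9 := L3 l18 k187 k240
                    have k343 : e18 ≤ e11 := L3 l18 k201 k332
                    have k348 : e7 ≤ e18 := le_trans k236 k337
                    have k357 : ¬ e4 ≤ e18 := N2 k105 k341
                    have k358 : ¬ e11 ≤ e18 := N1 k357 k133
                    have k367 : ¬ e18 ≤ e14 := N1 k238 k337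
                    have k369 : e14 ≤ e18 := L3 l14 k336 k348
                    exact HL _ _ _ _ _ _ c6 c14 c18 c11 c16 c2 (LT k218 k231) (LT k369 k367) (LT k343 k358) (LT k289 k281) (LT k267 k294)
                  · have k292 : ¬ e15 ≤ e8 := L4 l16 k74 k291
                    have k294 : ¬ e15 ≤ e11 := N2 k292 k137
                    have k295 : e2 ≤ e16 := Classical.byContradiction fun hn => HL _ _ _ _ _ _ c6 c14 c11 c8 c16 c2 (LT k218 k231) (LT k216 k227) (LT k137 k142) (LT k288 k291) (LT k267 hn)
                    obtain ⟨e17, l17⟩ := ZE h2 k239 k262 g4
                    have c17 : Core e0 e17 := CZ g4 k262 l17
                    have k303 : e4 ≤ e17 := L1 l17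
                    have k304 : e15 ≤ e17 := L2 l17
                    have k305 : e17 ≤ e2 := L3 l17 k25 k243
                    have k306 : e17 ≤ e3 := L3 l17 k22 k239
                    have k309 : e6 ≤ e17 := le_trans k55 k303
                    have k310 : e13 ≤ e17 := le_trans k200 k303
                    have k311 : e7 ≤ e17 := le_trans k236 k304
                    have k312 : ¬ e0 ≤ e17 := N2 k15 k306
                    have k313 : ¬ e2 ≤ e17 := N1 k312 k6
                    have k330 : ¬ e17 ≤ e11 := N1 k294 k304
                    have k332 : e11 ≤ e17 := L3 l11 k303 k311
                    have k333 : e14 ≤ e17 := L3 l14 k310 k311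
                    obtain ⟨e18, q18⟩ : ∃ y, f e17 = y := ⟨_, rfl⟩
                    have k335 : e5 ≤ e18 := MO hf q5 q18 k303
                    have k336 : e7 ≤ e18 := MO hf q7 q18 k309
                    have k338 : e15 ≤ e18 := MO hf q15 q18 k333
                    have k339 : ¬ e17 ≤ e18 := FA hF q18
                    have k340 : ¬ e18 ≤ e17 := FB hG q18
                    have k341 : e18 ≤ e3 := MO hf q18 q3 k305
                    have k342 : ¬ e4 ≤ e18 := L5 l17 k338 k339
                    have k343 : e6 ≤ e18 := le_trans k44 k335
                    have k344 : e13 ≤ e18 := le_trans k204 k335
                    by_cases k362 : ∃ z, IsGLB ({e0, e18} : Set P) z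
                    · obtain ⟨e19, g19⟩ := k362
                      have c19 : Core e0 e19 := CM g19
                      obtain ⟨e20, l20⟩ := ZE h2 k336 k71 g19
                      have c20 : Core e0 e20 := CZ g19 k71 l20
                      have k367 : e19 ≤ e0 := G1 g19
                      have k368 : e19 ≤ e18 := G2 g19
                      have k369 : e6 ≤ e19 := G3 g19 k43 k343
                      have k370 : e13 ≤ e19 := G3 g19 k178 k344
                      have k377 : e19 ≤ e2 := le_trans k367 k6
                      have k381 : e19 ≤ e3 := le_trans k368 k341
                      have k399 : ¬ e4 ≤ e19 := N2 k342 k368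
                      have k418 : e19 ≤ e4 := G3 g4 k367 k381
                      have k426 : e19 ≤ e17 := le_trans k418 k303
                      have k434 : e19 ≤ e6 := Classical.byContradiction fun hn => HL _ _ _ _ _ _ c6 c19 c4 c0 c8 c2 (LT k369 hn) (LT k418 k399) (LT k21 k26) (LT k74 k87) (LT k76 k88)
                      have k437 : e19 ≤ e9 := le_trans k434 k98
                      obtain ⟨e21, l21⟩ := ZE h2 k338 k262 g19
                      have c21 : Core e0 e21 := CZ g19 k262 l21
                      have k448 : e19 ≤ e21 := L1 l21
                      have k449 : e15 ≤ e21 := L2 l21
                      have k450 : e21 ≤ e2 := L3 l21 k377 k243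
                      have k452 : e21 ≤ e9 := L3 l21 k437 k240
                      have k456 : e21 ≤ e17 := L3 l21 k426 k304
                      have k458 : e7 ≤ e21 := le_trans k236 k449
                      have k460 : e13 ≤ e21 := le_trans k370 k448
                      have k467 : ¬ e4 ≤ e21 := N2 k105 k452
                      have k469 : ¬ e17 ≤ e21 := N1 k467 k303
                      have k479 : ¬ e21 ≤ e14 := N1 k238 k449
                      have k483 : e14 ≤ e21 := L3 l14 k460 k458
                      obtain ⟨e22, q22⟩ : ∃ y, f e21 = y := ⟨_, rfl⟩
                      have k487 : e15 ≤ e22 := MO hf q15 q22 k483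
                      have k488 : ¬ e21 ≤ e22 := FA hF q22
                      have k489 : ¬ e22 ≤ e21 := FB hG q22
                      have k490 : e22 ≤ e3 := MO hf q22 q3 k450
                      have k491 : e22 ≤ e18 := MO hf q22 q18 k456
                      have k492 : ¬ e19 ≤ e22 := L5 l21 k487 k488
                      have k514 : ¬ e6 ≤ e22 := N1 k492 k434
                      by_cases k522 : ∃ z, IsGLB ({e0, e22} : Set P) z
                      · obtain ⟨e23, g23⟩ := k522
                        have c23 : Core e0 e23 := CM g23
                        have k525 : e23 ≤ e0 := G1 g23
                        have k526 : e23 ≤ e22 := G2 g23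
                        have k535 : e23 ≤ e18 := le_trans k526 k491
                        have k550 : ¬ e6 ≤ e23 := N2 k514 k526
                        have k553 : ¬ e19 ≤ e23 := N1 k550 k369
                        have k560 : e23 ≤ e19 := G3 g19 k525 k535
                        exact HL _ _ _ _ _ _ c23 c19 c4 c0 c8 c2 (LT k560 k553) (LT k418 k399) (LT k21 k26) (LT k74 k87) (LT k76 k88)
                      · obtain ⟨e23, l23⟩ := (h1 e22).resolve_right k522
                        have c23 : Core e0 e23 := CJ k522 l23
                        have k525 : e0 ≤ e23 := L1 l23
                        have k526 : e22 ≤ e23 := L2 l23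
                        have k533 : e15 ≤ e23 := le_trans k487 k526
                        have k557 : e16 ≤ e23 := L3 l16 k525 k533
                        have k562 : e2 ≤ e23 := le_trans k295 k557
                        have k567 : e23 ≤ e2 := Classical.byContradiction fun hn => HL _ _ _ _ _ _ c6 c14 c21 c17 c2 c23 (LT k218 k231) (LT k483 k479) (LT k456 k469) (LT k305 k313) (LT k562 hn)
                        have k570 : e22 ≤ e2 := le_trans k526 k567
                        obtain ⟨e24, l24⟩ := ZE h2 k490 k522 g4
                        have c24 : Core e0 e24 := CZ g4 k522 l24
                        have k576 : e4 ≤ e24 := L1 l24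
                        have k577 : e22 ≤ e24 := L2 l24
                        have k578 : e24 ≤ e2 := L3 l24 k25 k570
                        have k579 : e24 ≤ e3 := L3 l24 k22 k490
                        have k587 : e15 ≤ e24 := le_trans k487 k577
                        have k588 : ¬ e0 ≤ e24 := N2 k15 k579
                        have k589 : ¬ e2 ≤ e24 := N1 k588 k6
                        have k616 : e17 ≤ e24 := L3 l17 k576 k587
                        have k619 : e24 ≤ e17 := Classical.byContradiction fun hn => HL _ _ _ _ _ _ c6 c14 c21 c17 c24 c2 (LT k218 k231) (LT k483 k479) (LT k456 k469) (LT k616 hn) (LT k578 k589)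
                        have k620 : e22 ≤ e17 := le_trans k577 k619
                        obtain ⟨e25, l25⟩ := ZE h2 k491 k522 g19
                        have c25 : Core e0 e25 := CZ g19 k522 l25
                        have k624 : e19 ≤ e25 := L1 l25
                        have k625 : e22 ≤ e25 := L2 l25
                        have k630 : e25 ≤ e17 := L3 l25 k426 k620
                        have k631 : e25 ≤ e18 := L3 l25 k368 k491
                        have k637 : e15 ≤ e25 := le_trans k487 k625
                        have k645 : ¬ e4 ≤ e25 := N2 k342 k631
                        have k647 : ¬ e17 ≤ e25 := N1 k645 k303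
                        have k662 : ¬ e25 ≤ e21 := N1 k489 k625
                        have k666 : e21 ≤ e25 := L3 l21 k624 k637
                        exact HL _ _ _ _ _ _ c6 c14 c21 c25 c17 c2 (LT k218 k231) (LT k483 k479) (LT k666 k662) (LT k630 k647) (LT k305 k313)
                    · obtain ⟨e19, l19⟩ := (h1 e18).resolve_right k362
                      have c19 : Core e0 e19 := CJ k362 l19
                      have k365 : e0 ≤ e19 := L1 l19
                      have k366 : e18 ≤ e19 := L2 l19
                      have k375 : e15 ≤ e19 := le_trans k338 k366
                      have k394 : e16 ≤ e19 := L3 l16 k365 k375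
                      have k397 : e2 ≤ e19 := le_trans k295 k394
                      have k400 : e19 ≤ e2 := Classical.byContradiction fun hn => HL _ _ _ _ _ _ c6 c14 c11 c17 c2 c19 (LT k218 k231) (LT k216 k227) (LT k332 k330) (LT k305 k313) (LT k397 hn)
                      have k403 : e18 ≤ e2 := le_trans k366 k400
                      obtain ⟨e20, l20⟩ := ZE h2 k341 k362 g4
                      have c20 : Core e0 e20 := CZ g4 k362 l20
                      have k409 : e4 ≤ e20 := L1 l20
                      have k410 : e18 ≤ e20 := L2 l20
                      have k411 : e20 ≤ e2 := L3 l20 k25 k403
                      have k412 : e20 ≤ e3 := L3 l20 k22 k341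
                      have k422 : e15 ≤ e20 := le_trans k338 k410
                      have k423 : ¬ e0 ≤ e20 := N2 k15 k412
                      have k424 : ¬ e2 ≤ e20 := N1 k423 k6
                      have k444 : ¬ e20 ≤ e17 := N1 k340 k410
                      have k447 : e17 ≤ e20 := L3 l17 k409 k422
                      exact HL _ _ _ _ _ _ c6 c14 c11 c17 c20 c2 (LT k218 k231) (LT k216 k227) (LT k332 k330) (LT k447 k444) (LT k411 k424)
              · obtain ⟨e13, l13⟩ := (h1 e12).resolve_right k175
                have c13 : Core e0 e13 := CJ k175 l13
                have k178 : e0 ≤ e13 := L1 l13
                have k179 : e12 ≤ e13 := L2 l13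
                have k180 : e13 ≤ e2 := L3 l13 k6 k164
                have k186 : e7 ≤ e13 := le_trans k157 k179
                have k198 : e8 ≤ e13 := L3 l8 k178 k186
                by_cases k200 : e13 ≤ e8
                · have k202 : e12 ≤ e8 := le_trans k179 k200
                  obtain ⟨e14, l14⟩ := ZE h2 k160 k175 g4
                  have c14 : Core e0 e14 := CZ g4 k175 l14
                  have k213 : e4 ≤ e14 := L1 l14
                  have k214 : e12 ≤ e14 := L2 l14
                  have k216 : e14 ≤ e3 := L3 l14 k22 k160
                  have k217 : e14 ≤ e8 := L3 l14 k78 k202
                  have k222 : e7 ≤ e14 := le_trans k157 k214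
                  have k223 : ¬ e0 ≤ e14 := N2 k15 k216
                  have k225 : ¬ e8 ≤ e14 := N1 k223 k74
                  have k239 : ¬ e14 ≤ e11 := N1 k159 k214
                  have k241 : e11 ≤ e14 := L3 l11 k213 k222
                  exact HL _ _ _ _ _ _ c6 c4 c11 c14 c8 c2 (LT k55 k53) (LT k133 k153) (LT k241 k239) (LT k217 k225) (LT k76 k88)
                · have k202 : e2 ≤ e13 := Classical.byContradiction fun hn => HL _ _ _ _ _ _ c6 c4 c11 c8 c13 c2 (LT k55 k53) (LT k133 k153) (LT k137 k142) (LT k198 k200) (LT k180 hn)
                  obtain ⟨e14, l14⟩ := ZE h2 k160 k175 g4
                  have c14 : Core e0 e14 := CZ g4 k175 l14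
                  have k208 : e4 ≤ e14 := L1 l14
                  have k209 : e12 ≤ e14 := L2 l14
                  have k210 : e14 ≤ e2 := L3 l14 k25 k164
                  have k211 : e14 ≤ e3 := L3 l14 k22 k160
                  have k216 : e7 ≤ e14 := le_trans k157 k209
                  have k217 : ¬ e0 ≤ e14 := N2 k15 k211
                  have k218 : ¬ e2 ≤ e14 := N1 k217 k6
                  have k232 : ¬ e14 ≤ e11 := N1 k159 k209
                  have k234 : e11 ≤ e14 := L3 l11 k208 k216
                  obtain ⟨e15, q15⟩ : ∃ y, f e14 = y := ⟨_, rfl⟩
                  have k236 : e5 ≤ e15 := MO hf q5 q15 k208
                  have k238 : e12 ≤ e15 := MO hf q12 q15 k234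
                  have k239 : ¬ e14 ≤ e15 := FA hF q15
                  have k240 : ¬ e15 ≤ e14 := FB hG q15
                  have k241 : e15 ≤ e3 := MO hf q15 q3 k210
                  have k242 : ¬ e4 ≤ e15 := L5 l14 k238 k239
                  have k243 : e6 ≤ e15 := le_trans k44 k236
                  by_cases k259 : ∃ z, IsGLB ({e0, e15} : Set P) z
                  · obtain ⟨e16, g16⟩ := k259
                    have c16 : Core e0 e16 := CM g16
                    have k262 : e16 ≤ e0 := G1 g16
                    have k263 : e16 ≤ e15 := G2 g16
                    have k264 : e6 ≤ e16 := G3 g16 k43 k243
                    have k266 : ¬ e16 ≤ e12 := BN3 g16 k175 k238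
                    have k272 : e16 ≤ e3 := le_trans k263 k241
                    have k281 : ¬ e4 ≤ e16 := N2 k242 k263
                    have k289 : ¬ e16 ≤ e6 := N2 k266 k163
                    have k290 : e16 ≤ e4 := G3 g4 k262 k272
                    exact HL _ _ _ _ _ _ c6 c16 c4 c0 c8 c2 (LT k264 k289) (LT k290 k281) (LT k21 k26) (LT k74 k87) (LT k76 k88)
                  · obtain ⟨e16, l16⟩ := (h1 e15).resolve_right k259
                    have c16 : Core e0 e16 := CJ k259 l16
                    have k262 : e0 ≤ e16 := L1 l16
                    have k263 : e15 ≤ e16 := L2 l16
                    have k269 : e12 ≤ e16 := le_trans k238 k263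
                    have k285 : e13 ≤ e16 := L3 l13 k262 k269
                    have k288 : e2 ≤ e16 := le_trans k202 k285
                    have k291 : e16 ≤ e2 := Classical.byContradiction fun hn => HL _ _ _ _ _ _ c6 c4 c11 c14 c2 c16 (LT k55 k53) (LT k133 k153) (LT k234 k232) (LT k210 k218) (LT k288 hn)
                    have k294 : e15 ≤ e2 := le_trans k263 k291
                    obtain ⟨e17, l17⟩ := ZE h2 k241 k259 g4
                    have c17 : Core e0 e17 := CZ g4 k259 l17
                    have k300 : e4 ≤ e17 := L1 l17
                    have k301 : e15 ≤ e17 := L2 l17
                    have k302 : e17 ≤ e2 := L3 l17 k25 k294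
                    have k303 : e17 ≤ e3 := L3 l17 k22 k241
                    have k310 : e12 ≤ e17 := le_trans k238 k301
                    have k311 : ¬ e0 ≤ e17 := N2 k15 k303
                    have k312 : ¬ e2 ≤ e17 := N1 k311 k6
                    have k329 : ¬ e17 ≤ e14 := N1 k240 k301
                    have k332 : e14 ≤ e17 := L3 l14 k300 k310
                    exact HL _ _ _ _ _ _ c6 c4 c11 c14 c17 c2 (LT k55 k53) (LT k133 k153) (LT k234 k232) (LT k332 k329) (LT k302 k312)
      · obtain ⟨e6, l6⟩ := (h1 e5).resolve_right k40
        have c6 : Core e0 e6 := CJ k40 l6
        have k43 : e0 ≤ e6 := L1 l6
        have k44 : e5 ≤ e6 := L2 l6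
        have k45 : e6 ≤ e2 := L3 l6 k6 k36
        have k47 : e4 ≤ e6 := le_trans k21 k43
        have k53 : ¬ e6 ≤ e0 := N1 k35 k44
        by_cases k54 : e2 ≤ e6
        · have k55 : e1 ≤ e6 := le_trans k7 k54
          obtain ⟨e7, l7⟩ := ZE h2 k34 k40 g4
          have c7 : Core e0 e7 := CZ g4 k40 l7
          have k58 : e4 ≤ e7 := L1 l7
          have k59 : e5 ≤ e7 := L2 l7
          have k60 : e7 ≤ e2 := L3 l7 k25 k36
          have k61 : e7 ≤ e3 := L3 l7 k22 k34
          have k63 : ¬ e0 ≤ e7 := N2 k15 k61
          have k64 : ¬ e2 ≤ e7 := N1 k63 k6
          have k70 : ¬ e7 ≤ e4 := N1 k32 k59
          obtain ⟨e8, q8⟩ : ∃ y, f e7 = y := ⟨_, rfl⟩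
          have k73 : e5 ≤ e8 := MO hf q5 q8 k58
          have k74 : ¬ e7 ≤ e8 := FA hF q8
          have k75 : ¬ e8 ≤ e7 := FB hG q8
          have k76 : e8 ≤ e3 := MO hf q8 q3 k60
          have k77 : ¬ e4 ≤ e8 := L5 l7 k73 k74
          by_cases k85 : ∃ z, IsGLB ({e0, e8} : Set P) z
          · obtain ⟨e9, g9⟩ := k85
            have c9 : Core e0 e9 := CM g9
            have k88 : e9 ≤ e0 := G1 g9
            have k89 : e9 ≤ e8 := G2 g9
            have k90 : ¬ e9 ≤ e5 := BN3 g9 k40 k73
            have k92 : e9 ≤ e2 := le_trans k88 k6
            have k94 : e9 ≤ e3 := le_trans k89 k76
            have k100 : ¬ e4 ≤ e9 := N2 k77 k89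
            have k104 : e9 ≤ e4 := G3 g4 k88 k94
            have k105 : e9 ≤ e7 := le_trans k104 k58
            obtain ⟨e10, q10⟩ : ∃ y, f e9 = y := ⟨_, rfl⟩
            have k108 : ¬ e10 ≤ e9 := FB hG q10
            have k109 : e10 ≤ e1 := MO hf q10 q1 k88
            have k110 : e10 ≤ e3 := MO hf q10 q3 k92
            have k111 : e10 ≤ e5 := MO hf q10 q5 k104
            have k112 : e10 ≤ e8 := MO hf q10 q8 k105
            have k113 : ¬ e10 ≤ e0 := G5 g9 k112 k108
            have k114 : e10 ≤ e2 := le_trans k109 k7
            have k116 : e10 ≤ e7 := le_trans k111 k59
            have k124 : ¬ e10 ≤ e4 := N2 k113 k21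
            by_cases k125 : ∃ z, IsGLB ({e0, e10} : Set P) z
            · obtain ⟨e11, g11⟩ := k125
              have c11 : Core e0 e11 := CM g11
              have k128 : e11 ≤ e0 := G1 g11
              have k129 : e11 ≤ e10 := G2 g11
              have k131 : e11 ≤ e2 := le_trans k128 k6
              have k134 : e11 ≤ e3 := le_trans k129 k110
              have k135 : e11 ≤ e5 := le_trans k129 k111
              have k136 : e11 ≤ e7 := le_trans k129 k116
              have k137 : e11 ≤ e8 := le_trans k129 k112
              have k147 : ¬ e9 ≤ e11 := N2 k90 k135
              have k149 : e11 ≤ e4 := G3 g4 k128 k134
              have k150 : e11 ≤ e9 := G3 g9 k128 k137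
              obtain ⟨e12, q12⟩ : ∃ y, f e11 = y := ⟨_, rfl⟩
              have k152 : ¬ e11 ≤ e12 := FA hF q12
              have k153 : ¬ e12 ≤ e11 := FB hG q12
              have k154 : e12 ≤ e1 := MO hf q12 q1 k128
              have k155 : e12 ≤ e3 := MO hf q12 q3 k131
              have k156 : e12 ≤ e5 := MO hf q12 q5 k149
              have k157 : e12 ≤ e8 := MO hf q12 q8 k136
              have k158 : e12 ≤ e10 := MO hf q12 q10 k150
              have k159 : ¬ e12 ≤ e0 := G5 g11 k158 k153
              have k160 : e12 ≤ e2 := le_trans k154 k7
              have k162 : e12 ≤ e7 := le_trans k156 k59
              have k174 : ¬ e12 ≤ e4 := N2 k159 k21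
              have k175 : ¬ e12 ≤ e9 := N2 k159 k88
              by_cases k176 : ∃ z, IsGLB ({e0, e12} : Set P) z
              · obtain ⟨e13, g13⟩ := k176
                have c13 : Core e0 e13 := CM g13
                have k179 : e13 ≤ e0 := G1 g13
                have k180 : e13 ≤ e12 := G2 g13
                have k189 : e13 ≤ e10 := le_trans k180 k158
                have k201 : ¬ e11 ≤ e13 := N2 k152 k180
                have k205 : e13 ≤ e11 := G3 g11 k179 k189
                exact HL _ _ _ _ _ _ c13 c11 c9 c4 c0 c2 (LT k205 k201) (LT k150 k147) (LT k104 k100) (LT k21 k26) (LT k6 k10)
              · obtain ⟨e13, l13⟩ := ZE h2 k155 k176 g4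
                have c13 : Core e0 e13 := CZ g4 k176 l13
                have k179 : e4 ≤ e13 := L1 l13
                have k180 : e12 ≤ e13 := L2 l13
                have k184 : e13 ≤ e7 := L3 l13 k58 k162
                have k200 : ¬ e13 ≤ e4 := N1 k174 k180
                have k202 : e7 ≤ e13 := Classical.byContradiction fun hn => HL _ _ _ _ _ _ c11 c9 c4 c13 c7 c2 (LT k150 k147) (LT k104 k100) (LT k179 k200) (LT k184 hn) (LT k60 k64)
                have k203 : e5 ≤ e13 := le_trans k59 k202
                obtain ⟨e14, l14⟩ := ZE h2 k157 k176 g9
                have c14 : Core e0 e14 := CZ g9 k176 l14
                have k207 : e9 ≤ e14 := L1 l14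
                have k208 : e12 ≤ e14 := L2 l14
                have k209 : e14 ≤ e2 := L3 l14 k92 k160
                have k212 : e14 ≤ e7 := L3 l14 k105 k162
                have k213 : e14 ≤ e8 := L3 l14 k89 k157
                have k215 : e11 ≤ e14 := le_trans k150 k207
                have k220 : ¬ e4 ≤ e14 := N2 k77 k213
                have k221 : ¬ e7 ≤ e14 := N1 k220 k58
                have k230 : ¬ e14 ≤ e9 := N1 k175 k208
                obtain ⟨e15, q15⟩ : ∃ y, f e14 = y := ⟨_, rfl⟩
                have k233 : e10 ≤ e15 := MO hf q10 q15 k207
                have k234 : e12 ≤ e15 := MO hf q12 q15 k215
                have k235 : ¬ e14 ≤ e15 := FA hF q15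
                have k236 : ¬ e15 ≤ e14 := FB hG q15
                have k237 : e15 ≤ e3 := MO hf q15 q3 k209
                have k238 : e15 ≤ e8 := MO hf q15 q8 k212
                have k239 : ¬ e9 ≤ e15 := L5 l14 k234 k235
                have k240 : e11 ≤ e15 := le_trans k129 k233
                by_cases k254 : ∃ z, IsGLB ({e0, e15} : Set P) z
                · obtain ⟨e16, g16⟩ := k254
                  have c16 : Core e0 e16 := CM g16
                  have k257 : e16 ≤ e0 := G1 g16
                  have k258 : e16 ≤ e15 := G2 g16
                  have k259 : e11 ≤ e16 := G3 g16 k128 k240
                  have k262 : e16 ≤ e2 := le_trans k257 k6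
                  have k264 : e16 ≤ e3 := le_trans k258 k237
                  have k265 : e16 ≤ e8 := le_trans k258 k238
                  have k276 : ¬ e9 ≤ e16 := N2 k239 k258
                  have k281 : e16 ≤ e4 := G3 g4 k257 k264
                  have k282 : e16 ≤ e9 := G3 g9 k257 k265
                  have k283 : e16 ≤ e7 := le_trans k281 k58
                  have k285 : e16 ≤ e14 := le_trans k282 k207
                  have k286 : e16 ≤ e11 := Classical.byContradiction fun hn => HL _ _ _ _ _ _ c11 c16 c9 c4 c0 c2 (LT k259 hn) (LT k282 k276) (LT k104 k100) (LT k21 k26) (LT k6 k10)
                  have k288 : e16 ≤ e5 := le_trans k286 k135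
                  obtain ⟨e17, l17⟩ := ZE h2 k234 k176 g16
                  have c17 : Core e0 e17 := CZ g16 k176 l17
                  have k292 : e16 ≤ e17 := L1 l17
                  have k293 : e12 ≤ e17 := L2 l17
                  have k295 : e17 ≤ e2 := L3 l17 k262 k160
                  have k297 : e17 ≤ e5 := L3 l17 k288 k156
                  have k299 : e17 ≤ e7 := L3 l17 k283 k162
                  have k303 : e17 ≤ e14 := L3 l17 k285 k208
                  have k305 : e11 ≤ e17 := le_trans k259 k292
                  have k314 : ¬ e9 ≤ e17 := N2 k90 k297
                  have k315 : ¬ e14 ≤ e17 := N1 k314 k207
                  have k320 : ¬ e17 ≤ e11 := N1 k153 k293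
                  obtain ⟨e18, q18⟩ : ∃ y, f e17 = y := ⟨_, rfl⟩
                  have k325 : e12 ≤ e18 := MO hf q12 q18 k305
                  have k326 : ¬ e17 ≤ e18 := FA hF q18
                  have k327 : ¬ e18 ≤ e17 := FB hG q18
                  have k328 : e18 ≤ e3 := MO hf q18 q3 k295
                  have k329 : e18 ≤ e8 := MO hf q18 q8 k299
                  have k330 : e18 ≤ e15 := MO hf q18 q15 k303
                  have k331 : ¬ e16 ≤ e18 := L5 l17 k325 k326
                  have k350 : ¬ e11 ≤ e18 := N1 k331 k286
                  by_cases k353 : ∃ z, IsGLB ({e0, e18} : Set P) z
                  · obtain ⟨e19, g19⟩ := k353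
                    have c19 : Core e0 e19 := CM g19
                    have k356 : e19 ≤ e0 := G1 g19
                    have k357 : e19 ≤ e18 := G2 g19
                    have k364 : e19 ≤ e15 := le_trans k357 k330
                    have k379 : ¬ e11 ≤ e19 := N2 k350 k357
                    have k380 : ¬ e16 ≤ e19 := N1 k379 k259
                    have k386 : e19 ≤ e16 := G3 g16 k356 k364
                    exact HL _ _ _ _ _ _ c19 c16 c9 c4 c0 c2 (LT k386 k380) (LT k282 k276) (LT k104 k100) (LT k21 k26) (LT k6 k10)
                  · obtain ⟨e19, l19⟩ := (h1 e18).resolve_right k353
                    have c19 : Core e0 e19 := CJ k353 l19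
                    have k356 : e0 ≤ e19 := L1 l19
                    have k357 : e18 ≤ e19 := L2 l19
                    have k359 : e4 ≤ e19 := le_trans k21 k356
                    have k363 : e12 ≤ e19 := le_trans k325 k357
                    have k381 : e13 ≤ e19 := L3 l13 k359 k363
                    have k384 : e5 ≤ e19 := le_trans k203 k381
                    have k387 : e6 ≤ e19 := L3 l6 k356 k384
                    have k389 : e2 ≤ e19 := le_trans k54 k387
                    have k390 : e19 ≤ e2 := Classical.byContradiction fun hn => HL _ _ _ _ _ _ c11 c17 c14 c7 c2 c19 (LT k305 k320) (LT k303 k315) (LT k212 k221) (LT k60 k64) (LT k389 hn)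
                    have k392 : e18 ≤ e2 := le_trans k357 k390
                    obtain ⟨e20, l20⟩ := ZE h2 k328 k353 g4
                    have c20 : Core e0 e20 := CZ g4 k353 l20
                    have k397 : e4 ≤ e20 := L1 l20
                    have k398 : e18 ≤ e20 := L2 l20
                    have k399 : e20 ≤ e2 := L3 l20 k25 k392
                    have k400 : e20 ≤ e3 := L3 l20 k22 k328
                    have k403 : e9 ≤ e20 := le_trans k104 k397
                    have k406 : e12 ≤ e20 := le_trans k325 k398
                    have k407 : ¬ e0 ≤ e20 := N2 k15 k400
                    have k408 : ¬ e2 ≤ e20 := N1 k407 k6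
                    have k419 : ¬ e20 ≤ e14 := N1 k220 k397
                    have k427 : e13 ≤ e20 := L3 l13 k397 k406
                    have k428 : e14 ≤ e20 := L3 l14 k403 k406
                    have k431 : e7 ≤ e20 := le_trans k202 k427
                    have k433 : e20 ≤ e7 := Classical.byContradiction fun hn => HL _ _ _ _ _ _ c11 c17 c14 c7 c20 c2 (LT k305 k320) (LT k303 k315) (LT k212 k221) (LT k431 hn) (LT k399 k408)
                    have k435 : e18 ≤ e7 := le_trans k398 k433
                    obtain ⟨e21, l21⟩ := ZE h2 k329 k353 g9
                    have c21 : Core e0 e21 := CZ g9 k353 l21
                    have k440 : e9 ≤ e21 := L1 l21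
                    have k441 : e18 ≤ e21 := L2 l21
                    have k445 : e21 ≤ e7 := L3 l21 k105 k435
                    have k446 : e21 ≤ e8 := L3 l21 k89 k329
                    have k452 : e12 ≤ e21 := le_trans k325 k441
                    have k458 : ¬ e4 ≤ e21 := N2 k77 k446
                    have k459 : ¬ e7 ≤ e21 := N1 k458 k58
                    have k475 : e14 ≤ e21 := L3 l14 k440 k452
                    have k477 : e21 ≤ e14 := Classical.byContradiction fun hn => HL _ _ _ _ _ _ c11 c17 c14 c21 c7 c2 (LT k305 k320) (LT k303 k315) (LT k475 hn) (LT k445 k459) (LT k60 k64)
                    have k478 : e18 ≤ e14 := le_trans k441 k477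
                    obtain ⟨e22, l22⟩ := ZE h2 k330 k353 g16
                    have c22 : Core e0 e22 := CZ g16 k353 l22
                    have k482 : e16 ≤ e22 := L1 l22
                    have k483 : e18 ≤ e22 := L2 l22
                    have k490 : e22 ≤ e14 := L3 l22 k285 k478
                    have k491 : e22 ≤ e15 := L3 l22 k258 k330
                    have k496 : e12 ≤ e22 := le_trans k325 k483
                    have k507 : ¬ e9 ≤ e22 := N2 k239 k491
                    have k508 : ¬ e14 ≤ e22 := N1 k507 k207
                    have k518 : ¬ e22 ≤ e17 := N1 k327 k483
                    have k520 : e17 ≤ e22 := L3 l17 k482 k496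
                    exact HL _ _ _ _ _ _ c11 c17 c22 c14 c20 c2 (LT k305 k320) (LT k520 k518) (LT k490 k508) (LT k428 k419) (LT k399 k408)
                · obtain ⟨e16, l16⟩ := (h1 e15).resolve_right k254
                  have c16 : Core e0 e16 := CJ k254 l16
                  have k257 : e0 ≤ e16 := L1 l16
                  have k258 : e15 ≤ e16 := L2 l16
                  have k260 : e4 ≤ e16 := le_trans k21 k257
                  have k264 : e12 ≤ e16 := le_trans k234 k258
                  have k279 : e13 ≤ e16 := L3 l13 k260 k264
                  have k281 : e5 ≤ e16 := le_trans k203 k279
                  have k283 : e6 ≤ e16 := L3 l6 k257 k281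
                  have k285 : e2 ≤ e16 := le_trans k54 k283
                  have k286 : e16 ≤ e2 := Classical.byContradiction fun hn => HL _ _ _ _ _ _ c11 c9 c14 c7 c2 c16 (LT k150 k147) (LT k207 k230) (LT k212 k221) (LT k60 k64) (LT k285 hn)
                  have k288 : e15 ≤ e2 := le_trans k258 k286
                  obtain ⟨e17, l17⟩ := ZE h2 k237 k254 g4
                  have c17 : Core e0 e17 := CZ g4 k254 l17
                  have k293 : e4 ≤ e17 := L1 l17
                  have k294 : e15 ≤ e17 := L2 l17
                  have k295 : e17 ≤ e2 := L3 l17 k25 k288
                  have k296 : e17 ≤ e3 := L3 l17 k22 k237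
                  have k302 : e12 ≤ e17 := le_trans k234 k294
                  have k303 : ¬ e0 ≤ e17 := N2 k15 k296
                  have k304 : ¬ e2 ≤ e17 := N1 k303 k6
                  have k320 : e13 ≤ e17 := L3 l13 k293 k302
                  have k323 : e7 ≤ e17 := le_trans k202 k320
                  have k324 : e17 ≤ e7 := Classical.byContradiction fun hn => HL _ _ _ _ _ _ c11 c9 c14 c7 c17 c2 (LT k150 k147) (LT k207 k230) (LT k212 k221) (LT k323 hn) (LT k295 k304)
                  have k326 : e15 ≤ e7 := le_trans k294 k324
                  obtain ⟨e18, l18⟩ := ZE h2 k238 k254 g9
                  have c18 : Core e0 e18 := CZ g9 k254 l18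
                  have k331 : e9 ≤ e18 := L1 l18
                  have k332 : e15 ≤ e18 := L2 l18
                  have k336 : e18 ≤ e7 := L3 l18 k105 k326
                  have k337 : e18 ≤ e8 := L3 l18 k89 k238
                  have k343 : e12 ≤ e18 := le_trans k234 k332
                  have k349 : ¬ e4 ≤ e18 := N2 k77 k337
                  have k350 : ¬ e7 ≤ e18 := N1 k349 k58
                  have k362 : ¬ e18 ≤ e14 := N1 k236 k332
                  have k364 : e14 ≤ e18 := L3 l14 k331 k343
                  exact HL _ _ _ _ _ _ c11 c9 c14 c18 c7 c2 (LT k150 k147) (LT k207 k230) (LT k364 k362) (LT k336 k350) (LT k60 k64)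
            · obtain ⟨e11, l11⟩ := ZE h2 k110 k125 g4
              have c11 : Core e0 e11 := CZ g4 k125 l11
              have k128 : e4 ≤ e11 := L1 l11
              have k129 : e10 ≤ e11 := L2 l11
              have k130 : e11 ≤ e2 := L3 l11 k25 k114
              have k131 : e11 ≤ e3 := L3 l11 k22 k110
              have k133 : e11 ≤ e7 := L3 l11 k58 k116
              have k134 : e9 ≤ e11 := le_trans k104 k128
              have k135 : ¬ e0 ≤ e11 := N2 k15 k131
              have k146 : ¬ e11 ≤ e4 := N1 k124 k129
              by_cases k148 : e7 ≤ e11
              · have k149 : e5 ≤ e11 := le_trans k59 k148
                obtain ⟨e12, l12⟩ := ZE h2 k112 k125 g9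
                have c12 : Core e0 e12 := CZ g9 k125 l12
                have k152 : e9 ≤ e12 := L1 l12
                have k153 : e10 ≤ e12 := L2 l12
                have k154 : e12 ≤ e2 := L3 l12 k92 k114
                have k157 : e12 ≤ e7 := L3 l12 k105 k116
                have k158 : e12 ≤ e8 := L3 l12 k89 k112
                have k164 : ¬ e4 ≤ e12 := N2 k77 k158
                have k165 : ¬ e7 ≤ e12 := N1 k164 k58
                have k172 : ¬ e12 ≤ e9 := N1 k108 k153
                obtain ⟨e13, q13⟩ : ∃ y, f e12 = y := ⟨_, rfl⟩
                have k175 : e10 ≤ e13 := MO hf q10 q13 k152
                have k176 : ¬ e12 ≤ e13 := FA hF q13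
                have k177 : ¬ e13 ≤ e12 := FB hG q13
                have k178 : e13 ≤ e3 := MO hf q13 q3 k154
                have k179 : e13 ≤ e8 := MO hf q13 q8 k157
                have k180 : ¬ e9 ≤ e13 := L5 l12 k175 k176
                by_cases k193 : ∃ z, IsGLB ({e0, e13} : Set P) z
                · obtain ⟨e14, g14⟩ := k193
                  have c14 : Core e0 e14 := CM g14
                  have k196 : e14 ≤ e0 := G1 g14
                  have k197 : e14 ≤ e13 := G2 g14
                  have k198 : ¬ e14 ≤ e10 := BN3 g14 k125 k175
                  have k200 : e14 ≤ e2 := le_trans k196 k6
                  have k202 : e14 ≤ e3 := le_trans k197 k178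
                  have k203 : e14 ≤ e8 := le_trans k197 k179
                  have k214 : ¬ e9 ≤ e14 := N2 k180 k197
                  have k218 : e14 ≤ e4 := G3 g4 k196 k202
                  have k219 : e14 ≤ e9 := G3 g9 k196 k203
                  have k220 : e14 ≤ e7 := le_trans k218 k58
                  have k222 : e14 ≤ e12 := le_trans k219 k152
                  obtain ⟨e15, q15⟩ : ∃ y, f e14 = y := ⟨_, rfl⟩
                  have k225 : ¬ e15 ≤ e14 := FB hG q15
                  have k226 : e15 ≤ e1 := MO hf q15 q1 k196
                  have k228 : e15 ≤ e5 := MO hf q15 q5 k218
                  have k229 : e15 ≤ e8 := MO hf q15 q8 k220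
                  have k230 : e15 ≤ e10 := MO hf q15 q10 k219
                  have k231 : e15 ≤ e13 := MO hf q15 q13 k222
                  have k232 : ¬ e15 ≤ e0 := G5 g14 k231 k225
                  have k233 : e15 ≤ e2 := le_trans k226 k7
                  have k235 : e15 ≤ e7 := le_trans k228 k59
                  have k237 : e15 ≤ e12 := le_trans k230 k153
                  have k250 : ¬ e15 ≤ e9 := N2 k232 k88
                  by_cases k251 : ∃ z, IsGLB ({e0, e15} : Set P) z
                  · obtain ⟨e16, g16⟩ := k251
                    have c16 : Core e0 e16 := CM g16
                    have k254 : e16 ≤ e0 := G1 g16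
                    have k255 : e16 ≤ e15 := G2 g16
                    have k264 : e16 ≤ e10 := le_trans k255 k230
                    have k267 : e16 ≤ e13 := le_trans k255 k231
                    have k282 : ¬ e14 ≤ e16 := N2 k198 k264
                    have k286 : e16 ≤ e14 := G3 g14 k254 k267
                    exact HL _ _ _ _ _ _ c16 c14 c9 c4 c0 c2 (LT k286 k282) (LT k219 k214) (LT k104 k100) (LT k21 k26) (LT k6 k10)
                  · obtain ⟨e16, l16⟩ := ZE h2 k229 k251 g9
                    have c16 : Core e0 e16 := CZ g9 k251 l16
                    have k254 : e9 ≤ e16 := L1 l16
                    have k255 : e15 ≤ e16 := L2 l16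
                    have k262 : e16 ≤ e12 := L3 l16 k152 k237
                    have k280 : ¬ e16 ≤ e9 := N1 k250 k255
                    have k282 : e12 ≤ e16 := Classical.byContradiction fun hn => HL _ _ _ _ _ _ c14 c9 c16 c12 c7 c2 (LT k219 k214) (LT k254 k280) (LT k262 hn) (LT k157 k165) (LT k60 k64)
                    have k283 : e10 ≤ e16 := le_trans k153 k282
                    obtain ⟨e17, l17⟩ := ZE h2 k231 k251 g14
                    have c17 : Core e0 e17 := CZ g14 k251 l17
                    have k286 : e14 ≤ e17 := L1 l17
                    have k287 : e15 ≤ e17 := L2 l17
                    have k288 : e17 ≤ e2 := L3 l17 k200 k233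
                    have k291 : e17 ≤ e7 := L3 l17 k220 k235
                    have k294 : e17 ≤ e12 := L3 l17 k222 k237
                    have k295 : e17 ≤ e13 := L3 l17 k197 k231
                    have k305 : ¬ e9 ≤ e17 := N2 k180 k295
                    have k306 : ¬ e12 ≤ e17 := N1 k305 k152
                    have k314 : ¬ e17 ≤ e14 := N1 k225 k287
                    obtain ⟨e18, q18⟩ : ∃ y, f e17 = y := ⟨_, rfl⟩
                    have k317 : e15 ≤ e18 := MO hf q15 q18 k286
                    have k318 : ¬ e17 ≤ e18 := FA hF q18
                    have k319 : ¬ e18 ≤ e17 := FB hG q18
                    have k320 : e18 ≤ e3 := MO hf q18 q3 k288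
                    have k321 : e18 ≤ e8 := MO hf q18 q8 k291
                    have k322 : e18 ≤ e13 := MO hf q18 q13 k294
                    have k323 : ¬ e14 ≤ e18 := L5 l17 k317 k318
                    by_cases k341 : ∃ z, IsGLB ({e0, e18} : Set P) z
                    · obtain ⟨e19, g19⟩ := k341
                      have c19 : Core e0 e19 := CM g19
                      have k344 : e19 ≤ e0 := G1 g19
                      have k345 : e19 ≤ e18 := G2 g19
                      have k352 : e19 ≤ e13 := le_trans k345 k322
                      have k368 : ¬ e14 ≤ e19 := N2 k323 k345
                      have k374 : e19 ≤ e14 := G3 g14 k344 k352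
                      exact HL _ _ _ _ _ _ c19 c14 c9 c4 c0 c2 (LT k374 k368) (LT k219 k214) (LT k104 k100) (LT k21 k26) (LT k6 k10)
                    · obtain ⟨e19, l19⟩ := (h1 e18).resolve_right k341
                      have c19 : Core e0 e19 := CJ k341 l19
                      have k344 : e0 ≤ e19 := L1 l19
                      have k345 : e18 ≤ e19 := L2 l19
                      have k347 : e4 ≤ e19 := le_trans k21 k344
                      have k348 : e9 ≤ e19 := le_trans k88 k344
                      have k350 : e15 ≤ e19 := le_trans k317 k345
                      have k368 : e16 ≤ e19 := L3 l16 k348 k350
                      have k370 : e10 ≤ e19 := le_trans k283 k368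
                      have k372 : e11 ≤ e19 := L3 l11 k347 k370
                      have k373 : e5 ≤ e19 := le_trans k149 k372
                      have k375 : e6 ≤ e19 := L3 l6 k344 k373
                      have k377 : e2 ≤ e19 := le_trans k54 k375
                      have k378 : e19 ≤ e2 := Classical.byContradiction fun hn => HL _ _ _ _ _ _ c14 c17 c12 c7 c2 c19 (LT k286 k314) (LT k294 k306) (LT k157 k165) (LT k60 k64) (LT k377 hn)
                      have k380 : e18 ≤ e2 := le_trans k345 k378
                      obtain ⟨e20, l20⟩ := ZE h2 k320 k341 g4
                      have c20 : Core e0 e20 := CZ g4 k341 l20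
                      have k385 : e4 ≤ e20 := L1 l20
                      have k386 : e18 ≤ e20 := L2 l20
                      have k387 : e20 ≤ e2 := L3 l20 k25 k380
                      have k388 : e20 ≤ e3 := L3 l20 k22 k320
                      have k391 : e9 ≤ e20 := le_trans k104 k385
                      have k393 : e15 ≤ e20 := le_trans k317 k386
                      have k394 : ¬ e0 ≤ e20 := N2 k15 k388
                      have k395 : ¬ e2 ≤ e20 := N1 k394 k6
                      have k404 : ¬ e20 ≤ e12 := N1 k164 k385
                      have k414 : e16 ≤ e20 := L3 l16 k391 k393
                      have k416 : e10 ≤ e20 := le_trans k283 k414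
                      have k417 : e12 ≤ e20 := le_trans k282 k414
                      have k418 : e11 ≤ e20 := L3 l11 k385 k416
                      have k420 : e7 ≤ e20 := le_trans k148 k418
                      have k421 : e20 ≤ e7 := Classical.byContradiction fun hn => HL _ _ _ _ _ _ c14 c17 c12 c7 c20 c2 (LT k286 k314) (LT k294 k306) (LT k157 k165) (LT k420 hn) (LT k387 k395)
                      have k423 : e18 ≤ e7 := le_trans k386 k421
                      obtain ⟨e21, l21⟩ := ZE h2 k321 k341 g9
                      have c21 : Core e0 e21 := CZ g9 k341 l21
                      have k428 : e9 ≤ e21 := L1 l21
                      have k429 : e18 ≤ e21 := L2 l21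
                      have k433 : e21 ≤ e7 := L3 l21 k105 k423
                      have k434 : e21 ≤ e8 := L3 l21 k89 k321
                      have k439 : e15 ≤ e21 := le_trans k317 k429
                      have k445 : ¬ e4 ≤ e21 := N2 k77 k434
                      have k446 : ¬ e7 ≤ e21 := N1 k445 k58
                      have k461 : e16 ≤ e21 := L3 l16 k428 k439
                      have k464 : e12 ≤ e21 := le_trans k282 k461
                      have k465 : e21 ≤ e12 := Classical.byContradiction fun hn => HL _ _ _ _ _ _ c14 c17 c12 c21 c7 c2 (LT k286 k314) (LT k294 k306) (LT k464 hn) (LT k433 k446) (LT k60 k64)
                      have k467 : e18 ≤ e12 := le_trans k429 k465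
                      obtain ⟨e22, l22⟩ := ZE h2 k322 k341 g14
                      have c22 : Core e0 e22 := CZ g14 k341 l22
                      have k472 : e14 ≤ e22 := L1 l22
                      have k473 : e18 ≤ e22 := L2 l22
                      have k480 : e22 ≤ e12 := L3 l22 k222 k467
                      have k481 : e22 ≤ e13 := L3 l22 k197 k322
                      have k486 : e15 ≤ e22 := le_trans k317 k473
                      have k497 : ¬ e9 ≤ e22 := N2 k180 k481
                      have k498 : ¬ e12 ≤ e22 := N1 k497 k152
                      have k509 : ¬ e22 ≤ e17 := N1 k319 k473
                      have k511 : e17 ≤ e22 := L3 l17 k472 k486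
                      exact HL _ _ _ _ _ _ c14 c17 c22 c12 c20 c2 (LT k286 k314) (LT k511 k509) (LT k480 k498) (LT k417 k404) (LT k387 k395)
                · obtain ⟨e14, l14⟩ := (h1 e13).resolve_right k193
                  have c14 : Core e0 e14 := CJ k193 l14
                  have k196 : e0 ≤ e14 := L1 l14
                  have k197 : e13 ≤ e14 := L2 l14
                  have k199 : e4 ≤ e14 := le_trans k21 k196
                  have k200 : e9 ≤ e14 := le_trans k88 k196
                  have k201 : e10 ≤ e14 := le_trans k175 k197
                  have k214 : e11 ≤ e14 := L3 l11 k199 k201
                  have k215 : e12 ≤ e14 := L3 l12 k200 k201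
                  have k216 : e5 ≤ e14 := le_trans k149 k214
                  have k218 : e6 ≤ e14 := L3 l6 k196 k216
                  have k220 : e2 ≤ e14 := le_trans k54 k218
                  by_cases k221 : e14 ≤ e2
                  · have k223 : e13 ≤ e2 := le_trans k197 k221
                    obtain ⟨e15, l15⟩ := ZE h2 k178 k193 g4
                    have c15 : Core e0 e15 := CZ g4 k193 l15
                    have k228 : e4 ≤ e15 := L1 l15
                    have k229 : e13 ≤ e15 := L2 l15
                    have k230 : e15 ≤ e2 := L3 l15 k25 k223
                    have k231 : e15 ≤ e3 := L3 l15 k22 k178
                    have k234 : e9 ≤ e15 := le_trans k104 k228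
                    have k235 : e10 ≤ e15 := le_trans k175 k229
                    have k236 : ¬ e0 ≤ e15 := N2 k15 k231
                    have k237 : ¬ e2 ≤ e15 := N1 k236 k6
                    have k251 : e11 ≤ e15 := L3 l11 k228 k235
                    have k252 : e12 ≤ e15 := L3 l12 k234 k235
                    have k254 : e7 ≤ e15 := le_trans k148 k251
                    by_cases k255 : e15 ≤ e7
                    · have k257 : e13 ≤ e7 := le_trans k229 k255
                      obtain ⟨e16, l16⟩ := ZE h2 k179 k193 g9
                      have c16 : Core e0 e16 := CZ g9 k193 l16
                      have k262 : e9 ≤ e16 := L1 l16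
                      have k263 : e13 ≤ e16 := L2 l16
                      have k264 : e16 ≤ e2 := L3 l16 k92 k223
                      have k267 : e16 ≤ e7 := L3 l16 k105 k257
                      have k268 : e16 ≤ e8 := L3 l16 k89 k179
                      have k272 : e10 ≤ e16 := le_trans k175 k263
                      have k278 : ¬ e4 ≤ e16 := N2 k77 k268
                      have k279 : ¬ e7 ≤ e16 := N1 k278 k58
                      have k289 : ¬ e16 ≤ e12 := N1 k177 k263
                      have k291 : e12 ≤ e16 := L3 l12 k262 k272
                      obtain ⟨e17, q17⟩ : ∃ y, f e16 = y := ⟨_, rfl⟩
                      have k293 : e10 ≤ e17 := MO hf q10 q17 k262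
                      have k294 : e13 ≤ e17 := MO hf q13 q17 k291
                      have k295 : ¬ e16 ≤ e17 := FA hF q17
                      have k296 : ¬ e17 ≤ e16 := FB hG q17
                      have k297 : e17 ≤ e3 := MO hf q17 q3 k264
                      have k298 : e17 ≤ e8 := MO hf q17 q8 k267
                      have k299 : ¬ e9 ≤ e17 := L5 l16 k294 k295
                      by_cases k317 : ∃ z, IsGLB ({e0, e17} : Set P) z
                      · obtain ⟨e18, g18⟩ := k317
                        have c18 : Core e0 e18 := CM g18
                        have k320 : e18 ≤ e0 := G1 g18
                        have k321 : e18 ≤ e17 := G2 g18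
                        have k329 : e18 ≤ e8 := le_trans k321 k298
                        have k342 : ¬ e9 ≤ e18 := N2 k299 k321
                        have k349 : e18 ≤ e9 := G3 g9 k320 k329
                        exact HL _ _ _ _ _ _ c18 c9 c12 c16 c7 c2 (LT k349 k342) (LT k152 k172) (LT k291 k289) (LT k267 k279) (LT k60 k64)
                      · obtain ⟨e18, l18⟩ := (h1 e17).resolve_right k317
                        have c18 : Core e0 e18 := CJ k317 l18
                        have k320 : e0 ≤ e18 := L1 l18
                        have k321 : e17 ≤ e18 := L2 l18
                        have k326 : e13 ≤ e18 := le_trans k294 k321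
                        have k344 : e14 ≤ e18 := L3 l14 k320 k326
                        have k350 : e2 ≤ e18 := le_trans k220 k344
                        have k352 : e18 ≤ e2 := Classical.byContradiction fun hn => HL _ _ _ _ _ _ c9 c12 c16 c7 c2 c18 (LT k152 k172) (LT k291 k289) (LT k267 k279) (LT k60 k64) (LT k350 hn)
                        have k355 : e17 ≤ e2 := le_trans k321 k352
                        obtain ⟨e19, l19⟩ := ZE h2 k297 k317 g4
                        have c19 : Core e0 e19 := CZ g4 k317 l19
                        have k361 : e4 ≤ e19 := L1 l19
                        have k362 : e17 ≤ e19 := L2 l19
                        have k363 : e19 ≤ e2 := L3 l19 k25 k355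
                        have k364 : e19 ≤ e3 := L3 l19 k22 k297
                        have k369 : e10 ≤ e19 := le_trans k293 k362
                        have k371 : ¬ e0 ≤ e19 := N2 k15 k364
                        have k372 : ¬ e2 ≤ e19 := N1 k371 k6
                        have k389 : e11 ≤ e19 := L3 l11 k361 k369
                        have k394 : e7 ≤ e19 := le_trans k148 k389
                        have k395 : e19 ≤ e7 := Classical.byContradiction fun hn => HL _ _ _ _ _ _ c9 c12 c16 c7 c19 c2 (LT k152 k172) (LT k291 k289) (LT k267 k279) (LT k394 hn) (LT k363 k372)
                        have k398 : e17 ≤ e7 := le_trans k362 k395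
                        obtain ⟨e20, l20⟩ := ZE h2 k298 k317 g9
                        have c20 : Core e0 e20 := CZ g9 k317 l20
                        have k404 : e9 ≤ e20 := L1 l20
                        have k405 : e17 ≤ e20 := L2 l20
                        have k409 : e20 ≤ e7 := L3 l20 k105 k398
                        have k410 : e20 ≤ e8 := L3 l20 k89 k298
                        have k417 : e13 ≤ e20 := le_trans k294 k405
                        have k424 : ¬ e4 ≤ e20 := N2 k77 k410
                        have k425 : ¬ e7 ≤ e20 := N1 k424 k58
                        have k438 : ¬ e20 ≤ e16 := N1 k296 k405
                        have k441 : e16 ≤ e20 := L3 l16 k404 k417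
                        exact HL _ _ _ _ _ _ c9 c12 c16 c20 c7 c2 (LT k152 k172) (LT k291 k289) (LT k441 k438) (LT k409 k425) (LT k60 k64)
                    · have k257 : ¬ e13 ≤ e7 := L4 l15 k58 k255
                      obtain ⟨e16, q16⟩ : ∃ y, f e15 = y := ⟨_, rfl⟩
                      have k261 : e5 ≤ e16 := MO hf q5 q16 k228
                      have k262 : e8 ≤ e16 := MO hf q8 q16 k254
                      have k263 : e10 ≤ e16 := MO hf q10 q16 k234
                      have k264 : e13 ≤ e16 := MO hf q13 q16 k252
                      have k265 : ¬ e15 ≤ e16 := FA hF q16
                      have k266 : ¬ e16 ≤ e15 := FB hG q16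
                      have k267 : e16 ≤ e3 := MO hf q16 q3 k230
                      have k268 : ¬ e4 ≤ e16 := L5 l15 k264 k265
                      have k269 : e9 ≤ e16 := le_trans k89 k262
                      by_cases k287 : ∃ z, IsGLB ({e0, e16} : Set P) z
                      · obtain ⟨e17, g17⟩ := k287
                        have c17 : Core e0 e17 := CM g17
                        obtain ⟨e18, l18⟩ := ZE h2 k263 k125 g17
                        have c18 : Core e0 e18 := CZ g17 k125 l18
                        have k292 : e17 ≤ e0 := G1 g17
                        have k293 : e17 ≤ e16 := G2 g17
                        have k294 : e9 ≤ e17 := G3 g17 k88 k269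
                        have k299 : e17 ≤ e18 := L1 l18
                        have k300 : e10 ≤ e18 := L2 l18
                        have k302 : e17 ≤ e2 := le_trans k292 k6
                        have k305 : e17 ≤ e3 := le_trans k293 k267
                        have k319 : ¬ e4 ≤ e17 := N2 k268 k293
                        have k334 : ¬ e10 ≤ e17 := N2 k113 k292
                        have k339 : ¬ e18 ≤ e17 := N1 k334 k300
                        have k340 : e17 ≤ e4 := G3 g4 k292 k305
                        have k346 : e17 ≤ e7 := le_trans k340 k58
                        have k348 : e17 ≤ e15 := le_trans k340 k228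
                        have k349 : e18 ≤ e7 := L3 l18 k346 k116
                        have k354 : ¬ e13 ≤ e18 := N2 k257 k349
                        have k355 : e17 ≤ e9 := Classical.byContradiction fun hn => HL _ _ _ _ _ _ c9 c17 c4 c7 c15 c2 (LT k294 hn) (LT k340 k319) (LT k58 k70) (LT k254 k255) (LT k230 k237)
                        have k356 : e17 ≤ e8 := le_trans k355 k89
                        obtain ⟨e19, l19⟩ := ZE h2 k264 k193 g17
                        have c19 : Core e0 e19 := CZ g17 k193 l19
                        have k362 : e17 ≤ e19 := L1 l19
                        have k363 : e13 ≤ e19 := L2 l19
                        have k364 : e19 ≤ e2 := L3 l19 k302 k223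
                        have k367 : e19 ≤ e8 := L3 l19 k356 k179
                        have k369 : e19 ≤ e15 := L3 l19 k348 k229
                        have k371 : e10 ≤ e19 := le_trans k175 k363
                        have k372 : e9 ≤ e19 := le_trans k294 k362
                        have k378 : ¬ e4 ≤ e19 := N2 k77 k367
                        have k381 : ¬ e15 ≤ e19 := N1 k378 k228
                        have k391 : ¬ e19 ≤ e12 := N1 k177 k363
                        have k392 : ¬ e19 ≤ e18 := N1 k354 k363
                        have k395 : e12 ≤ e19 := L3 l12 k372 k371
                        have k396 : e18 ≤ e19 := L3 l18 k362 k371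
                        obtain ⟨e20, q20⟩ : ∃ y, f e19 = y := ⟨_, rfl⟩
                        have k399 : e13 ≤ e20 := MO hf q13 q20 k395
                        have k400 : ¬ e19 ≤ e20 := FA hF q20
                        have k401 : ¬ e20 ≤ e19 := FB hG q20
                        have k402 : e20 ≤ e3 := MO hf q20 q3 k364
                        have k403 : e20 ≤ e16 := MO hf q20 q16 k369
                        have k404 : ¬ e17 ≤ e20 := L5 l19 k399 k400
                        have k425 : ¬ e9 ≤ e20 := N1 k404 k355
                        by_cases k430 : ∃ z, IsGLB ({e0, e20} : Set P) z
                        · obtain ⟨e21, g21⟩ := k430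
                          have c21 : Core e0 e21 := CM g21
                          have k433 : e21 ≤ e0 := G1 g21
                          have k434 : e21 ≤ e20 := G2 g21
                          have k442 : e21 ≤ e16 := le_trans k434 k403
                          have k456 : ¬ e9 ≤ e21 := N2 k425 k434
                          have k458 : ¬ e17 ≤ e21 := N1 k456 k294
                          have k465 : e21 ≤ e17 := G3 g17 k433 k442
                          exact HL _ _ _ _ _ _ c21 c17 c18 c19 c15 c2 (LT k465 k458) (LT k299 k339) (LT k396 k392) (LT k369 k381) (LT k230 k237)
                        · obtain ⟨e21, l21⟩ := (h1 e20).resolve_right k430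
                          have c21 : Core e0 e21 := CJ k430 l21
                          have k433 : e0 ≤ e21 := L1 l21
                          have k434 : e20 ≤ e21 := L2 l21
                          have k440 : e13 ≤ e21 := le_trans k399 k434
                          have k461 : e14 ≤ e21 := L3 l14 k433 k440
                          have k468 : e2 ≤ e21 := le_trans k220 k461
                          have k470 : e21 ≤ e2 := Classical.byContradiction fun hn => HL _ _ _ _ _ _ c9 c12 c19 c15 c2 c21 (LT k152 k172) (LT k395 k391) (LT k369 k381) (LT k230 k237) (LT k468 hn)
                          have k473 : e20 ≤ e2 := le_trans k434 k470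
                          obtain ⟨e22, l22⟩ := ZE h2 k402 k430 g4
                          have c22 : Core e0 e22 := CZ g4 k430 l22
                          have k479 : e4 ≤ e22 := L1 l22
                          have k480 : e20 ≤ e22 := L2 l22
                          have k481 : e22 ≤ e2 := L3 l22 k25 k473
                          have k482 : e22 ≤ e3 := L3 l22 k22 k402
                          have k489 : e13 ≤ e22 := le_trans k399 k480
                          have k490 : ¬ e0 ≤ e22 := N2 k15 k482
                          have k491 : ¬ e2 ≤ e22 := N1 k490 k6
                          have k515 : e15 ≤ e22 := L3 l15 k479 k489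
                          have k520 : e22 ≤ e15 := Classical.byContradiction fun hn => HL _ _ _ _ _ _ c9 c12 c19 c15 c22 c2 (LT k152 k172) (LT k395 k391) (LT k369 k381) (LT k515 hn) (LT k481 k491)
                          have k521 : e20 ≤ e15 := le_trans k480 k520
                          obtain ⟨e23, l23⟩ := ZE h2 k403 k430 g17
                          have c23 : Core e0 e23 := CZ g17 k430 l23
                          have k525 : e17 ≤ e23 := L1 l23
                          have k526 : e20 ≤ e23 := L2 l23
                          have k531 : e23 ≤ e15 := L3 l23 k348 k521
                          have k532 : e23 ≤ e16 := L3 l23 k293 k403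
                          have k537 : e13 ≤ e23 := le_trans k399 k526
                          have k544 : ¬ e4 ≤ e23 := N2 k268 k532
                          have k547 : ¬ e15 ≤ e23 := N1 k544 k228
                          have k562 : ¬ e23 ≤ e19 := N1 k401 k526
                          have k566 : e19 ≤ e23 := L3 l19 k525 k537
                          exact HL _ _ _ _ _ _ c9 c12 c19 c23 c15 c2 (LT k152 k172) (LT k395 k391) (LT k566 k562) (LT k531 k547) (LT k230 k237)
                      · obtain ⟨e17, l17⟩ := (h1 e16).resolve_right k287
                        have c17 : Core e0 e17 := CJ k287 l17
                        have k290 : e0 ≤ e17 := L1 l17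
                        have k291 : e16 ≤ e17 := L2 l17
                        have k295 : e5 ≤ e17 := le_trans k261 k291
                        have k314 : e6 ≤ e17 := L3 l6 k290 k295
                        have k320 : e2 ≤ e17 := le_trans k54 k314
                        have k321 : e17 ≤ e2 := Classical.byContradiction fun hn => HL _ _ _ _ _ _ c9 c12 c7 c15 c2 c17 (LT k152 k172) (LT k157 k165) (LT k254 k255) (LT k230 k237) (LT k320 hn)
                        have k327 : e16 ≤ e2 := le_trans k291 k321
                        obtain ⟨e18, l18⟩ := ZE h2 k267 k287 g4
                        have c18 : Core e0 e18 := CZ g4 k287 l18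
                        have k333 : e4 ≤ e18 := L1 l18
                        have k334 : e16 ≤ e18 := L2 l18
                        have k335 : e18 ≤ e2 := L3 l18 k25 k327
                        have k336 : e18 ≤ e3 := L3 l18 k22 k267
                        have k345 : e13 ≤ e18 := le_trans k264 k334
                        have k346 : ¬ e0 ≤ e18 := N2 k15 k336
                        have k347 : ¬ e2 ≤ e18 := N1 k346 k6
                        have k364 : ¬ e18 ≤ e15 := N1 k266 k334
                        have k368 : e15 ≤ e18 := L3 l15 k333 k345
                        exact HL _ _ _ _ _ _ c9 c12 c7 c15 c18 c2 (LT k152 k172) (LT k157 k165) (LT k254 k255) (LT k368 k364) (LT k335 k347)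
                  · have k223 : ¬ e13 ≤ e2 := L4 l14 k6 k221
                    have k228 : ¬ e13 ≤ e7 := N2 k223 k60
                    obtain ⟨e15, q15⟩ : ∃ y, f e14 = y := ⟨_, rfl⟩
                    have k234 : e3 ≤ e15 := MO hf q3 q15 k220
                    have k237 : e10 ≤ e15 := MO hf q10 q15 k200
                    have k238 : e13 ≤ e15 := MO hf q13 q15 k215
                    have k239 : ¬ e14 ≤ e15 := FA hF q15
                    have k240 : ¬ e15 ≤ e14 := FB hG q15
                    have k241 : ¬ e0 ≤ e15 := L5 l14 k238 k239
                    have k242 : e4 ≤ e15 := le_trans k22 k234
                    have k244 : e9 ≤ e15 := le_trans k94 k234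
                    by_cases k262 : ∃ z, IsGLB ({e0, e15} : Set P) z
                    · obtain ⟨e16, g16⟩ := k262
                      have c16 : Core e0 e16 := CM g16
                      obtain ⟨e17, l17⟩ := ZE h2 k237 k125 g16
                      have c17 : Core e0 e17 := CZ g16 k125 l17
                      have k267 : e16 ≤ e0 := G1 g16
                      have k268 : e16 ≤ e15 := G2 g16
                      have k269 : e4 ≤ e16 := G3 g16 k21 k242
                      have k270 : e9 ≤ e16 := G3 g16 k88 k244
                      have k276 : e16 ≤ e17 := L1 l17
                      have k277 : e10 ≤ e17 := L2 l17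
                      have k279 : e16 ≤ e2 := le_trans k267 k6
                      have k281 : e16 ≤ e14 := le_trans k267 k196
                      have k282 : e4 ≤ e17 := le_trans k269 k276
                      have k283 : e9 ≤ e17 := le_trans k270 k276
                      have k284 : ¬ e0 ≤ e16 := N2 k241 k268
                      have k303 : ¬ e17 ≤ e12 := N1 k164 k282
                      have k305 : ¬ e5 ≤ e16 := N2 k35 k267
                      have k306 : ¬ e7 ≤ e16 := N1 k305 k59
                      have k317 : e12 ≤ e17 := L3 l12 k283 k277
                      have k318 : e17 ≤ e2 := L3 l17 k279 k114
                      have k326 : ¬ e13 ≤ e17 := N2 k223 k318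
                      have k327 : e16 ≤ e4 := Classical.byContradiction fun hn => HL _ _ _ _ _ _ c9 c4 c16 c0 c2 c14 (LT k104 k100) (LT k269 hn) (LT k267 k284) (LT k6 k10) (LT k220 k221)
                      have k328 : e16 ≤ e3 := le_trans k327 k22
                      have k329 : e16 ≤ e7 := le_trans k327 k58
                      obtain ⟨e18, l18⟩ := ZE h2 k238 k193 g16
                      have c18 : Core e0 e18 := CZ g16 k193 l18
                      have k336 : e16 ≤ e18 := L1 l18
                      have k337 : e13 ≤ e18 := L2 l18
                      have k338 : e18 ≤ e3 := L3 l18 k328 k178
                      have k339 : e18 ≤ e14 := L3 l18 k281 k197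
                      have k341 : e10 ≤ e18 := le_trans k175 k337
                      have k342 : e4 ≤ e18 := le_trans k269 k336
                      have k343 : e9 ≤ e18 := le_trans k270 k336
                      have k344 : ¬ e0 ≤ e18 := N2 k15 k338
                      have k347 : ¬ e14 ≤ e18 := N1 k344 k196
                      have k360 : ¬ e18 ≤ e7 := N1 k228 k337
                      have k362 : ¬ e18 ≤ e17 := N1 k326 k337
                      have k365 : e11 ≤ e18 := L3 l11 k342 k341
                      have k366 : e12 ≤ e18 := L3 l12 k343 k341
                      have k367 : e17 ≤ e18 := L3 l17 k336 k341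
                      have k369 : e7 ≤ e18 := le_trans k148 k365
                      obtain ⟨e19, q19⟩ : ∃ y, f e18 = y := ⟨_, rfl⟩
                      have k372 : e8 ≤ e19 := MO hf q8 q19 k369
                      have k373 : e10 ≤ e19 := MO hf q10 q19 k343
                      have k374 : e13 ≤ e19 := MO hf q13 q19 k366
                      have k375 : ¬ e18 ≤ e19 := FA hF q19
                      have k376 : ¬ e19 ≤ e18 := FB hG q19
                      have k377 : e19 ≤ e15 := MO hf q19 q15 k339
                      have k378 : ¬ e16 ≤ e19 := L5 l18 k374 k375
                      have k379 : e9 ≤ e19 := le_trans k89 k372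
                      have k400 : ¬ e4 ≤ e19 := N1 k378 k327
                      by_cases k405 : ∃ z, IsGLB ({e0, e19} : Set P) z
                      · obtain ⟨e20, g20⟩ := k405
                        have c20 : Core e0 e20 := CM g20
                        obtain ⟨e21, l21⟩ := ZE h2 k373 k125 g20
                        have c21 : Core e0 e21 := CZ g20 k125 l21
                        have k410 : e20 ≤ e0 := G1 g20
                        have k411 : e20 ≤ e19 := G2 g20
                        have k412 : e9 ≤ e20 := G3 g20 k88 k379
                        have k422 : e20 ≤ e14 := le_trans k410 k196
                        have k423 : e20 ≤ e15 := le_trans k411 k377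
                        have k439 : ¬ e4 ≤ e20 := N2 k400 k411
                        have k443 : ¬ e16 ≤ e20 := N1 k439 k269
                        have k465 : e20 ≤ e16 := G3 g16 k410 k423
                        have k472 : e20 ≤ e4 := le_trans k465 k327
                        have k476 : e20 ≤ e18 := le_trans k465 k336
                        have k485 : e20 ≤ e9 := Classical.byContradiction fun hn => HL _ _ _ _ _ _ c9 c20 c16 c7 c2 c14 (LT k412 hn) (LT k465 k443) (LT k329 k306) (LT k60 k64) (LT k220 k221)
                        obtain ⟨e22, l22⟩ := ZE h2 k374 k193 g20
                        have c22 : Core e0 e22 := CZ g20 k193 l22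
                        have k492 : e20 ≤ e22 := L1 l22
                        have k493 : e13 ≤ e22 := L2 l22
                        have k496 : e22 ≤ e14 := L3 l22 k422 k197
                        have k498 : e22 ≤ e18 := L3 l22 k476 k337
                        have k500 : e10 ≤ e22 := le_trans k175 k493
                        have k501 : e9 ≤ e22 := le_trans k412 k492
                        have k527 : ¬ e22 ≤ e12 := N1 k177 k493
                        have k532 : e12 ≤ e22 := L3 l12 k501 k500
                        obtain ⟨e23, q23⟩ : ∃ y, f e22 = y := ⟨_, rfl⟩
                        have k536 : e13 ≤ e23 := MO hf q13 q23 k532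
                        have k537 : ¬ e22 ≤ e23 := FA hF q23
                        have k538 : ¬ e23 ≤ e22 := FB hG q23
                        have k539 : e23 ≤ e15 := MO hf q23 q15 k496
                        have k540 : e23 ≤ e19 := MO hf q23 q19 k498
                        have k541 : ¬ e20 ≤ e23 := L5 l22 k536 k537
                        have k570 : ¬ e9 ≤ e23 := N1 k541 k485
                        by_cases k575 : ∃ z, IsGLB ({e0, e23} : Set P) z
                        · obtain ⟨e24, g24⟩ := k575
                          have c24 : Core e0 e24 := CM g24
                          have k578 : e24 ≤ e0 := G1 g24
                          have k579 : e24 ≤ e23 := G2 g24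
                          have k587 : e24 ≤ e19 := le_trans k579 k540
                          have k604 : ¬ e9 ≤ e24 := N2 k570 k579
                          have k606 : ¬ e20 ≤ e24 := N1 k604 k412
                          have k613 : e24 ≤ e20 := G3 g20 k578 k587
                          exact HL _ _ _ _ _ _ c24 c20 c4 c0 c2 c14 (LT k613 k606) (LT k472 k439) (LT k21 k26) (LT k6 k10) (LT k220 k221)
                        · obtain ⟨e24, l24⟩ := (h1 e23).resolve_right k575
                          have c24 : Core e0 e24 := CJ k575 l24
                          have k578 : e0 ≤ e24 := L1 l24
                          have k579 : e23 ≤ e24 := L2 l24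
                          have k586 : e13 ≤ e24 := le_trans k536 k579
                          have k612 : e14 ≤ e24 := L3 l14 k578 k586
                          have k622 : e24 ≤ e14 := Classical.byContradiction fun hn => HL _ _ _ _ _ _ c9 c12 c17 c18 c14 c24 (LT k152 k172) (LT k317 k303) (LT k367 k362) (LT k339 k347) (LT k612 hn)
                          have k623 : e23 ≤ e14 := le_trans k579 k622
                          obtain ⟨e25, l25⟩ := ZE h2 k539 k575 g16
                          have c25 : Core e0 e25 := CZ g16 k575 l25
                          have k627 : e16 ≤ e25 := L1 l25
                          have k628 : e23 ≤ e25 := L2 l25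
                          have k629 : e25 ≤ e14 := L3 l25 k281 k623
                          have k630 : e25 ≤ e15 := L3 l25 k268 k539
                          have k636 : e13 ≤ e25 := le_trans k536 k628
                          have k637 : ¬ e0 ≤ e25 := N2 k241 k630
                          have k640 : ¬ e14 ≤ e25 := N1 k637 k196
                          have k667 : e18 ≤ e25 := L3 l18 k627 k636
                          have k672 : e25 ≤ e18 := Classical.byContradiction fun hn => HL _ _ _ _ _ _ c9 c12 c17 c18 c25 c14 (LT k152 k172) (LT k317 k303) (LT k367 k362) (LT k667 hn) (LT k629 k640)
                          have k675 : e23 ≤ e18 := le_trans k628 k672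
                          obtain ⟨e26, l26⟩ := ZE h2 k540 k575 g20
                          have c26 : Core e0 e26 := CZ g20 k575 l26
                          have k679 : e20 ≤ e26 := L1 l26
                          have k680 : e23 ≤ e26 := L2 l26
                          have k684 : e26 ≤ e18 := L3 l26 k476 k675
                          have k685 : e26 ≤ e19 := L3 l26 k411 k540
                          have k690 : e13 ≤ e26 := le_trans k536 k680
                          have k698 : ¬ e4 ≤ e26 := N2 k400 k685
                          have k703 : ¬ e18 ≤ e26 := N1 k698 k342
                          have k723 : ¬ e26 ≤ e22 := N1 k538 k680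
                          have k727 : e22 ≤ e26 := L3 l22 k679 k690
                          exact HL _ _ _ _ _ _ c9 c12 c22 c26 c18 c14 (LT k152 k172) (LT k532 k527) (LT k727 k723) (LT k684 k703) (LT k339 k347)
                      · obtain ⟨e20, l20⟩ := (h1 e19).resolve_right k405
                        have c20 : Core e0 e20 := CJ k405 l20
                        have k408 : e0 ≤ e20 := L1 l20
                        have k409 : e19 ≤ e20 := L2 l20
                        have k418 : e13 ≤ e20 := le_trans k374 k409
                        have k441 : e14 ≤ e20 := L3 l14 k408 k418
                        have k446 : e20 ≤ e14 := Classical.byContradiction fun hn => HL _ _ _ _ _ _ c9 c12 c17 c18 c14 c20 (LT k152 k172) (LT k317 k303) (LT k367 k362) (LT k339 k347) (LT k441 hn)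
                        have k448 : e19 ≤ e14 := le_trans k409 k446
                        obtain ⟨e21, l21⟩ := ZE h2 k377 k405 g16
                        have c21 : Core e0 e21 := CZ g16 k405 l21
                        have k452 : e16 ≤ e21 := L1 l21
                        have k453 : e19 ≤ e21 := L2 l21
                        have k454 : e21 ≤ e14 := L3 l21 k281 k448
                        have k455 : e21 ≤ e15 := L3 l21 k268 k377
                        have k463 : e13 ≤ e21 := le_trans k374 k453
                        have k464 : ¬ e0 ≤ e21 := N2 k241 k455
                        have k467 : ¬ e14 ≤ e21 := N1 k464 k196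
                        have k486 : ¬ e21 ≤ e18 := N1 k376 k453
                        have k491 : e18 ≤ e21 := L3 l18 k452 k463
                        exact HL _ _ _ _ _ _ c9 c4 c7 c18 c21 c14 (LT k104 k100) (LT k58 k70) (LT k369 k360) (LT k491 k486) (LT k454 k467)
                    · obtain ⟨e16, l16⟩ := (h1 e15).resolve_right k262
                      have c16 : Core e0 e16 := CJ k262 l16
                      have k265 : e0 ≤ e16 := L1 l16
                      have k266 : e15 ≤ e16 := L2 l16
                      have k278 : e13 ≤ e16 := le_trans k238 k266
                      have k294 : ¬ e16 ≤ e14 := N1 k240 k266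
                      have k297 : e14 ≤ e16 := L3 l14 k265 k278
                      exact HL _ _ _ _ _ _ c9 c4 c0 c2 c14 c16 (LT k104 k100) (LT k21 k26) (LT k6 k10) (LT k220 k221) (LT k297 k294)
              · have k149 : ¬ e5 ≤ e11 := L4 l7 k128 k148
                obtain ⟨e12, q12⟩ : ∃ y, f e11 = y := ⟨_, rfl⟩
                have k154 : e5 ≤ e12 := MO hf q5 q12 k128
                have k155 : e10 ≤ e12 := MO hf q10 q12 k134
                have k158 : e12 ≤ e3 := MO hf q12 q3 k130
                have k159 : e12 ≤ e8 := MO hf q12 q8 k133
                by_cases k170 : ∃ z, IsGLB ({e0, e12} : Set P) z
                · obtain ⟨e13, g13⟩ := k170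
                  have c13 : Core e0 e13 := CM g13
                  have k173 : e13 ≤ e0 := G1 g13
                  have k174 : e13 ≤ e12 := G2 g13
                  have k178 : e13 ≤ e2 := le_trans k173 k6
                  have k180 : e13 ≤ e3 := le_trans k174 k158
                  have k181 : e13 ≤ e8 := le_trans k174 k159
                  have k195 : e13 ≤ e4 := G3 g4 k173 k180
                  have k196 : e13 ≤ e9 := G3 g9 k173 k181
                  have k197 : e13 ≤ e7 := le_trans k195 k58
                  have k198 : e13 ≤ e11 := le_trans k195 k128
                  have k199 : e9 ≤ e13 := Classical.byContradiction fun hn => HL _ _ _ _ _ _ c13 c9 c4 c11 c7 c2 (LT k196 hn) (LT k104 k100) (LT k128 k146) (LT k133 k148) (LT k60 k64)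
                  have k200 : e9 ≤ e12 := le_trans k199 k174
                  obtain ⟨e14, l14⟩ := (h1 e10).resolve_right k125
                  have c14 : Core e0 e14 := CJ k125 l14
                  have k203 : e0 ≤ e14 := L1 l14
                  have k204 : e10 ≤ e14 := L2 l14
                  have k205 : e14 ≤ e2 := L3 l14 k6 k114
                  have k208 : e4 ≤ e14 := le_trans k21 k203
                  have k209 : e9 ≤ e14 := le_trans k88 k203
                  have k210 : e13 ≤ e14 := le_trans k173 k203
                  have k219 : ¬ e14 ≤ e11 := N1 k135 k203
                  have k223 : ¬ e14 ≤ e0 := N1 k113 k204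
                  have k224 : e11 ≤ e14 := L3 l11 k208 k204
                  by_cases k225 : e2 ≤ e14
                  · obtain ⟨e15, l15⟩ := ZE h2 k155 k125 g13
                    have c15 : Core e0 e15 := CZ g13 k125 l15
                    have k232 : e13 ≤ e15 := L1 l15
                    have k233 : e10 ≤ e15 := L2 l15
                    have k234 : e15 ≤ e2 := L3 l15 k178 k114
                    have k237 : e15 ≤ e7 := L3 l15 k197 k116
                    have k238 : e15 ≤ e8 := L3 l15 k181 k112
                    have k239 : e15 ≤ e11 := L3 l15 k198 k129
                    have k242 : e9 ≤ e15 := le_trans k199 k232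
                    have k249 : ¬ e4 ≤ e15 := N2 k77 k238
                    have k251 : ¬ e11 ≤ e15 := N1 k249 k128
                    have k259 : ¬ e15 ≤ e9 := N1 k108 k233
                    obtain ⟨e16, q16⟩ : ∃ y, f e15 = y := ⟨_, rfl⟩
                    have k263 : e10 ≤ e16 := MO hf q10 q16 k242
                    have k264 : ¬ e15 ≤ e16 := FA hF q16
                    have k265 : ¬ e16 ≤ e15 := FB hG q16
                    have k266 : e16 ≤ e3 := MO hf q16 q3 k234
                    have k267 : e16 ≤ e8 := MO hf q16 q8 k237
                    have k268 : e16 ≤ e12 := MO hf q16 q12 k239
                    have k269 : ¬ e13 ≤ e16 := L5 l15 k263 k264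
                    have k283 : ¬ e9 ≤ e16 := N1 k269 k196
                    by_cases k286 : ∃ z, IsGLB ({e0, e16} : Set P) z
                    · obtain ⟨e17, g17⟩ := k286
                      have c17 : Core e0 e17 := CM g17
                      have k289 : e17 ≤ e0 := G1 g17
                      have k290 : e17 ≤ e16 := G2 g17
                      have k297 : e17 ≤ e8 := le_trans k290 k267
                      have k311 : ¬ e9 ≤ e17 := N2 k283 k290
                      have k317 : e17 ≤ e9 := G3 g9 k289 k297
                      exact HL _ _ _ _ _ _ c17 c9 c15 c11 c7 c2 (LT k317 k311) (LT k242 k259) (LT k239 k251) (LT k133 k148) (LT k60 k64)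
                    · obtain ⟨e17, l17⟩ := (h1 e16).resolve_right k286
                      have c17 : Core e0 e17 := CJ k286 l17
                      have k289 : e0 ≤ e17 := L1 l17
                      have k290 : e16 ≤ e17 := L2 l17
                      have k295 : e10 ≤ e17 := le_trans k263 k290
                      have k311 : e14 ≤ e17 := L3 l14 k289 k295
                      have k314 : e2 ≤ e17 := le_trans k225 k311
                      have k318 : e17 ≤ e2 := Classical.byContradiction fun hn => HL _ _ _ _ _ _ c9 c15 c11 c7 c2 c17 (LT k242 k259) (LT k239 k251) (LT k133 k148) (LT k60 k64) (LT k314 hn)
                      have k321 : e16 ≤ e2 := le_trans k290 k318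
                      obtain ⟨e18, l18⟩ := ZE h2 k266 k286 g4
                      have c18 : Core e0 e18 := CZ g4 k286 l18
                      have k327 : e4 ≤ e18 := L1 l18
                      have k328 : e16 ≤ e18 := L2 l18
                      have k329 : e18 ≤ e2 := L3 l18 k25 k321
                      have k330 : e18 ≤ e3 := L3 l18 k22 k266
                      have k334 : e9 ≤ e18 := le_trans k104 k327
                      have k335 : e13 ≤ e18 := le_trans k195 k327
                      have k336 : e10 ≤ e18 := le_trans k263 k328
                      have k337 : ¬ e0 ≤ e18 := N2 k15 k330
                      have k338 : ¬ e2 ≤ e18 := N1 k337 k6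
                      have k355 : e11 ≤ e18 := L3 l11 k327 k336
                      have k356 : e15 ≤ e18 := L3 l15 k335 k336
                      by_cases k357 : e18 ≤ e11
                      · have k360 : e16 ≤ e11 := le_trans k328 k357
                        obtain ⟨e19, l19⟩ := ZE h2 k268 k286 g13
                        have c19 : Core e0 e19 := CZ g13 k286 l19
                        have k370 : e13 ≤ e19 := L1 l19
                        have k371 : e16 ≤ e19 := L2 l19
                        have k376 : e19 ≤ e8 := L3 l19 k181 k267
                        have k377 : e19 ≤ e11 := L3 l19 k198 k360
                        have k383 : e10 ≤ e19 := le_trans k263 k371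
                        have k391 : ¬ e4 ≤ e19 := N2 k77 k376
                        have k393 : ¬ e11 ≤ e19 := N1 k391 k128
                        have k405 : ¬ e19 ≤ e15 := N1 k265 k371
                        have k407 : e15 ≤ e19 := L3 l15 k370 k383
                        exact HL _ _ _ _ _ _ c9 c15 c19 c11 c7 c2 (LT k242 k259) (LT k407 k405) (LT k377 k393) (LT k133 k148) (LT k60 k64)
                      · have k358 : ¬ e16 ≤ e11 := L4 l18 k128 k357
                        obtain ⟨e19, q19⟩ : ∃ y, f e18 = y := ⟨_, rfl⟩
                        have k360 : e5 ≤ e19 := MO hf q5 q19 k327
                        have k361 : e10 ≤ e19 := MO hf q10 q19 k334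
                        have k362 : e12 ≤ e19 := MO hf q12 q19 k355
                        have k363 : e16 ≤ e19 := MO hf q16 q19 k356
                        have k364 : ¬ e18 ≤ e19 := FA hF q19
                        have k365 : ¬ e19 ≤ e18 := FB hG q19
                        have k366 : e19 ≤ e3 := MO hf q19 q3 k329
                        have k367 : ¬ e4 ≤ e19 := L5 l18 k363 k364
                        have k368 : e9 ≤ e19 := le_trans k200 k362
                        have k369 : e13 ≤ e19 := le_trans k174 k362
                        by_cases k388 : ∃ z, IsGLB ({e0, e19} : Set P) z
                        · obtain ⟨e20, g20⟩ := k388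
                          have c20 : Core e0 e20 := CM g20
                          obtain ⟨e21, l21⟩ := ZE h2 k361 k125 g20
                          have c21 : Core e0 e21 := CZ g20 k125 l21
                          have k393 : e20 ≤ e0 := G1 g20
                          have k394 : e20 ≤ e19 := G2 g20
                          have k395 : e9 ≤ e20 := G3 g20 k88 k368
                          have k396 : e13 ≤ e20 := G3 g20 k173 k369
                          have k401 : e20 ≤ e21 := L1 l21
                          have k402 : e10 ≤ e21 := L2 l21
                          have k404 : e20 ≤ e2 := le_trans k393 k6
                          have k408 : e20 ≤ e3 := le_trans k394 k366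
                          have k425 : ¬ e4 ≤ e20 := N2 k367 k394
                          have k441 : ¬ e10 ≤ e20 := N2 k113 k393
                          have k447 : ¬ e21 ≤ e20 := N1 k441 k402
                          have k448 : e20 ≤ e4 := G3 g4 k393 k408
                          have k456 : e20 ≤ e11 := le_trans k448 k128
                          have k457 : e20 ≤ e18 := le_trans k448 k327
                          have k459 : e21 ≤ e11 := L3 l21 k456 k129
                          have k466 : ¬ e16 ≤ e21 := N2 k358 k459
                          have k467 : e20 ≤ e9 := Classical.byContradiction fun hn => HL _ _ _ _ _ _ c9 c20 c4 c11 c7 c2 (LT k395 hn) (LT k448 k425) (LT k128 k146) (LT k133 k148) (LT k60 k64)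
                          have k468 : e20 ≤ e8 := le_trans k467 k89
                          obtain ⟨e22, l22⟩ := ZE h2 k363 k286 g20
                          have c22 : Core e0 e22 := CZ g20 k286 l22
                          have k477 : e20 ≤ e22 := L1 l22
                          have k478 : e16 ≤ e22 := L2 l22
                          have k479 : e22 ≤ e2 := L3 l22 k404 k321
                          have k482 : e22 ≤ e8 := L3 l22 k468 k267
                          have k486 : e22 ≤ e18 := L3 l22 k457 k328
                          have k488 : e10 ≤ e22 := le_trans k263 k478
                          have k489 : e9 ≤ e22 := le_trans k395 k477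
                          have k490 : e13 ≤ e22 := le_trans k396 k477
                          have k497 : ¬ e4 ≤ e22 := N2 k77 k482
                          have k500 : ¬ e18 ≤ e22 := N1 k497 k327
                          have k510 : ¬ e22 ≤ e15 := N1 k265 k478
                          have k511 : ¬ e22 ≤ e21 := N1 k466 k478
                          have k514 : e15 ≤ e22 := L3 l15 k490 k488
                          have k515 : e21 ≤ e22 := L3 l21 k477 k488
                          obtain ⟨e23, q23⟩ : ∃ y, f e22 = y := ⟨_, rfl⟩
                          have k517 : e10 ≤ e23 := MO hf q10 q23 k489
                          have k518 : e16 ≤ e23 := MO hf q16 q23 k514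
                          have k519 : ¬ e22 ≤ e23 := FA hF q23
                          have k520 : ¬ e23 ≤ e22 := FB hG q23
                          have k521 : e23 ≤ e3 := MO hf q23 q3 k479
                          have k522 : e23 ≤ e19 := MO hf q23 q19 k486
                          have k523 : ¬ e20 ≤ e23 := L5 l22 k518 k519
                          have k544 : ¬ e9 ≤ e23 := N1 k523 k467
                          by_cases k551 : ∃ z, IsGLB ({e0, e23} : Set P) z
                          · obtain ⟨e24, g24⟩ := k551
                            have c24 : Core e0 e24 := CM g24
                            have k554 : e24 ≤ e0 := G1 g24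
                            have k555 : e24 ≤ e23 := G2 g24
                            have k564 : e24 ≤ e19 := le_trans k555 k522
                            have k580 : ¬ e9 ≤ e24 := N2 k544 k555
                            have k583 : ¬ e20 ≤ e24 := N1 k580 k395
                            have k590 : e24 ≤ e20 := G3 g20 k554 k564
                            exact HL _ _ _ _ _ _ c24 c20 c21 c22 c18 c2 (LT k590 k583) (LT k401 k447) (LT k515 k511) (LT k486 k500) (LT k329 k338)
                          · obtain ⟨e24, l24⟩ := (h1 e23).resolve_right k551
                            have c24 : Core e0 e24 := CJ k551 l24
                            have k554 : e0 ≤ e24 := L1 l24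
                            have k555 : e23 ≤ e24 := L2 l24
                            have k561 : e10 ≤ e24 := le_trans k517 k555
                            have k584 : e14 ≤ e24 := L3 l14 k554 k561
                            have k591 : e2 ≤ e24 := le_trans k225 k584
                            have k595 : e24 ≤ e2 := Classical.byContradiction fun hn => HL _ _ _ _ _ _ c9 c15 c22 c18 c2 c24 (LT k242 k259) (LT k514 k510) (LT k486 k500) (LT k329 k338) (LT k591 hn)
                            have k599 : e23 ≤ e2 := le_trans k555 k595
                            obtain ⟨e25, l25⟩ := ZE h2 k521 k551 g4
                            have c25 : Core e0 e25 := CZ g4 k551 l25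
                            have k606 : e4 ≤ e25 := L1 l25
                            have k607 : e23 ≤ e25 := L2 l25
                            have k608 : e25 ≤ e2 := L3 l25 k25 k599
                            have k609 : e25 ≤ e3 := L3 l25 k22 k521
                            have k618 : e16 ≤ e25 := le_trans k518 k607
                            have k619 : ¬ e0 ≤ e25 := N2 k15 k609
                            have k620 : ¬ e2 ≤ e25 := N1 k619 k6
                            have k646 : e18 ≤ e25 := L3 l18 k606 k618
                            have k649 : e25 ≤ e18 := Classical.byContradiction fun hn => HL _ _ _ _ _ _ c9 c15 c22 c18 c25 c2 (LT k242 k259) (LT k514 k510) (LT k486 k500) (LT k646 hn) (LT k608 k620)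
                            have k650 : e23 ≤ e18 := le_trans k607 k649
                            obtain ⟨e26, l26⟩ := ZE h2 k522 k551 g20
                            have c26 : Core e0 e26 := CZ g20 k551 l26
                            have k654 : e20 ≤ e26 := L1 l26
                            have k655 : e23 ≤ e26 := L2 l26
                            have k661 : e26 ≤ e18 := L3 l26 k457 k650
                            have k662 : e26 ≤ e19 := L3 l26 k394 k522
                            have k668 : e16 ≤ e26 := le_trans k518 k655
                            have k676 : ¬ e4 ≤ e26 := N2 k367 k662
                            have k679 : ¬ e18 ≤ e26 := N1 k676 k327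
                            have k694 : ¬ e26 ≤ e22 := N1 k520 k655
                            have k698 : e22 ≤ e26 := L3 l22 k654 k668
                            exact HL _ _ _ _ _ _ c9 c15 c22 c26 c18 c2 (LT k242 k259) (LT k514 k510) (LT k698 k694) (LT k661 k679) (LT k329 k338)
                        · obtain ⟨e20, l20⟩ := (h1 e19).resolve_right k388
                          have c20 : Core e0 e20 := CJ k388 l20
                          have k391 : e0 ≤ e20 := L1 l20
                          have k392 : e19 ≤ e20 := L2 l20
                          have k397 : e5 ≤ e20 := le_trans k360 k392
                          have k418 : e6 ≤ e20 := L3 l6 k391 k397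
                          have k425 : e2 ≤ e20 := le_trans k54 k418
                          have k426 : e20 ≤ e2 := Classical.byContradiction fun hn => HL _ _ _ _ _ _ c9 c15 c11 c18 c2 c20 (LT k242 k259) (LT k239 k251) (LT k355 k357) (LT k329 k338) (LT k425 hn)
                          have k434 : e19 ≤ e2 := le_trans k392 k426
                          obtain ⟨e21, l21⟩ := ZE h2 k366 k388 g4
                          have c21 : Core e0 e21 := CZ g4 k388 l21
                          have k441 : e4 ≤ e21 := L1 l21
                          have k442 : e19 ≤ e21 := L2 l21
                          have k443 : e21 ≤ e2 := L3 l21 k25 k434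
                          have k444 : e21 ≤ e3 := L3 l21 k22 k366
                          have k455 : e16 ≤ e21 := le_trans k363 k442
                          have k456 : ¬ e0 ≤ e21 := N2 k15 k444
                          have k457 : ¬ e2 ≤ e21 := N1 k456 k6
                          have k476 : ¬ e21 ≤ e18 := N1 k365 k442
                          have k480 : e18 ≤ e21 := L3 l18 k441 k455
                          exact HL _ _ _ _ _ _ c9 c15 c11 c18 c21 c2 (LT k242 k259) (LT k239 k251) (LT k355 k357) (LT k480 k476) (LT k443 k457)
                  · have k226 : ¬ e6 ≤ e14 := N1 k225 k54
                    have k228 : ¬ e5 ≤ e14 := L4 l6 k203 k226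
                    obtain ⟨e15, q15⟩ : ∃ y, f e14 = y := ⟨_, rfl⟩
                    have k233 : e1 ≤ e15 := MO hf q1 q15 k203
                    have k235 : e10 ≤ e15 := MO hf q10 q15 k209
                    have k236 : e12 ≤ e15 := MO hf q12 q15 k224
                    have k239 : e15 ≤ e3 := MO hf q15 q3 k205
                    have k241 : e9 ≤ e15 := le_trans k200 k236
                    by_cases k252 : ∃ z, IsGLB ({e0, e15} : Set P) z
                    · obtain ⟨e16, g16⟩ := k252
                      have c16 : Core e0 e16 := CM g16
                      have k255 : e16 ≤ e0 := G1 g16
                      have k256 : e16 ≤ e15 := G2 g16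
                      have k257 : e9 ≤ e16 := G3 g16 k88 k241
                      have k259 : ¬ e16 ≤ e1 := BN3 g16 k3 k233
                      have k263 : e16 ≤ e2 := le_trans k255 k6
                      have k265 : e16 ≤ e14 := le_trans k255 k203
                      have k266 : e16 ≤ e3 := le_trans k256 k239
                      have k267 : ¬ e0 ≤ e16 := N2 k15 k266
                      have k278 : ¬ e10 ≤ e16 := N2 k113 k255
                      have k279 : ¬ e11 ≤ e16 := N1 k278 k129
                      have k281 : e16 ≤ e4 := G3 g4 k255 k266
                      have k282 : e16 ≤ e7 := le_trans k281 k58
                      have k283 : e16 ≤ e11 := le_trans k281 k128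
                      by_cases k284 : e16 ≤ e9
                      · have k285 : e16 ≤ e8 := le_trans k284 k89
                        have k286 : e16 ≤ e12 := le_trans k284 k200
                        have k288 : ¬ e4 ≤ e16 := N2 k77 k285
                        have k290 : ¬ e9 ≤ e1 := N1 k259 k284
                        obtain ⟨e17, l17⟩ := ZE h2 k235 k125 g16
                        have c17 : Core e0 e17 := CZ g16 k125 l17
                        have k299 : e16 ≤ e17 := L1 l17
                        have k300 : e10 ≤ e17 := L2 l17
                        have k301 : e17 ≤ e2 := L3 l17 k263 k114
                        have k302 : e17 ≤ e3 := L3 l17 k266 k110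
                        have k304 : e17 ≤ e7 := L3 l17 k282 k116
                        have k305 : e17 ≤ e8 := L3 l17 k285 k112
                        have k306 : e17 ≤ e11 := L3 l17 k283 k129
                        have k308 : e17 ≤ e14 := L3 l17 k265 k204
                        have k310 : e9 ≤ e17 := le_trans k257 k299
                        have k319 : ¬ e4 ≤ e17 := N2 k77 k305
                        have k321 : ¬ e11 ≤ e17 := N1 k319 k128
                        have k330 : ¬ e17 ≤ e9 := N1 k108 k300
                        obtain ⟨e18, q18⟩ : ∃ y, f e17 = y := ⟨_, rfl⟩
                        have k335 : e10 ≤ e18 := MO hf q10 q18 k310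
                        have k336 : ¬ e17 ≤ e18 := FA hF q18
                        have k337 : ¬ e18 ≤ e17 := FB hG q18
                        have k338 : e18 ≤ e3 := MO hf q18 q3 k301
                        have k339 : e18 ≤ e8 := MO hf q18 q8 k304
                        have k341 : e18 ≤ e15 := MO hf q18 q15 k308
                        have k342 : ¬ e16 ≤ e18 := L5 l17 k335 k336
                        have k357 : ¬ e9 ≤ e18 := N1 k342 k284
                        by_cases k362 : ∃ z, IsGLB ({e0, e18} : Set P) z
                        · obtain ⟨e19, g19⟩ := k362
                          have c19 : Core e0 e19 := CM g19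
                          have k365 : e19 ≤ e0 := G1 g19
                          have k366 : e19 ≤ e18 := G2 g19
                          have k373 : e19 ≤ e8 := le_trans k366 k339
                          have k389 : ¬ e9 ≤ e19 := N2 k357 k366
                          have k396 : e19 ≤ e9 := G3 g9 k365 k373
                          exact HL _ _ _ _ _ _ c19 c9 c4 c0 c14 c2 (LT k396 k389) (LT k104 k100) (LT k21 k26) (LT k203 k223) (LT k205 k225)
                        · obtain ⟨e19, l19⟩ := (h1 e18).resolve_right k362
                          have c19 : Core e0 e19 := CJ k362 l19
                          have k365 : e0 ≤ e19 := L1 l19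
                          have k366 : e18 ≤ e19 := L2 l19
                          have k368 : e4 ≤ e19 := le_trans k21 k365
                          have k369 : e9 ≤ e19 := le_trans k88 k365
                          have k371 : e16 ≤ e19 := le_trans k255 k365
                          have k372 : e10 ≤ e19 := le_trans k335 k366
                          have k389 : e11 ≤ e19 := L3 l11 k368 k372
                          have k390 : e14 ≤ e19 := L3 l14 k365 k372
                          have k391 : e17 ≤ e19 := L3 l17 k371 k372
                          by_cases k392 : e19 ≤ e14
                          · have k393 : e19 ≤ e2 := le_trans k392 k205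
                            have k395 : e18 ≤ e2 := le_trans k366 k393
                            have k397 : e18 ≤ e14 := le_trans k366 k392
                            obtain ⟨e20, l20⟩ := ZE h2 k341 k362 g16
                            have c20 : Core e0 e20 := CZ g16 k362 l20
                            have k411 : e16 ≤ e20 := L1 l20
                            have k412 : e18 ≤ e20 := L2 l20
                            have k413 : e20 ≤ e2 := L3 l20 k263 k395
                            have k414 : e20 ≤ e3 := L3 l20 k266 k338
                            have k416 : e20 ≤ e8 := L3 l20 k285 k339
                            have k418 : e20 ≤ e14 := L3 l20 k265 k397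
                            have k421 : e9 ≤ e20 := le_trans k257 k411
                            have k423 : e10 ≤ e20 := le_trans k335 k412
                            have k447 : ¬ e20 ≤ e17 := N1 k337 k412
                            have k449 : e17 ≤ e20 := L3 l17 k411 k423
                            obtain ⟨e21, q21⟩ : ∃ y, f e20 = y := ⟨_, rfl⟩
                            have k451 : e10 ≤ e21 := MO hf q10 q21 k421
                            have k452 : e18 ≤ e21 := MO hf q18 q21 k449
                            have k453 : ¬ e20 ≤ e21 := FA hF q21
                            have k454 : ¬ e21 ≤ e20 := FB hG q21
                            have k455 : e21 ≤ e3 := MO hf q21 q3 k413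
                            have k456 : e21 ≤ e15 := MO hf q21 q15 k418
                            have k457 : ¬ e16 ≤ e21 := L5 l20 k452 k453
                            have k473 : ¬ e9 ≤ e21 := N1 k457 k284
                            by_cases k481 : ∃ z, IsGLB ({e0, e21} : Set P) z
                            · obtain ⟨e22, g22⟩ := k481
                              have c22 : Core e0 e22 := CM g22
                              have k484 : e22 ≤ e0 := G1 g22
                              have k485 : e22 ≤ e21 := G2 g22
                              have k494 : e22 ≤ e15 := le_trans k485 k456
                              have k509 : ¬ e9 ≤ e22 := N2 k473 k485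
                              have k511 : ¬ e16 ≤ e22 := N1 k509 k257
                              have k518 : e22 ≤ e16 := G3 g16 k484 k494
                              exact HL _ _ _ _ _ _ c22 c16 c4 c0 c14 c2 (LT k518 k511) (LT k281 k288) (LT k21 k26) (LT k203 k223) (LT k205 k225)
                            · obtain ⟨e22, l22⟩ := (h1 e21).resolve_right k481
                              have c22 : Core e0 e22 := CJ k481 l22
                              have k484 : e0 ≤ e22 := L1 l22
                              have k485 : e21 ≤ e22 := L2 l22
                              have k487 : e4 ≤ e22 := le_trans k21 k484
                              have k488 : e9 ≤ e22 := le_trans k88 k484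
                              have k490 : e16 ≤ e22 := le_trans k255 k484
                              have k491 : e10 ≤ e22 := le_trans k451 k485
                              have k492 : e18 ≤ e22 := le_trans k452 k485
                              have k511 : e11 ≤ e22 := L3 l11 k487 k491
                              have k512 : e14 ≤ e22 := L3 l14 k484 k491
                              have k513 : e17 ≤ e22 := L3 l17 k490 k491
                              have k515 : e20 ≤ e22 := L3 l20 k490 k492
                              by_cases k516 : e22 ≤ e14
                              · have k522 : e21 ≤ e14 := le_trans k485 k516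
                                obtain ⟨e23, l23⟩ := ZE h2 k456 k481 g16
                                have c23 : Core e0 e23 := CZ g16 k481 l23
                                have k537 : e16 ≤ e23 := L1 l23
                                have k538 : e21 ≤ e23 := L2 l23
                                have k540 : e23 ≤ e3 := L3 l23 k266 k455
                                have k542 : e23 ≤ e14 := L3 l23 k265 k522
                                have k549 : e18 ≤ e23 := le_trans k452 k538
                                have k550 : ¬ e0 ≤ e23 := N2 k15 k540
                                have k553 : ¬ e14 ≤ e23 := N1 k550 k203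
                                have k576 : ¬ e23 ≤ e20 := N1 k454 k538
                                have k579 : e20 ≤ e23 := L3 l20 k537 k549
                                exact HL _ _ _ _ _ _ c9 c17 c20 c23 c14 c2 (LT k310 k330) (LT k449 k447) (LT k579 k576) (LT k542 k553) (LT k205 k225)
                              · obtain ⟨e23, q23⟩ : ∃ y, f e22 = y := ⟨_, rfl⟩
                                have k524 : e10 ≤ e23 := MO hf q10 q23 k488
                                have k525 : e12 ≤ e23 := MO hf q12 q23 k511
                                have k527 : e18 ≤ e23 := MO hf q18 q23 k513
                                have k528 : e21 ≤ e23 := MO hf q21 q23 k515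
                                have k529 : ¬ e22 ≤ e23 := FA hF q23
                                have k530 : ¬ e23 ≤ e22 := FB hG q23
                                have k531 : ¬ e0 ≤ e23 := L5 l22 k528 k529
                                have k532 : e9 ≤ e23 := le_trans k200 k525
                                have k534 : e16 ≤ e23 := le_trans k286 k525
                                by_cases k556 : ∃ z, IsGLB ({e0, e23} : Set P) z
                                · obtain ⟨e24, g24⟩ := k556
                                  have c24 : Core e0 e24 := CM g24
                                  obtain ⟨e25, l25⟩ := ZE h2 k527 k362 g24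
                                  have c25 : Core e0 e25 := CZ g24 k362 l25
                                  have k561 : e24 ≤ e0 := G1 g24
                                  have k562 : e24 ≤ e23 := G2 g24
                                  have k563 : e9 ≤ e24 := G3 g24 k88 k532
                                  have k565 : e16 ≤ e24 := G3 g24 k255 k534
                                  have k572 : e24 ≤ e25 := L1 l25
                                  have k573 : e18 ≤ e25 := L2 l25
                                  have k574 : e25 ≤ e23 := L3 l25 k562 k527
                                  have k577 : e24 ≤ e14 := le_trans k561 k203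
                                  have k579 : e24 ≤ e22 := le_trans k561 k484
                                  have k583 : e16 ≤ e25 := le_trans k565 k572
                                  have k585 : ¬ e0 ≤ e25 := N2 k531 k574
                                  have k593 : ¬ e14 ≤ e25 := N1 k585 k203
                                  have k624 : e20 ≤ e25 := L3 l20 k583 k573
                                  have k627 : e25 ≤ e14 := L3 l25 k577 k397
                                  have k639 : e25 ≤ e20 := Classical.byContradiction fun hn => HL _ _ _ _ _ _ c9 c17 c20 c25 c14 c2 (LT k310 k330) (LT k449 k447) (LT k624 hn) (LT k627 k593) (LT k205 k225)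
                                  have k640 : e25 ≤ e3 := le_trans k639 k414
                                  have k641 : e25 ≤ e8 := le_trans k639 k416
                                  have k644 : e24 ≤ e3 := le_trans k572 k640
                                  have k645 : e24 ≤ e8 := le_trans k572 k641
                                  have k648 : e24 ≤ e20 := le_trans k572 k639
                                  have k649 : ¬ e4 ≤ e24 := N2 k77 k645
                                  have k652 : e24 ≤ e4 := G3 g4 k561 k644
                                  have k653 : e24 ≤ e9 := G3 g9 k561 k645
                                  have k659 : e24 ≤ e17 := le_trans k653 k310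
                                  obtain ⟨e26, l26⟩ := ZE h2 k524 k125 g24
                                  have c26 : Core e0 e26 := CZ g24 k125 l26
                                  have k676 : e24 ≤ e26 := L1 l26
                                  have k677 : e10 ≤ e26 := L2 l26
                                  have k687 : e26 ≤ e17 := L3 l26 k659 k300
                                  have k689 : e26 ≤ e20 := L3 l26 k648 k423
                                  have k693 : e9 ≤ e26 := le_trans k563 k676
                                  have k719 : ¬ e26 ≤ e9 := N1 k108 k677
                                  have k723 : ¬ e18 ≤ e26 := N2 k337 k687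
                                  have k724 : ¬ e20 ≤ e26 := N1 k723 k412
                                  obtain ⟨e27, l27⟩ := ZE h2 k528 k481 g24
                                  have c27 : Core e0 e27 := CZ g24 k481 l27
                                  have k731 : e24 ≤ e27 := L1 l27
                                  have k732 : e21 ≤ e27 := L2 l27
                                  have k733 : e27 ≤ e3 := L3 l27 k644 k455
                                  have k735 : e27 ≤ e22 := L3 l27 k579 k485
                                  have k738 : e18 ≤ e27 := le_trans k452 k732
                                  have k741 : e16 ≤ e27 := le_trans k565 k731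
                                  have k742 : ¬ e0 ≤ e27 := N2 k15 k733
                                  have k747 : ¬ e22 ≤ e27 := N1 k742 k484
                                  have k774 : ¬ e27 ≤ e20 := N1 k454 k732
                                  have k778 : e20 ≤ e27 := L3 l20 k741 k738
                                  obtain ⟨e28, q28⟩ : ∃ y, f e27 = y := ⟨_, rfl⟩
                                  have k784 : e21 ≤ e28 := MO hf q21 q28 k778
                                  have k785 : ¬ e27 ≤ e28 := FA hF q28
                                  have k786 : ¬ e28 ≤ e27 := FB hG q28
                                  have k787 : e28 ≤ e23 := MO hf q28 q23 k735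
                                  have k788 : ¬ e24 ≤ e28 := L5 l27 k784 k785
                                  have k815 : ¬ e9 ≤ e28 := N1 k788 k653
                                  by_cases k826 : ∃ z, IsGLB ({e0, e28} : Set P) z
                                  · obtain ⟨e29, g29⟩ := k826
                                    have c29 : Core e0 e29 := CM g29
                                    have k829 : e29 ≤ e0 := G1 g29
                                    have k830 : e29 ≤ e28 := G2 g29
                                    have k840 : e29 ≤ e23 := le_trans k830 k787
                                    have k857 : ¬ e9 ≤ e29 := N2 k815 k830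
                                    have k862 : ¬ e24 ≤ e29 := N1 k857 k563
                                    have k870 : e29 ≤ e24 := G3 g24 k829 k840
                                    exact HL _ _ _ _ _ _ c29 c24 c4 c0 c14 c2 (LT k870 k862) (LT k652 k649) (LT k21 k26) (LT k203 k223) (LT k205 k225)
                                  · obtain ⟨e29, l29⟩ := (h1 e28).resolve_right k826
                                    have c29 : Core e0 e29 := CJ k826 l29
                                    have k829 : e0 ≤ e29 := L1 l29
                                    have k830 : e28 ≤ e29 := L2 l29
                                    have k839 : e21 ≤ e29 := le_trans k784 k830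
                                    have k871 : e22 ≤ e29 := L3 l22 k829 k839
                                    have k875 : e29 ≤ e22 := Classical.byContradiction fun hn => HL _ _ _ _ _ _ c9 c17 c20 c27 c22 c29 (LT k310 k330) (LT k449 k447) (LT k778 k774) (LT k735 k747) (LT k871 hn)
                                    have k876 : e28 ≤ e22 := le_trans k830 k875
                                    obtain ⟨e30, l30⟩ := ZE h2 k787 k826 g24
                                    have c30 : Core e0 e30 := CZ g24 k826 l30
                                    have k891 : e24 ≤ e30 := L1 l30
                                    have k892 : e28 ≤ e30 := L2 l30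
                                    have k893 : e30 ≤ e22 := L3 l30 k579 k876
                                    have k894 : e30 ≤ e23 := L3 l30 k562 k787
                                    have k901 : e21 ≤ e30 := le_trans k784 k892
                                    have k902 : ¬ e0 ≤ e30 := N2 k531 k894
                                    have k907 : ¬ e22 ≤ e30 := N1 k902 k484
                                    have k938 : ¬ e30 ≤ e27 := N1 k786 k892
                                    have k944 : e27 ≤ e30 := L3 l27 k891 k901
                                    exact HL _ _ _ _ _ _ c9 c26 c20 c27 c30 c22 (LT k693 k719) (LT k689 k724) (LT k778 k774) (LT k944 k938) (LT k893 k907)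
                                · obtain ⟨e24, l24⟩ := (h1 e23).resolve_right k556
                                  have c24 : Core e0 e24 := CJ k556 l24
                                  have k559 : e0 ≤ e24 := L1 l24
                                  have k560 : e23 ≤ e24 := L2 l24
                                  have k574 : e21 ≤ e24 := le_trans k528 k560
                                  have k596 : ¬ e24 ≤ e22 := N1 k530 k560
                                  have k603 : e22 ≤ e24 := L3 l22 k559 k574
                                  exact HL _ _ _ _ _ _ c9 c4 c0 c14 c22 c24 (LT k104 k100) (LT k21 k26) (LT k203 k223) (LT k512 k516) (LT k603 k596)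
                          · have k393 : ¬ e18 ≤ e14 := L4 l19 k203 k392
                            obtain ⟨e20, q20⟩ : ∃ y, f e19 = y := ⟨_, rfl⟩
                            have k398 : e10 ≤ e20 := MO hf q10 q20 k369
                            have k399 : e12 ≤ e20 := MO hf q12 q20 k389
                            have k401 : e18 ≤ e20 := MO hf q18 q20 k391
                            have k402 : ¬ e19 ≤ e20 := FA hF q20
                            have k403 : ¬ e20 ≤ e19 := FB hG q20
                            have k404 : ¬ e0 ≤ e20 := L5 l19 k401 k402
                            have k405 : e9 ≤ e20 := le_trans k200 k399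
                            have k407 : e16 ≤ e20 := le_trans k286 k399
                            by_cases k424 : ∃ z, IsGLB ({e0, e20} : Set P) z
                            · obtain ⟨e21, g21⟩ := k424
                              have c21 : Core e0 e21 := CM g21
                              obtain ⟨e22, l22⟩ := ZE h2 k398 k125 g21
                              have c22 : Core e0 e22 := CZ g21 k125 l22
                              have k429 : e21 ≤ e0 := G1 g21
                              have k430 : e21 ≤ e20 := G2 g21
                              have k431 : e9 ≤ e21 := G3 g21 k88 k405
                              have k433 : e16 ≤ e21 := G3 g21 k255 k407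
                              have k439 : e21 ≤ e22 := L1 l22
                              have k440 : e10 ≤ e22 := L2 l22
                              have k441 : e22 ≤ e20 := L3 l22 k430 k398
                              have k444 : e21 ≤ e14 := le_trans k429 k203
                              have k445 : e21 ≤ e19 := le_trans k429 k365
                              have k446 : e9 ≤ e22 := le_trans k431 k439
                              have k448 : e16 ≤ e22 := le_trans k433 k439
                              have k449 : ¬ e0 ≤ e21 := N2 k404 k430
                              have k450 : ¬ e0 ≤ e22 := N2 k404 k441
                              have k457 : ¬ e14 ≤ e22 := N1 k450 k203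
                              have k482 : e17 ≤ e22 := L3 l17 k448 k440
                              have k485 : e22 ≤ e14 := L3 l22 k444 k204
                              have k486 : e22 ≤ e19 := L3 l22 k445 k372
                              have k495 : ¬ e18 ≤ e22 := N2 k393 k485
                              by_cases k496 : e22 ≤ e17
                              · have k497 : e22 ≤ e3 := le_trans k496 k302
                                have k499 : e22 ≤ e8 := le_trans k496 k305
                                have k503 : e21 ≤ e3 := le_trans k439 k497
                                have k505 : e21 ≤ e8 := le_trans k439 k499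
                                have k510 : ¬ e4 ≤ e21 := N2 k77 k505
                                have k513 : e21 ≤ e4 := G3 g4 k429 k503
                                have k514 : e21 ≤ e9 := G3 g9 k429 k505
                                obtain ⟨e23, l23⟩ := ZE h2 k401 k362 g21
                                have c23 : Core e0 e23 := CZ g21 k362 l23
                                have k534 : e21 ≤ e23 := L1 l23
                                have k535 : e18 ≤ e23 := L2 l23
                                have k540 : e23 ≤ e19 := L3 l23 k445 k366
                                have k542 : e10 ≤ e23 := le_trans k335 k535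
                                have k543 : e9 ≤ e23 := le_trans k431 k534
                                have k545 : e16 ≤ e23 := le_trans k433 k534
                                have k573 : ¬ e23 ≤ e17 := N1 k337 k535
                                have k576 : e17 ≤ e23 := L3 l17 k545 k542
                                obtain ⟨e24, q24⟩ : ∃ y, f e23 = y := ⟨_, rfl⟩
                                have k579 : e10 ≤ e24 := MO hf q10 q24 k543
                                have k580 : e18 ≤ e24 := MO hf q18 q24 k576
                                have k581 : ¬ e23 ≤ e24 := FA hF q24
                                have k582 : ¬ e24 ≤ e23 := FB hG q24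
                                have k583 : e24 ≤ e20 := MO hf q24 q20 k540
                                have k584 : ¬ e21 ≤ e24 := L5 l23 k580 k581
                                have k606 : ¬ e9 ≤ e24 := N1 k584 k514
                                by_cases k615 : ∃ z, IsGLB ({e0, e24} : Set P) z
                                · obtain ⟨e25, g25⟩ := k615
                                  have c25 : Core e0 e25 := CM g25
                                  have k618 : e25 ≤ e0 := G1 g25
                                  have k619 : e25 ≤ e24 := G2 g25
                                  have k627 : e25 ≤ e20 := le_trans k619 k583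
                                  have k643 : ¬ e9 ≤ e25 := N2 k606 k619
                                  have k647 : ¬ e21 ≤ e25 := N1 k643 k431
                                  have k653 : e25 ≤ e21 := G3 g21 k618 k627
                                  exact HL _ _ _ _ _ _ c25 c21 c4 c0 c14 c2 (LT k653 k647) (LT k513 k510) (LT k21 k26) (LT k203 k223) (LT k205 k225)
                                · obtain ⟨e25, l25⟩ := (h1 e24).resolve_right k615
                                  have c25 : Core e0 e25 := CJ k615 l25
                                  have k618 : e0 ≤ e25 := L1 l25
                                  have k619 : e24 ≤ e25 := L2 l25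
                                  have k627 : e18 ≤ e25 := le_trans k580 k619
                                  have k653 : e19 ≤ e25 := L3 l19 k618 k627
                                  have k656 : e25 ≤ e19 := Classical.byContradiction fun hn => HL _ _ _ _ _ _ c9 c17 c11 c14 c19 c25 (LT k310 k330) (LT k306 k321) (LT k224 k219) (LT k390 k392) (LT k653 hn)
                                  have k657 : e24 ≤ e19 := le_trans k619 k656
                                  obtain ⟨e26, l26⟩ := ZE h2 k583 k615 g21
                                  have c26 : Core e0 e26 := CZ g21 k615 l26
                                  have k672 : e21 ≤ e26 := L1 l26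
                                  have k673 : e24 ≤ e26 := L2 l26
                                  have k674 : e26 ≤ e19 := L3 l26 k445 k657
                                  have k675 : e26 ≤ e20 := L3 l26 k430 k583
                                  have k679 : e16 ≤ e26 := le_trans k433 k672
                                  have k680 : e10 ≤ e26 := le_trans k579 k673
                                  have k681 : e18 ≤ e26 := le_trans k580 k673
                                  have k682 : ¬ e0 ≤ e26 := N2 k404 k675
                                  have k686 : ¬ e19 ≤ e26 := N1 k682 k365
                                  have k713 : ¬ e26 ≤ e23 := N1 k582 k673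
                                  have k715 : e17 ≤ e26 := L3 l17 k679 k680
                                  have k717 : e23 ≤ e26 := L3 l23 k672 k681
                                  obtain ⟨e27, q27⟩ : ∃ y, f e26 = y := ⟨_, rfl⟩
                                  have k720 : e18 ≤ e27 := MO hf q18 q27 k715
                                  have k721 : e24 ≤ e27 := MO hf q24 q27 k717
                                  have k722 : ¬ e26 ≤ e27 := FA hF q27
                                  have k723 : ¬ e27 ≤ e26 := FB hG q27
                                  have k724 : e27 ≤ e20 := MO hf q27 q20 k674
                                  have k725 : ¬ e21 ≤ e27 := L5 l26 k721 k722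
                                  have k748 : ¬ e9 ≤ e27 := N1 k725 k514
                                  by_cases k760 : ∃ z, IsGLB ({e0, e27} : Set P) z
                                  · obtain ⟨e28, g28⟩ := k760
                                    have c28 : Core e0 e28 := CM g28
                                    have k763 : e28 ≤ e0 := G1 g28
                                    have k764 : e28 ≤ e27 := G2 g28
                                    have k774 : e28 ≤ e20 := le_trans k764 k724
                                    have k791 : ¬ e9 ≤ e28 := N2 k748 k764
                                    have k795 : ¬ e21 ≤ e28 := N1 k791 k431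
                                    have k803 : e28 ≤ e21 := G3 g21 k763 k774
                                    exact HL _ _ _ _ _ _ c28 c21 c4 c0 c14 c2 (LT k803 k795) (LT k513 k510) (LT k21 k26) (LT k203 k223) (LT k205 k225)
                                  · obtain ⟨e28, l28⟩ := (h1 e27).resolve_right k760
                                    have c28 : Core e0 e28 := CJ k760 l28
                                    have k763 : e0 ≤ e28 := L1 l28
                                    have k764 : e27 ≤ e28 := L2 l28
                                    have k772 : e18 ≤ e28 := le_trans k720 k764
                                    have k801 : e19 ≤ e28 := L3 l19 k763 k772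
                                    have k806 : e28 ≤ e19 := Classical.byContradiction fun hn => HL _ _ _ _ _ _ c9 c17 c23 c26 c19 c28 (LT k310 k330) (LT k576 k573) (LT k717 k713) (LT k674 k686) (LT k801 hn)
                                    have k808 : e27 ≤ e19 := le_trans k764 k806
                                    obtain ⟨e29, l29⟩ := ZE h2 k724 k760 g21
                                    have c29 : Core e0 e29 := CZ g21 k760 l29
                                    have k824 : e21 ≤ e29 := L1 l29
                                    have k825 : e27 ≤ e29 := L2 l29
                                    have k826 : e29 ≤ e19 := L3 l29 k445 k808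
                                    have k827 : e29 ≤ e20 := L3 l29 k430 k724
                                    have k835 : e24 ≤ e29 := le_trans k721 k825
                                    have k836 : ¬ e0 ≤ e29 := N2 k404 k827
                                    have k840 : ¬ e19 ≤ e29 := N1 k836 k365
                                    have k870 : ¬ e29 ≤ e26 := N1 k723 k825
                                    have k875 : e26 ≤ e29 := L3 l26 k824 k835
                                    exact HL _ _ _ _ _ _ c9 c17 c23 c26 c29 c19 (LT k310 k330) (LT k576 k573) (LT k717 k713) (LT k875 k870) (LT k826 k840)
                              · have k497 : ¬ e21 ≤ e17 := L5 l22 k300 k496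
                                have k498 : ¬ e21 ≤ e9 := N2 k497 k310
                                have k500 : ¬ e21 ≤ e16 := N2 k497 k299
                                obtain ⟨e23, q23⟩ : ∃ y, f e22 = y := ⟨_, rfl⟩
                                have k511 : e10 ≤ e23 := MO hf q10 q23 k446
                                have k512 : e18 ≤ e23 := MO hf q18 q23 k482
                                have k516 : e23 ≤ e15 := MO hf q23 q15 k485
                                have k517 : e23 ≤ e20 := MO hf q23 q20 k486
                                by_cases k539 : ∃ z, IsGLB ({e0, e23} : Set P) z
                                · obtain ⟨e24, g24⟩ := k539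
                                  have c24 : Core e0 e24 := CM g24
                                  have k542 : e24 ≤ e0 := G1 g24
                                  have k543 : e24 ≤ e23 := G2 g24
                                  have k552 : e24 ≤ e15 := le_trans k543 k516
                                  have k577 : e24 ≤ e16 := G3 g16 k542 k552
                                  have k582 : e24 ≤ e9 := le_trans k577 k284
                                  have k587 : e9 ≤ e24 := Classical.byContradiction fun hn => HL _ _ _ _ _ _ c24 c9 c4 c0 c14 c2 (LT k582 hn) (LT k104 k100) (LT k21 k26) (LT k203 k223) (LT k205 k225)
                                  have k589 : e16 ≤ e24 := le_trans k284 k587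
                                  have k590 : e9 ≤ e23 := le_trans k587 k543
                                  have k592 : e16 ≤ e23 := le_trans k589 k543
                                  obtain ⟨e25, l25⟩ := ZE h2 k401 k362 g21
                                  have c25 : Core e0 e25 := CZ g21 k362 l25
                                  have k600 : e21 ≤ e25 := L1 l25
                                  have k601 : e18 ≤ e25 := L2 l25
                                  have k602 : e25 ≤ e19 := L3 l25 k445 k366
                                  have k603 : e25 ≤ e20 := L3 l25 k430 k401
                                  have k604 : e10 ≤ e25 := le_trans k335 k601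
                                  have k605 : e9 ≤ e25 := le_trans k431 k600
                                  have k607 : e16 ≤ e25 := le_trans k433 k600
                                  have k609 : ¬ e0 ≤ e25 := N2 k404 k603
                                  have k613 : ¬ e19 ≤ e25 := N1 k609 k365
                                  have k628 : ¬ e25 ≤ e22 := N1 k495 k601
                                  have k635 : e17 ≤ e25 := L3 l17 k607 k604
                                  have k636 : e22 ≤ e25 := L3 l22 k600 k604
                                  obtain ⟨e26, q26⟩ : ∃ y, f e25 = y := ⟨_, rfl⟩
                                  have k638 : e10 ≤ e26 := MO hf q10 q26 k605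
                                  have k639 : e18 ≤ e26 := MO hf q18 q26 k635
                                  have k640 : e23 ≤ e26 := MO hf q23 q26 k636
                                  have k641 : ¬ e25 ≤ e26 := FA hF q26
                                  have k642 : ¬ e26 ≤ e25 := FB hG q26
                                  have k643 : e26 ≤ e20 := MO hf q26 q20 k602
                                  have k644 : ¬ e21 ≤ e26 := L5 l25 k639 k641
                                  have k645 : e9 ≤ e26 := le_trans k590 k640
                                  have k647 : e16 ≤ e26 := le_trans k592 k640
                                  by_cases k672 : ∃ z, IsGLB ({e0, e26} : Set P) z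
                                  · obtain ⟨e27, g27⟩ := k672
                                    have c27 : Core e0 e27 := CM g27
                                    obtain ⟨e28, l28⟩ := ZE h2 k638 k125 g27
                                    have c28 : Core e0 e28 := CZ g27 k125 l28
                                    have k677 : e27 ≤ e0 := G1 g27
                                    have k678 : e27 ≤ e26 := G2 g27
                                    have k679 : e9 ≤ e27 := G3 g27 k88 k645
                                    have k681 : e16 ≤ e27 := G3 g27 k255 k647
                                    have k692 : e27 ≤ e19 := le_trans k677 k365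
                                    have k693 : e27 ≤ e20 := le_trans k678 k643
                                    have k740 : ¬ e21 ≤ e27 := N2 k644 k678
                                    have k744 : e27 ≤ e21 := G3 g21 k677 k693
                                    have k752 : e27 ≤ e25 := le_trans k744 k600
                                    have k765 : e27 ≤ e9 := Classical.byContradiction fun hn => HL _ _ _ _ _ _ c9 c27 c21 c0 c14 c2 (LT k679 hn) (LT k744 k740) (LT k429 k449) (LT k203 k223) (LT k205 k225)
                                    have k767 : e27 ≤ e4 := le_trans k765 k104
                                    have k769 : e27 ≤ e8 := le_trans k765 k89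
                                    have k778 : ¬ e4 ≤ e27 := N2 k77 k769
                                    obtain ⟨e29, l29⟩ := ZE h2 k639 k362 g27
                                    have c29 : Core e0 e29 := CZ g27 k362 l29
                                    have k795 : e27 ≤ e29 := L1 l29
                                    have k796 : e18 ≤ e29 := L2 l29
                                    have k801 : e29 ≤ e19 := L3 l29 k692 k366
                                    have k804 : e29 ≤ e25 := L3 l29 k752 k601
                                    have k806 : e10 ≤ e29 := le_trans k335 k796
                                    have k809 : e16 ≤ e29 := le_trans k681 k795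
                                    have k834 : ¬ e29 ≤ e17 := N1 k337 k796
                                    have k843 : e17 ≤ e29 := L3 l17 k809 k806
                                    obtain ⟨e30, q30⟩ : ∃ y, f e29 = y := ⟨_, rfl⟩
                                    have k847 : e18 ≤ e30 := MO hf q18 q30 k843
                                    have k848 : ¬ e29 ≤ e30 := FA hF q30
                                    have k849 : ¬ e30 ≤ e29 := FB hG q30
                                    have k850 : e30 ≤ e20 := MO hf q30 q20 k801
                                    have k851 : e30 ≤ e26 := MO hf q30 q26 k804
                                    have k852 : ¬ e27 ≤ e30 := L5 l29 k847 k848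
                                    have k881 : ¬ e9 ≤ e30 := N1 k852 k765
                                    by_cases k892 : ∃ z, IsGLB ({e0, e30} : Set P) z
                                    · obtain ⟨e31, g31⟩ := k892
                                      have c31 : Core e0 e31 := CM g31
                                      have k895 : e31 ≤ e0 := G1 g31
                                      have k896 : e31 ≤ e30 := G2 g31
                                      have k905 : e31 ≤ e26 := le_trans k896 k851
                                      have k921 : ¬ e9 ≤ e31 := N2 k881 k896
                                      have k931 : ¬ e27 ≤ e31 := N1 k921 k679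
                                      have k938 : e31 ≤ e27 := G3 g27 k895 k905
                                      exact HL _ _ _ _ _ _ c31 c27 c4 c0 c14 c2 (LT k938 k931) (LT k767 k778) (LT k21 k26) (LT k203 k223) (LT k205 k225)
                                    · obtain ⟨e31, l31⟩ := (h1 e30).resolve_right k892
                                      have c31 : Core e0 e31 := CJ k892 l31
                                      have k895 : e0 ≤ e31 := L1 l31
                                      have k896 : e30 ≤ e31 := L2 l31
                                      have k906 : e18 ≤ e31 := le_trans k847 k896
                                      have k938 : e19 ≤ e31 := L3 l19 k895 k906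
                                      have k943 : e31 ≤ e19 := Classical.byContradiction fun hn => HL _ _ _ _ _ _ c9 c17 c22 c25 c19 c31 (LT k310 k330) (LT k482 k496) (LT k636 k628) (LT k602 k613) (LT k938 hn)
                                      have k944 : e30 ≤ e19 := le_trans k896 k943
                                      obtain ⟨e32, l32⟩ := ZE h2 k850 k892 g21
                                      have c32 : Core e0 e32 := CZ g21 k892 l32
                                      have k948 : e21 ≤ e32 := L1 l32
                                      have k949 : e30 ≤ e32 := L2 l32
                                      have k950 : e32 ≤ e19 := L3 l32 k445 k944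
                                      have k951 : e32 ≤ e20 := L3 l32 k430 k850
                                      have k959 : e18 ≤ e32 := le_trans k847 k949
                                      have k960 : ¬ e0 ≤ e32 := N2 k404 k951
                                      have k964 : ¬ e19 ≤ e32 := N1 k960 k365
                                      have k994 : e25 ≤ e32 := L3 l25 k948 k959
                                      have k997 : e32 ≤ e25 := Classical.byContradiction fun hn => HL _ _ _ _ _ _ c9 c17 c22 c25 c32 c19 (LT k310 k330) (LT k482 k496) (LT k636 k628) (LT k994 hn) (LT k950 k964)
                                      have k998 : e30 ≤ e25 := le_trans k949 k997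
                                      obtain ⟨e33, l33⟩ := ZE h2 k851 k892 g27
                                      have c33 : Core e0 e33 := CZ g27 k892 l33
                                      have k1002 : e27 ≤ e33 := L1 l33
                                      have k1003 : e30 ≤ e33 := L2 l33
                                      have k1006 : e33 ≤ e25 := L3 l33 k752 k998
                                      have k1007 : e33 ≤ e26 := L3 l33 k678 k851
                                      have k1015 : e18 ≤ e33 := le_trans k847 k1003
                                      have k1045 : ¬ e21 ≤ e33 := N2 k644 k1007
                                      have k1047 : ¬ e25 ≤ e33 := N1 k1045 k600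
                                      have k1050 : ¬ e33 ≤ e29 := N1 k849 k1003
                                      have k1054 : e29 ≤ e33 := L3 l29 k1002 k1015
                                      exact HL _ _ _ _ _ _ c9 c17 c29 c33 c25 c19 (LT k310 k330) (LT k843 k834) (LT k1054 k1050) (LT k1006 k1047) (LT k602 k613)
                                  · obtain ⟨e27, l27⟩ := (h1 e26).resolve_right k672
                                    have c27 : Core e0 e27 := CJ k672 l27
                                    have k675 : e0 ≤ e27 := L1 l27
                                    have k676 : e26 ≤ e27 := L2 l27
                                    have k686 : e18 ≤ e27 := le_trans k639 k676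
                                    have k714 : e19 ≤ e27 := L3 l19 k675 k686
                                    have k717 : e27 ≤ e19 := Classical.byContradiction fun hn => HL _ _ _ _ _ _ c9 c17 c22 c25 c19 c27 (LT k310 k330) (LT k482 k496) (LT k636 k628) (LT k602 k613) (LT k714 hn)
                                    have k719 : e26 ≤ e19 := le_trans k676 k717
                                    obtain ⟨e28, l28⟩ := ZE h2 k643 k672 g21
                                    have c28 : Core e0 e28 := CZ g21 k672 l28
                                    have k723 : e21 ≤ e28 := L1 l28
                                    have k724 : e26 ≤ e28 := L2 l28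
                                    have k725 : e28 ≤ e19 := L3 l28 k445 k719
                                    have k726 : e28 ≤ e20 := L3 l28 k430 k643
                                    have k734 : e18 ≤ e28 := le_trans k639 k724
                                    have k736 : ¬ e0 ≤ e28 := N2 k404 k726
                                    have k740 : ¬ e19 ≤ e28 := N1 k736 k365
                                    have k763 : ¬ e28 ≤ e25 := N1 k642 k724
                                    have k766 : e25 ≤ e28 := L3 l25 k723 k734
                                    exact HL _ _ _ _ _ _ c9 c17 c22 c25 c28 c19 (LT k310 k330) (LT k482 k496) (LT k636 k628) (LT k766 k763) (LT k725 k740)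
                                · have k540 : ¬ e16 ≤ e23 := BN3 g16 k539 k516
                                  have k542 : ¬ e9 ≤ e23 := N1 k540 k284
                                  have k543 : ¬ e12 ≤ e23 := N1 k540 k286
                                  have k547 : ¬ e11 ≤ e22 := NM hf q12 q23 k543
                                  have k548 : ¬ e4 ≤ e22 := L5 l11 k440 k547
                                  have k549 : ¬ e4 ≤ e21 := N2 k548 k439
                                  have k550 : ¬ e4 ≤ e20 := G4 g21 k21 k549
                                  have k551 : ¬ e3 ≤ e20 := N1 k550 k22
                                  have k554 : ¬ e2 ≤ e19 := NM hf q3 q20 k551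
                                  have k555 : ¬ e1 ≤ e19 := L4 l2 k365 k554
                                  obtain ⟨e24, l24⟩ := (h1 e23).resolve_right k539
                                  have c24 : Core e0 e24 := CJ k539 l24
                                  have k567 : e0 ≤ e24 := L1 l24
                                  have k568 : e23 ≤ e24 := L2 l24
                                  have k576 : e18 ≤ e24 := le_trans k512 k568
                                  have k601 : e19 ≤ e24 := L3 l19 k567 k576
                                  have k603 : e24 ≤ e19 := Classical.byContradiction fun hn => HL _ _ _ _ _ _ c9 c17 c22 c14 c19 c24 (LT k310 k330) (LT k482 k496) (LT k485 k457) (LT k390 k392) (LT k601 hn)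
                                  have k604 : e23 ≤ e19 := le_trans k568 k603
                                  obtain ⟨e25, q25⟩ : ∃ y, f e21 = y := ⟨_, rfl⟩
                                  have k618 : e10 ≤ e25 := MO hf q10 q25 k431
                                  have k621 : e25 ≤ e1 := MO hf q25 q1 k429
                                  have k623 : e25 ≤ e15 := MO hf q25 q15 k444
                                  have k624 : e25 ≤ e20 := MO hf q25 q20 k445
                                  have k625 : e25 ≤ e23 := MO hf q25 q23 k439
                                  have k627 : e25 ≤ e2 := le_trans k621 k7
                                  have k629 : e25 ≤ e19 := le_trans k625 k604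
                                  by_cases k656 : ∃ z, IsGLB ({e0, e25} : Set P) z
                                  · obtain ⟨e26, g26⟩ := k656
                                    have c26 : Core e0 e26 := CM g26
                                    have k659 : e26 ≤ e0 := G1 g26
                                    have k660 : e26 ≤ e25 := G2 g26
                                    have k668 : e26 ≤ e1 := le_trans k660 k621
                                    have k670 : e26 ≤ e15 := le_trans k660 k623
                                    have k689 : ¬ e9 ≤ e26 := N2 k290 k668
                                    have k691 : ¬ e16 ≤ e26 := N1 k689 k257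
                                    have k701 : e26 ≤ e16 := G3 g16 k659 k670
                                    exact HL _ _ _ _ _ _ c26 c16 c21 c0 c14 c2 (LT k701 k691) (LT k433 k500) (LT k429 k449) (LT k203 k223) (LT k205 k225)
                                  · obtain ⟨e26, l26⟩ := (h1 e25).resolve_right k656
                                    have c26 : Core e0 e26 := CJ k656 l26
                                    have k659 : e0 ≤ e26 := L1 l26
                                    have k660 : e25 ≤ e26 := L2 l26
                                    have k661 : e26 ≤ e2 := L3 l26 k6 k627
                                    have k663 : e26 ≤ e19 := L3 l26 k365 k629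
                                    have k670 : e21 ≤ e26 := le_trans k429 k659
                                    have k671 : e10 ≤ e26 := le_trans k618 k660
                                    have k689 : ¬ e26 ≤ e22 := N1 k450 k659
                                    have k692 : ¬ e1 ≤ e26 := N2 k555 k663
                                    have k693 : ¬ e2 ≤ e26 := N1 k692 k7
                                    have k704 : e14 ≤ e26 := L3 l14 k659 k671
                                    have k706 : e22 ≤ e26 := L3 l22 k670 k671
                                    have k707 : e26 ≤ e14 := Classical.byContradiction fun hn => HL _ _ _ _ _ _ c9 c17 c22 c14 c26 c2 (LT k310 k330) (LT k482 k496) (LT k485 k457) (LT k704 hn) (LT k661 k693)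
                                    have k708 : e25 ≤ e14 := le_trans k660 k707
                                    have k710 : ¬ e18 ≤ e26 := N2 k393 k707
                                    have k712 : ¬ e19 ≤ e26 := N1 k710 k366
                                    obtain ⟨e27, l27⟩ := ZE h2 k624 k656 g21
                                    have c27 : Core e0 e27 := CZ g21 k656 l27
                                    have k717 : e21 ≤ e27 := L1 l27
                                    have k718 : e25 ≤ e27 := L2 l27
                                    have k721 : e27 ≤ e14 := L3 l27 k444 k708
                                    have k723 : e27 ≤ e20 := L3 l27 k430 k624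
                                    have k729 : e10 ≤ e27 := le_trans k618 k718
                                    have k730 : ¬ e0 ≤ e27 := N2 k404 k723
                                    have k733 : ¬ e14 ≤ e27 := N1 k730 k203
                                    have k767 : e22 ≤ e27 := L3 l22 k717 k729
                                    have k768 : e27 ≤ e22 := Classical.byContradiction fun hn => HL _ _ _ _ _ _ c9 c17 c22 c27 c14 c2 (LT k310 k330) (LT k482 k496) (LT k767 hn) (LT k721 k733) (LT k205 k225)
                                    have k769 : e25 ≤ e22 := le_trans k718 k768
                                    obtain ⟨e28, l28⟩ := ZE h2 k517 k539 g21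
                                    have c28 : Core e0 e28 := CZ g21 k539 l28
                                    have k772 : e21 ≤ e28 := L1 l28
                                    have k773 : e23 ≤ e28 := L2 l28
                                    have k774 : e28 ≤ e19 := L3 l28 k445 k604
                                    have k775 : e28 ≤ e20 := L3 l28 k430 k517
                                    have k779 : e16 ≤ e28 := le_trans k433 k772
                                    have k780 : e10 ≤ e28 := le_trans k511 k773
                                    have k781 : e18 ≤ e28 := le_trans k512 k773
                                    have k783 : ¬ e0 ≤ e28 := N2 k404 k775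
                                    have k787 : ¬ e19 ≤ e28 := N1 k783 k365
                                    have k815 : ¬ e28 ≤ e22 := N1 k495 k781
                                    have k822 : e17 ≤ e28 := L3 l17 k779 k780
                                    have k823 : e22 ≤ e28 := L3 l22 k772 k780
                                    obtain ⟨e29, q29⟩ : ∃ y, f e28 = y := ⟨_, rfl⟩
                                    have k827 : e18 ≤ e29 := MO hf q18 q29 k822
                                    have k828 : e23 ≤ e29 := MO hf q23 q29 k823
                                    have k830 : ¬ e28 ≤ e29 := FA hF q29
                                    have k831 : ¬ e29 ≤ e28 := FB hG q29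
                                    have k832 : e29 ≤ e20 := MO hf q29 q20 k774
                                    have k833 : ¬ e21 ≤ e29 := L5 l28 k828 k830
                                    by_cases k864 : ∃ z, IsGLB ({e0, e29} : Set P) z
                                    · obtain ⟨e30, g30⟩ := k864
                                      have c30 : Core e0 e30 := CM g30
                                      have k867 : e30 ≤ e0 := G1 g30
                                      have k868 : e30 ≤ e29 := G2 g30
                                      have k876 : e30 ≤ e14 := le_trans k867 k203
                                      have k877 : e30 ≤ e19 := le_trans k867 k365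
                                      have k880 : e30 ≤ e20 := le_trans k868 k832
                                      have k907 : ¬ e21 ≤ e30 := N2 k833 k868
                                      have k908 : e30 ≤ e21 := G3 g21 k867 k880
                                      have k909 : e30 ≤ e22 := le_trans k908 k439
                                      have k911 : e30 ≤ e28 := le_trans k908 k772
                                      obtain ⟨e31, q31⟩ : ∃ y, f e30 = y := ⟨_, rfl⟩
                                      have k914 : ¬ e31 ≤ e30 := FB hG q31
                                      have k915 : e31 ≤ e1 := MO hf q31 q1 k867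
                                      have k917 : e31 ≤ e15 := MO hf q31 q15 k876
                                      have k918 : e31 ≤ e20 := MO hf q31 q20 k877
                                      have k919 : e31 ≤ e23 := MO hf q31 q23 k909
                                      have k920 : e31 ≤ e25 := MO hf q31 q25 k908
                                      have k921 : e31 ≤ e29 := MO hf q31 q29 k911
                                      have k922 : ¬ e31 ≤ e0 := G5 g30 k921 k914
                                      have k925 : e31 ≤ e19 := le_trans k919 k604
                                      have k927 : e31 ≤ e28 := le_trans k919 k773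
                                      have k928 : e31 ≤ e14 := le_trans k920 k708
                                      have k929 : e31 ≤ e22 := le_trans k920 k769
                                      have k964 : ¬ e31 ≤ e21 := N2 k922 k429
                                      by_cases k965 : ∃ z, IsGLB ({e0, e31} : Set P) z
                                      · obtain ⟨e32, g32⟩ := k965
                                        have c32 : Core e0 e32 := CM g32
                                        have k968 : e32 ≤ e0 := G1 g32
                                        have k969 : e32 ≤ e31 := G2 g32
                                        have k977 : e32 ≤ e1 := le_trans k969 k915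
                                        have k979 : e32 ≤ e15 := le_trans k969 k917
                                        have k1004 : ¬ e9 ≤ e32 := N2 k290 k977
                                        have k1006 : ¬ e16 ≤ e32 := N1 k1004 k257
                                        have k1020 : e32 ≤ e16 := G3 g16 k968 k979
                                        exact HL _ _ _ _ _ _ c32 c16 c21 c0 c14 c2 (LT k1020 k1006) (LT k433 k500) (LT k429 k449) (LT k203 k223) (LT k205 k225)
                                      · obtain ⟨e32, l32⟩ := ZE h2 k918 k965 g21
                                        have c32 : Core e0 e32 := CZ g21 k965 l32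
                                        have k968 : e21 ≤ e32 := L1 l32
                                        have k969 : e31 ≤ e32 := L2 l32
                                        have k975 : e32 ≤ e22 := L3 l32 k439 k929
                                        have k1023 : ¬ e32 ≤ e21 := N1 k964 k969
                                        have k1025 : e22 ≤ e32 := Classical.byContradiction fun hn => HL _ _ _ _ _ _ c9 c21 c32 c22 c14 c2 (LT k431 k498) (LT k968 k1023) (LT k975 hn) (LT k485 k457) (LT k205 k225)
                                        obtain ⟨e33, l33⟩ := ZE h2 k921 k965 g30
                                        have c33 : Core e0 e33 := CZ g30 k965 l33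
                                        have k1032 : e30 ≤ e33 := L1 l33
                                        have k1033 : e31 ≤ e33 := L2 l33
                                        have k1036 : e33 ≤ e14 := L3 l33 k876 k928
                                        have k1037 : e33 ≤ e19 := L3 l33 k877 k925
                                        have k1039 : e33 ≤ e22 := L3 l33 k909 k929
                                        have k1043 : e33 ≤ e28 := L3 l33 k911 k927
                                        have k1082 : ¬ e33 ≤ e30 := N1 k914 k1033
                                        obtain ⟨e34, q34⟩ : ∃ y, f e33 = y := ⟨_, rfl⟩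
                                        have k1085 : e31 ≤ e34 := MO hf q31 q34 k1032
                                        have k1087 : ¬ e34 ≤ e33 := FB hG q34
                                        have k1089 : e34 ≤ e15 := MO hf q34 q15 k1036
                                        have k1090 : e34 ≤ e20 := MO hf q34 q20 k1037
                                        have k1091 : e34 ≤ e23 := MO hf q34 q23 k1039
                                        have k1092 : e34 ≤ e29 := MO hf q34 q29 k1043
                                        have k1094 : e34 ≤ e19 := le_trans k1091 k604
                                        have k1096 : e34 ≤ e28 := le_trans k1091 k773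
                                        by_cases k1132 : ∃ z, IsGLB ({e0, e34} : Set P) z
                                        · obtain ⟨e35, g35⟩ := k1132
                                          have c35 : Core e0 e35 := CM g35
                                          have k1135 : e35 ≤ e0 := G1 g35
                                          have k1136 : e35 ≤ e34 := G2 g35
                                          have k1146 : e35 ≤ e15 := le_trans k1136 k1089
                                          have k1148 : e35 ≤ e23 := le_trans k1136 k1091
                                          have k1168 : ¬ e9 ≤ e35 := N2 k542 k1148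
                                          have k1170 : ¬ e16 ≤ e35 := N1 k1168 k257
                                          have k1187 : e35 ≤ e16 := G3 g16 k1135 k1146
                                          exact HL _ _ _ _ _ _ c35 c16 c21 c0 c14 c2 (LT k1187 k1170) (LT k433 k500) (LT k429 k449) (LT k203 k223) (LT k205 k225)
                                        · obtain ⟨e35, l35⟩ := ZE h2 k1090 k1132 g21
                                          have c35 : Core e0 e35 := CZ g21 k1132 l35
                                          have k1135 : e21 ≤ e35 := L1 l35
                                          have k1136 : e34 ≤ e35 := L2 l35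
                                          have k1140 : e35 ≤ e28 := L3 l35 k772 k1096
                                          have k1145 : e31 ≤ e35 := le_trans k1085 k1136
                                          have k1186 : e32 ≤ e35 := L3 l32 k1135 k1145
                                          have k1190 : e22 ≤ e35 := le_trans k1025 k1186
                                          by_cases k1193 : e35 ≤ e22
                                          · have k1203 : e34 ≤ e22 := le_trans k1136 k1193
                                            obtain ⟨e36, l36⟩ := ZE h2 k1092 k1132 g30
                                            have c36 : Core e0 e36 := CZ g30 k1132 l36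
                                            have k1215 : e30 ≤ e36 := L1 l36
                                            have k1216 : e34 ≤ e36 := L2 l36
                                            have k1222 : e36 ≤ e22 := L3 l36 k909 k1203
                                            have k1227 : e36 ≤ e29 := L3 l36 k868 k1092
                                            have k1230 : e31 ≤ e36 := le_trans k1085 k1216
                                            have k1252 : ¬ e21 ≤ e36 := N2 k833 k1227
                                            have k1253 : ¬ e22 ≤ e36 := N1 k1252 k439
                                            have k1270 : ¬ e36 ≤ e33 := N1 k1087 k1216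
                                            have k1272 : e33 ≤ e36 := L3 l33 k1215 k1230
                                            exact HL _ _ _ _ _ _ c30 c33 c36 c22 c26 c2 (LT k1032 k1082) (LT k1272 k1270) (LT k1222 k1253) (LT k706 k689) (LT k661 k693)
                                          · have k1202 : e28 ≤ e35 := Classical.byContradiction fun hn => HL _ _ _ _ _ _ c9 c17 c22 c35 c28 c19 (LT k310 k330) (LT k482 k496) (LT k1190 k1193) (LT k1140 hn) (LT k774 k787)
                                            have k1203 : e18 ≤ e35 := le_trans k781 k1202
                                            obtain ⟨e36, l36⟩ := ZE h2 k1092 k1132 g30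
                                            have c36 : Core e0 e36 := CZ g30 k1132 l36
                                            have k1213 : e30 ≤ e36 := L1 l36
                                            have k1214 : e34 ≤ e36 := L2 l36
                                            have k1215 : e36 ≤ e19 := L3 l36 k877 k1094
                                            have k1218 : e36 ≤ e28 := L3 l36 k911 k1096
                                            have k1221 : e31 ≤ e36 := le_trans k1085 k1214
                                            have k1266 : ¬ e36 ≤ e33 := N1 k1087 k1214
                                            have k1268 : e33 ≤ e36 := L3 l33 k1213 k1221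
                                            obtain ⟨e37, q37⟩ : ∃ y, f e36 = y := ⟨_, rfl⟩
                                            have k1271 : e34 ≤ e37 := MO hf q34 q37 k1268
                                            have k1272 : ¬ e36 ≤ e37 := FA hF q37
                                            have k1273 : ¬ e37 ≤ e36 := FB hG q37
                                            have k1274 : e37 ≤ e20 := MO hf q37 q20 k1215
                                            have k1275 : e37 ≤ e29 := MO hf q37 q29 k1218
                                            have k1276 : ¬ e30 ≤ e37 := L5 l36 k1271 k1272
                                            by_cases k1316 : ∃ z, IsGLB ({e0, e37} : Set P) z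
                                            · obtain ⟨e38, g38⟩ := k1316
                                              have c38 : Core e0 e38 := CM g38
                                              have k1319 : e38 ≤ e0 := G1 g38
                                              have k1320 : e38 ≤ e37 := G2 g38
                                              have k1331 : e38 ≤ e29 := le_trans k1320 k1275
                                              have k1361 : ¬ e30 ≤ e38 := N2 k1276 k1320
                                              have k1368 : e38 ≤ e30 := G3 g30 k1319 k1331
                                              exact HL _ _ _ _ _ _ c38 c30 c21 c0 c14 c2 (LT k1368 k1361) (LT k908 k907) (LT k429 k449) (LT k203 k223) (LT k205 k225)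
                                            · obtain ⟨e38, l38⟩ := (h1 e37).resolve_right k1316
                                              have c38 : Core e0 e38 := CJ k1316 l38
                                              have k1319 : e0 ≤ e38 := L1 l38
                                              have k1320 : e37 ≤ e38 := L2 l38
                                              have k1326 : e21 ≤ e38 := le_trans k429 k1319
                                              have k1329 : e34 ≤ e38 := le_trans k1271 k1320
                                              have k1366 : e35 ≤ e38 := L3 l35 k1326 k1329
                                              have k1373 : e18 ≤ e38 := le_trans k1203 k1366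
                                              have k1378 : e19 ≤ e38 := L3 l19 k1319 k1373
                                              have k1381 : e38 ≤ e19 := Classical.byContradiction fun hn => HL _ _ _ _ _ _ c9 c17 c22 c26 c19 c38 (LT k310 k330) (LT k482 k496) (LT k706 k689) (LT k663 k712) (LT k1378 hn)
                                              have k1383 : e37 ≤ e19 := le_trans k1320 k1381
                                              obtain ⟨e39, l39⟩ := ZE h2 k1274 k1316 g21
                                              have c39 : Core e0 e39 := CZ g21 k1316 l39
                                              have k1402 : e21 ≤ e39 := L1 l39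
                                              have k1403 : e37 ≤ e39 := L2 l39
                                              have k1404 : e39 ≤ e19 := L3 l39 k445 k1383
                                              have k1405 : e39 ≤ e20 := L3 l39 k430 k1274
                                              have k1413 : e34 ≤ e39 := le_trans k1271 k1403
                                              have k1414 : ¬ e0 ≤ e39 := N2 k404 k1405
                                              have k1418 : ¬ e19 ≤ e39 := N1 k1414 k365
                                              have k1464 : e35 ≤ e39 := L3 l35 k1402 k1413
                                              have k1473 : e28 ≤ e39 := le_trans k1202 k1464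
                                              have k1474 : e39 ≤ e28 := Classical.byContradiction fun hn => HL _ _ _ _ _ _ c9 c17 c22 c28 c39 c19 (LT k310 k330) (LT k482 k496) (LT k823 k815) (LT k1473 hn) (LT k1404 k1418)
                                              have k1476 : e37 ≤ e28 := le_trans k1403 k1474
                                              obtain ⟨e40, l40⟩ := ZE h2 k1275 k1316 g30
                                              have c40 : Core e0 e40 := CZ g30 k1316 l40
                                              have k1481 : e30 ≤ e40 := L1 l40
                                              have k1482 : e37 ≤ e40 := L2 l40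
                                              have k1486 : e40 ≤ e28 := L3 l40 k911 k1476
                                              have k1487 : e40 ≤ e29 := L3 l40 k868 k1275
                                              have k1492 : e34 ≤ e40 := le_trans k1271 k1482
                                              have k1511 : ¬ e21 ≤ e40 := N2 k833 k1487
                                              have k1514 : ¬ e28 ≤ e40 := N1 k1511 k772
                                              have k1541 : ¬ e40 ≤ e36 := N1 k1273 k1482
                                              have k1544 : e36 ≤ e40 := L3 l36 k1481 k1492
                                              exact HL _ _ _ _ _ _ c30 c33 c36 c40 c28 c19 (LT k1032 k1082) (LT k1268 k1266) (LT k1544 k1541) (LT k1486 k1514) (LT k774 k787)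
                                    · obtain ⟨e30, l30⟩ := (h1 e29).resolve_right k864
                                      have c30 : Core e0 e30 := CJ k864 l30
                                      have k867 : e0 ≤ e30 := L1 l30
                                      have k868 : e29 ≤ e30 := L2 l30
                                      have k876 : e18 ≤ e30 := le_trans k827 k868
                                      have k908 : e19 ≤ e30 := L3 l19 k867 k876
                                      have k914 : e30 ≤ e19 := Classical.byContradiction fun hn => HL _ _ _ _ _ _ c9 c17 c22 c26 c19 c30 (LT k310 k330) (LT k482 k496) (LT k706 k689) (LT k663 k712) (LT k908 hn)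
                                      have k916 : e29 ≤ e19 := le_trans k868 k914
                                      obtain ⟨e31, l31⟩ := ZE h2 k832 k864 g21
                                      have c31 : Core e0 e31 := CZ g21 k864 l31
                                      have k935 : e21 ≤ e31 := L1 l31
                                      have k936 : e29 ≤ e31 := L2 l31
                                      have k937 : e31 ≤ e19 := L3 l31 k445 k916
                                      have k938 : e31 ≤ e20 := L3 l31 k430 k832
                                      have k946 : e23 ≤ e31 := le_trans k828 k936
                                      have k948 : ¬ e0 ≤ e31 := N2 k404 k938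
                                      have k952 : ¬ e19 ≤ e31 := N1 k948 k365
                                      have k988 : ¬ e31 ≤ e28 := N1 k831 k936
                                      have k993 : e28 ≤ e31 := L3 l28 k935 k946
                                      exact HL _ _ _ _ _ _ c9 c17 c22 c28 c31 c19 (LT k310 k330) (LT k482 k496) (LT k823 k815) (LT k993 k988) (LT k937 k952)
                            · obtain ⟨e21, l21⟩ := (h1 e20).resolve_right k424
                              have c21 : Core e0 e21 := CJ k424 l21
                              have k427 : e0 ≤ e21 := L1 l21
                              have k428 : e20 ≤ e21 := L2 l21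
                              have k440 : e18 ≤ e21 := le_trans k401 k428
                              have k459 : ¬ e21 ≤ e19 := N1 k403 k428
                              have k465 : e19 ≤ e21 := L3 l19 k427 k440
                              exact HL _ _ _ _ _ _ c9 c4 c0 c14 c19 c21 (LT k104 k100) (LT k21 k26) (LT k203 k223) (LT k390 k392) (LT k465 k459)
                      · have k290 : e4 ≤ e16 := Classical.byContradiction fun hn => HL _ _ _ _ _ _ c9 c16 c4 c0 c14 c2 (LT k257 k284) (LT k281 hn) (LT k21 k26) (LT k203 k223) (LT k205 k225)
                        have k291 : e4 ≤ e15 := le_trans k290 k256
                        obtain ⟨e17, l17⟩ := ZE h2 k155 k125 g13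
                        have c17 : Core e0 e17 := CZ g13 k125 l17
                        have k296 : e13 ≤ e17 := L1 l17
                        have k297 : e10 ≤ e17 := L2 l17
                        have k298 : e17 ≤ e2 := L3 l17 k178 k114
                        have k301 : e17 ≤ e7 := L3 l17 k197 k116
                        have k303 : e17 ≤ e11 := L3 l17 k198 k129
                        have k305 : e17 ≤ e14 := L3 l17 k210 k204
                        have k307 : e9 ≤ e17 := le_trans k199 k296
                        have k326 : ¬ e17 ≤ e9 := N1 k108 k297
                        obtain ⟨e18, q18⟩ : ∃ y, f e17 = y := ⟨_, rfl⟩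
                        have k331 : e10 ≤ e18 := MO hf q10 q18 k307
                        have k332 : ¬ e17 ≤ e18 := FA hF q18
                        have k333 : ¬ e18 ≤ e17 := FB hG q18
                        have k334 : e18 ≤ e3 := MO hf q18 q3 k298
                        have k335 : e18 ≤ e8 := MO hf q18 q8 k301
                        have k336 : e18 ≤ e12 := MO hf q18 q12 k303
                        have k337 : e18 ≤ e15 := MO hf q18 q15 k305
                        have k338 : ¬ e13 ≤ e18 := L5 l17 k331 k332
                        have k355 : ¬ e9 ≤ e18 := N1 k338 k196
                        by_cases k358 : ∃ z, IsGLB ({e0, e18} : Set P) z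
                        · obtain ⟨e19, g19⟩ := k358
                          have c19 : Core e0 e19 := CM g19
                          have k361 : e19 ≤ e0 := G1 g19
                          have k362 : e19 ≤ e18 := G2 g19
                          have k369 : e19 ≤ e8 := le_trans k362 k335
                          have k386 : ¬ e9 ≤ e19 := N2 k355 k362
                          have k392 : e19 ≤ e9 := G3 g9 k361 k369
                          exact HL _ _ _ _ _ _ c19 c9 c16 c0 c14 c2 (LT k392 k386) (LT k257 k284) (LT k255 k267) (LT k203 k223) (LT k205 k225)
                        · obtain ⟨e19, l19⟩ := (h1 e18).resolve_right k358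
                          have c19 : Core e0 e19 := CJ k358 l19
                          have k361 : e0 ≤ e19 := L1 l19
                          have k362 : e18 ≤ e19 := L2 l19
                          have k364 : e4 ≤ e19 := le_trans k21 k361
                          have k365 : e9 ≤ e19 := le_trans k88 k361
                          have k366 : e13 ≤ e19 := le_trans k173 k361
                          have k368 : e10 ≤ e19 := le_trans k331 k362
                          have k385 : e11 ≤ e19 := L3 l11 k364 k368
                          have k386 : e14 ≤ e19 := L3 l14 k361 k368
                          have k387 : e17 ≤ e19 := L3 l17 k366 k368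
                          by_cases k388 : e19 ≤ e14
                          · have k393 : e18 ≤ e14 := le_trans k362 k388
                            obtain ⟨e20, l20⟩ := ZE h2 k337 k358 g16
                            have c20 : Core e0 e20 := CZ g16 k358 l20
                            have k407 : e16 ≤ e20 := L1 l20
                            have k408 : e18 ≤ e20 := L2 l20
                            have k410 : e20 ≤ e3 := L3 l20 k266 k334
                            have k412 : e20 ≤ e14 := L3 l20 k265 k393
                            have k415 : e4 ≤ e20 := le_trans k290 k407
                            have k418 : e10 ≤ e20 := le_trans k331 k408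
                            have k419 : ¬ e0 ≤ e20 := N2 k15 k410
                            have k422 : ¬ e14 ≤ e20 := N1 k419 k203
                            have k444 : e11 ≤ e20 := L3 l11 k415 k418
                            have k446 : e20 ≤ e11 := Classical.byContradiction fun hn => HL _ _ _ _ _ _ c9 c16 c11 c20 c14 c2 (LT k257 k284) (LT k283 k279) (LT k444 hn) (LT k412 k422) (LT k205 k225)
                            have k449 : e18 ≤ e11 := le_trans k408 k446
                            obtain ⟨e21, l21⟩ := ZE h2 k336 k358 g13
                            have c21 : Core e0 e21 := CZ g13 k358 l21
                            have k452 : e13 ≤ e21 := L1 l21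
                            have k453 : e18 ≤ e21 := L2 l21
                            have k458 : e21 ≤ e8 := L3 l21 k181 k335
                            have k459 : e21 ≤ e11 := L3 l21 k198 k449
                            have k466 : e10 ≤ e21 := le_trans k331 k453
                            have k475 : ¬ e4 ≤ e21 := N2 k77 k458
                            have k477 : ¬ e11 ≤ e21 := N1 k475 k128
                            have k491 : ¬ e21 ≤ e17 := N1 k333 k453
                            have k493 : e17 ≤ e21 := L3 l17 k452 k466
                            exact HL _ _ _ _ _ _ c9 c17 c21 c11 c14 c2 (LT k307 k326) (LT k493 k491) (LT k459 k477) (LT k224 k219) (LT k205 k225)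
                          · have k389 : ¬ e18 ≤ e14 := L4 l19 k203 k388
                            obtain ⟨e20, q20⟩ : ∃ y, f e19 = y := ⟨_, rfl⟩
                            have k394 : e10 ≤ e20 := MO hf q10 q20 k365
                            have k395 : e12 ≤ e20 := MO hf q12 q20 k385
                            have k396 : e15 ≤ e20 := MO hf q15 q20 k386
                            have k397 : e18 ≤ e20 := MO hf q18 q20 k387
                            have k398 : ¬ e19 ≤ e20 := FA hF q20
                            have k399 : ¬ e20 ≤ e19 := FB hG q20
                            have k400 : ¬ e0 ≤ e20 := L5 l19 k397 k398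
                            have k401 : e9 ≤ e20 := le_trans k200 k395
                            have k402 : e13 ≤ e20 := le_trans k174 k395
                            have k404 : e4 ≤ e20 := le_trans k291 k396
                            have k407 : e16 ≤ e20 := le_trans k256 k396
                            by_cases k425 : ∃ z, IsGLB ({e0, e20} : Set P) z
                            · obtain ⟨e21, g21⟩ := k425
                              have c21 : Core e0 e21 := CM g21
                              obtain ⟨e22, l22⟩ := ZE h2 k394 k125 g21
                              have c22 : Core e0 e22 := CZ g21 k125 l22
                              have k430 : e21 ≤ e0 := G1 g21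
                              have k431 : e21 ≤ e20 := G2 g21
                              have k432 : e4 ≤ e21 := G3 g21 k21 k404
                              have k433 : e9 ≤ e21 := G3 g21 k88 k401
                              have k434 : e13 ≤ e21 := G3 g21 k173 k402
                              have k435 : e16 ≤ e21 := G3 g21 k255 k407
                              have k441 : e21 ≤ e22 := L1 l22
                              have k442 : e10 ≤ e22 := L2 l22
                              have k444 : e21 ≤ e2 := le_trans k430 k6
                              have k446 : e21 ≤ e14 := le_trans k430 k203
                              have k447 : e21 ≤ e19 := le_trans k430 k361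
                              have k451 : e16 ≤ e22 := le_trans k435 k441
                              have k452 : ¬ e0 ≤ e21 := N2 k400 k431
                              have k487 : ¬ e22 ≤ e16 := N1 k278 k442
                              have k497 : e22 ≤ e14 := L3 l22 k446 k204
                              have k503 : ¬ e5 ≤ e22 := N2 k228 k497
                              have k504 : ¬ e7 ≤ e22 := N1 k503 k59
                              have k507 : ¬ e18 ≤ e22 := N2 k389 k497
                              have k508 : e21 ≤ e4 := Classical.byContradiction fun hn => HL _ _ _ _ _ _ c9 c4 c21 c0 c14 c2 (LT k104 k100) (LT k432 hn) (LT k430 k452) (LT k203 k223) (LT k205 k225)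
                              have k509 : e21 ≤ e3 := le_trans k508 k22
                              have k510 : e21 ≤ e7 := le_trans k508 k58
                              have k513 : e21 ≤ e16 := le_trans k508 k290
                              have k515 : e22 ≤ e7 := L3 l22 k510 k116
                              obtain ⟨e23, l23⟩ := ZE h2 k397 k358 g21
                              have c23 : Core e0 e23 := CZ g21 k358 l23
                              have k520 : e21 ≤ e23 := L1 l23
                              have k521 : e18 ≤ e23 := L2 l23
                              have k522 : e23 ≤ e3 := L3 l23 k509 k334
                              have k524 : e23 ≤ e19 := L3 l23 k447 k362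
                              have k526 : e10 ≤ e23 := le_trans k331 k521
                              have k527 : e4 ≤ e23 := le_trans k432 k520
                              have k528 : e9 ≤ e23 := le_trans k433 k520
                              have k529 : e13 ≤ e23 := le_trans k434 k520
                              have k531 : ¬ e0 ≤ e23 := N2 k15 k522
                              have k535 : ¬ e19 ≤ e23 := N1 k531 k361
                              have k551 : ¬ e23 ≤ e22 := N1 k507 k521
                              have k554 : e11 ≤ e23 := L3 l11 k527 k526
                              have k555 : e17 ≤ e23 := L3 l17 k529 k526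
                              have k556 : e22 ≤ e23 := L3 l22 k520 k526
                              obtain ⟨e24, q24⟩ : ∃ y, f e23 = y := ⟨_, rfl⟩
                              have k558 : e5 ≤ e24 := MO hf q5 q24 k527
                              have k559 : e10 ≤ e24 := MO hf q10 q24 k528
                              have k560 : e12 ≤ e24 := MO hf q12 q24 k554
                              have k561 : e18 ≤ e24 := MO hf q18 q24 k555
                              have k562 : ¬ e23 ≤ e24 := FA hF q24
                              have k563 : ¬ e24 ≤ e23 := FB hG q24
                              have k564 : e24 ≤ e20 := MO hf q24 q20 k524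
                              have k565 : ¬ e21 ≤ e24 := L5 l23 k561 k562
                              have k566 : e9 ≤ e24 := le_trans k200 k560
                              have k567 : e13 ≤ e24 := le_trans k174 k560
                              have k588 : ¬ e4 ≤ e24 := N1 k565 k508
                              by_cases k595 : ∃ z, IsGLB ({e0, e24} : Set P) z
                              · obtain ⟨e25, g25⟩ := k595
                                have c25 : Core e0 e25 := CM g25
                                obtain ⟨e26, l26⟩ := ZE h2 k559 k125 g25
                                have c26 : Core e0 e26 := CZ g25 k125 l26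
                                have k600 : e25 ≤ e0 := G1 g25
                                have k601 : e25 ≤ e24 := G2 g25
                                have k602 : e9 ≤ e25 := G3 g25 k88 k566
                                have k603 : e13 ≤ e25 := G3 g25 k173 k567
                                have k614 : e25 ≤ e19 := le_trans k600 k361
                                have k615 : e25 ≤ e20 := le_trans k601 k564
                                have k634 : ¬ e4 ≤ e25 := N2 k588 k601
                                have k638 : ¬ e16 ≤ e25 := N1 k634 k290
                                have k667 : e25 ≤ e21 := G3 g21 k600 k615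
                                have k675 : e25 ≤ e4 := le_trans k667 k508
                                have k679 : e25 ≤ e16 := le_trans k667 k513
                                have k681 : e25 ≤ e23 := le_trans k667 k520
                                have k694 : e25 ≤ e9 := Classical.byContradiction fun hn => HL _ _ _ _ _ _ c9 c25 c16 c11 c7 c2 (LT k602 hn) (LT k679 k638) (LT k283 k279) (LT k133 k148) (LT k60 k64)
                                obtain ⟨e27, l27⟩ := ZE h2 k561 k358 g25
                                have c27 : Core e0 e27 := CZ g25 k358 l27
                                have k704 : e25 ≤ e27 := L1 l27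
                                have k705 : e18 ≤ e27 := L2 l27
                                have k710 : e27 ≤ e19 := L3 l27 k614 k362
                                have k712 : e27 ≤ e23 := L3 l27 k681 k521
                                have k714 : e10 ≤ e27 := le_trans k331 k705
                                have k716 : e13 ≤ e27 := le_trans k603 k704
                                have k744 : ¬ e27 ≤ e17 := N1 k333 k705
                                have k749 : e17 ≤ e27 := L3 l17 k716 k714
                                obtain ⟨e28, q28⟩ : ∃ y, f e27 = y := ⟨_, rfl⟩
                                have k753 : e18 ≤ e28 := MO hf q18 q28 k749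
                                have k754 : ¬ e27 ≤ e28 := FA hF q28
                                have k755 : ¬ e28 ≤ e27 := FB hG q28
                                have k756 : e28 ≤ e20 := MO hf q28 q20 k710
                                have k757 : e28 ≤ e24 := MO hf q28 q24 k712
                                have k758 : ¬ e25 ≤ e28 := L5 l27 k753 k754
                                have k788 : ¬ e9 ≤ e28 := N1 k758 k694
                                by_cases k795 : ∃ z, IsGLB ({e0, e28} : Set P) z
                                · obtain ⟨e29, g29⟩ := k795
                                  have c29 : Core e0 e29 := CM g29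
                                  have k798 : e29 ≤ e0 := G1 g29
                                  have k799 : e29 ≤ e28 := G2 g29
                                  have k808 : e29 ≤ e24 := le_trans k799 k757
                                  have k829 : ¬ e9 ≤ e29 := N2 k788 k799
                                  have k832 : ¬ e25 ≤ e29 := N1 k829 k602
                                  have k839 : e29 ≤ e25 := G3 g25 k798 k808
                                  exact HL _ _ _ _ _ _ c29 c25 c4 c0 c14 c2 (LT k839 k832) (LT k675 k634) (LT k21 k26) (LT k203 k223) (LT k205 k225)
                                · obtain ⟨e29, l29⟩ := (h1 e28).resolve_right k795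
                                  have c29 : Core e0 e29 := CJ k795 l29
                                  have k798 : e0 ≤ e29 := L1 l29
                                  have k799 : e28 ≤ e29 := L2 l29
                                  have k808 : e18 ≤ e29 := le_trans k753 k799
                                  have k838 : e19 ≤ e29 := L3 l19 k798 k808
                                  have k843 : e29 ≤ e19 := Classical.byContradiction fun hn => HL _ _ _ _ _ _ c9 c16 c22 c23 c19 c29 (LT k257 k284) (LT k451 k487) (LT k556 k551) (LT k524 k535) (LT k838 hn)
                                  have k844 : e28 ≤ e19 := le_trans k799 k843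
                                  obtain ⟨e30, l30⟩ := ZE h2 k756 k795 g21
                                  have c30 : Core e0 e30 := CZ g21 k795 l30
                                  have k848 : e21 ≤ e30 := L1 l30
                                  have k849 : e28 ≤ e30 := L2 l30
                                  have k850 : e30 ≤ e19 := L3 l30 k447 k844
                                  have k851 : e30 ≤ e20 := L3 l30 k431 k756
                                  have k859 : e18 ≤ e30 := le_trans k753 k849
                                  have k860 : ¬ e0 ≤ e30 := N2 k400 k851
                                  have k864 : ¬ e19 ≤ e30 := N1 k860 k361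
                                  have k892 : e23 ≤ e30 := L3 l23 k848 k859
                                  have k895 : e30 ≤ e23 := Classical.byContradiction fun hn => HL _ _ _ _ _ _ c9 c16 c22 c23 c30 c19 (LT k257 k284) (LT k451 k487) (LT k556 k551) (LT k892 hn) (LT k850 k864)
                                  have k900 : e28 ≤ e23 := le_trans k849 k895
                                  obtain ⟨e31, l31⟩ := ZE h2 k757 k795 g25
                                  have c31 : Core e0 e31 := CZ g25 k795 l31
                                  have k904 : e25 ≤ e31 := L1 l31
                                  have k905 : e28 ≤ e31 := L2 l31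
                                  have k910 : e31 ≤ e23 := L3 l31 k681 k900
                                  have k911 : e31 ≤ e24 := L3 l31 k601 k757
                                  have k917 : e18 ≤ e31 := le_trans k753 k905
                                  have k925 : ¬ e4 ≤ e31 := N2 k588 k911
                                  have k933 : ¬ e23 ≤ e31 := N1 k925 k527
                                  have k952 : ¬ e31 ≤ e27 := N1 k755 k905
                                  have k956 : e27 ≤ e31 := L3 l27 k904 k917
                                  exact HL _ _ _ _ _ _ c9 c17 c27 c31 c23 c19 (LT k307 k326) (LT k749 k744) (LT k956 k952) (LT k910 k933) (LT k524 k535)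
                              · obtain ⟨e25, l25⟩ := (h1 e24).resolve_right k595
                                have c25 : Core e0 e25 := CJ k595 l25
                                have k598 : e0 ≤ e25 := L1 l25
                                have k599 : e24 ≤ e25 := L2 l25
                                have k605 : e21 ≤ e25 := le_trans k430 k598
                                have k606 : e5 ≤ e25 := le_trans k558 k599
                                have k610 : e18 ≤ e25 := le_trans k561 k599
                                have k633 : e6 ≤ e25 := L3 l6 k598 k606
                                have k639 : e23 ≤ e25 := L3 l23 k605 k610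
                                have k641 : e2 ≤ e25 := le_trans k54 k633
                                have k642 : e25 ≤ e2 := Classical.byContradiction fun hn => HL _ _ _ _ _ _ c9 c16 c22 c7 c2 c25 (LT k257 k284) (LT k451 k487) (LT k515 k504) (LT k60 k64) (LT k641 hn)
                                have k650 : e23 ≤ e2 := le_trans k639 k642
                                have k652 : e24 ≤ e2 := le_trans k599 k642
                                have k658 : e24 ≤ e3 := MO hf q24 q3 k650
                                obtain ⟨e26, l26⟩ := ZE h2 k564 k595 g21
                                have c26 : Core e0 e26 := CZ g21 k595 l26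
                                have k675 : e21 ≤ e26 := L1 l26
                                have k676 : e24 ≤ e26 := L2 l26
                                have k677 : e26 ≤ e2 := L3 l26 k444 k652
                                have k678 : e26 ≤ e3 := L3 l26 k509 k658
                                have k691 : e18 ≤ e26 := le_trans k561 k676
                                have k692 : ¬ e0 ≤ e26 := N2 k15 k678
                                have k693 : ¬ e2 ≤ e26 := N1 k692 k6
                                have k717 : ¬ e26 ≤ e23 := N1 k563 k676
                                have k722 : e23 ≤ e26 := L3 l23 k675 k691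
                                exact HL _ _ _ _ _ _ c9 c16 c22 c23 c26 c2 (LT k257 k284) (LT k451 k487) (LT k556 k551) (LT k722 k717) (LT k677 k693)
                            · obtain ⟨e21, l21⟩ := (h1 e20).resolve_right k425
                              have c21 : Core e0 e21 := CJ k425 l21
                              have k428 : e0 ≤ e21 := L1 l21
                              have k429 : e20 ≤ e21 := L2 l21
                              have k443 : e18 ≤ e21 := le_trans k397 k429
                              have k462 : ¬ e21 ≤ e19 := N1 k399 k429
                              have k466 : e19 ≤ e21 := L3 l19 k428 k443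
                              exact HL _ _ _ _ _ _ c9 c16 c0 c14 c19 c21 (LT k257 k284) (LT k255 k267) (LT k203 k223) (LT k386 k388) (LT k466 k462)
                    · obtain ⟨e16, l16⟩ := (h1 e15).resolve_right k252
                      have c16 : Core e0 e16 := CJ k252 l16
                      have k259 : e0 ≤ e16 := L1 l16
                      have k260 : e15 ≤ e16 := L2 l16
                      have k265 : e1 ≤ e16 := le_trans k233 k260
                      have k268 : e12 ≤ e16 := le_trans k236 k260
                      have k283 : e2 ≤ e16 := L3 l2 k259 k265
                      have k288 : e16 ≤ e2 := Classical.byContradiction fun hn => HL _ _ _ _ _ _ c9 c4 c11 c14 c2 c16 (LT k104 k100) (LT k128 k146) (LT k224 k219) (LT k205 k225) (LT k283 hn)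
                      have k290 : e12 ≤ e2 := le_trans k268 k288
                      obtain ⟨e17, l17⟩ := ZE h2 k155 k125 g13
                      have c17 : Core e0 e17 := CZ g13 k125 l17
                      have k297 : e13 ≤ e17 := L1 l17
                      have k298 : e10 ≤ e17 := L2 l17
                      have k299 : e17 ≤ e2 := L3 l17 k178 k114
                      have k302 : e17 ≤ e7 := L3 l17 k197 k116
                      have k303 : e17 ≤ e8 := L3 l17 k181 k112
                      have k304 : e17 ≤ e11 := L3 l17 k198 k129
                      have k309 : e9 ≤ e17 := le_trans k199 k297
                      have k318 : ¬ e4 ≤ e17 := N2 k77 k303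
                      have k320 : ¬ e11 ≤ e17 := N1 k318 k128
                      have k328 : ¬ e17 ≤ e9 := N1 k108 k298
                      obtain ⟨e18, q18⟩ : ∃ y, f e17 = y := ⟨_, rfl⟩
                      have k332 : e10 ≤ e18 := MO hf q10 q18 k309
                      have k333 : ¬ e17 ≤ e18 := FA hF q18
                      have k334 : ¬ e18 ≤ e17 := FB hG q18
                      have k335 : e18 ≤ e3 := MO hf q18 q3 k299
                      have k336 : e18 ≤ e8 := MO hf q18 q8 k302
                      have k337 : e18 ≤ e12 := MO hf q18 q12 k304
                      have k339 : ¬ e13 ≤ e18 := L5 l17 k332 k333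
                      have k340 : e18 ≤ e2 := le_trans k337 k290
                      have k357 : ¬ e9 ≤ e18 := N1 k339 k196
                      by_cases k361 : ∃ z, IsGLB ({e0, e18} : Set P) z
                      · obtain ⟨e19, g19⟩ := k361
                        have c19 : Core e0 e19 := CM g19
                        have k364 : e19 ≤ e0 := G1 g19
                        have k365 : e19 ≤ e18 := G2 g19
                        have k373 : e19 ≤ e8 := le_trans k365 k336
                        have k390 : ¬ e9 ≤ e19 := N2 k357 k365
                        have k396 : e19 ≤ e9 := G3 g9 k364 k373
                        exact HL _ _ _ _ _ _ c19 c9 c4 c0 c14 c2 (LT k396 k390) (LT k104 k100) (LT k21 k26) (LT k203 k223) (LT k205 k225)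
                      · obtain ⟨e19, l19⟩ := (h1 e18).resolve_right k361
                        have c19 : Core e0 e19 := CJ k361 l19
                        have k364 : e0 ≤ e19 := L1 l19
                        have k365 : e18 ≤ e19 := L2 l19
                        have k366 : e19 ≤ e2 := L3 l19 k6 k340
                        have k373 : e10 ≤ e19 := le_trans k332 k365
                        have k391 : e14 ≤ e19 := L3 l14 k364 k373
                        by_cases k393 : e19 ≤ e14
                        · have k394 : e18 ≤ e14 := le_trans k365 k393
                          obtain ⟨e20, l20⟩ := ZE h2 k335 k361 g4
                          have c20 : Core e0 e20 := CZ g4 k361 l20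
                          have k408 : e4 ≤ e20 := L1 l20
                          have k409 : e18 ≤ e20 := L2 l20
                          have k411 : e20 ≤ e3 := L3 l20 k22 k335
                          have k413 : e20 ≤ e14 := L3 l20 k208 k394
                          have k418 : e10 ≤ e20 := le_trans k332 k409
                          have k419 : ¬ e0 ≤ e20 := N2 k15 k411
                          have k422 : ¬ e14 ≤ e20 := N1 k419 k203
                          have k445 : e11 ≤ e20 := L3 l11 k408 k418
                          have k447 : e20 ≤ e11 := Classical.byContradiction fun hn => HL _ _ _ _ _ _ c9 c17 c11 c20 c14 c2 (LT k309 k328) (LT k304 k320) (LT k445 hn) (LT k413 k422) (LT k205 k225)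
                          have k450 : e18 ≤ e11 := le_trans k409 k447
                          obtain ⟨e21, l21⟩ := ZE h2 k337 k361 g13
                          have c21 : Core e0 e21 := CZ g13 k361 l21
                          have k453 : e13 ≤ e21 := L1 l21
                          have k454 : e18 ≤ e21 := L2 l21
                          have k459 : e21 ≤ e8 := L3 l21 k181 k336
                          have k460 : e21 ≤ e11 := L3 l21 k198 k450
                          have k468 : e10 ≤ e21 := le_trans k332 k454
                          have k478 : ¬ e4 ≤ e21 := N2 k77 k459
                          have k480 : ¬ e11 ≤ e21 := N1 k478 k128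
                          have k492 : ¬ e21 ≤ e17 := N1 k334 k454
                          have k494 : e17 ≤ e21 := L3 l17 k453 k468
                          exact HL _ _ _ _ _ _ c9 c17 c21 c11 c14 c2 (LT k309 k328) (LT k494 k492) (LT k460 k480) (LT k224 k219) (LT k205 k225)
                        · have k394 : ¬ e18 ≤ e14 := L4 l19 k203 k393
                          have k395 : ¬ e18 ≤ e11 := N2 k394 k224
                          have k396 : e2 ≤ e19 := Classical.byContradiction fun hn => HL _ _ _ _ _ _ c9 c17 c11 c14 c19 c2 (LT k309 k328) (LT k304 k320) (LT k224 k219) (LT k391 k393) (LT k366 hn)
                          obtain ⟨e20, l20⟩ := ZE h2 k335 k361 g4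
                          have c20 : Core e0 e20 := CZ g4 k361 l20
                          have k406 : e4 ≤ e20 := L1 l20
                          have k407 : e18 ≤ e20 := L2 l20
                          have k408 : e20 ≤ e2 := L3 l20 k25 k340
                          have k409 : e20 ≤ e3 := L3 l20 k22 k335
                          have k413 : e9 ≤ e20 := le_trans k104 k406
                          have k414 : e13 ≤ e20 := le_trans k195 k406
                          have k415 : e10 ≤ e20 := le_trans k332 k407
                          have k416 : ¬ e0 ≤ e20 := N2 k15 k409
                          have k417 : ¬ e2 ≤ e20 := N1 k416 k6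
                          have k435 : ¬ e20 ≤ e11 := N1 k395 k407
                          have k438 : e11 ≤ e20 := L3 l11 k406 k415
                          have k439 : e17 ≤ e20 := L3 l17 k414 k415
                          obtain ⟨e21, q21⟩ : ∃ y, f e20 = y := ⟨_, rfl⟩
                          have k441 : e5 ≤ e21 := MO hf q5 q21 k406
                          have k442 : e10 ≤ e21 := MO hf q10 q21 k413
                          have k443 : e12 ≤ e21 := MO hf q12 q21 k438
                          have k444 : e18 ≤ e21 := MO hf q18 q21 k439
                          have k445 : ¬ e20 ≤ e21 := FA hF q21
                          have k446 : ¬ e21 ≤ e20 := FB hG q21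
                          have k447 : e21 ≤ e3 := MO hf q21 q3 k408
                          have k448 : ¬ e4 ≤ e21 := L5 l20 k444 k445
                          have k449 : e9 ≤ e21 := le_trans k200 k443
                          have k450 : e13 ≤ e21 := le_trans k174 k443
                          by_cases k471 : ∃ z, IsGLB ({e0, e21} : Set P) z
                          · obtain ⟨e22, g22⟩ := k471
                            have c22 : Core e0 e22 := CM g22
                            obtain ⟨e23, l23⟩ := ZE h2 k442 k125 g22
                            have c23 : Core e0 e23 := CZ g22 k125 l23
                            have k476 : e22 ≤ e0 := G1 g22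
                            have k477 : e22 ≤ e21 := G2 g22
                            have k478 : e9 ≤ e22 := G3 g22 k88 k449
                            have k479 : e13 ≤ e22 := G3 g22 k173 k450
                            have k487 : e22 ≤ e2 := le_trans k476 k6
                            have k492 : e22 ≤ e3 := le_trans k477 k447
                            have k512 : ¬ e4 ≤ e22 := N2 k448 k477
                            have k535 : e22 ≤ e4 := G3 g4 k476 k492
                            have k545 : e22 ≤ e20 := le_trans k535 k406
                            have k556 : e22 ≤ e9 := Classical.byContradiction fun hn => HL _ _ _ _ _ _ c9 c22 c4 c0 c14 c2 (LT k478 hn) (LT k535 k512) (LT k21 k26) (LT k203 k223) (LT k205 k225)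
                            have k557 : e22 ≤ e8 := le_trans k556 k89
                            obtain ⟨e24, l24⟩ := ZE h2 k444 k361 g22
                            have c24 : Core e0 e24 := CZ g22 k361 l24
                            have k568 : e22 ≤ e24 := L1 l24
                            have k569 : e18 ≤ e24 := L2 l24
                            have k570 : e24 ≤ e2 := L3 l24 k487 k340
                            have k573 : e24 ≤ e8 := L3 l24 k557 k336
                            have k578 : e24 ≤ e20 := L3 l24 k545 k407
                            have k580 : e10 ≤ e24 := le_trans k332 k569
                            have k582 : e13 ≤ e24 := le_trans k479 k568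
                            have k590 : ¬ e4 ≤ e24 := N2 k77 k573
                            have k593 : ¬ e20 ≤ e24 := N1 k590 k406
                            have k604 : ¬ e24 ≤ e17 := N1 k334 k569
                            have k608 : e17 ≤ e24 := L3 l17 k582 k580
                            obtain ⟨e25, q25⟩ : ∃ y, f e24 = y := ⟨_, rfl⟩
                            have k612 : e18 ≤ e25 := MO hf q18 q25 k608
                            have k613 : ¬ e24 ≤ e25 := FA hF q25
                            have k614 : ¬ e25 ≤ e24 := FB hG q25
                            have k615 : e25 ≤ e3 := MO hf q25 q3 k570
                            have k616 : e25 ≤ e21 := MO hf q25 q21 k578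
                            have k617 : ¬ e22 ≤ e25 := L5 l24 k612 k613
                            have k640 : ¬ e9 ≤ e25 := N1 k617 k556
                            by_cases k648 : ∃ z, IsGLB ({e0, e25} : Set P) z
                            · obtain ⟨e26, g26⟩ := k648
                              have c26 : Core e0 e26 := CM g26
                              have k651 : e26 ≤ e0 := G1 g26
                              have k652 : e26 ≤ e25 := G2 g26
                              have k662 : e26 ≤ e21 := le_trans k652 k616
                              have k680 : ¬ e9 ≤ e26 := N2 k640 k652
                              have k683 : ¬ e22 ≤ e26 := N1 k680 k478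
                              have k690 : e26 ≤ e22 := G3 g22 k651 k662
                              exact HL _ _ _ _ _ _ c26 c22 c4 c0 c14 c2 (LT k690 k683) (LT k535 k512) (LT k21 k26) (LT k203 k223) (LT k205 k225)
                            · obtain ⟨e26, l26⟩ := (h1 e25).resolve_right k648
                              have c26 : Core e0 e26 := CJ k648 l26
                              have k651 : e0 ≤ e26 := L1 l26
                              have k652 : e25 ≤ e26 := L2 l26
                              have k659 : e18 ≤ e26 := le_trans k612 k652
                              have k685 : e19 ≤ e26 := L3 l19 k651 k659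
                              have k690 : e2 ≤ e26 := le_trans k396 k685
                              have k697 : e26 ≤ e2 := Classical.byContradiction fun hn => HL _ _ _ _ _ _ c9 c17 c11 c14 c2 c26 (LT k309 k328) (LT k304 k320) (LT k224 k219) (LT k205 k225) (LT k690 hn)
                              have k701 : e25 ≤ e2 := le_trans k652 k697
                              obtain ⟨e27, l27⟩ := ZE h2 k615 k648 g4
                              have c27 : Core e0 e27 := CZ g4 k648 l27
                              have k708 : e4 ≤ e27 := L1 l27
                              have k709 : e25 ≤ e27 := L2 l27
                              have k710 : e27 ≤ e2 := L3 l27 k25 k701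
                              have k711 : e27 ≤ e3 := L3 l27 k22 k615
                              have k720 : e18 ≤ e27 := le_trans k612 k709
                              have k721 : ¬ e0 ≤ e27 := N2 k15 k711
                              have k722 : ¬ e2 ≤ e27 := N1 k721 k6
                              have k751 : e20 ≤ e27 := L3 l20 k708 k720
                              have k754 : e27 ≤ e20 := Classical.byContradiction fun hn => HL _ _ _ _ _ _ c9 c17 c24 c20 c27 c2 (LT k309 k328) (LT k608 k604) (LT k578 k593) (LT k751 hn) (LT k710 k722)
                              have k755 : e25 ≤ e20 := le_trans k709 k754
                              obtain ⟨e28, l28⟩ := ZE h2 k616 k648 g22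
                              have c28 : Core e0 e28 := CZ g22 k648 l28
                              have k759 : e22 ≤ e28 := L1 l28
                              have k760 : e25 ≤ e28 := L2 l28
                              have k766 : e28 ≤ e20 := L3 l28 k545 k755
                              have k767 : e28 ≤ e21 := L3 l28 k477 k616
                              have k773 : e18 ≤ e28 := le_trans k612 k760
                              have k782 : ¬ e4 ≤ e28 := N2 k448 k767
                              have k785 : ¬ e20 ≤ e28 := N1 k782 k406
                              have k801 : ¬ e28 ≤ e24 := N1 k614 k760
                              have k805 : e24 ≤ e28 := L3 l24 k759 k773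
                              exact HL _ _ _ _ _ _ c9 c17 c24 c28 c20 c2 (LT k309 k328) (LT k608 k604) (LT k805 k801) (LT k766 k785) (LT k408 k417)
                          · obtain ⟨e22, l22⟩ := (h1 e21).resolve_right k471
                            have c22 : Core e0 e22 := CJ k471 l22
                            have k474 : e0 ≤ e22 := L1 l22
                            have k475 : e21 ≤ e22 := L2 l22
                            have k480 : e5 ≤ e22 := le_trans k441 k475
                            have k503 : e6 ≤ e22 := L3 l6 k474 k480
                            have k510 : e2 ≤ e22 := le_trans k54 k503
                            have k513 : e22 ≤ e2 := Classical.byContradiction fun hn => HL _ _ _ _ _ _ c9 c17 c11 c14 c2 c22 (LT k309 k328) (LT k304 k320) (LT k224 k219) (LT k205 k225) (LT k510 hn)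
                            have k517 : e21 ≤ e2 := le_trans k475 k513
                            obtain ⟨e23, l23⟩ := ZE h2 k447 k471 g4
                            have c23 : Core e0 e23 := CZ g4 k471 l23
                            have k524 : e4 ≤ e23 := L1 l23
                            have k525 : e21 ≤ e23 := L2 l23
                            have k526 : e23 ≤ e2 := L3 l23 k25 k517
                            have k527 : e23 ≤ e3 := L3 l23 k22 k447
                            have k538 : e18 ≤ e23 := le_trans k444 k525
                            have k539 : ¬ e0 ≤ e23 := N2 k15 k527
                            have k540 : ¬ e2 ≤ e23 := N1 k539 k6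
                            have k562 : ¬ e23 ≤ e20 := N1 k446 k525
                            have k566 : e20 ≤ e23 := L3 l20 k524 k538
                            exact HL _ _ _ _ _ _ c9 c17 c11 c20 c23 c2 (LT k309 k328) (LT k304 k320) (LT k438 k435) (LT k566 k562) (LT k526 k540)
                · have k171 : ¬ e9 ≤ e12 := BN3 g9 k170 k159
                  obtain ⟨e13, l13⟩ := (h1 e12).resolve_right k170
                  have c13 : Core e0 e13 := CJ k170 l13
                  have k175 : e0 ≤ e13 := L1 l13
                  have k176 : e12 ≤ e13 := L2 l13
                  have k180 : e5 ≤ e13 := le_trans k154 k176
                  have k193 : e6 ≤ e13 := L3 l6 k175 k180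
                  have k197 : e2 ≤ e13 := le_trans k54 k193
                  have k198 : e13 ≤ e2 := Classical.byContradiction fun hn => HL _ _ _ _ _ _ c9 c4 c11 c7 c2 c13 (LT k104 k100) (LT k128 k146) (LT k133 k148) (LT k60 k64) (LT k197 hn)
                  have k200 : e12 ≤ e2 := le_trans k176 k198
                  obtain ⟨e14, l14⟩ := ZE h2 k158 k170 g4
                  have c14 : Core e0 e14 := CZ g4 k170 l14
                  have k205 : e4 ≤ e14 := L1 l14
                  have k206 : e12 ≤ e14 := L2 l14
                  have k207 : e14 ≤ e2 := L3 l14 k25 k200
                  have k208 : e14 ≤ e3 := L3 l14 k22 k158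
                  have k212 : e5 ≤ e14 := le_trans k154 k206
                  have k213 : e10 ≤ e14 := le_trans k155 k206
                  have k214 : ¬ e0 ≤ e14 := N2 k15 k208
                  have k215 : ¬ e2 ≤ e14 := N1 k214 k6
                  have k227 : ¬ e14 ≤ e11 := N1 k149 k212
                  have k229 : e7 ≤ e14 := L3 l7 k205 k212
                  have k230 : e11 ≤ e14 := L3 l11 k205 k213
                  have k231 : e14 ≤ e7 := Classical.byContradiction fun hn => HL _ _ _ _ _ _ c9 c4 c11 c7 c14 c2 (LT k104 k100) (LT k128 k146) (LT k133 k148) (LT k229 hn) (LT k207 k215)
                  have k232 : e12 ≤ e7 := le_trans k206 k231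
                  obtain ⟨e15, l15⟩ := ZE h2 k112 k125 g9
                  have c15 : Core e0 e15 := CZ g9 k125 l15
                  have k236 : e9 ≤ e15 := L1 l15
                  have k237 : e10 ≤ e15 := L2 l15
                  have k238 : e15 ≤ e2 := L3 l15 k92 k114
                  have k241 : e15 ≤ e7 := L3 l15 k105 k116
                  have k242 : e15 ≤ e8 := L3 l15 k89 k112
                  have k243 : e15 ≤ e11 := L3 l15 k134 k129
                  have k252 : ¬ e4 ≤ e15 := N2 k77 k242
                  have k254 : ¬ e11 ≤ e15 := N1 k252 k128
                  have k264 : ¬ e15 ≤ e9 := N1 k108 k237
                  obtain ⟨e16, q16⟩ : ∃ y, f e15 = y := ⟨_, rfl⟩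
                  have k267 : e10 ≤ e16 := MO hf q10 q16 k236
                  have k269 : ¬ e16 ≤ e15 := FB hG q16
                  have k270 : e16 ≤ e3 := MO hf q16 q3 k238
                  have k271 : e16 ≤ e8 := MO hf q16 q8 k241
                  have k272 : e16 ≤ e12 := MO hf q16 q12 k243
                  have k274 : e16 ≤ e2 := le_trans k272 k200
                  have k276 : e16 ≤ e7 := le_trans k272 k232
                  by_cases k293 : ∃ z, IsGLB ({e0, e16} : Set P) z
                  · obtain ⟨e17, g17⟩ := k293
                    have c17 : Core e0 e17 := CM g17
                    have k296 : e17 ≤ e0 := G1 g17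
                    have k297 : e17 ≤ e16 := G2 g17
                    have k305 : e17 ≤ e8 := le_trans k297 k271
                    have k306 : e17 ≤ e12 := le_trans k297 k272
                    have k321 : ¬ e9 ≤ e17 := N2 k171 k306
                    have k326 : e17 ≤ e9 := G3 g9 k296 k305
                    exact HL _ _ _ _ _ _ c17 c9 c15 c11 c14 c2 (LT k326 k321) (LT k236 k264) (LT k243 k254) (LT k230 k227) (LT k207 k215)
                  · obtain ⟨e17, l17⟩ := ZE h2 k270 k293 g4
                    have c17 : Core e0 e17 := CZ g4 k293 l17
                    have k296 : e4 ≤ e17 := L1 l17
                    have k297 : e16 ≤ e17 := L2 l17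
                    have k301 : e17 ≤ e7 := L3 l17 k58 k276
                    have k305 : e10 ≤ e17 := le_trans k267 k297
                    have k323 : e11 ≤ e17 := L3 l11 k296 k305
                    by_cases k325 : e17 ≤ e11
                    · have k326 : e16 ≤ e11 := le_trans k297 k325
                      obtain ⟨e18, l18⟩ := ZE h2 k271 k293 g9
                      have c18 : Core e0 e18 := CZ g9 k293 l18
                      have k337 : e9 ≤ e18 := L1 l18
                      have k338 : e16 ≤ e18 := L2 l18
                      have k343 : e18 ≤ e8 := L3 l18 k89 k271
                      have k344 : e18 ≤ e11 := L3 l18 k134 k326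
                      have k348 : e10 ≤ e18 := le_trans k267 k338
                      have k355 : ¬ e4 ≤ e18 := N2 k77 k343
                      have k357 : ¬ e11 ≤ e18 := N1 k355 k128
                      have k370 : ¬ e18 ≤ e15 := N1 k269 k338
                      have k372 : e15 ≤ e18 := L3 l15 k337 k348
                      exact HL _ _ _ _ _ _ c9 c15 c18 c11 c14 c2 (LT k236 k264) (LT k372 k370) (LT k344 k357) (LT k230 k227) (LT k207 k215)
                    · have k327 : e7 ≤ e17 := Classical.byContradiction fun hn => HL _ _ _ _ _ _ c9 c15 c11 c17 c7 c2 (LT k236 k264) (LT k243 k254) (LT k323 k325) (LT k301 hn) (LT k60 k64)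
                      have k328 : e5 ≤ e17 := le_trans k59 k327
                      obtain ⟨e18, l18⟩ := ZE h2 k271 k293 g9
                      have c18 : Core e0 e18 := CZ g9 k293 l18
                      have k333 : e9 ≤ e18 := L1 l18
                      have k334 : e16 ≤ e18 := L2 l18
                      have k335 : e18 ≤ e2 := L3 l18 k92 k274
                      have k338 : e18 ≤ e7 := L3 l18 k105 k276
                      have k339 : e18 ≤ e8 := L3 l18 k89 k271
                      have k343 : e10 ≤ e18 := le_trans k267 k334
                      have k349 : ¬ e4 ≤ e18 := N2 k77 k339
                      have k350 : ¬ e7 ≤ e18 := N1 k349 k58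
                      have k363 : ¬ e18 ≤ e15 := N1 k269 k334
                      have k365 : e15 ≤ e18 := L3 l15 k333 k343
                      obtain ⟨e19, q19⟩ : ∃ y, f e18 = y := ⟨_, rfl⟩
                      have k368 : e16 ≤ e19 := MO hf q16 q19 k365
                      have k369 : ¬ e18 ≤ e19 := FA hF q19
                      have k370 : ¬ e19 ≤ e18 := FB hG q19
                      have k371 : e19 ≤ e3 := MO hf q19 q3 k335
                      have k372 : e19 ≤ e8 := MO hf q19 q8 k338
                      have k373 : ¬ e9 ≤ e19 := L5 l18 k368 k369
                      by_cases k393 : ∃ z, IsGLB ({e0, e19} : Set P) z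
                      · obtain ⟨e20, g20⟩ := k393
                        have c20 : Core e0 e20 := CM g20
                        have k396 : e20 ≤ e0 := G1 g20
                        have k397 : e20 ≤ e19 := G2 g20
                        have k405 : e20 ≤ e8 := le_trans k397 k372
                        have k420 : ¬ e9 ≤ e20 := N2 k373 k397
                        have k427 : e20 ≤ e9 := G3 g9 k396 k405
                        exact HL _ _ _ _ _ _ c20 c9 c15 c18 c7 c2 (LT k427 k420) (LT k236 k264) (LT k365 k363) (LT k338 k350) (LT k60 k64)
                      · obtain ⟨e20, l20⟩ := (h1 e19).resolve_right k393
                        have c20 : Core e0 e20 := CJ k393 l20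
                        have k396 : e0 ≤ e20 := L1 l20
                        have k397 : e19 ≤ e20 := L2 l20
                        have k399 : e4 ≤ e20 := le_trans k21 k396
                        have k402 : e16 ≤ e20 := le_trans k368 k397
                        have k422 : e17 ≤ e20 := L3 l17 k399 k402
                        have k424 : e5 ≤ e20 := le_trans k328 k422
                        have k428 : e6 ≤ e20 := L3 l6 k396 k424
                        have k431 : e2 ≤ e20 := le_trans k54 k428
                        have k432 : e20 ≤ e2 := Classical.byContradiction fun hn => HL _ _ _ _ _ _ c9 c15 c18 c7 c2 c20 (LT k236 k264) (LT k365 k363) (LT k338 k350) (LT k60 k64) (LT k431 hn)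
                        have k435 : e19 ≤ e2 := le_trans k397 k432
                        obtain ⟨e21, l21⟩ := ZE h2 k371 k393 g4
                        have c21 : Core e0 e21 := CZ g4 k393 l21
                        have k441 : e4 ≤ e21 := L1 l21
                        have k442 : e19 ≤ e21 := L2 l21
                        have k443 : e21 ≤ e2 := L3 l21 k25 k435
                        have k444 : e21 ≤ e3 := L3 l21 k22 k371
                        have k450 : e16 ≤ e21 := le_trans k368 k442
                        have k451 : ¬ e0 ≤ e21 := N2 k15 k444
                        have k452 : ¬ e2 ≤ e21 := N1 k451 k6
                        have k473 : e17 ≤ e21 := L3 l17 k441 k450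
                        have k476 : e7 ≤ e21 := le_trans k327 k473
                        have k479 : e21 ≤ e7 := Classical.byContradiction fun hn => HL _ _ _ _ _ _ c9 c15 c18 c7 c21 c2 (LT k236 k264) (LT k365 k363) (LT k338 k350) (LT k476 hn) (LT k443 k452)
                        have k482 : e19 ≤ e7 := le_trans k442 k479
                        obtain ⟨e22, l22⟩ := ZE h2 k372 k393 g9
                        have c22 : Core e0 e22 := CZ g9 k393 l22
                        have k488 : e9 ≤ e22 := L1 l22
                        have k489 : e19 ≤ e22 := L2 l22
                        have k493 : e22 ≤ e7 := L3 l22 k105 k482
                        have k494 : e22 ≤ e8 := L3 l22 k89 k372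
                        have k501 : e16 ≤ e22 := le_trans k368 k489
                        have k508 : ¬ e4 ≤ e22 := N2 k77 k494
                        have k509 : ¬ e7 ≤ e22 := N1 k508 k58
                        have k525 : ¬ e22 ≤ e18 := N1 k370 k489
                        have k528 : e18 ≤ e22 := L3 l18 k488 k501
                        exact HL _ _ _ _ _ _ c9 c15 c18 c22 c7 c2 (LT k236 k264) (LT k365 k363) (LT k528 k525) (LT k493 k509) (LT k60 k64)
          · obtain ⟨e9, l9⟩ := (h1 e8).resolve_right k85
            have c9 : Core e0 e9 := CJ k85 l9
            have k88 : e0 ≤ e9 := L1 l9
            have k89 : e8 ≤ e9 := L2 l9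
            have k91 : e4 ≤ e9 := le_trans k21 k88
            have k92 : e5 ≤ e9 := le_trans k73 k89
            have k100 : e6 ≤ e9 := L3 l6 k88 k92
            have k101 : e7 ≤ e9 := L3 l7 k91 k92
            have k102 : e1 ≤ e9 := le_trans k55 k100
            have k103 : e2 ≤ e9 := le_trans k54 k100
            by_cases k104 : e9 ≤ e2
            · have k106 : e8 ≤ e2 := le_trans k89 k104
              obtain ⟨e10, l10⟩ := ZE h2 k76 k85 g4
              have c10 : Core e0 e10 := CZ g4 k85 l10
              have k111 : e4 ≤ e10 := L1 l10
              have k112 : e8 ≤ e10 := L2 l10
              have k113 : e10 ≤ e2 := L3 l10 k25 k106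
              have k114 : e10 ≤ e3 := L3 l10 k22 k76
              have k117 : e5 ≤ e10 := le_trans k73 k112
              have k118 : ¬ e0 ≤ e10 := N2 k15 k114
              have k119 : ¬ e2 ≤ e10 := N1 k118 k6
              have k128 : ¬ e10 ≤ e7 := N1 k75 k112
              have k130 : e7 ≤ e10 := L3 l7 k111 k117
              obtain ⟨e11, q11⟩ : ∃ y, f e10 = y := ⟨_, rfl⟩
              have k132 : e5 ≤ e11 := MO hf q5 q11 k111
              have k133 : e8 ≤ e11 := MO hf q8 q11 k130
              have k134 : ¬ e10 ≤ e11 := FA hF q11
              have k135 : ¬ e11 ≤ e10 := FB hG q11
              have k136 : e11 ≤ e3 := MO hf q11 q3 k113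
              have k137 : ¬ e4 ≤ e11 := L5 l10 k133 k134
              by_cases k149 : ∃ z, IsGLB ({e0, e11} : Set P) z
              · obtain ⟨e12, g12⟩ := k149
                have c12 : Core e0 e12 := CM g12
                have k152 : e12 ≤ e0 := G1 g12
                have k153 : e12 ≤ e11 := G2 g12
                have k154 : ¬ e12 ≤ e5 := BN3 g12 k40 k132
                have k155 : ¬ e12 ≤ e8 := BN3 g12 k85 k133
                have k157 : e12 ≤ e2 := le_trans k152 k6
                have k160 : e12 ≤ e3 := le_trans k153 k136
                have k167 : ¬ e4 ≤ e12 := N2 k137 k153
                have k173 : e12 ≤ e4 := G3 g4 k152 k160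
                have k174 : e12 ≤ e7 := le_trans k173 k58
                have k175 : e12 ≤ e10 := le_trans k173 k111
                obtain ⟨e13, q13⟩ : ∃ y, f e12 = y := ⟨_, rfl⟩
                have k178 : ¬ e13 ≤ e12 := FB hG q13
                have k179 : e13 ≤ e1 := MO hf q13 q1 k152
                have k180 : e13 ≤ e3 := MO hf q13 q3 k157
                have k181 : e13 ≤ e5 := MO hf q13 q5 k173
                have k183 : e13 ≤ e11 := MO hf q13 q11 k175
                have k184 : ¬ e13 ≤ e0 := G5 g12 k183 k178
                have k185 : e13 ≤ e2 := le_trans k179 k7
                have k188 : e13 ≤ e7 := le_trans k181 k59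
                have k189 : e13 ≤ e10 := le_trans k181 k117
                have k200 : ¬ e13 ≤ e4 := N2 k184 k21
                by_cases k201 : ∃ z, IsGLB ({e0, e13} : Set P) z
                · obtain ⟨e14, g14⟩ := k201
                  have c14 : Core e0 e14 := CM g14
                  have k204 : e14 ≤ e0 := G1 g14
                  have k205 : e14 ≤ e13 := G2 g14
                  have k212 : e14 ≤ e5 := le_trans k205 k181
                  have k216 : e14 ≤ e11 := le_trans k205 k183
                  have k229 : ¬ e12 ≤ e14 := N2 k154 k212
                  have k232 : e14 ≤ e12 := G3 g12 k204 k216
                  exact HL _ _ _ _ _ _ c14 c12 c4 c7 c10 c2 (LT k232 k229) (LT k173 k167) (LT k58 k70) (LT k130 k128) (LT k113 k119)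
                · obtain ⟨e14, l14⟩ := ZE h2 k180 k201 g4
                  have c14 : Core e0 e14 := CZ g4 k201 l14
                  have k204 : e4 ≤ e14 := L1 l14
                  have k205 : e13 ≤ e14 := L2 l14
                  have k209 : e14 ≤ e7 := L3 l14 k58 k188
                  have k228 : ¬ e14 ≤ e4 := N1 k200 k205
                  have k230 : e7 ≤ e14 := Classical.byContradiction fun hn => HL _ _ _ _ _ _ c12 c4 c14 c7 c10 c2 (LT k173 k167) (LT k204 k228) (LT k209 hn) (LT k130 k128) (LT k113 k119)
                  have k231 : e5 ≤ e14 := le_trans k59 k230
                  obtain ⟨e15, l15⟩ := ZE h2 k183 k201 g12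
                  have c15 : Core e0 e15 := CZ g12 k201 l15
                  have k234 : e12 ≤ e15 := L1 l15
                  have k235 : e13 ≤ e15 := L2 l15
                  have k236 : e15 ≤ e2 := L3 l15 k157 k185
                  have k239 : e15 ≤ e7 := L3 l15 k174 k188
                  have k241 : e15 ≤ e10 := L3 l15 k175 k189
                  have k242 : e15 ≤ e11 := L3 l15 k153 k183
                  have k249 : ¬ e4 ≤ e15 := N2 k137 k242
                  have k250 : ¬ e7 ≤ e15 := N1 k249 k58
                  have k260 : ¬ e15 ≤ e12 := N1 k178 k235
                  obtain ⟨e16, q16⟩ : ∃ y, f e15 = y := ⟨_, rfl⟩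
                  have k263 : e13 ≤ e16 := MO hf q13 q16 k234
                  have k265 : ¬ e16 ≤ e15 := FB hG q16
                  have k266 : e16 ≤ e3 := MO hf q16 q3 k236
                  have k267 : e16 ≤ e8 := MO hf q16 q8 k239
                  have k268 : e16 ≤ e11 := MO hf q16 q11 k241
                  have k270 : e16 ≤ e2 := le_trans k267 k106
                  have k273 : e16 ≤ e10 := le_trans k267 k112
                  by_cases k288 : ∃ z, IsGLB ({e0, e16} : Set P) z
                  · obtain ⟨e17, g17⟩ := k288
                    have c17 : Core e0 e17 := CM g17
                    have k291 : e17 ≤ e0 := G1 g17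
                    have k292 : e17 ≤ e16 := G2 g17
                    have k299 : e17 ≤ e8 := le_trans k292 k267
                    have k301 : e17 ≤ e11 := le_trans k292 k268
                    have k315 : ¬ e12 ≤ e17 := N2 k155 k299
                    have k320 : e17 ≤ e12 := G3 g12 k291 k301
                    exact HL _ _ _ _ _ _ c17 c12 c15 c7 c10 c2 (LT k320 k315) (LT k234 k260) (LT k239 k250) (LT k130 k128) (LT k113 k119)
                  · obtain ⟨e17, l17⟩ := ZE h2 k266 k288 g4
                    have c17 : Core e0 e17 := CZ g4 k288 l17
                    have k291 : e4 ≤ e17 := L1 l17
                    have k292 : e16 ≤ e17 := L2 l17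
                    have k297 : e17 ≤ e10 := L3 l17 k111 k273
                    have k299 : e13 ≤ e17 := le_trans k263 k292
                    have k317 : e14 ≤ e17 := L3 l14 k291 k299
                    have k320 : e7 ≤ e17 := le_trans k230 k317
                    by_cases k321 : e17 ≤ e7
                    · have k323 : e16 ≤ e7 := le_trans k292 k321
                      obtain ⟨e18, l18⟩ := ZE h2 k268 k288 g12
                      have c18 : Core e0 e18 := CZ g12 k288 l18
                      have k330 : e12 ≤ e18 := L1 l18
                      have k331 : e16 ≤ e18 := L2 l18
                      have k335 : e18 ≤ e7 := L3 l18 k174 k323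
                      have k338 : e18 ≤ e11 := L3 l18 k153 k268
                      have k341 : e13 ≤ e18 := le_trans k263 k331
                      have k347 : ¬ e4 ≤ e18 := N2 k137 k338
                      have k348 : ¬ e7 ≤ e18 := N1 k347 k58
                      have k361 : ¬ e18 ≤ e15 := N1 k265 k331
                      have k363 : e15 ≤ e18 := L3 l15 k330 k341
                      exact HL _ _ _ _ _ _ c12 c15 c18 c7 c10 c2 (LT k234 k260) (LT k363 k361) (LT k335 k348) (LT k130 k128) (LT k113 k119)
                    · have k326 : e10 ≤ e17 := Classical.byContradiction fun hn => HL _ _ _ _ _ _ c12 c15 c7 c17 c10 c2 (LT k234 k260) (LT k239 k250) (LT k320 k321) (LT k297 hn) (LT k113 k119)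
                      obtain ⟨e18, l18⟩ := ZE h2 k268 k288 g12
                      have c18 : Core e0 e18 := CZ g12 k288 l18
                      have k330 : e12 ≤ e18 := L1 l18
                      have k331 : e16 ≤ e18 := L2 l18
                      have k332 : e18 ≤ e2 := L3 l18 k157 k270
                      have k336 : e18 ≤ e10 := L3 l18 k175 k273
                      have k337 : e18 ≤ e11 := L3 l18 k153 k268
                      have k339 : e13 ≤ e18 := le_trans k263 k331
                      have k345 : ¬ e4 ≤ e18 := N2 k137 k337
                      have k347 : ¬ e10 ≤ e18 := N1 k345 k111
                      have k360 : ¬ e18 ≤ e15 := N1 k265 k331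
                      have k362 : e15 ≤ e18 := L3 l15 k330 k339
                      obtain ⟨e19, q19⟩ : ∃ y, f e18 = y := ⟨_, rfl⟩
                      have k364 : e13 ≤ e19 := MO hf q13 q19 k330
                      have k365 : e16 ≤ e19 := MO hf q16 q19 k362
                      have k366 : ¬ e18 ≤ e19 := FA hF q19
                      have k367 : ¬ e19 ≤ e18 := FB hG q19
                      have k368 : e19 ≤ e3 := MO hf q19 q3 k332
                      have k369 : e19 ≤ e11 := MO hf q19 q11 k336
                      have k370 : ¬ e12 ≤ e19 := L5 l18 k365 k366
                      by_cases k392 : ∃ z, IsGLB ({e0, e19} : Set P) z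
                      · obtain ⟨e20, g20⟩ := k392
                        have c20 : Core e0 e20 := CM g20
                        have k395 : e20 ≤ e0 := G1 g20
                        have k396 : e20 ≤ e19 := G2 g20
                        have k404 : e20 ≤ e11 := le_trans k396 k369
                        have k419 : ¬ e12 ≤ e20 := N2 k370 k396
                        have k426 : e20 ≤ e12 := G3 g12 k395 k404
                        exact HL _ _ _ _ _ _ c20 c12 c15 c18 c10 c2 (LT k426 k419) (LT k234 k260) (LT k362 k360) (LT k336 k347) (LT k113 k119)
                      · obtain ⟨e20, l20⟩ := (h1 e19).resolve_right k392
                        have c20 : Core e0 e20 := CJ k392 l20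
                        have k395 : e0 ≤ e20 := L1 l20
                        have k396 : e19 ≤ e20 := L2 l20
                        have k398 : e4 ≤ e20 := le_trans k21 k395
                        have k400 : e13 ≤ e20 := le_trans k364 k396
                        have k419 : e14 ≤ e20 := L3 l14 k398 k400
                        have k423 : e5 ≤ e20 := le_trans k231 k419
                        have k427 : e6 ≤ e20 := L3 l6 k395 k423
                        have k430 : e2 ≤ e20 := le_trans k54 k427
                        have k431 : e20 ≤ e2 := Classical.byContradiction fun hn => HL _ _ _ _ _ _ c12 c15 c18 c10 c2 c20 (LT k234 k260) (LT k362 k360) (LT k336 k347) (LT k113 k119) (LT k430 hn)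
                        have k434 : e19 ≤ e2 := le_trans k396 k431
                        obtain ⟨e21, l21⟩ := ZE h2 k368 k392 g4
                        have c21 : Core e0 e21 := CZ g4 k392 l21
                        have k440 : e4 ≤ e21 := L1 l21
                        have k441 : e19 ≤ e21 := L2 l21
                        have k442 : e21 ≤ e2 := L3 l21 k25 k434
                        have k443 : e21 ≤ e3 := L3 l21 k22 k368
                        have k449 : e16 ≤ e21 := le_trans k365 k441
                        have k450 : ¬ e0 ≤ e21 := N2 k15 k443
                        have k451 : ¬ e2 ≤ e21 := N1 k450 k6
                        have k473 : e17 ≤ e21 := L3 l17 k440 k449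
                        have k478 : e10 ≤ e21 := le_trans k326 k473
                        have k479 : e21 ≤ e10 := Classical.byContradiction fun hn => HL _ _ _ _ _ _ c12 c15 c18 c10 c21 c2 (LT k234 k260) (LT k362 k360) (LT k336 k347) (LT k478 hn) (LT k442 k451)
                        have k481 : e19 ≤ e10 := le_trans k441 k479
                        obtain ⟨e22, l22⟩ := ZE h2 k369 k392 g12
                        have c22 : Core e0 e22 := CZ g12 k392 l22
                        have k486 : e12 ≤ e22 := L1 l22
                        have k487 : e19 ≤ e22 := L2 l22
                        have k492 : e22 ≤ e10 := L3 l22 k175 k481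
                        have k493 : e22 ≤ e11 := L3 l22 k153 k369
                        have k498 : e16 ≤ e22 := le_trans k365 k487
                        have k505 : ¬ e4 ≤ e22 := N2 k137 k493
                        have k507 : ¬ e10 ≤ e22 := N1 k505 k111
                        have k523 : ¬ e22 ≤ e18 := N1 k367 k487
                        have k526 : e18 ≤ e22 := L3 l18 k486 k498
                        exact HL _ _ _ _ _ _ c12 c15 c18 c22 c10 c2 (LT k234 k260) (LT k362 k360) (LT k526 k523) (LT k492 k507) (LT k113 k119)
              · obtain ⟨e12, l12⟩ := (h1 e11).resolve_right k149
                have c12 : Core e0 e12 := CJ k149 l12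
                have k152 : e0 ≤ e12 := L1 l12
                have k153 : e11 ≤ e12 := L2 l12
                have k155 : e4 ≤ e12 := le_trans k21 k152
                have k156 : e5 ≤ e12 := le_trans k132 k153
                have k157 : e8 ≤ e12 := le_trans k133 k153
                have k167 : e6 ≤ e12 := L3 l6 k152 k156
                have k168 : e7 ≤ e12 := L3 l7 k155 k156
                have k170 : e10 ≤ e12 := L3 l10 k155 k157
                have k172 : e2 ≤ e12 := le_trans k54 k167
                by_cases k173 : e12 ≤ e2
                · have k176 : e11 ≤ e2 := le_trans k153 k173
                  obtain ⟨e13, l13⟩ := ZE h2 k136 k149 g4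
                  have c13 : Core e0 e13 := CZ g4 k149 l13
                  have k182 : e4 ≤ e13 := L1 l13
                  have k183 : e11 ≤ e13 := L2 l13
                  have k184 : e13 ≤ e2 := L3 l13 k25 k176
                  have k185 : e13 ≤ e3 := L3 l13 k22 k136
                  have k190 : e8 ≤ e13 := le_trans k133 k183
                  have k191 : ¬ e0 ≤ e13 := N2 k15 k185
                  have k192 : ¬ e2 ≤ e13 := N1 k191 k6
                  have k204 : ¬ e13 ≤ e10 := N1 k135 k183
                  have k207 : e10 ≤ e13 := L3 l10 k182 k190
                  obtain ⟨e14, q14⟩ : ∃ y, f e13 = y := ⟨_, rfl⟩
                  have k209 : e5 ≤ e14 := MO hf q5 q14 k182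
                  have k211 : e11 ≤ e14 := MO hf q11 q14 k207
                  have k212 : ¬ e13 ≤ e14 := FA hF q14
                  have k213 : ¬ e14 ≤ e13 := FB hG q14
                  have k214 : e14 ≤ e3 := MO hf q14 q3 k184
                  have k215 : ¬ e4 ≤ e14 := L5 l13 k211 k212
                  by_cases k231 : ∃ z, IsGLB ({e0, e14} : Set P) z
                  · obtain ⟨e15, g15⟩ := k231
                    have c15 : Core e0 e15 := CM g15
                    have k234 : e15 ≤ e0 := G1 g15
                    have k235 : e15 ≤ e14 := G2 g15
                    have k244 : e15 ≤ e3 := le_trans k235 k214
                    have k252 : ¬ e4 ≤ e15 := N2 k215 k235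
                    have k260 : e15 ≤ e4 := G3 g4 k234 k244
                    exact HL _ _ _ _ _ _ c15 c4 c7 c10 c13 c2 (LT k260 k252) (LT k58 k70) (LT k130 k128) (LT k207 k204) (LT k184 k192)
                  · obtain ⟨e15, l15⟩ := (h1 e14).resolve_right k231
                    have c15 : Core e0 e15 := CJ k231 l15
                    have k234 : e0 ≤ e15 := L1 l15
                    have k235 : e14 ≤ e15 := L2 l15
                    have k238 : e5 ≤ e15 := le_trans k209 k235
                    have k252 : e6 ≤ e15 := L3 l6 k234 k238
                    have k259 : e2 ≤ e15 := le_trans k54 k252
                    have k260 : e15 ≤ e2 := Classical.byContradiction fun hn => HL _ _ _ _ _ _ c4 c7 c10 c13 c2 c15 (LT k58 k70) (LT k130 k128) (LT k207 k204) (LT k184 k192) (LT k259 hn)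
                    have k264 : e14 ≤ e2 := le_trans k235 k260
                    obtain ⟨e16, l16⟩ := ZE h2 k214 k231 g4
                    have c16 : Core e0 e16 := CZ g4 k231 l16
                    have k271 : e4 ≤ e16 := L1 l16
                    have k272 : e14 ≤ e16 := L2 l16
                    have k273 : e16 ≤ e2 := L3 l16 k25 k264
                    have k274 : e16 ≤ e3 := L3 l16 k22 k214
                    have k281 : e11 ≤ e16 := le_trans k211 k272
                    have k282 : ¬ e0 ≤ e16 := N2 k15 k274
                    have k283 : ¬ e2 ≤ e16 := N1 k282 k6
                    have k298 : ¬ e16 ≤ e13 := N1 k213 k272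
                    have k302 : e13 ≤ e16 := L3 l13 k271 k281
                    exact HL _ _ _ _ _ _ c4 c7 c10 c13 c16 c2 (LT k58 k70) (LT k130 k128) (LT k207 k204) (LT k302 k298) (LT k273 k283)
                · obtain ⟨e13, q13⟩ : ∃ y, f e12 = y := ⟨_, rfl⟩
                  have k182 : e3 ≤ e13 := MO hf q3 q13 k172
                  have k183 : e5 ≤ e13 := MO hf q5 q13 k155
                  have k184 : e8 ≤ e13 := MO hf q8 q13 k168
                  have k185 : e11 ≤ e13 := MO hf q11 q13 k170
                  have k186 : ¬ e12 ≤ e13 := FA hF q13
                  have k187 : ¬ e13 ≤ e12 := FB hG q13
                  have k188 : ¬ e0 ≤ e13 := L5 l12 k185 k186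
                  have k189 : e4 ≤ e13 := le_trans k22 k182
                  by_cases k206 : ∃ z, IsGLB ({e0, e13} : Set P) z
                  · obtain ⟨e14, g14⟩ := k206
                    have c14 : Core e0 e14 := CM g14
                    obtain ⟨e15, l15⟩ := ZE h2 k184 k85 g14
                    have c15 : Core e0 e15 := CZ g14 k85 l15
                    have k211 : e14 ≤ e0 := G1 g14
                    have k212 : e14 ≤ e13 := G2 g14
                    have k213 : e4 ≤ e14 := G3 g14 k21 k189
                    have k219 : e14 ≤ e15 := L1 l15
                    have k220 : e8 ≤ e15 := L2 l15
                    have k221 : e15 ≤ e13 := L3 l15 k212 k184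
                    have k222 : e14 ≤ e2 := le_trans k211 k6
                    have k225 : e14 ≤ e12 := le_trans k211 k152
                    have k227 : e4 ≤ e15 := le_trans k213 k219
                    have k229 : ¬ e0 ≤ e15 := N2 k188 k221
                    have k234 : ¬ e2 ≤ e15 := N1 k229 k6
                    have k246 : ¬ e5 ≤ e14 := N2 k35 k211
                    have k256 : e10 ≤ e15 := L3 l10 k227 k220
                    have k257 : e15 ≤ e2 := L3 l15 k222 k106
                    have k264 : e15 ≤ e10 := Classical.byContradiction fun hn => HL _ _ _ _ _ _ c4 c7 c10 c15 c2 c12 (LT k58 k70) (LT k130 k128) (LT k256 hn) (LT k257 k234) (LT k172 k173)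
                    have k265 : e15 ≤ e3 := le_trans k264 k114
                    have k266 : e14 ≤ e3 := le_trans k219 k265
                    have k267 : e14 ≤ e10 := le_trans k219 k264
                    have k268 : e14 ≤ e4 := G3 g4 k211 k266
                    have k269 : e14 ≤ e7 := le_trans k268 k58
                    obtain ⟨e16, l16⟩ := ZE h2 k183 k40 g14
                    have c16 : Core e0 e16 := CZ g14 k40 l16
                    have k272 : e14 ≤ e16 := L1 l16
                    have k273 : e5 ≤ e16 := L2 l16
                    have k277 : e16 ≤ e7 := L3 l16 k269 k59
                    have k279 : e16 ≤ e10 := L3 l16 k267 k117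
                    have k283 : e4 ≤ e16 := le_trans k213 k272
                    have k296 : ¬ e16 ≤ e4 := N1 k32 k273
                    have k297 : ¬ e16 ≤ e14 := N1 k246 k273
                    have k298 : ¬ e8 ≤ e16 := N2 k75 k277
                    have k299 : ¬ e10 ≤ e16 := N1 k298 k112
                    obtain ⟨e17, l17⟩ := ZE h2 k185 k149 g14
                    have c17 : Core e0 e17 := CZ g14 k149 l17
                    have k306 : e14 ≤ e17 := L1 l17
                    have k307 : e11 ≤ e17 := L2 l17
                    have k308 : e17 ≤ e3 := L3 l17 k266 k136
                    have k309 : e17 ≤ e12 := L3 l17 k225 k153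
                    have k312 : e8 ≤ e17 := le_trans k133 k307
                    have k313 : e4 ≤ e17 := le_trans k213 k306
                    have k314 : ¬ e0 ≤ e17 := N2 k15 k308
                    have k318 : ¬ e12 ≤ e17 := N1 k314 k152
                    have k331 : ¬ e17 ≤ e10 := N1 k135 k307
                    have k336 : e10 ≤ e17 := L3 l10 k313 k312
                    obtain ⟨e18, q18⟩ : ∃ y, f e17 = y := ⟨_, rfl⟩
                    have k342 : e11 ≤ e18 := MO hf q11 q18 k336
                    have k343 : ¬ e17 ≤ e18 := FA hF q18
                    have k344 : ¬ e18 ≤ e17 := FB hG q18
                    have k345 : e18 ≤ e13 := MO hf q18 q13 k309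
                    have k346 : ¬ e14 ≤ e18 := L5 l17 k342 k343
                    have k366 : ¬ e4 ≤ e18 := N1 k346 k268
                    by_cases k373 : ∃ z, IsGLB ({e0, e18} : Set P) z
                    · obtain ⟨e19, g19⟩ := k373
                      have c19 : Core e0 e19 := CM g19
                      have k376 : e19 ≤ e0 := G1 g19
                      have k377 : e19 ≤ e18 := G2 g19
                      have k386 : e19 ≤ e13 := le_trans k377 k345
                      have k395 : ¬ e4 ≤ e19 := N2 k366 k377
                      have k398 : ¬ e14 ≤ e19 := N1 k395 k213
                      have k406 : e19 ≤ e14 := G3 g14 k376 k386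
                      exact HL _ _ _ _ _ _ c19 c14 c16 c10 c2 c12 (LT k406 k398) (LT k272 k297) (LT k279 k299) (LT k113 k119) (LT k172 k173)
                    · obtain ⟨e19, l19⟩ := (h1 e18).resolve_right k373
                      have c19 : Core e0 e19 := CJ k373 l19
                      have k376 : e0 ≤ e19 := L1 l19
                      have k377 : e18 ≤ e19 := L2 l19
                      have k383 : e11 ≤ e19 := le_trans k342 k377
                      have k406 : e12 ≤ e19 := L3 l12 k376 k383
                      have k412 : e19 ≤ e12 := Classical.byContradiction fun hn => HL _ _ _ _ _ _ c4 c7 c10 c17 c12 c19 (LT k58 k70) (LT k130 k128) (LT k336 k331) (LT k309 k318) (LT k406 hn)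
                      have k413 : e18 ≤ e12 := le_trans k377 k412
                      obtain ⟨e20, l20⟩ := ZE h2 k345 k373 g14
                      have c20 : Core e0 e20 := CZ g14 k373 l20
                      have k417 : e14 ≤ e20 := L1 l20
                      have k418 : e18 ≤ e20 := L2 l20
                      have k419 : e20 ≤ e12 := L3 l20 k225 k413
                      have k420 : e20 ≤ e13 := L3 l20 k212 k345
                      have k425 : e11 ≤ e20 := le_trans k342 k418
                      have k426 : ¬ e0 ≤ e20 := N2 k188 k420
                      have k430 : ¬ e12 ≤ e20 := N1 k426 k152
                      have k448 : ¬ e20 ≤ e17 := N1 k344 k418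
                      have k454 : e17 ≤ e20 := L3 l17 k417 k425
                      exact HL _ _ _ _ _ _ c4 c16 c10 c17 c20 c12 (LT k283 k296) (LT k279 k299) (LT k336 k331) (LT k454 k448) (LT k419 k430)
                  · obtain ⟨e14, l14⟩ := (h1 e13).resolve_right k206
                    have c14 : Core e0 e14 := CJ k206 l14
                    have k209 : e0 ≤ e14 := L1 l14
                    have k210 : e13 ≤ e14 := L2 l14
                    have k219 : e11 ≤ e14 := le_trans k185 k210
                    have k233 : ¬ e14 ≤ e12 := N1 k187 k210
                    have k237 : e12 ≤ e14 := L3 l12 k209 k219
                    exact HL _ _ _ _ _ _ c4 c7 c10 c2 c12 c14 (LT k58 k70) (LT k130 k128) (LT k113 k119) (LT k172 k173) (LT k237 k233)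
            · have k106 : ¬ e8 ≤ e2 := L4 l9 k6 k104
              obtain ⟨e10, q10⟩ : ∃ y, f e9 = y := ⟨_, rfl⟩
              have k110 : e1 ≤ e10 := MO hf q1 q10 k88
              have k111 : e3 ≤ e10 := MO hf q3 q10 k103
              have k112 : e5 ≤ e10 := MO hf q5 q10 k91
              have k113 : e8 ≤ e10 := MO hf q8 q10 k101
              have k114 : ¬ e9 ≤ e10 := FA hF q10
              have k115 : ¬ e10 ≤ e9 := FB hG q10
              have k116 : ¬ e0 ≤ e10 := L5 l9 k113 k114
              have k117 : e4 ≤ e10 := le_trans k22 k111
              by_cases k129 : ∃ z, IsGLB ({e0, e10} : Set P) z
              · obtain ⟨e11, g11⟩ := k129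
                have c11 : Core e0 e11 := CM g11
                obtain ⟨e12, l12⟩ := ZE h2 k112 k40 g11
                have c12 : Core e0 e12 := CZ g11 k40 l12
                have k134 : e11 ≤ e0 := G1 g11
                have k135 : e11 ≤ e10 := G2 g11
                have k136 : e4 ≤ e11 := G3 g11 k21 k117
                have k141 : e11 ≤ e12 := L1 l12
                have k142 : e5 ≤ e12 := L2 l12
                have k143 : e12 ≤ e10 := L3 l12 k135 k112
                have k144 : e11 ≤ e2 := le_trans k134 k6
                have k146 : e11 ≤ e9 := le_trans k134 k88
                have k147 : e4 ≤ e12 := le_trans k136 k141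
                have k148 : ¬ e0 ≤ e11 := N2 k116 k135
                have k149 : ¬ e0 ≤ e12 := N2 k116 k143
                have k153 : ¬ e2 ≤ e12 := N1 k149 k6
                have k163 : ¬ e5 ≤ e11 := N2 k35 k134
                have k165 : ¬ e7 ≤ e11 := N1 k163 k59
                have k169 : e7 ≤ e12 := L3 l7 k147 k142
                have k170 : e12 ≤ e2 := L3 l12 k144 k36
                have k172 : e12 ≤ e9 := L3 l12 k146 k92
                have k175 : ¬ e8 ≤ e12 := N2 k106 k170
                by_cases k176 : e12 ≤ e7
                · have k177 : e12 ≤ e3 := le_trans k176 k61
                  have k178 : e11 ≤ e3 := le_trans k141 k177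
                  have k179 : e11 ≤ e7 := le_trans k141 k176
                  have k180 : e11 ≤ e4 := G3 g4 k134 k178
                  obtain ⟨e13, l13⟩ := ZE h2 k113 k85 g11
                  have c13 : Core e0 e13 := CZ g11 k85 l13
                  have k183 : e11 ≤ e13 := L1 l13
                  have k184 : e8 ≤ e13 := L2 l13
                  have k185 : e13 ≤ e3 := L3 l13 k178 k76
                  have k186 : e13 ≤ e9 := L3 l13 k146 k89
                  have k188 : e5 ≤ e13 := le_trans k73 k184
                  have k189 : e4 ≤ e13 := le_trans k136 k183
                  have k190 : ¬ e0 ≤ e13 := N2 k15 k185
                  have k193 : ¬ e9 ≤ e13 := N1 k190 k88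
                  have k202 : ¬ e13 ≤ e7 := N1 k75 k184
                  have k206 : e7 ≤ e13 := L3 l7 k189 k188
                  obtain ⟨e14, q14⟩ : ∃ y, f e13 = y := ⟨_, rfl⟩
                  have k209 : e5 ≤ e14 := MO hf q5 q14 k189
                  have k210 : e8 ≤ e14 := MO hf q8 q14 k206
                  have k211 : ¬ e13 ≤ e14 := FA hF q14
                  have k212 : ¬ e14 ≤ e13 := FB hG q14
                  have k213 : e14 ≤ e10 := MO hf q14 q10 k186
                  have k214 : ¬ e11 ≤ e14 := L5 l13 k210 k211
                  have k229 : ¬ e4 ≤ e14 := N1 k214 k180
                  by_cases k234 : ∃ z, IsGLB ({e0, e14} : Set P) z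
                  · obtain ⟨e15, g15⟩ := k234
                    have c15 : Core e0 e15 := CM g15
                    have k237 : e15 ≤ e0 := G1 g15
                    have k238 : e15 ≤ e14 := G2 g15
                    have k239 : ¬ e15 ≤ e5 := BN3 g15 k40 k209
                    have k240 : ¬ e15 ≤ e8 := BN3 g15 k85 k210
                    have k244 : e15 ≤ e9 := le_trans k237 k88
                    have k245 : e15 ≤ e10 := le_trans k238 k213
                    have k253 : ¬ e4 ≤ e15 := N2 k229 k238
                    have k261 : e15 ≤ e11 := G3 g11 k237 k245
                    have k263 : e15 ≤ e4 := le_trans k261 k180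
                    have k264 : e15 ≤ e7 := le_trans k261 k179
                    have k266 : e15 ≤ e13 := le_trans k261 k183
                    obtain ⟨e16, q16⟩ : ∃ y, f e15 = y := ⟨_, rfl⟩
                    have k269 : ¬ e16 ≤ e15 := FB hG q16
                    have k270 : e16 ≤ e1 := MO hf q16 q1 k237
                    have k272 : e16 ≤ e5 := MO hf q16 q5 k263
                    have k274 : e16 ≤ e10 := MO hf q16 q10 k244
                    have k275 : e16 ≤ e14 := MO hf q16 q14 k266
                    have k276 : ¬ e16 ≤ e0 := G5 g15 k275 k269
                    have k279 : e16 ≤ e9 := le_trans k270 k102
                    have k280 : e16 ≤ e7 := le_trans k272 k59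
                    have k282 : e16 ≤ e13 := le_trans k272 k188
                    have k296 : ¬ e16 ≤ e4 := N2 k276 k21
                    by_cases k298 : ∃ z, IsGLB ({e0, e16} : Set P) z
                    · obtain ⟨e17, g17⟩ := k298
                      have c17 : Core e0 e17 := CM g17
                      have k301 : e17 ≤ e0 := G1 g17
                      have k302 : e17 ≤ e16 := G2 g17
                      have k309 : e17 ≤ e5 := le_trans k302 k272
                      have k315 : e17 ≤ e14 := le_trans k302 k275
                      have k331 : ¬ e15 ≤ e17 := N2 k239 k309
                      have k335 : e17 ≤ e15 := G3 g15 k301 k315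
                      exact HL _ _ _ _ _ _ c17 c15 c4 c0 c2 c9 (LT k335 k331) (LT k263 k253) (LT k21 k26) (LT k6 k10) (LT k103 k104)
                    · obtain ⟨e17, l17⟩ := ZE h2 k274 k298 g11
                      have c17 : Core e0 e17 := CZ g11 k298 l17
                      have k301 : e11 ≤ e17 := L1 l17
                      have k302 : e16 ≤ e17 := L2 l17
                      have k306 : e17 ≤ e7 := L3 l17 k179 k280
                      have k311 : e4 ≤ e17 := le_trans k136 k301
                      have k329 : ¬ e17 ≤ e4 := N1 k296 k302
                      have k332 : e7 ≤ e17 := Classical.byContradiction fun hn => HL _ _ _ _ _ _ c15 c4 c17 c7 c2 c9 (LT k263 k253) (LT k311 k329) (LT k306 hn) (LT k60 k64) (LT k103 k104)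
                      obtain ⟨e18, l18⟩ := ZE h2 k275 k298 g15
                      have c18 : Core e0 e18 := CZ g15 k298 l18
                      have k337 : e15 ≤ e18 := L1 l18
                      have k338 : e16 ≤ e18 := L2 l18
                      have k342 : e18 ≤ e7 := L3 l18 k264 k280
                      have k343 : e18 ≤ e9 := L3 l18 k244 k279
                      have k346 : e18 ≤ e13 := L3 l18 k266 k282
                      have k347 : e18 ≤ e14 := L3 l18 k238 k275
                      have k355 : ¬ e4 ≤ e18 := N2 k229 k347
                      have k356 : ¬ e7 ≤ e18 := N1 k355 k58
                      have k369 : ¬ e18 ≤ e15 := N1 k269 k338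
                      obtain ⟨e19, q19⟩ : ∃ y, f e18 = y := ⟨_, rfl⟩
                      have k372 : e16 ≤ e19 := MO hf q16 q19 k337
                      have k374 : ¬ e19 ≤ e18 := FB hG q19
                      have k376 : e19 ≤ e8 := MO hf q19 q8 k342
                      have k377 : e19 ≤ e10 := MO hf q19 q10 k343
                      have k378 : e19 ≤ e14 := MO hf q19 q14 k346
                      have k380 : e19 ≤ e9 := le_trans k376 k89
                      have k381 : e19 ≤ e13 := le_trans k376 k184
                      by_cases k400 : ∃ z, IsGLB ({e0, e19} : Set P) z
                      · obtain ⟨e20, g20⟩ := k400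
                        have c20 : Core e0 e20 := CM g20
                        have k403 : e20 ≤ e0 := G1 g20
                        have k404 : e20 ≤ e19 := G2 g20
                        have k411 : e20 ≤ e8 := le_trans k404 k376
                        have k414 : e20 ≤ e14 := le_trans k404 k378
                        have k431 : ¬ e15 ≤ e20 := N2 k240 k411
                        have k437 : e20 ≤ e15 := G3 g15 k403 k414
                        exact HL _ _ _ _ _ _ c20 c15 c4 c0 c2 c9 (LT k437 k431) (LT k263 k253) (LT k21 k26) (LT k6 k10) (LT k103 k104)
                      · obtain ⟨e20, l20⟩ := ZE h2 k377 k400 g11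
                        have c20 : Core e0 e20 := CZ g11 k400 l20
                        have k403 : e11 ≤ e20 := L1 l20
                        have k404 : e19 ≤ e20 := L2 l20
                        have k408 : e20 ≤ e13 := L3 l20 k183 k381
                        have k411 : e16 ≤ e20 := le_trans k372 k404
                        have k430 : e17 ≤ e20 := L3 l17 k403 k411
                        have k433 : e7 ≤ e20 := le_trans k332 k430
                        by_cases k435 : e20 ≤ e7
                        · have k442 : e19 ≤ e7 := le_trans k404 k435
                          obtain ⟨e21, l21⟩ := ZE h2 k378 k400 g15
                          have c21 : Core e0 e21 := CZ g15 k400 l21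
                          have k451 : e15 ≤ e21 := L1 l21
                          have k452 : e19 ≤ e21 := L2 l21
                          have k456 : e21 ≤ e7 := L3 l21 k264 k442
                          have k461 : e21 ≤ e14 := L3 l21 k238 k378
                          have k464 : e16 ≤ e21 := le_trans k372 k452
                          have k471 : ¬ e4 ≤ e21 := N2 k229 k461
                          have k472 : ¬ e7 ≤ e21 := N1 k471 k58
                          have k488 : ¬ e21 ≤ e18 := N1 k374 k452
                          have k490 : e18 ≤ e21 := L3 l18 k451 k464
                          exact HL _ _ _ _ _ _ c15 c18 c21 c7 c2 c9 (LT k337 k369) (LT k490 k488) (LT k456 k472) (LT k60 k64) (LT k103 k104)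
                        · have k442 : e13 ≤ e20 := Classical.byContradiction fun hn => HL _ _ _ _ _ _ c15 c18 c7 c20 c13 c9 (LT k337 k369) (LT k342 k356) (LT k433 k435) (LT k408 hn) (LT k186 k193)
                          have k443 : e8 ≤ e20 := le_trans k184 k442
                          obtain ⟨e21, l21⟩ := ZE h2 k378 k400 g15
                          have c21 : Core e0 e21 := CZ g15 k400 l21
                          have k451 : e15 ≤ e21 := L1 l21
                          have k452 : e19 ≤ e21 := L2 l21
                          have k454 : e21 ≤ e9 := L3 l21 k244 k380
                          have k456 : e21 ≤ e13 := L3 l21 k266 k381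
                          have k457 : e21 ≤ e14 := L3 l21 k238 k378
                          have k459 : e16 ≤ e21 := le_trans k372 k452
                          have k466 : ¬ e4 ≤ e21 := N2 k229 k457
                          have k470 : ¬ e13 ≤ e21 := N1 k466 k189
                          have k488 : ¬ e21 ≤ e18 := N1 k374 k452
                          have k490 : e18 ≤ e21 := L3 l18 k451 k459
                          obtain ⟨e22, q22⟩ : ∃ y, f e21 = y := ⟨_, rfl⟩
                          have k493 : e19 ≤ e22 := MO hf q19 q22 k490
                          have k494 : ¬ e21 ≤ e22 := FA hF q22
                          have k495 : ¬ e22 ≤ e21 := FB hG q22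
                          have k496 : e22 ≤ e10 := MO hf q22 q10 k454
                          have k497 : e22 ≤ e14 := MO hf q22 q14 k456
                          have k498 : ¬ e15 ≤ e22 := L5 l21 k493 k494
                          by_cases k528 : ∃ z, IsGLB ({e0, e22} : Set P) z
                          · obtain ⟨e23, g23⟩ := k528
                            have c23 : Core e0 e23 := CM g23
                            have k531 : e23 ≤ e0 := G1 g23
                            have k532 : e23 ≤ e22 := G2 g23
                            have k540 : e23 ≤ e14 := le_trans k532 k497
                            have k558 : ¬ e15 ≤ e23 := N2 k498 k532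
                            have k565 : e23 ≤ e15 := G3 g15 k531 k540
                            exact HL _ _ _ _ _ _ c23 c15 c4 c0 c2 c9 (LT k565 k558) (LT k263 k253) (LT k21 k26) (LT k6 k10) (LT k103 k104)
                          · obtain ⟨e23, l23⟩ := (h1 e22).resolve_right k528
                            have c23 : Core e0 e23 := CJ k528 l23
                            have k531 : e0 ≤ e23 := L1 l23
                            have k532 : e22 ≤ e23 := L2 l23
                            have k535 : e11 ≤ e23 := le_trans k134 k531
                            have k538 : e19 ≤ e23 := le_trans k493 k532
                            have k563 : e20 ≤ e23 := L3 l20 k535 k538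
                            have k568 : e8 ≤ e23 := le_trans k443 k563
                            have k571 : e9 ≤ e23 := L3 l9 k531 k568
                            have k574 : e23 ≤ e9 := Classical.byContradiction fun hn => HL _ _ _ _ _ _ c15 c18 c21 c13 c9 c23 (LT k337 k369) (LT k490 k488) (LT k456 k470) (LT k186 k193) (LT k571 hn)
                            have k575 : e22 ≤ e9 := le_trans k532 k574
                            obtain ⟨e24, l24⟩ := ZE h2 k496 k528 g11
                            have c24 : Core e0 e24 := CZ g11 k528 l24
                            have k579 : e11 ≤ e24 := L1 l24
                            have k580 : e22 ≤ e24 := L2 l24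
                            have k581 : e24 ≤ e9 := L3 l24 k146 k575
                            have k582 : e24 ≤ e10 := L3 l24 k135 k496
                            have k587 : e19 ≤ e24 := le_trans k493 k580
                            have k588 : ¬ e0 ≤ e24 := N2 k116 k582
                            have k591 : ¬ e9 ≤ e24 := N1 k588 k88
                            have k615 : e20 ≤ e24 := L3 l20 k579 k587
                            have k621 : e13 ≤ e24 := le_trans k442 k615
                            have k622 : e24 ≤ e13 := Classical.byContradiction fun hn => HL _ _ _ _ _ _ c15 c18 c21 c13 c24 c9 (LT k337 k369) (LT k490 k488) (LT k456 k470) (LT k621 hn) (LT k581 k591)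
                            have k626 : e22 ≤ e13 := le_trans k580 k622
                            obtain ⟨e25, l25⟩ := ZE h2 k497 k528 g15
                            have c25 : Core e0 e25 := CZ g15 k528 l25
                            have k631 : e15 ≤ e25 := L1 l25
                            have k632 : e22 ≤ e25 := L2 l25
                            have k636 : e25 ≤ e13 := L3 l25 k266 k626
                            have k637 : e25 ≤ e14 := L3 l25 k238 k497
                            have k642 : e19 ≤ e25 := le_trans k493 k632
                            have k650 : ¬ e4 ≤ e25 := N2 k229 k637
                            have k654 : ¬ e13 ≤ e25 := N1 k650 k189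
                            have k675 : ¬ e25 ≤ e21 := N1 k495 k632
                            have k678 : e21 ≤ e25 := L3 l21 k631 k642
                            exact HL _ _ _ _ _ _ c15 c18 c21 c25 c13 c9 (LT k337 k369) (LT k490 k488) (LT k678 k675) (LT k636 k654) (LT k186 k193)
                  · obtain ⟨e15, l15⟩ := (h1 e14).resolve_right k234
                    have c15 : Core e0 e15 := CJ k234 l15
                    have k237 : e0 ≤ e15 := L1 l15
                    have k238 : e14 ≤ e15 := L2 l15
                    have k240 : e4 ≤ e15 := le_trans k21 k237
                    have k241 : e11 ≤ e15 := le_trans k134 k237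
                    have k242 : e5 ≤ e15 := le_trans k209 k238
                    have k243 : e8 ≤ e15 := le_trans k210 k238
                    have k258 : e6 ≤ e15 := L3 l6 k237 k242
                    have k259 : e7 ≤ e15 := L3 l7 k240 k242
                    have k260 : e9 ≤ e15 := L3 l9 k237 k243
                    have k262 : e13 ≤ e15 := L3 l13 k241 k243
                    have k264 : e2 ≤ e15 := le_trans k54 k258
                    by_cases k265 : e15 ≤ e9
                    · have k266 : e14 ≤ e9 := le_trans k238 k265
                      obtain ⟨e16, l16⟩ := ZE h2 k213 k234 g11
                      have c16 : Core e0 e16 := CZ g11 k234 l16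
                      have k270 : e11 ≤ e16 := L1 l16
                      have k271 : e14 ≤ e16 := L2 l16
                      have k272 : e16 ≤ e9 := L3 l16 k146 k266
                      have k273 : e16 ≤ e10 := L3 l16 k135 k213
                      have k275 : e4 ≤ e16 := le_trans k136 k270
                      have k276 : e5 ≤ e16 := le_trans k209 k271
                      have k277 : e8 ≤ e16 := le_trans k210 k271
                      have k278 : ¬ e0 ≤ e16 := N2 k116 k273
                      have k281 : ¬ e9 ≤ e16 := N1 k278 k88
                      have k295 : ¬ e16 ≤ e13 := N1 k212 k271
                      have k297 : e7 ≤ e16 := L3 l7 k275 k276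
                      have k299 : e13 ≤ e16 := L3 l13 k270 k277
                      obtain ⟨e17, q17⟩ : ∃ y, f e16 = y := ⟨_, rfl⟩
                      have k302 : e8 ≤ e17 := MO hf q8 q17 k297
                      have k303 : e14 ≤ e17 := MO hf q14 q17 k299
                      have k304 : ¬ e16 ≤ e17 := FA hF q17
                      have k305 : ¬ e17 ≤ e16 := FB hG q17
                      have k306 : e17 ≤ e10 := MO hf q17 q10 k272
                      have k307 : ¬ e11 ≤ e17 := L5 l16 k303 k304
                      have k323 : ¬ e4 ≤ e17 := N1 k307 k180
                      by_cases k331 : ∃ z, IsGLB ({e0, e17} : Set P) z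
                      · obtain ⟨e18, g18⟩ := k331
                        have c18 : Core e0 e18 := CM g18
                        have k334 : e18 ≤ e0 := G1 g18
                        have k335 : e18 ≤ e17 := G2 g18
                        have k344 : e18 ≤ e10 := le_trans k335 k306
                        have k353 : ¬ e4 ≤ e18 := N2 k323 k335
                        have k355 : ¬ e11 ≤ e18 := N1 k353 k136
                        have k363 : e18 ≤ e11 := G3 g11 k334 k344
                        exact HL _ _ _ _ _ _ c18 c11 c7 c13 c16 c9 (LT k363 k355) (LT k179 k165) (LT k206 k202) (LT k299 k295) (LT k272 k281)
                      · obtain ⟨e18, l18⟩ := (h1 e17).resolve_right k331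
                        have c18 : Core e0 e18 := CJ k331 l18
                        have k334 : e0 ≤ e18 := L1 l18
                        have k335 : e17 ≤ e18 := L2 l18
                        have k340 : e8 ≤ e18 := le_trans k302 k335
                        have k360 : e9 ≤ e18 := L3 l9 k334 k340
                        have k367 : e18 ≤ e9 := Classical.byContradiction fun hn => HL _ _ _ _ _ _ c4 c7 c13 c16 c9 c18 (LT k58 k70) (LT k206 k202) (LT k299 k295) (LT k272 k281) (LT k360 hn)
                        have k369 : e17 ≤ e9 := le_trans k335 k367
                        obtain ⟨e19, l19⟩ := ZE h2 k306 k331 g11
                        have c19 : Core e0 e19 := CZ g11 k331 l19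
                        have k374 : e11 ≤ e19 := L1 l19
                        have k375 : e17 ≤ e19 := L2 l19
                        have k376 : e19 ≤ e9 := L3 l19 k146 k369
                        have k377 : e19 ≤ e10 := L3 l19 k135 k306
                        have k383 : e14 ≤ e19 := le_trans k303 k375
                        have k384 : ¬ e0 ≤ e19 := N2 k116 k377
                        have k387 : ¬ e9 ≤ e19 := N1 k384 k88
                        have k404 : ¬ e19 ≤ e16 := N1 k305 k375
                        have k409 : e16 ≤ e19 := L3 l16 k374 k383
                        exact HL _ _ _ _ _ _ c4 c7 c13 c16 c19 c9 (LT k58 k70) (LT k206 k202) (LT k299 k295) (LT k409 k404) (LT k376 k387)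
                    · obtain ⟨e16, q16⟩ : ∃ y, f e15 = y := ⟨_, rfl⟩
                      have k269 : e3 ≤ e16 := MO hf q3 q16 k264
                      have k270 : e5 ≤ e16 := MO hf q5 q16 k240
                      have k271 : e8 ≤ e16 := MO hf q8 q16 k259
                      have k273 : e14 ≤ e16 := MO hf q14 q16 k262
                      have k274 : ¬ e15 ≤ e16 := FA hF q16
                      have k275 : ¬ e16 ≤ e15 := FB hG q16
                      have k276 : ¬ e0 ≤ e16 := L5 l15 k273 k274
                      have k277 : e4 ≤ e16 := le_trans k22 k269
                      have k279 : e11 ≤ e16 := le_trans k178 k269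
                      by_cases k298 : ∃ z, IsGLB ({e0, e16} : Set P) z
                      · obtain ⟨e17, g17⟩ := k298
                        have c17 : Core e0 e17 := CM g17
                        obtain ⟨e18, l18⟩ := ZE h2 k271 k85 g17
                        have c18 : Core e0 e18 := CZ g17 k85 l18
                        have k303 : e17 ≤ e0 := G1 g17
                        have k304 : e17 ≤ e16 := G2 g17
                        have k305 : e4 ≤ e17 := G3 g17 k21 k277
                        have k306 : e11 ≤ e17 := G3 g17 k134 k279
                        have k315 : e17 ≤ e2 := le_trans k303 k6
                        have k318 : e17 ≤ e15 := le_trans k303 k237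
                        have k322 : ¬ e0 ≤ e17 := N2 k276 k304
                        have k363 : e17 ≤ e4 := Classical.byContradiction fun hn => HL _ _ _ _ _ _ c4 c17 c0 c2 c9 c15 (LT k305 hn) (LT k303 k322) (LT k6 k10) (LT k103 k104) (LT k260 k265)
                        have k366 : e17 ≤ e10 := le_trans k363 k117
                        have k369 : e17 ≤ e13 := le_trans k363 k189
                        obtain ⟨e19, l19⟩ := ZE h2 k270 k40 g17
                        have c19 : Core e0 e19 := CZ g17 k40 l19
                        have k375 : e17 ≤ e19 := L1 l19
                        have k376 : e5 ≤ e19 := L2 l19
                        have k377 : e19 ≤ e2 := L3 l19 k315 k36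
                        have k384 : e19 ≤ e13 := L3 l19 k369 k188
                        have k388 : e4 ≤ e19 := le_trans k305 k375
                        have k403 : ¬ e19 ≤ e4 := N1 k32 k376
                        have k406 : ¬ e8 ≤ e19 := N2 k106 k377
                        have k407 : ¬ e13 ≤ e19 := N1 k406 k184
                        obtain ⟨e20, l20⟩ := ZE h2 k273 k234 g17
                        have c20 : Core e0 e20 := CZ g17 k234 l20
                        have k415 : e17 ≤ e20 := L1 l20
                        have k416 : e14 ≤ e20 := L2 l20
                        have k417 : e20 ≤ e10 := L3 l20 k366 k213
                        have k418 : e20 ≤ e15 := L3 l20 k318 k238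
                        have k421 : e8 ≤ e20 := le_trans k210 k416
                        have k423 : e11 ≤ e20 := le_trans k306 k415
                        have k424 : ¬ e0 ≤ e20 := N2 k116 k417
                        have k428 : ¬ e15 ≤ e20 := N1 k424 k237
                        have k443 : ¬ e20 ≤ e13 := N1 k212 k416
                        have k449 : e13 ≤ e20 := L3 l13 k423 k421
                        obtain ⟨e21, q21⟩ : ∃ y, f e20 = y := ⟨_, rfl⟩
                        have k455 : e14 ≤ e21 := MO hf q14 q21 k449
                        have k456 : ¬ e20 ≤ e21 := FA hF q21
                        have k457 : ¬ e21 ≤ e20 := FB hG q21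
                        have k458 : e21 ≤ e16 := MO hf q21 q16 k418
                        have k459 : ¬ e17 ≤ e21 := L5 l20 k455 k456
                        have k481 : ¬ e4 ≤ e21 := N1 k459 k363
                        by_cases k491 : ∃ z, IsGLB ({e0, e21} : Set P) z
                        · obtain ⟨e22, g22⟩ := k491
                          have c22 : Core e0 e22 := CM g22
                          have k494 : e22 ≤ e0 := G1 g22
                          have k495 : e22 ≤ e21 := G2 g22
                          have k504 : e22 ≤ e16 := le_trans k495 k458
                          have k514 : ¬ e4 ≤ e22 := N2 k481 k495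
                          have k519 : ¬ e17 ≤ e22 := N1 k514 k305
                          have k527 : e22 ≤ e17 := G3 g17 k494 k504
                          exact HL _ _ _ _ _ _ c22 c17 c0 c2 c9 c15 (LT k527 k519) (LT k303 k322) (LT k6 k10) (LT k103 k104) (LT k260 k265)
                        · obtain ⟨e22, l22⟩ := (h1 e21).resolve_right k491
                          have c22 : Core e0 e22 := CJ k491 l22
                          have k494 : e0 ≤ e22 := L1 l22
                          have k495 : e21 ≤ e22 := L2 l22
                          have k502 : e14 ≤ e22 := le_trans k455 k495
                          have k529 : e15 ≤ e22 := L3 l15 k494 k502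
                          have k535 : e22 ≤ e15 := Classical.byContradiction fun hn => HL _ _ _ _ _ _ c4 c7 c13 c20 c15 c22 (LT k58 k70) (LT k206 k202) (LT k449 k443) (LT k418 k428) (LT k529 hn)
                          have k536 : e21 ≤ e15 := le_trans k495 k535
                          obtain ⟨e23, l23⟩ := ZE h2 k458 k491 g17
                          have c23 : Core e0 e23 := CZ g17 k491 l23
                          have k540 : e17 ≤ e23 := L1 l23
                          have k541 : e21 ≤ e23 := L2 l23
                          have k542 : e23 ≤ e15 := L3 l23 k318 k536
                          have k543 : e23 ≤ e16 := L3 l23 k304 k458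
                          have k549 : e14 ≤ e23 := le_trans k455 k541
                          have k550 : ¬ e0 ≤ e23 := N2 k276 k543
                          have k554 : ¬ e15 ≤ e23 := N1 k550 k237
                          have k574 : ¬ e23 ≤ e20 := N1 k457 k541
                          have k581 : e20 ≤ e23 := L3 l20 k540 k549
                          exact HL _ _ _ _ _ _ c4 c19 c13 c20 c23 c15 (LT k388 k403) (LT k384 k407) (LT k449 k443) (LT k581 k574) (LT k542 k554)
                      · obtain ⟨e17, l17⟩ := (h1 e16).resolve_right k298
                        have c17 : Core e0 e17 := CJ k298 l17
                        have k301 : e0 ≤ e17 := L1 l17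
                        have k302 : e16 ≤ e17 := L2 l17
                        have k314 : e14 ≤ e17 := le_trans k273 k302
                        have k331 : ¬ e17 ≤ e15 := N1 k275 k302
                        have k335 : e15 ≤ e17 := L3 l15 k301 k314
                        exact HL _ _ _ _ _ _ c4 c0 c2 c9 c15 c17 (LT k21 k26) (LT k6 k10) (LT k103 k104) (LT k260 k265) (LT k335 k331)
                · have k177 : ¬ e11 ≤ e7 := L5 l12 k59 k176
                  have k178 : ¬ e11 ≤ e4 := N2 k177 k58
                  obtain ⟨e13, q13⟩ : ∃ y, f e12 = y := ⟨_, rfl⟩
                  have k183 : e5 ≤ e13 := MO hf q5 q13 k147
                  have k184 : e8 ≤ e13 := MO hf q8 q13 k169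
                  have k187 : e13 ≤ e3 := MO hf q13 q3 k170
                  have k188 : e13 ≤ e10 := MO hf q13 q10 k172
                  by_cases k203 : ∃ z, IsGLB ({e0, e13} : Set P) z
                  · obtain ⟨e14, g14⟩ := k203
                    have c14 : Core e0 e14 := CM g14
                    have k206 : e14 ≤ e0 := G1 g14
                    have k207 : e14 ≤ e13 := G2 g14
                    have k214 : e14 ≤ e3 := le_trans k207 k187
                    have k230 : e14 ≤ e4 := G3 g4 k206 k214
                    have k234 : e4 ≤ e14 := Classical.byContradiction fun hn => HL _ _ _ _ _ _ c14 c4 c7 c12 c2 c9 (LT k230 hn) (LT k58 k70) (LT k169 k176) (LT k170 k153) (LT k103 k104)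
                    have k235 : e4 ≤ e13 := le_trans k234 k207
                    obtain ⟨e15, l15⟩ := ZE h2 k113 k85 g11
                    have c15 : Core e0 e15 := CZ g11 k85 l15
                    have k240 : e11 ≤ e15 := L1 l15
                    have k241 : e8 ≤ e15 := L2 l15
                    have k242 : e15 ≤ e9 := L3 l15 k146 k89
                    have k243 : e15 ≤ e10 := L3 l15 k135 k113
                    have k244 : e5 ≤ e15 := le_trans k73 k241
                    have k245 : e4 ≤ e15 := le_trans k136 k240
                    have k247 : ¬ e0 ≤ e15 := N2 k116 k243
                    have k250 : ¬ e9 ≤ e15 := N1 k247 k88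
                    have k261 : ¬ e15 ≤ e12 := N1 k175 k241
                    have k266 : e7 ≤ e15 := L3 l7 k245 k244
                    have k267 : e12 ≤ e15 := L3 l12 k240 k244
                    obtain ⟨e16, q16⟩ : ∃ y, f e15 = y := ⟨_, rfl⟩
                    have k269 : e5 ≤ e16 := MO hf q5 q16 k245
                    have k270 : e8 ≤ e16 := MO hf q8 q16 k266
                    have k271 : e13 ≤ e16 := MO hf q13 q16 k267
                    have k272 : ¬ e15 ≤ e16 := FA hF q16
                    have k273 : ¬ e16 ≤ e15 := FB hG q16
                    have k274 : e16 ≤ e10 := MO hf q16 q10 k242
                    have k275 : ¬ e11 ≤ e16 := L5 l15 k270 k272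
                    have k276 : e4 ≤ e16 := le_trans k235 k271
                    by_cases k296 : ∃ z, IsGLB ({e0, e16} : Set P) z
                    · obtain ⟨e17, g17⟩ := k296
                      have c17 : Core e0 e17 := CM g17
                      obtain ⟨e18, l18⟩ := ZE h2 k269 k40 g17
                      have c18 : Core e0 e18 := CZ g17 k40 l18
                      have k301 : e17 ≤ e0 := G1 g17
                      have k302 : e17 ≤ e16 := G2 g17
                      have k303 : e4 ≤ e17 := G3 g17 k21 k276
                      have k313 : e17 ≤ e9 := le_trans k301 k88
                      have k314 : e17 ≤ e10 := le_trans k302 k274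
                      have k346 : ¬ e11 ≤ e17 := N2 k275 k302
                      have k350 : e17 ≤ e11 := G3 g11 k301 k314
                      have k357 : e17 ≤ e15 := le_trans k350 k240
                      have k364 : e17 ≤ e4 := Classical.byContradiction fun hn => HL _ _ _ _ _ _ c4 c17 c11 c0 c2 c9 (LT k303 hn) (LT k350 k346) (LT k134 k148) (LT k6 k10) (LT k103 k104)
                      obtain ⟨e19, l19⟩ := ZE h2 k270 k85 g17
                      have c19 : Core e0 e19 := CZ g17 k85 l19
                      have k374 : e17 ≤ e19 := L1 l19
                      have k375 : e8 ≤ e19 := L2 l19
                      have k377 : e19 ≤ e9 := L3 l19 k313 k89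
                      have k380 : e19 ≤ e15 := L3 l19 k357 k241
                      have k382 : e5 ≤ e19 := le_trans k73 k375
                      have k383 : e4 ≤ e19 := le_trans k303 k374
                      have k399 : ¬ e19 ≤ e7 := N1 k75 k375
                      have k408 : e7 ≤ e19 := L3 l7 k383 k382
                      obtain ⟨e20, q20⟩ : ∃ y, f e19 = y := ⟨_, rfl⟩
                      have k412 : e8 ≤ e20 := MO hf q8 q20 k408
                      have k413 : ¬ e19 ≤ e20 := FA hF q20
                      have k414 : ¬ e20 ≤ e19 := FB hG q20
                      have k415 : e20 ≤ e10 := MO hf q20 q10 k377
                      have k416 : e20 ≤ e16 := MO hf q20 q16 k380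
                      have k417 : ¬ e17 ≤ e20 := L5 l19 k412 k413
                      have k439 : ¬ e4 ≤ e20 := N1 k417 k364
                      by_cases k446 : ∃ z, IsGLB ({e0, e20} : Set P) z
                      · obtain ⟨e21, g21⟩ := k446
                        have c21 : Core e0 e21 := CM g21
                        have k449 : e21 ≤ e0 := G1 g21
                        have k450 : e21 ≤ e20 := G2 g21
                        have k458 : e21 ≤ e16 := le_trans k450 k416
                        have k466 : ¬ e4 ≤ e21 := N2 k439 k450
                        have k474 : ¬ e17 ≤ e21 := N1 k466 k303
                        have k481 : e21 ≤ e17 := G3 g17 k449 k458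
                        exact HL _ _ _ _ _ _ c21 c17 c11 c0 c2 c9 (LT k481 k474) (LT k350 k346) (LT k134 k148) (LT k6 k10) (LT k103 k104)
                      · obtain ⟨e21, l21⟩ := (h1 e20).resolve_right k446
                        have c21 : Core e0 e21 := CJ k446 l21
                        have k449 : e0 ≤ e21 := L1 l21
                        have k450 : e20 ≤ e21 := L2 l21
                        have k457 : e8 ≤ e21 := le_trans k412 k450
                        have k480 : e9 ≤ e21 := L3 l9 k449 k457
                        have k487 : e21 ≤ e9 := Classical.byContradiction fun hn => HL _ _ _ _ _ _ c4 c7 c12 c15 c9 c21 (LT k58 k70) (LT k169 k176) (LT k267 k261) (LT k242 k250) (LT k480 hn)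
                        have k488 : e20 ≤ e9 := le_trans k450 k487
                        obtain ⟨e22, l22⟩ := ZE h2 k415 k446 g11
                        have c22 : Core e0 e22 := CZ g11 k446 l22
                        have k492 : e11 ≤ e22 := L1 l22
                        have k493 : e20 ≤ e22 := L2 l22
                        have k494 : e22 ≤ e9 := L3 l22 k146 k488
                        have k495 : e22 ≤ e10 := L3 l22 k135 k415
                        have k501 : e8 ≤ e22 := le_trans k412 k493
                        have k502 : ¬ e0 ≤ e22 := N2 k116 k495
                        have k505 : ¬ e9 ≤ e22 := N1 k502 k88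
                        have k529 : e15 ≤ e22 := L3 l15 k492 k501
                        have k532 : e22 ≤ e15 := Classical.byContradiction fun hn => HL _ _ _ _ _ _ c4 c7 c12 c15 c22 c9 (LT k58 k70) (LT k169 k176) (LT k267 k261) (LT k529 hn) (LT k494 k505)
                        have k533 : e20 ≤ e15 := le_trans k493 k532
                        obtain ⟨e23, l23⟩ := ZE h2 k416 k446 g17
                        have c23 : Core e0 e23 := CZ g17 k446 l23
                        have k537 : e17 ≤ e23 := L1 l23
                        have k538 : e20 ≤ e23 := L2 l23
                        have k541 : e23 ≤ e15 := L3 l23 k357 k533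
                        have k542 : e23 ≤ e16 := L3 l23 k302 k416
                        have k548 : e8 ≤ e23 := le_trans k412 k538
                        have k569 : ¬ e11 ≤ e23 := N2 k275 k542
                        have k571 : ¬ e15 ≤ e23 := N1 k569 k240
                        have k574 : ¬ e23 ≤ e19 := N1 k414 k538
                        have k578 : e19 ≤ e23 := L3 l19 k537 k548
                        exact HL _ _ _ _ _ _ c4 c7 c19 c23 c15 c9 (LT k58 k70) (LT k408 k399) (LT k578 k574) (LT k541 k571) (LT k242 k250)
                    · obtain ⟨e17, l17⟩ := (h1 e16).resolve_right k296
                      have c17 : Core e0 e17 := CJ k296 l17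
                      have k299 : e0 ≤ e17 := L1 l17
                      have k300 : e16 ≤ e17 := L2 l17
                      have k307 : e8 ≤ e17 := le_trans k270 k300
                      have k326 : e9 ≤ e17 := L3 l9 k299 k307
                      have k331 : e17 ≤ e9 := Classical.byContradiction fun hn => HL _ _ _ _ _ _ c4 c7 c12 c15 c9 c17 (LT k58 k70) (LT k169 k176) (LT k267 k261) (LT k242 k250) (LT k326 hn)
                      have k333 : e16 ≤ e9 := le_trans k300 k331
                      obtain ⟨e18, l18⟩ := ZE h2 k274 k296 g11
                      have c18 : Core e0 e18 := CZ g11 k296 l18
                      have k337 : e11 ≤ e18 := L1 l18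
                      have k338 : e16 ≤ e18 := L2 l18
                      have k339 : e18 ≤ e9 := L3 l18 k146 k333
                      have k340 : e18 ≤ e10 := L3 l18 k135 k274
                      have k346 : e8 ≤ e18 := le_trans k270 k338
                      have k348 : ¬ e0 ≤ e18 := N2 k116 k340
                      have k351 : ¬ e9 ≤ e18 := N1 k348 k88
                      have k368 : ¬ e18 ≤ e15 := N1 k273 k338
                      have k371 : e15 ≤ e18 := L3 l15 k337 k346
                      exact HL _ _ _ _ _ _ c4 c7 c12 c15 c18 c9 (LT k58 k70) (LT k169 k176) (LT k267 k261) (LT k371 k368) (LT k339 k351)
                  · have k204 : ¬ e4 ≤ e13 := BN3 g4 k203 k187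
                    obtain ⟨e14, l14⟩ := (h1 e13).resolve_right k203
                    have c14 : Core e0 e14 := CJ k203 l14
                    have k209 : e0 ≤ e14 := L1 l14
                    have k210 : e13 ≤ e14 := L2 l14
                    have k215 : e8 ≤ e14 := le_trans k184 k210
                    have k231 : e9 ≤ e14 := L3 l9 k209 k215
                    have k235 : e14 ≤ e9 := Classical.byContradiction fun hn => HL _ _ _ _ _ _ c4 c7 c12 c2 c9 c14 (LT k58 k70) (LT k169 k176) (LT k170 k153) (LT k103 k104) (LT k231 hn)
                    have k236 : e13 ≤ e9 := le_trans k210 k235
                    obtain ⟨e15, q15⟩ : ∃ y, f e11 = y := ⟨_, rfl⟩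
                    have k239 : e5 ≤ e15 := MO hf q5 q15 k136
                    have k242 : e15 ≤ e1 := MO hf q15 q1 k134
                    have k243 : e15 ≤ e3 := MO hf q15 q3 k144
                    have k244 : e15 ≤ e10 := MO hf q15 q10 k146
                    have k247 : e15 ≤ e2 := le_trans k242 k7
                    have k249 : e15 ≤ e9 := le_trans k242 k102
                    by_cases k264 : ∃ z, IsGLB ({e0, e15} : Set P) z
                    · obtain ⟨e16, g16⟩ := k264
                      have c16 : Core e0 e16 := CM g16
                      have k267 : e16 ≤ e0 := G1 g16
                      have k268 : e16 ≤ e15 := G2 g16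
                      have k275 : e16 ≤ e1 := le_trans k268 k242
                      have k276 : e16 ≤ e3 := le_trans k268 k243
                      have k287 : ¬ e4 ≤ e16 := N2 k23 k275
                      have k297 : e16 ≤ e4 := G3 g4 k267 k276
                      exact HL _ _ _ _ _ _ c16 c4 c11 c0 c2 c9 (LT k297 k287) (LT k136 k178) (LT k134 k148) (LT k6 k10) (LT k103 k104)
                    · obtain ⟨e16, l16⟩ := (h1 e15).resolve_right k264
                      have c16 : Core e0 e16 := CJ k264 l16
                      have k267 : e0 ≤ e16 := L1 l16
                      have k268 : e15 ≤ e16 := L2 l16
                      have k269 : e16 ≤ e2 := L3 l16 k6 k247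
                      have k271 : e16 ≤ e9 := L3 l16 k88 k249
                      have k275 : e11 ≤ e16 := le_trans k134 k267
                      have k276 : e5 ≤ e16 := le_trans k239 k268
                      have k285 : ¬ e16 ≤ e12 := N1 k149 k267
                      have k291 : ¬ e8 ≤ e16 := N2 k106 k269
                      have k292 : ¬ e9 ≤ e16 := N1 k291 k89
                      have k297 : e12 ≤ e16 := L3 l12 k275 k276
                      obtain ⟨e17, l17⟩ := ZE h2 k244 k264 g11
                      have c17 : Core e0 e17 := CZ g11 k264 l17
                      have k302 : e11 ≤ e17 := L1 l17
                      have k303 : e15 ≤ e17 := L2 l17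
                      have k304 : e17 ≤ e2 := L3 l17 k144 k247
                      have k307 : e17 ≤ e10 := L3 l17 k135 k244
                      have k311 : e5 ≤ e17 := le_trans k239 k303
                      have k312 : ¬ e0 ≤ e17 := N2 k116 k307
                      have k313 : ¬ e2 ≤ e17 := N1 k312 k6
                      have k334 : e12 ≤ e17 := L3 l12 k302 k311
                      have k335 : e17 ≤ e12 := Classical.byContradiction fun hn => HL _ _ _ _ _ _ c4 c7 c12 c17 c2 c9 (LT k58 k70) (LT k169 k176) (LT k334 hn) (LT k304 k313) (LT k103 k104)
                      have k336 : e15 ≤ e12 := le_trans k303 k335
                      obtain ⟨e18, l18⟩ := ZE h2 k188 k203 g11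
                      have c18 : Core e0 e18 := CZ g11 k203 l18
                      have k339 : e11 ≤ e18 := L1 l18
                      have k340 : e13 ≤ e18 := L2 l18
                      have k341 : e18 ≤ e9 := L3 l18 k146 k236
                      have k342 : e18 ≤ e10 := L3 l18 k135 k188
                      have k344 : e4 ≤ e18 := le_trans k136 k339
                      have k345 : e5 ≤ e18 := le_trans k183 k340
                      have k346 : e8 ≤ e18 := le_trans k184 k340
                      have k348 : ¬ e0 ≤ e18 := N2 k116 k342
                      have k351 : ¬ e9 ≤ e18 := N1 k348 k88
                      have k365 : ¬ e18 ≤ e12 := N1 k175 k346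
                      have k371 : e7 ≤ e18 := L3 l7 k344 k345
                      have k372 : e12 ≤ e18 := L3 l12 k339 k345
                      obtain ⟨e19, q19⟩ : ∃ y, f e18 = y := ⟨_, rfl⟩
                      have k376 : e8 ≤ e19 := MO hf q8 q19 k371
                      have k377 : e13 ≤ e19 := MO hf q13 q19 k372
                      have k379 : ¬ e18 ≤ e19 := FA hF q19
                      have k380 : ¬ e19 ≤ e18 := FB hG q19
                      have k381 : e19 ≤ e10 := MO hf q19 q10 k341
                      have k382 : ¬ e11 ≤ e19 := L5 l18 k377 k379
                      by_cases k406 : ∃ z, IsGLB ({e0, e19} : Set P) z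
                      · obtain ⟨e20, g20⟩ := k406
                        have c20 : Core e0 e20 := CM g20
                        have k409 : e20 ≤ e0 := G1 g20
                        have k410 : e20 ≤ e19 := G2 g20
                        have k416 : e20 ≤ e2 := le_trans k409 k6
                        have k418 : e20 ≤ e9 := le_trans k409 k88
                        have k421 : e20 ≤ e10 := le_trans k410 k381
                        have k440 : ¬ e11 ≤ e20 := N2 k382 k410
                        have k441 : e20 ≤ e11 := G3 g11 k409 k421
                        have k442 : e20 ≤ e12 := le_trans k441 k141
                        have k444 : e20 ≤ e18 := le_trans k441 k339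
                        obtain ⟨e21, q21⟩ : ∃ y, f e20 = y := ⟨_, rfl⟩
                        have k447 : ¬ e21 ≤ e20 := FB hG q21
                        have k448 : e21 ≤ e1 := MO hf q21 q1 k409
                        have k449 : e21 ≤ e3 := MO hf q21 q3 k416
                        have k450 : e21 ≤ e10 := MO hf q21 q10 k418
                        have k451 : e21 ≤ e13 := MO hf q21 q13 k442
                        have k452 : e21 ≤ e15 := MO hf q21 q15 k441
                        have k453 : e21 ≤ e19 := MO hf q21 q19 k444
                        have k454 : ¬ e21 ≤ e0 := G5 g20 k453 k447
                        have k455 : e21 ≤ e2 := le_trans k448 k7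
                        have k457 : e21 ≤ e9 := le_trans k448 k102
                        have k460 : e21 ≤ e18 := le_trans k451 k340
                        have k461 : e21 ≤ e12 := le_trans k452 k336
                        have k481 : ¬ e21 ≤ e11 := N2 k454 k134
                        by_cases k482 : ∃ z, IsGLB ({e0, e21} : Set P) z
                        · obtain ⟨e22, g22⟩ := k482
                          have c22 : Core e0 e22 := CM g22
                          have k485 : e22 ≤ e0 := G1 g22
                          have k486 : e22 ≤ e21 := G2 g22
                          have k493 : e22 ≤ e1 := le_trans k486 k448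
                          have k494 : e22 ≤ e3 := le_trans k486 k449
                          have k511 : ¬ e4 ≤ e22 := N2 k23 k493
                          have k524 : e22 ≤ e4 := G3 g4 k485 k494
                          exact HL _ _ _ _ _ _ c22 c4 c11 c0 c2 c9 (LT k524 k511) (LT k136 k178) (LT k134 k148) (LT k6 k10) (LT k103 k104)
                        · obtain ⟨e22, l22⟩ := ZE h2 k450 k482 g11
                          have c22 : Core e0 e22 := CZ g11 k482 l22
                          have k485 : e11 ≤ e22 := L1 l22
                          have k486 : e21 ≤ e22 := L2 l22
                          have k491 : e22 ≤ e12 := L3 l22 k141 k461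
                          have k522 : ¬ e22 ≤ e11 := N1 k481 k486
                          have k524 : e12 ≤ e22 := Classical.byContradiction fun hn => HL _ _ _ _ _ _ c4 c11 c22 c12 c2 c9 (LT k136 k178) (LT k485 k522) (LT k491 hn) (LT k170 k153) (LT k103 k104)
                          obtain ⟨e23, l23⟩ := ZE h2 k453 k482 g20
                          have c23 : Core e0 e23 := CZ g20 k482 l23
                          have k531 : e20 ≤ e23 := L1 l23
                          have k532 : e21 ≤ e23 := L2 l23
                          have k533 : e23 ≤ e2 := L3 l23 k416 k455
                          have k535 : e23 ≤ e9 := L3 l23 k418 k457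
                          have k537 : e23 ≤ e12 := L3 l23 k442 k461
                          have k541 : e23 ≤ e18 := L3 l23 k444 k460
                          have k568 : ¬ e23 ≤ e20 := N1 k447 k532
                          obtain ⟨e24, q24⟩ : ∃ y, f e23 = y := ⟨_, rfl⟩
                          have k571 : e21 ≤ e24 := MO hf q21 q24 k531
                          have k573 : ¬ e24 ≤ e23 := FB hG q24
                          have k574 : e24 ≤ e3 := MO hf q24 q3 k533
                          have k575 : e24 ≤ e10 := MO hf q24 q10 k535
                          have k576 : e24 ≤ e13 := MO hf q24 q13 k537
                          have k577 : e24 ≤ e19 := MO hf q24 q19 k541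
                          have k579 : e24 ≤ e9 := le_trans k576 k236
                          have k581 : e24 ≤ e18 := le_trans k576 k340
                          by_cases k603 : ∃ z, IsGLB ({e0, e24} : Set P) z
                          · obtain ⟨e25, g25⟩ := k603
                            have c25 : Core e0 e25 := CM g25
                            have k606 : e25 ≤ e0 := G1 g25
                            have k607 : e25 ≤ e24 := G2 g25
                            have k615 : e25 ≤ e3 := le_trans k607 k574
                            have k617 : e25 ≤ e13 := le_trans k607 k576
                            have k629 : ¬ e4 ≤ e25 := N2 k204 k617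
                            have k645 : e25 ≤ e4 := G3 g4 k606 k615
                            exact HL _ _ _ _ _ _ c25 c4 c11 c0 c2 c9 (LT k645 k629) (LT k136 k178) (LT k134 k148) (LT k6 k10) (LT k103 k104)
                          · obtain ⟨e25, l25⟩ := ZE h2 k575 k603 g11
                            have c25 : Core e0 e25 := CZ g11 k603 l25
                            have k606 : e11 ≤ e25 := L1 l25
                            have k607 : e24 ≤ e25 := L2 l25
                            have k611 : e25 ≤ e18 := L3 l25 k339 k581
                            have k614 : e21 ≤ e25 := le_trans k571 k607
                            have k639 : e22 ≤ e25 := L3 l22 k606 k614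
                            have k643 : e12 ≤ e25 := le_trans k524 k639
                            by_cases k646 : e25 ≤ e12
                            · have k654 : e24 ≤ e12 := le_trans k607 k646
                              obtain ⟨e26, l26⟩ := ZE h2 k577 k603 g20
                              have c26 : Core e0 e26 := CZ g20 k603 l26
                              have k667 : e20 ≤ e26 := L1 l26
                              have k668 : e24 ≤ e26 := L2 l26
                              have k673 : e26 ≤ e12 := L3 l26 k442 k654
                              have k678 : e26 ≤ e19 := L3 l26 k410 k577
                              have k681 : e21 ≤ e26 := le_trans k571 k668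
                              have k694 : ¬ e11 ≤ e26 := N2 k382 k678
                              have k695 : ¬ e12 ≤ e26 := N1 k694 k141
                              have k709 : ¬ e26 ≤ e23 := N1 k573 k668
                              have k711 : e23 ≤ e26 := L3 l23 k667 k681
                              exact HL _ _ _ _ _ _ c20 c23 c26 c12 c2 c9 (LT k531 k568) (LT k711 k709) (LT k673 k695) (LT k170 k153) (LT k103 k104)
                            · have k655 : e18 ≤ e25 := Classical.byContradiction fun hn => HL _ _ _ _ _ _ c4 c7 c12 c25 c18 c9 (LT k58 k70) (LT k169 k176) (LT k643 k646) (LT k611 hn) (LT k341 k351)
                              have k656 : e8 ≤ e25 := le_trans k346 k655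
                              obtain ⟨e26, l26⟩ := ZE h2 k577 k603 g20
                              have c26 : Core e0 e26 := CZ g20 k603 l26
                              have k667 : e20 ≤ e26 := L1 l26
                              have k668 : e24 ≤ e26 := L2 l26
                              have k669 : e26 ≤ e9 := L3 l26 k418 k579
                              have k672 : e26 ≤ e18 := L3 l26 k444 k581
                              have k675 : e21 ≤ e26 := le_trans k571 k668
                              have k708 : ¬ e26 ≤ e23 := N1 k573 k668
                              have k710 : e23 ≤ e26 := L3 l23 k667 k675
                              obtain ⟨e27, q27⟩ : ∃ y, f e26 = y := ⟨_, rfl⟩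
                              have k713 : e24 ≤ e27 := MO hf q24 q27 k710
                              have k714 : ¬ e26 ≤ e27 := FA hF q27
                              have k715 : ¬ e27 ≤ e26 := FB hG q27
                              have k716 : e27 ≤ e10 := MO hf q27 q10 k669
                              have k717 : e27 ≤ e19 := MO hf q27 q19 k672
                              have k718 : ¬ e20 ≤ e27 := L5 l26 k713 k714
                              by_cases k751 : ∃ z, IsGLB ({e0, e27} : Set P) z
                              · obtain ⟨e28, g28⟩ := k751
                                have c28 : Core e0 e28 := CM g28
                                have k754 : e28 ≤ e0 := G1 g28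
                                have k755 : e28 ≤ e27 := G2 g28
                                have k765 : e28 ≤ e19 := le_trans k755 k717
                                have k787 : ¬ e20 ≤ e28 := N2 k718 k755
                                have k794 : e28 ≤ e20 := G3 g20 k754 k765
                                exact HL _ _ _ _ _ _ c28 c20 c11 c0 c2 c9 (LT k794 k787) (LT k441 k440) (LT k134 k148) (LT k6 k10) (LT k103 k104)
                              · obtain ⟨e28, l28⟩ := (h1 e27).resolve_right k751
                                have c28 : Core e0 e28 := CJ k751 l28
                                have k754 : e0 ≤ e28 := L1 l28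
                                have k755 : e27 ≤ e28 := L2 l28
                                have k758 : e11 ≤ e28 := le_trans k134 k754
                                have k761 : e24 ≤ e28 := le_trans k713 k755
                                have k790 : e25 ≤ e28 := L3 l25 k758 k761
                                have k797 : e8 ≤ e28 := le_trans k656 k790
                                have k801 : e9 ≤ e28 := L3 l9 k754 k797
                                have k806 : e28 ≤ e9 := Classical.byContradiction fun hn => HL _ _ _ _ _ _ c4 c7 c12 c16 c9 c28 (LT k58 k70) (LT k169 k176) (LT k297 k285) (LT k271 k292) (LT k801 hn)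
                                have k808 : e27 ≤ e9 := le_trans k755 k806
                                obtain ⟨e29, l29⟩ := ZE h2 k716 k751 g11
                                have c29 : Core e0 e29 := CZ g11 k751 l29
                                have k813 : e11 ≤ e29 := L1 l29
                                have k814 : e27 ≤ e29 := L2 l29
                                have k815 : e29 ≤ e9 := L3 l29 k146 k808
                                have k816 : e29 ≤ e10 := L3 l29 k135 k716
                                have k822 : e24 ≤ e29 := le_trans k713 k814
                                have k823 : ¬ e0 ≤ e29 := N2 k116 k816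
                                have k826 : ¬ e9 ≤ e29 := N1 k823 k88
                                have k857 : e25 ≤ e29 := L3 l25 k813 k822
                                have k866 : e18 ≤ e29 := le_trans k655 k857
                                have k867 : e29 ≤ e18 := Classical.byContradiction fun hn => HL _ _ _ _ _ _ c4 c7 c12 c18 c29 c9 (LT k58 k70) (LT k169 k176) (LT k372 k365) (LT k866 hn) (LT k815 k826)
                                have k869 : e27 ≤ e18 := le_trans k814 k867
                                obtain ⟨e30, l30⟩ := ZE h2 k717 k751 g20
                                have c30 : Core e0 e30 := CZ g20 k751 l30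
                                have k874 : e20 ≤ e30 := L1 l30
                                have k875 : e27 ≤ e30 := L2 l30
                                have k879 : e30 ≤ e18 := L3 l30 k444 k869
                                have k880 : e30 ≤ e19 := L3 l30 k410 k717
                                have k885 : e24 ≤ e30 := le_trans k713 k875
                                have k894 : ¬ e11 ≤ e30 := N2 k382 k880
                                have k897 : ¬ e18 ≤ e30 := N1 k894 k339
                                have k922 : ¬ e30 ≤ e26 := N1 k715 k875
                                have k925 : e26 ≤ e30 := L3 l26 k874 k885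
                                exact HL _ _ _ _ _ _ c20 c23 c26 c30 c18 c9 (LT k531 k568) (LT k710 k708) (LT k925 k922) (LT k879 k897) (LT k341 k351)
                      · obtain ⟨e20, l20⟩ := (h1 e19).resolve_right k406
                        have c20 : Core e0 e20 := CJ k406 l20
                        have k409 : e0 ≤ e20 := L1 l20
                        have k410 : e19 ≤ e20 := L2 l20
                        have k415 : e8 ≤ e20 := le_trans k376 k410
                        have k438 : e9 ≤ e20 := L3 l9 k409 k415
                        have k446 : e20 ≤ e9 := Classical.byContradiction fun hn => HL _ _ _ _ _ _ c4 c7 c12 c16 c9 c20 (LT k58 k70) (LT k169 k176) (LT k297 k285) (LT k271 k292) (LT k438 hn)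
                        have k448 : e19 ≤ e9 := le_trans k410 k446
                        obtain ⟨e21, l21⟩ := ZE h2 k381 k406 g11
                        have c21 : Core e0 e21 := CZ g11 k406 l21
                        have k453 : e11 ≤ e21 := L1 l21
                        have k454 : e19 ≤ e21 := L2 l21
                        have k455 : e21 ≤ e9 := L3 l21 k146 k448
                        have k456 : e21 ≤ e10 := L3 l21 k135 k381
                        have k462 : e13 ≤ e21 := le_trans k377 k454
                        have k464 : ¬ e0 ≤ e21 := N2 k116 k456
                        have k467 : ¬ e9 ≤ e21 := N1 k464 k88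
                        have k488 : ¬ e21 ≤ e18 := N1 k380 k454
                        have k493 : e18 ≤ e21 := L3 l18 k453 k462
                        exact HL _ _ _ _ _ _ c4 c7 c12 c18 c21 c9 (LT k58 k70) (LT k169 k176) (LT k372 k365) (LT k493 k488) (LT k455 k467)
              · obtain ⟨e11, l11⟩ := (h1 e10).resolve_right k129
                have c11 : Core e0 e11 := CJ k129 l11
                have k132 : e0 ≤ e11 := L1 l11
                have k133 : e10 ≤ e11 := L2 l11
                have k135 : e4 ≤ e11 := le_trans k21 k132
                have k136 : e1 ≤ e11 := le_trans k110 k133
                have k140 : e8 ≤ e11 := le_trans k113 k133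
                have k151 : ¬ e11 ≤ e9 := N1 k115 k133
                have k152 : e2 ≤ e11 := L3 l2 k132 k136
                have k154 : e9 ≤ e11 := L3 l9 k132 k140
                obtain ⟨e12, q12⟩ : ∃ y, f e11 = y := ⟨_, rfl⟩
                have k157 : e3 ≤ e12 := MO hf q3 q12 k152
                have k158 : e5 ≤ e12 := MO hf q5 q12 k135
                have k160 : e10 ≤ e12 := MO hf q10 q12 k154
                have k161 : ¬ e11 ≤ e12 := FA hF q12
                have k162 : ¬ e12 ≤ e11 := FB hG q12
                have k163 : ¬ e0 ≤ e12 := L5 l11 k160 k161
                have k164 : e4 ≤ e12 := le_trans k22 k157
                by_cases k180 : ∃ z, IsGLB ({e0, e12} : Set P) z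
                · obtain ⟨e13, g13⟩ := k180
                  have c13 : Core e0 e13 := CM g13
                  obtain ⟨e14, l14⟩ := ZE h2 k158 k40 g13
                  have c14 : Core e0 e14 := CZ g13 k40 l14
                  have k185 : e13 ≤ e0 := G1 g13
                  have k186 : e13 ≤ e12 := G2 g13
                  have k187 : e4 ≤ e13 := G3 g13 k21 k164
                  have k191 : ¬ e13 ≤ e10 := BN3 g13 k129 k160
                  have k201 : ¬ e0 ≤ e13 := N2 k163 k186
                  have k226 : ¬ e13 ≤ e4 := N2 k191 k117
                  exact HL _ _ _ _ _ _ c4 c13 c0 c2 c9 c11 (LT k187 k226) (LT k185 k201) (LT k6 k10) (LT k103 k104) (LT k154 k151)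
                · obtain ⟨e13, l13⟩ := (h1 e12).resolve_right k180
                  have c13 : Core e0 e13 := CJ k180 l13
                  have k183 : e0 ≤ e13 := L1 l13
                  have k184 : e12 ≤ e13 := L2 l13
                  have k192 : e10 ≤ e13 := le_trans k160 k184
                  have k205 : ¬ e13 ≤ e11 := N1 k162 k184
                  have k209 : e11 ≤ e13 := L3 l11 k183 k192
                  exact HL _ _ _ _ _ _ c4 c0 c2 c9 c11 c13 (LT k21 k26) (LT k6 k10) (LT k103 k104) (LT k154 k151) (LT k209 k205)
        · have k55 : ¬ e1 ≤ e6 := L4 l2 k43 k54
          obtain ⟨e7, q7⟩ : ∃ y, f e6 = y := ⟨_, rfl⟩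
          have k58 : e1 ≤ e7 := MO hf q1 q7 k43
          have k59 : e5 ≤ e7 := MO hf q5 q7 k47
          have k62 : e7 ≤ e3 := MO hf q7 q3 k45
          by_cases k68 : ∃ z, IsGLB ({e0, e7} : Set P) z
          · obtain ⟨e8, g8⟩ := k68
            have c8 : Core e0 e8 := CM g8
            have k71 : e8 ≤ e0 := G1 g8
            have k72 : e8 ≤ e7 := G2 g8
            have k73 : ¬ e8 ≤ e1 := BN3 g8 k3 k58
            have k76 : e8 ≤ e2 := le_trans k71 k6
            have k77 : e8 ≤ e6 := le_trans k71 k43
            have k78 : e8 ≤ e3 := le_trans k72 k62
            have k87 : e8 ≤ e4 := G3 g4 k71 k78
            by_cases k88 : e4 ≤ e8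
            · have k89 : e4 ≤ e7 := le_trans k88 k72
              obtain ⟨e9, l9⟩ := ZE h2 k59 k40 g8
              have c9 : Core e0 e9 := CZ g8 k40 l9
              have k92 : e8 ≤ e9 := L1 l9
              have k93 : e5 ≤ e9 := L2 l9
              have k94 : e9 ≤ e2 := L3 l9 k76 k36
              have k95 : e9 ≤ e3 := L3 l9 k78 k34
              have k96 : e9 ≤ e6 := L3 l9 k77 k44
              have k97 : e9 ≤ e7 := L3 l9 k72 k59
              have k98 : e4 ≤ e9 := le_trans k88 k92
              have k99 : ¬ e0 ≤ e9 := N2 k15 k95
              have k101 : ¬ e6 ≤ e9 := N1 k99 k43
              have k108 : ¬ e9 ≤ e4 := N1 k32 k93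
              obtain ⟨e10, q10⟩ : ∃ y, f e9 = y := ⟨_, rfl⟩
              have k112 : e5 ≤ e10 := MO hf q5 q10 k98
              have k113 : ¬ e9 ≤ e10 := FA hF q10
              have k114 : ¬ e10 ≤ e9 := FB hG q10
              have k115 : e10 ≤ e3 := MO hf q10 q3 k94
              have k116 : e10 ≤ e7 := MO hf q10 q7 k96
              have k117 : ¬ e8 ≤ e10 := L5 l9 k112 k113
              have k125 : ¬ e4 ≤ e10 := N1 k117 k87
              by_cases k128 : ∃ z, IsGLB ({e0, e10} : Set P) z
              · obtain ⟨e11, g11⟩ := k128
                have c11 : Core e0 e11 := CM g11
                have k131 : e11 ≤ e0 := G1 g11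
                have k132 : e11 ≤ e10 := G2 g11
                have k133 : ¬ e11 ≤ e5 := BN3 g11 k40 k112
                have k135 : e11 ≤ e2 := le_trans k131 k6
                have k136 : e11 ≤ e6 := le_trans k131 k43
                have k137 : e11 ≤ e3 := le_trans k132 k115
                have k138 : e11 ≤ e7 := le_trans k132 k116
                have k145 : ¬ e4 ≤ e11 := N2 k125 k132
                have k150 : e11 ≤ e4 := G3 g4 k131 k137
                have k152 : e11 ≤ e9 := le_trans k150 k98
                obtain ⟨e12, q12⟩ : ∃ y, f e11 = y := ⟨_, rfl⟩
                have k155 : ¬ e12 ≤ e11 := FB hG q12
                have k156 : e12 ≤ e1 := MO hf q12 q1 k131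
                have k158 : e12 ≤ e5 := MO hf q12 q5 k150
                have k159 : e12 ≤ e7 := MO hf q12 q7 k136
                have k160 : e12 ≤ e10 := MO hf q12 q10 k152
                have k161 : ¬ e12 ≤ e0 := G5 g11 k160 k155
                have k162 : e12 ≤ e2 := le_trans k156 k7
                have k163 : e12 ≤ e6 := le_trans k158 k44
                have k164 : e12 ≤ e9 := le_trans k158 k93
                have k175 : ¬ e12 ≤ e4 := N2 k161 k21
                by_cases k177 : ∃ z, IsGLB ({e0, e12} : Set P) z
                · obtain ⟨e13, g13⟩ := k177
                  have c13 : Core e0 e13 := CM g13
                  have k180 : e13 ≤ e0 := G1 g13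
                  have k181 : e13 ≤ e12 := G2 g13
                  have k187 : e13 ≤ e5 := le_trans k181 k158
                  have k190 : e13 ≤ e10 := le_trans k181 k160
                  have k202 : ¬ e11 ≤ e13 := N2 k133 k187
                  have k206 : e13 ≤ e11 := G3 g11 k180 k190
                  exact HL _ _ _ _ _ _ c13 c11 c4 c0 c6 c2 (LT k206 k202) (LT k150 k145) (LT k21 k26) (LT k43 k53) (LT k45 k54)
                · obtain ⟨e13, l13⟩ := ZE h2 k159 k177 g8
                  have c13 : Core e0 e13 := CZ g8 k177 l13
                  have k180 : e8 ≤ e13 := L1 l13
                  have k181 : e12 ≤ e13 := L2 l13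
                  have k186 : e13 ≤ e9 := L3 l13 k92 k164
                  have k187 : e4 ≤ e13 := le_trans k88 k180
                  have k202 : ¬ e13 ≤ e4 := N1 k175 k181
                  have k205 : e9 ≤ e13 := Classical.byContradiction fun hn => HL _ _ _ _ _ _ c11 c4 c13 c9 c6 c2 (LT k150 k145) (LT k187 k202) (LT k186 hn) (LT k96 k101) (LT k45 k54)
                  have k206 : e5 ≤ e13 := le_trans k93 k205
                  obtain ⟨e14, l14⟩ := ZE h2 k160 k177 g11
                  have c14 : Core e0 e14 := CZ g11 k177 l14
                  have k209 : e11 ≤ e14 := L1 l14
                  have k210 : e12 ≤ e14 := L2 l14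
                  have k211 : e14 ≤ e2 := L3 l14 k135 k162
                  have k213 : e14 ≤ e6 := L3 l14 k136 k163
                  have k215 : e14 ≤ e9 := L3 l14 k152 k164
                  have k216 : e14 ≤ e10 := L3 l14 k132 k160
                  have k224 : ¬ e4 ≤ e14 := N2 k125 k216
                  have k226 : ¬ e9 ≤ e14 := N1 k224 k98
                  have k234 : ¬ e14 ≤ e11 := N1 k155 k210
                  obtain ⟨e15, q15⟩ : ∃ y, f e14 = y := ⟨_, rfl⟩
                  have k237 : e12 ≤ e15 := MO hf q12 q15 k209
                  have k238 : ¬ e14 ≤ e15 := FA hF q15
                  have k239 : ¬ e15 ≤ e14 := FB hG q15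
                  have k240 : e15 ≤ e3 := MO hf q15 q3 k211
                  have k241 : e15 ≤ e7 := MO hf q15 q7 k213
                  have k242 : e15 ≤ e10 := MO hf q15 q10 k215
                  have k243 : ¬ e11 ≤ e15 := L5 l14 k237 k238
                  by_cases k259 : ∃ z, IsGLB ({e0, e15} : Set P) z
                  · obtain ⟨e16, g16⟩ := k259
                    have c16 : Core e0 e16 := CM g16
                    have k262 : e16 ≤ e0 := G1 g16
                    have k263 : e16 ≤ e15 := G2 g16
                    have k270 : e16 ≤ e10 := le_trans k263 k242
                    have k283 : ¬ e11 ≤ e16 := N2 k243 k263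
                    have k289 : e16 ≤ e11 := G3 g11 k262 k270
                    exact HL _ _ _ _ _ _ c16 c11 c4 c0 c6 c2 (LT k289 k283) (LT k150 k145) (LT k21 k26) (LT k43 k53) (LT k45 k54)
                  · obtain ⟨e16, l16⟩ := (h1 e15).resolve_right k259
                    have c16 : Core e0 e16 := CJ k259 l16
                    have k262 : e0 ≤ e16 := L1 l16
                    have k263 : e15 ≤ e16 := L2 l16
                    have k266 : e8 ≤ e16 := le_trans k71 k262
                    have k267 : e11 ≤ e16 := le_trans k131 k262
                    have k268 : e12 ≤ e16 := le_trans k237 k263
                    have k275 : ¬ e16 ≤ e9 := N1 k99 k262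
                    have k283 : e13 ≤ e16 := L3 l13 k266 k268
                    have k284 : e14 ≤ e16 := L3 l14 k267 k268
                    have k285 : e5 ≤ e16 := le_trans k206 k283
                    have k286 : e9 ≤ e16 := le_trans k205 k283
                    have k287 : e6 ≤ e16 := L3 l6 k262 k285
                    by_cases k288 : e16 ≤ e6
                    · have k289 : e16 ≤ e2 := le_trans k288 k45
                      have k291 : e15 ≤ e6 := le_trans k263 k288
                      have k293 : ¬ e1 ≤ e16 := N2 k55 k288
                      have k294 : ¬ e2 ≤ e16 := N1 k293 k7
                      obtain ⟨e17, l17⟩ := ZE h2 k241 k259 g8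
                      have c17 : Core e0 e17 := CZ g8 k259 l17
                      have k299 : e8 ≤ e17 := L1 l17
                      have k300 : e15 ≤ e17 := L2 l17
                      have k302 : e17 ≤ e3 := L3 l17 k78 k240
                      have k303 : e17 ≤ e6 := L3 l17 k77 k291
                      have k308 : e12 ≤ e17 := le_trans k237 k300
                      have k309 : ¬ e0 ≤ e17 := N2 k15 k302
                      have k311 : ¬ e6 ≤ e17 := N1 k309 k43
                      have k327 : e13 ≤ e17 := L3 l13 k299 k308
                      have k330 : e9 ≤ e17 := le_trans k205 k327
                      have k331 : e17 ≤ e9 := Classical.byContradiction fun hn => HL _ _ _ _ _ _ c11 c14 c9 c17 c6 c2 (LT k209 k234) (LT k215 k226) (LT k330 hn) (LT k303 k311) (LT k45 k54)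
                      have k333 : e15 ≤ e9 := le_trans k300 k331
                      obtain ⟨e18, l18⟩ := ZE h2 k242 k259 g11
                      have c18 : Core e0 e18 := CZ g11 k259 l18
                      have k338 : e11 ≤ e18 := L1 l18
                      have k339 : e15 ≤ e18 := L2 l18
                      have k344 : e18 ≤ e9 := L3 l18 k152 k333
                      have k345 : e18 ≤ e10 := L3 l18 k132 k242
                      have k349 : e12 ≤ e18 := le_trans k237 k339
                      have k357 : ¬ e4 ≤ e18 := N2 k125 k345
                      have k359 : ¬ e9 ≤ e18 := N1 k357 k98
                      have k370 : ¬ e18 ≤ e14 := N1 k239 k339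
                      have k372 : e14 ≤ e18 := L3 l14 k338 k349
                      exact HL _ _ _ _ _ _ c11 c14 c18 c9 c16 c2 (LT k209 k234) (LT k372 k370) (LT k344 k359) (LT k286 k275) (LT k289 k294)
                    · have k289 : ¬ e15 ≤ e6 := L4 l16 k43 k288
                      have k292 : ¬ e15 ≤ e9 := N2 k289 k96
                      obtain ⟨e17, q17⟩ : ∃ y, f e16 = y := ⟨_, rfl⟩
                      have k297 : e7 ≤ e17 := MO hf q7 q17 k287
                      have k299 : e12 ≤ e17 := MO hf q12 q17 k267
                      have k300 : e15 ≤ e17 := MO hf q15 q17 k284
                      have k301 : ¬ e16 ≤ e17 := FA hF q17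
                      have k302 : ¬ e17 ≤ e16 := FB hG q17
                      have k303 : ¬ e0 ≤ e17 := L5 l16 k300 k301
                      have k304 : e4 ≤ e17 := le_trans k89 k297
                      have k305 : e8 ≤ e17 := le_trans k72 k297
                      have k307 : e11 ≤ e17 := le_trans k138 k297
                      by_cases k325 : ∃ z, IsGLB ({e0, e17} : Set P) z
                      · obtain ⟨e18, g18⟩ := k325
                        have c18 : Core e0 e18 := CM g18
                        obtain ⟨e19, l19⟩ := ZE h2 k299 k177 g18
                        have c19 : Core e0 e19 := CZ g18 k177 l19
                        have k330 : e18 ≤ e0 := G1 g18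
                        have k331 : e18 ≤ e17 := G2 g18
                        have k332 : e4 ≤ e18 := G3 g18 k21 k304
                        have k333 : e8 ≤ e18 := G3 g18 k71 k305
                        have k334 : e11 ≤ e18 := G3 g18 k131 k307
                        have k340 : e18 ≤ e19 := L1 l19
                        have k341 : e12 ≤ e19 := L2 l19
                        have k344 : e18 ≤ e6 := le_trans k330 k43
                        have k345 : e18 ≤ e16 := le_trans k330 k262
                        have k346 : e4 ≤ e19 := le_trans k332 k340
                        have k348 : e11 ≤ e19 := le_trans k334 k340
                        have k349 : ¬ e0 ≤ e18 := N2 k303 k331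
                        have k369 : ¬ e19 ≤ e14 := N1 k224 k346
                        have k371 : ¬ e5 ≤ e18 := N2 k35 k330
                        have k372 : ¬ e9 ≤ e18 := N1 k371 k93
                        have k384 : e14 ≤ e19 := L3 l14 k348 k341
                        have k386 : e19 ≤ e6 := L3 l19 k344 k163
                        have k395 : ¬ e15 ≤ e19 := N2 k289 k386
                        have k396 : e18 ≤ e4 := Classical.byContradiction fun hn => HL _ _ _ _ _ _ c11 c4 c18 c0 c6 c2 (LT k150 k145) (LT k332 hn) (LT k330 k349) (LT k43 k53) (LT k45 k54)
                        have k397 : e18 ≤ e3 := le_trans k396 k22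
                        have k400 : e18 ≤ e9 := le_trans k396 k98
                        obtain ⟨e20, l20⟩ := ZE h2 k300 k259 g18
                        have c20 : Core e0 e20 := CZ g18 k259 l20
                        have k408 : e18 ≤ e20 := L1 l20
                        have k409 : e15 ≤ e20 := L2 l20
                        have k410 : e20 ≤ e3 := L3 l20 k397 k240
                        have k412 : e20 ≤ e16 := L3 l20 k345 k263
                        have k414 : e12 ≤ e20 := le_trans k237 k409
                        have k415 : e4 ≤ e20 := le_trans k332 k408
                        have k416 : e8 ≤ e20 := le_trans k333 k408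
                        have k417 : e11 ≤ e20 := le_trans k334 k408
                        have k418 : ¬ e0 ≤ e20 := N2 k15 k410
                        have k421 : ¬ e16 ≤ e20 := N1 k418 k262
                        have k434 : ¬ e20 ≤ e9 := N1 k292 k409
                        have k436 : ¬ e20 ≤ e19 := N1 k395 k409
                        have k439 : e13 ≤ e20 := L3 l13 k416 k414
                        have k440 : e14 ≤ e20 := L3 l14 k417 k414
                        have k441 : e19 ≤ e20 := L3 l19 k408 k414
                        have k443 : e9 ≤ e20 := le_trans k205 k439
                        obtain ⟨e21, q21⟩ : ∃ y, f e20 = y := ⟨_, rfl⟩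
                        have k446 : e10 ≤ e21 := MO hf q10 q21 k443
                        have k447 : e12 ≤ e21 := MO hf q12 q21 k417
                        have k448 : e15 ≤ e21 := MO hf q15 q21 k440
                        have k449 : ¬ e20 ≤ e21 := FA hF q21
                        have k450 : ¬ e21 ≤ e20 := FB hG q21
                        have k451 : e21 ≤ e17 := MO hf q21 q17 k412
                        have k452 : ¬ e18 ≤ e21 := L5 l20 k448 k449
                        have k453 : e11 ≤ e21 := le_trans k132 k446
                        have k473 : ¬ e4 ≤ e21 := N1 k452 k396
                        by_cases k480 : ∃ z, IsGLB ({e0, e21} : Set P) z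
                        · obtain ⟨e22, g22⟩ := k480
                          have c22 : Core e0 e22 := CM g22
                          obtain ⟨e23, l23⟩ := ZE h2 k447 k177 g22
                          have c23 : Core e0 e23 := CZ g22 k177 l23
                          have k485 : e22 ≤ e0 := G1 g22
                          have k486 : e22 ≤ e21 := G2 g22
                          have k487 : e11 ≤ e22 := G3 g22 k131 k453
                          have k497 : e22 ≤ e16 := le_trans k485 k262
                          have k498 : e22 ≤ e17 := le_trans k486 k451
                          have k514 : ¬ e4 ≤ e22 := N2 k473 k486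
                          have k519 : ¬ e18 ≤ e22 := N1 k514 k332
                          have k545 : e22 ≤ e18 := G3 g18 k485 k498
                          have k552 : e22 ≤ e4 := le_trans k545 k396
                          have k558 : e22 ≤ e20 := le_trans k545 k408
                          have k569 : e22 ≤ e11 := Classical.byContradiction fun hn => HL _ _ _ _ _ _ c11 c22 c18 c9 c6 c2 (LT k487 hn) (LT k545 k519) (LT k400 k372) (LT k96 k101) (LT k45 k54)
                          obtain ⟨e24, l24⟩ := ZE h2 k448 k259 g22
                          have c24 : Core e0 e24 := CZ g22 k259 l24
                          have k576 : e22 ≤ e24 := L1 l24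
                          have k577 : e15 ≤ e24 := L2 l24
                          have k581 : e24 ≤ e16 := L3 l24 k497 k263
                          have k583 : e24 ≤ e20 := L3 l24 k558 k409
                          have k585 : e12 ≤ e24 := le_trans k237 k577
                          have k586 : e11 ≤ e24 := le_trans k487 k576
                          have k613 : ¬ e24 ≤ e14 := N1 k239 k577
                          have k618 : e14 ≤ e24 := L3 l14 k586 k585
                          obtain ⟨e25, q25⟩ : ∃ y, f e24 = y := ⟨_, rfl⟩
                          have k622 : e15 ≤ e25 := MO hf q15 q25 k618
                          have k623 : ¬ e24 ≤ e25 := FA hF q25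
                          have k624 : ¬ e25 ≤ e24 := FB hG q25
                          have k625 : e25 ≤ e17 := MO hf q25 q17 k581
                          have k626 : e25 ≤ e21 := MO hf q25 q21 k583
                          have k627 : ¬ e22 ≤ e25 := L5 l24 k622 k623
                          have k657 : ¬ e11 ≤ e25 := N1 k627 k569
                          by_cases k662 : ∃ z, IsGLB ({e0, e25} : Set P) z
                          · obtain ⟨e26, g26⟩ := k662
                            have c26 : Core e0 e26 := CM g26
                            have k665 : e26 ≤ e0 := G1 g26
                            have k666 : e26 ≤ e25 := G2 g26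
                            have k674 : e26 ≤ e21 := le_trans k666 k626
                            have k693 : ¬ e11 ≤ e26 := N2 k657 k666
                            have k695 : ¬ e22 ≤ e26 := N1 k693 k487
                            have k702 : e26 ≤ e22 := G3 g22 k665 k674
                            exact HL _ _ _ _ _ _ c26 c22 c4 c0 c6 c2 (LT k702 k695) (LT k552 k514) (LT k21 k26) (LT k43 k53) (LT k45 k54)
                          · obtain ⟨e26, l26⟩ := (h1 e25).resolve_right k662
                            have c26 : Core e0 e26 := CJ k662 l26
                            have k665 : e0 ≤ e26 := L1 l26
                            have k666 : e25 ≤ e26 := L2 l26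
                            have k674 : e15 ≤ e26 := le_trans k622 k666
                            have k701 : e16 ≤ e26 := L3 l16 k665 k674
                            have k709 : e26 ≤ e16 := Classical.byContradiction fun hn => HL _ _ _ _ _ _ c11 c14 c19 c20 c16 c26 (LT k209 k234) (LT k384 k369) (LT k441 k436) (LT k412 k421) (LT k701 hn)
                            have k710 : e25 ≤ e16 := le_trans k666 k709
                            obtain ⟨e27, l27⟩ := ZE h2 k625 k662 g18
                            have c27 : Core e0 e27 := CZ g18 k662 l27
                            have k714 : e18 ≤ e27 := L1 l27
                            have k715 : e25 ≤ e27 := L2 l27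
                            have k716 : e27 ≤ e16 := L3 l27 k345 k710
                            have k717 : e27 ≤ e17 := L3 l27 k331 k625
                            have k724 : e15 ≤ e27 := le_trans k622 k715
                            have k725 : ¬ e0 ≤ e27 := N2 k303 k717
                            have k728 : ¬ e16 ≤ e27 := N1 k725 k262
                            have k755 : e20 ≤ e27 := L3 l20 k714 k724
                            have k760 : e27 ≤ e20 := Classical.byContradiction fun hn => HL _ _ _ _ _ _ c11 c14 c19 c20 c27 c16 (LT k209 k234) (LT k384 k369) (LT k441 k436) (LT k755 hn) (LT k716 k728)
                            have k765 : e25 ≤ e20 := le_trans k715 k760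
                            obtain ⟨e28, l28⟩ := ZE h2 k626 k662 g22
                            have c28 : Core e0 e28 := CZ g22 k662 l28
                            have k769 : e22 ≤ e28 := L1 l28
                            have k770 : e25 ≤ e28 := L2 l28
                            have k775 : e28 ≤ e20 := L3 l28 k558 k765
                            have k776 : e28 ≤ e21 := L3 l28 k486 k626
                            have k781 : e15 ≤ e28 := le_trans k622 k770
                            have k788 : ¬ e4 ≤ e28 := N2 k473 k776
                            have k796 : ¬ e20 ≤ e28 := N1 k788 k415
                            have k815 : ¬ e28 ≤ e24 := N1 k624 k770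
                            have k819 : e24 ≤ e28 := L3 l24 k769 k781
                            exact HL _ _ _ _ _ _ c11 c14 c24 c28 c20 c16 (LT k209 k234) (LT k618 k613) (LT k819 k815) (LT k775 k796) (LT k412 k421)
                        · obtain ⟨e22, l22⟩ := (h1 e21).resolve_right k480
                          have c22 : Core e0 e22 := CJ k480 l22
                          have k483 : e0 ≤ e22 := L1 l22
                          have k484 : e21 ≤ e22 := L2 l22
                          have k494 : e15 ≤ e22 := le_trans k448 k484
                          have k518 : e16 ≤ e22 := L3 l16 k483 k494
                          have k521 : e22 ≤ e16 := Classical.byContradiction fun hn => HL _ _ _ _ _ _ c11 c14 c19 c20 c16 c22 (LT k209 k234) (LT k384 k369) (LT k441 k436) (LT k412 k421) (LT k518 hn)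
                          have k523 : e21 ≤ e16 := le_trans k484 k521
                          obtain ⟨e23, l23⟩ := ZE h2 k451 k480 g18
                          have c23 : Core e0 e23 := CZ g18 k480 l23
                          have k527 : e18 ≤ e23 := L1 l23
                          have k528 : e21 ≤ e23 := L2 l23
                          have k529 : e23 ≤ e16 := L3 l23 k345 k523
                          have k530 : e23 ≤ e17 := L3 l23 k331 k451
                          have k539 : e15 ≤ e23 := le_trans k448 k528
                          have k540 : ¬ e0 ≤ e23 := N2 k303 k530
                          have k543 : ¬ e16 ≤ e23 := N1 k540 k262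
                          have k562 : ¬ e23 ≤ e20 := N1 k450 k528
                          have k567 : e20 ≤ e23 := L3 l20 k527 k539
                          exact HL _ _ _ _ _ _ c11 c4 c9 c20 c23 c16 (LT k150 k145) (LT k98 k108) (LT k443 k434) (LT k567 k562) (LT k529 k543)
                      · obtain ⟨e18, l18⟩ := (h1 e17).resolve_right k325
                        have c18 : Core e0 e18 := CJ k325 l18
                        have k328 : e0 ≤ e18 := L1 l18
                        have k329 : e17 ≤ e18 := L2 l18
                        have k342 : e15 ≤ e18 := le_trans k300 k329
                        have k359 : ¬ e18 ≤ e16 := N1 k302 k329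
                        have k362 : e16 ≤ e18 := L3 l16 k328 k342
                        exact HL _ _ _ _ _ _ c11 c4 c0 c6 c16 c18 (LT k150 k145) (LT k21 k26) (LT k43 k53) (LT k287 k288) (LT k362 k359)
              · obtain ⟨e11, l11⟩ := (h1 e10).resolve_right k128
                have c11 : Core e0 e11 := CJ k128 l11
                have k131 : e0 ≤ e11 := L1 l11
                have k132 : e10 ≤ e11 := L2 l11
                have k134 : e4 ≤ e11 := le_trans k21 k131
                have k135 : e8 ≤ e11 := le_trans k71 k131
                have k136 : e5 ≤ e11 := le_trans k112 k132
                have k146 : e6 ≤ e11 := L3 l6 k131 k136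
                have k147 : e9 ≤ e11 := L3 l9 k135 k136
                by_cases k148 : e11 ≤ e6
                · have k149 : e11 ≤ e2 := le_trans k148 k45
                  have k150 : e10 ≤ e2 := le_trans k132 k149
                  have k151 : e10 ≤ e6 := le_trans k132 k148
                  obtain ⟨e12, l12⟩ := ZE h2 k116 k128 g8
                  have c12 : Core e0 e12 := CZ g8 k128 l12
                  have k159 : e8 ≤ e12 := L1 l12
                  have k160 : e10 ≤ e12 := L2 l12
                  have k161 : e12 ≤ e2 := L3 l12 k76 k150
                  have k162 : e12 ≤ e3 := L3 l12 k78 k115
                  have k163 : e12 ≤ e6 := L3 l12 k77 k151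
                  have k166 : e4 ≤ e12 := le_trans k88 k159
                  have k167 : e5 ≤ e12 := le_trans k112 k160
                  have k168 : ¬ e0 ≤ e12 := N2 k15 k162
                  have k170 : ¬ e6 ≤ e12 := N1 k168 k43
                  have k181 : ¬ e12 ≤ e9 := N1 k114 k160
                  have k183 : e9 ≤ e12 := L3 l9 k159 k167
                  obtain ⟨e13, q13⟩ : ∃ y, f e12 = y := ⟨_, rfl⟩
                  have k185 : e5 ≤ e13 := MO hf q5 q13 k166
                  have k186 : e10 ≤ e13 := MO hf q10 q13 k183
                  have k187 : ¬ e12 ≤ e13 := FA hF q13
                  have k188 : ¬ e13 ≤ e12 := FB hG q13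
                  have k189 : e13 ≤ e3 := MO hf q13 q3 k161
                  have k190 : e13 ≤ e7 := MO hf q13 q7 k163
                  have k191 : ¬ e8 ≤ e13 := L5 l12 k186 k187
                  have k200 : ¬ e4 ≤ e13 := N1 k191 k87
                  by_cases k206 : ∃ z, IsGLB ({e0, e13} : Set P) z
                  · obtain ⟨e14, g14⟩ := k206
                    have c14 : Core e0 e14 := CM g14
                    have k209 : e14 ≤ e0 := G1 g14
                    have k210 : e14 ≤ e13 := G2 g14
                    have k217 : e14 ≤ e3 := le_trans k210 k189
                    have k226 : ¬ e4 ≤ e14 := N2 k200 k210
                    have k233 : e14 ≤ e4 := G3 g4 k209 k217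
                    exact HL _ _ _ _ _ _ c14 c4 c9 c12 c6 c2 (LT k233 k226) (LT k98 k108) (LT k183 k181) (LT k163 k170) (LT k45 k54)
                  · obtain ⟨e14, l14⟩ := (h1 e13).resolve_right k206
                    have c14 : Core e0 e14 := CJ k206 l14
                    have k209 : e0 ≤ e14 := L1 l14
                    have k210 : e13 ≤ e14 := L2 l14
                    have k212 : e4 ≤ e14 := le_trans k21 k209
                    have k213 : e8 ≤ e14 := le_trans k71 k209
                    have k214 : e5 ≤ e14 := le_trans k185 k210
                    have k215 : e10 ≤ e14 := le_trans k186 k210
                    have k227 : e6 ≤ e14 := L3 l6 k209 k214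
                    have k228 : e9 ≤ e14 := L3 l9 k213 k214
                    have k230 : e12 ≤ e14 := L3 l12 k213 k215
                    by_cases k231 : e14 ≤ e6
                    · have k235 : e13 ≤ e6 := le_trans k210 k231
                      obtain ⟨e15, l15⟩ := ZE h2 k190 k206 g8
                      have c15 : Core e0 e15 := CZ g8 k206 l15
                      have k244 : e8 ≤ e15 := L1 l15
                      have k245 : e13 ≤ e15 := L2 l15
                      have k247 : e15 ≤ e3 := L3 l15 k78 k189
                      have k248 : e15 ≤ e6 := L3 l15 k77 k235
                      have k254 : e10 ≤ e15 := le_trans k186 k245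
                      have k255 : ¬ e0 ≤ e15 := N2 k15 k247
                      have k257 : ¬ e6 ≤ e15 := N1 k255 k43
                      have k271 : ¬ e15 ≤ e12 := N1 k188 k245
                      have k274 : e12 ≤ e15 := L3 l12 k244 k254
                      exact HL _ _ _ _ _ _ c4 c9 c12 c15 c6 c2 (LT k98 k108) (LT k183 k181) (LT k274 k271) (LT k248 k257) (LT k45 k54)
                    · obtain ⟨e15, q15⟩ : ∃ y, f e14 = y := ⟨_, rfl⟩
                      have k237 : e5 ≤ e15 := MO hf q5 q15 k212
                      have k238 : e7 ≤ e15 := MO hf q7 q15 k227
                      have k239 : e10 ≤ e15 := MO hf q10 q15 k228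
                      have k240 : e13 ≤ e15 := MO hf q13 q15 k230
                      have k241 : ¬ e14 ≤ e15 := FA hF q15
                      have k242 : ¬ e15 ≤ e14 := FB hG q15
                      have k243 : ¬ e0 ≤ e15 := L5 l14 k240 k241
                      have k244 : e4 ≤ e15 := le_trans k89 k238
                      have k245 : e8 ≤ e15 := le_trans k72 k238
                      by_cases k262 : ∃ z, IsGLB ({e0, e15} : Set P) z
                      · obtain ⟨e16, g16⟩ := k262
                        have c16 : Core e0 e16 := CM g16
                        obtain ⟨e17, l17⟩ := ZE h2 k239 k128 g16
                        have c17 : Core e0 e17 := CZ g16 k128 l17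
                        have k267 : e16 ≤ e0 := G1 g16
                        have k268 : e16 ≤ e15 := G2 g16
                        have k269 : e4 ≤ e16 := G3 g16 k21 k244
                        have k270 : e8 ≤ e16 := G3 g16 k71 k245
                        have k276 : e16 ≤ e17 := L1 l17
                        have k277 : e10 ≤ e17 := L2 l17
                        have k278 : e17 ≤ e15 := L3 l17 k268 k239
                        have k280 : e16 ≤ e6 := le_trans k267 k43
                        have k282 : e16 ≤ e14 := le_trans k267 k209
                        have k285 : e8 ≤ e17 := le_trans k270 k276
                        have k287 : ¬ e0 ≤ e17 := N2 k243 k278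
                        have k293 : ¬ e6 ≤ e17 := N1 k287 k43
                        have k305 : ¬ e5 ≤ e16 := N2 k35 k267
                        have k316 : e12 ≤ e17 := L3 l12 k285 k277
                        have k318 : e17 ≤ e6 := L3 l17 k280 k151
                        have k326 : e17 ≤ e12 := Classical.byContradiction fun hn => HL _ _ _ _ _ _ c4 c9 c12 c17 c6 c2 (LT k98 k108) (LT k183 k181) (LT k316 hn) (LT k318 k293) (LT k45 k54)
                        have k327 : e17 ≤ e3 := le_trans k326 k162
                        have k329 : e16 ≤ e3 := le_trans k276 k327
                        have k331 : e16 ≤ e12 := le_trans k276 k326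
                        have k332 : e16 ≤ e4 := G3 g4 k267 k329
                        have k334 : e16 ≤ e9 := le_trans k332 k98
                        obtain ⟨e18, l18⟩ := ZE h2 k237 k40 g16
                        have c18 : Core e0 e18 := CZ g16 k40 l18
                        have k337 : e16 ≤ e18 := L1 l18
                        have k338 : e5 ≤ e18 := L2 l18
                        have k343 : e18 ≤ e9 := L3 l18 k334 k93
                        have k345 : e18 ≤ e12 := L3 l18 k331 k167
                        have k349 : e4 ≤ e18 := le_trans k269 k337
                        have k365 : ¬ e18 ≤ e4 := N1 k32 k338
                        have k367 : ¬ e18 ≤ e16 := N1 k305 k338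
                        have k368 : ¬ e10 ≤ e18 := N2 k114 k343
                        have k369 : ¬ e12 ≤ e18 := N1 k368 k160
                        obtain ⟨e19, l19⟩ := ZE h2 k240 k206 g16
                        have c19 : Core e0 e19 := CZ g16 k206 l19
                        have k376 : e16 ≤ e19 := L1 l19
                        have k377 : e13 ≤ e19 := L2 l19
                        have k378 : e19 ≤ e3 := L3 l19 k329 k189
                        have k380 : e19 ≤ e14 := L3 l19 k282 k210
                        have k383 : e10 ≤ e19 := le_trans k186 k377
                        have k385 : e8 ≤ e19 := le_trans k270 k376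
                        have k386 : ¬ e0 ≤ e19 := N2 k15 k378
                        have k390 : ¬ e14 ≤ e19 := N1 k386 k209
                        have k403 : ¬ e19 ≤ e12 := N1 k188 k377
                        have k408 : e12 ≤ e19 := L3 l12 k385 k383
                        obtain ⟨e20, q20⟩ : ∃ y, f e19 = y := ⟨_, rfl⟩
                        have k414 : e13 ≤ e20 := MO hf q13 q20 k408
                        have k415 : ¬ e19 ≤ e20 := FA hF q20
                        have k416 : ¬ e20 ≤ e19 := FB hG q20
                        have k417 : e20 ≤ e15 := MO hf q20 q15 k380
                        have k418 : ¬ e16 ≤ e20 := L5 l19 k414 k415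
                        have k437 : ¬ e4 ≤ e20 := N1 k418 k332
                        by_cases k446 : ∃ z, IsGLB ({e0, e20} : Set P) z
                        · obtain ⟨e21, g21⟩ := k446
                          have c21 : Core e0 e21 := CM g21
                          have k449 : e21 ≤ e0 := G1 g21
                          have k450 : e21 ≤ e20 := G2 g21
                          have k459 : e21 ≤ e15 := le_trans k450 k417
                          have k469 : ¬ e4 ≤ e21 := N2 k437 k450
                          have k473 : ¬ e16 ≤ e21 := N1 k469 k269
                          have k481 : e21 ≤ e16 := G3 g16 k449 k459
                          exact HL _ _ _ _ _ _ c21 c16 c18 c12 c6 c2 (LT k481 k473) (LT k337 k367) (LT k345 k369) (LT k163 k170) (LT k45 k54)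
                        · obtain ⟨e21, l21⟩ := (h1 e20).resolve_right k446
                          have c21 : Core e0 e21 := CJ k446 l21
                          have k449 : e0 ≤ e21 := L1 l21
                          have k450 : e20 ≤ e21 := L2 l21
                          have k457 : e13 ≤ e21 := le_trans k414 k450
                          have k481 : e14 ≤ e21 := L3 l14 k449 k457
                          have k485 : e21 ≤ e14 := Classical.byContradiction fun hn => HL _ _ _ _ _ _ c4 c9 c12 c19 c14 c21 (LT k98 k108) (LT k183 k181) (LT k408 k403) (LT k380 k390) (LT k481 hn)
                          have k486 : e20 ≤ e14 := le_trans k450 k485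
                          obtain ⟨e22, l22⟩ := ZE h2 k417 k446 g16
                          have c22 : Core e0 e22 := CZ g16 k446 l22
                          have k490 : e16 ≤ e22 := L1 l22
                          have k491 : e20 ≤ e22 := L2 l22
                          have k492 : e22 ≤ e14 := L3 l22 k282 k486
                          have k493 : e22 ≤ e15 := L3 l22 k268 k417
                          have k499 : e13 ≤ e22 := le_trans k414 k491
                          have k500 : ¬ e0 ≤ e22 := N2 k243 k493
                          have k504 : ¬ e14 ≤ e22 := N1 k500 k209
                          have k522 : ¬ e22 ≤ e19 := N1 k416 k491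
                          have k528 : e19 ≤ e22 := L3 l19 k490 k499
                          exact HL _ _ _ _ _ _ c4 c18 c12 c19 c22 c14 (LT k349 k365) (LT k345 k369) (LT k408 k403) (LT k528 k522) (LT k492 k504)
                      · obtain ⟨e16, l16⟩ := (h1 e15).resolve_right k262
                        have c16 : Core e0 e16 := CJ k262 l16
                        have k265 : e0 ≤ e16 := L1 l16
                        have k266 : e15 ≤ e16 := L2 l16
                        have k276 : e13 ≤ e16 := le_trans k240 k266
                        have k291 : ¬ e16 ≤ e14 := N1 k242 k266
                        have k295 : e14 ≤ e16 := L3 l14 k265 k276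
                        exact HL _ _ _ _ _ _ c4 c9 c12 c6 c14 c16 (LT k98 k108) (LT k183 k181) (LT k163 k170) (LT k227 k231) (LT k295 k291)
                · have k149 : ¬ e10 ≤ e6 := L4 l11 k43 k148
                  obtain ⟨e12, q12⟩ : ∃ y, f e11 = y := ⟨_, rfl⟩
                  have k151 : e1 ≤ e12 := MO hf q1 q12 k131
                  have k152 : e5 ≤ e12 := MO hf q5 q12 k134
                  have k153 : e7 ≤ e12 := MO hf q7 q12 k146
                  have k154 : e10 ≤ e12 := MO hf q10 q12 k147
                  have k155 : ¬ e11 ≤ e12 := FA hF q12
                  have k156 : ¬ e12 ≤ e11 := FB hG q12
                  have k157 : ¬ e0 ≤ e12 := L5 l11 k154 k155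
                  have k158 : e4 ≤ e12 := le_trans k89 k153
                  have k159 : e8 ≤ e12 := le_trans k72 k153
                  by_cases k171 : ∃ z, IsGLB ({e0, e12} : Set P) z
                  · obtain ⟨e13, g13⟩ := k171
                    have c13 : Core e0 e13 := CM g13
                    obtain ⟨e14, l14⟩ := ZE h2 k152 k40 g13
                    have c14 : Core e0 e14 := CZ g13 k40 l14
                    have k176 : e13 ≤ e0 := G1 g13
                    have k177 : e13 ≤ e12 := G2 g13
                    have k178 : e4 ≤ e13 := G3 g13 k21 k158
                    have k179 : e8 ≤ e13 := G3 g13 k71 k159
                    have k184 : e13 ≤ e14 := L1 l14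
                    have k185 : e5 ≤ e14 := L2 l14
                    have k186 : e14 ≤ e12 := L3 l14 k177 k152
                    have k187 : e13 ≤ e2 := le_trans k176 k6
                    have k188 : e13 ≤ e6 := le_trans k176 k43
                    have k189 : e13 ≤ e11 := le_trans k176 k131
                    have k190 : e4 ≤ e14 := le_trans k178 k184
                    have k191 : e8 ≤ e14 := le_trans k179 k184
                    have k192 : ¬ e0 ≤ e13 := N2 k157 k177
                    have k193 : ¬ e0 ≤ e14 := N2 k157 k186
                    have k198 : ¬ e6 ≤ e14 := N1 k193 k43
                    have k208 : ¬ e5 ≤ e13 := N2 k35 k176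
                    have k211 : ¬ e9 ≤ e13 := N1 k208 k93
                    have k215 : e9 ≤ e14 := L3 l9 k191 k185
                    have k216 : e14 ≤ e2 := L3 l14 k187 k36
                    have k217 : e14 ≤ e6 := L3 l14 k188 k44
                    have k218 : e14 ≤ e11 := L3 l14 k189 k136
                    have k223 : ¬ e10 ≤ e14 := N2 k149 k217
                    by_cases k224 : e14 ≤ e9
                    · have k225 : e14 ≤ e3 := le_trans k224 k95
                      have k226 : e14 ≤ e7 := le_trans k224 k97
                      have k227 : e13 ≤ e3 := le_trans k184 k225
                      have k228 : e13 ≤ e7 := le_trans k184 k226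
                      have k229 : e13 ≤ e9 := le_trans k184 k224
                      have k230 : e13 ≤ e4 := G3 g4 k176 k227
                      obtain ⟨e15, l15⟩ := ZE h2 k154 k128 g13
                      have c15 : Core e0 e15 := CZ g13 k128 l15
                      have k234 : e13 ≤ e15 := L1 l15
                      have k235 : e10 ≤ e15 := L2 l15
                      have k236 : e15 ≤ e3 := L3 l15 k227 k115
                      have k238 : e15 ≤ e11 := L3 l15 k189 k132
                      have k240 : e5 ≤ e15 := le_trans k112 k235
                      have k241 : e4 ≤ e15 := le_trans k178 k234
                      have k242 : e8 ≤ e15 := le_trans k179 k234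
                      have k243 : ¬ e0 ≤ e15 := N2 k15 k236
                      have k246 : ¬ e11 ≤ e15 := N1 k243 k131
                      have k255 : ¬ e15 ≤ e9 := N1 k114 k235
                      have k259 : e9 ≤ e15 := L3 l9 k242 k240
                      obtain ⟨e16, q16⟩ : ∃ y, f e15 = y := ⟨_, rfl⟩
                      have k262 : e5 ≤ e16 := MO hf q5 q16 k241
                      have k263 : e10 ≤ e16 := MO hf q10 q16 k259
                      have k264 : ¬ e15 ≤ e16 := FA hF q16
                      have k265 : ¬ e16 ≤ e15 := FB hG q16
                      have k266 : e16 ≤ e12 := MO hf q16 q12 k238
                      have k267 : ¬ e13 ≤ e16 := L5 l15 k263 k264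
                      have k281 : ¬ e4 ≤ e16 := N1 k267 k230
                      by_cases k288 : ∃ z, IsGLB ({e0, e16} : Set P) z
                      · obtain ⟨e17, g17⟩ := k288
                        have c17 : Core e0 e17 := CM g17
                        have k291 : e17 ≤ e0 := G1 g17
                        have k292 : e17 ≤ e16 := G2 g17
                        have k293 : ¬ e17 ≤ e5 := BN3 g17 k40 k262
                        have k294 : ¬ e17 ≤ e10 := BN3 g17 k128 k263
                        have k298 : e17 ≤ e11 := le_trans k291 k131
                        have k299 : e17 ≤ e12 := le_trans k292 k266
                        have k308 : ¬ e4 ≤ e17 := N2 k281 k292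
                        have k317 : e17 ≤ e13 := G3 g13 k291 k299
                        have k319 : e17 ≤ e4 := le_trans k317 k230
                        have k322 : e17 ≤ e9 := le_trans k317 k229
                        have k324 : e17 ≤ e15 := le_trans k317 k234
                        obtain ⟨e18, q18⟩ : ∃ y, f e17 = y := ⟨_, rfl⟩
                        have k327 : ¬ e18 ≤ e17 := FB hG q18
                        have k330 : e18 ≤ e5 := MO hf q18 q5 k319
                        have k333 : e18 ≤ e12 := MO hf q18 q12 k298
                        have k334 : e18 ≤ e16 := MO hf q18 q16 k324
                        have k335 : ¬ e18 ≤ e0 := G5 g17 k334 k327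
                        have k338 : e18 ≤ e9 := le_trans k330 k93
                        have k339 : e18 ≤ e11 := le_trans k330 k136
                        have k341 : e18 ≤ e15 := le_trans k330 k240
                        have k358 : ¬ e18 ≤ e4 := N2 k335 k21
                        by_cases k361 : ∃ z, IsGLB ({e0, e18} : Set P) z
                        · obtain ⟨e19, g19⟩ := k361
                          have c19 : Core e0 e19 := CM g19
                          have k364 : e19 ≤ e0 := G1 g19
                          have k365 : e19 ≤ e18 := G2 g19
                          have k372 : e19 ≤ e5 := le_trans k365 k330
                          have k379 : e19 ≤ e16 := le_trans k365 k334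
                          have k397 : ¬ e17 ≤ e19 := N2 k293 k372
                          have k402 : e19 ≤ e17 := G3 g17 k364 k379
                          exact HL _ _ _ _ _ _ c19 c17 c4 c0 c6 c2 (LT k402 k397) (LT k319 k308) (LT k21 k26) (LT k43 k53) (LT k45 k54)
                        · obtain ⟨e19, l19⟩ := ZE h2 k333 k361 g13
                          have c19 : Core e0 e19 := CZ g13 k361 l19
                          have k364 : e13 ≤ e19 := L1 l19
                          have k365 : e18 ≤ e19 := L2 l19
                          have k370 : e19 ≤ e9 := L3 l19 k229 k338
                          have k375 : e4 ≤ e19 := le_trans k178 k364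
                          have k396 : ¬ e19 ≤ e4 := N1 k358 k365
                          have k400 : e9 ≤ e19 := Classical.byContradiction fun hn => HL _ _ _ _ _ _ c17 c4 c19 c9 c6 c2 (LT k319 k308) (LT k375 k396) (LT k370 hn) (LT k96 k101) (LT k45 k54)
                          obtain ⟨e20, l20⟩ := ZE h2 k334 k361 g17
                          have c20 : Core e0 e20 := CZ g17 k361 l20
                          have k405 : e17 ≤ e20 := L1 l20
                          have k406 : e18 ≤ e20 := L2 l20
                          have k411 : e20 ≤ e9 := L3 l20 k322 k338
                          have k412 : e20 ≤ e11 := L3 l20 k298 k339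
                          have k415 : e20 ≤ e15 := L3 l20 k324 k341
                          have k416 : e20 ≤ e16 := L3 l20 k292 k334
                          have k426 : ¬ e4 ≤ e20 := N2 k281 k416
                          have k428 : ¬ e9 ≤ e20 := N1 k426 k98
                          have k442 : ¬ e20 ≤ e17 := N1 k327 k406
                          obtain ⟨e21, q21⟩ : ∃ y, f e20 = y := ⟨_, rfl⟩
                          have k445 : e18 ≤ e21 := MO hf q18 q21 k405
                          have k447 : ¬ e21 ≤ e20 := FB hG q21
                          have k450 : e21 ≤ e10 := MO hf q21 q10 k411
                          have k451 : e21 ≤ e12 := MO hf q21 q12 k412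
                          have k452 : e21 ≤ e16 := MO hf q21 q16 k415
                          have k454 : e21 ≤ e11 := le_trans k450 k132
                          have k455 : e21 ≤ e15 := le_trans k450 k235
                          by_cases k477 : ∃ z, IsGLB ({e0, e21} : Set P) z
                          · obtain ⟨e22, g22⟩ := k477
                            have c22 : Core e0 e22 := CM g22
                            have k480 : e22 ≤ e0 := G1 g22
                            have k481 : e22 ≤ e21 := G2 g22
                            have k489 : e22 ≤ e10 := le_trans k481 k450
                            have k492 : e22 ≤ e16 := le_trans k481 k452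
                            have k511 : ¬ e17 ≤ e22 := N2 k294 k489
                            have k518 : e22 ≤ e17 := G3 g17 k480 k492
                            exact HL _ _ _ _ _ _ c22 c17 c4 c0 c6 c2 (LT k518 k511) (LT k319 k308) (LT k21 k26) (LT k43 k53) (LT k45 k54)
                          · obtain ⟨e22, l22⟩ := ZE h2 k451 k477 g13
                            have c22 : Core e0 e22 := CZ g13 k477 l22
                            have k480 : e13 ≤ e22 := L1 l22
                            have k481 : e21 ≤ e22 := L2 l22
                            have k486 : e22 ≤ e15 := L3 l22 k234 k455
                            have k490 : e18 ≤ e22 := le_trans k445 k481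
                            have k510 : e19 ≤ e22 := L3 l19 k480 k490
                            have k513 : e9 ≤ e22 := le_trans k400 k510
                            by_cases k515 : e22 ≤ e9
                            · have k522 : e21 ≤ e9 := le_trans k481 k515
                              obtain ⟨e23, l23⟩ := ZE h2 k452 k477 g17
                              have c23 : Core e0 e23 := CZ g17 k477 l23
                              have k534 : e17 ≤ e23 := L1 l23
                              have k535 : e21 ≤ e23 := L2 l23
                              have k540 : e23 ≤ e9 := L3 l23 k322 k522
                              have k545 : e23 ≤ e16 := L3 l23 k292 k452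
                              have k548 : e18 ≤ e23 := le_trans k445 k535
                              have k557 : ¬ e4 ≤ e23 := N2 k281 k545
                              have k559 : ¬ e9 ≤ e23 := N1 k557 k98
                              have k576 : ¬ e23 ≤ e20 := N1 k447 k535
                              have k578 : e20 ≤ e23 := L3 l20 k534 k548
                              exact HL _ _ _ _ _ _ c17 c20 c23 c9 c6 c2 (LT k405 k442) (LT k578 k576) (LT k540 k559) (LT k96 k101) (LT k45 k54)
                            · have k522 : e15 ≤ e22 := Classical.byContradiction fun hn => HL _ _ _ _ _ _ c17 c20 c9 c22 c15 c11 (LT k405 k442) (LT k411 k428) (LT k513 k515) (LT k486 hn) (LT k238 k246)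
                              have k523 : e10 ≤ e22 := le_trans k235 k522
                              obtain ⟨e23, l23⟩ := ZE h2 k452 k477 g17
                              have c23 : Core e0 e23 := CZ g17 k477 l23
                              have k528 : e17 ≤ e23 := L1 l23
                              have k529 : e21 ≤ e23 := L2 l23
                              have k532 : e23 ≤ e11 := L3 l23 k298 k454
                              have k534 : e23 ≤ e15 := L3 l23 k324 k455
                              have k535 : e23 ≤ e16 := L3 l23 k292 k452
                              have k537 : e18 ≤ e23 := le_trans k445 k529
                              have k543 : ¬ e4 ≤ e23 := N2 k281 k535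
                              have k550 : ¬ e15 ≤ e23 := N1 k543 k241
                              have k567 : ¬ e23 ≤ e20 := N1 k447 k529
                              have k569 : e20 ≤ e23 := L3 l20 k528 k537
                              obtain ⟨e24, q24⟩ : ∃ y, f e23 = y := ⟨_, rfl⟩
                              have k572 : e21 ≤ e24 := MO hf q21 q24 k569
                              have k573 : ¬ e23 ≤ e24 := FA hF q24
                              have k574 : ¬ e24 ≤ e23 := FB hG q24
                              have k575 : e24 ≤ e12 := MO hf q24 q12 k532
                              have k576 : e24 ≤ e16 := MO hf q24 q16 k534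
                              have k577 : ¬ e17 ≤ e24 := L5 l23 k572 k573
                              by_cases k608 : ∃ z, IsGLB ({e0, e24} : Set P) z
                              · obtain ⟨e25, g25⟩ := k608
                                have c25 : Core e0 e25 := CM g25
                                have k611 : e25 ≤ e0 := G1 g25
                                have k612 : e25 ≤ e24 := G2 g25
                                have k620 : e25 ≤ e16 := le_trans k612 k576
                                have k640 : ¬ e17 ≤ e25 := N2 k577 k612
                                have k647 : e25 ≤ e17 := G3 g17 k611 k620
                                exact HL _ _ _ _ _ _ c25 c17 c4 c0 c6 c2 (LT k647 k640) (LT k319 k308) (LT k21 k26) (LT k43 k53) (LT k45 k54)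
                              · obtain ⟨e25, l25⟩ := (h1 e24).resolve_right k608
                                have c25 : Core e0 e25 := CJ k608 l25
                                have k611 : e0 ≤ e25 := L1 l25
                                have k612 : e24 ≤ e25 := L2 l25
                                have k616 : e13 ≤ e25 := le_trans k176 k611
                                have k619 : e21 ≤ e25 := le_trans k572 k612
                                have k645 : e22 ≤ e25 := L3 l22 k616 k619
                                have k650 : e10 ≤ e25 := le_trans k523 k645
                                have k653 : e11 ≤ e25 := L3 l11 k611 k650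
                                have k654 : e25 ≤ e11 := Classical.byContradiction fun hn => HL _ _ _ _ _ _ c17 c20 c23 c15 c11 c25 (LT k405 k442) (LT k569 k567) (LT k534 k550) (LT k238 k246) (LT k653 hn)
                                have k655 : e24 ≤ e11 := le_trans k612 k654
                                obtain ⟨e26, l26⟩ := ZE h2 k575 k608 g13
                                have c26 : Core e0 e26 := CZ g13 k608 l26
                                have k659 : e13 ≤ e26 := L1 l26
                                have k660 : e24 ≤ e26 := L2 l26
                                have k661 : e26 ≤ e11 := L3 l26 k189 k655
                                have k662 : e26 ≤ e12 := L3 l26 k177 k575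
                                have k668 : e21 ≤ e26 := le_trans k572 k660
                                have k669 : ¬ e0 ≤ e26 := N2 k157 k662
                                have k672 : ¬ e11 ≤ e26 := N1 k669 k131
                                have k696 : e22 ≤ e26 := L3 l22 k659 k668
                                have k702 : e15 ≤ e26 := le_trans k522 k696
                                have k703 : e26 ≤ e15 := Classical.byContradiction fun hn => HL _ _ _ _ _ _ c17 c20 c23 c15 c26 c11 (LT k405 k442) (LT k569 k567) (LT k534 k550) (LT k702 hn) (LT k661 k672)
                                have k709 : e24 ≤ e15 := le_trans k660 k703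
                                obtain ⟨e27, l27⟩ := ZE h2 k576 k608 g17
                                have c27 : Core e0 e27 := CZ g17 k608 l27
                                have k714 : e17 ≤ e27 := L1 l27
                                have k715 : e24 ≤ e27 := L2 l27
                                have k720 : e27 ≤ e15 := L3 l27 k324 k709
                                have k721 : e27 ≤ e16 := L3 l27 k292 k576
                                have k726 : e21 ≤ e27 := le_trans k572 k715
                                have k733 : ¬ e4 ≤ e27 := N2 k281 k721
                                have k740 : ¬ e15 ≤ e27 := N1 k733 k241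
                                have k760 : ¬ e27 ≤ e23 := N1 k574 k715
                                have k763 : e23 ≤ e27 := L3 l23 k714 k726
                                exact HL _ _ _ _ _ _ c17 c20 c23 c27 c15 c11 (LT k405 k442) (LT k569 k567) (LT k763 k760) (LT k720 k740) (LT k238 k246)
                      · obtain ⟨e17, l17⟩ := (h1 e16).resolve_right k288
                        have c17 : Core e0 e17 := CJ k288 l17
                        have k291 : e0 ≤ e17 := L1 l17
                        have k292 : e16 ≤ e17 := L2 l17
                        have k294 : e4 ≤ e17 := le_trans k21 k291
                        have k295 : e8 ≤ e17 := le_trans k71 k291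
                        have k296 : e13 ≤ e17 := le_trans k176 k291
                        have k297 : e5 ≤ e17 := le_trans k262 k292
                        have k298 : e10 ≤ e17 := le_trans k263 k292
                        have k314 : e6 ≤ e17 := L3 l6 k291 k297
                        have k315 : e9 ≤ e17 := L3 l9 k295 k297
                        have k316 : e11 ≤ e17 := L3 l11 k291 k298
                        have k318 : e15 ≤ e17 := L3 l15 k296 k298
                        by_cases k319 : e17 ≤ e11
                        · have k320 : e16 ≤ e11 := le_trans k292 k319
                          obtain ⟨e18, l18⟩ := ZE h2 k266 k288 g13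
                          have c18 : Core e0 e18 := CZ g13 k288 l18
                          have k324 : e13 ≤ e18 := L1 l18
                          have k325 : e16 ≤ e18 := L2 l18
                          have k326 : e18 ≤ e11 := L3 l18 k189 k320
                          have k327 : e18 ≤ e12 := L3 l18 k177 k266
                          have k330 : e8 ≤ e18 := le_trans k179 k324
                          have k331 : e5 ≤ e18 := le_trans k262 k325
                          have k332 : e10 ≤ e18 := le_trans k263 k325
                          have k333 : ¬ e0 ≤ e18 := N2 k157 k327
                          have k336 : ¬ e11 ≤ e18 := N1 k333 k131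
                          have k350 : ¬ e18 ≤ e15 := N1 k265 k325
                          have k352 : e9 ≤ e18 := L3 l9 k330 k331
                          have k354 : e15 ≤ e18 := L3 l15 k324 k332
                          obtain ⟨e19, q19⟩ : ∃ y, f e18 = y := ⟨_, rfl⟩
                          have k357 : e10 ≤ e19 := MO hf q10 q19 k352
                          have k358 : e16 ≤ e19 := MO hf q16 q19 k354
                          have k359 : ¬ e18 ≤ e19 := FA hF q19
                          have k360 : ¬ e19 ≤ e18 := FB hG q19
                          have k361 : e19 ≤ e12 := MO hf q19 q12 k326
                          have k362 : ¬ e13 ≤ e19 := L5 l18 k358 k359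
                          have k377 : ¬ e4 ≤ e19 := N1 k362 k230
                          by_cases k387 : ∃ z, IsGLB ({e0, e19} : Set P) z
                          · obtain ⟨e20, g20⟩ := k387
                            have c20 : Core e0 e20 := CM g20
                            have k390 : e20 ≤ e0 := G1 g20
                            have k391 : e20 ≤ e19 := G2 g20
                            have k400 : e20 ≤ e12 := le_trans k391 k361
                            have k410 : ¬ e4 ≤ e20 := N2 k377 k391
                            have k413 : ¬ e13 ≤ e20 := N1 k410 k178
                            have k421 : e20 ≤ e13 := G3 g13 k390 k400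
                            exact HL _ _ _ _ _ _ c20 c13 c9 c15 c18 c11 (LT k421 k413) (LT k229 k211) (LT k259 k255) (LT k354 k350) (LT k326 k336)
                          · obtain ⟨e20, l20⟩ := (h1 e19).resolve_right k387
                            have c20 : Core e0 e20 := CJ k387 l20
                            have k390 : e0 ≤ e20 := L1 l20
                            have k391 : e19 ≤ e20 := L2 l20
                            have k397 : e10 ≤ e20 := le_trans k357 k391
                            have k418 : e11 ≤ e20 := L3 l11 k390 k397
                            have k423 : e20 ≤ e11 := Classical.byContradiction fun hn => HL _ _ _ _ _ _ c4 c9 c15 c18 c11 c20 (LT k98 k108) (LT k259 k255) (LT k354 k350) (LT k326 k336) (LT k418 hn)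
                            have k425 : e19 ≤ e11 := le_trans k391 k423
                            obtain ⟨e21, l21⟩ := ZE h2 k361 k387 g13
                            have c21 : Core e0 e21 := CZ g13 k387 l21
                            have k430 : e13 ≤ e21 := L1 l21
                            have k431 : e19 ≤ e21 := L2 l21
                            have k432 : e21 ≤ e11 := L3 l21 k189 k425
                            have k433 : e21 ≤ e12 := L3 l21 k177 k361
                            have k440 : e16 ≤ e21 := le_trans k358 k431
                            have k441 : ¬ e0 ≤ e21 := N2 k157 k433
                            have k444 : ¬ e11 ≤ e21 := N1 k441 k131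
                            have k461 : ¬ e21 ≤ e18 := N1 k360 k431
                            have k466 : e18 ≤ e21 := L3 l18 k430 k440
                            exact HL _ _ _ _ _ _ c4 c9 c15 c18 c21 c11 (LT k98 k108) (LT k259 k255) (LT k354 k350) (LT k466 k461) (LT k432 k444)
                        · obtain ⟨e18, q18⟩ : ∃ y, f e17 = y := ⟨_, rfl⟩
                          have k323 : e5 ≤ e18 := MO hf q5 q18 k294
                          have k324 : e7 ≤ e18 := MO hf q7 q18 k314
                          have k325 : e10 ≤ e18 := MO hf q10 q18 k315
                          have k327 : e16 ≤ e18 := MO hf q16 q18 k318
                          have k328 : ¬ e17 ≤ e18 := FA hF q18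
                          have k329 : ¬ e18 ≤ e17 := FB hG q18
                          have k330 : ¬ e0 ≤ e18 := L5 l17 k327 k328
                          have k331 : e4 ≤ e18 := le_trans k89 k324
                          have k334 : e13 ≤ e18 := le_trans k228 k324
                          by_cases k353 : ∃ z, IsGLB ({e0, e18} : Set P) z
                          · obtain ⟨e19, g19⟩ := k353
                            have c19 : Core e0 e19 := CM g19
                            obtain ⟨e20, l20⟩ := ZE h2 k325 k128 g19
                            have c20 : Core e0 e20 := CZ g19 k128 l20
                            have k358 : e19 ≤ e0 := G1 g19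
                            have k359 : e19 ≤ e18 := G2 g19
                            have k360 : e4 ≤ e19 := G3 g19 k21 k331
                            have k362 : e13 ≤ e19 := G3 g19 k176 k334
                            have k372 : e19 ≤ e6 := le_trans k358 k43
                            have k374 : e19 ≤ e17 := le_trans k358 k291
                            have k379 : ¬ e0 ≤ e19 := N2 k330 k359
                            have k421 : e19 ≤ e4 := Classical.byContradiction fun hn => HL _ _ _ _ _ _ c4 c19 c0 c6 c11 c17 (LT k360 hn) (LT k358 k379) (LT k43 k53) (LT k146 k148) (LT k316 k319)
                            have k426 : e19 ≤ e12 := le_trans k421 k158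
                            have k429 : e19 ≤ e15 := le_trans k421 k241
                            obtain ⟨e21, l21⟩ := ZE h2 k323 k40 g19
                            have c21 : Core e0 e21 := CZ g19 k40 l21
                            have k436 : e19 ≤ e21 := L1 l21
                            have k437 : e5 ≤ e21 := L2 l21
                            have k440 : e21 ≤ e6 := L3 l21 k372 k44
                            have k446 : e21 ≤ e15 := L3 l21 k429 k240
                            have k450 : e4 ≤ e21 := le_trans k360 k436
                            have k468 : ¬ e21 ≤ e4 := N1 k32 k437
                            have k472 : ¬ e10 ≤ e21 := N2 k149 k440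
                            have k473 : ¬ e15 ≤ e21 := N1 k472 k235
                            obtain ⟨e22, l22⟩ := ZE h2 k327 k288 g19
                            have c22 : Core e0 e22 := CZ g19 k288 l22
                            have k481 : e19 ≤ e22 := L1 l22
                            have k482 : e16 ≤ e22 := L2 l22
                            have k483 : e22 ≤ e12 := L3 l22 k426 k266
                            have k484 : e22 ≤ e17 := L3 l22 k374 k292
                            have k487 : e10 ≤ e22 := le_trans k263 k482
                            have k490 : e13 ≤ e22 := le_trans k362 k481
                            have k491 : ¬ e0 ≤ e22 := N2 k157 k483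
                            have k495 : ¬ e17 ≤ e22 := N1 k491 k291
                            have k510 : ¬ e22 ≤ e15 := N1 k265 k482
                            have k516 : e15 ≤ e22 := L3 l15 k490 k487
                            obtain ⟨e23, q23⟩ : ∃ y, f e22 = y := ⟨_, rfl⟩
                            have k522 : e16 ≤ e23 := MO hf q16 q23 k516
                            have k523 : ¬ e22 ≤ e23 := FA hF q23
                            have k524 : ¬ e23 ≤ e22 := FB hG q23
                            have k525 : e23 ≤ e18 := MO hf q23 q18 k484
                            have k526 : ¬ e19 ≤ e23 := L5 l22 k522 k523
                            have k547 : ¬ e4 ≤ e23 := N1 k526 k421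
                            by_cases k559 : ∃ z, IsGLB ({e0, e23} : Set P) z
                            · obtain ⟨e24, g24⟩ := k559
                              have c24 : Core e0 e24 := CM g24
                              have k562 : e24 ≤ e0 := G1 g24
                              have k563 : e24 ≤ e23 := G2 g24
                              have k572 : e24 ≤ e18 := le_trans k563 k525
                              have k583 : ¬ e4 ≤ e24 := N2 k547 k563
                              have k589 : ¬ e19 ≤ e24 := N1 k583 k360
                              have k597 : e24 ≤ e19 := G3 g19 k562 k572
                              exact HL _ _ _ _ _ _ c24 c19 c0 c6 c11 c17 (LT k597 k589) (LT k358 k379) (LT k43 k53) (LT k146 k148) (LT k316 k319)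
                            · obtain ⟨e24, l24⟩ := (h1 e23).resolve_right k559
                              have c24 : Core e0 e24 := CJ k559 l24
                              have k562 : e0 ≤ e24 := L1 l24
                              have k563 : e23 ≤ e24 := L2 l24
                              have k571 : e16 ≤ e24 := le_trans k522 k563
                              have k599 : e17 ≤ e24 := L3 l17 k562 k571
                              have k603 : e24 ≤ e17 := Classical.byContradiction fun hn => HL _ _ _ _ _ _ c4 c9 c15 c22 c17 c24 (LT k98 k108) (LT k259 k255) (LT k516 k510) (LT k484 k495) (LT k599 hn)
                              have k604 : e23 ≤ e17 := le_trans k563 k603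
                              obtain ⟨e25, l25⟩ := ZE h2 k525 k559 g19
                              have c25 : Core e0 e25 := CZ g19 k559 l25
                              have k608 : e19 ≤ e25 := L1 l25
                              have k609 : e23 ≤ e25 := L2 l25
                              have k610 : e25 ≤ e17 := L3 l25 k374 k604
                              have k611 : e25 ≤ e18 := L3 l25 k359 k525
                              have k618 : e16 ≤ e25 := le_trans k522 k609
                              have k619 : ¬ e0 ≤ e25 := N2 k330 k611
                              have k623 : ¬ e17 ≤ e25 := N1 k619 k291
                              have k643 : ¬ e25 ≤ e22 := N1 k524 k609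
                              have k650 : e22 ≤ e25 := L3 l22 k608 k618
                              exact HL _ _ _ _ _ _ c4 c21 c15 c22 c25 c17 (LT k450 k468) (LT k446 k473) (LT k516 k510) (LT k650 k643) (LT k610 k623)
                          · obtain ⟨e19, l19⟩ := (h1 e18).resolve_right k353
                            have c19 : Core e0 e19 := CJ k353 l19
                            have k356 : e0 ≤ e19 := L1 l19
                            have k357 : e18 ≤ e19 := L2 l19
                            have k370 : e16 ≤ e19 := le_trans k327 k357
                            have k388 : ¬ e19 ≤ e17 := N1 k329 k357
                            have k392 : e17 ≤ e19 := L3 l17 k356 k370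
                            exact HL _ _ _ _ _ _ c4 c0 c6 c11 c17 c19 (LT k21 k26) (LT k43 k53) (LT k146 k148) (LT k316 k319) (LT k392 k388)
                    · have k225 : ¬ e13 ≤ e9 := L5 l14 k93 k224
                      have k226 : ¬ e13 ≤ e4 := N2 k225 k98
                      have k228 : ¬ e13 ≤ e3 := G4 g4 k176 k226
                      have k230 : ¬ e12 ≤ e3 := N1 k228 k177
                      have k234 : ¬ e11 ≤ e2 := NM hf q12 q3 k230
                      have k235 : ¬ e10 ≤ e2 := L4 l11 k6 k234
                      obtain ⟨e15, q15⟩ : ∃ y, f e14 = y := ⟨_, rfl⟩
                      have k240 : e5 ≤ e15 := MO hf q5 q15 k190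
                      have k241 : e10 ≤ e15 := MO hf q10 q15 k215
                      have k244 : e15 ≤ e3 := MO hf q15 q3 k216
                      have k246 : e15 ≤ e12 := MO hf q15 q12 k218
                      by_cases k262 : ∃ z, IsGLB ({e0, e15} : Set P) z
                      · obtain ⟨e16, g16⟩ := k262
                        have c16 : Core e0 e16 := CM g16
                        have k265 : e16 ≤ e0 := G1 g16
                        have k266 : e16 ≤ e15 := G2 g16
                        have k273 : e16 ≤ e3 := le_trans k266 k244
                        have k291 : e16 ≤ e4 := G3 g4 k265 k273
                        have k296 : e4 ≤ e16 := Classical.byContradiction fun hn => HL _ _ _ _ _ _ c16 c4 c9 c14 c6 c2 (LT k291 hn) (LT k98 k108) (LT k215 k224) (LT k217 k198) (LT k45 k54)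
                        have k297 : e8 ≤ e16 := le_trans k87 k296
                        have k298 : e4 ≤ e15 := le_trans k296 k266
                        have k299 : e8 ≤ e15 := le_trans k297 k266
                        obtain ⟨e17, l17⟩ := ZE h2 k154 k128 g13
                        have c17 : Core e0 e17 := CZ g13 k128 l17
                        have k304 : e13 ≤ e17 := L1 l17
                        have k305 : e10 ≤ e17 := L2 l17
                        have k306 : e17 ≤ e11 := L3 l17 k189 k132
                        have k307 : e17 ≤ e12 := L3 l17 k177 k154
                        have k308 : e5 ≤ e17 := le_trans k112 k305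
                        have k309 : e4 ≤ e17 := le_trans k178 k304
                        have k310 : e8 ≤ e17 := le_trans k179 k304
                        have k312 : ¬ e0 ≤ e17 := N2 k157 k307
                        have k315 : ¬ e11 ≤ e17 := N1 k312 k131
                        have k327 : ¬ e17 ≤ e14 := N1 k223 k305
                        have k333 : e9 ≤ e17 := L3 l9 k310 k308
                        have k334 : e14 ≤ e17 := L3 l14 k304 k308
                        obtain ⟨e18, q18⟩ : ∃ y, f e17 = y := ⟨_, rfl⟩
                        have k336 : e5 ≤ e18 := MO hf q5 q18 k309
                        have k337 : e10 ≤ e18 := MO hf q10 q18 k333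
                        have k338 : e15 ≤ e18 := MO hf q15 q18 k334
                        have k339 : ¬ e17 ≤ e18 := FA hF q18
                        have k340 : ¬ e18 ≤ e17 := FB hG q18
                        have k341 : e18 ≤ e12 := MO hf q18 q12 k306
                        have k342 : ¬ e13 ≤ e18 := L5 l17 k337 k339
                        have k343 : e4 ≤ e18 := le_trans k298 k338
                        have k344 : e8 ≤ e18 := le_trans k299 k338
                        by_cases k365 : ∃ z, IsGLB ({e0, e18} : Set P) z
                        · obtain ⟨e19, g19⟩ := k365
                          have c19 : Core e0 e19 := CM g19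
                          obtain ⟨e20, l20⟩ := ZE h2 k336 k40 g19
                          have c20 : Core e0 e20 := CZ g19 k40 l20
                          have k370 : e19 ≤ e0 := G1 g19
                          have k371 : e19 ≤ e18 := G2 g19
                          have k372 : e4 ≤ e19 := G3 g19 k21 k343
                          have k373 : e8 ≤ e19 := G3 g19 k71 k344
                          have k383 : e19 ≤ e11 := le_trans k370 k131
                          have k384 : e19 ≤ e12 := le_trans k371 k341
                          have k419 : ¬ e13 ≤ e19 := N2 k342 k371
                          have k423 : e19 ≤ e13 := G3 g13 k370 k384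
                          have k430 : e19 ≤ e17 := le_trans k423 k304
                          have k439 : e19 ≤ e4 := Classical.byContradiction fun hn => HL _ _ _ _ _ _ c4 c19 c13 c0 c6 c2 (LT k372 hn) (LT k423 k419) (LT k176 k192) (LT k43 k53) (LT k45 k54)
                          obtain ⟨e21, l21⟩ := ZE h2 k337 k128 g19
                          have c21 : Core e0 e21 := CZ g19 k128 l21
                          have k452 : e19 ≤ e21 := L1 l21
                          have k453 : e10 ≤ e21 := L2 l21
                          have k456 : e21 ≤ e11 := L3 l21 k383 k132
                          have k459 : e21 ≤ e17 := L3 l21 k430 k305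
                          have k461 : e5 ≤ e21 := le_trans k112 k453
                          have k463 : e8 ≤ e21 := le_trans k373 k452
                          have k480 : ¬ e21 ≤ e9 := N1 k114 k453
                          have k489 : e9 ≤ e21 := L3 l9 k463 k461
                          obtain ⟨e22, q22⟩ : ∃ y, f e21 = y := ⟨_, rfl⟩
                          have k493 : e10 ≤ e22 := MO hf q10 q22 k489
                          have k494 : ¬ e21 ≤ e22 := FA hF q22
                          have k495 : ¬ e22 ≤ e21 := FB hG q22
                          have k496 : e22 ≤ e12 := MO hf q22 q12 k456
                          have k497 : e22 ≤ e18 := MO hf q22 q18 k459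
                          have k498 : ¬ e19 ≤ e22 := L5 l21 k493 k494
                          have k521 : ¬ e4 ≤ e22 := N1 k498 k439
                          by_cases k530 : ∃ z, IsGLB ({e0, e22} : Set P) z
                          · obtain ⟨e23, g23⟩ := k530
                            have c23 : Core e0 e23 := CM g23
                            have k533 : e23 ≤ e0 := G1 g23
                            have k534 : e23 ≤ e22 := G2 g23
                            have k542 : e23 ≤ e18 := le_trans k534 k497
                            have k551 : ¬ e4 ≤ e23 := N2 k521 k534
                            have k560 : ¬ e19 ≤ e23 := N1 k551 k372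
                            have k567 : e23 ≤ e19 := G3 g19 k533 k542
                            exact HL _ _ _ _ _ _ c23 c19 c13 c0 c6 c2 (LT k567 k560) (LT k423 k419) (LT k176 k192) (LT k43 k53) (LT k45 k54)
                          · obtain ⟨e23, l23⟩ := (h1 e22).resolve_right k530
                            have c23 : Core e0 e23 := CJ k530 l23
                            have k533 : e0 ≤ e23 := L1 l23
                            have k534 : e22 ≤ e23 := L2 l23
                            have k542 : e10 ≤ e23 := le_trans k493 k534
                            have k567 : e11 ≤ e23 := L3 l11 k533 k542
                            have k572 : e23 ≤ e11 := Classical.byContradiction fun hn => HL _ _ _ _ _ _ c4 c9 c14 c17 c11 c23 (LT k98 k108) (LT k215 k224) (LT k334 k327) (LT k306 k315) (LT k567 hn)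
                            have k573 : e22 ≤ e11 := le_trans k534 k572
                            obtain ⟨e24, l24⟩ := ZE h2 k496 k530 g13
                            have c24 : Core e0 e24 := CZ g13 k530 l24
                            have k577 : e13 ≤ e24 := L1 l24
                            have k578 : e22 ≤ e24 := L2 l24
                            have k579 : e24 ≤ e11 := L3 l24 k189 k573
                            have k580 : e24 ≤ e12 := L3 l24 k177 k496
                            have k587 : e10 ≤ e24 := le_trans k493 k578
                            have k588 : ¬ e0 ≤ e24 := N2 k157 k580
                            have k591 : ¬ e11 ≤ e24 := N1 k588 k131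
                            have k617 : e17 ≤ e24 := L3 l17 k577 k587
                            have k620 : e24 ≤ e17 := Classical.byContradiction fun hn => HL _ _ _ _ _ _ c4 c9 c14 c17 c24 c11 (LT k98 k108) (LT k215 k224) (LT k334 k327) (LT k617 hn) (LT k579 k591)
                            have k621 : e22 ≤ e17 := le_trans k578 k620
                            obtain ⟨e25, l25⟩ := ZE h2 k497 k530 g19
                            have c25 : Core e0 e25 := CZ g19 k530 l25
                            have k625 : e19 ≤ e25 := L1 l25
                            have k626 : e22 ≤ e25 := L2 l25
                            have k629 : e25 ≤ e17 := L3 l25 k430 k621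
                            have k630 : e25 ≤ e18 := L3 l25 k371 k497
                            have k637 : e10 ≤ e25 := le_trans k493 k626
                            have k659 : ¬ e13 ≤ e25 := N2 k342 k630
                            have k661 : ¬ e17 ≤ e25 := N1 k659 k304
                            have k664 : ¬ e25 ≤ e21 := N1 k495 k626
                            have k668 : e21 ≤ e25 := L3 l21 k625 k637
                            exact HL _ _ _ _ _ _ c4 c9 c21 c25 c17 c11 (LT k98 k108) (LT k489 k480) (LT k668 k664) (LT k629 k661) (LT k306 k315)
                        · obtain ⟨e19, l19⟩ := (h1 e18).resolve_right k365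
                          have c19 : Core e0 e19 := CJ k365 l19
                          have k368 : e0 ≤ e19 := L1 l19
                          have k369 : e18 ≤ e19 := L2 l19
                          have k377 : e10 ≤ e19 := le_trans k337 k369
                          have k398 : e11 ≤ e19 := L3 l11 k368 k377
                          have k401 : e19 ≤ e11 := Classical.byContradiction fun hn => HL _ _ _ _ _ _ c4 c9 c14 c17 c11 c19 (LT k98 k108) (LT k215 k224) (LT k334 k327) (LT k306 k315) (LT k398 hn)
                          have k403 : e18 ≤ e11 := le_trans k369 k401
                          obtain ⟨e20, l20⟩ := ZE h2 k341 k365 g13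
                          have c20 : Core e0 e20 := CZ g13 k365 l20
                          have k407 : e13 ≤ e20 := L1 l20
                          have k408 : e18 ≤ e20 := L2 l20
                          have k409 : e20 ≤ e11 := L3 l20 k189 k403
                          have k410 : e20 ≤ e12 := L3 l20 k177 k341
                          have k417 : e10 ≤ e20 := le_trans k337 k408
                          have k419 : ¬ e0 ≤ e20 := N2 k157 k410
                          have k422 : ¬ e11 ≤ e20 := N1 k419 k131
                          have k441 : ¬ e20 ≤ e17 := N1 k340 k408
                          have k444 : e17 ≤ e20 := L3 l17 k407 k417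
                          exact HL _ _ _ _ _ _ c4 c9 c14 c17 c20 c11 (LT k98 k108) (LT k215 k224) (LT k334 k327) (LT k444 k441) (LT k409 k422)
                      · have k263 : ¬ e4 ≤ e15 := BN3 g4 k262 k244
                        obtain ⟨e16, l16⟩ := (h1 e15).resolve_right k262
                        have c16 : Core e0 e16 := CJ k262 l16
                        have k270 : e0 ≤ e16 := L1 l16
                        have k271 : e15 ≤ e16 := L2 l16
                        have k277 : e10 ≤ e16 := le_trans k241 k271
                        have k295 : e11 ≤ e16 := L3 l11 k270 k277
                        have k297 : e16 ≤ e11 := Classical.byContradiction fun hn => HL _ _ _ _ _ _ c4 c9 c14 c6 c11 c16 (LT k98 k108) (LT k215 k224) (LT k217 k198) (LT k146 k148) (LT k295 hn)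
                        have k298 : e15 ≤ e11 := le_trans k271 k297
                        obtain ⟨e17, q17⟩ : ∃ y, f e13 = y := ⟨_, rfl⟩
                        have k301 : e5 ≤ e17 := MO hf q5 q17 k178
                        have k304 : e17 ≤ e1 := MO hf q17 q1 k176
                        have k305 : e17 ≤ e3 := MO hf q17 q3 k187
                        have k307 : e17 ≤ e12 := MO hf q17 q12 k189
                        have k308 : e17 ≤ e15 := MO hf q17 q15 k184
                        have k310 : e17 ≤ e2 := le_trans k304 k7
                        have k311 : e17 ≤ e11 := le_trans k308 k298
                        by_cases k329 : ∃ z, IsGLB ({e0, e17} : Set P) z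
                        · obtain ⟨e18, g18⟩ := k329
                          have c18 : Core e0 e18 := CM g18
                          have k332 : e18 ≤ e0 := G1 g18
                          have k333 : e18 ≤ e17 := G2 g18
                          have k340 : e18 ≤ e1 := le_trans k333 k304
                          have k341 : e18 ≤ e3 := le_trans k333 k305
                          have k354 : ¬ e4 ≤ e18 := N2 k23 k340
                          have k364 : e18 ≤ e4 := G3 g4 k332 k341
                          exact HL _ _ _ _ _ _ c18 c4 c13 c0 c6 c2 (LT k364 k354) (LT k178 k226) (LT k176 k192) (LT k43 k53) (LT k45 k54)
                        · obtain ⟨e18, l18⟩ := (h1 e17).resolve_right k329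
                          have c18 : Core e0 e18 := CJ k329 l18
                          have k332 : e0 ≤ e18 := L1 l18
                          have k333 : e17 ≤ e18 := L2 l18
                          have k334 : e18 ≤ e2 := L3 l18 k6 k310
                          have k335 : e18 ≤ e11 := L3 l18 k131 k311
                          have k340 : e13 ≤ e18 := le_trans k176 k332
                          have k341 : e5 ≤ e18 := le_trans k301 k333
                          have k352 : ¬ e18 ≤ e14 := N1 k193 k332
                          have k359 : ¬ e10 ≤ e18 := N2 k235 k334
                          have k360 : ¬ e11 ≤ e18 := N1 k359 k132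
                          have k363 : e6 ≤ e18 := L3 l6 k332 k341
                          have k365 : e14 ≤ e18 := L3 l14 k340 k341
                          have k366 : e18 ≤ e6 := Classical.byContradiction fun hn => HL _ _ _ _ _ _ c4 c9 c14 c6 c18 c11 (LT k98 k108) (LT k215 k224) (LT k217 k198) (LT k363 hn) (LT k335 k360)
                          have k367 : e17 ≤ e6 := le_trans k333 k366
                          have k369 : ¬ e1 ≤ e18 := N2 k55 k366
                          have k370 : ¬ e2 ≤ e18 := N1 k369 k7
                          obtain ⟨e19, l19⟩ := ZE h2 k307 k329 g13
                          have c19 : Core e0 e19 := CZ g13 k329 l19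
                          have k373 : e13 ≤ e19 := L1 l19
                          have k374 : e17 ≤ e19 := L2 l19
                          have k376 : e19 ≤ e6 := L3 l19 k188 k367
                          have k378 : e19 ≤ e12 := L3 l19 k177 k307
                          have k383 : e5 ≤ e19 := le_trans k301 k374
                          have k384 : ¬ e0 ≤ e19 := N2 k157 k378
                          have k386 : ¬ e6 ≤ e19 := N1 k384 k43
                          have k410 : e14 ≤ e19 := L3 l14 k373 k383
                          have k411 : e19 ≤ e14 := Classical.byContradiction fun hn => HL _ _ _ _ _ _ c4 c9 c14 c19 c6 c2 (LT k98 k108) (LT k215 k224) (LT k410 hn) (LT k376 k386) (LT k45 k54)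
                          have k412 : e17 ≤ e14 := le_trans k374 k411
                          obtain ⟨e20, l20⟩ := ZE h2 k246 k262 g13
                          have c20 : Core e0 e20 := CZ g13 k262 l20
                          have k415 : e13 ≤ e20 := L1 l20
                          have k416 : e15 ≤ e20 := L2 l20
                          have k417 : e20 ≤ e11 := L3 l20 k189 k298
                          have k418 : e20 ≤ e12 := L3 l20 k177 k246
                          have k421 : e8 ≤ e20 := le_trans k179 k415
                          have k422 : e5 ≤ e20 := le_trans k240 k416
                          have k423 : e10 ≤ e20 := le_trans k241 k416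
                          have k425 : ¬ e0 ≤ e20 := N2 k157 k418
                          have k428 : ¬ e11 ≤ e20 := N1 k425 k131
                          have k443 : ¬ e20 ≤ e14 := N1 k223 k423
                          have k450 : e9 ≤ e20 := L3 l9 k421 k422
                          have k451 : e14 ≤ e20 := L3 l14 k415 k422
                          obtain ⟨e21, q21⟩ : ∃ y, f e20 = y := ⟨_, rfl⟩
                          have k455 : e10 ≤ e21 := MO hf q10 q21 k450
                          have k456 : e15 ≤ e21 := MO hf q15 q21 k451
                          have k458 : ¬ e20 ≤ e21 := FA hF q21
                          have k459 : ¬ e21 ≤ e20 := FB hG q21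
                          have k460 : e21 ≤ e12 := MO hf q21 q12 k417
                          have k461 : ¬ e13 ≤ e21 := L5 l20 k456 k458
                          by_cases k486 : ∃ z, IsGLB ({e0, e21} : Set P) z
                          · obtain ⟨e22, g22⟩ := k486
                            have c22 : Core e0 e22 := CM g22
                            have k489 : e22 ≤ e0 := G1 g22
                            have k490 : e22 ≤ e21 := G2 g22
                            have k496 : e22 ≤ e2 := le_trans k489 k6
                            have k498 : e22 ≤ e11 := le_trans k489 k131
                            have k501 : e22 ≤ e12 := le_trans k490 k460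
                            have k521 : ¬ e13 ≤ e22 := N2 k461 k490
                            have k522 : e22 ≤ e13 := G3 g13 k489 k501
                            have k523 : e22 ≤ e14 := le_trans k522 k184
                            have k525 : e22 ≤ e20 := le_trans k522 k415
                            obtain ⟨e23, q23⟩ : ∃ y, f e22 = y := ⟨_, rfl⟩
                            have k528 : ¬ e23 ≤ e22 := FB hG q23
                            have k529 : e23 ≤ e1 := MO hf q23 q1 k489
                            have k530 : e23 ≤ e3 := MO hf q23 q3 k496
                            have k532 : e23 ≤ e12 := MO hf q23 q12 k498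
                            have k533 : e23 ≤ e15 := MO hf q23 q15 k523
                            have k534 : e23 ≤ e17 := MO hf q23 q17 k522
                            have k535 : e23 ≤ e21 := MO hf q23 q21 k525
                            have k536 : ¬ e23 ≤ e0 := G5 g22 k535 k528
                            have k537 : e23 ≤ e2 := le_trans k529 k7
                            have k538 : e23 ≤ e11 := le_trans k533 k298
                            have k540 : e23 ≤ e20 := le_trans k533 k416
                            have k542 : e23 ≤ e14 := le_trans k534 k412
                            have k567 : ¬ e23 ≤ e13 := N2 k536 k176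
                            by_cases k568 : ∃ z, IsGLB ({e0, e23} : Set P) z
                            · obtain ⟨e24, g24⟩ := k568
                              have c24 : Core e0 e24 := CM g24
                              have k571 : e24 ≤ e0 := G1 g24
                              have k572 : e24 ≤ e23 := G2 g24
                              have k579 : e24 ≤ e1 := le_trans k572 k529
                              have k580 : e24 ≤ e3 := le_trans k572 k530
                              have k599 : ¬ e4 ≤ e24 := N2 k23 k579
                              have k613 : e24 ≤ e4 := G3 g4 k571 k580
                              exact HL _ _ _ _ _ _ c24 c4 c13 c0 c6 c2 (LT k613 k599) (LT k178 k226) (LT k176 k192) (LT k43 k53) (LT k45 k54)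
                            · obtain ⟨e24, l24⟩ := ZE h2 k532 k568 g13
                              have c24 : Core e0 e24 := CZ g13 k568 l24
                              have k571 : e13 ≤ e24 := L1 l24
                              have k572 : e23 ≤ e24 := L2 l24
                              have k577 : e24 ≤ e14 := L3 l24 k184 k542
                              have k613 : ¬ e24 ≤ e13 := N1 k567 k572
                              have k615 : e14 ≤ e24 := Classical.byContradiction fun hn => HL _ _ _ _ _ _ c4 c13 c24 c14 c6 c2 (LT k178 k226) (LT k571 k613) (LT k577 hn) (LT k217 k198) (LT k45 k54)
                              obtain ⟨e25, l25⟩ := ZE h2 k535 k568 g22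
                              have c25 : Core e0 e25 := CZ g22 k568 l25
                              have k622 : e22 ≤ e25 := L1 l25
                              have k623 : e23 ≤ e25 := L2 l25
                              have k624 : e25 ≤ e2 := L3 l25 k496 k537
                              have k626 : e25 ≤ e11 := L3 l25 k498 k538
                              have k628 : e25 ≤ e14 := L3 l25 k523 k542
                              have k632 : e25 ≤ e20 := L3 l25 k525 k540
                              have k662 : ¬ e25 ≤ e22 := N1 k528 k623
                              obtain ⟨e26, q26⟩ : ∃ y, f e25 = y := ⟨_, rfl⟩
                              have k665 : e23 ≤ e26 := MO hf q23 q26 k622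
                              have k667 : ¬ e26 ≤ e25 := FB hG q26
                              have k668 : e26 ≤ e3 := MO hf q26 q3 k624
                              have k670 : e26 ≤ e12 := MO hf q26 q12 k626
                              have k671 : e26 ≤ e15 := MO hf q26 q15 k628
                              have k672 : e26 ≤ e21 := MO hf q26 q21 k632
                              have k674 : e26 ≤ e11 := le_trans k671 k298
                              have k676 : e26 ≤ e20 := le_trans k671 k416
                              by_cases k701 : ∃ z, IsGLB ({e0, e26} : Set P) z
                              · obtain ⟨e27, g27⟩ := k701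
                                have c27 : Core e0 e27 := CM g27
                                have k704 : e27 ≤ e0 := G1 g27
                                have k705 : e27 ≤ e26 := G2 g27
                                have k713 : e27 ≤ e3 := le_trans k705 k668
                                have k716 : e27 ≤ e15 := le_trans k705 k671
                                have k729 : ¬ e4 ≤ e27 := N2 k263 k716
                                have k746 : e27 ≤ e4 := G3 g4 k704 k713
                                exact HL _ _ _ _ _ _ c27 c4 c13 c0 c6 c2 (LT k746 k729) (LT k178 k226) (LT k176 k192) (LT k43 k53) (LT k45 k54)
                              · obtain ⟨e27, l27⟩ := ZE h2 k670 k701 g13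
                                have c27 : Core e0 e27 := CZ g13 k701 l27
                                have k704 : e13 ≤ e27 := L1 l27
                                have k705 : e26 ≤ e27 := L2 l27
                                have k709 : e27 ≤ e20 := L3 l27 k415 k676
                                have k713 : e23 ≤ e27 := le_trans k665 k705
                                have k740 : e24 ≤ e27 := L3 l24 k704 k713
                                have k744 : e14 ≤ e27 := le_trans k615 k740
                                by_cases k747 : e27 ≤ e14
                                · have k755 : e26 ≤ e14 := le_trans k705 k747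
                                  obtain ⟨e28, l28⟩ := ZE h2 k672 k701 g22
                                  have c28 : Core e0 e28 := CZ g22 k701 l28
                                  have k771 : e22 ≤ e28 := L1 l28
                                  have k772 : e26 ≤ e28 := L2 l28
                                  have k777 : e28 ≤ e14 := L3 l28 k523 k755
                                  have k782 : e28 ≤ e21 := L3 l28 k490 k672
                                  have k785 : e23 ≤ e28 := le_trans k665 k772
                                  have k800 : ¬ e13 ≤ e28 := N2 k461 k782
                                  have k801 : ¬ e14 ≤ e28 := N1 k800 k184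
                                  have k816 : ¬ e28 ≤ e25 := N1 k667 k772
                                  have k818 : e25 ≤ e28 := L3 l25 k771 k785
                                  exact HL _ _ _ _ _ _ c22 c25 c28 c14 c18 c2 (LT k622 k662) (LT k818 k816) (LT k777 k801) (LT k365 k352) (LT k334 k370)
                                · have k756 : e20 ≤ e27 := Classical.byContradiction fun hn => HL _ _ _ _ _ _ c4 c9 c14 c27 c20 c11 (LT k98 k108) (LT k215 k224) (LT k744 k747) (LT k709 hn) (LT k417 k428)
                                  have k757 : e10 ≤ e27 := le_trans k423 k756
                                  obtain ⟨e28, l28⟩ := ZE h2 k672 k701 g22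
                                  have c28 : Core e0 e28 := CZ g22 k701 l28
                                  have k768 : e22 ≤ e28 := L1 l28
                                  have k769 : e26 ≤ e28 := L2 l28
                                  have k770 : e28 ≤ e11 := L3 l28 k498 k674
                                  have k773 : e28 ≤ e20 := L3 l28 k525 k676
                                  have k776 : e23 ≤ e28 := le_trans k665 k769
                                  have k810 : ¬ e28 ≤ e25 := N1 k667 k769
                                  have k812 : e25 ≤ e28 := L3 l25 k768 k776
                                  obtain ⟨e29, q29⟩ : ∃ y, f e28 = y := ⟨_, rfl⟩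
                                  have k815 : e26 ≤ e29 := MO hf q26 q29 k812
                                  have k816 : ¬ e28 ≤ e29 := FA hF q29
                                  have k817 : ¬ e29 ≤ e28 := FB hG q29
                                  have k818 : e29 ≤ e12 := MO hf q29 q12 k770
                                  have k819 : e29 ≤ e21 := MO hf q29 q21 k773
                                  have k820 : ¬ e22 ≤ e29 := L5 l28 k815 k816
                                  by_cases k854 : ∃ z, IsGLB ({e0, e29} : Set P) z
                                  · obtain ⟨e30, g30⟩ := k854
                                    have c30 : Core e0 e30 := CM g30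
                                    have k857 : e30 ≤ e0 := G1 g30
                                    have k858 : e30 ≤ e29 := G2 g30
                                    have k868 : e30 ≤ e21 := le_trans k858 k819
                                    have k891 : ¬ e22 ≤ e30 := N2 k820 k858
                                    have k898 : e30 ≤ e22 := G3 g22 k857 k868
                                    exact HL _ _ _ _ _ _ c30 c22 c13 c0 c6 c2 (LT k898 k891) (LT k522 k521) (LT k176 k192) (LT k43 k53) (LT k45 k54)
                                  · obtain ⟨e30, l30⟩ := (h1 e29).resolve_right k854
                                    have c30 : Core e0 e30 := CJ k854 l30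
                                    have k857 : e0 ≤ e30 := L1 l30
                                    have k858 : e29 ≤ e30 := L2 l30
                                    have k862 : e13 ≤ e30 := le_trans k176 k857
                                    have k865 : e26 ≤ e30 := le_trans k815 k858
                                    have k896 : e27 ≤ e30 := L3 l27 k862 k865
                                    have k903 : e10 ≤ e30 := le_trans k757 k896
                                    have k907 : e11 ≤ e30 := L3 l11 k857 k903
                                    have k910 : e30 ≤ e11 := Classical.byContradiction fun hn => HL _ _ _ _ _ _ c4 c9 c14 c18 c11 c30 (LT k98 k108) (LT k215 k224) (LT k365 k352) (LT k335 k360) (LT k907 hn)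
                                    have k912 : e29 ≤ e11 := le_trans k858 k910
                                    obtain ⟨e31, l31⟩ := ZE h2 k818 k854 g13
                                    have c31 : Core e0 e31 := CZ g13 k854 l31
                                    have k917 : e13 ≤ e31 := L1 l31
                                    have k918 : e29 ≤ e31 := L2 l31
                                    have k919 : e31 ≤ e11 := L3 l31 k189 k912
                                    have k920 : e31 ≤ e12 := L3 l31 k177 k818
                                    have k927 : e26 ≤ e31 := le_trans k815 k918
                                    have k928 : ¬ e0 ≤ e31 := N2 k157 k920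
                                    have k931 : ¬ e11 ≤ e31 := N1 k928 k131
                                    have k964 : e27 ≤ e31 := L3 l27 k917 k927
                                    have k973 : e20 ≤ e31 := le_trans k756 k964
                                    have k974 : e31 ≤ e20 := Classical.byContradiction fun hn => HL _ _ _ _ _ _ c4 c9 c14 c20 c31 c11 (LT k98 k108) (LT k215 k224) (LT k451 k443) (LT k973 hn) (LT k919 k931)
                                    have k976 : e29 ≤ e20 := le_trans k918 k974
                                    obtain ⟨e32, l32⟩ := ZE h2 k819 k854 g22
                                    have c32 : Core e0 e32 := CZ g22 k854 l32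
                                    have k981 : e22 ≤ e32 := L1 l32
                                    have k982 : e29 ≤ e32 := L2 l32
                                    have k986 : e32 ≤ e20 := L3 l32 k525 k976
                                    have k987 : e32 ≤ e21 := L3 l32 k490 k819
                                    have k992 : e26 ≤ e32 := le_trans k815 k982
                                    have k1001 : ¬ e13 ≤ e32 := N2 k461 k987
                                    have k1004 : ¬ e20 ≤ e32 := N1 k1001 k415
                                    have k1030 : ¬ e32 ≤ e28 := N1 k817 k982
                                    have k1033 : e28 ≤ e32 := L3 l28 k981 k992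
                                    exact HL _ _ _ _ _ _ c22 c25 c28 c32 c20 c11 (LT k622 k662) (LT k812 k810) (LT k1033 k1030) (LT k986 k1004) (LT k417 k428)
                          · obtain ⟨e22, l22⟩ := (h1 e21).resolve_right k486
                            have c22 : Core e0 e22 := CJ k486 l22
                            have k489 : e0 ≤ e22 := L1 l22
                            have k490 : e21 ≤ e22 := L2 l22
                            have k496 : e10 ≤ e22 := le_trans k455 k490
                            have k521 : e11 ≤ e22 := L3 l11 k489 k496
                            have k527 : e22 ≤ e11 := Classical.byContradiction fun hn => HL _ _ _ _ _ _ c4 c9 c14 c18 c11 c22 (LT k98 k108) (LT k215 k224) (LT k365 k352) (LT k335 k360) (LT k521 hn)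
                            have k529 : e21 ≤ e11 := le_trans k490 k527
                            obtain ⟨e23, l23⟩ := ZE h2 k460 k486 g13
                            have c23 : Core e0 e23 := CZ g13 k486 l23
                            have k534 : e13 ≤ e23 := L1 l23
                            have k535 : e21 ≤ e23 := L2 l23
                            have k536 : e23 ≤ e11 := L3 l23 k189 k529
                            have k537 : e23 ≤ e12 := L3 l23 k177 k460
                            have k544 : e15 ≤ e23 := le_trans k456 k535
                            have k546 : ¬ e0 ≤ e23 := N2 k157 k537
                            have k549 : ¬ e11 ≤ e23 := N1 k546 k131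
                            have k572 : ¬ e23 ≤ e20 := N1 k459 k535
                            have k577 : e20 ≤ e23 := L3 l20 k534 k544
                            exact HL _ _ _ _ _ _ c4 c9 c14 c20 c23 c11 (LT k98 k108) (LT k215 k224) (LT k451 k443) (LT k577 k572) (LT k536 k549)
                  · obtain ⟨e13, l13⟩ := (h1 e12).resolve_right k171
                    have c13 : Core e0 e13 := CJ k171 l13
                    have k174 : e0 ≤ e13 := L1 l13
                    have k175 : e12 ≤ e13 := L2 l13
                    have k177 : e4 ≤ e13 := le_trans k21 k174
                    have k179 : e1 ≤ e13 := le_trans k151 k175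
                    have k183 : e10 ≤ e13 := le_trans k154 k175
                    have k195 : ¬ e13 ≤ e11 := N1 k156 k175
                    have k196 : e2 ≤ e13 := L3 l2 k174 k179
                    have k198 : e11 ≤ e13 := L3 l11 k174 k183
                    obtain ⟨e14, q14⟩ : ∃ y, f e13 = y := ⟨_, rfl⟩
                    have k201 : e3 ≤ e14 := MO hf q3 q14 k196
                    have k202 : e5 ≤ e14 := MO hf q5 q14 k177
                    have k205 : e12 ≤ e14 := MO hf q12 q14 k198
                    have k206 : ¬ e13 ≤ e14 := FA hF q14
                    have k207 : ¬ e14 ≤ e13 := FB hG q14
                    have k208 : ¬ e0 ≤ e14 := L5 l13 k205 k206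
                    have k209 : e4 ≤ e14 := le_trans k22 k201
                    by_cases k227 : ∃ z, IsGLB ({e0, e14} : Set P) z
                    · obtain ⟨e15, g15⟩ := k227
                      have c15 : Core e0 e15 := CM g15
                      obtain ⟨e16, l16⟩ := ZE h2 k202 k40 g15
                      have c16 : Core e0 e16 := CZ g15 k40 l16
                      have k232 : e15 ≤ e0 := G1 g15
                      have k233 : e15 ≤ e14 := G2 g15
                      have k234 : e4 ≤ e15 := G3 g15 k21 k209
                      have k239 : ¬ e15 ≤ e12 := BN3 g15 k171 k205
                      have k250 : ¬ e0 ≤ e15 := N2 k208 k233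
                      have k276 : ¬ e15 ≤ e4 := N2 k239 k158
                      exact HL _ _ _ _ _ _ c4 c15 c0 c6 c11 c13 (LT k234 k276) (LT k232 k250) (LT k43 k53) (LT k146 k148) (LT k198 k195)
                    · obtain ⟨e15, l15⟩ := (h1 e14).resolve_right k227
                      have c15 : Core e0 e15 := CJ k227 l15
                      have k230 : e0 ≤ e15 := L1 l15
                      have k231 : e14 ≤ e15 := L2 l15
                      have k241 : e12 ≤ e15 := le_trans k205 k231
                      have k256 : ¬ e15 ≤ e13 := N1 k207 k231
                      have k260 : e13 ≤ e15 := L3 l13 k230 k241
                      exact HL _ _ _ _ _ _ c4 c0 c6 c11 c13 c15 (LT k21 k26) (LT k43 k53) (LT k146 k148) (LT k198 k195) (LT k260 k256)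
            · have k89 : ¬ e4 ≤ e7 := G4 g8 k21 k88
              obtain ⟨e9, q9⟩ : ∃ y, f e8 = y := ⟨_, rfl⟩
              have k93 : ¬ e9 ≤ e8 := FB hG q9
              have k94 : e9 ≤ e1 := MO hf q9 q1 k71
              have k95 : e9 ≤ e3 := MO hf q9 q3 k76
              have k96 : e9 ≤ e5 := MO hf q9 q5 k87
              have k97 : e9 ≤ e7 := MO hf q9 q7 k77
              have k98 : ¬ e9 ≤ e0 := G5 g8 k97 k93
              have k99 : e9 ≤ e2 := le_trans k94 k7
              have k100 : e9 ≤ e6 := le_trans k96 k44
              by_cases k109 : ∃ z, IsGLB ({e0, e9} : Set P) z
              · obtain ⟨e10, g10⟩ := k109
                have c10 : Core e0 e10 := CM g10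
                have k112 : e10 ≤ e0 := G1 g10
                have k113 : e10 ≤ e9 := G2 g10
                have k117 : e10 ≤ e1 := le_trans k113 k94
                have k120 : e10 ≤ e7 := le_trans k113 k97
                have k129 : ¬ e8 ≤ e10 := N2 k73 k117
                have k132 : e10 ≤ e8 := G3 g8 k112 k120
                exact HL _ _ _ _ _ _ c10 c8 c4 c0 c6 c2 (LT k132 k129) (LT k87 k88) (LT k21 k26) (LT k43 k53) (LT k45 k54)
              · obtain ⟨e10, l10⟩ := (h1 e9).resolve_right k109
                have c10 : Core e0 e10 := CJ k109 l10
                have k112 : e0 ≤ e10 := L1 l10
                have k113 : e9 ≤ e10 := L2 l10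
                have k115 : e10 ≤ e6 := L3 l10 k43 k100
                have k130 : ¬ e10 ≤ e0 := N1 k98 k113
                have k131 : e6 ≤ e10 := Classical.byContradiction fun hn => HL _ _ _ _ _ _ c8 c4 c0 c10 c6 c2 (LT k87 k88) (LT k21 k26) (LT k112 k130) (LT k115 hn) (LT k45 k54)
                obtain ⟨e11, l11⟩ := ZE h2 k97 k109 g8
                have c11 : Core e0 e11 := CZ g8 k109 l11
                have k135 : e8 ≤ e11 := L1 l11
                have k136 : e9 ≤ e11 := L2 l11
                have k137 : e11 ≤ e2 := L3 l11 k76 k99
                have k138 : e11 ≤ e3 := L3 l11 k78 k95
                have k139 : e11 ≤ e6 := L3 l11 k77 k100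
                have k140 : e11 ≤ e7 := L3 l11 k72 k97
                have k155 : ¬ e11 ≤ e8 := N1 k93 k136
                obtain ⟨e12, q12⟩ : ∃ y, f e11 = y := ⟨_, rfl⟩
                have k158 : e9 ≤ e12 := MO hf q9 q12 k135
                have k159 : ¬ e11 ≤ e12 := FA hF q12
                have k160 : ¬ e12 ≤ e11 := FB hG q12
                have k161 : e12 ≤ e3 := MO hf q12 q3 k137
                have k162 : e12 ≤ e7 := MO hf q12 q7 k139
                have k163 : ¬ e8 ≤ e12 := L5 l11 k158 k159
                by_cases k175 : ∃ z, IsGLB ({e0, e12} : Set P) z
                · obtain ⟨e13, g13⟩ := k175
                  have c13 : Core e0 e13 := CM g13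
                  have k178 : e13 ≤ e0 := G1 g13
                  have k179 : e13 ≤ e12 := G2 g13
                  have k186 : e13 ≤ e7 := le_trans k179 k162
                  have k196 : ¬ e8 ≤ e13 := N2 k163 k179
                  have k201 : e13 ≤ e8 := G3 g8 k178 k186
                  exact HL _ _ _ _ _ _ c13 c8 c4 c0 c6 c2 (LT k201 k196) (LT k87 k88) (LT k21 k26) (LT k43 k53) (LT k45 k54)
                · obtain ⟨e13, l13⟩ := (h1 e12).resolve_right k175
                  have c13 : Core e0 e13 := CJ k175 l13
                  have k178 : e0 ≤ e13 := L1 l13
                  have k179 : e12 ≤ e13 := L2 l13
                  have k182 : e8 ≤ e13 := le_trans k71 k178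
                  have k183 : e9 ≤ e13 := le_trans k158 k179
                  have k194 : e10 ≤ e13 := L3 l10 k178 k183
                  have k195 : e11 ≤ e13 := L3 l11 k182 k183
                  have k197 : e6 ≤ e13 := le_trans k131 k194
                  by_cases k198 : e13 ≤ e6
                  · have k199 : e13 ≤ e2 := le_trans k198 k45
                    have k201 : e12 ≤ e2 := le_trans k179 k199
                    have k202 : e12 ≤ e6 := le_trans k179 k198
                    obtain ⟨e14, l14⟩ := ZE h2 k162 k175 g8
                    have c14 : Core e0 e14 := CZ g8 k175 l14
                    have k211 : e8 ≤ e14 := L1 l14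
                    have k212 : e12 ≤ e14 := L2 l14
                    have k213 : e14 ≤ e2 := L3 l14 k76 k201
                    have k214 : e14 ≤ e3 := L3 l14 k78 k161
                    have k215 : e14 ≤ e6 := L3 l14 k77 k202
                    have k216 : e14 ≤ e7 := L3 l14 k72 k162
                    have k219 : e9 ≤ e14 := le_trans k158 k212
                    have k236 : ¬ e14 ≤ e11 := N1 k160 k212
                    have k238 : e11 ≤ e14 := L3 l11 k211 k219
                    obtain ⟨e15, q15⟩ : ∃ y, f e14 = y := ⟨_, rfl⟩
                    have k240 : e9 ≤ e15 := MO hf q9 q15 k211
                    have k241 : e12 ≤ e15 := MO hf q12 q15 k238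
                    have k242 : ¬ e14 ≤ e15 := FA hF q15
                    have k243 : ¬ e15 ≤ e14 := FB hG q15
                    have k244 : e15 ≤ e3 := MO hf q15 q3 k213
                    have k245 : e15 ≤ e7 := MO hf q15 q7 k215
                    have k246 : ¬ e8 ≤ e15 := L5 l14 k241 k242
                    by_cases k262 : ∃ z, IsGLB ({e0, e15} : Set P) z
                    · obtain ⟨e16, g16⟩ := k262
                      have c16 : Core e0 e16 := CM g16
                      have k265 : e16 ≤ e0 := G1 g16
                      have k266 : e16 ≤ e15 := G2 g16
                      have k275 : e16 ≤ e7 := le_trans k266 k245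
                      have k286 : ¬ e8 ≤ e16 := N2 k246 k266
                      have k293 : e16 ≤ e8 := G3 g8 k265 k275
                      exact HL _ _ _ _ _ _ c16 c8 c4 c0 c6 c2 (LT k293 k286) (LT k87 k88) (LT k21 k26) (LT k43 k53) (LT k45 k54)
                    · obtain ⟨e16, l16⟩ := (h1 e15).resolve_right k262
                      have c16 : Core e0 e16 := CJ k262 l16
                      have k265 : e0 ≤ e16 := L1 l16
                      have k266 : e15 ≤ e16 := L2 l16
                      have k269 : e8 ≤ e16 := le_trans k71 k265
                      have k270 : e9 ≤ e16 := le_trans k240 k266
                      have k271 : e12 ≤ e16 := le_trans k241 k266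
                      have k284 : e10 ≤ e16 := L3 l10 k265 k270
                      have k285 : e11 ≤ e16 := L3 l11 k269 k270
                      have k287 : e14 ≤ e16 := L3 l14 k269 k271
                      have k289 : e6 ≤ e16 := le_trans k131 k284
                      by_cases k290 : e16 ≤ e6
                      · have k295 : e15 ≤ e6 := le_trans k266 k290
                        obtain ⟨e17, l17⟩ := ZE h2 k245 k262 g8
                        have c17 : Core e0 e17 := CZ g8 k262 l17
                        have k305 : e8 ≤ e17 := L1 l17
                        have k306 : e15 ≤ e17 := L2 l17
                        have k308 : e17 ≤ e3 := L3 l17 k78 k244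
                        have k309 : e17 ≤ e6 := L3 l17 k77 k295
                        have k315 : e12 ≤ e17 := le_trans k241 k306
                        have k316 : ¬ e0 ≤ e17 := N2 k15 k308
                        have k318 : ¬ e6 ≤ e17 := N1 k316 k43
                        have k335 : ¬ e17 ≤ e14 := N1 k243 k306
                        have k338 : e14 ≤ e17 := L3 l14 k305 k315
                        exact HL _ _ _ _ _ _ c8 c11 c14 c17 c6 c2 (LT k135 k155) (LT k238 k236) (LT k338 k335) (LT k309 k318) (LT k45 k54)
                      · obtain ⟨e17, q17⟩ : ∃ y, f e16 = y := ⟨_, rfl⟩
                        have k300 : e7 ≤ e17 := MO hf q7 q17 k289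
                        have k301 : e9 ≤ e17 := MO hf q9 q17 k269
                        have k302 : e12 ≤ e17 := MO hf q12 q17 k285
                        have k303 : e15 ≤ e17 := MO hf q15 q17 k287
                        have k304 : ¬ e16 ≤ e17 := FA hF q17
                        have k305 : ¬ e17 ≤ e16 := FB hG q17
                        have k306 : ¬ e0 ≤ e17 := L5 l16 k303 k304
                        have k307 : e8 ≤ e17 := le_trans k72 k300
                        by_cases k327 : ∃ z, IsGLB ({e0, e17} : Set P) z
                        · obtain ⟨e18, g18⟩ := k327
                          have c18 : Core e0 e18 := CM g18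
                          obtain ⟨e19, l19⟩ := ZE h2 k302 k175 g18
                          have c19 : Core e0 e19 := CZ g18 k175 l19
                          have k332 : e18 ≤ e0 := G1 g18
                          have k333 : e18 ≤ e17 := G2 g18
                          have k334 : e8 ≤ e18 := G3 g18 k71 k307
                          have k341 : e18 ≤ e19 := L1 l19
                          have k342 : e12 ≤ e19 := L2 l19
                          have k343 : e19 ≤ e17 := L3 l19 k333 k302
                          have k345 : e18 ≤ e6 := le_trans k332 k43
                          have k348 : e18 ≤ e16 := le_trans k332 k265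
                          have k350 : e8 ≤ e19 := le_trans k334 k341
                          have k352 : ¬ e0 ≤ e19 := N2 k306 k343
                          have k359 : ¬ e6 ≤ e19 := N1 k352 k43
                          have k385 : e14 ≤ e19 := L3 l14 k350 k342
                          have k387 : e19 ≤ e6 := L3 l19 k345 k202
                          have k396 : e19 ≤ e14 := Classical.byContradiction fun hn => HL _ _ _ _ _ _ c8 c11 c14 c19 c6 c2 (LT k135 k155) (LT k238 k236) (LT k385 hn) (LT k387 k359) (LT k45 k54)
                          have k397 : e19 ≤ e3 := le_trans k396 k214
                          have k398 : e19 ≤ e7 := le_trans k396 k216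
                          have k399 : e18 ≤ e3 := le_trans k341 k397
                          have k400 : e18 ≤ e7 := le_trans k341 k398
                          have k401 : e18 ≤ e14 := le_trans k341 k396
                          have k402 : ¬ e4 ≤ e18 := N2 k89 k400
                          have k404 : e18 ≤ e4 := G3 g4 k332 k399
                          have k405 : e18 ≤ e8 := G3 g8 k332 k400
                          have k407 : e18 ≤ e11 := le_trans k405 k135
                          obtain ⟨e20, l20⟩ := ZE h2 k301 k109 g18
                          have c20 : Core e0 e20 := CZ g18 k109 l20
                          have k416 : e18 ≤ e20 := L1 l20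
                          have k417 : e9 ≤ e20 := L2 l20
                          have k423 : e20 ≤ e11 := L3 l20 k407 k136
                          have k425 : e20 ≤ e14 := L3 l20 k401 k219
                          have k429 : e8 ≤ e20 := le_trans k334 k416
                          have k448 : ¬ e20 ≤ e8 := N1 k93 k417
                          have k450 : ¬ e12 ≤ e20 := N2 k160 k423
                          have k451 : ¬ e14 ≤ e20 := N1 k450 k212
                          obtain ⟨e21, l21⟩ := ZE h2 k303 k262 g18
                          have c21 : Core e0 e21 := CZ g18 k262 l21
                          have k458 : e18 ≤ e21 := L1 l21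
                          have k459 : e15 ≤ e21 := L2 l21
                          have k460 : e21 ≤ e3 := L3 l21 k399 k244
                          have k462 : e21 ≤ e16 := L3 l21 k348 k266
                          have k465 : e12 ≤ e21 := le_trans k241 k459
                          have k466 : e8 ≤ e21 := le_trans k334 k458
                          have k467 : ¬ e0 ≤ e21 := N2 k15 k460
                          have k472 : ¬ e16 ≤ e21 := N1 k467 k265
                          have k492 : ¬ e21 ≤ e14 := N1 k243 k459
                          have k496 : e14 ≤ e21 := L3 l14 k466 k465
                          obtain ⟨e22, q22⟩ : ∃ y, f e21 = y := ⟨_, rfl⟩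
                          have k502 : e15 ≤ e22 := MO hf q15 q22 k496
                          have k503 : ¬ e21 ≤ e22 := FA hF q22
                          have k504 : ¬ e22 ≤ e21 := FB hG q22
                          have k505 : e22 ≤ e17 := MO hf q22 q17 k462
                          have k506 : ¬ e18 ≤ e22 := L5 l21 k502 k503
                          have k530 : ¬ e8 ≤ e22 := N1 k506 k405
                          by_cases k537 : ∃ z, IsGLB ({e0, e22} : Set P) z
                          · obtain ⟨e23, g23⟩ := k537
                            have c23 : Core e0 e23 := CM g23
                            have k540 : e23 ≤ e0 := G1 g23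
                            have k541 : e23 ≤ e22 := G2 g23
                            have k551 : e23 ≤ e17 := le_trans k541 k505
                            have k564 : ¬ e8 ≤ e23 := N2 k530 k541
                            have k567 : ¬ e18 ≤ e23 := N1 k564 k334
                            have k575 : e23 ≤ e18 := G3 g18 k540 k551
                            exact HL _ _ _ _ _ _ c23 c18 c4 c0 c6 c2 (LT k575 k567) (LT k404 k402) (LT k21 k26) (LT k43 k53) (LT k45 k54)
                          · obtain ⟨e23, l23⟩ := (h1 e22).resolve_right k537
                            have c23 : Core e0 e23 := CJ k537 l23
                            have k540 : e0 ≤ e23 := L1 l23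
                            have k541 : e22 ≤ e23 := L2 l23
                            have k548 : e15 ≤ e23 := le_trans k502 k541
                            have k574 : e16 ≤ e23 := L3 l16 k540 k548
                            have k580 : e23 ≤ e16 := Classical.byContradiction fun hn => HL _ _ _ _ _ _ c8 c11 c14 c21 c16 c23 (LT k135 k155) (LT k238 k236) (LT k496 k492) (LT k462 k472) (LT k574 hn)
                            have k581 : e22 ≤ e16 := le_trans k541 k580
                            obtain ⟨e24, l24⟩ := ZE h2 k505 k537 g18
                            have c24 : Core e0 e24 := CZ g18 k537 l24
                            have k590 : e18 ≤ e24 := L1 l24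
                            have k591 : e22 ≤ e24 := L2 l24
                            have k592 : e24 ≤ e16 := L3 l24 k348 k581
                            have k593 : e24 ≤ e17 := L3 l24 k333 k505
                            have k598 : e15 ≤ e24 := le_trans k502 k591
                            have k599 : ¬ e0 ≤ e24 := N2 k306 k593
                            have k604 : ¬ e16 ≤ e24 := N1 k599 k265
                            have k628 : ¬ e24 ≤ e21 := N1 k504 k591
                            have k634 : e21 ≤ e24 := L3 l21 k590 k598
                            exact HL _ _ _ _ _ _ c8 c20 c14 c21 c24 c16 (LT k429 k448) (LT k425 k451) (LT k496 k492) (LT k634 k628) (LT k592 k604)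
                        · obtain ⟨e18, l18⟩ := (h1 e17).resolve_right k327
                          have c18 : Core e0 e18 := CJ k327 l18
                          have k330 : e0 ≤ e18 := L1 l18
                          have k331 : e17 ≤ e18 := L2 l18
                          have k342 : e15 ≤ e18 := le_trans k303 k331
                          have k359 : ¬ e18 ≤ e16 := N1 k305 k331
                          have k364 : e16 ≤ e18 := L3 l16 k330 k342
                          exact HL _ _ _ _ _ _ c8 c4 c0 c6 c16 c18 (LT k87 k88) (LT k21 k26) (LT k43 k53) (LT k289 k290) (LT k364 k359)
                  · have k200 : ¬ e12 ≤ e6 := L4 l13 k43 k198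
                    obtain ⟨e14, q14⟩ : ∃ y, f e13 = y := ⟨_, rfl⟩
                    have k206 : e7 ≤ e14 := MO hf q7 q14 k197
                    have k207 : e9 ≤ e14 := MO hf q9 q14 k182
                    have k208 : e12 ≤ e14 := MO hf q12 q14 k195
                    have k209 : ¬ e13 ≤ e14 := FA hF q14
                    have k210 : ¬ e14 ≤ e13 := FB hG q14
                    have k211 : ¬ e0 ≤ e14 := L5 l13 k208 k209
                    have k212 : e8 ≤ e14 := le_trans k72 k206
                    by_cases k227 : ∃ z, IsGLB ({e0, e14} : Set P) z
                    · obtain ⟨e15, g15⟩ := k227
                      have c15 : Core e0 e15 := CM g15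
                      obtain ⟨e16, l16⟩ := ZE h2 k207 k109 g15
                      have c16 : Core e0 e16 := CZ g15 k109 l16
                      have k232 : e15 ≤ e0 := G1 g15
                      have k233 : e15 ≤ e14 := G2 g15
                      have k234 : e8 ≤ e15 := G3 g15 k71 k212
                      have k240 : e15 ≤ e16 := L1 l16
                      have k241 : e9 ≤ e16 := L2 l16
                      have k242 : e16 ≤ e14 := L3 l16 k233 k207
                      have k244 : e15 ≤ e6 := le_trans k232 k43
                      have k246 : e15 ≤ e13 := le_trans k232 k178
                      have k247 : e8 ≤ e16 := le_trans k234 k240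
                      have k248 : ¬ e0 ≤ e15 := N2 k211 k233
                      have k249 : ¬ e0 ≤ e16 := N2 k211 k242
                      have k255 : ¬ e6 ≤ e16 := N1 k249 k43
                      have k275 : e11 ≤ e16 := L3 l11 k247 k241
                      have k277 : e16 ≤ e6 := L3 l16 k244 k100
                      have k279 : e16 ≤ e13 := L3 l16 k246 k183
                      have k284 : ¬ e12 ≤ e16 := N2 k200 k277
                      by_cases k285 : e16 ≤ e11
                      · have k286 : e16 ≤ e3 := le_trans k285 k138
                        have k287 : e16 ≤ e7 := le_trans k285 k140
                        have k288 : e15 ≤ e3 := le_trans k240 k286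
                        have k289 : e15 ≤ e7 := le_trans k240 k287
                        have k291 : ¬ e4 ≤ e15 := N2 k89 k289
                        have k293 : e15 ≤ e4 := G3 g4 k232 k288
                        have k294 : e15 ≤ e8 := G3 g8 k232 k289
                        obtain ⟨e17, l17⟩ := ZE h2 k208 k175 g15
                        have c17 : Core e0 e17 := CZ g15 k175 l17
                        have k304 : e15 ≤ e17 := L1 l17
                        have k305 : e12 ≤ e17 := L2 l17
                        have k308 : e17 ≤ e13 := L3 l17 k246 k179
                        have k310 : e9 ≤ e17 := le_trans k158 k305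
                        have k311 : e8 ≤ e17 := le_trans k234 k304
                        have k332 : ¬ e17 ≤ e11 := N1 k160 k305
                        have k335 : e11 ≤ e17 := L3 l11 k311 k310
                        obtain ⟨e18, q18⟩ : ∃ y, f e17 = y := ⟨_, rfl⟩
                        have k338 : e9 ≤ e18 := MO hf q9 q18 k311
                        have k339 : e12 ≤ e18 := MO hf q12 q18 k335
                        have k340 : ¬ e17 ≤ e18 := FA hF q18
                        have k341 : ¬ e18 ≤ e17 := FB hG q18
                        have k342 : e18 ≤ e14 := MO hf q18 q14 k308
                        have k343 : ¬ e15 ≤ e18 := L5 l17 k339 k340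
                        have k362 : ¬ e8 ≤ e18 := N1 k343 k294
                        by_cases k367 : ∃ z, IsGLB ({e0, e18} : Set P) z
                        · obtain ⟨e19, g19⟩ := k367
                          have c19 : Core e0 e19 := CM g19
                          have k370 : e19 ≤ e0 := G1 g19
                          have k371 : e19 ≤ e18 := G2 g19
                          have k379 : e19 ≤ e14 := le_trans k371 k342
                          have k391 : ¬ e8 ≤ e19 := N2 k362 k371
                          have k393 : ¬ e15 ≤ e19 := N1 k391 k234
                          have k399 : e19 ≤ e15 := G3 g15 k370 k379
                          exact HL _ _ _ _ _ _ c19 c15 c4 c0 c6 c2 (LT k399 k393) (LT k293 k291) (LT k21 k26) (LT k43 k53) (LT k45 k54)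
                        · obtain ⟨e19, l19⟩ := (h1 e18).resolve_right k367
                          have c19 : Core e0 e19 := CJ k367 l19
                          have k370 : e0 ≤ e19 := L1 l19
                          have k371 : e18 ≤ e19 := L2 l19
                          have k377 : e12 ≤ e19 := le_trans k339 k371
                          have k397 : e13 ≤ e19 := L3 l13 k370 k377
                          have k402 : e19 ≤ e13 := Classical.byContradiction fun hn => HL _ _ _ _ _ _ c8 c4 c0 c6 c13 c19 (LT k87 k88) (LT k21 k26) (LT k43 k53) (LT k197 k198) (LT k397 hn)
                          have k403 : e18 ≤ e13 := le_trans k371 k402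
                          obtain ⟨e20, l20⟩ := ZE h2 k342 k367 g15
                          have c20 : Core e0 e20 := CZ g15 k367 l20
                          have k412 : e15 ≤ e20 := L1 l20
                          have k413 : e18 ≤ e20 := L2 l20
                          have k414 : e20 ≤ e13 := L3 l20 k246 k403
                          have k415 : e20 ≤ e14 := L3 l20 k233 k342
                          have k417 : e8 ≤ e20 := le_trans k234 k412
                          have k418 : e9 ≤ e20 := le_trans k338 k413
                          have k419 : e12 ≤ e20 := le_trans k339 k413
                          have k420 : ¬ e0 ≤ e20 := N2 k211 k415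
                          have k424 : ¬ e13 ≤ e20 := N1 k420 k178
                          have k444 : ¬ e20 ≤ e17 := N1 k341 k413
                          have k446 : e11 ≤ e20 := L3 l11 k417 k418
                          have k448 : e17 ≤ e20 := L3 l17 k412 k419
                          obtain ⟨e21, q21⟩ : ∃ y, f e20 = y := ⟨_, rfl⟩
                          have k451 : e12 ≤ e21 := MO hf q12 q21 k446
                          have k452 : e18 ≤ e21 := MO hf q18 q21 k448
                          have k453 : ¬ e20 ≤ e21 := FA hF q21
                          have k454 : ¬ e21 ≤ e20 := FB hG q21
                          have k455 : e21 ≤ e14 := MO hf q21 q14 k414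
                          have k456 : ¬ e15 ≤ e21 := L5 l20 k452 k453
                          have k476 : ¬ e8 ≤ e21 := N1 k456 k294
                          by_cases k484 : ∃ z, IsGLB ({e0, e21} : Set P) z
                          · obtain ⟨e22, g22⟩ := k484
                            have c22 : Core e0 e22 := CM g22
                            have k487 : e22 ≤ e0 := G1 g22
                            have k488 : e22 ≤ e21 := G2 g22
                            have k498 : e22 ≤ e14 := le_trans k488 k455
                            have k511 : ¬ e8 ≤ e22 := N2 k476 k488
                            have k513 : ¬ e15 ≤ e22 := N1 k511 k234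
                            have k521 : e22 ≤ e15 := G3 g15 k487 k498
                            exact HL _ _ _ _ _ _ c22 c15 c4 c0 c6 c2 (LT k521 k513) (LT k293 k291) (LT k21 k26) (LT k43 k53) (LT k45 k54)
                          · obtain ⟨e22, l22⟩ := (h1 e21).resolve_right k484
                            have c22 : Core e0 e22 := CJ k484 l22
                            have k487 : e0 ≤ e22 := L1 l22
                            have k488 : e21 ≤ e22 := L2 l22
                            have k494 : e12 ≤ e22 := le_trans k451 k488
                            have k517 : e13 ≤ e22 := L3 l13 k487 k494
                            have k524 : e22 ≤ e13 := Classical.byContradiction fun hn => HL _ _ _ _ _ _ c8 c11 c17 c20 c13 c22 (LT k135 k155) (LT k335 k332) (LT k448 k444) (LT k414 k424) (LT k517 hn)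
                            have k526 : e21 ≤ e13 := le_trans k488 k524
                            obtain ⟨e23, l23⟩ := ZE h2 k455 k484 g15
                            have c23 : Core e0 e23 := CZ g15 k484 l23
                            have k536 : e15 ≤ e23 := L1 l23
                            have k537 : e21 ≤ e23 := L2 l23
                            have k538 : e23 ≤ e13 := L3 l23 k246 k526
                            have k539 : e23 ≤ e14 := L3 l23 k233 k455
                            have k545 : e18 ≤ e23 := le_trans k452 k537
                            have k546 : ¬ e0 ≤ e23 := N2 k211 k539
                            have k550 : ¬ e13 ≤ e23 := N1 k546 k178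
                            have k573 : ¬ e23 ≤ e20 := N1 k454 k537
                            have k578 : e20 ≤ e23 := L3 l20 k536 k545
                            exact HL _ _ _ _ _ _ c8 c11 c17 c20 c23 c13 (LT k135 k155) (LT k335 k332) (LT k448 k444) (LT k578 k573) (LT k538 k550)
                      · have k286 : ¬ e15 ≤ e11 := L5 l16 k136 k285
                        have k287 : ¬ e15 ≤ e8 := N2 k286 k135
                        obtain ⟨e17, q17⟩ : ∃ y, f e16 = y := ⟨_, rfl⟩
                        have k292 : e9 ≤ e17 := MO hf q9 q17 k247
                        have k293 : e12 ≤ e17 := MO hf q12 q17 k275
                        have k297 : e17 ≤ e7 := MO hf q17 q7 k277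
                        have k298 : e17 ≤ e14 := MO hf q17 q14 k279
                        by_cases k317 : ∃ z, IsGLB ({e0, e17} : Set P) z
                        · obtain ⟨e18, g18⟩ := k317
                          have c18 : Core e0 e18 := CM g18
                          have k320 : e18 ≤ e0 := G1 g18
                          have k321 : e18 ≤ e17 := G2 g18
                          have k330 : e18 ≤ e7 := le_trans k321 k297
                          have k351 : e18 ≤ e8 := G3 g8 k320 k330
                          have k355 : e8 ≤ e18 := Classical.byContradiction fun hn => HL _ _ _ _ _ _ c18 c8 c4 c0 c6 c2 (LT k351 hn) (LT k87 k88) (LT k21 k26) (LT k43 k53) (LT k45 k54)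
                          have k356 : e8 ≤ e17 := le_trans k355 k321
                          obtain ⟨e19, l19⟩ := ZE h2 k208 k175 g15
                          have c19 : Core e0 e19 := CZ g15 k175 l19
                          have k363 : e15 ≤ e19 := L1 l19
                          have k364 : e12 ≤ e19 := L2 l19
                          have k365 : e19 ≤ e13 := L3 l19 k246 k179
                          have k366 : e19 ≤ e14 := L3 l19 k233 k208
                          have k367 : e9 ≤ e19 := le_trans k158 k364
                          have k368 : e8 ≤ e19 := le_trans k234 k363
                          have k370 : ¬ e0 ≤ e19 := N2 k211 k366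
                          have k374 : ¬ e13 ≤ e19 := N1 k370 k178
                          have k387 : ¬ e19 ≤ e16 := N1 k284 k364
                          have k392 : e11 ≤ e19 := L3 l11 k368 k367
                          have k393 : e16 ≤ e19 := L3 l16 k363 k367
                          obtain ⟨e20, q20⟩ : ∃ y, f e19 = y := ⟨_, rfl⟩
                          have k395 : e9 ≤ e20 := MO hf q9 q20 k368
                          have k396 : e12 ≤ e20 := MO hf q12 q20 k392
                          have k397 : e17 ≤ e20 := MO hf q17 q20 k393
                          have k398 : ¬ e19 ≤ e20 := FA hF q20
                          have k399 : ¬ e20 ≤ e19 := FB hG q20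
                          have k400 : e20 ≤ e14 := MO hf q20 q14 k365
                          have k401 : ¬ e15 ≤ e20 := L5 l19 k396 k398
                          have k402 : e8 ≤ e20 := le_trans k356 k397
                          by_cases k425 : ∃ z, IsGLB ({e0, e20} : Set P) z
                          · obtain ⟨e21, g21⟩ := k425
                            have c21 : Core e0 e21 := CM g21
                            obtain ⟨e22, l22⟩ := ZE h2 k395 k109 g21
                            have c22 : Core e0 e22 := CZ g21 k109 l22
                            have k430 : e21 ≤ e0 := G1 g21
                            have k431 : e21 ≤ e20 := G2 g21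
                            have k432 : e8 ≤ e21 := G3 g21 k71 k402
                            have k443 : e21 ≤ e13 := le_trans k430 k178
                            have k444 : e21 ≤ e14 := le_trans k431 k400
                            have k483 : ¬ e15 ≤ e21 := N2 k401 k431
                            have k487 : e21 ≤ e15 := G3 g15 k430 k444
                            have k495 : e21 ≤ e19 := le_trans k487 k363
                            have k504 : e21 ≤ e8 := Classical.byContradiction fun hn => HL _ _ _ _ _ _ c8 c21 c15 c0 c6 c2 (LT k432 hn) (LT k487 k483) (LT k232 k248) (LT k43 k53) (LT k45 k54)
                            have k506 : e21 ≤ e4 := le_trans k504 k87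
                            have k507 : e21 ≤ e7 := le_trans k504 k72
                            have k511 : ¬ e4 ≤ e21 := N2 k89 k507
                            obtain ⟨e23, l23⟩ := ZE h2 k396 k175 g21
                            have c23 : Core e0 e23 := CZ g21 k175 l23
                            have k521 : e21 ≤ e23 := L1 l23
                            have k522 : e12 ≤ e23 := L2 l23
                            have k525 : e23 ≤ e13 := L3 l23 k443 k179
                            have k528 : e23 ≤ e19 := L3 l23 k495 k364
                            have k530 : e9 ≤ e23 := le_trans k158 k522
                            have k531 : e8 ≤ e23 := le_trans k432 k521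
                            have k552 : ¬ e23 ≤ e11 := N1 k160 k522
                            have k561 : e11 ≤ e23 := L3 l11 k531 k530
                            obtain ⟨e24, q24⟩ : ∃ y, f e23 = y := ⟨_, rfl⟩
                            have k565 : e12 ≤ e24 := MO hf q12 q24 k561
                            have k566 : ¬ e23 ≤ e24 := FA hF q24
                            have k567 : ¬ e24 ≤ e23 := FB hG q24
                            have k568 : e24 ≤ e14 := MO hf q24 q14 k525
                            have k569 : e24 ≤ e20 := MO hf q24 q20 k528
                            have k570 : ¬ e21 ≤ e24 := L5 l23 k565 k566
                            have k596 : ¬ e8 ≤ e24 := N1 k570 k504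
                            by_cases k603 : ∃ z, IsGLB ({e0, e24} : Set P) z
                            · obtain ⟨e25, g25⟩ := k603
                              have c25 : Core e0 e25 := CM g25
                              have k606 : e25 ≤ e0 := G1 g25
                              have k607 : e25 ≤ e24 := G2 g25
                              have k616 : e25 ≤ e20 := le_trans k607 k569
                              have k628 : ¬ e8 ≤ e25 := N2 k596 k607
                              have k636 : ¬ e21 ≤ e25 := N1 k628 k432
                              have k643 : e25 ≤ e21 := G3 g21 k606 k616
                              exact HL _ _ _ _ _ _ c25 c21 c4 c0 c6 c2 (LT k643 k636) (LT k506 k511) (LT k21 k26) (LT k43 k53) (LT k45 k54)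
                            · obtain ⟨e25, l25⟩ := (h1 e24).resolve_right k603
                              have c25 : Core e0 e25 := CJ k603 l25
                              have k606 : e0 ≤ e25 := L1 l25
                              have k607 : e24 ≤ e25 := L2 l25
                              have k615 : e12 ≤ e25 := le_trans k565 k607
                              have k641 : e13 ≤ e25 := L3 l13 k606 k615
                              have k648 : e25 ≤ e13 := Classical.byContradiction fun hn => HL _ _ _ _ _ _ c8 c11 c16 c19 c13 c25 (LT k135 k155) (LT k275 k285) (LT k393 k387) (LT k365 k374) (LT k641 hn)
                              have k649 : e24 ≤ e13 := le_trans k607 k648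
                              obtain ⟨e26, l26⟩ := ZE h2 k568 k603 g15
                              have c26 : Core e0 e26 := CZ g15 k603 l26
                              have k653 : e15 ≤ e26 := L1 l26
                              have k654 : e24 ≤ e26 := L2 l26
                              have k655 : e26 ≤ e13 := L3 l26 k246 k649
                              have k656 : e26 ≤ e14 := L3 l26 k233 k568
                              have k662 : e12 ≤ e26 := le_trans k565 k654
                              have k663 : ¬ e0 ≤ e26 := N2 k211 k656
                              have k667 : ¬ e13 ≤ e26 := N1 k663 k178
                              have k693 : e19 ≤ e26 := L3 l19 k653 k662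
                              have k696 : e26 ≤ e19 := Classical.byContradiction fun hn => HL _ _ _ _ _ _ c8 c11 c16 c19 c26 c13 (LT k135 k155) (LT k275 k285) (LT k393 k387) (LT k693 hn) (LT k655 k667)
                              have k697 : e24 ≤ e19 := le_trans k654 k696
                              obtain ⟨e27, l27⟩ := ZE h2 k569 k603 g21
                              have c27 : Core e0 e27 := CZ g21 k603 l27
                              have k701 : e21 ≤ e27 := L1 l27
                              have k702 : e24 ≤ e27 := L2 l27
                              have k705 : e27 ≤ e19 := L3 l27 k495 k697
                              have k706 : e27 ≤ e20 := L3 l27 k431 k569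
                              have k712 : e12 ≤ e27 := le_trans k565 k702
                              have k738 : ¬ e15 ≤ e27 := N2 k401 k706
                              have k740 : ¬ e19 ≤ e27 := N1 k738 k363
                              have k743 : ¬ e27 ≤ e23 := N1 k567 k702
                              have k747 : e23 ≤ e27 := L3 l23 k701 k712
                              exact HL _ _ _ _ _ _ c8 c11 c23 c27 c19 c13 (LT k135 k155) (LT k561 k552) (LT k747 k743) (LT k705 k740) (LT k365 k374)
                          · obtain ⟨e21, l21⟩ := (h1 e20).resolve_right k425
                            have c21 : Core e0 e21 := CJ k425 l21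
                            have k428 : e0 ≤ e21 := L1 l21
                            have k429 : e20 ≤ e21 := L2 l21
                            have k437 : e12 ≤ e21 := le_trans k396 k429
                            have k459 : e13 ≤ e21 := L3 l13 k428 k437
                            have k464 : e21 ≤ e13 := Classical.byContradiction fun hn => HL _ _ _ _ _ _ c8 c11 c16 c19 c13 c21 (LT k135 k155) (LT k275 k285) (LT k393 k387) (LT k365 k374) (LT k459 hn)
                            have k466 : e20 ≤ e13 := le_trans k429 k464
                            obtain ⟨e22, l22⟩ := ZE h2 k400 k425 g15
                            have c22 : Core e0 e22 := CZ g15 k425 l22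
                            have k470 : e15 ≤ e22 := L1 l22
                            have k471 : e20 ≤ e22 := L2 l22
                            have k472 : e22 ≤ e13 := L3 l22 k246 k466
                            have k473 : e22 ≤ e14 := L3 l22 k233 k400
                            have k479 : e12 ≤ e22 := le_trans k396 k471
                            have k481 : ¬ e0 ≤ e22 := N2 k211 k473
                            have k485 : ¬ e13 ≤ e22 := N1 k481 k178
                            have k504 : ¬ e22 ≤ e19 := N1 k399 k471
                            have k507 : e19 ≤ e22 := L3 l19 k470 k479
                            exact HL _ _ _ _ _ _ c8 c11 c16 c19 c22 c13 (LT k135 k155) (LT k275 k285) (LT k393 k387) (LT k507 k504) (LT k472 k485)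
                        · have k318 : ¬ e8 ≤ e17 := BN3 g8 k317 k297
                          obtain ⟨e18, l18⟩ := (h1 e17).resolve_right k317
                          have c18 : Core e0 e18 := CJ k317 l18
                          have k323 : e0 ≤ e18 := L1 l18
                          have k324 : e17 ≤ e18 := L2 l18
                          have k330 : e12 ≤ e18 := le_trans k293 k324
                          have k349 : e13 ≤ e18 := L3 l13 k323 k330
                          have k353 : e18 ≤ e13 := Classical.byContradiction fun hn => HL _ _ _ _ _ _ c8 c11 c16 c6 c13 c18 (LT k135 k155) (LT k275 k285) (LT k277 k255) (LT k197 k198) (LT k349 hn)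
                          have k354 : e17 ≤ e13 := le_trans k324 k353
                          obtain ⟨e19, q19⟩ : ∃ y, f e15 = y := ⟨_, rfl⟩
                          have k357 : e9 ≤ e19 := MO hf q9 q19 k234
                          have k360 : e19 ≤ e1 := MO hf q19 q1 k232
                          have k362 : e19 ≤ e7 := MO hf q19 q7 k244
                          have k363 : e19 ≤ e14 := MO hf q19 q14 k246
                          have k364 : e19 ≤ e17 := MO hf q19 q17 k240
                          have k366 : e19 ≤ e2 := le_trans k360 k7
                          have k367 : e19 ≤ e13 := le_trans k364 k354
                          by_cases k384 : ∃ z, IsGLB ({e0, e19} : Set P) z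
                          · obtain ⟨e20, g20⟩ := k384
                            have c20 : Core e0 e20 := CM g20
                            have k387 : e20 ≤ e0 := G1 g20
                            have k388 : e20 ≤ e19 := G2 g20
                            have k396 : e20 ≤ e1 := le_trans k388 k360
                            have k398 : e20 ≤ e7 := le_trans k388 k362
                            have k413 : ¬ e8 ≤ e20 := N2 k73 k396
                            have k423 : e20 ≤ e8 := G3 g8 k387 k398
                            exact HL _ _ _ _ _ _ c20 c8 c15 c0 c6 c2 (LT k423 k413) (LT k234 k287) (LT k232 k248) (LT k43 k53) (LT k45 k54)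
                          · obtain ⟨e20, l20⟩ := (h1 e19).resolve_right k384
                            have c20 : Core e0 e20 := CJ k384 l20
                            have k387 : e0 ≤ e20 := L1 l20
                            have k388 : e19 ≤ e20 := L2 l20
                            have k389 : e20 ≤ e2 := L3 l20 k6 k366
                            have k390 : e20 ≤ e13 := L3 l20 k178 k367
                            have k395 : e15 ≤ e20 := le_trans k232 k387
                            have k396 : e9 ≤ e20 := le_trans k357 k388
                            have k408 : ¬ e20 ≤ e16 := N1 k249 k387
                            have k414 : e10 ≤ e20 := L3 l10 k387 k396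
                            have k416 : e16 ≤ e20 := L3 l16 k395 k396
                            have k418 : e6 ≤ e20 := le_trans k131 k414
                            by_cases k419 : e20 ≤ e6
                            · have k421 : e19 ≤ e6 := le_trans k388 k419
                              have k424 : ¬ e1 ≤ e20 := N2 k55 k419
                              have k425 : ¬ e2 ≤ e20 := N1 k424 k7
                              have k428 : ¬ e12 ≤ e20 := N2 k200 k419
                              have k430 : ¬ e13 ≤ e20 := N1 k428 k179
                              obtain ⟨e21, l21⟩ := ZE h2 k363 k384 g15
                              have c21 : Core e0 e21 := CZ g15 k384 l21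
                              have k435 : e15 ≤ e21 := L1 l21
                              have k436 : e19 ≤ e21 := L2 l21
                              have k438 : e21 ≤ e6 := L3 l21 k244 k421
                              have k441 : e21 ≤ e14 := L3 l21 k233 k363
                              have k445 : e9 ≤ e21 := le_trans k357 k436
                              have k446 : ¬ e0 ≤ e21 := N2 k211 k441
                              have k448 : ¬ e6 ≤ e21 := N1 k446 k43
                              have k473 : e16 ≤ e21 := L3 l16 k435 k445
                              have k474 : e21 ≤ e16 := Classical.byContradiction fun hn => HL _ _ _ _ _ _ c8 c11 c16 c21 c6 c2 (LT k135 k155) (LT k275 k285) (LT k473 hn) (LT k438 k448) (LT k45 k54)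
                              have k475 : e19 ≤ e16 := le_trans k436 k474
                              obtain ⟨e22, l22⟩ := ZE h2 k298 k317 g15
                              have c22 : Core e0 e22 := CZ g15 k317 l22
                              have k478 : e15 ≤ e22 := L1 l22
                              have k479 : e17 ≤ e22 := L2 l22
                              have k480 : e22 ≤ e13 := L3 l22 k246 k354
                              have k481 : e22 ≤ e14 := L3 l22 k233 k298
                              have k483 : e8 ≤ e22 := le_trans k234 k478
                              have k484 : e9 ≤ e22 := le_trans k292 k479
                              have k485 : e12 ≤ e22 := le_trans k293 k479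
                              have k487 : ¬ e0 ≤ e22 := N2 k211 k481
                              have k491 : ¬ e13 ≤ e22 := N1 k487 k178
                              have k507 : ¬ e22 ≤ e16 := N1 k284 k485
                              have k513 : e11 ≤ e22 := L3 l11 k483 k484
                              have k514 : e16 ≤ e22 := L3 l16 k478 k484
                              obtain ⟨e23, q23⟩ : ∃ y, f e22 = y := ⟨_, rfl⟩
                              have k518 : e12 ≤ e23 := MO hf q12 q23 k513
                              have k519 : e17 ≤ e23 := MO hf q17 q23 k514
                              have k521 : ¬ e22 ≤ e23 := FA hF q23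
                              have k522 : ¬ e23 ≤ e22 := FB hG q23
                              have k523 : e23 ≤ e14 := MO hf q23 q14 k480
                              have k524 : ¬ e15 ≤ e23 := L5 l22 k519 k521
                              by_cases k550 : ∃ z, IsGLB ({e0, e23} : Set P) z
                              · obtain ⟨e24, g24⟩ := k550
                                have c24 : Core e0 e24 := CM g24
                                have k553 : e24 ≤ e0 := G1 g24
                                have k554 : e24 ≤ e23 := G2 g24
                                have k561 : e24 ≤ e6 := le_trans k553 k43
                                have k563 : e24 ≤ e13 := le_trans k553 k178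
                                have k566 : e24 ≤ e14 := le_trans k554 k523
                                have k588 : ¬ e15 ≤ e24 := N2 k524 k554
                                have k589 : e24 ≤ e15 := G3 g15 k553 k566
                                have k590 : e24 ≤ e16 := le_trans k589 k240
                                have k592 : e24 ≤ e22 := le_trans k589 k478
                                obtain ⟨e25, q25⟩ : ∃ y, f e24 = y := ⟨_, rfl⟩
                                have k595 : ¬ e25 ≤ e24 := FB hG q25
                                have k596 : e25 ≤ e1 := MO hf q25 q1 k553
                                have k598 : e25 ≤ e7 := MO hf q25 q7 k561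
                                have k599 : e25 ≤ e14 := MO hf q25 q14 k563
                                have k600 : e25 ≤ e17 := MO hf q25 q17 k590
                                have k601 : e25 ≤ e19 := MO hf q25 q19 k589
                                have k602 : e25 ≤ e23 := MO hf q25 q23 k592
                                have k603 : ¬ e25 ≤ e0 := G5 g24 k602 k595
                                have k605 : e25 ≤ e13 := le_trans k600 k354
                                have k607 : e25 ≤ e22 := le_trans k600 k479
                                have k608 : e25 ≤ e6 := le_trans k601 k421
                                have k610 : e25 ≤ e16 := le_trans k601 k475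
                                have k636 : ¬ e25 ≤ e15 := N2 k603 k232
                                by_cases k637 : ∃ z, IsGLB ({e0, e25} : Set P) z
                                · obtain ⟨e26, g26⟩ := k637
                                  have c26 : Core e0 e26 := CM g26
                                  have k640 : e26 ≤ e0 := G1 g26
                                  have k641 : e26 ≤ e25 := G2 g26
                                  have k649 : e26 ≤ e1 := le_trans k641 k596
                                  have k651 : e26 ≤ e7 := le_trans k641 k598
                                  have k672 : ¬ e8 ≤ e26 := N2 k73 k649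
                                  have k686 : e26 ≤ e8 := G3 g8 k640 k651
                                  exact HL _ _ _ _ _ _ c26 c8 c15 c0 c6 c2 (LT k686 k672) (LT k234 k287) (LT k232 k248) (LT k43 k53) (LT k45 k54)
                                · obtain ⟨e26, l26⟩ := ZE h2 k599 k637 g15
                                  have c26 : Core e0 e26 := CZ g15 k637 l26
                                  have k640 : e15 ≤ e26 := L1 l26
                                  have k641 : e25 ≤ e26 := L2 l26
                                  have k647 : e26 ≤ e16 := L3 l26 k240 k610
                                  have k683 : ¬ e26 ≤ e15 := N1 k636 k641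
                                  have k685 : e16 ≤ e26 := Classical.byContradiction fun hn => HL _ _ _ _ _ _ c8 c15 c26 c16 c6 c2 (LT k234 k287) (LT k640 k683) (LT k647 hn) (LT k277 k255) (LT k45 k54)
                                  obtain ⟨e27, l27⟩ := ZE h2 k602 k637 g24
                                  have c27 : Core e0 e27 := CZ g24 k637 l27
                                  have k692 : e24 ≤ e27 := L1 l27
                                  have k693 : e25 ≤ e27 := L2 l27
                                  have k695 : e27 ≤ e6 := L3 l27 k561 k608
                                  have k697 : e27 ≤ e13 := L3 l27 k563 k605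
                                  have k699 : e27 ≤ e16 := L3 l27 k590 k610
                                  have k703 : e27 ≤ e22 := L3 l27 k592 k607
                                  have k734 : ¬ e27 ≤ e24 := N1 k595 k693
                                  obtain ⟨e28, q28⟩ : ∃ y, f e27 = y := ⟨_, rfl⟩
                                  have k737 : e25 ≤ e28 := MO hf q25 q28 k692
                                  have k739 : ¬ e28 ≤ e27 := FB hG q28
                                  have k741 : e28 ≤ e7 := MO hf q28 q7 k695
                                  have k742 : e28 ≤ e14 := MO hf q28 q14 k697
                                  have k743 : e28 ≤ e17 := MO hf q28 q17 k699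
                                  have k744 : e28 ≤ e23 := MO hf q28 q23 k703
                                  have k746 : e28 ≤ e13 := le_trans k743 k354
                                  have k748 : e28 ≤ e22 := le_trans k743 k479
                                  by_cases k774 : ∃ z, IsGLB ({e0, e28} : Set P) z
                                  · obtain ⟨e29, g29⟩ := k774
                                    have c29 : Core e0 e29 := CM g29
                                    have k777 : e29 ≤ e0 := G1 g29
                                    have k778 : e29 ≤ e28 := G2 g29
                                    have k788 : e29 ≤ e7 := le_trans k778 k741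
                                    have k790 : e29 ≤ e17 := le_trans k778 k743
                                    have k806 : ¬ e8 ≤ e29 := N2 k318 k790
                                    have k823 : e29 ≤ e8 := G3 g8 k777 k788
                                    exact HL _ _ _ _ _ _ c29 c8 c15 c0 c6 c2 (LT k823 k806) (LT k234 k287) (LT k232 k248) (LT k43 k53) (LT k45 k54)
                                  · obtain ⟨e29, l29⟩ := ZE h2 k742 k774 g15
                                    have c29 : Core e0 e29 := CZ g15 k774 l29
                                    have k777 : e15 ≤ e29 := L1 l29
                                    have k778 : e28 ≤ e29 := L2 l29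
                                    have k782 : e29 ≤ e22 := L3 l29 k478 k748
                                    have k785 : e25 ≤ e29 := le_trans k737 k778
                                    have k813 : e26 ≤ e29 := L3 l26 k777 k785
                                    have k817 : e16 ≤ e29 := le_trans k685 k813
                                    by_cases k820 : e29 ≤ e16
                                    · have k830 : e28 ≤ e16 := le_trans k778 k820
                                      obtain ⟨e30, l30⟩ := ZE h2 k744 k774 g24
                                      have c30 : Core e0 e30 := CZ g24 k774 l30
                                      have k846 : e24 ≤ e30 := L1 l30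
                                      have k847 : e28 ≤ e30 := L2 l30
                                      have k853 : e30 ≤ e16 := L3 l30 k590 k830
                                      have k858 : e30 ≤ e23 := L3 l30 k554 k744
                                      have k861 : e25 ≤ e30 := le_trans k737 k847
                                      have k877 : ¬ e15 ≤ e30 := N2 k524 k858
                                      have k878 : ¬ e16 ≤ e30 := N1 k877 k240
                                      have k893 : ¬ e30 ≤ e27 := N1 k739 k847
                                      have k895 : e27 ≤ e30 := L3 l27 k846 k861
                                      exact HL _ _ _ _ _ _ c24 c27 c30 c16 c20 c2 (LT k692 k734) (LT k895 k893) (LT k853 k878) (LT k416 k408) (LT k389 k425)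
                                    · have k829 : e22 ≤ e29 := Classical.byContradiction fun hn => HL _ _ _ _ _ _ c8 c11 c16 c29 c22 c13 (LT k135 k155) (LT k275 k285) (LT k817 k820) (LT k782 hn) (LT k480 k491)
                                      have k830 : e12 ≤ e29 := le_trans k485 k829
                                      obtain ⟨e30, l30⟩ := ZE h2 k744 k774 g24
                                      have c30 : Core e0 e30 := CZ g24 k774 l30
                                      have k841 : e24 ≤ e30 := L1 l30
                                      have k842 : e28 ≤ e30 := L2 l30
                                      have k843 : e30 ≤ e13 := L3 l30 k563 k746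
                                      have k846 : e30 ≤ e22 := L3 l30 k592 k748
                                      have k849 : e25 ≤ e30 := le_trans k737 k842
                                      have k884 : ¬ e30 ≤ e27 := N1 k739 k842
                                      have k886 : e27 ≤ e30 := L3 l27 k841 k849
                                      obtain ⟨e31, q31⟩ : ∃ y, f e30 = y := ⟨_, rfl⟩
                                      have k889 : e28 ≤ e31 := MO hf q28 q31 k886
                                      have k890 : ¬ e30 ≤ e31 := FA hF q31
                                      have k891 : ¬ e31 ≤ e30 := FB hG q31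
                                      have k892 : e31 ≤ e14 := MO hf q31 q14 k843
                                      have k893 : e31 ≤ e23 := MO hf q31 q23 k846
                                      have k894 : ¬ e24 ≤ e31 := L5 l30 k889 k890
                                      by_cases k929 : ∃ z, IsGLB ({e0, e31} : Set P) z
                                      · obtain ⟨e32, g32⟩ := k929
                                        have c32 : Core e0 e32 := CM g32
                                        have k932 : e32 ≤ e0 := G1 g32
                                        have k933 : e32 ≤ e31 := G2 g32
                                        have k944 : e32 ≤ e23 := le_trans k933 k893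
                                        have k969 : ¬ e24 ≤ e32 := N2 k894 k933
                                        have k976 : e32 ≤ e24 := G3 g24 k932 k944
                                        exact HL _ _ _ _ _ _ c32 c24 c15 c0 c6 c2 (LT k976 k969) (LT k589 k588) (LT k232 k248) (LT k43 k53) (LT k45 k54)
                                      · obtain ⟨e32, l32⟩ := (h1 e31).resolve_right k929
                                        have c32 : Core e0 e32 := CJ k929 l32
                                        have k932 : e0 ≤ e32 := L1 l32
                                        have k933 : e31 ≤ e32 := L2 l32
                                        have k937 : e15 ≤ e32 := le_trans k232 k932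
                                        have k940 : e28 ≤ e32 := le_trans k889 k933
                                        have k972 : e29 ≤ e32 := L3 l29 k937 k940
                                        have k979 : e12 ≤ e32 := le_trans k830 k972
                                        have k983 : e13 ≤ e32 := L3 l13 k932 k979
                                        have k988 : e32 ≤ e13 := Classical.byContradiction fun hn => HL _ _ _ _ _ _ c8 c11 c16 c20 c13 c32 (LT k135 k155) (LT k275 k285) (LT k416 k408) (LT k390 k430) (LT k983 hn)
                                        have k990 : e31 ≤ e13 := le_trans k933 k988
                                        obtain ⟨e33, l33⟩ := ZE h2 k892 k929 g15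
                                        have c33 : Core e0 e33 := CZ g15 k929 l33
                                        have k995 : e15 ≤ e33 := L1 l33
                                        have k996 : e31 ≤ e33 := L2 l33
                                        have k997 : e33 ≤ e13 := L3 l33 k246 k990
                                        have k998 : e33 ≤ e14 := L3 l33 k233 k892
                                        have k1004 : e28 ≤ e33 := le_trans k889 k996
                                        have k1005 : ¬ e0 ≤ e33 := N2 k211 k998
                                        have k1009 : ¬ e13 ≤ e33 := N1 k1005 k178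
                                        have k1042 : e29 ≤ e33 := L3 l29 k995 k1004
                                        have k1051 : e22 ≤ e33 := le_trans k829 k1042
                                        have k1052 : e33 ≤ e22 := Classical.byContradiction fun hn => HL _ _ _ _ _ _ c8 c11 c16 c22 c33 c13 (LT k135 k155) (LT k275 k285) (LT k514 k507) (LT k1051 hn) (LT k997 k1009)
                                        have k1054 : e31 ≤ e22 := le_trans k996 k1052
                                        obtain ⟨e34, l34⟩ := ZE h2 k893 k929 g24
                                        have c34 : Core e0 e34 := CZ g24 k929 l34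
                                        have k1059 : e24 ≤ e34 := L1 l34
                                        have k1060 : e31 ≤ e34 := L2 l34
                                        have k1064 : e34 ≤ e22 := L3 l34 k592 k1054
                                        have k1065 : e34 ≤ e23 := L3 l34 k554 k893
                                        have k1070 : e28 ≤ e34 := le_trans k889 k1060
                                        have k1080 : ¬ e15 ≤ e34 := N2 k524 k1065
                                        have k1083 : ¬ e22 ≤ e34 := N1 k1080 k478
                                        have k1109 : ¬ e34 ≤ e30 := N1 k891 k1060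
                                        have k1112 : e30 ≤ e34 := L3 l30 k1059 k1070
                                        exact HL _ _ _ _ _ _ c24 c27 c30 c34 c22 c13 (LT k692 k734) (LT k886 k884) (LT k1112 k1109) (LT k1064 k1083) (LT k480 k491)
                              · obtain ⟨e24, l24⟩ := (h1 e23).resolve_right k550
                                have c24 : Core e0 e24 := CJ k550 l24
                                have k553 : e0 ≤ e24 := L1 l24
                                have k554 : e23 ≤ e24 := L2 l24
                                have k560 : e12 ≤ e24 := le_trans k518 k554
                                have k586 : e13 ≤ e24 := L3 l13 k553 k560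
                                have k594 : e24 ≤ e13 := Classical.byContradiction fun hn => HL _ _ _ _ _ _ c8 c11 c16 c20 c13 c24 (LT k135 k155) (LT k275 k285) (LT k416 k408) (LT k390 k430) (LT k586 hn)
                                have k596 : e23 ≤ e13 := le_trans k554 k594
                                obtain ⟨e25, l25⟩ := ZE h2 k523 k550 g15
                                have c25 : Core e0 e25 := CZ g15 k550 l25
                                have k601 : e15 ≤ e25 := L1 l25
                                have k602 : e23 ≤ e25 := L2 l25
                                have k603 : e25 ≤ e13 := L3 l25 k246 k596
                                have k604 : e25 ≤ e14 := L3 l25 k233 k523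
                                have k610 : e17 ≤ e25 := le_trans k519 k602
                                have k612 : ¬ e0 ≤ e25 := N2 k211 k604
                                have k616 : ¬ e13 ≤ e25 := N1 k612 k178
                                have k639 : ¬ e25 ≤ e22 := N1 k522 k602
                                have k644 : e22 ≤ e25 := L3 l22 k601 k610
                                exact HL _ _ _ _ _ _ c8 c11 c16 c22 c25 c13 (LT k135 k155) (LT k275 k285) (LT k514 k507) (LT k644 k639) (LT k603 k616)
                            · have k421 : ¬ e19 ≤ e6 := L4 l20 k43 k419
                              have k423 : ¬ e19 ≤ e5 := N2 k421 k44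
                              have k427 : ¬ e15 ≤ e4 := NM hf q19 q5 k423
                              have k428 : ¬ e15 ≤ e3 := G4 g4 k232 k427
                              have k429 : ¬ e14 ≤ e3 := N1 k428 k233
                              have k431 : ¬ e13 ≤ e2 := NM hf q14 q3 k429
                              have k432 : ¬ e12 ≤ e2 := L4 l13 k6 k431
                              have k439 : ¬ e12 ≤ e20 := N2 k432 k389
                              have k442 : ¬ e13 ≤ e20 := N1 k439 k179
                              exact HL _ _ _ _ _ _ c8 c15 c0 c6 c20 c13 (LT k234 k287) (LT k232 k248) (LT k43 k53) (LT k418 k419) (LT k390 k442)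
                    · obtain ⟨e15, l15⟩ := (h1 e14).resolve_right k227
                      have c15 : Core e0 e15 := CJ k227 l15
                      have k230 : e0 ≤ e15 := L1 l15
                      have k231 : e14 ≤ e15 := L2 l15
                      have k240 : e12 ≤ e15 := le_trans k208 k231
                      have k254 : ¬ e15 ≤ e13 := N1 k210 k231
                      have k258 : e13 ≤ e15 := L3 l13 k230 k240
                      exact HL _ _ _ _ _ _ c8 c4 c0 c6 c13 c15 (LT k87 k88) (LT k21 k26) (LT k43 k53) (LT k197 k198) (LT k258 k254)
          · have k69 : ¬ e4 ≤ e7 := BN3 g4 k68 k62
            obtain ⟨e8, l8⟩ := (h1 e7).resolve_right k68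
            have c8 : Core e0 e8 := CJ k68 l8
            have k73 : e0 ≤ e8 := L1 l8
            have k74 : e7 ≤ e8 := L2 l8
            have k76 : e4 ≤ e8 := le_trans k21 k73
            have k77 : e1 ≤ e8 := le_trans k58 k74
            have k78 : e5 ≤ e8 := le_trans k59 k74
            have k86 : e2 ≤ e8 := L3 l2 k73 k77
            have k87 : e6 ≤ e8 := L3 l6 k73 k78
            by_cases k88 : e8 ≤ e2
            · have k89 : e7 ≤ e2 := le_trans k74 k88
              obtain ⟨e9, l9⟩ := ZE h2 k34 k40 g4
              have c9 : Core e0 e9 := CZ g4 k40 l9
              have k93 : e4 ≤ e9 := L1 l9
              have k94 : e5 ≤ e9 := L2 l9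
              have k95 : e9 ≤ e2 := L3 l9 k25 k36
              have k96 : e9 ≤ e3 := L3 l9 k22 k34
              have k97 : e9 ≤ e6 := L3 l9 k47 k44
              have k99 : ¬ e0 ≤ e9 := N2 k15 k96
              have k101 : ¬ e6 ≤ e9 := N1 k99 k43
              have k110 : ¬ e9 ≤ e4 := N1 k32 k94
              obtain ⟨e10, q10⟩ : ∃ y, f e9 = y := ⟨_, rfl⟩
              have k113 : e5 ≤ e10 := MO hf q5 q10 k93
              have k115 : ¬ e10 ≤ e9 := FB hG q10
              have k116 : e10 ≤ e3 := MO hf q10 q3 k95
              have k117 : e10 ≤ e7 := MO hf q10 q7 k97
              have k119 : e10 ≤ e2 := le_trans k117 k89
              by_cases k129 : ∃ z, IsGLB ({e0, e10} : Set P) z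
              · obtain ⟨e11, g11⟩ := k129
                have c11 : Core e0 e11 := CM g11
                have k132 : e11 ≤ e0 := G1 g11
                have k133 : e11 ≤ e10 := G2 g11
                have k134 : ¬ e11 ≤ e5 := BN3 g11 k40 k113
                have k136 : e11 ≤ e2 := le_trans k132 k6
                have k137 : e11 ≤ e6 := le_trans k132 k43
                have k139 : e11 ≤ e3 := le_trans k133 k116
                have k140 : e11 ≤ e7 := le_trans k133 k117
                have k148 : ¬ e4 ≤ e11 := N2 k69 k140
                have k152 : e11 ≤ e4 := G3 g4 k132 k139
                have k153 : e11 ≤ e9 := le_trans k152 k93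
                obtain ⟨e12, q12⟩ : ∃ y, f e11 = y := ⟨_, rfl⟩
                have k156 : ¬ e12 ≤ e11 := FB hG q12
                have k157 : e12 ≤ e1 := MO hf q12 q1 k132
                have k158 : e12 ≤ e3 := MO hf q12 q3 k136
                have k159 : e12 ≤ e5 := MO hf q12 q5 k152
                have k160 : e12 ≤ e7 := MO hf q12 q7 k137
                have k161 : e12 ≤ e10 := MO hf q12 q10 k153
                have k162 : ¬ e12 ≤ e0 := G5 g11 k161 k156
                have k163 : e12 ≤ e2 := le_trans k157 k7
                have k165 : e12 ≤ e6 := le_trans k159 k44
                have k166 : e12 ≤ e9 := le_trans k159 k94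
                have k177 : ¬ e12 ≤ e4 := N2 k162 k21
                by_cases k178 : ∃ z, IsGLB ({e0, e12} : Set P) z
                · obtain ⟨e13, g13⟩ := k178
                  have c13 : Core e0 e13 := CM g13
                  have k181 : e13 ≤ e0 := G1 g13
                  have k182 : e13 ≤ e12 := G2 g13
                  have k189 : e13 ≤ e5 := le_trans k182 k159
                  have k192 : e13 ≤ e10 := le_trans k182 k161
                  have k204 : ¬ e11 ≤ e13 := N2 k134 k189
                  have k207 : e13 ≤ e11 := G3 g11 k181 k192
                  exact HL _ _ _ _ _ _ c13 c11 c4 c0 c6 c2 (LT k207 k204) (LT k152 k148) (LT k21 k26) (LT k43 k53) (LT k45 k54)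
                · obtain ⟨e13, l13⟩ := ZE h2 k158 k178 g4
                  have c13 : Core e0 e13 := CZ g4 k178 l13
                  have k181 : e4 ≤ e13 := L1 l13
                  have k182 : e12 ≤ e13 := L2 l13
                  have k187 : e13 ≤ e9 := L3 l13 k93 k166
                  have k204 : ¬ e13 ≤ e4 := N1 k177 k182
                  have k206 : e9 ≤ e13 := Classical.byContradiction fun hn => HL _ _ _ _ _ _ c11 c4 c13 c9 c6 c2 (LT k152 k148) (LT k181 k204) (LT k187 hn) (LT k97 k101) (LT k45 k54)
                  have k207 : e5 ≤ e13 := le_trans k94 k206
                  obtain ⟨e14, l14⟩ := ZE h2 k161 k178 g11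
                  have c14 : Core e0 e14 := CZ g11 k178 l14
                  have k210 : e11 ≤ e14 := L1 l14
                  have k211 : e12 ≤ e14 := L2 l14
                  have k212 : e14 ≤ e2 := L3 l14 k136 k163
                  have k214 : e14 ≤ e6 := L3 l14 k137 k165
                  have k215 : e14 ≤ e7 := L3 l14 k140 k160
                  have k217 : e14 ≤ e9 := L3 l14 k153 k166
                  have k227 : ¬ e4 ≤ e14 := N2 k69 k215
                  have k228 : ¬ e9 ≤ e14 := N1 k227 k93
                  have k235 : ¬ e14 ≤ e11 := N1 k156 k211
                  obtain ⟨e15, q15⟩ : ∃ y, f e14 = y := ⟨_, rfl⟩
                  have k238 : e12 ≤ e15 := MO hf q12 q15 k210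
                  have k239 : ¬ e14 ≤ e15 := FA hF q15
                  have k240 : ¬ e15 ≤ e14 := FB hG q15
                  have k241 : e15 ≤ e3 := MO hf q15 q3 k212
                  have k242 : e15 ≤ e7 := MO hf q15 q7 k214
                  have k243 : e15 ≤ e10 := MO hf q15 q10 k217
                  have k244 : ¬ e11 ≤ e15 := L5 l14 k238 k239
                  have k245 : e15 ≤ e2 := le_trans k242 k89
                  by_cases k261 : ∃ z, IsGLB ({e0, e15} : Set P) z
                  · obtain ⟨e16, g16⟩ := k261
                    have c16 : Core e0 e16 := CM g16
                    have k264 : e16 ≤ e0 := G1 g16
                    have k265 : e16 ≤ e15 := G2 g16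
                    have k273 : e16 ≤ e10 := le_trans k265 k243
                    have k286 : ¬ e11 ≤ e16 := N2 k244 k265
                    have k291 : e16 ≤ e11 := G3 g11 k264 k273
                    exact HL _ _ _ _ _ _ c16 c11 c4 c0 c6 c2 (LT k291 k286) (LT k152 k148) (LT k21 k26) (LT k43 k53) (LT k45 k54)
                  · obtain ⟨e16, l16⟩ := (h1 e15).resolve_right k261
                    have c16 : Core e0 e16 := CJ k261 l16
                    have k264 : e0 ≤ e16 := L1 l16
                    have k265 : e15 ≤ e16 := L2 l16
                    have k266 : e16 ≤ e2 := L3 l16 k6 k245
                    have k269 : e4 ≤ e16 := le_trans k21 k264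
                    have k271 : e12 ≤ e16 := le_trans k238 k265
                    have k277 : ¬ e16 ≤ e9 := N1 k99 k264
                    have k286 : e13 ≤ e16 := L3 l13 k269 k271
                    have k288 : e5 ≤ e16 := le_trans k207 k286
                    have k289 : e9 ≤ e16 := le_trans k206 k286
                    have k290 : e6 ≤ e16 := L3 l6 k264 k288
                    by_cases k291 : e16 ≤ e6
                    · have k292 : e15 ≤ e6 := le_trans k265 k291
                      have k294 : ¬ e1 ≤ e16 := N2 k55 k291
                      have k295 : ¬ e2 ≤ e16 := N1 k294 k7
                      obtain ⟨e17, l17⟩ := ZE h2 k241 k261 g4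
                      have c17 : Core e0 e17 := CZ g4 k261 l17
                      have k300 : e4 ≤ e17 := L1 l17
                      have k301 : e15 ≤ e17 := L2 l17
                      have k303 : e17 ≤ e3 := L3 l17 k22 k241
                      have k304 : e17 ≤ e6 := L3 l17 k47 k292
                      have k308 : e12 ≤ e17 := le_trans k238 k301
                      have k309 : ¬ e0 ≤ e17 := N2 k15 k303
                      have k311 : ¬ e6 ≤ e17 := N1 k309 k43
                      have k328 : e13 ≤ e17 := L3 l13 k300 k308
                      have k331 : e9 ≤ e17 := le_trans k206 k328
                      have k332 : e17 ≤ e9 := Classical.byContradiction fun hn => HL _ _ _ _ _ _ c11 c14 c9 c17 c6 c2 (LT k210 k235) (LT k217 k228) (LT k331 hn) (LT k304 k311) (LT k45 k54)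
                      have k334 : e15 ≤ e9 := le_trans k301 k332
                      obtain ⟨e18, l18⟩ := ZE h2 k243 k261 g11
                      have c18 : Core e0 e18 := CZ g11 k261 l18
                      have k339 : e11 ≤ e18 := L1 l18
                      have k340 : e15 ≤ e18 := L2 l18
                      have k344 : e18 ≤ e7 := L3 l18 k140 k242
                      have k346 : e18 ≤ e9 := L3 l18 k153 k334
                      have k351 : e12 ≤ e18 := le_trans k238 k340
                      have k360 : ¬ e4 ≤ e18 := N2 k69 k344
                      have k361 : ¬ e9 ≤ e18 := N1 k360 k93
                      have k371 : ¬ e18 ≤ e14 := N1 k240 k340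
                      have k373 : e14 ≤ e18 := L3 l14 k339 k351
                      exact HL _ _ _ _ _ _ c11 c14 c18 c9 c16 c2 (LT k210 k235) (LT k373 k371) (LT k346 k361) (LT k289 k277) (LT k266 k295)
                    · have k292 : ¬ e15 ≤ e6 := L4 l16 k43 k291
                      have k295 : ¬ e15 ≤ e9 := N2 k292 k97
                      have k297 : e2 ≤ e16 := Classical.byContradiction fun hn => HL _ _ _ _ _ _ c11 c14 c9 c6 c16 c2 (LT k210 k235) (LT k217 k228) (LT k97 k101) (LT k290 k291) (LT k266 hn)
                      obtain ⟨e17, l17⟩ := ZE h2 k241 k261 g4
                      have c17 : Core e0 e17 := CZ g4 k261 l17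
                      have k304 : e4 ≤ e17 := L1 l17
                      have k305 : e15 ≤ e17 := L2 l17
                      have k306 : e17 ≤ e2 := L3 l17 k25 k245
                      have k307 : e17 ≤ e3 := L3 l17 k22 k241
                      have k310 : e11 ≤ e17 := le_trans k152 k304
                      have k311 : e12 ≤ e17 := le_trans k238 k305
                      have k312 : ¬ e0 ≤ e17 := N2 k15 k307
                      have k313 : ¬ e2 ≤ e17 := N1 k312 k6
                      have k329 : ¬ e17 ≤ e9 := N1 k295 k305
                      have k332 : e13 ≤ e17 := L3 l13 k304 k311
                      have k333 : e14 ≤ e17 := L3 l14 k310 k311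
                      have k335 : e9 ≤ e17 := le_trans k206 k332
                      obtain ⟨e18, q18⟩ : ∃ y, f e17 = y := ⟨_, rfl⟩
                      have k338 : e10 ≤ e18 := MO hf q10 q18 k335
                      have k339 : e12 ≤ e18 := MO hf q12 q18 k310
                      have k340 : e15 ≤ e18 := MO hf q15 q18 k333
                      have k341 : ¬ e17 ≤ e18 := FA hF q18
                      have k342 : ¬ e18 ≤ e17 := FB hG q18
                      have k343 : e18 ≤ e3 := MO hf q18 q3 k306
                      have k344 : ¬ e4 ≤ e18 := L5 l17 k340 k341
                      have k345 : e11 ≤ e18 := le_trans k133 k338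
                      by_cases k365 : ∃ z, IsGLB ({e0, e18} : Set P) z
                      · obtain ⟨e19, g19⟩ := k365
                        have c19 : Core e0 e19 := CM g19
                        obtain ⟨e20, l20⟩ := ZE h2 k339 k178 g19
                        have c20 : Core e0 e20 := CZ g19 k178 l20
                        have k370 : e19 ≤ e0 := G1 g19
                        have k371 : e19 ≤ e18 := G2 g19
                        have k372 : e11 ≤ e19 := G3 g19 k132 k345
                        have k380 : e19 ≤ e2 := le_trans k370 k6
                        have k384 : e19 ≤ e3 := le_trans k371 k343
                        have k401 : ¬ e4 ≤ e19 := N2 k344 k371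
                        have k422 : e19 ≤ e4 := G3 g4 k370 k384
                        have k431 : e19 ≤ e17 := le_trans k422 k304
                        have k440 : e19 ≤ e11 := Classical.byContradiction fun hn => HL _ _ _ _ _ _ c11 c19 c4 c0 c6 c2 (LT k372 hn) (LT k422 k401) (LT k21 k26) (LT k43 k53) (LT k45 k54)
                        have k441 : e19 ≤ e7 := le_trans k440 k140
                        obtain ⟨e21, l21⟩ := ZE h2 k340 k261 g19
                        have c21 : Core e0 e21 := CZ g19 k261 l21
                        have k449 : e19 ≤ e21 := L1 l21
                        have k450 : e15 ≤ e21 := L2 l21
                        have k451 : e21 ≤ e2 := L3 l21 k380 k245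
                        have k453 : e21 ≤ e7 := L3 l21 k441 k242
                        have k457 : e21 ≤ e17 := L3 l21 k431 k305
                        have k459 : e12 ≤ e21 := le_trans k238 k450
                        have k460 : e11 ≤ e21 := le_trans k372 k449
                        have k467 : ¬ e4 ≤ e21 := N2 k69 k453
                        have k470 : ¬ e17 ≤ e21 := N1 k467 k304
                        have k481 : ¬ e21 ≤ e14 := N1 k240 k450
                        have k485 : e14 ≤ e21 := L3 l14 k460 k459
                        obtain ⟨e22, q22⟩ : ∃ y, f e21 = y := ⟨_, rfl⟩
                        have k489 : e15 ≤ e22 := MO hf q15 q22 k485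
                        have k490 : ¬ e21 ≤ e22 := FA hF q22
                        have k491 : ¬ e22 ≤ e21 := FB hG q22
                        have k492 : e22 ≤ e3 := MO hf q22 q3 k451
                        have k493 : e22 ≤ e18 := MO hf q22 q18 k457
                        have k494 : ¬ e19 ≤ e22 := L5 l21 k489 k490
                        have k518 : ¬ e11 ≤ e22 := N1 k494 k440
                        by_cases k523 : ∃ z, IsGLB ({e0, e22} : Set P) z
                        · obtain ⟨e23, g23⟩ := k523
                          have c23 : Core e0 e23 := CM g23
                          have k526 : e23 ≤ e0 := G1 g23
                          have k527 : e23 ≤ e22 := G2 g23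
                          have k536 : e23 ≤ e18 := le_trans k527 k493
                          have k552 : ¬ e11 ≤ e23 := N2 k518 k527
                          have k554 : ¬ e19 ≤ e23 := N1 k552 k372
                          have k561 : e23 ≤ e19 := G3 g19 k526 k536
                          exact HL _ _ _ _ _ _ c23 c19 c4 c0 c6 c2 (LT k561 k554) (LT k422 k401) (LT k21 k26) (LT k43 k53) (LT k45 k54)
                        · obtain ⟨e23, l23⟩ := (h1 e22).resolve_right k523
                          have c23 : Core e0 e23 := CJ k523 l23
                          have k526 : e0 ≤ e23 := L1 l23
                          have k527 : e22 ≤ e23 := L2 l23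
                          have k533 : e15 ≤ e23 := le_trans k489 k527
                          have k556 : e16 ≤ e23 := L3 l16 k526 k533
                          have k563 : e2 ≤ e23 := le_trans k297 k556
                          have k568 : e23 ≤ e2 := Classical.byContradiction fun hn => HL _ _ _ _ _ _ c11 c14 c21 c17 c2 c23 (LT k210 k235) (LT k485 k481) (LT k457 k470) (LT k306 k313) (LT k563 hn)
                          have k571 : e22 ≤ e2 := le_trans k527 k568
                          obtain ⟨e24, l24⟩ := ZE h2 k492 k523 g4
                          have c24 : Core e0 e24 := CZ g4 k523 l24
                          have k577 : e4 ≤ e24 := L1 l24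
                          have k578 : e22 ≤ e24 := L2 l24
                          have k579 : e24 ≤ e2 := L3 l24 k25 k571
                          have k580 : e24 ≤ e3 := L3 l24 k22 k492
                          have k587 : e15 ≤ e24 := le_trans k489 k578
                          have k588 : ¬ e0 ≤ e24 := N2 k15 k580
                          have k589 : ¬ e2 ≤ e24 := N1 k588 k6
                          have k616 : e17 ≤ e24 := L3 l17 k577 k587
                          have k621 : e24 ≤ e17 := Classical.byContradiction fun hn => HL _ _ _ _ _ _ c11 c14 c21 c17 c24 c2 (LT k210 k235) (LT k485 k481) (LT k457 k470) (LT k616 hn) (LT k579 k589)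
                          have k622 : e22 ≤ e17 := le_trans k578 k621
                          obtain ⟨e25, l25⟩ := ZE h2 k493 k523 g19
                          have c25 : Core e0 e25 := CZ g19 k523 l25
                          have k626 : e19 ≤ e25 := L1 l25
                          have k627 : e22 ≤ e25 := L2 l25
                          have k632 : e25 ≤ e17 := L3 l25 k431 k622
                          have k633 : e25 ≤ e18 := L3 l25 k371 k493
                          have k638 : e15 ≤ e25 := le_trans k489 k627
                          have k646 : ¬ e4 ≤ e25 := N2 k344 k633
                          have k649 : ¬ e17 ≤ e25 := N1 k646 k304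
                          have k665 : ¬ e25 ≤ e21 := N1 k491 k627
                          have k669 : e21 ≤ e25 := L3 l21 k626 k638
                          exact HL _ _ _ _ _ _ c11 c14 c21 c25 c17 c2 (LT k210 k235) (LT k485 k481) (LT k669 k665) (LT k632 k649) (LT k306 k313)
                      · obtain ⟨e19, l19⟩ := (h1 e18).resolve_right k365
                        have c19 : Core e0 e19 := CJ k365 l19
                        have k368 : e0 ≤ e19 := L1 l19
                        have k369 : e18 ≤ e19 := L2 l19
                        have k377 : e15 ≤ e19 := le_trans k340 k369
                        have k397 : e16 ≤ e19 := L3 l16 k368 k377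
                        have k400 : e2 ≤ e19 := le_trans k297 k397
                        have k403 : e19 ≤ e2 := Classical.byContradiction fun hn => HL _ _ _ _ _ _ c11 c14 c9 c17 c2 c19 (LT k210 k235) (LT k217 k228) (LT k335 k329) (LT k306 k313) (LT k400 hn)
                        have k406 : e18 ≤ e2 := le_trans k369 k403
                        obtain ⟨e20, l20⟩ := ZE h2 k343 k365 g4
                        have c20 : Core e0 e20 := CZ g4 k365 l20
                        have k412 : e4 ≤ e20 := L1 l20
                        have k413 : e18 ≤ e20 := L2 l20
                        have k414 : e20 ≤ e2 := L3 l20 k25 k406
                        have k415 : e20 ≤ e3 := L3 l20 k22 k343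
                        have k424 : e15 ≤ e20 := le_trans k340 k413
                        have k425 : ¬ e0 ≤ e20 := N2 k15 k415
                        have k426 : ¬ e2 ≤ e20 := N1 k425 k6
                        have k446 : ¬ e20 ≤ e17 := N1 k342 k413
                        have k450 : e17 ≤ e20 := L3 l17 k412 k424
                        exact HL _ _ _ _ _ _ c11 c14 c9 c17 c20 c2 (LT k210 k235) (LT k217 k228) (LT k335 k329) (LT k450 k446) (LT k414 k426)
              · obtain ⟨e11, l11⟩ := (h1 e10).resolve_right k129
                have c11 : Core e0 e11 := CJ k129 l11
                have k132 : e0 ≤ e11 := L1 l11
                have k133 : e10 ≤ e11 := L2 l11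
                have k134 : e11 ≤ e2 := L3 l11 k6 k119
                have k137 : e4 ≤ e11 := le_trans k21 k132
                have k138 : e5 ≤ e11 := le_trans k113 k133
                have k148 : e6 ≤ e11 := L3 l6 k132 k138
                have k149 : e9 ≤ e11 := L3 l9 k137 k138
                by_cases k150 : e11 ≤ e6
                · have k151 : e10 ≤ e6 := le_trans k133 k150
                  obtain ⟨e12, l12⟩ := ZE h2 k116 k129 g4
                  have c12 : Core e0 e12 := CZ g4 k129 l12
                  have k160 : e4 ≤ e12 := L1 l12
                  have k161 : e10 ≤ e12 := L2 l12
                  have k162 : e12 ≤ e2 := L3 l12 k25 k119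
                  have k163 : e12 ≤ e3 := L3 l12 k22 k116
                  have k164 : e12 ≤ e6 := L3 l12 k47 k151
                  have k167 : e5 ≤ e12 := le_trans k113 k161
                  have k168 : ¬ e0 ≤ e12 := N2 k15 k163
                  have k170 : ¬ e6 ≤ e12 := N1 k168 k43
                  have k182 : ¬ e12 ≤ e9 := N1 k115 k161
                  have k184 : e9 ≤ e12 := L3 l9 k160 k167
                  obtain ⟨e13, q13⟩ : ∃ y, f e12 = y := ⟨_, rfl⟩
                  have k186 : e5 ≤ e13 := MO hf q5 q13 k160
                  have k187 : e10 ≤ e13 := MO hf q10 q13 k184
                  have k189 : ¬ e13 ≤ e12 := FB hG q13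
                  have k190 : e13 ≤ e3 := MO hf q13 q3 k162
                  have k191 : e13 ≤ e7 := MO hf q13 q7 k164
                  have k193 : e13 ≤ e2 := le_trans k191 k89
                  by_cases k207 : ∃ z, IsGLB ({e0, e13} : Set P) z
                  · obtain ⟨e14, g14⟩ := k207
                    have c14 : Core e0 e14 := CM g14
                    have k210 : e14 ≤ e0 := G1 g14
                    have k211 : e14 ≤ e13 := G2 g14
                    have k219 : e14 ≤ e3 := le_trans k211 k190
                    have k220 : e14 ≤ e7 := le_trans k211 k191
                    have k229 : ¬ e4 ≤ e14 := N2 k69 k220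
                    have k235 : e14 ≤ e4 := G3 g4 k210 k219
                    exact HL _ _ _ _ _ _ c14 c4 c9 c12 c6 c2 (LT k235 k229) (LT k93 k110) (LT k184 k182) (LT k164 k170) (LT k45 k54)
                  · obtain ⟨e14, l14⟩ := (h1 e13).resolve_right k207
                    have c14 : Core e0 e14 := CJ k207 l14
                    have k210 : e0 ≤ e14 := L1 l14
                    have k211 : e13 ≤ e14 := L2 l14
                    have k212 : e14 ≤ e2 := L3 l14 k6 k193
                    have k216 : e5 ≤ e14 := le_trans k186 k211
                    have k229 : e6 ≤ e14 := L3 l6 k210 k216
                    by_cases k233 : e14 ≤ e6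
                    · have k235 : e13 ≤ e6 := le_trans k211 k233
                      obtain ⟨e15, l15⟩ := ZE h2 k190 k207 g4
                      have c15 : Core e0 e15 := CZ g4 k207 l15
                      have k245 : e4 ≤ e15 := L1 l15
                      have k246 : e13 ≤ e15 := L2 l15
                      have k248 : e15 ≤ e3 := L3 l15 k22 k190
                      have k249 : e15 ≤ e6 := L3 l15 k47 k235
                      have k254 : e10 ≤ e15 := le_trans k187 k246
                      have k255 : ¬ e0 ≤ e15 := N2 k15 k248
                      have k257 : ¬ e6 ≤ e15 := N1 k255 k43
                      have k272 : ¬ e15 ≤ e12 := N1 k189 k246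
                      have k275 : e12 ≤ e15 := L3 l12 k245 k254
                      exact HL _ _ _ _ _ _ c4 c9 c12 c15 c6 c2 (LT k93 k110) (LT k184 k182) (LT k275 k272) (LT k249 k257) (LT k45 k54)
                    · have k237 : e2 ≤ e14 := Classical.byContradiction fun hn => HL _ _ _ _ _ _ c4 c9 c12 c6 c14 c2 (LT k93 k110) (LT k184 k182) (LT k164 k170) (LT k229 k233) (LT k212 hn)
                      obtain ⟨e15, l15⟩ := ZE h2 k190 k207 g4
                      have c15 : Core e0 e15 := CZ g4 k207 l15
                      have k243 : e4 ≤ e15 := L1 l15
                      have k244 : e13 ≤ e15 := L2 l15
                      have k245 : e15 ≤ e2 := L3 l15 k25 k193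
                      have k246 : e15 ≤ e3 := L3 l15 k22 k190
                      have k250 : e10 ≤ e15 := le_trans k187 k244
                      have k251 : ¬ e0 ≤ e15 := N2 k15 k246
                      have k252 : ¬ e2 ≤ e15 := N1 k251 k6
                      have k268 : ¬ e15 ≤ e12 := N1 k189 k244
                      have k271 : e12 ≤ e15 := L3 l12 k243 k250
                      obtain ⟨e16, q16⟩ : ∃ y, f e15 = y := ⟨_, rfl⟩
                      have k275 : e13 ≤ e16 := MO hf q13 q16 k271
                      have k276 : ¬ e15 ≤ e16 := FA hF q16
                      have k277 : ¬ e16 ≤ e15 := FB hG q16
                      have k278 : e16 ≤ e3 := MO hf q16 q3 k245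
                      have k279 : ¬ e4 ≤ e16 := L5 l15 k275 k276
                      by_cases k298 : ∃ z, IsGLB ({e0, e16} : Set P) z
                      · obtain ⟨e17, g17⟩ := k298
                        have c17 : Core e0 e17 := CM g17
                        have k301 : e17 ≤ e0 := G1 g17
                        have k302 : e17 ≤ e16 := G2 g17
                        have k312 : e17 ≤ e3 := le_trans k302 k278
                        have k322 : ¬ e4 ≤ e17 := N2 k279 k302
                        have k330 : e17 ≤ e4 := G3 g4 k301 k312
                        exact HL _ _ _ _ _ _ c17 c4 c9 c12 c15 c2 (LT k330 k322) (LT k93 k110) (LT k184 k182) (LT k271 k268) (LT k245 k252)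
                      · obtain ⟨e17, l17⟩ := (h1 e16).resolve_right k298
                        have c17 : Core e0 e17 := CJ k298 l17
                        have k301 : e0 ≤ e17 := L1 l17
                        have k302 : e16 ≤ e17 := L2 l17
                        have k307 : e13 ≤ e17 := le_trans k275 k302
                        have k326 : e14 ≤ e17 := L3 l14 k301 k307
                        have k329 : e2 ≤ e17 := le_trans k237 k326
                        have k332 : e17 ≤ e2 := Classical.byContradiction fun hn => HL _ _ _ _ _ _ c4 c9 c12 c15 c2 c17 (LT k93 k110) (LT k184 k182) (LT k271 k268) (LT k245 k252) (LT k329 hn)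
                        have k335 : e16 ≤ e2 := le_trans k302 k332
                        obtain ⟨e18, l18⟩ := ZE h2 k278 k298 g4
                        have c18 : Core e0 e18 := CZ g4 k298 l18
                        have k341 : e4 ≤ e18 := L1 l18
                        have k342 : e16 ≤ e18 := L2 l18
                        have k343 : e18 ≤ e2 := L3 l18 k25 k335
                        have k344 : e18 ≤ e3 := L3 l18 k22 k278
                        have k350 : e13 ≤ e18 := le_trans k275 k342
                        have k351 : ¬ e0 ≤ e18 := N2 k15 k344
                        have k352 : ¬ e2 ≤ e18 := N1 k351 k6
                        have k371 : ¬ e18 ≤ e15 := N1 k277 k342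
                        have k375 : e15 ≤ e18 := L3 l15 k341 k350
                        exact HL _ _ _ _ _ _ c4 c9 c12 c15 c18 c2 (LT k93 k110) (LT k184 k182) (LT k271 k268) (LT k375 k371) (LT k343 k352)
                · have k151 : ¬ e10 ≤ e6 := L4 l11 k43 k150
                  by_cases k152 : e2 ≤ e11
                  · obtain ⟨e12, l12⟩ := ZE h2 k116 k129 g4
                    have c12 : Core e0 e12 := CZ g4 k129 l12
                    have k158 : e4 ≤ e12 := L1 l12
                    have k159 : e10 ≤ e12 := L2 l12
                    have k160 : e12 ≤ e2 := L3 l12 k25 k119
                    have k161 : e12 ≤ e3 := L3 l12 k22 k116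
                    have k164 : e5 ≤ e12 := le_trans k113 k159
                    have k165 : ¬ e0 ≤ e12 := N2 k15 k161
                    have k166 : ¬ e2 ≤ e12 := N1 k165 k6
                    have k178 : ¬ e12 ≤ e9 := N1 k115 k159
                    have k180 : e9 ≤ e12 := L3 l9 k158 k164
                    obtain ⟨e13, q13⟩ : ∃ y, f e12 = y := ⟨_, rfl⟩
                    have k182 : e5 ≤ e13 := MO hf q5 q13 k158
                    have k183 : e10 ≤ e13 := MO hf q10 q13 k180
                    have k184 : ¬ e12 ≤ e13 := FA hF q13
                    have k185 : ¬ e13 ≤ e12 := FB hG q13
                    have k186 : e13 ≤ e3 := MO hf q13 q3 k160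
                    have k187 : ¬ e4 ≤ e13 := L5 l12 k183 k184
                    by_cases k201 : ∃ z, IsGLB ({e0, e13} : Set P) z
                    · obtain ⟨e14, g14⟩ := k201
                      have c14 : Core e0 e14 := CM g14
                      have k204 : e14 ≤ e0 := G1 g14
                      have k205 : e14 ≤ e13 := G2 g14
                      have k206 : ¬ e14 ≤ e5 := BN3 g14 k40 k182
                      have k207 : ¬ e14 ≤ e10 := BN3 g14 k129 k183
                      have k209 : e14 ≤ e2 := le_trans k204 k6
                      have k210 : e14 ≤ e6 := le_trans k204 k43
                      have k213 : e14 ≤ e3 := le_trans k205 k186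
                      have k222 : ¬ e4 ≤ e14 := N2 k187 k205
                      have k228 : e14 ≤ e4 := G3 g4 k204 k213
                      have k229 : e14 ≤ e9 := le_trans k228 k93
                      have k230 : e14 ≤ e12 := le_trans k228 k158
                      obtain ⟨e15, q15⟩ : ∃ y, f e14 = y := ⟨_, rfl⟩
                      have k233 : ¬ e15 ≤ e14 := FB hG q15
                      have k234 : e15 ≤ e1 := MO hf q15 q1 k204
                      have k235 : e15 ≤ e3 := MO hf q15 q3 k209
                      have k236 : e15 ≤ e5 := MO hf q15 q5 k228
                      have k239 : e15 ≤ e13 := MO hf q15 q13 k230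
                      have k240 : ¬ e15 ≤ e0 := G5 g14 k239 k233
                      have k241 : e15 ≤ e2 := le_trans k234 k7
                      have k244 : e15 ≤ e6 := le_trans k236 k44
                      have k245 : e15 ≤ e9 := le_trans k236 k94
                      have k246 : e15 ≤ e12 := le_trans k236 k164
                      have k260 : ¬ e15 ≤ e4 := N2 k240 k21
                      by_cases k261 : ∃ z, IsGLB ({e0, e15} : Set P) z
                      · obtain ⟨e16, g16⟩ := k261
                        have c16 : Core e0 e16 := CM g16
                        have k264 : e16 ≤ e0 := G1 g16
                        have k265 : e16 ≤ e15 := G2 g16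
                        have k273 : e16 ≤ e5 := le_trans k265 k236
                        have k278 : e16 ≤ e13 := le_trans k265 k239
                        have k293 : ¬ e14 ≤ e16 := N2 k206 k273
                        have k296 : e16 ≤ e14 := G3 g14 k264 k278
                        exact HL _ _ _ _ _ _ c16 c14 c4 c0 c6 c2 (LT k296 k293) (LT k228 k222) (LT k21 k26) (LT k43 k53) (LT k45 k54)
                      · obtain ⟨e16, l16⟩ := ZE h2 k235 k261 g4
                        have c16 : Core e0 e16 := CZ g4 k261 l16
                        have k264 : e4 ≤ e16 := L1 l16
                        have k265 : e15 ≤ e16 := L2 l16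
                        have k270 : e16 ≤ e9 := L3 l16 k93 k245
                        have k293 : ¬ e16 ≤ e4 := N1 k260 k265
                        have k295 : e9 ≤ e16 := Classical.byContradiction fun hn => HL _ _ _ _ _ _ c14 c4 c16 c9 c6 c2 (LT k228 k222) (LT k264 k293) (LT k270 hn) (LT k97 k101) (LT k45 k54)
                        obtain ⟨e17, l17⟩ := ZE h2 k239 k261 g14
                        have c17 : Core e0 e17 := CZ g14 k261 l17
                        have k299 : e14 ≤ e17 := L1 l17
                        have k300 : e15 ≤ e17 := L2 l17
                        have k301 : e17 ≤ e2 := L3 l17 k209 k241
                        have k303 : e17 ≤ e6 := L3 l17 k210 k244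
                        have k305 : e17 ≤ e9 := L3 l17 k229 k245
                        have k307 : e17 ≤ e12 := L3 l17 k230 k246
                        have k308 : e17 ≤ e13 := L3 l17 k205 k239
                        have k318 : ¬ e4 ≤ e17 := N2 k187 k308
                        have k319 : ¬ e9 ≤ e17 := N1 k318 k93
                        have k329 : ¬ e17 ≤ e14 := N1 k233 k300
                        obtain ⟨e18, q18⟩ : ∃ y, f e17 = y := ⟨_, rfl⟩
                        have k332 : e15 ≤ e18 := MO hf q15 q18 k299
                        have k334 : ¬ e18 ≤ e17 := FB hG q18
                        have k335 : e18 ≤ e3 := MO hf q18 q3 k301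
                        have k336 : e18 ≤ e7 := MO hf q18 q7 k303
                        have k337 : e18 ≤ e10 := MO hf q18 q10 k305
                        have k338 : e18 ≤ e13 := MO hf q18 q13 k307
                        have k340 : e18 ≤ e2 := le_trans k336 k89
                        have k343 : e18 ≤ e12 := le_trans k337 k159
                        by_cases k359 : ∃ z, IsGLB ({e0, e18} : Set P) z
                        · obtain ⟨e19, g19⟩ := k359
                          have c19 : Core e0 e19 := CM g19
                          have k362 : e19 ≤ e0 := G1 g19
                          have k363 : e19 ≤ e18 := G2 g19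
                          have k372 : e19 ≤ e10 := le_trans k363 k337
                          have k374 : e19 ≤ e13 := le_trans k363 k338
                          have k390 : ¬ e14 ≤ e19 := N2 k207 k372
                          have k395 : e19 ≤ e14 := G3 g14 k362 k374
                          exact HL _ _ _ _ _ _ c19 c14 c4 c0 c6 c2 (LT k395 k390) (LT k228 k222) (LT k21 k26) (LT k43 k53) (LT k45 k54)
                        · obtain ⟨e19, l19⟩ := ZE h2 k335 k359 g4
                          have c19 : Core e0 e19 := CZ g4 k359 l19
                          have k362 : e4 ≤ e19 := L1 l19
                          have k363 : e18 ≤ e19 := L2 l19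
                          have k368 : e19 ≤ e12 := L3 l19 k158 k343
                          have k370 : e15 ≤ e19 := le_trans k332 k363
                          have k390 : e16 ≤ e19 := L3 l16 k362 k370
                          have k393 : e9 ≤ e19 := le_trans k295 k390
                          by_cases k394 : e19 ≤ e9
                          · have k398 : e18 ≤ e9 := le_trans k363 k394
                            obtain ⟨e20, l20⟩ := ZE h2 k338 k359 g14
                            have c20 : Core e0 e20 := CZ g14 k359 l20
                            have k409 : e14 ≤ e20 := L1 l20
                            have k410 : e18 ≤ e20 := L2 l20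
                            have k415 : e20 ≤ e9 := L3 l20 k229 k398
                            have k418 : e20 ≤ e13 := L3 l20 k205 k338
                            have k421 : e15 ≤ e20 := le_trans k332 k410
                            have k430 : ¬ e4 ≤ e20 := N2 k187 k418
                            have k431 : ¬ e9 ≤ e20 := N1 k430 k93
                            have k444 : ¬ e20 ≤ e17 := N1 k334 k410
                            have k446 : e17 ≤ e20 := L3 l17 k409 k421
                            exact HL _ _ _ _ _ _ c14 c17 c20 c9 c12 c2 (LT k299 k329) (LT k446 k444) (LT k415 k431) (LT k180 k178) (LT k160 k166)
                          · have k399 : e12 ≤ e19 := Classical.byContradiction fun hn => HL _ _ _ _ _ _ c14 c17 c9 c19 c12 c2 (LT k299 k329) (LT k305 k319) (LT k393 k394) (LT k368 hn) (LT k160 k166)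
                            have k400 : e10 ≤ e19 := le_trans k159 k399
                            obtain ⟨e20, l20⟩ := ZE h2 k338 k359 g14
                            have c20 : Core e0 e20 := CZ g14 k359 l20
                            have k405 : e14 ≤ e20 := L1 l20
                            have k406 : e18 ≤ e20 := L2 l20
                            have k407 : e20 ≤ e2 := L3 l20 k209 k340
                            have k411 : e20 ≤ e12 := L3 l20 k230 k343
                            have k412 : e20 ≤ e13 := L3 l20 k205 k338
                            have k414 : e15 ≤ e20 := le_trans k332 k406
                            have k421 : ¬ e4 ≤ e20 := N2 k187 k412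
                            have k423 : ¬ e12 ≤ e20 := N1 k421 k158
                            have k437 : ¬ e20 ≤ e17 := N1 k334 k406
                            have k439 : e17 ≤ e20 := L3 l17 k405 k414
                            obtain ⟨e21, q21⟩ : ∃ y, f e20 = y := ⟨_, rfl⟩
                            have k442 : e18 ≤ e21 := MO hf q18 q21 k439
                            have k443 : ¬ e20 ≤ e21 := FA hF q21
                            have k444 : ¬ e21 ≤ e20 := FB hG q21
                            have k445 : e21 ≤ e3 := MO hf q21 q3 k407
                            have k446 : e21 ≤ e13 := MO hf q21 q13 k411
                            have k447 : ¬ e14 ≤ e21 := L5 l20 k442 k443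
                            by_cases k471 : ∃ z, IsGLB ({e0, e21} : Set P) z
                            · obtain ⟨e22, g22⟩ := k471
                              have c22 : Core e0 e22 := CM g22
                              have k474 : e22 ≤ e0 := G1 g22
                              have k475 : e22 ≤ e21 := G2 g22
                              have k484 : e22 ≤ e13 := le_trans k475 k446
                              have k501 : ¬ e14 ≤ e22 := N2 k447 k475
                              have k508 : e22 ≤ e14 := G3 g14 k474 k484
                              exact HL _ _ _ _ _ _ c22 c14 c4 c0 c6 c2 (LT k508 k501) (LT k228 k222) (LT k21 k26) (LT k43 k53) (LT k45 k54)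
                            · obtain ⟨e22, l22⟩ := (h1 e21).resolve_right k471
                              have c22 : Core e0 e22 := CJ k471 l22
                              have k474 : e0 ≤ e22 := L1 l22
                              have k475 : e21 ≤ e22 := L2 l22
                              have k477 : e4 ≤ e22 := le_trans k21 k474
                              have k480 : e18 ≤ e22 := le_trans k442 k475
                              have k502 : e19 ≤ e22 := L3 l19 k477 k480
                              have k506 : e10 ≤ e22 := le_trans k400 k502
                              have k509 : e11 ≤ e22 := L3 l11 k474 k506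
                              have k511 : e2 ≤ e22 := le_trans k152 k509
                              have k514 : e22 ≤ e2 := Classical.byContradiction fun hn => HL _ _ _ _ _ _ c14 c17 c20 c12 c2 c22 (LT k299 k329) (LT k439 k437) (LT k411 k423) (LT k160 k166) (LT k511 hn)
                              have k517 : e21 ≤ e2 := le_trans k475 k514
                              obtain ⟨e23, l23⟩ := ZE h2 k445 k471 g4
                              have c23 : Core e0 e23 := CZ g4 k471 l23
                              have k523 : e4 ≤ e23 := L1 l23
                              have k524 : e21 ≤ e23 := L2 l23
                              have k525 : e23 ≤ e2 := L3 l23 k25 k517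
                              have k526 : e23 ≤ e3 := L3 l23 k22 k445
                              have k532 : e18 ≤ e23 := le_trans k442 k524
                              have k533 : ¬ e0 ≤ e23 := N2 k15 k526
                              have k534 : ¬ e2 ≤ e23 := N1 k533 k6
                              have k559 : e19 ≤ e23 := L3 l19 k523 k532
                              have k564 : e12 ≤ e23 := le_trans k399 k559
                              have k565 : e23 ≤ e12 := Classical.byContradiction fun hn => HL _ _ _ _ _ _ c14 c17 c20 c12 c23 c2 (LT k299 k329) (LT k439 k437) (LT k411 k423) (LT k564 hn) (LT k525 k534)
                              have k567 : e21 ≤ e12 := le_trans k524 k565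
                              obtain ⟨e24, l24⟩ := ZE h2 k446 k471 g14
                              have c24 : Core e0 e24 := CZ g14 k471 l24
                              have k572 : e14 ≤ e24 := L1 l24
                              have k573 : e21 ≤ e24 := L2 l24
                              have k578 : e24 ≤ e12 := L3 l24 k230 k567
                              have k579 : e24 ≤ e13 := L3 l24 k205 k446
                              have k584 : e18 ≤ e24 := le_trans k442 k573
                              have k592 : ¬ e4 ≤ e24 := N2 k187 k579
                              have k594 : ¬ e12 ≤ e24 := N1 k592 k158
                              have k611 : ¬ e24 ≤ e20 := N1 k444 k573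
                              have k614 : e20 ≤ e24 := L3 l20 k572 k584
                              exact HL _ _ _ _ _ _ c14 c17 c20 c24 c12 c2 (LT k299 k329) (LT k439 k437) (LT k614 k611) (LT k578 k594) (LT k160 k166)
                    · obtain ⟨e14, l14⟩ := (h1 e13).resolve_right k201
                      have c14 : Core e0 e14 := CJ k201 l14
                      have k204 : e0 ≤ e14 := L1 l14
                      have k205 : e13 ≤ e14 := L2 l14
                      have k207 : e4 ≤ e14 := le_trans k21 k204
                      have k208 : e5 ≤ e14 := le_trans k182 k205
                      have k209 : e10 ≤ e14 := le_trans k183 k205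
                      have k222 : e9 ≤ e14 := L3 l9 k207 k208
                      have k223 : e11 ≤ e14 := L3 l11 k204 k209
                      have k224 : e12 ≤ e14 := L3 l12 k207 k209
                      have k226 : e2 ≤ e14 := le_trans k152 k223
                      by_cases k229 : e14 ≤ e2
                      · have k232 : e13 ≤ e2 := le_trans k205 k229
                        obtain ⟨e15, l15⟩ := ZE h2 k186 k201 g4
                        have c15 : Core e0 e15 := CZ g4 k201 l15
                        have k238 : e4 ≤ e15 := L1 l15
                        have k239 : e13 ≤ e15 := L2 l15
                        have k240 : e15 ≤ e2 := L3 l15 k25 k232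
                        have k241 : e15 ≤ e3 := L3 l15 k22 k186
                        have k245 : e5 ≤ e15 := le_trans k182 k239
                        have k246 : e10 ≤ e15 := le_trans k183 k239
                        have k247 : ¬ e0 ≤ e15 := N2 k15 k241
                        have k248 : ¬ e2 ≤ e15 := N1 k247 k6
                        have k263 : ¬ e15 ≤ e12 := N1 k185 k239
                        have k265 : e9 ≤ e15 := L3 l9 k238 k245
                        have k266 : e12 ≤ e15 := L3 l12 k238 k246
                        obtain ⟨e16, q16⟩ : ∃ y, f e15 = y := ⟨_, rfl⟩
                        have k269 : e10 ≤ e16 := MO hf q10 q16 k265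
                        have k270 : e13 ≤ e16 := MO hf q13 q16 k266
                        have k271 : ¬ e15 ≤ e16 := FA hF q16
                        have k272 : ¬ e16 ≤ e15 := FB hG q16
                        have k273 : e16 ≤ e3 := MO hf q16 q3 k240
                        have k274 : ¬ e4 ≤ e16 := L5 l15 k270 k271
                        by_cases k292 : ∃ z, IsGLB ({e0, e16} : Set P) z
                        · obtain ⟨e17, g17⟩ := k292
                          have c17 : Core e0 e17 := CM g17
                          have k295 : e17 ≤ e0 := G1 g17
                          have k296 : e17 ≤ e16 := G2 g17
                          have k306 : e17 ≤ e3 := le_trans k296 k273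
                          have k316 : ¬ e4 ≤ e17 := N2 k274 k296
                          have k324 : e17 ≤ e4 := G3 g4 k295 k306
                          exact HL _ _ _ _ _ _ c17 c4 c9 c12 c15 c2 (LT k324 k316) (LT k93 k110) (LT k180 k178) (LT k266 k263) (LT k240 k248)
                        · obtain ⟨e17, l17⟩ := (h1 e16).resolve_right k292
                          have c17 : Core e0 e17 := CJ k292 l17
                          have k295 : e0 ≤ e17 := L1 l17
                          have k296 : e16 ≤ e17 := L2 l17
                          have k300 : e10 ≤ e17 := le_trans k269 k296
                          have k317 : e11 ≤ e17 := L3 l11 k295 k300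
                          have k322 : e2 ≤ e17 := le_trans k152 k317
                          have k325 : e17 ≤ e2 := Classical.byContradiction fun hn => HL _ _ _ _ _ _ c4 c9 c12 c15 c2 c17 (LT k93 k110) (LT k180 k178) (LT k266 k263) (LT k240 k248) (LT k322 hn)
                          have k329 : e16 ≤ e2 := le_trans k296 k325
                          obtain ⟨e18, l18⟩ := ZE h2 k273 k292 g4
                          have c18 : Core e0 e18 := CZ g4 k292 l18
                          have k336 : e4 ≤ e18 := L1 l18
                          have k337 : e16 ≤ e18 := L2 l18
                          have k338 : e18 ≤ e2 := L3 l18 k25 k329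
                          have k339 : e18 ≤ e3 := L3 l18 k22 k273
                          have k346 : e13 ≤ e18 := le_trans k270 k337
                          have k347 : ¬ e0 ≤ e18 := N2 k15 k339
                          have k348 : ¬ e2 ≤ e18 := N1 k347 k6
                          have k366 : ¬ e18 ≤ e15 := N1 k272 k337
                          have k370 : e15 ≤ e18 := L3 l15 k336 k346
                          exact HL _ _ _ _ _ _ c4 c9 c12 c15 c18 c2 (LT k93 k110) (LT k180 k178) (LT k266 k263) (LT k370 k366) (LT k338 k348)
                      · obtain ⟨e15, q15⟩ : ∃ y, f e14 = y := ⟨_, rfl⟩
                        have k239 : e3 ≤ e15 := MO hf q3 q15 k226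
                        have k240 : e5 ≤ e15 := MO hf q5 q15 k207
                        have k242 : e10 ≤ e15 := MO hf q10 q15 k222
                        have k243 : e13 ≤ e15 := MO hf q13 q15 k224
                        have k244 : ¬ e14 ≤ e15 := FA hF q15
                        have k245 : ¬ e15 ≤ e14 := FB hG q15
                        have k246 : ¬ e0 ≤ e15 := L5 l14 k243 k244
                        have k247 : e4 ≤ e15 := le_trans k22 k239
                        by_cases k267 : ∃ z, IsGLB ({e0, e15} : Set P) z
                        · obtain ⟨e16, g16⟩ := k267
                          have c16 : Core e0 e16 := CM g16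
                          obtain ⟨e17, l17⟩ := ZE h2 k242 k129 g16
                          have c17 : Core e0 e17 := CZ g16 k129 l17
                          have k272 : e16 ≤ e0 := G1 g16
                          have k273 : e16 ≤ e15 := G2 g16
                          have k274 : e4 ≤ e16 := G3 g16 k21 k247
                          have k285 : e16 ≤ e6 := le_trans k272 k43
                          have k288 : e16 ≤ e14 := le_trans k272 k204
                          have k291 : ¬ e0 ≤ e16 := N2 k246 k273
                          have k332 : e16 ≤ e4 := Classical.byContradiction fun hn => HL _ _ _ _ _ _ c4 c16 c0 c6 c2 c14 (LT k274 hn) (LT k272 k291) (LT k43 k53) (LT k45 k54) (LT k226 k229)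
                          have k333 : e16 ≤ e3 := le_trans k332 k22
                          have k335 : e16 ≤ e12 := le_trans k332 k158
                          obtain ⟨e18, l18⟩ := ZE h2 k240 k40 g16
                          have c18 : Core e0 e18 := CZ g16 k40 l18
                          have k340 : e16 ≤ e18 := L1 l18
                          have k341 : e5 ≤ e18 := L2 l18
                          have k344 : e18 ≤ e6 := L3 l18 k285 k44
                          have k348 : e18 ≤ e12 := L3 l18 k335 k164
                          have k352 : e4 ≤ e18 := le_trans k274 k340
                          have k369 : ¬ e18 ≤ e4 := N1 k32 k341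
                          have k371 : ¬ e10 ≤ e18 := N2 k151 k344
                          have k372 : ¬ e12 ≤ e18 := N1 k371 k159
                          obtain ⟨e19, l19⟩ := ZE h2 k243 k201 g16
                          have c19 : Core e0 e19 := CZ g16 k201 l19
                          have k379 : e16 ≤ e19 := L1 l19
                          have k380 : e13 ≤ e19 := L2 l19
                          have k381 : e19 ≤ e3 := L3 l19 k333 k186
                          have k382 : e19 ≤ e14 := L3 l19 k288 k205
                          have k385 : e10 ≤ e19 := le_trans k183 k380
                          have k386 : e4 ≤ e19 := le_trans k274 k379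
                          have k387 : ¬ e0 ≤ e19 := N2 k15 k381
                          have k392 : ¬ e14 ≤ e19 := N1 k387 k204
                          have k407 : ¬ e19 ≤ e12 := N1 k185 k380
                          have k412 : e12 ≤ e19 := L3 l12 k386 k385
                          obtain ⟨e20, q20⟩ : ∃ y, f e19 = y := ⟨_, rfl⟩
                          have k418 : e13 ≤ e20 := MO hf q13 q20 k412
                          have k419 : ¬ e19 ≤ e20 := FA hF q20
                          have k420 : ¬ e20 ≤ e19 := FB hG q20
                          have k421 : e20 ≤ e15 := MO hf q20 q15 k382
                          have k422 : ¬ e16 ≤ e20 := L5 l19 k418 k419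
                          have k445 : ¬ e4 ≤ e20 := N1 k422 k332
                          by_cases k452 : ∃ z, IsGLB ({e0, e20} : Set P) z
                          · obtain ⟨e21, g21⟩ := k452
                            have c21 : Core e0 e21 := CM g21
                            have k455 : e21 ≤ e0 := G1 g21
                            have k456 : e21 ≤ e20 := G2 g21
                            have k466 : e21 ≤ e15 := le_trans k456 k421
                            have k477 : ¬ e4 ≤ e21 := N2 k445 k456
                            have k480 : ¬ e16 ≤ e21 := N1 k477 k274
                            have k488 : e21 ≤ e16 := G3 g16 k455 k466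
                            exact HL _ _ _ _ _ _ c21 c16 c0 c6 c2 c14 (LT k488 k480) (LT k272 k291) (LT k43 k53) (LT k45 k54) (LT k226 k229)
                          · obtain ⟨e21, l21⟩ := (h1 e20).resolve_right k452
                            have c21 : Core e0 e21 := CJ k452 l21
                            have k455 : e0 ≤ e21 := L1 l21
                            have k456 : e20 ≤ e21 := L2 l21
                            have k462 : e13 ≤ e21 := le_trans k418 k456
                            have k487 : e14 ≤ e21 := L3 l14 k455 k462
                            have k495 : e21 ≤ e14 := Classical.byContradiction fun hn => HL _ _ _ _ _ _ c4 c9 c12 c19 c14 c21 (LT k93 k110) (LT k180 k178) (LT k412 k407) (LT k382 k392) (LT k487 hn)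
                            have k496 : e20 ≤ e14 := le_trans k456 k495
                            obtain ⟨e22, l22⟩ := ZE h2 k421 k452 g16
                            have c22 : Core e0 e22 := CZ g16 k452 l22
                            have k500 : e16 ≤ e22 := L1 l22
                            have k501 : e20 ≤ e22 := L2 l22
                            have k502 : e22 ≤ e14 := L3 l22 k288 k496
                            have k503 : e22 ≤ e15 := L3 l22 k273 k421
                            have k508 : e13 ≤ e22 := le_trans k418 k501
                            have k509 : ¬ e0 ≤ e22 := N2 k246 k503
                            have k514 : ¬ e14 ≤ e22 := N1 k509 k204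
                            have k534 : ¬ e22 ≤ e19 := N1 k420 k501
                            have k540 : e19 ≤ e22 := L3 l19 k500 k508
                            exact HL _ _ _ _ _ _ c4 c18 c12 c19 c22 c14 (LT k352 k369) (LT k348 k372) (LT k412 k407) (LT k540 k534) (LT k502 k514)
                        · obtain ⟨e16, l16⟩ := (h1 e15).resolve_right k267
                          have c16 : Core e0 e16 := CJ k267 l16
                          have k270 : e0 ≤ e16 := L1 l16
                          have k271 : e15 ≤ e16 := L2 l16
                          have k281 : e13 ≤ e16 := le_trans k243 k271
                          have k297 : ¬ e16 ≤ e14 := N1 k245 k271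
                          have k302 : e14 ≤ e16 := L3 l14 k270 k281
                          exact HL _ _ _ _ _ _ c4 c0 c6 c2 c14 c16 (LT k21 k26) (LT k43 k53) (LT k45 k54) (LT k226 k229) (LT k302 k297)
                  · obtain ⟨e12, q12⟩ : ∃ y, f e11 = y := ⟨_, rfl⟩
                    have k159 : e1 ≤ e12 := MO hf q1 q12 k132
                    have k162 : e10 ≤ e12 := MO hf q10 q12 k149
                    have k165 : e12 ≤ e3 := MO hf q12 q3 k134
                    by_cases k176 : ∃ z, IsGLB ({e0, e12} : Set P) z
                    · obtain ⟨e13, g13⟩ := k176
                      have c13 : Core e0 e13 := CM g13
                      have k179 : e13 ≤ e0 := G1 g13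
                      have k180 : e13 ≤ e12 := G2 g13
                      have k186 : e13 ≤ e2 := le_trans k179 k6
                      have k189 : e13 ≤ e11 := le_trans k179 k132
                      have k190 : e13 ≤ e3 := le_trans k180 k165
                      have k205 : e13 ≤ e4 := G3 g4 k179 k190
                      have k207 : e4 ≤ e13 := Classical.byContradiction fun hn => HL _ _ _ _ _ _ c13 c4 c0 c6 c11 c2 (LT k205 hn) (LT k21 k26) (LT k43 k53) (LT k148 k150) (LT k134 k152)
                      have k208 : e4 ≤ e12 := le_trans k207 k180
                      obtain ⟨e14, l14⟩ := ZE h2 k162 k129 g13
                      have c14 : Core e0 e14 := CZ g13 k129 l14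
                      have k212 : e13 ≤ e14 := L1 l14
                      have k213 : e10 ≤ e14 := L2 l14
                      have k214 : e14 ≤ e2 := L3 l14 k186 k119
                      have k217 : e14 ≤ e11 := L3 l14 k189 k133
                      have k219 : e5 ≤ e14 := le_trans k113 k213
                      have k220 : e4 ≤ e14 := le_trans k207 k212
                      have k238 : ¬ e14 ≤ e9 := N1 k115 k213
                      have k240 : e9 ≤ e14 := L3 l9 k220 k219
                      obtain ⟨e15, q15⟩ : ∃ y, f e14 = y := ⟨_, rfl⟩
                      have k242 : e5 ≤ e15 := MO hf q5 q15 k220
                      have k243 : e10 ≤ e15 := MO hf q10 q15 k240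
                      have k244 : ¬ e14 ≤ e15 := FA hF q15
                      have k245 : ¬ e15 ≤ e14 := FB hG q15
                      have k246 : e15 ≤ e3 := MO hf q15 q3 k214
                      have k247 : e15 ≤ e12 := MO hf q15 q12 k217
                      have k248 : ¬ e13 ≤ e15 := L5 l14 k243 k244
                      have k261 : ¬ e4 ≤ e15 := N1 k248 k205
                      by_cases k265 : ∃ z, IsGLB ({e0, e15} : Set P) z
                      · obtain ⟨e16, g16⟩ := k265
                        have c16 : Core e0 e16 := CM g16
                        have k268 : e16 ≤ e0 := G1 g16
                        have k269 : e16 ≤ e15 := G2 g16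
                        have k277 : e16 ≤ e3 := le_trans k269 k246
                        have k288 : ¬ e4 ≤ e16 := N2 k261 k269
                        have k295 : e16 ≤ e4 := G3 g4 k268 k277
                        exact HL _ _ _ _ _ _ c16 c4 c0 c6 c11 c2 (LT k295 k288) (LT k21 k26) (LT k43 k53) (LT k148 k150) (LT k134 k152)
                      · obtain ⟨e16, l16⟩ := (h1 e15).resolve_right k265
                        have c16 : Core e0 e16 := CJ k265 l16
                        have k268 : e0 ≤ e16 := L1 l16
                        have k269 : e15 ≤ e16 := L2 l16
                        have k271 : e4 ≤ e16 := le_trans k21 k268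
                        have k272 : e13 ≤ e16 := le_trans k179 k268
                        have k273 : e5 ≤ e16 := le_trans k242 k269
                        have k274 : e10 ≤ e16 := le_trans k243 k269
                        have k289 : e9 ≤ e16 := L3 l9 k271 k273
                        have k290 : e11 ≤ e16 := L3 l11 k268 k274
                        have k291 : e14 ≤ e16 := L3 l14 k272 k274
                        by_cases k292 : e16 ≤ e11
                        · have k297 : e15 ≤ e11 := le_trans k269 k292
                          obtain ⟨e17, l17⟩ := ZE h2 k247 k265 g13
                          have c17 : Core e0 e17 := CZ g13 k265 l17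
                          have k308 : e13 ≤ e17 := L1 l17
                          have k309 : e15 ≤ e17 := L2 l17
                          have k311 : e17 ≤ e3 := L3 l17 k190 k246
                          have k313 : e17 ≤ e11 := L3 l17 k189 k297
                          have k318 : e10 ≤ e17 := le_trans k243 k309
                          have k319 : ¬ e0 ≤ e17 := N2 k15 k311
                          have k323 : ¬ e11 ≤ e17 := N1 k319 k132
                          have k339 : ¬ e17 ≤ e14 := N1 k245 k309
                          have k342 : e14 ≤ e17 := L3 l14 k308 k318
                          exact HL _ _ _ _ _ _ c4 c9 c14 c17 c11 c2 (LT k93 k110) (LT k240 k238) (LT k342 k339) (LT k313 k323) (LT k134 k152)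
                        · obtain ⟨e17, q17⟩ : ∃ y, f e16 = y := ⟨_, rfl⟩
                          have k296 : e5 ≤ e17 := MO hf q5 q17 k271
                          have k298 : e10 ≤ e17 := MO hf q10 q17 k289
                          have k299 : e12 ≤ e17 := MO hf q12 q17 k290
                          have k300 : e15 ≤ e17 := MO hf q15 q17 k291
                          have k301 : ¬ e16 ≤ e17 := FA hF q17
                          have k302 : ¬ e17 ≤ e16 := FB hG q17
                          have k303 : ¬ e0 ≤ e17 := L5 l16 k300 k301
                          have k304 : e4 ≤ e17 := le_trans k208 k299
                          have k306 : e13 ≤ e17 := le_trans k180 k299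
                          by_cases k324 : ∃ z, IsGLB ({e0, e17} : Set P) z
                          · obtain ⟨e18, g18⟩ := k324
                            have c18 : Core e0 e18 := CM g18
                            obtain ⟨e19, l19⟩ := ZE h2 k298 k129 g18
                            have c19 : Core e0 e19 := CZ g18 k129 l19
                            have k329 : e18 ≤ e0 := G1 g18
                            have k330 : e18 ≤ e17 := G2 g18
                            have k331 : e4 ≤ e18 := G3 g18 k21 k304
                            have k332 : e13 ≤ e18 := G3 g18 k179 k306
                            have k343 : e18 ≤ e6 := le_trans k329 k43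
                            have k346 : e18 ≤ e16 := le_trans k329 k268
                            have k350 : ¬ e0 ≤ e18 := N2 k303 k330
                            have k396 : e18 ≤ e4 := Classical.byContradiction fun hn => HL _ _ _ _ _ _ c4 c18 c0 c6 c11 c2 (LT k331 hn) (LT k329 k350) (LT k43 k53) (LT k148 k150) (LT k134 k152)
                            have k397 : e18 ≤ e3 := le_trans k396 k22
                            have k401 : e18 ≤ e14 := le_trans k396 k220
                            obtain ⟨e20, l20⟩ := ZE h2 k296 k40 g18
                            have c20 : Core e0 e20 := CZ g18 k40 l20
                            have k407 : e18 ≤ e20 := L1 l20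
                            have k408 : e5 ≤ e20 := L2 l20
                            have k411 : e20 ≤ e6 := L3 l20 k343 k44
                            have k416 : e20 ≤ e14 := L3 l20 k401 k219
                            have k420 : e4 ≤ e20 := le_trans k331 k407
                            have k439 : ¬ e20 ≤ e4 := N1 k32 k408
                            have k442 : ¬ e10 ≤ e20 := N2 k151 k411
                            have k443 : ¬ e14 ≤ e20 := N1 k442 k213
                            obtain ⟨e21, l21⟩ := ZE h2 k300 k265 g18
                            have c21 : Core e0 e21 := CZ g18 k265 l21
                            have k450 : e18 ≤ e21 := L1 l21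
                            have k451 : e15 ≤ e21 := L2 l21
                            have k452 : e21 ≤ e3 := L3 l21 k397 k246
                            have k454 : e21 ≤ e16 := L3 l21 k346 k269
                            have k457 : e10 ≤ e21 := le_trans k243 k451
                            have k459 : e13 ≤ e21 := le_trans k332 k450
                            have k460 : ¬ e0 ≤ e21 := N2 k15 k452
                            have k465 : ¬ e16 ≤ e21 := N1 k460 k268
                            have k479 : ¬ e21 ≤ e14 := N1 k245 k451
                            have k484 : e14 ≤ e21 := L3 l14 k459 k457
                            obtain ⟨e22, q22⟩ : ∃ y, f e21 = y := ⟨_, rfl⟩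
                            have k490 : e15 ≤ e22 := MO hf q15 q22 k484
                            have k491 : ¬ e21 ≤ e22 := FA hF q22
                            have k492 : ¬ e22 ≤ e21 := FB hG q22
                            have k493 : e22 ≤ e17 := MO hf q22 q17 k454
                            have k494 : ¬ e18 ≤ e22 := L5 l21 k490 k491
                            have k514 : ¬ e4 ≤ e22 := N1 k494 k396
                            by_cases k523 : ∃ z, IsGLB ({e0, e22} : Set P) z
                            · obtain ⟨e23, g23⟩ := k523
                              have c23 : Core e0 e23 := CM g23
                              have k526 : e23 ≤ e0 := G1 g23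
                              have k527 : e23 ≤ e22 := G2 g23
                              have k537 : e23 ≤ e17 := le_trans k527 k493
                              have k549 : ¬ e4 ≤ e23 := N2 k514 k527
                              have k553 : ¬ e18 ≤ e23 := N1 k549 k331
                              have k561 : e23 ≤ e18 := G3 g18 k526 k537
                              exact HL _ _ _ _ _ _ c23 c18 c0 c6 c11 c2 (LT k561 k553) (LT k329 k350) (LT k43 k53) (LT k148 k150) (LT k134 k152)
                            · obtain ⟨e23, l23⟩ := (h1 e22).resolve_right k523
                              have c23 : Core e0 e23 := CJ k523 l23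
                              have k526 : e0 ≤ e23 := L1 l23
                              have k527 : e22 ≤ e23 := L2 l23
                              have k534 : e15 ≤ e23 := le_trans k490 k527
                              have k559 : e16 ≤ e23 := L3 l16 k526 k534
                              have k563 : e23 ≤ e16 := Classical.byContradiction fun hn => HL _ _ _ _ _ _ c4 c9 c14 c21 c16 c23 (LT k93 k110) (LT k240 k238) (LT k484 k479) (LT k454 k465) (LT k559 hn)
                              have k564 : e22 ≤ e16 := le_trans k527 k563
                              obtain ⟨e24, l24⟩ := ZE h2 k493 k523 g18
                              have c24 : Core e0 e24 := CZ g18 k523 l24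
                              have k568 : e18 ≤ e24 := L1 l24
                              have k569 : e22 ≤ e24 := L2 l24
                              have k570 : e24 ≤ e16 := L3 l24 k346 k564
                              have k571 : e24 ≤ e17 := L3 l24 k330 k493
                              have k577 : e15 ≤ e24 := le_trans k490 k569
                              have k578 : ¬ e0 ≤ e24 := N2 k303 k571
                              have k583 : ¬ e16 ≤ e24 := N1 k578 k268
                              have k602 : ¬ e24 ≤ e21 := N1 k492 k569
                              have k608 : e21 ≤ e24 := L3 l21 k568 k577
                              exact HL _ _ _ _ _ _ c4 c20 c14 c21 c24 c16 (LT k420 k439) (LT k416 k443) (LT k484 k479) (LT k608 k602) (LT k570 k583)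
                          · obtain ⟨e18, l18⟩ := (h1 e17).resolve_right k324
                            have c18 : Core e0 e18 := CJ k324 l18
                            have k327 : e0 ≤ e18 := L1 l18
                            have k328 : e17 ≤ e18 := L2 l18
                            have k339 : e15 ≤ e18 := le_trans k300 k328
                            have k355 : ¬ e18 ≤ e16 := N1 k302 k328
                            have k360 : e16 ≤ e18 := L3 l16 k327 k339
                            exact HL _ _ _ _ _ _ c4 c0 c6 c11 c16 c18 (LT k21 k26) (LT k43 k53) (LT k148 k150) (LT k290 k292) (LT k360 k355)
                    · have k177 : ¬ e4 ≤ e12 := BN3 g4 k176 k165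
                      obtain ⟨e13, l13⟩ := (h1 e12).resolve_right k176
                      have c13 : Core e0 e13 := CJ k176 l13
                      have k182 : e0 ≤ e13 := L1 l13
                      have k183 : e12 ≤ e13 := L2 l13
                      have k186 : e1 ≤ e13 := le_trans k159 k183
                      have k201 : e2 ≤ e13 := L3 l2 k182 k186
                      have k206 : e13 ≤ e2 := Classical.byContradiction fun hn => HL _ _ _ _ _ _ c4 c9 c6 c11 c2 c13 (LT k93 k110) (LT k97 k101) (LT k148 k150) (LT k134 k152) (LT k201 hn)
                      have k208 : e12 ≤ e2 := le_trans k183 k206
                      obtain ⟨e14, l14⟩ := ZE h2 k116 k129 g4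
                      have c14 : Core e0 e14 := CZ g4 k129 l14
                      have k213 : e4 ≤ e14 := L1 l14
                      have k214 : e10 ≤ e14 := L2 l14
                      have k215 : e14 ≤ e2 := L3 l14 k25 k119
                      have k216 : e14 ≤ e3 := L3 l14 k22 k116
                      have k218 : e14 ≤ e11 := L3 l14 k137 k133
                      have k220 : e5 ≤ e14 := le_trans k113 k214
                      have k221 : ¬ e0 ≤ e14 := N2 k15 k216
                      have k225 : ¬ e11 ≤ e14 := N1 k221 k132
                      have k239 : ¬ e14 ≤ e9 := N1 k115 k214
                      have k241 : e9 ≤ e14 := L3 l9 k213 k220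
                      obtain ⟨e15, q15⟩ : ∃ y, f e14 = y := ⟨_, rfl⟩
                      have k244 : e10 ≤ e15 := MO hf q10 q15 k241
                      have k246 : ¬ e15 ≤ e14 := FB hG q15
                      have k247 : e15 ≤ e3 := MO hf q15 q3 k215
                      have k248 : e15 ≤ e12 := MO hf q15 q12 k218
                      have k250 : e15 ≤ e2 := le_trans k248 k208
                      by_cases k267 : ∃ z, IsGLB ({e0, e15} : Set P) z
                      · obtain ⟨e16, g16⟩ := k267
                        have c16 : Core e0 e16 := CM g16
                        have k270 : e16 ≤ e0 := G1 g16
                        have k271 : e16 ≤ e15 := G2 g16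
                        have k280 : e16 ≤ e3 := le_trans k271 k247
                        have k281 : e16 ≤ e12 := le_trans k271 k248
                        have k292 : ¬ e4 ≤ e16 := N2 k177 k281
                        have k298 : e16 ≤ e4 := G3 g4 k270 k280
                        exact HL _ _ _ _ _ _ c16 c4 c0 c6 c11 c2 (LT k298 k292) (LT k21 k26) (LT k43 k53) (LT k148 k150) (LT k134 k152)
                      · obtain ⟨e16, l16⟩ := (h1 e15).resolve_right k267
                        have c16 : Core e0 e16 := CJ k267 l16
                        have k270 : e0 ≤ e16 := L1 l16
                        have k271 : e15 ≤ e16 := L2 l16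
                        have k272 : e16 ≤ e2 := L3 l16 k6 k250
                        have k278 : e10 ≤ e16 := le_trans k244 k271
                        have k294 : e11 ≤ e16 := L3 l11 k270 k278
                        by_cases k296 : e16 ≤ e11
                        · have k297 : e15 ≤ e11 := le_trans k271 k296
                          obtain ⟨e17, l17⟩ := ZE h2 k247 k267 g4
                          have c17 : Core e0 e17 := CZ g4 k267 l17
                          have k309 : e4 ≤ e17 := L1 l17
                          have k310 : e15 ≤ e17 := L2 l17
                          have k312 : e17 ≤ e3 := L3 l17 k22 k247
                          have k314 : e17 ≤ e11 := L3 l17 k137 k297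
                          have k318 : e10 ≤ e17 := le_trans k244 k310
                          have k319 : ¬ e0 ≤ e17 := N2 k15 k312
                          have k323 : ¬ e11 ≤ e17 := N1 k319 k132
                          have k340 : ¬ e17 ≤ e14 := N1 k246 k310
                          have k343 : e14 ≤ e17 := L3 l14 k309 k318
                          exact HL _ _ _ _ _ _ c4 c9 c14 c17 c11 c2 (LT k93 k110) (LT k241 k239) (LT k343 k340) (LT k314 k323) (LT k134 k152)
                        · have k298 : e2 ≤ e16 := Classical.byContradiction fun hn => HL _ _ _ _ _ _ c4 c9 c14 c11 c16 c2 (LT k93 k110) (LT k241 k239) (LT k218 k225) (LT k294 k296) (LT k272 hn)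
                          obtain ⟨e17, l17⟩ := ZE h2 k247 k267 g4
                          have c17 : Core e0 e17 := CZ g4 k267 l17
                          have k306 : e4 ≤ e17 := L1 l17
                          have k307 : e15 ≤ e17 := L2 l17
                          have k308 : e17 ≤ e2 := L3 l17 k25 k250
                          have k309 : e17 ≤ e3 := L3 l17 k22 k247
                          have k314 : e10 ≤ e17 := le_trans k244 k307
                          have k315 : ¬ e0 ≤ e17 := N2 k15 k309
                          have k316 : ¬ e2 ≤ e17 := N1 k315 k6
                          have k334 : ¬ e17 ≤ e14 := N1 k246 k307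
                          have k337 : e14 ≤ e17 := L3 l14 k306 k314
                          obtain ⟨e18, q18⟩ : ∃ y, f e17 = y := ⟨_, rfl⟩
                          have k341 : e15 ≤ e18 := MO hf q15 q18 k337
                          have k342 : ¬ e17 ≤ e18 := FA hF q18
                          have k343 : ¬ e18 ≤ e17 := FB hG q18
                          have k344 : e18 ≤ e3 := MO hf q18 q3 k308
                          have k345 : ¬ e4 ≤ e18 := L5 l17 k341 k342
                          by_cases k365 : ∃ z, IsGLB ({e0, e18} : Set P) z
                          · obtain ⟨e19, g19⟩ := k365
                            have c19 : Core e0 e19 := CM g19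
                            have k368 : e19 ≤ e0 := G1 g19
                            have k369 : e19 ≤ e18 := G2 g19
                            have k380 : e19 ≤ e3 := le_trans k369 k344
                            have k392 : ¬ e4 ≤ e19 := N2 k345 k369
                            have k400 : e19 ≤ e4 := G3 g4 k368 k380
                            exact HL _ _ _ _ _ _ c19 c4 c0 c6 c11 c2 (LT k400 k392) (LT k21 k26) (LT k43 k53) (LT k148 k150) (LT k134 k152)
                          · obtain ⟨e19, l19⟩ := (h1 e18).resolve_right k365
                            have c19 : Core e0 e19 := CJ k365 l19
                            have k368 : e0 ≤ e19 := L1 l19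
                            have k369 : e18 ≤ e19 := L2 l19
                            have k374 : e15 ≤ e19 := le_trans k341 k369
                            have k394 : e16 ≤ e19 := L3 l16 k368 k374
                            have k397 : e2 ≤ e19 := le_trans k298 k394
                            have k402 : e19 ≤ e2 := Classical.byContradiction fun hn => HL _ _ _ _ _ _ c4 c9 c14 c17 c2 c19 (LT k93 k110) (LT k241 k239) (LT k337 k334) (LT k308 k316) (LT k397 hn)
                            have k406 : e18 ≤ e2 := le_trans k369 k402
                            obtain ⟨e20, l20⟩ := ZE h2 k344 k365 g4
                            have c20 : Core e0 e20 := CZ g4 k365 l20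
                            have k413 : e4 ≤ e20 := L1 l20
                            have k414 : e18 ≤ e20 := L2 l20
                            have k415 : e20 ≤ e2 := L3 l20 k25 k406
                            have k416 : e20 ≤ e3 := L3 l20 k22 k344
                            have k423 : e15 ≤ e20 := le_trans k341 k414
                            have k424 : ¬ e0 ≤ e20 := N2 k15 k416
                            have k425 : ¬ e2 ≤ e20 := N1 k424 k6
                            have k446 : ¬ e20 ≤ e17 := N1 k343 k414
                            have k450 : e17 ≤ e20 := L3 l17 k413 k423
                            exact HL _ _ _ _ _ _ c4 c9 c14 c17 c20 c2 (LT k93 k110) (LT k241 k239) (LT k337 k334) (LT k450 k446) (LT k415 k425)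
            · obtain ⟨e9, q9⟩ : ∃ y, f e8 = y := ⟨_, rfl⟩
              have k93 : e3 ≤ e9 := MO hf q3 q9 k86
              have k94 : e5 ≤ e9 := MO hf q5 q9 k76
              have k95 : e7 ≤ e9 := MO hf q7 q9 k87
              have k96 : ¬ e8 ≤ e9 := FA hF q9
              have k97 : ¬ e9 ≤ e8 := FB hG q9
              have k98 : ¬ e0 ≤ e9 := L5 l8 k95 k96
              have k99 : e4 ≤ e9 := le_trans k22 k93
              by_cases k109 : ∃ z, IsGLB ({e0, e9} : Set P) z
              · obtain ⟨e10, g10⟩ := k109
                have c10 : Core e0 e10 := CM g10
                have k112 : e10 ≤ e0 := G1 g10
                have k113 : e10 ≤ e9 := G2 g10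
                have k114 : e4 ≤ e10 := G3 g10 k21 k99
                have k119 : e10 ≤ e2 := le_trans k112 k6
                have k120 : e10 ≤ e6 := le_trans k112 k43
                have k121 : e10 ≤ e8 := le_trans k112 k73
                have k122 : ¬ e0 ≤ e10 := N2 k98 k113
                have k131 : e10 ≤ e4 := Classical.byContradiction fun hn => HL _ _ _ _ _ _ c4 c10 c0 c6 c2 c8 (LT k114 hn) (LT k112 k122) (LT k43 k53) (LT k45 k54) (LT k86 k88)
                have k132 : e10 ≤ e3 := le_trans k131 k22
                obtain ⟨e11, l11⟩ := ZE h2 k94 k40 g10
                have c11 : Core e0 e11 := CZ g10 k40 l11
                have k135 : e10 ≤ e11 := L1 l11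
                have k136 : e5 ≤ e11 := L2 l11
                have k137 : e11 ≤ e2 := L3 l11 k119 k36
                have k138 : e11 ≤ e3 := L3 l11 k132 k34
                have k139 : e11 ≤ e6 := L3 l11 k120 k44
                have k140 : e11 ≤ e8 := L3 l11 k121 k78
                have k142 : e4 ≤ e11 := le_trans k114 k135
                have k143 : ¬ e0 ≤ e11 := N2 k15 k138
                have k145 : ¬ e6 ≤ e11 := N1 k143 k43
                have k155 : ¬ e11 ≤ e4 := N1 k32 k136
                obtain ⟨e12, q12⟩ : ∃ y, f e11 = y := ⟨_, rfl⟩
                have k159 : e5 ≤ e12 := MO hf q5 q12 k142
                have k161 : ¬ e12 ≤ e11 := FB hG q12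
                have k162 : e12 ≤ e3 := MO hf q12 q3 k137
                have k163 : e12 ≤ e7 := MO hf q12 q7 k139
                have k164 : e12 ≤ e9 := MO hf q12 q9 k140
                have k166 : e12 ≤ e8 := le_trans k163 k74
                by_cases k178 : ∃ z, IsGLB ({e0, e12} : Set P) z
                · obtain ⟨e13, g13⟩ := k178
                  have c13 : Core e0 e13 := CM g13
                  have k181 : e13 ≤ e0 := G1 g13
                  have k182 : e13 ≤ e12 := G2 g13
                  have k188 : e13 ≤ e3 := le_trans k182 k162
                  have k189 : e13 ≤ e7 := le_trans k182 k163
                  have k199 : ¬ e4 ≤ e13 := N2 k69 k189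
                  have k204 : e13 ≤ e4 := G3 g4 k181 k188
                  exact HL _ _ _ _ _ _ c13 c4 c0 c6 c2 c8 (LT k204 k199) (LT k21 k26) (LT k43 k53) (LT k45 k54) (LT k86 k88)
                · obtain ⟨e13, l13⟩ := (h1 e12).resolve_right k178
                  have c13 : Core e0 e13 := CJ k178 l13
                  have k181 : e0 ≤ e13 := L1 l13
                  have k182 : e12 ≤ e13 := L2 l13
                  have k183 : e13 ≤ e8 := L3 l13 k73 k166
                  have k186 : e10 ≤ e13 := le_trans k112 k181
                  have k187 : e5 ≤ e13 := le_trans k159 k182
                  have k199 : e6 ≤ e13 := L3 l6 k181 k187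
                  have k200 : e11 ≤ e13 := L3 l11 k186 k187
                  by_cases k201 : e13 ≤ e6
                  · have k204 : e12 ≤ e6 := le_trans k182 k201
                    obtain ⟨e14, l14⟩ := ZE h2 k164 k178 g10
                    have c14 : Core e0 e14 := CZ g10 k178 l14
                    have k214 : e10 ≤ e14 := L1 l14
                    have k215 : e12 ≤ e14 := L2 l14
                    have k217 : e14 ≤ e3 := L3 l14 k132 k162
                    have k218 : e14 ≤ e6 := L3 l14 k120 k204
                    have k223 : e5 ≤ e14 := le_trans k159 k215
                    have k224 : ¬ e0 ≤ e14 := N2 k15 k217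
                    have k226 : ¬ e6 ≤ e14 := N1 k224 k43
                    have k240 : ¬ e14 ≤ e11 := N1 k161 k215
                    have k242 : e11 ≤ e14 := L3 l11 k214 k223
                    exact HL _ _ _ _ _ _ c4 c11 c14 c6 c2 c8 (LT k142 k155) (LT k242 k240) (LT k218 k226) (LT k45 k54) (LT k86 k88)
                  · have k202 : ¬ e12 ≤ e6 := L4 l13 k43 k201
                    by_cases k203 : e8 ≤ e13
                    · obtain ⟨e14, l14⟩ := ZE h2 k164 k178 g10
                      have c14 : Core e0 e14 := CZ g10 k178 l14
                      have k212 : e10 ≤ e14 := L1 l14
                      have k213 : e12 ≤ e14 := L2 l14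
                      have k215 : e14 ≤ e8 := L3 l14 k121 k166
                      have k218 : e4 ≤ e14 := le_trans k114 k212
                      have k219 : e5 ≤ e14 := le_trans k159 k213
                      have k235 : ¬ e14 ≤ e11 := N1 k161 k213
                      have k237 : e11 ≤ e14 := L3 l11 k212 k219
                      obtain ⟨e15, q15⟩ : ∃ y, f e14 = y := ⟨_, rfl⟩
                      have k239 : e5 ≤ e15 := MO hf q5 q15 k218
                      have k240 : e12 ≤ e15 := MO hf q12 q15 k237
                      have k241 : ¬ e14 ≤ e15 := FA hF q15
                      have k242 : ¬ e15 ≤ e14 := FB hG q15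
                      have k243 : e15 ≤ e9 := MO hf q15 q9 k215
                      have k244 : ¬ e10 ≤ e15 := L5 l14 k240 k241
                      have k254 : ¬ e4 ≤ e15 := N1 k244 k131
                      by_cases k263 : ∃ z, IsGLB ({e0, e15} : Set P) z
                      · obtain ⟨e16, g16⟩ := k263
                        have c16 : Core e0 e16 := CM g16
                        have k266 : e16 ≤ e0 := G1 g16
                        have k267 : e16 ≤ e15 := G2 g16
                        have k275 : e16 ≤ e9 := le_trans k267 k243
                        have k285 : ¬ e4 ≤ e16 := N2 k254 k267
                        have k286 : ¬ e10 ≤ e16 := N1 k285 k114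
                        have k292 : e16 ≤ e10 := G3 g10 k266 k275
                        exact HL _ _ _ _ _ _ c16 c10 c0 c6 c2 c8 (LT k292 k286) (LT k112 k122) (LT k43 k53) (LT k45 k54) (LT k86 k88)
                      · obtain ⟨e16, l16⟩ := (h1 e15).resolve_right k263
                        have c16 : Core e0 e16 := CJ k263 l16
                        have k266 : e0 ≤ e16 := L1 l16
                        have k267 : e15 ≤ e16 := L2 l16
                        have k272 : e12 ≤ e16 := le_trans k240 k267
                        have k289 : e13 ≤ e16 := L3 l13 k266 k272
                        have k294 : e8 ≤ e16 := le_trans k203 k289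
                        have k295 : e16 ≤ e8 := Classical.byContradiction fun hn => HL _ _ _ _ _ _ c4 c11 c6 c2 c8 c16 (LT k142 k155) (LT k139 k145) (LT k45 k54) (LT k86 k88) (LT k294 hn)
                        have k297 : e15 ≤ e8 := le_trans k267 k295
                        obtain ⟨e17, l17⟩ := ZE h2 k243 k263 g10
                        have c17 : Core e0 e17 := CZ g10 k263 l17
                        have k302 : e10 ≤ e17 := L1 l17
                        have k303 : e15 ≤ e17 := L2 l17
                        have k304 : e17 ≤ e8 := L3 l17 k121 k297
                        have k305 : e17 ≤ e9 := L3 l17 k113 k243
                        have k309 : e5 ≤ e17 := le_trans k239 k303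
                        have k310 : e12 ≤ e17 := le_trans k240 k303
                        have k311 : ¬ e0 ≤ e17 := N2 k98 k305
                        have k314 : ¬ e8 ≤ e17 := N1 k311 k73
                        have k329 : ¬ e17 ≤ e14 := N1 k242 k303
                        have k331 : e11 ≤ e17 := L3 l11 k302 k309
                        have k332 : e14 ≤ e17 := L3 l14 k302 k310
                        obtain ⟨e18, q18⟩ : ∃ y, f e17 = y := ⟨_, rfl⟩
                        have k335 : e12 ≤ e18 := MO hf q12 q18 k331
                        have k336 : e15 ≤ e18 := MO hf q15 q18 k332
                        have k337 : ¬ e17 ≤ e18 := FA hF q18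
                        have k338 : ¬ e18 ≤ e17 := FB hG q18
                        have k339 : e18 ≤ e9 := MO hf q18 q9 k304
                        have k340 : ¬ e10 ≤ e18 := L5 l17 k336 k337
                        have k351 : ¬ e4 ≤ e18 := N1 k340 k131
                        by_cases k363 : ∃ z, IsGLB ({e0, e18} : Set P) z
                        · obtain ⟨e19, g19⟩ := k363
                          have c19 : Core e0 e19 := CM g19
                          have k366 : e19 ≤ e0 := G1 g19
                          have k367 : e19 ≤ e18 := G2 g19
                          have k377 : e19 ≤ e9 := le_trans k367 k339
                          have k388 : ¬ e4 ≤ e19 := N2 k351 k367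
                          have k389 : ¬ e10 ≤ e19 := N1 k388 k114
                          have k397 : e19 ≤ e10 := G3 g10 k366 k377
                          exact HL _ _ _ _ _ _ c19 c10 c0 c6 c2 c8 (LT k397 k389) (LT k112 k122) (LT k43 k53) (LT k45 k54) (LT k86 k88)
                        · obtain ⟨e19, l19⟩ := (h1 e18).resolve_right k363
                          have c19 : Core e0 e19 := CJ k363 l19
                          have k366 : e0 ≤ e19 := L1 l19
                          have k367 : e18 ≤ e19 := L2 l19
                          have k372 : e12 ≤ e19 := le_trans k335 k367
                          have k392 : e13 ≤ e19 := L3 l13 k366 k372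
                          have k399 : e8 ≤ e19 := le_trans k203 k392
                          have k400 : e19 ≤ e8 := Classical.byContradiction fun hn => HL _ _ _ _ _ _ c4 c11 c14 c17 c8 c19 (LT k142 k155) (LT k237 k235) (LT k332 k329) (LT k304 k314) (LT k399 hn)
                          have k403 : e18 ≤ e8 := le_trans k367 k400
                          obtain ⟨e20, l20⟩ := ZE h2 k339 k363 g10
                          have c20 : Core e0 e20 := CZ g10 k363 l20
                          have k409 : e10 ≤ e20 := L1 l20
                          have k410 : e18 ≤ e20 := L2 l20
                          have k411 : e20 ≤ e8 := L3 l20 k121 k403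
                          have k412 : e20 ≤ e9 := L3 l20 k113 k339
                          have k419 : e15 ≤ e20 := le_trans k336 k410
                          have k420 : ¬ e0 ≤ e20 := N2 k98 k412
                          have k423 : ¬ e8 ≤ e20 := N1 k420 k73
                          have k441 : ¬ e20 ≤ e17 := N1 k338 k410
                          have k445 : e17 ≤ e20 := L3 l17 k409 k419
                          exact HL _ _ _ _ _ _ c4 c11 c14 c17 c20 c8 (LT k142 k155) (LT k237 k235) (LT k332 k329) (LT k445 k441) (LT k411 k423)
                    · obtain ⟨e14, q14⟩ : ∃ y, f e13 = y := ⟨_, rfl⟩
                      have k210 : e7 ≤ e14 := MO hf q7 q14 k199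
                      have k211 : e12 ≤ e14 := MO hf q12 q14 k200
                      have k214 : e14 ≤ e9 := MO hf q14 q9 k183
                      by_cases k228 : ∃ z, IsGLB ({e0, e14} : Set P) z
                      · obtain ⟨e15, g15⟩ := k228
                        have c15 : Core e0 e15 := CM g15
                        have k231 : e15 ≤ e0 := G1 g15
                        have k232 : e15 ≤ e14 := G2 g15
                        have k240 : e15 ≤ e8 := le_trans k231 k73
                        have k241 : e15 ≤ e13 := le_trans k231 k181
                        have k242 : e15 ≤ e9 := le_trans k232 k214
                        have k257 : e15 ≤ e10 := G3 g10 k231 k242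
                        have k259 : e15 ≤ e4 := le_trans k257 k131
                        have k261 : e4 ≤ e15 := Classical.byContradiction fun hn => HL _ _ _ _ _ _ c15 c4 c0 c6 c2 c8 (LT k259 hn) (LT k21 k26) (LT k43 k53) (LT k45 k54) (LT k86 k88)
                        have k262 : e10 ≤ e15 := le_trans k131 k261
                        have k263 : e4 ≤ e14 := le_trans k261 k232
                        obtain ⟨e16, l16⟩ := ZE h2 k211 k178 g15
                        have c16 : Core e0 e16 := CZ g15 k178 l16
                        have k268 : e15 ≤ e16 := L1 l16
                        have k269 : e12 ≤ e16 := L2 l16
                        have k271 : e16 ≤ e8 := L3 l16 k240 k166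
                        have k273 : e16 ≤ e13 := L3 l16 k241 k182
                        have k275 : e5 ≤ e16 := le_trans k159 k269
                        have k276 : e4 ≤ e16 := le_trans k261 k268
                        have k277 : e10 ≤ e16 := le_trans k262 k268
                        have k296 : ¬ e16 ≤ e11 := N1 k161 k269
                        have k298 : e11 ≤ e16 := L3 l11 k277 k275
                        obtain ⟨e17, q17⟩ : ∃ y, f e16 = y := ⟨_, rfl⟩
                        have k300 : e5 ≤ e17 := MO hf q5 q17 k276
                        have k301 : e12 ≤ e17 := MO hf q12 q17 k298
                        have k302 : ¬ e16 ≤ e17 := FA hF q17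
                        have k303 : ¬ e17 ≤ e16 := FB hG q17
                        have k304 : e17 ≤ e9 := MO hf q17 q9 k271
                        have k305 : e17 ≤ e14 := MO hf q17 q14 k273
                        have k306 : ¬ e15 ≤ e17 := L5 l16 k301 k302
                        have k320 : ¬ e4 ≤ e17 := N1 k306 k259
                        by_cases k326 : ∃ z, IsGLB ({e0, e17} : Set P) z
                        · obtain ⟨e18, g18⟩ := k326
                          have c18 : Core e0 e18 := CM g18
                          have k329 : e18 ≤ e0 := G1 g18
                          have k330 : e18 ≤ e17 := G2 g18
                          have k338 : e18 ≤ e9 := le_trans k330 k304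
                          have k350 : ¬ e4 ≤ e18 := N2 k320 k330
                          have k351 : ¬ e10 ≤ e18 := N1 k350 k114
                          have k358 : e18 ≤ e10 := G3 g10 k329 k338
                          exact HL _ _ _ _ _ _ c18 c10 c0 c6 c2 c8 (LT k358 k351) (LT k112 k122) (LT k43 k53) (LT k45 k54) (LT k86 k88)
                        · obtain ⟨e18, l18⟩ := (h1 e17).resolve_right k326
                          have c18 : Core e0 e18 := CJ k326 l18
                          have k329 : e0 ≤ e18 := L1 l18
                          have k330 : e17 ≤ e18 := L2 l18
                          have k332 : e4 ≤ e18 := le_trans k21 k329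
                          have k333 : e10 ≤ e18 := le_trans k112 k329
                          have k334 : e15 ≤ e18 := le_trans k231 k329
                          have k335 : e5 ≤ e18 := le_trans k300 k330
                          have k336 : e12 ≤ e18 := le_trans k301 k330
                          have k353 : e11 ≤ e18 := L3 l11 k333 k335
                          have k354 : e13 ≤ e18 := L3 l13 k329 k336
                          have k355 : e16 ≤ e18 := L3 l16 k334 k336
                          by_cases k356 : e18 ≤ e13
                          · have k359 : e17 ≤ e13 := le_trans k330 k356
                            obtain ⟨e19, l19⟩ := ZE h2 k305 k326 g15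
                            have c19 : Core e0 e19 := CZ g15 k326 l19
                            have k368 : e15 ≤ e19 := L1 l19
                            have k369 : e17 ≤ e19 := L2 l19
                            have k371 : e19 ≤ e9 := L3 l19 k242 k304
                            have k372 : e19 ≤ e13 := L3 l19 k241 k359
                            have k378 : e12 ≤ e19 := le_trans k301 k369
                            have k379 : ¬ e0 ≤ e19 := N2 k98 k371
                            have k383 : ¬ e13 ≤ e19 := N1 k379 k181
                            have k400 : ¬ e19 ≤ e16 := N1 k303 k369
                            have k403 : e16 ≤ e19 := L3 l16 k368 k378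
                            exact HL _ _ _ _ _ _ c4 c11 c16 c19 c13 c8 (LT k142 k155) (LT k298 k296) (LT k403 k400) (LT k372 k383) (LT k183 k203)
                          · obtain ⟨e19, q19⟩ : ∃ y, f e18 = y := ⟨_, rfl⟩
                            have k360 : e5 ≤ e19 := MO hf q5 q19 k332
                            have k362 : e12 ≤ e19 := MO hf q12 q19 k353
                            have k363 : e14 ≤ e19 := MO hf q14 q19 k354
                            have k364 : e17 ≤ e19 := MO hf q17 q19 k355
                            have k365 : ¬ e18 ≤ e19 := FA hF q19
                            have k366 : ¬ e19 ≤ e18 := FB hG q19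
                            have k367 : ¬ e0 ≤ e19 := L5 l18 k364 k365
                            have k368 : e4 ≤ e19 := le_trans k263 k363
                            have k371 : e15 ≤ e19 := le_trans k232 k363
                            by_cases k391 : ∃ z, IsGLB ({e0, e19} : Set P) z
                            · obtain ⟨e20, g20⟩ := k391
                              have c20 : Core e0 e20 := CM g20
                              obtain ⟨e21, l21⟩ := ZE h2 k362 k178 g20
                              have c21 : Core e0 e21 := CZ g20 k178 l21
                              have k396 : e20 ≤ e0 := G1 g20
                              have k397 : e20 ≤ e19 := G2 g20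
                              have k398 : e4 ≤ e20 := G3 g20 k21 k368
                              have k400 : e15 ≤ e20 := G3 g20 k231 k371
                              have k411 : e20 ≤ e6 := le_trans k396 k43
                              have k414 : e20 ≤ e18 := le_trans k396 k329
                              have k419 : ¬ e0 ≤ e20 := N2 k367 k397
                              have k466 : e20 ≤ e4 := Classical.byContradiction fun hn => HL _ _ _ _ _ _ c4 c20 c0 c6 c2 c8 (LT k398 hn) (LT k396 k419) (LT k43 k53) (LT k45 k54) (LT k86 k88)
                              have k468 : e20 ≤ e9 := le_trans k466 k99
                              have k473 : e20 ≤ e16 := le_trans k466 k276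
                              obtain ⟨e22, l22⟩ := ZE h2 k360 k40 g20
                              have c22 : Core e0 e22 := CZ g20 k40 l22
                              have k480 : e20 ≤ e22 := L1 l22
                              have k481 : e5 ≤ e22 := L2 l22
                              have k484 : e22 ≤ e6 := L3 l22 k411 k44
                              have k490 : e22 ≤ e16 := L3 l22 k473 k275
                              have k494 : e4 ≤ e22 := le_trans k398 k480
                              have k515 : ¬ e22 ≤ e4 := N1 k32 k481
                              have k519 : ¬ e12 ≤ e22 := N2 k202 k484
                              have k520 : ¬ e16 ≤ e22 := N1 k519 k269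
                              obtain ⟨e23, l23⟩ := ZE h2 k364 k326 g20
                              have c23 : Core e0 e23 := CZ g20 k326 l23
                              have k527 : e20 ≤ e23 := L1 l23
                              have k528 : e17 ≤ e23 := L2 l23
                              have k529 : e23 ≤ e9 := L3 l23 k468 k304
                              have k531 : e23 ≤ e18 := L3 l23 k414 k330
                              have k534 : e12 ≤ e23 := le_trans k301 k528
                              have k537 : e15 ≤ e23 := le_trans k400 k527
                              have k538 : ¬ e0 ≤ e23 := N2 k98 k529
                              have k543 : ¬ e18 ≤ e23 := N1 k538 k329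
                              have k558 : ¬ e23 ≤ e16 := N1 k303 k528
                              have k563 : e16 ≤ e23 := L3 l16 k537 k534
                              obtain ⟨e24, q24⟩ : ∃ y, f e23 = y := ⟨_, rfl⟩
                              have k569 : e17 ≤ e24 := MO hf q17 q24 k563
                              have k570 : ¬ e23 ≤ e24 := FA hF q24
                              have k571 : ¬ e24 ≤ e23 := FB hG q24
                              have k572 : e24 ≤ e19 := MO hf q24 q19 k531
                              have k573 : ¬ e20 ≤ e24 := L5 l23 k569 k570
                              have k594 : ¬ e4 ≤ e24 := N1 k573 k466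
                              by_cases k605 : ∃ z, IsGLB ({e0, e24} : Set P) z
                              · obtain ⟨e25, g25⟩ := k605
                                have c25 : Core e0 e25 := CM g25
                                have k608 : e25 ≤ e0 := G1 g25
                                have k609 : e25 ≤ e24 := G2 g25
                                have k619 : e25 ≤ e19 := le_trans k609 k572
                                have k632 : ¬ e4 ≤ e25 := N2 k594 k609
                                have k637 : ¬ e20 ≤ e25 := N1 k632 k398
                                have k645 : e25 ≤ e20 := G3 g20 k608 k619
                                exact HL _ _ _ _ _ _ c25 c20 c0 c6 c2 c8 (LT k645 k637) (LT k396 k419) (LT k43 k53) (LT k45 k54) (LT k86 k88)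
                              · obtain ⟨e25, l25⟩ := (h1 e24).resolve_right k605
                                have c25 : Core e0 e25 := CJ k605 l25
                                have k608 : e0 ≤ e25 := L1 l25
                                have k609 : e24 ≤ e25 := L2 l25
                                have k617 : e17 ≤ e25 := le_trans k569 k609
                                have k644 : e18 ≤ e25 := L3 l18 k608 k617
                                have k648 : e25 ≤ e18 := Classical.byContradiction fun hn => HL _ _ _ _ _ _ c4 c11 c16 c23 c18 c25 (LT k142 k155) (LT k298 k296) (LT k563 k558) (LT k531 k543) (LT k644 hn)
                                have k649 : e24 ≤ e18 := le_trans k609 k648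
                                obtain ⟨e26, l26⟩ := ZE h2 k572 k605 g20
                                have c26 : Core e0 e26 := CZ g20 k605 l26
                                have k653 : e20 ≤ e26 := L1 l26
                                have k654 : e24 ≤ e26 := L2 l26
                                have k655 : e26 ≤ e18 := L3 l26 k414 k649
                                have k656 : e26 ≤ e19 := L3 l26 k397 k572
                                have k663 : e17 ≤ e26 := le_trans k569 k654
                                have k664 : ¬ e0 ≤ e26 := N2 k367 k656
                                have k669 : ¬ e18 ≤ e26 := N1 k664 k329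
                                have k689 : ¬ e26 ≤ e23 := N1 k571 k654
                                have k695 : e23 ≤ e26 := L3 l23 k653 k663
                                exact HL _ _ _ _ _ _ c4 c22 c16 c23 c26 c18 (LT k494 k515) (LT k490 k520) (LT k563 k558) (LT k695 k689) (LT k655 k669)
                            · obtain ⟨e20, l20⟩ := (h1 e19).resolve_right k391
                              have c20 : Core e0 e20 := CJ k391 l20
                              have k394 : e0 ≤ e20 := L1 l20
                              have k395 : e19 ≤ e20 := L2 l20
                              have k407 : e17 ≤ e20 := le_trans k364 k395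
                              have k426 : ¬ e20 ≤ e18 := N1 k366 k395
                              have k431 : e18 ≤ e20 := L3 l18 k394 k407
                              exact HL _ _ _ _ _ _ c4 c0 c6 c13 c18 c20 (LT k21 k26) (LT k43 k53) (LT k199 k201) (LT k354 k356) (LT k431 k426)
                      · have k229 : ¬ e10 ≤ e14 := BN3 g10 k228 k214
                        have k231 : ¬ e4 ≤ e14 := N1 k229 k131
                        obtain ⟨e15, l15⟩ := (h1 e14).resolve_right k228
                        have c15 : Core e0 e15 := CJ k228 l15
                        have k239 : e0 ≤ e15 := L1 l15
                        have k240 : e14 ≤ e15 := L2 l15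
                        have k246 : e7 ≤ e15 := le_trans k210 k240
                        have k264 : e8 ≤ e15 := L3 l8 k239 k246
                        have k267 : e15 ≤ e8 := Classical.byContradiction fun hn => HL _ _ _ _ _ _ c4 c11 c6 c13 c8 c15 (LT k142 k155) (LT k139 k145) (LT k199 k201) (LT k183 k203) (LT k264 hn)
                        have k268 : e14 ≤ e8 := le_trans k240 k267
                        obtain ⟨e16, l16⟩ := ZE h2 k164 k178 g10
                        have c16 : Core e0 e16 := CZ g10 k178 l16
                        have k272 : e10 ≤ e16 := L1 l16
                        have k273 : e12 ≤ e16 := L2 l16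
                        have k274 : e16 ≤ e3 := L3 l16 k132 k162
                        have k275 : e16 ≤ e8 := L3 l16 k121 k166
                        have k277 : e16 ≤ e13 := L3 l16 k186 k182
                        have k280 : e5 ≤ e16 := le_trans k159 k273
                        have k281 : ¬ e0 ≤ e16 := N2 k15 k274
                        have k285 : ¬ e13 ≤ e16 := N1 k281 k181
                        have k301 : ¬ e16 ≤ e11 := N1 k161 k273
                        have k303 : e11 ≤ e16 := L3 l11 k272 k280
                        obtain ⟨e17, q17⟩ : ∃ y, f e16 = y := ⟨_, rfl⟩
                        have k306 : e12 ≤ e17 := MO hf q12 q17 k303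
                        have k308 : ¬ e17 ≤ e16 := FB hG q17
                        have k309 : e17 ≤ e9 := MO hf q17 q9 k275
                        have k310 : e17 ≤ e14 := MO hf q17 q14 k277
                        have k312 : e17 ≤ e8 := le_trans k310 k268
                        by_cases k331 : ∃ z, IsGLB ({e0, e17} : Set P) z
                        · obtain ⟨e18, g18⟩ := k331
                          have c18 : Core e0 e18 := CM g18
                          have k334 : e18 ≤ e0 := G1 g18
                          have k335 : e18 ≤ e17 := G2 g18
                          have k344 : e18 ≤ e9 := le_trans k335 k309
                          have k345 : e18 ≤ e14 := le_trans k335 k310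
                          have k357 : ¬ e4 ≤ e18 := N2 k231 k345
                          have k358 : ¬ e10 ≤ e18 := N1 k357 k114
                          have k364 : e18 ≤ e10 := G3 g10 k334 k344
                          exact HL _ _ _ _ _ _ c18 c10 c0 c6 c2 c8 (LT k364 k358) (LT k112 k122) (LT k43 k53) (LT k45 k54) (LT k86 k88)
                        · obtain ⟨e18, l18⟩ := (h1 e17).resolve_right k331
                          have c18 : Core e0 e18 := CJ k331 l18
                          have k334 : e0 ≤ e18 := L1 l18
                          have k335 : e17 ≤ e18 := L2 l18
                          have k336 : e18 ≤ e8 := L3 l18 k73 k312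
                          have k342 : e12 ≤ e18 := le_trans k306 k335
                          have k360 : e13 ≤ e18 := L3 l13 k334 k342
                          by_cases k362 : e18 ≤ e13
                          · have k363 : e17 ≤ e13 := le_trans k335 k362
                            obtain ⟨e19, l19⟩ := ZE h2 k309 k331 g10
                            have c19 : Core e0 e19 := CZ g10 k331 l19
                            have k376 : e10 ≤ e19 := L1 l19
                            have k377 : e17 ≤ e19 := L2 l19
                            have k379 : e19 ≤ e9 := L3 l19 k113 k309
                            have k380 : e19 ≤ e13 := L3 l19 k186 k363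
                            have k385 : e12 ≤ e19 := le_trans k306 k377
                            have k386 : ¬ e0 ≤ e19 := N2 k98 k379
                            have k390 : ¬ e13 ≤ e19 := N1 k386 k181
                            have k409 : ¬ e19 ≤ e16 := N1 k308 k377
                            have k412 : e16 ≤ e19 := L3 l16 k376 k385
                            exact HL _ _ _ _ _ _ c4 c11 c16 c19 c13 c8 (LT k142 k155) (LT k303 k301) (LT k412 k409) (LT k380 k390) (LT k183 k203)
                          · have k364 : e8 ≤ e18 := Classical.byContradiction fun hn => HL _ _ _ _ _ _ c4 c11 c16 c13 c18 c8 (LT k142 k155) (LT k303 k301) (LT k277 k285) (LT k360 k362) (LT k336 hn)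
                            obtain ⟨e19, l19⟩ := ZE h2 k309 k331 g10
                            have c19 : Core e0 e19 := CZ g10 k331 l19
                            have k375 : e10 ≤ e19 := L1 l19
                            have k376 : e17 ≤ e19 := L2 l19
                            have k377 : e19 ≤ e8 := L3 l19 k121 k312
                            have k378 : e19 ≤ e9 := L3 l19 k113 k309
                            have k383 : e12 ≤ e19 := le_trans k306 k376
                            have k384 : ¬ e0 ≤ e19 := N2 k98 k378
                            have k387 : ¬ e8 ≤ e19 := N1 k384 k73
                            have k405 : ¬ e19 ≤ e16 := N1 k308 k376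
                            have k408 : e16 ≤ e19 := L3 l16 k375 k383
                            obtain ⟨e20, q20⟩ : ∃ y, f e19 = y := ⟨_, rfl⟩
                            have k412 : e17 ≤ e20 := MO hf q17 q20 k408
                            have k413 : ¬ e19 ≤ e20 := FA hF q20
                            have k414 : ¬ e20 ≤ e19 := FB hG q20
                            have k415 : e20 ≤ e9 := MO hf q20 q9 k377
                            have k416 : ¬ e10 ≤ e20 := L5 l19 k412 k413
                            have k428 : ¬ e4 ≤ e20 := N1 k416 k131
                            by_cases k441 : ∃ z, IsGLB ({e0, e20} : Set P) z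
                            · obtain ⟨e21, g21⟩ := k441
                              have c21 : Core e0 e21 := CM g21
                              have k444 : e21 ≤ e0 := G1 g21
                              have k445 : e21 ≤ e20 := G2 g21
                              have k456 : e21 ≤ e9 := le_trans k445 k415
                              have k469 : ¬ e4 ≤ e21 := N2 k428 k445
                              have k470 : ¬ e10 ≤ e21 := N1 k469 k114
                              have k478 : e21 ≤ e10 := G3 g10 k444 k456
                              exact HL _ _ _ _ _ _ c21 c10 c0 c6 c2 c8 (LT k478 k470) (LT k112 k122) (LT k43 k53) (LT k45 k54) (LT k86 k88)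
                            · obtain ⟨e21, l21⟩ := (h1 e20).resolve_right k441
                              have c21 : Core e0 e21 := CJ k441 l21
                              have k444 : e0 ≤ e21 := L1 l21
                              have k445 : e20 ≤ e21 := L2 l21
                              have k451 : e17 ≤ e21 := le_trans k412 k445
                              have k474 : e18 ≤ e21 := L3 l18 k444 k451
                              have k479 : e8 ≤ e21 := le_trans k364 k474
                              have k482 : e21 ≤ e8 := Classical.byContradiction fun hn => HL _ _ _ _ _ _ c4 c11 c16 c19 c8 c21 (LT k142 k155) (LT k303 k301) (LT k408 k405) (LT k377 k387) (LT k479 hn)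
                              have k485 : e20 ≤ e8 := le_trans k445 k482
                              obtain ⟨e22, l22⟩ := ZE h2 k415 k441 g10
                              have c22 : Core e0 e22 := CZ g10 k441 l22
                              have k491 : e10 ≤ e22 := L1 l22
                              have k492 : e20 ≤ e22 := L2 l22
                              have k493 : e22 ≤ e8 := L3 l22 k121 k485
                              have k494 : e22 ≤ e9 := L3 l22 k113 k415
                              have k501 : e17 ≤ e22 := le_trans k412 k492
                              have k502 : ¬ e0 ≤ e22 := N2 k98 k494
                              have k505 : ¬ e8 ≤ e22 := N1 k502 k73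
                              have k526 : ¬ e22 ≤ e19 := N1 k414 k492
                              have k530 : e19 ≤ e22 := L3 l19 k491 k501
                              exact HL _ _ _ _ _ _ c4 c11 c16 c19 c22 c8 (LT k142 k155) (LT k303 k301) (LT k408 k405) (LT k530 k526) (LT k493 k505)
              · obtain ⟨e10, l10⟩ := (h1 e9).resolve_right k109
                have c10 : Core e0 e10 := CJ k109 l10
                have k112 : e0 ≤ e10 := L1 l10
                have k113 : e9 ≤ e10 := L2 l10
                have k119 : e7 ≤ e10 := le_trans k95 k113
                have k129 : ¬ e10 ≤ e8 := N1 k97 k113
                have k132 : e8 ≤ e10 := L3 l8 k112 k119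
                exact HL _ _ _ _ _ _ c4 c0 c6 c2 c8 c10 (LT k21 k26) (LT k43 k53) (LT k45 k54) (LT k86 k88) (LT k132 k129)
    · obtain ⟨e4, l4⟩ := (h1 e3).resolve_right k18
      have c4 : Core e0 e4 := CJ k18 l4
      have k21 : e0 ≤ e4 := L1 l4
      have k22 : e3 ≤ e4 := L2 l4
      have k24 : e1 ≤ e4 := le_trans k12 k22
      have k28 : ¬ e4 ≤ e2 := N1 k14 k22
      have k29 : e2 ≤ e4 := L3 l2 k21 k24
      obtain ⟨e5, q5⟩ : ∃ y, f e4 = y := ⟨_, rfl⟩
      have k31 : e1 ≤ e5 := MO hf q1 q5 k21
      have k32 : e3 ≤ e5 := MO hf q3 q5 k29
      have k33 : ¬ e4 ≤ e5 := FA hF q5
      have k34 : ¬ e5 ≤ e4 := FB hG q5
      have k35 : ¬ e0 ≤ e5 := L5 l4 k32 k33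
      by_cases k41 : ∃ z, IsGLB ({e0, e5} : Set P) z
      · obtain ⟨e6, g6⟩ := k41
        have c6 : Core e0 e6 := CM g6
        have k44 : e6 ≤ e0 := G1 g6
        have k45 : e6 ≤ e5 := G2 g6
        have k46 : ¬ e6 ≤ e1 := BN3 g6 k3 k31
        have k47 : ¬ e6 ≤ e3 := BN3 g6 k18 k32
        have k49 : e6 ≤ e2 := le_trans k44 k6
        have k50 : e6 ≤ e4 := le_trans k44 k21
        have k51 : ¬ e0 ≤ e6 := N2 k35 k45
        obtain ⟨e7, q7⟩ : ∃ y, f e6 = y := ⟨_, rfl⟩
        have k59 : ¬ e7 ≤ e6 := FB hG q7
        have k60 : e7 ≤ e1 := MO hf q7 q1 k44
        have k61 : e7 ≤ e3 := MO hf q7 q3 k49
        have k62 : e7 ≤ e5 := MO hf q7 q5 k50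
        have k63 : ¬ e7 ≤ e0 := G5 g6 k62 k59
        have k64 : e7 ≤ e2 := le_trans k60 k7
        have k65 : e7 ≤ e4 := le_trans k60 k24
        by_cases k71 : ∃ z, IsGLB ({e0, e7} : Set P) z
        · obtain ⟨e8, g8⟩ := k71
          have c8 : Core e0 e8 := CM g8
          have k74 : e8 ≤ e0 := G1 g8
          have k75 : e8 ≤ e7 := G2 g8
          have k78 : e8 ≤ e4 := le_trans k74 k21
          have k79 : e8 ≤ e1 := le_trans k75 k60
          have k80 : e8 ≤ e3 := le_trans k75 k61
          have k81 : e8 ≤ e5 := le_trans k75 k62
          have k88 : ¬ e6 ≤ e8 := N2 k46 k79
          have k90 : e8 ≤ e6 := G3 g6 k74 k81
          obtain ⟨e9, q9⟩ : ∃ y, f e8 = y := ⟨_, rfl⟩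
          have k92 : ¬ e8 ≤ e9 := FA hF q9
          have k93 : ¬ e9 ≤ e8 := FB hG q9
          have k94 : e9 ≤ e1 := MO hf q9 q1 k74
          have k96 : e9 ≤ e5 := MO hf q9 q5 k78
          have k97 : e9 ≤ e7 := MO hf q9 q7 k90
          have k98 : ¬ e9 ≤ e0 := G5 g8 k97 k93
          have k99 : e9 ≤ e2 := le_trans k94 k7
          have k100 : e9 ≤ e4 := le_trans k94 k24
          have k109 : ¬ e9 ≤ e6 := N2 k98 k44
          by_cases k110 : ∃ z, IsGLB ({e0, e9} : Set P) z
          · obtain ⟨e10, g10⟩ := k110
            have c10 : Core e0 e10 := CM g10
            have k113 : e10 ≤ e0 := G1 g10
            have k114 : e10 ≤ e9 := G2 g10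
            have k121 : e10 ≤ e7 := le_trans k114 k97
            have k130 : ¬ e8 ≤ e10 := N2 k92 k114
            have k133 : e10 ≤ e8 := G3 g8 k113 k121
            exact HL _ _ _ _ _ _ c10 c8 c6 c0 c2 c4 (LT k133 k130) (LT k90 k88) (LT k44 k51) (LT k6 k10) (LT k29 k28)
          · obtain ⟨e10, l10⟩ := (h1 e9).resolve_right k110
            have c10 : Core e0 e10 := CJ k110 l10
            have k113 : e0 ≤ e10 := L1 l10
            have k114 : e9 ≤ e10 := L2 l10
            have k115 : e10 ≤ e2 := L3 l10 k6 k99
            have k130 : ¬ e10 ≤ e0 := N1 k98 k114
            have k131 : e2 ≤ e10 := Classical.byContradiction fun hn => HL _ _ _ _ _ _ c8 c6 c0 c10 c2 c4 (LT k90 k88) (LT k44 k51) (LT k113 k130) (LT k115 hn) (LT k29 k28)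
            obtain ⟨e11, l11⟩ := ZE h2 k96 k110 g6
            have c11 : Core e0 e11 := CZ g6 k110 l11
            have k136 : e6 ≤ e11 := L1 l11
            have k137 : e9 ≤ e11 := L2 l11
            have k138 : e11 ≤ e2 := L3 l11 k49 k99
            have k139 : e11 ≤ e4 := L3 l11 k50 k100
            have k140 : e11 ≤ e5 := L3 l11 k45 k96
            have k142 : e8 ≤ e11 := le_trans k90 k136
            have k143 : ¬ e0 ≤ e11 := N2 k35 k140
            have k144 : ¬ e2 ≤ e11 := N1 k143 k6
            have k155 : ¬ e11 ≤ e6 := N1 k109 k137
            obtain ⟨e12, q12⟩ : ∃ y, f e11 = y := ⟨_, rfl⟩
            have k158 : e7 ≤ e12 := MO hf q7 q12 k136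
            have k159 : e9 ≤ e12 := MO hf q9 q12 k142
            have k161 : ¬ e12 ≤ e11 := FB hG q12
            have k162 : e12 ≤ e3 := MO hf q12 q3 k138
            have k163 : e12 ≤ e5 := MO hf q12 q5 k139
            have k165 : e12 ≤ e4 := le_trans k162 k22
            have k166 : e8 ≤ e12 := le_trans k75 k158
            by_cases k176 : ∃ z, IsGLB ({e0, e12} : Set P) z
            · obtain ⟨e13, g13⟩ := k176
              have c13 : Core e0 e13 := CM g13
              have k179 : e13 ≤ e0 := G1 g13
              have k180 : e13 ≤ e12 := G2 g13
              have k181 : e8 ≤ e13 := G3 g13 k74 k166
              have k184 : e13 ≤ e2 := le_trans k179 k6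
              have k185 : e13 ≤ e4 := le_trans k179 k21
              have k187 : e13 ≤ e3 := le_trans k180 k162
              have k188 : e13 ≤ e5 := le_trans k180 k163
              have k196 : ¬ e6 ≤ e13 := N2 k47 k187
              have k201 : e13 ≤ e6 := G3 g6 k179 k188
              have k202 : e13 ≤ e11 := le_trans k201 k136
              have k203 : e13 ≤ e8 := Classical.byContradiction fun hn => HL _ _ _ _ _ _ c8 c13 c6 c0 c2 c4 (LT k181 hn) (LT k201 k196) (LT k44 k51) (LT k6 k10) (LT k29 k28)
              have k204 : e13 ≤ e1 := le_trans k203 k79
              have k205 : e13 ≤ e7 := le_trans k203 k75
              obtain ⟨e14, l14⟩ := ZE h2 k159 k110 g13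
              have c14 : Core e0 e14 := CZ g13 k110 l14
              have k208 : e13 ≤ e14 := L1 l14
              have k209 : e9 ≤ e14 := L2 l14
              have k210 : e14 ≤ e1 := L3 l14 k204 k94
              have k211 : e14 ≤ e2 := L3 l14 k184 k99
              have k213 : e14 ≤ e4 := L3 l14 k185 k100
              have k217 : e14 ≤ e11 := L3 l14 k202 k137
              have k219 : e8 ≤ e14 := le_trans k181 k208
              have k226 : ¬ e6 ≤ e14 := N2 k46 k210
              have k227 : ¬ e11 ≤ e14 := N1 k226 k136
              have k231 : ¬ e14 ≤ e8 := N1 k93 k209
              obtain ⟨e15, q15⟩ : ∃ y, f e14 = y := ⟨_, rfl⟩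
              have k236 : e9 ≤ e15 := MO hf q9 q15 k219
              have k237 : ¬ e14 ≤ e15 := FA hF q15
              have k238 : ¬ e15 ≤ e14 := FB hG q15
              have k239 : e15 ≤ e3 := MO hf q15 q3 k211
              have k240 : e15 ≤ e5 := MO hf q15 q5 k213
              have k241 : e15 ≤ e12 := MO hf q15 q12 k217
              have k242 : ¬ e13 ≤ e15 := L5 l14 k236 k237
              have k243 : e15 ≤ e4 := le_trans k239 k22
              have k258 : ¬ e8 ≤ e15 := N1 k242 k203
              by_cases k261 : ∃ z, IsGLB ({e0, e15} : Set P) z
              · obtain ⟨e16, g16⟩ := k261
                have c16 : Core e0 e16 := CM g16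
                have k264 : e16 ≤ e0 := G1 g16
                have k265 : e16 ≤ e15 := G2 g16
                have k273 : e16 ≤ e12 := le_trans k265 k241
                have k285 : ¬ e8 ≤ e16 := N2 k258 k265
                have k286 : ¬ e13 ≤ e16 := N1 k285 k181
                have k291 : e16 ≤ e13 := G3 g13 k264 k273
                exact HL _ _ _ _ _ _ c16 c13 c6 c0 c2 c4 (LT k291 k286) (LT k201 k196) (LT k44 k51) (LT k6 k10) (LT k29 k28)
              · obtain ⟨e16, l16⟩ := (h1 e15).resolve_right k261
                have c16 : Core e0 e16 := CJ k261 l16
                have k264 : e0 ≤ e16 := L1 l16
                have k265 : e15 ≤ e16 := L2 l16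
                have k266 : e16 ≤ e4 := L3 l16 k21 k243
                have k271 : e9 ≤ e16 := le_trans k236 k265
                have k286 : e10 ≤ e16 := L3 l10 k264 k271
                have k290 : e2 ≤ e16 := le_trans k131 k286
                by_cases k292 : e16 ≤ e2
                · have k294 : e15 ≤ e2 := le_trans k265 k292
                  obtain ⟨e17, l17⟩ := ZE h2 k240 k261 g6
                  have c17 : Core e0 e17 := CZ g6 k261 l17
                  have k300 : e6 ≤ e17 := L1 l17
                  have k301 : e15 ≤ e17 := L2 l17
                  have k302 : e17 ≤ e2 := L3 l17 k49 k294
                  have k304 : e17 ≤ e5 := L3 l17 k45 k240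
                  have k309 : e9 ≤ e17 := le_trans k236 k301
                  have k310 : ¬ e0 ≤ e17 := N2 k35 k304
                  have k311 : ¬ e2 ≤ e17 := N1 k310 k6
                  have k329 : e11 ≤ e17 := L3 l11 k300 k309
                  have k331 : e17 ≤ e11 := Classical.byContradiction fun hn => HL _ _ _ _ _ _ c8 c14 c11 c17 c2 c4 (LT k219 k231) (LT k217 k227) (LT k329 hn) (LT k302 k311) (LT k29 k28)
                  have k332 : e15 ≤ e11 := le_trans k301 k331
                  obtain ⟨e18, l18⟩ := ZE h2 k241 k261 g13
                  have c18 : Core e0 e18 := CZ g13 k261 l18
                  have k336 : e13 ≤ e18 := L1 l18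
                  have k337 : e15 ≤ e18 := L2 l18
                  have k339 : e18 ≤ e3 := L3 l18 k187 k239
                  have k343 : e18 ≤ e11 := L3 l18 k202 k332
                  have k348 : e9 ≤ e18 := le_trans k236 k337
                  have k356 : ¬ e6 ≤ e18 := N2 k47 k339
                  have k357 : ¬ e11 ≤ e18 := N1 k356 k136
                  have k366 : ¬ e18 ≤ e14 := N1 k238 k337
                  have k368 : e14 ≤ e18 := L3 l14 k336 k348
                  exact HL _ _ _ _ _ _ c8 c14 c18 c11 c2 c4 (LT k219 k231) (LT k368 k366) (LT k343 k357) (LT k138 k144) (LT k29 k28)
                · have k294 : ¬ e15 ≤ e2 := L4 l16 k6 k292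
                  have k299 : ¬ e15 ≤ e11 := N2 k294 k138
                  have k303 : e4 ≤ e16 := Classical.byContradiction fun hn => HL _ _ _ _ _ _ c8 c14 c11 c2 c16 c4 (LT k219 k231) (LT k217 k227) (LT k138 k144) (LT k290 k292) (LT k266 hn)
                  obtain ⟨e17, l17⟩ := ZE h2 k240 k261 g6
                  have c17 : Core e0 e17 := CZ g6 k261 l17
                  have k308 : e6 ≤ e17 := L1 l17
                  have k309 : e15 ≤ e17 := L2 l17
                  have k310 : e17 ≤ e4 := L3 l17 k50 k243
                  have k311 : e17 ≤ e5 := L3 l17 k45 k240
                  have k313 : e8 ≤ e17 := le_trans k90 k308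
                  have k314 : e13 ≤ e17 := le_trans k201 k308
                  have k315 : e9 ≤ e17 := le_trans k236 k309
                  have k316 : ¬ e0 ≤ e17 := N2 k35 k311
                  have k318 : ¬ e4 ≤ e17 := N1 k316 k21
                  have k335 : ¬ e17 ≤ e11 := N1 k299 k309
                  have k337 : e11 ≤ e17 := L3 l11 k308 k315
                  have k338 : e14 ≤ e17 := L3 l14 k314 k315
                  obtain ⟨e18, q18⟩ : ∃ y, f e17 = y := ⟨_, rfl⟩
                  have k340 : e7 ≤ e18 := MO hf q7 q18 k308
                  have k341 : e9 ≤ e18 := MO hf q9 q18 k313
                  have k343 : e15 ≤ e18 := MO hf q15 q18 k338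
                  have k344 : ¬ e17 ≤ e18 := FA hF q18
                  have k345 : ¬ e18 ≤ e17 := FB hG q18
                  have k346 : e18 ≤ e5 := MO hf q18 q5 k310
                  have k347 : ¬ e6 ≤ e18 := L5 l17 k343 k344
                  have k348 : e8 ≤ e18 := le_trans k75 k340
                  have k349 : e13 ≤ e18 := le_trans k205 k340
                  by_cases k370 : ∃ z, IsGLB ({e0, e18} : Set P) z
                  · obtain ⟨e19, g19⟩ := k370
                    have c19 : Core e0 e19 := CM g19
                    obtain ⟨e20, l20⟩ := ZE h2 k341 k110 g19
                    have c20 : Core e0 e20 := CZ g19 k110 l20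
                    have k375 : e19 ≤ e0 := G1 g19
                    have k376 : e19 ≤ e18 := G2 g19
                    have k377 : e8 ≤ e19 := G3 g19 k74 k348
                    have k378 : e13 ≤ e19 := G3 g19 k179 k349
                    have k386 : e19 ≤ e4 := le_trans k375 k21
                    have k389 : e19 ≤ e5 := le_trans k376 k346
                    have k407 : ¬ e6 ≤ e19 := N2 k347 k376
                    have k426 : e19 ≤ e6 := G3 g6 k375 k389
                    have k434 : e19 ≤ e17 := le_trans k426 k308
                    have k441 : e19 ≤ e8 := Classical.byContradiction fun hn => HL _ _ _ _ _ _ c8 c19 c6 c0 c2 c4 (LT k377 hn) (LT k426 k407) (LT k44 k51) (LT k6 k10) (LT k29 k28)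
                    have k443 : e19 ≤ e3 := le_trans k441 k80
                    obtain ⟨e21, l21⟩ := ZE h2 k343 k261 g19
                    have c21 : Core e0 e21 := CZ g19 k261 l21
                    have k455 : e19 ≤ e21 := L1 l21
                    have k456 : e15 ≤ e21 := L2 l21
                    have k457 : e21 ≤ e3 := L3 l21 k443 k239
                    have k458 : e21 ≤ e4 := L3 l21 k386 k243
                    have k462 : e21 ≤ e17 := L3 l21 k434 k309
                    have k464 : e9 ≤ e21 := le_trans k236 k456
                    have k466 : e13 ≤ e21 := le_trans k378 k455
                    have k473 : ¬ e6 ≤ e21 := N2 k47 k457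
                    have k475 : ¬ e17 ≤ e21 := N1 k473 k308
                    have k488 : ¬ e21 ≤ e14 := N1 k238 k456
                    have k492 : e14 ≤ e21 := L3 l14 k466 k464
                    obtain ⟨e22, q22⟩ : ∃ y, f e21 = y := ⟨_, rfl⟩
                    have k496 : e15 ≤ e22 := MO hf q15 q22 k492
                    have k497 : ¬ e21 ≤ e22 := FA hF q22
                    have k498 : ¬ e22 ≤ e21 := FB hG q22
                    have k499 : e22 ≤ e5 := MO hf q22 q5 k458
                    have k500 : e22 ≤ e18 := MO hf q22 q18 k462
                    have k501 : ¬ e19 ≤ e22 := L5 l21 k496 k497
                    have k527 : ¬ e8 ≤ e22 := N1 k501 k441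
                    by_cases k534 : ∃ z, IsGLB ({e0, e22} : Set P) z
                    · obtain ⟨e23, g23⟩ := k534
                      have c23 : Core e0 e23 := CM g23
                      have k537 : e23 ≤ e0 := G1 g23
                      have k538 : e23 ≤ e22 := G2 g23
                      have k547 : e23 ≤ e18 := le_trans k538 k500
                      have k562 : ¬ e8 ≤ e23 := N2 k527 k538
                      have k565 : ¬ e19 ≤ e23 := N1 k562 k377
                      have k572 : e23 ≤ e19 := G3 g19 k537 k547
                      exact HL _ _ _ _ _ _ c23 c19 c6 c0 c2 c4 (LT k572 k565) (LT k426 k407) (LT k44 k51) (LT k6 k10) (LT k29 k28)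
                    · obtain ⟨e23, l23⟩ := (h1 e22).resolve_right k534
                      have c23 : Core e0 e23 := CJ k534 l23
                      have k537 : e0 ≤ e23 := L1 l23
                      have k538 : e22 ≤ e23 := L2 l23
                      have k545 : e15 ≤ e23 := le_trans k496 k538
                      have k570 : e16 ≤ e23 := L3 l16 k537 k545
                      have k578 : e4 ≤ e23 := le_trans k303 k570
                      have k580 : e23 ≤ e4 := Classical.byContradiction fun hn => HL _ _ _ _ _ _ c8 c14 c21 c17 c4 c23 (LT k219 k231) (LT k492 k488) (LT k462 k475) (LT k310 k318) (LT k578 hn)
                      have k582 : e22 ≤ e4 := le_trans k538 k580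
                      obtain ⟨e24, l24⟩ := ZE h2 k499 k534 g6
                      have c24 : Core e0 e24 := CZ g6 k534 l24
                      have k587 : e6 ≤ e24 := L1 l24
                      have k588 : e22 ≤ e24 := L2 l24
                      have k589 : e24 ≤ e4 := L3 l24 k50 k582
                      have k590 : e24 ≤ e5 := L3 l24 k45 k499
                      have k597 : e15 ≤ e24 := le_trans k496 k588
                      have k598 : ¬ e0 ≤ e24 := N2 k35 k590
                      have k600 : ¬ e4 ≤ e24 := N1 k598 k21
                      have k627 : e17 ≤ e24 := L3 l17 k587 k597
                      have k630 : e24 ≤ e17 := Classical.byContradiction fun hn => HL _ _ _ _ _ _ c8 c14 c21 c17 c24 c4 (LT k219 k231) (LT k492 k488) (LT k462 k475) (LT k627 hn) (LT k589 k600)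
                      have k631 : e22 ≤ e17 := le_trans k588 k630
                      obtain ⟨e25, l25⟩ := ZE h2 k500 k534 g19
                      have c25 : Core e0 e25 := CZ g19 k534 l25
                      have k635 : e19 ≤ e25 := L1 l25
                      have k636 : e22 ≤ e25 := L2 l25
                      have k640 : e25 ≤ e17 := L3 l25 k434 k631
                      have k641 : e25 ≤ e18 := L3 l25 k376 k500
                      have k647 : e15 ≤ e25 := le_trans k496 k636
                      have k655 : ¬ e6 ≤ e25 := N2 k347 k641
                      have k657 : ¬ e17 ≤ e25 := N1 k655 k308
                      have k675 : ¬ e25 ≤ e21 := N1 k498 k636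
                      have k679 : e21 ≤ e25 := L3 l21 k635 k647
                      exact HL _ _ _ _ _ _ c8 c14 c21 c25 c17 c4 (LT k219 k231) (LT k492 k488) (LT k679 k675) (LT k640 k657) (LT k310 k318)
                  · obtain ⟨e19, l19⟩ := (h1 e18).resolve_right k370
                    have c19 : Core e0 e19 := CJ k370 l19
                    have k373 : e0 ≤ e19 := L1 l19
                    have k374 : e18 ≤ e19 := L2 l19
                    have k383 : e15 ≤ e19 := le_trans k343 k374
                    have k403 : e16 ≤ e19 := L3 l16 k373 k383
                    have k408 : e4 ≤ e19 := le_trans k303 k403
                    have k409 : e19 ≤ e4 := Classical.byContradiction fun hn => HL _ _ _ _ _ _ c8 c14 c11 c17 c4 c19 (LT k219 k231) (LT k217 k227) (LT k337 k335) (LT k310 k318) (LT k408 hn)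
                    have k411 : e18 ≤ e4 := le_trans k374 k409
                    obtain ⟨e20, l20⟩ := ZE h2 k346 k370 g6
                    have c20 : Core e0 e20 := CZ g6 k370 l20
                    have k416 : e6 ≤ e20 := L1 l20
                    have k417 : e18 ≤ e20 := L2 l20
                    have k418 : e20 ≤ e4 := L3 l20 k50 k411
                    have k419 : e20 ≤ e5 := L3 l20 k45 k346
                    have k428 : e15 ≤ e20 := le_trans k343 k417
                    have k429 : ¬ e0 ≤ e20 := N2 k35 k419
                    have k431 : ¬ e4 ≤ e20 := N1 k429 k21
                    have k451 : ¬ e20 ≤ e17 := N1 k345 k417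
                    have k454 : e17 ≤ e20 := L3 l17 k416 k428
                    exact HL _ _ _ _ _ _ c8 c14 c11 c17 c20 c4 (LT k219 k231) (LT k217 k227) (LT k337 k335) (LT k454 k451) (LT k418 k431)
            · obtain ⟨e13, l13⟩ := (h1 e12).resolve_right k176
              have c13 : Core e0 e13 := CJ k176 l13
              have k179 : e0 ≤ e13 := L1 l13
              have k180 : e12 ≤ e13 := L2 l13
              have k181 : e13 ≤ e4 := L3 l13 k21 k165
              have k186 : e9 ≤ e13 := le_trans k159 k180
              have k198 : e10 ≤ e13 := L3 l10 k179 k186
              have k201 : e2 ≤ e13 := le_trans k131 k198
              by_cases k202 : e13 ≤ e2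
              · have k204 : e12 ≤ e2 := le_trans k180 k202
                obtain ⟨e14, l14⟩ := ZE h2 k163 k176 g6
                have c14 : Core e0 e14 := CZ g6 k176 l14
                have k211 : e6 ≤ e14 := L1 l14
                have k212 : e12 ≤ e14 := L2 l14
                have k213 : e14 ≤ e2 := L3 l14 k49 k204
                have k215 : e14 ≤ e5 := L3 l14 k45 k163
                have k220 : e9 ≤ e14 := le_trans k159 k212
                have k221 : ¬ e0 ≤ e14 := N2 k35 k215
                have k222 : ¬ e2 ≤ e14 := N1 k221 k6
                have k236 : ¬ e14 ≤ e11 := N1 k161 k212
                have k238 : e11 ≤ e14 := L3 l11 k211 k220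
                exact HL _ _ _ _ _ _ c8 c6 c11 c14 c2 c4 (LT k90 k88) (LT k136 k155) (LT k238 k236) (LT k213 k222) (LT k29 k28)
              · have k208 : e4 ≤ e13 := Classical.byContradiction fun hn => HL _ _ _ _ _ _ c8 c6 c11 c2 c13 c4 (LT k90 k88) (LT k136 k155) (LT k138 k144) (LT k201 k202) (LT k181 hn)
                obtain ⟨e14, l14⟩ := ZE h2 k163 k176 g6
                have c14 : Core e0 e14 := CZ g6 k176 l14
                have k212 : e6 ≤ e14 := L1 l14
                have k213 : e12 ≤ e14 := L2 l14
                have k214 : e14 ≤ e4 := L3 l14 k50 k165
                have k215 : e14 ≤ e5 := L3 l14 k45 k163
                have k219 : e9 ≤ e14 := le_trans k159 k213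
                have k220 : ¬ e0 ≤ e14 := N2 k35 k215
                have k222 : ¬ e4 ≤ e14 := N1 k220 k21
                have k236 : ¬ e14 ≤ e11 := N1 k161 k213
                have k238 : e11 ≤ e14 := L3 l11 k212 k219
                obtain ⟨e15, q15⟩ : ∃ y, f e14 = y := ⟨_, rfl⟩
                have k240 : e7 ≤ e15 := MO hf q7 q15 k212
                have k242 : e12 ≤ e15 := MO hf q12 q15 k238
                have k243 : ¬ e14 ≤ e15 := FA hF q15
                have k244 : ¬ e15 ≤ e14 := FB hG q15
                have k245 : e15 ≤ e5 := MO hf q15 q5 k214
                have k246 : ¬ e6 ≤ e15 := L5 l14 k242 k243
                have k247 : e8 ≤ e15 := le_trans k75 k240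
                by_cases k265 : ∃ z, IsGLB ({e0, e15} : Set P) z
                · obtain ⟨e16, g16⟩ := k265
                  have c16 : Core e0 e16 := CM g16
                  have k268 : e16 ≤ e0 := G1 g16
                  have k269 : e16 ≤ e15 := G2 g16
                  have k270 : e8 ≤ e16 := G3 g16 k74 k247
                  have k272 : ¬ e16 ≤ e12 := BN3 g16 k176 k242
                  have k278 : e16 ≤ e5 := le_trans k269 k245
                  have k287 : ¬ e6 ≤ e16 := N2 k246 k269
                  have k295 : ¬ e16 ≤ e8 := N2 k272 k166
                  have k296 : e16 ≤ e6 := G3 g6 k268 k278
                  exact HL _ _ _ _ _ _ c8 c16 c6 c0 c2 c4 (LT k270 k295) (LT k296 k287) (LT k44 k51) (LT k6 k10) (LT k29 k28)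
                · obtain ⟨e16, l16⟩ := (h1 e15).resolve_right k265
                  have c16 : Core e0 e16 := CJ k265 l16
                  have k268 : e0 ≤ e16 := L1 l16
                  have k269 : e15 ≤ e16 := L2 l16
                  have k275 : e12 ≤ e16 := le_trans k242 k269
                  have k292 : e13 ≤ e16 := L3 l13 k268 k275
                  have k297 : e4 ≤ e16 := le_trans k208 k292
                  have k298 : e16 ≤ e4 := Classical.byContradiction fun hn => HL _ _ _ _ _ _ c8 c6 c11 c14 c4 c16 (LT k90 k88) (LT k136 k155) (LT k238 k236) (LT k214 k222) (LT k297 hn)
                  have k300 : e15 ≤ e4 := le_trans k269 k298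
                  obtain ⟨e17, l17⟩ := ZE h2 k245 k265 g6
                  have c17 : Core e0 e17 := CZ g6 k265 l17
                  have k305 : e6 ≤ e17 := L1 l17
                  have k306 : e15 ≤ e17 := L2 l17
                  have k307 : e17 ≤ e4 := L3 l17 k50 k300
                  have k308 : e17 ≤ e5 := L3 l17 k45 k245
                  have k314 : e12 ≤ e17 := le_trans k242 k306
                  have k315 : ¬ e0 ≤ e17 := N2 k35 k308
                  have k317 : ¬ e4 ≤ e17 := N1 k315 k21
                  have k334 : ¬ e17 ≤ e14 := N1 k244 k306
                  have k337 : e14 ≤ e17 := L3 l14 k305 k314
                  exact HL _ _ _ _ _ _ c8 c6 c11 c14 c17 c4 (LT k90 k88) (LT k136 k155) (LT k238 k236) (LT k337 k334) (LT k307 k317)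
        · obtain ⟨e8, l8⟩ := (h1 e7).resolve_right k71
          have c8 : Core e0 e8 := CJ k71 l8
          have k74 : e0 ≤ e8 := L1 l8
          have k75 : e7 ≤ e8 := L2 l8
          have k76 : e8 ≤ e2 := L3 l8 k6 k64
          have k77 : e8 ≤ e4 := L3 l8 k21 k65
          have k79 : e6 ≤ e8 := le_trans k44 k74
          have k85 : ¬ e3 ≤ e8 := N2 k14 k76
          have k86 : ¬ e4 ≤ e8 := N1 k85 k22
          have k88 : ¬ e8 ≤ e0 := N1 k63 k75
          by_cases k89 : e2 ≤ e8
          · obtain ⟨e9, l9⟩ := ZE h2 k62 k71 g6
            have c9 : Core e0 e9 := CZ g6 k71 l9
            have k93 : e6 ≤ e9 := L1 l9
            have k94 : e7 ≤ e9 := L2 l9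
            have k95 : e9 ≤ e2 := L3 l9 k49 k64
            have k96 : e9 ≤ e4 := L3 l9 k50 k65
            have k97 : e9 ≤ e5 := L3 l9 k45 k62
            have k99 : ¬ e0 ≤ e9 := N2 k35 k97
            have k100 : ¬ e2 ≤ e9 := N1 k99 k6
            have k109 : ¬ e9 ≤ e6 := N1 k59 k94
            obtain ⟨e10, q10⟩ : ∃ y, f e9 = y := ⟨_, rfl⟩
            have k112 : e7 ≤ e10 := MO hf q7 q10 k93
            have k114 : ¬ e10 ≤ e9 := FB hG q10
            have k115 : e10 ≤ e3 := MO hf q10 q3 k95
            have k116 : e10 ≤ e5 := MO hf q10 q5 k96
            have k118 : e10 ≤ e4 := le_trans k115 k22
            by_cases k127 : ∃ z, IsGLB ({e0, e10} : Set P) z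
            · obtain ⟨e11, g11⟩ := k127
              have c11 : Core e0 e11 := CM g11
              have k130 : e11 ≤ e0 := G1 g11
              have k131 : e11 ≤ e10 := G2 g11
              have k132 : ¬ e11 ≤ e7 := BN3 g11 k71 k112
              have k134 : e11 ≤ e2 := le_trans k130 k6
              have k135 : e11 ≤ e4 := le_trans k130 k21
              have k137 : e11 ≤ e3 := le_trans k131 k115
              have k138 : e11 ≤ e5 := le_trans k131 k116
              have k146 : ¬ e6 ≤ e11 := N2 k47 k137
              have k150 : e11 ≤ e6 := G3 g6 k130 k138
              have k151 : e11 ≤ e9 := le_trans k150 k93
              obtain ⟨e12, q12⟩ : ∃ y, f e11 = y := ⟨_, rfl⟩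
              have k154 : ¬ e12 ≤ e11 := FB hG q12
              have k155 : e12 ≤ e1 := MO hf q12 q1 k130
              have k156 : e12 ≤ e3 := MO hf q12 q3 k134
              have k157 : e12 ≤ e5 := MO hf q12 q5 k135
              have k158 : e12 ≤ e7 := MO hf q12 q7 k150
              have k159 : e12 ≤ e10 := MO hf q12 q10 k151
              have k160 : ¬ e12 ≤ e0 := G5 g11 k159 k154
              have k161 : e12 ≤ e2 := le_trans k155 k7
              have k162 : e12 ≤ e4 := le_trans k155 k24
              have k164 : e12 ≤ e9 := le_trans k158 k94
              have k174 : ¬ e12 ≤ e6 := N2 k160 k44
              by_cases k175 : ∃ z, IsGLB ({e0, e12} : Set P) z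
              · obtain ⟨e13, g13⟩ := k175
                have c13 : Core e0 e13 := CM g13
                have k178 : e13 ≤ e0 := G1 g13
                have k179 : e13 ≤ e12 := G2 g13
                have k187 : e13 ≤ e7 := le_trans k179 k158
                have k189 : e13 ≤ e10 := le_trans k179 k159
                have k201 : ¬ e11 ≤ e13 := N2 k132 k187
                have k204 : e13 ≤ e11 := G3 g11 k178 k189
                exact HL _ _ _ _ _ _ c13 c11 c6 c0 c2 c4 (LT k204 k201) (LT k150 k146) (LT k44 k51) (LT k6 k10) (LT k29 k28)
              · obtain ⟨e13, l13⟩ := ZE h2 k157 k175 g6
                have c13 : Core e0 e13 := CZ g6 k175 l13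
                have k178 : e6 ≤ e13 := L1 l13
                have k179 : e12 ≤ e13 := L2 l13
                have k184 : e13 ≤ e9 := L3 l13 k93 k164
                have k200 : ¬ e13 ≤ e6 := N1 k174 k179
                have k202 : e9 ≤ e13 := Classical.byContradiction fun hn => HL _ _ _ _ _ _ c11 c6 c13 c9 c2 c4 (LT k150 k146) (LT k178 k200) (LT k184 hn) (LT k95 k100) (LT k29 k28)
                have k203 : e7 ≤ e13 := le_trans k94 k202
                obtain ⟨e14, l14⟩ := ZE h2 k159 k175 g11
                have c14 : Core e0 e14 := CZ g11 k175 l14
                have k206 : e11 ≤ e14 := L1 l14
                have k207 : e12 ≤ e14 := L2 l14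
                have k208 : e14 ≤ e2 := L3 l14 k134 k161
                have k209 : e14 ≤ e3 := L3 l14 k137 k156
                have k210 : e14 ≤ e4 := L3 l14 k135 k162
                have k213 : e14 ≤ e9 := L3 l14 k151 k164
                have k222 : ¬ e6 ≤ e14 := N2 k47 k209
                have k223 : ¬ e9 ≤ e14 := N1 k222 k93
                have k230 : ¬ e14 ≤ e11 := N1 k154 k207
                obtain ⟨e15, q15⟩ : ∃ y, f e14 = y := ⟨_, rfl⟩
                have k233 : e12 ≤ e15 := MO hf q12 q15 k206
                have k234 : ¬ e14 ≤ e15 := FA hF q15
                have k235 : ¬ e15 ≤ e14 := FB hG q15
                have k236 : e15 ≤ e3 := MO hf q15 q3 k208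
                have k237 : e15 ≤ e5 := MO hf q15 q5 k210
                have k238 : e15 ≤ e10 := MO hf q15 q10 k213
                have k239 : ¬ e11 ≤ e15 := L5 l14 k233 k234
                have k240 : e15 ≤ e4 := le_trans k236 k22
                by_cases k255 : ∃ z, IsGLB ({e0, e15} : Set P) z
                · obtain ⟨e16, g16⟩ := k255
                  have c16 : Core e0 e16 := CM g16
                  have k258 : e16 ≤ e0 := G1 g16
                  have k259 : e16 ≤ e15 := G2 g16
                  have k267 : e16 ≤ e10 := le_trans k259 k238
                  have k280 : ¬ e11 ≤ e16 := N2 k239 k259
                  have k285 : e16 ≤ e11 := G3 g11 k258 k267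
                  exact HL _ _ _ _ _ _ c16 c11 c6 c0 c2 c4 (LT k285 k280) (LT k150 k146) (LT k44 k51) (LT k6 k10) (LT k29 k28)
                · obtain ⟨e16, l16⟩ := (h1 e15).resolve_right k255
                  have c16 : Core e0 e16 := CJ k255 l16
                  have k258 : e0 ≤ e16 := L1 l16
                  have k259 : e15 ≤ e16 := L2 l16
                  have k260 : e16 ≤ e4 := L3 l16 k21 k240
                  have k262 : e6 ≤ e16 := le_trans k44 k258
                  have k264 : e12 ≤ e16 := le_trans k233 k259
                  have k279 : e13 ≤ e16 := L3 l13 k262 k264
                  have k281 : e7 ≤ e16 := le_trans k203 k279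
                  have k283 : e8 ≤ e16 := L3 l8 k258 k281
                  have k285 : e2 ≤ e16 := le_trans k89 k283
                  by_cases k286 : e16 ≤ e2
                  · have k288 : e15 ≤ e2 := le_trans k259 k286
                    obtain ⟨e17, l17⟩ := ZE h2 k237 k255 g6
                    have c17 : Core e0 e17 := CZ g6 k255 l17
                    have k294 : e6 ≤ e17 := L1 l17
                    have k295 : e15 ≤ e17 := L2 l17
                    have k296 : e17 ≤ e2 := L3 l17 k49 k288
                    have k298 : e17 ≤ e5 := L3 l17 k45 k237
                    have k302 : e12 ≤ e17 := le_trans k233 k295
                    have k303 : ¬ e0 ≤ e17 := N2 k35 k298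
                    have k304 : ¬ e2 ≤ e17 := N1 k303 k6
                    have k321 : e13 ≤ e17 := L3 l13 k294 k302
                    have k324 : e9 ≤ e17 := le_trans k202 k321
                    have k325 : e17 ≤ e9 := Classical.byContradiction fun hn => HL _ _ _ _ _ _ c11 c14 c9 c17 c2 c4 (LT k206 k230) (LT k213 k223) (LT k324 hn) (LT k296 k304) (LT k29 k28)
                    have k327 : e15 ≤ e9 := le_trans k295 k325
                    obtain ⟨e18, l18⟩ := ZE h2 k238 k255 g11
                    have c18 : Core e0 e18 := CZ g11 k255 l18
                    have k332 : e11 ≤ e18 := L1 l18
                    have k333 : e15 ≤ e18 := L2 l18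
                    have k335 : e18 ≤ e3 := L3 l18 k137 k236
                    have k339 : e18 ≤ e9 := L3 l18 k151 k327
                    have k344 : e12 ≤ e18 := le_trans k233 k333
                    have k352 : ¬ e6 ≤ e18 := N2 k47 k335
                    have k353 : ¬ e9 ≤ e18 := N1 k352 k93
                    have k363 : ¬ e18 ≤ e14 := N1 k235 k333
                    have k365 : e14 ≤ e18 := L3 l14 k332 k344
                    exact HL _ _ _ _ _ _ c11 c14 c18 c9 c2 c4 (LT k206 k230) (LT k365 k363) (LT k339 k353) (LT k95 k100) (LT k29 k28)
                  · have k288 : ¬ e15 ≤ e2 := L4 l16 k6 k286
                    have k293 : ¬ e15 ≤ e9 := N2 k288 k95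
                    have k297 : e4 ≤ e16 := Classical.byContradiction fun hn => HL _ _ _ _ _ _ c11 c14 c9 c2 c16 c4 (LT k206 k230) (LT k213 k223) (LT k95 k100) (LT k285 k286) (LT k260 hn)
                    obtain ⟨e17, l17⟩ := ZE h2 k237 k255 g6
                    have c17 : Core e0 e17 := CZ g6 k255 l17
                    have k302 : e6 ≤ e17 := L1 l17
                    have k303 : e15 ≤ e17 := L2 l17
                    have k304 : e17 ≤ e4 := L3 l17 k50 k240
                    have k305 : e17 ≤ e5 := L3 l17 k45 k237
                    have k307 : e11 ≤ e17 := le_trans k150 k302
                    have k308 : e12 ≤ e17 := le_trans k233 k303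
                    have k309 : ¬ e0 ≤ e17 := N2 k35 k305
                    have k311 : ¬ e4 ≤ e17 := N1 k309 k21
                    have k327 : ¬ e17 ≤ e9 := N1 k293 k303
                    have k330 : e13 ≤ e17 := L3 l13 k302 k308
                    have k331 : e14 ≤ e17 := L3 l14 k307 k308
                    have k333 : e9 ≤ e17 := le_trans k202 k330
                    obtain ⟨e18, q18⟩ : ∃ y, f e17 = y := ⟨_, rfl⟩
                    have k336 : e10 ≤ e18 := MO hf q10 q18 k333
                    have k337 : e12 ≤ e18 := MO hf q12 q18 k307
                    have k338 : e15 ≤ e18 := MO hf q15 q18 k331
                    have k339 : ¬ e17 ≤ e18 := FA hF q18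
                    have k340 : ¬ e18 ≤ e17 := FB hG q18
                    have k341 : e18 ≤ e5 := MO hf q18 q5 k304
                    have k342 : ¬ e6 ≤ e18 := L5 l17 k338 k339
                    have k343 : e11 ≤ e18 := le_trans k131 k336
                    by_cases k365 : ∃ z, IsGLB ({e0, e18} : Set P) z
                    · obtain ⟨e19, g19⟩ := k365
                      have c19 : Core e0 e19 := CM g19
                      obtain ⟨e20, l20⟩ := ZE h2 k337 k175 g19
                      have c20 : Core e0 e20 := CZ g19 k175 l20
                      have k370 : e19 ≤ e0 := G1 g19
                      have k371 : e19 ≤ e18 := G2 g19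
                      have k372 : e11 ≤ e19 := G3 g19 k130 k343
                      have k381 : e19 ≤ e4 := le_trans k370 k21
                      have k384 : e19 ≤ e5 := le_trans k371 k341
                      have k401 : ¬ e6 ≤ e19 := N2 k342 k371
                      have k422 : e19 ≤ e6 := G3 g6 k370 k384
                      have k431 : e19 ≤ e17 := le_trans k422 k302
                      have k439 : e19 ≤ e11 := Classical.byContradiction fun hn => HL _ _ _ _ _ _ c11 c19 c6 c0 c2 c4 (LT k372 hn) (LT k422 k401) (LT k44 k51) (LT k6 k10) (LT k29 k28)
                      have k440 : e19 ≤ e3 := le_trans k439 k137
                      obtain ⟨e21, l21⟩ := ZE h2 k338 k255 g19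
                      have c21 : Core e0 e21 := CZ g19 k255 l21
                      have k448 : e19 ≤ e21 := L1 l21
                      have k449 : e15 ≤ e21 := L2 l21
                      have k450 : e21 ≤ e3 := L3 l21 k440 k236
                      have k451 : e21 ≤ e4 := L3 l21 k381 k240
                      have k455 : e21 ≤ e17 := L3 l21 k431 k303
                      have k457 : e12 ≤ e21 := le_trans k233 k449
                      have k458 : e11 ≤ e21 := le_trans k372 k448
                      have k465 : ¬ e6 ≤ e21 := N2 k47 k450
                      have k468 : ¬ e17 ≤ e21 := N1 k465 k302
                      have k481 : ¬ e21 ≤ e14 := N1 k235 k449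
                      have k485 : e14 ≤ e21 := L3 l14 k458 k457
                      obtain ⟨e22, q22⟩ : ∃ y, f e21 = y := ⟨_, rfl⟩
                      have k489 : e15 ≤ e22 := MO hf q15 q22 k485
                      have k490 : ¬ e21 ≤ e22 := FA hF q22
                      have k491 : ¬ e22 ≤ e21 := FB hG q22
                      have k492 : e22 ≤ e5 := MO hf q22 q5 k451
                      have k493 : e22 ≤ e18 := MO hf q22 q18 k455
                      have k494 : ¬ e19 ≤ e22 := L5 l21 k489 k490
                      have k520 : ¬ e11 ≤ e22 := N1 k494 k439
                      by_cases k525 : ∃ z, IsGLB ({e0, e22} : Set P) z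
                      · obtain ⟨e23, g23⟩ := k525
                        have c23 : Core e0 e23 := CM g23
                        have k528 : e23 ≤ e0 := G1 g23
                        have k529 : e23 ≤ e22 := G2 g23
                        have k538 : e23 ≤ e18 := le_trans k529 k493
                        have k554 : ¬ e11 ≤ e23 := N2 k520 k529
                        have k556 : ¬ e19 ≤ e23 := N1 k554 k372
                        have k563 : e23 ≤ e19 := G3 g19 k528 k538
                        exact HL _ _ _ _ _ _ c23 c19 c6 c0 c2 c4 (LT k563 k556) (LT k422 k401) (LT k44 k51) (LT k6 k10) (LT k29 k28)
                      · obtain ⟨e23, l23⟩ := (h1 e22).resolve_right k525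
                        have c23 : Core e0 e23 := CJ k525 l23
                        have k528 : e0 ≤ e23 := L1 l23
                        have k529 : e22 ≤ e23 := L2 l23
                        have k535 : e15 ≤ e23 := le_trans k489 k529
                        have k559 : e16 ≤ e23 := L3 l16 k528 k535
                        have k568 : e4 ≤ e23 := le_trans k297 k559
                        have k571 : e23 ≤ e4 := Classical.byContradiction fun hn => HL _ _ _ _ _ _ c11 c14 c21 c17 c4 c23 (LT k206 k230) (LT k485 k481) (LT k455 k468) (LT k304 k311) (LT k568 hn)
                        have k573 : e22 ≤ e4 := le_trans k529 k571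
                        obtain ⟨e24, l24⟩ := ZE h2 k492 k525 g6
                        have c24 : Core e0 e24 := CZ g6 k525 l24
                        have k578 : e6 ≤ e24 := L1 l24
                        have k579 : e22 ≤ e24 := L2 l24
                        have k580 : e24 ≤ e4 := L3 l24 k50 k573
                        have k581 : e24 ≤ e5 := L3 l24 k45 k492
                        have k587 : e15 ≤ e24 := le_trans k489 k579
                        have k588 : ¬ e0 ≤ e24 := N2 k35 k581
                        have k590 : ¬ e4 ≤ e24 := N1 k588 k21
                        have k617 : e17 ≤ e24 := L3 l17 k578 k587
                        have k622 : e24 ≤ e17 := Classical.byContradiction fun hn => HL _ _ _ _ _ _ c11 c14 c21 c17 c24 c4 (LT k206 k230) (LT k485 k481) (LT k455 k468) (LT k617 hn) (LT k580 k590)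
                        have k623 : e22 ≤ e17 := le_trans k579 k622
                        obtain ⟨e25, l25⟩ := ZE h2 k493 k525 g19
                        have c25 : Core e0 e25 := CZ g19 k525 l25
                        have k627 : e19 ≤ e25 := L1 l25
                        have k628 : e22 ≤ e25 := L2 l25
                        have k632 : e25 ≤ e17 := L3 l25 k431 k623
                        have k633 : e25 ≤ e18 := L3 l25 k371 k493
                        have k638 : e15 ≤ e25 := le_trans k489 k628
                        have k646 : ¬ e6 ≤ e25 := N2 k342 k633
                        have k649 : ¬ e17 ≤ e25 := N1 k646 k302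
                        have k667 : ¬ e25 ≤ e21 := N1 k491 k628
                        have k671 : e21 ≤ e25 := L3 l21 k627 k638
                        exact HL _ _ _ _ _ _ c11 c14 c21 c25 c17 c4 (LT k206 k230) (LT k485 k481) (LT k671 k667) (LT k632 k649) (LT k304 k311)
                    · obtain ⟨e19, l19⟩ := (h1 e18).resolve_right k365
                      have c19 : Core e0 e19 := CJ k365 l19
                      have k368 : e0 ≤ e19 := L1 l19
                      have k369 : e18 ≤ e19 := L2 l19
                      have k377 : e15 ≤ e19 := le_trans k338 k369
                      have k398 : e16 ≤ e19 := L3 l16 k368 k377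
                      have k403 : e4 ≤ e19 := le_trans k297 k398
                      have k404 : e19 ≤ e4 := Classical.byContradiction fun hn => HL _ _ _ _ _ _ c11 c14 c9 c17 c4 c19 (LT k206 k230) (LT k213 k223) (LT k333 k327) (LT k304 k311) (LT k403 hn)
                      have k406 : e18 ≤ e4 := le_trans k369 k404
                      obtain ⟨e20, l20⟩ := ZE h2 k341 k365 g6
                      have c20 : Core e0 e20 := CZ g6 k365 l20
                      have k411 : e6 ≤ e20 := L1 l20
                      have k412 : e18 ≤ e20 := L2 l20
                      have k413 : e20 ≤ e4 := L3 l20 k50 k406
                      have k414 : e20 ≤ e5 := L3 l20 k45 k341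
                      have k422 : e15 ≤ e20 := le_trans k338 k412
                      have k423 : ¬ e0 ≤ e20 := N2 k35 k414
                      have k425 : ¬ e4 ≤ e20 := N1 k423 k21
                      have k445 : ¬ e20 ≤ e17 := N1 k340 k412
                      have k449 : e17 ≤ e20 := L3 l17 k411 k422
                      exact HL _ _ _ _ _ _ c11 c14 c9 c17 c20 c4 (LT k206 k230) (LT k213 k223) (LT k333 k327) (LT k449 k445) (LT k413 k425)
            · obtain ⟨e11, l11⟩ := (h1 e10).resolve_right k127
              have c11 : Core e0 e11 := CJ k127 l11
              have k130 : e0 ≤ e11 := L1 l11
              have k131 : e10 ≤ e11 := L2 l11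
              have k132 : e11 ≤ e4 := L3 l11 k21 k118
              have k134 : e6 ≤ e11 := le_trans k44 k130
              have k135 : e7 ≤ e11 := le_trans k112 k131
              have k145 : e8 ≤ e11 := L3 l8 k130 k135
              have k146 : e9 ≤ e11 := L3 l9 k134 k135
              have k148 : e2 ≤ e11 := le_trans k89 k145
              by_cases k149 : e11 ≤ e2
              · have k151 : e10 ≤ e2 := le_trans k131 k149
                obtain ⟨e12, l12⟩ := ZE h2 k116 k127 g6
                have c12 : Core e0 e12 := CZ g6 k127 l12
                have k158 : e6 ≤ e12 := L1 l12
                have k159 : e10 ≤ e12 := L2 l12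
                have k160 : e12 ≤ e2 := L3 l12 k49 k151
                have k161 : e12 ≤ e4 := L3 l12 k50 k118
                have k162 : e12 ≤ e5 := L3 l12 k45 k116
                have k165 : e7 ≤ e12 := le_trans k112 k159
                have k166 : ¬ e0 ≤ e12 := N2 k35 k162
                have k167 : ¬ e2 ≤ e12 := N1 k166 k6
                have k179 : ¬ e12 ≤ e9 := N1 k114 k159
                have k181 : e9 ≤ e12 := L3 l9 k158 k165
                obtain ⟨e13, q13⟩ : ∃ y, f e12 = y := ⟨_, rfl⟩
                have k183 : e7 ≤ e13 := MO hf q7 q13 k158
                have k184 : e10 ≤ e13 := MO hf q10 q13 k181
                have k186 : ¬ e13 ≤ e12 := FB hG q13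
                have k187 : e13 ≤ e3 := MO hf q13 q3 k160
                have k188 : e13 ≤ e5 := MO hf q13 q5 k161
                have k190 : e13 ≤ e4 := le_trans k187 k22
                by_cases k203 : ∃ z, IsGLB ({e0, e13} : Set P) z
                · obtain ⟨e14, g14⟩ := k203
                  have c14 : Core e0 e14 := CM g14
                  have k206 : e14 ≤ e0 := G1 g14
                  have k207 : e14 ≤ e13 := G2 g14
                  have k215 : e14 ≤ e3 := le_trans k207 k187
                  have k216 : e14 ≤ e5 := le_trans k207 k188
                  have k225 : ¬ e6 ≤ e14 := N2 k47 k215
                  have k231 : e14 ≤ e6 := G3 g6 k206 k216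
                  exact HL _ _ _ _ _ _ c14 c6 c9 c12 c2 c4 (LT k231 k225) (LT k93 k109) (LT k181 k179) (LT k160 k167) (LT k29 k28)
                · obtain ⟨e14, l14⟩ := (h1 e13).resolve_right k203
                  have c14 : Core e0 e14 := CJ k203 l14
                  have k206 : e0 ≤ e14 := L1 l14
                  have k207 : e13 ≤ e14 := L2 l14
                  have k208 : e14 ≤ e4 := L3 l14 k21 k190
                  have k211 : e7 ≤ e14 := le_trans k183 k207
                  have k224 : e8 ≤ e14 := L3 l8 k206 k211
                  have k229 : e2 ≤ e14 := le_trans k89 k224
                  by_cases k230 : e14 ≤ e2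
                  · have k233 : e13 ≤ e2 := le_trans k207 k230
                    obtain ⟨e15, l15⟩ := ZE h2 k188 k203 g6
                    have c15 : Core e0 e15 := CZ g6 k203 l15
                    have k241 : e6 ≤ e15 := L1 l15
                    have k242 : e13 ≤ e15 := L2 l15
                    have k243 : e15 ≤ e2 := L3 l15 k49 k233
                    have k245 : e15 ≤ e5 := L3 l15 k45 k188
                    have k250 : e10 ≤ e15 := le_trans k184 k242
                    have k251 : ¬ e0 ≤ e15 := N2 k35 k245
                    have k252 : ¬ e2 ≤ e15 := N1 k251 k6
                    have k267 : ¬ e15 ≤ e12 := N1 k186 k242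
                    have k270 : e12 ≤ e15 := L3 l12 k241 k250
                    exact HL _ _ _ _ _ _ c6 c9 c12 c15 c2 c4 (LT k93 k109) (LT k181 k179) (LT k270 k267) (LT k243 k252) (LT k29 k28)
                  · have k237 : e4 ≤ e14 := Classical.byContradiction fun hn => HL _ _ _ _ _ _ c6 c9 c12 c2 c14 c4 (LT k93 k109) (LT k181 k179) (LT k160 k167) (LT k229 k230) (LT k208 hn)
                    obtain ⟨e15, l15⟩ := ZE h2 k188 k203 g6
                    have c15 : Core e0 e15 := CZ g6 k203 l15
                    have k241 : e6 ≤ e15 := L1 l15
                    have k242 : e13 ≤ e15 := L2 l15
                    have k243 : e15 ≤ e4 := L3 l15 k50 k190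
                    have k244 : e15 ≤ e5 := L3 l15 k45 k188
                    have k247 : e10 ≤ e15 := le_trans k184 k242
                    have k248 : ¬ e0 ≤ e15 := N2 k35 k244
                    have k250 : ¬ e4 ≤ e15 := N1 k248 k21
                    have k266 : ¬ e15 ≤ e12 := N1 k186 k242
                    have k269 : e12 ≤ e15 := L3 l12 k241 k247
                    obtain ⟨e16, q16⟩ : ∃ y, f e15 = y := ⟨_, rfl⟩
                    have k273 : e13 ≤ e16 := MO hf q13 q16 k269
                    have k274 : ¬ e15 ≤ e16 := FA hF q16
                    have k275 : ¬ e16 ≤ e15 := FB hG q16
                    have k276 : e16 ≤ e5 := MO hf q16 q5 k243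
                    have k277 : ¬ e6 ≤ e16 := L5 l15 k273 k274
                    by_cases k298 : ∃ z, IsGLB ({e0, e16} : Set P) z
                    · obtain ⟨e17, g17⟩ := k298
                      have c17 : Core e0 e17 := CM g17
                      have k301 : e17 ≤ e0 := G1 g17
                      have k302 : e17 ≤ e16 := G2 g17
                      have k312 : e17 ≤ e5 := le_trans k302 k276
                      have k322 : ¬ e6 ≤ e17 := N2 k277 k302
                      have k330 : e17 ≤ e6 := G3 g6 k301 k312
                      exact HL _ _ _ _ _ _ c17 c6 c9 c12 c2 c4 (LT k330 k322) (LT k93 k109) (LT k181 k179) (LT k160 k167) (LT k29 k28)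
                    · obtain ⟨e17, l17⟩ := (h1 e16).resolve_right k298
                      have c17 : Core e0 e17 := CJ k298 l17
                      have k301 : e0 ≤ e17 := L1 l17
                      have k302 : e16 ≤ e17 := L2 l17
                      have k307 : e13 ≤ e17 := le_trans k273 k302
                      have k327 : e14 ≤ e17 := L3 l14 k301 k307
                      have k332 : e4 ≤ e17 := le_trans k237 k327
                      have k333 : e17 ≤ e4 := Classical.byContradiction fun hn => HL _ _ _ _ _ _ c6 c9 c12 c15 c4 c17 (LT k93 k109) (LT k181 k179) (LT k269 k266) (LT k243 k250) (LT k332 hn)
                      have k335 : e16 ≤ e4 := le_trans k302 k333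
                      obtain ⟨e18, l18⟩ := ZE h2 k276 k298 g6
                      have c18 : Core e0 e18 := CZ g6 k298 l18
                      have k340 : e6 ≤ e18 := L1 l18
                      have k341 : e16 ≤ e18 := L2 l18
                      have k342 : e18 ≤ e4 := L3 l18 k50 k335
                      have k343 : e18 ≤ e5 := L3 l18 k45 k276
                      have k348 : e13 ≤ e18 := le_trans k273 k341
                      have k349 : ¬ e0 ≤ e18 := N2 k35 k343
                      have k351 : ¬ e4 ≤ e18 := N1 k349 k21
                      have k370 : ¬ e18 ≤ e15 := N1 k275 k341
                      have k374 : e15 ≤ e18 := L3 l15 k340 k348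
                      exact HL _ _ _ _ _ _ c6 c9 c12 c15 c18 c4 (LT k93 k109) (LT k181 k179) (LT k269 k266) (LT k374 k370) (LT k342 k351)
              · have k151 : ¬ e10 ≤ e2 := L4 l11 k6 k149
                by_cases k154 : e4 ≤ e11
                · obtain ⟨e12, l12⟩ := ZE h2 k116 k127 g6
                  have c12 : Core e0 e12 := CZ g6 k127 l12
                  have k158 : e6 ≤ e12 := L1 l12
                  have k159 : e10 ≤ e12 := L2 l12
                  have k160 : e12 ≤ e4 := L3 l12 k50 k118
                  have k161 : e12 ≤ e5 := L3 l12 k45 k116
                  have k163 : e7 ≤ e12 := le_trans k112 k159
                  have k164 : ¬ e0 ≤ e12 := N2 k35 k161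
                  have k166 : ¬ e4 ≤ e12 := N1 k164 k21
                  have k178 : ¬ e12 ≤ e9 := N1 k114 k159
                  have k180 : e9 ≤ e12 := L3 l9 k158 k163
                  obtain ⟨e13, q13⟩ : ∃ y, f e12 = y := ⟨_, rfl⟩
                  have k182 : e7 ≤ e13 := MO hf q7 q13 k158
                  have k183 : e10 ≤ e13 := MO hf q10 q13 k180
                  have k184 : ¬ e12 ≤ e13 := FA hF q13
                  have k185 : ¬ e13 ≤ e12 := FB hG q13
                  have k186 : e13 ≤ e5 := MO hf q13 q5 k160
                  have k187 : ¬ e6 ≤ e13 := L5 l12 k183 k184
                  by_cases k203 : ∃ z, IsGLB ({e0, e13} : Set P) z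
                  · obtain ⟨e14, g14⟩ := k203
                    have c14 : Core e0 e14 := CM g14
                    have k206 : e14 ≤ e0 := G1 g14
                    have k207 : e14 ≤ e13 := G2 g14
                    have k208 : ¬ e14 ≤ e7 := BN3 g14 k71 k182
                    have k209 : ¬ e14 ≤ e10 := BN3 g14 k127 k183
                    have k211 : e14 ≤ e2 := le_trans k206 k6
                    have k212 : e14 ≤ e4 := le_trans k206 k21
                    have k215 : e14 ≤ e5 := le_trans k207 k186
                    have k224 : ¬ e6 ≤ e14 := N2 k187 k207
                    have k230 : e14 ≤ e6 := G3 g6 k206 k215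
                    have k231 : e14 ≤ e9 := le_trans k230 k93
                    have k232 : e14 ≤ e12 := le_trans k230 k158
                    obtain ⟨e15, q15⟩ : ∃ y, f e14 = y := ⟨_, rfl⟩
                    have k235 : ¬ e15 ≤ e14 := FB hG q15
                    have k236 : e15 ≤ e1 := MO hf q15 q1 k206
                    have k238 : e15 ≤ e5 := MO hf q15 q5 k212
                    have k239 : e15 ≤ e7 := MO hf q15 q7 k230
                    have k241 : e15 ≤ e13 := MO hf q15 q13 k232
                    have k242 : ¬ e15 ≤ e0 := G5 g14 k241 k235
                    have k243 : e15 ≤ e2 := le_trans k236 k7
                    have k244 : e15 ≤ e4 := le_trans k236 k24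
                    have k247 : e15 ≤ e9 := le_trans k239 k94
                    have k248 : e15 ≤ e12 := le_trans k239 k163
                    have k261 : ¬ e15 ≤ e6 := N2 k242 k44
                    by_cases k262 : ∃ z, IsGLB ({e0, e15} : Set P) z
                    · obtain ⟨e16, g16⟩ := k262
                      have c16 : Core e0 e16 := CM g16
                      have k265 : e16 ≤ e0 := G1 g16
                      have k266 : e16 ≤ e15 := G2 g16
                      have k275 : e16 ≤ e7 := le_trans k266 k239
                      have k279 : e16 ≤ e13 := le_trans k266 k241
                      have k294 : ¬ e14 ≤ e16 := N2 k208 k275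
                      have k297 : e16 ≤ e14 := G3 g14 k265 k279
                      exact HL _ _ _ _ _ _ c16 c14 c6 c0 c2 c4 (LT k297 k294) (LT k230 k224) (LT k44 k51) (LT k6 k10) (LT k29 k28)
                    · obtain ⟨e16, l16⟩ := ZE h2 k238 k262 g6
                      have c16 : Core e0 e16 := CZ g6 k262 l16
                      have k265 : e6 ≤ e16 := L1 l16
                      have k266 : e15 ≤ e16 := L2 l16
                      have k271 : e16 ≤ e9 := L3 l16 k93 k247
                      have k293 : ¬ e16 ≤ e6 := N1 k261 k266
                      have k295 : e9 ≤ e16 := Classical.byContradiction fun hn => HL _ _ _ _ _ _ c14 c6 c16 c9 c2 c4 (LT k230 k224) (LT k265 k293) (LT k271 hn) (LT k95 k100) (LT k29 k28)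
                      obtain ⟨e17, l17⟩ := ZE h2 k241 k262 g14
                      have c17 : Core e0 e17 := CZ g14 k262 l17
                      have k299 : e14 ≤ e17 := L1 l17
                      have k300 : e15 ≤ e17 := L2 l17
                      have k301 : e17 ≤ e2 := L3 l17 k211 k243
                      have k302 : e17 ≤ e4 := L3 l17 k212 k244
                      have k305 : e17 ≤ e9 := L3 l17 k231 k247
                      have k307 : e17 ≤ e12 := L3 l17 k232 k248
                      have k308 : e17 ≤ e13 := L3 l17 k207 k241
                      have k317 : ¬ e6 ≤ e17 := N2 k187 k308
                      have k318 : ¬ e9 ≤ e17 := N1 k317 k93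
                      have k328 : ¬ e17 ≤ e14 := N1 k235 k300
                      obtain ⟨e18, q18⟩ : ∃ y, f e17 = y := ⟨_, rfl⟩
                      have k331 : e15 ≤ e18 := MO hf q15 q18 k299
                      have k333 : ¬ e18 ≤ e17 := FB hG q18
                      have k334 : e18 ≤ e3 := MO hf q18 q3 k301
                      have k335 : e18 ≤ e5 := MO hf q18 q5 k302
                      have k336 : e18 ≤ e10 := MO hf q18 q10 k305
                      have k337 : e18 ≤ e13 := MO hf q18 q13 k307
                      have k339 : e18 ≤ e4 := le_trans k334 k22
                      have k341 : e18 ≤ e12 := le_trans k336 k159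
                      by_cases k357 : ∃ z, IsGLB ({e0, e18} : Set P) z
                      · obtain ⟨e19, g19⟩ := k357
                        have c19 : Core e0 e19 := CM g19
                        have k360 : e19 ≤ e0 := G1 g19
                        have k361 : e19 ≤ e18 := G2 g19
                        have k370 : e19 ≤ e10 := le_trans k361 k336
                        have k372 : e19 ≤ e13 := le_trans k361 k337
                        have k388 : ¬ e14 ≤ e19 := N2 k209 k370
                        have k393 : e19 ≤ e14 := G3 g14 k360 k372
                        exact HL _ _ _ _ _ _ c19 c14 c6 c0 c2 c4 (LT k393 k388) (LT k230 k224) (LT k44 k51) (LT k6 k10) (LT k29 k28)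
                      · obtain ⟨e19, l19⟩ := ZE h2 k335 k357 g6
                        have c19 : Core e0 e19 := CZ g6 k357 l19
                        have k360 : e6 ≤ e19 := L1 l19
                        have k361 : e18 ≤ e19 := L2 l19
                        have k365 : e19 ≤ e12 := L3 l19 k158 k341
                        have k367 : e15 ≤ e19 := le_trans k331 k361
                        have k387 : e16 ≤ e19 := L3 l16 k360 k367
                        have k390 : e9 ≤ e19 := le_trans k295 k387
                        by_cases k391 : e19 ≤ e9
                        · have k397 : e18 ≤ e9 := le_trans k361 k391
                          obtain ⟨e20, l20⟩ := ZE h2 k337 k357 g14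
                          have c20 : Core e0 e20 := CZ g14 k357 l20
                          have k406 : e14 ≤ e20 := L1 l20
                          have k407 : e18 ≤ e20 := L2 l20
                          have k412 : e20 ≤ e9 := L3 l20 k231 k397
                          have k415 : e20 ≤ e13 := L3 l20 k207 k337
                          have k418 : e15 ≤ e20 := le_trans k331 k407
                          have k426 : ¬ e6 ≤ e20 := N2 k187 k415
                          have k427 : ¬ e9 ≤ e20 := N1 k426 k93
                          have k440 : ¬ e20 ≤ e17 := N1 k333 k407
                          have k442 : e17 ≤ e20 := L3 l17 k406 k418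
                          exact HL _ _ _ _ _ _ c14 c17 c20 c9 c2 c4 (LT k299 k328) (LT k442 k440) (LT k412 k427) (LT k95 k100) (LT k29 k28)
                        · have k396 : e12 ≤ e19 := Classical.byContradiction fun hn => HL _ _ _ _ _ _ c14 c17 c9 c19 c12 c4 (LT k299 k328) (LT k305 k318) (LT k390 k391) (LT k365 hn) (LT k160 k166)
                          have k397 : e10 ≤ e19 := le_trans k159 k396
                          obtain ⟨e20, l20⟩ := ZE h2 k337 k357 g14
                          have c20 : Core e0 e20 := CZ g14 k357 l20
                          have k405 : e14 ≤ e20 := L1 l20
                          have k406 : e18 ≤ e20 := L2 l20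
                          have k407 : e20 ≤ e4 := L3 l20 k212 k339
                          have k410 : e20 ≤ e12 := L3 l20 k232 k341
                          have k411 : e20 ≤ e13 := L3 l20 k207 k337
                          have k413 : e15 ≤ e20 := le_trans k331 k406
                          have k420 : ¬ e6 ≤ e20 := N2 k187 k411
                          have k422 : ¬ e12 ≤ e20 := N1 k420 k158
                          have k438 : ¬ e20 ≤ e17 := N1 k333 k406
                          have k440 : e17 ≤ e20 := L3 l17 k405 k413
                          obtain ⟨e21, q21⟩ : ∃ y, f e20 = y := ⟨_, rfl⟩
                          have k443 : e18 ≤ e21 := MO hf q18 q21 k440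
                          have k444 : ¬ e20 ≤ e21 := FA hF q21
                          have k445 : ¬ e21 ≤ e20 := FB hG q21
                          have k446 : e21 ≤ e5 := MO hf q21 q5 k407
                          have k447 : e21 ≤ e13 := MO hf q21 q13 k410
                          have k448 : ¬ e14 ≤ e21 := L5 l20 k443 k444
                          by_cases k474 : ∃ z, IsGLB ({e0, e21} : Set P) z
                          · obtain ⟨e22, g22⟩ := k474
                            have c22 : Core e0 e22 := CM g22
                            have k477 : e22 ≤ e0 := G1 g22
                            have k478 : e22 ≤ e21 := G2 g22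
                            have k487 : e22 ≤ e13 := le_trans k478 k447
                            have k504 : ¬ e14 ≤ e22 := N2 k448 k478
                            have k511 : e22 ≤ e14 := G3 g14 k477 k487
                            exact HL _ _ _ _ _ _ c22 c14 c6 c0 c2 c4 (LT k511 k504) (LT k230 k224) (LT k44 k51) (LT k6 k10) (LT k29 k28)
                          · obtain ⟨e22, l22⟩ := (h1 e21).resolve_right k474
                            have c22 : Core e0 e22 := CJ k474 l22
                            have k477 : e0 ≤ e22 := L1 l22
                            have k478 : e21 ≤ e22 := L2 l22
                            have k480 : e6 ≤ e22 := le_trans k44 k477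
                            have k483 : e18 ≤ e22 := le_trans k443 k478
                            have k506 : e19 ≤ e22 := L3 l19 k480 k483
                            have k510 : e10 ≤ e22 := le_trans k397 k506
                            have k513 : e11 ≤ e22 := L3 l11 k477 k510
                            have k517 : e4 ≤ e22 := le_trans k154 k513
                            have k518 : e22 ≤ e4 := Classical.byContradiction fun hn => HL _ _ _ _ _ _ c14 c17 c20 c12 c4 c22 (LT k299 k328) (LT k440 k438) (LT k410 k422) (LT k160 k166) (LT k517 hn)
                            have k520 : e21 ≤ e4 := le_trans k478 k518
                            obtain ⟨e23, l23⟩ := ZE h2 k446 k474 g6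
                            have c23 : Core e0 e23 := CZ g6 k474 l23
                            have k525 : e6 ≤ e23 := L1 l23
                            have k526 : e21 ≤ e23 := L2 l23
                            have k527 : e23 ≤ e4 := L3 l23 k50 k520
                            have k528 : e23 ≤ e5 := L3 l23 k45 k446
                            have k533 : e18 ≤ e23 := le_trans k443 k526
                            have k534 : ¬ e0 ≤ e23 := N2 k35 k528
                            have k536 : ¬ e4 ≤ e23 := N1 k534 k21
                            have k561 : e19 ≤ e23 := L3 l19 k525 k533
                            have k566 : e12 ≤ e23 := le_trans k396 k561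
                            have k567 : e23 ≤ e12 := Classical.byContradiction fun hn => HL _ _ _ _ _ _ c14 c17 c20 c12 c23 c4 (LT k299 k328) (LT k440 k438) (LT k410 k422) (LT k566 hn) (LT k527 k536)
                            have k569 : e21 ≤ e12 := le_trans k526 k567
                            obtain ⟨e24, l24⟩ := ZE h2 k447 k474 g14
                            have c24 : Core e0 e24 := CZ g14 k474 l24
                            have k574 : e14 ≤ e24 := L1 l24
                            have k575 : e21 ≤ e24 := L2 l24
                            have k579 : e24 ≤ e12 := L3 l24 k232 k569
                            have k580 : e24 ≤ e13 := L3 l24 k207 k447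
                            have k585 : e18 ≤ e24 := le_trans k443 k575
                            have k593 : ¬ e6 ≤ e24 := N2 k187 k580
                            have k595 : ¬ e12 ≤ e24 := N1 k593 k158
                            have k614 : ¬ e24 ≤ e20 := N1 k445 k575
                            have k617 : e20 ≤ e24 := L3 l20 k574 k585
                            exact HL _ _ _ _ _ _ c14 c17 c20 c24 c12 c4 (LT k299 k328) (LT k440 k438) (LT k617 k614) (LT k579 k595) (LT k160 k166)
                  · obtain ⟨e14, l14⟩ := (h1 e13).resolve_right k203
                    have c14 : Core e0 e14 := CJ k203 l14
                    have k206 : e0 ≤ e14 := L1 l14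
                    have k207 : e13 ≤ e14 := L2 l14
                    have k209 : e6 ≤ e14 := le_trans k44 k206
                    have k210 : e7 ≤ e14 := le_trans k182 k207
                    have k211 : e10 ≤ e14 := le_trans k183 k207
                    have k225 : e9 ≤ e14 := L3 l9 k209 k210
                    have k226 : e11 ≤ e14 := L3 l11 k206 k211
                    have k227 : e12 ≤ e14 := L3 l12 k209 k211
                    have k231 : e4 ≤ e14 := le_trans k154 k226
                    by_cases k232 : e14 ≤ e4
                    · have k234 : e13 ≤ e4 := le_trans k207 k232
                      obtain ⟨e15, l15⟩ := ZE h2 k186 k203 g6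
                      have c15 : Core e0 e15 := CZ g6 k203 l15
                      have k239 : e6 ≤ e15 := L1 l15
                      have k240 : e13 ≤ e15 := L2 l15
                      have k241 : e15 ≤ e4 := L3 l15 k50 k234
                      have k242 : e15 ≤ e5 := L3 l15 k45 k186
                      have k245 : e7 ≤ e15 := le_trans k182 k240
                      have k246 : e10 ≤ e15 := le_trans k183 k240
                      have k247 : ¬ e0 ≤ e15 := N2 k35 k242
                      have k249 : ¬ e4 ≤ e15 := N1 k247 k21
                      have k264 : ¬ e15 ≤ e12 := N1 k185 k240
                      have k266 : e9 ≤ e15 := L3 l9 k239 k245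
                      have k267 : e12 ≤ e15 := L3 l12 k239 k246
                      obtain ⟨e16, q16⟩ : ∃ y, f e15 = y := ⟨_, rfl⟩
                      have k270 : e10 ≤ e16 := MO hf q10 q16 k266
                      have k271 : e13 ≤ e16 := MO hf q13 q16 k267
                      have k272 : ¬ e15 ≤ e16 := FA hF q16
                      have k273 : ¬ e16 ≤ e15 := FB hG q16
                      have k274 : e16 ≤ e5 := MO hf q16 q5 k241
                      have k275 : ¬ e6 ≤ e16 := L5 l15 k271 k272
                      by_cases k295 : ∃ z, IsGLB ({e0, e16} : Set P) z
                      · obtain ⟨e17, g17⟩ := k295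
                        have c17 : Core e0 e17 := CM g17
                        have k298 : e17 ≤ e0 := G1 g17
                        have k299 : e17 ≤ e16 := G2 g17
                        have k309 : e17 ≤ e5 := le_trans k299 k274
                        have k319 : ¬ e6 ≤ e17 := N2 k275 k299
                        have k327 : e17 ≤ e6 := G3 g6 k298 k309
                        exact HL _ _ _ _ _ _ c17 c6 c9 c12 c15 c4 (LT k327 k319) (LT k93 k109) (LT k180 k178) (LT k267 k264) (LT k241 k249)
                      · obtain ⟨e17, l17⟩ := (h1 e16).resolve_right k295
                        have c17 : Core e0 e17 := CJ k295 l17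
                        have k298 : e0 ≤ e17 := L1 l17
                        have k299 : e16 ≤ e17 := L2 l17
                        have k303 : e10 ≤ e17 := le_trans k270 k299
                        have k321 : e11 ≤ e17 := L3 l11 k298 k303
                        have k328 : e4 ≤ e17 := le_trans k154 k321
                        have k329 : e17 ≤ e4 := Classical.byContradiction fun hn => HL _ _ _ _ _ _ c6 c9 c12 c15 c4 c17 (LT k93 k109) (LT k180 k178) (LT k267 k264) (LT k241 k249) (LT k328 hn)
                        have k332 : e16 ≤ e4 := le_trans k299 k329
                        obtain ⟨e18, l18⟩ := ZE h2 k274 k295 g6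
                        have c18 : Core e0 e18 := CZ g6 k295 l18
                        have k338 : e6 ≤ e18 := L1 l18
                        have k339 : e16 ≤ e18 := L2 l18
                        have k340 : e18 ≤ e4 := L3 l18 k50 k332
                        have k341 : e18 ≤ e5 := L3 l18 k45 k274
                        have k347 : e13 ≤ e18 := le_trans k271 k339
                        have k348 : ¬ e0 ≤ e18 := N2 k35 k341
                        have k350 : ¬ e4 ≤ e18 := N1 k348 k21
                        have k368 : ¬ e18 ≤ e15 := N1 k273 k339
                        have k372 : e15 ≤ e18 := L3 l15 k338 k347
                        exact HL _ _ _ _ _ _ c6 c9 c12 c15 c18 c4 (LT k93 k109) (LT k180 k178) (LT k267 k264) (LT k372 k368) (LT k340 k350)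
                    · obtain ⟨e15, q15⟩ : ∃ y, f e14 = y := ⟨_, rfl⟩
                      have k240 : e5 ≤ e15 := MO hf q5 q15 k231
                      have k241 : e7 ≤ e15 := MO hf q7 q15 k209
                      have k242 : e10 ≤ e15 := MO hf q10 q15 k225
                      have k243 : e13 ≤ e15 := MO hf q13 q15 k227
                      have k244 : ¬ e14 ≤ e15 := FA hF q15
                      have k245 : ¬ e15 ≤ e14 := FB hG q15
                      have k246 : ¬ e0 ≤ e15 := L5 l14 k243 k244
                      have k247 : e6 ≤ e15 := le_trans k45 k240
                      by_cases k267 : ∃ z, IsGLB ({e0, e15} : Set P) z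
                      · obtain ⟨e16, g16⟩ := k267
                        have c16 : Core e0 e16 := CM g16
                        obtain ⟨e17, l17⟩ := ZE h2 k242 k127 g16
                        have c17 : Core e0 e17 := CZ g16 k127 l17
                        have k272 : e16 ≤ e0 := G1 g16
                        have k273 : e16 ≤ e15 := G2 g16
                        have k274 : e6 ≤ e16 := G3 g16 k44 k247
                        have k284 : e16 ≤ e2 := le_trans k272 k6
                        have k288 : e16 ≤ e14 := le_trans k272 k206
                        have k291 : ¬ e0 ≤ e16 := N2 k246 k273
                        have k332 : e16 ≤ e6 := Classical.byContradiction fun hn => HL _ _ _ _ _ _ c6 c16 c0 c8 c4 c14 (LT k274 hn) (LT k272 k291) (LT k74 k88) (LT k77 k86) (LT k231 k232)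
                        have k333 : e16 ≤ e5 := le_trans k332 k45
                        have k335 : e16 ≤ e12 := le_trans k332 k158
                        obtain ⟨e18, l18⟩ := ZE h2 k241 k71 g16
                        have c18 : Core e0 e18 := CZ g16 k71 l18
                        have k340 : e16 ≤ e18 := L1 l18
                        have k341 : e7 ≤ e18 := L2 l18
                        have k342 : e18 ≤ e2 := L3 l18 k284 k64
                        have k348 : e18 ≤ e12 := L3 l18 k335 k163
                        have k352 : e6 ≤ e18 := le_trans k274 k340
                        have k368 : ¬ e18 ≤ e6 := N1 k59 k341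
                        have k370 : ¬ e10 ≤ e18 := N2 k151 k342
                        have k371 : ¬ e12 ≤ e18 := N1 k370 k159
                        obtain ⟨e19, l19⟩ := ZE h2 k243 k203 g16
                        have c19 : Core e0 e19 := CZ g16 k203 l19
                        have k378 : e16 ≤ e19 := L1 l19
                        have k379 : e13 ≤ e19 := L2 l19
                        have k380 : e19 ≤ e5 := L3 l19 k333 k186
                        have k381 : e19 ≤ e14 := L3 l19 k288 k207
                        have k384 : e10 ≤ e19 := le_trans k183 k379
                        have k385 : e6 ≤ e19 := le_trans k274 k378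
                        have k386 : ¬ e0 ≤ e19 := N2 k35 k380
                        have k391 : ¬ e14 ≤ e19 := N1 k386 k206
                        have k406 : ¬ e19 ≤ e12 := N1 k185 k379
                        have k411 : e12 ≤ e19 := L3 l12 k385 k384
                        obtain ⟨e20, q20⟩ : ∃ y, f e19 = y := ⟨_, rfl⟩
                        have k417 : e13 ≤ e20 := MO hf q13 q20 k411
                        have k418 : ¬ e19 ≤ e20 := FA hF q20
                        have k419 : ¬ e20 ≤ e19 := FB hG q20
                        have k420 : e20 ≤ e15 := MO hf q20 q15 k381
                        have k421 : ¬ e16 ≤ e20 := L5 l19 k417 k418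
                        have k444 : ¬ e6 ≤ e20 := N1 k421 k332
                        by_cases k451 : ∃ z, IsGLB ({e0, e20} : Set P) z
                        · obtain ⟨e21, g21⟩ := k451
                          have c21 : Core e0 e21 := CM g21
                          have k454 : e21 ≤ e0 := G1 g21
                          have k455 : e21 ≤ e20 := G2 g21
                          have k465 : e21 ≤ e15 := le_trans k455 k420
                          have k476 : ¬ e6 ≤ e21 := N2 k444 k455
                          have k479 : ¬ e16 ≤ e21 := N1 k476 k274
                          have k487 : e21 ≤ e16 := G3 g16 k454 k465
                          exact HL _ _ _ _ _ _ c21 c16 c0 c8 c4 c14 (LT k487 k479) (LT k272 k291) (LT k74 k88) (LT k77 k86) (LT k231 k232)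
                        · obtain ⟨e21, l21⟩ := (h1 e20).resolve_right k451
                          have c21 : Core e0 e21 := CJ k451 l21
                          have k454 : e0 ≤ e21 := L1 l21
                          have k455 : e20 ≤ e21 := L2 l21
                          have k461 : e13 ≤ e21 := le_trans k417 k455
                          have k486 : e14 ≤ e21 := L3 l14 k454 k461
                          have k494 : e21 ≤ e14 := Classical.byContradiction fun hn => HL _ _ _ _ _ _ c6 c9 c12 c19 c14 c21 (LT k93 k109) (LT k180 k178) (LT k411 k406) (LT k381 k391) (LT k486 hn)
                          have k495 : e20 ≤ e14 := le_trans k455 k494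
                          obtain ⟨e22, l22⟩ := ZE h2 k420 k451 g16
                          have c22 : Core e0 e22 := CZ g16 k451 l22
                          have k499 : e16 ≤ e22 := L1 l22
                          have k500 : e20 ≤ e22 := L2 l22
                          have k501 : e22 ≤ e14 := L3 l22 k288 k495
                          have k502 : e22 ≤ e15 := L3 l22 k273 k420
                          have k507 : e13 ≤ e22 := le_trans k417 k500
                          have k508 : ¬ e0 ≤ e22 := N2 k246 k502
                          have k513 : ¬ e14 ≤ e22 := N1 k508 k206
                          have k533 : ¬ e22 ≤ e19 := N1 k419 k500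
                          have k539 : e19 ≤ e22 := L3 l19 k499 k507
                          exact HL _ _ _ _ _ _ c6 c18 c12 c19 c22 c14 (LT k352 k368) (LT k348 k371) (LT k411 k406) (LT k539 k533) (LT k501 k513)
                      · obtain ⟨e16, l16⟩ := (h1 e15).resolve_right k267
                        have c16 : Core e0 e16 := CJ k267 l16
                        have k270 : e0 ≤ e16 := L1 l16
                        have k271 : e15 ≤ e16 := L2 l16
                        have k281 : e13 ≤ e16 := le_trans k243 k271
                        have k297 : ¬ e16 ≤ e14 := N1 k245 k271
                        have k302 : e14 ≤ e16 := L3 l14 k270 k281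
                        exact HL _ _ _ _ _ _ c6 c0 c8 c4 c14 c16 (LT k44 k51) (LT k74 k88) (LT k77 k86) (LT k231 k232) (LT k302 k297)
                · obtain ⟨e12, q12⟩ : ∃ y, f e11 = y := ⟨_, rfl⟩
                  have k159 : e3 ≤ e12 := MO hf q3 q12 k148
                  have k161 : e10 ≤ e12 := MO hf q10 q12 k146
                  have k164 : e12 ≤ e5 := MO hf q12 q5 k132
                  by_cases k177 : ∃ z, IsGLB ({e0, e12} : Set P) z
                  · obtain ⟨e13, g13⟩ := k177
                    have c13 : Core e0 e13 := CM g13
                    have k180 : e13 ≤ e0 := G1 g13
                    have k181 : e13 ≤ e12 := G2 g13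
                    have k188 : e13 ≤ e4 := le_trans k180 k21
                    have k190 : e13 ≤ e11 := le_trans k180 k130
                    have k191 : e13 ≤ e5 := le_trans k181 k164
                    have k205 : e13 ≤ e6 := G3 g6 k180 k191
                    have k207 : e6 ≤ e13 := Classical.byContradiction fun hn => HL _ _ _ _ _ _ c13 c6 c0 c2 c11 c4 (LT k205 hn) (LT k44 k51) (LT k6 k10) (LT k148 k149) (LT k132 k154)
                    have k208 : e6 ≤ e12 := le_trans k207 k181
                    obtain ⟨e14, l14⟩ := ZE h2 k161 k127 g13
                    have c14 : Core e0 e14 := CZ g13 k127 l14
                    have k212 : e13 ≤ e14 := L1 l14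
                    have k213 : e10 ≤ e14 := L2 l14
                    have k214 : e14 ≤ e4 := L3 l14 k188 k118
                    have k216 : e14 ≤ e11 := L3 l14 k190 k131
                    have k218 : e7 ≤ e14 := le_trans k112 k213
                    have k219 : e6 ≤ e14 := le_trans k207 k212
                    have k237 : ¬ e14 ≤ e9 := N1 k114 k213
                    have k239 : e9 ≤ e14 := L3 l9 k219 k218
                    obtain ⟨e15, q15⟩ : ∃ y, f e14 = y := ⟨_, rfl⟩
                    have k241 : e7 ≤ e15 := MO hf q7 q15 k219
                    have k242 : e10 ≤ e15 := MO hf q10 q15 k239
                    have k243 : ¬ e14 ≤ e15 := FA hF q15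
                    have k244 : ¬ e15 ≤ e14 := FB hG q15
                    have k245 : e15 ≤ e5 := MO hf q15 q5 k214
                    have k246 : e15 ≤ e12 := MO hf q15 q12 k216
                    have k247 : ¬ e13 ≤ e15 := L5 l14 k242 k243
                    have k262 : ¬ e6 ≤ e15 := N1 k247 k205
                    by_cases k266 : ∃ z, IsGLB ({e0, e15} : Set P) z
                    · obtain ⟨e16, g16⟩ := k266
                      have c16 : Core e0 e16 := CM g16
                      have k269 : e16 ≤ e0 := G1 g16
                      have k270 : e16 ≤ e15 := G2 g16
                      have k278 : e16 ≤ e5 := le_trans k270 k245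
                      have k289 : ¬ e6 ≤ e16 := N2 k262 k270
                      have k296 : e16 ≤ e6 := G3 g6 k269 k278
                      exact HL _ _ _ _ _ _ c16 c6 c0 c2 c11 c4 (LT k296 k289) (LT k44 k51) (LT k6 k10) (LT k148 k149) (LT k132 k154)
                    · obtain ⟨e16, l16⟩ := (h1 e15).resolve_right k266
                      have c16 : Core e0 e16 := CJ k266 l16
                      have k269 : e0 ≤ e16 := L1 l16
                      have k270 : e15 ≤ e16 := L2 l16
                      have k272 : e6 ≤ e16 := le_trans k44 k269
                      have k273 : e13 ≤ e16 := le_trans k180 k269
                      have k274 : e7 ≤ e16 := le_trans k241 k270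
                      have k275 : e10 ≤ e16 := le_trans k242 k270
                      have k291 : e9 ≤ e16 := L3 l9 k272 k274
                      have k292 : e11 ≤ e16 := L3 l11 k269 k275
                      have k293 : e14 ≤ e16 := L3 l14 k273 k275
                      by_cases k296 : e16 ≤ e11
                      · have k299 : e15 ≤ e11 := le_trans k270 k296
                        obtain ⟨e17, l17⟩ := ZE h2 k246 k266 g13
                        have c17 : Core e0 e17 := CZ g13 k266 l17
                        have k307 : e13 ≤ e17 := L1 l17
                        have k308 : e15 ≤ e17 := L2 l17
                        have k310 : e17 ≤ e5 := L3 l17 k191 k245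
                        have k311 : e17 ≤ e11 := L3 l17 k190 k299
                        have k316 : e10 ≤ e17 := le_trans k242 k308
                        have k317 : ¬ e0 ≤ e17 := N2 k35 k310
                        have k321 : ¬ e11 ≤ e17 := N1 k317 k130
                        have k337 : ¬ e17 ≤ e14 := N1 k244 k308
                        have k340 : e14 ≤ e17 := L3 l14 k307 k316
                        exact HL _ _ _ _ _ _ c6 c9 c14 c17 c11 c4 (LT k93 k109) (LT k239 k237) (LT k340 k337) (LT k311 k321) (LT k132 k154)
                      · obtain ⟨e17, q17⟩ : ∃ y, f e16 = y := ⟨_, rfl⟩
                        have k301 : e7 ≤ e17 := MO hf q7 q17 k272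
                        have k302 : e10 ≤ e17 := MO hf q10 q17 k291
                        have k303 : e12 ≤ e17 := MO hf q12 q17 k292
                        have k304 : e15 ≤ e17 := MO hf q15 q17 k293
                        have k305 : ¬ e16 ≤ e17 := FA hF q17
                        have k306 : ¬ e17 ≤ e16 := FB hG q17
                        have k307 : ¬ e0 ≤ e17 := L5 l16 k304 k305
                        have k308 : e6 ≤ e17 := le_trans k208 k303
                        have k310 : e13 ≤ e17 := le_trans k181 k303
                        by_cases k329 : ∃ z, IsGLB ({e0, e17} : Set P) z
                        · obtain ⟨e18, g18⟩ := k329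
                          have c18 : Core e0 e18 := CM g18
                          obtain ⟨e19, l19⟩ := ZE h2 k302 k127 g18
                          have c19 : Core e0 e19 := CZ g18 k127 l19
                          have k334 : e18 ≤ e0 := G1 g18
                          have k335 : e18 ≤ e17 := G2 g18
                          have k336 : e6 ≤ e18 := G3 g18 k44 k308
                          have k337 : e13 ≤ e18 := G3 g18 k180 k310
                          have k347 : e18 ≤ e2 := le_trans k334 k6
                          have k351 : e18 ≤ e16 := le_trans k334 k269
                          have k355 : ¬ e0 ≤ e18 := N2 k307 k335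
                          have k400 : e18 ≤ e6 := Classical.byContradiction fun hn => HL _ _ _ _ _ _ c6 c18 c0 c2 c11 c4 (LT k336 hn) (LT k334 k355) (LT k6 k10) (LT k148 k149) (LT k132 k154)
                          have k401 : e18 ≤ e5 := le_trans k400 k45
                          have k405 : e18 ≤ e14 := le_trans k400 k219
                          obtain ⟨e20, l20⟩ := ZE h2 k301 k71 g18
                          have c20 : Core e0 e20 := CZ g18 k71 l20
                          have k411 : e18 ≤ e20 := L1 l20
                          have k412 : e7 ≤ e20 := L2 l20
                          have k413 : e20 ≤ e2 := L3 l20 k347 k64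
                          have k420 : e20 ≤ e14 := L3 l20 k405 k218
                          have k424 : e6 ≤ e20 := le_trans k336 k411
                          have k442 : ¬ e20 ≤ e6 := N1 k59 k412
                          have k445 : ¬ e10 ≤ e20 := N2 k151 k413
                          have k446 : ¬ e14 ≤ e20 := N1 k445 k213
                          obtain ⟨e21, l21⟩ := ZE h2 k304 k266 g18
                          have c21 : Core e0 e21 := CZ g18 k266 l21
                          have k453 : e18 ≤ e21 := L1 l21
                          have k454 : e15 ≤ e21 := L2 l21
                          have k455 : e21 ≤ e5 := L3 l21 k401 k245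
                          have k457 : e21 ≤ e16 := L3 l21 k351 k270
                          have k460 : e10 ≤ e21 := le_trans k242 k454
                          have k462 : e13 ≤ e21 := le_trans k337 k453
                          have k463 : ¬ e0 ≤ e21 := N2 k35 k455
                          have k468 : ¬ e16 ≤ e21 := N1 k463 k269
                          have k483 : ¬ e21 ≤ e14 := N1 k244 k454
                          have k488 : e14 ≤ e21 := L3 l14 k462 k460
                          obtain ⟨e22, q22⟩ : ∃ y, f e21 = y := ⟨_, rfl⟩
                          have k494 : e15 ≤ e22 := MO hf q15 q22 k488
                          have k495 : ¬ e21 ≤ e22 := FA hF q22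
                          have k496 : ¬ e22 ≤ e21 := FB hG q22
                          have k497 : e22 ≤ e17 := MO hf q22 q17 k457
                          have k498 : ¬ e18 ≤ e22 := L5 l21 k494 k495
                          have k520 : ¬ e6 ≤ e22 := N1 k498 k400
                          by_cases k529 : ∃ z, IsGLB ({e0, e22} : Set P) z
                          · obtain ⟨e23, g23⟩ := k529
                            have c23 : Core e0 e23 := CM g23
                            have k532 : e23 ≤ e0 := G1 g23
                            have k533 : e23 ≤ e22 := G2 g23
                            have k543 : e23 ≤ e17 := le_trans k533 k497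
                            have k555 : ¬ e6 ≤ e23 := N2 k520 k533
                            have k559 : ¬ e18 ≤ e23 := N1 k555 k336
                            have k567 : e23 ≤ e18 := G3 g18 k532 k543
                            exact HL _ _ _ _ _ _ c23 c18 c0 c2 c11 c4 (LT k567 k559) (LT k334 k355) (LT k6 k10) (LT k148 k149) (LT k132 k154)
                          · obtain ⟨e23, l23⟩ := (h1 e22).resolve_right k529
                            have c23 : Core e0 e23 := CJ k529 l23
                            have k532 : e0 ≤ e23 := L1 l23
                            have k533 : e22 ≤ e23 := L2 l23
                            have k540 : e15 ≤ e23 := le_trans k494 k533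
                            have k566 : e16 ≤ e23 := L3 l16 k532 k540
                            have k572 : e23 ≤ e16 := Classical.byContradiction fun hn => HL _ _ _ _ _ _ c6 c9 c14 c21 c16 c23 (LT k93 k109) (LT k239 k237) (LT k488 k483) (LT k457 k468) (LT k566 hn)
                            have k573 : e22 ≤ e16 := le_trans k533 k572
                            obtain ⟨e24, l24⟩ := ZE h2 k497 k529 g18
                            have c24 : Core e0 e24 := CZ g18 k529 l24
                            have k577 : e18 ≤ e24 := L1 l24
                            have k578 : e22 ≤ e24 := L2 l24
                            have k579 : e24 ≤ e16 := L3 l24 k351 k573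
                            have k580 : e24 ≤ e17 := L3 l24 k335 k497
                            have k586 : e15 ≤ e24 := le_trans k494 k578
                            have k587 : ¬ e0 ≤ e24 := N2 k307 k580
                            have k592 : ¬ e16 ≤ e24 := N1 k587 k269
                            have k612 : ¬ e24 ≤ e21 := N1 k496 k578
                            have k618 : e21 ≤ e24 := L3 l21 k577 k586
                            exact HL _ _ _ _ _ _ c6 c20 c14 c21 c24 c16 (LT k424 k442) (LT k420 k446) (LT k488 k483) (LT k618 k612) (LT k579 k592)
                        · obtain ⟨e18, l18⟩ := (h1 e17).resolve_right k329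
                          have c18 : Core e0 e18 := CJ k329 l18
                          have k332 : e0 ≤ e18 := L1 l18
                          have k333 : e17 ≤ e18 := L2 l18
                          have k344 : e15 ≤ e18 := le_trans k304 k333
                          have k361 : ¬ e18 ≤ e16 := N1 k306 k333
                          have k366 : e16 ≤ e18 := L3 l16 k332 k344
                          exact HL _ _ _ _ _ _ c6 c0 c2 c11 c16 c18 (LT k44 k51) (LT k6 k10) (LT k148 k149) (LT k292 k296) (LT k366 k361)
                  · have k178 : ¬ e6 ≤ e12 := BN3 g6 k177 k164
                    obtain ⟨e13, l13⟩ := (h1 e12).resolve_right k177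
                    have c13 : Core e0 e13 := CJ k177 l13
                    have k183 : e0 ≤ e13 := L1 l13
                    have k184 : e12 ≤ e13 := L2 l13
                    have k188 : e3 ≤ e13 := le_trans k159 k184
                    have k204 : e4 ≤ e13 := L3 l4 k183 k188
                    have k208 : e13 ≤ e4 := Classical.byContradiction fun hn => HL _ _ _ _ _ _ c6 c9 c2 c11 c4 c13 (LT k93 k109) (LT k95 k100) (LT k148 k149) (LT k132 k154) (LT k204 hn)
                    have k209 : e12 ≤ e4 := le_trans k184 k208
                    obtain ⟨e14, l14⟩ := ZE h2 k116 k127 g6
                    have c14 : Core e0 e14 := CZ g6 k127 l14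
                    have k213 : e6 ≤ e14 := L1 l14
                    have k214 : e10 ≤ e14 := L2 l14
                    have k215 : e14 ≤ e4 := L3 l14 k50 k118
                    have k216 : e14 ≤ e5 := L3 l14 k45 k116
                    have k217 : e14 ≤ e11 := L3 l14 k134 k131
                    have k219 : e7 ≤ e14 := le_trans k112 k214
                    have k220 : ¬ e0 ≤ e14 := N2 k35 k216
                    have k224 : ¬ e11 ≤ e14 := N1 k220 k130
                    have k238 : ¬ e14 ≤ e9 := N1 k114 k214
                    have k240 : e9 ≤ e14 := L3 l9 k213 k219
                    obtain ⟨e15, q15⟩ : ∃ y, f e14 = y := ⟨_, rfl⟩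
                    have k243 : e10 ≤ e15 := MO hf q10 q15 k240
                    have k245 : ¬ e15 ≤ e14 := FB hG q15
                    have k246 : e15 ≤ e5 := MO hf q15 q5 k215
                    have k247 : e15 ≤ e12 := MO hf q15 q12 k217
                    have k249 : e15 ≤ e4 := le_trans k247 k209
                    by_cases k267 : ∃ z, IsGLB ({e0, e15} : Set P) z
                    · obtain ⟨e16, g16⟩ := k267
                      have c16 : Core e0 e16 := CM g16
                      have k270 : e16 ≤ e0 := G1 g16
                      have k271 : e16 ≤ e15 := G2 g16
                      have k280 : e16 ≤ e5 := le_trans k271 k246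
                      have k281 : e16 ≤ e12 := le_trans k271 k247
                      have k292 : ¬ e6 ≤ e16 := N2 k178 k281
                      have k298 : e16 ≤ e6 := G3 g6 k270 k280
                      exact HL _ _ _ _ _ _ c16 c6 c0 c2 c11 c4 (LT k298 k292) (LT k44 k51) (LT k6 k10) (LT k148 k149) (LT k132 k154)
                    · obtain ⟨e16, l16⟩ := (h1 e15).resolve_right k267
                      have c16 : Core e0 e16 := CJ k267 l16
                      have k270 : e0 ≤ e16 := L1 l16
                      have k271 : e15 ≤ e16 := L2 l16
                      have k272 : e16 ≤ e4 := L3 l16 k21 k249
                      have k277 : e10 ≤ e16 := le_trans k243 k271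
                      have k294 : e11 ≤ e16 := L3 l11 k270 k277
                      by_cases k298 : e16 ≤ e11
                      · have k299 : e15 ≤ e11 := le_trans k271 k298
                        obtain ⟨e17, l17⟩ := ZE h2 k246 k267 g6
                        have c17 : Core e0 e17 := CZ g6 k267 l17
                        have k308 : e6 ≤ e17 := L1 l17
                        have k309 : e15 ≤ e17 := L2 l17
                        have k311 : e17 ≤ e5 := L3 l17 k45 k246
                        have k312 : e17 ≤ e11 := L3 l17 k134 k299
                        have k316 : e10 ≤ e17 := le_trans k243 k309
                        have k317 : ¬ e0 ≤ e17 := N2 k35 k311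
                        have k321 : ¬ e11 ≤ e17 := N1 k317 k130
                        have k338 : ¬ e17 ≤ e14 := N1 k245 k309
                        have k341 : e14 ≤ e17 := L3 l14 k308 k316
                        exact HL _ _ _ _ _ _ c6 c9 c14 c17 c11 c4 (LT k93 k109) (LT k240 k238) (LT k341 k338) (LT k312 k321) (LT k132 k154)
                      · have k300 : e4 ≤ e16 := Classical.byContradiction fun hn => HL _ _ _ _ _ _ c6 c9 c14 c11 c16 c4 (LT k93 k109) (LT k240 k238) (LT k217 k224) (LT k294 k298) (LT k272 hn)
                        obtain ⟨e17, l17⟩ := ZE h2 k246 k267 g6
                        have c17 : Core e0 e17 := CZ g6 k267 l17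
                        have k306 : e6 ≤ e17 := L1 l17
                        have k307 : e15 ≤ e17 := L2 l17
                        have k308 : e17 ≤ e4 := L3 l17 k50 k249
                        have k309 : e17 ≤ e5 := L3 l17 k45 k246
                        have k313 : e10 ≤ e17 := le_trans k243 k307
                        have k314 : ¬ e0 ≤ e17 := N2 k35 k309
                        have k316 : ¬ e4 ≤ e17 := N1 k314 k21
                        have k334 : ¬ e17 ≤ e14 := N1 k245 k307
                        have k337 : e14 ≤ e17 := L3 l14 k306 k313
                        obtain ⟨e18, q18⟩ : ∃ y, f e17 = y := ⟨_, rfl⟩
                        have k341 : e15 ≤ e18 := MO hf q15 q18 k337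
                        have k342 : ¬ e17 ≤ e18 := FA hF q18
                        have k343 : ¬ e18 ≤ e17 := FB hG q18
                        have k344 : e18 ≤ e5 := MO hf q18 q5 k308
                        have k345 : ¬ e6 ≤ e18 := L5 l17 k341 k342
                        by_cases k367 : ∃ z, IsGLB ({e0, e18} : Set P) z
                        · obtain ⟨e19, g19⟩ := k367
                          have c19 : Core e0 e19 := CM g19
                          have k370 : e19 ≤ e0 := G1 g19
                          have k371 : e19 ≤ e18 := G2 g19
                          have k382 : e19 ≤ e5 := le_trans k371 k344
                          have k394 : ¬ e6 ≤ e19 := N2 k345 k371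
                          have k402 : e19 ≤ e6 := G3 g6 k370 k382
                          exact HL _ _ _ _ _ _ c19 c6 c0 c2 c11 c4 (LT k402 k394) (LT k44 k51) (LT k6 k10) (LT k148 k149) (LT k132 k154)
                        · obtain ⟨e19, l19⟩ := (h1 e18).resolve_right k367
                          have c19 : Core e0 e19 := CJ k367 l19
                          have k370 : e0 ≤ e19 := L1 l19
                          have k371 : e18 ≤ e19 := L2 l19
                          have k376 : e15 ≤ e19 := le_trans k341 k371
                          have k397 : e16 ≤ e19 := L3 l16 k370 k376
                          have k402 : e4 ≤ e19 := le_trans k300 k397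
                          have k405 : e19 ≤ e4 := Classical.byContradiction fun hn => HL _ _ _ _ _ _ c6 c9 c14 c17 c4 c19 (LT k93 k109) (LT k240 k238) (LT k337 k334) (LT k308 k316) (LT k402 hn)
                          have k408 : e18 ≤ e4 := le_trans k371 k405
                          obtain ⟨e20, l20⟩ := ZE h2 k344 k367 g6
                          have c20 : Core e0 e20 := CZ g6 k367 l20
                          have k414 : e6 ≤ e20 := L1 l20
                          have k415 : e18 ≤ e20 := L2 l20
                          have k416 : e20 ≤ e4 := L3 l20 k50 k408
                          have k417 : e20 ≤ e5 := L3 l20 k45 k344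
                          have k423 : e15 ≤ e20 := le_trans k341 k415
                          have k424 : ¬ e0 ≤ e20 := N2 k35 k417
                          have k426 : ¬ e4 ≤ e20 := N1 k424 k21
                          have k447 : ¬ e20 ≤ e17 := N1 k343 k415
                          have k451 : e17 ≤ e20 := L3 l17 k414 k423
                          exact HL _ _ _ _ _ _ c6 c9 c14 c17 c20 c4 (LT k93 k109) (LT k240 k238) (LT k337 k334) (LT k451 k447) (LT k416 k426)
          · obtain ⟨e9, q9⟩ : ∃ y, f e8 = y := ⟨_, rfl⟩
            have k93 : e1 ≤ e9 := MO hf q1 q9 k74
            have k97 : e9 ≤ e3 := MO hf q9 q3 k76
            have k98 : e9 ≤ e5 := MO hf q9 q5 k77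
            have k100 : e9 ≤ e4 := le_trans k97 k22
            by_cases k108 : ∃ z, IsGLB ({e0, e9} : Set P) z
            · obtain ⟨e10, g10⟩ := k108
              have c10 : Core e0 e10 := CM g10
              have k111 : e10 ≤ e0 := G1 g10
              have k112 : e10 ≤ e9 := G2 g10
              have k119 : e10 ≤ e3 := le_trans k112 k97
              have k120 : e10 ≤ e5 := le_trans k112 k98
              have k129 : ¬ e6 ≤ e10 := N2 k47 k119
              have k132 : e10 ≤ e6 := G3 g6 k111 k120
              exact HL _ _ _ _ _ _ c10 c6 c0 c8 c2 c4 (LT k132 k129) (LT k44 k51) (LT k74 k88) (LT k76 k89) (LT k29 k28)
            · obtain ⟨e10, l10⟩ := (h1 e9).resolve_right k108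
              have c10 : Core e0 e10 := CJ k108 l10
              have k111 : e0 ≤ e10 := L1 l10
              have k112 : e9 ≤ e10 := L2 l10
              have k113 : e10 ≤ e4 := L3 l10 k21 k100
              have k116 : e1 ≤ e10 := le_trans k93 k112
              have k127 : e2 ≤ e10 := L3 l2 k111 k116
              by_cases k129 : e10 ≤ e2
              · have k130 : e9 ≤ e2 := le_trans k112 k129
                obtain ⟨e11, l11⟩ := ZE h2 k62 k71 g6
                have c11 : Core e0 e11 := CZ g6 k71 l11
                have k136 : e6 ≤ e11 := L1 l11
                have k137 : e7 ≤ e11 := L2 l11
                have k138 : e11 ≤ e2 := L3 l11 k49 k64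
                have k139 : e11 ≤ e4 := L3 l11 k50 k65
                have k140 : e11 ≤ e5 := L3 l11 k45 k62
                have k141 : e11 ≤ e8 := L3 l11 k79 k75
                have k143 : ¬ e0 ≤ e11 := N2 k35 k140
                have k146 : ¬ e8 ≤ e11 := N1 k143 k74
                have k157 : ¬ e11 ≤ e6 := N1 k59 k137
                obtain ⟨e12, q12⟩ : ∃ y, f e11 = y := ⟨_, rfl⟩
                have k160 : e7 ≤ e12 := MO hf q7 q12 k136
                have k162 : ¬ e12 ≤ e11 := FB hG q12
                have k163 : e12 ≤ e3 := MO hf q12 q3 k138
                have k164 : e12 ≤ e5 := MO hf q12 q5 k139
                have k165 : e12 ≤ e9 := MO hf q12 q9 k141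
                have k167 : e12 ≤ e4 := le_trans k163 k22
                have k168 : e12 ≤ e2 := le_trans k165 k130
                by_cases k180 : ∃ z, IsGLB ({e0, e12} : Set P) z
                · obtain ⟨e13, g13⟩ := k180
                  have c13 : Core e0 e13 := CM g13
                  have k183 : e13 ≤ e0 := G1 g13
                  have k184 : e13 ≤ e12 := G2 g13
                  have k191 : e13 ≤ e3 := le_trans k184 k163
                  have k192 : e13 ≤ e5 := le_trans k184 k164
                  have k203 : ¬ e6 ≤ e13 := N2 k47 k191
                  have k207 : e13 ≤ e6 := G3 g6 k183 k192
                  exact HL _ _ _ _ _ _ c13 c6 c0 c8 c2 c4 (LT k207 k203) (LT k44 k51) (LT k74 k88) (LT k76 k89) (LT k29 k28)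
                · obtain ⟨e13, l13⟩ := (h1 e12).resolve_right k180
                  have c13 : Core e0 e13 := CJ k180 l13
                  have k183 : e0 ≤ e13 := L1 l13
                  have k184 : e12 ≤ e13 := L2 l13
                  have k185 : e13 ≤ e2 := L3 l13 k6 k168
                  have k190 : e7 ≤ e13 := le_trans k160 k184
                  have k203 : e8 ≤ e13 := L3 l8 k183 k190
                  by_cases k205 : e13 ≤ e8
                  · have k206 : e12 ≤ e8 := le_trans k184 k205
                    obtain ⟨e14, l14⟩ := ZE h2 k164 k180 g6
                    have c14 : Core e0 e14 := CZ g6 k180 l14
                    have k215 : e6 ≤ e14 := L1 l14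
                    have k216 : e12 ≤ e14 := L2 l14
                    have k219 : e14 ≤ e5 := L3 l14 k45 k164
                    have k220 : e14 ≤ e8 := L3 l14 k79 k206
                    have k223 : e7 ≤ e14 := le_trans k160 k216
                    have k224 : ¬ e0 ≤ e14 := N2 k35 k219
                    have k227 : ¬ e8 ≤ e14 := N1 k224 k74
                    have k241 : ¬ e14 ≤ e11 := N1 k162 k216
                    have k243 : e11 ≤ e14 := L3 l11 k215 k223
                    exact HL _ _ _ _ _ _ c6 c11 c14 c8 c2 c4 (LT k136 k157) (LT k243 k241) (LT k220 k227) (LT k76 k89) (LT k29 k28)
                  · have k207 : e2 ≤ e13 := Classical.byContradiction fun hn => HL _ _ _ _ _ _ c6 c11 c8 c13 c2 c4 (LT k136 k157) (LT k141 k146) (LT k203 k205) (LT k185 hn) (LT k29 k28)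
                    obtain ⟨e14, l14⟩ := ZE h2 k164 k180 g6
                    have c14 : Core e0 e14 := CZ g6 k180 l14
                    have k213 : e6 ≤ e14 := L1 l14
                    have k214 : e12 ≤ e14 := L2 l14
                    have k215 : e14 ≤ e2 := L3 l14 k49 k168
                    have k216 : e14 ≤ e4 := L3 l14 k50 k167
                    have k217 : e14 ≤ e5 := L3 l14 k45 k164
                    have k220 : e7 ≤ e14 := le_trans k160 k214
                    have k221 : ¬ e0 ≤ e14 := N2 k35 k217
                    have k222 : ¬ e2 ≤ e14 := N1 k221 k6
                    have k237 : ¬ e14 ≤ e11 := N1 k162 k214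
                    have k239 : e11 ≤ e14 := L3 l11 k213 k220
                    obtain ⟨e15, q15⟩ : ∃ y, f e14 = y := ⟨_, rfl⟩
                    have k242 : e12 ≤ e15 := MO hf q12 q15 k239
                    have k244 : ¬ e15 ≤ e14 := FB hG q15
                    have k245 : e15 ≤ e3 := MO hf q15 q3 k215
                    have k246 : e15 ≤ e5 := MO hf q15 q5 k216
                    have k248 : e15 ≤ e4 := le_trans k245 k22
                    by_cases k263 : ∃ z, IsGLB ({e0, e15} : Set P) z
                    · obtain ⟨e16, g16⟩ := k263
                      have c16 : Core e0 e16 := CM g16
                      have k266 : e16 ≤ e0 := G1 g16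
                      have k267 : e16 ≤ e15 := G2 g16
                      have k276 : e16 ≤ e3 := le_trans k267 k245
                      have k277 : e16 ≤ e5 := le_trans k267 k246
                      have k288 : ¬ e6 ≤ e16 := N2 k47 k276
                      have k294 : e16 ≤ e6 := G3 g6 k266 k277
                      exact HL _ _ _ _ _ _ c16 c6 c0 c8 c2 c4 (LT k294 k288) (LT k44 k51) (LT k74 k88) (LT k76 k89) (LT k29 k28)
                    · obtain ⟨e16, l16⟩ := (h1 e15).resolve_right k263
                      have c16 : Core e0 e16 := CJ k263 l16
                      have k266 : e0 ≤ e16 := L1 l16
                      have k267 : e15 ≤ e16 := L2 l16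
                      have k268 : e16 ≤ e4 := L3 l16 k21 k248
                      have k272 : e12 ≤ e16 := le_trans k242 k267
                      have k288 : e13 ≤ e16 := L3 l13 k266 k272
                      have k291 : e2 ≤ e16 := le_trans k207 k288
                      by_cases k294 : e16 ≤ e2
                      · have k297 : e15 ≤ e2 := le_trans k267 k294
                        obtain ⟨e17, l17⟩ := ZE h2 k246 k263 g6
                        have c17 : Core e0 e17 := CZ g6 k263 l17
                        have k305 : e6 ≤ e17 := L1 l17
                        have k306 : e15 ≤ e17 := L2 l17
                        have k307 : e17 ≤ e2 := L3 l17 k49 k297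
                        have k309 : e17 ≤ e5 := L3 l17 k45 k246
                        have k314 : e12 ≤ e17 := le_trans k242 k306
                        have k315 : ¬ e0 ≤ e17 := N2 k35 k309
                        have k316 : ¬ e2 ≤ e17 := N1 k315 k6
                        have k334 : ¬ e17 ≤ e14 := N1 k244 k306
                        have k337 : e14 ≤ e17 := L3 l14 k305 k314
                        exact HL _ _ _ _ _ _ c6 c11 c14 c17 c2 c4 (LT k136 k157) (LT k239 k237) (LT k337 k334) (LT k307 k316) (LT k29 k28)
                      · have k302 : e4 ≤ e16 := Classical.byContradiction fun hn => HL _ _ _ _ _ _ c6 c11 c14 c2 c16 c4 (LT k136 k157) (LT k239 k237) (LT k215 k222) (LT k291 k294) (LT k268 hn)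
                        obtain ⟨e17, l17⟩ := ZE h2 k246 k263 g6
                        have c17 : Core e0 e17 := CZ g6 k263 l17
                        have k306 : e6 ≤ e17 := L1 l17
                        have k307 : e15 ≤ e17 := L2 l17
                        have k308 : e17 ≤ e4 := L3 l17 k50 k248
                        have k309 : e17 ≤ e5 := L3 l17 k45 k246
                        have k312 : e12 ≤ e17 := le_trans k242 k307
                        have k313 : ¬ e0 ≤ e17 := N2 k35 k309
                        have k315 : ¬ e4 ≤ e17 := N1 k313 k21
                        have k334 : ¬ e17 ≤ e14 := N1 k244 k307
                        have k337 : e14 ≤ e17 := L3 l14 k306 k312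
                        obtain ⟨e18, q18⟩ : ∃ y, f e17 = y := ⟨_, rfl⟩
                        have k341 : e15 ≤ e18 := MO hf q15 q18 k337
                        have k342 : ¬ e17 ≤ e18 := FA hF q18
                        have k343 : ¬ e18 ≤ e17 := FB hG q18
                        have k344 : e18 ≤ e5 := MO hf q18 q5 k308
                        have k345 : ¬ e6 ≤ e18 := L5 l17 k341 k342
                        by_cases k369 : ∃ z, IsGLB ({e0, e18} : Set P) z
                        · obtain ⟨e19, g19⟩ := k369
                          have c19 : Core e0 e19 := CM g19
                          have k372 : e19 ≤ e0 := G1 g19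
                          have k373 : e19 ≤ e18 := G2 g19
                          have k384 : e19 ≤ e5 := le_trans k373 k344
                          have k396 : ¬ e6 ≤ e19 := N2 k345 k373
                          have k404 : e19 ≤ e6 := G3 g6 k372 k384
                          exact HL _ _ _ _ _ _ c19 c6 c0 c8 c2 c4 (LT k404 k396) (LT k44 k51) (LT k74 k88) (LT k76 k89) (LT k29 k28)
                        · obtain ⟨e19, l19⟩ := (h1 e18).resolve_right k369
                          have c19 : Core e0 e19 := CJ k369 l19
                          have k372 : e0 ≤ e19 := L1 l19
                          have k373 : e18 ≤ e19 := L2 l19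
                          have k378 : e15 ≤ e19 := le_trans k341 k373
                          have k400 : e16 ≤ e19 := L3 l16 k372 k378
                          have k407 : e4 ≤ e19 := le_trans k302 k400
                          have k408 : e19 ≤ e4 := Classical.byContradiction fun hn => HL _ _ _ _ _ _ c6 c11 c14 c17 c4 c19 (LT k136 k157) (LT k239 k237) (LT k337 k334) (LT k308 k315) (LT k407 hn)
                          have k410 : e18 ≤ e4 := le_trans k373 k408
                          obtain ⟨e20, l20⟩ := ZE h2 k344 k369 g6
                          have c20 : Core e0 e20 := CZ g6 k369 l20
                          have k415 : e6 ≤ e20 := L1 l20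
                          have k416 : e18 ≤ e20 := L2 l20
                          have k417 : e20 ≤ e4 := L3 l20 k50 k410
                          have k418 : e20 ≤ e5 := L3 l20 k45 k344
                          have k423 : e15 ≤ e20 := le_trans k341 k416
                          have k424 : ¬ e0 ≤ e20 := N2 k35 k418
                          have k426 : ¬ e4 ≤ e20 := N1 k424 k21
                          have k448 : ¬ e20 ≤ e17 := N1 k343 k416
                          have k452 : e17 ≤ e20 := L3 l17 k415 k423
                          exact HL _ _ _ _ _ _ c6 c11 c14 c17 c20 c4 (LT k136 k157) (LT k239 k237) (LT k337 k334) (LT k452 k448) (LT k417 k426)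
              · have k132 : e4 ≤ e10 := Classical.byContradiction fun hn => HL _ _ _ _ _ _ c6 c0 c8 c2 c10 c4 (LT k44 k51) (LT k74 k88) (LT k76 k89) (LT k127 k129) (LT k113 hn)
                obtain ⟨e11, l11⟩ := ZE h2 k62 k71 g6
                have c11 : Core e0 e11 := CZ g6 k71 l11
                have k136 : e6 ≤ e11 := L1 l11
                have k137 : e7 ≤ e11 := L2 l11
                have k138 : e11 ≤ e2 := L3 l11 k49 k64
                have k139 : e11 ≤ e4 := L3 l11 k50 k65
                have k140 : e11 ≤ e5 := L3 l11 k45 k62
                have k141 : e11 ≤ e8 := L3 l11 k79 k75
                have k143 : ¬ e0 ≤ e11 := N2 k35 k140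
                have k146 : ¬ e8 ≤ e11 := N1 k143 k74
                have k157 : ¬ e11 ≤ e6 := N1 k59 k137
                obtain ⟨e12, q12⟩ : ∃ y, f e11 = y := ⟨_, rfl⟩
                have k160 : e7 ≤ e12 := MO hf q7 q12 k136
                have k162 : ¬ e12 ≤ e11 := FB hG q12
                have k163 : e12 ≤ e3 := MO hf q12 q3 k138
                have k164 : e12 ≤ e5 := MO hf q12 q5 k139
                have k167 : e12 ≤ e4 := le_trans k163 k22
                by_cases k178 : ∃ z, IsGLB ({e0, e12} : Set P) z
                · obtain ⟨e13, g13⟩ := k178
                  have c13 : Core e0 e13 := CM g13
                  have k181 : e13 ≤ e0 := G1 g13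
                  have k182 : e13 ≤ e12 := G2 g13
                  have k189 : e13 ≤ e3 := le_trans k182 k163
                  have k190 : e13 ≤ e5 := le_trans k182 k164
                  have k201 : ¬ e6 ≤ e13 := N2 k47 k189
                  have k205 : e13 ≤ e6 := G3 g6 k181 k190
                  exact HL _ _ _ _ _ _ c13 c6 c0 c8 c2 c4 (LT k205 k201) (LT k44 k51) (LT k74 k88) (LT k76 k89) (LT k29 k28)
                · obtain ⟨e13, l13⟩ := (h1 e12).resolve_right k178
                  have c13 : Core e0 e13 := CJ k178 l13
                  have k181 : e0 ≤ e13 := L1 l13
                  have k182 : e12 ≤ e13 := L2 l13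
                  have k183 : e13 ≤ e4 := L3 l13 k21 k167
                  have k186 : e6 ≤ e13 := le_trans k44 k181
                  have k187 : e7 ≤ e13 := le_trans k160 k182
                  have k198 : e8 ≤ e13 := L3 l8 k181 k187
                  have k199 : e11 ≤ e13 := L3 l11 k186 k187
                  by_cases k200 : e13 ≤ e8
                  · have k203 : e12 ≤ e8 := le_trans k182 k200
                    obtain ⟨e14, l14⟩ := ZE h2 k164 k178 g6
                    have c14 : Core e0 e14 := CZ g6 k178 l14
                    have k215 : e6 ≤ e14 := L1 l14
                    have k216 : e12 ≤ e14 := L2 l14
                    have k219 : e14 ≤ e5 := L3 l14 k45 k164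
                    have k220 : e14 ≤ e8 := L3 l14 k79 k203
                    have k223 : e7 ≤ e14 := le_trans k160 k216
                    have k224 : ¬ e0 ≤ e14 := N2 k35 k219
                    have k227 : ¬ e8 ≤ e14 := N1 k224 k74
                    have k241 : ¬ e14 ≤ e11 := N1 k162 k216
                    have k243 : e11 ≤ e14 := L3 l11 k215 k223
                    exact HL _ _ _ _ _ _ c6 c11 c14 c8 c2 c4 (LT k136 k157) (LT k243 k241) (LT k220 k227) (LT k76 k89) (LT k29 k28)
                  · by_cases k202 : e4 ≤ e13
                    · obtain ⟨e14, l14⟩ := ZE h2 k164 k178 g6
                      have c14 : Core e0 e14 := CZ g6 k178 l14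
                      have k213 : e6 ≤ e14 := L1 l14
                      have k214 : e12 ≤ e14 := L2 l14
                      have k215 : e14 ≤ e4 := L3 l14 k50 k167
                      have k219 : e7 ≤ e14 := le_trans k160 k214
                      have k236 : ¬ e14 ≤ e11 := N1 k162 k214
                      have k238 : e11 ≤ e14 := L3 l11 k213 k219
                      obtain ⟨e15, q15⟩ : ∃ y, f e14 = y := ⟨_, rfl⟩
                      have k240 : e7 ≤ e15 := MO hf q7 q15 k213
                      have k241 : e12 ≤ e15 := MO hf q12 q15 k238
                      have k242 : ¬ e14 ≤ e15 := FA hF q15
                      have k243 : ¬ e15 ≤ e14 := FB hG q15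
                      have k244 : e15 ≤ e5 := MO hf q15 q5 k215
                      have k245 : ¬ e6 ≤ e15 := L5 l14 k241 k242
                      by_cases k262 : ∃ z, IsGLB ({e0, e15} : Set P) z
                      · obtain ⟨e16, g16⟩ := k262
                        have c16 : Core e0 e16 := CM g16
                        have k265 : e16 ≤ e0 := G1 g16
                        have k266 : e16 ≤ e15 := G2 g16
                        have k275 : e16 ≤ e5 := le_trans k266 k244
                        have k286 : ¬ e6 ≤ e16 := N2 k245 k266
                        have k292 : e16 ≤ e6 := G3 g6 k265 k275
                        exact HL _ _ _ _ _ _ c16 c6 c0 c8 c2 c4 (LT k292 k286) (LT k44 k51) (LT k74 k88) (LT k76 k89) (LT k29 k28)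
                      · obtain ⟨e16, l16⟩ := (h1 e15).resolve_right k262
                        have c16 : Core e0 e16 := CJ k262 l16
                        have k265 : e0 ≤ e16 := L1 l16
                        have k266 : e15 ≤ e16 := L2 l16
                        have k270 : e12 ≤ e16 := le_trans k241 k266
                        have k286 : e13 ≤ e16 := L3 l13 k265 k270
                        have k291 : e4 ≤ e16 := le_trans k202 k286
                        have k294 : e16 ≤ e4 := Classical.byContradiction fun hn => HL _ _ _ _ _ _ c6 c11 c8 c2 c4 c16 (LT k136 k157) (LT k141 k146) (LT k76 k89) (LT k29 k28) (LT k291 hn)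
                        have k297 : e15 ≤ e4 := le_trans k266 k294
                        obtain ⟨e17, l17⟩ := ZE h2 k244 k262 g6
                        have c17 : Core e0 e17 := CZ g6 k262 l17
                        have k303 : e6 ≤ e17 := L1 l17
                        have k304 : e15 ≤ e17 := L2 l17
                        have k305 : e17 ≤ e4 := L3 l17 k50 k297
                        have k306 : e17 ≤ e5 := L3 l17 k45 k244
                        have k310 : e7 ≤ e17 := le_trans k240 k304
                        have k311 : e12 ≤ e17 := le_trans k241 k304
                        have k312 : ¬ e0 ≤ e17 := N2 k35 k306
                        have k314 : ¬ e4 ≤ e17 := N1 k312 k21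
                        have k331 : ¬ e17 ≤ e14 := N1 k243 k304
                        have k333 : e11 ≤ e17 := L3 l11 k303 k310
                        have k334 : e14 ≤ e17 := L3 l14 k303 k311
                        obtain ⟨e18, q18⟩ : ∃ y, f e17 = y := ⟨_, rfl⟩
                        have k337 : e12 ≤ e18 := MO hf q12 q18 k333
                        have k338 : e15 ≤ e18 := MO hf q15 q18 k334
                        have k339 : ¬ e17 ≤ e18 := FA hF q18
                        have k340 : ¬ e18 ≤ e17 := FB hG q18
                        have k341 : e18 ≤ e5 := MO hf q18 q5 k305
                        have k342 : ¬ e6 ≤ e18 := L5 l17 k338 k339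
                        by_cases k363 : ∃ z, IsGLB ({e0, e18} : Set P) z
                        · obtain ⟨e19, g19⟩ := k363
                          have c19 : Core e0 e19 := CM g19
                          have k366 : e19 ≤ e0 := G1 g19
                          have k367 : e19 ≤ e18 := G2 g19
                          have k378 : e19 ≤ e5 := le_trans k367 k341
                          have k390 : ¬ e6 ≤ e19 := N2 k342 k367
                          have k398 : e19 ≤ e6 := G3 g6 k366 k378
                          exact HL _ _ _ _ _ _ c19 c6 c0 c8 c2 c4 (LT k398 k390) (LT k44 k51) (LT k74 k88) (LT k76 k89) (LT k29 k28)
                        · obtain ⟨e19, l19⟩ := (h1 e18).resolve_right k363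
                          have c19 : Core e0 e19 := CJ k363 l19
                          have k366 : e0 ≤ e19 := L1 l19
                          have k367 : e18 ≤ e19 := L2 l19
                          have k371 : e12 ≤ e19 := le_trans k337 k367
                          have k390 : e13 ≤ e19 := L3 l13 k366 k371
                          have k397 : e4 ≤ e19 := le_trans k202 k390
                          have k400 : e19 ≤ e4 := Classical.byContradiction fun hn => HL _ _ _ _ _ _ c6 c11 c14 c17 c4 c19 (LT k136 k157) (LT k238 k236) (LT k334 k331) (LT k305 k314) (LT k397 hn)
                          have k404 : e18 ≤ e4 := le_trans k367 k400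
                          obtain ⟨e20, l20⟩ := ZE h2 k341 k363 g6
                          have c20 : Core e0 e20 := CZ g6 k363 l20
                          have k411 : e6 ≤ e20 := L1 l20
                          have k412 : e18 ≤ e20 := L2 l20
                          have k413 : e20 ≤ e4 := L3 l20 k50 k404
                          have k414 : e20 ≤ e5 := L3 l20 k45 k341
                          have k421 : e15 ≤ e20 := le_trans k338 k412
                          have k422 : ¬ e0 ≤ e20 := N2 k35 k414
                          have k424 : ¬ e4 ≤ e20 := N1 k422 k21
                          have k444 : ¬ e20 ≤ e17 := N1 k340 k412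
                          have k448 : e17 ≤ e20 := L3 l17 k411 k421
                          exact HL _ _ _ _ _ _ c6 c11 c14 c17 c20 c4 (LT k136 k157) (LT k238 k236) (LT k334 k331) (LT k448 k444) (LT k413 k424)
                    · obtain ⟨e14, q14⟩ : ∃ y, f e13 = y := ⟨_, rfl⟩
                      have k211 : e9 ≤ e14 := MO hf q9 q14 k198
                      have k212 : e12 ≤ e14 := MO hf q12 q14 k199
                      have k215 : e14 ≤ e5 := MO hf q14 q5 k183
                      by_cases k229 : ∃ z, IsGLB ({e0, e14} : Set P) z
                      · obtain ⟨e15, g15⟩ := k229
                        have c15 : Core e0 e15 := CM g15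
                        have k232 : e15 ≤ e0 := G1 g15
                        have k233 : e15 ≤ e14 := G2 g15
                        have k240 : e15 ≤ e4 := le_trans k232 k21
                        have k243 : e15 ≤ e13 := le_trans k232 k181
                        have k244 : e15 ≤ e5 := le_trans k233 k215
                        have k260 : e15 ≤ e6 := G3 g6 k232 k244
                        have k262 : e6 ≤ e15 := Classical.byContradiction fun hn => HL _ _ _ _ _ _ c15 c6 c0 c8 c2 c4 (LT k260 hn) (LT k44 k51) (LT k74 k88) (LT k76 k89) (LT k29 k28)
                        have k263 : e6 ≤ e14 := le_trans k262 k233
                        have k264 : ¬ e14 ≤ e3 := N1 k47 k263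
                        have k266 : ¬ e13 ≤ e2 := NM hf q14 q3 k264
                        have k268 : ¬ e12 ≤ e2 := L4 l13 k6 k266
                        obtain ⟨e16, l16⟩ := ZE h2 k212 k178 g15
                        have c16 : Core e0 e16 := CZ g15 k178 l16
                        have k272 : e15 ≤ e16 := L1 l16
                        have k273 : e12 ≤ e16 := L2 l16
                        have k274 : e16 ≤ e4 := L3 l16 k240 k167
                        have k277 : e16 ≤ e13 := L3 l16 k243 k182
                        have k279 : e7 ≤ e16 := le_trans k160 k273
                        have k280 : e6 ≤ e16 := le_trans k262 k272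
                        have k301 : ¬ e16 ≤ e11 := N1 k162 k273
                        have k303 : e11 ≤ e16 := L3 l11 k280 k279
                        obtain ⟨e17, q17⟩ : ∃ y, f e16 = y := ⟨_, rfl⟩
                        have k305 : e7 ≤ e17 := MO hf q7 q17 k280
                        have k306 : e12 ≤ e17 := MO hf q12 q17 k303
                        have k307 : ¬ e16 ≤ e17 := FA hF q17
                        have k308 : ¬ e17 ≤ e16 := FB hG q17
                        have k309 : e17 ≤ e5 := MO hf q17 q5 k274
                        have k310 : e17 ≤ e14 := MO hf q17 q14 k277
                        have k311 : ¬ e15 ≤ e17 := L5 l16 k306 k307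
                        have k327 : ¬ e6 ≤ e17 := N1 k311 k260
                        by_cases k331 : ∃ z, IsGLB ({e0, e17} : Set P) z
                        · obtain ⟨e18, g18⟩ := k331
                          have c18 : Core e0 e18 := CM g18
                          have k334 : e18 ≤ e0 := G1 g18
                          have k335 : e18 ≤ e17 := G2 g18
                          have k344 : e18 ≤ e5 := le_trans k335 k309
                          have k357 : ¬ e6 ≤ e18 := N2 k327 k335
                          have k364 : e18 ≤ e6 := G3 g6 k334 k344
                          exact HL _ _ _ _ _ _ c18 c6 c0 c8 c2 c4 (LT k364 k357) (LT k44 k51) (LT k74 k88) (LT k76 k89) (LT k29 k28)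
                        · obtain ⟨e18, l18⟩ := (h1 e17).resolve_right k331
                          have c18 : Core e0 e18 := CJ k331 l18
                          have k334 : e0 ≤ e18 := L1 l18
                          have k335 : e17 ≤ e18 := L2 l18
                          have k337 : e6 ≤ e18 := le_trans k44 k334
                          have k338 : e15 ≤ e18 := le_trans k232 k334
                          have k339 : e7 ≤ e18 := le_trans k305 k335
                          have k340 : e12 ≤ e18 := le_trans k306 k335
                          have k357 : e11 ≤ e18 := L3 l11 k337 k339
                          have k358 : e13 ≤ e18 := L3 l13 k334 k340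
                          have k359 : e16 ≤ e18 := L3 l16 k338 k340
                          by_cases k360 : e18 ≤ e13
                          · have k365 : e17 ≤ e13 := le_trans k335 k360
                            obtain ⟨e19, l19⟩ := ZE h2 k310 k331 g15
                            have c19 : Core e0 e19 := CZ g15 k331 l19
                            have k376 : e15 ≤ e19 := L1 l19
                            have k377 : e17 ≤ e19 := L2 l19
                            have k379 : e19 ≤ e5 := L3 l19 k244 k309
                            have k381 : e19 ≤ e13 := L3 l19 k243 k365
                            have k386 : e12 ≤ e19 := le_trans k306 k377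
                            have k387 : ¬ e0 ≤ e19 := N2 k35 k379
                            have k392 : ¬ e13 ≤ e19 := N1 k387 k181
                            have k410 : ¬ e19 ≤ e16 := N1 k308 k377
                            have k413 : e16 ≤ e19 := L3 l16 k376 k386
                            exact HL _ _ _ _ _ _ c6 c11 c16 c19 c13 c4 (LT k136 k157) (LT k303 k301) (LT k413 k410) (LT k381 k392) (LT k183 k202)
                          · obtain ⟨e19, q19⟩ : ∃ y, f e18 = y := ⟨_, rfl⟩
                            have k364 : e7 ≤ e19 := MO hf q7 q19 k337
                            have k366 : e12 ≤ e19 := MO hf q12 q19 k357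
                            have k367 : e14 ≤ e19 := MO hf q14 q19 k358
                            have k368 : e17 ≤ e19 := MO hf q17 q19 k359
                            have k369 : ¬ e18 ≤ e19 := FA hF q19
                            have k370 : ¬ e19 ≤ e18 := FB hG q19
                            have k371 : ¬ e0 ≤ e19 := L5 l18 k368 k369
                            have k372 : e6 ≤ e19 := le_trans k263 k367
                            have k374 : e15 ≤ e19 := le_trans k233 k367
                            by_cases k395 : ∃ z, IsGLB ({e0, e19} : Set P) z
                            · obtain ⟨e20, g20⟩ := k395
                              have c20 : Core e0 e20 := CM g20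
                              obtain ⟨e21, l21⟩ := ZE h2 k366 k178 g20
                              have c21 : Core e0 e21 := CZ g20 k178 l21
                              have k400 : e20 ≤ e0 := G1 g20
                              have k401 : e20 ≤ e19 := G2 g20
                              have k402 : e6 ≤ e20 := G3 g20 k44 k372
                              have k403 : e15 ≤ e20 := G3 g20 k232 k374
                              have k413 : e20 ≤ e2 := le_trans k400 k6
                              have k418 : e20 ≤ e18 := le_trans k400 k334
                              have k422 : ¬ e0 ≤ e20 := N2 k371 k401
                              have k474 : e20 ≤ e6 := Classical.byContradiction fun hn => HL _ _ _ _ _ _ c6 c20 c0 c8 c2 c4 (LT k402 hn) (LT k400 k422) (LT k74 k88) (LT k76 k89) (LT k29 k28)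
                              have k475 : e20 ≤ e5 := le_trans k474 k45
                              have k479 : e20 ≤ e16 := le_trans k474 k280
                              obtain ⟨e22, l22⟩ := ZE h2 k364 k71 g20
                              have c22 : Core e0 e22 := CZ g20 k71 l22
                              have k485 : e20 ≤ e22 := L1 l22
                              have k486 : e7 ≤ e22 := L2 l22
                              have k487 : e22 ≤ e2 := L3 l22 k413 k64
                              have k495 : e22 ≤ e16 := L3 l22 k479 k279
                              have k499 : e6 ≤ e22 := le_trans k402 k485
                              have k521 : ¬ e22 ≤ e6 := N1 k59 k486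
                              have k524 : ¬ e12 ≤ e22 := N2 k268 k487
                              have k525 : ¬ e16 ≤ e22 := N1 k524 k273
                              obtain ⟨e23, l23⟩ := ZE h2 k368 k331 g20
                              have c23 : Core e0 e23 := CZ g20 k331 l23
                              have k532 : e20 ≤ e23 := L1 l23
                              have k533 : e17 ≤ e23 := L2 l23
                              have k534 : e23 ≤ e5 := L3 l23 k475 k309
                              have k536 : e23 ≤ e18 := L3 l23 k418 k335
                              have k539 : e12 ≤ e23 := le_trans k306 k533
                              have k541 : e15 ≤ e23 := le_trans k403 k532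
                              have k542 : ¬ e0 ≤ e23 := N2 k35 k534
                              have k548 : ¬ e18 ≤ e23 := N1 k542 k334
                              have k564 : ¬ e23 ≤ e16 := N1 k308 k533
                              have k569 : e16 ≤ e23 := L3 l16 k541 k539
                              obtain ⟨e24, q24⟩ : ∃ y, f e23 = y := ⟨_, rfl⟩
                              have k575 : e17 ≤ e24 := MO hf q17 q24 k569
                              have k576 : ¬ e23 ≤ e24 := FA hF q24
                              have k577 : ¬ e24 ≤ e23 := FB hG q24
                              have k578 : e24 ≤ e19 := MO hf q24 q19 k536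
                              have k579 : ¬ e20 ≤ e24 := L5 l23 k575 k576
                              have k602 : ¬ e6 ≤ e24 := N1 k579 k474
                              by_cases k611 : ∃ z, IsGLB ({e0, e24} : Set P) z
                              · obtain ⟨e25, g25⟩ := k611
                                have c25 : Core e0 e25 := CM g25
                                have k614 : e25 ≤ e0 := G1 g25
                                have k615 : e25 ≤ e24 := G2 g25
                                have k626 : e25 ≤ e19 := le_trans k615 k578
                                have k640 : ¬ e6 ≤ e25 := N2 k602 k615
                                have k644 : ¬ e20 ≤ e25 := N1 k640 k402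
                                have k652 : e25 ≤ e20 := G3 g20 k614 k626
                                exact HL _ _ _ _ _ _ c25 c20 c0 c8 c2 c4 (LT k652 k644) (LT k400 k422) (LT k74 k88) (LT k76 k89) (LT k29 k28)
                              · obtain ⟨e25, l25⟩ := (h1 e24).resolve_right k611
                                have c25 : Core e0 e25 := CJ k611 l25
                                have k614 : e0 ≤ e25 := L1 l25
                                have k615 : e24 ≤ e25 := L2 l25
                                have k622 : e17 ≤ e25 := le_trans k575 k615
                                have k649 : e18 ≤ e25 := L3 l18 k614 k622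
                                have k653 : e25 ≤ e18 := Classical.byContradiction fun hn => HL _ _ _ _ _ _ c6 c11 c16 c23 c18 c25 (LT k136 k157) (LT k303 k301) (LT k569 k564) (LT k536 k548) (LT k649 hn)
                                have k654 : e24 ≤ e18 := le_trans k615 k653
                                obtain ⟨e26, l26⟩ := ZE h2 k578 k611 g20
                                have c26 : Core e0 e26 := CZ g20 k611 l26
                                have k658 : e20 ≤ e26 := L1 l26
                                have k659 : e24 ≤ e26 := L2 l26
                                have k660 : e26 ≤ e18 := L3 l26 k418 k654
                                have k661 : e26 ≤ e19 := L3 l26 k401 k578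
                                have k667 : e17 ≤ e26 := le_trans k575 k659
                                have k668 : ¬ e0 ≤ e26 := N2 k371 k661
                                have k674 : ¬ e18 ≤ e26 := N1 k668 k334
                                have k695 : ¬ e26 ≤ e23 := N1 k577 k659
                                have k701 : e23 ≤ e26 := L3 l23 k658 k667
                                exact HL _ _ _ _ _ _ c6 c22 c16 c23 c26 c18 (LT k499 k521) (LT k495 k525) (LT k569 k564) (LT k701 k695) (LT k660 k674)
                            · obtain ⟨e20, l20⟩ := (h1 e19).resolve_right k395
                              have c20 : Core e0 e20 := CJ k395 l20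
                              have k398 : e0 ≤ e20 := L1 l20
                              have k399 : e19 ≤ e20 := L2 l20
                              have k410 : e17 ≤ e20 := le_trans k368 k399
                              have k428 : ¬ e20 ≤ e18 := N1 k370 k399
                              have k433 : e18 ≤ e20 := L3 l18 k398 k410
                              exact HL _ _ _ _ _ _ c6 c0 c8 c13 c18 c20 (LT k44 k51) (LT k74 k88) (LT k198 k200) (LT k358 k360) (LT k433 k428)
                      · have k230 : ¬ e6 ≤ e14 := BN3 g6 k229 k215
                        obtain ⟨e15, l15⟩ := (h1 e14).resolve_right k229
                        have c15 : Core e0 e15 := CJ k229 l15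
                        have k235 : e0 ≤ e15 := L1 l15
                        have k236 : e14 ≤ e15 := L2 l15
                        have k241 : e9 ≤ e15 := le_trans k211 k236
                        have k258 : e10 ≤ e15 := L3 l10 k235 k241
                        have k262 : e4 ≤ e15 := le_trans k132 k258
                        have k263 : e15 ≤ e4 := Classical.byContradiction fun hn => HL _ _ _ _ _ _ c6 c11 c8 c13 c4 c15 (LT k136 k157) (LT k141 k146) (LT k198 k200) (LT k183 k202) (LT k262 hn)
                        have k265 : e14 ≤ e4 := le_trans k236 k263
                        obtain ⟨e16, l16⟩ := ZE h2 k164 k178 g6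
                        have c16 : Core e0 e16 := CZ g6 k178 l16
                        have k270 : e6 ≤ e16 := L1 l16
                        have k271 : e12 ≤ e16 := L2 l16
                        have k272 : e16 ≤ e4 := L3 l16 k50 k167
                        have k273 : e16 ≤ e5 := L3 l16 k45 k164
                        have k275 : e16 ≤ e13 := L3 l16 k186 k182
                        have k277 : e7 ≤ e16 := le_trans k160 k271
                        have k278 : ¬ e0 ≤ e16 := N2 k35 k273
                        have k283 : ¬ e13 ≤ e16 := N1 k278 k181
                        have k298 : ¬ e16 ≤ e11 := N1 k162 k271
                        have k300 : e11 ≤ e16 := L3 l11 k270 k277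
                        obtain ⟨e17, q17⟩ : ∃ y, f e16 = y := ⟨_, rfl⟩
                        have k303 : e12 ≤ e17 := MO hf q12 q17 k300
                        have k305 : ¬ e17 ≤ e16 := FB hG q17
                        have k306 : e17 ≤ e5 := MO hf q17 q5 k272
                        have k307 : e17 ≤ e14 := MO hf q17 q14 k275
                        have k309 : e17 ≤ e4 := le_trans k307 k265
                        by_cases k327 : ∃ z, IsGLB ({e0, e17} : Set P) z
                        · obtain ⟨e18, g18⟩ := k327
                          have c18 : Core e0 e18 := CM g18
                          have k330 : e18 ≤ e0 := G1 g18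
                          have k331 : e18 ≤ e17 := G2 g18
                          have k341 : e18 ≤ e5 := le_trans k331 k306
                          have k342 : e18 ≤ e14 := le_trans k331 k307
                          have k355 : ¬ e6 ≤ e18 := N2 k230 k342
                          have k361 : e18 ≤ e6 := G3 g6 k330 k341
                          exact HL _ _ _ _ _ _ c18 c6 c0 c8 c2 c4 (LT k361 k355) (LT k44 k51) (LT k74 k88) (LT k76 k89) (LT k29 k28)
                        · obtain ⟨e18, l18⟩ := (h1 e17).resolve_right k327
                          have c18 : Core e0 e18 := CJ k327 l18
                          have k330 : e0 ≤ e18 := L1 l18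
                          have k331 : e17 ≤ e18 := L2 l18
                          have k332 : e18 ≤ e4 := L3 l18 k21 k309
                          have k338 : e12 ≤ e18 := le_trans k303 k331
                          have k355 : e13 ≤ e18 := L3 l13 k330 k338
                          by_cases k357 : e18 ≤ e13
                          · have k358 : e17 ≤ e13 := le_trans k331 k357
                            obtain ⟨e19, l19⟩ := ZE h2 k306 k327 g6
                            have c19 : Core e0 e19 := CZ g6 k327 l19
                            have k370 : e6 ≤ e19 := L1 l19
                            have k371 : e17 ≤ e19 := L2 l19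
                            have k373 : e19 ≤ e5 := L3 l19 k45 k306
                            have k375 : e19 ≤ e13 := L3 l19 k186 k358
                            have k379 : e12 ≤ e19 := le_trans k303 k371
                            have k380 : ¬ e0 ≤ e19 := N2 k35 k373
                            have k385 : ¬ e13 ≤ e19 := N1 k380 k181
                            have k403 : ¬ e19 ≤ e16 := N1 k305 k371
                            have k406 : e16 ≤ e19 := L3 l16 k370 k379
                            exact HL _ _ _ _ _ _ c6 c11 c16 c19 c13 c4 (LT k136 k157) (LT k300 k298) (LT k406 k403) (LT k375 k385) (LT k183 k202)
                          · have k359 : e4 ≤ e18 := Classical.byContradiction fun hn => HL _ _ _ _ _ _ c6 c11 c16 c13 c18 c4 (LT k136 k157) (LT k300 k298) (LT k275 k283) (LT k355 k357) (LT k332 hn)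
                            obtain ⟨e19, l19⟩ := ZE h2 k306 k327 g6
                            have c19 : Core e0 e19 := CZ g6 k327 l19
                            have k372 : e6 ≤ e19 := L1 l19
                            have k373 : e17 ≤ e19 := L2 l19
                            have k374 : e19 ≤ e4 := L3 l19 k50 k309
                            have k375 : e19 ≤ e5 := L3 l19 k45 k306
                            have k380 : e12 ≤ e19 := le_trans k303 k373
                            have k381 : ¬ e0 ≤ e19 := N2 k35 k375
                            have k383 : ¬ e4 ≤ e19 := N1 k381 k21
                            have k403 : ¬ e19 ≤ e16 := N1 k305 k373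
                            have k406 : e16 ≤ e19 := L3 l16 k372 k380
                            obtain ⟨e20, q20⟩ : ∃ y, f e19 = y := ⟨_, rfl⟩
                            have k410 : e17 ≤ e20 := MO hf q17 q20 k406
                            have k411 : ¬ e19 ≤ e20 := FA hF q20
                            have k412 : ¬ e20 ≤ e19 := FB hG q20
                            have k413 : e20 ≤ e5 := MO hf q20 q5 k374
                            have k414 : ¬ e6 ≤ e20 := L5 l19 k410 k411
                            by_cases k437 : ∃ z, IsGLB ({e0, e20} : Set P) z
                            · obtain ⟨e21, g21⟩ := k437
                              have c21 : Core e0 e21 := CM g21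
                              have k440 : e21 ≤ e0 := G1 g21
                              have k441 : e21 ≤ e20 := G2 g21
                              have k453 : e21 ≤ e5 := le_trans k441 k413
                              have k467 : ¬ e6 ≤ e21 := N2 k414 k441
                              have k475 : e21 ≤ e6 := G3 g6 k440 k453
                              exact HL _ _ _ _ _ _ c21 c6 c0 c8 c2 c4 (LT k475 k467) (LT k44 k51) (LT k74 k88) (LT k76 k89) (LT k29 k28)
                            · obtain ⟨e21, l21⟩ := (h1 e20).resolve_right k437
                              have c21 : Core e0 e21 := CJ k437 l21
                              have k440 : e0 ≤ e21 := L1 l21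
                              have k441 : e20 ≤ e21 := L2 l21
                              have k446 : e17 ≤ e21 := le_trans k410 k441
                              have k468 : e18 ≤ e21 := L3 l18 k440 k446
                              have k473 : e4 ≤ e21 := le_trans k359 k468
                              have k478 : e21 ≤ e4 := Classical.byContradiction fun hn => HL _ _ _ _ _ _ c6 c11 c16 c19 c4 c21 (LT k136 k157) (LT k300 k298) (LT k406 k403) (LT k374 k383) (LT k473 hn)
                              have k482 : e20 ≤ e4 := le_trans k441 k478
                              obtain ⟨e22, l22⟩ := ZE h2 k413 k437 g6
                              have c22 : Core e0 e22 := CZ g6 k437 l22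
                              have k489 : e6 ≤ e22 := L1 l22
                              have k490 : e20 ≤ e22 := L2 l22
                              have k491 : e22 ≤ e4 := L3 l22 k50 k482
                              have k492 : e22 ≤ e5 := L3 l22 k45 k413
                              have k499 : e17 ≤ e22 := le_trans k410 k490
                              have k500 : ¬ e0 ≤ e22 := N2 k35 k492
                              have k502 : ¬ e4 ≤ e22 := N1 k500 k21
                              have k525 : ¬ e22 ≤ e19 := N1 k412 k490
                              have k529 : e19 ≤ e22 := L3 l19 k489 k499
                              exact HL _ _ _ _ _ _ c6 c11 c16 c19 c22 c4 (LT k136 k157) (LT k300 k298) (LT k406 k403) (LT k529 k525) (LT k491 k502)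
      · obtain ⟨e6, l6⟩ := (h1 e5).resolve_right k41
        have c6 : Core e0 e6 := CJ k41 l6
        have k44 : e0 ≤ e6 := L1 l6
        have k45 : e5 ≤ e6 := L2 l6
        have k47 : e1 ≤ e6 := le_trans k31 k45
        have k48 : e3 ≤ e6 := le_trans k32 k45
        have k54 : ¬ e6 ≤ e4 := N1 k34 k45
        have k55 : e2 ≤ e6 := L3 l2 k44 k47
        have k56 : e4 ≤ e6 := L3 l4 k44 k48
        obtain ⟨e7, q7⟩ : ∃ y, f e6 = y := ⟨_, rfl⟩
        have k58 : e1 ≤ e7 := MO hf q1 q7 k44
        have k59 : e3 ≤ e7 := MO hf q3 q7 k55
        have k60 : e5 ≤ e7 := MO hf q5 q7 k56
        have k61 : ¬ e6 ≤ e7 := FA hF q7
        have k62 : ¬ e7 ≤ e6 := FB hG q7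
        have k63 : ¬ e0 ≤ e7 := L5 l6 k60 k61
        by_cases k72 : ∃ z, IsGLB ({e0, e7} : Set P) z
        · obtain ⟨e8, g8⟩ := k72
          have c8 : Core e0 e8 := CM g8
          have k75 : e8 ≤ e0 := G1 g8
          have k76 : e8 ≤ e7 := G2 g8
          have k77 : ¬ e8 ≤ e1 := BN3 g8 k3 k58
          have k78 : ¬ e8 ≤ e3 := BN3 g8 k18 k59
          have k79 : ¬ e8 ≤ e5 := BN3 g8 k41 k60
          have k81 : e8 ≤ e2 := le_trans k75 k6
          have k82 : e8 ≤ e4 := le_trans k75 k21
          have k83 : e8 ≤ e6 := le_trans k75 k44
          have k84 : ¬ e0 ≤ e8 := N2 k63 k76
          obtain ⟨e9, q9⟩ : ∃ y, f e8 = y := ⟨_, rfl⟩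
          have k94 : ¬ e9 ≤ e8 := FB hG q9
          have k95 : e9 ≤ e1 := MO hf q9 q1 k75
          have k98 : e9 ≤ e7 := MO hf q9 q7 k83
          have k99 : ¬ e9 ≤ e0 := G5 g8 k98 k94
          have k100 : e9 ≤ e2 := le_trans k95 k7
          have k101 : e9 ≤ e4 := le_trans k95 k24
          have k102 : e9 ≤ e6 := le_trans k95 k47
          by_cases k110 : ∃ z, IsGLB ({e0, e9} : Set P) z
          · obtain ⟨e10, g10⟩ := k110
            have c10 : Core e0 e10 := CM g10
            have k113 : e10 ≤ e0 := G1 g10
            have k114 : e10 ≤ e9 := G2 g10
            have k119 : e10 ≤ e1 := le_trans k114 k95
            have k122 : e10 ≤ e7 := le_trans k114 k98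
            have k131 : ¬ e8 ≤ e10 := N2 k77 k119
            have k133 : e10 ≤ e8 := G3 g8 k113 k122
            exact HL _ _ _ _ _ _ c10 c8 c0 c2 c4 c6 (LT k133 k131) (LT k75 k84) (LT k6 k10) (LT k29 k28) (LT k56 k54)
          · obtain ⟨e10, l10⟩ := (h1 e9).resolve_right k110
            have c10 : Core e0 e10 := CJ k110 l10
            have k113 : e0 ≤ e10 := L1 l10
            have k114 : e9 ≤ e10 := L2 l10
            have k115 : e10 ≤ e2 := L3 l10 k6 k100
            have k116 : e10 ≤ e4 := L3 l10 k21 k101
            have k126 : ¬ e3 ≤ e10 := N2 k14 k115
            have k127 : ¬ e4 ≤ e10 := N1 k126 k22
            have k131 : ¬ e10 ≤ e0 := N1 k99 k114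
            have k132 : e2 ≤ e10 := Classical.byContradiction fun hn => HL _ _ _ _ _ _ c8 c0 c10 c2 c4 c6 (LT k75 k84) (LT k113 k131) (LT k115 hn) (LT k29 k28) (LT k56 k54)
            obtain ⟨e11, l11⟩ := ZE h2 k98 k110 g8
            have c11 : Core e0 e11 := CZ g8 k110 l11
            have k136 : e8 ≤ e11 := L1 l11
            have k137 : e9 ≤ e11 := L2 l11
            have k138 : e11 ≤ e2 := L3 l11 k81 k100
            have k140 : e11 ≤ e6 := L3 l11 k83 k102
            have k141 : e11 ≤ e7 := L3 l11 k76 k98
            have k143 : ¬ e0 ≤ e11 := N2 k63 k141
            have k144 : ¬ e2 ≤ e11 := N1 k143 k6
            have k156 : ¬ e11 ≤ e8 := N1 k94 k137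
            obtain ⟨e12, q12⟩ : ∃ y, f e11 = y := ⟨_, rfl⟩
            have k159 : e9 ≤ e12 := MO hf q9 q12 k136
            have k161 : ¬ e12 ≤ e11 := FB hG q12
            have k162 : e12 ≤ e3 := MO hf q12 q3 k138
            have k164 : e12 ≤ e7 := MO hf q12 q7 k140
            have k166 : e12 ≤ e4 := le_trans k162 k22
            have k167 : e12 ≤ e6 := le_trans k162 k48
            by_cases k178 : ∃ z, IsGLB ({e0, e12} : Set P) z
            · obtain ⟨e13, g13⟩ := k178
              have c13 : Core e0 e13 := CM g13
              have k181 : e13 ≤ e0 := G1 g13
              have k182 : e13 ≤ e12 := G2 g13
              have k189 : e13 ≤ e3 := le_trans k182 k162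
              have k191 : e13 ≤ e7 := le_trans k182 k164
              have k201 : ¬ e8 ≤ e13 := N2 k78 k189
              have k205 : e13 ≤ e8 := G3 g8 k181 k191
              exact HL _ _ _ _ _ _ c13 c8 c0 c10 c4 c6 (LT k205 k201) (LT k75 k84) (LT k113 k131) (LT k116 k127) (LT k56 k54)
            · obtain ⟨e13, l13⟩ := (h1 e12).resolve_right k178
              have c13 : Core e0 e13 := CJ k178 l13
              have k181 : e0 ≤ e13 := L1 l13
              have k182 : e12 ≤ e13 := L2 l13
              have k183 : e13 ≤ e4 := L3 l13 k21 k166
              have k187 : e9 ≤ e13 := le_trans k159 k182
              have k200 : e10 ≤ e13 := L3 l10 k181 k187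
              have k203 : e2 ≤ e13 := le_trans k132 k200
              by_cases k204 : e13 ≤ e2
              · have k206 : e12 ≤ e2 := le_trans k182 k204
                obtain ⟨e14, l14⟩ := ZE h2 k164 k178 g8
                have c14 : Core e0 e14 := CZ g8 k178 l14
                have k213 : e8 ≤ e14 := L1 l14
                have k214 : e12 ≤ e14 := L2 l14
                have k215 : e14 ≤ e2 := L3 l14 k81 k206
                have k218 : e14 ≤ e7 := L3 l14 k76 k164
                have k221 : e9 ≤ e14 := le_trans k159 k214
                have k222 : ¬ e0 ≤ e14 := N2 k63 k218
                have k223 : ¬ e2 ≤ e14 := N1 k222 k6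
                have k238 : ¬ e14 ≤ e11 := N1 k161 k214
                have k240 : e11 ≤ e14 := L3 l11 k213 k221
                exact HL _ _ _ _ _ _ c8 c11 c14 c2 c4 c6 (LT k136 k156) (LT k240 k238) (LT k215 k223) (LT k29 k28) (LT k56 k54)
              · have k209 : e4 ≤ e13 := Classical.byContradiction fun hn => HL _ _ _ _ _ _ c8 c11 c2 c13 c4 c6 (LT k136 k156) (LT k138 k144) (LT k203 k204) (LT k183 hn) (LT k56 k54)
                obtain ⟨e14, l14⟩ := ZE h2 k164 k178 g8
                have c14 : Core e0 e14 := CZ g8 k178 l14
                have k213 : e8 ≤ e14 := L1 l14
                have k214 : e12 ≤ e14 := L2 l14
                have k215 : e14 ≤ e4 := L3 l14 k82 k166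
                have k216 : e14 ≤ e6 := L3 l14 k83 k167
                have k217 : e14 ≤ e7 := L3 l14 k76 k164
                have k219 : e9 ≤ e14 := le_trans k159 k214
                have k220 : ¬ e0 ≤ e14 := N2 k63 k217
                have k222 : ¬ e4 ≤ e14 := N1 k220 k21
                have k237 : ¬ e14 ≤ e11 := N1 k161 k214
                have k239 : e11 ≤ e14 := L3 l11 k213 k219
                obtain ⟨e15, q15⟩ : ∃ y, f e14 = y := ⟨_, rfl⟩
                have k242 : e12 ≤ e15 := MO hf q12 q15 k239
                have k244 : ¬ e15 ≤ e14 := FB hG q15
                have k245 : e15 ≤ e5 := MO hf q15 q5 k215
                have k246 : e15 ≤ e7 := MO hf q15 q7 k216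
                have k248 : e15 ≤ e6 := le_trans k245 k45
                by_cases k265 : ∃ z, IsGLB ({e0, e15} : Set P) z
                · obtain ⟨e16, g16⟩ := k265
                  have c16 : Core e0 e16 := CM g16
                  have k268 : e16 ≤ e0 := G1 g16
                  have k269 : e16 ≤ e15 := G2 g16
                  have k278 : e16 ≤ e5 := le_trans k269 k245
                  have k279 : e16 ≤ e7 := le_trans k269 k246
                  have k290 : ¬ e8 ≤ e16 := N2 k79 k278
                  have k296 : e16 ≤ e8 := G3 g8 k268 k279
                  exact HL _ _ _ _ _ _ c16 c8 c0 c10 c4 c6 (LT k296 k290) (LT k75 k84) (LT k113 k131) (LT k116 k127) (LT k56 k54)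
                · obtain ⟨e16, l16⟩ := (h1 e15).resolve_right k265
                  have c16 : Core e0 e16 := CJ k265 l16
                  have k268 : e0 ≤ e16 := L1 l16
                  have k269 : e15 ≤ e16 := L2 l16
                  have k270 : e16 ≤ e6 := L3 l16 k44 k248
                  have k274 : e12 ≤ e16 := le_trans k242 k269
                  have k291 : e13 ≤ e16 := L3 l13 k268 k274
                  have k296 : e4 ≤ e16 := le_trans k209 k291
                  by_cases k297 : e16 ≤ e4
                  · have k299 : e15 ≤ e4 := le_trans k269 k297
                    obtain ⟨e17, l17⟩ := ZE h2 k246 k265 g8
                    have c17 : Core e0 e17 := CZ g8 k265 l17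
                    have k306 : e8 ≤ e17 := L1 l17
                    have k307 : e15 ≤ e17 := L2 l17
                    have k308 : e17 ≤ e4 := L3 l17 k82 k299
                    have k310 : e17 ≤ e7 := L3 l17 k76 k246
                    have k314 : e12 ≤ e17 := le_trans k242 k307
                    have k315 : ¬ e0 ≤ e17 := N2 k63 k310
                    have k317 : ¬ e4 ≤ e17 := N1 k315 k21
                    have k335 : ¬ e17 ≤ e14 := N1 k244 k307
                    have k338 : e14 ≤ e17 := L3 l14 k306 k314
                    exact HL _ _ _ _ _ _ c8 c11 c14 c17 c4 c6 (LT k136 k156) (LT k239 k237) (LT k338 k335) (LT k308 k317) (LT k56 k54)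
                  · have k302 : e6 ≤ e16 := Classical.byContradiction fun hn => HL _ _ _ _ _ _ c8 c11 c14 c4 c16 c6 (LT k136 k156) (LT k239 k237) (LT k215 k222) (LT k296 k297) (LT k270 hn)
                    obtain ⟨e17, l17⟩ := ZE h2 k246 k265 g8
                    have c17 : Core e0 e17 := CZ g8 k265 l17
                    have k306 : e8 ≤ e17 := L1 l17
                    have k307 : e15 ≤ e17 := L2 l17
                    have k308 : e17 ≤ e6 := L3 l17 k83 k248
                    have k309 : e17 ≤ e7 := L3 l17 k76 k246
                    have k312 : e12 ≤ e17 := le_trans k242 k307
                    have k313 : ¬ e0 ≤ e17 := N2 k63 k309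
                    have k316 : ¬ e6 ≤ e17 := N1 k313 k44
                    have k334 : ¬ e17 ≤ e14 := N1 k244 k307
                    have k337 : e14 ≤ e17 := L3 l14 k306 k312
                    obtain ⟨e18, q18⟩ : ∃ y, f e17 = y := ⟨_, rfl⟩
                    have k341 : e15 ≤ e18 := MO hf q15 q18 k337
                    have k342 : ¬ e17 ≤ e18 := FA hF q18
                    have k343 : ¬ e18 ≤ e17 := FB hG q18
                    have k344 : e18 ≤ e7 := MO hf q18 q7 k308
                    have k345 : ¬ e8 ≤ e18 := L5 l17 k341 k342
                    by_cases k369 : ∃ z, IsGLB ({e0, e18} : Set P) z
                    · obtain ⟨e19, g19⟩ := k369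
                      have c19 : Core e0 e19 := CM g19
                      have k372 : e19 ≤ e0 := G1 g19
                      have k373 : e19 ≤ e18 := G2 g19
                      have k384 : e19 ≤ e7 := le_trans k373 k344
                      have k396 : ¬ e8 ≤ e19 := N2 k345 k373
                      have k404 : e19 ≤ e8 := G3 g8 k372 k384
                      exact HL _ _ _ _ _ _ c19 c8 c0 c10 c4 c6 (LT k404 k396) (LT k75 k84) (LT k113 k131) (LT k116 k127) (LT k56 k54)
                    · obtain ⟨e19, l19⟩ := (h1 e18).resolve_right k369
                      have c19 : Core e0 e19 := CJ k369 l19
                      have k372 : e0 ≤ e19 := L1 l19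
                      have k373 : e18 ≤ e19 := L2 l19
                      have k378 : e15 ≤ e19 := le_trans k341 k373
                      have k400 : e16 ≤ e19 := L3 l16 k372 k378
                      have k407 : e6 ≤ e19 := le_trans k302 k400
                      have k408 : e19 ≤ e6 := Classical.byContradiction fun hn => HL _ _ _ _ _ _ c8 c11 c14 c17 c6 c19 (LT k136 k156) (LT k239 k237) (LT k337 k334) (LT k308 k316) (LT k407 hn)
                      have k410 : e18 ≤ e6 := le_trans k373 k408
                      obtain ⟨e20, l20⟩ := ZE h2 k344 k369 g8
                      have c20 : Core e0 e20 := CZ g8 k369 l20
                      have k415 : e8 ≤ e20 := L1 l20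
                      have k416 : e18 ≤ e20 := L2 l20
                      have k417 : e20 ≤ e6 := L3 l20 k83 k410
                      have k418 : e20 ≤ e7 := L3 l20 k76 k344
                      have k423 : e15 ≤ e20 := le_trans k341 k416
                      have k424 : ¬ e0 ≤ e20 := N2 k63 k418
                      have k427 : ¬ e6 ≤ e20 := N1 k424 k44
                      have k448 : ¬ e20 ≤ e17 := N1 k343 k416
                      have k452 : e17 ≤ e20 := L3 l17 k415 k423
                      exact HL _ _ _ _ _ _ c8 c11 c14 c17 c20 c6 (LT k136 k156) (LT k239 k237) (LT k337 k334) (LT k452 k448) (LT k417 k427)
        · obtain ⟨e8, l8⟩ := (h1 e7).resolve_right k72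
          have c8 : Core e0 e8 := CJ k72 l8
          have k75 : e0 ≤ e8 := L1 l8
          have k76 : e7 ≤ e8 := L2 l8
          have k80 : e5 ≤ e8 := le_trans k60 k76
          have k88 : ¬ e8 ≤ e6 := N1 k62 k76
          have k91 : e6 ≤ e8 := L3 l6 k75 k80
          obtain ⟨e9, q9⟩ : ∃ y, f e8 = y := ⟨_, rfl⟩
          have k96 : e7 ≤ e9 := MO hf q7 q9 k91
          have k97 : ¬ e8 ≤ e9 := FA hF q9
          have k98 : ¬ e9 ≤ e8 := FB hG q9
          have k99 : ¬ e0 ≤ e9 := L5 l8 k96 k97
          by_cases k111 : ∃ z, IsGLB ({e0, e9} : Set P) z
          · obtain ⟨e10, g10⟩ := k111
            have c10 : Core e0 e10 := CM g10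
            have k114 : e10 ≤ e0 := G1 g10
            have k115 : e10 ≤ e9 := G2 g10
            have k125 : ¬ e0 ≤ e10 := N2 k99 k115
            exact HL _ _ _ _ _ _ c10 c0 c2 c4 c6 c8 (LT k114 k125) (LT k6 k10) (LT k29 k28) (LT k56 k54) (LT k91 k88)
          · obtain ⟨e10, l10⟩ := (h1 e9).resolve_right k111
            have c10 : Core e0 e10 := CJ k111 l10
            have k114 : e0 ≤ e10 := L1 l10
            have k115 : e9 ≤ e10 := L2 l10
            have k120 : e7 ≤ e10 := le_trans k96 k115
            have k130 : ¬ e10 ≤ e8 := N1 k98 k115
            have k134 : e8 ≤ e10 := L3 l8 k114 k120
            exact HL _ _ _ _ _ _ c0 c2 c4 c6 c8 c10 (LT k6 k10) (LT k29 k28) (LT k56 k54) (LT k91 k88) (LT k134 k130)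
end Pool.Agent.TH447.FP
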