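import Mathlib.Order.Bounds.Basic
import Mathlib.Order.Monotone.Basic
import Mathlib.Order.Lattice

/-!
Elementary order rules used in the generated case analysis of the fixed point property for posets
with a special element.
-/

set_option autoImplicit false

namespace Pool.Agent.TH447.FP

variable {P : Type} [PartialOrder P]

theorem N1 {a b c : P} (h : ¬ a ≤ c) (h2 : a ≤ b) : ¬ b ≤ c := fun h3 => h (le_trans h2 h3)

theorem N2 {a d c : P} (h : ¬ a ≤ c) (h2 : d ≤ c) : ¬ a ≤ d := fun h3 => h (le_trans h3 h2)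

theorem FA {f : P → P} {a b : P} (hF : ∀ x, ¬ x ≤ f x) (q : f a = b) : ¬ a ≤ b := q ▸ hF a

theorem FB {f : P → P} {a b : P} (hG : ∀ x, ¬ f x ≤ x) (q : f a = b) : ¬ b ≤ a := q ▸ hG a

theorem MO {f : P → P} {a b c d : P} (hf : Monotone f) (q1 : f a = c) (q2 : f b = d) (h : a ≤ b) :
    c ≤ d := by
  rw [← q1, ← q2]; exact hf h

theorem NM {f : P → P} {a b c d : P} (hf : Monotone f) (q1 : f a = c) (q2 : f b = d)
    (h : ¬ c ≤ d) : ¬ a ≤ b := fun h3 => h (MO hf q1 q2 h3)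

theorem G1 {s y m : P} (g : IsGLB ({s, y} : Set P) m) : m ≤ s := g.1 (Set.mem_insert _ _)

theorem G2 {s y m : P} (g : IsGLB ({s, y} : Set P) m) : m ≤ y :=
  g.1 (Set.mem_insert_of_mem _ rfl)

theorem G3 {s y m c : P} (g : IsGLB ({s, y} : Set P) m) (h1 : c ≤ s) (h2 : c ≤ y) : c ≤ m := by
  apply g.2
  intro x hx
  simp only [Set.mem_insert_iff, Set.mem_singleton_iff] at hx
  rcases hx with rfl | rfl
  · exact h1
  · exact h2

theorem G4 {s y m c : P} (g : IsGLB ({s, y} : Set P) m) (h1 : c ≤ s) (h : ¬ c ≤ m) : ¬ c ≤ y :=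
  fun h3 => h (G3 g h1 h3)

theorem G5 {s y m c : P} (g : IsGLB ({s, y} : Set P) m) (h1 : c ≤ y) (h : ¬ c ≤ m) : ¬ c ≤ s :=
  fun h3 => h (G3 g h3 h1)

theorem L1 {a b z : P} (l : IsLUB ({a, b} : Set P) z) : a ≤ z := l.1 (Set.mem_insert _ _)

theorem L2 {a b z : P} (l : IsLUB ({a, b} : Set P) z) : b ≤ z :=
  l.1 (Set.mem_insert_of_mem _ rfl)

theorem L3 {a b z c : P} (l : IsLUB ({a, b} : Set P) z) (h1 : a ≤ c) (h2 : b ≤ c) : z ≤ c := by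
  apply l.2
  intro x hx
  simp only [Set.mem_insert_iff, Set.mem_singleton_iff] at hx
  rcases hx with rfl | rfl
  · exact h1
  · exact h2

theorem L4 {a b z c : P} (l : IsLUB ({a, b} : Set P) z) (h1 : a ≤ c) (h : ¬ z ≤ c) : ¬ b ≤ c :=
  fun h3 => h (L3 l h1 h3)

theorem L5 {a b z c : P} (l : IsLUB ({a, b} : Set P) z) (h1 : b ≤ c) (h : ¬ z ≤ c) : ¬ a ≤ c :=
  fun h3 => h (L3 l h3 h1)

theorem isGLB_of {s y m : P} (h1 : m ≤ s) (h2 : m ≤ y) (h3 : ∀ c, c ≤ s → c ≤ y → c ≤ m) :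
    IsGLB ({s, y} : Set P) m := by
  refine ⟨?_, fun c hc => h3 c (hc (Set.mem_insert _ _)) (hc (Set.mem_insert_of_mem _ rfl))⟩
  intro x hx
  simp only [Set.mem_insert_iff, Set.mem_singleton_iff] at hx
  rcases hx with rfl | rfl
  · exact h1
  · exact h2

theorem DBt {s y m a : P} (g : IsGLB ({s, y} : Set P) m) (h1 : m ≤ a) (h2 : a ≤ y) :
    ∃ z, IsGLB ({s, a} : Set P) z :=
  ⟨m, isGLB_of (G1 g) h1 fun _ hc1 hc2 => G3 g hc1 (le_trans hc2 h2)⟩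

theorem BN3 {s y m a : P} (g : IsGLB ({s, y} : Set P) m) (hB : ¬ ∃ z, IsGLB ({s, a} : Set P) z)
    (h : a ≤ y) : ¬ m ≤ a := fun h3 => hB (DBt g h3 h)

theorem D1 {s a : P} (h : a ≤ s) : ∃ z, IsGLB ({s, a} : Set P) z :=
  ⟨a, isGLB_of h le_rfl fun _ _ hc2 => hc2⟩

theorem D2 {s a : P} (h : s ≤ a) : ∃ z, IsGLB ({s, a} : Set P) z :=
  ⟨s, isGLB_of le_rfl h fun _ hc1 _ => hc1⟩

theorem BN1 {s a : P} (hB : ¬ ∃ z, IsGLB ({s, a} : Set P) z) : ¬ a ≤ s := fun h => hB (D1 h)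

theorem BN2 {s a : P} (hB : ¬ ∃ z, IsGLB ({s, a} : Set P) z) : ¬ s ≤ a := fun h => hB (D2 h)

theorem DC {s a b : P} (hD : ∃ z, IsGLB ({s, a} : Set P) z) (h1 : a ≤ b) (h2 : b ≤ a) :
    ∃ z, IsGLB ({s, b} : Set P) z := by
  have h : a = b := le_antisymm h1 h2
  rw [← h]; exact hD

theorem BC {s a b : P} (hB : ¬ ∃ z, IsGLB ({s, a} : Set P) z) (h1 : a ≤ b) (h2 : b ≤ a) :
    ¬ ∃ z, IsGLB ({s, b} : Set P) z := fun h => hB (DC h h2 h1)

theorem LT {a b : P} (h1 : a ≤ b) (h2 : ¬ b ≤ a) : a < b := lt_of_le_not_ge h1 h2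

theorem ZE {s : P}
    (h2 : ∀ x y : P, x < y → (¬ ∃ z : P, IsGLB ({s, x} : Set P) z) →
      ∀ m : P, IsGLB ({s, y} : Set P) m → ∃ z : P, IsLUB ({m, x} : Set P) z)
    {x y m : P} (h : x ≤ y) (hB : ¬ ∃ z, IsGLB ({s, x} : Set P) z)
    (g : IsGLB ({s, y} : Set P) m) : ∃ z : P, IsLUB ({m, x} : Set P) z := by
  refine h2 x y (lt_of_le_of_ne h ?_) hB m g
  rintro rfl
  exact hB ⟨m, g⟩

end Pool.Agent.TH447.FP
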