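import Pool.Agent.TH447.FP.Basic

/-!
The elements `m` and `m ∨ x` with `m ≤ s` and `x` without a meet with `s`.
-/

set_option autoImplicit false

namespace Pool.Agent.TH447.FP

variable {P : Type} [PartialOrder P]

/-- `z` is below `s`, or the join of some `m ≤ s` and some `x` that has no meet with `s`. -/
def Core (s z : P) : Prop :=
  z ≤ s ∨ ∃ m x : P, m ≤ s ∧ (¬ ∃ w : P, IsGLB ({s, x} : Set P) w) ∧ IsLUB ({m, x} : Set P) z

theorem CM {s y m : P} (g : IsGLB ({s, y} : Set P) m) : Core s m := Or.inl (G1 g)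

theorem CJ {s x z : P} (hB : ¬ ∃ w : P, IsGLB ({s, x} : Set P) w)
    (l : IsLUB ({s, x} : Set P) z) : Core s z := Or.inr ⟨s, x, le_rfl, hB, l⟩

theorem CZ {s y m x z : P} (g : IsGLB ({s, y} : Set P) m)
    (hB : ¬ ∃ w : P, IsGLB ({s, x} : Set P) w) (l : IsLUB ({m, x} : Set P) z) : Core s z :=
  Or.inr ⟨m, x, G1 g, hB, l⟩

end Pool.Agent.TH447.FP
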